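import Pool.Agent.Lib.H56.Gen.Data
import Pool.Agent.Lib.H56.Gen.PolyCheck
import Pool.Agent.Lib.H56.Gen.D3.Par

/-!
# Certificate data: polynomials
-/

set_option maxRecDepth 100000

namespace Pool.Agent.Lib.H56.Gen.D3

noncomputable def pd : PD := .mk [10000, -15569, 284, 3117, 2640, 2729, -3103]
  [-10987, 17313, 1522, -5061, -23593, 20535]
  [-7627, 13471, -1714, -9972, -1878, 7711] 10000 1156 3400 6168 10000 4096 1024

theorem okpar : okP par = true := by decide +kernel

theorem okpd : pdOK par pd = true := by decide +kernel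

end Pool.Agent.Lib.H56.Gen.D3
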