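import Pool.Agent.Lib.H56.Gen.D3.Par
import Pool.Agent.Lib.H56.Gen.D3.Cos

/-!
# Certificate tree V, part 0
-/

set_option maxRecDepth 100000

namespace Pool.Agent.Lib.H56.Gen.D3

open Tr

noncomputable def treeV0 : Tr := (F 0xfffffffffffffffffffffffffffffffffffffffff7bffe7fff (V (F 8 (U (T (F 2 (U (K 1) (V (K 1) (K 0)))) (F 1 (U (V (K 0) (K 1)) (V (K 0) (K 1))))) (T (F 2 (V (K 1) (K 0))) (F 1 (V (K 0) (F 1 (S (K 0) (K 0)))))))) (F 5 (U (T (U (K 0) (V (K 1) (K 0))) (K 1)) (T (V (K 1) (K 0)) (F 1 (V (K 0) (S (K 0) (K 0)))))))))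

theorem pV0 : chkV par treeV0 128 128 256 256 512 512 0 174762 Lc = true := by decide +kernel

noncomputable def v1_0 : Tr := (T (V (U (V (K 6) (T (S (S L L) (S L L)) (S (S L L) (S L L)))) (T (S (V L L) (V L L)) (S (V L (S L L)) (V (S L L) (S L L))))) (U (S (T (V (S L L) L) (V (S L L) (S L L))) (T (V (S L L) (S L L)) (V (S L L) (S L L)))) (S (T (V L L) (V (S L L) (S L L))) (T (V L L) (V (S L L) (S L L)))))) (V (U (S (T (V (K 6) (S L L)) (V (S L L) (S L L))) (T (V (S (K 6) L) (S L L)) (V (S L L) (S L L)))) (T (S (V (S L L) (S L L)) (V (S L L) (S L L))) (S (V (S L L) (S L L)) (V (S L L) (S L L))))) (U (T (S (V (S L L) (S L L)) (V (S L L) (S L L))) (S (V (S L L) (S L L)) (V (S L L) (S L L)))) (S (T (V (S L L) (S L L)) (V (S L L) (S L L))) (T (V (S L L) (S L L)) (V (S L L) (S L L)))))))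
noncomputable def v1_1 : Tr := (T (V (U (T (S (V (K 6) (S L L)) (V (S L L) (S L L))) (S (V (S (K 6) L) (S L L)) (U (K 3) (S L L)))) (T (S (V (S L L) (S L L)) (V (S L L) (S L L))) (S (V (S L L) (S L L)) (V (S L L) (S L L))))) (U (T (S (V (S L L) (S L L)) (V (S L L) (S L L))) (S (V (S L L) (S L L)) (U (K 3) (S L L)))) (T (S (V (S L L) (S L L)) (V (S L L) (S L L))) (S (V (S L L) L) (V (S L L) (S L L)))))) (U (V (S (T (V (S L L) (S L L)) (U (K 4) (S L L))) (T (U (K 3) (S L (K 3))) (K 3))) (S (T (V (S L L) (S L L)) (U (K 4) (S L L))) (T (U (K 3) (S L (K 3))) (K 4)))) (V (S (T (V (S L L) (S L L)) (V (S L L) (S L L))) (T (V (S L L) (S L L)) (V (S L L) (S L L)))) (T (S (V (S L L) (S L L)) (V L (S L L))) (S (V (S L L) (S L L)) (V (S L L) (S L L)))))))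
noncomputable def v1_2 : Tr := (T (U (V (K 6) (S (T (U (V (K 6) (V (K 6) (T (S (S L L) (S L (K 3))) (S (S L L) (K 4))))) (V (K 6) (T (S (V (S L L) (S L L)) (V (S L L) (S L L))) (S (V (S L L) (S L L)) (V (S L L) (S L L)))))) (U (K 4) (T (V (K 6) (S (V (S L L) (S L L)) (U (K 4) (S L L)))) (K 4)))) (T (U (K 3) (S (V (K 6) (T (V (S L L) (S L L)) (U (K 3) (S L (K 3))))) (K 3))) (K 3)))) (V (S (T (V (K 6) (U (K 6) (V (K 6) (U (K 6) (V (K 6) (T (S (K 6) L) (S L L))))))) (V (K 6) (U (K 6) (V (K 6) (U (K 6) (V (K 6) (T (S L L) (S L L)))))))) (T (V (K 6) (U (K 6) (V (K 6) (U (K 6) (V (K 6) (T L (S L L))))))) (V (K 6) (U (K 6) (U (K 6) (V (K 6) (V (K 6) (S L (S L L))))))))) (S v1_0 v1_1))) (U (K 4) (V (S (T (U (K 6) (V (K 6) (V (K 6) (U (K 6) (V (K 6) (T (S L L) (S (F 512 L) (F 512 L)))))))) (F 1967 (V (K 0) (K 1)))) (T (U (K 6) (V (K 6)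 (V (K 6) (U (K 6) (V (K 6) (S (S L L) L)))))) (K 4))) (S (T (V (U (T (S (U (K 4) (S L L)) (K 4)) (K 4)) (T (S (V (S L L) (S L L)) (V (S L L) (S L L))) (S (V (S L L) (S L L)) (U (K 4) (S L L))))) (U (T (S (U (K 4) (S L (K 4))) (K 4)) (K 4)) (S (T (V (S L L) (S L L)) (U (K 4) (S L L))) (T (V (S L L) (S L L)) (U (K 4) (S L (K 4))))))) (K 4)) (T (U (K 4) (V (T (S (V (S L L) (S L L)) (U (K 4) (S L L))) (F 2031 (S (K 0) (K 0)))) (T (S (V (S L L) (S L L)) (U (K 4) (S L L))) (K 4)))) (K 4))))))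
noncomputable def v1_3 : Tr := (S (T (U (K 6) (V (K 6) (S (U (K 6) (V (K 6) (T (S (T (F 5 L) (F 5 L)) (T (F 5 L) (F 5 L))) (T (S (F 5 L) (F 5 L)) (S (F 5 L) (F 5 L)))))) (U (K 6) (V (K 6) (T (S (T (F 5 L) (F 5 L)) (T (F 5 L) (F 5 L))) (S (T (F 5 L) (F 5 L)) (S (F 5 L) (F 5 L))))))))) (U (K 6) (V (K 6) (S (V (K 6) (T (U (K 6) (T (S (F 5 L) (F 5 L)) (S (F 5 L) (F 5 L)))) (U (U (K 6) (S (F 5 L) (F 5 L))) (S (F 5 L) (F 5 L))))) (V (K 6) (T (U (U (K 6) (S (S (F 5 L) (F 5 L)) (F 5 L))) (S (S (F 5 L) (F 5 L)) (F 5 L))) (S (U (F 5 L) (F 5 L)) (T (F 5 L) (F 517 L))))))))) (T (U (K 6) (V (K 6) (S (V (K 6) (T (U (K 6) (S (T (F 5 L) (F 5 L)) (S (F 5 L) (F 5 L)))) (U (V (K 6) (T (F 1029 (S (K 3) L)) (F 5 L))) (S (S (F 5 L) (F 5 L)) (F 5 L))))) (V (K 6) (T (U (U (K 6) (S (F 5 L) (F 5 L))) (T (F 1029 (S L L)) (F 5 L))) (S (U (S (F 5 L) (F 5 L))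 (F 5 L)) (F 1029 (U (S L L) L)))))))) (U (K 6) (V (K 6) (S (T (V (K 6) (S (U (S (F 5 L) (F 5 L)) (F 5 L)) (T (F 5 L) (F 1029 (S L L))))) (F 1541 (V (U (K 2) (S (K 2) L)) (U (S (S L L) L) (S L L))))) (F 1029 (T (V (U (K 3) (S (K 3) (F 1 L))) (S (U L (F 1 L)) (T L (F 1 L)))) (V (S (F 1 L) (F 1 L)) (U (S (F 1 L) (F 1 L)) (F 1 L))))))))))
noncomputable def v1_4 : Tr := (S (T (V (U (S (T (V L L) (V L L)) (T (V L L) (V L L))) (S (T (S L L) (S L L)) (T (S L L) (S L L)))) (U (T (S (S L L) (V L L)) (S (V L L) (V L L))) (T (S (S L L) (S L L)) (S (S L L) (S L L))))) (V (U (S (T (V L L) (V L L)) (T (V L L) (V L L))) (T (S (S L L) (S L L)) (S (S L L) (S L L)))) (U (T (S (V L (S L L)) (V L L)) (S (V (S L L) L) (V L L))) (S (T (S L L) (S L L)) (T (S L L) (S L L)))))) (T (V (U (S (T (V L L) (V L L)) (T (V L L) (V L L))) (S (T (S L L) (S L L))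 (T (S L L) (S L L)))) (U (T (S (V L L) (V L L)) (S (V L L) (V L (S L L)))) (S (T (S L L) (S L L)) (T (S L L) (S L L))))) (V (U (T (S (V L L) (V L L)) (S (V L L) (V L L))) (T (S (S L L) (S L L)) (S (S L L) (S L L)))) (U (S (T (V L L) (V L (S L L))) (T (V L L) (V L L))) (S (T (S L L) (S L L)) (T (S L L) (S L L)))))))
noncomputable def v1_5 : Tr := (S (T (V (T (U (S (S (F 5 L) (F 4 L)) (F 4 L)) (S (F 5 L) (S (F 5 L) (F 5 L)))) (U (S (F 4 L) (T (F 5 L) (F 5 L))) (S (F 5 L) (F 5 L)))) (U (S (T L L) (T L L)) (T (S (F 1 L) (F 1 L)) (S (F 1 L) (F 1 L))))) (V (U (V (T (S (F 5 L) (F 5 L)) (S (F 5 L) (F 5 L))) (S L L)) (T (S (F 5 L) (F 5 L)) (S (F 5 L) (F 5 L)))) (U (T (S L L) (S L L)) (T (S (F 1 L) (F 1 L)) (S (F 1 L) (F 1 L)))))) (T (V (U (V (T (S (F 5 L) (F 5 L)) (S (F 5 L) (F 5 L))) (S L L)) (S (T (F 5 L) (S (F 5 L) (F 5 L))) (T (F 5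 L) (F 5 L)))) (U (S (T L L) (T L L)) (S (T (F 1 L) (F 1 L)) (T (F 1 L) (F 1 L))))) (V (U (T (S (S (F 5 L) (F 5 L)) (S (F 5 L) (F 5 L))) (S (S (F 5 L) (F 5 L)) (S (F 5 L) (F 5 L)))) (S (T (F 5 L) (F 5 L)) (T (F 5 L) (F 5 L)))) (U (T (S L L) (S L (S (F 1 L) (F 1 L)))) (S (T (F 1 L) (F 1 L)) (T (F 1 L) (F 1 L)))))))
noncomputable def v1_6 : Tr := (S (T (U (V (T (S L (S (F 1 L) L)) (S L L)) (S (T L L) (T L L))) (V (S (T (F 1 L) (S (F 1 L) (F 1 L))) (T (S (F 1 L) (F 1 L)) (S (F 1 L) (F 1 L)))) (S (T (S (F 1 L) (F 1 L)) (S (F 1 L) (F 1 L))) (T (S (F 1 L) (F 1 L)) (S (F 1 L) (F 1 L)))))) (U (V (T (S (S (F 1 L) (F 1 L)) (S L L)) (S (S (F 1 L) L) L)) (S (T (S L L) (S L L)) (T (S L L) (S L L)))) (V (T (S (F 1 L) (S (F 1 L) (F 1 L))) (S (S (F 1 L) (F 1 L)) (S (F 1 L) (F 1 L)))) (T (S (S (F 1 L) (F 1 L)) (S (F 1 L) (F 1 L))) (S (S (F 1 L)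 (F 1 L)) (S (F 1 L) (F 1 L))))))) (T (V (U (S (T L L) (T L L)) (S (T (S (F 1 L) (F 1 L)) (S (F 1 L) (F 1 L))) (T (S (F 1 L) (F 1 L)) (F 1 L)))) (U (S (T L L) (T (S L L) (S L (F 1 L)))) (T (S (S (F 1 L) (F 1 L)) (S (F 1 L) (F 1 L))) (S (S (F 1 L) (F 1 L)) (S (F 1 L) (F 1 L)))))) (V (U (S (T L L) (T L L)) (T (S (F 1 L) (F 1 L)) (S (F 1 L) (F 1 L)))) (U (S (T (S L L) (S L L)) (T (S L L) L)) (S (T (S (F 1 L) (F 1 L)) (S (F 1 L) (F 1 L))) (T (S (F 1 L) (F 1 L)) (S (F 1 L) (F 1 L))))))))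
noncomputable def v1_7 : Tr := (S (T (V (U (S (T (V L (S L L)) (V L L)) (T (V (S L L) L) (V L L))) (S (T (S L L) (S L L)) (T (S L L) (S L L)))) (U (T (S (V L L) (V L L)) (S (V (S L L) L) (V L L))) (S (T (S L L) (S L L)) (T (S L L) (S L L))))) (V (U (S (T (V L L) (S L (K 4))) (T (T L L) (K 4))) (T (S (S L L) (S L L)) (S (S (F 1 L) L) L))) (U (S (T (V L L) (S L (K 4))) (T (V L L) (K 4))) (S (T (S L L) (S L L)) (T (S L L) L))))) (T (V (U (T (S (V L L) (V L L)) (S (V L L) (S L L))) (T (S (S L L) (S L L)) (S (S L L) (S L L)))) (U (T (S (V (S L L) L) (V L L)) (S (V L L) (V L L))) (T (S (S L L) (S L L)) (S (S L L) (S L L))))) (V (S (U (T (S L L) (K 4)) (T L L)) (U (F 2031 (S (K 0) (K 0))) (T L (F 512 L)))) (U (S (T (S L L) (K 4)) (K 4)) (T (S (S L L) L) (S L (F 512 L)))))))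
noncomputable def v1_8 : Tr := (S (T (V (U (S (T (S (F 5 L) (F 5 L)) (S (F 5 L) (F 5 L))) (T (S (F 5 L) (F 5 L)) (S (F 5 L) (F 5 L)))) (T (S (F 5 L) (F 5 L)) (S (F 5 L) (F 5 L)))) (S (U (T L L) (T (F 1 L) (F 1 L))) (U (T L (S (F 1 L) (F 5 L))) (T (F 1 L) (F 1 L))))) (V (U (S (T (S (F 5 L) (F 5 L)) (F 5 L)) (T (F 5 L) (F 5 L))) (S (T (F 5 L) (F 517 L)) (S (F 5 L) (F 5 L)))) (U (S (T (S (F 1 L) (F 1 L)) (F 1 L)) (T (F 1 L) (F 1 L))) (T (S (F 5 L) (F 5 L)) (S (F 5 L) (F 5 L)))))) (T (V (U (S (T (S (F 5 L) (F 5 L)) (S (F 5 L) (F 5 L))) (T (S (F 5 L) (F 5 L)) (F 5 L))) (T (S (F 5 L) (F 5 L)) (S (F 5 L) (F 1029 L)))) (U (S (T (S (F 1 L) (F 1 L)) (F 1 L)) (T (S (F 1 L) (F 5 L)) (F 1 L))) (S (S (F 1 L) (F 1 L)) (T (F 5 L) (F 5 L))))) (V (S (U (T (F 5 L) (F 517 L)) (F 5 L)) (T (S (F 5 L) (F 5 L)) (F 517 (S L L)))) (U (S (S (F 1 L) (F 1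 L)) (S (F 1 L) (F 513 L))) (S (T (F 5 L) (F 517 L)) (F 517 (T L L)))))))
noncomputable def v1_9 : Tr := (V v1_8 (S (T (V (U (T (S L L) (S L L)) (S (T (F 1 L) (F 1 L)) (T (F 1 L) (F 1 L)))) (U (T (S L (S L L)) (S (S L L) L)) (T (S (S (F 1 L) (F 1 L)) (S (F 1 L) (F 1 L))) (S (S (F 1 L) (F 1 L)) (S (F 1 L) (F 1 L)))))) (V (U (S (T L (S (F 1 L) (F 1 L))) (T (S (F 1 L) (F 1 L)) (F 1 L))) (S (T (F 1 L) (F 1 L)) (T (F 1 L) (F 513 L)))) (U (T (S L L) (S L (S (F 1 L) (F 1 L)))) (S (T (F 1 L) (F 1 L)) (T (F 1 L) (F 1 L)))))) (T (V (U (T (S L L) (S L (F 1 L))) (T (S (F 1 L) (F 1 L)) (S (F 1 L) (F 1 L)))) (U (T (S L L) (S L L)) (S (T (S (F 1 L) (F 1 L)) (F 1 L)) (T (F 1 L) (F 1 L))))) (V (S (U (T (F 1 L) (F 1 L)) (S (F 1 L) (F 1 L))) (T (V (F 1 L) (F 1 L)) (U (F 513 L) (F 517 L)))) (S (U (T L (F 1 L)) (S (F 1 L) (F 1 L))) (T (U (F 1 L) (F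 513 L)) (U (F 513 L) (F 513 L))))))))
noncomputable def v1_10 : Tr := (T (U (V (S (T (V (U (K 6) (V (K 6) (U (K 6) (S L L)))) (U (S (T (V L L) (V L L)) (T (V L L) (V L L))) (T (S (S L L) (S L L)) (S (S L L) (S L L))))) (V (U (K 6) (U (K 6) (V (K 6) (S L L)))) (U (S (T (V L L) (V L L)) (T (V L L) (V L L))) (S (T (S L L) (S L L)) (T (S L L) (S L L)))))) (T (V (U (K 6) (U (K 6) (V (K 6) (S L L)))) (U (S (T (V L L) (V L L)) (T (V L L) (V L L))) (S (T (S L L) (S L L)) (T (S L L) (S L L))))) (V (U (K 6) (V (K 6) (S (S L L) (S L L)))) (U (S (T (V L L) (V L L)) (T (V L L) (S L L))) (T (S (S L L) (S L L)) (S L (S L L))))))) v1_4) (V v1_5 v1_6)) (U (V (S (T (V (U (K 6) (V (K 6) (S (S L L) (S L L)))) (U (T (S (V L L) (S L L)) (S (S L L) (T L L))) (S (T (S L L) (S L L)) (T (S L L) L)))) (V (U (K 6) (V (K 6) (S L L))) (U (T (S (S L L) (S L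 L)) (S (S L L) (K 4))) (S (T L L) (T L L))))) (T (V (U (K 6) (V (K 6) (S (S L (F 4 L)) L))) (U (S (T (S L L) (S L L)) (T (S L L) (S L L))) (S (T L L) (T L L)))) (V (U (K 6) (T (S (F 4 L) (F 516 L)) (S (F 5 L) (F 517 L)))) (T (U (S (S L L) L) (S L (F 512 L))) (U (K 4) (S (F 512 L) (F 1536 L))))))) v1_7) v1_9))
noncomputable def v1_11 : Tr := (S (T (V (U (S (T (V L L) (V L L)) (T (V L L) (V L L))) (S (T (S L L) (S L L)) (T (S L L) (S L L)))) (U (S (T (V L (S L L)) (V L (S L L))) (T (V (S L L) L) (V L (S L L)))) (S (T (S L L) (S L L)) (T (S L L) (S L L))))) (V (U (S (T (V L L) (V L L)) (T (V L L) (S L L))) (S (T (S L L) (S L L)) (T (S L L) L))) (U (S (T (V L L) (V L L)) (T (V L L) (V L L))) (S (T (S L L) (S L L)) (T (S L L) (S L L)))))) (T (V (U (S (T (V L L) (S L L)) (T (S L (K 3)) (K 3))) (S (T (S L L) (S L L)) (T L L))) (U (S (T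 (V L L) (V L L)) (T (T L (K 3)) (K 3))) (S (T (S L L) (S L L)) (T (S L L) L)))) (V (U (S (T (S L (K 3)) (K 3)) (K 3)) (T (S L L) (S L (F 1024 L)))) (U (T (S (S L (K 3)) (K 3)) (K 3)) (S (T (S L L) L) (T L (F 1024 L)))))))
noncomputable def v1_12 : Tr := (S (T (V (U (S (T (S (F 5 L) (F 5 L)) (S (F 5 L) (F 5 L))) (T (S (F 5 L) (F 5 L)) (S (F 5 L) (F 5 L)))) (S (T (F 5 L) (F 5 L)) (T (F 5 L) (F 5 L)))) (U (S (T L L) (T L (S (F 1 L) (F 1 L)))) (S (T (F 1 L) (F 1 L)) (T (F 1 L) (F 1 L))))) (V (U (T (S (S (F 5 L) (F 5 L)) (S (F 5 L) (F 5 L))) (S (S (F 5 L) (F 5 L)) (F 5 L))) (S (T (F 5 L) (F 5 L)) (S (F 5 L) (F 5 L)))) (U (S (T (F 1 L) (S (F 1 L) (F 5 L))) (T (F 1 L) (F 1 L))) (T (S (F 1 L) (F 5 L)) (S (F 5 L) (F 5 L)))))) (T (V (U (S (T (S (F 5 L) (F 5 L)) (F 5 L)) (T (F 5 L) (F 5 L))) (S (S (F 5 L) (F 5 L)) (S (F 5 L) (F 5 L)))) (U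 (T (S (S (F 5 L) (F 1 L)) (F 1 L)) (S (F 1 L) (F 1 L))) (S (S (F 1 L) (F 1 L)) (T (F 5 L) (F 5 L))))) (V (S (U (T (F 5 L) (F 1029 L)) (S (F 5 L) (F 5 L))) (F 1029 (U (T L L) (S L L)))) (U (S (T (F 1 L) (F 1025 L)) (T (F 1025 L) (F 1029 L))) (S (T (F 5 L) (F 5 L)) (F 1029 (T L L)))))))
noncomputable def v1_13 : Tr := (S (T (V (U (S (T L L) (T L L)) (S (T (F 1 L) (F 1 L)) (T (F 1 L) (F 1 L)))) (U (S (T (S L L) (S L L)) (T (S L L) L)) (S (T (S (F 1 L) (F 1 L)) (S (F 1 L) (F 1 L))) (T (S (F 1 L) (F 1 L)) (F 1 L))))) (V (U (T (S L L) (S L (S (F 1 L) (F 1 L)))) (S (T (F 1 L) (F 1 L)) (T (F 1 L) (F 1 L)))) (U (S (T L L) (T L L)) (S (T (S (F 1 L) (F 1 L)) (F 1 L)) (T (F 1 L) (F 1 L)))))) (T (V (U (T (S L (S (F 1 L) (F 1 L))) (S (S (F 1 L) (F 1 L)) (S (F 1 L) (F 1 L)))) (S (T (F 1 L) (F 1 L)) (S (F 1 L) (F 1 L)))) (U (S (T L L) (T L (S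 (F 1 L) (F 1025 L)))) (S (T (F 1 L) (F 1 L)) (T (F 1 L) (F 1 L))))) (V (T (U (S (F 1 L) (F 1 L)) (S (F 1 L) (F 1025 L))) (S (U (F 1 L) (F 1025 L)) (U (F 1025 L) (F 1029 L)))) (T (U (S L (F 1 L)) (S (F 1 L) (F 1025 L))) (S (U (F 1 L) (F 1025 L)) (U (S (F 1025 L) (F 1025 L)) (F 1025 L)))))))
noncomputable def v1_14 : Tr := (V (S (T (V (U (K 6) (S (T (F 4 L) (F 1028 L)) (T (F 4 L) (F 1029 L)))) (U (S (T (S L L) L) (T L (K 3))) (S (T L (F 1 L)) (S L L)))) (V (F 1029 (U (F 215 (T (K 1) (K 0))) (S (T L (S (F 1 L) (F 1 L))) (T (S (F 1 L) (F 1 L)) (F 1 L))))) (U (F 2031 (S (K 0) (K 0))) (S (T (F 1024 L) (F 1540 (S L (F 128 L)))) (U (F 1536 L) (F 1537 (S L L))))))) (U (K 3) (T (S (V (F 1029 (T (S L (F 1 L)) L)) (T (F 1024 L) (F 1025 L))) (K 3)) (K 3)))) (S (T (V (U (S (T (S L L) (S L L)) (T (S L (K 3)) (K 3))) (S (T L L) (T L (F 1024 L))))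 (U (T (S (V L L) (S L (K 3))) (U (K 4) (S L (K 3)))) (T (S (S L L) L) (S L L)))) (U (K 4) (V (S (T (F 1024 L) (F 1536 L)) (T (F 1536 L) (K 4))) (S (T L (F 512 L)) (V (F 1536 L) (S (F 1536 L) (F 1536 L))))))) (T (U (K 3) (S (V (T (F 1024 L) (F 1536 L)) (T (S (F 1024 L) (F 1025 L)) (S (F 1536 L) (K 3)))) (K 3))) (U (K 4) (T (V (K 3) (S (F 1536 L) (K 3))) (K 4))))))
noncomputable def v1_15 : Tr := (V (S (T (V (T (U (S (F 5 L) (F 1029 L)) (F 1029 (S L L))) (S (S (F 5 L) (F 5 L)) (S (F 5 L) (F 1029 L)))) (U (S (T (F 1 L) (F 5 L)) (S (F 1 L) (F 1025 L))) (S (T (F 5 L) (F 1029 L)) (S (F 5 L) (F 5 L))))) (V (F 1029 (U (S (T L (F 1 L)) (S (F 1 L) (F 1 L))) (S (S (F 1 L) (F 1 L)) (F 1 L)))) (U (S (T (F 1025 L) (F 1541 (S L L))) (F 1537 (V (S (F 64 L) (F 64 L)) L))) (F 1029 (T (S L (F 1 L)) (S (F 1 L) (F 1 L))))))) (T (V (F 1029 (S (U (S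 L L) L) (T (S L (F 1 L)) (S (F 1 L) (F 1 L))))) (T (U (S (F 1025 L) (F 1029 L)) (F 1029 (S L (F 1 L)))) (S (V (F 1029 L) (F 1537 L)) (F 1541 (V L L))))) (F 1541 (V (U (S L L) (S L L)) (U (T (S L L) L) (S L L)))))) (S (T (V (U (S (T (S (F 1 L) (F 1 L)) (F 1 L)) (T (F 1 L) (F 1025 L))) (T (S (F 1 L) (F 1025 L)) (F 1 L))) (U (T (S L (S (F 1 L) (F 1 L))) (S (F 1 L) (F 1 L))) (T (S (F 1 L) (F 1025 L)) (S (F 1 L) (F 1025 L))))) (V (U (S (T (F 1025 L) (F 1537 L)) (F 1537 (T (S L (F 64 L)) L))) (S (F 513 L) (F 1537 (S L L)))) (S (U (T (F 1 L) (F 513 L)) (S (F 513 L) (F 513 L))) (F 1537 (U (T (S L L) L) (T L (F 64 L))))))) (T (V (S (U (T (F 1025 L) (F 1025 L)) (S (F 1025 L) (F 1025 L))) (U (T (F 1025 L) (F 1537 L)) (F 1537 L))) (T (U (S (F 1 L) (F 1025 L)) (S (F 1025 L) (F 1537 L))) (F 1537 (U (S (S L L) L) (S L (F 64 L)))))) (F 1537 (V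 (U (S (S L L) L) (S L (F 64 L))) (U (S (T L (F 64 L)) L) (S L L)))))))
noncomputable def v1_16 : Tr := (U (V (K 6) (S v1_2 (T (U (K 3) (V (S (T (U (K 6) (V (K 6) (V (K 6) (U (K 6) (V (K 6) (S (S L L) (S L L))))))) (U (K 6) (V (K 6) (S (V (K 6) (T (S L L) L)) (K 3))))) (K 3)) (S (T (V (U (S (T (U (K 3) (S L (K 3))) (K 3)) (K 3)) (S (T (V (S L L) (S L L)) (V (S L L) (S L L))) (U (K 3) (T (S L L) (S L (K 3)))))) (U (S (T (U (K 3) (S L (K 3))) (K 3)) (K 3)) (S (T (V (S L L) (S L L)) (V (S L L) (S L L))) (U (K 3) (T (S L L) (S L (K 3))))))) (U (K 3) (S (U (K 3) (V (T (S L L) (S L (K 3))) (T (S L L) (S L (K 3))))) (K 3)))) (K 3)))) (F 2023 (U (K 0) (V (K 1) (S (T (K 1) (K 0)) (K 0)))))))) (V v1_3 (S v1_10 (T (U (V (S (T (V (U (K 6) (V (K 6) (S (S L L) (S L L)))) (U (S (T (V L L) (V L L)) (T (T L L) (V L L))) (T (S (S L L) (S L L)) (S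 (S L L) L)))) (V (U (K 6) (V (K 6) (T (S (F 4 L) (F 4 L)) L))) (U (T (S (S L L) (S L L)) (S (S L L) (S L L))) (S (T L (S L (F 4 L))) (T L L))))) (T (V (U (K 6) (V (K 6) (S L L))) (U (S (T (S L L) (S L L)) (T (S L (K 3)) (K 3))) (S (T L L) (T L L)))) (V (U (K 6) (S (T (F 4 L) (F 1028 L)) (T (S (F 1028 L) (F 1029 L)) (F 1029 (S L (K 6)))))) (S (U (T (S L (K 3)) (K 3)) (T L (F 1024 L))) (U (K 3) (T (F 1024 L) (F 1028 L))))))) v1_11) (V v1_12 v1_13)) (U v1_14 v1_15)))))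
noncomputable def v1_17 : Tr := (V (S (T (V (F 517 (U (S (T L L) (T L (F 1 L))) (S (S L L) L))) (U (S (T (F 513 L) (F 513 L)) (T (F 513 L) (F 517 L))) (F 517 (S (T L L) (T L (F 1 L)))))) (F 517 (V (S (U L (F 1 L)) (T L (F 1 L))) (S (U (S L L) L) (U (S L (K 5)) (F 1 L)))))) (F 517 (T (V (S (U (S L L) L) (U (S (F 1 L) (F 1 L)) (F 1 L))) (T (U (S L L) (S (F 1 L) (F 1 L))) (S (S L L) (V (F 1 L) (F 1 L))))) (V (U (S (F 1 L) (K 5)) (S (F 1 L) (F 17 L))) (U (K 5) (S (F 1 L) (F 1 L))))))) (S (T (V (U (S (T (F 1 L) (F 513 L)) (T (S (F 513 L) (F 513 L)) (F 513 L))) (T (S (F 513 L) (F 513 L)) (F 517 (S L L)))) (U (T (S (F 1 L) (S (F 513 L) (F 513 L))) (S (S (F 513 L) (F 513 L)) (F 513 L))) (T (S (F 1 L) (F 513 L)) (S (F 513 L) (F 1537 L))))) (V (U (S (S (F 513 L) (F 513 L)) (K 4)) (S (F 513 L) (F 1537 L))) (U (S (T (F 513 L) (K 4)) (K 4))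 (S (F 513 L) (F 513 L))))) (T (V (S (U (T (F 513 L) (F 1537 L)) (F 513 L)) (F 1537 (U (T L (F 64 L)) L))) (S (U (T (F 513 L) (F 513 L)) (S (F 513 L) (F 513 L))) (T (V (F 513 L) (F 513 L)) (S (F 513 L) (F 1537 L))))) (F 1537 (U (K 4) (V (S (F 64 L) (F 64 L)) (S L (F 64 L))))))))
noncomputable def v1_18 : Tr := (S (T (U (V (S (T (U (K 4) (V (S (T (F 516 L) (F 517 (S L (K 5)))) (F 517 (T (S L L) (K 5)))) (S (T (F 512 L) (K 4)) (T (F 512 L) (K 4))))) (K 4)) (U (K 4) (T (T (U (K 4) (V (F 1541 (S L L)) (F 513 L))) (K 4)) (K 4)))) (S (T (U (K 4) (T (V (S L (F 512 L)) (S L (S (F 512 L) (K 4)))) (K 4))) (K 4)) (F 2031 (T (S (K 0) (K 0)) (K 0))))) v1_17) (F 1541 (U (K 4) (V (T (S (U (K 4) (V L L)) (K 4)) (K 4)) (F 111 (T (U (K 0) (S (S (K 0) (K 0)) (K 0))) (K 0))))))) (F 1537 (T (U (F 239 (V (S (S (K 0) (K 0)) (K 0)) (K 0))) (V (S (T (V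 (U (S (F 64 L) (F 64 L)) (S (F 64 L) (F 64 L))) (U (S (S (F 64 L) (F 64 L)) (F 64 L)) (S (F 64 L) (F 64 L)))) (U (K 4) (S (F 64 L) (F 64 L)))) (T (V (S (F 64 L) (F 64 L)) (S (S (F 64 L) (F 64 L)) (F 64 L))) (U (K 4) (S (F 64 L) (F 192 L))))) (S (T (V (U (S (S L L) L) (S L (F 64 L))) (U (S (T L (K 4)) L) (S L (F 64 L)))) (U (K 4) (V (F 64 L) L))) (T (V (U (S (F 64 L) (F 64 L)) (S (F 64 L) (F 192 L))) (S (S L L) L)) (F 239 (S (K 0) (K 0))))))) (K 4))))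
noncomputable def v1_19 : Tr := (V (S (T (V (U (S (T (F 5 L) (F 1029 L)) (F 1029 (T L L))) (F 1029 (T (S L L) (S L (F 1 L))))) (U (T (S (F 1025 L) (F 1025 L)) (S (F 1025 L) (F 1029 L))) (F 1029 (S (T L L) (S L L))))) (V (F 1029 (U (S (S L L) L) (S L (F 1 L)))) (U (S (T (F 1025 L) (F 1029 L)) (F 1029 (S L (K 6)))) (F 1029 (S (S L L) L))))) (T (V (F 1029 (U (T L (K 6)) (S L (F 1 L)))) (U (V (F 1029 (S L (K 6))) (F 1025 L)) (F 1029 (S L (F 1 L))))) (F 1541 (U (K 5) (V L (S L (K 5))))))) (S (T (V (U (T (S (F 1 L) (F 1025 L)) (S (F 1025 L) (F 1025 L))) (S (T (F 1025 L) (F 1025 L)) (S (F 1025 L) (F 1025 L)))) (U (T (S (F 1 L) (S (F 1025 L) (F 1025 L))) (S (S (F 1025 L) (F 1025 L)) (F 1025 L))) (S (T (F 1025 L) (F 1025 L)) (T (F 1025 L) (F 1029 L))))) (V (U (S (T (F 1025 L) (F 1537 L)) (F 1025 L)) (S (F 1025 L) (F 1537 L))) (T (U (S (F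 1025 L) (F 1025 L)) (S (F 1025 L) (F 1537 L))) (S (V (F 1025 L) (F 1025 L)) (S (F 1025 L) (F 1537 L)))))) (T (V (U (T (S (F 1025 L) (K 3)) (K 3)) (S (F 1025 L) (F 1537 L))) (U (T (S (F 1025 L) (K 3)) (K 3)) (S (F 1025 L) (F 1537 L)))) (U (K 3) (S (T (F 1025 L) (F 1537 L)) (K 3))))))
noncomputable def v1_20 : Tr := (V (F 1029 (S (T (U (K 3) (V (K 3) (T (S (V (K 3) (U (U (K 3) (S L L)) (S L L))) (V (S L (F 2 L)) (U (S L (K 6)) L))) (S (V (U (K 3) L) (U (S L (F 1 L)) L)) (U (K 6) (T (F 1 L) (F 1 L))))))) (U (K 6) (V (K 3) (S (T (V (T (F 1 L) (F 1 L)) (U (S (F 1 L) (K 6)) (F 1 L))) (U (K 6) (S (F 1 L) (F 3 L)))) (T (U (K 6) (F 1 L)) (K 6)))))) (T (U (K 6) (V (K 3) (U (K 6) (T (S (S (F 2 L) (K 6)) (K 6)) (K 6))))) (K 6)))) (S (T (U (V (S (T (U (K 3) (V (S (T (F 1028 L) (F 1029 (S L (K 6)))) (F 1029 (V (S L (K 6)) (K 6)))) (S (T (F 1024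 L) (F 1024 L)) (K 3)))) (K 3)) (K 3)) (S (T (U (K 3) (S (U (K 3) (V (S L (F 1024 L)) (T (F 1024 L) (F 1024 L)))) (K 3))) (K 3)) (K 3))) v1_19) (F 1537 (U (K 5) (V (S (T (V (U (S (F 64 L) (K 5)) (S (F 64 L) (F 65 L))) (U (S (T (F 64 L) (K 5)) (K 5)) (S (F 64 L) (F 64 L)))) (U (K 5) (T (F 64 L) (F 64 L)))) (K 5)) (S (T (V (U (T (S L (K 5)) (K 5)) (S L (F 64 L))) (U (T (S L (K 5)) L) (S L (F 64 L)))) (U (K 5) (V (F 64 L) L))) (U (K 5) (T (V (K 5) (F 64 L)) (K 5)))))))) (F 1029 (T (U (K 6) (V (U (K 6) (T (S (S L (K 6)) (K 6)) (K 6))) (K 6))) (K 6)))))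
noncomputable def v1_21 : Tr := (S (T v1_16 (U (F 1967 (V (K 0) (K 1))) (V (F 517 (S (T (U (K 3) (V (K 3) (S (T (V (K 3) (U (S (S L L) L) (S L L))) (V (U (K 3) (F 1 L)) (S (S L L) (T (F 1 L) (F 1 L))))) (T (V (U (K 3) (F 1 L)) (U (S (S (F 1 L) (F 1 L)) (F 1 L)) (S (F 1 L) (F 1 L)))) (V (S (F 1 L) (F 1 L)) (U (F 1 L) (F 1 L))))))) (U (K 5) (V (K 3) (T (U (K 5) (S (S (F 1 L) (F 17 L)) (F 1 L))) (K 5))))) (T (U (F 151 (V (K 2) (S (F 1 (T (K 0) (K 1))) (K 0)))) (V (K 3) (S (T (V (S (F 1 L) (F 1 L)) (S (S (F 1 L) (F 1 L)) (F 1 L))) (V (F 1 L) (S (F 1 L) (F 1 L)))) (T (V (F 1 L) (S (F 1 L) (F 1 L))) (S (F 1 L) (F 1 L)))))) (U (K 5) (V (U (K 3) (S (F 1 L) (F 5 L))) (F 17 (U (K 2) (T (S L L) (K 2))))))))) v1_18))) (T (U (K 3) v1_20) (F 1541 (U (K 5) (V (S (T (U (K 5) (S (T (V (K 2) (S L (K 5))) (K 5)) (K 5))) (K 5)) (K 5)) (S (T (U (K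 4) (V (U (K 5) (S (T (S L (K 5)) (K 5)) (K 5))) (S (T (U (K 4) (S L (K 5))) (K 4)) (K 5)))) (K 4)) (K 5)))))))
noncomputable def treeV1 : Tr := (F 0xfffffffffffffffdfffffffffffffffffff9fffff7bfde777b (V (F 1975 (U (K 0) (S (K 0) (T (K 0) (V (S (K 0) (T (K 0) (K 1))) (K 1)))))) (U (S (T (V (K 6) (U (K 3) (S (T (V (K 6) (U (K 6) (S (T (V (K 6) (U (K 6) (S (T (V (K 6) (S (T (V (K 6) (S L (K 4))) (K 4)) (K 4))) (K 4)) (K 4)))) (K 4)) (K 4)))) (K 4)) (K 3)))) (F 1967 (V (K 0) (K 1)))) (K 3)) (S (T (V (F 1975 (S (K 0) (T (K 0) (U (K 0) (V (K 0) (S (K 0) (K 1))))))) v1_21) (F 1959 (V (S (F 4 (T (U (K 1) (V (K 1) (S (K 1) (T (K 1) (K 0))))) (U (K 1) (V (K 1) (K 0))))) (K 2)) (F 1 (S (F 1 (T (U (K 0) (V (S (K 0) (K 0)) (K 0))) (K 0))) (T (U (K 1) (V (K 0) (K 1))) (K 1))))))) (F 1975 (T (V (S (T (U (K 0) (V (K 0) (S (K 0) (K 1)))) (K 1))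 (K 1)) (K 1)) (K 1)))))))

theorem pV1 : chkV par treeV1 128 128 128 128 256 256 174762 349525 Lc = true := by decide +kernel

noncomputable def treeV2 : Tr := (F 0xfffffffffffffff7ffffffffffffffffe7fffff7773bfeefff (S (T (F 1503 (V (K 0) (K 1))) (V (U (K 5) (S (T (K 9) (V (U (K 5) (S (T (K 9) (V (U (K 5) (S (T (K 9) (V (S (T (K 9) (S (V (S L (K 5)) (K 7)) (K 5))) (K 5)) (F 1887 (S (K 0) (K 1))))) (K 5))) (F 1887 (U (K 0) (S (K 0) (K 1)))))) (K 5))) (F 1887 (U (K 0) (S (K 0) (K 1)))))) (K 5))) (F 1879 (U (K 0) (S (K 0) (F 1 (T (K 1) (K 0)))))))) (F 2007 (T (K 0) (V (K 0) (U (K 0) (S (K 1) (K 0))))))))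

theorem pV2 : chkV par treeV2 128 128 384 128 128 128 174762 262143 Lc = true := by decide +kernel

noncomputable def v3_0 : Tr := (S (T (K 6) (U (K 6) (V (S (K 6) (T (K 6) (U (K 6) (V (S (K 6) (U (K 6) (S (K 6) (T (K 6) (S (F 2 L) (F 2 L)))))) (F 3 (S (K 1) (T (K 1) (U (K 1) (V (S (K 1) L) (S L L)))))))))) (S (K 6) (T (K 6) (U (K 6) (V (U (K 6) (T (K 6) (S (V (K 6) (F 1 L)) (S (S (F 1 L) (F 1 L)) (S (F 1 L) (F 1 L)))))) (S (U (K 6) (T (K 6) (S (F 5 L) (F 1 L)))) (T (F 3 (V (K 1) (S (K 1) L))) (V (U (K 6) (F 1 L)) (S (F 1 L) (F 1 L)))))))))))) (T (K 6) (U (K 3) (V (S (T (K 6) (U (K 3) (V (S (T (K 6) (U (K 6) (S (F 2 L) (F 2 L)))) (T (F 6 (U (K 1) (S L L))) (U (K 3) (S (F 2 L) (F 2 L))))) (S (T (K 6) (S (U (K 6) (S (F 2 L) (F 2 L))) (U (K 3) (S (F 2 L) (F 2 L))))) (U (K 3) (T (S (F 2 L) (K 3)) (S (S (F 2 L) (F 2 L)) (K 3))))))))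 (T (F 183 (U (K 0) (V (T (K 0) (K 1)) (K 1)))) (U (K 3) (V (S (U (K 3) (T (F 2 L) (F 130 (S L (K 3))))) (K 3)) (K 3))))) (S (T (F 183 (U (K 0) (V (K 0) (K 1)))) (U (K 3) (V (F 3 (S (U (K 4) (T (F 45 (S (K 1) (K 0))) (V (S L L) (S L L)))) (F 47 (T (K 0) (K 0))))) (S (U (K 3) (T (K 3) (S (F 1 L) (K 3)))) (K 3))))) (K 3))))))
noncomputable def treeV3 : Tr := (F 0xffffffffffffffffffffffffffffffffe7fffff7f73ffeefff (V v3_0 (S (T (F 183 (U (K 0) (V (K 0) (S (K 0) (S (K 0) (K 1)))))) (U (F 159 (V (K 0) (K 1))) (V (S (F 159 (T (K 0) (U (K 0) (T (V (K 0) (K 1)) (K 1))))) (T (F 159 (U (K 0) (V (K 0) (V (K 0) (K 1))))) (U (F 159 (V (K 0) (K 1))) (V (S (T (F 1 L) (S (F 17 L) (F 1 L))) (U (K 3) (T (F 1 L) (S (F 17 L) (F 1 L))))) (K 5))))) (K 5)))) (T (K 3) (U (K 3) (V (S (T (K 3) (U (K 3) (V (S (U (K 3) (T (K 3) (S (F 1 L) (K 3)))) (K 3)) (S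 (T (K 3) (S (K 5) (F 1 L))) (K 3))))) (K 3)) (F 215 (S (T (K 1) (K 0)) (K 1)))))))))

theorem pV3 : chkV par treeV3 64 64 320 64 128 128 262143 349525 Lc = true := by decide +kernel

noncomputable def v4_0 : Tr := (V (S (T (K 9) (U (S (K 9) (T (K 9) (S (K 9) (U (K 9) (V L L))))) (S (V (T (S (K 9) L) (S L L)) (T (S (K 9) (F 16 L)) (S L L))) (V (T (S L L) (S L L)) (T (S L L) (S L L)))))) (T (U (K 9) (T (K 9) (S (T (K 9) (V L L)) (V (S (F 16 L) (F 16 L)) (S (F 16 L) (F 16 L)))))) (S (V (U (T (K 9) (U (K 9) (S L L))) (T (S L L) (S L L))) (U (T (K 9) (U (K 9) (S L L))) (T (S L L) (S L L)))) (V (U (T (S (K 9) (S L L)) (S (S L L) (S L L))) (T (S L L) (S L L))) (U (T (S (K 9) (S L L)) (S (S L L) (S L L))) (T (S L L) (S L L))))))) (S (T (V (K 9) (U (K 9) (S (K 9) (T (K 9) (S (K 9) (F 18 L)))))) (U (S (K 9) (T (K 9) (U (K 9) (V (S L L) (S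 (F 16 L) (F 2 L)))))) (S (V (T (S (F 16 L) (F 16 L)) (S (F 16 L) L)) (T (S (F 19 (S L L)) (F 18 L)) (S (F 18 L) (F 2 L)))) (V (T (S (F 16 L) L) (S L L)) (T L (S (F 2 L) (F 2 L))))))) (T (U (K 9) (S (U (K 9) (T (K 9) (V (F 16 L) (F 16 L)))) (V (T (K 9) (S (F 16 L) (F 16 L))) (T (S (K 9) (F 272 L)) L)))) (S (V (U (T (K 9) (S (S L L) (T L L))) (T (S L L) (S L L))) (U (T (S (K 9) L) (S (S L L) (S L L))) (T (S (F 16 L) L) (S L L)))) (V (U (T (U (K 9) (S (F 16 L) L)) (S (S L L) (S L L))) (T (S L L) (S L (S L L)))) (U (T (U (K 9) (S (F 16 L) (F 16 L))) (S (S L L) (S L L))) (T (S L L) (S L L))))))))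
noncomputable def v4_1 : Tr := (S (T (S (V (U (T (K 9) (S (F 17 L) (F 17 L))) (S (F 17 L) (F 17 L))) (U (T (K 9) (S (F 17 L) (F 17 L))) (S (F 17 L) (F 17 L)))) (V (U (T (S (K 9) (F 17 L)) (S (F 17 L) (F 17 L))) (T (F 17 L) (S (F 17 L) (F 17 L)))) (U (T (S (F 17 L) (F 17 L)) (S (F 17 L) (F 17 L))) (S (F 17 L) (S (F 17 L) (F 17 L)))))) (S (V (T (U (S (S (F 17 L) (F 17 L)) (F 1 L)) (S (F 17 L) (F 17 L))) (U (S (F 1 L) (F 1 L)) (S (F 17 L) (F 17 L)))) (T (U (S (F 17 L) (F 1 L)) (S (F 19 L) (F 17 L))) (U (S (F 1 L) (F 1 L)) (S (F 17 L) (F 17 L))))) (V (U (T (S (F 1 L) (F 1 L)) (S (F 1 L) L)) (T (F 1 L) (S (F 17 L) (F 1 L)))) (U (T (S (F 1 L) (F 1 L)) (S (F 1 L) L)) (T (F 1 L) (S (F 17 L) (F 1 L))))))) (T (S (V (U (T (S (F 17 L) (F 17 L)) (S (F 17 L) (F 17 L))) (T (F 17 L) (S (F 17 L) (F 17 L)))) (U (T (S (F 17 L) (F 17 L)) (S (F 17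 L) (F 1 L))) (T (F 17 L) (S (F 17 L) (F 17 L))))) (V (T (U (S (F 17 L) (F 17 L)) (F 17 L)) (U (S (F 17 L) (F 17 L)) (F 1 L))) (T (U (S (F 17 L) (F 17 L)) (F 17 L)) (U (S (F 1 L) (F 1 L)) (F 1 L))))) (S (V (U (T (S (F 1 L) (F 1 L)) (S L L)) (T (S (F 17 L) (F 17 L)) (S (F 1 L) (F 1 L)))) (U (T (S (F 1 L) (F 1 L)) (S L L)) (T (S (F 17 L) (F 17 L)) (S (F 1 L) (F 1 L))))) (V (U (T (S (F 1 L) (F 1 L)) (S L (F 1 L))) (T (F 1 L) (S (F 1 L) (F 1 L)))) (U (T (S (F 1 L) (F 1 L)) (S L L)) (T (S (F 17 L) (F 17 L)) (S (F 1 L) (F 1 L))))))))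
noncomputable def v4_2 : Tr := (S (T (S (F 19 (V (U (T (K 1) (S L L)) (T L L)) (U (T L (S L L)) (S L L)))) (V (U (T (F 17 L) (S (F 17 L) (F 17 L))) (T (F 19 L) (F 17 L))) (F 19 (U (T L (S L L)) (S L L))))) (S (V (U (T (S (F 17 L) (F 17 L)) (S (F 17 L) (F 1 L))) (S (T (F 19 L) (F 3 L)) (F 1 L))) (T (F 19 (U (S L L) L)) (U (S (F 3 L) (F 3 L)) (F 3 L)))) (V (U (T (S (F 17 L) (F 1 L)) (S (F 1 L) (F 1 L))) (T (F 1 L) (F 1 L))) (U (S (T (F 3 L) (F 3 L)) (S (F 1 L) (F 1 L))) (T (F 3 L) (S (F 19 L) (F 3 L))))))) (T (S (V (U (T (S (F 273 L) (F 17 L)) (S (F 17 L) (F 17 L))) (S (F 17 L) (S (F 17 L) (F 17 L)))) (U (T (F 17 L) (S (F 19 L) (F 17 L))) (V (F 17 L) (F 19 (S (F 4 L) L))))) (V (T (U (S (F 17 L) (F 17 L)) (F 17 L)) (U (S (F 1 L) (F 1 L)) (F 1 L))) (U (T (F 17 L) (F 1 L)) (S (F 17 L) (F 17 L))))) (S (V (U (T (S (F 1 L) (F 1 L)) (S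 (F 1 L) (F 1 L))) (T (F 1 L) (S (F 3 L) (F 1 L)))) (U (T (S (F 17 L) (F 1 L)) (S (F 1 L) (F 1 L))) (T (S (F 19 L) (F 3 L)) (F 1 L)))) (V (U (T (S (F 1 L) (F 1 L)) (S L L)) (T (S (F 17 L) (F 17 L)) (S (F 1 L) (F 1 L)))) (U (T (S (F 1 L) (F 1 L)) (S (F 1 L) (F 1 L))) (T (F 1 L) (S (F 3 L) (F 1 L))))))))
noncomputable def v4_3 : Tr := (V (S (T (F 277 (U (K 1) (S (V L L) (V L (S L L))))) (V (S (U (T (K 9) (F 17 L)) (F 21 (T (F 4 L) L))) (F 277 (T (U (S L L) L) (U (S L L) L)))) (S (T (F 277 (U (K 1) L)) (U (F 17 L) (F 273 L))) (F 273 (U (T L (S L L)) (S L L)))))) (F 273 (T (S (V (U (S (K 1) (F 64 L)) (F 64 L)) (U (S (K 1) (F 64 L)) (F 64 L))) (V (T (F 64 L) (F 64 L)) (U (S (F 64 L) (F 64 L)) (F 64 L)))) (S (V (U (T (F 64 L) (S (F 64 L) (F 64 L))) (S (F 64 L) (F 64 L))) (U (T L (S L L)) (T (F 64 L) L))) (V (U (T (F 64 L) (F 64 L)) (S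 (F 64 L) (F 64 L))) (U (S L (T (F 64 L) (F 64 L))) (T (F 64 L) (F 64 L)))))))) (S (T (F 273 (U (K 1) (S (V L (F 128 L)) (V L L)))) (S (V (T (F 273 (U (S (K 1) L) L)) (U (F 17 L) (F 17 L))) (F 273 (U (T L (S L L)) (S L L)))) (F 273 (V (U (T (S L L) (S L L)) (S L L)) (U (T L (S L L)) (S L L)))))) (F 273 (T (S (V (U (S (K 1) L) L) (T L (S L L))) (V (U (S L (F 64 L)) (S (F 64 L) (F 64 L))) (U (S L L) L))) (S (V (U (T L (S L L)) (S L L)) (U (T (S L L) (S L L)) (S L (S L L)))) (V (U (T L (S L L)) (S L L)) (U (T (S (F 64 L) L) (S L L)) (S L L))))))))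
noncomputable def v4_4 : Tr := (S (T (V (S (U (K 9) (T (S (K 9) (F 17 L)) (S (F 16 L) (F 16 L)))) (T (U (K 9) (S (F 272 L) (F 272 L))) (U (S L L) L))) (S (U (K 9) (T (S (F 16 L) (F 16 L)) (S (F 16 L) (F 16 L)))) (T (U (K 9) (S (F 16 L) (F 256 L))) (U (S L (K 5)) (S (F 256 L) (F 1 L)))))) (S (V (U (T (U (K 9) (S L (F 16 L))) (S (S L L) (S L L))) (T (S L L) (S L L))) (U (T (S (S L L) (S L L)) (S (S L L) (S L L))) (T (S L L) (S L L)))) (V (U (T (S (S L L) L) (S (S L L) (S L L))) (T (S L (F 1 L)) (S L L))) (U (T (U (K 5) (S L (F 256 L))) (S (S L L) (S L L))) (T (S L L) (S L L)))))) (T (U (F 2015 (T (K 0) (K 0))) (S (V (T (F 16 L) L) (S (S L L) L)) (V (T (F 261 (S L L)) (S (F 260 L) (F 5 L))) (T (F 256 L) L)))) (S (V (U (T (S L L) (S (S L L) L)) (T (S (F 4 L) (F 4 L)) (S (F 1 L) L))) (U (U (K 5) (T (S L (K 5)) (S L L))) (T (S L L) (S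 L L)))) (V (U (T (K 5) (S L (K 5))) (T (S (F 4 L) (F 260 L)) (S (F 4 L) (F 4 L)))) (U (K 5) (T (S (F 1 L) (F 256 L)) (S L (F 1 L))))))))
noncomputable def v4_5 : Tr := (S (T (S (V (U (K 9) (T (S (F 16 L) (F 16 L)) (S L (F 16 L)))) (U (T (K 9) (S (K 9) L)) (T (S (F 16 L) (F 16 L)) (S (F 16 L) (F 1 L))))) (V (T (U (K 9) (S (F 16 L) (F 256 L))) (U (S L (K 5)) (S L L))) (U (K 5) (T L (S (F 256 L) (F 256 L)))))) (S (V (U (T (S (S L L) (S L L)) (S (S L L) (S L L))) (T (S L L) (S L L))) (U (T (V (S L L) (S (F 16 L) L)) (S (S L L) (T L L))) (T (S L L) (S L L)))) (V (U (T (U (K 5) (S L L)) (S (S L L) (S L L))) (T (S L L) (S L L))) (U (U (K 5) (T (S L (K 5)) (S L L))) (T (S L L) (S (S L L) L)))))) (T (U (K 5) (S (V (T L (S (F 256 L) (F 256 L))) (T (S (F 256 L) (F 256 L)) (S (F 256 L) L))) (U (K 5) (V (S (F 256 L) (F 256 L)) (T (K 5) (F 256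 L)))))) (S (V (U (T (K 5) (S (S L L) (K 5))) (T (S L L) (S L L))) (U (T (K 5) (S (S L L) (K 5))) (T (S L L) (S L L)))) (U (K 5) (V (T (S L L) (S L L)) (T (S L L) (S L L)))))))
noncomputable def v4_6 : Tr := (S (T (S (V (T (U (S (F 17 L) (F 21 L)) (F 17 L)) (U (S (F 17 L) (F 17 L)) (F 1 L))) (T (U (S (F 17 L) (F 17 L)) (F 17 L)) (U (S (F 1 L) (F 1 L)) (F 1 L)))) (V (U (T (F 17 L) (F 1 L)) (T (F 21 L) (F 5 L))) (T (U (S (F 17 L) (F 257 L)) (F 17 L)) (U (S (F 1 L) (F 1 L)) (F 1 L))))) (S (V (U (T (S (F 1 L) (F 1 L)) (S (F 1 L) (F 1 L))) (T (F 1 L) (S (F 5 L) (F 5 L)))) (U (T (S (F 1 L) (F 1 L)) (S L L)) (T (S (F 1 L) (F 1 L)) (S (F 1 L) (F 1 L))))) (V (U (T (S (F 1 L) (F 1 L)) (S (F 1 L) (F 1 L))) (T (S (F 5 L) (F 5 L)) (F 1 L))) (U (T (S (F 1 L) (F 1 L)) (S L (F 1 L))) (T (S (F 5 L) (F 5 L)) (S (F 1 L) (F 1 L))))))) (T (S (V (S (U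 (S (F 257 L) (F 5 L)) (F 5 L)) (U (S (F 5 L) (F 5 L)) (F 261 L))) (U (S (S (F 1 L) (F 1 L)) (F 1 L)) (S (F 1 L) (F 257 L)))) (V (U (T (F 277 (S L L)) (F 5 L)) (F 261 (S L L))) (U (T (F 257 L) (F 1 L)) (T (F 261 L) (F 5 L))))) (S (V (U (S (T (F 5 L) (F 1 L)) (T (F 5 L) (F 5 L))) (T (F 5 L) (S (F 5 L) (F 261 L)))) (U (T (S (F 1 L) (F 1 L)) (S (F 1 L) (F 1 L))) (T (F 1 L) (S (F 5 L) (F 5 L))))) (V (U (T (S (F 5 L) (F 261 L)) (S (F 5 L) (F 5 L))) (T (F 5 L) (F 5 L))) (U (T (S (F 5 L) (F 257 L)) (S (F 1 L) (F 1 L))) (S (F 1 L) (S (F 1 L) (F 5 L))))))))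
noncomputable def v4_7 : Tr := (S (T (S (V (T (U (S (F 17 L) (F 17 L)) (F 17 L)) (U (S (F 1 L) (F 1 L)) (F 1 L))) (T (U (S (F 17 L) (F 17 L)) (F 17 L)) (U (S (F 1 L) (F 1 L)) (F 1 L)))) (V (U (S (S (F 1 L) (F 1 L)) (S (F 1 L) (F 1 L))) (S (F 1 L) (F 1 L))) (U (T (F 1 L) (S (F 1 L) (F 1 L))) (S (F 1 L) (F 1 L))))) (S (V (U (T (S (F 1 L) (F 1 L)) (S L L)) (T (S (F 17 L) (F 1 L)) (S (F 1 L) (F 1 L)))) (U (T (S (F 1 L) (F 1 L)) (S (F 1 L) L)) (T (S (F 3 L) (F 3 L)) (S (F 1 L) (F 1 L))))) (V (U (T (S (F 1 L) (F 1 L)) (S L L)) (T (S (F 1 L) (F 1 L)) (S (F 1 L) (F 1 L)))) (U (T (S (F 1 L) (F 1 L)) (S L L)) (T (S (F 1 L) (F 1 L)) (S (F 1 L) (F 1 L))))))) (T (S (V (U (T (F 1 L) (S (F 1 L) (F 1 L))) (S (F 1 L) (F 1 L))) (U (S (T (F 257 L) (F 1 L)) (S (F 1 L) (F 1 L))) (S (F 1 L) (F 1 L)))) (V (T (U (S (F 257 L) (F 257 L)) (F 257 L)) (U (S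 (F 257 L) (F 257 L)) (F 1 L))) (T (U (S (F 257 L) (F 257 L)) (F 257 L)) (U (S (F 1 L) (F 257 L)) (F 1 L))))) (S (V (U (T (S (F 1 L) (F 1 L)) (S L L)) (T (S (F 257 L) (F 257 L)) (S (F 1 L) (F 1 L)))) (U (T (S (F 1 L) (F 1 L)) (S L L)) (T (S (F 257 L) (F 257 L)) (S (F 1 L) (F 1 L))))) (V (U (T (S (F 1 L) (F 1 L)) (S (F 1 L) (F 1 L))) (T (F 1 L) (S (F 1 L) (F 257 L)))) (U (T (S (F 1 L) (F 1 L)) (S (F 1 L) L)) (T (S (F 257 L) (F 257 L)) (S (F 1 L) (F 1 L))))))))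
noncomputable def v4_8 : Tr := (S (T (U (K 9) (V (S (T (K 9) (T (K 9) (U (K 9) (S (F 17 L) (S (F 17 L) (F 17 L)))))) (T (K 9) (S (U (K 9) (V (F 17 L) (F 273 (S L L)))) (V (S (T (F 273 L) (F 17 L)) (T (F 273 L) (F 17 L))) (T (F 277 (U (K 1) L)) (S (F 17 L) (F 17 L))))))) (S (F 19 (T (K 1) (U (K 1) (S (T (K 1) (S (F 4 L) L)) (V (S (F 4 L) (F 4 L)) (S (F 4 L) (F 4 L))))))) (T (F 275 (U (K 1) (S (K 1) (V L L)))) (V (S (F 273 (U (K 1) (S (F 128 L) L))) (T (F 275 (U (K 1) L)) (S (F 17 L) (F 17 L)))) (S (F 19 (T (S (F 4 L) (F 4 L)) (U L (F 4 L)))) (U (T (K 9) (F 17 L)) (F 19 (T (F 4 L) L))))))))) (U v4_0 (V v4_1 v4_2))) (T (U (V (S (K 9) (T (K 9) (U (K 9) (V (F 273 (S (U (K 1) (V (S (F 64 L) (F 64 L)) L)) (U (K 4) (T (F 64 L) (F 64 L))))) (S (T (K 9) (S (F 272 L) (F 273 L))) (F 273 (S (T (K 1) L) (K 4)))))))) (S (T (K 9) (S (K 9) (U (K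 9) (S (K 9) (T (K 9) (V (F 272 L) (F 272 L))))))) (T (K 9) (S (U (K 9) (T (K 9) (U (K 5) (V (F 272 L) (F 272 L))))) (K 5))))) v4_3) (U (V v4_4 v4_5) (V v4_6 v4_7))))
noncomputable def v4_9 : Tr := (V (S (T (F 19 (S (V (U (S (F 4 L) L) L) (S L L)) (V (U (S L L) (S (F 4 L) L)) (U (S (F 4 L) L) L)))) (S (V (T (F 19 (U L L)) (U (F 3 L) (F 19 L))) (F 19 (U (K 3) (S L L)))) (V (U (T (F 3 L) (S (F 3 L) (F 3 L))) (S (F 3 L) (F 3 L))) (T (S (F 19 L) (F 3 L)) (S (F 3 L) (F 3 L)))))) (T (S (F 19 (V (U (T L (S L L)) (S L L)) (U (S L L) L))) (V (U (F 19 (T (S (F 4 L) (F 4 L)) (S L L))) (T (F 19 L) (F 3 L))) (T (F 19 (S L L)) (S (F 3 L) (F 3 L))))) (S (V (U (T (S (F 19 L) (F 3 L)) (S (F 3 L) (F 3 L))) (T (F 3 L) (F 3 L))) (U (T (F 3 L) (S (F 19 L) (F 3 L))) (S (F 3 L) (F 3 L)))) (V (U (S (T (F 3 L) (F 3 L)) (T (F 3 L) (F 1 L))) (T (F 3 L) (S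 (F 3 L) (F 3 L)))) (U (T (F 3 L) (S (F 3 L) (F 3 L))) (S (F 3 L) (F 3 L))))))) (S (F 275 (T (U (K 2) (T (S (K 2) L) (K 2))) (K 2))) (V (T (S (F 275 (U (K 2) L)) (T (F 275 (S L L)) (F 3 L))) (S (U (K 7) (F 3 L)) (U (T (F 3 L) (F 3 L)) (S (F 3 L) (F 3 L))))) (K 7))))
noncomputable def v4_10 : Tr := (T (F 275 (U (F 121 (V (K 1) (S (K 1) (S (K 1) (K 0))))) (V (S (T (K 1) (S (U (K 1) (S L L)) (V (U (K 1) L) (S L L)))) (T (U (K 1) (S (S L L) (S L L))) (S (V (U (S L L) L) (U L L)) (V (U (T (K 1) (S L L)) (S L L)) (U (S L L) L))))) (S (U (K 2) (T L (S (K 2) L))) (T (S (S L L) (V L L)) (S (U (K 2) (S L L)) (V (U L L) (S (K 2) L)))))))) (U (V (S (T (F 19 (V (U (K 1) (S (K 1) (U (K 1) (S L L)))) (K 3))) (U (K 7) (V (S (F 19 (T (S (K 3) L) (K 3))) (V (S (F 2 L) (F 2 L)) (K 7))) (K 7)))) (T (S (U (K 9) (V (T (K 9) (S (F 19 L) (F 18 L))) (F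 19 (T L (S (K 3) L))))) (U (F 1407 (V (K 0) (K 1))) (V (T (S (F 19 L) (F 274 L)) L) (T (F 275 (S L L)) (S (F 19 L) (F 3 L)))))) (V (S (U (V (T L L) (K 7)) (S (T (F 18 L) (F 2 L)) (S L L))) (U (T (S L L) (S L (S L L))) (T L (S (F 2 L) L)))) (U (K 7) (S (K 7) (V (S (F 2 L) (F 2 L)) (K 7))))))) (K 7)) v4_9))
noncomputable def v4_11 : Tr := (V (S (F 273 (T (S (U (K 1) (V (F 128 L) (F 128 L))) (V (U (S (K 1) (F 128 L)) (F 128 L)) (U (F 128 L) (F 128 L)))) (S (V (U (S (S (F 128 L) (F 128 L)) L) (S (F 128 L) (F 128 L))) (U (S (F 128 L) (F 128 L)) (S (F 128 L) (F 128 L)))) (V (U (T L (S (F 128 L) L)) (S (S (F 128 L) (F 128 L)) L)) (U (T (F 128 L) (S (F 128 L) (F 128 L))) (S (F 128 L) (F 128 L))))))) (T (F 273 (S (V (U (S L (F 128 L)) (S (F 128 L) (F 128 L))) (U (S (F 128 L) (F 128 L)) (F 128 L))) (V (U (S L L) L) (U (S (F 128 L) (K 4))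 (F 128 L))))) (V (F 273 (S (U (T L (S L L)) (S L L)) (U (T (S (F 128 L) (F 128 L)) (S L L)) (S L L)))) (S (F 273 (U (S (T (F 128 L) (F 128 L)) L) (S (F 128 L) (F 128 L)))) (U (F 273 (T L (S (F 128 L) L))) (F 259 (T (F 32 L) L))))))) (F 259 (S (T (S (V (S (F 32 L) (F 32 L)) (F 32 L)) (V (S (F 32 L) (F 32 L)) (F 32 L))) (S (V (U (S (F 32 L) (F 32 L)) (F 32 L)) (S (F 32 L) (F 32 L))) (V (U (S (F 32 L) (F 32 L)) (F 32 L)) (U (S (F 32 L) (F 32 L)) (F 32 L))))) (T (S (V (U (F 32 L) (F 32 L)) (S (F 32 L) (F 32 L))) (V (U (S (F 32 L) (K 4)) (F 32 L)) (S (F 32 L) (F 32 L)))) (S (V (U (T (F 32 L) (F 32 L)) (S (F 32 L) (F 32 L))) (U (S (F 32 L) (F 32 L)) (F 32 L))) (V (T (U (F 32 L) (F 32 L)) (S L L)) (T (S (F 32 L) (F 32 L)) (S (F 32 L) L))))))))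
noncomputable def v4_12 : Tr := (V (S (T (U (T (K 5) (S (V (S L L) L) (K 5))) (S (V (T (F 16 L) L) (T (F 19 (S L L)) (F 2 L))) (V (S L L) (T (F 256 L) (F 256 L))))) (S (V (U (T (S L L) (S (S L L) (S L L))) (T (S (F 1 L) L) (S L L))) (U (V (T L L) (K 7)) (S (T (F 3 L) (F 2 L)) (S L L)))) (V (U (U (K 5) (T (S (F 256 L) (K 5)) (S L L))) (T (S L L) (S L L))) (U (U (K 5) (T L (S (F 2 L) (F 2 L)))) (T (S (F 2 L) (F 2 L)) (S (F 2 L) L)))))) (T (U (K 5) (S (V (T (S (F 256 L) (F 256 L)) (S (F 256 L) (F 256 L))) (T (F 256 L) L)) (S (T (K 5) (V (F 256 L) (F 256 L))) (K 5)))) (S (V (U (T (K 5) (S (S L (K 5)) (K 5))) (T (S L L) (S L L))) (U (T (K 5) (S (S L L) (K 5))) (T (S (F 1 L) (F 1 L)) (S L L)))) (U (K 5) (V (T (S L L) (S L L)) (T (S (F 256 L) L) (S L L))))))) (S (T (U (K 7) (V (S (F 275 (T (S (K 2) L) (K 2))) (T (F 259 (S (F 32 L) L))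 (S (F 259 L) (F 3 L)))) (K 7))) (U (K 7) (S (K 7) (V (V (S (F 2 L) (F 2 L)) (K 7)) (K 7))))) (T (U (K 5) (S (V (V (F 256 L) (T (F 259 L) (F 3 L))) (F 259 (T L (K 2)))) (T (K 5) (V (S (F 258 L) (K 5)) (F 259 (S L L)))))) (U (V (S (T (K 5) (S L L)) (K 5)) (K 7)) (S (V (S (T (F 3 L) (F 2 L)) (S L L)) (K 7)) (V (T L L) (V (S (F 2 L) (F 2 L)) (K 7))))))))
noncomputable def v4_13 : Tr := (S (T (S (V (U (T (F 17 L) (F 1 L)) (T (F 19 L) (F 3 L))) (T (F 19 (U L (F 4 L))) (U (F 3 L) (F 259 L)))) (V (U (S (F 1 L) (S (F 1 L) (F 1 L))) (S (F 257 L) (F 257 L))) (S (U (F 3 L) (F 259 L)) (U (S (F 3 L) (F 257 L)) (F 3 L))))) (S (V (U (T (S (F 3 L) (F 1 L)) (S (F 1 L) (F 1 L))) (T (S (F 3 L) (F 3 L)) (F 1 L))) (U (T (S (F 3 L) (F 3 L)) (S (F 3 L) (F 3 L))) (T (F 3 L) (S (F 3 L) (F 3 L))))) (V (U (T (S (F 1 L) (F 1 L)) (S (F 1 L) (F 1 L))) (T (F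 1 L) (S (F 3 L) (F 1 L)))) (U (S (T (F 3 L) (F 1 L)) (T (F 3 L) (F 1 L))) (T (F 259 (S L L)) (S (F 3 L) (F 3 L))))))) (T (S (V (T (U (S (F 257 L) (F 257 L)) (F 257 L)) (U (S (F 257 L) (F 257 L)) (F 1 L))) (U (T (F 257 L) (F 1 L)) (T (F 259 L) (F 3 L)))) (V (T (U (S (F 257 L) (F 257 L)) (F 257 L)) (U (S (F 1 L) (F 1 L)) (F 1 L))) (U (T (S (F 259 L) (F 273 L)) (S (F 257 L) (F 257 L))) (S (F 257 L) (F 257 L))))) (S (V (U (T (S (F 1 L) (F 1 L)) (S (F 1 L) (F 1 L))) (T (F 1 L) (S (F 1 L) (F 3 L)))) (U (T (S (F 3 L) (F 1 L)) (S (F 1 L) (F 1 L))) (T (S (F 259 L) (F 3 L)) (F 1 L)))) (V (U (T (S (F 1 L) (F 1 L)) (S (F 1 L) (F 1 L))) (T (F 1 L) (S (F 257 L) (F 257 L)))) (U (T (S (F 1 L) (F 1 L)) (S (F 1 L) (F 1 L))) (T (F 1 L) (F 1 L)))))))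
noncomputable def v4_14 : Tr := (S (T (S (T (F 275 (V (U (S L L) L) (S L L))) (V (S (F 3 L) (F 3 L)) (F 3 L))) (V (T (F 259 (U L (F 32 L))) (S (F 3 L) (F 3 L))) (T (F 259 (S (F 32 L) L)) (S (F 259 L) (F 3 L))))) (S (V (U (T (F 3 L) (S (F 3 L) (F 3 L))) (S (F 3 L) (F 3 L))) (U (K 7) (S (F 259 L) (F 3 L)))) (V (U (T (F 259 (S L L)) (S (F 3 L) (F 3 L))) (S (F 3 L) (F 3 L))) (U (T (F 3 L) (F 3 L)) (S (F 3 L) (F 3 L)))))) (T (S (V (T (F 259 (U (S (F 32 L) (F 32 L)) L)) (S (F 3 L) (F 3 L))) (F 259 (U (V L L) (S (F 32 L) L)))) (V (U (V (S (F 257 L) (F 257 L)) (F 259 (S L L))) (F 259 (T L (S L L)))) (F 259 (U (T L (S L L)) (S L L))))) (S (V (U (T (S (F 3 L) (F 3 L)) (S (F 3 L) (F 3 L))) (T (F 3 L) (F 3 L))) (U (T (F 3 L) (F 3 L)) (S (F 3 L) (F 3 L)))) (V (U (S (T (F 3 L) (F 3 L)) (S (F 1 L) (F 1 L))) (T (F 3 L) (F 259 (S L L)))) (U (T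 (F 3 L) (S (F 3 L) (F 3 L))) (S (F 3 L) (F 3 L)))))))
noncomputable def v4_15 : Tr := (T (U (F 1503 (V (S (K 0) (S (K 0) (K 1))) (S (K 0) (K 1)))) (S (V (T (S (K 9) (V L L)) (S (V L L) (V L L))) (T (S (K 9) (V L L)) (S (V L L) (V L L)))) (V (T (U (K 9) (S L L)) (S (V L L) (V L L))) (T (S (V L L) (V L L)) (S (V L L) (V L L)))))) (U (V (S (T (S (V L L) (V L (S L L))) (S (V (S L L) (S L L)) (V L (S L L)))) (T (U (K 5) (S (S L L) (S L (K 5)))) (S (V L L) (U (K 5) (S L L))))) (S (T (S (U (K 9) (S L L)) (U (K 5) (S L L))) (S (V (S L L) (S L L)) (V (S L L) (S L L)))) (T (S (V L (S L L)) (K 5)) (U (K 5) (S (S L L) (S L L)))))) (S (V (T (S (V L L) (V L L)) (S (V L L) (V L L))) (T (S (V L L) (V (S L L) L)) (S (V L L) (V L L)))) (V (T (S (V L L) (V L L)) (S (V L L) (V L L))) (T (S (V L L) (V L L)) (S (V L L) (V L (S L L))))))))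
noncomputable def v4_16 : Tr := (S (T (U (K 9) (S (V (T (K 9) (U (K 9) (S L L))) (K 7)) (V (T (K 9) (S (V L L) (V L L))) (S (K 7) (V (T (K 9) L) (K 7)))))) (U (V (S (T (K 9) (S (K 7) (V (S (K 7) L) (K 7)))) (T (U (K 9) (T (K 9) (S L L))) (S (V L (K 7)) (V L (S (K 7) L))))) (K 7)) (S (V (T (S (V L (K 7)) (V L L)) (S (V L (K 7)) (V L L))) (K 7)) (V (T (S (V L L) (V L L)) (S (V L L) (V L L))) (S (K 7) (V (T L L) (K 7))))))) (T (U (F 1503 (V (S (K 0) (K 1)) (S (S (K 0) (K 1)) (K 1)))) (S (V (T (U (K 9) (S L L)) (S (V L L) (V L L))) (T (U (K 9) (S L L)) (S (V L (K 7)) (V L L)))) (V (T (S (V L L) (V L L)) (S (V L L) (V L L))) (T (U (K 5) (S L L)) (S (V L L) (V L L)))))) (U (V (S (T (S (U (K 9) (S L L)) (U (K 5) (S L L))) (S (V (S L L) (S L L)) (V (S L L) L))) (U (K 5) (T (S (S L L) (K 5)) (S (S L L) L)))) (S (V (S (K 7) (T (S (K 7) L)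 L)) (K 7)) (T (S (V (S L L) (K 7)) (K 5)) (S (V L (K 7)) (V L (S (K 7) L)))))) (S (V (T (S (V L L) (V L L)) (S (V L L) (V L L))) (T (S (V L (K 7)) (V L L)) (S (V L (K 7)) (V L L)))) (V (T (S (V L L) (V L L)) (S (V L L) (V L L))) (T (S (V L L) (V L L)) (S (V L L) (V L L))))))))
noncomputable def v4_17 : Tr := (T (U (F 1503 (V (S (K 0) (K 1)) (S (K 0) (K 1)))) (V (S (T (U (K 9) (T (K 9) (S L L))) (S (V (S L L) (S L L)) (V L L))) (T (S (U (K 9) (S L L)) (U (K 5) (S L L))) (S (V L L) (V (S L L) (S L L))))) (S (V (T (U (K 9) (S L L)) (S (S L L) (S L L))) (K 7)) (T (S (U (K 9) (S L L)) (U (K 5) (S L L))) (S (V L (S L L)) (V L L)))))) (U (V (S (T (S (U (K 9) (S L L)) (U (K 5) (S L L))) (S (V (S L L) (S L L)) (V (S L L) (S L L)))) (T (U (K 5) (S (S L L) (S L L))) (S (V (S L L) (S L L)) (U (K 5) (S L L))))) (S (K 7) (V (T (U (K 5) (S L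 L)) (S (S L L) (S L L))) (K 7)))) (V (S (T (S (V (S L L) (S L L)) (V L (S L L))) (S (V L L) (V L L))) (T (S (V L L) (V (S L L) L)) (S (V L L) (V L L)))) (S (V (T (S (S L L) L) (S (S L L) L)) (K 7)) (T (S (V (S L L) (S L L)) (V L (S L L))) (S (V (S L L) L) (V L L)))))))
noncomputable def v4_18 : Tr := (V (S v4_17 (T (U (K 5) (V (S (T (U (K 5) (S (S L L) (S L (K 5)))) (S (V (S L L) L) (V (S L L) L))) (T (K 5) (V (K 6) (U (K 5) (S L L))))) (S (T (U (K 5) (S (S L L) (S L (K 5)))) (S (V (S L L) L) (U (K 5) (S L L)))) (T (K 5) (U (K 5) (S (S L L) (S L (K 5)))))))) (U (F 2007 (V (S (T (K 0) (K 1)) (K 0)) (T (K 0) (K 1)))) (V (S (T (S (V (S L L) L) (V (S L L) (S L L))) (S (V L L) (V (S L L) (S L L)))) (V (K 6) (T (S L (S L L)) (S (S L L) (K 3))))) (S (T (S (V L L) (V L L)) (S (V L (S L L)) (V (S L L) L))) (T (S (V (S L L) (S L L)) (U (K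 5) (S L L))) (S (U (K 3) (S L L)) (K 3)))))))) (S (K 7) (T (U (K 5) (V (S (V (T (U (K 5) (S L L)) (S (S L L) (S L L))) (K 7)) (T (K 5) (U (K 5) (U (K 5) (S L L))))) (K 7))) (U (F 1911 (V (S (K 0) (K 1)) (K 0))) (V (S (V (T (S (S L L) (S L L)) (S (S L L) L)) (K 7)) (T (S (V L (S L L)) (U (K 5) (S L L))) (S (U (K 3) (S L L)) (K 3)))) (K 7))))))
noncomputable def v4_19 : Tr := (T (U (V (S (T (S (V (S L L) (S L L)) (V L (S L L))) (S (V L (S L L)) (V L L))) (T (S (V L (S L L)) (V (S L L) L)) (S (V L L) (V (S L L) L)))) (S (T (S (V (S L L) (S L L)) (V L (S L L))) (S (V L L) (V L L))) (T (S (V (S L L) L) (V L L)) (S (V (S L L) L) (V L L))))) (S (V (T (S (V L L) (V L L)) (S (V L L) (V L L))) (T (S (V L L) (V L L)) (S (V L L) (V L L)))) (V (T (S (V L L) (V L L)) (S (T L L) (V L L))) (T (S (V L L) (V L L)) (S (T L L) (V L L)))))) (U (S (V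 (T (S (V L L) (V L L)) (S (V L L) (V L L))) (T (S (V L L) (V L L)) (S (V L L) (V L L)))) (V (T (S (V L L) (V L L)) (S (V L L) (V L L))) (T (S (V L L) (V L L)) (S (V L L) (V L L))))) (S (V (T (S (V L L) (V L L)) (S (V L L) (V L L))) (T (S (V L L) (V L L)) (S (V L L) (V L L)))) (V (T (S (V L L) (V L L)) (S (V L L) (V L L))) (T (S (T L L) (V L L)) (S (V L L) (V L L)))))))
noncomputable def v4_20 : Tr := (T (U (V (S (T (S (V (S L L) L) (V L (S L L))) (S (V L L) (V L L))) (T (S (V L L) (V (S L L) L)) (S (V L (S L L)) (V (S L L) L)))) (S (T (S (V L (S L L)) (V L L)) (S (V L (S L L)) (V L L))) (T (S (V (S L L) L) (V (S L L) L)) (S (V L L) (V L L))))) (S (V (T (S (T L L) (V L L)) (S (V L L) (V L L))) (T (S (V L L) (V L L)) (S (V L L) (V L L)))) (V (T (S (V L L) (V L L)) (S (V L L) (V L L))) (T (S (V L L) (V L L)) (S (V L L) (V L L))))))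 (U (V (S (T (S (V L L) (V L L)) (S (V L L) (V L (S L L)))) (T (S (V L L) (V L (S L L))) (S (V (S L L) L) (V L (S L L))))) (S (T (S (V L L) (V L L)) (S (U L (S L L)) (V L L))) (T (S (V L L) (V (S L L) L)) (S (V L L) (V (S L L) L))))) (S (V (T (S (V L L) (V L L)) (S (V L L) (V L L))) (T (S (V L L) (V L L)) (S (V L L) (V L L)))) (V (T (S (V L L) (T L L)) (S (V L L) (V L L))) (T (S (V L L) (V L L)) (S (V L L) (V L L)))))))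
noncomputable def v4_21 : Tr := (T (U (V (S (T (S (V L (S L L)) (V L (S L L))) (S (V L L) (V L L))) (T (S (V L L) (V L L)) (S (V L (S L L)) (V L (S L L))))) (S (K 7) (T (S (V L (K 7)) (V L (K 7))) (V (S L L) (K 7))))) (S (V (T (S (V L L) (V L L)) (S (V L L) (V L L))) (T (S (V L (K 7)) (V L L)) (S (V L (K 7)) (V L L)))) (V (T (S (V L L) (V L L)) (S (V L L) (V L L))) (T (S (V L L) (V L L)) (S (V L L) (V L L)))))) (U (V (S (T (S (V L L) (V L L)) (S (V L L) (V L L))) (T (S (V L L) (V L L)) (S (V L L) (V (S L L) (S L L))))) (S (K 7) (V (T (S L L) (S (S L L) L)) (K 7)))) (S (V (T (S (V L L) (V L L)) (S (V L L) (V L L))) (T (S (V L (K 7)) (V L L)) (S (V L (K 7)) (V L L)))) (V (T (S (V L L) (V L L)) (S (V L L) (V L L))) (T (S (V L L) (V L L)) (S (V L L) (V L L)))))))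
noncomputable def v4_22 : Tr := (T (U (F 1375 (V (F 2 (S (K 1) (T (K 1) (K 0)))) (S (F 4 (T (K 1) (U (K 1) (V (K 1) (K 0))))) (K 2)))) (V (S (T (U (K 9) (T (K 9) (U (K 9) (S (S (K 9) (V (S (K 9) L) L)) (V (S (S L L) (S L L)) (S (S L L) (S L L))))))) (U (V (S (T (K 9) (U (K 9) (S (S L L) (S L L)))) (T (S (K 9) (V (S L L) (S L L))) (S (V (S L L) (S L L)) (V (S L L) L)))) (S (T (K 9) (S (V L (S L L)) (V (S L L) L))) (T (S (K 9) (V (S L L) L)) (S (V (S L L) L) (V (S L L) (S L L)))))) (S (V (T (S (V (S L L) L) (V L L)) (S (V L L) (V L L))) (T (S (V L L) (V L L)) (S (V L L) (V L L)))) (V (T (S (V L L) (V L L)) (S (V L L) (V L L))) (T (S (V L L) (V L L)) (S (V L L) (V L L))))))) v4_15) v4_16)) (U v4_18 (V (S v4_19 v4_20) (S (T (U (V (S (K 7) (V (T (S (S L L) (S L L)) (S L L)) (K 7))) (K 7)) (S (V (T (S (V L (K 7)) (V L L)) (S (V L (K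 7)) (V L L))) (K 7)) (V (T (S (V L L) (V L L)) (S (V L L) (V L L))) (S (K 7) (V (T L L) (K 7)))))) (U (V (S (K 7) (V (T (S L L) (S L L)) (K 7))) (K 7)) (S (V (T (S (V L (K 7)) (V L (K 7))) (V (S L L) (K 7))) (K 7)) (V (T (S (V L L) (V L L)) (S (V L L) (V L L))) (S (K 7) (V (T L L) (K 7))))))) v4_21))))
noncomputable def v4_23 : Tr := (V (S (T (U (K 5) (S (V (T (U (K 5) (S (S L L) L)) (S (V L L) (V L L))) (T (U (K 5) (S L L)) (S (V L L) (V L L)))) (U (K 5) (V (T (S L (K 5)) (S L L)) (T (K 5) (S L (K 5))))))) (U (V (S (T (K 5) (U (K 5) (S (S L L) (S L (K 5))))) (K 5)) (S (T (K 5) (S (V L L) (K 5))) (K 5))) (S (V (T (S (V L L) (V L L)) (S (V L L) (V L L))) (T (S (V L L) (V L L)) (S (V L L) (V L L)))) (V (T (S (V L L) (V (K 6) L)) (S (V L L) (V (K 6) L))) (T (U (K 5) (S L L)) (S (V (S L L) L) (V L L))))))) (T (F 2015 (U (K 0) (S (K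 0) (K 0)))) (U (K 5) (S (V (S (V (K 6) (T L L)) (K 6)) (U (K 5) (T (S L (K 5)) (S L L)))) (V (K 6) (T (K 5) (S (V L L) (K 5)))))))) (S (T (U (K 5) (U (K 5) (S (V (T (S L (K 5)) (S (S L L) (S L L))) (T (S L (K 5)) (S L L))) (T (K 5) (S (V (S L L) L) (K 5)))))) (U (V (S (T (K 5) (S (V L L) (K 5))) (K 5)) (S (T (K 5) (S (V L L) (K 5))) (K 5))) (S (V (T (S (V L L) (V L L)) (S (V L L) (V L L))) (T (S (V L L) (V L L)) (S (V L L) (V L L)))) (V (T (U (K 5) (S L (S L L))) (S (V L L) (V L L))) (T (U (K 5) (S (S L L) L)) (S (V L L) (V L L))))))) (T (K 5) (U (K 5) (U (K 5) (S (V (T (S (S L (K 5)) (K 5)) (S L L)) (T (S (S L L) (K 5)) (S L L))) (T (K 5) (T (K 5) (V (S L (K 5)) (S L L))))))))))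
noncomputable def v4_24 : Tr := (T (U (V (S (T (S (V L L) (V (K 6) (S L L))) (S (V (K 6) L) (V (K 6) (S L L)))) (S (V (K 6) (T (S L (K 6)) L)) (K 6))) (S (T (U (K 5) (S (S L L) (S L L))) (S (V L L) (V L L))) (T (S (U (K 5) (S L L)) (K 5)) (S (V L L) (V (S L L) L))))) (S (V (T (S (V L L) (V L L)) (S (V L L) (V L L))) (T (S (V L L) (V L L)) (S (V L L) (V L L)))) (V (T (S (V L L) (V (K 6) L)) (S (V L L) (V (K 6) L))) (T (S (V L L) (V L L)) (S (V L L) (V L L)))))) (U (V (S (T (S (V (F 1983 (S (K 0) (K 0))) L) (V (K 6) (S L L))) (S (V L L) (V (K 6) (S L L)))) (T (S (V (K 6) L) (K 6)) (K 3))) (S (T (S (V L (S L L)) (V L L)) (S (V L L) (V (S L (K 3)) L))) (T (S (U (K 3) (S L L)) (K 3)) (K 3)))) (S (V (T (S (V (S L L) L) (V L L)) (S (V L L) (V L L))) (T (S (V L L) (V L L)) (S (V L L) (V L L)))) (V (T (S (V L L) (V (K 6) L)) (S (V L L)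 (V (K 6) L))) (T (S (V L L) (V L L)) (S (V L L) (V (S L L) L)))))))
noncomputable def v4_25 : Tr := (T (U (V (S (T (U (K 5) (S (S L L) (S L L))) (S (V L (S L L)) (V (S L L) L))) (T (S (V L L) (K 5)) (S (V L (S L L)) (V (S L L) L)))) (S (T (S (V L (S L L)) (V (S L L) L)) (S (V L (S L L)) (V L L))) (T (U (K 5) (S L (S L (K 5)))) (S (V L L) (V L L))))) (S (V (T (S (V L L) (V L L)) (S (V L L) (V L L))) (T (S (V L L) (V L L)) (S (V L L) (V L L)))) (V (T (S (V L L) (V L L)) (S (V L L) (V L L))) (T (S (V L L) (V L L)) (S (V L L) (V L L)))))) (U (V (S (T (S (V L (S L L)) (V (S L L) L)) (U (K 3) (S (S L L) (S L (K 3))))) (T (S (V L (S L (K 3))) (K 3)) (K 3))) (S (T (S (V L L) (U (K 3) (S L L))) (S (V L (S L L)) (V (S L (K 3)) L))) (T (S (V (S L (K 3)) L) (K 3)) (K 3)))) (S (V (T (S (V L L) (V L L)) (S (V L L) (V L L))) (T (S (V L L) (V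 L L)) (S (V L L) (V L L)))) (V (T (S (V L L) (V L L)) (S (V L L) (V L L))) (T (S (V L L) (V L L)) (S (V L L) (V L L)))))))
noncomputable def v4_26 : Tr := (U (F 1943 (V (S (T (K 1) (U (K 1) (F 2 (V (F 1 (S (S (K 0) (K 0)) (K 0))) (K 0))))) (K 2)) (F 1 (S (T (K 1) (K 0)) (K 0))))) (V (S v4_24 (T (U (F 1943 (S (V (K 0) (F 1 (T (K 1) (T (K 1) (K 0))))) (K 1))) (S (V (S (V (K 6) (T L L)) (K 6)) (T (S (V L L) (V L L)) (S (V L L) (V L L)))) (V (K 6) (T (U (K 5) (S L L)) (U (K 3) (S L L)))))) (U (K 3) (S (V (S (V (K 6) (T L L)) (K 6)) (T (S (V L L) (V L L)) (S (V L L) (K 3)))) (F 1975 (V (K 0) (F 1 (S (K 0) (K 0))))))))) (S v4_25 (T (U (F 2007 (V (T (K 0) (K 1)) (T (K 0) (K 1)))) (S (V (T (S (V L L) (V L L)) (S (V L L) (V L L))) (T (S (V L L) (V L L)) (S (V L L) (V L L)))) (V (T (S (V L L) (V L L)) (S (V L L) (K 3))) (T (S (V L L) (V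 L L)) (S (V L L) (K 3)))))) (U (K 3) (S (V (T (S (V L L) (V L L)) (S (V L L) (K 3))) (U (K 3) (T (S L L) (S (S L (K 3)) (K 3))))) (K 3)))))))
noncomputable def v4_27 : Tr := (S (T (U (V (S (S (K 7) (V (T (S (K 7) L) L) (K 7))) (T (U (K 5) (S (S L L) (S L L))) (S (V L (K 7)) (V (S L (K 3)) L)))) (K 7)) (S (V (T (S (V L (K 7)) (V L L)) (S (V L (K 7)) (V L L))) (K 7)) (V (T (S (V L L) (V L L)) (S (V L L) (V L L))) (S (K 7) (V (T L L) (K 7)))))) (U (V (S (S (K 7) (V (T (S (K 7) L) L) (K 7))) (T (S (V L (K 7)) (K 3)) (K 3))) (K 7)) (S (V (T (S (V L (K 7)) (V L L)) (S (V L (K 7)) (V L L))) (K 7)) (V (T (S (V L L) (V L L)) (S (V L L) (V L L))) (S (K 7) (U (K 7) (T L L))))))) (T (U (F 1879 (V (F 1 (S (T (T (K 1) (K 0)) (K 0)) (K 0))) (F 2 (S (S (K 1) (K 0)) (K 0))))) (S (V (T (S (V L L) (V L L)) (S (V L L) (V L L))) (T (S (V L (K 7)) (V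 L L)) (S (V L (K 7)) (V L L)))) (V (T (S (V L L) (V L L)) (S (V L L) (K 3))) (T (U (K 3) (S L L)) (S (T L (K 3)) (K 3)))))) (U (K 3) (S (V (U (K 3) (T (S L L) (S L (K 3)))) (T (S (V L (K 7)) (V L L)) (S (V L (K 7)) (K 3)))) (K 3)))))
noncomputable def v4_28 : Tr := (S (T (U (K 7) (V (S (K 7) (T (U (K 7) (S (K 7) (V (S (K 7) (V (T L L) (K 7))) (K 7)))) (U (K 7) (S (K 7) (V (S (K 7) (V (T L L) (K 7))) (K 7)))))) (K 7))) (U (K 7) (V (S (K 7) (T (U (K 7) (S (K 7) (V (S (K 7) (V (T L L) (K 7))) (K 7)))) (U (K 7) (S (K 7) (V (S (K 7) (V (T L L) (K 7))) (K 7)))))) (K 7)))) (T (U (K 5) (V (S (T (U (K 5) (S (V (U (K 5) (T (S L (K 5)) (S L L))) (K 7)) (T (K 5) (U (K 5) (U (K 5) (V (S L (K 5)) (S (K 7) L))))))) (U (F 1887 (V (S (T (K 1) (S (K 0) (S (K 0) (K 1)))) (K 1)) (K 0))) (S (V (T (S (V L (K 7)) (V L L)) (S (V L (K 7)) (V L L))) (K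 7)) (V (T (S (V L L) (V L L)) (S (V L L) (V L L))) (S (K 7) (V (T L L) (K 7))))))) (T (K 5) (U (K 5) (S (V (T (U (K 5) (S L L)) (S (V L L) (V L L))) (T (U (K 5) (S L L)) (S (V L (K 7)) (V L L)))) (T (K 5) (U (K 5) (V (S L L) (S L L)))))))) (S (K 7) (T (F 1887 (U (K 0) (S (K 0) (K 1)))) (U (K 7) (S (K 7) (V (S (K 7) (T (K 5) (T L L))) (K 7)))))))) (U (F 1879 (V (S (T (F 4 (U (K 1) (V (S (K 1) (K 0)) (K 1)))) (F 2 (U (K 1) (V (K 0) (K 1))))) (K 2)) (K 0))) (V v4_27 (S (K 7) (T (U (K 7) (S (K 7) (V (S (K 7) (T (S L (K 3)) (K 3))) (K 7)))) (F 1911 (U (K 0) (S (K 0) (S (K 0) (K 1)))))))))))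
noncomputable def v4_29 : Tr := (T (U (S (V (T (U (K 9) (S L L)) (S (T L L) (T L L))) (T (U (K 9) (S L L)) (S (S L L) (T L L)))) (V (T (S (T L L) (T L L)) (S (V L L) (T L L))) (T (S (T L L) (T L L)) (S (T L L) (V L L))))) (S (V (T (S (S L L) (S L L)) (S (S L L) (S L L))) (T (S L L) (S (S L L) (S L L)))) (V (T (S (S L L) (S L L)) (S (S L L) (S L L))) (T (S (S L L) (S L L)) (S (S L L) (S L L)))))) (U (S (V (T (S (V L L) (T L L)) (S (T L L) (T L L))) (T (S (V L L) (T L L)) (S (T L L) (T L L)))) (V (T (S (T L L) (T L L)) (S (T L L) (T L L))) (T (S (V L L) (T L L)) (S (V L L) (V L L))))) (S (V (T (S (S L L) (S L L)) (S (S L L) (S L L))) (T (S (S L L) (S L L)) (S (S L L) (S L L)))) (V (T (S (S L L) (S L L)) (S (S L L) (S L L))) (T (S (S L L) (S L L)) (S (S L L) (S L L)))))))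
noncomputable def v4_30 : Tr := (T (U (S (V (T (S (T L L) (S L L)) (S (T L L) (T L L))) (T (S (T L L) (T L L)) (S (T L L) (T L L)))) (V (T (S (T L L) (S L L)) (S (T L L) (T L L))) (T (S (T L L) (T L L)) (S (T L L) (T L L))))) (S (V (T (S (S L L) (S L L)) (S (S L L) (S L L))) (T (S (S L L) (S L L)) (S (S L L) (S L L)))) (V (T (S (S L L) L) (S (S L L) (S L L))) (T (S (S L L) (S L L)) (S (S L L) (S L L)))))) (U (S (V (T (S (T L L) (T L L)) (S (V L L) (T L L))) (T (S (V L L) (S L L)) (S (T L L) (T L L)))) (V (T (S (T L L) (T L L)) (S (T L L) (T L L))) (T (S (T L L) (T L L)) (S (T L L) (T L L))))) (S (V (T (S (S L L) (S L L)) (S (S L L) (S L L))) (T (S (S L L) (S L L)) (S (S L L) (S L L)))) (V (T (S (S L L) (S L L)) (S (S L L) (S L L))) (T (S (S L L) (S L L)) (S (S L L) (S L L)))))))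
noncomputable def v4_31 : Tr := (T (U (S (V (T (S (S L L) (S L L)) (S (T L L) (S L L))) (T (S (S L L) (S L L)) (S (S L L) (S L L)))) (V (T (S (T L L) (T L L)) (S (T L L) (V L L))) (T (S (S L L) (T L L)) (S (S L L) (T L L))))) (S (V (T (S (S L L) (S L L)) (S (S L L) (S L L))) (T (S L L) (S L L))) (V (T (S (S L L) (S L L)) (S (S L L) (S L L))) (T (S L L) (S (S L L) L))))) (U (S (V (T (S (T L L) (T L L)) (S (T L L) (T L L))) (T (S (S L L) (T L L)) (S (S L L) (S L L)))) (V (T (S (V L L) (T L L)) (S (T L L) (T L L))) (T (S (S L L) (T L L)) (S (T L L) (T L L))))) (S (V (T (S (S L L) (S L L)) (S (S L L) (S L L))) (T (S L L) (S L L))) (V (T (S (S L L) (S L L)) (S (S L L) (S L L))) (T (S L (S L L)) (S (S L L) (S L L)))))))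
noncomputable def v4_32 : Tr := (V (S v4_29 v4_30) (S (T (U (S (V (T (S (S L L) (S L L)) (S (S L L) (T L L))) (U (K 7) (T L (S (K 7) (F 2 L))))) (V (T (S (S L L) (T L L)) (S (T L L) (S L L))) (T (S (S L L) (S L L)) (S (S L L) (S L L))))) (S (V (T (S L L) (S L L)) (S (T (F 2 L) (F 2 L)) (T (F 2 L) L))) (V (T (S L L) (S (S L L) L)) (T (S L L) (S L L))))) (S (V (U (T (S (S L L) (S L L)) (S (S L L) (T L L))) (T (S L L) (S (S L L) (S L L)))) (T (U (S (K 7) (S L L)) (S L L)) (U (S (K 7) (S L L)) (S L L)))) (V (U (T (S (T L L) (T L L)) (S (T L L) (S L L))) (T (S (S L L) (S L L)) (S (S L L) (S L L)))) (U (T (S (S L L) (S L L)) (S (S L L) (S L L))) (T (S L L) (S L L)))))) v4_31))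
noncomputable def v4_33 : Tr := (S (T (S (U (V (T (S L L) (S L L)) (T (S L L) (S L L))) (V (T (S (F 1 L) (F 1 L)) (S (F 1 L) (F 1 L))) (T (S (F 1 L) (F 1 L)) (S (F 1 L) (F 1 L))))) (U (V (T (S L L) (S L L)) (T (S L L) (S L L))) (V (T (S (F 1 L) (F 1 L)) (S (F 1 L) (F 1 L))) (T (S (F 1 L) (F 1 L)) (S (F 1 L) (F 1 L)))))) (S (U (V (T (S L L) (S L L)) (T (S L L) (S L L))) (V (T (S (F 1 L) (F 1 L)) (S (F 1 L) (S (F 1 L) (F 1 L)))) (T (S (F 1 L) (F 1 L)) (S (F 1 L) (F 1 L))))) (U (V (T (S L L) (S L L)) (T (S L L) (S L L))) (V (T (S (F 1 L) (F 1 L)) (S (F 1 L) (F 1 L))) (T (S (F 1 L) (F 1 L)) (S (F 1 L) (F 1 L))))))) (T (S (U (V (T (S L L) (S L L)) (T (S L L) (S L L))) (V (T (S (F 1 L) (F 1 L)) (S (F 1 L) (F 1 L))) (T (S (F 1 L) (F 1 L)) (S (F 1 L) (F 1 L))))) (U (V (T (S L L) (S L L)) (T (S L L) (S L L))) (V (T (S (F 1 L) (F 1 L)) (S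 (F 1 L) (F 1 L))) (T (S (F 1 L) (F 1 L)) (S (F 1 L) (F 1 L)))))) (S (V (U (T (S L L) (S L L)) (T (S (F 1 L) (F 1 L)) (S (F 1 L) (F 1 L)))) (U (T (S L L) (S L L)) (T (S (F 1 L) (F 1 L)) (S (F 1 L) (F 1 L))))) (U (V (T (S L L) (S L L)) (T (S L L) (S L L))) (V (T (S (F 1 L) (F 1 L)) (S (F 1 L) (F 1 L))) (T (S (F 1 L) (F 1 L)) (S (F 1 L) (F 1 L))))))))
noncomputable def v4_34 : Tr := (S (T (V (S (U (T (S (F 1 L) (F 1 L)) (S (F 1 L) L)) (T (F 1 L) (S (F 3 L) (F 3 L)))) (U (T (S (F 1 L) L) (S L L)) (T (S (F 3 L) (F 1 L)) (S (F 1 L) (F 1 L))))) (S (U (T (S (F 3 L) (F 3 L)) (S (F 3 L) (S (F 3 L) (F 3 L)))) (T (S (F 3 L) (F 3 L)) (S (F 3 L) (F 3 L)))) (U (T (S (F 1 L) (F 1 L)) (S (F 1 L) (F 1 L))) (T (S (F 3 L) (F 3 L)) (S (F 3 L) (F 3 L)))))) (S (V (U (T (S L L) (S L L)) (T (S (F 3 L) (F 1 L)) (S (F 3 L) (F 1 L)))) (T (U (V (F 1 L) (S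 (F 3 L) (F 3 L))) (S (F 3 L) (F 3 L))) (U (S (S (F 3 L) (F 3 L)) (F 1 L)) (S (F 3 L) (F 3 L))))) (V (U (T (S L L) (S L L)) (T (S (F 1 L) (F 1 L)) (S (F 1 L) (F 1 L)))) (U (T (S (F 1 L) (F 2 L)) (S (F 2 L) (F 2 L))) (S (T (F 3 L) (F 3 L)) (T (F 3 L) (F 3 L))))))) (T (S (V (U (T (S L L) (S L L)) (T (S (F 1 L) (F 1 L)) (S (F 1 L) (F 1 L)))) (U (T (S (F 1 L) (F 1 L)) (S (F 1 L) L)) (T (S (F 3 L) (F 3 L)) (S (F 3 L) (F 3 L))))) (U (V (T (S L L) (S L L)) (T (S L L) (S L L))) (V (T (S (F 1 L) (F 1 L)) (S (F 1 L) (F 1 L))) (T (S (F 3 L) (F 1 L)) (S (F 1 L) (F 1 L)))))) (S (U (V (T (S L L) (S L L)) (T (S (F 1 L) L) (S L L))) (V (T (S (F 1 L) (F 1 L)) (S (F 1 L) (F 1 L))) (T (S (F 1 L) (F 1 L)) (S (F 1 L) (F 1 L))))) (U (V (T (S L L) (S L L)) (T (S L L) (S L L))) (V (T (S (F 1 L) (F 1 L)) (S (F 1 L) (F 1 L))) (T (S (F 1 L) (F 1 L)) (S (F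 1 L) (F 1 L))))))))
noncomputable def v4_35 : Tr := (T (U (S (V (T (S (T L L) (T L L)) (S (V L L) (S L L))) (T (S (T L L) (T L L)) (S (T L L) (T L L)))) (V (T (S (T L L) (T L L)) (S (S L L) (S L L))) (T (S (T L L) (T L L)) (S (S L L) (S L L))))) (S (V (T (S (S L L) (S L L)) (S (S L L) (S L L))) (T (S (S L L) (S L L)) (S (S L L) (S L L)))) (V (T (S (S L L) (S L L)) (S (S L L) (S L L))) (T (S (S L L) L) (S (S L L) (S L L)))))) (U (S (V (T (S (T L L) (S L L)) (S (S L L) (S L L))) (T (S (S L L) (S L L)) (S (S L L) (S L L)))) (V (T (S (S L L) (S L L)) (S (S L L) (S L L))) (T (S (S L L) (T L L)) (S (T L L) (T L L))))) (S (V (T (S (S L L) (S L L)) (S (S L L) (S L L))) (T (S (S L L) (S L L)) (S (S L L) (S L L)))) (V (T (S (S L L) (S L L)) (S L (S L L))) (T (S (S L L) (S L L)) (S (S L L) L))))))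
noncomputable def v4_36 : Tr := (T (U (S (V (T (S (T L L) (T L L)) (S (T L L) (S L L))) (T (S (T L L) (T L L)) (S (V L L) (T L L)))) (V (T (S (T L L) (T L L)) (S (T L L) (T L L))) (T (S (T L L) (V L L)) (S (T L L) (S L L))))) (S (V (T (S (S L L) (S L L)) (S (S L L) (S L L))) (T (S (S L L) (S L L)) (S (S L L) (S L L)))) (V (T (S (S L L) (S L L)) (S (S L L) (S L L))) (T (S (S L L) (S L L)) (S (S L L) (S L L)))))) (U (S (V (T (S (T L L) (S L L)) (S (T L L) (S L L))) (T (S (S L L) (S L L)) (S (S L L) (T L L)))) (V (T (S (T L L) (T L L)) (S (T L L) (T L L))) (T (S (S L L) (T L L)) (S (T L L) (V L L))))) (S (V (T (S (S L L) (S L L)) (S (S L L) (S L L))) (T (S (S L L) (S L L)) (S (S L L) (S L L)))) (V (T (S (S L L) (S L L)) (S (S L L) (S L L))) (T (S (S L L) (S L L)) (S (S L L) (S L L)))))))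
noncomputable def v4_37 : Tr := (T (U (S (V (T (S (T L L) (T L L)) (S (S L L) (T L L))) (S (K 7) (U (K 7) (T L L)))) (V (T (S (S L L) (T L L)) (S (T L L) (T L L))) (T (S (S L L) (S L L)) (S (S L L) (S L L))))) (S (V (T (S (S L L) (S L L)) (S (S L L) (S L L))) (T (S L L) (S L L))) (V (T (S L (S L L)) (S (S L L) (S L L))) (T (S L L) (S L L))))) (S (V (U (T (S (S L L) (T L L)) (S (S L L) (T L L))) (T (S (S L L) (S L L)) (S L (S L L)))) (U (S (K 7) (V (T L L) (K 7))) (T (S L L) (S L L)))) (V (U (T (S (T L L) (S L L)) (S (V L L) (S L L))) (T (S (S L L) (S L L)) (S (S L L) (S L L)))) (U (T (S (S L L) (S L L)) (S (S L L) (T L L))) (T (S L L) (S L L))))))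
noncomputable def v4_38 : Tr := (T (U (S (V (T (S (T L L) (T L L)) (S (S L L) (S L L))) (T (S (S L L) (T L L)) (S (T L L) (S L L)))) (V (T (S (T L L) (T L L)) (S (T L L) (S L L))) (T (S (S L L) (S L L)) (S (S L L) (T L L))))) (S (V (T (S (S L L) (S L L)) (S (S L L) (S L L))) (T (S L (S L L)) (S (S L L) L))) (V (T (S (S L L) (S L L)) (S (S L L) L)) (T (S (S L L) (S L L)) (S (S L L) (S L L)))))) (U (S (V (T (S (S L L) (T L L)) (S (S L L) (S L L))) (T (S (S L L) (T L L)) (S (S L L) (S L L)))) (V (T (S (S L L) (S L L)) (S (V L L) (V L L))) (T (S (S L L) (S L L)) (S (S L L) (T L L))))) (S (V (T (S (S L L) (S L L)) (S (S L L) (S L L))) (T (S L L) (S (S L L) L))) (V (T (S (S L L) (S L L)) (S (S L L) (S L L))) (T (S L (S L L)) (S (S L L) (S L L)))))))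
noncomputable def v4_39 : Tr := (S (T (S (U (V (T (S L L) (S L L)) (T (S L L) (S L L))) (V (T (S (F 1 L) (F 1 L)) (S (F 1 L) (F 1 L))) (T (S (F 1 L) (F 1 L)) (S (F 1 L) (F 1 L))))) (U (V (T (S L L) (S L L)) (T (S L L) (S L L))) (V (T (S (F 1 L) (F 1 L)) (S (F 1 L) (F 1 L))) (T (S (F 1 L) (F 1 L)) (S (F 1 L) (F 1 L)))))) (S (U (V (T (S L L) (S L L)) (T (S L L) (S L L))) (V (T (S (F 1 L) (F 1 L)) (S (F 1 L) (F 1 L))) (T (S (F 1 L) (F 1 L)) (S (F 1 L) (F 1 L))))) (U (V (T (S L L) (S L L)) (T (S L L) (S L L))) (V (T (S (F 1 L) (F 1 L)) (S (F 1 L) (F 1 L))) (T (S (F 1 L) (F 1 L)) (S (F 1 L) (F 1 L))))))) (T (S (U (V (T (S L L) (S L L)) (T (S L L) (S L L))) (V (T (S (F 1 L) (F 1 L)) (S (F 1 L) (F 1 L))) (T (S (F 1 L) (F 1 L)) (S (F 1 L) (F 1 L))))) (U (V (T (S L L) (S L L)) (T (S L L) (S L L))) (V (T (S (F 1 L) (F 1 L)) (S (F 1 L) (F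 1 L))) (T (S (F 1 L) (F 1 L)) (S (F 1 L) (F 1 L)))))) (S (U (V (T (S L L) (S L L)) (T (S L L) (S L L))) (V (T (S (F 1 L) (F 1 L)) (S (F 1 L) (F 1 L))) (T (S (F 1 L) (F 1 L)) (S (F 1 L) (F 1 L))))) (U (V (T (S L L) (S L L)) (T (S L L) (S L L))) (V (T (S (F 1 L) (F 1 L)) (S (F 1 L) (F 1 L))) (T (S (F 1 L) (F 1 L)) (S (F 1 L) (F 1 L))))))))
noncomputable def v4_40 : Tr := (S (T (V (S (U (T (S L L) (S L L)) (T (S (F 1 L) (F 1 L)) (S (F 1 L) (F 1 L)))) (U (T (S L L) (S L L)) (T (S (F 1 L) (F 1 L)) (S (F 1 L) (F 1 L))))) (S (U (S (T (S (F 3 L) (F 3 L)) (F 2 L)) (T (F 2 L) (F 2 L))) (T (S (F 3 L) (F 3 L)) (S (F 3 L) (F 3 L)))) (U (T (S (F 2 L) L) (S (F 2 L) (F 1 L))) (S (T (F 3 L) (F 3 L)) (T (F 1 L) (F 1 L)))))) (S (V (U (T (S L L) (S L L)) (T (S (F 1 L) (F 1 L)) (S (F 1 L) (F 1 L)))) (U (S (T (F 2 L) (F 2 L)) (T (F 2 L) (F 2 L))) (T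 (S (F 3 L) (F 3 L)) (S (F 3 L) (F 3 L))))) (U (V (T (S L L) (S L L)) (T (S (F 2 L) (F 1 L)) (S (F 2 L) (F 1 L)))) (V (T (S (F 1 L) (F 1 L)) (S (F 1 L) (F 1 L))) (T (S (F 3 L) (F 1 L)) (S (F 3 L) (F 1 L))))))) (T (S (U (V (T (S L L) (S L L)) (T (S L L) (S L L))) (V (T (S (F 1 L) (F 1 L)) (S (F 1 L) (F 1 L))) (T (S (F 1 L) (F 1 L)) (S (F 1 L) (F 1 L))))) (U (V (T (S L L) (S L L)) (T (S L L) (S L L))) (V (T (S (F 1 L) (F 1 L)) (S (F 1 L) (F 1 L))) (T (S (F 1 L) (F 1 L)) (S (F 1 L) (F 1 L)))))) (S (U (V (T (S L L) (S L L)) (T (S L L) (S L L))) (V (T (S (F 1 L) (F 1 L)) (S (F 1 L) (F 1 L))) (T (S (F 1 L) (F 1 L)) (S (F 1 L) (F 1 L))))) (U (V (T (S L L) (S L L)) (T (S L L) (S L L))) (V (T (S (F 1 L) (F 1 L)) (S (F 1 L) (F 1 L))) (T (S (F 1 L) (F 1 L)) (S (F 1 L) (F 1 L))))))))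
noncomputable def v4_41 : Tr := (T (S (V (U (T (S (T L L) (S L L)) (S (T L L) (S L L))) (T (S L L) (S L L))) (U (T (S (V L L) (T L L)) (S (T L L) (T L L))) (T (S (S L L) (S L L)) (S (S L L) (S L L))))) (V (U (T (S (S L L) (S L L)) (S (T L L) (S L L))) (T (S L L) (S L L))) (U (T (S (T L L) (T L L)) (S (T L L) (T L L))) (T (S (S L L) (S L L)) (S (S L L) (S L L)))))) (U (S (V (T (S (T L L) (T L L)) (S (S L L) (T L L))) (T (S (T L L) (V L L)) (S (T L L) (T L L)))) (V (T (S (S L L) (S L L)) (S (S L L) (S L L))) (T (S (T L L) (T L L)) (S (S L L) (T L L))))) (S (V (T (S (S L L) (S L L)) (S (S L L) (S L L))) (T (S (S L L) (S L L)) (S (S L L) (S L L)))) (V (T (S L L) (S L L)) (T (S (S L L) (S L L)) (S (S L L) (S L L)))))))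
noncomputable def v4_42 : Tr := (T (U (S (V (T (S (T L L) (S L L)) (S (T L L) (T L L))) (T (S (S L L) (S L L)) (S (T L L) (T L L)))) (V (T (S (T L L) (T L L)) (S (T L L) (T L L))) (T (S (T L L) (T L L)) (S (T L L) (S L L))))) (S (V (T (S (S L L) (S L L)) (S (S L L) (S L L))) (T (S (S L L) (S L L)) (S (S L L) (S L L)))) (V (T (S (S L L) (S L L)) (S (S L L) (S L L))) (T (S (S L L) (S L L)) (S (S L L) (S L L)))))) (U (S (V (T (S (T L L) (T L L)) (S (T L L) (S L L))) (T (S (T L L) (T L L)) (S (T L L) (T L L)))) (V (T (S (T L L) (T L L)) (S (T L L) (T L L))) (T (S (V L L) (V L L)) (S (T L L) (S L L))))) (S (V (T (S (S L L) (S L L)) (S (S L L) (S L L))) (T (S (S L L) (S L L)) (S (S L L) (S L L)))) (V (T (S (S L L) (S L L)) (S (S L L) (S L L))) (T (S (S L L) (S L L)) (S (S L L) (S L L)))))))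
noncomputable def v4_43 : Tr := (T (S (V (U (T (U (K 5) (S L L)) (S (T L L) (S L L))) (T (S L L) (S (S L L) L))) (U (T (U (K 5) (S L L)) (S (S L L) (S L L))) (T (S (S L L) (S L L)) (S (S L L) (S L L))))) (V (U (U (K 5) (T (S L (K 5)) (S L L))) (T (S L L) (S L L))) (U (U (K 5) (T (S L (K 5)) (S L L))) (T (S L L) (S (S L L) (S L L)))))) (U (S (V (T (S (V L L) (T L L)) (S (V L L) (S L L))) (T (S (T L L) (T L L)) (S (V L L) (T L L)))) (V (T (S (S L L) (S L L)) (S (S L L) (S L L))) (T (S (S L L) (S L L)) (S (S L L) (S L L))))) (S (V (T (S (S L L) (S L L)) (S (S L L) (S L L))) (T (S (S L L) (S L L)) (S (S L L) (S L L)))) (V (T (S (S L L) L) (S (S L L) L)) (T (S (S L L) (S L L)) (S (S L L) L))))))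
noncomputable def v4_44 : Tr := (S (T (S (U (V (T (S L L) (S L L)) (T (S L L) (S L L))) (V (T (S (F 1 L) (F 1 L)) (S (F 1 L) (F 1 L))) (T (S (F 1 L) (F 1 L)) (S (F 1 L) (F 1 L))))) (V (T (U (S (F 1 L) (F 1 L)) (S (F 5 L) (F 5 L))) (U (S L (F 4 L)) (S (F 5 L) (F 5 L)))) (U (T (S L L) (S L L)) (T (S (F 1 L) (F 1 L)) (S (F 1 L) (F 1 L)))))) (S (U (V (T (S L L) (S L L)) (T (S L L) (S L L))) (V (T (S (F 1 L) (F 1 L)) (S (F 1 L) (F 1 L))) (T (S (F 1 L) (F 1 L)) (S (F 1 L) (F 1 L))))) (U (V (T (S L L) (S L (F 1 L))) (T (S L L) (S L L))) (V (T (S (F 1 L) (F 5 L)) (S (F 1 L) (F 5 L))) (T (S (F 1 L) (F 1 L)) (S (F 1 L) (F 1 L))))))) (T (V (S (U (T (S (F 1 L) (F 1 L)) (S (F 1 L) (F 1 L))) (T (S (F 5 L) (F 5 L)) (S (F 5 L) (F 5 L)))) (U (T (S (F 5 L) (F 5 L)) (V (F 5 L) (F 1 L))) (T (S (F 5 L) (F 261 L)) (S (F 5 L) (F 261 L))))) (S (U (T (S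 L (F 1 L)) (S L (F 1 L))) (T (S (F 5 L) (F 5 L)) (S (F 1 L) (F 1 L)))) (U (T (S (F 1 L) (F 1 L)) (S (F 1 L) (F 1 L))) (T (F 1 L) (S (F 5 L) (F 5 L)))))) (S (V (U (T (S (F 1 L) (F 1 L)) (S (F 4 L) (F 1 L))) (T (S (F 5 L) (F 5 L)) (S (F 5 L) (F 5 L)))) (U (T (S L L) (S L L)) (T (S (F 1 L) (F 1 L)) (S (F 1 L) (F 1 L))))) (V (U (T (V (S (F 5 L) (F 261 L)) (F 1 L)) (S (S (F 5 L) (F 5 L)) (F 5 L))) (T (S (F 5 L) (F 5 L)) (S (F 5 L) (F 5 L)))) (U (S (T (F 1 L) (F 1 L)) (T (F 1 L) (F 1 L))) (T (S (F 5 L) (F 5 L)) (S (F 5 L) (F 5 L))))))))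
noncomputable def v4_45 : Tr := (S (T (S (V (U (T (S L L) (S L L)) (T (S (F 1 L) (F 1 L)) (S (F 1 L) (F 1 L)))) (U (T (S L L) (S L L)) (T (S (F 1 L) (F 1 L)) (S (F 1 L) (F 1 L))))) (U (V (T (S L L) (S L L)) (T (S L L) (S L L))) (V (T (S (F 1 L) (F 1 L)) (S (F 1 L) (F 1 L))) (T (S (F 1 L) (F 1 L)) (S (F 1 L) (F 1 L)))))) (S (V (U (T (S L L) (S L L)) (T (S (F 1 L) (F 1 L)) (S (F 1 L) (F 1 L)))) (U (T (S L L) (S L L)) (T (S (F 1 L) (F 1 L)) (S (F 1 L) (F 1 L))))) (U (V (T (S L L) (S L L)) (T (S L L) (S L L))) (V (T (S (F 1 L) (F 1 L)) (S (F 1 L) (F 1 L))) (T (S (F 1 L) (F 1 L)) (S (F 1 L) (F 1 L))))))) (T (S (U (V (T (S L L) (S L L)) (T (S L L) (S L L))) (V (T (S (F 1 L) (F 1 L)) (S (F 1 L) (F 1 L))) (T (S (F 1 L) (F 1 L)) (S (F 1 L) (F 1 L))))) (U (V (T (S L (F 1 L)) (S L L)) (T (S L L) (S L L))) (V (T (S (F 1 L) (F 5 L)) (S (F 1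 L) (F 1 L))) (T (S (F 1 L) (F 1 L)) (S (F 1 L) (F 1 L)))))) (S (V (U (T (S L L) (S L L)) (T (S (F 1 L) (F 1 L)) (S (F 1 L) (F 1 L)))) (U (T (S L L) (S L L)) (T (S (F 1 L) (F 1 L)) (S (F 1 L) (F 1 L))))) (U (V (T (S L L) (S L L)) (T (S L L) (S L L))) (V (T (S (F 1 L) (F 1 L)) (S (F 1 L) (F 1 L))) (T (S (F 1 L) (F 1 L)) (S (F 1 L) (F 1 L))))))))
noncomputable def v4_46 : Tr := (T (U (S (V (T (S (S L L) (T L L)) (S (S L L) (T L L))) (T (S (T L L) (T L L)) (S (T L L) (V L L)))) (V (T (S (S L L) (S L L)) (S (S L L) (S L L))) (T (S (V L L) (S L L)) (S (S L L) (S L L))))) (S (V (T (S (S L L) (S L L)) (S (S L L) L)) (T (S (S L L) (S L L)) (S (S L L) (S L L)))) (V (T (S L L) (S L L)) (T (S (S L L) (S L L)) (S (S L L) (S L L)))))) (U (S (V (T (S (S L L) (T L L)) (S (S L L) (V L L))) (T (S (V L L) (T L L)) (S (V L L) (T L L)))) (V (T (S (S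 L L) (S L L)) (S (S L L) (S L L))) (T (S (T L L) (S L L)) (S (T L L) (V L L))))) (S (V (T (S (S L L) (S L L)) (S (S L L) (S L L))) (T (S (S L L) (S L L)) (S (S L L) (S L L)))) (V (T (S L L) (S L L)) (T (S (S L L) (S L L)) (S (S L L) (S L L)))))))
noncomputable def v4_47 : Tr := (T (U (S (V (T (S (T L L) (T L L)) (S (V L L) (T L L))) (T (S (S L L) (T L L)) (S (T L L) (T L L)))) (V (T (S (T L L) (S L L)) (S (S L L) (V L L))) (T (S (T L L) (T L L)) (S (V L L) (V L L))))) (S (V (T (S (S L L) (S L L)) (S (S L L) (S L L))) (T (S (S L L) (S L L)) (S (S L L) (S L L)))) (V (T (S (S L L) (S L L)) (S (S L L) (S L L))) (T (S (S L L) (S L L)) (S (S L L) (S L L)))))) (U (S (V (T (S (T L L) (S L L)) (S (T L L) (T L L))) (T (S (T L L) (T L L)) (S (T L L) (S L L)))) (V (T (S (T L L) (T L L)) (S (T L L) (V L L))) (T (S (S L L) (T L L)) (S (V L L)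 (V L L))))) (S (V (T (S (S L L) (S L L)) (S (S L L) (S L L))) (T (S (S L L) (S L L)) (S (S L L) (S L L)))) (V (T (S (S L L) (S L L)) (S (S L L) (S L L))) (T (S (S L L) (S L L)) (S (S L L) (S L L)))))))
noncomputable def v4_48 : Tr := (T (U (S (V (T (S (V L L) (V L L)) (S (V L L) (T L L))) (T (S (T L L) (V L L)) (S (T L L) (V L L)))) (V (T (S (S L L) (S L L)) (S (S L L) (S L L))) (T (S (S L L) (S L L)) (S (S L L) (T L L))))) (S (V (T (S (S L L) (S L L)) (S (S L L) (S L L))) (T (S (S L L) (S L L)) (S (S L L) (S L L)))) (V (T (S (S L L) (S L L)) (S (S L L) L)) (T (S (S L L) L) (S (S L L) L))))) (U (S (V (T (S (V L L) (T L L)) (S (V L L) (T L L))) (T (S (T L L) (S L L)) (S (S L L) (S L L)))) (V (T (S (S L L) (S L L)) (U (K 3) (S L L))) (T (S (T L L) (S L L)) (U (K 3) (S L L))))) (S (V (T (S (S L L) (S L L)) (S (S L L) (S L L))) (T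 (S (S L L) (S L L)) (S (S L L) (S L L)))) (V (T (S (S L L) L) (S L L)) (T (S (S L L) (S L L)) (S (S L L) L))))))
noncomputable def v4_49 : Tr := (S (T (S (U (V (T (S L L) (S L L)) (T (S L L) (S L L))) (V (T (S (F 1 L) (F 1 L)) (S (F 1 L) (F 1 L))) (T (S (F 1 L) (F 1 L)) (S (F 1 L) (F 1 L))))) (U (V (T (S L L) (S L (F 1 L))) (T (S L L) (S L L))) (V (T (S (F 1 L) (F 1 L)) (S (F 1 L) (F 1 L))) (T (S (F 1 L) (F 1 L)) (S (F 1 L) (F 1 L)))))) (S (U (V (T (S L L) (S L L)) (T (S L L) (S L L))) (V (T (S (F 1 L) (F 1 L)) (S (F 1 L) (F 1 L))) (T (S (F 1 L) (F 1 L)) (S (F 1 L) (F 1 L))))) (U (V (T (S L L) (S L (F 1 L))) (T (S L L) (S L L))) (V (T (S (F 1 L) (F 5 L)) (S (F 1 L) (F 5 L))) (T (S (F 1 L) (F 1 L)) (S (F 1 L) (F 1 L))))))) (T (V (S (U (S (S L L) (T (F 1 L) (F 1 L))) (S (T (F 5 L) (F 5 L)) (T (F 5 L) (F 5 L)))) (U (T (S (S (F 5 L)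 (F 5 L)) (F 5 L)) (S (S (F 5 L) (F 5 L)) (F 5 L))) (T (S (F 5 L) (F 5 L)) (S (F 5 L) (F 5 L))))) (S (U (T (S L L) (S L L)) (T (S (F 1 L) (F 1 L)) (S (F 1 L) (F 1 L)))) (U (S (T (F 1 L) (F 1 L)) (T (F 1 L) (F 1 L))) (T (S (F 5 L) (F 5 L)) (S (F 5 L) (F 5 L)))))) (S (V (U (T (S (F 1 L) (F 1 L)) (S (F 1 L) (F 1 L))) (T (S (F 5 L) (F 5 L)) (S (F 5 L) (F 5 L)))) (U (T (S L L) (S L L)) (T (S (F 1 L) (F 1 L)) (S (F 1 L) (F 1 L))))) (V (U (T (S (F 5 L) (F 5 L)) (S (S (F 5 L) (F 5 L)) (F 5 L))) (T (S (F 5 L) (F 5 L)) (S (F 5 L) (F 1029 L)))) (U (T (S (F 1 L) (F 1 L)) (S (F 1 L) (F 1 L))) (T (S (F 5 L) (F 5 L)) (F 1 L)))))))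
noncomputable def v4_50 : Tr := (S (T (S (U (V (T (S L L) (S L L)) (T (S L L) (S L L))) (V (T (S (F 1 L) (F 1 L)) (S (F 1 L) (F 1 L))) (T (S (F 1 L) (F 1 L)) (S (F 1 L) (F 1 L))))) (U (V (T (S L L) (S L L)) (T (S L L) (S L L))) (V (T (S (F 1 L) (F 1 L)) (S (F 1 L) (F 1 L))) (T (S (F 1 L) (F 1 L)) (S (F 1 L) (F 1 L)))))) (S (U (V (T (S L L) (S L L)) (T (S L L) (S L L))) (V (T (S (F 1 L) (F 1 L)) (S (F 1 L) (F 1 L))) (T (S (F 1 L) (F 1 L)) (S (F 1 L) (F 1 L))))) (U (V (T (S L L) (S L L)) (T (S L L) (S L L))) (V (T (S (F 1 L) (F 1 L)) (S (F 1 L) (F 1 L))) (T (S (F 1 L) (F 1 L)) (S (F 1 L) (F 1 L))))))) (T (S (U (V (T (S L L) (S L L)) (T (S L L) (S L L))) (V (T (S (F 1 L) (F 1 L)) (S (F 1 L) (F 1 L))) (T (S (F 1 L) (F 1 L)) (S (F 1 L) (F 1 L))))) (V (U (T (S L L) (S L L)) (T (S (F 1 L) (F 1 L)) (S (F 1 L) (F 1 L)))) (U (T (S L L) (S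 L L)) (T (S (F 1 L) (F 1 L)) (S (F 1 L) (F 1 L)))))) (S (V (U (T (S L L) (S L L)) (T (S (F 1 L) (F 1 L)) (S (F 1 L) (F 1 L)))) (U (T (S L L) (S L L)) (T (S (F 1 L) (F 1 L)) (S (F 1 L) (F 1 L))))) (U (V (T (S L L) (S L (F 1 L))) (T (S L L) (S L L))) (V (T (S (F 1 L) (F 1 L)) (S (F 1 L) (F 5 L))) (T (S (F 1 L) (F 1 L)) (S (F 1 L) (F 1 L))))))))
noncomputable def v4_51 : Tr := (U (V (S v4_46 (T (U (S (V (T (S (S L L) (S L L)) (S (S L L) (S L L))) (T (S (T L L) (S L L)) (S (T L L) (S L L)))) (V (S (T (S L L) (S L L)) (K 6)) (T (S (S L L) (S L L)) (S (S L L) (S L L))))) (S (V (T (S L L) (S L L)) (T (S (S L L) L) (S (S L L) L))) (V (S (T L L) (T (F 4 L) (F 4 L))) (T (S L L) (S L L))))) (U (S (V (T (S (S L L) (S L L)) (S (S L L) (S L L))) (T (S (T L L) (S L L)) (S (S L L) (T L L)))) (V (U (K 6) (T (S (F 4 L) (F 4 L)) L)) (T (S (S L L)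 (S L L)) (S (S L L) (S L L))))) (S (V (T (S L L) (S L L)) (T (S (S L L) (S L L)) (S (S L L) L))) (V (S (T (F 4 L) L) (T (F 4 L) (F 4 L))) (T (S L L) (S L L))))))) (S v4_47 v4_48)) (V v4_49 v4_50))
noncomputable def v4_52 : Tr := (S (T (U v4_32 (V v4_33 v4_34)) (U (V (S v4_35 v4_36) (S v4_37 v4_38)) (V v4_39 v4_40))) (T (U (V (S v4_41 (T (U (S (V (T (S (S L L) (S L L)) (S (S L L) (S L L))) (T (S (S L L) (S L L)) (S (S L L) (T L L)))) (V (U (K 6) (T L (S (F 4 L) (F 4 L)))) (T (U (K 5) (S L L)) (U (K 5) (S L L))))) (S (V (T (S L L) (S L L)) (T (S L L) (S L L))) (V (S (T (F 4 L) (F 4 L)) (T (F 4 L) (F 4 L))) (T (S L L) (S L L))))) (U (S (V (T (S (S L L) (S L L)) (S (S L L) (S L L))) (T (S (T L L) (S L L)) (S (T L L) (S L L)))) (V (S (T (S L L) L) (K 6)) (T (S (S L L) (S L L)) (S (S L L) (S L L))))) (S (V (T (S L L) (S L L)) (T (S (S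 L L) L) (S (S L L) (S L L)))) (V (S (T (F 4 L) L) (T (F 4 L) (F 4 L))) (T (S L L) (S L L))))))) (S v4_42 v4_43)) (V v4_44 v4_45)) v4_51))
noncomputable def v4_53 : Tr := (S (T (S (V (U (T (S (F 19 L) (F 3 L)) (S (F 3 L) (F 3 L))) (T (F 3 L) (F 3 L))) (U (K 7) (S (K 7) (F 3 L)))) (V (U (T (S (F 3 L) (F 3 L)) (S (F 3 L) (S (F 3 L) (F 3 L)))) (T (F 3 L) (S (F 3 L) (F 3 L)))) (U (F 1919 (S (K 0) (K 0))) (S (F 3 L) (F 3 L))))) (S (V (T (U (S (F 3 L) (F 3 L)) (S (F 3 L) (F 3 L))) (U (S (F 3 L) (F 3 L)) (S (F 3 L) (F 3 L)))) (U (K 7) (T (F 3 L) (F 3 L)))) (V (U (T (S (F 3 L) (S (F 3 L) (F 3 L))) (S (F 3 L) (S (F 3 L) (F 3 L)))) (T (S (F 3 L) (F 3 L)) (S (F 3 L) (F 3 L)))) (U (K 7) (T (S (F 3 L) (F 3 L)) (F 3 L)))))) (T (S (V (U (T (S (F 3 L) (S (F 3 L) (F 3 L))) (V (F 1 L) (S (F 3 L) (F 3 L)))) (T (S (F 3 L) (F 3 L)) (S (F 3 L) (F 3 L))))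 (U (V (T (F 3 L) (F 3 L)) (K 7)) (T (F 3 L) (F 3 L)))) (V (U (T (S (F 1 L) (F 1 L)) (S (F 1 L) (F 1 L))) (T (S (F 3 L) (F 3 L)) (S (F 3 L) (F 3 L)))) (T (U (S (F 3 L) (F 3 L)) (S (F 3 L) (F 3 L))) (U (S (F 3 L) (F 3 L)) (S (F 3 L) (F 3 L)))))) (S (V (U (V (S L L) (S (T (F 3 L) (F 3 L)) (S (F 1 L) (F 1 L)))) (T (S (F 3 L) (F 3 L)) (S (F 3 L) (F 3 L)))) (T (U (S (F 3 L) (F 3 L)) (S (F 3 L) (F 3 L))) (U (S (F 3 L) (F 3 L)) (S (F 3 L) (F 3 L))))) (V (U (S (S L L) (T (F 2 L) (F 2 L))) (S (T (F 3 L) (F 3 L)) (T (F 3 L) (F 3 L)))) (U (T (S (F 3 L) (F 3 L)) (S (F 3 L) (S (F 3 L) (F 3 L)))) (T (S (F 3 L) (F 3 L)) (S (F 3 L) (F 3 L))))))))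
noncomputable def v4_54 : Tr := (T (S (V (U (S (T (S (F 3 L) (F 3 L)) (F 2 L)) (S L L)) (T (S (F 3 L) (F 3 L)) (S (F 3 L) (F 3 L)))) (U (V (T (S (F 3 L) (F 3 L)) (S (F 3 L) (F 3 L))) (K 7)) (T (S (F 3 L) (F 3 L)) (S (F 3 L) (F 3 L))))) (V (U (T (S (F 2 L) L) (S (F 2 L) L)) (S (T (F 3 L) (F 3 L)) (T (F 3 L) (F 1 L)))) (U (T (S (F 3 L) (S (F 3 L) (F 3 L))) (U (F 2 L) (S (F 3 L) (F 3 L)))) (T (S (F 3 L) (F 3 L)) (S (F 3 L) (F 3 L)))))) (S (V (U (S (T (F 2 L) (F 2 L)) (S L L)) (T (S (F 3 L) (F 3 L)) (S (F 3 L) (F 3 L)))) (U (V (T (S (F 3 L) (F 3 L)) (S (F 3 L) (F 3 L))) (K 7)) (T (S (F 3 L) (F 3 L)) (S (F 3 L) (F 3 L))))) (V (U (T (S (F 2 L) L) (S (F 2 L) L)) (S (T (F 3 L) (S (F 3 L) (F 3 L))) (T (F 3 L) (F 3 L)))) (U (T (U (F 2 L) (S (F 3 L) (F 3 L))) (U (F 2 L) (S (F 3 L) (F 3 L)))) (T (S (F 3 L) (F 3 L)) (S (F 3 L) (F 3 L)))))))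
noncomputable def v4_55 : Tr := (U (V (S (T (U (K 7) (S (K 7) (V (S (K 7) (T L L)) (K 7)))) (U (K 7) (S (K 7) (V (S (K 7) (T L L)) (K 7))))) (T (U (V (S (S (K 7) (U (K 7) (T L L))) (T (S (S L L) (S L L)) (S (S L L) (T L L)))) (K 7)) (V (S (T (S L L) (S L L)) (T (S L L) (S L L))) (S (K 7) (V (T L L) (K 7))))) (U (V (S (S (K 7) (U (K 7) (T L L))) (T (S (S L L) (S L L)) (S (S L L) (S L L)))) (K 7)) (S (V (T (S L L) (S L L)) (K 7)) (V (T (S L L) (S L L)) (V (S (K 7) L) (K 7))))))) (K 7)) (V (S (T (S (V (U (V (T (S (F 3 L) (F 3 L)) (S (F 3 L) (F 3 L))) (K 7)) (T (S (F 3 L) (F 3 L)) (S (F 3 L) (F 3 L)))) (U (K 7) (T (F 3 L) (K 7)))) (V (U (T (U (F 2 L) (S (F 3 L) (F 3 L))) (V (F 2 L) (S (F 3 L) (F 3 L)))) (T (S (F 3 L) (F 3 L)) (S (F 3 L) (F 3 L)))) (U (K 7) (T (S (F 3 L) (F 3 L)) (S (F 3 L) (F 3 L)))))) (S (V (T (U (S (F 3 L) (F 3 L))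 (S (F 3 L) (F 3 L))) (U (S (F 3 L) (F 3 L)) (S (F 3 L) (F 3 L)))) (K 7)) (V (T (U (V (F 2 L) (S (F 3 L) (F 3 L))) (S (F 3 L) (F 3 L))) (U (V (F 2 L) (S (F 3 L) (F 3 L))) (S (F 3 L) (F 3 L)))) (U (K 7) (T (S (F 3 L) (F 3 L)) (S (F 3 L) (F 3 L))))))) v4_54) (S (K 7) (T (U (K 7) (V (S (T (F 3 L) (K 7)) (T (F 3 L) (S (F 3 L) (F 3 L)))) (K 7))) (S (K 7) (U (K 7) (V (T (S (F 3 L) (F 3 L)) (S (F 3 L) (F 3 L))) (K 7))))))))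
noncomputable def v4_56 : Tr := (S (T (U (S (V (T (S (S L L) (S L L)) (S (S L L) (T L L))) (S (K 7) (T (S L L) (S L L)))) (V (T (S (S L L) (S L L)) (S (S L L) (T L L))) (T (S L (S L L)) (S (S L L) (S L L))))) (S (V (T (S L L) (S L (S L L))) (T (S (F 2 L) (F 2 L)) (S (F 2 L) L))) (V (T (S L L) (S (S L L) L)) (T (S L L) (S L L))))) (S (V (U (T (S (S L L) (S L L)) (S (S L L) (T L L))) (T (S L L) (S L L))) (U (S (K 7) (T (S L L) (S L L))) (T (S L L) (S L L)))) (V (U (T (S (T L L) (T L L)) (S (S L L) (T L L))) (T (S (S L L) (S L L)) (S (S L L) (S L L)))) (U (T (S (S L L) (S L L)) (S (S L L) (S L L))) (T (S L L) (S L L)))))) (T (S (V (U (T (U (K 5) (S L L)) (S (S L L) (S L L))) (T (S L L) (S L (S L L)))) (U (T (U (K 5) (S L L)) (S (S L L) (S L L))) (T (S L L) (S L L)))) (V (U (U (K 5) (T (S L (K 5)) (S L L))) (T (S L L) (S L L))) (U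 (T (S (S L L) (K 5)) (S (S L L) (S L L))) (T (S L L) (S L L))))) (S (V (U (T (S (T L L) (T L L)) (S (S L L) (S L L))) (T (S (S L L) (S L L)) (S (S L L) (S L L)))) (U (T (S (S L L) (S L L)) (S (S L L) (S L L))) (T (S L L) (S L L)))) (V (U (T (S (S L L) (S L L)) (S (S L L) (S L L))) (T (S L (S L L)) (S (S L L) L))) (U (T (S (S L L) (T L L)) (S (S L L) (S L L))) (T (S L L) (S L L)))))))
noncomputable def v4_57 : Tr := (S (T (V (S (U (T (S (F 1 L) (F 1 L)) (S (F 1 L) L)) (T (S (F 3 L) (F 3 L)) (S (F 3 L) (F 3 L)))) (U (T (S L (F 1 L)) (S L L)) (T (S (F 3 L) (F 1 L)) (S (F 1 L) (F 1 L))))) (S (U (T (S (F 3 L) (F 3 L)) (V (F 1 L) (S (F 3 L) (F 3 L)))) (T (S (F 3 L) (F 3 L)) (S (F 3 L) (F 3 L)))) (U (T (S (F 1 L) (F 1 L)) (S (F 1 L) (F 1 L))) (T (S (F 3 L) (F 3 L)) (S (F 3 L) (F 3 L)))))) (S (V (U (T (S (F 1 L) L) (S (F 1 L) L)) (T (S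 (F 3 L) (F 1 L)) (S (F 1 L) (F 1 L)))) (U (V (T (F 1 L) (F 2 L)) (T (S (F 3 L) (F 3 L)) (S (F 3 L) (F 3 L)))) (T (S (F 3 L) (F 3 L)) (S (F 3 L) (F 3 L))))) (V (U (T (S L L) (S L L)) (T (S (F 1 L) (F 1 L)) (S (F 1 L) (F 1 L)))) (U (T (S (F 1 L) (F 1 L)) (S (F 2 L) (F 2 L))) (S (T (F 3 L) (F 3 L)) (S (F 1 L) (F 1 L))))))) (T (S (V (U (T (S L (F 1 L)) (S L L)) (T (S (F 1 L) (F 1 L)) (S (F 1 L) (F 1 L)))) (U (T (S (F 1 L) (F 1 L)) (S (F 1 L) (F 1 L))) (T (S (F 3 L) (F 3 L)) (S (F 3 L) (F 3 L))))) (V (U (T (S L L) (S L L)) (T (S (F 1 L) (F 1 L)) (S (F 1 L) (F 1 L)))) (U (T (S (F 1 L) (F 1 L)) (S (F 1 L) (F 1 L))) (T (S (F 3 L) (F 3 L)) (S (F 3 L) (F 1 L)))))) (S (V (U (T (S L L) (S L L)) (T (S (F 1 L) (F 1 L)) (S (F 1 L) (F 1 L)))) (U (S (S L L) (T (F 1 L) (F 1 L))) (T (S (F 3 L) (F 3 L)) (S (F 3 L) (F 3 L))))) (U (V (T (S L L) (S L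 L)) (T (S (F 1 L) (F 1 L)) (S L (F 1 L)))) (V (T (S (F 1 L) (F 1 L)) (S (F 1 L) (F 1 L))) (T (S (F 1 L) (F 1 L)) (S (F 3 L) (F 1 L))))))))
noncomputable def v4_58 : Tr := (S (T (S (V (U (V (T (F 3 L) (F 3 L)) (K 7)) (T (F 3 L) (F 3 L))) (U (K 7) (S (K 7) (F 3 L)))) (V (U (T (S (F 3 L) (F 3 L)) (S (F 3 L) (F 3 L))) (T (F 3 L) (S (F 3 L) (F 3 L)))) (U (K 7) (S (F 3 L) (F 3 L))))) (S (V (U (V (T (S (F 3 L) (F 3 L)) (S (F 3 L) (F 3 L))) (K 7)) (T (S (F 3 L) (F 3 L)) (S (F 3 L) (F 3 L)))) (U (K 7) (T (F 3 L) (F 3 L)))) (V (U (T (S (F 3 L) (F 3 L)) (S (F 3 L) (F 3 L))) (T (S (F 3 L) (F 3 L)) (S (F 3 L) (F 3 L)))) (U (K 7) (T (F 3 L) (F 3 L)))))) (T (S (V (U (T (S (F 3 L) (F 3 L)) (S (F 3 L) (S (F 3 L) (F 3 L)))) (T (S (F 3 L) (F 3 L)) (S (F 3 L) (F 3 L)))) (U (T (S (F 3 L) (F 3 L)) (S (F 3 L) (F 3 L))) (T (F 3 L) (F 3 L)))) (V (U (S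 (T (F 3 L) (F 1 L)) (T (F 1 L) (F 1 L))) (T (S (F 3 L) (F 3 L)) (S (F 3 L) (F 3 L)))) (U (T (S (F 3 L) (F 3 L)) (S (F 3 L) (F 3 L))) (T (F 3 L) (F 3 L))))) (S (V (U (T (V (F 1 L) (S (F 3 L) (F 3 L))) (V (F 1 L) (S (F 3 L) (F 3 L)))) (T (S (F 3 L) (F 3 L)) (S (F 3 L) (F 3 L)))) (U (V (T (F 3 L) (F 3 L)) (K 7)) (T (F 3 L) (F 3 L)))) (V (U (T (S (F 1 L) (F 1 L)) (S (F 1 L) (F 1 L))) (T (S (F 3 L) (F 3 L)) (S (F 3 L) (F 3 L)))) (U (T (S (F 3 L) (F 3 L)) (S (F 3 L) (F 3 L))) (T (S (F 3 L) (F 3 L)) (S (F 3 L) (F 3 L))))))))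
noncomputable def v4_59 : Tr := (T (S (V (U (T (S (T L L) (S L L)) (S (S L L) (T L L))) (T (S L (S L L)) (S (S L L) (S L L)))) (U (T (S (S L L) (S L L)) (S (S L L) (S L L))) (T (S L L) (S L L)))) (V (U (T (S (S L L) (T L L)) (S (S L L) (S L L))) (T (S (S L L) (S L L)) (S (S L L) L))) (U (T (S (S L L) (S L L)) (S (S L L) (S L L))) (T (S L L) (S (S L L) L))))) (S (V (U (T (S (T L L) (S L L)) (S (T L L) (S L L))) (T (S L (S L L)) (S (S L L) (S L L)))) (U (T (S (S L L) (S L L)) (S (S L L) (S L L))) (T (S L L) (S L L)))) (V (U (T (S (T L L) (S L L)) (U (K 3) (S L L))) (T (S L (S L L)) (S L L))) (U (T (S (S L L) (S L L)) (U (K 3) (S L L))) (T (S L L) (S L L))))))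
noncomputable def v4_60 : Tr := (V (S (T (S (V (U (T (S (S L L) (S L L)) (S (S L L) (S L L))) (T (S L L) (S L L))) (U (S (K 7) (U (K 7) (T L L))) (T (S L L) (S L L)))) (V (U (T (S (T L L) (T L L)) (S (T L L) (T L L))) (T (S L (S L L)) (S (S L L) L))) (U (T (S (S L L) (S L L)) (S (S L L) (S L L))) (T (S L L) (S L L))))) (S (V (U (T (S (S L L) (S L L)) (S (S L L) (T L L))) (T (S L L) (S L L))) (U (S (K 7) (V (T L L) (K 7))) (T (S L L) (S L L)))) (V (U (T (S (S L L) (V L L)) (S (T L L) (V L L))) (T (S (S L L) (S L L)) (S (S L L) (S L L)))) (U (T (S (S L L) (S L L)) (S (S L L) (S L L))) (T (S L L) (S L L)))))) v4_59) (S (T (U (K 7) (V (S (K 7) (V (S (K 7) L) (K 7))) (K 7))) (U (K 7) (V (S (K 7) (V (S L L) (K 7))) (K 7)))) (T (U (V (S (S (K 7) (T (S L L) (S L L))) (T (S (S L L) (S L L)) (S (S L L) (S L L)))) (K 7)) (S (V (T (S L L)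 (S L L)) (K 7)) (V (T (S L L) (S L L)) (V (S L L) (K 7))))) (U (V (S (S (K 7) (T (S L L) (S L L))) (T (S (S L L) (S L L)) (S (S L L) L))) (K 7)) (S (V (T (S (F 2 L) L) (S L (F 2 L))) (K 7)) (V (T (S L L) (S L (F 1 L))) (V (T (F 2 L) (F 2 L)) (K 7))))))))
noncomputable def v4_61 : Tr := (S (T (V (S (U (T (S L L) (S L L)) (T (S (F 1 L) (F 1 L)) (S (F 1 L) (F 1 L)))) (U (T (S L L) (S L L)) (T (S (F 1 L) (F 1 L)) (S (F 1 L) (F 1 L))))) (S (T (U (S (S (F 3 L) (F 3 L)) (F 1 L)) (S (F 3 L) (F 3 L))) (U (S (S (F 3 L) (F 3 L)) (F 2 L)) (S (F 3 L) (F 3 L)))) (U (T (S (F 2 L) (F 2 L)) (S (F 2 L) (F 2 L))) (S (T (F 3 L) (F 3 L)) (S (F 1 L) (F 1 L)))))) (V (S (U (T (S L L) (S L (F 1 L))) (T (S (F 1 L) (F 1 L)) (S (F 1 L) (F 1 L)))) (U (T (S L L) (S L L)) (T (S (F 1 L) (F 1 L)) (S (F 1 L) (F 1 L))))) (S (T (U (S (S (F 3 L) (F 3 L)) (F 1 L))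 (S (F 3 L) (F 3 L))) (U (S (S (F 3 L) (F 3 L)) (F 1 L)) (S (F 3 L) (F 3 L)))) (U (S (S L L) (T (F 2 L) (F 2 L))) (S (T (F 3 L) (F 3 L)) (S (F 1 L) (F 1 L))))))) (T (S (U (V (T (S L L) (S L L)) (T (S (F 1 L) L) (S (F 1 L) L))) (V (T (S (F 1 L) (F 1 L)) (S (F 1 L) (F 1 L))) (T (S (F 3 L) (F 3 L)) (S (F 3 L) (F 3 L))))) (U (V (T (S L L) (S L L)) (T (S (F 1 L) (F 1 L)) (S L (F 1 L)))) (V (T (S (F 1 L) (F 1 L)) (S (F 1 L) (F 1 L))) (T (S (F 1 L) (F 1 L)) (S (F 1 L) (F 1 L)))))) (S (V (U (T (S L L) (S L L)) (T (S (F 1 L) (F 1 L)) (S (F 1 L) (F 1 L)))) (U (S (T (F 1 L) (F 1 L)) (T (F 1 L) (F 1 L))) (T (S (F 3 L) (F 3 L)) (S (F 3 L) (F 3 L))))) (V (U (T (S L L) (S L L)) (T (S (F 1 L) (F 1 L)) (S (F 1 L) (F 1 L)))) (U (T (S (F 1 L) (F 1 L)) (S (F 1 L) (F 1 L))) (T (S (F 1 L) (F 1 L)) (S (F 3 L) (F 3 L))))))))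
noncomputable def v4_62 : Tr := (S (T (S (V (U (V (T (S (F 3 L) (F 3 L)) (S (F 3 L) (F 3 L))) (K 7)) (T (S (F 3 L) (F 3 L)) (S (F 3 L) (F 3 L)))) (U (K 7) (T (F 3 L) (F 3 L)))) (V (U (T (S (S (F 3 L) (F 3 L)) (F 3 L)) (S (S (F 3 L) (F 3 L)) (S (F 3 L) (F 3 L)))) (T (S (F 3 L) (F 3 L)) (S (F 3 L) (F 3 L)))) (U (K 7) (T (F 3 L) (F 3 L))))) (S (V (U (V (T (S (F 3 L) (F 3 L)) (S (F 3 L) (F 3 L))) (K 7)) (T (S (F 3 L) (F 3 L)) (S (F 3 L) (F 3 L)))) (U (K 7) (T (F 3 L) (F 3 L)))) (V (U (T (S (F 3 L) (F 3 L)) (S (S (F 3 L) (F 3 L)) (F 3 L))) (T (S (F 3 L) (F 3 L)) (S (F 3 L) (F 3 L)))) (U (K 7) (T (F 3 L) (F 3 L)))))) (T (S (V (U (T (V (F 1 L) (S (F 3 L) (F 3 L))) (V (F 1 L) (S (F 3 L) (F 3 L)))) (T (S (F 3 L) (F 3 L)) (S (F 3 L) (F 3 L)))) (U (V (T (F 3 L) (F 3 L)) (K 7)) (T (F 3 L) (F 3 L)))) (V (U (T (S (F 1 L) (F 1 L)) (S (F 1 L)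 (F 1 L))) (T (S (F 3 L) (F 3 L)) (S (F 3 L) (F 3 L)))) (U (T (S (F 3 L) (F 3 L)) (S (F 3 L) (F 3 L))) (T (S (F 3 L) (F 3 L)) (S (F 3 L) (F 1027 L)))))) (S (V (U (T (V (F 1 L) (S (F 3 L) (F 3 L))) (S (S (F 3 L) (F 3 L)) (F 3 L))) (T (S (F 3 L) (F 3 L)) (S (F 3 L) (F 3 L)))) (U (V (T (F 3 L) (F 3 L)) (K 7)) (T (F 3 L) (F 3 L)))) (V (U (S (T (F 1 L) (F 1 L)) (T (F 1 L) (F 1 L))) (T (S (F 3 L) (F 3 L)) (S (F 3 L) (F 3 L)))) (U (T (S (F 3 L) (F 3 L)) (S (F 3 L) (F 3 L))) (T (F 3 L) (F 3 L)))))))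
noncomputable def v4_63 : Tr := (S (T (U (V (S (T (U (K 7) (S (K 7) (V (V (T (S (F 3 L) (F 3 L)) L) (K 7)) (K 7)))) (U (K 7) (V (S (K 7) (V (T L L) (K 7))) (K 7)))) (T (U (V (S (S (K 7) (T (S L L) (S L L))) (T (S (S L L) (S L L)) (S (S L L) (S L L)))) (K 7)) (S (V (T (S (F 2 L) L) (S (F 2 L) L)) (K 7)) (V (T (S L L) (S L L)) (V (T (S (F 3 L) (F 3 L)) L) (K 7))))) (V (S (U (S (K 7) (U (K 7) (T L L))) (T (S L L) (S L L))) (U (T (S (S L L) (S L L)) (S (S L L) (S L L))) (T (S L L) (S L L)))) (S (K 7) (U (K 7) (V (S L L) (K 7))))))) (K 7)) (V v4_53 (S (K 7) (T (U (K 7) (V (S (S (K 7) (F 3 L)) (T (F 3 L) (F 3 L))) (K 7))) (U (K 7) (V (S (S (K 7) (F 3 L)) (T (S (F 3 L) (F 3 L)) (F 3 L))) (K 7))))))) v4_55) (T (U (V v4_56 (S (T (U (K 7) (S (K 7) (V (V (T (F 2 L) (F 2 L)) (K 7)) (K 7)))) (U (K 7) (V (S (K 7) (V (S L L) (K 7))) (K 7))))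 (T (U (V (S (S (K 7) (T L (S L L))) (T (S (S L L) L) (S (S L L) (S L L)))) (K 7)) (S (V (T (S (F 2 L) (F 2 L)) (S (F 2 L) (F 2 L))) (K 7)) (V (T (S (F 2 L) (F 1 L)) (S L L)) (V (S (F 2 L) L) (K 7))))) (U (V (S (S (K 7) (T L (S L L))) (T (S (S L L) (S L L)) (S (S L L) (S L L)))) (K 7)) (S (V (T (S (F 2 L) L) (S L L)) (K 7)) (V (T (S L L) (S L L)) (V (S L L) (K 7)))))))) (V v4_57 v4_58)) (U v4_60 (V v4_61 v4_62))))
noncomputable def v4_64 : Tr := (U (F 2015 (V (S (T (K 0) (T (K 0) (K 0))) (K 0)) (K 0))) (V (F 277 (S (T (S (V (S L L) (U (S L L) L)) (V (S L L) (U L L))) (S (V (U (S L L) (S L L)) (U (T L (S L L)) (S L L))) (V (U (S L L) L) (U (S L L) (S L L))))) (T (S (V (S L L) (S L L)) (U (K 4) L)) (S (V (T L L) (U (S L (K 4)) L)) (V (S L L) (U (K 4) L)))))) (S (T (F 273 (S (V (U (S (F 64 L) (F 64 L)) (S (F 64 L) (F 64 L))) (T L (S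 L L))) (U (K 4) (V (F 64 L) (S (F 64 L) (F 64 L)))))) (V (F 273 (S (U (T L (S L (F 64 L))) (V (S (F 64 L) (F 64 L)) L)) (U (S L (T (K 4) (F 64 L))) (S (F 64 L) (F 64 L))))) (S (F 273 (U (U (K 4) (S L L)) (S L L))) (T (F 273 (S L L)) (S (F 257 L) (F 257 L)))))) (F 261 (T (U (K 4) (S (V (F 32 L) (F 32 L)) (T (K 4) (F 32 L)))) (U (K 4) (S (V (S (F 32 L) (F 32 L)) (T (F 32 L) L)) (V (F 32 L) (S (F 32 L) (F 32 L))))))))))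
noncomputable def v4_65 : Tr := (S (T (S (V (U (T (S (F 273 L) (F 261 L)) (S (F 257 L) (F 257 L))) (S (F 257 L) (F 257 L))) (U (T (S (F 257 L) (F 257 L)) (S (F 257 L) (F 257 L))) (T (F 257 L) (S (F 257 L) (F 261 L))))) (V (U (T (F 257 L) (S (F 257 L) (F 261 L))) (F 261 (T L (S L (F 32 L))))) (U (T (S (F 257 L) (F 273 L)) (S (F 257 L) (F 257 L))) (T (F 257 L) (F 257 L))))) (S (V (U (T (S (F 1 L) (F 257 L)) (S (F 1 L) (F 1 L))) (T (F 1 L) (F 1 L))) (U (T (S (F 1 L) (F 1 L)) (S (F 1 L) (F 1 L))) (T (F 1 L) (S (F 257 L) (F 257 L))))) (V (U (T (S (F 257 L) (F 257 L)) (F 1 L)) (T (F 261 (S L L)) (F 5 L))) (T (U (S (F 1 L) (F 257 L)) (F 261 (S L L))) (U (S (F 1 L) (F 1 L)) (F 1 L)))))) (T (S (V (F 261 (U (T L (S L L)) (S L L))) (U (F 261 (T (K 4) (S L L))) (T (F 261 L) (F 257 L)))) (F 261 (V (U (F 239 (T (K 0) (K 0))) (S L (F 32 L)))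 (U (K 4) (S L L))))) (S (V (F 261 (U (T (S L L) (S L L)) (T L (S L (F 1 L))))) (U (T (S (F 257 L) (F 257 L)) (S (F 257 L) (F 257 L))) (T (F 257 L) (F 257 L)))) (V (F 261 (U (T L (S L (F 1 L))) (S L L))) (U (T (F 257 L) (F 257 L)) (F 261 (T L L)))))))
noncomputable def v4_66 : Tr := (U (V (S (T (U (K 5) (U (K 5) (S (V (F 261 (S L L)) (T (K 5) (F 260 L))) (F 2015 (T (K 0) (K 0)))))) (U (K 5) (S (V (V (K 6) (T (F 260 L) (F 4 L))) (T L (S (F 4 L) (F 256 L)))) (U (K 5) (V (F 261 (T L (K 3))) (T (F 261 (S L (K 4))) (F 260 L))))))) (F 1951 (T (K 1) (U (K 0) (S (V (K 0) (F 1 (T (K 0) (K 0)))) (K 1)))))) (S (T (F 2015 (T (K 0) (K 0))) (U (K 5) (S (V (T (S (F 256 L) (F 256 L)) (S L (F 256 L))) (U (K 5) (T L L))) (T (K 5) (V L (S L (K 5))))))) (F 2015 (T (K 0) (K 0))))) (V (S (T (F 261 (S (V (U (T L (S (F 32 L) (F 32 L))) (S L L)) (U (T (S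 L (F 32 L)) (S L L)) (T L (S (F 32 L) (F 32 L))))) (V (U (S L L) L) (U (T L (S L (F 32 L))) (S L L))))) (S (V (T (S (F 5 L) (F 5 L)) (U (F 261 (S L L)) (F 5 L))) (U (S (S (F 1 L) (F 1 L)) (T (F 261 L) (F 5 L))) (T (F 5 L) (F 5 L)))) (V (F 261 (U (T L (S L L)) (S L L))) (U (T (F 261 (S L L)) (S (F 5 L) (F 261 L))) (F 261 (T L (S L L))))))) (F 261 (T (S (V (U L L) (U (S L L) (S L (F 32 L)))) (V (S L L) (T L (S L (F 32 L))))) (S (V (U (T L L) (S L (F 1 L))) (U (T (S L (F 32 L)) (S L L)) (S L L))) (V (T L L) (U (S L L) (S L (F 1 L)))))))) v4_65))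
noncomputable def v4_67 : Tr := (S (T (S (V (U (T (S (F 257 L) (F 257 L)) (S (S (F 257 L) (F 257 L)) (F 257 L))) (T (F 257 L) (S (F 257 L) (F 257 L)))) (U (T (S (F 257 L) (F 273 L)) (S (F 257 L) (F 257 L))) (T (F 257 L) (F 257 L)))) (V (U (U (K 5) (S (F 257 L) (F 257 L))) (T (F 257 L) (S (F 257 L) (F 261 L)))) (U (U (K 5) (S (F 257 L) (F 257 L))) (T (F 257 L) (F 257 L))))) (S (V (U (T (S (F 1 L) (F 1 L)) (S (F 1 L) (F 256 L))) (T (F 1 L) (S (F 257 L) (F 257 L)))) (U (T (S (F 1 L) (F 1 L)) (S (F 1 L) (F 1 L))) (T (F 1 L) (F 1 L)))) (V (T (U (S (F 1 L) (F 257 L)) (S (F 257 L) (F 257 L))) (U (S (F 1 L) (F 1 L)) (F 1 L))) (T (U (S (F 1 L) (F 257 L)) (S (F 257 L) (F 257 L))) (U (S (F 1 L) (F 1 L)) (F 1 L)))))) (T (S (V (U (U (K 5) (S (F 257 L) (F 257 L))) (S (F 257 L) (F 257 L))) (U (T (K 5) (S (F 257 L) (K 5))) (S (F 257 L) (F 257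 L)))) (U (K 5) (V (S (F 257 L) (F 257 L)) (S (F 257 L) (F 257 L))))) (S (V (U (T (S (F 257 L) (F 257 L)) (S (F 1 L) (F 257 L))) (T (F 257 L) (S (F 257 L) (F 261 L)))) (U (T (S (F 257 L) (F 257 L)) (S (F 257 L) (F 257 L))) (T (S (F 257 L) (F 259 L)) (S (F 257 L) (F 257 L))))) (V (U (U (K 5) (S (F 257 L) (F 257 L))) (S (F 257 L) (F 257 L))) (U (T (S (F 257 L) (K 5)) (S (F 257 L) (F 257 L))) (T (F 257 L) (F 257 L)))))))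
noncomputable def v4_68 : Tr := (S (T (S (V (U (T (F 257 L) (S (F 259 L) (F 257 L))) (F 259 (T L (S L L)))) (F 259 (U (T (S (F 32 L) (F 32 L)) (S L L)) (S L L)))) (V (U (T (F 257 L) (S (F 257 L) (F 257 L))) (S (F 257 L) (F 257 L))) (F 259 (U (T L (S L L)) (S L L))))) (S (V (U (T (F 1 L) (S (F 3 L) (F 1 L))) (T (F 3 L) (S (F 3 L) (F 257 L)))) (T (S (S (F 3 L) (F 3 L)) (S (F 3 L) (F 3 L))) (U (S (F 3 L) (F 3 L)) (F 3 L)))) (V (T (U (S (F 257 L) (F 257 L)) (F 257 L)) (U (S (F 257 L) (F 257 L)) (F 1 L))) (T (F 259 (U (S L L) (S L L))) (U (S (F 3 L) (F 259 L)) (F 3 L)))))) (T (V (S (U (T (K 5) (S (F 257 L) (F 257 L))) (S (F 257 L) (F 257 L))) (U (K 5) (S (F 257 L) (F 257 L)))) (S (U (T (K 5) (F 257 L)) (F 259 (S L L))) (F 259 (U (K 4) (S L L))))) (S (V (U (T (S (F 257 L) (F 257 L)) (S (F 257 L) (F 257 L))) (T (F 257 L) (F 259 (S L L))))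 (U (T (F 259 (S L L)) (S (F 257 L) (F 257 L))) (F 259 (T L (S L L))))) (V (U (T (S (F 257 L) (F 257 L)) (S (F 257 L) (F 257 L))) (T (F 257 L) (F 257 L))) (U (T (F 257 L) (S (F 259 L) (F 1281 L))) (S (F 257 L) (F 257 L)))))))
noncomputable def v4_69 : Tr := (T (U (K 5) (V (S (T (F 273 (U (K 4) (S (V L (S (F 128 L) (F 128 L))) (V L L)))) (S (V (T (F 273 (U (S L (K 4)) L)) (U (F 257 L) (F 257 L))) (T (F 275 (U (K 4) L)) (S (F 257 L) (F 257 L)))) (F 273 (U (K 4) (V (S L L) (S L L)))))) (U (K 5) (T (F 273 (S (V L L) (K 4))) (S (F 273 (V (S L L) (S L L))) (V (F 273 (S L (F 64 L))) (F 257 L)))))) (S (F 259 (T (U (K 4) (S (V (F 32 L) (F 32 L)) (V (F 32 L) (F 32 L)))) (S (V (U (T (K 4) L) (S (F 32 L) (F 32 L))) (U (T (K 4) L) (S (F 32 L) (F 32 L)))) (U (K 4) (V (T (F 32 L) L) (S (F 32 L) (F 32 L))))))) (U (K 5) (T (K 5) (S (V (F 273 (S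 L L)) (F 259 L)) (V (F 257 L) (F 259 L)))))))) (U (V (S (T (K 5) (U (K 5) (U (K 5) (S (V (T L L) (S L L)) (T (K 5) (V L L)))))) (K 5)) (S (T (K 5) (U (K 5) (S (V (T L (S (F 1 L) (F 256 L))) (T (S (F 258 L) (F 258 L)) (S (F 258 L) (F 256 L)))) (T (K 5) (V (S (F 256 L) (F 256 L)) L))))) (T (K 5) (S (V (K 5) (U (K 5) (T (K 5) (S (F 256 L) (K 5))))) (K 5))))) (V v4_67 v4_68)))
noncomputable def v4_70 : Tr := (V (S (T v4_64 v4_66) (F 261 (T (U (K 4) (V (S (T (U (K 4) (S (F 32 L) (F 33 L))) (U (K 4) (S (S (F 32 L) (F 32 L)) (F 32 L)))) (F 231 (T (K 0) (V (K 1) (K 0))))) (S (T (K 4) (U (K 4) (S (T (K 4) L) (K 4)))) (K 4)))) (U (K 4) (V (S (T (S (V L (S L L)) (V (K 3) L)) (S (V (S L (K 3)) (T L L)) (U (K 3) (S (F 1 L) (F 1 L))))) (S (U (K 3) (T (F 33 L) (F 1 L))) (K 3))) (S (T (U (K 4) (S (V L L) (S L L))) (S (V (U (S L L) L) (U (T (K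 4) L) (S L (F 1 L)))) (V (U (S (F 1 L) (K 4)) (F 1 L)) (U (K 4) (F 1 L))))) (U (K 4) (T (S (S (F 1 L) (F 1 L)) (K 4)) (S (T (F 1 L) (F 1 L)) (F 1 L)))))))))) (S v4_69 (T (F 2015 (U (K 0) (V (S (U (K 0) (T (K 0) (T (K 0) (K 0)))) (K 0)) (K 0)))) (U (K 5) (V (S (T (U (K 5) (S (V (F 261 (S L L)) (F 257 L)) (V (F 261 L) (F 1281 L)))) (S (V (U (T (K 5) (F 257 L)) (S (F 1281 L) (F 261 L))) (U (T (K 5) (F 257 L)) (S (F 257 L) (F 1281 L)))) (F 1281 (U (K 3) (V (S (F 64 L) (F 64 L)) (S L (F 64 L))))))) (F 1285 (T (K 3) (U (K 3) (S (V L (S L L)) (T L L)))))) (S (T (U (K 5) (S (V (F 257 L) (F 257 L)) (F 1281 (T (K 3) (S L L))))) (S (V (T (F 1281 (U (K 3) L)) (U (F 257 L) (F 1281 L))) (T (S (F 257 L) (F 257 L)) (F 1281 (U (S L L) L)))) (F 1281 (V (U (T (K 3) (S L (K 3))) (S L L)) (U (T (K 3) L) (S L L)))))) (F 1281 (U (K 3) (T (S (V (K 3)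 L) (K 3)) (S (V L L) (V (F 64 L) L)))))))))))
noncomputable def v4_71 : Tr := (S (T (S (V (U (T (K 5) (S (S L L) (K 5))) (T (S L L) (S L L))) (U (T (K 5) (S (S L (K 5)) (K 5))) (T (S L L) (S L L)))) (U (K 5) (V (T (S (F 256 L) (F 256 L)) (S L (F 1 L))) (T (S L (F 256 L)) (S L L))))) (S (V (U (T (U (K 5) (S L L)) (S (S L L) (S L L))) (T (S L L) (S L L))) (U (T (U (K 5) (S L L)) (S (S L L) (S L L))) (T (S L L) (S L L)))) (V (U (T (U (K 5) (S (F 256 L) (K 5))) (S (S L L) L)) (T (S L (F 1 L)) (S L (F 1 L)))) (U (T (U (K 5) (S L (F 256 L))) (S (S L L) (S L L))) (T (S L L) (S L L)))))) (T (U (K 5) (S (V (T (S (F 256 L) (F 260 L)) L) (U (K 5) (S L (F 256 L)))) (T (K 5) (V (F 261 (S L L)) (F 256 L))))) (U (S (T (K 5) (U (K 5) (V L L))) (K 5)) (S (V (S L L) (T (S (F 1 L) (F 256 L)) (S (F 1 L) (F 1024 L)))) (V (T (S (F 1028 L) (F 261 L))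 (S (F 5 L) (F 1029 L))) (T (S (F 1280 L) (F 1280 L)) (F 1024 L)))))))
noncomputable def v4_72 : Tr := (S (T (S (V (U (T (S (F 5 L) (F 261 L)) (S (F 5 L) (F 261 L))) (T (F 5 L) (F 5 L))) (U (T (S (F 5 L) (F 5 L)) (S (F 1 L) (F 5 L))) (T (S (F 5 L) (F 261 L)) (S (F 5 L) (F 5 L))))) (V (U (T (F 5 L) (F 5 L)) (S (F 5 L) (F 261 L))) (U (T (S (F 5 L) (F 261 L)) (S (F 5 L) (F 261 L))) (T (F 5 L) (F 5 L))))) (S (V (U (T (S (F 5 L) (F 5 L)) (S (F 5 L) (F 5 L))) (T (F 5 L) (F 5 L))) (U (T (S (F 1 L) (F 5 L)) (S (F 1 L) (F 1 L))) (V (S (F 5 L) (F 5 L)) (S (F 1 L) (F 5 L))))) (V (U (T (F 5 L) (F 261 (S L L))) (S (F 5 L) (F 5 L))) (U (T (S (F 5 L) (F 5 L)) (S (F 5 L) (F 5 L))) (T (F 5 L) (F 5 L)))))) (T (F 261 (S (V (U (T L L) (S L L)) (U (T (S L L) (S L (F 1 L))) (T L L))) (V (U (K 3) L) (U (S L L) (S L (F 1 L)))))) (S (V (T (S (F 5 L) (F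 261 L)) (F 5 L)) (U (T (F 5 L) (F 5 L)) (S (F 5 L) (F 1029 L)))) (V (F 1285 (U (K 2) (S L L))) (T (F 261 (S L L)) (F 1029 (S L (S (F 2 L) (F 2 L)))))))))
noncomputable def v4_73 : Tr := (S (T (S (V (U (T (S (F 1 L) (F 1 L)) (S (F 1 L) (F 1 L))) (T (F 1 L) (S (F 5 L) (F 5 L)))) (U (T (S L (F 1 L)) (S L (F 1 L))) (T (S (F 1 L) (F 257 L)) (S (F 1 L) (F 1 L))))) (V (U (T (S (F 1 L) (F 257 L)) (S (F 1 L) (F 5 L))) (S (F 1 L) (S (F 257 L) (F 5 L)))) (U (T (S (F 1 L) (F 1 L)) (S (F 1 L) (F 1 L))) (T (F 1 L) (F 1 L))))) (S (V (U (S (S L L) (T (F 1 L) (F 1 L))) (T (S (F 1 L) (F 5 L)) (S (F 1 L) (F 5 L)))) (U (T (S L (F 1 L)) (S L L)) (T (S (F 1 L) (F 1 L)) (S (F 1 L) (F 1 L))))) (V (U (T (S (F 1 L) (F 5 L)) (S (F 1 L) (F 5 L))) (S (F 1 L) (S (F 5 L) (F 5 L)))) (U (S (S L L) (T (F 1 L) (F 1 L))) (T (S (F 5 L) (F 5 L)) (S (F 1 L) (F 5 L)))))))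 (T (S (V (T (F 261 (U (S L L) (S L L))) (U (S (F 257 L) (F 261 L)) (F 5 L))) (T (U (S (F 257 L) (F 257 L)) (F 257 L)) (U (S (F 1 L) (F 257 L)) (F 1 L)))) (V (F 261 (U (T (S L (F 1 L)) (S L (F 1 L))) (S L L))) (U (T (F 257 L) (S (F 257 L) (F 1281 L))) (F 261 (T L L))))) (S (V (U (S (S (F 1 L) (F 1 L)) (S (F 5 L) (F 5 L))) (S (F 5 L) (F 5 L))) (U (T (S (F 1 L) (F 257 L)) (S (F 1 L) (F 1025 L))) (S (F 1 L) (F 1 L)))) (T (V (S (F 5 L) (F 261 L)) (V (F 5 L) (F 1 L))) (V (S (F 5 L) (F 1029 L)) (U (F 1025 L) (F 1029 L)))))))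
noncomputable def v4_74 : Tr := (V (S (T (S (V (U (K 6) (V (K 6) (S L (F 4 L)))) (U (T (S (S L L) L) (S L L)) (T (S L (F 4 L)) (S L (F 4 L))))) (V (K 6) (U (V (K 6) (T L L)) (S (S L L) (S (F 4 L) (F 4 L)))))) (S (V (U (K 6) (V (K 6) (S (F 4 L) (F 4 L)))) (U (T (S (S L L) L) (K 3)) (T (S (F 1 L) (F 4 L)) (S (F 4 L) (F 1024 L))))) (U (F 2039 (S (K 0) (K 0))) (V (F 1983 (S (K 0) (K 0))) (T (F 4 L) (S (F 1028 L) (F 1029 (S L (K 6))))))))) (T (U (K 6) (V (K 6) (S (T (S (F 5 L) (F 1029 L)) (S (F 5 L) (F 1029 L))) (F 1029 (T L L))))) (F 1029 (S (U (K 3) (V (K 3) (T (S L (K 6)) (K 6)))) (K 6))))) (S (T (S (V (U (T (S (S L L) (S L L)) (S (S L L) (S L L))) (T (S L L) (S L L))) (U (T (S (S L L) (S L L)) (S (S L L) (S L L))) (T (S L L) (S L L)))) (V (U (T (S (S L L) L) (S (S L (K 3)) (K 3))) (T (S L (F 1 L)) (S L (F 1024 L)))) (U (T (U (K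 3) (S L (F 1024 L))) (K 3)) (T (S L L) (S L L))))) (S (V (U (T (S (S L L) (K 3)) (K 3)) (T (S L L) (S L L))) (U (T (S (S L (K 3)) (K 3)) (K 3)) (T (S L L) (S L L)))) (U (K 3) (V (T (S (F 1024 L) (F 1024 L)) (S (F 1024 L) (K 3))) (T (S L L) (S (F 1024 L) (K 3))))))) (T (S (U (K 3) (V (S L (S (F 1024 L) (F 1024 L))) (T (S (F 1024 L) (F 1024 L)) (S (F 1024 L) (F 1025 L))))) (U (K 3) (T (V (F 1029 (S L L)) (F 1024 L)) (K 3)))) (U (K 3) (S (S (V (S (F 1024 L) (K 3)) (K 3)) (K 3)) (K 3))))))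
noncomputable def v4_75 : Tr := (S (T (S (V (U (T (S (F 5 L) (F 5 L)) (S (F 5 L) (F 5 L))) (T (F 5 L) (F 5 L))) (U (U (S L (F 4 L)) (S (F 1 L) (S (F 5 L) (F 5 L)))) (V (S (F 5 L) (F 5 L)) (S (F 5 L) (F 5 L))))) (V (U (T (F 5 L) (F 5 L)) (S (F 5 L) (F 5 L))) (U (T (S (F 5 L) (F 5 L)) (S (F 5 L) (F 1029 L))) (T (F 5 L) (F 5 L))))) (S (V (U (T (S (F 5 L) (F 5 L)) (S (F 5 L) (F 1029 L))) (T (F 5 L) (F 5 L))) (U (S (T (F 1 L) (F 5 L)) (T (F 5 L) (F 5 L))) (T (S (F 5 L) (F 1029 L)) (F 1029 (S L L))))) (V (T (S (F 5 L) (F 5 L)) (S (F 5 L) (F 1029 (S L L)))) (T (U (S (F 5 L) (F 1029 L)) (F 5 L)) (U (S (F 5 L) (F 1029 L)) (F 1029 (S L (F 2 L)))))))) (T (S (V (T (F 5 L) (F 1029 (S L L))) (T (S (F 5 L) (F 5 L)) (S (F 5 L) (F 1029 (S L L))))) (F 1029 (V (U (K 3) (S (F 2 L) (F 2 L))) (T (S L L) (S L (F 2 L)))))) (F 1029 (S (V (U (S L L) L)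 (U (T (S L (F 2 L)) L) (S L L))) (V (T L L) (U (S L (F 2 L)) L))))))
noncomputable def v4_76 : Tr := (S (T (S (V (U (S (S L L) (T (F 1 L) (F 1 L))) (T (S (F 5 L) (F 5 L)) (S (F 1 L) (F 5 L)))) (U (T (S L (F 1 L)) (S L L)) (T (S (F 1 L) (F 1 L)) (S (F 1 L) (F 1 L))))) (V (U (T (S (F 1 L) (F 5 L)) (S (F 1 L) (F 1025 L))) (S (S (F 1 L) (F 1 L)) (S (F 1 L) (F 5 L)))) (U (T (S (F 1 L) (F 1 L)) (S (F 1 L) (F 1 L))) (T (F 1 L) (F 1 L))))) (S (V (U (T (S (F 1 L) (F 1 L)) (S (F 1 L) (F 1 L))) (T (F 1 L) (F 1 L))) (U (T (S L (F 1 L)) (S (F 1 L) (F 1 L))) (T (S (F 1 L) (F 1025 L)) (S (F 1 L) (F 1025 L))))) (V (S (U (T (F 1025 L) (F 1025 L)) (F 1 L)) (U (T (F 1025 L) (F 1025 L)) (F 1029 (T L L)))) (T (U (S (F 1 L) (F 1 L)) (F 1 L)) (U (S (F 1 L) (F 1025 L)) (S (F 1025 L) (F 1029 L))))))) (T (S (V (T (U (S (F 1025 L) (F 1029 L)) (F 5 L)) (F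 1029 (U (S L L) (S L (F 2 L))))) (T (U (F 1 L) (F 1 L)) (U (S (F 1025 L) (F 1025 L)) (F 1025 L)))) (V (F 1029 (U (T (S L (F 2 L)) L) (S L (F 2 L)))) (U (T (F 1025 L) (F 1025 L)) (F 1029 (T L L))))) (S (V (F 1029 (U (T (S L L) (S L L)) (T L L))) (U (T (S (F 1025 L) (F 1025 L)) (S (F 1025 L) (F 1029 L))) (T (F 1025 L) (F 1025 L)))) (V (F 1029 (U (T L L) (S L (F 2 L)))) (U (S (F 1025 L) (F 1029 (S L (K 6)))) (F 1029 (T L L)))))))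
noncomputable def v4_77 : Tr := (U (V (K 6) (S (T (K 5) (U (K 5) (S (V (F 1285 (T (S L L) (S L L))) (U (S (F 1280 L) (K 3)) (S (S (F 1284 L) (F 1281 L)) (F 1285 (S L L))))) (F 1285 (T (V L (S L (K 3))) (K 5)))))) (F 2007 (T (K 0) (F 1 (S (K 0) (K 0))))))) (F 261 (V (S (T (S (V (K 3) (T L (S (F 1 L) (F 1 L)))) (U (K 3) (S (F 1 L) (F 1 L)))) (S (V (F 247 (S (K 0) (K 0))) (U (S (F 1 L) (F 1 L)) (F 1 L))) (U (K 3) (S (F 1 L) (F 1 L))))) (U (K 3) (S (T (F 1 L) (F 1 L)) (K 3)))) (S (T (S (V (T (S L (F 1 L)) (S L (F 1 L))) (T (U L (F 1 L)) (U (S (F 1 L) (F 1 L)) (F 1 L)))) (V (U (S (F 1 L) (F 1 L)) (F 1 L)) (U (T (F 1 L) (F 1 L)) (S (F 1 L) (F 1 L))))) (S (V (U (T (F 1 L) (F 1 L)) (S (F 1 L) (F 1 L))) (U (T (S (F 1 L) (F 1 L)) (S (F 1 L) (F 1 L))) (T (F 1 L) (F 1 L)))) (V (T (S (F 1 L) (F 1 L)) (F 1 L)) (U (T (F 1 L) (F 1 L)) (F 1 L)))))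 (T (S (V (S (F 1 L) (F 1 L)) (T (F 1 L) (F 1 L))) (V (F 1 L) (S (F 1 L) (F 1 L)))) (S (V (S (F 1 L) (F 1 L)) (T (F 1 L) (F 1 L))) (V (F 1 L) (S (F 1 L) (F 1 L)))))))))
noncomputable def v4_78 : Tr := (S (T (U (V (S (T (U (V (K 6) (S (T (K 5) (S L L)) (K 5))) (V (S (V (K 6) (S (F 4 L) (F 4 L))) (K 6)) (S (T (S (F 4 L) (F 4 L)) (S L (F 4 L))) (S (S L L) (S (F 4 L) (F 4 L)))))) (S (V (U (K 6) (V (K 6) (S L (F 4 L)))) (U (T (S (S L L) L) (S (S L L) L)) (T (S L (F 4 L)) (S L (F 4 L))))) (V (K 6) (U (V (K 6) (T L L)) (S (S L L) (T (F 5 L) (F 5 L))))))) (T (U (K 6) (V (K 6) (S (T (F 261 (S (S L L) L)) (S (F 5 L) (F 261 L))) (F 261 (T (K 4) (S L (K 3))))))) (U (K 6) (V (K 6) (S (V (K 6) (S (F 4 L) (F 1028 L))) (F 1285 (S (T L L) (K 2)))))))) v4_71) (V v4_72 v4_73)) (U v4_74 (V v4_75 v4_76))) (T v4_77 (F 1029 (U (F 183 (V (F 1 (S (K 0)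 (K 0))) (F 2 (S (T (S (K 0) (K 0)) (K 0)) (K 0))))) (V (S (T (S (V (T (F 2 L) (F 2 L)) (U (S (F 2 L) (F 2 L)) (F 2 L))) (U (K 3) (S (F 2 L) (F 2 L)))) (S (V (S (F 2 L) (K 3)) (T (F 2 L) (F 2 L))) (U (K 6) (F 2 L)))) (U (K 3) (T (S (F 2 L) (K 3)) (F 3 (S L (F 32 L)))))) (S (T (S (V (U (T (F 2 L) (F 2 L)) (S (F 2 L) (F 2 L))) (T (S L (S (F 2 L) (F 2 L))) (S L L))) (V (T (F 2 L) (F 2 L)) (U (S (F 2 L) (K 6)) (F 2 L)))) (S (V (T (S (F 2 L) (F 2 L)) L) (U (K 6) L)) (U (K 6) (T (F 2 L) (F 2 L))))) (T (S (U (K 6) (S (F 2 L) (F 2 L))) (V (F 2 L) (F 2 L))) (V (S (F 2 L) (K 6)) (K 6)))))))))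
noncomputable def v4_79 : Tr := (S (T (S (V (U (T (K 5) (S (S L L) (K 5))) (T (S L L) (S (S L L) L))) (U (T (K 5) (U (K 5) (S L L))) (T (S L L) (S L L)))) (U (K 5) (V (T (S L L) (S L L)) (T (S L L) (S L L))))) (S (V (U (T (S (S L L) (S L L)) (S (S L L) (S L L))) (T (S L L) (S (S L L) L))) (U (T (S (S L L) (S L L)) (S (S L L) (S L L))) (T (S L L) (S L L)))) (V (U (T (U (K 5) (S L (F 256 L))) (S (S L L) (S L L))) (T (S L L) (S L L))) (U (T (U (K 5) (S L (F 256 L))) (S (S L L) (S L L))) (T (S L L) (S L L)))))) (T (U (K 5) (S (V (T (S (F 256 L) (K 5)) (S L (F 256 L))) (T (S L (F 256 L)) (S L L))) (T (K 5) (U (K 5) (V (F 256 L) (F 256 L)))))) (S (V (U (T (K 5) (S L (K 3))) (T (S L (F 1024 L)) (S L (F 1024 L)))) (U (T (S L (K 5)) (K 3)) (T (S L (F 1024 L)) (S L (F 1024 L))))) (U (K 3) (V (T L (S (F 1024 L) (F 1280 L))) (S (S L L) (T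 (F 1024 L) (F 1024 L))))))))
noncomputable def v4_80 : Tr := (S (T (S (V (U (T (K 5) (U (K 5) (S L L))) (T (S L L) (S L L))) (U (V (T (K 5) L) (K 7)) (S (T (F 2 L) (F 2 L)) (S L L)))) (V (U (T (K 5) (S (S L (K 5)) (K 5))) (T (S L L) (S L L))) (U (T (K 5) (S L L)) (T L L)))) (S (V (U (T (S (S L L) (S L L)) (S (S L L) (S L L))) (T (S L L) (S L L))) (U (U (K 7) (T L L)) (S (T (F 2 L) (F 2 L)) (S L L)))) (V (U (T (U (K 5) (S (F 256 L) (F 1024 L))) (V (S (F 1024 L) (F 1024 L)) (S (F 1024 L) (F 1024 L)))) (T (S L L) (S L L))) (U (T (S L L) (S L L)) (T L L))))) (T (U (K 5) (S (V (T (S (F 256 L) (F 256 L)) (S (F 256 L) (F 256 L))) (T L L)) (T (U (K 5) (V (F 256 L) (F 256 L))) (V L L)))) (S (V (U (T (S L (K 3)) (K 3)) (T (S L (F 1024 L)) (S (F 1024 L) (F 1024 L)))) (U (T (S L (K 3)) (K 3)) (S L L))) (U (K 3) (V (T (S (F 1024 L) (F 1024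 L)) (S (F 1024 L) (K 3))) (T (F 1024 L) (F 1024 L)))))))
noncomputable def v4_81 : Tr := (S (T (S (V (U (T (S L (F 1 L)) (S L L)) (T (S (F 1 L) (F 257 L)) (S (F 1 L) (F 1 L)))) (U (V (S L L) (T (F 1 L) (S (F 257 L) (F 257 L)))) (T (S (F 3 L) (F 257 L)) (S (F 1 L) (F 1 L))))) (V (U (T (S (F 1 L) (F 1 L)) (S (F 1 L) (F 1 L))) (T (F 1 L) (S (F 257 L) (F 257 L)))) (U (T (S (F 1 L) (F 1 L)) (S (F 1 L) (F 1 L))) (T (F 1 L) (S (F 257 L) (F 257 L)))))) (S (U (V (T (S L L) (S L L)) (T (S L (F 1 L)) (S L L))) (V (T (S (F 1 L) (F 1 L)) (S (F 1 L) (F 1 L))) (T (S (F 1 L) (F 1 L)) (S (F 1 L) (F 3 L))))) (V (U (T (S (F 1 L) (F 1 L)) (S (F 1 L) (F 1 L))) (T (S (F 1 L) (F 257 L)) (S (F 1 L) (F 1025 L)))) (U (S (S L L) (S L L)) (T (S (F 1 L) (F 257 L)) (S (F 1 L) (F 1025 L))))))) (T (S (V (U (T (S (F 1 L) (F 257 L)) (S (F 1 L) (F 1 L))) (S (F 1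 L) (F 1 L))) (U (T (S (F 1 L) (F 257 L)) (S (F 1 L) (F 1 L))) (T (F 1 L) (F 1 L)))) (V (U (T (S (F 257 L) (F 257 L)) (S (F 257 L) (F 1281 L))) (T (F 257 L) (F 257 L))) (U (T (S (F 257 L) (F 257 L)) (S (F 257 L) (F 257 L))) (T (F 257 L) (F 1025 L))))) (S (V (U (T (S (F 1 L) (F 1 L)) (S (F 1 L) (F 1 L))) (T (F 1 L) (F 1 L))) (U (T (S (F 1 L) (F 1 L)) (S (F 1 L) (F 1 L))) (T (F 1 L) (F 1 L)))) (V (T (S (F 1 L) (F 1 L)) (U (S (F 1025 L) (F 1025 L)) (F 1025 L))) (T (U (F 1 L) (F 1025 L)) (U (S (F 1025 L) (F 1025 L)) (F 1025 L)))))))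
noncomputable def v4_82 : Tr := (S (T (S (V (U (T (S (F 1 L) (F 1 L)) (S (F 1 L) (F 1 L))) (S (F 1 L) (F 1 L))) (U (T (S (F 3 L) (F 3 L)) (S (F 3 L) (F 3 L))) (T (F 3 L) (F 3 L)))) (V (U (T (S (F 1 L) (F 257 L)) (S (F 1 L) (F 1 L))) (T (F 1 L) (F 1 L))) (U (S (T (F 3 L) (F 3 L)) (S (F 1 L) (F 1 L))) (T (F 3 L) (F 3 L))))) (S (V (U (T (S (F 1 L) (F 1 L)) (S (F 1 L) (F 1 L))) (T (F 1 L) (F 1 L))) (U (T (S (F 3 L) (F 3 L)) (S (F 3 L) (F 3 L))) (T (S (F 3 L) (F 3 L)) (F 3 L)))) (V (U (T (S (F 1 L) (F 1 L)) (S (F 1 L) (F 1 L))) (S (F 1 L) (F 1 L))) (U (S (T (F 3 L) (F 3 L)) (S (F 1 L) (F 1 L))) (T (F 3 L) (F 3 L)))))) (T (S (V (U (T (S (F 1 L) (F 257 L)) (S (F 257 L) (F 257 L))) (S (F 1 L) (F 1 L))) (U (T (F 1 L) (F 1 L)) (S (F 3 L) (F 257 L)))) (V (T (U (S (F 257 L) (F 257 L)) (F 257 L)) (U (F 1 L) (F 1025 L))) (T (U (S (F 259 L) (F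 1281 L)) (F 257 L)) (S (F 1 L) (F 1 L))))) (S (V (U (T (S (F 1 L) (F 1025 L)) (S (F 1 L) (F 1025 L))) (S (F 1 L) (F 1 L))) (U (T (F 1 L) (F 1 L)) (T (F 3 L) (F 3 L)))) (V (U (T (S (F 1025 L) (F 1025 L)) (S (F 1025 L) (F 1025 L))) (T (F 1025 L) (F 1025 L))) (U (T (S (F 1025 L) (F 1281 L)) (S (F 1025 L) (F 1281 L))) (S (F 1025 L) (F 1025 L)))))))
noncomputable def v4_83 : Tr := (V (S (T (S (V (U (T (S (S L L) (S L L)) (U (K 3) (S L L))) (T (S (S L L) L) (S L L))) (U (T (S (S L L) (S L L)) (U (K 3) (S L L))) (T (S L L) (S L L)))) (V (U (T (S (S L L) (K 3)) (K 3)) (T (S L L) (S L L))) (U (T (S (S L (K 3)) (K 3)) (K 3)) (T (S L L) (S L L))))) (U (S (T (S (U (K 3) (V L L)) (K 3)) (K 3)) (K 3)) (S (V (T (V L L) (S L L)) (T (S L L) (S L L))) (U (K 3) (V (T L (S (F 1025 L) (K 3))) (T L (S (F 1025 L) (K 3)))))))) (T (U (K 3) (S (V (T (S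 L (F 1024 L)) (S (F 1024 L) (K 3))) (T (S L (F 1024 L)) (S (F 1024 L) (K 3)))) (V (T (S (F 1024 L) (K 3)) (K 3)) (K 3)))) (K 3))) (S (T (S (V (U (T (S (S L L) (S L L)) (U (K 3) (S L L))) (T (S L L) (S L L))) (U (V (T L L) (K 7)) (S (T (F 2 L) (F 2 L)) (S L L)))) (V (U (T (U (K 3) (S (F 1024 L) (K 3))) (K 3)) (T (S L L) (S L (F 1024 L)))) (U (T (S L (K 3)) (K 3)) (T L L)))) (U (S (T (S (V (S L (K 3)) L) (K 3)) (K 3)) (K 3)) (S (V (T (S L L) (S (F 1 L) (F 1024 L))) (S (T (F 2 L) (F 2 L)) (S L L))) (V (T (S (F 1024 L) (F 1024 L)) (S (F 1024 L) (K 3))) (T (S (F 1024 L) (F 1026 L)) (S (F 1026 L) (K 3))))))) (T (U (K 3) (S (V (U (K 3) (T L (F 1024 L))) (T (S (F 1024 L) (F 1024 L)) (S (F 1024 L) (K 3)))) (K 3))) (K 3))))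
noncomputable def v4_84 : Tr := (S (T (S (V (U (T (S L L) (S L L)) (T (S (F 1 L) (F 1 L)) (S (F 1 L) (F 1 L)))) (U (S (T L (F 1 L)) (T (F 1 L) (F 1 L))) (T (S (F 1 L) (F 1 L)) (S (F 1 L) (F 3 L))))) (V (U (T (S (F 1 L) (F 1 L)) (S (F 1 L) (F 1 L))) (T (S (F 1 L) (F 1025 L)) (S (F 1025 L) (F 1025 L)))) (U (T (S (F 1 L) (F 1 L)) (S (F 1 L) (F 1 L))) (T (S (F 1025 L) (F 1025 L)) (F 1 L))))) (S (V (U (S (T L L) (S L L)) (T (S (F 1 L) (F 1 L)) (F 1 L))) (U (T (S (F 1 L) (F 1 L)) (S (F 1 L) (F 1 L))) (T (S (F 1 L) (F 1025 L)) (S (F 1025 L) (F 1025 L))))) (V (T (U (S (F 1024 L) (F 1 L)) (S (F 1025 L) (F 1025 L))) (U (S (F 1 L) (F 1025 L)) (S (F 1025 L) (F 1025 L)))) (T (U (S (F 1 L) (F 1 L)) (F 1 L)) (U (S (F 1 L) (S (F 1025 L) (F 1025 L))) (S (F 1025 L) (F 1025 L))))))) (T (S (V (T (U (S (F 1 L) (F 1025 L)) (F 1 L)) (U (S (F 1 L) (F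 1025 L)) (S (F 1025 L) (F 1029 L)))) (T (U (S (F 1 L) (F 1025 L)) (F 1 L)) (U (S (F 1 L) (F 1025 L)) (S (F 1025 L) (F 1025 L))))) (V (U (T (S (F 1025 L) (F 1281 L)) (S (F 1025 L) (F 1281 L))) (S (F 1025 L) (F 1025 L))) (U (T (S (F 1025 L) (F 1025 L)) (S (F 1025 L) (F 1025 L))) (T (F 1025 L) (F 1025 L))))) (S (V (U (T (V (F 1025 L) (F 1025 L)) (S (F 1025 L) (F 1025 L))) (T (S (F 1025 L) (F 1029 L)) (F 1025 L))) (U (T (S (F 1025 L) (F 1025 L)) (S (F 1025 L) (F 1025 L))) (T (S (F 1025 L) (F 1027 L)) (F 1025 L)))) (V (U (T (S (F 1025 L) (K 3)) (K 3)) (S (F 1025 L) (F 1025 L))) (U (T (S (F 1025 L) (K 3)) (K 3)) (S (F 1025 L) (F 1025 L)))))))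
noncomputable def v4_85 : Tr := (S (T (S (V (U (T (S (F 1 L) (F 1 L)) (S (F 1 L) (F 1 L))) (T (F 1 L) (F 1 L))) (U (T (S (F 3 L) (F 3 L)) (S (F 3 L) (F 3 L))) (T (S (F 3 L) (F 3 L)) (F 3 L)))) (V (U (T (S (F 1 L) (F 1 L)) (S (F 1 L) (F 1 L))) (S (F 1 L) (F 1 L))) (U (S (T (F 3 L) (F 3 L)) (S (F 1 L) (F 1 L))) (T (F 3 L) (F 3 L))))) (S (V (U (T (S (F 1 L) (F 1 L)) (S (F 1 L) (F 1025 L))) (S (S (F 1 L) (F 1 L)) (F 1 L))) (U (T (S (F 3 L) (F 3 L)) (S (F 3 L) (F 3 L))) (T (F 3 L) (F 3 L)))) (V (T (U (S (F 1 L) (F 1025 L)) (F 1 L)) (U (S (F 1025 L) (F 1025 L)) (F 1025 L))) (T (U (S (F 3 L) (F 1025 L)) (F 3 L)) (U (S (F 3 L) (F 1027 L)) (F 1027 (S L L))))))) (T (S (V (T (U (S (F 1025 L) (F 1025 L)) (F 1 L)) (U (S (F 1 L) (F 1025 L)) (F 1025 L))) (U (T (S (F 1025 L) (F 1025 L)) (S (F 1025 L) (F 1025 L))) (V (S (F 1027 L) (F 1025 L)) (F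 1027 (S L L))))) (V (U (T (S (F 1025 L) (F 1025 L)) (S (F 1025 L) (F 1025 L))) (T (F 1025 L) (F 1025 L))) (U (T (S (F 1027 L) (F 1281 L)) (F 1025 L)) (S (F 1025 L) (F 1025 L))))) (V (S (U (T (S (F 1025 L) (F 1025 L)) (S (F 1025 L) (F 1025 L))) (T (F 1025 L) (F 1025 L))) (U (T (S (F 1025 L) (K 3)) (K 3)) (S (F 1025 L) (F 1025 L)))) (S (F 1027 (U (T (S L L) (S L L)) (T (S L L) L))) (U (T (F 1025 L) (K 3)) (F 1027 (T L L)))))))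
noncomputable def v4_86 : Tr := (V (S (T (V (S (S (T (F 257 L) (F 257 L)) (F 1281 (U (S L L) (S L (F 64 L))))) (F 1281 (U (S L (S (F 64 L) (F 64 L))) (S (F 64 L) (F 64 L))))) (S (U (T (S (F 257 L) (F 1281 L)) (F 1281 (S L L))) (F 1281 (T L L))) (F 1281 (U (T L (S (F 64 L) (F 64 L))) (S L (F 64 L)))))) (F 1281 (V (S (U (T (S L (F 64 L)) (S L (F 64 L))) (S (S L L) (S L (F 64 L)))) (U (S L (S (F 64 L) (F 64 L))) (S (F 64 L) (F 64 L)))) (S (U (T (S L L) (S L L)) (T L L)) (U (T L L) (S L L)))))) (F 1281 (T (S (V (U (S (F 64 L) (F 64 L)) (F 64 L)) (U (S L (F 64 L)) (S (F 64 L) (F 64 L)))) (V (T (F 64 L) (F 64 L)) (U (S (F 64 L) (F 64 L)) (F 64 L)))) (S (V (U (S (F 64 L) (F 64 L)) (F 64 L)) (U (S L (K 5)) (S (F 64 L) (F 64 L)))) (U (K 5) (T (F 64 L) (F 64 L))))))) (S (T (F 1281 (S (V (U (T (S L L) (S L L)) (T (S L (F 128 L)) (S L (F 128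 L)))) (U (T (S L L) (S L L)) (T L L))) (V (U (T (S L L) (S L (F 64 L))) (S L L)) (U (T (S L (F 128 L)) (S L (F 128 L))) (S L L))))) (S (V (T (F 1281 (U (S L L) (S L (F 128 L)))) (U (F 1025 L) (F 1025 L))) (T (F 1281 (U (S L L) L)) (S (F 1025 L) (F 1025 L)))) (F 1281 (V (U (T (S L (F 64 L)) (S L (K 5))) (S L L)) (U (T L (K 5)) (S L L)))))) (F 1281 (T (S (V (U (S L L) (S (F 64 L) (F 64 L))) (U (S L L) L)) (V (U L (S (F 64 L) (F 192 L))) (T (S L (F 64 L)) L))) (S (U (K 5) (V L L)) (U (K 5) (V (F 64 L) L)))))))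
noncomputable def v4_87 : Tr := (S (T (U (V v4_79 v4_80) (V v4_81 v4_82)) (U v4_83 (V v4_84 v4_85))) (T (U (V (S (T (S (U (K 5) (V (K 5) (T (K 5) (S (F 1280 L) (K 5))))) (K 5)) (S (U (K 5) (T (U (K 5) (V (F 1280 L) (F 1280 L))) (K 3))) (K 3))) (F 2007 (T (K 0) (K 1)))) (S (T (T (K 5) (U (K 5) (S (U (K 5) (V (F 1280 L) (F 1280 L))) (K 3)))) (S (U (K 3) (V (S (S (F 1024 L) (K 3)) (K 3)) (K 3))) (K 3))) (F 2007 (T (K 0) (K 1))))) v4_86) (U (K 3) (V (S (T (V (S (T (U (F 1025 L) (F 1029 L)) (S (F 1025 L) (F 1029 L))) (F 1285 (U (K 5) (S L L)))) (S (U (T (F 1025 L) (K 3)) (S (F 1025 L) (F 1281 L))) (F 1281 (U (K 5) (S L (F 64 L)))))) (U (K 3) (S (V (F 1029 (S L (F 2 L))) (F 1281 (S L L))) (F 1029 (S (T L (K 6)) (K 6)))))) (F 1285 (T (U (K 5) (S (V L (S L (K 5))) (K 5))) (K 5)))) (S (T (S (V (U (T (F 1025 L) (K 3)) (S (F 1025 L) (F 1281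 L))) (U (T (F 1025 L) (K 3)) (S (F 1025 L) (F 1281 L)))) (F 1281 (U (K 5) (V (S L L) (S L L))))) (S (U (K 3) (V (F 1025 L) (F 1025 L))) (K 3))) (F 1281 (S (U (K 5) (T (V L L) (K 5))) (K 5))))))))
noncomputable def v4_88 : Tr := (S (T (U (F 1375 (V (F 2 (S (T (K 1) (U (K 1) (V (K 1) (S (K 1) (T (K 1) (U (K 1) (V (K 1) (S (K 1) (T (K 1) (S (K 1) (S (K 1) (K 0)))))))))))) (T (K 1) (U (K 1) (V (S (T (K 1) (U (K 1) (S (T (K 1) (V (S (K 1) (K 0)) (K 0))) (K 0)))) (K 0)) (S (T (K 1) (K 0)) (K 0))))))) (S (T (K 0) (U (K 0) (V (S (K 0) (T (K 0) (U (K 0) (V (S (K 0) (F 1 (S (K 1) (K 0)))) (K 1))))) (K 1)))) (T (K 0) (F 1 (U (K 0) (V (K 0) (S (K 1) (K 0))))))))) (V v4_8 (S v4_10 (T (U (V (S (T (K 9) (U (K 9) (T (K 9) (V (S (K 9) (S (F 273 L) (F 272 L))) (F 273 (S (S (K 1) (F 128 L)) (V L (F 128 L)))))))) (F 2015 (T (K 0) (T (K 0) (K 0)))))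 (F 275 (S (U (K 4) (T (K 1) (V (S (T (K 1) L) (T L (S L L))) (K 2)))) (K 4)))) v4_11) (U v4_12 (V v4_13 v4_14)))))) (U (V (S v4_22 (T (U (K 5) v4_23) v4_26)) v4_28) (V v4_52 v4_63))) (T (U (K 5) v4_70) (U (V (S (T (F 1951 (U (K 1) (V (S (F 1 (T (K 0) (K 0))) (K 0)) (K 1)))) (U (K 5) (V (S (T (U (K 6) (S (V (K 6) (T (S (S L L) (K 6)) (K 3))) (K 6))) (K 3)) (K 6)) (F 2007 (S (T (U (K 0) (S (V (T (T (K 0) (K 1)) (K 1)) (K 1)) (K 1))) (K 1)) (K 1)))))) (F 2007 (T (K 0) (K 1)))) (S (T (U (K 5) (V (S (T (K 5) (U (K 5) (V (K 5) (S (T (K 5) (S (V (K 5) L) (K 5))) (K 5))))) (K 5)) (F 1879 (S (T (K 1) (U (K 1) (S (V (F 1 (T (K 1) (T (K 1) (K 0)))) (K 0)) (K 2)))) (K 1))))) (F 2039 (U (K 0) (V (S (K 0) (K 0)) (S (T (K 0) (K 0)) (K 0)))))) (K 3))) (V v4_78 v4_87))))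
noncomputable def treeV4 : Tr := (F 0xfffffffffffffff7ffffffffffffffffe7fffff7773bfeefff v4_88)

theorem pV4 : chkV par treeV4 64 64 448 64 64 64 262143 349525 Lc = true := by decide +kernel


end Pool.Agent.Lib.H56.Gen.D3
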