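import Pool.Agent.Lib.H56.Gen.D3.Par
import Pool.Agent.Lib.H56.Gen.D3.Cos

/-!
# Certificate tree V, part 1
-/

set_option maxRecDepth 100000

namespace Pool.Agent.Lib.H56.Gen.D3

open Tr

noncomputable def v5_0 : Tr := (U (V (S (T (F 1887 (U (K 0) (S (V (S (K 0) (K 1)) (K 0)) (K 1)))) (U (K 7) (S (K 7) (V (U (K 5) (T (F 259 L) (F 3 L))) (K 7))))) (F 259 (T (K 4) (U (K 4) (T (K 4) (U (K 4) (S (V (S L L) L) (V (K 4) L)))))))) (K 7)) (V (S (T (F 259 (S (V (U (S L L) (S L L)) (U (K 2) L)) (V (U (T L L) (S L L)) (U (S L L) L)))) (S (V (T (F 259 (U (S L L) L)) (S (F 3 L) (F 3 L))) (F 259 (U (K 2) (S L L)))) (V (T (F 259 (U (S L L) L)) (S (F 3 L) (F 3 L))) (F 259 (U (S (K 2) L) (S L L)))))) (T (F 259 (S (V (U (T (K 4) L) (S L L)) (U (S L L) L)) (V (U (T (K 4) L) (S L L)) (U (S L L) L)))) (S (F 259 (V (U (T (S L (F 1 L)) (S L L)) (S L L))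 (U (T L L) (S L L)))) (V (U (V (F 257 L) (F 259 (S L L))) (F 259 (S L L))) (F 259 (U (S L L) (S (F 1 L) (F 1 L)))))))) (F 259 (S (K 2) (T (S (U (K 2) (S L L)) (V (S L L) (S (K 2) (F 1 L)))) (V (S (U (K 2) L) (T L (S (F 1 L) (F 1 L)))) (K 2)))))))
noncomputable def v5_1 : Tr := (T (F 259 (U (K 4) (V (S (T (K 4) (S (U (K 4) (S L (K 4))) (K 4))) (K 4)) (S (T (K 4) (U (K 4) (V (F 33 (S L (K 2))) (F 1 L)))) (K 4))))) (U (F 1283 (V (K 3) (S (T (K 3) (U (K 3) (T (K 3) (V (S L (K 3)) (K 1))))) (K 3)))) (V (S (T (F 1283 (U (K 3) (S (V (S L L) (S L L)) (V (S L L) (S L L))))) (S (V (U (S (S (F 259 L) (F 1281 L)) (F 1281 (S L L))) (F 1283 (T L L))) (F 1283 (U (T L (S L L)) (S L L)))) (F 1281 (V (U (S L L) (S (F 128 L) (F 128 L))) (U (T (F 128 L) (F 128 L)) (S (F 128 L) (F 128 L))))))) (F 1281 (T (U (K 3) (T (K 3) (U (K 3) (S (F 128 L) (F 128 L)))))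 (S (V (U (S L (K 3)) L) (U (S (F 128 L) (F 128 L)) (S (F 128 L) (F 128 L)))) (V (T L L) (U (S (F 128 L) (K 3)) (F 128 L))))))) (F 1283 (S (T (S (V (U (S L (K 3)) L) (S L L)) (V (U (K 3) L) (S L L))) (S (V (U (S L L) L) (T L L)) (V (U (S L L) L) (T L L)))) (T (U (K 3) (S (S L L) (S L L))) (S (V (T L L) (S L L)) (V (T L L) (S L L)))))))))
noncomputable def v5_2 : Tr := (V (S (T (V (S (U (T (F 3 L) (S (F 3 L) (F 259 L))) (S (F 3 L) (F 3 L))) (U (T (F 3 L) (F 3 L)) (S (F 3 L) (F 3 L)))) (S (F 259 (U (K 2) (S (K 2) L))) (U (S (K 7) (F 3 L)) (F 3 L)))) (S (V (U (T (S (F 3 L) (F 3 L)) (S (F 3 L) (F 3 L))) (S (F 3 L) (F 3 L))) (U (K 7) (S (K 7) (F 3 L)))) (V (U (T (S (F 3 L) (F 1027 L)) (F 1027 (S L L))) (S (F 3 L) (F 3 L))) (U (S (K 7) (F 3 L)) (F 1027 (S L L)))))) (T (S (V (U (T (F 3 L) (F 3 L)) (S (F 3 L) (F 3 L))) (U (S (F 3 L) (F 3 L))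 (F 3 L))) (V (T (F 259 (U (S L L) L)) (F 1027 (U (S L (F 2 L)) L))) (T (F 259 (S L L)) (F 1027 (S L L))))) (S (V (U (T (F 3 L) (F 3 L)) (S (F 3 L) (F 3 L))) (T (S (F 3 L) (F 3 L)) (V (F 3 L) (F 1027 (S L (F 2 L)))))) (V (U (V (F 1025 L) (F 1027 (S L L))) (F 1027 (S L L))) (F 1027 (U (S L L) (S L (F 2 L)))))))) (S (K 7) (V (T (S (F 259 (U (K 2) L)) (F 1027 (T (S (F 2 L) (F 2 L)) (S L (F 2 L))))) (F 1027 (S (U (K 2) L) (U (S (K 2) L) L)))) (K 7))))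
noncomputable def v5_3 : Tr := (U (V (S (T (S (K 7) (V (U (K 7) (V (S (F 2 L) (F 2 L)) (K 7))) (K 7))) (U (K 7) (S (K 7) (V (T (V (F 1026 L) (K 7)) (F 1027 (S (S L L) L))) (K 7))))) (T (U (K 3) (S (V (V (S (F 1024 L) (F 1024 L)) (F 1027 (T (S L L) L))) (F 1027 (S (K 2) (T L L)))) (F 2039 (T (K 0) (K 0))))) (F 1911 (U (K 1) (S (T (V (K 1) (S (K 0) (K 1))) (K 1)) (K 1)))))) (K 7)) (V (S (T (S (V (U (T (S (F 3 L) (F 3 L)) (F 1027 (S L L))) (S (F 3 L) (F 3 L))) (U (K 7) (S (K 7) (F 3 L)))) (V (U (T (F 3 L) (F 3 L)) (S (F 3 L) (F 3 L))) (T (S (F 3 L) (F 3 L)) (S (F 3 L) (F 3 L))))) (S (V (U (T (F 3 L) (F 3 L)) (S (F 3 L) (F 3 L))) (F 1027 (U (K 2) (S L L)))) (F 1027 (V (U (T (S L L) (S L L)) (T L L)) (U (T L L) (S L L)))))) (F 1027 (T (S (V (U (T (S L L) (S L L)) (T L L)) (U (T L L) (S L L))) (V (U (V (S L L) (S L L)) (T L L)) (U (T L L)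 (S L L)))) (S (V (U (T (S L L) (S L L)) (T L L)) (U (S L L) (S L L))) (V (U (T L (K 6)) (S L L)) (U (S L L) L)))))) (F 1027 (S (K 2) (T (V (S (U (K 2) L) (U (S (K 2) L) L)) (K 2)) (S (U (K 2) (T L L)) (V (T L L) (S (K 2) L))))))))
noncomputable def v5_4 : Tr := (V (S (T (F 1281 (V (S (U (S (S L L) (S L L)) (T (F 128 L) (F 128 L))) (U (T L L) (T (F 128 L) (F 128 L)))) (S (U (T (F 128 L) (S (F 128 L) (F 128 L))) (S (F 128 L) (F 128 L))) (U (T (F 128 L) (F 128 L)) (S (F 128 L) (F 128 L)))))) (S (F 1027 (V (T (U L (F 2 L)) (U L (F 2 L))) (U (S L L) L))) (F 1281 (V (U (S L (K 5)) (S (F 128 L) (F 128 L))) (U (S (F 128 L) (K 5)) (S (F 128 L) (F 128 L))))))) (F 1281 (T (S (V (U (S L L) L) (U (S (F 128 L) (F 128 L)) (F 128 L))) (V (T L L) (U (K 5) (F 128 L)))) (U (K 5) (S (V L (F 128 L)) (V (F 128 L) (F 128 L))))))) (F 1027 (S (T (S (V (U (S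 (F 2 L) (F 2 L)) (S (F 2 L) (F 2 L))) (U (K 2) (F 2 L))) (V (U (S (F 2 L) (F 2 L)) (F 2 L)) (S (F 2 L) (F 2 L)))) (V (S (T L (S (F 2 L) (F 2 L))) (U (S (F 2 L) (F 2 L)) (F 2 L))) (S (S L L) (T (F 2 L) (F 2 L))))) (T (S (V (T (F 2 L) (F 2 L)) (S (F 2 L) (F 2 L))) (U (K 6) (S (F 2 L) (F 2 L)))) (U (K 6) (S (T (F 2 L) (F 2 L)) (S (F 2 L) (K 6))))))))
noncomputable def v5_5 : Tr := (S (T (U (V (S (T (S (K 7) (U (K 7) (V (V (S (F 2 L) (F 2 L)) (K 7)) (K 7)))) (S (K 7) (U (K 7) (V (V (S (F 2 L) (F 2 L)) (K 7)) (K 7))))) (T (S (U (V (T (K 5) L) (K 7)) (V (S (S (F 2 L) (F 2 L)) (S (F 2 L) (F 1024 L))) (S (K 7) (F 3 L)))) (V (U (K 5) (T (F 1282 (S L L)) (F 1024 L))) (U (K 7) (T (F 259 (S L (F 1 L))) (F 1027 (S L (F 2 L))))))) (U (S (V (T L (K 3)) (K 7)) (K 3)) (V (S (T (F 2 L) (F 2 L)) (S (F 1024 L) (F 1024 L))) (F 1027 (S (K 2) (T (S L (F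 2 L)) (S L (K 6))))))))) (K 7)) v5_2) v5_3) (T (U (V (S (T (U (K 5) (V (S (S (S (F 1280 L) (F 1280 L)) (S (F 1280 L) (F 1280 L))) (S (F 1280 L) (K 3))) (F 1283 (S (T (S L L) (S L (K 5))) (F 87 (T (K 1) (K 0))))))) (K 3)) (K 3)) (F 1283 (S (T (U (K 5) (V (S (T L (F 93 (S (K 1) (K 0)))) (S L (K 5))) (K 1))) (F 93 (U (K 0) (S (S (K 1) (K 0)) (K 0))))) (K 5)))) v5_4) (F 1027 (U (K 6) (V (S (T (V (S (U (T L (K 6)) (S L L)) (U (K 6) (S (F 2 L) (F 2 L)))) (S (U (S L (K 6)) L) (U (K 6) L))) (U (K 6) (S (V (S L (F 1 L)) L) (T L (K 6))))) (F 191 (T (K 0) (K 0)))) (S (T (S (V (T L L) (S L L)) (U (K 6) (S L L))) (S (V (T L L) (S L (F 1 L))) (U (K 6) (S (F 1 L) (F 1 L))))) (T (U (K 6) (S (S (F 2 L) (K 6)) (K 6))) (K 6))))))))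
noncomputable def v5_6 : Tr := (T (U (F 1887 (V (K 1) (K 0))) (V (S (T (F 259 (U (K 4) (V (S (T (U (K 4) (V (S (F 32 L) (F 32 L)) (F 32 L))) (S (V (T (S (F 32 L) (F 32 L)) L) (T (F 32 L) L)) (V (U (K 4) (F 32 L)) (T (F 32 L) L)))) (U (K 4) (T (S (S (F 32 L) (K 4)) (K 4)) (S (S L L) (T L L))))) (S (U (K 2) (S (K 2) (T (F 33 L) (S (K 2) (F 32 L))))) (T (U (K 4) (S (F 32 L) (F 32 L))) (S (V L (K 2)) (U (K 4) L))))))) v5_0) v5_1) (F 1283 (S (K 1) (T (U (K 3) (V (S (U (K 1) (S (K 1) (T (K 3) (F 16 L)))) (T (K 3) (U (K 3) (S (F 16 L) (F 16 L))))) (K 1))) (U (K 1) (V (S (S (K 1) (U (K 1) (T L L))) (T (S (T L L) (T L L)) (S (U (K 1) L) (T L L)))) (K 1)))))))) (U (F 1879 (V (S (T (U (K 0) (V (S (K 0) (F 1 (T (K 1) (K 0)))) (K 0))) (F 2 (U (K 1) (V (S (K 1) (K 0)) (K 1))))) (K 2)) (K 0))) (V v5_5 (F 1027 (S (K 2) (T (U (K 2) (V (S (S (K 2) (U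 (K 2) (T (F 2 L) (S (K 2) (F 2 L))))) (T (S (U (K 2) (F 2 L)) (V (F 2 L) (F 2 L))) (V (U (K 6) (F 2 L)) (S (K 2) (F 2 L))))) (K 2))) (U (F 187 (V (S (K 1) (K 0)) (K 1))) (V (S (S (K 2) (U (K 2) (T (F 1 L) (F 1 L)))) (U (K 6) (T (S (F 2 L) (K 6)) (F 3 (S L (K 1)))))) (K 2)))))))))
noncomputable def treeV5 : Tr := (F 0xfffffffffffffff7ffffffffffffffffe7fffff7773bfeefff (S (T (U (K 7) (V (S (K 7) (T (F 259 (U (K 2) (V (S (U (K 2) (S (K 2) (T (F 32 L) (S (K 2) (F 32 L))))) (T (S (V (F 32 L) (K 2)) (V (F 32 L) (F 32 L))) (V (S (S (F 32 L) (F 32 L)) (T (F 32 L) L)) (U (K 2) (S (K 2) (F 32 L)))))) (K 2)))) (U (K 7) (V (S (K 7) (V (T (F 259 (S (U (K 2) L) (U (S (K 2) L) (S (F 32 L) (F 32 L))))) (S (U (K 7) (F 3 L)) (U (S (K 7) (F 3 L)) (F 259 (S L L))))) (K 7))) (K 7))))) (K 7))) (U (K 7) (V (S (K 7) (T (U (K 7) (V (S (K 7) (V (T (S (U (K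 7) (S (K 7) (F 3 L))) (U (T (F 3 L) (S (K 7) (F 3 L))) (S (F 3 L) (F 3 L)))) (U (K 7) (S (S (K 7) (F 3 L)) (S (F 3 L) (F 3 L))))) (K 7))) (K 7))) (U (K 7) (V (S (K 7) (V (T (U (K 7) (S (S (K 7) (F 3 L)) (S (F 3 L) (F 3 L)))) (S (U (K 7) (S (K 7) (F 3 L))) (U (S (K 7) (S (K 7) (F 3 L))) (S (F 3 L) (F 3 L))))) (K 7))) (K 7))))) (K 7)))) v5_6))

theorem pV5 : chkV par treeV5 64 64 448 64 192 64 262143 349525 Lc = true := by decide +kernel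

noncomputable def v6_0 : Tr := (T (U (K 4) (V (S (T (K 4) (U (K 4) (V (K 5) (S (T (K 4) (U (K 4) (S (F 2 L) (F 10 L)))) (K 4))))) (F 239 (T (K 0) (K 0)))) (S (T (K 4) (U (K 4) (V (S (T (K 4) (U (K 4) (S (S (F 2 L) (F 2 L)) (K 4)))) (K 4)) (S (T (K 4) (U (K 4) (T (K 4) (S (F 2 L) (F 2 L))))) (K 4))))) (K 4)))) (U (F 235 (V (K 0) (K 1))) (V (S (T (U (F 207 (V (K 0) (K 1))) (V (K 5) (S (T (U (K 4) (S (F 2 L) (F 66 L))) (S (T (F 2 L) (F 2 L)) (F 2 L))) (V (K 5) (T (F 2 L) (F 2 L)))))) (U (K 2) (V (F 223 (S (K 0) (K 0))) (S (T (V (F 2 L) (K 2)) (K 2)) (K 2))))) (T (U (K 5) (S (V (K 5) (S (F 2 L) (K 5))) (K 5))) (F 219 (U (K 0) (F 1 (S (K 0) (K 0))))))) (S (T (U (K 2) (V (S (T (S (V (F 2 L) (S (F 2 L) (F 2 L))) (V (F 2 L) (F 2 L))) (U (K 2) (S (S (F 2 L) (F 2 L)) (K 2)))) (T (U (K 4) (S (F 2 L) (F 130 L))) (K 2))) (S (U (K 2) (T (S (T (F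 2 L) (F 2 L)) (S (F 2 L) (F 2 L))) (F 251 (S (K 0) (K 0))))) (F 251 (S (K 0) (K 0)))))) (K 2)) (F 235 (T (U (K 0) (F 1 (S (K 0) (K 0)))) (K 1)))))))
noncomputable def v6_1 : Tr := (T (U (K 4) (V (S (T (K 4) (U (K 4) (V (S (T (K 4) (U (K 4) (V (S (F 1 L) (F 3 L)) (S (F 1 L) (F 3 L))))) (F 235 (T (K 0) (S (T (K 0) (K 1)) (K 1))))) (S (T (U (K 4) (T (K 4) (S (F 1 L) (F 3 L)))) (S (V (S (F 1 L) (F 1 L)) (S (F 1 L) (F 1 L))) (U (K 2) (S (F 1 L) (F 1 L))))) (T (K 4) (U (K 4) (S (F 1 L) (K 2)))))))) (F 235 (T (K 0) (U (K 0) (V (K 0) (T (K 0) (K 1))))))) (S (T (U (K 4) (V (K 4) (T (K 4) (U (K 4) (S (F 1 L) (F 1 L)))))) (U (F 171 (V (K 1) (F 2 (S (K 1) (K 0))))) (V (S (T (U (K 4) (S (F 1 L) (F 1 L))) (U (K 2) (S (F 1 L) (F 1 L)))) (T (U (K 4) (S (F 1 L) (F 3 L))) (K 2))) (S (S (K 6) (T (F 1 L) (F 1 L))) (T (S (F 1 L) (K 2)) (K 2)))))) (F 235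 (T (K 0) (K 1)))))) (U (K 2) (V (S (T (U (K 2) (V (S (T (U (K 2) (S (T (F 1 L) (F 1 L)) (K 2))) (K 2)) (K 2)) (S (T (U (K 2) (S (S (F 1 L) (K 2)) (K 2))) (K 2)) (K 2)))) (K 2)) (K 2)) (S (T (U (K 2) (V (S (T (U (K 2) (S (F 1 L) (K 2))) (K 2)) (K 2)) (F 187 (S (S (K 0) (F 1 (T (K 0) (K 0)))) (K 1))))) (K 2)) (K 2)))))
noncomputable def treeV6 : Tr := (F 0xffffffffffffffffffffffffffffffffe7fffff7773ffeffff (T (F 111 (V (S (T (U (K 0) (V (S (T (K 0) (K 1)) (K 1)) (K 1))) (F 1 (U (K 0) (V (S (T (K 0) (K 0)) (K 0)) (K 0))))) (F 1 (T (K 0) (K 0)))) (K 1))) (V (S v6_0 (F 203 (T (K 1) (U (K 1) (F 2 (V (S (T (K 1) (K 0)) (K 1)) (F 2 (S (K 0) (K 0))))))))) (S v6_1 (F 235 (T (U (K 0) (V (K 0) (S (T (K 0) (K 1)) (K 1)))) (K 1)))))))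

theorem pV6 : chkV par treeV6 192 64 384 128 128 128 262143 349525 Lc = true := by decide +kernel

noncomputable def treeV7 : Tr := (F 0xfffffffffffffffffffffffffffffffff7fffff7773ffeffff (U (F 85 (S (K 0) (T (F 4 (V (K 0) (K 1))) (F 2 (V (U (K 0) (S (K 1) (K 0))) (K 1)))))) (S (F 87 (T (V (S (K 0) (T (U (K 0) (V (K 1) (K 0))) (K 0))) (K 0)) (K 0))) (T (F 85 (V (S (F 4 (T (K 0) (U (K 0) (V (S (T (K 0) (U (K 1) (S (K 1) (K 0)))) (K 0)) (K 1))))) (T (K 1) (U (K 1) (V (K 1) (S (T (K 1) (F 2 (S (K 1) (K 0)))) (K 1)))))) (S (K 0) (T (F 4 (U (K 1) (V (K 0) (K 1)))) (U (K 0) (V (S (K 0) (F 1 (T (K 1) (K 0)))) (K 0))))))) (V (S (T (U (K 5) (V (S (K 5) (T (U (K 3) (V (T (K 3) (S L (K 3))) (F 93 (S (K 0) (K 1))))) (K 1))) (K 5))) (F 93 (U (V (K 1) (K 0)) (V (S (T (K 0) (U (K 0) (S (K 0) (K 1)))) (K 1)) (K 0))))) (F 125 (T (K 0) (K 0)))) (F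 93 (S (K 0) (T (U (K 0) (V (S (K 0) (K 1)) (K 0))) (U (K 0) (V (S (K 0) (K 1)) (K 0)))))))))))

theorem pV7 : chkV par treeV7 128 128 384 128 384 128 174762 349525 Lc = true := by decide +kernel

noncomputable def v8_0 : Tr := (T (V (U (T (S (V L (S L L)) (V (S L L) (S L L))) (S (V (S L L) (S L L)) (V (S L L) (S L L)))) (T (S (V L L) (V (S L L) (S L L))) (S (V L L) (V (S L L) (S L L))))) (U (V (S (T (S L L) (S L L)) (T (S L L) (S L L))) (K 3)) (S (T (V L L) (V L L)) (T (V (S L L) L) (V (S L L) (S L L)))))) (V (U (S (T (V (S L L) (S L L)) (V (S L L) (S L L))) (T (V (S L L) (S L L)) (U (K 6) (S L L)))) (S (T (V (S L L) (S L L)) (V (S L L) (S L L))) (T (V L (S L L)) (V (S L L) (S L L))))) (U (S (T (V (S L L) (K 3)) (V (S L L) (S L L))) (T (V (S L L) (S (K 3) L)) (U (K 6) (S L L)))) (S (T (V (S L L) (S L L)) (V (S L L) (S L L))) (T (V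 (S L L) (S L L)) (V (S L L) (S L L)))))))
noncomputable def v8_1 : Tr := (T (V (U (S (T (V (S L L) (S L L)) (V (S L L) (S L L))) (T (V (S L L) (S L L)) (V (S L L) (S L L)))) (T (S (V (S L L) (S L L)) (V (S L L) (S L L))) (S (V (S L L) (S L L)) (V (S L L) (S L L))))) (U (T (S (V (S L L) (K 3)) (V (S L L) (S L L))) (S (V (S L L) (S (K 3) L)) (V (S L L) (S L L)))) (S (T (V (S L L) (S L L)) (V (S L L) (S L L))) (T (V (S L L) (S L L)) (V (S L L) (S L L)))))) (U (V (T (S (V (S L L) (S L L)) (U (K 7) (S L (K 7)))) (S (U (K 6) (S L (K 6))) (K 6))) (S (T (V (S L L) (S L L)) (U (K 6) (S L (K 6)))) (T (U (K 7) (S L (K 7))) (K 6)))) (V (S (T (V (S L L) (S L L)) (V (S L L) L)) (T (V (S L L) (S L L)) (V (S L L) (S L L)))) (T (S (V (S L L) (S L L)) (V (S L L) (S L L))) (S (V (S L L) (S L L)) (V (S L L) (S L L)))))))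
noncomputable def v8_2 : Tr := (T (U (V (S (T (U (V (V (S (T (S L L) (S L L)) (T (S L (K 7)) (K 6))) (K 3)) (K 3)) (V (S (T (V (S L L) (S L L)) (V (S L L) (S L L))) (T (V (S L L) (S L L)) (V (S L L) (S L L)))) (K 3))) (U (K 6) (T (V (S (V (S L L) (S L L)) (U (K 6) (S L L))) (K 3)) (K 6)))) (T (U (K 7) (S (V (T (V (S L L) (S L L)) (U (K 7) (S L (K 7)))) (K 3)) (K 7))) (K 6))) (K 3)) (V (S v8_0 v8_1) (S (T (V (U (K 3) (V (U (K 3) (V (S (S L L) (S L L)) (K 3))) (K 3))) (K 3)) (V (U (K 3) (V (U (K 3) (V (S L (S L L)) (K 3))) (K 3))) (K 3))) (T (V (U (K 3) (V (U (K 3) (V (S (S L L) (S L L)) (K 3))) (K 3))) (K 3)) (V (U (K 3) (U (K 3) (V (V (T L (S L L)) (K 3)) (K 3)))) (K 3)))))) (U (K 6) (V (S (T (V (U (T (S (U (K 6) (S L (K 6))) (K 6)) (K 6)) (T (S (V (S L L) (S L L)) (V (S L L) (S L L))) (U (K 6) (S (S L L) (S L (K 6)))))) (U (T (S (U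 (K 6) (S L (K 6))) (K 6)) (K 6)) (T (S (V (S L L) (S L L)) (V (S L L) (S L L))) (U (K 6) (S (S L L) (S L (K 6))))))) (K 6)) (T (U (K 6) (T (U (K 6) (V (S (S L L) (S L L)) (S (S L L) (S L (K 6))))) (K 6))) (K 6))) (S (T (U (K 3) (V (V (U (K 3) (V (T (S L L) (S (F 2 L) (F 2 L))) (K 3))) (K 3)) (K 3))) (K 6)) (T (U (K 3) (V (T (V (S (S L L) L) (K 3)) (K 6)) (K 3))) (K 6))))))
noncomputable def v8_3 : Tr := (S (T (V (U (S (T (S L L) (V L L)) (T (V L L) (V L L))) (S (T (S L L) (S L L)) (T (S L L) (S L L)))) (U (T (S (V L L) (V L L)) (S (V L L) (V L L))) (T (S (S L L) (S L L)) (S (S L L) (S L L))))) (V (U (S (T (V L L) (V L L)) (T (V L L) (V (S L L) L))) (T (S (S L L) (S L L)) (S (S L L) (S L L)))) (U (S (T (V L L) (V L L)) (T (V L L) (V L L))) (T (S (S L L) (S L L)) (S (S L L) (S L L)))))) (T (V (U (S (T (V (S L L) L) (V L L)) (T (V L (S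 L L)) (V L L))) (T (S (S L L) (S L L)) (S (S L L) (S L L)))) (U (T (S (V L L) (V L L)) (S (V L L) (V L L))) (S (T (S L L) (S L L)) (T (S L L) (S L L))))) (V (U (T (S (V L L) (V (S L L) L)) (S (V L L) (V L L))) (T (S (S L L) (S L L)) (S (S L L) (S L L)))) (U (S (T (V L L) (V L L)) (T (V L L) (V L L))) (S (T (S L L) (S L L)) (T (S L L) (S L L)))))))
noncomputable def v8_4 : Tr := (S (T (U (V (T (S L L) (S L L)) (S (T L (S L (F 1024 L))) (T L L))) (V (T (S (S (F 1024 L) (F 1024 L)) (S (F 1024 L) (F 1024 L))) (S (S (F 1024 L) (F 1024 L)) (S (F 1024 L) (F 1024 L)))) (T (S (F 1024 L) (S (F 1024 L) (F 1024 L))) (S (S (F 1024 L) (F 1024 L)) (S (F 1024 L) (F 1024 L)))))) (V (U (T (S L L) (S (S (F 1024 L) L) (S L (F 1024 L)))) (S (T (S (F 1024 L) (F 1024 L)) (S (F 1024 L) (F 1024 L))) (T (S (F 1024 L) (F 1024 L)) (S (F 1024 L) (F 1024 L)))))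 (U (T (S L L) (S L L)) (S (T (S (F 1024 L) (F 1024 L)) (S (F 1024 L) (F 1024 L))) (T (S (F 1024 L) (F 1024 L)) (F 1024 L)))))) (T (U (V (S (T (S L L) (S L L)) (T (S L L) (S L L))) (S (T (S (F 1024 L) (F 1024 L)) (S L (F 1024 L))) (T (S L L) L))) (V (S (T (S (F 1024 L) (F 1024 L)) (S (F 1024 L) (F 1024 L))) (T (S (F 1024 L) (F 1024 L)) (S (F 1024 L) (F 1024 L)))) (S (T (F 1024 L) (S (F 1024 L) (F 1024 L))) (T (S (F 1024 L) (F 1024 L)) (S (F 1024 L) (F 1024 L)))))) (V (U (T (S (S L L) (S L L)) (S (S L L) L)) (S (T (S (F 1024 L) (F 1024 L)) (S (F 1024 L) (F 1024 L))) (T (S (F 1024 L) (F 1024 L)) (S (F 1024 L) (F 1024 L))))) (U (T (S L L) (S L L)) (S (T (F 1024 L) (F 1024 L)) (T (F 1024 L) (F 1024 L)))))))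
noncomputable def v8_5 : Tr := (S (T (V (U (T (S L L) (S L L)) (S (T (F 1024 L) (F 1024 L)) (T (F 1024 L) (F 1024 L)))) (S (U (T (S (F 1536 L) (F 512 L)) (F 512 L)) (T (F 1536 L) (S (F 1536 L) (F 1536 L)))) (U (T (F 512 L) (S (F 1536 L) (F 1536 L))) (T (F 1536 L) (F 1536 L))))) (V (U (T (S L L) (S L L)) (T (S (F 1024 L) (F 1024 L)) (S (F 1024 L) (F 1024 L)))) (U (V (S L L) (S (T (F 1536 L) (F 1536 L)) (T (F 1536 L) (F 1536 L)))) (T (S (F 1536 L) (S (F 1536 L) (F 1536 L))) (S (F 1536 L) (F 1536 L)))))) (T (V (U (S (T L L) (T L L)) (S (T (F 1024 L) (F 1024 L)) (T (F 1024 L) (F 1024 L)))) (U (V (S L L) (S (T (F 1536 L) (F 1536 L)) (T (F 1536 L) (F 1536 L)))) (S (T (F 1536 L) (F 1536 L)) (T (F 1536 L) (F 1536 L))))) (V (U (S (T L L) (T L (S (F 1024 L) (F 1024 L)))) (S (T (F 1024 L) (F 1024 L)) (T (F 1024 L) (F 1024 L)))) (U (S (T (S (F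 1536 L) (F 1536 L)) (S (F 1536 L) (F 1536 L))) (T (S (F 1536 L) (F 1536 L)) (S (F 1536 L) (F 1536 L)))) (S (T (F 1536 L) (F 1536 L)) (T (F 1536 L) (F 1536 L)))))))
noncomputable def v8_6 : Tr := (S (T (V (U (T (S (V (S L L) L) (V (S L L) L)) (S (V L (S L L)) (V (S L L) L))) (T (S (S L L) (S L L)) (S (S L L) (S L L)))) (U (T (S (V L L) (V L L)) (S (V L L) (V L L))) (T (S (S L L) (S L L)) (S (S L L) (S L L))))) (V (U (T (S (V L L) (V L L)) (S (S L (K 6)) (K 6))) (T (S (S L L) (S L L)) (S (S L L) L))) (U (T (S (V L L) (T L L)) (S (S L (K 6)) (K 6))) (T (S (S L L) (S L L)) (S L L))))) (T (V (U (T (S (V L L) (V L L)) (S (V L L) (V L L))) (T (S (S L L) (S L L)) (S (S L L) (S L L)))) (U (T (S (V L L) (V L L)) (S (V L L) (S L L))) (S (T (S L L) (S L L)) (T (S L L) L)))) (V (U (S (T (S L (K 6)) (K 6)) (K 6)) (T (S (S L L) L) (S L (F 2 L))))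 (U (T (S (S L (K 6)) (K 6)) (K 6)) (S (T L L) (T L (F 2 L)))))))
noncomputable def v8_7 : Tr := (S (T (V (U (T (S (S L L) (S L L)) (S (S L (F 1024 L)) L)) (T (S (S (F 1024 L) (F 1024 L)) (S (F 1024 L) (F 1024 L))) (S (S (F 1024 L) (F 1024 L)) (F 1024 L)))) (U (T (S L L) (S L L)) (T (S (F 1024 L) (F 1024 L)) (S (F 1024 L) (F 1024 L))))) (V (U (S (T L L) (T L (S (F 1024 L) (F 1024 L)))) (T (S (F 1024 L) (F 1024 L)) (S (F 1024 L) (F 1024 L)))) (U (S (T L (S (F 1024 L) (F 1024 L))) (T (S (F 1024 L) (F 1024 L)) (S (F 1024 L) (F 1024 L)))) (T (S (F 1024 L) (F 1024 L)) (S (F 1024 L) (F 1026 L)))))) (T (V (U (T (S L L) (S L L)) (T (S (S (F 1024 L) (F 1024 L)) (F 1024 L)) (S (F 1024 L) (F 1024 L)))) (U (S (T L L) (T L (S (F 1024 L) (F 1024 L)))) (S (T (F 1024 L) (F 1024 L)) (T (F 1024 L) (F 1024 L))))) (V (S (U (T L (F 1024 L)) (T (F 1024 L)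 (F 1026 L))) (T (U (F 1024 L) (F 1026 L)) (U (S (F 1026 L) (F 1026 L)) (F 1026 L)))) (S (U (T (F 1024 L) (F 1024 L)) (S (F 1024 L) (F 1024 L))) (T (U (F 1024 L) (F 1026 L)) (U (F 1026 L) (F 1538 L)))))))
noncomputable def v8_8 : Tr := (S (T (V (U (T (S L L) (S L (S (F 1024 L) (F 1024 L)))) (T (S (F 1024 L) (F 1024 L)) (S (F 1024 L) (F 1024 L)))) (U (T (S (S (F 1536 L) (F 1536 L)) (S (F 1536 L) (F 1536 L))) (S (S (F 1536 L) (F 1536 L)) (S (F 1536 L) (F 1536 L)))) (T (S (F 1536 L) (F 1536 L)) (S (F 1536 L) (F 1536 L))))) (V (U (S (T (S (F 1024 L) (F 1024 L)) (F 1024 L)) (T (F 1024 L) (F 1024 L))) (T (S (F 1024 L) (F 1536 L)) (S (F 1536 L) (F 1536 L)))) (U (T (S (S (F 1536 L) (F 1536 L)) (F 1536 L)) (S (F 1536 L) (F 1536 L))) (T (S (F 1536 L) (F 1536 L)) (F 1538 (S L L)))))) (T (V (U (T (S (F 1024 L) (S (F 1024 L) (F 1024 L))) (S (F 1024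 L) (F 1024 L))) (S (S (F 1024 L) (F 1024 L)) (T (F 1536 L) (F 1536 L)))) (U (S (T (S (F 1536 L) (F 1536 L)) (S (F 1536 L) (F 1536 L))) (T (S (F 1536 L) (F 1536 L)) (F 1536 L))) (T (S (F 1536 L) (F 1536 L)) (S (F 1536 L) (F 1538 L))))) (V (U (T (S (F 1024 L) (F 1026 L)) (S (F 1026 L) (F 1538 L))) (T (S (F 1536 L) (F 1536 L)) (F 1538 (S L L)))) (T (U (S (F 1536 L) (F 1538 L)) (F 1538 (S L L))) (F 1538 (U (S L L) (S L (F 128 L))))))))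
noncomputable def v8_9 : Tr := (T (U (V v8_3 (S (T (V (U (T (S (V L L) (V L L)) (S (V L L) (V L L))) (S (T (S L L) (S L L)) (T (S L L) (S L L)))) (U (K 3) (V (U (K 3) (S L L)) (K 3)))) (V (U (T (S (V L L) (V L L)) (S (V L L) (V L L))) (T (S (S L L) (S L L)) (S (S L L) (S L L)))) (U (K 3) (U (K 3) (V (S L L) (K 3)))))) (T (V (U (T (S (V L L) (V L L)) (S (V L L) (V L L))) (T (S (S L L) (S L L)) (S (S L L) (S L L)))) (U (K 3) (U (K 3) (V (S L L) (K 3))))) (V (U (T (S (V L L) (V L L)) (S (V L L) (T L L))) (S (T (S L L) (S L L)) (T L (S L L)))) (U (K 3) (V (T (S (F 512 L) (F 512 L)) (S (F 512 L) (F 512 L))) (K 3))))))) (V v8_4 v8_5)) (U (V v8_6 (S (T (V (U (T (S (V L L) (V L L)) (S (S L L) (V L L))) (S (T (S L L) (S L L)) (T (S L L) L))) (U (K 3) (V (T (S (F 512 L) (F 512 L)) (S (F 512 L) (F 512 L))) (K 3)))) (V (U (T (S (S L L) (S L L))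 (S (S L L) (K 6))) (T (S L L) (S L L))) (U (K 3) (V (S L L) (K 3))))) (T (V (U (S (T (T L L) (S L L)) (T (S L L) (S L L))) (T (S L (S L (F 512 L))) (S L L))) (U (K 3) (V (S (S L L) L) (K 3)))) (V (T (U (S (S L (K 6)) (K 6)) (S L (F 2 L))) (U (K 6) (S (F 2 L) (F 514 L)))) (U (K 3) (T (S (F 512 L) (F 514 L)) (S (S (F 514 L) (F 1538 L)) (F 1538 (S L L))))))))) (V v8_7 v8_8)))
noncomputable def v8_10 : Tr := (S (T (V (U (S (T (V L L) (V L L)) (T (V L (S L L)) (V L L))) (T (S (S L L) (S L L)) (S (S L L) (S L L)))) (U (S (T (V (S L L) L) (V L (S L L))) (T (V L L) (V L L))) (T (S (S L L) (S L L)) (S (S L L) (S L L))))) (V (U (S (T (V L (S L L)) (V L L)) (T (V L L) (V L L))) (S (T (S L L) (S L L)) (T (S L L) (S L L)))) (U (S (T (V L L) (V L L)) (T (V L L) (S L L))) (S (T (S L L) (S L L)) (T (S L L) (S L (F 1024 L))))))) (T (V (U (T (S (V L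 L) (S L (K 7))) (S (V L L) (K 7))) (T (S (S L L) (S L L)) (S (S L L) L))) (U (T (S (V L L) (S L (K 7))) (S (S L L) (K 7))) (S (T (S L L) (S L L)) (T (S L L) L)))) (V (U (S (T (S L (K 7)) (K 7)) (K 7)) (S (T (S L L) L) (T L (F 1 L)))) (T (U (S (T L L) (K 7)) (S L L)) (U (F 1919 (T (K 0) (K 0))) (S L (F 1 L)))))))
noncomputable def v8_11 : Tr := (S (T (V (T (U (S L L) (S (F 1024 L) (F 1024 L))) (U (S L (S (F 1024 L) (F 1024 L))) (S (F 1024 L) (F 1024 L)))) (U (T (S (S (F 1536 L) (F 1536 L)) (S (F 1536 L) (F 1536 L))) (S (S (F 1536 L) (F 1536 L)) (S (F 1536 L) (F 1536 L)))) (S (T (F 1536 L) (F 1536 L)) (T (F 1536 L) (F 1536 L))))) (V (U (T (S (S (F 512 L) (F 1024 L)) (F 1024 L)) (S (S (F 1024 L) (F 1536 L)) (F 1024 L))) (T (S (F 1024 L) (F 1536 L)) (S (F 1536 L) (F 1536 L)))) (U (T (S (S (F 1536 L) (F 1536 L)) (S (F 1536 L) (F 1536 L)))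 (S (S (F 1536 L) (F 1536 L)) (F 1536 L))) (S (T (F 1536 L) (F 1536 L)) (S (F 1536 L) (F 1536 L)))))) (T (V (U (T (S (S (F 1024 L) (F 1024 L)) (F 1024 L)) (S (F 1024 L) (F 1024 L))) (S (S (F 1024 L) (F 1024 L)) (T (F 1536 L) (F 1536 L)))) (U (T (S (S (F 1536 L) (F 1536 L)) (F 1536 L)) (S (F 1536 L) (F 1536 L))) (T (S (F 1536 L) (F 1537 L)) (S (F 1536 L) (F 1537 L))))) (V (U (T (S (F 1024 L) (F 1025 L)) (S (F 1025 L) (F 1027 L))) (T (S (F 1536 L) (F 1537 L)) (F 1537 (S L L)))) (T (U (S (F 1536 L) (F 1537 L)) (F 1536 L)) (S (S (F 1536 L) (F 1536 L)) (S (F 1536 L) (F 1537 L)))))))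
noncomputable def v8_12 : Tr := (V (S (T (V (U (S (T L (S L L)) (T (S L L) L)) (S (T (S (F 1024 L) (F 1024 L)) (S (F 1024 L) (F 1024 L))) (T (S (F 1024 L) (F 1024 L)) (S (F 1024 L) (F 1024 L))))) (U (S (T L L) (T L L)) (T (S (F 1024 L) (F 1024 L)) (S (F 1024 L) (F 1024 L))))) (V (U (S (T L L) (T L L)) (T (S (S (F 1024 L) (F 1024 L)) (F 1024 L)) (S (F 1024 L) (F 1024 L)))) (U (S (T L L) (T L (F 1024 L))) (S (T (F 1024 L) (F 1024 L)) (T (F 1024 L) (F 1024 L)))))) (T (V (U (S (T L L) (T L (S (F 1024 L) (F 1024 L)))) (T (S (F 1024 L) (F 1024 L)) (S (F 1024 L) (F 1024 L)))) (U (T (S L (S (F 1024 L) (F 1024 L))) (S (S (F 1024 L) (F 1024 L)) (F 1024 L))) (T (S (F 1024 L) (F 1024 L)) (S (F 1024 L) (F 1025 L))))) (V (T (U (S L (F 1024 L)) (S (F 1024 L) (F 1025 L))) (S (U (F 1024 L) (F 1025 L)) (U (F 1025 L) (F 1025 L)))) (T (U (S (F 1024 L)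 (F 1024 L)) (S (F 1025 L) (F 1025 L))) (S (V (F 1024 L) (F 1024 L)) (U (F 1025 L) (F 1537 L))))))) v8_11)
noncomputable def v8_13 : Tr := (V (S (T (V (U (S (T (V L L) (S L L)) (U (K 7) (S L L))) (S (T (S L L) L) (T L L))) (U (T (S (S L L) (S L L)) (S (S L (K 6)) (K 6))) (T (S L L) (S L (F 1 L))))) (U (K 6) (T (V (S (S (F 2 L) (F 1026 L)) (S (F 3 L) (F 3 L))) (S (F 2 L) (F 3 L))) (K 6)))) (T (U (K 7) (V (T (S L (F 1 L)) (V (F 1027 (S L (K 2))) (F 3 L))) (T (S (F 1 L) (F 3 L)) (S (F 3 L) (K 7))))) (U (K 6) (S (V (T (F 3 L) (K 6)) (K 6)) (K 6))))) (S (T (V (U (T (S (S L L) L) (S L (K 6))) (T (S L (F 1024 L)) (S (F 2 L) (F 1 L)))) (U (K 3) (T (S (F 512 L) (F 514 L)) (S (F 512 L) (F 1538 L))))) (U (K 6) (T (V (S (F 2 L) (F 1026 L)) (F 1538 (S (S L (F 128 L)) L))) (K 6)))) (T (V (U (F 1855 (T (K 0) (K 1))) (T (S (F 1 L) (S (F 515 L) (F 1027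 L))) (U (F 3 L) (F 1539 (S L L))))) (F 1537 (U (F 219 (S (K 0) (K 1))) (T (S L (S (F 128 L) (F 128 L))) (S (S (F 128 L) (F 128 L)) (F 128 L)))))) (K 6))))
noncomputable def v8_14 : Tr := (V (S (T (V (U (S (T L (S (F 1024 L) (F 1026 L))) (T (F 1024 L) (F 1024 L))) (S (T (F 1024 L) (F 1026 L)) (S (F 1024 L) (F 1024 L)))) (U (T (S (S (F 1024 L) (F 1024 L)) (F 1024 L)) (S (F 1024 L) (F 1025 L))) (S (S (F 1024 L) (F 1024 L)) (F 1024 L)))) (V (S (U (T (F 1024 L) (F 1026 L)) (S (F 1026 L) (F 1026 L))) (F 1027 (U (T (S L L) L) (T L (F 1 L))))) (T (U (S (F 1026 L) (F 1026 L)) (S (F 1538 L) (F 1027 L))) (U (S (F 1026 L) (F 1027 L)) (F 1027 L))))) (T (V (T (U (S (F 1024 L) (F 1025 L)) (S (F 1025 L) (F 1027 L))) (F 1027 (U (S (S L L) L) (S L (F 1 L))))) (U (S (T (F 1025 L) (F 1027 (S L L))) (F 1027 (T L L))) (T (F 1025 L) (F 1027 (S L (F 1 L))))))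 (F 1027 (V (U (T (S L (F 1 L)) L) (S L L)) (U (T (S L (F 1 L)) L) (S L (F 1 L))))))) (S (T (V (U (T (S (F 1024 L) (F 1536 L)) (S (F 1026 L) (F 1025 L))) (T (S (F 1536 L) (F 1537 L)) (S (F 1538 L) (F 1537 L)))) (S (U (T (F 1536 L) (F 1538 L)) (S (F 1536 L) (F 1536 L))) (T (S (F 1536 L) (F 1536 L)) (S (F 1536 L) (F 1538 L))))) (V (S (U (T (F 1026 L) (F 1538 L)) (F 1538 (S L L))) (T (V (F 1027 L) (F 1538 L)) (F 1539 (V L L)))) (F 1538 (T (U (S L (F 128 L)) L) (S (S L L) (S (F 128 L) (F 128 L))))))) (T (V (U (T (S (F 1025 L) (F 1539 (S L L))) (F 1027 (V L (S (F 1 L) (F 1 L))))) (F 1537 (S (T L (F 128 L)) (S (F 128 L) (F 128 L))))) (F 1537 (U (T (S L (F 128 L)) (S (F 128 L) (F 128 L))) (T (S (F 128 L) (F 128 L)) (F 128 L))))) (F 1539 (V (U (S (T L L) L) (S L L)) (U (S L L) (S L L)))))))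
noncomputable def v8_15 : Tr := (S (T (U (K 3) (V (S (U (K 3) (V (T (S (T (F 1536 L) (F 1536 L)) (T (F 1536 L) (F 1536 L))) (T (S (F 1536 L) (F 1536 L)) (S (F 1536 L) (F 1536 L)))) (K 3))) (U (K 3) (V (T (S (T (F 1536 L) (F 1536 L)) (T (F 1536 L) (F 1536 L))) (T (S (F 1536 L) (F 1536 L)) (S (F 1536 L) (F 1536 L)))) (K 3)))) (K 3))) (U (K 3) (V (S (V (T (U (K 3) (T (S (F 1536 L) (F 1536 L)) (S (F 1536 L) (F 1536 L)))) (U (U (K 3) (S (F 1536 L) (F 1536 L))) (S (S (F 1536 L) (F 1536 L)) (F 1536 L)))) (K 3)) (V (T (U (V (S (S (F 1536 L) (F 1536 L)) (F 1536 L)) (K 3)) (T (S (F 1536 L) (F 1538 L)) (F 1536 L))) (T (U (F 1538 (S L L)) (F 1536 L)) (F 1538 (U (S L (F 128 L)) L)))) (K 3))) (K 3)))) (T (U (K 3) (V (S (V (T (U (K 3) (S (T (F 1536 L) (F 1536 L)) (S (F 1536 L) (F 1536 L)))) (U (U (K 3) (S (S (K 3) (F 1536 L)) (F 1536 L))) (S (S (F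 1536 L) (F 1536 L)) (F 1536 L)))) (K 3)) (V (T (U (U (K 3) (S (F 1536 L) (F 1536 L))) (T (F 1536 L) (F 1536 L))) (T (U (F 1536 L) (F 1536 L)) (S (F 1536 L) (F 1537 L)))) (K 3))) (K 3))) (U (K 3) (V (T (S (V (T (U (F 1538 (S L L)) (F 1536 L)) (S (F 1536 L) (F 1538 (S L L)))) (K 3)) (F 1539 (V (U (T (S L L) L) (S L L)) (U (K 5) (S (K 5) L))))) (F 1538 (S (V (T (U L (F 128 L)) (S L (F 128 L))) (U (K 5) (S (K 5) (F 128 L)))) (V (U (S (F 128 L) (F 128 L)) (F 128 L)) (S (F 128 L) (F 128 L)))))) (K 3)))))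
noncomputable def v8_16 : Tr := (U (V (S v8_2 (T (U (K 7) (V (S (T (V (U (S (T (U (K 7) (S L (K 7))) (K 7)) (K 7)) (T (S (V (S L L) (S L L)) (U (K 7) (S L L))) (S (V (S L L) (S L L)) (U (K 7) (S L (K 7)))))) (U (S (T (U (K 7) (S L (K 7))) (K 7)) (K 7)) (S (T (V (S L L) (S L L)) (V (S L L) (S L L))) (T (V (S L L) (S L L)) (U (K 7) (S L (K 7))))))) (U (K 7) (V (S (T (V (S L L) (S L L)) (U (K 7) (S L (K 7)))) (K 7)) (S (T (V (S L L) (S L L)) (U (K 7) (S L L))) (F 1919 (T (K 0) (K 0))))))) (K 7)) (S (T (U (K 3) (V (V (U (K 3) (V (S (S L L) (S L L)) (K 3))) (K 3)) (K 3))) (U (K 3) (V (V (U (K 3) (V (S (S L L) L) (K 3))) (K 3)) (K 3)))) (F 1911 (T (V (K 0) (K 1)) (K 0)))))) (F 1983 (U (K 0) (V (S (K 0) (K 0)) (K 0)))))) (K 3)) (V (S v8_9 (T (U (V v8_10 (S (T (V (U (S (T (V L L) (T L L)) (T (S L L) (S L L))) (T (S (S L L) (S L L)) (S (S L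 L) L))) (U (K 3) (V (T (S (F 512 L) (F 512 L)) (S (F 512 L) (F 512 L))) (K 3)))) (V (U (T (S (S L L) (S L L)) (S (S L L) (S L L))) (T (S L L) (S L L))) (U (K 3) (V (T (S (F 512 L) (F 512 L)) L) (K 3))))) (T (V (U (S (T (S L L) (S L L)) (T (S L (K 7)) (K 7))) (T (S L L) (S L L))) (U (K 3) (V (T L L) (K 3)))) (V (S (U (T (S L L) L) (T L (F 1 L))) (U (K 7) (S L (F 1 L)))) (U (K 3) (S (T (F 512 L) (F 513 L)) (T (F 1536 L) (F 1537 L)))))))) v8_12) (U v8_13 v8_14))) v8_15))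
noncomputable def v8_17 : Tr := (V (S (T (V (U (S (T (F 1024 L) (S (F 1026 L) (F 1026 L))) (T (S (F 1026 L) (F 1026 L)) (F 1026 L))) (T (S (F 1026 L) (F 1026 L)) (S (F 1026 L) (F 1538 L)))) (U (S (T (F 1024 L) (F 1026 L)) (T (F 1026 L) (F 1026 L))) (T (S (F 1026 L) (F 1026 L)) (F 1538 (S L L))))) (V (U (S (T (F 1026 L) (K 6)) (K 6)) (S (F 1026 L) (F 1026 L))) (U (S (S (F 1026 L) (K 6)) (K 6)) (S (F 1026 L) (F 1027 L))))) (T (V (S (U (T (F 1026 L) (F 1026 L)) (S (F 1026 L) (F 1026 L))) (T (V (F 1026 L) (F 1026 L)) (S (F 1026 L) (F 1027 L)))) (U (T (S (F 1026 L) (F 1027 L)) (F 1026 L)) (S (F 1026 L) (F 1027 L)))) (U (K 6) (T (S (F 1026 L) (F 1027 L)) (K 6))))) (S (T (V (U (S (T (F 1026 L) (F 1026 L)) (T (F 1026 L) (F 1538 L))) (F 1538 (T (S L L) (S L (F 128 L))))) (U (T (S (F 1536 L) (F 1538 L)) (F 1538 (S L L))) (F 1538 (S (T L L) (S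 L L))))) (V (U (V (F 1026 L) (F 1538 (S L (K 2)))) (F 1538 (S L L))) (F 1538 (U (S L (K 2)) (S (F 8 L) (F 128 L)))))) (T (V (U (T (S (F 1026 L) (F 1538 L)) (F 1538 (S L (K 2)))) (F 1538 (T (S L (F 128 L)) L))) (F 1538 (U (T (S L (F 128 L)) L) (S L (F 128 L))))) (F 1539 (U (K 2) (V (S L (F 8 L)) L))))))
noncomputable def v8_18 : Tr := (V (S (T (U (V (S (T (U (K 6) (T (U (K 6) (V (S (F 2 L) (F 2 L)) (S (F 2 L) (F 1026 L)))) (K 6))) (K 6)) (K 6)) (S (T (U (K 6) (V (T (S (F 2 L) (F 2 L)) (K 6)) (T (S (F 514 L) (F 1538 (S L L))) (F 1538 (V (K 2) (S L (K 2))))))) (K 6)) (K 6))) v8_17) (F 1538 (U (K 2) (V (K 2) (U (K 2) (S (T (T L (K 2)) (K 2)) (K 2))))))) (F 1027 (T (U (K 3) (V (T (S (V (U (S (T L (K 3)) L) (S L L)) (U (S (S L L) (K 3)) (S L (F 1 L)))) (U (K 3) (V L (F 1 L)))) (U (K 3) (S (V (F 1 L) (K 3)) (K 3)))) (T (S (V (U (T (S (F 1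 L) (K 3)) (K 3)) (S (F 1 L) (F 1 L))) (U (S (F 1 L) (K 3)) (S (F 1 L) (F 1 L)))) (U (K 3) (S (F 1 L) (F 1 L)))) (K 3)))) (K 3)))) (F 1538 (S (T (U (K 5) (V (S (T (V (U (U (K 5) (S L L)) (S L L)) (K 5)) (V (U (S (F 8 L) (F 128 L)) L) (S L (F 8 L)))) (T (V (U (S L (F 128 L)) L) (U (K 5) L)) (U (K 2) (S (F 128 L) (F 128 L))))) (K 5))) (F 136 (U (K 3) (V (U (K 3) (S (T (S L L) (K 3)) (K 3))) (K 1))))) (T (U (K 2) (V (T (S (V (U (S (F 128 L) (K 2)) (F 128 L)) (S (F 128 L) (F 128 L))) (U (K 2) (S (F 128 L) (F 136 L)))) (S (U (K 2) (F 128 L)) (K 2))) (K 5))) (K 2)))))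
noncomputable def v8_19 : Tr := (V (S (T (V (U (S (T (F 1024 L) (S (F 1025 L) (F 1025 L))) (T (S (F 1025 L) (F 1025 L)) (F 1025 L))) (S (T (F 1024 L) (F 1025 L)) (T (F 1025 L) (F 1027 L)))) (U (T (S (F 1024 L) (F 1025 L)) (S (S (F 1025 L) (F 1025 L)) (F 1025 L))) (S (T (F 1025 L) (F 1025 L)) (S (F 1025 L) (F 1025 L))))) (V (T (U (S (F 1025 L) (F 1025 L)) (S (F 1025 L) (F 1027 L))) (S (V (F 1025 L) (F 1025 L)) (S (F 1025 L) (F 1027 L)))) (T (U (S (F 1025 L) (F 1027 L)) (F 1025 L)) (F 1027 (U (S L (F 1 L)) L))))) (T (V (U (T (S (F 1025 L) (K 7)) (K 7)) (S (F 1025 L) (F 1027 L))) (U (T (S (F 1025 L) (K 7)) (K 7)) (S (F 1025 L) (F 1027 L)))) (F 1027 (U (K 2) (V (S L (F 1 L)) (S L (F 1 L))))))) (S (T (V (U (T (S (F 1025 L) (F 1025 L)) (S (F 1025 L) (F 1537 L))) (F 1537 (T (S L L) (S L (F 128 L))))) (F 1537 (U (T (S L L) (S L (F 128 L)))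 (T (S L (F 128 L)) L)))) (F 1537 (V (S (U (T L L) (S L L)) (T (S L L) (V (F 128 L) (F 128 L)))) (T (U (S L (F 128 L)) L) (U (S (F 128 L) (F 128 L)) (F 128 L)))))) (F 1537 (T (V (T (U (S L (K 1)) L) (U (S (F 128 L) (K 1)) (F 128 L))) (T (U L (F 128 L)) (S L (F 128 L)))) (V (U (K 1) (S (F 128 L) (F 128 L))) (U (S (F 128 L) (K 1)) (S (F 128 L) (F 192 L))))))))
noncomputable def v8_20 : Tr := (S (T (U (V (S (T (U (K 7) (S (V (T L (S (F 1 L) (K 7))) (T L (F 1 L))) (K 7))) (F 1919 (T (K 0) (K 0)))) (K 7)) (S (T (U (K 7) (V (T (S (F 1 L) (K 7)) (S (F 1 L) (K 7))) (T (S (F 513 L) (F 1537 (S L (K 1)))) (F 1537 (S (S L L) (K 1)))))) (U (K 7) (S (U (K 7) (V (F 1025 L) (F 1537 (S L (F 128 L))))) (K 7)))) (K 7))) v8_19) (F 1027 (U (F 243 (V (K 1) (S (T (F 1 (T (K 0) (K 0))) (K 0)) (K 1)))) (V (T (S (V (U (T (S L (K 2)) L) (S L (F 1 L))) (U (T (S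 L (K 2)) L) (S L (F 1 L)))) (U (K 2) (V L (F 1 L)))) (S (V (T (S L (F 1 L)) L) (U (S (F 1 L) (K 2)) (S (F 1 L) (F 3 L)))) (F 251 (T (K 0) (K 0))))) (T (S (V (U (T (S (F 1 L) (F 1 L)) (F 1 L)) (S (F 1 L) (F 1 L))) (U (S (F 1 L) (F 1 L)) (S (F 1 L) (F 1 L)))) (U (K 2) (T (F 1 L) (F 1 L)))) (S (V (T (S (F 1 L) (F 1 L)) (F 1 L)) (S (F 1 L) (F 1 L))) (U (K 2) (S (F 1 L) (K 2))))))))) (F 1539 (T (U (K 1) (V (F 125 (S (U (K 0) (T (T (K 0) (K 0)) (K 0))) (K 0))) (S (T (U (K 1) (V L L)) (K 1)) (K 1)))) (K 1))))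
noncomputable def v8_21 : Tr := (T (U (F 1911 (V (K 0) (K 1))) (V v8_20 (F 1537 (S (T (U (K 5) (V (T (S (V (U (T (S L (F 128 L)) L) (S L (F 128 L))) (K 5)) (V (T (S L (F 128 L)) (S (F 128 L) (F 128 L))) (U (K 5) (F 128 L)))) (S (V (U (T (S (F 128 L) (F 128 L)) (F 128 L)) (S (F 128 L) (F 128 L))) (U (K 5) (F 128 L))) (V (U (F 128 L) (F 128 L)) (S (F 128 L) (F 128 L))))) (K 5))) (U (F 217 (V (T (F 2 (S (K 1) (K 0))) (K 1)) (K 0))) (V (T (S (V (T (S (F 128 L) (F 128 L)) (F 128 L)) (S (F 128 L) (F 128 L))) (V (S (F 128 L) (F 128 L)) (F 128 L))) (S (V (S (F 128 L) (F 128 L)) (F 128 L)) (S (F 128 L) (F 128 L)))) (K 5)))) (T (U (K 1) (V (S (U (K 1) (T (S (F 128 L) (F 192 L)) (F 128 L))) (K 1)) (K 5))) (U (K 1) (V (F 192 (U (K 4) (S (T L L) (K 4)))) (U (K 5) (T (F 128 L) (F 144 L)))))))))) (F 1539 (U (K 2) (V (S (T (U (K 2) (V (T (S (U (K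 2) (S L L)) (K 1)) (K 2)) (U (K 2) (S (T (S L (F 1 L)) (K 2)) (K 2))))) (K 2)) (F 121 (T (K 1) (K 0)))) (S (T (U (K 2) (T (S (V (S L (K 2)) (K 5)) (K 2)) (K 2))) (K 2)) (K 2))))))
noncomputable def v8_22 : Tr := (V (S (T (F 2029 (V (U (K 1) (S (K 1) (S (K 1) (K 0)))) (K 1))) (S (U (K 1) (V (T (F 1344 (S L L)) (S (F 320 L) (F 1280 L))) (T (S (F 320 L) (F 320 L)) (S (F 64 L) (F 64 L))))) (V (K 4) (U (T (K 1) (S L L)) (T (S (F 320 L) (F 320 L)) (S (F 256 L) (F 256 L))))))) (T (F 1344 (U (K 6) (V (K 3) (T (K 6) (S (S L L) (S L (K 3))))))) (U (K 4) (S (V (K 4) (V (K 4) (S (F 256 L) (F 256 L)))) (K 4))))) (S (T (K 1) (S (U (K 1) (V (T (S (K 1) (F 64 L)) (S L L)) (T (S (K 1) L) (S L L)))) (V (U (S (K 1) (T (K 1) (S L L))) (T (S (F 64 L) (F 64 L)) (S L L))) (U (T (K 1) (S (K 1) (S (K 1) L))) (T (S (F 64 L) L) (S L L)))))) (T (U (K 1) (T (K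 1) (S (V (F 64 L) (S (K 1) (F 64 L))) (V (S (F 320 L) (F 1344 (S L L))) (S (F 64 L) (F 64 L)))))) (S (V (U (T (K 1) (S L L)) (T L (S L L))) (U (T (K 1) (U (K 1) (S L L))) (T (S L L) (S L L)))) (V (U (V (K 4) (T L L)) (S (S L L) (T (F 256 L) (F 256 L)))) (U (T (S (K 1) L) (S (S L L) (S L L))) (T (S (F 1024 L) (F 1024 L)) (S L L))))))))
noncomputable def v8_23 : Tr := (S (T (V (S (U (T (K 1) (S (F 1344 L) (F 1088 L))) (T (F 1344 L) (F 1088 L))) (F 1344 (U (T (S L L) (S L L)) (T L (S L L))))) (S (U (T (K 1) (S (F 1088 L) (F 1088 L))) (S (F 1088 L) (F 1088 L))) (U (T (F 1344 (S (K 6) L)) (S (F 1088 L) (F 1088 L))) (S (F 1088 L) (F 1088 L))))) (S (V (T (U (S (F 1088 L) (F 1088 L)) (F 1344 (S L L))) (U (S (F 1024 L) (F 1024 L)) (F 1024 L))) (T (U (S (S (F 1088 L) (F 1088 L)) (F 1024 L)) (S (F 1088 L) (F 1088 L))) (U (S (F 1024 L) (F 1024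 L)) (S (F 1088 L) (F 1088 L))))) (V (U (T (S (F 1088 L) (F 1088 L)) (S (F 1024 L) (F 1024 L))) (S (F 1024 L) (T (F 1344 L) (F 1280 L)))) (U (T (S (F 1024 L) (F 1024 L)) (S (F 1024 L) (F 1024 L))) (T (F 1024 L) (S (F 1088 L) (F 1024 L))))))) (T (S (V (F 1344 (U (T (S L L) (S L L)) (T L (S L L)))) (U (T (F 1344 (S L L)) (S (F 1088 L) (F 1088 L))) (S (F 1088 L) (F 1088 L)))) (V (F 1344 (U (T (S (F 32 L) (F 32 L)) (S L L)) (S L L))) (U (T (F 1088 L) (S (F 1088 L) (F 1088 L))) (F 1344 (T L (S L L)))))) (S (V (U (S (T (F 1088 L) (F 1024 L)) (T (F 1280 L) (F 1280 L))) (T (F 1280 L) (S (F 1280 L) (F 1280 L)))) (U (T (S (F 1024 L) (F 1024 L)) (S (F 1024 L) (F 1024 L))) (T (F 1024 L) (S (F 1280 L) (F 1280 L))))) (V (U (T (S (F 1280 L) (F 1280 L)) (S (F 1280 L) (F 1280 L))) (T (F 1280 L) (S (F 1280 L) (F 1280 L)))) (U (T (S (F 1024 L) (F 1024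 L)) (S (F 1024 L) (F 1024 L))) (T (S (F 1280 L) (F 1344 L)) (F 1024 L)))))))
noncomputable def v8_24 : Tr := (T (F 1344 (U (K 6) (V (S (T (K 6) (U (K 6) (S (T (K 6) L) (S L L)))) (T (S (K 6) (U (K 6) (F 32 L))) (V (S (S L L) (S L (F 32 L))) (S (U (K 6) (F 32 L)) (S L L))))) (S (T (K 6) (U (K 6) (T (K 6) (V (S (F 2 L) (F 32 L)) (S L L))))) (T (K 6) (S (U (K 6) (V L (S (F 32 L) L))) (V (U (S L L) L) (U (S (K 6) L) (S L (F 32 L)))))))))) (U v8_22 (V (S (T (F 1344 (S (V (U (S L L) L) (U (T (K 6) (S L L)) (S L L))) (V (U (S L L) (S L (F 32 L))) (U (T L (S L L)) (S L L))))) (S (V (T (F 1344 (U (S L L) L)) (U (F 1344 (S L L)) (F 1280 L))) (T (U (V (F 1344 L) (F 1088 L)) (F 1344 (S L L))) (U (S (F 1088 L) (F 1280 L)) (F 1344 (S L L))))) (V (T (F 1344 (U (S L L) L)) (U (F 1280 L) (F 1280 L))) (S (U (T (F 1344 L) (F 1280 L)) (F 1280 L)) (U (T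 (F 1344 L) (F 1280 L)) (F 1280 L)))))) (T (F 1344 (S (V (U (S L L) L) (U (T L (S L L)) (S L L))) (V (U (K 3) L) (U (T L L) (S L L))))) (S (V (U (S (F 1280 L) (K 4)) (S (F 1280 L) (F 1344 L))) (U (T (F 1280 L) (S (F 1280 L) (F 1280 L))) (S (F 1280 L) (F 1280 L)))) (V (F 1344 (U (K 3) (S L L))) (U (T (F 1280 L) (S (F 1280 L) (F 1344 L))) (S (F 1280 L) (F 1280 L))))))) v8_23)))
noncomputable def v8_25 : Tr := (S (T (S (V (T (F 1344 (U L (F 32 L))) (S (F 1280 L) (F 1280 L))) (T (F 1344 (U (S L L) L)) (U (S (F 1088 L) (F 1344 L)) (F 1280 L)))) (V (T (F 1344 (S L L)) (S (F 1280 L) (F 1280 L))) (T (F 1344 (U (S (F 32 L) (F 32 L)) L)) (U (F 1280 L) (F 1344 L))))) (S (V (U (T (S (F 1280 L) (F 1344 L)) (S (F 1280 L) (F 1280 L))) (S (F 1280 L) (F 1280 L))) (U (T (S (F 1280 L) (F 1280 L)) (S (F 1024 L) (F 1280 L))) (T (F 1280 L) (S (F 1280 L)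 (F 1280 L))))) (V (U (T (F 1280 L) (S (F 1280 L) (F 1280 L))) (S (F 1280 L) (F 1280 L))) (U (T (S (F 1280 L) (F 1280 L)) (S (F 1280 L) (F 1280 L))) (T (F 1280 L) (S (F 1280 L) (F 1280 L))))))) (T (S (T (F 1344 (V (S L (F 32 L)) (S L L))) (V (F 1280 L) (S (F 1280 L) (F 1280 L)))) (V (F 1348 (U (K 3) (S L L))) (T (F 1348 (U (S L L) L)) (S (F 1280 L) (F 1280 L))))) (S (V (U (T (F 1280 L) (F 1280 L)) (S (F 1280 L) (F 1284 L))) (U (T (F 1284 (S L L)) (S (F 1280 L) (F 1280 L))) (S (F 1280 L) (F 1280 L)))) (V (U (K 4) (F 1280 L)) (U (T (F 1280 L) (F 1280 L)) (S (F 1280 L) (F 1280 L)))))))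
noncomputable def v8_26 : Tr := (T (F 1344 (U (V (K 3) (S (K 6) (T (K 6) (U (K 6) (V (K 3) (S (T (K 6) (S (F 32 L) (F 32 L))) (T (F 32 L) (F 32 L)))))))) (V (S (T (U (K 6) (S (F 32 L) (F 32 L))) (V (S (S (F 32 L) (K 3)) (K 3)) (S (T (F 32 L) L) (U (K 3) (F 32 L))))) (U (K 3) (S (T (F 32 L) (S (F 32 L) (K 3))) (K 3)))) (S (T (U (K 6) (S (S (F 32 L) (F 32 L)) (S (F 32 L) (F 32 L)))) (S (V (U (S (F 32 L) (F 32 L)) (S (F 32 L) (F 32 L))) (T (S L (F 32 L)) (S L L))) (V (T (S (F 32 L) (F 32 L)) L) (T (S (F 32 L) (F 32 L)) (S L L))))) (T (S (V (S (F 32 L) (F 32 L)) (S (F 32 L) (F 32 L))) (V (F 32 L) (S (F 32 L) (F 32 L)))) (S (V (U (S (F 32 L) (F 32 L)) (F 32 L)) (U (S (F 32 L) (F 32 L)) (S (F 32 L) (F 32 L)))) (V (T (F 32 L) (F 32 L)) (U (S (F 32 L) (F 32 L)) (F 32 L))))))))) (U (V (K 4) (S (T (S (U (K 1) (V (T (F 1344 (S L L)) (S (F 1280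 L) (F 1344 L))) (T (S (K 1) (F 320 L)) L))) (U (T (K 1) (V (K 4) L)) (V (F 1344 (T L (K 3))) (T (F 1344 (S L L)) (F 256 L))))) (V (U (K 4) (S (V (K 4) (S (F 256 L) (F 256 L))) (K 4))) (S (U (T (S L L) (S (S L L) L)) (T (S (F 256 L) (F 256 L)) (S L (F 256 L)))) (U (V (K 4) (T L (S (F 256 L) (F 256 L)))) (T (S (F 256 L) (F 1280 L)) (S (F 256 L) (F 256 L))))))) (T (U (K 4) (V (K 4) (S (T (F 1344 (S L (F 32 L))) (S (F 1280 L) (F 1284 L))) (T (F 1348 (S L (K 3))) (F 1280 L))))) (U (K 4) (S (V (K 4) (V (K 4) (S (F 256 L) (F 256 L)))) (K 4)))))) (V (S (V (K 4) (T (F 1344 (S (U (S L (K 3)) (S L (F 32 L))) (U (K 3) L))) (S (U (T (F 1280 L) (F 1280 L)) (S (F 1280 L) (F 1280 L))) (F 1344 (U (K 3) (S L L)))))) (K 4)) v8_25)))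
noncomputable def v8_27 : Tr := (S (T (U (K 1) (T (K 1) (U (K 1) (S (S (K 1) (V L L)) (V (S L L) (S L L)))))) (U (V (S (T (K 1) (S (V (S L (K 4)) L) (V (K 4) (S L L)))) (S (T (K 1) (V (K 4) (S L (K 4)))) (K 4))) (S (T (K 1) (U (K 1) (S (S L L) (S L L)))) (T (S (K 1) (U (K 1) (S L L))) (S (V L L) (V (S L L) (S L L)))))) (S (V (T (S (V L L) (V L L)) (S (V L L) (V L L))) (T (S (V L (S L L)) (V L L)) (S (V L L) (V L L)))) (V (T (S (V L L) (V (K 4) L)) (S (V L L) (V (K 4) L))) (T (S (V L L) (V L L)) (S (V L L) (V L L))))))) (T (U (F 2029 (S (K 1) (V (K 0) (S (K 1) (K 0))))) (S (V (V (K 4) (S (T (K 1) L) (K 4))) (T (S (K 1) (V L L)) (S (V L (S L L)) (V L L)))) (V (K 4) (T (U (K 1) (S L L)) (S (V L L) (V (K 4) L)))))) (U (V (K 4) (S (T (S (V L (S L L)) (V (K 4) (S L L))) (S (V (S L (K 4)) (S L L)) (V (K 4) (S L L)))) (S (V (K 4) (T (S L (K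 4)) (S L (K 4)))) (K 4)))) (S (V (S (V (K 4) (T L L)) (K 4)) (T (S (V L L) (V L L)) (S (V L L) (V L L)))) (V (K 4) (T (S (V L L) (V (K 4) L)) (S (V L L) (V (K 4) L))))))))
noncomputable def v8_28 : Tr := (T (U (V (S (V (K 4) (T (S (S L L) (S L L)) (S L L))) (K 4)) (S (T (S (V (S L L) L) (V L (S L L))) (S (V (S L L) L) (V L (S L L)))) (T (S (V L (S L L)) (V (S L L) (S L L))) (S (V L L) (V L L))))) (S (V (T (S (V L L) (V L L)) (S (V L L) (V L L))) (T (S (V L L) (V L L)) (S (V L L) (T L L)))) (V (T (S (V L L) (V (K 4) L)) (S (V L L) (V (K 4) L))) (T (S (V L L) (V L L)) (S (V L L) (V L L)))))) (U (V (S (V (K 4) (T (S L L) (S L L))) (K 4)) (S (T (S (V L L) (V L L)) (S (V L L) (V L L))) (T (S (V L L) (V (S L L) L)) (S (V L L) (V L L))))) (S (V (T (S (V L L) (V L L)) (S (V L L) (V L L))) (T (S (T L L) (V L L)) (S (V L L) (V L L)))) (V (T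 (S (V (K 4) L) (V (K 4) L)) (S (V (K 4) L) (V (K 4) L))) (T (S (V L L) (V L L)) (S (V L L) (V L L)))))))
noncomputable def v8_29 : Tr := (U (V (K 4) (S (T (U (F 2029 (V (K 0) (S (K 1) (K 0)))) (V (K 4) (S (T (U (K 1) (T (K 1) (S L L))) (S (V (S L L) (S L L)) (V (S L L) (S L L)))) (V (K 4) (T (S (S L L) (S L L)) (S L (S L L))))))) (U (V (K 4) (S (V (K 4) (T (S (S L L) (S L L)) (S (S L L) (S L L)))) (K 4))) (V (K 4) (S (T (S (V (S L L) L) (V (S L L) L)) (S (V L L) (V L (S L L)))) (V (K 4) (T (S L (S L L)) (S L (S L L)))))))) (K 4))) (V (S (T (U (K 4) (S (V (K 4) (S (V (K 4) (T L L)) (K 4))) (K 4))) (U (K 4) (V (K 4) (S (T (S (V (K 4) L) (K 4)) (K 4)) (K 4))))) (K 4)) (S v8_28 (T (U (V (K 4) (S (V (K 4) (T (S L (S L L)) (S L L))) (F 2031 (S (K 0) (K 0))))) (S (V (S (V (K 4) (T L L)) (K 4)) (T (S (V L L) (V L L)) (S (V L L) (V L L))))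 (V (K 4) (T (S (V L L) (V (K 4) L)) (S (V L L) (V (K 4) (S L L))))))) (U (V (K 4) (S (V (K 4) (T (S L L) (S L L))) (K 4))) (S (V (S (U (K 4) (T L L)) (K 4)) (T (S (V L L) (V L L)) (S (V L L) (V L L)))) (V (K 4) (T (S (V L L) (V (K 4) L)) (S (V L L) (V (K 4) L))))))))))
noncomputable def v8_30 : Tr := (T (S (V (U (T (U (K 1) (S L L)) (S (T L L) (T L L))) (T (S L L) (S L (S L L)))) (U (T (U (K 1) (S L L)) (S (T L L) (T L L))) (T (S (S L L) (S L L)) (S (S L L) (S L L))))) (V (U (T (S (S L L) (S L L)) (S (S L L) (S L L))) (T (S L L) (S L L))) (U (T (S (T L L) (S L L)) (S (T L L) (V L L))) (T (S L (S L L)) (S (S L L) (S L L)))))) (U (S (V (T (S (V L L) (T L L)) (S (S L L) (T L L))) (T (S (V L L) (V L L)) (S (T L L) (T L L)))) (V (T (S (T L L) (S L L)) (S (T L L) (S L L))) (T (S (T L L) (T L L)) (S (T L L) (T L L))))) (S (V (T (S (S L L)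 (S L L)) (S (S L L) (S L L))) (T (S (S L L) (S L L)) (S (S L L) (S L L)))) (V (T (S L L) (S (S L L) L)) (T (S (S L L) (S L L)) (S (S L L) (S L L)))))))
noncomputable def v8_31 : Tr := (V (S (T (U (V (K 4) (S (T (S L L) (S (S L L) (S L L))) (S (T L (S L L)) (K 4)))) (S (V (V (K 4) (T (F 256 L) (S (F 1280 L) (F 1280 L)))) (T (S (F 1024 L) L) (S L L))) (V (K 4) (T (S L (F 256 L)) (S L L))))) (S (V (U (K 4) (V (K 4) (T L L))) (U (T (S (S L L) (S L L)) (S (S L L) (S L L))) (T (S L L) (S L L)))) (V (K 4) (U (S (U (K 4) (T (F 256 L) L)) (K 4)) (T (S L L) (S L L)))))) (T (U (K 4) (S (V (K 4) (V (K 4) (T (F 256 L) L))) (K 4))) (U (K 4) (V (K 4) (S (V (K 4) (S L L)) (K 4)))))) (S v8_30 (T (U (S (V (T (S (S L L) (S L L)) (S (S L L) (S L L))) (T (S (S L L) (S L L)) (S (T L L) (S L L)))) (V (S (T (S L L) (S L L)) (K 4)) (T (S (S L L) (S L L)) (S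 (S L L) (S L L))))) (S (V (T (S L L) (S L L)) (T (S (S L L) L) (S L (S L L)))) (V (T (S (F 256 L) (F 256 L)) (S L L)) (T (S L L) (S L L))))) (S (V (U (T (S (S L L) (S L L)) (S (S L L) (S L L))) (T (S L L) (S L L))) (U (T (S (T L L) (T L L)) (S (T L L) (T L L))) (T (S (S L L) L) (S L (S L L))))) (V (U (S (U (K 4) (T L L)) (K 4)) (T (S L L) (S L L))) (U (T (S (T L L) (S L L)) (S (S L L) (S L L))) (T (S L L) (S (S L L) (S L L)))))))))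
noncomputable def v8_32 : Tr := (S (T (S (V (U (T (S (F 1280 L) (F 1280 L)) (S (F 1280 L) (F 1280 L))) (T (F 1280 L) (S (F 1280 L) (F 1280 L)))) (T (U (S (F 1024 L) (F 1024 L)) (S (F 1280 L) (F 1280 L))) (U (S (F 1024 L) (F 1024 L)) (S (F 1280 L) (F 1280 L))))) (V (U (T (S (F 1280 L) (F 1280 L)) (S (F 1280 L) (F 1280 L))) (T (F 1280 L) (F 1280 L))) (U (T (V (F 1280 L) (F 1024 L)) (V (S (F 1280 L) (F 1280 L)) (F 1024 L))) (T (S (F 1280 L) (F 1280 L)) (S (F 1280 L) (F 1280 L)))))) (S (V (U (T (S (F 1280 L) (S (F 1280 L) (F 1280 L))) (U (F 256 L) (S (F 1280 L) (F 1280 L)))) (T (S (F 1280 L) (F 1280 L)) (S (F 1280 L) (F 1280 L)))) (U (T (S L (F 1024 L)) (S (F 256 L) (F 256 L))) (S (T (F 1280 L) (F 1280 L)) (T (F 1280 L) (F 1280 L))))) (V (U (V (K 4) (T (S (F 1280 L) (F 1280 L)) (S (F 1280 L) (F 1280 L)))) (T (S (F 1280 L) (F 1280 L)) (S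 (F 1280 L) (F 1280 L)))) (U (T (V (S (F 1280 L) (F 1280 L)) (F 1024 L)) (S (F 1024 L) (S (F 1280 L) (F 1280 L)))) (T (S (F 1280 L) (F 1280 L)) (S (F 1280 L) (F 1280 L))))))) (T (S (V (U (K 4) (T (F 1280 L) (F 1280 L))) (U (T (S (F 1280 L) (F 1280 L)) (S (F 1280 L) (F 1280 L))) (T (S (F 1280 L) (F 1280 L)) (S (F 1280 L) (F 1280 L))))) (V (U (K 4) (S (F 1280 L) (K 4))) (U (V (K 4) (T (F 1280 L) (F 1280 L))) (T (F 1280 L) (F 1280 L))))) (S (V (U (K 4) (T (F 1280 L) (S (F 1280 L) (F 1280 L)))) (U (T (U (F 256 L) (S (F 1280 L) (F 1280 L))) (S (S (F 1280 L) (F 1280 L)) (F 1280 L))) (T (S (F 1280 L) (F 1280 L)) (S (F 1280 L) (F 1280 L))))) (V (U (K 4) (T (F 1280 L) (F 1280 L))) (U (V (K 4) (T (S (F 1280 L) (F 1280 L)) (S (F 1280 L) (F 1280 L)))) (T (S (F 1280 L) (F 1280 L)) (S (F 1280 L) (F 1280 L))))))))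
noncomputable def v8_33 : Tr := (S (T (S (V (U (T (S (F 1024 L) (F 1024 L)) (S L L)) (T (S (F 1280 L) (F 1280 L)) (S (F 1024 L) (F 1024 L)))) (U (T (S L L) (S L L)) (T (S (F 1024 L) (F 1024 L)) (S (F 1024 L) (F 1024 L))))) (V (U (T (S (F 1024 L) (F 1024 L)) (S L (F 1024 L))) (T (S (F 1280 L) (F 1280 L)) (S (F 1280 L) (F 1280 L)))) (U (T (S L L) (S L L)) (T (S (F 1024 L) (F 1024 L)) (S (F 1024 L) (F 1024 L)))))) (S (U (V (T (S L L) (S L L)) (T (S L L) (S L L))) (V (T (S (F 1024 L) (F 1024 L)) (S (F 1024 L) (F 1024 L))) (T (S (F 1024 L) (F 1024 L)) (S (F 1024 L) (F 1024 L))))) (U (V (T (S L L) (S L L)) (T (S L L) (S L L))) (V (T (S (F 1024 L) (F 1280 L)) (S (F 1024 L) (F 1024 L))) (T (S (F 1024 L) (F 1024 L)) (S (F 1024 L) (F 1024 L))))))) (T (V (S (U (T (S (F 1024 L) (F 1024 L)) (S (F 1024 L) (F 1024 L))) (T (S (F 1280 L) (F 1280 L))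 (S (F 1280 L) (F 1280 L)))) (U (T (V (F 1280 L) (F 1024 L)) (V (S (F 1280 L) (F 1280 L)) (F 1024 L))) (T (S (F 1280 L) (F 1280 L)) (S (F 1280 L) (F 1280 L))))) (S (U (T (S (F 1024 L) L) (S L L)) (T (S (F 1024 L) (F 1280 L)) (S (F 1024 L) (F 1024 L)))) (U (T (S (F 1024 L) (F 1024 L)) (S L (F 1024 L))) (T (S (F 1280 L) (F 1280 L)) (S (F 1280 L) (F 1280 L)))))) (S (U (V (T (S (F 256 L) (F 256 L)) (S (F 256 L) (F 256 L))) (T (S L L) (S L L))) (V (S (T (F 1280 L) (F 1024 L)) (T (F 1280 L) (F 1280 L))) (T (S (F 1024 L) (F 1024 L)) (S (F 1024 L) (F 1024 L))))) (V (T (U (S (F 1024 L) (S (F 1280 L) (F 1280 L))) (S (F 1280 L) (F 1280 L))) (U (S (F 1024 L) (S (F 1280 L) (F 1280 L))) (S (F 1280 L) (F 1280 L)))) (U (T (S L (F 1024 L)) (S L (F 1024 L))) (T (S (F 1024 L) (F 1280 L)) (S (F 1024 L) (F 1024 L))))))))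
noncomputable def v8_34 : Tr := (T (U (S (V (T (S (T L L) (T L L)) (S (T L L) (T L L))) (T (S (T L L) (T L L)) (S (T L L) (S L L)))) (V (T (S (T L L) (S L L)) (S (S L L) (S L L))) (T (S (T L L) (T L L)) (S (S L L) (S L L))))) (S (V (T (S (S L L) (S L L)) (S (S L L) (S L L))) (T (S (S L L) (S L L)) (S (S L L) (S L L)))) (V (T (S (S L L) L) (S L L)) (T (S (S L L) (S L L)) (S (S L L) (S L L)))))) (U (S (V (T (S (T L L) (T L L)) (S (S L L) (S L L))) (T (S (T L L) (S L L)) (S (S L L) (S L L)))) (V (T (S (T L L) (S L L)) (S (T L L) (S L L))) (T (S (S L L) (S L L)) (S (T L L) (S L L))))) (S (V (T (S (S L L) (S L L)) (S (S L L) (S L L))) (T (S (S L L) (S L L)) (S (S L L) (S L L)))) (V (T (S (S L L) (S L L)) (S (S L L) (S L L))) (T (S (S L L) (S L L)) (S (S L L) (S L L)))))))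
noncomputable def v8_35 : Tr := (V (S (T (U (V (K 4) (S (T (S (T L L) (S L L)) (S (S L L) (S L L))) (U (K 4) (S (T L L) (K 4))))) (S (V (V (K 4) (T L L)) (T (S L L) (S L L))) (V (K 4) (T (S L L) (S L L))))) (U (V (K 4) (S (T (S (S L L) (S L L)) (S (S L L) (S L L))) (S (V (K 4) (T L L)) (K 4)))) (S (V (S (T L L) (K 4)) (T (S L L) (S L L))) (V (K 4) (T (S L L) (S L L)))))) (T (U (K 4) (S (V (K 4) (S (T L L) (K 4))) (K 4))) (U (K 4) (S (V (K 4) (S (T L L) (K 4))) (K 4))))) (S v8_34 (T (S (V (U (T (S (S L L) (S L L)) (S (S L L) (S L L))) (T (S (S L L) L) (S L L))) (U (T (S (T L L) (V L L)) (S (T L L) (S L L))) (T (S L (S L L)) (S (S L L) (S L L))))) (V (U (S (U (K 4) (T L L)) (K 4)) (T (S L L) (S L L))) (U (T (S (T L L) (S L L)) (S (S L L) (T L L))) (T (S (S L L) L) (S (S L L) L))))) (U (S (V (T (S (S L L) (S L L)) (S (T L L) (S L L)))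 (T (S (T L L) (S L L)) (S (T L L) (S L L)))) (V (S (V (K 4) (T L L)) (K 4)) (T (S (S L L) (S L L)) (S (T L L) (S L L))))) (S (V (T (S L L) (S L L)) (T (S L (S L L)) (S (S L L) (S L L)))) (V (T (S L L) (S L L)) (T (S L (S L L)) (S (S L L) L))))))))
noncomputable def v8_36 : Tr := (T (S (V (U (T (U (F 256 L) (S (F 1280 L) (F 1280 L))) (V (S (F 1280 L) (F 1280 L)) (F 256 L))) (T (S (F 1280 L) (F 1280 L)) (S (F 1280 L) (F 1280 L)))) (U (T (S L (F 256 L)) (S L (F 256 L))) (S (T (F 1024 L) (F 1024 L)) (T (F 1280 L) (F 1280 L))))) (V (U (V (K 4) (T (S (F 1280 L) (F 1280 L)) (S (F 1280 L) (F 1280 L)))) (T (S (F 1280 L) (F 1280 L)) (S (F 1280 L) (F 1280 L)))) (T (U (S (F 256 L) (S (F 1280 L) (F 1280 L))) (S (F 1280 L) (F 1280 L))) (U (S (F 256 L) (F 256 L)) (S (F 1280 L) (F 1280 L)))))) (S (V (U (T (V (S (F 1280 L) (F 1280 L)) (F 256 L)) (S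 (F 256 L) (S (F 1280 L) (F 1280 L)))) (T (S (F 1280 L) (F 1280 L)) (S (F 1280 L) (F 1280 L)))) (U (T (S L (F 256 L)) (S L (F 256 L))) (T (S (F 1024 L) (F 1280 L)) (S (F 1024 L) (F 1024 L))))) (V (T (U (S (F 1280 L) (F 1280 L)) (S (F 1280 L) (F 1280 L))) (U (S (F 1280 L) (F 1280 L)) (S (F 1280 L) (F 1280 L)))) (U (S (T (F 256 L) (F 256 L)) (T (F 256 L) (F 256 L))) (T (S (F 1280 L) (F 1280 L)) (S (F 1280 L) (F 1280 L)))))))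
noncomputable def v8_37 : Tr := (S (T (S (U (V (T (S L L) (S L L)) (T (S L L) (S L L))) (V (T (S (F 1024 L) (F 1024 L)) (S (F 1024 L) (F 1024 L))) (T (S (F 1024 L) (F 1024 L)) (S (F 1024 L) (F 1024 L))))) (U (V (T (S L L) (S L L)) (T (S L L) (S L L))) (V (T (S (F 1024 L) (F 1024 L)) (S (F 1024 L) (F 1024 L))) (T (S (F 1024 L) (F 1024 L)) (S (F 1024 L) (F 1024 L)))))) (S (U (V (T (S L L) (S L L)) (T (S L L) (S L L))) (V (T (S (F 1024 L) (F 1024 L)) (S (F 1024 L) (F 1024 L))) (T (S (F 1024 L) (F 1024 L)) (S (F 1024 L) (F 1024 L))))) (U (V (T (S L L) (S L L)) (T (S L L) (S L L))) (V (T (S (F 1024 L) (F 1024 L)) (S (F 1024 L) (F 1024 L))) (T (S (F 1024 L) (F 1024 L)) (S (F 1024 L) (F 1024 L))))))) (T (S (U (V (T (S L (F 256 L)) (S (F 1024 L) (F 256 L))) (T (S L L) (S L L))) (V (S (T (F 1024 L) (F 1024 L)) (T (F 1280 L) (S (F 1280 L) (F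 1280 L)))) (T (S (F 1024 L) (F 1024 L)) (S (F 1024 L) (F 1024 L))))) (V (U (S (S L L) (V (T (F 1280 L) (F 1280 L)) L)) (T (S (F 1280 L) (F 1280 L)) (S (F 1280 L) (F 1280 L)))) (U (T (S L L) (S L L)) (T (S (F 1024 L) (F 1024 L)) (S (F 1024 L) (F 1024 L)))))) (S (U (V (T (S L (F 256 L)) (S (F 1024 L) (F 256 L))) (T (S L L) (S L L))) (V (S (T (F 1024 L) (F 1024 L)) (V (S (F 1280 L) (F 1280 L)) (F 1024 L))) (T (S (F 1024 L) (F 1024 L)) (S (F 1024 L) (F 1024 L))))) (V (U (S (T (F 256 L) (F 256 L)) (V (T (F 1280 L) (F 1280 L)) L)) (T (S (F 1280 L) (F 1280 L)) (S (F 1280 L) (F 1280 L)))) (U (T (S L L) (S L L)) (T (S (F 1024 L) (F 1024 L)) (S (F 1024 L) (F 1024 L))))))))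
noncomputable def v8_38 : Tr := (T (S (V (U (T (S (F 1280 L) (F 1280 L)) (S (S (F 1280 L) (F 1280 L)) (F 1280 L))) (T (S (F 1280 L) (F 1280 L)) (S (F 1280 L) (F 1280 L)))) (U (T (S (F 1024 L) (F 1024 L)) (S (F 1024 L) (F 1024 L))) (T (S (F 1280 L) (F 1280 L)) (S (F 1280 L) (F 1280 L))))) (V (U (V (K 4) (T (F 1280 L) (F 1280 L))) (T (F 1280 L) (F 1280 L))) (U (T (S (F 1280 L) (F 1280 L)) (V (S (F 1280 L) (F 1280 L)) (F 1024 L))) (T (S (F 1280 L) (F 1280 L)) (S (F 1280 L) (F 1280 L)))))) (S (V (U (T (S (S (F 1280 L) (F 1280 L)) (S (F 1280 L) (F 1280 L))) (U (F 256 L) (S (F 1280 L) (F 1280 L)))) (T (S (F 1280 L) (F 1280 L)) (S (F 1280 L) (F 1280 L)))) (U (T (S (F 256 L) (F 1024 L)) (S (F 256 L) (F 256 L))) (S (T (F 1280 L) (F 1280 L)) (T (F 1280 L) (F 1280 L))))) (V (U (V (K 4) (T (S (F 1280 L) (F 1280 L)) (S (F 1280 L) (F 1280 L))))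 (T (S (F 1280 L) (F 1280 L)) (S (F 1280 L) (F 1280 L)))) (U (T (V (S (F 1280 L) (F 1280 L)) (F 1024 L)) (S (F 1024 L) (S (F 1280 L) (F 1280 L)))) (T (S (F 1280 L) (F 1280 L)) (S (F 1280 L) (F 1280 L)))))))
noncomputable def v8_39 : Tr := (U (V (K 4) (S (T (U (V (K 4) (S (T (S (S L L) (S L L)) (S (S L L) (S L L))) (S (T (S L L) (S L L)) (K 4)))) (S (V (V (K 4) (T (S (F 1280 L) (F 1280 L)) L)) (T (S L L) (S L L))) (V (K 4) (T (S (F 256 L) (F 256 L)) (S L L))))) (V (S (U (K 4) (V (K 4) (S L L))) (K 4)) (S (U (T (S (S L L) (S L L)) (S (S L L) (S L L))) (T (S L L) (S L L))) (U (U (K 4) (S (T (F 256 L) L) (K 4))) (T (S L L) (S L L)))))) (T (U (K 4) (S (V (K 4) (V (K 4) (T (F 256 L) (S (F 1280 L) (F 1280 L))))) (K 4))) (U (K 4) (S (V (K 4) (V (K 4) (S L L))) (K 4)))))) (V (S (T (U (K 4) (V (K 4) (S (T (F 1280 L) (F 1280 L)) (T (F 1280 L)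 (F 1280 L))))) (U (K 4) (V (K 4) (S (T (S (F 1280 L) (F 1280 L)) (F 1280 L)) (T (F 1280 L) (F 1280 L)))))) (K 4)) (S v8_38 (T (S (V (U (F 2031 (S (K 0) (K 0))) (T (F 1280 L) (F 1280 L))) (U (T (S (F 1280 L) (F 1280 L)) (S (F 1280 L) (F 1280 L))) (T (S (F 1280 L) (F 1284 L)) (S (F 1280 L) (F 1280 L))))) (V (U (K 4) (S (F 1280 L) (K 4))) (U (T (S (F 1280 L) (F 1284 L)) (S (F 1280 L) (F 1280 L))) (T (F 1280 L) (F 1280 L))))) (S (V (U (K 4) (T (F 1280 L) (F 1280 L))) (U (T (S (F 1280 L) (F 1280 L)) (S (F 1280 L) (F 1280 L))) (T (S (F 1280 L) (F 1280 L)) (S (F 1280 L) (F 1280 L))))) (V (U (K 4) (S (F 1280 L) (K 4))) (U (V (K 4) (T (F 1280 L) (F 1280 L))) (T (F 1280 L) (F 1280 L)))))))))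
noncomputable def v8_40 : Tr := (T (S (V (U (T (U (F 256 L) (S (F 1280 L) (F 1280 L))) (U (F 256 L) (S (F 1280 L) (F 1280 L)))) (T (S (F 1280 L) (F 1280 L)) (S (F 1280 L) (F 1280 L)))) (U (T (S (F 256 L) (F 256 L)) (S L (F 256 L))) (S (T (F 1024 L) (F 1024 L)) (T (F 1280 L) (F 1280 L))))) (V (U (V (K 4) (T (S (F 1280 L) (F 1280 L)) (S (F 1280 L) (F 1280 L)))) (T (S (F 1280 L) (F 1280 L)) (S (F 1280 L) (F 1280 L)))) (U (S (T (F 1024 L) (F 1024 L)) (V (T (F 1280 L) (F 1280 L)) (F 1024 L))) (T (S (F 1280 L) (F 1280 L)) (S (F 1280 L) (F 1280 L)))))) (S (V (U (T (S (S (F 1280 L) (F 1280 L)) (F 1280 L)) (U (F 256 L) (S (F 1280 L) (F 1280 L)))) (T (S (F 1280 L) (F 1280 L)) (S (F 1280 L) (F 1280 L)))) (U (T (S L (F 256 L)) (S L (F 256 L))) (S (T (F 1280 L) (F 1024 L)) (T (F 1280 L) (F 1280 L))))) (V (U (V (K 4) (T (S (F 1280 L) (F 1280 L))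 (S (F 1280 L) (F 1280 L)))) (T (S (F 1280 L) (F 1280 L)) (S (F 1280 L) (F 1280 L)))) (U (T (S (F 1024 L) (S (F 1280 L) (F 1280 L))) (V (S (F 1280 L) (F 1280 L)) (S (F 1280 L) (F 1280 L)))) (T (S (F 1280 L) (F 1280 L)) (S (F 1280 L) (F 1280 L)))))))
noncomputable def v8_41 : Tr := (U (V (K 4) (S (T (S (V (U (K 4) (V (K 4) (T L L))) (U (T (S (S L L) (S L L)) (S (S L L) (S L L))) (T (S L L) (S L L)))) (V (K 4) (U (S (U (K 4) (T L (F 256 L))) (K 4)) (T (S L L) (S L L))))) (U (V (K 4) (S (T (S (S L L) (S L L)) (S (S L L) (S L L))) (S (U (K 4) (T L L)) (K 4)))) (S (V (V (K 4) (T L L)) (T (S (S L L) L) (S (S L L) L))) (V (K 4) (T (S L L) (S L L)))))) (T (S (V (K 4) (U (K 4) (V (K 4) (S L L)))) (K 4)) (U (K 4) (S (V (K 4) (V (K 4) (S L (S (F 256 L) (K 4))))) (K 4)))))) (V (S (T (U (K 4) (V (K 4) (S (T (S (F 1280 L) (F 1280 L)) (S (F 1280 L)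 (F 1280 L))) (S (F 1280 L) (K 4))))) (U (K 4) (V (K 4) (S (T (F 1280 L) (F 1280 L)) (T (F 1280 L) (F 1280 L)))))) (K 4)) (S v8_40 (T (S (V (U (K 4) (T (F 1280 L) (F 1280 L))) (U (T (S (F 1280 L) (F 1280 L)) (S (F 1280 L) (F 1280 L))) (T (S (F 1280 L) (F 1280 L)) (S (F 1280 L) (F 1280 L))))) (V (U (K 4) (S (F 1280 L) (K 4))) (U (V (K 4) (T (F 1280 L) (F 1280 L))) (T (F 1280 L) (F 1280 L))))) (S (V (U (K 4) (T (F 1280 L) (F 1280 L))) (U (T (S (S (F 1280 L) (F 1280 L)) (F 1280 L)) (S (S (F 1280 L) (F 1280 L)) (F 1280 L))) (T (S (F 1280 L) (F 1280 L)) (S (F 1280 L) (F 1280 L))))) (V (U (K 4) (S (F 1280 L) (K 4))) (U (T (S (F 1280 L) (F 1280 L)) (S (F 1280 L) (F 1281 L))) (T (F 1280 L) (F 1280 L)))))))))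
noncomputable def v8_42 : Tr := (V (S (T (U (K 4) (V (K 4) (S (V (K 4) (T (S (U (T (F 1280 L) (K 4)) (S (F 1280 L) (F 1280 L))) (U (K 4) (S (F 1280 L) (K 4)))) (U (K 4) (S (T (F 1280 L) (S (F 1280 L) (F 1280 L))) (T (F 1280 L) (F 1280 L)))))) (K 4)))) (U (K 4) (V (K 4) (S (T (U (K 4) (V (K 4) (S (T (S (F 1280 L) (F 1280 L)) (S (F 1280 L) (F 1280 L))) (T (F 1280 L) (K 4))))) (S (U (K 4) (V (K 4) (T (S (F 1280 L) (F 1280 L)) (S (F 1280 L) (F 1280 L))))) (K 4))) (K 4))))) (K 4)) (S (T (U v8_31 (V v8_32 v8_33)) (U v8_35 (V (S v8_36 (T (S (V (U (K 4) (T (S (F 1280 L) (F 1280 L)) (S (F 1280 L) (F 1280 L)))) (U (T (U (F 256 L) (S (F 1280 L) (F 1280 L))) (V (S (F 1280 L) (F 1280 L)) (F 256 L))) (T (S (F 1280 L) (F 1280 L)) (S (F 1280 L) (F 1280 L))))) (V (U (K 4) (T (F 1280 L) (F 1280 L))) (U (V (K 4) (T (S (F 1280 L) (F 1280 L)) (S (F 1280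 L) (F 1280 L)))) (T (S (F 1280 L) (F 1280 L)) (S (F 1280 L) (F 1280 L)))))) (S (V (U (K 4) (V (K 4) (S (F 1280 L) (F 1280 L)))) (U (T (V (S (F 1280 L) (F 1280 L)) (F 256 L)) (V (S (F 1280 L) (F 1280 L)) (F 256 L))) (T (S (F 1280 L) (F 1280 L)) (S (F 1280 L) (F 1280 L))))) (V (U (K 4) (T (F 1280 L) (F 1280 L))) (U (V (K 4) (T (S (F 1280 L) (F 1280 L)) (S (F 1280 L) (F 1280 L)))) (T (S (F 1280 L) (F 1280 L)) (S (F 1280 L) (F 1280 L)))))))) v8_37))) (T v8_39 v8_41)))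
noncomputable def v8_43 : Tr := (T (U (F 2029 (V (K 0) (S (T (K 1) (U (K 1) (V (S (K 1) (K 0)) (K 1)))) (T (K 1) (U (K 1) (V (K 0) (S (T (K 1) (U (K 1) (V (K 0) (S (S (K 1) (K 0)) (K 0))))) (K 0)))))))) (V (S (T (F 1344 (U (F 183 (V (K 1) (K 0))) (V (K 3) (S (T (K 6) (V (S (F 2 L) (K 3)) (F 34 (U (K 1) (S L L))))) (U (K 3) (S (T (F 34 L) (F 32 L)) (K 3))))))) (U (K 4) (V (K 4) (S (T (F 1344 (V (S (S L (K 3)) (K 3)) (S (U L L) (U (K 3) L)))) (V (K 4) (S (T (F 1344 (S L L)) (S (F 1280 L) (F 1280 L))) (F 1344 (U (K 3) (S L L)))))) (K 4))))) (K 4)) (S v8_24 v8_26))) (U (V (K 4) (S (T (U (F 2029 (V (K 0) (S (K 1) (T (K 1) (U (K 1) (V (K 0) (S (T (K 1) (K 0)) (K 0)))))))) (V (S (T (F 2029 (U (K 1) (S (V (K 0) (T (K 1) (S (V (K 0) (K 1)) (K 0)))) (K 0)))) (U (K 4) (S (V (K 4) (S (U (K 4) (T L L)) (K 4))) (K 4)))) (K 4)) v8_27)) v8_29) (T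 (U (K 4) (V (K 4) (S (T (U (K 4) (S (V (K 4) (S (V (K 4) (T L L)) (K 4))) (K 4))) (U (K 4) (S (V (K 4) (S (V (K 4) (T L L)) (K 4))) (K 4)))) (K 4)))) (U (K 4) (V (K 4) (S (T (U (K 4) (S (V (K 4) (S (V (K 4) (T L L)) (K 4))) (K 4))) (U (K 4) (V (K 4) (S (S (V (K 4) (T L L)) (K 4)) (K 4))))) (K 4))))))) v8_42))
noncomputable def v8_44 : Tr := (T (F 1348 (V (F 87 (S (T (U (K 0) (V (K 1) (K 0))) (K 1)) (K 1))) (S (T (K 5) (U (K 5) (V (F 87 (S (K 0) (T (K 0) (K 1)))) (S (K 5) (T (K 5) (U (K 5) (V (S (K 5) (T (K 5) (S L (K 3)))) (S (K 5) (S (K 5) (U (K 5) (T (K 5) L))))))))))) (T (K 5) (U (K 3) (V (K 3) (S (T (K 5) (U (F 87 (V (K 1) (K 0))) (V (K 3) (S (T (K 5) (U (K 5) (S (F 2 L) (F 16 L)))) (V (K 3) (T L (S (F 16 L) (F 16 L)))))))) (F 87 (T (U (K 0) (S (S (K 0) (K 1)) (K 1))) (K 1)))))))))) (V (K 4) (S v8_43 (T (U (K 4) (V (K 4) (S (T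 (F 1348 (U (K 3) (V (K 3) (S (T (V (S L (K 3)) (S (S L L) L)) (S (V (S L (K 3)) (U (S L L) L)) (U (K 3) (S L L)))) (U (K 3) (S (T L L) (K 3))))))) (U (K 4) (V (K 4) (S (V (K 4) (T (F 1284 (S (S (T (F 4 L) L) (T (F 4 L) L)) (U (K 4) (F 4 L)))) (S (T (S (F 1280 L) (F 1284 L)) (S (F 1280 L) (F 1280 L))) (F 1284 (U (K 4) L))))) (F 2031 (T (U (K 0) (S (S (K 0) (K 0)) (K 0))) (K 0))))))) (K 4)))) (U (K 4) (V (K 4) (S (T (U (K 4) (V (K 4) (S (V (K 4) (T (S (U (T (F 1280 L) (F 1280 L)) (S (F 1280 L) (F 1280 L))) (F 1284 (U (K 4) (S L L)))) (S (U (T (F 1280 L) (F 1280 L)) (S (F 1280 L) (F 1280 L))) (U (K 4) (F 1280 L))))) (K 4)))) (U (K 4) (V (K 4) (S (V (K 4) (T (S (U (T (F 1280 L) (F 1280 L)) (S (F 1280 L) (F 1280 L))) (U (K 4) (F 1280 L))) (S (U (T (F 1280 L) (F 1280 L)) (S (F 1280 L) (F 1281 L))) (F 1281 (U (K 4) (S L (F 64 L))))))) (F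 2031 (S (K 0) (K 0))))))) (K 4))))))))
noncomputable def v8_45 : Tr := (T (F 6861 (V (U (S (T (V (U (K 6) (S (T (V (U (K 3) (S (T (V (U (K 3) (S (T (V (T (S (V (S L (K 6)) (K 3)) (K 6)) (K 6)) (K 3)) (K 6)) (K 6))) (K 3)) (K 6)) (K 6))) (K 3)) (K 6)) (K 6))) (K 3)) (K 6)) (F 1847 (T (F 2 (V (K 1) (K 0))) (K 1)))) (S (T (V (S (T v8_16 (U (K 6) v8_18)) v8_21) (F 1975 (S (K 1) (T (K 1) (U (K 1) (V (S (K 1) (K 0)) (K 1))))))) (F 1975 (V (K 0) (S (T (U (K 1) (V (S (K 1) (K 0)) (K 1))) (K 0)) (K 0))))) (F 1847 (T (V (F 4 (S (T (F 1 (U (K 0) (V (K 0) (S (T (K 0) (K 0)) (K 0))))) (U (K 0) (V (K 1) (K 0)))) (K 1))) (S (T (F 2 (U (K 0) (V (S (K 0) (T (K 0) (K 1))) (K 0)))) (K 1)) (T (F 2 (U (K 0) (V (K 1) (K 0)))) (K 1)))) (K 1))))) (F 1975 (U (K 1) (S (K 1) (T (K 1) (V (K 0) (S (K 1) (T (K 1) (K 0)))))))))) (F 418098 (V (K 4) (U (S (T (F 2029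 (V (K 0) (K 1))) (V (K 4) (U (K 4) (S (T (K 1) (V (K 4) (U (K 4) (S (T (K 1) (V (K 4) (U (K 4) (S (T (K 1) (V (K 4) (S (T (K 1) (S (V (K 4) (S L (K 4))) (K 4))) (K 4)))) (K 4))))) (K 4))))) (K 4))))) (K 4)) (S v8_44 (F 2029 (T (V (K 0) (S (T (U (K 1) (V (K 0) (S (T (K 1) (K 0)) (K 0)))) (K 0)) (K 0))) (F 2 (V (K 0) (S (K 0) (K 0)))))))))))
noncomputable def treeV8 : Tr := (F 0xfffffffffffffff9fffffffffffffffff9f9fffbb39dde777b v8_45)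

theorem pV8 : chkV par treeV8 128 128 256 256 768 256 174762 349525 Lc = true := by decide +kernel

noncomputable def v9_0 : Tr := (S (T (U (U (K 4) (V (K 4) (S (T (V (K 4) (T (F 2 L) (F 66 (S L (F 1 L))))) (F 66 (V (F 5 (S L L)) (S (F 4 L) (F 1 L))))) (F 98 (T (V L (S L L)) (S L L)))))) (F 66 (V (F 5 (U (V (F 2 L) (S L L)) (T (F 2 (U L (F 2 L))) L))) (U (T (V (S (F 1 L) (F 1 L)) (S (T (S L (F 1 L)) L) (F 1 L))) (S (V (F 5 L) (F 1 L)) (F 1 L))) (S (T (V (F 1 L) (S L (F 1 L))) (V (F 5 L) (F 1 L))) (T (T (F 1 L) (F 1 L)) (F 1 L))))))) (F 66 (U (V (F 5 (U (K 2) (T (S (K 2) L) (S L L)))) (S (T (U (K 1) (S (F 4 L) (F 5 L))) (F 5 (U L L))) (T (V (F 1 L) (F 1 L)) (F 5 (S L L))))) (V (F 5 (U (S (S L L) L) (S L L))) (T (S (F 5 (U (S L L) L)) (S (F 1 L) (F 5 L))) (F 5 (S (S L L) L))))))) (F 98 (T (U (V (F 4 (U (K 2) (S (T (K 2) L) (S L L))))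 (S (T (U (K 0) (S L (F 4 L))) (U L L)) (T (V L L) (S L L)))) (V (F 4 (U (S (S L L) (S L L)) (S L L))) (S (T (U L L) (S L L)) (T (S L (F 4 L)) L)))) (U (V (T (S (S L (F 2 L)) (S (F 2 L) L)) (S (F 2 (S L L)) L)) (T (S (S L L) L) (S L (F 2 L)))) (V (T (S L L) (F 2 (S L L))) (S (T L (F 2 L)) (S L L)))))))
noncomputable def v9_1 : Tr := (V (S (T (K 3) (U (K 3) (V (S (K 3) (T (K 3) (S (K 3) L))) (T (K 3) (S (K 3) (S L L)))))) (T (U (K 3) (V (K 3) (S (K 3) (T (K 3) (S (K 3) (F 16 L)))))) (U (K 3) (V (S (U (K 3) (S L L)) (T (S (F 16 L) (F 20 L)) (S (F 16 L) (F 16 L)))) (S (T (S (K 3) (F 16 L)) (S L (F 16 L))) (T (S (F 16 L) (F 16 L)) (S (F 16 L) (F 16 L)))))))) (S (F 18 (T (U (K 0) (V (K 0) (U (K 0) (S (S L L) (S L L))))) (U (V (K 0) (S (K 0) (T (K 0) (S L L)))) (V (S (U (K 0) (S L L)) (T (S L L) (S L L))) (S (T L L) (S L L)))))) (T (F 18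 (U (K 0) (V (U (K 0) (S (S (K 0) L) (S L L))) (S (T (S L L) L) (T (S L L) L))))) (U (V (S (K 3) (U (K 3) (T (K 3) (S (F 18 L) (F 16 L))))) (F 18 (S (U (K 0) (S L L)) (U (K 2) (S L L))))) (V (S (T (F 18 (S L L)) (S (F 18 L) (F 16 L))) (T (S (F 18 L) (F 16 L)) (S (F 16 L) (F 16 L)))) (F 18 (S (S L L) (T L (S L L)))))))))
noncomputable def v9_2 : Tr := (V (S (T (U (V (U (K 3) (S L (S (F 16 L) (F 20 L)))) (S (F 18 (U (K 0) (S L L))) (T (F 18 (S L L)) (F 16 L)))) (V (U (S (F 16 L) (F 16 L)) (S (F 16 L) (F 16 L))) (S (F 18 (T L L)) (S (F 16 L) (F 16 L))))) (U (V (S (T L L) (T L L)) (S (T (F 2 L) L) (T (F 16 L) L))) (V (S (S L L) (S L L)) (S (S L L) (S L (F 16 L)))))) (T (U (V (S (T (F 16 L) (F 16 L)) (F 20 (T L L))) (S (T (F 16 L) (F 16 L)) (T (F 16 L) (F 16 L)))) (V (S (F 20 (T L L)) (S (F 16 L) (F 20 L))) (S (S (F 16 L) (F 16 L)) (S (F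 16 L) (F 16 L))))) (U (V (S (T (F 16 L) L) (T (F 16 L) (F 16 L))) (S (T (F 16 L) (S (F 16 L) (F 16 L))) (T (F 16 L) (F 16 L)))) (V (S (S (F 16 L) (F 16 L)) (S (F 16 L) (F 16 L))) (S (S (F 16 L) (F 16 L)) (S (F 16 L) (F 16 L))))))) (S (F 18 (T (U (V (S (T L L) (T L L)) (S (U (S L L) L) (T L L))) (V (S (S L L) (S L L)) (S (T L L) (S L L)))) (U (V (S (T L L) (T L L)) (S (S L L) (S L L))) (V (S (S L L) (S L L)) (S (S L L) L))))) (T (U (V (S (F 18 (T L L)) (T (F 16 L) (F 18 L))) (F 18 (S (S L L) (S L L)))) (V (S (F 18 (S L L)) (S (F 18 L) (F 16 L))) (F 18 (S (S L L) (S L L))))) (U (V (S (S (F 16 L) (F 16 L)) (T (F 16 L) (F 16 L))) (F 18 (S (S L L) (S L L)))) (V (S (S (F 18 L) (F 16 L)) (S (F 16 L) (F 16 L))) (S (F 18 L) (F 16 L)))))))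
noncomputable def v9_3 : Tr := (V (S (F 6 (T (K 2) (U (K 2) (V (K 2) (S (K 2) (T (K 2) (S (K 2) L))))))) (T (U (K 0) (V (T (K 0) (S (K 0) (S (K 0) (F 4 L)))) (T (K 0) (S (K 0) (S (F 4 L) (F 4 L)))))) (U (K 0) (V (T (S (K 0) (S (F 4 L) (F 4 L))) (S (F 4 L) (F 6 (S L L)))) (T (S (S (K 0) (F 4 L)) (S (F 4 L) (F 4 L))) (S (F 4 L) (F 4 L))))))) (S (T (F 12 (U (K 2) (V (K 2) (U (K 2) (T (S (K 2) L) (S L L)))))) (U (K 0) (V (U (K 0) (T (F 12 (S (K 2) L)) (S (F 10 L) (F 6 L)))) (T (S (S (F 8 L) (F 8 L)) (S (F 8 L) (F 12 L))) (S (F 10 (S L L)) (S (F 10 L) (F 8 L))))))) (T (U (F 12 (V (K 2) (T (K 2) (S (K 2) (T L (K 0)))))) (V (T (S (K 0) (F 4 L)) (S (F 12 (S L L)) (S (F 12 L) (F 4 L)))) (F 12 (T (S L L) (S (S L L) (S L L)))))) (U (F 14 (V (T (K 1) (S (K 1) (K 0))) (T (S (S (K 1) (K 0)) (K 0)) (K 0)))) (V (T (S (S (F 4 L) (F 4 L)) (S (F 4 L)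 (F 4 L))) (S (S (F 4 L) (F 4 L)) (F 6 (S L L)))) (T (S (F 12 (S L L)) (S (F 12 L) (F 4 L))) (S L (S (F 4 L) (F 4 L)))))))))
noncomputable def v9_4 : Tr := (V (F 17 (S (T (U (V (U (K 0) (T (F 20 (S (K 2) L)) (F 16 L))) (T (F 20 (U (K 2) (S (F 2 L) L))) (S (F 16 L) (F 16 L)))) (S (V (T (F 16 L) (F 16 L)) (T (F 20 L) (F 16 L))) (V (T (F 16 L) (F 16 L)) (T (F 20 L) (F 16 L))))) (U (T (V (S (F 16 L) (F 16 L)) (S (F 16 L) (F 16 L))) (V (F 18 (S L L)) (S (F 16 L) (F 18 L)))) (V (F 18 (T (S L L) (S L L))) (T (S (F 16 L) (F 18 L)) (F 18 (S L L)))))) (T (U (T (V (S L L) (S (F 16 L) (F 16 L))) (V (S (F 16 L) L) (S (F 16 L) (F 16 L)))) (V (T (S (F 16 L) (F 16 L)) (S (F 16 L) (F 16 L))) (T (S (F 16 L) (F 16 L)) (S (F 16 L) (F 16 L))))) (U (T (V (S (F 16 L) (F 16 L)) (S (F 16 L) (F 16 L))) (F 18 (V (S L L) (S L L)))) (V (T (S (F 18 L) (F 16 L))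 (F 18 (S L L))) (F 18 (T (S L L) (S L L)))))))) (F 3 (S (T (U (V (F 12 (T (S (S L L) L) (S (S L L) (S L L)))) (T (S (F 8 L) (F 12 L)) (S (F 8 L) (F 12 L)))) (V (F 12 (T (S L L) (S L L))) (T (F 12 (S L L)) (S (F 8 L) (F 12 L))))) (U (V (S (T (F 12 (S L L)) L) (T (F 4 L) (F 4 L))) (S (T (F 8 L) (F 10 L)) (T (F 8 L) (F 8 L)))) (V (S (S L L) (S L L)) (S (S (F 8 L) (F 8 L)) (S (F 8 L) (F 8 L)))))) (T (U (V (T (F 12 (S L L)) (S (F 12 L) (F 4 L))) (F 12 (T (S L L) (S L L)))) (F 12 (V (T (S L L) (S L L)) (T (S L L) (S L L))))) (U (V (T (S (F 4 L) (F 4 L)) (S (F 4 L) (F 4 L))) (T (S (F 8 L) (F 4 L)) (S (F 8 L) (F 4 L)))) (V (T (S (F 4 L) (F 4 L)) (F 6 (S L L))) (T (F 12 (S L L)) (S (F 10 L) (F 6 L)))))))))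
noncomputable def v9_5 : Tr := (V (F 35 (S (T (U (K 0) (V (F 2 (S (T (K 2) L) (T L L))) (S (U (K 0) (S L (F 2 L))) (F 2 (T (S L L) (S L L)))))) (U (V (F 2 (S (T (K 2) (U (K 2) (S (K 2) L))) (T (S (K 2) L) (S L L)))) (S (U (K 0) (T (K 0) (S L (F 2 L)))) (F 2 (U (K 0) (T L (S L L)))))) (V (F 2 (S (T (S L L) (S L L)) (T L (S L L)))) (S (T (S L (F 2 L)) (S L L)) (T (F 2 (S L L)) (S L L)))))) (F 2 (T (U (V (S (T (K 2) (S (K 2) L)) (T (T (K 2) L) (S L L))) (S (T (K 2) (S L L)) (U (K 0) (T L L)))) (V (S (T L L) (T (S L L) L)) (S (T L L) (T (S L L) L)))) (U (V (S (T (S L L) (S L L)) (T (S L L) (S L L))) (F 6 (S (T (T (K 0) (K 0)) (K 0)) (K 0)))) (V (S (T L L) (T L L)) (S (T (S L L) (S L L)) (T L (S L L))))))))) (S (F 3 (T (U (F 10 (V (F 2 (S (K 0) (T (K 0) (S (K 0) (K 1))))) (S (T (K 2) (S L (K 0))) (K 0)))) (V (S (T (S (F 2 L) (F 2 L)) (S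 (F 2 L) (F 2 L))) (T L (S (F 2 L) (F 2 L)))) (S (T (F 8 L) (F 10 L)) (T (F 2 L) (F 2 L))))) (U (V (S (U (K 4) (T (F 2 L) (S (F 2 L) (K 4)))) (K 4)) (K 4)) (V (S (T (S (F 2 L) (F 2 L)) (S (F 2 L) (F 2 L))) (T (S (F 2 L) (F 2 L)) (S (F 2 L) (F 2 L)))) (S (T (F 2 L) (S (F 10 L) (F 2 L))) (T (S (F 10 L) (F 2 L)) (S (F 2 L) (F 2 L)))))))) (T (F 3 (U (F 15 (V (S (K 0) (K 0)) (K 0))) (V (S (T L (F 6 (S L L))) (F 6 (T (S L L) (S L L)))) (U (K 4) (S (S (F 10 L) (F 2 L)) (S (F 2 L) (F 2 L))))))) (F 34 (U (K 3) (V (S (T (S (F 16 L) (F 16 L)) (S (F 16 L) L)) (U (K 3) (S (F 16 L) (F 16 L)))) (U (K 3) (S (S (F 16 L) (F 16 L)) (S (F 16 L) (K 3))))))))))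
noncomputable def v9_6 : Tr := (V (S (T (U (V (F 18 (S (T L L) (S L L))) (S (T (F 16 L) (F 18 L)) (F 18 (T L L)))) (V (F 18 (S (S L L) (S L L))) (S (S (F 16 L) (F 16 L)) (F 18 (S L L))))) (U (V (F 18 (S (T L L) (T L L))) (S (T (F 16 L) (F 16 L)) (T (F 18 L) (F 16 L)))) (V (S (S (F 16 L) (F 18 L)) (F 18 (S L L))) (S (S (F 16 L) (F 16 L)) (S (F 16 L) (F 16 L)))))) (T (F 18 (U (V (S (S L L) (T L L)) (S (T L L) (T L L))) (V (S (S L L) (S L L)) (S (S L L) (S L L))))) (U (F 18 (V (S (T L L) (T L L)) (S (T L (S L L)) (T L L)))) (V (F 18 (S (S L L) (S L L))) (S (S (F 16 L) (F 18 L)) (F 18 (S L L))))))) (S (T (U (V (S (T (F 16 L) (F 16 L)) (T (F 16 L) (F 16 L))) (S (F 20 (S L L)) (S (F 20 L) (F 16 L)))) (V (S (S (F 16 L) (F 16 L)) (S (F 16 L) (F 16 L))) (S (F 20 (S L L)) (F 16 L)))) (U (V (S (T (F 16 L) (F 16 L)) (T (F 16 L) (F 16 L))) (S (S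 (F 16 L) (F 16 L)) (S (F 16 L) (F 16 L)))) (V (S (S (F 16 L) (F 16 L)) (S (F 16 L) (F 16 L))) (S (F 16 L) (S (F 16 L) (F 16 L)))))) (T (U (V (S (S (F 16 L) (F 16 L)) (F 18 (T L L))) (S (S (F 16 L) (F 16 L)) (T (F 16 L) (F 16 L)))) (V (S (S (F 16 L) (F 18 L)) (F 18 (S L L))) (S (S (F 20 L) (F 16 L)) (S (F 16 L) (F 16 L))))) (U (V (S (T (F 16 L) (S (F 16 L) (F 16 L))) (T (F 16 L) L)) (S (T (F 16 L) L) (T (F 16 L) L))) (V (S (S (F 16 L) (F 16 L)) (S (F 16 L) (F 16 L))) (S (S (F 16 L) (F 16 L)) (S (F 16 L) (F 16 L))))))))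
noncomputable def v9_7 : Tr := (U (S (T (U (V (F 10 (U (T (F 2 (S (F 2 L) L)) L) (F 2 (S (F 2 L) L)))) (U (S (T (U (F 8 L) (F 8 L)) (T (F 8 L) (F 10 L))) (T (F 8 L) (F 10 L))) (S (F 10 (U (S L L) L)) (T (F 8 L) (F 10 L))))) (F 10 (U (V (F 2 (S (F 2 L) L)) (S (T L L) (S L L))) (V (F 3 L) (S (S (F 2 L) L) L))))) (F 10 (U (V (U (S L L) (S L L)) (U (T (S L L) L) (S (S L L) L))) (V (U L L) (U (S L L) (S L L)))))) (T (U (V (F 12 (U (S L L) (F 2 (S L L)))) (S (U (S (F 8 L) (F 8 L)) (F 8 L)) (T (F 8 L) (F 8 L)))) (V (F 14 (U (S L L) L)) (S (T (F 8 L) (F 8 L)) (S (F 8 L) (F 8 L))))) (F 10 (U (V (U (S L L) (S L L)) (T (S L L) (S L L))) (V (U (F 2 (S L L)) L) (U (S L L) (S L (F 2 L)))))))) (U (S (F 10 (T (F 2 (U (V (F 2 L) L) (F 2 L))) (U (S L L) L))) (T (F 12 (U (V (F 2 L) L) (F 2 (S L L)))) (F 10 (U (S L L) (F 2 (S L L)))))) (F 10 (S (T (F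 3 (U L L)) (S L L)) (T (F 2 (U L (F 2 L))) (S L L))))))
noncomputable def v9_8 : Tr := (V (U (S (T (U (U (V (S (F 9 L) (F 1 L)) (F 9 (S L L))) (V (S (F 9 L) (F 5 L)) (F 9 (S L L)))) (U (S (F 9 (S L L)) (F 1 L)) (F 9 (S L L)))) (U (V (S (S L L) (S (F 1 L) (F 1 L))) (S L (S (F 1 L) (F 1 L)))) (S (V L (F 1 L)) (V L (F 1 L))))) (T (U (V (S (S (F 1 L) (F 1 L)) (F 5 (S L L))) (S (S (F 1 L) (F 1 L)) (S (F 1 L) (F 1 L)))) (S (T (F 1 L) (F 1 L)) (V (F 5 L) (F 1 L)))) (U (V (S (S (F 1 L) (F 1 L)) (S (F 1 L) (F 1 L))) (S (S (F 1 L) (F 1 L)) (S (F 1 L) (F 1 L)))) (V (S (F 1 L) (F 1 L)) (S (F 1 L) (F 1 L)))))) (S (U (T (F 9 (U (S (F 2 L) L) L)) (U (S (F 1 L) (F 1 L)) (S (F 9 L) (F 1 L)))) (T (F 9 (S (F 2 L) L)) (S (F 1 L) (F 1 L)))) (U (T (S (S (F 1 L) (F 1 L)) (S (F 1 L) (F 5 L))) (S (S (F 1 L) (F 1 L)) (S (F 1 L) (F 1 L)))) (T (F 5 (S L L)) (S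 (F 1 L) (F 1 L)))))) (U (S (F 9 (T (U (V (S (S L L) (S L L)) (S (S L L) (S L L))) (V (S L L) (S L L))) (U (V (S (S L L) (S L L)) (S L L)) (S (T L L) (T L L))))) (T (U (V (S (F 9 (S L L)) (F 1 L)) (F 9 (S L L))) (F 9 (V (S L L) (S L L)))) (U (V (S (F 1 L) (F 1 L)) (F 9 (S L L))) (V (S (F 1 L) (F 1 L)) (F 9 (S L L)))))) (S (F 9 (U (T (U (S L L) (S L L)) (U (S L L) L)) (T (S L L) (S L L)))) (U (T (F 9 (U (S L L) (S L L))) (S (F 9 (S L L)) (S (F 9 L) (F 1 L)))) (F 9 (T (S L L) (S L L)))))))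
noncomputable def v9_9 : Tr := (V (F 72 (U (S (T (U (T (S (F 20 (V L L)) (T (F 16 L) (F 16 L))) (U (S (F 18 L) (F 16 L)) (F 18 (S (F 2 L) L)))) (S (T (F 20 (S L L)) (F 16 L)) (T (F 16 L) (F 16 L)))) (U (S (F 18 (V (S L L) (T L L))) (T (S (F 16 L) (F 16 L)) (F 18 (S L L)))) (F 18 (U (S (S L L) (S L L)) (S L L))))) (T (U (V (T (S (F 16 L) (F 16 L)) (S (F 16 L) (F 16 L))) (T (S (F 20 L) (F 16 L)) (S (F 16 L) (F 16 L)))) (V (T L L) (T (F 20 (S L L)) (F 18 (S L L))))) (U (T (V L (F 18 (S L L))) (F 18 (V (S L L) (S L L)))) (T (V (F 2 L) (F 16 L)) (F 18 (V L (S L L))))))) (S (F 18 (U (T (U (S (F 2 L) L) (F 2 (S (F 2 L) L))) (U (S L L) (S (F 2 L) L))) (T (F 2 (S L L)) (S (F 2 L) L)))) (U (T (V (S (F 2 L) L) (S (F 16 L) (F 16 L))) (F 18 (U (S L L) (S L L)))) (T (T (F 16 L) (F 16 L)) (F 18 (S L L))))))) (F 65 (U (S (T (F 12 (U (V (S (T L L)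 (T L L)) (T (S L L) (S L L))) (U (V (S (F 2 L) L) (S L L)) (V L (F 2 (S L L)))))) (U (V (S (S (F 2 L) (F 2 L)) (S (F 2 L) (F 2 L))) (S (S (F 10 L) (F 8 L)) (S (F 8 L) (F 8 L)))) (S (F 10 (V (S L L) (S L L))) (V (F 2 L) (F 10 (S L L)))))) (T (U (F 12 (T (V (S L L) (S L L)) (V (S L L) (S L L)))) (T (F 12 (V (S L L) L)) (V (F 4 L) (F 12 (S L L))))) (U (V (F 6 (T (S L L) (S L L))) (S L L)) (V (F 6 (T (S L L) (S L L))) (S (F 2 L) (F 2 L)))))) (S (U (T (F 12 (U (S L L) (F 2 (S L L)))) (T (S (F 10 L) (F 12 L)) (F 10 (S L L)))) (T (F 12 (S L L)) (F 10 (S L (F 2 (S L L)))))) (U (T (F 12 (T (S L L) (S L L))) (V (F 6 (S L L)) (S (F 10 L) (F 6 L)))) (T (F 12 (S L L)) (T (F 12 L) (F 6 L))))))))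
noncomputable def v9_10 : Tr := (V (U (S (T (U (V (F 2 (S (S L L) L)) (S (F 2 (S L L)) L)) (V (F 2 (S L L)) (S L (F 2 L)))) (U (V (S L (F 2 (S L L))) (S (S L L) (S L (F 2 L)))) (V (F 2 (S L L)) (S L L)))) (T (F 2 (U (V (S L (S L L)) (S (S L L) (S L L))) (S (T L L) (T L L)))) (U (V (F 2 (T (S L L) (S L L))) (S L (F 2 (S L L)))) (V (F 2 (S L L)) (S L (F 2 L)))))) (S (U (T (F 2 (V (S L L) (S L L))) (S (S L L) (S L (F 2 L)))) (F 2 (T (S L L) (S L L)))) (F 2 (U (T (U (S L L) (S L L)) (S (S L L) (S L L))) (T (S L L) (S L L)))))) (U (S (T (U (V (S L L) (S L L)) (V (S L L) (F 4 (S L L)))) (U (V (S L L) (S L L)) (V (S L L) (S (F 4 L) L)))) (T (U (S (V L L) (V L L)) (V (F 2 (S L L)) (S L L))) (U (V (S (S L L) (S L L)) (S L (S L L))) (V (S L L) (S L L))))) (S (U (T (S L (S L L)) (V (S L L) (F 4 (S L L)))) (T (F 4 (S L L)) (S (F 4 L) L))) (U (T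 (V (F 2 (S L L)) (S (F 4 L) (F 2 L))) (V (F 2 (S L L)) (S L L))) (T (F 2 (S L L)) (S L L))))))
noncomputable def v9_11 : Tr := (U (S (T (F 772 (U (F 98 (V (K 0) (S (K 0) (T (K 0) (U (K 0) (V (K 0) (U (K 0) (S (F 2 (T (K 2) L)) (S L L))))))))) (V (F 96 (S (F 10 (U (K 2) (U (T (F 3 L) (V (F 2 L) (S L L))) (F 2 (T (F 2 L) (V L (S L L))))))) (T (F 12 (U (K 2) (U (V (F 2 L) (S (F 2 L) L)) (F 2 (V L (S L L)))))) (U (U (K 0) (V (F 6 (S (K 2) L)) (T (F 14 (S (K 1) L)) (F 2 L)))) (V (F 6 (U (S L L) (S L L))) (S (F 10 (T L L)) (T (F 4 L) (F 2 L)))))))) v9_0))) (F 787 (U v9_1 v9_2))) (F 7 (T (U (F 3 v9_3) v9_4) (U v9_5 (F 34 v9_6))))) (F 515 (S (T (F 65 (V (F 6 (U (U (U (S (F 2 (T (F 2 L) (V (S (F 2 L) L) (S L L)))) (T (F 2 (U (S (F 2 L) L) (S (F 2 L) L))) (V (S (F 2 L) L) (S (F 2 L) L)))) (S (F 3 (U (U L L) L)) (T (F 2 (S (F 2 L) L)) (S (S (F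 2 L) L) (S L L))))) (U (S (F 3 (U L L)) (T (F 2 (S (F 2 L) L)) (S (F 2 (S L L)) L))) (S (F 3 L) (T (F 3 L) (S (F 2 L) L))))) (F 2 (U (U (S (F 2 L) (T (F 2 L) (S L L))) (F 2 (U (U L L) (U L L)))) (F 2 (U (U L L) L)))))) v9_7)) (F 17 v9_8)) (T v9_9 (F 81 v9_10)))))
noncomputable def v9_12 : Tr := (S (T (V (U (K 4) (T (S (S (F 256 L) (F 256 L)) (S (F 256 L) (F 264 L))) (S (S (F 256 L) (F 264 L)) (F 256 L)))) (U (T (S (V (S (F 256 L) (F 256 L)) (S (F 256 L) (F 256 L))) (V (F 256 L) (S (F 256 L) (F 257 L)))) (S (V (F 256 L) (S (F 256 L) (F 256 L))) (V (F 256 L) (F 256 L)))) (S (T (S (F 256 L) (F 256 L)) (S (F 256 L) (F 256 L))) (T (S (F 256 L) (F 256 L)) (S (F 256 L) (F 257 L)))))) (U (V (F 267 (T (K 4) (S (K 4) (S L L)))) (S (T (S (F 256 L) (F 256 L)) (S (F 258 L) (F 258 L))) (T (S (F 256 L) (F 257 L)) (F 259 (S L L))))) (V (S (T (F 256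 L) (F 259 L)) (F 259 (V L (S L (F 1 L))))) (S (T (F 256 L) (F 258 L)) (T (F 257 L) (F 259 L)))))) (T (V (U (F 265 (S (K 4) (T (K 4) L))) (T (S (S (F 257 L) (F 265 L)) (F 261 L)) (S (F 257 L) (F 263 L)))) (U (S (T (S (F 256 L) (F 256 L)) (S (F 256 L) (F 257 L))) (T (S (F 257 L) (F 257 L)) (F 257 L))) (S (T (F 256 L) (F 257 L)) (T (F 257 L) (F 259 L))))) (F 259 (V (U (U (K 4) (S L (F 64 L))) (T (S (F 32 L) (F 33 L)) (F 32 L))) (U (S (T (S L L) L) (T L (F 1 L))) (S (T L (F 1 L)) L))))))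
noncomputable def v9_13 : Tr := (T (U (V (K 4) (S (F 259 (T (K 4) (U (K 4) (V (K 4) (T (K 4) (S (K 4) (V (K 4) L))))))) (T (U (K 4) (V (K 4) (S (K 4) (T (K 4) (S (F 257 L) (F 259 L)))))) (F 259 (U (K 4) (V (K 4) (U (K 4) (V (K 4) (S L (F 64 L)))))))))) (V (F 265 (S (T (K 4) (U (K 4) (V (K 4) (U (K 4) (V (K 4) (S (F 64 L) (F 65 L))))))) (T (U (K 4) (V (K 4) (U (K 4) (S L (F 96 (S L (F 16 L))))))) (U (K 4) (V (K 4) (S (F 64 L) (F 97 (S L L)))))))) v9_12)) (F 259 (U (V (K 4) (S (T (U (K 4) (V (K 4) (U (K 4) (S (S L L) L)))) (V (K 4) (U (K 4) (S L (F 32 L))))) (T (U (K 4) (V (K 4) (S (S L L) L))) (V (F 105 (U (K 0) (S (K 0) L))) (U (F 96 (S (K 0) L)) L))))) (V (S (U (K 4) (T (V (K 4) (S (F 32 L) (F 33 L))) (F 41 (V (F 1 L) L)))) (F 97 (T (U (K 0) (V (K 0) (S L (F 2 L)))) (F 2 (U (S (K 2) L) (S L L)))))) (S (T (V (U (U (K 4) (S (F 32 L)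 (F 32 L))) (S L (F 32 L))) (U (S (V L (S L (F 1 L))) (S L L)) (S (S L L) (S (F 1 L) (F 1 L))))) (V (F 41 (U (S L L) (S L L))) (U (S (F 8 L) (F 9 L)) (F 9 (S L (F 2 L)))))) (T (U (V (S (F 32 L) (F 96 L)) (S L (F 1 L))) (V (F 1 L) (S (F 1 L) (F 65 L)))) (V (F 33 (S L (F 1 L))) (S (F 1 L) (F 65 L)))))))))
noncomputable def v9_14 : Tr := (T (U (F 261 (V (K 4) (S (T (V (K 4) (U (K 4) (U (K 4) (T (S L (F 96 L)) (S (F 64 L) (F 97 L)))))) (U (K 4) (V (K 4) (T (S (F 64 L) (F 96 L)) (F 64 L))))) (T (U (K 4) (V (K 4) (S (F 64 L) (F 96 L)))) (V (F 96 (S (K 0) L)) (U (F 97 (S (K 0) L)) (F 64 L))))))) (V (F 271 (S (U (K 4) (V (K 4) (T (S L (F 1 L)) (F 1 L)))) (T (U (K 4) (V (F 1 L) (F 1 L))) (V (S (F 1 L) (F 1 L)) (S (F 1 L) (F 1 L)))))) (S (T (V (F 263 (U (U (K 4) (S L (F 33 L))) (T (S L (F 33 L)) (F 32 L)))) (U (T (S (F 257 L) (F 263 L)) (F 263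 (S L (F 1 L)))) (F 261 (T L (F 65 (S L (F 1 L))))))) (F 259 (U (V (F 96 (S L (F 16 L))) (S L (F 65 L))) (F 65 (V (S (F 1 L) (F 1 L)) (S L (F 1 L))))))) (F 263 (T (V (F 33 (U (S L L) (S L L))) (U (S L (F 33 L)) (F 1 L))) (V (F 33 (S L L)) (S (F 1 L) (F 33 L)))))))) (F 263 (U (V (F 33 (S (K 0) (T (K 0) (S (K 0) L)))) (S (T (V (K 4) (U (S (K 4) (F 32 L)) (S (F 32 L) (F 33 L)))) (U (V (K 4) (F 32 L)) (S (F 32 L) (F 33 L)))) (T (V (F 33 (S L L)) (S (F 32 L) (F 33 L))) (F 33 (U (K 3) L))))) (V (F 33 (S (T (U (S (K 0) L) (S L L)) (S L L)) (T (S L L) (F 2 (S L L))))) (S (T (V (F 33 (U L L)) (U (F 33 (S L L)) (F 1 L))) (F 33 (V L (S L (F 2 L))))) (T (V (F 33 L) (F 1 L)) (F 33 (S L (F 2 L)))))))))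
noncomputable def v9_15 : Tr := (U (V (U (K 4) (V (K 4) (V (K 4) (U (K 4) (U (K 4) (V (K 4) (S (S (F 256 L) (F 256 L)) (S (F 256 L) (F 256 L))))))))) (S (T (V (U (T (F 256 L) (F 256 L)) (S (F 256 L) (F 256 L))) (U (S (S (F 256 L) (F 256 L)) (S (F 256 L) (F 256 L))) (S (F 256 L) (F 256 L)))) (V (U (S (F 256 L) (F 256 L)) (S (F 256 L) (F 256 L))) (U (S (S (F 256 L) (F 256 L)) (S (F 256 L) (F 256 L))) (S (F 256 L) (F 256 L))))) (T (V (S (T (F 256 L) (F 256 L)) (T (F 256 L) (F 256 L))) (U (T (S (F 256 L) (F 256 L)) (S (F 256 L) (F 256 L))) (S (F 256 L) (F 256 L)))) (V (U (S (F 256 L) (F 256 L)) (S (F 256 L) (F 256 L))) (U (T (S (F 256 L) (F 256 L)) (F 256 L)) (S (F 256 L) (F 256 L))))))) (V (S (T (V (S (F 256 L) (F 256 L)) (S (F 256 L) (F 256 L))) (V (S (F 256 L) (F 256 L)) (S (F 256 L) (F 256 L)))) (T (V (S (F 256 L) (F 256 L)) (S (F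 256 L) (F 256 L))) (V (S (F 256 L) (F 256 L)) (S (F 256 L) (F 256 L))))) (S (T (V (S (S (F 256 L) (F 256 L)) (F 256 L)) (U (S (F 256 L) (F 256 L)) (F 256 L))) (V (S (F 256 L) (F 256 L)) (U (S (F 256 L) (F 256 L)) (F 256 L)))) (T (V (S (F 256 L) (F 256 L)) (U (S (F 256 L) (F 256 L)) (F 256 L))) (V (S (F 256 L) (F 256 L)) (T (F 256 L) (F 256 L)))))))
noncomputable def v9_16 : Tr := (T (U (V (U (K 4) (V (K 4) (V (K 4) (S (T (F 256 L) (F 257 L)) (T (F 257 L) (F 259 L)))))) (T (S (V (U (S (F 256 L) (F 256 L)) (S (F 256 L) (F 257 L))) (U (T (S (F 256 L) (F 257 L)) (F 256 L)) (S (F 256 L) (F 256 L)))) (V (U (S (F 257 L) (F 257 L)) (F 256 L)) (U (S (F 256 L) (F 257 L)) (F 256 L)))) (S (V (U (S (F 256 L) (F 257 L)) (F 256 L)) (U (S (F 256 L) (F 256 L)) (S (F 256 L) (F 257 L)))) (V (U (S (F 257 L) (F 259 L)) (F 257 L)) (S (F 256 L) (S (F 257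 L) (F 257 L))))))) (V (S (T (V (S (F 256 L) (F 257 L)) (S (F 256 L) (F 256 L))) (V (F 256 L) (S (F 257 L) (F 257 L)))) (T (V (S (F 257 L) (F 257 L)) (S (F 257 L) (F 257 L))) (V (F 257 L) (F 257 L)))) (T (S (V (S (F 256 L) (F 256 L)) (S (F 256 L) (F 256 L))) (V (S (F 257 L) (F 257 L)) (S (F 256 L) (F 257 L)))) (S (V (S (F 256 L) (F 257 L)) (S (F 256 L) (F 256 L))) (V (S (F 257 L) (F 259 L)) (S (F 257 L) (F 259 L))))))) (U (V (F 259 (V (K 4) (S (U (K 4) (T L L)) (T (S L L) L)))) (S (T (V (S (F 256 L) (F 257 L)) (S (S (F 256 L) (F 256 L)) (S (F 257 L) (F 257 L)))) (F 259 (V (S L L) (U (S L L) L)))) (T (V (F 259 (S L L)) (S (F 257 L) (F 259 L))) (F 259 (V L (S L L)))))) (V (S (T (V (F 257 L) (F 257 L)) (F 259 (S L L))) (T (T (F 257 L) (F 259 L)) (F 259 L))) (S (T (V (S (F 257 L) (F 259 L)) (S (F 257 L) (F 259 L))) (F 259 (V L (S L (F 1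 L))))) (F 259 (T (V L (S L (F 1 L))) (S L (F 1 L))))))))
noncomputable def v9_17 : Tr := (V (S (T (V (U (S (T (F 256 L) (F 256 L)) (T (F 256 L) (F 256 L))) (S (F 256 L) (F 256 L))) (T (U (S (F 256 L) (F 256 L)) (S (F 256 L) (F 256 L))) (U (S (F 256 L) (F 256 L)) (S (F 256 L) (F 256 L))))) (V (S (U (T (F 256 L) (F 256 L)) (S (F 256 L) (F 256 L))) (U (S (F 256 L) (F 256 L)) (S (F 256 L) (F 256 L)))) (U (T (S (F 256 L) (F 256 L)) (S (F 256 L) (F 256 L))) (T (S (F 256 L) (F 256 L)) (S (F 256 L) (F 256 L)))))) (T (V (U (S (T (F 256 L) (F 256 L)) (S (F 256 L) (F 256 L))) (S (F 256 L) (S (F 256 L) (F 256 L)))) (U (S (T (F 256 L) (F 256 L)) (T (F 256 L) (F 256 L))) (S (S (F 256 L) (F 256 L)) (S (F 256 L) (F 256 L))))) (V (U (S (S (F 256 L) (F 256 L)) (S (F 256 L) (F 256 L))) (S (F 256 L) (F 256 L))) (U (S (T (F 256 L) (F 256 L)) (T (F 256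 L) (F 256 L))) (T (S (F 256 L) (F 256 L)) (S (F 256 L) (F 256 L))))))) (S (T (V (T (U (S L L) L) (U (S L L) (S (F 256 L) (F 256 L)))) (U (T (S L L) (S L L)) (S (S L L) (S L L)))) (V (U (S (T L L) (T L L)) (T L L)) (S (U (T L L) (S L L)) (U (T L L) (S L L))))) (T (V (U (S (T L L) (T L L)) (T (S (F 256 L) (F 256 L)) L)) (U (S (T L L) (T L L)) (T (S (F 256 L) (F 256 L)) (S (F 256 L) (F 256 L))))) (V (U (S (S L L) (S L L)) (S L L)) (U (S (T L L) (T L L)) (T (S (F 256 L) (F 256 L)) L))))))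
noncomputable def v9_18 : Tr := (V (S (T (V (U (S (S (F 256 L) (F 256 L)) (S (F 256 L) (F 256 L))) (S (F 256 L) (F 256 L))) (U (T (S (F 256 L) (F 256 L)) (S (F 256 L) (F 256 L))) (S (S (F 256 L) (F 256 L)) (S (F 256 L) (F 256 L))))) (V (U (S (F 256 L) (F 256 L)) (S (F 256 L) (F 258 L))) (U (T (S (F 256 L) (F 256 L)) (F 256 L)) (S (F 256 L) (F 256 L))))) (T (V (U (S (S (F 256 L) (F 256 L)) (F 256 L)) (S (F 256 L) (F 256 L))) (U (S (T (F 256 L) (F 256 L)) (S (F 256 L) (F 256 L))) (S (F 256 L) (F 256 L)))) (V (S (S (F 256 L) (F 256 L)) (T (F 258 L) (F 259 L))) (S (U (F 256 L) (F 258 L)) (T (F 256 L) (F 258 L)))))) (S (T (V (T (U (S L (F 256 L)) L) (U (S (F 256 L) (F 256 L)) L)) (U (T (S L L) (S L L)) (T (S (F 256 L) (F 256 L)) L))) (V (U (T (S (F 256 L) (F 256 L)) L) (S (S (F 256 L) (F 256 L)) (F 256 L))) (U (T (S L L) (S (F 2 L) (F 2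 L))) (S L L)))) (T (V (U (S (S L L) (S L L)) (V (S (F 256 L) (F 256 L)) L)) (U (T (S L L) (S L (F 256 L))) (S L L))) (V (U (S L (F 2 L)) (S (F 256 L) (F 258 L))) (T (S L L) (S L (F 2 L)))))))
noncomputable def v9_19 : Tr := (T (U v9_17 (V (S (T (V (U (S (F 256 L) (F 256 L)) (S (F 256 L) (F 256 L))) (U (S (F 256 L) (F 256 L)) (S (F 256 L) (F 256 L)))) (V (U (S (F 256 L) (F 256 L)) (S (F 256 L) (F 256 L))) (U (S (F 256 L) (F 256 L)) (S (F 256 L) (F 256 L))))) (T (V (U (S (F 256 L) (F 256 L)) (S (F 256 L) (F 256 L))) (U (S (F 256 L) (F 256 L)) (S (F 256 L) (F 256 L)))) (V (U (S (F 256 L) (F 256 L)) (F 256 L)) (U (S (F 256 L) (F 256 L)) (S (F 256 L) (F 768 L)))))) (S (T (V (U (T (F 256 L) (S (F 768 L) (F 768 L))) (S (F 256 L) (F 256 L))) (U (S L L) L)) (V (U (S (F 256 L) (F 256 L)) (S (F 256 L) (F 256 L))) (S (S L L) (T (F 256 L) (F 256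 L))))) (T (V (U (S (F 256 L) (F 256 L)) (S (F 256 L) (F 256 L))) (S (S L L) (T (F 256 L) (F 256 L)))) (V (S (T (F 256 L) (F 256 L)) (T (F 256 L) (F 256 L))) (U (S L L) (S (F 256 L) (F 768 L)))))))) (U v9_18 (V (S (T (V (U (S (F 256 L) (F 256 L)) (F 256 L)) (U (S (F 256 L) (F 256 L)) (S (F 768 L) (F 768 L)))) (V (S (F 256 L) (F 256 L)) (T (S (F 258 L) (F 258 L)) (F 256 L)))) (T (V (S (F 256 L) (F 256 L)) (S (S (F 256 L) (F 256 L)) (F 256 L))) (V (S (F 258 L) (F 258 L)) (S (F 256 L) (F 258 L))))) (T (S (V (U (S (F 256 L) (F 256 L)) (S (F 768 L) (F 768 L))) (U (S L (F 256 L)) (S (F 768 L) (F 768 L)))) (V (U (S (F 256 L) (F 256 L)) (F 256 L)) (U (S (F 256 L) (F 256 L)) (F 256 L)))) (S (V (S (S (F 256 L) (F 256 L)) (F 256 L)) (U L (F 256 L))) (T (V (F 256 L) (F 256 L)) (S (F 256 L) (F 258 L))))))))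
noncomputable def v9_20 : Tr := (V (S (T (V (U (T (S (F 256 L) (F 256 L)) (S (F 256 L) (F 257 L))) (S (F 256 L) (F 256 L))) (U (T (S (F 256 L) (F 256 L)) (S (F 256 L) (F 256 L))) (S (S (F 256 L) (F 256 L)) (S (F 256 L) (F 256 L))))) (V (U (T (S (F 257 L) (F 257 L)) (F 256 L)) (S (F 256 L) (F 257 L))) (U (T (S (F 256 L) (F 256 L)) (S (F 256 L) (F 257 L))) (S (F 256 L) (F 256 L))))) (T (V (U (S (F 256 L) (F 256 L)) (S (F 256 L) (F 257 L))) (U (T (S (F 256 L) (F 257 L)) (S (F 257 L) (F 257 L))) (S (F 256 L) (F 256 L)))) (V (S (T (F 256 L) (F 257 L)) (T (F 257 L) (F 257 L))) (T (S (F 256 L) (F 256 L)) (S (F 256 L) (F 257 L)))))) (S (T (V (U (T (S L (F 256 L)) (S L (F 256 L))) (S L L)) (U (S (T L L) (T L L)) (S (S L L) L))) (V (U (S (S L L) (S L L)) (S (S (F 256 L) (F 256 L)) (F 256 L))) (U (T (S L (F 256 L)) (S L (F 1 L))) (S L L)))) (T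 (V (U (S (S L L) L) (T (S (F 256 L) (F 257 L)) (F 256 L))) (U (S (S L L) (S L L)) (S L L))) (V (U (S L (F 1 L)) (S (F 256 L) (F 257 L))) (S (T L L) (T L (F 1 L)))))))
noncomputable def v9_21 : Tr := (U (V (S (T (V (S (T (F 256 L) (F 257 L)) (T (F 257 L) (F 257 L))) (U (S (F 256 L) (F 256 L)) (S (F 257 L) (F 257 L)))) (F 259 (V (U (S L L) (S L (F 1 L))) (U (S (S L L) L) (S L L))))) (T (V (S (S (F 257 L) (F 257 L)) (F 259 (S L L))) (S (T (F 257 L) (F 259 L)) (F 259 (T L L)))) (F 259 (V (S L L) (U (S L (F 1 L)) L))))) (S (T (V (U (S L (F 1 L)) (S (F 256 L) (F 257 L))) (U (T L L) (S (F 256 L) (F 1 L)))) (V (S (T (F 256 L) (F 258 L)) (F 259 (U (S L L) L))) (S (T (F 1 L) (F 3 L)) (T (F 3 L) (F 259 L))))) (T (V (S (U (F 257 L) (F 259 L)) (T (F 257 L) (F 259 L))) (T (S (F 1 L) (F 3 L)) (S (F 3 L) (F 259 L)))) (V (F 259 (T (S L (F 1 L)) L))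 (U (F 3 L) (F 259 L)))))) (V (S (T (V (S (F 257 L) (F 257 L)) (S (F 256 L) (F 257 L))) (F 259 (V (S L (F 1 L)) (S L L)))) (F 259 (T (V (S L (F 1 L)) (S L (F 1 L))) (S L L)))) (S (T (V (S (F 256 L) (F 257 L)) (S (F 256 L) (F 256 L))) (F 259 (V (S L L) (U (S L (F 1 L)) (F 1 L))))) (F 259 (T (V (T L L) (U (S L (F 1 L)) (F 1 L))) (V L (S (F 1 L) (F 1 L))))))))
noncomputable def v9_22 : Tr := (V (S (T v9_15 (U (V (U (K 4) (V (K 4) (V (K 4) (T (S (F 256 L) (F 257 L)) (S (F 258 L) (F 259 L)))))) (T (S (V (U (S (F 256 L) (F 256 L)) (S (F 256 L) (F 256 L))) (U (S (S (F 256 L) (F 256 L)) (F 256 L)) (S (F 256 L) (F 256 L)))) (V (U (S (F 256 L) (F 257 L)) (F 256 L)) (U (S (F 256 L) (F 256 L)) (S (F 256 L) (F 257 L))))) (S (V (U (S (F 258 L) (F 258 L)) (F 256 L)) (U (S (F 256 L) (F 258 L)) (F 256 L))) (V (T (F 256 L) (F 258 L)) (T (F 256 L) (F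 259 (S L L))))))) (V (T (S (V (S (F 256 L) (F 256 L)) (S (F 256 L) (F 256 L))) (V (F 256 L) (F 256 L))) (S (V (S (F 258 L) (F 259 L)) (F 256 L)) (F 259 (V (S L L) (S L L))))) (S (T (V (S (F 256 L) (F 256 L)) (S (F 256 L) (F 256 L))) (V (S (F 258 L) (F 258 L)) (S (F 256 L) (F 258 L)))) (T (V (S (F 256 L) (F 257 L)) (S (F 256 L) (F 256 L))) (V (F 259 (S L L)) (S (F 258 L) (F 259 L)))))))) v9_16) (S v9_19 (T (U v9_20 (V (S (T (V (U (S (F 256 L) (F 256 L)) (F 256 L)) (U (S (F 256 L) (F 256 L)) (S (F 256 L) (F 768 L)))) (V (U (F 256 L) (F 256 L)) (S (S (F 256 L) (F 256 L)) (F 256 L)))) (T (V (S (F 256 L) (F 256 L)) (T (F 256 L) (F 256 L))) (V (S (F 257 L) (F 257 L)) (S (F 256 L) (F 257 L))))) (S (T (V (U (S (F 256 L) (F 256 L)) (S (F 768 L) (F 768 L))) (U (S L (F 256 L)) (S (F 768 L) (F 768 L)))) (V (U (S (F 256 L) (F 256 L)) (F 256 L))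 (U L (F 256 L)))) (T (V (S (S (F 256 L) (F 256 L)) (F 256 L)) (U L (F 256 L))) (S (V (F 256 L) (F 256 L)) (T (F 256 L) (F 257 L))))))) v9_21)))
noncomputable def v9_23 : Tr := (T (U (V (S (T (V (S (F 256 L) (F 256 L)) (S (F 256 L) (F 256 L))) (V (S (F 256 L) (F 256 L)) (S (F 256 L) (F 256 L)))) (T (V (S (F 256 L) (F 256 L)) (S (F 256 L) (F 256 L))) (V (F 256 L) (F 256 L)))) (T (S (V (S (F 256 L) (F 256 L)) (S (F 256 L) (F 256 L))) (V (S (F 256 L) (F 256 L)) (S (F 256 L) (F 256 L)))) (S (V (S (F 256 L) (F 256 L)) (S (F 256 L) (F 256 L))) (V (S (F 256 L) (F 257 L)) (S (F 256 L) (F 768 L)))))) (V (T (S (S (F 256 L) (F 256 L)) (S (F 256 L) (F 256 L))) (S (S (F 256 L) (F 256 L)) (S (F 256 L) (F 768 L)))) (S (T (S (F 256 L) (F 256 L)) (S (F 256 L) (F 256 L))) (T (S (F 256 L) (F 256 L)) (S (F 256 L) (F 768 L)))))) (U (V (T (S (V (F 256 L)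 (F 256 L)) (S (F 256 L) (F 256 L))) (S (S (F 256 L) (F 258 L)) (S (F 258 L) (F 259 L)))) (S (T (V (F 256 L) (F 256 L)) (S (F 256 L) (F 256 L))) (T (T (F 256 L) (F 256 L)) (S (F 258 L) (F 259 L))))) (V (T (S (S (F 256 L) (F 258 L)) (F 256 L)) (S (F 258 L) (F 259 L))) (T (S (S (F 256 L) (F 768 L)) (S (F 768 L) (F 769 L))) (F 770 (S (S L L) (S (F 64 L) (F 64 L))))))))
noncomputable def v9_24 : Tr := (T (U (V (T (S (V (S (F 256 L) (F 256 L)) (S (F 256 L) (F 256 L))) (V (S (F 256 L) (F 256 L)) (S (F 256 L) (F 256 L)))) (S (V (S (F 256 L) (F 256 L)) (S (F 256 L) (F 256 L))) (V (S (F 768 L) (F 768 L)) (S (F 256 L) (F 768 L))))) (T (S (V (S (F 256 L) (F 256 L)) (U (F 256 L) (F 768 L))) (V (S (F 256 L) (F 256 L)) (U (F 256 L) (F 768 L)))) (S (V (S (F 256 L) (F 256 L)) (U (F 256 L) (F 768 L))) (V (S (F 768 L) (F 768 L)) (S (F 768 L) (F 768 L))))))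 (V (T (S (V (F 768 L) (F 768 L)) (V (F 768 L) (F 768 L))) (S (V (F 768 L) (F 768 L)) (S (F 768 L) (F 768 L)))) (S (T (V (F 768 L) (F 768 L)) (S (F 768 L) (F 768 L))) (T (S (F 768 L) (F 768 L)) (S (F 768 L) (F 768 L)))))) (U (V (S (T (V (S (F 768 L) (F 768 L)) (S (F 768 L) (F 768 L))) (S (F 256 L) (F 256 L))) (T (V (F 256 L) (F 256 L)) (S (F 258 L) (F 258 L)))) (S (T (V (S (F 768 L) (F 768 L)) (S (F 768 L) (F 768 L))) (V (S (F 768 L) (F 770 L)) (S (F 768 L) (F 770 L)))) (T (V (S (F 768 L) (F 768 L)) (S (F 768 L) (F 768 L))) (S (F 768 L) (F 770 (S L L)))))) (V (S (T (S (F 768 L) (F 768 L)) (F 768 L)) (T (S (F 768 L) (F 769 L)) (F 770 L))) (S (T (S (F 768 L) (F 768 L)) (F 768 L)) (T (S (F 768 L) (F 770 L)) (F 770 (S L (F 64 L))))))))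
noncomputable def v9_25 : Tr := (V (S v9_23 (T (U (V (S (T (V (F 256 L) (F 256 L)) (S (F 256 L) (F 256 L))) (T (S (F 256 L) (F 257 L)) (S (F 257 L) (F 259 L)))) (S (T (V (F 256 L) (F 256 L)) (S (F 256 L) (F 256 L))) (T (V (F 257 L) (F 257 L)) (S (F 257 L) (F 257 L))))) (V (S (T (S (F 256 L) (F 257 L)) (S (F 257 L) (F 769 L))) (T (F 257 L) (F 259 L))) (S (T (F 256 L) (S (F 768 L) (F 769 L))) (T (S (F 257 L) (F 769 L)) (F 769 L))))) (V (U (S (T (S (F 257 L) (F 259 L)) (F 259 L)) (F 259 (T L (F 1 L)))) (F 259 (S (T L (F 1 L)) (T (F 1 L) (F 65 L))))) (U (S (T (S (F 257 L) (F 257 L)) (F 259 (S L (F 1 L)))) (F 259 (T (S L (F 1 L)) (F 1 L)))) (F 769 (S (T (S L (F 64 L)) (F 64 L)) (T (F 64 L) (F 64 L)))))))) (S v9_24 (T (U (V (T (S (V (S (F 768 L) (F 768 L)) (S (F 768 L) (F 768 L))) (S (F 256 L) (F 256 L))) (S (V (F 256 L) (F 256 L)) (S (F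 257 L) (F 257 L)))) (T (S (V (S (F 256 L) (F 768 L)) (S (F 768 L) (F 768 L))) (V (S (F 768 L) (F 769 L)) (S (F 768 L) (F 769 L)))) (S (V (S (F 768 L) (F 768 L)) (S (F 768 L) (F 768 L))) (S (S (F 768 L) (F 768 L)) (F 769 (S L L)))))) (V (T (S (S (F 768 L) (F 768 L)) (F 768 L)) (S (S (F 768 L) (F 769 L)) (F 769 L))) (T (S (S (F 768 L) (F 768 L)) (F 768 L)) (S (S (F 768 L) (F 769 L)) (F 769 (S L (F 64 L))))))) (V (U (S (T (S (F 256 L) (F 257 L)) (F 771 (V L L))) (F 769 (T (T L (F 64 L)) (F 64 L)))) (F 769 (S (T L (F 64 L)) (T (F 64 L) (F 64 L))))) (U (S (T (V (F 768 L) (F 768 L)) (F 771 (V L (S L L)))) (F 769 (T (T L (F 64 L)) (S (F 64 L) (F 64 L))))) (F 769 (T (S L (F 64 L)) (S (F 64 L) (F 64 L)))))))))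
noncomputable def v9_26 : Tr := (U (V (S (T (V (U (S (F 258 L) (F 258 L)) (F 258 L)) (U (S (S (F 258 L) (F 258 L)) (F 258 L)) (S (F 258 L) (F 259 L)))) (V (S (F 258 L) (F 259 L)) (S (S (F 258 L) (F 258 L)) (F 259 (S L L))))) (T (V (S (F 258 L) (F 259 (S L L))) (S (S (F 258 L) (F 258 L)) (F 259 (T L L)))) (F 259 (V (S L L) (S L L))))) (S (T (V (U (T (F 2 L) (S (F 258 L) (F 259 L))) (S (F 258 L) (F 258 L))) (U (S (S (F 2 L) (F 2 L)) (F 2 L)) (S (F 2 L) (F 258 L)))) (V (U (S (F 258 L) (F 259 L)) (F 258 L)) (T (F 2 L) (F 258 L)))) (T (V (T (U (F 258 L) (F 259 L)) (S (F 258 L) (F 259 L))) (U (S (F 2 L) (F 3 L)) (F 3 L))) (V (F 259 (U L (F 1 L))) (U (F 3 L) (F 771 L)))))) (V (S (T (V (S (F 258 L) (F 259 L)) (S (F 258 L) (F 258 L))) (T (F 258 L) (F 259 L))) (F 259 (T (V (S L (F 1 L)) (S L (F 1 L))) (S L (F 1 L))))) (S (T (V (S (F 258 L) (F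 258 L)) (S (F 258 L) (F 770 (S L L)))) (U (S (F 258 L) (F 259 L)) (F 770 L))) (F 259 (T (V (S L L) (U L (F 1 L))) (V (F 1 L) (F 1 L)))))))
noncomputable def v9_27 : Tr := (S (T v9_26 (F 259 (U (V (S (T (V L (S (F 8 L) (F 8 L))) (S (F 8 L) (F 8 L))) (T (S L L) L)) (T (S (V (S L (F 8 L)) (S L (F 1 L))) (V L (S (F 1 L) (F 9 L)))) (F 9 (U (K 3) (S L L))))) (V (S (T L (F 9 L)) (T (F 1 L) (F 9 L))) (T (S (S (F 1 L) (F 1 L)) (F 1 L)) (F 9 (S L L))))))) (T (U (V (F 259 (S (T (V (S L L) (S L L)) (V L L)) (T (V L (S (F 1 L) (F 1 L))) (S L (F 1 L))))) (S (T (V (F 259 (T (S L (F 1 L)) L)) (U (F 3 L) (F 259 L))) (F 259 (V L (S (F 1 L) (F 1 L))))) (F 259 (T (V (S L (F 1 L)) (S L (F 1 L))) (V (F 1 L) (F 1 L)))))) (F 259 (V (S (T (S L L) L) (T L (F 1 L))) (S (T (V (S (F 1 L) (F 1 L)) (S (F 1 L) (F 1 L))) (S (F 1 L) (F 1 L))) (T (S (F 1 L) (F 1 L))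 (F 1 L)))))) (F 259 (V (U (S (T L (F 8 L)) (T (F 1 L) (F 9 L))) (S (S (F 1 L) (F 9 L)) (F 1 L))) (S (U (T (S (F 1 L) (F 1 L)) (F 123 (S (K 0) (K 0)))) (S (F 1 L) (F 9 L))) (U (T (F 1 L) (K 2)) (F 1 L)))))))
noncomputable def v9_28 : Tr := (V (S (T (U (V (F 259 (V (K 4) (S (T (S L L) L) (T (S L L) L)))) (S (T (V (S (F 258 L) (F 259 L)) (U (S (F 258 L) (F 259 L)) (F 258 L))) (F 259 (V (S L L) (S L L)))) (F 259 (T (V (S L L) (U L L)) (V L L))))) (V (S (T (S (F 258 L) (F 259 L)) (F 259 (S L L))) (F 259 (T (S L L) L))) (S (T (V (F 258 L) (F 258 L)) (F 259 (V L L))) (F 259 (T (V L L) L))))) (F 259 (V (U (S (T L (F 8 L)) (S L L)) (S L L)) (S (U (T (S L L) L) (S L L)) (U (V L (S (F 8 L) (F 8 L))) L))))) (F 259 (T (V (U (S (T (S L L) L) (T L (F 32 L))) (S (T L (F 1 L)) (S L L))) (U (S (T (V L (S L L)) (S L L)) (T (S L L) L)) (S (T (S L (F 1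 L)) (F 1 L)) (S L L)))) (V (U (S (S (F 8 L) (F 8 L)) L) (S (F 1 L) (F 9 L))) (U (S (S L L) (S (F 8 L) (F 1 L))) (T L (F 1 L))))))) v9_27)
noncomputable def v9_29 : Tr := (V (S (T (V (F 259 (U (S (T (S L L) L) (T L (F 1 L))) (S (T L (F 9 L)) (S (F 1 L) (F 1 L))))) (U (S (T (S (F 258 L) (F 259 L)) (F 259 L)) (F 259 (T L (F 1 L)))) (F 770 (T (S L (F 64 L)) (F 68 (S L L)))))) (F 259 (V (U (S (F 8 L) (F 9 L)) (F 9 (S L L))) (S (T (S (F 1 L) (F 1 L)) (F 9 L)) (T (F 1 L) (F 9 L)))))) (F 259 (T (V (U (S (S L (F 1 L)) (F 1 L)) (S (F 1 L) (F 65 L))) (U (S (T (F 1 L) (F 9 L)) (S (F 1 L) (F 1 L))) (S (F 1 L) (F 1 L)))) (F 9 (V (U (S L (F 1 L)) L) (U (S L L) L)))))) (S (T (V (U (S (T (S (F 258 L) (F 770 L)) (F 771 (S L L))) (F 771 (T (V L L) L))) (F 770 (S (T L (F 64 L)) (S (F 64 L) (F 64 L))))) (F 770 (U (S (T (V L L) (S (F 64 L) (F 64 L))) (T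 (S L (F 64 L)) (F 64 L))) (T (S L (F 64 L)) (S (F 64 L) (F 68 L)))))) (F 803 (V (U (T (S L L) (S L L)) (S L L)) (U (T (S L L) L) (S L L))))) (F 771 (T (V (U (S (T L L) (S L L)) (S L L)) (U (T (S (S L L) L) (S L (F 4 L))) (S L L))) (V (S (S L L) L) (U (S (F 4 L) (F 4 L)) (F 4 L)))))))
noncomputable def v9_30 : Tr := (S (T (U (V (V (K 4) (T (F 261 (U (K 4) (S L (F 64 L)))) (S (F 257 L) (F 263 L)))) (T (S (V (S (F 257 L) (F 257 L)) (U (S (F 257 L) (F 259 L)) (F 257 L))) (V (F 257 L) (F 257 L))) (S (V (F 257 L) (S (F 257 L) (F 259 L))) (T (F 257 L) (F 259 L))))) (V (S (T (T (F 257 L) (F 257 L)) (F 257 L)) (F 261 (T (S L (F 64 L)) (F 64 L)))) (S (T (V (F 257 L) (S (F 257 L) (F 259 L))) (S (F 257 L) (F 257 L))) (T (F 257 L) (F 259 L))))) (F 259 (U (V (S (T (S L (F 64 L)) L) (T (F 64 L) (F 64 L))) (S (T (V L (S L (F 64 L))) (S L L)) (T (S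 L (F 64 L)) L))) (V (S (T L (F 64 L)) (S (F 64 L) (F 64 L))) (S (T (S L (F 1 L)) L) (S L (F 64 L))))))) (F 261 (T (V (U (T (S (S (F 64 L) (F 96 L)) (F 96 L)) (S (F 64 L) (F 96 L))) (T (S (F 64 L) (F 65 L)) (F 64 L))) (U (T (S (S L (S (F 64 L) (F 64 L))) (F 64 L)) (S (S (F 64 L) (F 64 L)) (F 65 L))) (S (T (S (F 64 L) (F 65 L)) (F 65 L)) (F 64 L)))) (V (U (T (F 96 (S L (F 16 L))) (F 64 L)) (F 65 (S L (F 1 L)))) (U (S (T (F 64 L) (F 65 L)) (K 1)) (S (F 64 L) (F 65 L)))))))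
noncomputable def v9_31 : Tr := (U (V (S (T (V (U (S (F 257 L) (F 257 L)) (S (F 257 L) (F 259 L))) (U (T (S (F 257 L) (F 259 L)) (F 257 L)) (S (F 257 L) (F 259 L)))) (V (S (F 257 L) (F 257 L)) (U (S (F 257 L) (F 259 L)) (F 257 L)))) (T (V (S (F 257 L) (F 259 L)) (U (F 257 L) (F 259 L))) (F 259 (V (S L (F 64 L)) (S L L))))) (T (S (V (U (T (F 1 L) (S (F 257 L) (F 259 L))) (T (F 257 L) (F 257 L))) (U (T (S (F 1 L) (F 257 L)) (F 1 L)) (S (F 1 L) (F 257 L)))) (V (U (S (F 257 L) (F 259 L)) (F 257 L)) (S (F 1 L) (F 257 L)))) (S (V (U (T (F 257 L) (F 257 L)) (F 257 L)) (U (S (F 1 L) (F 3 L)) (S (F 3 L) (F 259 L)))) (V (F 259 (U L (F 1 L))) (U (F 3 L) (F 259 L)))))) (V (S (T (V (S (F 257 L) (F 259 L)) (T (F 257 L) (F 257 L))) (V (F 257 L) (F 257 L))) (T (T (F 257 L) (F 257 L)) (F 259 (S L (F 1 L))))) (T (S (V (T (F 257 L) (F 257 L)) (U (S (F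 257 L) (F 769 L)) (F 769 L))) (U (F 257 L) (F 769 L))) (S (V (F 257 L) (F 259 (U L (F 1 L)))) (F 771 (V L (S L (F 32 L))))))))
noncomputable def v9_32 : Tr := (S (T v9_31 (U (V (F 259 (S (T (V (S L L) (U L L)) (V L L)) (T (V L L) L))) (S (T (V (F 259 (S (S L L) L)) (U (F 3 L) (F 259 L))) (F 259 (V (S L (F 1 L)) (S L (F 1 L))))) (F 259 (T (V L L) (V (F 1 L) (F 1 L)))))) (F 259 (V (S (T (S L L) L) (T L (F 1 L))) (S (T (V (S (F 1 L) (F 1 L)) (S (F 1 L) (F 1 L))) (S (F 1 L) (F 1 L))) (T (S (F 1 L) (F 1 L)) (F 1 L))))))) (T (U (V (S (T (S (S (F 257 L) (F 257 L)) (F 259 (S L (F 64 L)))) (F 259 (S L (F 64 L)))) (F 263 (U (K 1) (S L (F 1 L))))) (F 259 (S (T (V (S L (F 64 L)) (S L (F 64 L))) (U (S L (K 1)) (F 1 L))) (F 65 (U (K 4) (T L L)))))) (F 259 (V (T (S (S L (F 65 L)) (F 65 L)) (F 65 (V L L))) (S (T (T (F 1 L) (F 1 L)) (F 1 L)) (F 65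 (T L L)))))) (F 259 (V (U (S (T L (F 65 L)) (K 1)) (F 65 (T (S L L) L))) (U (S (T (T (F 1 L) (F 1 L)) (F 1 L)) (K 1)) (S (S (F 1 L) (F 65 L)) (F 65 L)))))))
noncomputable def v9_33 : Tr := (V (S (T (V (U (T (S (F 257 L) (F 263 L)) (F 259 (S L (F 65 L)))) (T (F 261 (S L (F 65 L))) (F 771 (S L (F 32 L))))) (T (U (V (F 257 L) (F 257 L)) (F 769 (S L (F 96 L)))) (F 259 (U (S L (F 64 L)) (S (F 1 L) (F 65 L)))))) (F 259 (V (U (S L (F 64 L)) (S (F 1 L) (F 65 L))) (U (S (S L (F 1 L)) (F 1 L)) (S (F 1 L) (F 65 L)))))) (F 263 (T (V (U (S L (F 1 L)) (S (F 1 L) (F 33 L))) (U (T (S (F 1 L) (F 1 L)) (F 1 L)) (S (F 1 L) (F 1 L)))) (V (U (F 1 L) (F 1 L)) (U (S (F 1 L) (F 1 L)) (F 1 L)))))) (S (T (V (U (T (S (S (F 257 L) (F 769 L)) (F 769 L)) (F 769 (S (S L (F 64 L)) (F 64 L)))) (F 769 (T (S L (F 96 L)) (S (F 64 L) (F 96 L))))) (F 769 (U (T (S (V L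 L) L) (S (S L (F 64 L)) (F 64 L))) (T (S L (F 96 L)) (S (F 64 L) (F 96 L)))))) (F 771 (V (U (S (T L L) L) (S L (F 32 L))) (U (S (T L L) (S L L)) (T L L))))) (F 775 (T (V (U (T (S L L) L) (S L L)) (U (T (S L L) L) (S L L))) (V (U (S L L) L) (U (S L L) L))))))
noncomputable def v9_34 : Tr := (U (V (S (T (V (S (U (S L (F 64 L)) (F 64 L)) (U (F 64 L) (F 65 L))) (U (S (T L (F 1 L)) L) (S L (F 65 L)))) (V (F 65 (U (S L (F 1 L)) L)) (U (S (F 1 L) (F 65 L)) (F 1 L)))) (T (V (U (F 64 L) (F 65 L)) (F 65 (U (K 4) L))) (F 65 (U (K 4) (S L (F 5 L)))))) (S (T (V (U (S (T (S L (F 1 L)) L) (T (F 1 L) (F 65 L))) (T (S (F 1 L) (F 65 L)) (F 1 L))) (U (S (T (V (F 1 L) (F 1 L)) (S (F 1 L) (F 1 L))) (T (S (F 1 L) (F 65 L)) (F 1 L))) (S (T (F 1 L) (F 9 L)) (S (F 1 L) (F 65 L))))) (V (U (S (S (F 1 L) (F 1 L)) (F 1 L)) (F 9 (S L (F 1 L)))) (S (U (S (F 1 L)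 (F 1 L)) (F 9 L)) (T (F 1 L) (F 9 L))))) (T (V (F 65 (U (F 15 (T (K 0) (K 0))) (S L (F 4 L)))) (U (S (S (F 1 L) (K 1)) (K 1)) (F 65 (S L (F 4 L))))) (F 73 (V (U (K 3) L) (U (S L (K 3)) L)))))) (V (S (T (V (S (T (F 1 L) (F 65 L)) (F 65 (S L L))) (F 65 (U (S L L) L))) (V (F 65 (S L (F 4 L))) (F 9 (S L (F 1 L))))) (F 65 (T (U (S L L) L) (S L (F 4 L))))) (S (T (V (U (S (F 1 L) (F 65 L)) (F 1 L)) (U (S (F 1 L) (F 65 L)) (F 1 L))) (F 9 (V (S L (F 1 L)) (S L L)))) (T (V (F 65 (S L L)) (S (F 1 L) (F 65 L))) (F 65 (V L (S (F 4 L) (F 4 L))))))))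
noncomputable def v9_35 : Tr := (V (S (T (V (F 776 (U (U (K 3) (S L (S (F 64 L) (F 96 L)))) (S (T L (F 64 L)) (T (F 64 L) (F 96 L))))) (U (T (V (F 776 (S L L)) (S (F 264 L) (F 776 L))) (F 776 (S (S L L) (S L (F 64 L))))) (S (T (F 768 L) (F 770 L)) (S (F 768 L) (F 769 L))))) (F 769 (U (V (F 80 (U (K 1) (S L (F 1 L)))) (T (S (T (F 16 L) (F 80 L)) (F 80 (S L L))) (F 80 (S L L)))) (V (F 80 (S (S L L) L)) (T (S (F 64 L) (F 80 L)) (F 80 (S L (F 1 L)))))))) (F 769 (T (U (V (F 48 (U (K 1) (T L (F 1 L)))) (S (T (S (F 16 L) (F 48 L)) (F 80 (S L (F 1 L)))) (F 48 (T L (F 1 L))))) (V (F 48 (T (S L (F 1 L)) (F 1 L))) (S (S L (F 64 L)) (F 112 (T L L))))) (F 80 (U (V (S (F 1 L) (F 1 L)) (S L (F 1 L))) (V (F 1 L) (S L (F 1 L)))))))) (S (T (V (U (S (T (S (F 768 L) (F 768 L)) (F 256 L)) (T (F 256 L) (F 257 L))) (S (T (S (F 768 L) (F 768 L)) (F 768 L))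 (T (F 768 L) (F 769 L)))) (U (T (S (S (F 768 L) (F 768 L)) (F 256 L)) (S (F 256 L) (F 768 L))) (T (S (S (F 768 L) (F 768 L)) (F 768 L)) (S (F 768 L) (F 769 L))))) (V (U (S (T (F 768 L) (F 771 L)) (F 259 (U L (F 1 L)))) (F 770 (T (S L (F 64 L)) (S (F 64 L) (F 80 L))))) (U (S (T (F 768 L) (F 770 L)) (F 259 (U (S L (F 1 L)) (S (F 1 L) (F 1 L))))) (F 770 (S (T L (F 64 L)) (T (F 64 L) (F 64 L))))))) (T (V (T (U (U (F 257 L) (F 769 L)) (F 769 (S L (F 32 L)))) (F 769 (U (S L (F 96 L)) (S (F 64 L) (F 96 L))))) (U (S (T (F 768 L) (F 769 L)) (F 769 (T L (F 64 L)))) (F 769 (S (T L (F 64 L)) (S L (F 64 L)))))) (F 771 (V (U (T L (F 32 L)) (S L (F 32 L))) (U (S (S L L) L) (S L (F 32 L))))))))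
noncomputable def v9_36 : Tr := (V (U (V (F 776 (T (S (T (S L (F 96 L)) (F 96 (S L (F 1 L)))) (F 112 (U (S L L) L))) (F 96 (S (S L (F 1 L)) (F 1 L))))) (S (T (S (S (F 768 L) (F 768 L)) (F 769 (S L L))) (F 771 (S L (F 16 L)))) (F 771 (T (S L (F 32 L)) (F 32 L))))) (V (F 777 (T (S (T (S L (F 32 L)) (S (F 32 L) (F 48 L))) (F 48 (T L L))) (S (F 32 L) (F 48 L)))) (S (T (S (F 768 L) (F 769 (S L (F 64 L)))) (F 771 (S L (F 16 L)))) (F 775 (T (S L (F 16 L)) L))))) (S (T (V (U (T (S (F 768 L) (F 769 L)) (S (F 768 L) (F 771 L))) (S (S (F 768 L) (F 768 L)) (F 769 (S L L)))) (U (S (T (F 768 L) (F 770 L)) (S (F 768 L) (F 768 L))) (S (S (F 768 L) (F 768 L)) (F 768 L)))) (F 770 (V (U (S (S (F 64 L) (F 64 L)) (F 64 L)) (S (F 64 L) (F 64 L))) (U (S (S L (F 64 L)) (F 64 L)) (S (F 64 L) (F 64 L)))))) (F 769 (T (V (T (U L (F 32 L)) (U (F 64 L) (F 96 L)))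 (U (T L (F 64 L)) (T (F 64 L) (F 64 L)))) (V (F 96 (U (S L (F 1 L)) L)) (U (F 64 L) (F 64 L)))))))
noncomputable def v9_37 : Tr := (T (U (V (S (T (U (V (S (F 16 L) (F 18 L)) (T (F 16 L) (F 16 L))) (V (F 16 L) (S (F 16 L) (F 16 L)))) (U (S (F 16 L) (F 16 L)) (S (F 16 L) (F 16 L)))) (T (U (S (F 16 L) (F 16 L)) (F 16 L)) (T (F 16 L) (F 16 L)))) (T (S (V (U (T L (F 16 L)) (S L (F 16 L))) (U (T (S L (F 16 L)) L) (S L L))) (U (T L (F 16 L)) (S L (F 16 L)))) (S (V (U L (F 16 L)) (U L L)) (V (F 16 L) L)))) (V (T (S (V (U (F 16 L) (F 16 L)) (T L L)) (V (F 16 L) (F 16 L))) (S (U (F 16 L) (F 16 L)) (S (F 16 L) (F 16 L)))) (T (S (V (U L L) (U L L)) (V L L)) (S (U (S L (F 16 L)) L) (S L (F 16 L)))))) (U (V (S (T (V (F 16 L) (F 16 L)) (F 16 L)) (T (S (F 16 L) (F 16 L)) (F 16 L))) (S (T (U (S L (F 16 L)) L) (S (F 16 L) (F 16 L))) (T (S (F 16 L) (F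 16 L)) (F 16 L)))) (V (T (S (S (F 16 L) (F 16 L)) (F 16 L)) (F 20 (S L L))) (S (T (S L (F 16 L)) (F 16 L)) (T L (F 20 L))))))
noncomputable def v9_38 : Tr := (V (S (T (V (U (T (S (S (F 768 L) (F 768 L)) (S (F 768 L) (F 768 L))) (S (S (F 768 L) (F 768 L)) (F 768 L))) (T (S (F 768 L) (F 768 L)) (S (F 768 L) (F 769 L)))) (U (T (S (S (F 768 L) (F 768 L)) (S (F 768 L) (F 768 L))) (S (S (F 768 L) (F 768 L)) (F 768 L))) (S (T (F 768 L) (F 768 L)) (T (F 768 L) (F 769 L))))) (V (U (T (S (F 770 (S L L)) (F 769 L)) (F 770 (S L (F 64 L)))) (F 770 (S (T L (F 64 L)) (T (F 64 L) (F 64 L))))) (T (U (S (F 768 L) (F 769 L)) (F 770 (S L (F 64 L)))) (F 770 (U (S L (F 64 L)) (S (F 64 L) (F 64 L))))))) (T (V (U (T (S (S (F 768 L) (F 769 L)) (F 769 L)) (F 769 (S L (F 64 L)))) (S (S (F 768 L) (F 769 L)) (F 769 L))) (U (S (T (F 768 L) (F 769 L)) (F 769 (T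 L (F 64 L)))) (S (S (F 768 L) (F 769 L)) (F 769 L)))) (F 771 (V (U (T (S L (F 32 L)) L) (S L (F 32 L))) (U (S (T L L) L) (S L L)))))) (S (T (V (U (S (T (S (F 768 L) (F 768 L)) (S (F 768 L) (F 768 L))) (T (S (F 768 L) (F 768 L)) (F 768 L))) (T (S (F 768 L) (F 768 L)) (S (F 768 L) (F 769 L)))) (S (T (U (F 768 L) (F 768 L)) (U (F 768 L) (F 768 L))) (U (T (F 768 L) (F 768 L)) (S (F 768 L) (F 768 L))))) (T (V (U (S (F 768 L) (F 770 L)) (F 770 (S L (F 64 L)))) (U (S (F 768 L) (F 770 L)) (F 770 (S L (F 64 L))))) (F 770 (V (S (V L L) (V (F 64 L) (F 64 L))) (U (S L (F 64 L)) (S (F 64 L) (F 64 L))))))) (T (V (U (S (T (F 768 L) (F 769 L)) (F 769 (T L (F 64 L)))) (S (S (F 768 L) (F 769 L)) (F 769 L))) (S (U (T (F 768 L) (F 769 L)) (F 768 L)) (F 769 (U (T L (F 64 L)) L)))) (F 771 (V (U (S (T L L) L) (S L L)) (U (T (S L L) L) (S L L)))))))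
noncomputable def v9_39 : Tr := (V (S (T (V (U (T (S (F 768 L) (F 769 L)) (S (F 770 L) (F 769 L))) (S (S (F 768 L) (F 768 L)) (F 768 L))) (U (T (S (F 768 L) (F 769 L)) (S (F 770 L) (F 769 L))) (S (S (F 768 L) (F 768 L)) (F 768 L)))) (F 770 (V (U (S L (F 64 L)) (V (S (F 64 L) (F 68 L)) (F 64 L))) (U (S L (F 64 L)) (S (F 64 L) (F 64 L)))))) (F 769 (T (V (U (T (S (F 64 L) (F 96 L)) (F 64 L)) (S L (F 64 L))) (U (T L (F 64 L)) (S L (F 96 L)))) (V (U (S (F 64 L) (F 96 L)) (F 64 L)) (U (S (F 64 L) (F 96 L)) (F 64 L)))))) (S (T (V (U (T (S (F 768 L) (F 769 L)) (S (F 770 L) (F 769 L))) (S (F 768 L) (F 768 L))) (U (S (S (F 768 L) (F 768 L)) (F 768 L)) (S (F 768 L) (F 768 L)))) (F 770 (V (U (S L (F 64 L)) (S (F 64 L) (F 64 L))) (U (S L (F 64 L)) (S L (F 64 L)))))) (T (V (F 769 (U (T L (F 64 L)) (S L (F 96 L)))) (T (S (F 768 L) (F 769 L)) (F 769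 (S L (F 64 L))))) (F 771 (V (U (S L (F 32 L)) L) (U (S L (F 32 L)) L))))))
noncomputable def v9_40 : Tr := (T (U (V (S (T (V (U (T (F 32 L) (F 96 L)) (S (F 64 L) (F 96 L))) (U (F 96 (T (S L L) L)) (S (F 64 L) (F 96 L)))) (V (S (S (F 64 L) (F 96 L)) (F 96 L)) (U (F 64 L) (F 96 L)))) (F 96 (T (V (T L L) (T L L)) (V L L)))) (S (T (V (U (T L (F 64 L)) (S (F 64 L) (F 96 L))) (U (T (S (F 64 L) (F 96 L)) (F 64 L)) (S (F 64 L) (F 96 L)))) (V (U (F 64 L) (F 96 L)) (U (S (F 64 L) (F 96 L)) (F 96 L)))) (F 96 (T (V (T L L) (S L L)) (V L L))))) (V (F 96 (T (S (V (U (S L L) L) (U L L)) (V L L)) (S (V (S L L) (S L L)) (S L L)))) (S (T (V (F 96 (U (S L L) L)) (T (F 64 L) (F 64 L))) (S (T (F 64 L) (F 64 L)) (F 64 L))) (F 96 (T (V L L) (S L L)))))) (U (V (S (T (F 96 (V (S L L) (S L (F 4 L)))) (S (F 64 L) (F 100 L))) (F 96 (T (S L L) L))) (T (S (V (S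 (F 64 L) (F 96 L)) (S (F 64 L) (F 100 L))) (F 96 (T L L))) (S (T (F 64 L) (F 68 L)) (F 100 (S L L))))) (V (S (T (S (F 64 L) (F 96 L)) (F 100 (S L L))) (F 96 (T L (F 4 L)))) (T (S (S (F 64 L) (F 96 L)) (F 96 L)) (F 68 (S L (F 1 L)))))))
noncomputable def v9_41 : Tr := (V (S (T (U v9_35 v9_36) (F 771 (U (V (S (T (U (V (F 16 L) (S (F 16 L) (F 20 L))) (V (F 20 L) (F 16 L))) (F 20 (U (S L (F 1 L)) (F 1 (S L L))))) (F 48 (T (U (V (F 2 L) L) (S L (F 2 L))) (V (F 2 L) L)))) (S (T (V (U (S L (F 16 L)) (S (F 4 L) (F 16 L))) (U (S L L) (S L (F 4 L)))) (V (S (F 4 L) (F 4 L)) (T L (F 4 L)))) (T (V (S L (F 32 L)) (U L (F 32 L))) (V (F 32 L) L)))) (V (S (T (U (V (F 52 L) (F 16 L)) (S (F 20 L) (F 48 L))) (F 20 (U L (F 1 L)))) (F 48 (T (U (F 2 (S L L)) L) (F 2 (S L L))))) (S (T (V (U L (F 4 L)) (U L (F 4 L))) (U (F 20 (S L L)) (F 4 L))) (T (U (S L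 (F 32 L)) (S (F 32 L) (F 48 L))) (S (F 4 L) (F 36 L)))))))) (F 775 v9_37)) (S (T (U v9_38 v9_39) (F 771 (U (V (S (T (V (U (S (S L L) L) (S L (F 4 L))) (U (S (S L L) L) (S L (F 4 L)))) (V (S (F 4 L) (F 4 L)) (T L (F 4 L)))) (T (V (U (S (F 4 L) (F 32 L)) L) (U (S (F 4 L) (F 32 L)) L)) (V L (S (F 4 L) (F 36 L))))) (S (T (V (U (S (S L L) L) (S L (F 4 L))) (U (S (S L L) L) (S L (F 4 L)))) (V (T L (F 4 L)) (S (F 4 L) (F 4 L)))) (T (V (U (S (F 4 L) (F 4 L)) L) (S (S L L) L)) (V (S (F 4 L) (F 4 L)) (S (F 4 L) (F 4 L)))))) (V (T (S (V (U L (F 4 L)) (U L (F 4 L))) (V (S L (F 32 L)) L)) (S (V (S (F 4 L) (F 4 L)) (F 4 L)) (S (F 4 L) (F 4 L)))) (S (T (V (S L L) (S L L)) (V (F 4 L) (F 4 L))) (T (V (S (F 4 L) (F 4 L)) (S (F 4 L) (F 4 L))) (S (F 4 L) (F 4 L)))))))) (F 769 v9_40)))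
noncomputable def v9_42 : Tr := (S (T (U (V (F 49 (S (K 0) (T (K 0) (S L L)))) (S (T (V (T (K 3) (F 16 L)) (U (F 17 (S L L)) L)) (F 17 (V (F 1 (S L L)) (S L L)))) (T (V (F 17 (S L (F 1 L))) (U (F 16 L) (F 49 L))) (F 49 (V L (S L L)))))) (V (F 17 (S (T (V (F 1 (S L L)) (S L (F 1 L))) (F 1 (S L L))) (F 1 (T (V L L) L)))) (S (F 17 (T (V (S L (F 1 L)) (S L L)) (S L L))) (T (V (F 49 (S L L)) (F 1 L)) (F 49 (S L L)))))) (F 49 (U (V (S (T (S L L) L) (T L L)) (S (T (V L (K 1)) (K 1)) (U (K 1) (S L L)))) (V (S (T L L) (S L L)) (S (T (S L L) L) (T L L)))))) (F 49 (T (U (V (S (U (K 0) (S L L)) (U (K 2) (S L L))) (S (T (V L (S L L)) (S L L)) (U (K 2) (S L (K 2))))) (V (S (U (S L L) L) (S L L)) (S (U (S L L) L) (S L L)))) (U (V (S (S L L) (S L (K 2))) (S (T L L) (U (K 2) (S L L)))) (V (S (S L L) (S L L)) (S (S L L) (S L L)))))))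
noncomputable def v9_43 : Tr := (T (U (V (S (T (V (U (S L (F 1 L)) (S (F 1 L) (F 17 L))) (U (S (S (F 1 L) (F 1 L)) L) (S (F 1 L) (F 1 L)))) (U (K 2) (S (F 1 L) (F 1 L)))) (T (V (S (S (F 1 L) (F 1 L)) (F 1 L)) (U (F 59 (S (K 0) (K 0))) (S (F 1 L) (F 33 L)))) (F 17 (U (K 2) (S L (F 1 L)))))) (S (T (V (U (F 59 (S (K 0) (K 0))) (S (F 1 L) (F 1 L))) (U (K 2) (S (F 1 L) (F 1 L)))) (K 2)) (T (U (K 2) (V (S (F 1 L) (F 33 L)) (S (F 1 L) (F 1 L)))) (K 2)))) (V (S (T (V (S (F 1 L) (F 1 L)) (S (F 1 L) (F 1 L))) (V (F 1 L) (F 1 L))) (T (V (S (F 1 L) (F 33 L)) (S (F 1 L) (F 33 L))) (S (F 1 L) (F 33 L)))) (S (T (V (S (F 1 L) (F 1 L)) (S (F 1 L) (F 1 L))) (V (F 1 L) (F 1 L))) (T (V (S (F 1 L) (F 1 L)) (S (F 1 L) (F 1 L))) (S (F 1 L) (F 1 L)))))) (U (K 2) (V (S (T (S (F 1 L) (F 17 L)) (F 17 (S L L))) (F 17 (T (S L (F 1 L)) (F 1 (S L L))))) (S (T (S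 (F 1 L) (F 1 L)) (S (F 1 L) (K 2))) (U (K 2) (S (F 1 L) (F 33 L)))))))
noncomputable def v9_44 : Tr := (V (S (T (U (V (F 17 (S (T (S L (F 1 L)) (F 1 L)) (F 1 (U L L)))) (S (T (S (F 1 L) (F 1 L)) (F 17 (S L (F 1 L)))) (F 17 (T (S L (F 1 L)) (F 1 L))))) (V (F 49 (S (U (S L L) L) (S L L))) (S (U (F 1 L) (F 1 L)) (F 33 (T L (F 1 L)))))) (F 17 (U (F 1 (V (S (S L L) L) (S (T L L) (S L L)))) (V (F 1 (S L L)) (S (S L (F 1 L)) (F 1 (S L L))))))) (F 49 (T (U (V (S (S L L) (S L L)) (S (S L L) (S L L))) (V (S (S L L) L) (S (S L L) L))) (U (V (S L L) (S (S L L) L)) (V (S L L) (S L L)))))) (S (T (U (V (S (T (V (F 1 L) (F 1 L)) (S (F 1 L) (F 1 L))) (T (S (F 1 L) (F 1 L)) (F 1 L))) (S (T (V (F 1 L) (F 1 L)) (S (F 1 L) (F 1 L))) (T (S (F 1 L) (F 1 L)) (F 1 L)))) (V (S (T (S (F 1 L) (F 1 L)) (F 1 L)) (T (F 1 L) (F 33 L))) (S (T (S (F 1 L) (F 1 L)) (F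 1 L)) (T (F 1 L) (F 33 L))))) (U (V (S (T (F 1 L) (F 17 L)) (S (F 1 L) (F 33 L))) (S (T (F 1 L) (F 1 L)) (F 33 (T L L)))) (V (S (S (F 1 L) (F 1 L)) (F 33 (S L (F 1 L)))) (S (S (F 1 L) (F 1 L)) (S (F 1 L) (F 33 L)))))) (T (U (V (F 33 (S (T (S L (F 1 L)) L) (S L L))) (S (T (F 1 L) (F 33 L)) (F 33 (T L L)))) (V (F 33 (S (S L L) L)) (S (S (F 1 L) (F 33 L)) (F 33 (S L L))))) (F 33 (U (V (S (S L (F 1 L)) (F 1 (S L L))) (T (S L (F 1 L)) (S L (F 1 L)))) (V (S L (F 1 (S L L))) (T L (F 1 (S L L)))))))))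
noncomputable def v9_45 : Tr := (S (T (U (V (S (T (V (U (S L (K 1)) (S (F 1 L) (F 33 L))) (U (T L (K 1)) (S (F 1 L) (F 1 L)))) (U (K 1) (V (F 33 L) (F 1 L)))) (T (V (S (F 1 L) (K 1)) (K 1)) (K 1))) (S (T (U (K 1) (V (S (F 1 L) (F 1 L)) (S (F 1 L) (F 1 L)))) (U (K 1) (V (F 1 L) (S (F 1 L) (K 1))))) (K 1))) (V (T (S (V (S (F 1 L) (F 1 L)) (S (F 1 L) (F 1 L))) (V (F 1 L) (F 1 L))) (S (V (F 1 L) (F 1 L)) (S (F 1 L) (F 33 L)))) (S (T (V (S (F 1 L) (F 1 L)) (S (F 1 L) (F 1 L))) (V (F 1 L) (S (F 1 L) (F 1 L)))) (T (V (F 1 L) (F 1 L)) (S (F 1 L) (F 1 L)))))) (U (V (K 1) (S (U (K 1) (U (K 1) (T (F 1 L) (F 9 L)))) (K 1))) (V (S (T (S (F 1 L) (F 33 L)) (F 1 L)) (T (F 1 L) (F 33 L))) (T (S (V (F 1 L) (F 1 L)) (S (F 1 L) (F 9 L))) (F 9 (S (S L L) (S L L))))))) (T (U (K 1) (V (T (S (S (F 1 L) (F 33 L)) (F 1 L)) (S (F 1 L) (K 1))) (S (U (K 1) (S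 (F 1 L) (F 1 L))) (K 1)))) (F 9 (U (K 3) (U (K 3) (S (V (F 1 L) L) (K 3)))))))
noncomputable def v9_46 : Tr := (V (S (T (U (V (F 33 (T (S (S L L) L) (S L L))) (T (S (S (F 1 L) (F 33 L)) (F 33 (S L L))) (F 33 (S (S L L) L)))) (V (F 33 (T (S L (F 4 L)) (S L L))) (T (S (F 1 L) (F 33 L)) (F 33 (S L L))))) (F 33 (U (V (S (T L (F 2 L)) (S L L)) (S (T L (F 2 L)) (S L L))) (V (S (S L L) (S L L)) (S (S L L) (F 2 (S L L))))))) (F 33 (T (U (V (F 4 (T (S L L) (S L L))) (T (S L L) (S L L))) (V (T L (F 4 (S L L))) (T (S L (F 4 L)) (S L L)))) (U (V (S (T L (F 2 L)) (T L (F 2 L))) (S (S L (F 2 L)) (F 2 (S L L)))) (V (S (S (F 2 L) L) (S L L)) (S L (F 2 (S L L)))))))) (S (T (U (V (T (S (V (F 1 L) (F 1 L)) (S (F 1 L) (F 33 L))) (S (S (F 1 L) (F 1 L)) (F 1 L))) (S (T (T (F 1 L) (F 1 L)) (S (F 1 L) (F 1 L))) (T (F 1 L) (F 1 L)))) (V (T (S (S (F 1 L) (F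 1 L)) (F 1 L)) (S (F 1 L) (F 33 L))) (S (T (F 1 L) (F 1 L)) (S (F 1 L) (F 1 L))))) (U (V (S (T (F 1 L) (F 9 L)) (F 9 (S L L))) (T (S (F 1 L) (F 9 L)) (F 9 (S L L)))) (F 9 (V (S (S L L) (S L (F 1 L))) (T (S L L) (S L L)))))) (T (U (V (T (S (F 1 L) (F 33 L)) (F 33 (S L L))) (S (T (F 1 L) (F 1 L)) (S (F 1 L) (F 1 L)))) (V (F 33 (T (S L L) (S L L))) (S (S (F 1 L) (F 1 L)) (F 1 L)))) (F 9 (U (V (F 1 (S (S L L) (S L L))) (S (S L L) (S L L))) (V (S L (F 1 L)) (S L L)))))))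
noncomputable def v9_47 : Tr := (V (F 36 (S (T (F 8 (U (K 0) (V (S (S L L) (S L L)) (S (S L L) (S L L))))) (U (K 2) (V (F 8 (S (S L L) (U (K 0) L))) (S (F 8 (T L L)) (T (F 8 L) L))))) (T (F 8 (U (K 0) (S (V (T L (K 0)) (K 0)) (K 0)))) (U (K 2) (V (F 8 (S (U (K 0) (S L (K 0))) (K 0))) (U (K 2) (S (S (F 8 L) L) (S L (K 2))))))))) (S (T (F 5 (U (V (K 3) (S (U (K 3) (T L (F 1 L))) (K 3))) (V (F 1 (S (T L L) (S L L))) (S (T L L) (T L L))))) (U (F 37 (V (S (T (S L (K 2)) (K 1)) (K 2)) (F 5 (S (K 0) (K 0))))) (V (F 36 (S (T (F 8 L) L) (T (F 8 L) L))) (S (T (F 5 L) (F 36 (S (F 8 L) L))) (T (F 4 L) (F 36 (S L L))))))) (T (F 5 (U (K 3) (U (K 3) (V (F 1 (S L (K 0))) (S L (F 1 (S L L))))))) (F 36 (U (V (K 2) (S (T (K 2) (S (K 1) L)) (K 2))) (V (S (T L (S L L)) (U (K 2) (S L L))) (S (T (S L L) (F 1 (S L L))) (F 1 (T (S L L) (S L L))))))))))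
noncomputable def v9_48 : Tr := (V (S (F 33 (T (F 4 (U (V (S (S L L) L) (S L L)) (V (S L L) (S L L)))) (U (F 4 (V (S (S L L) (S L L)) (S (S L L) (S L L)))) (V (S (F 4 L) L) (F 4 (S L (S L L))))))) (T (F 33 (U (V (S (F 4 (S L L)) (S (F 4 L) L)) (F 4 (S L L))) (V (S (F 4 L) L) (F 4 (S L L))))) (U (V (S (F 33 (S L L)) (S (F 32 L) (F 32 L))) (F 36 (S (T (F 8 L) L) (T L L)))) (V (F 33 (S (S (F 4 L) L) (S L L))) (S (F 36 (S (F 8 L) L)) (S (F 36 L) (F 32 L))))))) (S (T (F 5 (U (V (S L (F 1 L)) (S (S L L) (S L L))) (V (F 1 (S L L)) (S L L)))) (U (F 36 (V (S (F 8 (S L L)) (S (F 8 L) L)) (T (F 8 (S L L)) (S (F 8 L) L)))) (F 5 (V (F 1 (S (S L L) (S L L))) (T L (F 1 (S L L))))))) (T (U (V (F 37 (S (S L L) (S L L))) (S (F 5 (S L L)) (F 36 (T (F 8 L) L)))) (F 5 (V (F 1 (S L (S L L))) (S L (S (F 1 L) L))))) (F 36 (U (V (S (T (F 8 L) L) (T L L)) (S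 (T L L) (T L (F 1 L)))) (V (S (S L L) (T L L)) (S (T (F 8 L) (F 1 L)) (S L L))))))))
noncomputable def v9_49 : Tr := (S (F 1068 (T (U (V (S v9_13 v9_14) (S (T (U v9_22 v9_25) (U v9_28 v9_29)) (T (U (V v9_30 v9_32) v9_33) (F 259 v9_34)))) v9_41) (F 291 (U (V v9_42 (S v9_43 (T (U (V (S (T (V (F 33 (S L (F 1 L))) (S (S (F 1 L) (F 33 L)) (F 33 L))) (F 33 (U (K 2) L))) (F 33 (U (K 3) (T L (F 1 L))))) (F 33 (S (U (K 2) (T (V L L) (K 2))) (U (K 2) (T (S L L) (K 2)))))) (V (S (T (S (F 1 L) (F 33 L)) (F 33 (S L (F 1 L)))) (F 49 (T (S L L) L))) (S (T (V (F 1 L) (F 1 L)) (S (F 1 L) (F 33 L))) (F 33 (T (S L L) (S L L)))))) (F 33 (U (F 11 (V (S (K 0) (S (K 0) (K 0))) (K 0))) (V (S (T L (F 1 L)) (F 1 (T L L))) (T (S (S L L) L) (F 1 (U (K 1) (S L L)))))))))) v9_44)))) (F 15370 (T (F 80 (U (V (S (T (U (V (F 33 (S (K 0) (T (K 0) (S (K 0) L)))) (S (T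 (V (F 33 (S (K 0) L)) (U (F 33 (S (K 0) L)) (F 32 L))) (F 33 (V (S L L) (T L L)))) (F 33 (U (K 3) (T (S L L) L))))) (V (F 33 (T (S (V L L) (S L (F 4 L))) (S (S L L) L))) (T (S (V (F 33 (S L L)) (S (F 1 L) (F 33 L))) (F 33 (S L L))) (S (V (F 33 L) (F 1 L)) (F 33 (S L L)))))) (F 33 (U (V (S (V (K 0) (T L (F 2 L))) (T (S L (K 3)) (K 3))) (S (T (U (K 3) L) (K 3)) (K 3))) (V (S (T L L) (T L L)) (S (T (S L L) L) (T L (F 2 L))))))) (F 33 (T (U (V (T (S (S L (F 4 L)) (F 4 (S L (K 0)))) (S (S L (K 3)) (K 3))) (K 3)) (V (T (S L (F 4 L)) (S L L)) (T (S (S L L) L) (S L L)))) (U (K 3) (V (S (T L L) (T (S L L) (K 3))) (S (T L (F 2 L)) (K 3))))))) v9_45) v9_46)) (F 132 (U v9_47 v9_48)))))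
noncomputable def v9_50 : Tr := (V (U (T (U (S (V (F 649 (T L (F 32 L))) (F 642 (S L (F 64 L)))) (F 647 (V (S (F 16 L) (F 16 L)) (S L (F 16 L))))) (F 643 (V (S (S (F 16 L) (F 48 L)) (F 48 L)) (S (S L L) (F 32 L))))) (F 643 (S (U (V (F 16 L) L) (S (F 16 L) (F 16 L))) (F 48 (U (V (F 2 L) L) (S L (F 2 L))))))) (F 643 (U (S (T (V (F 32 L) L) (S (F 4 L) (F 48 L))) (T (S (F 32 L) (F 48 L)) (F 48 L))) (T (S (F 32 L) (F 32 L)) (F 36 (S L (F 1 L))))))) (U (S (U (T (V (S (F 640 L) (F 641 (S L (F 64 L)))) (S (F 640 L) (F 641 L))) (F 643 (V (S L (F 32 L)) (S L L)))) (F 641 (T (V (S L (F 64 L)) (S L (F 64 L))) (V (F 64 L) (F 64 L))))) (F 643 (T (U (V (S L (F 32 L)) (S L (F 32 L))) (V (S (F 32 L) (F 32 L)) (S (F 32 L) (F 32 L)))) (U (S L (F 32 L)) (S (F 32 L) (F 32 L)))))) (F 641 (U (S (V (T (S (F 64 L) (F 96 L)) (F 68 L)) (T (S L (F 64 L)) (F 68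 L))) (F 96 (T (V L L) (S L (F 4 L))))) (T (S (T L (F 64 L)) (F 96 (S L L))) (S (F 64 L) (F 96 L)))))))
noncomputable def v9_51 : Tr := (S (T v9_50 (F 643 (V (U (S (F 20 (T (U (S L (F 1 L)) L) (S L (F 1 L)))) (F 48 (T (V (F 2 L) L) (F 2 (S L L))))) (F 36 (U (T (V (F 1 L) L) (F 1 (S L L))) (F 1 (S (S L L) L))))) (U (S (T (U (T L (F 4 L)) (S (F 4 L) (F 36 L))) (S (F 4 L) (F 4 L))) (T (S L (F 32 L)) (F 36 (S L L)))) (S (T (V (F 4 L) (F 4 L)) (F 4 L)) (T (S (F 32 L) (F 36 L)) (F 36 L))))))) (F 647 (T (V (U (T (S (U (S (F 16 L) (F 16 L)) (F 16 L)) (S (F 16 L) (F 16 L))) (S (V (F 16 L) (F 16 L)) (F 16 L))) (U (S (T (F 16 L) (F 20 L)) (F 16 L)) (S (F 16 L) (F 16 L)))) (U (T (S (U (T L L) (S L (F 16 L))) (S L L)) (S (V L L) L)) (S (T (V L L) (S L L)) (T L L)))) (U (V (S (T (F 16 L) (F 20 L)) (S (F 16 L) (F 16 L))) (T (S (S L (F 16 L)) (F 16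 L)) (S (F 4 L) (F 20 L)))) (V (F 20 (T (S L L) (S L L))) (T (S (F 4 L) (F 4 L)) (F 20 (S L L))))))))
noncomputable def v9_52 : Tr := (T (V (U (T (S (V (U (S (F 640 L) (F 641 L)) (F 641 (S L (F 64 L)))) (U (S (F 640 L) (F 641 L)) (F 640 L))) (F 643 (V (U (S L (F 32 L)) L) (U (S L (F 32 L)) L)))) (F 643 (S (U (V (S L L) (S L L)) (V L L)) (U (T L L) L)))) (S (U (T (S (S (F 640 L) (F 640 L)) (F 641 (T L (F 64 L)))) (F 643 (V (F 4 L) L))) (F 643 (T (V L L) L))) (F 643 (T (U (T L L) (S L (F 32 L))) (U L (F 32 L)))))) (U (S (T (U (V (S (F 640 L) (F 641 L)) (S (F 640 L) (F 641 L))) (V (F 640 L) (F 640 L))) (F 643 (U (V (S L (F 4 L)) (S L (F 4 L))) (V L L)))) (F 641 (T (U (V (S (F 64 L) (F 96 L)) (S (F 64 L) (F 96 L))) (T L (F 64 L))) (U (S (F 64 L) (F 64 L)) (S (F 64 L) (F 96 L)))))) (F 641 (T (S (U (V L L) (V (F 64 L) (F 64 L))) (U (T (F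 64 L) (F 64 L)) (F 64 L))) (S (U (S (F 64 L) (F 64 L)) (F 64 L)) (V (F 64 L) (F 64 L))))))) (F 643 (V (U (S (T (V (S (F 4 L) (F 4 L)) L) (S (F 4 L) (F 4 L))) (T (S L L) (F 4 L))) (T (S (T L (F 4 L)) L) (S (F 4 L) (F 36 L)))) (U (S (T (U (S L (F 4 L)) (S (F 4 L) (F 4 L))) (S (F 4 L) (F 4 L))) (T (S L L) (F 4 L))) (S (T (V (F 4 L) (F 4 L)) (F 4 L)) (T (S (F 4 L) (F 36 L)) (F 36 L)))))))
noncomputable def v9_53 : Tr := (U (S v9_52 (F 643 (T (V (U (T (S (U (T (F 32 L) (F 32 L)) (F 32 L)) (S (F 32 L) (F 32 L))) (S (V (F 32 L) (F 32 L)) (F 32 L))) (T (S (V (F 32 L) (F 32 L)) (F 32 L)) (S (S (F 32 L) (F 32 L)) (F 32 L)))) (U (S (T (U (S L (F 32 L)) (S (F 32 L) (F 32 L))) (S L (F 32 L))) (T (S (F 32 L) (F 32 L)) (F 32 L))) (S (T (V (F 32 L) (F 32 L)) (S (F 32 L) (F 36 L))) (T (F 32 L) (F 36 L))))) (V (U (S (T (S (F 32 L) (F 36 L)) (F 36 L))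 (F 36 (S L L))) (F 36 (S (T L L) L))) (U (T (S (S (F 32 L) (F 36 L)) (F 36 L)) (F 36 (S L L))) (F 36 (S (T L L) (S L L)))))))) (F 643 (S (T (U (V (S (U (V L L) (T L (F 36 L))) (U (T (F 32 L) (F 36 L)) (S (F 32 L) (F 32 L)))) (S (U (V (S L L) (S L (F 4 L))) (T L (F 4 L))) (T (V (F 32 L) (F 32 L)) L))) (V (U (T (F 32 L) (F 36 (S L L))) (F 36 (S L L))) (U (S (S (F 4 L) (F 4 L)) (F 32 L)) (F 36 (S L L))))) (U (V (S (V (F 4 L) (F 4 L)) (F 36 (T L L))) (T (S (F 4 L) (F 36 L)) (F 36 (S L L)))) (V (S (F 4 L) (F 36 L)) (S (F 4 L) (F 36 L))))) (U (T (V (U (S (F 32 L) (F 32 L)) (S (F 32 L) (F 36 L))) (S (T (F 32 L) (F 36 L)) (S (F 32 L) (F 36 L)))) (F 36 (V (S L L) (S L L)))) (T (V (S (F 32 L) (F 36 L)) (S (F 32 L) (F 36 L))) (F 36 (V L L)))))))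
noncomputable def v9_54 : Tr := (V (U (S (T (U (V (F 24 (S (T L L) (S L L))) (S (S L L) (S (F 16 L) (F 24 L)))) (V (F 24 (U (S L L) L)) (S L (F 16 L)))) (F 24 (U (V (S L L) (S (S L L) L)) (S (V L L) (S L L))))) (F 24 (T (U (V (S L L) (S L L)) (S (V L L) (S L L))) (U (V (S L L) (S L L)) (V (S L L) (S L L)))))) (S (U (T (V (F 24 (S L L)) (S (F 16 L) (F 24 L))) (F 24 (S (S L L) L))) (T (V (F 24 L) (F 16 L)) (F 24 (S L L)))) (F 24 (U (T (V L (S L L)) (S L L)) (T (S L L) L))))) (U (S (T (V (U (T (S L (F 16 L)) (S (F 16 L) (F 16 L))) (S (S L L) (S (F 16 L) (F 16 L)))) (U (S (T L L) (S L L)) (S (S L L) L))) (U (V (S (S L (F 16 L)) (F 16 L)) (S L L)) (V (S L (F 24 L)) (S L (F 16 L))))) (T (U (V (S (S (F 16 L) (F 16 L)) (F 16 L)) (T (S (F 16 L) (F 16 L)) (F 16 L))) (V (S (F 16 L) (F 24 L)) (S (F 16 L) (F 16 L)))) (U (V (F 24 (S L L)) (S (F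 16 L) (F 16 L))) (V (F 24 (S L L)) (S (F 16 L) (F 24 L)))))) (S (T (U (V (S L (F 16 L)) (S L (F 16 L))) (V (S (F 16 L) (F 24 L)) (S (F 16 L) (F 16 L)))) (U (V (S (F 16 L) (F 24 L)) (S (F 16 L) (F 16 L))) (T (F 16 L) (F 16 L)))) (U (T (V (F 16 L) (S (F 16 L) (F 16 L))) (T (F 16 L) (F 16 L))) (T (S (F 16 L) (F 24 L)) (F 24 (S L L)))))))
noncomputable def v9_55 : Tr := (V (U (S (T (U (V (T (S (F 1 L) (F 9 L)) (S (F 1 L) (F 9 L))) (T (S L (F 1 L)) (S (F 1 L) (F 1 L)))) (V (S (S (F 1 L) (F 1 L)) (F 1 L)) (T (S (F 1 L) (F 1 L)) (S (F 1 L) (F 1 L))))) (U (V (S (F 5 (S L L)) (F 1 L)) (S (S (F 1 L) (F 5 L)) (F 5 (S L L)))) (V (T (F 1 L) (F 5 L)) (S (F 4 L) (F 5 L))))) (T (U (V (S (S (F 1 L) (F 1 L)) (F 9 (S L L))) (T (F 9 (S L L)) (S (F 1 L) (F 9 L)))) (T (V (F 9 L) (F 1 L)) (V (F 1 L) (F 1 L)))) (U (V (S (F 1 L) (F 5 (S L L))) (F 5 (S L L)))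 (F 5 (V (S L L) (S L L)))))) (S (U (T (V (S (F 1 L) (F 9 L)) (S L (F 1 L))) (S (T (F 1 L) (F 5 L)) (F 5 (S L L)))) (T (S (S (F 1 L) (F 1 L)) (F 1 L)) (F 5 (S L L)))) (U (T (T (F 9 (S L L)) (S (F 1 L) (F 9 L))) (F 5 (U (S L L) L))) (T (T (F 9 L) (F 1 L)) (F 5 (S L (F 2 L))))))) (U (S (T (U (V (S (T L L) (S L L)) (S (T L (F 4 L)) (S L L))) (V (S (S L L) L) (T (S L (F 4 L)) L))) (U (V (S (S (F 4 L) (F 4 L)) (F 4 L)) (T L (F 4 L))) (V (S (F 4 L) (F 5 L)) (S (F 4 L) (F 4 L))))) (T (U (V (T (S (F 1 L) (F 1 L)) L) (S L L)) (V (S L L) (S L (F 4 L)))) (U (V (F 5 (S L L)) (S (F 4 L) (F 4 L))) (V (F 5 (S L L)) (S (F 4 L) (F 5 L)))))) (S (U (T (V (S L L) (S L (F 4 L))) (V (F 4 L) (S (F 4 L) (F 4 L)))) (T (V L L) (S (F 4 L) (F 5 L)))) (U (T (V (S (F 4 L) (F 1 L)) L) (S (F 4 L) (F 4 L))) (T (S L (F 4 L)) (F 5 (S L L)))))))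
noncomputable def v9_56 : Tr := (V (F 80 (U (S (F 20 (U (T (V (S L L) (S L L)) (V (S L L) (S L L))) (T (S (S L L) L) (S (S L L) (V L L))))) (T (U (V (S (F 20 L) (F 16 L)) (F 20 (S L L))) (F 20 (V (S L L) (S L L)))) (U (V (S (F 16 L) (S (F 16 L) (F 16 L))) (S (F 20 (S L L)) (S (F 4 L) (F 4 L)))) (S (F 20 (V L L)) (V (F 16 L) (F 4 L)))))) (U (S (F 20 (T (S L L) (V L L))) (T (F 20 (S L L)) (S (F 20 (S L L)) (S (F 16 L) (F 16 L))))) (F 20 (S (T L (S L L)) (T L (S L L))))))) (F 20 (U (S (T (U (V (F 17 (S L L)) (S (F 16 L) (F 16 L))) (V (F 16 L) (S (F 16 L) (F 17 L)))) (U (V (F 17 (S L (S L L))) (S (F 16 L) (F 16 L))) (F 17 (V (S L L) (S L L))))) (T (U (V (F 17 (S L L)) (S (F 16 L) (F 16 L))) (F 17 (V (S L L) (S L L)))) (U (V (S (S (F 17 L) (F 1 L)) (S (F 1 L) (F 1 L))) (S (S (F 1 L) (F 1 L)) (S (F 1 L) (F 1 L)))) (S (V (F 17 (S L L)) (F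 1 L)) (V (F 1 L) (F 3 (S L L))))))) (S (U (T (S (F 16 L) (F 16 L)) (V (F 17 (S L L)) (F 16 L))) (F 17 (T (S L L) (S L L)))) (U (T (V (F 17 L) (F 16 L)) (S (T (F 17 L) (F 3 L)) (T (F 17 L) (F 3 L)))) (T (F 17 (S L (F 4 L))) (T (F 17 L) (F 3 L))))))))
noncomputable def treeV9 : Tr := (F 0xfffffffffffffffffffffffffffffffffff9fff7e73fde677b (V (F 8707 v9_11) (U v9_49 (F 1035 (S (T (V (U v9_51 (F 643 (S (U (T (V (U (U (S (F 36 L) (F 48 L)) (F 36 L)) (F 36 (S L (F 1 L)))) (U (S (T (S L L) (F 4 L)) (T (F 32 L) (F 36 L))) (S (T (F 32 L) (F 36 L)) (F 32 L)))) (V (F 52 (U (S L L) (S L L))) (U (S (F 4 L) (F 36 L)) (F 36 (S L (F 1 L)))))) (F 36 (T (V (S (F 4 L) L) (U (S L L) L)) (V (F 1 (S L L)) (S L L))))) (U (T (V (F 48 (U (S L (F 4 L)) L)) (U (S (F 32 L) (F 48 L)) (S (F 36 L) (F 48 L)))) (F 36 (V (F 1 (S L L)) (S L (F 1 L))))) (T (V (F 48 (S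 (F 2 L) (F 4 L))) (S (F 32 L) (F 36 L))) (F 36 (V (F 1 (S L L)) L))))))) v9_53) (F 675 v9_54)) (F 7 (T (F 5 v9_55) v9_56)))))))

theorem pV9 : chkV par treeV9 128 128 128 128 256 256 349525 699051 Lc = true := by decide +kernel

noncomputable def v10_0 : Tr := (V (S (T (F 7 (U (K 1) (U (K 1) (V L (S L L))))) (U (T (K 6) (S (F 7 (U (K 1) (V L L))) (V (F 7 (U (K 1) (S L L))) (S (F 1 L) (F 3 (S L L)))))) (F 7 (S (V (S L L) (S L L)) (V (T L (S L L)) (T L (S L L))))))) (T (F 7 (S (U (K 1) (V L L)) (V (U (K 1) (S L L)) (U (U (K 1) (S (K 1) L)) (S L L))))) (U (V (S (T (F 3 (S (K 1) L)) (S (F 3 (S L L)) (S (F 2 L) (F 2 L)))) (T (S (F 6 L) (F 3 L)) (F 3 (V (S L L) (S L L))))) (F 3 (S (T (S L L) (V (S L L) (S L L))) (T (S L L) (V (S L L) (S L L)))))) (F 3 (S (V (T (F 32 L) (S (F 32 L) (F 32 L))) (T (F 32 L) (S (F 32 L) L))) (V (T L (S L L))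 (T L (S L L)))))))) (S (T (F 7 (U (K 1) (V (S L L) (S (F 8 L) L)))) (U (V (S (F 7 (U (K 1) (S L L))) (T (F 7 (S (K 1) L)) (S (F 5 L) (F 1 L)))) (F 5 (S (S L L) (T L (S L L))))) (V (F 3 (S (S (F 32 L) (F 32 L)) (T (F 32 L) L))) (F 5 (S L (S (F 32 L) L)))))) (T (V (F 7 (S (U (K 1) L) (U (T (K 1) (S L L)) (S L L)))) (S (F 7 (U (S (K 1) L) L)) (U (T (K 6) (F 1 L)) (F 7 (S L L))))) (U (V (S (T (F 3 (S (F 32 L) L)) (S (F 1 L) (S (F 1 L) (F 1 L)))) (T (F 3 (S L L)) (S (S (F 1 L) (F 1 L)) (S (F 1 L) (F 1 L))))) (S (T (F 1 L) (S (F 1 L) (F 1 L))) (T (F 3 (S L L)) (S (F 1 L) (F 1 L))))) (V (F 3 (S (T (F 32 L) (S L L)) (T L (S L L)))) (S (S (F 3 L) (F 1 L)) (T (F 3 L) (F 1 L))))))))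
noncomputable def v10_1 : Tr := (T (F 7 (U (V (K 1) (S (K 1) (U (K 1) (T (K 1) (U (K 1) (S L L)))))) (V (S (T (S L L) (U (S L L) L)) (T (S L L) (S (S L L) (T L L)))) (S (T (S (F 8 L) L) (V (S (F 8 L) L) L)) (T (S L L) (V (S L L) (S (F 1 L) (F 1 L)))))))) (U v10_0 (F 3 (V (S (T (S (V (F 32 L) (F 32 L)) (V (F 32 L) (F 32 L))) (S (V (U (F 32 L) (F 32 L)) (U (F 32 L) (F 32 L))) (V (U (S (F 32 L) (F 32 L)) (F 32 L)) (U (S (F 32 L) (F 32 L)) (F 32 L))))) (T (S (V (S (F 32 L) (F 32 L)) (S (F 32 L) (F 32 L))) (U (V (F 32 L) (F 32 L)) (F 32 L))) (S (V (T (F 32 L) (S (F 32 L) L)) (U (S (F 32 L) (F 32 L)) (F 32 L))) (V (U (S (F 32 L) L) (F 32 L)) (U (S L L) L))))) (S (T (S (V (F 32 L) (F 32 L)) (V (F 32 L) (F 32 L))) (S (V (S (F 32 L) (F 32 L)) (S (F 32 L) (F 32 L))) (V (T (F 32 L) (S (F 32 L) (F 32 L))) (T (F 32 L) L)))) (T (V (S (S (F 32 L)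 (F 32 L)) (S (F 32 L) (F 32 L))) (S (F 32 L) (S (F 32 L) (F 32 L)))) (S (V (U (S (F 32 L) (F 32 L)) (F 32 L)) (U (S (F 32 L) (F 32 L)) (F 32 L))) (V (U (S L L) L) (U (S L L) L)))))))))
noncomputable def v10_2 : Tr := (S (T (U (V (S (F 6 (T (K 1) L)) (S (F 6 L) (F 2 L))) (F 3 (S (T (K 1) (S (F 32 L) L)) (T (F 32 L) (S L L))))) (F 7 (V (S (S L L) (S L L)) (S (S L L) (S L L))))) (U (V (S (T (F 3 (S L L)) (V (F 2 L) (F 3 (S L L)))) (T (F 3 (S L L)) (S (F 2 L) (F 2 L)))) (S (T (F 3 (S (S L L) L)) (S (S (F 2 L) (F 2 L)) (S (F 2 L) (F 2 L)))) (T (S (F 2 L) (F 3 L)) (S (S (F 2 L) (F 2 L)) (S (F 2 L) (F 2 L)))))) (S (F 3 (V (T L (S L L)) (T L (S L L)))) (V (T (F 3 L) (F 2 L)) (F 3 (T L (S L L))))))) (T (S (V (U (S (F 2 L) (F 2 L)) (F 3 L)) (U (T (F 3 L) (F 2 L)) (F 3 (S (F 32 L) L)))) (V (U (S (F 3 L) (F 130 L)) (F 3 L)) (U (S (F 2 L) (F 2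 L)) (F 3 L)))) (U (V (S (T (F 2 L) (S (F 2 L) (F 130 L))) (T (F 130 L) (F 2 L))) (S (T (F 3 (S L L)) (V (F 2 L) (F 2 L))) (T (F 2 L) (F 130 (S L L))))) (V (S (S (F 2 L) (F 2 L)) (F 130 (S L L))) (S (F 3 (T L (S L (F 1 L)))) (F 130 (T (F 32 L) L)))))))
noncomputable def v10_3 : Tr := (S (T (F 3 (U (S (V (T (F 32 L) (S (F 32 L) L)) (T (F 32 L) (S (F 32 L) L))) (V (T L (S L L)) (T L (S L L)))) (S (V (S (F 32 L) (F 32 L)) (S (F 32 L) (F 32 L))) (V (S (F 32 L) L) (S L L))))) (U (V (F 3 (S (T (S (S L L) (S L L)) (V (S L L) (S L L))) (T (S (S L L) L) (S (V L L) (V L L))))) (S (T (S (F 3 L) (F 1 L)) (S (S (F 1 L) (F 1 L)) (S (F 1 L) (F 1 L)))) (T (F 3 (S L L)) (S (S (F 1 L) (F 1 L)) (T (F 3 L) (F 1 L)))))) (F 3 (S (V (T (S L L) (S L L)) (T L (S L L))) (V (T (S L (F 1 L)) (S L L)) (T L (S L L))))))) (T (F 3 (U (U (K 4) (S (V (S L (F 1 L)) (S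 (F 1 L) (F 1 L))) (F 47 (T (K 0) (K 0))))) (S (V (S L (F 1 L)) (S (F 1 L) (F 1 L))) (V (S (F 1 L) (F 1 L)) (S (F 1 L) (F 1 L)))))) (U (V (S (T (F 3 (S L L)) (S (T (F 3 L) (F 2 L)) (F 2 L))) (U (K 3) (S (F 2 L) (F 130 L)))) (F 3 (S (T (S L L) (U (K 4) (S (F 1 L) (F 1 L)))) (T (K 4) (S (S L L) (K 4)))))) (F 3 (S (V (T L (S L (F 1 L))) (T L (S (F 1 L) (F 1 L)))) (V (T (F 1 L) (S (F 1 L) (F 1 L))) (T (F 1 L) (S (F 1 L) (F 1 L)))))))))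
noncomputable def v10_4 : Tr := (T (F 3 (U (V (S (T (K 1) (U (K 1) (V (S (F 32 L) (F 33 L)) (S (F 32 L) (F 32 L))))) (T (F 33 (U (K 3) (S (K 3) L))) (V (U (S (K 1) (F 32 L)) (F 33 (S L (F 4 L)))) (F 33 (U (U (K 3) (S L L)) (S L L)))))) (S (T (U (K 1) (S (K 1) (F 32 L))) (V (U (K 1) (S (F 32 L) (F 33 L))) (F 33 (U (S (K 3) (S (K 3) L)) (S L L))))) (T (F 33 (U (K 3) (V L L))) (S (V (T (F 32 L) (S (F 32 L) (F 32 L))) (T (F 32 L) (S (F 1 L) (F 1 L)))) (V (U L (F 33 L)) (F 33 (U (K 0) L))))))) (V (S (T (V (F 32 L) (F 32 L)) (U (S (F 32 L) (F 32 L)) (S (F 32 L) (F 33 L)))) (T (S (F 32 L) (F 32 L)) (U (S (F 32 L) (F 32 L)) (F 33 (S L L))))) (S (T (V (F 33 (S L L)) (F 32 L)) (V (S (F 32 L) (F 32 L)) (S (F 32 L) (F 32 L)))) (T (S (S (F 32 L) (F 32 L)) (F 33 (S L L))) (S (V (F 32 L) (F 32 L)) (V (F 1 L) (F 1 L)))))))) (U (V v10_2 v10_3) (F 3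 (V (S (T (V (S (S (F 32 L) (F 32 L)) (S (F 32 L) (F 32 L))) (S (S (F 32 L) (F 32 L)) (S L L))) (V (S (U (S L L) L) (U (S L L) L)) (S (U (S L L) L) (U (S L L) L)))) (T (S (V (S (F 32 L) (F 32 L)) (S L L)) (V (S (F 1 L) (F 1 L)) (S (F 1 L) (F 1 L)))) (S (V (U (S L (F 1 L)) (F 1 L)) (T L (S L (F 1 L)))) (V (U (S (F 1 L) (F 1 L)) (F 1 L)) (T L (S (F 1 L) (F 1 L))))))) (S (T (V (S (S (F 32 L) L) (S L L)) (U (S (F 32 L) (F 1 L)) L)) (V (S (U (S L L) L) (U (S L L) L)) (S (U (S L L) L) (U (S L L) L)))) (T (S (V (S L L) (S L (F 1 L))) (V (S (F 1 L) (F 1 L)) (S (F 1 L) (F 1 L)))) (V (S (T L (S L (F 1 L))) (U (S (F 1 L) (F 1 L)) (F 1 L))) (S (U (S (F 1 L) (F 1 L)) (F 1 L)) (U (S (F 1 L) (F 1 L)) (F 1 L))))))))))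
noncomputable def v10_5 : Tr := (U (V (S (F 5 (T (U (V (F 40 (S (K 2) L)) (F 8 L)) (F 40 (S L (S L L)))) (V (S (U (S (F 40 L) (F 8 L)) (F 8 L)) (U (S (F 8 L) L) (S (F 32 L) (F 32 L)))) (U (K 2) (S (F 40 L) (F 8 L)))))) (T (U (V (F 5 (S L (S (F 32 L) L))) (F 17 (S (F 48 L) L))) (F 7 (V (S L L) (S (F 9 L) (F 8 L))))) (V (S (U (T (F 5 L) (F 1 L)) (S (F 5 L) (F 3 L))) (U (T (F 1 L) (S (F 1 L) (F 1 L))) (S (F 1 L) (F 1 L)))) (S (U (F 17 (S L L)) (F 1 L)) (U (S (F 1 L) (F 1 L)) (F 3 (S L L))))))) (F 17 (S (F 48 (T (V (S (K 1) L) (K 1)) (K 1))) (T (S (V (F 16 L) (K 2)) (V L (F 1 L))) (U (K 2) (V (S L L) (K 2))))))) (F 3 (V (S (T (V (S (F 40 L) (F 32 L)) (F 40 (S (F 8 L) L))) (S (V (S (F 40 L) (F 32 L)) (F 40 (S L L))) (V (S (F 32 L) L) (S (F 32 L) (F 32 L))))) (T (U (V (S (F 40 L) (F 33 L)) (F 32 L)) (S (F 32 L) (F 32 L))) (V (S (U L (F 32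 L)) (U (S (F 32 L) L) (F 32 L))) (S (U L (F 32 L)) (U L (F 1 L)))))) (S (F 40 (T (V L (F 8 L)) (V (U (S (F 8 L) L) L) (F 8 (U (K 1) L))))) (T (S (F 40 (V L (F 8 L))) (T (F 9 L) (F 8 L))) (V (U (S (F 8 L) (F 8 L)) (S (F 40 L) (F 1 L))) (F 9 (U (S (F 1 L) L) (F 1 (S L L))))))))))
noncomputable def v10_6 : Tr := (V (S (T (V (S (U (S (F 3 L) (F 1 L)) (F 3 L)) (U (T (F 131 L) (F 1 L)) (F 3 L))) (S (U (F 1 L) (F 131 L)) (F 129 (U (S (F 32 L) L) (F 32 L))))) (U (V (S (T (F 3 (S L L)) (S (F 1 L) (F 1 L))) (T (F 3 (S L L)) (S (F 1 L) (F 1 L)))) (S (T (F 1 L) (F 129 (S L L))) (T (F 1 L) (F 129 (S L L))))) (V (S (S (F 1 L) (F 1 L)) (T (F 3 L) (F 1 L))) (S (S (F 1 L) (F 1 L)) (F 129 (S L L)))))) (T (F 3 (V (S (T (S L L) (U (K 4) (F 1 L))) (U (K 4) (S (F 1 L) (F 1 L)))) (U (K 4) (S (F 1 L) (F 1 L))))) (U (V (U (K 3) (S (S (F 1 L) (F 129 L)) (F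 131 (T (K 3) (S L (K 3)))))) (F 129 (S (T (S (F 32 L) (F 32 L)) (S L L)) (U (K 3) (S L (F 32 L)))))) (F 129 (S (V (T (F 32 L) (S (F 32 L) (F 32 L))) (S L L)) (V (T (F 32 L) (S (F 32 L) (F 32 L))) (T (F 32 L) (F 32 L)))))))) (S (T (F 129 (V (U (S (F 4 L) L) (F 36 (S L L))) (F 36 (U (S (K 2) L) (S (F 1 L) L))))) (V (S (T (S (F 17 L) (F 129 L)) (S (F 1 L) (F 1 L))) (F 129 (U (T (F 4 L) L) (S L L)))) (F 145 (U (K 1) (S L L))))) (F 129 (T (V (U (S (S (F 4 L) (K 3)) (K 3)) (S (F 32 L) (F 32 L))) (S (S (F 4 L) (F 4 L)) (S L L))) (V (S (U (T L L) (S L L)) (U (T L (S (F 32 L) (F 32 L))) (S (F 32 L) (F 32 L)))) (S (U (S (K 1) (F 4 L)) L) (U (S (F 4 L) L) L)))))))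
noncomputable def v10_7 : Tr := (T (U (V (F 3 (S (T (F 33 (U (K 3) (S (F 2 L) L))) (S (V (U (F 32 L) (F 33 L)) (S (F 33 L) (F 32 L))) (V (T (F 32 L) L) (S (F 1 L) (F 1 L))))) (F 33 (T (U (K 0) (V L L)) (U (K 0) (V (S L L) (S L L))))))) (F 129 (S (T (F 52 (U (S L (K 0)) L)) (S (F 20 (U L (F 1 L))) (U (F 4 L) (F 36 L)))) (U (K 3) (T (F 52 (S L L)) (S (F 36 L) (F 32 L))))))) (F 131 (V (S (T (V (S (F 20 L) (F 16 L)) (F 16 L)) (V (S (F 16 L) (F 16 L)) (S (F 16 L) (F 16 L)))) (T (V (S (F 16 L) (F 16 L)) (F 16 L)) (V (S L L) (S (F 16 L) (F 16 L))))) (S (F 20 (T (S L L) (U (S L L) L))) (T (S (F 20 L) (F 16 L)) (V (S (F 16 L) (F 16 L)) L)))))) (U v10_6 (V (F 3 (S (T (V (S L (S (F 1 L) (F 1 L))) (S L (S (F 1 L) (F 1 L)))) (S (V (U (S L L) (F 1 L)) (U (S (F 1 L) (F 1 L)) (F 1 L))) (V (U (S (F 1 L) (F 1 L)) (F 1 L)) (T L (S (F 1 L) (F 1 L))))))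 (T (V (S (S (F 1 L) (F 1 L)) (S (F 1 L) (F 1 L))) (S (S (F 1 L) (F 1 L)) (F 1 L))) (S (V (U (S (F 1 L) (F 1 L)) (F 1 L)) (U (S (F 1 L) (F 1 L)) (F 1 L))) (V (U (S (F 1 L) (F 1 L)) (F 1 L)) (U (S (F 1 L) (F 1 L)) (F 1 L))))))) (S (T (F 131 (V (S L (S (F 4 L) L)) (S (F 4 L) (F 4 L)))) (S (F 3 (V (T (F 1 L) L) (F 9 (U L L)))) (F 129 (U (V L (F 4 L)) (T (F 36 L) (F 32 L)))))) (F 131 (T (V (S (S L L) L) (S L L)) (V (S (U L L) (U L L)) (S (T (F 4 L) L) (S L L)))))))))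
noncomputable def v10_8 : Tr := (T (U (V (S (T (F 32 L) (S (F 32 L) (F 32 L))) (T (S (F 32 L) (F 33 L)) (S (F 32 L) (F 32 L)))) (S (T (F 32 L) (S (F 40 L) (F 32 L))) (T (F 33 (S L L)) (S (F 32 L) (F 32 L))))) (V (S (S (F 32 L) (F 32 L)) (T (F 32 L) (F 32 L))) (S (T (F 32 L) (F 32 L)) (F 33 (T L (S L L)))))) (U (V (S (T (S (F 32 L) (F 32 L)) (S (V (F 32 L) (F 32 L)) (V (F 32 L) (F 32 L)))) (T (S (S (F 32 L) (F 32 L)) (S (F 32 L) (F 32 L))) (S (V (F 32 L) (S (F 32 L) (F 32 L))) (V (S (F 32 L) (F 32 L)) L)))) (S (T (V (F 32 L) (F 32 L)) (V (S (F 32 L) (F 32 L)) (S (F 32 L) (F 32 L)))) (T (V (S (F 32 L) (F 32 L)) (S (F 32 L) (F 32 L))) (S (V (S (F 32 L) (F 32 L)) L) (V L L))))) (V (S (T (S (F 32 L) (F 32 L)) (S (F 32 L) (S (F 32 L) (F 32 L)))) (T (S (F 32 L) (F 32 L)) (S (S (F 32 L) (F 32 L)) (S (F 32 L) L)))) (S (T (S (F 32 L) (F 32 L))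 (V (S (F 32 L) (F 32 L)) (S (F 32 L) (F 32 L)))) (T (S (F 32 L) (F 32 L)) (S (S (F 32 L) (F 32 L)) (S L L)))))))
noncomputable def v10_9 : Tr := (T (U (V (S (T (F 33 (S L L)) (S (F 32 L) (F 32 L))) (T (F 33 (S L L)) (S (F 32 L) (F 32 L)))) (S (T (F 33 (S L L)) (S (F 32 L) (F 32 L))) (F 33 (T (S L L) (V (S L L) (S L L)))))) (V (F 33 (S (T L (S L L)) (T L (S L L)))) (S (T (F 33 L) (F 32 L)) (F 33 (T L (S L L)))))) (U (V (S (T (S (T (F 32 L) (F 32 L)) (T (F 32 L) L)) (V (S (S (F 32 L) (F 32 L)) (S L L)) (S (S (F 32 L) L) (S L (F 1 L))))) (T (S (S L L) (T (F 1 L) (F 1 L))) (S (V (S (F 1 L) (F 1 L)) L) (U (S (F 1 L) (F 1 L)) (F 1 L))))) (S (T (S (T (F 32 L) L) (S L L)) (V (S (S L L) L) (S L L))) (T (V (S (F 1 L) (F 1 L)) (S (F 1 L) (F 1 L))) (V (S L (S (F 1 L) (F 1 L))) (S (S (F 1 L) (F 1 L)) (F 1 L)))))) (V (S (T (S (F 32 L) (F 32 L))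 (V (S (F 32 L) (F 1 L)) (S (F 32 L) (F 1 L)))) (T (S (F 32 L) (F 1 L)) (S (T (F 1 L) L) (S (F 1 L) (F 1 L))))) (S (T (S (F 32 L) (F 1 L)) (V (S (F 32 L) (F 1 L)) (S (F 1 L) (F 1 L)))) (T (S (F 1 L) (F 1 L)) (S (S (F 1 L) (F 1 L)) (S (F 1 L) (F 1 L))))))))
noncomputable def v10_10 : Tr := (T (U (V (S (F 33 (T (S (F 2 L) L) (V L L))) (T (F 33 (S L L)) (S (F 1 L) (F 1 L)))) (S (F 41 (T L (S L L))) (T (F 33 L) (S (F 33 L) (F 1 L))))) (V (F 33 (S (T L (S L L)) (T L (S L L)))) (S (F 33 (S (F 2 L) L)) (T (F 41 L) (F 1 L))))) (U (V (S (T (F 33 (V (S L L) (S L L))) (S (V L L) (V L (S (F 1 L) (F 1 L))))) (T (S (S (F 1 L) (F 1 L)) (S (F 1 L) (F 1 L))) (S (V (S (F 1 L) (F 1 L)) (S (F 1 L) (F 1 L))) (V (F 1 L) (F 1 L))))) (S (T (U (F 9 (S (F 1 L) L)) (F 1 L)) (U (V (F 9 (S L L)) (F 1 L)) (S (F 1 L) (F 1 L)))) (T (U (S (F 9 L) (F 1 L)) (F 9 (S L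 L))) (V (S (F 1 L) (F 1 L)) (S (F 1 L) (F 1 L)))))) (V (S (T (S (F 32 L) (F 1 L)) (S (S L L) (S (F 1 L) (F 1 L)))) (T (S (F 1 L) (F 1 L)) (S (S (F 1 L) (F 1 L)) (S (F 1 L) (F 1 L))))) (S (T (S (F 33 L) (F 1 L)) (U (S (F 9 L) (F 1 L)) (F 9 (S L L)))) (T (S (F 1 L) (F 1 L)) (U (S (F 1 L) (F 1 L)) (S (F 1 L) (F 1 L))))))))
noncomputable def v10_11 : Tr := (U (V (S v10_1 v10_4) (S (T (F 7 (U (V (S (U (K 1) (T (K 1) (S (F 9 L) (F 8 L)))) (T (F 9 (V (K 2) (S (K 2) L))) (V (U (K 1) L) (S (F 8 L) (F 8 L))))) (F 9 (S (T (S L L) (V (S L L) L)) (T (S L L) (V (S L L) (S L L)))))) (V (S (T (F 9 (S L L)) (S (F 8 L) (F 8 L))) (T (S (F 8 L) (F 1 L)) (U (S (F 9 L) (F 1 L)) L))) (F 9 (S (T L (S L L)) (T L (S L L))))))) v10_5) v10_7)) (F 3 (V (S v10_8 v10_9) (S (T (U (V (S (F 40 (T (F 8 L) (S (F 8 L) L))) (T (F 33 L) (S (F 40 L) (F 33 L)))) (F 41 (S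 (S L L) (U L L)))) (V (S (S (F 40 L) (F 32 L)) (T (F 33 L) (F 32 L))) (F 41 (S (S L L) (S L L))))) (U (V (S (T (S (F 40 L) (F 32 L)) (U (S (F 40 L) (F 32 L)) (S (F 40 L) (F 32 L)))) (T (U (S (F 40 L) (F 33 L)) (F 32 L)) (V (S L L) (S L L)))) (S (F 40 (T (F 8 (S L L)) (U (S (F 8 L) L) L))) (T (F 41 (V (S L L) L)) (V (S (F 8 L) L) (F 9 (U L (F 1 L))))))) (V (S (T (F 40 (S L L)) (U (F 40 (S L L)) (F 32 L))) (T (S (F 32 L) (F 32 L)) (S (S (F 32 L) L) (S L L)))) (S (F 40 (T (F 8 (S L L)) (S L L))) (T (F 33 (S (F 2 L) L)) (S (S (F 40 L) (F 1 L)) (S (F 1 L) (F 1 L)))))))) v10_10))))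
noncomputable def treeV10 : Tr := (F 0xffffffffffffffffffffffffffffffffe7fffff7f73ffeefff v10_11)

theorem pV10 : chkV par treeV10 64 64 320 64 128 128 349525 524288 Lc = true := by decide +kernel


end Pool.Agent.Lib.H56.Gen.D3
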