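import Pool.Agent.Lib.H56.Gen.D3.Par
import Pool.Agent.Lib.H56.Gen.D3.Cos

/-!
# Certificate tree V, part 2
-/

set_option maxRecDepth 100000

namespace Pool.Agent.Lib.H56.Gen.D3

open Tr

noncomputable def v11_0 : Tr := (U (V (S (T (F 137 (S (U (S (K 1) (F 32 L)) (F 96 L)) (V (F 64 L) L))) (S (V (F 9 L) (F 9 L)) (V (S (F 136 L) (F 10 L)) (S (F 9 L) (F 9 L))))) (T (F 138 (V (S L L) (S (S (F 64 L) (F 64 L)) (S (F 64 L) (F 64 L))))) (S (V (S (F 10 L) (F 10 L)) (S (F 9 L) (F 136 L))) (T (F 138 (V L (S (F 64 L) (F 64 L)))) (V (F 10 L) (F 8 L)))))) (S (T (F 141 (V (S L L) (S L L))) (S (F 137 (V (S L L) L)) (V (S (F 137 L) (F 9 L)) (F 137 (S L L))))) (T (F 137 (S (V L L) (V L L))) (S (V (T (F 137 L) (F 9 L)) (T (F 137 L) (F 9 L))) (V (T (F 137 L) (F 9 L)) (T (F 137 L) (F 9 L))))))) (V (F 11 (S (T (S (F 68 L) (F 4 L))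 (S (S L L) (S L L))) (T (S (S (F 68 L) (F 4 L)) (S (F 4 L) (F 4 L))) (S (S L L) (V (S (F 4 L) (F 4 L)) (S (F 4 L) (F 4 L))))))) (F 137 (S (T (S (F 96 L) (F 64 L)) (S (S (F 64 L) L) (S L L))) (T (S (F 64 L) (S (F 64 L) (F 64 L))) (V (S (S (F 64 L) (F 64 L)) (S (F 64 L) (F 64 L))) (S L L)))))))
noncomputable def v11_1 : Tr := (V (S (T (V (S (U (F 8 L) (F 10 L)) (T (F 8 L) (S (F 8 L) (F 8 L)))) (S (U (S (F 9 L) (F 9 L)) (F 9 L)) (U (S (F 9 L) (F 8 L)) (F 9 L)))) (S (V (T (S (F 8 L) (F 8 L)) (S L L)) (U (S (F 8 L) L) (S (F 9 L) (F 1 L)))) (V (U (S L L) L) (U (S L L) L)))) (T (V (S (U (S (F 8 L) (F 8 L)) (S (F 10 L) (F 10 L))) (U (S (F 10 L) (F 8 L)) (S (F 10 L) (F 10 L)))) (S (T (F 8 L) (S (F 8 L) (F 8 L))) (T (F 8 L) L))) (S (V (U (S L L) L) (U (S L L) (S (F 8 L) (F 8 L)))) (V (U (S L L) (S (F 2 L) (F 2 L))) (U (S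 L L) (S (F 8 L) (F 2 L))))))) (S (T (S (V (U (S (F 137 L) (F 9 L)) (F 9 L)) (S (F 9 L) (F 9 L))) (V (U (S (F 9 L) (F 9 L)) (F 9 L)) (U (S (F 137 L) (F 9 L)) (F 9 L)))) (S (V (T (S (F 9 L) (F 1 L)) (S (F 1 L) (F 1 L))) (T (S (F 9 L) (F 9 L)) (S (F 9 L) (F 1 L)))) (V (U (S (F 1 L) L) (F 1 L)) (U (S (F 1 L) (F 1 L)) (F 1 L))))) (T (S (V (U (S (F 9 L) (F 8 L)) (F 137 (S L L))) (U (S (F 9 L) (F 9 L)) (F 9 L))) (V (T (S (F 9 L) (F 9 L)) L) (T (S (F 9 L) (F 9 L)) (S (F 1 L) (F 1 L))))) (S (V (U (S L L) (S (F 1 L) (F 1 L))) (U (T (F 1 L) (F 1 L)) (S (F 9 L) (F 1 L)))) (V (U (S L L) (S (F 1 L) (F 1 L))) (U (T (F 1 L) L) (S (F 1 L) (F 1 L))))))))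
noncomputable def v11_2 : Tr := (U (V (S (T (F 138 (S (V L L) (V L (S (F 64 L) L)))) (S (V (T (F 138 L) (F 10 L)) (U (F 136 L) (F 138 L))) (V (T (F 138 L) (F 10 L)) (F 138 (U (S L L) L))))) (F 138 (T (S (V L (S L L)) (V L (S (F 64 L) L))) (S (V (U L L) (U (S L L) L)) (V (S L L) (U (S L L) L)))))) (S (T (V (F 138 (U (S (F 64 L) L) (S (F 64 L) (F 64 L)))) (F 137 (S (S (F 64 L) L) (S L L)))) (V (S (S (F 136 L) (F 136 L)) (S (F 136 L) (F 136 L))) (S (F 137 (U (S L L) L)) (U (F 136 L) (F 137 L))))) (T (S (V (F 138 (S L L)) (F 137 (S L L))) (F 138 (V (S L L) (S L L)))) (V (F 138 (S (U (S L L) L) (T L (S L L)))) (S (S (F 136 L) (F 136 L)) (U (F 136 L) (F 138 L))))))) (F 138 (V (S (T (S (S (F 64 L) (F 64 L)) (S (F 64 L) (F 64 L))) (S (V L (S (F 64 L) (F 64 L))) (V L L))) (T (S (S (F 64 L) (F 64 L)) L) (S (V L L) (V L L))))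 (S (T (S (S (F 64 L) (F 64 L)) (S (F 64 L) (F 64 L))) (S (V (S (F 64 L) (F 64 L)) (S (F 64 L) (F 64 L))) (V (S (F 64 L) (F 64 L)) (S (F 64 L) (F 64 L))))) (T (S (S (F 64 L) (F 64 L)) (S (F 64 L) (F 64 L))) (S (V (S (F 64 L) (F 64 L)) (S (F 64 L) (F 64 L))) (V L (S (F 64 L) (F 64 L)))))))))
noncomputable def v11_3 : Tr := (V (S (T (S (T (V (S (F 10 L) (F 10 L)) (S (F 10 L) (F 10 L))) (V (S (F 2 L) (F 2 L)) L)) (T (V (S (F 10 L) (F 138 L)) (S (F 10 L) (F 130 L))) (V (S (F 2 L) (F 130 L)) (S (F 2 L) (F 2 L))))) (S (V (U (T (F 2 L) L) (S (F 2 L) (F 2 L))) (U (S L L) (S (F 2 L) (F 2 L)))) (V (U (T (F 2 L) (F 2 L)) (S (F 2 L) (F 2 L))) (U (S L L) (S (F 2 L) (F 2 L)))))) (T (S (V (S (F 2 L) (F 2 L)) (U (S (F 2 L) (F 2 L)) (F 2 L))) (V (T (F 130 L) (F 2 L)) (T (S (F 130 L) (F 130 L)) (F 2 L)))) (S (V (U (S (F 2 L) (F 2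 L)) (S (F 2 L) (F 130 L))) (U (T (F 2 L) (F 2 L)) (S (F 2 L) (F 2 L)))) (V (T (F 2 L) (S (F 2 L) (F 130 L))) (U (S (F 2 L) (F 2 L)) (S (F 2 L) (F 130 L))))))) (S (S (T (V (T (S (F 9 L) (F 136 L)) (S (F 8 L) (F 8 L))) (U (S (F 8 L) (F 8 L)) (S (F 9 L) (F 9 L)))) (V (U (T L L) (S L (F 1 L))) (U (S L L) (S (F 1 L) (F 1 L))))) (T (V (S L L) (S L L)) (V (U (S L L) L) (U (S L L) (S (F 1 L) (F 1 L)))))) (T (S (V (S L L) (S L L)) (V (U (S (F 128 L) (F 128 L)) (S (F 130 L) (F 130 L))) (T (S (F 128 L) (F 130 L)) L))) (S (V (U (S L L) (S (F 2 L) (F 2 L))) (U (S L L) L)) (V (U (S L L) (S (F 2 L) (F 2 L))) (U (S L L) L))))))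
noncomputable def v11_4 : Tr := (S (T v11_0 (U v11_1 (V (S (T (S (V (F 11 (S L L)) (F 9 L)) (F 11 (V (S L L) (S L L)))) (S (V (U (S (F 11 L) (F 10 L)) (F 11 L)) (T (F 9 L) (F 1 L))) (V (U (F 8 L) (F 3 L)) (S (F 1 L) (F 1 L))))) (T (S (V (T (F 11 L) (F 10 L)) (U (F 9 L) (F 11 L))) (V (S (F 10 L) (F 10 L)) (T (F 11 L) (F 3 L)))) (V (S (S (F 2 L) (F 2 L)) (S (F 2 L) (F 2 L))) (U (S (F 8 L) (F 2 L)) (S (F 3 L) (F 3 L)))))) (S (T (S (V (F 9 L) (F 137 L)) (V (F 9 L) (F 9 L))) (S (T (S (F 9 L) (F 9 L)) (S (F 1 L) (F 1 L))) (V (S (F 1 L) (F 1 L)) (F 1 L)))) (T (S (V (F 9 L) (F 137 (S L L))) (T (V (F 11 L) (F 137 L)) (F 1 L))) (S (V (S (F 1 L) (F 1 L)) (S (F 1 L) (F 1 L))) (V (S (F 1 L) (F 1 L)) (S (F 1 L) (F 1 L))))))))) (T v11_2 (U v11_3 (V (S (T (S (T (S (F 10 L) (F 10 L)) (S (F 2 L) (F 2 L))) (V (S (F 10 L) (F 10 L))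 (S (F 10 L) (F 10 L)))) (S (V (S (F 2 L) (F 2 L)) (S (F 2 L) (F 2 L))) (V (S (F 2 L) (F 2 L)) (S (F 2 L) (F 2 L))))) (T (S (V (F 10 L) (F 2 L)) (T (S (F 130 L) (F 138 L)) (F 2 L))) (S (V (S (F 2 L) (F 2 L)) (S (F 2 L) (F 2 L))) (V (F 2 L) (S (F 2 L) (F 130 L)))))) (S (T (V (S (T (F 11 L) (F 3 L)) (T (F 11 L) (F 3 L))) (S (S (F 9 L) (F 9 L)) (F 1 L))) (V (U (S (F 2 L) L) (S (F 3 L) (F 3 L))) (S (S (F 1 L) (F 1 L)) (S (F 1 L) (F 1 L))))) (T (S (V (F 2 L) (T (F 131 L) (F 3 L))) (V (S (F 130 L) (F 130 L)) (T (F 131 L) (F 3 L)))) (V (S (S (F 2 L) (F 2 L)) (S (F 2 L) (F 2 L))) (U (S (F 2 L) (F 128 L)) (S (F 3 L) (F 3 L))))))))))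
noncomputable def v11_5 : Tr := (U (V (S (T (S (V (S (F 137 L) (F 9 L)) (F 9 L)) (V (S (F 9 L) (F 9 L)) (S (F 137 L) (F 9 L)))) (S (V (T (F 9 L) (F 1 L)) (T (F 9 L) (F 9 L))) (V (U (F 1 L) (F 1 L)) (T (F 9 L) (F 1 L))))) (T (S (V (U (F 9 L) (F 137 L)) (S (F 9 L) (F 9 L))) (V (T (F 9 L) (F 1 L)) (S (F 9 L) (F 9 L)))) (S (V (U (S (F 1 L) (F 1 L)) (F 1 L)) (T (F 1 L) (F 1 L))) (V (U (S (F 1 L) (F 1 L)) (F 1 L)) (T (F 1 L) (S (F 1 L) (F 1 L))))))) (S (T (S (T (F 137 L) (F 9 L)) (V (F 9 L) (F 137 L))) (S (V (S (F 9 L) (F 9 L)) (K 6)) (V (S (F 9 L) (F 9 L)) (S (F 9 L) (F 9 L))))) (T (S (V (F 9 L) (F 137 (S L L))) (V (S (F 9 L) (F 9 L)) (F 137 (S L L)))) (S (V (S (F 1 L) (F 1 L)) (S (F 9 L) (F 9 L))) (V (T (F 1 L) (F 1 L)) (S (F 1 L) (F 1 L))))))) (V (S (T (S (S (F 9 L) (F 9 L)) (S (F 9 L) (F 9 L))) (S (T (S (F 9 L) (F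 9 L)) (F 1 L)) (V (F 1 L) (F 9 L)))) (T (S (V (F 9 L) (F 137 L)) (T (F 9 L) (F 1 L))) (S (V (F 1 L) (F 1 L)) (V (S (F 1 L) (F 1 L)) (F 1 L))))) (S (T (F 137 (S (S L L) (S L L))) (S (T (F 9 L) (F 9 L)) (T (F 9 L) (F 1 L)))) (T (F 137 (V (S L L) (S L L))) (S (S (F 1 L) (F 1 L)) (V (F 1 L) (F 9 L)))))))
noncomputable def v11_6 : Tr := (V (S (T (S (V (T (S (F 137 L) (F 9 L)) (S (F 9 L) (F 129 L))) (T (F 9 L) (F 1 L))) (V (U (S (F 129 L) (F 129 L)) (F 1 L)) (S (F 1 L) (F 1 L)))) (S (V (U (S (F 1 L) (F 1 L)) (S (F 1 L) (F 1 L))) (U (S (F 1 L) (F 1 L)) (F 1 L))) (V (U (T (F 1 L) L) (S (F 1 L) (F 1 L))) (U (S (F 1 L) (F 1 L)) (S (F 129 L) (F 1 L)))))) (T (S (V (U (S (F 128 L) (F 128 L)) (S (F 129 L) (F 129 L))) (T (S (F 129 L) (F 129 L)) (F 1 L))) (T (V (S (F 129 L) (F 129 L)) (S (F 129 L) (F 129 L))) (V L (S (F 129 L)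 (F 1 L))))) (S (V (U (S L L) (S (F 1 L) (F 1 L))) (U (S (F 1 L) (F 1 L)) (S (F 129 L) (F 1 L)))) (V (U (S L L) L) (U (S (F 1 L) (F 128 L)) (S (F 1 L) (F 129 L))))))) (S (T (S (T (F 137 (V L L)) (S (F 1 L) (F 1 L))) (V (T (F 129 L) (F 1 L)) (S (F 129 L) (F 129 L)))) (S (V (U (F 1 L) (F 1 L)) (S (F 1 L) (F 1 L))) (V (U (S (F 1 L) (F 1 L)) (F 1 L)) (S (F 1 L) (F 1 L))))) (T (S (V (T (F 129 L) (F 1 L)) (S (F 129 L) (F 129 L))) (V (U (S (F 129 L) (F 129 L)) (F 129 L)) (U (F 129 L) (F 129 L)))) (S (V (U (S (F 1 L) (F 1 L)) (F 1 L)) (T (F 1 L) (F 1 L))) (V (U (S (F 1 L) (F 1 L)) (F 1 L)) (T (F 1 L) (S (F 129 L) (F 129 L))))))))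
noncomputable def v11_7 : Tr := (T (U (V (S (F 137 (T (S (V L L) (V L L)) (S (V (U (S L L) L) (S L L)) (V (U (S L L) L) (S L L))))) (T (F 137 (S (V (S L L) L) (V (S L L) (S L L)))) (S (F 137 (V (U (S L L) L) (U (S L L) L))) (V (U (F 136 L) (F 137 L)) (F 137 (U (S L L) L)))))) (F 137 (S (T (S (S L L) (S L L)) (S (V L L) (V (S L L) (S L L)))) (T (S (T L L) (V L L)) (S (V (S L L) (S L L)) (V (S L L) (S L L))))))) (F 137 (V (S (T (S L (S (F 64 L) (F 64 L))) (S (S L L) (V L L))) (T (S (S (F 64 L) (F 64 L)) (S (F 64 L) (F 64 L))) (S (V L L) (V (S (F 64 L) (F 64 L)) L)))) (S (T (S L L) (S (S L L) (S L L))) (T (S L L) (S (S L L) (S L L))))))) (U v11_6 (V (S (T (S (T (F 9 L) (F 1 L)) (V (F 1 L) (F 129 L))) (S (V (S (F 1 L) (F 1 L)) (S (F 1 L) (F 1 L))) (U (V (F 1 L) (F 1 L)) (F 1 L)))) (T (S (T (S (F 129 L) (F 129 L)) (S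 (F 1 L) (F 1 L))) (T (S (F 129 L) (F 129 L)) (S (F 129 L) (F 129 L)))) (S (V (S (F 1 L) (F 1 L)) (S (F 1 L) (F 1 L))) (V (S (F 1 L) (F 1 L)) (S (F 1 L) (F 1 L)))))) (S (T (S (T (F 137 (S L L)) (F 1 L)) (T (F 129 L) (F 1 L))) (S (V (F 1 L) (F 1 L)) (V (F 1 L) (F 1 L)))) (T (S (V (F 129 L) (F 129 L)) (V (F 129 L) (F 129 L))) (S (V (S (F 129 L) (F 1 L)) (F 1 L)) (V (S (F 1 L) (F 129 L)) (F 1 L))))))))
noncomputable def v11_8 : Tr := (T (F 139 (U (S (V (T (S (F 32 L) L) (S (S L L) (S L L))) (T (S L L) (S (S L L) (S L L)))) (V (T (S L L) (S (S L L) (S L L))) (T (S L L) (S (S L L) (S L L))))) (S (V (S L (S L L)) (T L (S L L))) (V (T L (S L L)) (T L (S L L)))))) (U (V (S (T (F 11 (S (S L L) (S L L))) (S (V (F 3 L) (F 3 L)) (V (F 3 L) (F 3 L)))) (T (S (F 138 (U L (F 64 L))) (F 131 (S L L))) (V (S (F 130 L) (F 130 L)) (S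 (F 3 L) (F 3 L))))) (S (T (S (F 11 (S L L)) (T (F 11 L) (F 3 L))) (S (T (F 3 L) (F 3 L)) (V (F 3 L) (F 3 L)))) (T (F 131 (S (T L L) (S L L))) (S (V (F 3 L) (F 3 L)) (T (F 3 L) (F 3 L)))))) (S (T (F 139 (V (S L L) (S L (S L L)))) (V (S (F 3 L) (F 3 L)) (S (F 3 L) (F 3 L)))) (T (F 139 (V (S L L) (S L L))) (V (S (F 3 L) (F 131 L)) (S (F 3 L) (F 3 L)))))))
noncomputable def v11_9 : Tr := (S (T (F 137 (S (V (U (T (F 96 L) (S (F 96 L) (F 64 L))) (F 96 (S L L))) (U (S (F 32 L) L) (F 96 (S L L)))) (V (U (T (F 64 L) (S (F 64 L) (F 64 L))) (S (F 64 L) (F 64 L))) (U (S L (S L L)) (S (F 64 L) (F 64 L)))))) (U (V (S (S (V (S (F 137 L) (F 9 L)) (F 9 L)) (T (F 137 L) (S (F 9 L) (F 9 L)))) (T (S (F 9 L) (S (F 137 L) (F 11 L))) (S (F 1 L) (F 1 L)))) (S (T (F 137 (S L L)) (S (F 9 L) (S (F 9 L) (F 9 L)))) (T (F 137 (S L (S L L)))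 (S (F 1 L) (F 1 L))))) (S (V (F 11 (T (S (F 68 L) (F 4 L)) (S L L))) (T (F 139 (S (F 32 L) L)) (S (F 11 L) (F 137 L)))) (V (T (F 139 (S L L)) (S (F 11 L) (F 3 L))) (T (F 139 (S L L)) (S (F 137 L) (F 3 L))))))) (T (F 139 (U (S (V (T (S L L) (S L (S L L))) (T (S (F 32 L) L) (S L L))) (V (T (S L L) (S (S L L) (S L L))) (T (S L L) (S L (S L L))))) (S (V (S L (S L L)) (S L L)) (V (S L (S L L)) (S L L))))) (U (V (S (T (F 131 (T (U (S (F 32 L) (F 32 L)) (F 32 L)) (S L L))) (S (S (F 1 L) (F 1 L)) (S (F 3 L) (F 3 L)))) (T (F 131 (S (S L L) (S L L))) (S (T (F 3 L) (F 3 L)) (T (F 3 L) (F 3 L))))) (S (T (F 137 (S (S L L) (S L L))) (S (F 1 L) (S (F 129 L) (F 1 L)))) (T (S (F 129 L) (S (F 137 L) (F 131 L))) (S (F 1 L) (F 1 L))))) (S (V (T (F 139 (S L L)) (S (F 3 L) (F 3 L))) (T (F 139 (S L L)) (S (F 3 L) (F 3 L)))) (V (T (F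 139 (S L L)) (S (F 3 L) (F 131 L))) (F 131 (T (S (F 32 L) (F 32 L)) (S L L))))))))
noncomputable def v11_10 : Tr := (U (V v11_4 (S (T (F 137 (U (V (S (T (S L L) (S (V L (F 32 L)) (V (S L L) L))) (T (S (S L L) (V L L)) (S (V (S L L) L) (V (S L L) (S L L))))) (S (T (S (F 32 L) (F 32 L)) (S L (S L L))) (T (S L L) (S (S L L) (V L L))))) (S (V (T L (S L L)) (V (S (F 32 L) L) L)) (V (T (S (F 64 L) L) (S (S L L) (S L L))) (T (S (F 64 L) (F 64 L)) (S L L)))))) v11_5) v11_7)) (V (S (T (F 139 (U (S (V (T (S (F 32 L) (F 32 L)) (S L L)) (T (S (F 32 L) (F 32 L)) (S (F 32 L) L))) (V (T L (S L L)) (T L (S L (S L L))))) (S (V (S (F 32 L) (F 32 L)) (S (F 32 L) (F 32 L))) (V (S L L) (S L L))))) (U (V (S (T (F 11 (S L (S L L))) (S (F 11 (V L L)) (S (F 3 L) (F 3 L)))) (T (F 11 (S (S L L) (S L L))) (S (T (F 3 L) (F 3 L)) (V (F 3 L)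 (F 3 L))))) (S (T (F 11 (S L (S L L))) (V (S (F 11 L) (F 3 L)) (S (F 11 L) (F 9 L)))) (T (F 11 (S (S L L) (S L L))) (S (V (F 3 L) (F 3 L)) (V (F 3 L) (F 3 L)))))) (S (F 11 (V (T (S (F 4 L) (F 4 L)) (S L L)) (T (S (F 4 L) (F 4 L)) (S L L)))) (V (T (F 139 (S L L)) (S (F 3 L) (F 3 L))) (T (F 139 (S L L)) (S (F 3 L) (F 3 L))))))) v11_8) v11_9))
noncomputable def v11_11 : Tr := (S (T (S (V (T (U (S (F 9 L) (F 1 L)) (F 1 L)) (U (S (F 1 L) (F 1 L)) (F 1 L))) (U (T (F 1 L) (F 1 L)) (S (F 1 L) (F 1 L)))) (V (U (T L L) (T (F 1 L) (F 1 L))) (U (T (F 1 L) (S (F 1 L) (F 1 L))) (S (F 1 L) (F 1 L))))) (S (V (U (S (T (F 1 L) (F 1 L)) (S L L)) (T (F 1 L) (F 1 L))) (U (T (S (F 1 L) (F 1 L)) (S (F 1 L) (F 1 L))) (S (F 1 L) (F 1 L)))) (V (U (T L (S (F 1 L) (F 1 L))) (T (F 1 L) (F 1 L))) (U (T (S (F 1 L) (F 1 L)) (S (F 1 L) (F 1 L)))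 (S (F 1 L) (F 1 L)))))) (T (S (V (U (T L L) (S L L)) (U (T (F 1 L) (S (F 1 L) (F 1 L))) (S (F 1 L) (F 1 L)))) (V (U (T (S (F 1 L) (F 1 L)) (S (F 1 L) (F 1 L))) (S L L)) (U (S L L) (T (F 1 L) (F 1 L))))) (S (V (U (T (S (F 1 L) (F 1 L)) (S (F 1 L) L)) (S L L)) (U (S (T (F 1 L) (F 1 L)) (S L L)) (S (F 1 L) (F 1 L)))) (V (U (T (S L L) (S (F 1 L) L)) (S L L)) (U (T L L) (T (F 1 L) (F 1 L)))))))
noncomputable def v11_12 : Tr := (V (S (T (S (V (U L (F 1 L)) (T (F 1 L) (F 1 L))) (V (U L (F 2 L)) (T (F 1 L) (S (F 1 L) (F 3 L))))) (S (V (U L (F 1 L)) (U (S (F 1 L) (F 1 L)) (F 1 L))) (V (U (S (F 2 L) (F 2 L)) (F 2 L)) (U L (F 1 L))))) (T (S (V (T (F 2 L) (S (F 2 L) (F 3 L))) (U L (F 1 L))) (V (T (F 2 L) (S (F 3 L) (F 2 L))) (U L (F 2 L)))) (S (V (U (S (F 2 L) (F 2 L)) (F 2 L)) (U (S (F 1 L) (F 2 L)) (F 1 L))) (V (U (S (F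 2 L) (F 2 L)) (F 2 L)) (U (S L (F 2 L)) (F 2 L)))))) (S (T (S (V (S (F 1 L) (F 1 L)) (S (F 1 L) (F 1 L))) (V (T (F 1 L) (S (F 1 L) (F 3 L))) (T (F 1 L) (F 1 L)))) (S (V (T (S (F 3 L) (F 1 L)) (F 1 L)) (T (F 1 L) (F 1 L))) (V (U (S (F 1 L) (F 1 L)) (F 1 L)) (T (F 1 L) (S (F 1 L) (F 1 L)))))) (T (S (V (T (F 1 L) (F 1 L)) (T (F 1 L) (S (F 3 L) (F 3 L)))) (V (T (F 1 L) (S (F 3 L) (F 1 L))) (T (F 1 L) (S (F 3 L) (F 1 L))))) (S (V (U (S (F 1 L) (F 1 L)) (F 1 L)) (T (F 1 L) (S (F 1 L) (F 1 L)))) (V (U L (F 1 L)) (T (S (F 1 L) (F 1 L)) (S (F 3 L) (F 1 L))))))))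
noncomputable def v11_13 : Tr := (S (T (S (V (U (T (S L L) (S L L)) (S L L)) (U (T (S (F 1 L) (F 1 L)) (S (F 1 L) (F 1 L))) (S L L))) (V (U (T (S L L) (S L L)) (S L L)) (U (T (S L L) (S L L)) (S L L)))) (S (V (U (T (S L L) (S L L)) (S L L)) (U (T (S (F 1 L) (F 1 L)) (S (F 1 L) L)) (S L L))) (V (U (T (S L L) (S L L)) (S L L)) (U (T (S L L) (S L L)) (S L L))))) (T (S (V (U (T (S L L) (S L L)) (S L L)) (U (T (S L L) (S L L)) (S L L))) (V (U (T (S (F 2 L) (F 2 L)) (S (F 2 L) (F 2 L))) (S L L)) (U (T (S L L) (S L L)) (S L L)))) (S (V (U (T (S L L) (S L L)) (S L L)) (U (T (S L L) (S L L)) (S L L))) (V (U (T (S (F 2 L) (F 2 L)) (S (F 2 L) (F 2 L))) (S L L)) (U (T (S L L) (S L L)) (S L L))))))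
noncomputable def v11_14 : Tr := (S (T (S (V (U (T (S (F 1 L) (F 1 L)) L) (T (F 1 L) (F 1 L))) (U (T (S (F 1 L) (F 1 L)) (S (F 1 L) (F 1 L))) (S (F 1 L) (F 1 L)))) (V (U (T L L) (T (S (F 1 L) (F 1 L)) (F 1 L))) (U (T (S (F 1 L) (F 1 L)) (S (F 1 L) (F 1 L))) (T (F 1 L) (F 1 L))))) (S (V (U (T L L) (T (F 1 L) (F 1 L))) (U (T (S (F 1 L) (F 1 L)) (S (F 1 L) (F 1 L))) (S (F 1 L) (F 1 L)))) (V (T (S L L) (S L L)) (U (T (S (F 1 L) (F 1 L)) (S (F 1 L) (F 1 L))) (T (F 1 L) (F 1 L)))))) (T (S (V (U (T (S L (F 1 L)) (S (F 1 L) L)) (S L L)) (U (T (S (F 1 L) (F 1 L)) L) (T (F 1 L) (F 1 L)))) (V (T (U (S L L) L) (U (S L L) L)) (U (T L L) (T (F 1 L) (S (F 1 L) (F 1 L)))))) (S (V (U (T (S (F 1 L) (F 1 L)) (S (F 1 L) (F 1 L))) (S L L)) (U (T L L) (T (F 1 L) (F 1 L)))) (V (U (T (S L L) (S L L)) (S L L)) (U (T L L) (T (S (F 1 L)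 (F 1 L)) (F 1 L)))))))
noncomputable def v11_15 : Tr := (V (S (T (S (V (S L L) (U (S (F 1 L) (F 1 L)) (F 1 L))) (V (T L L) (U L (F 1 L)))) (S (V (S L L) (U (S (F 1 L) (F 1 L)) (F 1 L))) (V (S L L) (U (S (F 1 L) (F 1 L)) (F 1 L))))) (T (S (V (U (S (F 2 L) (F 2 L)) (F 2 L)) (S L L)) (V (U (S (F 2 L) (F 2 L)) (S (F 3 L) (F 3 L))) (T L L))) (S (V (U (S (F 2 L) (F 2 L)) (F 2 L)) (S L L)) (V (U (S (F 2 L) (F 2 L)) (F 2 L)) (S L L))))) (S (T (S (V (U (S (F 1 L) (F 1 L)) (F 1 L)) (T (S (F 1 L) (F 1 L)) (S (F 1 L) (F 1 L)))) (V (U (S (F 1 L) (F 1 L)) (F 1 L)) (T (F 1 L) (S (F 1 L) (F 1 L))))) (S (V (U (S (F 1 L) (F 1 L)) (F 1 L)) (T (F 1 L) (F 1 L))) (V (U (S (F 1 L) (F 1 L)) (F 1 L)) (T (S (F 1 L) (F 1 L)) (S (F 1 L) (F 1 L)))))) (T (S (V (U (S (F 1 L) (F 1 L)) (F 1 L)) (U (S (F 1 L) (F 1 L)) (F 1 L))) (V (U (S (F 1 L)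 (F 1 L)) (F 1 L)) (U (S (F 1 L) (F 1 L)) (F 1 L)))) (S (V (U (S (F 1 L) (F 1 L)) (F 1 L)) (U (S (F 1 L) (F 1 L)) (F 1 L))) (V (U (S (F 1 L) (F 1 L)) (F 1 L)) (U (S (F 1 L) (F 1 L)) (F 1 L)))))))
noncomputable def v11_16 : Tr := (T (U (V (S (T (S (V (U (T L (S (F 1 L) L)) (S L L)) (T (U L (F 1 L)) (S L L))) (V (U (T (S (F 2 L) (F 2 L)) (S L L)) (S L L)) (U (T L (S (F 1 L) (F 1 L))) (S L L)))) (S (V (U (T (S L L) (S L L)) (S L L)) (U (T L (S (F 1 L) L)) (S L L))) (V (U (T (S L L) (S L L)) (S L L)) (U (T (S L L) (S (F 1 L) L)) (S L L))))) (T (S (V (U (T L (S L (F 2 L))) (S L L)) (U (T (S (F 1 L) L) (S L L)) (S L L))) (V (U (T L L) (S L L)) (U (T (S (F 2 L) (F 2 L)) (S (F 2 L) L)) (S L L)))) (S (V (U (T (S L L) (S L L)) (S L L)) (T (U (S L L) L) (U (S L L) L))) (V (U (T (S (F 2 L) (F 2 L)) (S L (F 2 L))) (S L L)) (U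 (T (S L L) (S L L)) (S L L)))))) v11_11) v11_12) (U (V v11_13 v11_14) v11_15))
noncomputable def v11_17 : Tr := (S (T (V (S (U (T L L) (T (F 2 L) (F 2 L))) (U (T (S (F 2 L) (F 2 L)) (S (F 2 L) (F 2 L))) (S (F 2 L) (F 2 L)))) (S (U (T (S (F 2 L) (F 2 L)) (S (F 2 L) (F 2 L))) (S L L)) (U (T L L) (S L L)))) (S (V (U (T L L) (T (F 2 L) (S (F 2 L) (F 2 L)))) (U (T (S L L) (S L (F 2 L))) (S L L))) (V (U (S (S L L) (T (F 2 L) (F 2 L))) (T (F 2 L) (F 2 L))) (U (T L (S (F 2 L) (F 2 L))) (S L L))))) (T (S (V (U (T (F 2 L) (S (F 2 L) (F 2 L))) (S (F 2 L) (F 2 L))) (U (T L L) (T (F 2 L) (F 2 L)))) (V (U (T (F 2 L) (F 2 L)) (S (F 2 L) (F 130 L))) (U (T (S (F 2 L) (F 130 L)) (S (F 2 L) (F 130 L))) (S (F 2 L) (F 2 L))))) (S (V (U (T (S (F 2 L) (F 2 L)) (S (F 2 L) (F 2 L))) (S (F 2 L) (F 2 L))) (U (T L L) (T (F 2 L) (F 2 L))))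 (V (U (T (F 2 L) (F 2 L)) (S (F 2 L) (F 2 L))) (U (T (S (F 2 L) (F 2 L)) (S (F 2 L) (F 2 L))) (S (F 2 L) (F 2 L)))))))
noncomputable def v11_18 : Tr := (V (S (T (S (V (T (F 2 L) (F 2 L)) (T (F 2 L) (S (F 2 L) (F 3 L)))) (V (T (F 2 L) (F 2 L)) (T (F 2 L) (S (F 3 L) (F 3 L))))) (S (V (T (S (F 2 L) (F 2 L)) (S (F 2 L) (F 2 L))) (U L (F 2 L))) (V (U (S (F 2 L) (F 2 L)) (F 2 L)) (U (S (F 2 L) (F 2 L)) (F 2 L))))) (T (S (V (T (F 2 L) (F 2 L)) (T (F 2 L) (F 2 L))) (V (S (F 2 L) (F 2 L)) (S (F 2 L) (F 2 L)))) (S (V (T (F 2 L) (F 2 L)) (T (F 2 L) (S (F 2 L) (F 2 L)))) (V (S (F 2 L) (F 2 L)) (T (F 2 L) (F 2 L)))))) (S (T (S (V (U L (F 1 L)) (T (F 1 L) (S (F 3 L) (F 3 L)))) (V (U L (F 2 L)) (T (F 1 L) (S (F 1 L) (F 3 L))))) (S (V (U L (F 1 L)) (U (S (F 1 L) (F 1 L)) (F 1 L))) (V (U L (F 2 L)) (U L (F 1 L))))) (T (S (V (T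 (F 2 L) (S (F 3 L) (F 3 L))) (T (F 1 L) (F 1 L))) (V (T (F 2 L) (F 2 L)) (S (F 2 L) (F 2 L)))) (S (V (U L (F 2 L)) (U L (F 1 L))) (V (T (F 2 L) (F 2 L)) (T (F 2 L) (F 2 L)))))))
noncomputable def v11_19 : Tr := (S (T (V (S (U (T (S (F 2 L) (F 2 L)) L) (T (F 2 L) (S (F 2 L) (F 2 L)))) (U (S (S L L) (T (F 2 L) (F 2 L))) (T (F 2 L) (F 2 L)))) (S (U (T (S L L) (S L L)) (S L L)) (U (T (S (F 2 L) (F 2 L)) (S (F 2 L) (F 2 L))) (S L L)))) (S (V (U (T (S (F 2 L) (F 2 L)) L) (T (S (F 2 L) (F 2 L)) (F 2 L))) (U (T (S L (F 2 L)) (S L (F 2 L))) (S L L))) (V (U (S L (T (F 2 L) (F 2 L))) (T (F 2 L) (F 2 L))) (U (T (S (F 2 L) (F 2 L)) (S L (F 2 L))) (S L L))))) (T (S (V (U (T (S (F 2 L) (F 2 L)) (S (F 2 L) (F 2 L))) (S (F 2 L) (F 2 L))) (U (T L L) (T (F 2 L) (F 2 L)))) (V (U (T (F 2 L) (F 2 L)) (S (F 2 L) (F 2 L))) (U (T (S (F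 2 L) (F 2 L)) (S (F 2 L) (F 2 L))) (S (F 2 L) (F 2 L))))) (S (V (U (T (S (F 2 L) (F 2 L)) (S (F 2 L) (F 2 L))) (S (F 2 L) (F 2 L))) (U (T L L) (T (F 2 L) (F 2 L)))) (V (U (T (F 2 L) (F 2 L)) (S (F 2 L) (F 2 L))) (U (T (S (F 2 L) (F 2 L)) (S (F 2 L) (F 514 L))) (S (F 2 L) (F 2 L)))))))
noncomputable def v11_20 : Tr := (S (T (S (V (U (T (S L L) (S L L)) (S L L)) (U (T (S (F 1 L) (F 1 L)) (S (F 1 L) (F 1 L))) (S L L))) (V (U (T (S L L) (S L L)) (S L L)) (U (T (S (F 1 L) L) (S (F 1 L) L)) (S L L)))) (S (V (U (T (S L L) (S L L)) (S L L)) (U (T (S (F 1 L) (F 1 L)) (S (F 1 L) (F 1 L))) (S L L))) (V (U (T (S L L) (S L L)) (S L L)) (U (T (S (F 1 L) L) (S L (F 1 L))) (S L L))))) (T (S (V (U (T (S (F 2 L) (F 2 L)) (S L (F 2 L))) (S L L)) (U (T (S L L) (S L L)) (S L L))) (V (U (T L L) (S L (F 2 L))) (U (T (S L (F 2 L)) (S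 (F 2 L) (F 2 L))) (S L L)))) (S (V (U (T (S (F 2 L) (F 2 L)) (S (F 2 L) (F 2 L))) (S L L)) (U (T (S L (F 1 L)) (S L L)) (S L L))) (V (U (T L L) (S L (F 2 L))) (U (T L L) (S L L))))))
noncomputable def v11_21 : Tr := (V (S (T (S (V (U (S (F 2 L) (F 2 L)) (F 2 L)) (U L (F 2 L))) (V (T (S (F 2 L) (F 2 L)) (F 2 L)) (U (S (F 2 L) (F 2 L)) (F 2 L)))) (S (V (U (S (F 2 L) (F 2 L)) (F 2 L)) (U L (F 2 L))) (V (U (S (F 2 L) (F 2 L)) (F 2 L)) (U (S (F 2 L) (F 2 L)) (F 2 L))))) (T (S (V (T (F 2 L) (F 2 L)) (T (S (F 3 L) (F 2 L)) (S (F 3 L) (F 3 L)))) (V (S (F 2 L) (F 2 L)) (S (F 2 L) (F 2 L)))) (S (V (T (F 2 L) (F 2 L)) (T (F 2 L) (S (F 3 L) (F 3 L)))) (V (S (F 2 L) (F 2 L)) (T (F 2 L) (F 2 L)))))) (S (T (S (V (S L L) (U (S (F 1 L) (F 1 L)) (F 1 L))) (V (U L (F 2 L)) (U L (F 1 L)))) (S (T (V L (S (F 1 L) (F 1 L))) (U (V (F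 1 L) (F 1 L)) (F 1 L))) (V (U L (F 2 L)) (U L (F 1 L))))) (T (S (V (U L (F 2 L)) (U L (F 1 L))) (V (T (F 2 L) (F 2 L)) (T (F 2 L) (F 2 L)))) (S (V (T (S (F 2 L) (F 3 L)) (S (F 3 L) (F 3 L))) (U L (F 1 L))) (V (T (F 2 L) (F 2 L)) (T (F 2 L) (F 2 L)))))))
noncomputable def v11_22 : Tr := (V (S (T (S (V (U (S (F 1 L) (F 1 L)) (F 1 L)) (T (F 1 L) (F 1 L))) (V (U (S (F 1 L) (F 1 L)) (S (F 1 L) (F 1 L))) (U (S (F 1 L) (F 1 L)) (F 1 L)))) (S (V (U (T (F 1 L) (F 1 L)) (S (F 1 L) (F 1 L))) (U (S (F 1 L) (F 1 L)) (S (F 1 L) (F 1 L)))) (V (U (T (F 1 L) (F 1 L)) (S (F 1 L) (F 1 L))) (U (S (F 1 L) (F 1 L)) (S (F 1 L) (F 1 L)))))) (T (S (V (U (T (F 1 L) (F 1 L)) (S (F 1 L) (F 1 L))) (U (S (F 1 L) (F 1 L)) (S (F 9 L) (F 1 L)))) (V (U (T (S (F 1 L) (F 1 L)) (S (F 1 L) (F 1 L))) (S (F 1 L) (F 1 L))) (U (S (F 1 L) (F 1 L)) (S (F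 1 L) (F 1 L))))) (S (V (U (T (F 1 L) (S (F 1 L) (F 1 L))) (S (F 1 L) (F 1 L))) (U (T (F 1 L) (F 1 L)) (S (F 1 L) (F 1 L)))) (V (U (T (S (F 1 L) (F 1 L)) (S (F 1 L) (F 1 L))) (S (F 1 L) (F 1 L))) (U (T (F 1 L) (F 1 L)) (S (F 1 L) (F 1 L))))))) (S (T (S (U (K 6) (S (F 1 L) (F 1 L))) (V (T (F 1 L) (F 1 L)) (S (K 6) (F 1 L)))) (S (V (T (F 1 L) (F 1 L)) (K 6)) (V (U (S (F 1 L) (F 1 L)) (F 1 L)) (T (F 1 L) (F 1 L))))) (T (S (V (T (F 1 L) (S (F 1 L) (F 1 L))) (S (F 1 L) (F 1 L))) (V (U (S (F 1 L) (F 1 L)) (F 1 L)) (T (F 1 L) (F 1 L)))) (S (V (U (S (F 1 L) (F 1 L)) (S (F 1 L) (F 1 L))) (T (F 1 L) (F 1 L))) (V (U (S (F 1 L) (F 1 L)) (S (F 1 L) (F 1 L))) (U (S (F 1 L) (F 1 L)) (F 1 L)))))))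
noncomputable def v11_23 : Tr := (S (T (S (V (U (T (F 1 L) (F 1 L)) (S (F 1 L) (F 1 L))) (U (S (F 1 L) (F 1 L)) (S (F 1 L) (F 1 L)))) (V (U (T (S (F 1 L) (F 1 L)) (F 1 L)) (S (F 1 L) (F 1 L))) (U (S (F 1 L) (F 1 L)) (S (F 1 L) (F 1 L))))) (S (V (U (T (F 1 L) (F 1 L)) (S (F 1 L) (F 1 L))) (U (S (F 1 L) (F 1 L)) (S (F 1 L) (F 1 L)))) (V (U (T (F 1 L) (F 1 L)) (S (F 1 L) (F 1 L))) (U (S (F 1 L) (F 1 L)) (S (F 1 L) (F 1 L)))))) (T (S (V (U (T (S (F 1 L) (F 1 L)) (S (F 1 L) (F 1 L))) (S (F 1 L) (F 1 L))) (U (T (F 1 L) (F 1 L)) (S (F 1 L) (F 1 L)))) (V (U (T (S (F 1 L) (F 1 L)) (S (F 1 L) (F 1 L))) (S (F 1 L) (F 1 L))) (T (U (F 1 L) (F 1 L)) (S (F 1 L) (S (F 1 L) (F 1 L)))))) (S (V (T (U (F 1 L) (F 1 L)) (U (F 1 L) (F 1 L))) (U (S (F 1 L) (F 1 L)) (S (F 1 L) (F 1 L)))) (V (U (T (S (F 1 L) (F 1 L)) (S (F 1 L) (F 1 L)))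 (S (F 1 L) (F 1 L))) (U (T (F 1 L) (F 1 L)) (S (F 1 L) (F 1 L)))))))
noncomputable def v11_24 : Tr := (V (S (T (S (V (S (F 1 L) (F 1 L)) (S (F 1 L) (F 1 L))) (V (T (F 1 L) (F 1 L)) (S (F 1 L) (F 1 L)))) (S (V (T (F 1 L) (F 1 L)) (S (F 1 L) (F 1 L))) (V (T (F 1 L) (F 1 L)) (S (F 1 L) (F 1 L))))) (T (S (V (T (F 1 L) (F 1 L)) (S (F 1 L) (F 1 L))) (V (T (F 1 L) (S (F 1 L) (F 1 L))) (T (F 1 L) (F 1 L)))) (S (V (T (S (F 1 L) (F 1 L)) (S (F 1 L) (F 1 L))) (S (F 1 L) (F 1 L))) (V (T (S (F 1 L) (F 1 L)) (S (F 1 L) (F 1 L))) (T (F 1 L) (F 1 L)))))) (S (T (S (V (S (F 1 L) (F 1 L)) (S (F 1 L) (F 1 L))) (V (S (F 1 L) (F 1 L)) (S (F 1 L) (F 1 L)))) (S (V (S (F 1 L) (F 1 L)) (S (F 1 L) (F 1 L))) (V (S (F 1 L) (F 1 L)) (S (F 1 L) (F 1 L))))) (T (S (V (S (F 1 L) (F 1 L)) (S (F 1 L) (F 1 L))) (V (S (F 1 L) (F 1 L)) (S (F 1 L) (F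 1 L)))) (S (V (S (F 1 L) (F 1 L)) (S (F 1 L) (F 1 L))) (V (S (F 1 L) (F 1 L)) (S (F 1 L) (F 1 L)))))))
noncomputable def v11_25 : Tr := (T (U v11_22 (V (S (T (S (V (S (F 1 L) (F 1 L)) (S (F 9 L) (F 9 L))) (V (S (F 1 L) (F 1 L)) (S (F 1 L) (F 1 L)))) (S (V (S (F 1 L) (F 1 L)) (S (F 1 L) (F 1 L))) (V (T (F 1 L) (F 1 L)) (S (F 1 L) (F 1 L))))) (T (S (V (S (F 1 L) (F 1 L)) (S (F 1 L) (F 1 L))) (V (T (F 1 L) (F 1 L)) (S (F 1 L) (F 1 L)))) (S (V (T (F 1 L) (F 1 L)) (S (F 1 L) (F 1 L))) (V (T (F 1 L) (F 1 L)) (T (F 1 L) (F 1 L)))))) (S (T (S (V (F 1 L) (F 1 L)) (V (F 1 L) (F 1 L))) (S (V (S (F 1 L) (F 1 L)) (S (F 1 L) (F 1 L))) (V (S (F 1 L) (F 1 L)) (S (F 1 L) (F 1 L))))) (T (S (V (S (F 1 L) (F 1 L)) (F 1 L)) (V (S (F 1 L) (F 1 L)) (S (F 1 L) (F 1 L)))) (S (V (S (F 1 L) (F 1 L)) (S (F 1 L) (F 1 L))) (V (S (F 1 L) (F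 1 L)) (S (F 1 L) (F 1 L)))))))) (U (V v11_23 (S (V (T (S (U (K 6) (F 1 L)) (U (S (K 6) (F 1 L)) (F 1 L))) (S (U (K 6) (F 1 L)) (U (S (K 6) (F 1 L)) (S (F 1 L) (F 1 L))))) (K 6)) (T (S (V (T (S (F 1 L) (F 1 L)) (S (F 1 L) (F 1 L))) (T (F 1 L) (F 1 L))) (V (U (S (F 1 L) (F 1 L)) (S (F 1 L) (F 1 L))) (U (S (K 6) (F 1 L)) (F 1 L)))) (S (V (U (S (F 1 L) (F 1 L)) (S (F 1 L) (F 1 L))) (U (K 6) (F 1 L))) (V (U (S (F 1 L) (F 1 L)) (S (F 1 L) (F 1 L))) (U (S (K 6) (F 1 L)) (S (F 1 L) (F 1 L)))))))) v11_24))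
noncomputable def v11_26 : Tr := (V (S (T (S (V (U (T (S (F 1 L) (F 1 L)) (S (F 1 L) (F 1 L))) (S (F 1 L) (F 1 L))) (U (T (F 1 L) (F 1 L)) (S (F 1 L) (F 1 L)))) (V (U (T L L) (T (F 1 L) (F 1 L))) (U (T (F 1 L) (F 1 L)) (S (F 1 L) (F 1 L))))) (S (V (U (S (T (F 1 L) (F 1 L)) (S L L)) (T (F 1 L) (F 1 L))) (U (T (F 1 L) (F 1 L)) (S (F 1 L) (F 1 L)))) (V (U (T L L) (T (F 1 L) (F 1 L))) (U (T (S (F 1 L) (F 1 L)) (S (F 1 L) (F 1 L))) (S (F 1 L) (F 1 L)))))) (T (S (V (U (T L L) (S L L)) (U (T (S (F 129 L) (F 129 L)) (S (F 1 L) (F 1 L))) (S (F 1 L) (F 1 L)))) (V (U (T L L) (S L (F 1 L))) (U (S L L) (S (F 1 L) (F 1 L))))) (S (V (U (T L L) (S L L)) (U (T (S (F 1 L) (F 1 L)) (S (F 1 L) (F 1 L))) (S (F 1 L) (F 1 L)))) (V (U (T L L) (S L L)) (U (S L L) (S (F 1 L) (F 1 L))))))) (S (T (S (V (U (S (F 1 L) (F 1 L)) (S (F 1 L) (F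 1 L))) (T (F 1 L) (S (F 1 L) (F 1 L)))) (V (U (S (F 1 L) (F 1 L)) (S (F 1 L) (F 1 L))) (U (S (F 1 L) (F 1 L)) (F 1 L)))) (S (V (U (S (F 1 L) (F 1 L)) (S (F 1 L) (F 1 L))) (U (S (F 1 L) (F 1 L)) (F 1 L))) (V (U (T (F 1 L) (F 1 L)) (S (F 1 L) (F 1 L))) (U (S (F 1 L) (F 1 L)) (S (F 1 L) (F 1 L)))))) (T (S (V (U (T (F 1 L) (F 1 L)) (S (F 1 L) (F 1 L))) (U (S (F 1 L) (F 1 L)) (F 1 L))) (V (U (T (F 1 L) (F 1 L)) (S (F 1 L) (F 1 L))) (U (S (F 1 L) (F 1 L)) (F 1 L)))) (S (V (U (T (F 1 L) (F 1 L)) (S (F 1 L) (F 1 L))) (U (S (F 1 L) (F 1 L)) (S (F 1 L) (F 1 L)))) (V (U (T (F 1 L) (F 1 L)) (S (F 1 L) (F 1 L))) (U (S (F 1 L) (F 1 L)) (S (F 1 L) (F 1 L))))))))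
noncomputable def v11_27 : Tr := (V (S (T (S (V (T (F 1 L) (F 1 L)) (S (F 1 L) (F 1 L))) (V (T (F 1 L) (F 1 L)) (T (F 1 L) (F 1 L)))) (S (V (T (S (F 1 L) (F 3 L)) (F 1 L)) (T (F 1 L) (F 1 L))) (V (T (S (F 3 L) (F 3 L)) (S (F 1 L) (F 3 L))) (T (F 1 L) (F 1 L))))) (T (S (V (T (F 1 L) (F 1 L)) (T (F 1 L) (F 1 L))) (V (S (F 1 L) (F 1 L)) (T (F 1 L) (F 1 L)))) (S (V (T (S (F 1 L) (F 3 L)) (F 1 L)) (T (F 1 L) (F 1 L))) (V (T (F 1 L) (F 1 L)) (T (F 1 L) (F 1 L)))))) (S (T (S (V (S (F 1 L) (F 1 L)) (S (F 1 L) (F 1 L))) (V (S (F 1 L) (F 1 L)) (S (F 1 L) (F 1 L)))) (S (V (S (F 1 L) (F 1 L)) (S (F 1 L) (F 1 L))) (V (S (F 1 L) (F 1 L)) (S (F 1 L) (F 1 L))))) (T (S (V (S (F 1 L) (F 1 L)) (S (F 1 L) (F 1 L))) (V (S (F 1 L) (F 1 L)) (S (F 1 L) (F 1 L)))) (S (V (S (F 1 L) (F 1 L)) (S (F 1 L) (F 1 L))) (V (S (F 1 L) (F 1 L)) (S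 (F 1 L) (F 1 L)))))))
noncomputable def v11_28 : Tr := (S (T (S (V (U (S (T (F 1 L) (F 1 L)) (S L L)) (T (F 1 L) (F 1 L))) (U (T (F 1 L) (S (F 1 L) (F 1 L))) (S (F 1 L) (F 1 L)))) (V (U (T L L) (T (F 1 L) (F 1 L))) (U (T (S (F 1 L) (F 1 L)) (S (F 1 L) (F 1 L))) (S (F 1 L) (F 1 L))))) (S (V (U (S (T (F 1 L) (F 1 L)) (S L L)) (T (F 1 L) (F 1 L))) (T (U (S (F 1 L) (F 1 L)) (F 1 L)) (U (S (F 1 L) (F 1 L)) (F 1 L)))) (V (U (T L L) (T (F 1 L) (F 1 L))) (U (T (S (F 1 L) (F 1 L)) (S (F 1 L) (F 1 L))) (S (F 1 L) (F 1 L)))))) (T (V (S (U (T (S (F 1 L) (F 1 L)) L) (S L L)) (U (T (S (F 1 L) (F 1 L)) L) (S L L))) (S (U (S (T (F 1 L) (F 1 L)) L) (S (F 1 L) (F 1 L))) (U (S L L) (S (F 1 L) (F 1 L))))) (S (V (U (T L L) (S L L)) (U (T (S (F 1 L) (F 1 L)) (S (F 1 L) (F 1 L))) (S (F 1 L) (F 1 L)))) (V (U (T L L) (S L L)) (U (S L L)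 (S (F 1 L) (F 1 L)))))))
noncomputable def v11_29 : Tr := (V (S (T (S (V (U (S (F 1 L) (F 1 L)) (F 1 L)) (T (F 1 L) (F 1 L))) (V (T (S (F 1 L) (F 3 L)) (S (F 1 L) (F 1 L))) (T (F 1 L) (F 1 L)))) (S (V (U (S (F 1 L) (F 1 L)) (F 1 L)) (T (F 1 L) (F 1 L))) (V (T (S (F 3 L) (F 1 L)) (S (F 1 L) (F 3 L))) (T (F 1 L) (F 1 L))))) (T (S (V (T (S (F 3 L) (F 3 L)) (F 1 L)) (T (F 1 L) (F 1 L))) (V (T (F 1 L) (F 1 L)) (T (F 1 L) (F 1 L)))) (S (V (T (S (F 3 L) (F 3 L)) (F 1 L)) (T (F 1 L) (F 1 L))) (V (T (F 1 L) (F 1 L)) (T (F 1 L) (F 1 L)))))) (S (T (S (V (T (F 1 L) (F 1 L)) (S (F 1 L) (F 1 L))) (V (S (F 1 L) (F 1 L)) (S (F 1 L) (F 1 L)))) (S (V (S (F 1 L) (F 1 L)) (S (F 1 L) (F 1 L))) (V (S (F 1 L) (F 1 L)) (S (F 1 L) (F 1 L))))) (T (S (V (S (F 1 L) (F 1 L)) (S (F 1 L) (F 1 L))) (V (S (F 1 L) (F 1 L)) (S (F 1 L) (F 1 L))))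 (S (V (S (F 1 L) (F 1 L)) (S (F 1 L) (F 1 L))) (V (S (F 1 L) (F 1 L)) (S (F 1 L) (F 1 L)))))))
noncomputable def v11_30 : Tr := (V (S v11_16 (T (U (V v11_17 (S (T (S (V (U (T (S (F 1 L) L) (S L L)) (S L L)) (U (T L L) (S L L))) (V (U (T (S (F 2 L) (F 2 L)) L) (S L L)) (U (T L (S (F 1 L) L)) (S L L)))) (S (V (U (T (S L L) (S L L)) (S L L)) (U (T (S (F 1 L) (F 1 L)) (S (F 1 L) (F 1 L))) (S L L))) (V (U (T (S L L) (S L L)) (S L L)) (U (T (S L (F 1 L)) (S L (F 1 L))) (S L L))))) (T (S (V (U (T L (S (F 2 L) (F 2 L))) (S L L)) (U (T L (S L (F 1 L))) (S L L))) (V (T (U L (F 2 L)) (S L L)) (U (T L L) (S L (F 2 L))))) (S (V (U (T (S (F 2 L) (F 2 L)) (S (F 2 L) (F 2 L))) (S L L)) (U (T L (S L L)) (S L L))) (V (U (T L L) (S L (F 2 L))) (U (T (S L (F 2 L)) (S (F 2 L) (F 2 L))) (S L L))))))) v11_18) (U (V v11_19 v11_20) v11_21)))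 (S v11_25 (T (U v11_26 v11_27) (U (V v11_28 (S (T (S (V (U (S (F 1 L) (F 1 L)) (S (F 1 L) (F 1 L))) (U (S (F 1 L) (F 1 L)) (S (F 1 L) (F 1 L)))) (V (U (T (F 1 L) (F 1 L)) (S (F 1 L) (F 1 L))) (T (S (F 1 L) (F 1 L)) (S (F 1 L) (F 1 L))))) (S (V (U (T (F 1 L) (F 1 L)) (S (F 1 L) (F 1 L))) (U (S (F 1 L) (F 1 L)) (S (F 1 L) (F 1 L)))) (V (U (T (F 1 L) (F 1 L)) (S (F 1 L) (F 1 L))) (U (S (F 1 L) (F 1 L)) (S (F 1 L) (F 1 L)))))) (T (S (V (U (T (F 1 L) (F 1 L)) (S (F 1 L) (F 1 L))) (U (S (F 1 L) (F 1 L)) (S (F 1 L) (F 1 L)))) (V (U (T (F 1 L) (F 1 L)) (S (F 1 L) (F 1 L))) (U (S (F 1 L) (F 1 L)) (S (F 1 L) (F 1 L))))) (S (V (U (T (F 1 L) (F 1 L)) (S (F 1 L) (F 1 L))) (U (S (F 1 L) (F 1 L)) (S (F 1 L) (F 1 L)))) (V (U (T (F 1 L) (F 1 L)) (S (F 1 L) (F 1 L))) (U (S (F 1 L) (F 1 L)) (F 1 L))))))) v11_29))))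
noncomputable def v11_31 : Tr := (U (V (S (T (S (U (S (F 3 L) (F 3 L)) (F 3 L)) (V (S (F 3 L) (F 3 L)) (S (F 3 L) (F 3 L)))) (S (V (S (F 3 L) (F 3 L)) (S (F 3 L) (F 3 L))) (V (S (F 3 L) (F 3 L)) (S (F 3 L) (F 3 L))))) (T (S (V (S (F 3 L) (F 3 L)) (S (F 3 L) (F 3 L))) (V (S (F 3 L) (F 3 L)) (S (F 3 L) (F 3 L)))) (S (V (S (F 3 L) (F 3 L)) (S (F 3 L) (F 3 L))) (V (S (F 3 L) (F 3 L)) (S (F 3 L) (F 3 L)))))) (S (T (S (S (F 1 L) (F 1 L)) (V (S (F 3 L) (F 3 L)) (F 1 L))) (S (V (F 1 L) (F 1 L)) (V (F 1 L) (F 1 L)))) (T (S (V (S (F 3 L) (F 3 L)) (F 1 L)) (V (S (F 3 L) (F 3 L)) (S (F 3 L) (F 3 L)))) (S (V (S (F 3 L) (F 3 L)) (F 1 L)) (V (S (F 3 L) (F 3 L)) (F 1 L)))))) (V (S (T (S (F 3 L) (S (F 3 L) (F 3 L))) (S (S (F 3 L) (F 3 L)) (S (F 3 L) (F 3 L)))) (T (S (F 3 L) (S (F 3 L) (F 3 L))) (S (S (F 3 L) (F 3 L)) (S (F 3 L)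 (F 3 L))))) (S (T (S (F 3 L) (F 3 L)) (S (S (F 3 L) (F 3 L)) (S (F 3 L) (F 3 L)))) (T (S (S (F 3 L) (F 3 L)) (S (F 3 L) (F 3 L))) (S (S (F 3 L) (F 3 L)) (S (F 3 L) (F 3 L)))))))
noncomputable def v11_32 : Tr := (U (V (S (T (S (V (S (F 3 L) (F 3 L)) (S (F 3 L) (F 3 L))) (V (S (F 3 L) (F 3 L)) (S (F 3 L) (F 3 L)))) (S (V (S (F 3 L) (F 3 L)) (S (F 3 L) (F 3 L))) (U (T (F 3 L) (F 3 L)) (S (F 3 L) (F 3 L))))) (T (S (V (S (F 3 L) (F 3 L)) (S (F 3 L) (F 3 L))) (V (S (F 3 L) (F 3 L)) (S (F 3 L) (F 3 L)))) (S (V (S (F 3 L) (F 3 L)) (S (F 3 L) (F 3 L))) (V (S (F 3 L) (F 3 L)) (S (F 3 L) (F 3 L)))))) (S (T (S (V (S (F 3 L) (F 3 L)) (F 1 L)) (V (F 1 L) (F 1 L))) (S (V (S (F 3 L) (F 3 L)) (S (F 3 L) (F 3 L))) (V (S (F 3 L) (F 3 L)) (S (F 3 L) (F 3 L))))) (T (S (V (S (F 3 L) (F 3 L)) (S (F 3 L) (F 1 L))) (V (S (F 3 L) (F 3 L))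 (F 1 L))) (S (V (S (F 3 L) (F 3 L)) (F 1 L)) (V (S (F 3 L) (F 3 L)) (F 1 L)))))) (V (S (T (S (S (F 3 L) (F 3 L)) (S (F 3 L) (F 3 L))) (S (S (F 3 L) (F 3 L)) (S (F 3 L) (F 3 L)))) (T (S (S (F 3 L) (F 3 L)) (S (F 3 L) (F 3 L))) (S (S (F 3 L) (F 3 L)) (S (F 3 L) (F 3 L))))) (S (T (S (S (F 3 L) (F 3 L)) (S (F 3 L) (F 3 L))) (S (S (F 3 L) (F 3 L)) (S (F 3 L) (F 3 L)))) (T (S (S (F 3 L) (F 3 L)) (S (F 3 L) (F 3 L))) (S (S (F 3 L) (F 3 L)) (S (F 3 L) (F 3 L)))))))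
noncomputable def v11_33 : Tr := (U (V (S (T (S (V (S (F 3 L) (F 3 L)) (S (F 3 L) (F 3 L))) (U (S (F 3 L) (F 3 L)) (S (F 3 L) (F 3 L)))) (S (V (F 2 L) (S (F 3 L) (F 3 L))) (V (F 2 L) (S (F 3 L) (F 3 L))))) (T (S (V (F 2 L) (S (F 3 L) (F 3 L))) (S (F 2 L) (F 2 L))) (S (T (F 2 L) (F 2 L)) (S (F 2 L) (F 2 L))))) (S (T (S (V (S (F 3 L) (F 3 L)) (S (F 3 L) (F 3 L))) (V (S (F 3 L) (F 3 L)) (S (F 3 L) (F 3 L)))) (S (V (S (F 3 L) (F 3 L)) (S (F 3 L) (F 3 L))) (V (S (F 3 L) (F 3 L)) (S (F 3 L) (F 3 L))))) (T (S (V (S (F 3 L) (F 3 L)) (S (F 3 L) (F 3 L))) (V (F 3 L) (F 3 L))) (S (V (S (F 3 L) (F 3 L)) (S (F 3 L) (F 3 L))) (V (S (F 3 L) (F 3 L)) (S (F 3 L) (F 3 L))))))) (S (V (T (S (S (F 3 L) (F 3 L)) (S (F 3 L) (F 3 L))) (S (S (F 3 L) (F 3 L)) (S (F 3 L) (F 3 L)))) (T (S (F 3 L) (F 3 L)) (S (S (F 3 L) (F 3 L)) (S (F 3 L)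 (F 3 L))))) (V (T (S (F 3 L) (F 3 L)) (S (S (F 3 L) (F 3 L)) (F 3 L))) (T (S (F 3 L) (F 3 L)) (S (S (F 3 L) (F 3 L)) (F 3 L))))))
noncomputable def v11_34 : Tr := (U (V (S (T (S (V (S (F 3 L) (F 3 L)) (S (F 3 L) (F 3 L))) (V (F 2 L) (S (F 3 L) (F 3 L)))) (V (S (F 2 L) (F 2 L)) (S (S (F 3 L) (F 3 L)) (S (F 3 L) (F 3 L))))) (T (S (T (F 2 L) (F 2 L)) (S (F 2 L) (F 2 L))) (S (S (S (F 2 L) (F 2 L)) (F 2 L)) (S (F 2 L) (F 2 L))))) (S (T (S (V (S (F 3 L) (F 3 L)) (S (F 3 L) (F 3 L))) (V (S (F 3 L) (F 3 L)) (S (F 3 L) (F 3 L)))) (S (V (S (F 3 L) (F 3 L)) (S (F 3 L) (F 3 L))) (V (S (F 3 L) (F 3 L)) (S (F 3 L) (F 3 L))))) (T (S (V (S (F 3 L) (F 3 L)) (S (F 3 L) (F 3 L))) (V (S (F 3 L) (F 3 L)) (S (F 3 L) (F 3 L)))) (S (V (S (F 3 L) (F 3 L)) (S (F 3 L) (F 3 L))) (V (S (F 3 L) (F 3 L)) (S (F 3 L) (F 3 L))))))) (V (S (T (S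 (S (F 3 L) (F 3 L)) (S (F 3 L) (F 3 L))) (S (S (F 3 L) (F 3 L)) (S (F 3 L) (F 3 L)))) (T (S (S (F 3 L) (F 3 L)) (S (F 3 L) (F 515 L))) (S (S (F 3 L) (F 3 L)) (F 3 L)))) (S (T (S (S (F 3 L) (F 3 L)) (S (F 3 L) (F 3 L))) (S (S (F 3 L) (F 3 L)) (S (F 3 L) (F 3 L)))) (T (S (S (F 3 L) (F 3 L)) (S (F 3 L) (F 3 L))) (S (S (F 3 L) (F 3 L)) (F 3 L))))))
noncomputable def v11_35 : Tr := (T (U (V (S (T (S (S (F 1 L) (F 1 L)) (S (F 1 L) (F 1 L))) (S (V (F 1 L) (F 1 L)) (V (F 1 L) (F 1 L)))) (T (S (S (F 1 L) (F 1 L)) (T (F 1 L) (F 1 L))) (S (V (F 1 L) (F 1 L)) (V (F 1 L) (F 1 L))))) (S (T (S (S (F 1 L) (F 1 L)) (S (F 1 L) (F 1 L))) (S (T (F 1 L) (F 1 L)) (T (F 1 L) (F 1 L)))) (T (S (S (F 1 L) (F 1 L)) (S (F 1 L) (F 1 L))) (S (V (F 1 L) (F 1 L)) (T (F 1 L) (F 1 L)))))) (V (S (T (S (F 3 L) (S (F 3 L) (F 3 L))) (S (F 1 L) (S (F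 3 L) (F 3 L)))) (T (S (S (F 3 L) (F 3 L)) (S (F 3 L) (F 3 L))) (S (S (F 3 L) (F 3 L)) (S (F 3 L) (F 3 L))))) (S (T (S (F 9 L) (F 1 L)) (S (F 1 L) (S (F 1 L) (F 1 L)))) (T (S (F 1 L) (F 1 L)) (S (F 1 L) (F 1 L)))))) (U (V (S (T (S (V (F 1 L) (F 1 L)) (V (F 1 L) (F 1 L))) (S (V (F 1 L) (F 1 L)) (V (F 1 L) (F 1 L)))) (T (S (V (F 1 L) (F 1 L)) (V (F 1 L) (F 1 L))) (S (V (F 1 L) (F 1 L)) (V (F 1 L) (F 1 L))))) (S (T (S (V (F 1 L) (F 1 L)) (V (F 1 L) (F 1 L))) (S (V (F 1 L) (F 1 L)) (V (F 1 L) (F 1 L)))) (T (S (V (F 1 L) (F 1 L)) (V (F 1 L) (F 1 L))) (S (V (F 1 L) (F 1 L)) (V (F 1 L) (F 1 L)))))) (V (S (T (S (S (F 1 L) (F 1 L)) (S (F 1 L) (F 3 L))) (S (S (F 1 L) (F 1 L)) (S (F 1 L) (F 3 L)))) (T (S (S (F 3 L) (F 3 L)) (S (F 3 L) (F 3 L))) (S (S (F 3 L) (F 3 L)) (S (F 3 L) (F 3 L))))) (S (T (S (S (F 1 L) (F 1 L)) (S (F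 1 L) (F 1 L))) (S (S (F 1 L) (F 1 L)) (S (F 1 L) (F 1 L)))) (T (S (S (F 1 L) (F 1 L)) (S (F 1 L) (F 1 L))) (S (S (F 1 L) (F 1 L)) (S (F 1 L) (F 1 L))))))))
noncomputable def v11_36 : Tr := (T (U (V (S (T (S (S (F 1 L) (F 1 L)) (T (S (F 3 L) (F 3 L)) (F 1 L))) (S (V (F 1 L) (F 1 L)) (T (F 1 L) (F 1 L)))) (T (S (U (F 1 L) (S (F 3 L) (F 3 L))) (V (F 3 L) (S (F 3 L) (F 131 L)))) (S (V (S (F 3 L) (F 3 L)) (F 1 L)) (V (S (F 3 L) (F 3 L)) (S (F 3 L) (F 3 L)))))) (S (T (S (S (F 1 L) (F 1 L)) (S (F 1 L) (F 1 L))) (S (T (F 1 L) (F 1 L)) (T (F 1 L) (F 1 L)))) (T (S (S (F 1 L) (F 1 L)) (S (F 1 L) (F 1 L))) (S (T (F 1 L) (F 1 L)) (S (F 1 L) (F 1 L)))))) (S (V (T (S (S (F 3 L) (F 3 L)) (S (F 3 L) (F 3 L))) (S (S (F 3 L) (F 3 L)) (S (F 3 L) (F 3 L)))) (T (S (S (F 3 L) (F 3 L)) (F 3 L)) (S (F 1 L) (S (F 3 L) (F 3 L))))) (V (T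 (S (F 3 L) (F 3 L)) (S (S (F 3 L) (F 3 L)) (F 3 L))) (T (S (F 3 L) (F 3 L)) (S (S (F 3 L) (F 3 L)) (F 3 L)))))) (U (V (S (T (S (V (F 1 L) (F 1 L)) (T (F 1 L) (F 1 L))) (S (V (F 1 L) (F 1 L)) (T (F 1 L) (F 1 L)))) (T (S (V (S (F 3 L) (F 3 L)) (F 1 L)) (V (S (F 3 L) (F 3 L)) (S (F 3 L) (F 3 L)))) (S (V (S (F 3 L) (F 3 L)) (F 1 L)) (V (S (F 3 L) (F 515 L)) (S (F 3 L) (F 515 L)))))) (S (T (S (V (F 1 L) (F 1 L)) (V (F 1 L) (F 1 L))) (S (V (F 1 L) (F 1 L)) (T (F 1 L) (F 1 L)))) (T (S (T (F 1 L) (F 1 L)) (S (F 1 L) (F 1 L))) (S (S (F 1 L) (F 1 L)) (S (F 1 L) (F 1 L)))))) (V (S (T (S (S (F 3 L) (F 3 L)) (S (F 3 L) (F 3 L))) (S (S (F 3 L) (F 3 L)) (S (F 3 L) (F 3 L)))) (T (S (S (F 3 L) (F 3 L)) (F 3 L)) (S (S (F 3 L) (F 3 L)) (F 3 L)))) (S (T (S (F 1 L) (S (F 3 L) (F 3 L))) (S (F 1 L) (S (F 3 L) (F 3 L)))) (T (S (S (F 3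 L) (F 3 L)) (F 3 L)) (S (S (F 3 L) (F 3 L)) (F 3 L)))))))
noncomputable def v11_37 : Tr := (V (S (T (S (V (T (F 130 L) (F 130 L)) (U (S (F 130 L) (F 130 L)) (F 130 L))) (V (S (F 130 L) (F 130 L)) (T (F 130 L) (F 130 L)))) (S (T (V (F 2 L) (F 2 L)) (V (F 2 L) (S (F 2 L) (F 2 L)))) (V (T (F 130 L) (S (F 130 L) (F 130 L))) (U (S (F 130 L) (F 130 L)) (S (F 130 L) (F 130 L)))))) (T (S (V (F 130 L) (S (F 130 L) (F 130 L))) (V (F 130 L) (S (F 130 L) (F 138 L)))) (S (V (S (F 130 L) (F 130 L)) (T (F 130 L) (F 130 L))) (V (F 130 L) (S (F 130 L) (F 130 L)))))) (S (T (S (V (U (S (F 130 L) (F 130 L)) (F 138 (S L L))) (U (S (F 128 L) (F 128 L)) (S (F 130 L) (F 130 L)))) (V (T (F 130 L) (S (F 130 L) (F 130 L))) (U (S (F 130 L) (F 130 L)) (F 130 L)))) (S (V (U (S (F 128 L) (F 2 L)) (F 2 L)) (U (S L L) L)) (T (V (S (F 130 L) (F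 130 L)) (S (F 2 L) (F 130 L))) (V (S (F 2 L) (F 130 L)) (S (F 2 L) (F 2 L)))))) (T (S (V (T (F 130 L) (F 130 L)) (U (S (F 130 L) (F 130 L)) (F 130 L))) (V (S (F 130 L) (F 130 L)) (T (F 130 L) (F 130 L)))) (S (V (U (S (F 130 L) (F 130 L)) (F 130 L)) (U (T (F 130 L) (F 130 L)) (S (F 130 L) (F 130 L)))) (V (T (F 130 L) (F 130 L)) (U (S (F 130 L) (F 130 L)) (F 130 L)))))))
noncomputable def v11_38 : Tr := (T (U (V (F 138 (S (T (S (V L L) (V L L)) (S (V (S L L) (T L (S L L))) (V (S L L) (S L L)))) (T (V (S L (F 1 L)) (S L L)) (S (V L (S L L)) (V L L))))) (S (T (F 138 (S (V L (S L L)) (V L (S L L)))) (S (V (F 138 (U (S L L) L)) (U (F 136 L) (F 138 L))) (V (F 138 (U L L)) (T (F 138 L) (F 130 L))))) (T (F 138 (S (V L L) (V L L))) (S (V (F 138 (S L L)) (T (F 138 L) (F 130 L))) (F 138 (V (S L L) (S L L))))))) (F 138 (V (S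 (T (S L L) (S (T L L) (S L L))) (T (S L L) (S (S L L) L))) (S (T (S (S (F 64 L) (F 64 L)) (S (F 64 L) (F 64 L))) (V (S L L) (S (S (F 64 L) (F 64 L)) (S (F 64 L) (F 64 L))))) (T (S (S (F 64 L) (F 64 L)) L) (S (T L L) (S L L))))))) (U v11_37 (V (S (T (S (V (F 130 L) (F 130 L)) (V (F 138 L) (F 130 L))) (S (V (S (F 130 L) (F 130 L)) (F 2 L)) (V (S (F 130 L) (F 130 L)) (S (F 130 L) (F 130 L))))) (T (S (S (F 130 L) (F 130 L)) (S (F 130 L) (F 130 L))) (S (V (F 130 L) (F 130 L)) (S (F 130 L) (F 130 L))))) (S (T (S (V (F 130 L) (F 131 (S L L))) (V (F 130 L) (F 130 L))) (S (U (T (F 2 L) (F 2 L)) (F 2 L)) (T (V (F 130 L) (F 130 L)) (S (F 2 L) (F 2 L))))) (T (S (V (F 130 L) (F 130 L)) (S (F 130 L) (F 130 L))) (S (V (S (F 130 L) (F 131 L)) (S (F 130 L) (F 131 L))) (T (F 130 L) (F 130 L))))))))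
noncomputable def v11_39 : Tr := (T (U (V (F 138 (S (T (S L L) (S (T L L) (S L (F 1 L)))) (T (S (F 1 L) (F 5 L)) (S L (F 1 L))))) (S (T (F 138 (V (S (F 1 L) (F 1 L)) (S L (F 1 L)))) (S (T (F 138 (S L L)) (S (F 130 L) (F 138 L))) (T (F 138 L) (F 130 L)))) (F 138 (T (S L (F 1 L)) (V (S (F 1 L) (F 1 L)) (S (F 1 L) (F 1 L))))))) (F 138 (V (S (T (S (F 64 L) (F 1 L)) (S L (F 1 L))) (T (F 1 L) (S (F 1 L) (F 65 L)))) (S (T (S L (F 64 L)) (V L L)) (T (F 65 (S L L)) (S (F 1 L) (F 65 L))))))) (U (V (S (T (S (S (F 130 L) (F 130 L)) (F 130 L)) (S (T (F 130 L) (F 130 L)) (F 642 (V L L)))) (F 642 (T (S L (F 16 L)) (S (S L L) L)))) (S (T (S (V (F 130 L) (S (F 130 L) (F 130 L))) (T (F 130 L) (F 130 L))) (S (V (S (F 130 L) (F 642 L)) (S (F 130 L) (F 130 L))) (F 642 (V (S L L) (S L L))))) (F 642 (T (S (V (F 16 L) L) (S L L)) (S (V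 L L) (S L L)))))) (V (S (T (S (F 130 L) (F 642 L)) (S (F 130 L) (F 642 L))) (F 642 (T (S (F 16 L) (F 16 L)) (S L (F 16 L))))) (S (T (V (F 130 L) (F 130 L)) (S (S (F 130 L) (F 130 L)) (F 642 (S L L)))) (F 642 (T (S L (F 16 L)) (S L L)))))))
noncomputable def v11_40 : Tr := (U (V (S (T (S (F 137 (U (T L L) L)) (V (F 138 (S L L)) (F 137 (S L (F 64 L))))) (V (S (S (F 136 L) (F 136 L)) (S (F 136 L) (F 136 L))) (S (T (F 137 (S L (F 64 L))) (F 129 L)) (U (F 136 L) (F 137 L))))) (T (F 138 (V (S (S (F 64 L) L) L) (U (S (F 64 L) (F 64 L)) (S (F 64 L) (F 64 L))))) (S (V (T (F 138 L) (F 130 L)) (S (F 136 L) (F 136 L))) (V (T (F 138 L) (F 130 L)) (S (F 136 L) (F 130 L)))))) (S (T (F 137 (S (V L L) (V (S L (F 64 L)) L))) (S (V (T (F 137 L) (F 129 L)) (F 137 (S L L))) (V (T (F 137 L) (F 129 L)) (S (F 137 L) (F 129 L))))) (T (F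 137 (S (V L L) (V L L))) (S (V (S (F 129 L) (F 129 L)) (S (F 137 L) (F 129 L))) (V (S (F 129 L) (F 129 L)) (S (F 129 L) (F 137 L))))))) (V (S (T (F 139 (S (S L L) (S L L))) (S (F 137 (V (S (F 64 L) (F 64 L)) L)) (F 131 (U (T (F 32 L) L) (F 32 L))))) (F 131 (T (S (S (F 32 L) (F 32 L)) (S (F 32 L) (F 32 L))) (S (V (S (F 32 L) (F 32 L)) (S (F 32 L) (F 32 L))) (T (F 32 L) L))))) (S (T (F 137 (S L (S (F 64 L) (F 64 L)))) (S (F 137 (S L L)) (T (F 137 L) (F 129 L)))) (T (F 139 (S (S L L) (S L L))) (S (S (F 137 L) (F 131 L)) (F 131 (S L L)))))))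
noncomputable def v11_41 : Tr := (V (S (T (V (S (T (F 128 L) (S (F 128 L) (F 128 L))) (T (F 128 L) (S (F 128 L) (F 130 L)))) (S (U (S (F 128 L) (F 129 L)) (S (F 137 L) (F 129 L))) (U (S (F 129 L) (F 129 L)) (F 129 L)))) (S (V (U (S L L) L) (U (S (F 128 L) L) (S (F 129 L) (F 129 L)))) (T (V (S (F 128 L) (F 128 L)) (S (F 128 L) (F 128 L))) (V (S (F 128 L) (F 128 L)) (S (F 128 L) (F 128 L)))))) (T (V (S (U (F 128 L) (F 130 L)) (T (F 130 L) (S (F 130 L) (F 642 L)))) (S (S (F 128 L) (F 128 L)) (S (F 128 L) (F 128 L)))) (V (S (T (S (F 128 L) (F 130 L)) (S (F 128 L) (F 128 L))) (U (S (F 130 L) (F 130 L)) (F 130 L))) (S (U (S (F 128 L) (F 128 L)) (F 128 L)) (T (F 128 L) (F 128 L)))))) (S (T (S (V (U (S (F 129 L) (F 129 L)) (F 129 L)) (T (F 129 L) (S (F 129 L) (F 129 L)))) (V (U (S (F 129 L) (F 129 L)) (F 129 L)) (U (F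 129 L) (F 129 L)))) (S (V (U (S (F 1 L) (F 1 L)) (F 1 L)) (U (S (F 129 L) (F 129 L)) (S (F 129 L) (F 129 L)))) (V (T (U (F 129 L) (F 129 L)) (S (F 1 L) (F 1 L))) (T (S (F 129 L) (F 129 L)) (F 1 L))))) (T (S (V (U (S (F 129 L) (F 129 L)) (F 129 L)) (T (F 129 L) (S (F 129 L) (F 129 L)))) (V (U (F 128 L) (F 129 L)) (U (F 129 L) (F 129 L)))) (S (V (U (S (F 128 L) (F 128 L)) (S (F 129 L) (F 129 L))) (U (S (F 129 L) (F 129 L)) (F 129 L))) (V (U (F 128 L) (F 129 L)) (U (S (F 129 L) (F 129 L)) (F 129 L)))))))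
noncomputable def v11_42 : Tr := (U (V (S (T (S (V (S (F 130 L) (F 130 L)) (S (F 130 L) (F 130 L))) (V (F 130 L) (S (F 130 L) (F 642 L)))) (S (V (T (F 130 L) (F 130 L)) (T (F 130 L) (F 130 L))) (F 642 (V (T L L) (T L (S L (F 64 L))))))) (F 642 (T (S (V L (S L L)) (T L L)) (S (V (S L L) (S L L)) (T L L))))) (S (T (S (V (F 128 L) (S (F 129 L) (F 129 L))) (V (S (F 640 L) (F 642 L)) (S (F 129 L) (F 641 L)))) (V (S (S (F 128 L) (F 128 L)) (S (F 640 L) (F 640 L))) (S (T (F 129 L) (F 641 (S L L))) (U (F 640 L) (F 641 L))))) (T (V (F 642 (S (S L L) L)) (F 641 (U (S L (F 64 L)) (S (F 64 L) (F 80 L))))) (S (V (F 642 (S L L)) (S (F 641 L) (F 642 L))) (F 642 (V (S L (F 64 L)) (S L (F 64 L)))))))) (V (S (T (S (V (F 642 L) (F 131 L)) (S (F 131 L) (F 642 L))) (S (V (F 642 L) (F 131 L)) (F 642 (U L (F 64 L))))) (F 642 (S (T L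 (S L (F 64 L))) (T L L)))) (S (T (F 131 (S (V L L) (V (F 1 L) (F 1 L)))) (S (V (F 131 (S L (F 1 L))) (F 641 L)) (F 643 (U (T L L) L)))) (F 643 (T (S (T L L) (S L L)) (S (T L L) (S L L)))))))
noncomputable def v11_43 : Tr := (S (T v11_40 (U v11_41 (V (S (T (S (V (U (F 129 L) (F 139 L)) (F 131 (S L L))) (F 131 (V (S L L) (S L L)))) (S (V (S (F 1 L) (F 3 L)) (S (F 1 L) (F 1 L))) (V (U (F 130 L) (F 131 L)) (S (F 129 L) (F 129 L))))) (T (S (F 131 (U (T L L) (S L L))) (V (F 130 L) (F 131 (S L L)))) (S (V (S (F 130 L) (F 130 L)) (U (F 129 L) (F 131 L))) (V (F 130 L) (F 131 (S L L)))))) (S (T (S (V (F 129 L) (F 129 L)) (V (F 129 L) (F 129 L))) (S (V (S (F 129 L) (F 129 L)) (S (F 129 L) (F 129 L))) (T (S (F 129 L) (F 129 L)) (S (F 1 L) (F 129 L))))) (T (S (V (F 129 L) (F 129 L)) (U (F 129 L) (F 131 L))) (S (V (S (F 129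 L) (F 129 L)) (S (F 129 L) (F 129 L))) (V (F 131 (S L L)) (F 129 L)))))))) (T (U (V (S (T (F 138 (S (V L L) (T L L))) (S (V (F 138 (S L L)) (F 130 L)) (V (F 138 L) (F 130 L)))) (F 642 (T (U (K 3) (S (F 16 L) (F 80 L))) (V (T (F 80 (S L L)) L) (S L (F 16 L)))))) (S (T (F 137 (V (S (S (F 64 L) (F 64 L)) (F 64 L)) (S L (F 1 L)))) (S (V (F 129 L) (F 129 L)) (V (F 130 L) (F 129 L)))) (F 642 (T (F 80 (U (K 1) (V L L))) (V (S L (F 16 L)) (S (S (F 64 L) (F 64 L)) (S (F 64 L) (F 80 L)))))))) (V (S (F 131 (T (V (F 32 L) (F 32 L)) (S (T (F 32 L) L) (S (F 1 L) (F 1 L))))) (F 138 (T (S (F 64 L) (F 65 L)) (V (F 1 L) (F 65 (S L L)))))) (F 131 (S (T (S (F 32 L) (F 32 L)) (V L (S (F 1 L) (F 33 L)))) (T (F 33 (S L L)) (S (S (F 1 L) (F 1 L)) (F 1 L))))))) v11_42))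
noncomputable def v11_44 : Tr := (S (T (F 139 (U (S (V (T (S L L) (S (S L L) L)) (T (S L L) (S (S L L) (S L L)))) (V (T (S L (F 1 L)) (S L L)) (T (S L (F 1 L)) (S L L)))) (S (V (S (S L L) L) (T L (S L L))) (V (S L L) (S L L))))) (U (V (S (T (S (S (F 131 L) (F 138 L)) (F 130 L)) (S (S (F 130 L) (F 130 L)) (S (F 130 L) (F 130 L)))) (T (F 138 (S L L)) (S (F 130 L) (F 130 L)))) (S (T (F 131 (S (S L L) (S L L))) (S (T (F 3 L) (F 3 L)) (F 131 (V L L)))) (F 131 (T (S (S L (F 32 L)) L) (S (S L L) (S L L)))))) (F 131 (S (V (T (S (F 32 L) (F 32 L)) (S L L)) (T (S (F 32 L) (F 32 L)) (S L L))) (V (T (S (F 32 L) (F 33 L)) (S L (F 1 L))) (T L (S L (F 1 L)))))))) (T (F 138 (S (V (U (S L L) (S (F 64 L) (F 65 L))) (U (T (F 64 L) (S (F 64 L) (F 65 L))) (S (F 64 L) (F 65 L)))) (V (U (S (F 1 L) (F 1 L)) (F 65 (S L L))) (F 65 (U (T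 L (S L L)) (S L L)))))) (U (V (S (T (F 138 L) (F 642 (S L (F 64 L)))) (F 642 (S L L))) (F 131 (S (T (S L (F 1 L)) (S L (F 1 L))) (T (F 1 L) (S (F 1 L) (F 33 L)))))) (F 643 (S (V (S (S L L) L) (T L (S (F 16 L) (F 16 L)))) (V (S L (F 16 L)) (S L (F 16 L))))))))
noncomputable def v11_45 : Tr := (S (T (F 139 (U (S (V (T (S L L) (S (S L L) (S L L))) (T (S L L) (S (S L L) (S L L)))) (V (T (S L (F 1 L)) (S (S L L) L)) (T (S (F 1 L) (F 1 L)) (S L L)))) (S (V (T L L) (S L L)) (V (S L L) (S L L))))) (U (V (S (T (F 131 (S (S L L) (S L L))) (S (S (F 3 L) (F 3 L)) (T (F 131 L) (F 3 L)))) (F 131 (T (S (S L L) L) (S (T L L) (S L L))))) (S (T (F 131 (S (S L L) (S L L))) (V (U (F 129 L) (F 131 L)) (F 131 (S L L)))) (F 131 (T (V L L) (S (S L L) (S L L)))))) (F 131 (S (V (T (S (F 32 L) (F 32 L)) (S L L)) (T (S (F 32 L) (F 32 L))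 (S L L))) (V (T L (S L (F 1 L))) (T L (S (F 1 L) (F 1 L)))))))) (F 131 (T (S (V (U (T (F 32 L) (S (F 32 L) (F 33 L))) (S (F 32 L) (F 33 L))) (U (T (F 32 L) (S (F 1 L) (F 33 L))) (F 33 (S L L)))) (V (F 33 (U (T L (S L L)) (S L L))) (U (T (F 33 L) (F 1 L)) (F 33 (S L L))))) (U (S (V (T (S L (F 1 L)) (S (S (F 1 L) (F 1 L)) (F 1 L))) (T (S L (F 1 L)) (S (S (F 1 L) (F 1 L)) (F 1 L)))) (V (T (F 33 (S L L)) (S (F 1 L) (F 33 L))) (T (S (F 1 L) (F 33 L)) (S (F 1 L) (F 1 L))))) (S (V (T (F 1 L) (S (F 1 L) (F 33 L))) (T (F 1 L) (S (F 1 L) (F 33 L)))) (V (S (F 1 L) (F 1 L)) (S (F 1 L) (F 1 L))))))))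
noncomputable def v11_46 : Tr := (V (S (T (S (V (U (S (F 2 L) (F 130 L)) (F 2 L)) (U (T (F 2 L) (F 2 L)) (S (F 2 L) (F 130 L)))) (V (T (F 2 L) (F 2 L)) (T (F 2 L) (S (F 2 L) (F 130 L))))) (S (V (U (S (F 2 L) (F 2 L)) (S (F 130 L) (F 130 L))) (U (T (F 2 L) (F 2 L)) (S (F 2 L) (F 2 L)))) (V (T (F 2 L) (F 2 L)) (U (S (F 2 L) (F 2 L)) (F 2 L))))) (T (S (V (T (F 130 L) (F 130 L)) (T (S (F 130 L) (F 642 L)) (F 2 L))) (V (S (F 130 L) (F 642 L)) (S (F 130 L) (F 130 L)))) (S (V (S (F 2 L) (F 514 L)) (S (F 2 L) (F 2 L))) (V (S (F 130 L) (F 642 L)) (T (F 130 L) (F 642 (S L L))))))) (S (T (S (V (U (T (F 2 L) L) (S (F 2 L) (F 2 L))) (U (S L L) L)) (V (U (S (F 2 L) (F 2 L)) (F 2 L)) (U (S L (F 128 L)) (S (F 2 L) (F 2 L))))) (S (V (U (S L L) (S (F 2 L) (F 2 L))) (U (T L L) (S L (F 2 L)))) (V (U (T (F 2 L) (F 2 L)) (S (F 2 L)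 (F 130 L))) (U (S L L) (S (F 2 L) (F 2 L)))))) (T (S (V (T (S (F 130 L) (F 130 L)) (F 2 L)) (T (S (F 2 L) (F 130 L)) (S (F 2 L) (F 130 L)))) (V (T (F 130 L) (F 130 L)) (U (S (F 130 L) (F 642 L)) (F 130 L)))) (S (V (T (S (F 130 L) (F 130 L)) (F 2 L)) (U (S (F 2 L) (F 2 L)) (F 2 L))) (T (V (F 130 L) (F 2 L)) (V (F 514 L) (S (F 514 L) (F 642 L))))))))
noncomputable def v11_47 : Tr := (V (S (T (S (V (U (S (F 2 L) (F 2 L)) (F 2 L)) (U (T (F 2 L) (F 2 L)) (S (F 2 L) (F 2 L)))) (V (T (F 2 L) (F 2 L)) (U (S (F 2 L) (F 2 L)) (F 2 L)))) (S (V (T (S (F 2 L) (F 514 L)) (F 2 L)) (U (T (F 2 L) (F 2 L)) (S (F 514 L) (F 514 L)))) (V (T (F 2 L) (S (F 514 L) (F 642 L))) (T (F 2 L) (S (F 514 L) (F 514 L)))))) (T (S (V (S (F 514 L) (F 514 L)) (S (F 2 L) (S (F 514 L) (F 514 L)))) (V (F 642 (S L L)) (S (F 514 L) (F 514 L)))) (S (V (S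 (F 514 L) (F 514 L)) (T (F 514 L) (F 514 L))) (V (F 514 L) (S (F 514 L) (F 642 L)))))) (S (T (S (V (U (S L L) (S (F 2 L) (F 2 L))) (U (S L L) (S L (F 2 L)))) (V (U (S (F 2 L) (F 2 L)) (S (F 2 L) (F 514 L))) (U (S L L) (S (F 2 L) (F 2 L))))) (S (V (U (S L (S (F 2 L) (F 2 L))) (S (F 2 L) (F 2 L))) (U (S L L) L)) (V (T (S (F 2 L) (F 2 L)) (S (F 514 L) (F 514 L))) (U (S L (F 512 L)) (S (F 2 L) (F 514 L)))))) (T (S (V (T (F 2 L) (S (F 514 L) (F 514 L))) (T (S (F 2 L) (F 514 L)) (S (F 2 L) (F 514 L)))) (V (T (F 514 L) (F 514 L)) (U (S (F 514 L) (F 642 L)) (F 514 L)))) (S (V (U (S (F 514 L) (F 514 L)) (F 514 L)) (U (T (F 514 L) (F 514 L)) (S (F 514 L) (F 642 L)))) (V (S (F 514 L) (F 514 L)) (T (F 514 L) (F 514 L)))))))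
noncomputable def v11_48 : Tr := (T (U v11_46 (V (S (T (S (V (S (F 2 L) (F 130 L)) (S (F 2 L) (F 2 L))) (V (F 2 L) (F 2 L))) (S (V (S (F 2 L) (F 2 L)) (S (F 2 L) (F 2 L))) (V (F 2 L) (S (F 2 L) (F 130 L))))) (T (S (V (F 130 L) (S (F 130 L) (F 642 L))) (S (F 130 L) (F 130 L))) (S (T (F 2 L) (F 2 L)) (F 642 (V L (S L L)))))) (S (T (S (V (S (F 2 L) (F 2 L)) (S (F 2 L) (F 2 L))) (V (S (F 2 L) (F 130 L)) (S (F 2 L) (F 130 L)))) (S (V (S (F 2 L) (F 2 L)) (T (F 2 L) (F 2 L))) (V (S (F 2 L) (F 2 L)) (S (F 2 L) (F 2 L))))) (T (S (T (S (F 130 L) (F 130 L)) (S (F 130 L) (F 130 L))) (V (F 130 L) (F 130 L))) (S (V (F 2 L) (F 2 L)) (T (S (F 514 L) (F 642 L)) (F 514 L))))))) (U v11_47 (V (S (T (S (V (S (F 2 L) (F 2 L)) (S (F 2 L) (F 2 L))) (V (F 2 L) (F 2 L))) (S (V (F 2 L) (S (F 2 L) (F 2 L))) (V (S (F 514 L) (F 642 L)) (S (F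 514 L) (F 514 L))))) (T (S (V (F 514 L) (F 514 L)) (F 642 (V L L))) (S (T (F 514 L) (F 514 L)) (S (F 514 L) (F 642 L))))) (S (T (S (V (T (F 2 L) (F 2 L)) (T (F 2 L) (F 2 L))) (V (S (F 2 L) (F 514 L)) (S (F 2 L) (F 2 L)))) (S (V (S (F 2 L) (F 2 L)) (S (F 2 L) (F 2 L))) (T (S (F 2 L) (F 2 L)) (S (F 2 L) (F 514 L))))) (T (S (T (S (F 514 L) (F 514 L)) (S (F 2 L) (F 514 L))) (V (F 514 L) (F 514 L))) (S (V (F 514 L) (S (F 514 L) (F 514 L))) (T (F 514 L) (F 514 L))))))))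
noncomputable def v11_49 : Tr := (T (U (V (F 642 (S (T (S (V (S L L) (S L L)) (V L L)) (S (V (S L L) (S L L)) (T L L))) (T (S (S L L) L) (S (S L L) L)))) (S (T (S (V (S (F 130 L) (F 642 L)) (T (F 130 L) (F 642 (S L L)))) (F 642 (V (S L L) (S L L)))) (F 642 (S (V (T L L) (U (S L L) L)) (V L (S L L))))) (F 642 (T (S (V L L) (S L L)) (S (T L L) (S L L)))))) (F 642 (V (S (T (S (T L L) (S L L)) (S (S L L) L)) (T (S L (F 64 L)) (S L (F 64 L)))) (S (T (S (V L L) (S L L)) (S (V L L) (S L L))) (T (S L L) (S L L)))))) (U (V (F 642 (S (T (S (V L (S L L)) (T L L)) (S (V L L) (S L (F 1 L)))) (T (V L L) (S L (F 1 L))))) (S (T (F 642 (S (V (T L L) (T L L)) (V L (S L L)))) (S (V (F 642 (S L L)) (S (F 514 L) (F 642 L))) (F 642 (V L L)))) (F 642 (T (S (T L L) (S L L)) (V L (S (F 1 L) (F 65 L))))))) (S (V (F 642 (T (S (S L L) L)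 (S L (F 1 L)))) (T (F 642 (S (V L L) (S L L))) (S (S (F 514 L) (F 642 L)) (F 642 L)))) (F 642 (V (T (S L (F 1 L)) L) (T (S L (F 64 L)) (S (F 1 L) (F 65 L))))))))
noncomputable def v11_50 : Tr := (V (S (T (S (V (U (T L L) (S (F 1 L) (F 128 L))) (U (S L L) (S (F 1 L) (F 1 L)))) (V (U (S L L) L) (U (S L L) L))) (S (V (U (T L L) (S L L)) (S (T L L) (T L L))) (V (U (S L L) L) (U (S L L) L)))) (T (S (V (T L L) (T L (S (F 1 L) (F 128 L)))) (V (U (S (F 128 L) (F 640 L)) (F 130 L)) (T (S (F 130 L) (F 640 L)) (F 128 L)))) (S (V (T L L) (T L (S (F 1 L) (F 512 L)))) (V (U (S (F 512 L) (F 640 L)) (F 514 L)) (T (F 512 L) (S (F 512 L) (F 640 L))))))) (S (T (S (V (U (T (F 1 L) (F 1 L)) (S (F 1 L) (F 1 L))) (U (S (F 1 L) (F 1 L)) (F 1 L))) (V (U (S (F 1 L) (F 128 L)) (S (F 1 L) (F 129 L))) (U (S (F 1 L) (F 1 L)) (F 1 L)))) (S (V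 (U (T (F 1 L) (F 1 L)) (S (F 1 L) (F 1 L))) (U (S (F 1 L) (F 1 L)) (S (F 1 L) (F 513 L)))) (V (U (T (F 1 L) (F 1 L)) (S (F 1 L) (F 513 L))) (U (S (F 1 L) (F 1 L)) (F 1 L))))) (T (S (V (U L (F 1 L)) (T (F 1 L) (F 1 L))) (T (V (S (F 129 L) (F 640 L)) (S (F 129 L) (F 129 L))) (V (F 512 L) (F 1 L)))) (S (V (U L (F 1 L)) (T (S (F 513 L) (F 513 L)) (F 1 L))) (V (U (S (F 512 L) (F 512 L)) (S (F 640 L) (F 641 L))) (U (S (F 513 L) (F 513 L)) (F 513 L)))))))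
noncomputable def v11_51 : Tr := (V (S (T (S (V (U (T L L) (S L L)) (U (S L L) (S (F 1 L) (F 1 L)))) (V (U (S L L) L) (U (S L L) L))) (S (V (U (S L L) L) (U (S L L) (S (F 1 L) (F 512 L)))) (T (V (S L (F 512 L)) (S (F 512 L) (F 512 L))) (V (S (F 512 L) (F 512 L)) (S (F 512 L) (F 512 L)))))) (T (S (T (V L L) (V (S (F 512 L) (F 512 L)) (S (F 512 L) (F 512 L)))) (V (U (S (F 514 L) (F 514 L)) (F 514 L)) (T (F 512 L) (F 512 L)))) (V (S (U (S (F 512 L) (F 512 L)) (S (F 514 L) (F 514 L))) (U (S (F 514 L) (F 642 L)) (F 514 L))) (S (T (S (F 512 L) (F 513 L)) (F 512 L)) (S (F 512 L) (F 512 L)))))) (S (T (S (V (U (T (F 1 L) (F 1 L)) (S (F 1 L) (F 1 L))) (U (S (F 1 L) (F 1 L)) (S (F 513 L) (F 513 L)))) (V (U (T (F 1 L) (F 1 L)) (S (F 513 L) (F 513 L))) (U (S (F 1 L) (F 1 L)) (F 1 L)))) (S (V (U (T (F 1 L) (F 1 L)) (S (F 513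 L) (F 513 L))) (U (S (F 1 L) (F 1 L)) (F 1 L))) (V (T (S (F 1 L) (F 1 L)) (S (F 1 L) (S (F 513 L) (F 513 L)))) (T (S (F 513 L) (F 513 L)) (S (F 513 L) (F 513 L)))))) (T (S (V (U (S (F 512 L) (F 512 L)) (S (F 513 L) (F 513 L))) (U (T (F 513 L) (F 513 L)) (S (F 513 L) (F 513 L)))) (V (U (S (F 512 L) (F 513 L)) (F 513 L)) (U (S (F 513 L) (F 513 L)) (F 513 L)))) (S (V (U (S (F 512 L) (F 513 L)) (S (F 513 L) (F 515 L))) (U (S (F 513 L) (F 513 L)) (F 513 L))) (V (U (F 512 L) (F 513 L)) (T (S (F 513 L) (F 513 L)) (F 513 L)))))))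
noncomputable def v11_52 : Tr := (T (U v11_50 (V (S (T (V (U (S L (F 128 L)) (S (F 3 L) (F 3 L))) (S (S (F 1 L) (F 1 L)) (S (F 1 L) (F 1 L)))) (S (V (T (F 1 L) (F 1 L)) (S (F 1 L) (F 1 L))) (V (U (F 2 L) (F 3 L)) (S (F 1 L) (F 1 L))))) (T (S (V (S (F 130 L) (F 130 L)) (S (F 129 L) (F 3 L))) (V (F 130 L) (F 131 (T L L)))) (S (V (F 2 L) (S (F 1 L) (F 3 L))) (V (F 514 L) (S (F 3 L) (F 515 L)))))) (S (T (S (V (S (F 1 L) (F 1 L)) (S (F 1 L) (F 1 L))) (V (S (F 1 L) (F 1 L)) (F 1 L))) (S (V (S (F 1 L) (F 1 L)) (S (F 1 L) (F 1 L))) (V (S (F 1 L) (F 1 L)) (S (F 1 L) (F 513 L))))) (T (S (V (F 1 L) (F 1 L)) (T (S (F 129 L) (F 641 L)) (F 1 L))) (S (V (F 1 L) (F 1 L)) (V (F 513 L) (F 513 L))))))) (U v11_51 (V (S (T (S (V (T (F 1 L) (F 1 L)) (T (F 1 L) (F 1 L))) (V (U (F 512 L) (F 3 L)) (S (F 1 L) (F 1 L)))) (S (V (U (F 512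 L) (F 3 L)) (S (F 1 L) (F 1 L))) (V (U (S (F 514 L) (F 515 L)) (F 515 L)) (S (F 1 L) (F 513 L))))) (T (S (V (S (F 514 L) (F 514 L)) (U (F 513 L) (F 515 L))) (V (F 514 L) (F 515 (S L L)))) (S (V (S (F 514 L) (F 515 L)) (F 515 (T L L))) (V (F 514 L) (F 515 (S L L)))))) (S (T (S (V (S (F 1 L) (F 1 L)) (S (F 1 L) (F 1 L))) (V (S (F 1 L) (F 513 L)) (S (F 1 L) (F 513 L)))) (S (V (S (F 1 L) (F 1 L)) (F 1 L)) (V (S (F 513 L) (F 513 L)) (S (F 513 L) (F 513 L))))) (T (S (V (S (F 513 L) (F 513 L)) (S (F 513 L) (F 513 L))) (V (F 515 (S L L)) (F 513 L))) (S (V (S (F 513 L) (F 515 L)) (F 513 L)) (U (S (F 513 L) (F 515 L)) (F 515 L))))))))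
noncomputable def v11_53 : Tr := (U (V (S (T (S (V (U (S (F 130 L) (F 642 L)) (F 642 L)) (U (S (F 640 L) (F 640 L)) (F 642 (S L (F 64 L))))) (F 642 (V (T L L) (U (S L L) L)))) (S (V (F 642 (U (T L L) L)) (U (S (F 640 L) (F 640 L)) (F 642 (S L (F 64 L))))) (F 642 (V (T L L) (T (S L L) L))))) (F 642 (T (S (V (S L L) (S L L)) (V L L)) (S (V (S L L) (S L L)) (T L L))))) (S (T (V (S (T (S (F 640 L) (F 642 L)) (F 640 L)) (S (F 640 L) (F 640 L))) (S (U (S (F 640 L) (F 641 L)) (F 641 L)) (U (F 640 L) (F 641 L)))) (V (S (T (S (F 640 L) (F 642 L)) (F 512 L)) (S (F 640 L) (F 640 L))) (S (T (F 641 (S L L)) (F 513 L)) (U (F 640 L) (F 641 L))))) (T (S (V (F 642 (S L L)) (S (F 640 L) (F 642 L))) (F 642 (V L (S L (F 64 L))))) (V (F 642 (S (T L L) L)) (F 641 (U (S L (F 64 L)) (S (F 64 L) (F 64 L)))))))) (V (F 642 (S (T (S (V L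 (T (F 64 L) (F 64 L))) (T L L)) (V (S L (F 64 L)) (S (T (F 64 L) (F 64 L)) (S (F 64 L) (F 64 L))))) (S (T (S L (F 64 L)) (S L (F 64 L))) (T L L)))) (F 641 (S (T (S (V (T (F 64 L) (F 64 L)) (S L L)) (U (T (F 64 L) (F 64 L)) (F 64 L))) (S (V (T (F 64 L) (F 64 L)) L) (V (S (F 64 L) (F 64 L)) (S (F 64 L) (F 64 L))))) (T (S (V (F 64 L) (F 64 L)) (S (F 64 L) (F 64 L))) (S (T (F 64 L) (F 64 L)) (S (F 64 L) (F 64 L))))))))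
noncomputable def v11_54 : Tr := (U (V (S (T (S (V (T (F 514 L) (F 514 L)) (S (F 512 L) (F 514 L))) (F 642 (V (S L L) (T L L)))) (S (V (S (F 514 L) (F 514 L)) (S (F 514 L) (F 514 L))) (F 642 (V (S L L) (S L L))))) (F 642 (T (S (V L (S L (F 64 L))) (T L L)) (S (V (F 1 L) L) (S L (F 1 L)))))) (S (T (S (V (S (F 512 L) (F 512 L)) (T (F 513 L) (F 513 L))) (V (U (F 640 L) (F 642 L)) (F 641 (T L L)))) (S (V (S (F 514 L) (F 514 L)) (S (F 513 L) (F 513 L))) (V (F 514 L) (F 513 L)))) (T (V (F 642 (S (S L L) L)) (F 641 (S (S L (F 64 L)) (S (F 64 L) (F 64 L))))) (S (V (F 642 L) (F 641 (S (F 1 L) (F 64 L)))) (F 899 (U (K 4) L)))))) (V (S (T (V (F 642 (S L (F 64 L))) (F 515 (S L (F 2 L)))) (F 515 (S (T L L) (S L (F 2 L))))) (F 642 (T (V L (S (F 64 L) (F 65 L))) (S (F 64 L) (F 65 L))))) (S (T (S (V (F 515 L) (F 641 L)) (F 643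 (V L L))) (F 515 (S (T L L) L))) (F 643 (T (S (T L L) L) (S L (F 1 L)))))))
noncomputable def v11_55 : Tr := (T (U (V (S (T (S (S (F 2 L) (F 2 L)) (S (F 130 L) (F 130 L))) (S (S (F 2 L) (F 2 L)) (F 2 L))) (T (V (F 130 L) (F 131 (S L (F 1 L)))) (S (S (F 514 L) (F 642 L)) (F 642 (S L L))))) (S (T (S (V (F 3 L) (F 3 L)) (S (F 3 L) (F 3 L))) (S (V (F 3 L) (F 3 L)) (T (F 3 L) (F 3 L)))) (T (F 131 (S (T L L) (S L L))) (S (S (F 3 L) (F 3 L)) (F 643 (V L L)))))) (S (V (T (S (F 3 L) (F 131 L)) (S (F 3 L) (F 131 L))) (T (S (F 3 L) (F 131 L)) (S (F 3 L) (F 131 L)))) (V (F 131 (T (S L (F 1 L)) (S L (F 1 L)))) (T (F 131 (S L (F 1 L))) (F 515 (S L (F 2 L))))))) (U (V (S (T (S (S (F 2 L) (F 2 L)) (F 2 L)) (S (S (F 2 L) (F 514 L)) (S (F 514 L) (F 514 L)))) (T (S (F 514 L) (F 642 L)) (S (F 514 L) (F 642 L)))) (S (T (S (V (F 3 L)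 (F 3 L)) (T (F 3 L) (F 3 L))) (S (T (F 3 L) (F 3 L)) (T (F 3 L) (F 515 L)))) (F 515 (T (S (T L L) (S L (F 2 L))) (S (T L L) L))))) (S (V (T (S (F 3 L) (F 515 L)) (S (F 3 L) (F 515 L))) (T (S (F 3 L) (F 515 L)) (S (F 3 L) (F 515 L)))) (F 515 (V (T (S L (F 2 L)) (S (F 2 L) (F 3 L))) (T (S L (F 2 L)) (S (F 2 L) (F 2 L))))))))
noncomputable def v11_56 : Tr := (T (U (V (S (T (S (V (F 3 L) (F 3 L)) (T (F 3 L) (F 3 L))) (S (V (S (F 3 L) (F 131 L)) (F 3 L)) (T (F 3 L) (F 3 L)))) (T (F 131 (S (T L L) (S L L))) (S (S (F 3 L) (F 3 L)) (F 643 (V L L))))) (S (T (S (S (F 1 L) (F 1 L)) (T (F 3 L) (F 3 L))) (S (S (F 1 L) (F 1 L)) (T (F 3 L) (F 3 L)))) (T (S (T (F 131 L) (F 3 L)) (F 643 (V L L))) (S (S (F 3 L) (F 3 L)) (F 515 (S L L)))))) (S (V (T (S (F 3 L) (F 131 L)) (S (F 3 L) (F 3 L))) (T (S (F 3 L) (F 131 L)) (S (F 3 L) (F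 515 L)))) (V (T (F 131 (S L (F 1 L))) (F 515 (S L (F 2 L)))) (T (F 131 (S L (F 1 L))) (F 515 (S L (F 2 L))))))) (U (V (S (T (S (V (F 3 L) (F 3 L)) (S (F 3 L) (F 3 L))) (S (T (F 3 L) (F 3 L)) (F 515 (V L L)))) (F 515 (T (S (T L L) (S L L)) (S (S L L) L)))) (S (T (S (S (F 1 L) (F 1 L)) (S (F 3 L) (F 3 L))) (S (S (F 1 L) (F 3 L)) (F 515 (V L L)))) (F 515 (T (S (T L L) (S L L)) (S (S L L) L))))) (S (V (T (S (F 3 L) (F 515 L)) (S (F 3 L) (F 515 L))) (T (S (F 3 L) (F 515 L)) (S (F 3 L) (F 515 L)))) (F 515 (V (T (S L (F 2 L)) (S L (F 2 L))) (T (S L (F 2 L)) (S (F 2 L) (F 2 L))))))))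
noncomputable def v11_57 : Tr := (V (S v11_55 (F 642 (T (U (V (S (T (S L (F 64 L)) (S L (F 64 L))) (T L L)) (S (T (S (S (F 64 L) (F 64 L)) (F 64 L)) (V L (S (F 64 L) (F 64 L)))) (T (S (F 64 L) (F 64 L)) (S (F 64 L) (F 65 L))))) (S (V (T (S (F 64 L) (F 80 L)) (S (F 64 L) (F 64 L))) (T (S (F 64 L) (F 64 L)) (S (F 64 L) (F 64 L)))) (V (S (F 64 L) (F 64 L)) (S (F 64 L) (F 64 L))))) (U (S (V (T (S L (F 64 L)) L) (T (U L (F 64 L)) (S (F 64 L) (F 65 L)))) (V (S L (F 1 L)) (T (F 65 (S L L)) (F 64 L)))) (S (V (T (F 64 L) (F 64 L)) (T (S (F 64 L) (F 65 L)) (F 64 L))) (V (F 64 L) (F 65 (S L L)))))))) (S v11_56 (F 515 (T (U (S (V (T (S (S (F 2 L) (F 2 L)) (S (F 2 L) (F 2 L))) (S (S (F 2 L) (F 2 L)) (F 2 L))) (T (S (T (F 2 L) (F 2 L)) (S (F 2 L) (F 2 L))) (S (S (F 2 L) (F 2 L)) (F 2 L)))) (V (T (S (F 2 L) (F 2 L)) (S (F 2 L)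 (F 2 L))) (T (S (F 2 L) (F 2 L)) (S (F 2 L) (F 3 L))))) (S (V (T (S (F 2 L) (F 2 L)) (S (F 2 L) (F 2 L))) (T (S (F 2 L) (F 2 L)) (S (F 2 L) (F 2 L)))) (V (T (F 2 L) (F 2 L)) (T (F 2 L) (F 2 L))))) (U (S (V (T (S (S (F 2 L) (F 2 L)) (F 2 L)) (S (F 2 L) (F 3 L))) (T (S L (F 2 L)) (S L (F 3 L)))) (F 3 (V (T (S L L) (S L L)) (T (S L L) (S L L))))) (S (V (T (S (F 2 L) (F 3 L)) (F 2 L)) (T (S (F 2 L) (F 3 L)) (F 2 L))) (F 3 (V (S L L) (S L L)))))))))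
noncomputable def treeV11 : Tr := (F 0xffffffffffffffffffffffffffffffffe7fffff7773bfeefff (S (T v11_10 (U v11_30 (V (S (T v11_31 v11_32) (T v11_33 v11_34)) (S v11_35 v11_36)))) (T (U (V (S v11_38 v11_39) v11_43) (V v11_44 v11_45)) (U (V (S v11_48 v11_49) (S v11_52 (T v11_53 v11_54))) v11_57))))

theorem pV11 : chkV par treeV11 64 64 448 64 64 64 349525 436906 Lc = true := by decide +kernel

noncomputable def v12_0 : Tr := (T (U (V (S (T (S (F 68 L) (F 68 L)) (S (S (F 68 L) (F 68 L)) (T (F 68 L) (F 68 L)))) (T (S (S (F 68 L) (F 68 L)) (S (F 68 L) (F 68 L))) (S (V (F 68 L) (F 68 L)) (V (S (F 68 L) (F 68 L)) (F 68 L))))) (S (K 5) (V (T (F 68 L) (S (F 84 L) (F 68 L))) (K 5)))) (S (V (T (F 69 (S L L)) (S (F 68 L) (F 68 L))) (T (F 68 L) (S (F 84 L) (F 68 L)))) (V (T (S (F 69 L) (F 68 L)) (S (S (F 68 L) (F 68 L)) (S (F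 68 L) (F 68 L)))) (T (F 68 L) (S (F 68 L) (F 68 L)))))) (U (V (S (T (S (V (S (F 68 L) (F 68 L)) (K 5)) (V (F 64 L) (S (F 68 L) (F 68 L)))) (S (U (K 5) L) (V (S L L) L))) (T (S (V (S (F 68 L) (F 64 L)) (F 64 L)) (V (S (F 64 L) (F 64 L)) (S (F 68 L) (F 64 L)))) (S (V (S L L) (S (F 64 L) (F 64 L))) (V (S L L) (S (F 64 L) (F 64 L)))))) (S (K 5) (U (K 5) (S (K 5) (T (F 68 L) (S (F 64 L) (F 64 L))))))) (V (S (T (S (S (F 68 L) (F 68 L)) (T (F 68 L) (F 64 L))) (S (S L L) (S L L))) (T (S (S (F 64 L) (F 64 L)) (S (F 64 L) (F 64 L))) (S (S L L) (V L (F 64 L))))) (S (T (S (F 68 L) (S (F 68 L) (F 68 L))) (V (S (F 64 L) (F 64 L)) (K 5))) (T (S (F 64 L) (S (F 68 L) (F 64 L))) (S (T (F 64 L) L) (V (F 64 L) (F 64 L))))))))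
noncomputable def v12_1 : Tr := (S (T (S (F 70 (U (V (S (F 32 L) L) (S (F 40 L) (F 8 L))) (V (S (F 32 L) (F 32 L)) (F 32 L)))) (U (V (S (F 68 L) (F 68 L)) (S (F 84 L) (F 68 L))) (F 69 (V (S (F 32 L) L) (S (F 8 L) L))))) (U (S (V (T (S (F 84 L) (F 68 L)) (S (F 4 L) (F 4 L))) (T (F 84 (S (F 16 L) L)) (S (F 84 L) (F 68 L)))) (V (T (S (F 68 L) (F 68 L)) (S (S (F 4 L) (F 64 L)) L)) (T (F 84 (S L L)) (V (S (F 68 L) (F 68 L)) (F 68 L))))) (S (V (T (F 68 L) (S (F 68 L) (F 68 L))) (T (F 84 L) (S (F 84 L) (F 69 L)))) (V (T (F 68 L) (S (F 68 L) (F 68 L))) (T (F 68 L) (S (F 68 L) (F 68 L))))))) (T (U (V (S (F 69 (T L (S L L))) (T (F 68 L) (F 69 (S L L)))) (S (S (F 68 L) (F 68 L)) (S (F 68 L) (S (F 68 L) (F 68 L))))) (F 69 (V (S (S L L) (S L L)) (S (S L L) (S L L))))) (U (V (S (T (S (S (F 68 L) (F 68 L)) (S (F 68 L) (F 68 L)))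 (S L L)) (T (S (F 64 L) (F 64 L)) (S (S (F 64 L) (F 64 L)) (S (F 64 L) (F 64 L))))) (S (T (S (F 68 L) (F 68 L)) (S (F 64 L) (F 64 L))) (T (S (F 68 L) (F 68 L)) (S (S (F 64 L) (F 64 L)) (S (F 64 L) (F 64 L)))))) (V (S (T (F 69 (S L L)) (S (F 64 L) (F 64 L))) (T (F 69 (S L L)) (S (F 65 L) (F 65 L)))) (S (T (F 68 L) (S (F 68 L) (F 68 L))) (T (F 69 (S L L)) (S (F 65 L) (F 65 L))))))))
noncomputable def v12_2 : Tr := (U (V (S (T (U (V (S (F 84 (T L (K 2))) (V (T (F 68 L) (S (F 84 L) (F 68 L))) (K 5))) (K 5)) (V (S (S (F 70 L) (F 68 L)) (T (F 68 L) (S (F 68 L) (F 68 L)))) (S (K 5) (T (F 84 L) (F 68 L))))) (U (V (S (K 5) (U (K 5) (S (K 5) (T (F 68 L) L)))) (K 5)) (V (S (T (S (F 68 L) (F 68 L)) (V (S (F 68 L) (F 68 L)) (F 4 L))) (T (S (S (F 68 L) (F 68 L)) (T (F 68 L) (F 68 L))) (S (S (F 4 L) L) (S L L)))) (S (K 5) (T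 (S (K 5) (F 68 L)) (K 5)))))) v12_0) (S (K 5) (T (U (K 5) (V (S (K 5) (T (F 84 L) (F 68 L))) (K 5))) (U (K 5) (V (S (K 5) (S (K 5) (T (F 68 L) (F 479 (S (K 0) (K 0)))))) (K 5)))))) (V v12_1 (S (T (F 84 (U (V (S (F 16 L) (S (F 16 L) L)) (K 2)) (V (S (F 48 L) (F 32 L)) (F 48 (S (F 8 L) L))))) (V (S (F 84 (U (K 2) (S L L))) (U (F 84 (T L (K 2))) (S (F 84 (S L L)) (F 68 L)))) (F 84 (U (K 2) (S (K 2) (S (K 2) L)))))) (T (S (V (U (F 84 (S L L)) (F 68 L)) (F 85 (U (K 2) L))) (V (U (S (F 68 L) (F 68 L)) (F 68 L)) (F 340 (U (S L L) (S (F 16 L) (F 16 L)))))) (V (U (S (T (F 84 (S L L)) (S (F 80 L) (F 80 L))) (T (S (F 84 L) (F 68 L)) (S (F 64 L) (F 64 L)))) (S (T (F 68 L) (S (F 68 L) (F 68 L))) (T (F 68 L) (F 64 L)))) (S (F 84 (U (K 2) (T (F 32 L) (S (F 32 L) L)))) (T (F 84 (U (S (K 2) (F 1 L)) L)) (U (K 5) (F 80 L)))))))))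
noncomputable def v12_3 : Tr := (T (U (V (S (T (S (U (K 5) (S L L)) (V (T L L) (S (K 5) L))) (S (V (T L L) (K 5)) (V (U (S L L) L) (S (K 5) L)))) (T (S (V (T L L) (S L L)) (V (T L (S (F 64 L) (F 64 L))) (S L L))) (S (V (T L (S L L)) (T L L)) (V (T (S L L) L) (T L L))))) (S (K 5) (S (K 5) (U (K 5) (T (S (K 5) (F 64 L)) (S (K 5) L)))))) (V (S (T (S (V L L) (V L L)) (S (V (S L L) (S L L)) (V (S L L) L))) (T (S (V L L) (V L L)) (S (V (S L L) L) (V (S L L) L)))) (S (U (K 5) (V (T L L) (K 5))) (T (S (S L L) (S L L)) (S (V L L) (T L L)))))) (U (V (S (T (S (U (K 5) (T L L)) (V (U (S L L) L) (S (K 5) L))) (S (U (K 5) (T L L)) (V (U (S L L) L) (S (K 5) L)))) (T (S (V (U (S L L) L) (T L L)) (V (U (S L L) L) (T L L))) (S (V (T (S L L) L) (S L L)) (V (T (S L (F 256 L)) L) (S L L))))) (S (K 5) (S (K 5) (U (K 5) (T (S (K 5) L)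 (S (K 5) L)))))) (V (S (T (S (V (S L L) L) (V (S L L) (S L L))) (S (V (S L L) (S L L)) (V (S L L) (S L L)))) (T (S (V (S L L) L) (V (S L L) L)) (S (V (S L L) L) (V L L)))) (S (U (K 5) (V (T (S (F 256 L) (F 256 L)) (S (F 256 L) (F 256 L))) (K 5))) (T (S (V L L) (T L L)) (S (T L L) (T L L)))))))
noncomputable def v12_4 : Tr := (T (U (V (S (T (S L (S L L)) (S (S L L) (T L L))) (T (S (S L L) (S L L)) (S (T L L) (T L L)))) (S (U (K 5) (T (F 4 L) (S (F 16 L) (F 16 L)))) (T (S L L) (S (S L L) (S L L))))) (S (V (T (S (F 4 L) L) (S L L)) (T (S (F 68 L) (F 64 L)) (S L L))) (V (T (S L L) (S (S L L) L)) (T (S (F 64 L) L) (S L L))))) (U (V (S (T (S (T L L) (T L L)) (S (T L L) (V L L))) (T (S (T L L) (T L L)) (S (T L L) (T L L)))) (S (U (K 5) (V (T L L) (K 5))) (T (S (S L L) (T L L)) (S (T L L) (T L L))))) (V (S (T (S (S L L)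 (S L L)) (S (S L L) (S L L))) (T (S (S L L) (S L L)) (S (S L L) (S L L)))) (S (T (S (S L L) (S L L)) (S (S L L) (S L L))) (T (S (S L L) (S L L)) (S (S L L) (S L L)))))))
noncomputable def v12_5 : Tr := (T (U (V (S (T (S (S L L) (S L L)) (S (T L L) (T L L))) (T (S (S L L) (S L L)) (S (S L L) (S L L)))) (S (T (V (S (F 64 L) (F 64 L)) L) (S (S L L) (S L L))) (T (S (S L L) L) (S (S L L) (S L L))))) (V (S (T (S L L) (S L L)) (T (S (F 64 L) (F 64 L)) (S L (F 1 L)))) (S (T (S L L) (S L L)) (T (S (F 64 L) (F 64 L)) (S L L))))) (U (V (S (T (S (T L L) (T L L)) (S (T L L) (T L L))) (T (S (S L L) (S L L)) (S (S L L) (S L L)))) (S (T (S (T L L) (S L L)) (S (T L L) (S L L))) (T (S (S L L) (S L L)) (S (S L L) (S L (F 256 L)))))) (V (S (T (S (S L L) L) (S L L)) (T (S L (F 1 L)) (S L (F 256 L)))) (S (T (S (S L L) L) (S (S L L)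 L)) (T (S L L) (S L (F 256 L)))))))
noncomputable def v12_6 : Tr := (U (V (S (T (U (V (S (K 5) (S (K 5) (U (K 5) (V (T L L) (K 5))))) (K 5)) (V (S (V (T (S (F 4 L) L) (S L L)) (K 5)) (T (S (V L L) (V L L)) (S (V (S L L) L) (V (S L L) L)))) (K 5))) (U (F 479 (V (S (K 0) (S (K 0) (K 0))) (K 0))) (V (S (V (U (K 5) (T (S (F 16 L) L) (S L L))) (K 5)) (T (S (V (S L L) L) (V (S L L) L)) (S (V (S L L) L) (V (S L L) L)))) (K 5)))) v12_3) (F 479 (S (K 0) (K 0)))) (V (S v12_4 v12_5) (S (T (U (K 5) (V (S (U (K 5) (T (F 84 L) (F 16 L))) (S (V L (F 16 L)) (T (F 80 L) L))) (F 479 (S (K 0) (K 0))))) (U (K 5) (V (S (U (K 5) (V (S (F 16 L) L) (K 5))) (T (S (S (F 16 L) (F 16 L)) L) (S (S (F 16 L) (F 16 L)) L))) (K 5)))) (T (U (V (S (V (T L (S (F 16 L) (F 64 L))) (K 5)) (T (S L (S (F 64 L) (F 64 L))) (S L L))) (K 5)) (S (V (T (S (F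 64 L) (F 64 L)) (S L L)) (U (K 5) (T (F 80 L) (F 16 L)))) (V (T (S (F 64 L) (F 64 L)) (S L (F 256 L))) (T (S (F 80 L) (F 320 L)) (S (F 16 L) (F 320 L)))))) (U (V (S (U (K 5) (T (S (F 16 L) (F 16 L)) (S (F 16 L) (F 256 L)))) (T (S L L) (S L (S (F 256 L) (F 256 L))))) (K 5)) (V (S (T (S L L) (S L L)) (T (S L (F 256 L)) (S (F 256 L) (F 256 L)))) (S (V (U (K 5) L) (K 5)) (S (T (F 16 L) (S (F 272 L) (F 272 L))) (T (F 272 L) (F 272 L))))))))))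
noncomputable def v12_7 : Tr := (U (V (S (T (S (V (S (F 64 L) (F 64 L)) (S (F 64 L) (F 64 L))) (V (S (F 64 L) (F 64 L)) (S (F 64 L) (F 64 L)))) (S (V (T (S (F 64 L) (F 64 L)) L) (S (F 64 L) (F 64 L))) (V (T (F 64 L) L) (S (F 64 L) (F 64 L))))) (T (S (V (S (F 64 L) (F 64 L)) (S (F 64 L) (F 64 L))) (V (S (F 64 L) (F 64 L)) (S (F 320 L) (F 64 L)))) (S (V (U (S (F 64 L) (F 64 L)) (F 64 L)) (S (F 64 L) (F 64 L))) (V (T (F 64 L) (F 64 L)) (S (F 64 L) (F 64 L)))))) (S (T (V (S (F 64 L) (F 64 L)) (S (K 5) (F 320 L))) (V (S (S (F 64 L) (F 64 L)) (S (F 64 L) (F 64 L))) (S (K 5) (F 64 L)))) (T (S (T (F 64 L) (F 64 L)) (T (F 64 L) (F 64 L))) (S (V (S (F 64 L) (F 320 L)) (F 64 L)) (V (S (F 64 L) (F 320 L)) (S (F 320 L) (F 320 L))))))) (V (S (T (S (S (F 64 L) (F 64 L)) (S (F 64 L) (F 64 L))) (S (V (S (F 64 L) (F 64 L)) (F 64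 L)) (V (S (F 64 L) (F 64 L)) (F 64 L)))) (T (V (S (F 64 L) (F 320 L)) (S (F 320 L) (F 320 L))) (S (V (F 64 L) (F 64 L)) (T (F 64 L) (F 64 L))))) (S (T (V (S (F 68 L) (F 320 L)) (F 64 L)) (V (S (F 64 L) (F 64 L)) (S (F 320 L) (F 320 L)))) (T (S (F 64 L) (S (F 320 L) (F 320 L))) (S (S (F 64 L) (F 64 L)) (T (F 320 L) (F 320 L)))))))
noncomputable def v12_8 : Tr := (U (V (S (T (S (V (S (F 64 L) (F 64 L)) (S (F 320 L) (F 320 L))) (V (S (F 320 L) (F 320 L)) (S (F 320 L) (F 320 L)))) (S (V (S (F 64 L) (T (F 320 L) (F 320 L))) (T (F 320 L) (F 320 L))) (V (T (F 320 L) (F 320 L)) (S (F 320 L) (F 320 L))))) (T (S (V (S (F 320 L) (F 320 L)) (S (F 320 L) (F 320 L))) (V (F 320 L) (F 320 L))) (S (V (S (F 320 L) (F 320 L)) (S (F 320 L) (F 320 L))) (V (F 321 (S L L)) (F 320 L))))) (S (T (S (V (F 320 L) (F 320 L)) (V (F 320 L) (F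 320 L))) (S (V (S (F 320 L) (F 320 L)) (F 320 L)) (V (S (F 320 L) (F 320 L)) (F 320 L)))) (T (S (T (F 320 L) (F 320 L)) (T (F 320 L) (F 320 L))) (S (V (F 320 L) (F 320 L)) (T (F 320 L) (F 320 L)))))) (V (S (T (S (S (F 320 L) (F 320 L)) (S (F 320 L) (F 320 L))) (S (V (F 320 L) (F 320 L)) (T (F 320 L) (F 320 L)))) (F 321 (T (V (S L L) (S L L)) (S (T L L) (S L L))))) (S (T (S (S (F 320 L) (F 320 L)) (F 320 L)) (S (S (F 320 L) (F 320 L)) (S (F 320 L) (F 320 L)))) (T (S (F 320 L) (F 320 L)) (S (F 320 L) (F 320 L))))))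
noncomputable def v12_9 : Tr := (S (T (U (V (S (T (S (S (F 68 L) (F 68 L)) (S (F 68 L) (F 68 L))) (V (S (S (F 68 L) (F 68 L)) (S (F 68 L) (F 68 L))) (S (F 68 L) (F 68 L)))) (T (S (V (F 68 L) (F 324 L)) (V (F 68 L) (F 324 L))) (S (V (F 64 L) (F 68 L)) (V (F 64 L) (F 64 L))))) (S (T (S (F 68 L) (F 68 L)) (S (S (F 68 L) (F 68 L)) (S (F 68 L) (F 64 L)))) (T (S (F 68 L) (F 68 L)) (V (S (F 68 L) (F 320 L)) (F 64 L))))) (V (S (T (S (F 68 L) (F 68 L)) (S (S (F 68 L) (F 68 L)) (S (F 68 L) (F 68 L)))) (T (S (F 68 L) (F 69 L)) (S (F 64 L) (F 64 L)))) (S (T (F 324 (S L L)) (S (F 68 L) (F 68 L))) (T (F 324 (S L L)) (S (F 68 L) (F 320 L)))))) v12_7) (T (U (V (S (T (S (S (F 68 L) (F 68 L)) (F 324 (V L L))) (S (V (F 64 L) (F 64 L)) (V (S (F 320 L) (F 324 L)) (F 320 L)))) (T (F 325 (U (K 3) (S L L))) (S (V (F 320 L) (F 320 L))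 (T (F 320 L) (F 320 L))))) (S (T (F 324 (V (S L L) (S L L))) (V (S (F 320 L) (F 320 L)) (F 324 (S L L)))) (F 324 (T (V (S L (F 32 L)) (S (F 32 L) (F 32 L))) (V (S L L) (S L L)))))) (V (S (T (F 324 (S L (S (F 32 L) (F 32 L)))) (S (F 64 L) (F 321 (S L L)))) (F 321 (T (S (F 16 L) (F 16 L)) (V L L)))) (S (T (F 324 (S L L)) (S (F 320 L) (F 320 L))) (T (F 325 (S L L)) (S (F 324 L) (F 321 L)))))) v12_8))
noncomputable def v12_10 : Tr := (S (T (U (V (S (K 5) (V (T (F 324 L) (F 320 L)) (K 5))) (K 5)) (F 324 (V (S (T L (S L L)) (T L (S L L))) (S (K 1) (T (F 4 L) L))))) (U (V (S (K 5) (U (K 5) (V (T (F 320 L) (F 320 L)) (K 5)))) (K 5)) (V (S (T (S (F 68 L) (F 64 L)) (S (F 64 L) (F 64 L))) (T (S (F 320 L) (F 320 L)) (V (S (F 320 L) (F 320 L)) (F 336 (S L L))))) (S (K 5) (T (F 320 L) (F 336 (S (K 1) L))))))) (T (U (V (S (T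 (F 324 (S L L)) (S (F 320 L) (F 320 L))) (T (F 324 (S L L)) (S (F 320 L) (F 320 L)))) (S (F 324 (T L (K 1))) (T (F 324 L) (F 320 L)))) (V (S (F 324 (T L (S L L))) (T (F 324 L) (F 320 L))) (S (T (F 340 L) (F 320 L)) (F 324 (T L L))))) (U (V (S (T (V (S (F 320 L) (F 320 L)) (F 320 L)) (S (S (F 320 L) (F 320 L)) (S (F 320 L) (F 320 L)))) (T (S (S (F 320 L) (F 320 L)) (F 320 L)) (V (S (F 320 L) (F 320 L)) (F 320 L)))) (S (K 5) (V (T (F 320 L) (F 320 L)) (K 5)))) (V (S (T (S (F 320 L) (F 320 L)) (S (F 320 L) (F 320 L))) (T (F 321 (S L L)) (S (F 320 L) (F 321 L)))) (S (T (F 320 L) (S (F 320 L) (F 336 L))) (T (F 320 L) (F 336 (S L L))))))))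
noncomputable def v12_11 : Tr := (S (T (U (V (S (F 69 (T (S (F 1 L) (F 1 L)) (S L L))) (T (F 69 L) (S (F 69 L) (F 321 L)))) (S (F 69 (T L (S L L))) (T (F 324 L) (F 320 L)))) (F 69 (S (V (S L L) (S L L)) (V (S L L) (S L (F 1 L)))))) (U (V (S (T (S (F 64 L) (F 64 L)) (S (S (F 64 L) (F 64 L)) (F 64 L))) (T (S (F 65 L) (F 65 L)) (S (F 64 L) (S (F 320 L) (F 321 L))))) (S (T (S (F 68 L) (F 320 L)) (V (F 64 L) (F 64 L))) (T (S (F 320 L) (F 320 L)) (S (F 64 L) (F 320 L))))) (S (V (T (F 65 L) (S (F 65 L) (F 65 L))) (T (F 65 L) (F 64 L))) (V (T (F 65 L) (F 321 (S L L))) (F 321 (T (S (F 16 L) (F 16 L)) (S L L))))))) (F 321 (T (V (S (U (T (S (F 16 L) (F 16 L)) (S L (F 16 L))) (S (F 16 L) (F 16 L))) (U (T (F 16 L) L) (S (F 16 L) (F 16 L)))) (S (U (T (F 16 L) (S (F 16 L) (F 16 L))) (S (F 16 L) (F 16 L))) (U (T (F 16 L) L) (S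 (F 16 L) (F 16 L))))) (U (S (V (T (S L L) (S (S L L) L)) (T (S L L) (S L L))) (V (T (S L (F 16 L)) (S L L)) (T (S L (F 16 L)) (S L L)))) (S (V (T L (S L L)) (T L L)) (V (S L L) (S L L)))))))
noncomputable def v12_12 : Tr := (V v12_11 (S (T (U (V (S (S (F 68 L) (F 68 L)) (F 325 (T L (S L L)))) (F 324 (S (T (F 36 L) (F 4 L)) (S L L)))) (V (F 69 (S (S L (F 1 L)) (S (F 1 L) (F 1 L)))) (F 324 (S L (S (F 32 L) (F 32 L)))))) (U (V (S (T (F 64 L) (S (F 64 L) (F 320 L))) (T (S (F 324 L) (F 321 L)) (S (F 320 L) (F 320 L)))) (S (T (F 340 (S L L)) (S (F 320 L) (F 336 L))) (T (F 320 L) (F 336 (S L L))))) (V (S (S (F 64 L) (S (F 320 L) (F 320 L))) (T (F 321 L) (F 320 L))) (S (S (F 320 L) (F 320 L)) (S (F 320 L) (F 320 L)))))) (T (F 324 (V (S (U (S L L) (S (F 32 L) (F 32 L))) (U (S L (F 32 L)) (S (F 32 L) (F 32 L)))) (U (S (S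 L L) (S L (F 32 L))) (S (S (F 32 L) (F 32 L)) (S (F 32 L) (F 32 L)))))) (U (V (S (T (F 320 L) (F 321 (S L L))) (S (F 320 L) (F 320 L))) (S (T (F 320 L) (F 320 L)) (S (F 320 L) (F 320 L)))) (V (F 321 (S (T L L) (S L L))) (S (S (F 320 L) (F 321 L)) (F 321 (S L L))))))))
noncomputable def v12_13 : Tr := (U (V (S (T (S (V (T L L) (S L L)) (V (T L L) (S L L))) (S (V (T L (S L (F 256 L))) (S L L)) (V (T L L) (S L L)))) (T (S (V (S L L) (S L (F 256 L))) (T (V (F 64 L) (F 64 L)) (V (S (F 320 L) (F 320 L)) (F 256 L)))) (S (V (S L L) (T (F 256 L) (F 256 L))) (V (U (S (F 256 L) (F 320 L)) (F 256 L)) (S (F 256 L) (F 256 L)))))) (S (T (S (V (S (F 64 L) (F 64 L)) (K 5)) (V L L)) (S (U (K 5) (S L L)) (V (S L (F 256 L)) L))) (T (V (S (S (F 256 L) (F 256 L)) (T (F 320 L) (F 320 L))) (S (S (F 320 L) (F 320 L)) (S (F 320 L) (F 320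 L)))) (S (V (S (F 256 L) (F 256 L)) (F 256 L)) (V (S (F 256 L) (F 320 L)) (F 256 L)))))) (V (S (T (S (V L L) (T L L)) (S (V (S L L) L) (V L L))) (T (S (S L L) (T (S (F 320 L) (F 320 L)) (F 256 L))) (S (V (S (F 256 L) (F 256 L)) (F 256 L)) (V (F 256 L) (F 256 L))))) (S (T (S (S L L) (S L L)) (S (T L L) (S L L))) (T (S (T (F 64 L) (F 256 L)) (V (F 320 L) (F 320 L))) (S (T (F 256 L) (F 256 L)) (S (F 256 L) (F 256 L)))))))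
noncomputable def v12_14 : Tr := (U (V (S (T (S (V (T L L) (S L L)) (V (T L L) (S L L))) (S (V (T L L) (S L L)) (V (U (S (F 256 L) (F 256 L)) (F 256 L)) (T (F 256 L) (F 256 L))))) (T (S (V (U (S (F 256 L) (F 256 L)) (F 256 L)) (T (F 256 L) (F 256 L))) (V (T (S (F 256 L) (F 320 L)) (F 256 L)) (S (F 256 L) (F 256 L)))) (S (V (T (S (F 256 L) (F 256 L)) (F 256 L)) (S (F 256 L) (F 256 L))) (V (T (F 256 L) (F 256 L)) (S (F 256 L) (F 256 L)))))) (S (T (S (U (K 5) (S L (F 256 L))) (V (S L (F 256 L)) (S (F 256 L) (F 256 L)))) (S (V (S (F 256 L) (F 256 L)) (K 5)) (V (S (F 256 L) (F 256 L)) (S (F 256 L) (F 256 L))))) (T (V (S (S (F 256 L) (F 256 L)) (S (F 256 L) (F 256 L))) (S (S (F 256 L) (F 256 L)) (F 256 L))) (S (V (S (F 256 L) (F 256 L)) (F 256 L)) (V (F 256 L) (F 384 L)))))) (V (S (T (S (V L L) (T L L)) (S (V L L) (V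 (S (F 256 L) (F 256 L)) (F 256 L)))) (T (S (V (S (F 256 L) (F 256 L)) (F 256 L)) (V (F 256 L) (F 256 L))) (S (V (F 256 L) (F 256 L)) (S (F 256 L) (F 256 L))))) (S (T (S (S L L) (V (F 256 L) (F 256 L))) (S (T L (F 256 L)) (T (F 256 L) (F 256 L)))) (T (S (T (F 256 L) (F 256 L)) (S (F 256 L) (F 256 L))) (S (S (F 256 L) (F 256 L)) (S (F 256 L) (F 384 L)))))))
noncomputable def v12_15 : Tr := (U (V (S (T (S (V (U (S (F 320 L) (F 320 L)) (F 320 L)) (T (F 320 L) (F 320 L))) (V (T (F 320 L) (F 320 L)) (S (F 320 L) (F 320 L)))) (S (V (T (F 256 L) (F 256 L)) (S (F 256 L) (F 256 L))) (V (T (F 320 L) (F 320 L)) (S (F 320 L) (F 320 L))))) (T (S (V (S (F 320 L) (F 320 L)) (S (F 320 L) (F 320 L))) (V (S (F 320 L) (F 321 L)) (F 320 L))) (S (V (S (F 320 L) (F 320 L)) (S (F 320 L) (F 320 L))) (V (F 320 L) (F 320 L))))) (S (T (V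 (S (S (F 320 L) (F 320 L)) (S (F 320 L) (F 320 L))) (S (F 320 L) (F 320 L))) (S (V (F 256 L) (S (F 320 L) (F 320 L))) (V (S (F 320 L) (F 320 L)) (F 320 L)))) (T (S (V (F 320 L) (F 320 L)) (T (F 320 L) (F 320 L))) (S (V (S (F 320 L) (F 320 L)) (F 320 L)) (T (F 320 L) (F 320 L)))))) (V (S (T (S (V (F 320 L) (F 320 L)) (T (F 320 L) (F 320 L))) (S (V (F 320 L) (F 320 L)) (T (F 320 L) (F 320 L)))) (F 321 (T (S (T L L) (S L L)) (S (T L L) (S L L))))) (S (T (V (S (F 320 L) (F 321 L)) (S (F 320 L) (F 321 L))) (S (S (F 256 L) (F 320 L)) (S (F 320 L) (F 320 L)))) (T (S (F 320 L) (F 320 L)) (S (F 320 L) (F 320 L))))))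
noncomputable def v12_16 : Tr := (S (T (U (V (S (K 5) (S (K 5) (U (K 5) (T (F 320 L) (F 320 L))))) (K 5)) (V (S (T (V (S (F 64 L) (F 320 L)) (S (K 5) (F 320 L))) (S L (S (F 256 L) (F 256 L)))) (T (S (T (F 320 L) (F 320 L)) (S (F 320 L) (F 320 L))) (S (S (F 256 L) (F 256 L)) (F 256 L)))) (S (K 5) (S (K 5) (T (F 320 L) (F 320 L)))))) (U (V (S (K 5) (S (K 5) (T (S (F 256 L) (F 256 L)) (F 256 L)))) (K 5)) (V (S (T (V (S (F 256 L) (F 256 L)) (K 5)) (V (S (F 256 L) (F 384 L)) (S (K 5) (F 384 L)))) (T (V (S (F 320 L) (F 320 L)) (F 256 L)) (S (F 256 L) (F 384 L)))) (S (K 5) (S (K 5) (T (F 320 L) (F 400 L))))))) (T (U (V (S (T (V (S (F 320 L) (F 320 L)) (S (F 320 L) (F 320 L))) (S (T (F 320 L) (F 320 L)) (S (F 320 L) (F 320 L)))) (T (S (S (F 320 L) (F 320 L)) (S (F 320 L) (F 320 L))) (V (S (F 320 L) (F 448 L)) (F 320 L))))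 (S (K 5) (V (T (F 320 L) (F 320 L)) (K 5)))) (S (V (T (S (S (F 320 L) (F 320 L)) (F 320 L)) (S (S (F 320 L) (F 320 L)) (F 320 L))) (T (S (F 320 L) (F 320 L)) (S (F 320 L) (F 448 L)))) (V (T (S (F 320 L) (F 321 L)) (S (F 320 L) (F 448 L))) (T (S (F 336 L) (F 448 L)) (F 320 L))))) (U (V (S (T (S (S (F 256 L) (F 256 L)) (F 256 L)) (S (S (F 384 L) (F 384 L)) (F 384 L))) (T (S (S (F 320 L) (F 448 L)) (F 448 (S L L))) (S (F 384 L) (F 448 L)))) (F 448 (S (K 0) (T (S L L) (S (F 2 L) (F 2 L)))))) (V (S (T (S (F 256 L) (F 384 L)) (S (F 384 L) (F 448 L))) (F 448 (T (S L L) (S L (F 32 L))))) (S (T (F 448 (S L L)) (F 384 L)) (F 448 (T (S L (F 32 L)) L)))))))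
noncomputable def v12_17 : Tr := (T (U (V (S (T (S L L) (S (S L L) L)) (T (S (F 64 L) (S (F 320 L) (F 320 L))) (S (F 256 L) (F 256 L)))) (S (T (S L (S (F 64 L) (F 64 L))) (S L (S (F 256 L) (F 256 L)))) (T (S (S (F 320 L) (F 320 L)) (F 320 L)) (S (F 256 L) (F 256 L))))) (V (S (T (S (F 1 L) (F 257 L)) (S (F 1 L) (F 257 L))) (T (F 321 (S L L)) (S (F 257 L) (F 321 L)))) (S (T (S (F 65 L) (F 320 L)) (S (F 256 L) (F 320 L))) (T (F 321 (V L L)) (S (F 257 L) (F 321 L)))))) (U (V (S (T (S (S L (F 256 L)) (S (F 256 L) (F 256 L))) (S (S L (F 256 L)) (S (F 256 L) (F 257 L)))) (T (S (S (F 256 L) (F 256 L)) (S (F 257 L) (F 257 L))) (S (F 256 L) (F 257 L)))) (S (T (S L (S (F 256 L) (F 256 L))) (S (S (F 256 L) (F 256 L)) (F 256 L))) (T (S (F 256 L) (F 256 L)) (S (F 256 L) (F 384 L))))) (S (V (T (S (F 1 L) (F 257 L)) (V (F 257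 L) (F 257 L))) (T (S (F 256 L) (F 257 L)) (S (F 256 L) (F 257 L)))) (V (T (S (F 257 L) (F 321 L)) (F 385 (S L (F 1 L)))) (T (S (F 257 L) (F 321 L)) (F 257 L))))))
noncomputable def v12_18 : Tr := (S (T (U (S (V (T (S (F 64 L) (S (F 320 L) (F 320 L))) (S L (F 256 L))) (U (K 5) (T (F 320 L) (F 320 L)))) (V (T (V (F 320 L) (F 320 L)) (S (F 256 L) (F 320 L))) (T (S (F 320 L) (F 336 L)) (S (F 320 L) (F 320 L))))) (V (S (T (S (F 320 L) (F 320 L)) (S (F 256 L) (F 320 L))) (T (F 321 (S L L)) (S (F 320 L) (F 321 L)))) (S (T (S (F 336 L) (F 321 L)) (S (F 320 L) (F 336 L))) (T (F 320 L) (F 320 L))))) (U (V (S (T (S (S (F 256 L) (F 256 L)) (F 256 L)) (S (F 256 L) (F 256 L))) (T (S (F 256 L) (F 320 L)) (S (F 384 L) (F 384 L)))) (S (T (S (F 256 L) (F 272 L)) (S (F 384 L) (F 384 L))) (T (F 256 L) (S (F 400 L) (F 448 L))))) (S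 (V (T (S (F 256 L) (F 320 L)) (S (F 384 L) (F 384 L))) (T (F 256 L) (F 256 L))) (V (T (F 256 L) (F 384 L)) (T (F 384 L) (F 384 L)))))) (T (V (S (U (T (S (F 320 L) (F 321 L)) (S (F 320 L) (F 321 L))) (F 321 (T (S L (F 1 L)) L))) (U (T (F 320 L) (F 320 L)) (F 321 (S L (F 1 L))))) (S (U (T (S (F 336 L) (F 321 L)) (F 320 L)) (S (F 320 L) (F 321 L))) (U (S (F 320 L) (F 448 L)) (F 321 (S L (F 1 L)))))) (V (S (U (T (F 448 (S L (F 32 L))) (F 384 L)) (F 321 (T L (F 1 L)))) (F 449 (U (T (S L L) L) (S L L)))) (F 448 (U (S (T (S L (F 32 L)) L) (S L (F 32 L))) (S (S L (F 32 L)) (S (F 32 L) (F 32 L))))))))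
noncomputable def v12_19 : Tr := (U (V (S (T v12_13 v12_14) (T v12_15 (U (V (S (T (S (V (S (F 256 L) (F 256 L)) (S (F 256 L) (F 256 L))) (V (S (F 256 L) (F 320 L)) (F 256 L))) (S (V (S (F 256 L) (F 256 L)) (F 256 L)) (V (F 256 L) (F 384 L)))) (T (S (V (S (F 320 L) (F 321 L)) (F 320 L)) (T (F 320 L) (F 320 L))) (T (S (F 320 L) (F 448 L)) (S (F 384 L) (F 449 (S L L)))))) (S (T (S (V (F 256 L) (F 256 L)) (T (F 256 L) (F 256 L))) (S (T (F 256 L) (F 256 L)) (T (F 256 L) (F 384 L)))) (T (S (T (F 320 L) (F 320 L)) (S (F 320 L) (F 320 L))) (S (S (F 384 L) (F 384 L)) (F 448 (S L L)))))) (V (S (T (V (S (F 320 L) (F 321 L)) (S (F 320 L) (F 321 L))) (S (F 256 L) (F 257 L))) (T (F 321 (S (S L L) L)) (F 385 (S (S L (F 1 L)) (F 1 L))))) (S (T (S (F 256 L) (F 256 L)) (S (F 256 L) (F 384 L))) (T (S (F 320 L) (F 448 L)) (F 448 (S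 L (F 32 L))))))))) v12_16) (V (S v12_17 (T (U (S (V (F 321 (T (S (S L L) L) (S (S L L) L))) (T (S (F 320 L) (F 321 L)) (S (F 320 L) (F 321 L)))) (F 321 (V (T (S L L) (S L (F 1 L))) (T (S L L) (S L (F 1 L)))))) (F 321 (S (V (T (S L L) (S L (F 1 L))) (T L (S L (F 1 L)))) (V (S L L) (S L (F 1 L)))))) (U (S (V (T (S (F 257 L) (F 321 L)) (F 385 (S L (F 1 L)))) (T (S (F 320 L) (F 321 L)) (F 385 (S L (F 1 L))))) (F 321 (V (T L (S (F 1 L) (F 1 L))) (T L (S (F 1 L) (F 1 L)))))) (S (V (T (F 321 L) (F 385 L)) (T (F 321 L) (F 385 L))) (F 449 (V (S L L) (S L L))))))) v12_18))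
noncomputable def treeV12 : Tr := (F 0xfffffffffffffffffffffffffffffffff7fffff7773bfeefff (S (T v12_2 v12_6) (T (U (V v12_9 v12_10) v12_12) v12_19)))

theorem pV12 : chkV par treeV12 64 64 448 64 192 64 349525 436906 Lc = true := by decide +kernel

noncomputable def v13_0 : Tr := (V (S (T (F 69 (S (V (U (F 32 L) (F 32 L)) (T (F 32 L) L)) (V (U L (F 32 L)) (U L (F 32 L))))) (S (V (F 69 (U (T L (S L L)) (S L L))) (U (S (F 5 L) (F 5 L)) (F 69 (S L L)))) (V (U (T (F 5 L) (F 69 (S L L))) (F 69 (S L L))) (T (F 69 (U (S (F 32 L) L) L)) (U (F 1 L) (F 5 L)))))) (T (F 69 (V (S (U (S (F 32 L) L) (F 32 L)) (U (S L L) L)) (S (U (S (F 32 L) L) L) (U (S L L) L)))) (S (T (F 69 (V (U (S L L) L) (U (S L L) L))) (V (S (F 1 L) (F 1 L)) (S (F 1 L) (F 1 L)))) (V (U (F 69 (T (S L L) (S L L))) (T (F 69 L) (F 65 L))) (T (F 69 (U (S L L)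 L)) (S (F 1 L) (S (F 65 L) (F 65 L)))))))) (S (T (F 69 (S (V (S (F 32 L) L) (S (F 32 L) L)) (V (U L (F 32 L)) (U L (F 32 L))))) (S (V (U (T (F 69 L) (F 5 L)) (F 69 (S L L))) (U (T (F 69 L) (F 5 L)) (F 69 (S L L)))) (F 69 (V (U (T L (S L L)) (S L L)) (U (T L (S L L)) (S L L)))))) (T (F 69 (S (V (U (S L L) L) (U (S (F 32 L) L) L)) (V (U (S L L) L) (U (S L L) L)))) (S (V (T (F 69 (U (S L L) L)) (S (F 1 L) (F 1 L))) (F 69 (U (T L (S L L)) (S L L)))) (V (T (F 69 (U (S L L) L)) (U (F 69 (S L L)) (F 65 L))) (F 69 (U (T (S L L) (S L L)) (S L L))))))))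
noncomputable def v13_1 : Tr := (S (T (S (V (U (T (S (F 5 L) (F 5 L)) (S (F 1 L) (F 1 L))) (T (F 1 L) (F 1 L))) (U (T (S (F 5 L) (F 5 L)) (S (F 1 L) (F 1 L))) (T (F 1 L) (F 1 L)))) (V (U (T (S (F 5 L) (F 5 L)) (S (F 1 L) (F 1 L))) (T (F 1 L) (F 1 L))) (U (T (S (F 5 L) (F 1 L)) (S (F 1 L) (F 1 L))) (T (F 1 L) (F 1 L))))) (U (S (V (T (S (F 1 L) (F 1 L)) (S (F 1 L) (F 1 L))) (T (S (F 1 L) (F 1 L)) (S (F 1 L) (F 1 L)))) (V (T (S (F 1 L) (F 1 L)) (S (F 1 L) (F 1 L))) (T (S (F 1 L) (F 1 L)) (S (F 1 L) (F 1 L))))) (S (V (T (S (F 1 L) (F 1 L)) (S (F 1 L) (F 1 L))) (T (S (F 1 L) (F 1 L)) (S (F 1 L) (F 1 L)))) (V (T (F 1 L) (S (F 1 L) (F 1 L))) (T (F 1 L) (F 1 L)))))) (T (S (V (U (T (S (F 1 L) (F 65 L)) (S (F 1 L) (F 1 L))) (T (F 1 L) (F 1 L))) (U (T (S (F 65 L) (F 65 L)) (S (F 1 L) (F 1 L))) (T (F 1 L) (F 1 L)))) (V (U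 (T (S (F 65 L) (F 65 L)) (S (F 1 L) (F 65 L))) (S (F 1 L) (F 1 L))) (U (T (S (F 65 L) (F 65 L)) (S (F 65 L) (F 65 L))) (S (F 1 L) (F 1 L))))) (S (V (U (T (S (F 1 L) (F 1 L)) (S (F 1 L) (F 1 L))) (T (F 1 L) (F 1 L))) (U (T (S (F 1 L) (F 1 L)) (S (F 1 L) (F 1 L))) (T (F 1 L) (F 1 L)))) (V (U (T (S (F 1 L) (F 257 L)) (S (F 257 L) (F 257 L))) (T (F 1 L) (F 1 L))) (U (T (S (F 1 L) (F 257 L)) (S (F 257 L) (F 257 L))) (S (F 1 L) (F 1 L)))))))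
noncomputable def v13_2 : Tr := (S (T (U (S (V (T (S (F 5 L) (F 5 L)) (S (F 1 L) (F 1 L))) (T (S (F 5 L) (F 5 L)) (S (F 1 L) (F 1 L)))) (V (T (S (F 5 L) (F 65 L)) (S (F 1 L) (F 1 L))) (T (S (F 1 L) (F 1 L)) (S (F 1 L) (F 1 L))))) (S (V (T (F 1 L) (S (F 5 L) (F 5 L))) (T (F 69 (S L L)) (S (F 5 L) (F 1 L)))) (V (T (F 1 L) (S (F 65 L) (F 65 L))) (T (F 1 L) (S (F 1 L) (F 65 L)))))) (U (S (V (T (S (F 1 L) (F 1 L)) (S (F 1 L) (F 1 L))) (T (S (S (F 1 L) (F 1 L)) (F 1 L)) (S (S (F 1 L) (F 1 L)) (S (F 1 L) (F 1 L))))) (V (T (S (F 1 L) (F 1 L)) (S (F 1 L) (F 1 L))) (T (S (F 1 L) (F 1 L)) (S (S (F 1 L) (F 1 L)) (F 1 L))))) (S (V (T (S (F 1 L) (F 1 L)) (S (F 1 L) (F 1 L))) (T (S (F 1 L) (F 1 L)) (S (F 1 L) (F 1 L)))) (V (T (S (F 1 L) (F 1 L)) (S (F 1 L) (F 1 L))) (T (S (F 1 L) (F 1 L)) (S (F 1 L) (F 1 L))))))) (T (S (V (U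 (T (S (F 65 L) (F 65 L)) (S (F 1 L) (F 1 L))) (T (F 1 L) (F 1 L))) (U (T (S (F 65 L) (F 65 L)) (S (F 1 L) (F 1 L))) (T (F 1 L) (F 1 L)))) (V (U (T (S (F 65 L) (F 65 L)) (S (F 65 L) (F 65 L))) (S (F 1 L) (F 1 L))) (U (T (S (F 65 L) (F 65 L)) (S (F 1 L) (F 65 L))) (S (F 1 L) (F 1 L))))) (U (S (V (T (S (F 1 L) (F 1 L)) (S (F 1 L) (F 1 L))) (T (S (F 1 L) (F 1 L)) (S (F 1 L) (F 1 L)))) (V (T (S (F 1 L) (F 257 L)) (S (F 257 L) (F 257 L))) (T (S (F 1 L) (F 257 L)) (S (F 257 L) (F 257 L))))) (S (V (T (F 1 L) (F 1 L)) (T (S (F 1 L) (F 257 L)) (S (F 257 L) (F 257 L)))) (V (T (F 1 L) (F 1 L)) (T (F 1 L) (F 1 L)))))))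
noncomputable def v13_3 : Tr := (V (S (T (S (U (V (S (F 5 L) (F 5 L)) (S (F 5 L) (F 1 L))) (V (S (F 5 L) (F 5 L)) (S (F 5 L) (F 5 L)))) (V (U (S (F 1 L) (F 1 L)) (F 1 L)) (U (S (F 1 L) (F 1 L)) (F 1 L)))) (S (V (U (S (F 1 L) (F 1 L)) (S (F 1 L) (F 1 L))) (U (T (F 1 L) (F 1 L)) (S (F 1 L) (F 1 L)))) (V (U (S (F 1 L) (F 1 L)) (S (F 1 L) (F 1 L))) (U (S (F 1 L) (F 1 L)) (S (F 1 L) (F 1 L)))))) (T (S (V (U (S (F 1 L) (F 1 L)) (F 1 L)) (U (S (F 1 L) (F 1 L)) (F 1 L))) (V (T (S (F 65 L) (F 65 L)) (S (F 1 L) (F 65 L))) (U (S (F 65 L) (F 65 L)) (S (F 65 L) (F 321 L))))) (S (V (U (S (F 1 L) (F 1 L)) (S (F 1 L) (F 257 L))) (U (S (F 1 L) (F 1 L)) (S (F 1 L) (F 257 L)))) (U (V (S (F 1 L) (F 257 L)) (S (F 1 L) (F 257 L))) (V (S (F 257 L) (F 321 L)) (S (F 257 L) (F 321 L))))))) (S (T (S (V (U (T (F 5 L) (F 1 L)) (S (F 5 L) (F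 5 L))) (U (T (F 5 L) (F 1 L)) (S (F 5 L) (F 5 L)))) (V (U (S (F 1 L) (F 1 L)) (F 1 L)) (U (S (F 1 L) (F 1 L)) (F 1 L)))) (S (V (U (T (F 1 L) (F 1 L)) (S (F 1 L) (F 1 L))) (U (T (S (F 5 L) (F 1 L)) (S (F 1 L) (F 1 L))) (T (F 1 L) (F 1 L)))) (V (U (T (F 1 L) (F 1 L)) (S (F 1 L) (F 1 L))) (U (T (F 1 L) (F 1 L)) (S (F 1 L) (F 1 L)))))) (T (S (V (U (S (F 1 L) (F 65 L)) (F 1 L)) (U (S (F 1 L) (F 1 L)) (F 1 L))) (V (U (S (F 65 L) (F 65 L)) (S (F 65 L) (F 321 L))) (U (S (F 65 L) (F 65 L)) (S (F 65 L) (F 321 L))))) (S (V (U (S (F 1 L) (F 1 L)) (S (F 1 L) (F 257 L))) (U (T (F 1 L) (F 1 L)) (S (F 1 L) (F 257 L)))) (V (U (S (F 257 L) (F 257 L)) (S (F 257 L) (F 321 L))) (T (S (F 1 L) (F 257 L)) (S (F 257 L) (F 257 L))))))))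
noncomputable def v13_4 : Tr := (V (S (T (F 69 (S (V (U (S L L) L) (U (S L L) L)) (V (U L L) (U L (F 1 L))))) (S (V (T (F 69 (U L L)) (U (F 65 L) (F 69 L))) (U (S (F 65 L) (F 65 L)) (F 69 (S L L)))) (V (U (T (F 69 L) (F 321 L)) (F 69 (S L (F 1 L)))) (U (S (F 65 L) (F 321 L)) (F 69 (S L (F 1 L))))))) (T (F 69 (V (S (U L (F 1 L)) (T (F 1 L) (F 1 L))) (S (U (S (F 1 L) (F 1 L)) (F 1 L)) (S (F 1 L) (F 1 L))))) (F 321 (S (V (U (S L (F 16 L)) (S (F 16 L) (F 16 L))) (U (S L (F 16 L)) L)) (V (T (F 16 L) L) (T (F 16 L) L)))))) (S (T (F 69 (V (S (U (S L L) L) (U L (F 1 L))) (S (U (S (F 1 L) (F 1 L)) (F 1 L)) (T L L)))) (S (V (U (S (F 65 L) (F 65 L)) (F 69 (S L L))) (U (S (F 65 L) (F 65 L)) (F 65 L))) (V (U (S (F 65 L) (F 321 L)) (F 325 (S L L))) (T (S (F 69 L) (F 321 L)) (S (F 65 L) (F 321 L)))))) (F 321 (T (S (V (U (F 16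 L) (F 16 L)) (U (F 16 L) (F 16 L))) (V (S (F 16 L) (F 16 L)) (S (F 16 L) (F 16 L)))) (S (V (U (S L (F 16 L)) L) (U (S L (F 16 L)) L)) (V (S L L) (T L L)))))))
noncomputable def v13_5 : Tr := (V (S (T (S (V (U (T (S (F 65 L) (F 321 L)) (F 1 L)) (T (F 65 L) (F 65 L))) (T (S (F 1 L) (S (F 65 L) (F 65 L))) (U (F 1 L) (F 257 L)))) (F 321 (V (U (T (S L (F 16 L)) (S L L)) (S L L)) (U (T (S L L) (S L L)) (S L L))))) (S (V (U (T (S (F 257 L) (F 321 L)) (F 321 (S L L))) (S (F 257 L) (F 257 L))) (U (T (F 1 L) (F 321 (S L L))) (S (F 257 L) (F 257 L)))) (V (F 321 (U (T (S L (F 1 L)) L) (S L (F 1 L)))) (U (S (F 257 L) (F 321 L)) (F 321 (S L (F 1 L))))))) (F 321 (T (S (V (U (S L L) L) (U (S L L) L)) (V (T L L) (T L L))) (S (V (U (S L (F 1 L)) L) (U (S L (F 1 L)) L)) (V (S L (F 1 L)) (T L (F 1 L))))))) (S (T (S (T (V (S (F 1 L)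 (S (F 65 L) (F 65 L))) (S (F 1 L) (S (F 65 L) (F 65 L)))) (V (V (F 1 L) (F 1 L)) (S (F 1 L) (F 1 L)))) (F 321 (V (U (T (S L L) (S L L)) (S L L)) (U (T (S L L) (S L L)) (S L L))))) (S (V (U (T (S (F 257 L) (F 321 L)) (S (F 257 L) (F 321 L))) (S (F 257 L) (F 257 L))) (U (T (S (F 257 L) (F 321 L)) (S (F 257 L) (F 385 L))) (T (F 257 L) (F 257 L)))) (V (T (U (F 257 L) (F 321 L)) (S (F 257 L) (F 321 L))) (T (S (F 257 L) (F 321 L)) (S (F 257 L) (F 321 L)))))) (F 321 (T (S (V (U (S L L) L) (U (S L L) L)) (V (T L L) (T L L))) (S (V (T (S L (F 1 L)) L) (U (S L (F 1 L)) (F 1 L))) (V (T L (F 1 L)) (T (F 1 L) (F 1 L))))))))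
noncomputable def v13_6 : Tr := (T (U v13_4 (V (S (T (F 69 (V (S (S L L) L) (S (S L (F 1 L)) L))) (S (V (T (F 69 L) (F 65 L)) (T (F 69 L) (F 65 L))) (T (F 69 (V L L)) (F 321 (V L L))))) (F 325 (T (S (V (S L L) L) (V L L)) (S (V (T L L) (T L L)) (U (S L L) (S L L)))))) (S (T (F 69 (S (V (S L (F 1 L)) L) (V L (S (F 1 L) (F 1 L))))) (S (V (T (F 69 L) (F 65 L)) (T (F 69 L) (F 65 L))) (V (S (F 69 L) (F 321 L)) (F 321 (S L L))))) (F 321 (T (S (V (F 16 L) (F 16 L)) (V (F 16 L) (F 16 L))) (S (V (S (F 16 L) (F 16 L)) (S L (F 16 L))) (V L L))))))) (U v13_5 (V (S (T (S (U (V (S (F 65 L) (F 321 L)) (F 321 (S L L))) (F 321 (V (S L (F 16 L)) (S L (F 16 L))))) (F 321 (V (U (S L (F 16 L)) L) (U L L)))) (S (V (T (S (F 257 L) (F 321 L)) (F 257 L)) (U (F 257 L) (F 321 L))) (F 321 (V (T L L) (T L L))))) (F 321 (T (S (V (S L L) (S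 L L)) (V (S L (F 1 L)) L)) (S (U (S L (F 1 L)) (S (F 1 L) (F 1 L))) (V (F 1 L) (F 1 L)))))) (S (T (F 321 (S (V (T (S L L) (S L L)) (U (S L L) (S L L))) (V (T L (S L L)) (T L L)))) (S (V (U (F 257 L) (F 257 L)) (U (F 257 L) (F 321 L))) (V (F 321 (T L L)) (T (F 321 L) (F 385 L))))) (F 321 (T (S (V (S L L) (S L L)) (V L L)) (S (V (S (F 1 L) (F 1 L)) (S (F 1 L) (F 1 L))) (V (F 1 L) (F 1 L)))))))))
noncomputable def v13_7 : Tr := (V (S (F 69 (T (S (V (T (F 32 L) L) (S (F 32 L) L)) (V (U L (F 32 L)) (U L (F 32 L)))) (S (V (U (T L (S L L)) (S L L)) (U (V L L) L)) (V (U (T L (S L L)) (S L L)) (U (T L (S L L)) (S L L)))))) (T (F 69 (V (S (U (S (F 32 L) L) L) (U (S L L) L)) (S (U L L) (U L (F 1 L))))) (V (S (U (F 69 (T L (S L L))) (T (F 69 L) (F 65 L))) (F 69 (U (T (S L (F 1 L)) (S L L)) (S L L)))) (S (F 69 (U (T L (S L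 L)) (S L L))) (U (T (F 69 L) (S (F 69 L) (F 321 L))) (F 69 (S L L))))))) (S (F 69 (T (U (V (S (F 40 L) (F 8 L)) (F 40 (S (F 8 L) L))) (S (F 40 L) (S (F 40 L) (F 8 L)))) (U (V (S (T (F 40 L) (F 8 L)) (T (F 8 L) L)) (S (F 8 L) (S (F 8 L) (F 8 L)))) (V (S (S (F 40 L) (F 8 L)) (S (F 8 L) L)) (S (F 40 L) (S (F 40 L) (F 8 L))))))) (T (F 69 (V (U (S L L) (S (F 1 L) (F 1 L))) (S (V L (F 8 L)) (S L L)))) (S (V (U (U (F 68 L) (F 69 (S (F 8 L) L))) (F 69 (S L L))) (F 69 (U (V L (F 8 L)) (S (F 8 L) (F 1 L))))) (V (U (T (F 69 L) (F 65 L)) (F 69 (S L L))) (T (F 69 (S L L)) (S (F 65 L) (F 65 L))))))))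
noncomputable def v13_8 : Tr := (S (T (U (S (V (T (S (F 5 L) (F 5 L)) (S (F 1 L) (F 1 L))) (T (S (F 5 L) (F 5 L)) (S (F 1 L) (F 1 L)))) (V (T (S (F 65 L) (F 1 L)) (S (F 1 L) (F 1 L))) (T (S (F 65 L) (F 65 L)) (S (F 1 L) (F 1 L))))) (S (V (T (F 69 (S L L)) (S (F 5 L) (F 1 L))) (T (F 5 L) (F 1 L))) (V (T (F 1 L) (S (F 1 L) (F 1 L))) (T (F 1 L) (S (F 1 L) (F 65 L)))))) (U (V (S (T (S L (S (F 1 L) (F 1 L))) (S L L)) (T (S (S (F 1 L) (F 1 L)) (S (F 1 L) (F 1 L))) (S (S (F 1 L) (F 1 L)) (S (F 1 L) (F 1 L))))) (S (T (S L L) (S L L)) (T (S L L) (S L L)))) (S (V (T (S (F 1 L) (F 1 L)) (S (F 1 L) (F 1 L))) (T (S (F 1 L) (F 1 L)) (S (F 1 L) (F 1 L)))) (V (T (S (F 1 L) (F 1 L)) (S (F 1 L) (F 1 L))) (T (S (F 1 L) (F 1 L)) (S (F 1 L) (F 1 L))))))) (T (S (V (U (T (S (F 1 L) (F 65 L)) (S (F 1 L) (F 1 L))) (T (F 1 L) (S (F 65 L)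 (F 65 L)))) (U (T (S (F 65 L) (F 65 L)) (S (F 1 L) (F 1 L))) (T (S (F 65 L) (F 65 L)) (S (F 65 L) (F 65 L))))) (V (U (T (S (F 65 L) (F 65 L)) (S (F 1 L) (F 65 L))) (S (F 1 L) (F 1 L))) (U (T (S (F 65 L) (F 65 L)) (S (F 1 L) (F 257 L))) (T (F 65 L) (F 1 L))))) (U (S (V (T (S (F 1 L) (F 1 L)) (S (F 1 L) (F 1 L))) (T (S L (F 1 L)) (S (S (F 1 L) (F 1 L)) (F 1 L)))) (V (T (S (F 1 L) (F 257 L)) (S (F 1 L) (F 257 L))) (T (S (F 1 L) (F 257 L)) (S (F 1 L) (F 257 L))))) (S (V (T (S (F 1 L) (F 257 L)) (S (F 1 L) (F 257 L))) (T (S (F 1 L) (F 257 L)) (S (F 1 L) (F 257 L)))) (V (T (F 1 L) (S (F 257 L) (F 385 L))) (T (F 1 L) (S (F 257 L) (F 385 L))))))))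
noncomputable def v13_9 : Tr := (S (T (U (V (S (T (F 69 (V L (F 8 L))) (S (F 17 L) (F 17 L))) (T (S (F 81 L) (F 65 L)) L)) (S (T (F 85 (S L L)) (S (F 21 L) (F 81 L))) (T (F 81 (S (F 16 L) L)) (S (F 17 L) (F 17 L))))) (V (S (T (F 69 L) (F 1 L)) (T (F 69 (S L L)) (F 1 L))) (F 81 (S (T (F 16 L) (S (F 16 L) L)) (T (S (F 16 L) (F 16 L)) (S L L)))))) (U (V (S (T (S (F 16 L) (F 16 L)) (S (S (F 16 L) (F 16 L)) L)) (T (S (F 16 L) L) (S L L))) (S (U (K 5) (T (F 17 L) (S (F 17 L) (F 17 L)))) (U (T (F 16 L) (F 16 L)) (T (F 81 (S L L)) (F 273 (S L L)))))) (V (S (T (S (F 17 L) (F 1 L)) (S (F 1 L) (F 1 L))) (T (S (F 1 L) (F 1 L)) (S (F 1 L) (F 1 L)))) (S (T (S (F 17 L) (F 17 L)) (S (F 17 L) (F 17 L))) (V (S (F 1 L) (F 1 L)) (S (F 17 L) (F 17 L))))))) (T (S (U (V (T (S (F 65 L) (F 65 L)) L) (T (F 81 (S L L)) (S (F 17 L) (F 65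 L)))) (V (T (F 65 L) (F 1 L)) (T (F 65 L) (F 65 L)))) (V (T (U (S (F 65 L) (F 65 L)) (F 65 L)) (U (S (F 65 L) (F 257 L)) (F 257 L))) (U (T (F 321 (S L L)) (S (F 257 L) (F 321 L))) (F 321 (T (S (F 4 L) (F 4 L)) (S L L)))))) (U (S (V (T (S L (F 1 L)) (S (F 1 L) (F 256 L))) (T (S (F 17 L) (F 272 L)) (S (F 17 L) (F 257 L)))) (V (T (S (F 256 L) (F 257 L)) (S (F 1 L) (F 257 L))) (T (S (F 257 L) (F 257 L)) (S (F 257 L) (F 385 L))))) (S (V (T (S (F 1 L) (F 257 L)) (S (F 257 L) (F 257 L))) (T (F 1 L) (S (F 257 L) (F 273 L)))) (V (T (S (F 257 L) (F 321 L)) (S (F 257 L) (F 385 L))) (T (F 257 L) (F 257 L)))))))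
noncomputable def v13_10 : Tr := (S (T (V (S (U (T (F 5 L) (F 1 L)) (S (F 5 L) (F 5 L))) (U (S (F 1 L) (F 1 L)) (S (F 65 L) (F 65 L)))) (U (S (T (F 69 L) (F 1 L)) (S (F 1 L) (F 1 L))) (S (T (F 69 L) (F 65 L)) (T (F 69 L) (F 65 L))))) (V (S (U (T (S (F 5 L) (F 1 L)) (S (F 1 L) (F 1 L))) (T (F 1 L) (S (F 1 L) (F 1 L)))) (U (T (S (F 1 L) (F 65 L)) (S (F 1 L) (F 257 L))) (T (F 1 L) (F 1 L)))) (S (U (T (S (F 1 L) (F 1 L)) (S (F 1 L) (F 1 L))) (T (F 1 L) (F 1 L))) (U (T (S (F 1 L) (F 65 L)) (S (F 1 L) (F 257 L))) (T (F 1 L) (F 1 L)))))) (T (V (S (U (S (F 1 L) (F 1 L)) (S (F 65 L) (F 65 L))) (U (S (F 65 L) (F 65 L)) (S (F 65 L) (F 321 L)))) (S (U (T (F 65 L) (F 1 L)) (S (F 65 L) (F 65 L))) (U (T (F 321 L) (F 257 L)) (S (F 65 L) (F 321 L))))) (S (V (U (T (F 1 L) (F 1 L)) (S (F 1 L) (F 257 L))) (U (T (F 1 L) (F 1 L)) (S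 (F 1 L) (F 257 L)))) (V (U (S (F 1 L) (F 257 L)) (S (F 257 L) (F 321 L))) (U (T (F 257 L) (F 257 L)) (S (F 257 L) (F 385 L)))))))
noncomputable def v13_11 : Tr := (U (V v13_8 v13_9) (V v13_10 (S (T (V (U (S (T (F 85 L) (F 5 L)) (T (F 69 L) (F 1 L))) (S (F 69 (S L L)) (T (F 69 L) (F 65 L)))) (U (F 81 (S (U (S (F 48 L) (F 16 L)) (F 16 L)) (T (F 16 L) (S (F 16 L) L)))) (F 69 (S (S (F 8 L) (F 8 L)) (S (F 8 L) L))))) (S (V (U (T (F 1 L) (S (F 17 L) (F 17 L))) (S (F 1 L) (F 1 L))) (U (U (S (F 17 L) (F 17 L)) (F 17 L)) (S (F 17 L) (F 17 L)))) (U (V (T (F 1 L) (S (F 1 L) (F 257 L))) (V (F 1 L) (S (F 17 L) (F 273 L)))) (V (S (F 1 L) (F 1 L)) (F 1 L))))) (T (U (V (S (T (F 65 L) (F 65 L)) (F 321 (T L (S L L)))) (S (S (F 65 L) (F 65 L)) (F 321 (T L L)))) (V (S (S (F 65 L) (F 65 L)) (F 321 (S L L))) (F 321 (S (S L L) (S L L)))))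 (S (U (V (T (F 1 L) (F 1 L)) (T (F 257 L) (F 257 L))) (V (S (F 1 L) (F 257 L)) (S (F 257 L) (F 257 L)))) (V (U (T (F 257 L) (F 257 L)) (S (F 257 L) (F 385 L))) (U (S (F 257 L) (F 257 L)) (F 257 L))))))))
noncomputable def v13_12 : Tr := (V (S (T (F 69 (S (V (U (S (F 1 L) (F 1 L)) (F 1 L)) (U L (F 1 L))) (V (U L (F 1 L)) (U (S (F 1 L) (F 1 L)) (F 1 L))))) (V (S (U (S (F 65 L) (F 65 L)) (F 65 L)) (U (S (F 65 L) (F 321 L)) (F 325 (S L L)))) (S (U (S (F 65 L) (F 65 L)) (F 321 (S L L))) (F 321 (U (S L L) (S (F 16 L) (F 16 L))))))) (F 321 (T (V (S (U (F 16 L) (F 16 L)) (S (F 16 L) (F 16 L))) (S (U (F 16 L) (F 16 L)) (S (F 16 L) (F 16 L)))) (V (S (U (S L L) L) (T L L)) (S (U (S L (F 16 L)) L) (T L L)))))) (S (T (F 325 (V (U (S (S L L) L) (S L L)) (U (S L L) (S (F 4 L) L)))) (S (V (U (S (F 65 L) (F 321 (S L L))) (F 321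 (T (F 16 L) L))) (F 321 (U (T (F 16 L) L) (S (F 16 L) (F 16 L))))) (F 321 (V (U (S L L) L) (U (S L L) L))))) (F 321 (T (V (S (U (F 16 L) (F 16 L)) (S (F 16 L) (F 16 L))) (S (U (F 16 L) (F 16 L)) (S (F 16 L) (F 16 L)))) (V (S (U (S L (F 16 L)) L) (T L L)) (S (U (S L (F 16 L)) L) (T L L)))))))
noncomputable def v13_13 : Tr := (V (S (T (V (S (T (U (F 321 (S L L)) (F 65 L)) (U (S (F 257 L) (F 321 L)) (F 257 L))) (F 321 (U (T L (S L L)) (S L L)))) (S (U (T (F 321 (S L L)) (S (F 257 L) (F 321 L))) (T (F 321 L) (F 257 L))) (F 321 (U (T L (S L (F 1 L))) (S L L))))) (S (V (U (T (S (F 257 L) (F 321 L)) (F 257 L)) (S (F 257 L) (F 257 L))) (U (T (S (F 257 L) (F 321 L)) (F 385 (S L L))) (T (F 257 L) (F 385 L)))) (V (U (S (F 257 L) (F 257 L)) (F 257 L)) (U (S (F 257 L) (F 385 L)) (F 257 L))))) (T (F 321 (S (V (U (S L L) L) (U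 (S L L) L)) (V (T L L) (T L L)))) (F 385 (S (V (U (S (F 1 L) (F 1 L)) (F 1 L)) (U (S L (F 1 L)) (F 1 L))) (V (T (F 1 L) (F 1 L)) (T (F 1 L) (F 1 L))))))) (S (T (F 321 (V (S (U (T (S L L) (S L L)) (T L (S L L))) (U (T L L) (S L L))) (S (U (T (S L L) (S L L)) (T L L)) (U (T L L) (S L L))))) (S (V (U (T (S (F 257 L) (F 321 L)) (F 385 (S L L))) (S (F 257 L) (F 385 L))) (U (T (F 257 L) (F 385 (S L (F 1 L)))) (S (F 257 L) (F 385 L)))) (T (V (S (F 257 L) (F 257 L)) (S (F 257 L) (F 321 L))) (F 385 (V (U L (F 1 L)) (V L L)))))) (F 321 (T (V (S (U (S L L) L) (T L L)) (S (U (S L (F 1 L)) L) (U L (F 1 L)))) (S (V (U (S (F 1 L) (F 1 L)) (F 1 L)) (U (S (F 1 L) (F 1 L)) (F 1 L))) (V (T (F 1 L) (F 1 L)) (T (F 1 L) (F 1 L))))))))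
noncomputable def v13_14 : Tr := (T (U v13_12 (V (S (T (F 69 (V (S L (S (F 1 L) (F 1 L))) (U (S (F 1 L) (F 1 L)) (S (F 1 L) (F 1 L))))) (S (V (T (F 69 L) (F 65 L)) (F 325 (U (S L L) L))) (F 321 (V (S L L) (S L L))))) (F 321 (T (S (V (F 16 L) (F 16 L)) (V (F 16 L) (F 16 L))) (S (V (S L (F 16 L)) (S L (F 16 L))) (V L L))))) (F 321 (S (T (U (V (S (F 16 L) (F 16 L)) (F 20 (S L L))) (V (F 16 L) (F 16 L))) (S (V (U (S (F 16 L) (F 16 L)) (F 16 L)) (U (S (F 16 L) (F 16 L)) (F 16 L))) (V (S L L) (T (F 16 L) L)))) (T (S (V (F 16 L) (F 16 L)) (V (F 16 L) (F 16 L))) (S (V (S L (F 16 L)) (S L L)) (V L L))))))) (U v13_13 (V (S (T (F 321 (S (V (U (S L L) (S L L)) (U (S L L) (S L L))) (V (T L L) (U L L)))) (S (V (U (S (F 257 L) (F 385 L)) (F 321 L)) (F 385 (U (S L L) L))) (T (F 321 (V L L)) (F 385 (V L L))))) (F 321 (T (S (V (S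 L L) (S L L)) (V L L)) (S (V (S (F 1 L) (F 1 L)) (S (F 1 L) (F 1 L))) (V (F 1 L) (F 1 L)))))) (S (T (F 321 (V (S (U (S L L) (S L (F 1 L))) (U L L)) (U (S (S L L) L) (S L (F 1 L))))) (V (S (U (F 257 L) (F 385 (S L (F 1 L)))) (T (F 321 L) (F 385 L))) (F 385 (U (S (S L (F 1 L)) (S (F 1 L) (F 1 L))) (S (S (F 1 L) (F 1 L)) (F 1 L)))))) (F 321 (T (S (V (S L L) (S L L)) (V L (S (F 1 L) (F 1 L)))) (S (V (S (F 1 L) (F 1 L)) (S (F 1 L) (F 1 L))) (V (F 1 L) (F 1 L)))))))))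
noncomputable def v13_15 : Tr := (V (S (T (U v13_0 (V (S (T (F 71 (S (V L L) (V (S L L) (S L L)))) (S (V (T (F 69 L) (F 5 L)) (T (F 69 L) (F 5 L))) (F 69 (V (T L (S L L)) (T L (S L L)))))) (F 69 (T (V (S L (S L L)) (S L (S L L))) (S (V (U (S L L) L) (U (S L L) L)) (V (U (S L L) L) (T L (S L L))))))) (S (T (F 69 (S (V (F 32 L) (F 32 L)) (V L L))) (S (V (T (F 69 L) (F 5 L)) (F 69 (U L (F 32 L)))) (F 69 (V (U (S L L) L) (U (S L L) L))))) (F 69 (T (S (V (S (F 32 L) L) (S (F 32 L) L)) (V (S L L) (S L L))) (S (V (U (S L L) L) (U (S L L) L)) (V (T L (S L L)) (T L (S L L))))))))) (U (V v13_1 v13_2) v13_3)) v13_6) (S (T (U v13_7 (F 69 (V (S (T (S (V (F 32 L) (F 32 L)) (V L L)) (V (S (U L (F 32 L)) (U (S L L) L)) (U (S L (S (F 32 L) L)) (S (F 32 L) L)))) (T (V (S (S L L) (S L L)) (S (S L L) (S L (F 1 L)))) (V (S (U (S L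 L) L) (T L (S L L))) (U (S (S L L) L) (S L L))))) (S (T (U (S (F 40 L) (F 8 L)) (F 40 (S L L))) (V (U (S (F 8 L) L) (S (F 40 L) (F 32 L))) (U (S (F 40 L) (F 8 L)) (F 9 (S (F 1 L) L))))) (T (U (V L (F 1 L)) (V (F 1 L) (F 1 L))) (S (U (V L (F 1 L)) (V L (F 1 L))) (U (V L (S (F 1 L) (F 1 L))) (V (S (F 1 L) (F 1 L)) (F 1 L))))))))) v13_11) v13_14))
noncomputable def treeV13 : Tr := (F 0xfffffffffffffffffffffffffffffffff7fffff7773bfeefff v13_15)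

theorem pV13 : chkV par treeV13 64 64 448 64 128 128 436906 524288 Lc = true := by decide +kernel

noncomputable def v14_0 : Tr := (U (V (S (T (U (V (S L (F 2 L)) (F 55 (T (K 0) (K 0)))) (V (S (F 32 L) (F 34 L)) (S (S (F 32 L) (F 32 L)) (F 32 L)))) (U (V (S (S L (F 2 L)) (S (F 2 L) (F 34 L))) (U (K 3) (S (S L (F 32 L)) L))) (S (V L (S L (F 32 L))) (T L L)))) (T (F 34 (U (K 1) (V (S L (F 1 L)) (S L L)))) (V (S (S (F 2 L) (F 2 L)) (F 2 L)) (U (K 3) (S (F 32 L) (F 34 L)))))) (S (T (U (K 3) (V (S (S (F 32 L) (F 32 L)) (F 32 L)) (S (S (F 32 L) (F 32 L)) (F 32 L)))) (U (F 55 (T (K 0) (K 0))) (V (S (T (F 32 L) (F 32 L)) (S (F 32 L) (F 32 L))) (S (T (F 32 L) (F 32 L)) (S (F 32 L) (F 32 L)))))) (T (U (K 3) (U (K 3) (V (F 32 L) (F 32 L)))) (U (K 3) (V (S (F 32 L) (F 34 L)) (S (F 32 L) (F 32 L))))))) (V (S (T (V (S (S (F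 32 L) (F 32 L)) (F 32 L)) (S (S (F 32 L) (F 32 L)) (F 32 L))) (V (S (T (F 32 L) (F 32 L)) (S (F 32 L) (F 34 L))) (S (T (F 32 L) (F 32 L)) (S (F 32 L) (F 32 L))))) (T (V (F 34 (S L L)) (S (F 32 L) (F 34 L))) (V (F 34 (S L L)) (S (F 32 L) (F 34 L))))) (S (T (V (S (S (F 32 L) (F 32 L)) (S (F 32 L) (F 32 L))) (S (S (F 32 L) (F 32 L)) (S (F 32 L) (F 32 L)))) (S (V (T (F 32 L) (F 32 L)) (T (F 32 L) (F 32 L))) (V (S (F 32 L) (F 32 L)) (S (F 32 L) (F 32 L))))) (T (V (S (F 32 L) (F 32 L)) (S (F 32 L) (F 32 L))) (S (V (S (F 32 L) (F 32 L)) (S (F 32 L) (F 32 L))) (V (F 32 L) (F 32 L)))))))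
noncomputable def v14_1 : Tr := (S (T (U (V (S (T (F 48 (V (F 4 (S L L)) (S (S L (F 4 L)) L))) (V (F 18 (U (S L (F 1 L)) (F 1 (S L L)))) (S (T (F 48 L) (S (F 32 L) (F 48 L))) (S (F 32 L) (F 32 L))))) (F 34 (T (F 1 (V (S L L) (S L L))) (V (T (F 1 L) L) (U (K 1) L))))) (F 48 (S (T (U (K 0) (V L L)) (U (K 0) (V (S L L) (S L L)))) (F 14 (T (T (K 0) (K 0)) (T (K 0) (K 0))))))) (V (S (T (F 48 (V (F 4 L) L)) (U (T (F 48 L) (F 32 L)) (F 48 (S L (F 4 L))))) (T (F 50 (S L L)) (V (F 50 (S L L)) (F 32 L)))) (S (T (F 48 (U (S L L) L)) (V (S (F 32 L) (F 32 L)) (S (F 32 L) (F 32 L)))) (T (F 48 (U (S L (F 4 L)) L)) (V (S (F 32 L) (F 34 L)) (S (F 32 L) (F 32 L))))))) v14_0) (T (U (F 34 (V (S (F 1 (T (U (K 2) L) (U (K 2) (S L L)))) (U (K 1) (T (F 1 L) L))) (F 13 (S (T (K 0) (K 0)) (K 0))))) (V (F 34 (S (T (F 1 (S L L)) (S L L))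 (T (F 1 (S L L)) (S (F 1 L) L)))) (S (T (S (F 32 L) (F 34 L)) (U (F 34 (S L L)) (F 32 L))) (F 34 (T (S L L) (S L L)))))) (U (V (F 34 (S (T (U (K 1) (S L L)) (U (K 1) (S L L))) (U (K 1) (T (S L (K 1)) (S L (F 8 L)))))) (S (T (K 3) (V (S (S (F 32 L) (F 34 L)) (K 3)) (K 3))) (F 55 (T (K 0) (K 0))))) (V (F 34 (S (T (V L (S L L)) (V L (S L L))) (T (S L L) (S L L)))) (S (T (U (F 34 (S L L)) (F 32 L)) (S (T (F 32 L) (F 32 L)) (S (F 32 L) (F 34 L)))) (F 34 (T (S L L) (V L (S L (F 8 L))))))))))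
noncomputable def v14_2 : Tr := (U (V (S (T (U (K 3) (U (K 3) (S (S (F 32 L) (F 32 L)) (S (F 32 L) (K 3))))) (U (K 3) (S (V (S (F 32 L) (F 32 L)) (S (F 32 L) (F 32 L))) (V (S (F 32 L) (F 32 L)) (S (F 32 L) (F 32 L)))))) (T (K 3) (U (K 3) (U (K 3) (S (S (F 32 L) (F 32 L)) (S (F 32 L) (F 32 L))))))) (S (T (U (K 3) (V (S (F 32 L) (F 32 L)) (S (F 36 L) (F 32 L)))) (U (T (K 3) (U (K 3) (V (S (F 32 L) (K 3)) (S (F 4 L) (F 32 L))))) (V (S (S (F 32 L) (F 32 L)) (S (F 32 L) (F 32 L))) (S L (S (F 32 L) (F 32 L)))))) (T (U (K 3) (V (K 3) (S (F 32 L) (K 3)))) (U (K 3) (V (S (S (F 32 L) (F 32 L)) (F 32 L)) (S (S (F 32 L) (F 32 L)) (F 32 L))))))) (V (S (T (U (V (S (F 32 L) (F 32 L)) (S (F 32 L) (F 32 L))) (S (F 32 L) (F 32 L))) (S (V (T (F 32 L) (F 32 L)) (T (F 32 L) (F 32 L))) (V (S (F 32 L) (F 32 L)) (S (F 32 L) (F 32 L)))))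 (T (S (V (F 32 L) (F 32 L)) (T (F 32 L) (F 32 L))) (S (V (S (F 32 L) (F 32 L)) (S (F 32 L) (F 32 L))) (V (F 32 L) (F 32 L))))) (S (T (V (S (F 32 L) (F 32 L)) (S (F 32 L) (F 32 L))) (V (S (S (F 32 L) (F 32 L)) (S (F 32 L) (F 32 L))) (S (S (F 32 L) (F 32 L)) (S (F 32 L) (F 32 L))))) (T (S (V (F 32 L) (F 32 L)) (T (F 32 L) (F 32 L))) (V (S (S (F 32 L) (F 32 L)) (F 32 L)) (S (S (F 32 L) (F 32 L)) (S (F 32 L) (F 32 L))))))))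
noncomputable def v14_3 : Tr := (S (T (U (V (S (T (F 55 (T (K 0) (K 0))) (U (K 3) (V (S (F 32 L) (K 3)) (K 3)))) (K 3)) (F 55 (S (S (K 0) (K 0)) (K 0)))) (V (S (T (F 48 (U (S L L) L)) (V (S (F 32 L) (F 32 L)) (S (F 32 L) (F 32 L)))) (T (V (F 32 L) (F 48 (S L L))) (U (S (F 32 L) (F 32 L)) (S (F 32 L) (F 32 L))))) (S (T (S (F 48 L) (F 32 L)) (U (S (F 32 L) (F 32 L)) (F 32 L))) (T (S (F 32 L) (F 32 L)) (U (S (F 32 L) (F 32 L)) (F 32 L)))))) v14_2) (T (U (K 3) (V (S (T (V (F 32 L) (F 32 L)) (U (S (F 32 L) (K 3)) (F 32 L))) (U (K 3) (T (F 34 L) (F 32 L)))) (S (U (K 3) (T (F 32 L) (F 32 L))) (T (K 3) (S (F 32 L) (F 32 L)))))) (U (V (F 55 (S (T (K 0) (K 0)) (K 0))) (S (T (K 3) (U (K 3) (T (K 3) (V (F 32 L) (F 32 L))))) (F 33 (T (K 1) (U (K 1) (V (K 1) (S L (K 1)))))))) (V (S (T (U (S (F 32 L) (F 32 L)) (S (F 32 L) (F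 34 L))) (S (V (F 32 L) (F 32 L)) (T (F 32 L) (F 32 L)))) (T (V (F 32 L) (F 32 L)) (V (F 32 L) (F 33 (S L L))))) (S (T (V (S (F 32 L) (F 32 L)) (S (F 32 L) (F 32 L))) (S (V (F 32 L) (F 32 L)) (T (F 32 L) (F 32 L)))) (T (U (S (F 32 L) (F 33 L)) (F 33 (S L L))) (F 33 (V (S L L) (S L L)))))))))
noncomputable def v14_4 : Tr := (S (T (U (V (S (T (F 18 (S L L)) (T (F 16 L) L)) (T (F 18 (S L L)) (S (F 2 L) (F 18 L)))) (S (T (S (F 16 L) (F 16 L)) (S L L)) (T (S (F 16 L) (F 16 L)) (S L L)))) (V (S (T (F 16 L) (S (F 16 L) (F 18 L))) (F 18 (T L (S L L)))) (S (T (F 16 L) (S (F 16 L) (F 16 L))) (T (F 16 L) (S (F 16 L) (F 16 L)))))) (U (V (S (T (U (S L (F 2 L)) (S (F 16 L) (F 2 L))) (V (S L L) (S L L))) (T (S L (F 2 L)) (U (S (F 2 L) (F 2 L)) L))) (S (T (S (S L L) (S L L)) (S (V L L) (S L L))) (T (V L L) (U (S L L) (S L (F 2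 L)))))) (V (S (T (S L L) (V (S L (F 2 L)) (S L L))) (T (S (F 2 L) (F 2 L)) (S L (F 2 L)))) (S (T (S L L) (S L L)) (T (S L L) (S L L)))))) (T (U (V (S (F 18 (T L (S L L))) (T (F 18 L) (F 2 L))) (S (T L (S (F 2 L) (F 2 L))) (T (F 2 L) (S (F 2 L) (F 2 L))))) (V (S (T (F 18 L) (F 2 L)) (F 18 (T L L))) (S (T (F 16 L) L) (T (F 18 L) (F 2 L))))) (U (V (S (T (S (F 2 L) (F 2 L)) (S (F 2 L) (F 2 L))) (T (F 2 L) (F 3 (S L L)))) (S (T (S L (F 2 L)) (S L (F 2 L))) (T (S (F 2 L) (F 2 L)) (S (F 2 L) (F 3 L))))) (S (V (T (S (F 2 L) (F 2 L)) (S (F 2 L) (F 2 L))) (T (S (F 2 L) (F 2 L)) (S L (F 2 L)))) (V (T (F 2 L) (F 2 L)) (T (F 2 L) (F 2 L)))))))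
noncomputable def v14_5 : Tr := (S (T (U (V (S (T (S (F 16 L) (F 16 L)) (S L L)) (T (S (F 16 L) (F 16 L)) (S L L))) (S (T L (S L L)) (T L (S L L)))) (S (V (T (F 16 L) L) (S L L)) (V (T (F 16 L) L) (S L L)))) (U (V (S (T (S (S L L) L) (S (V L L) (S L L))) (T (S L L) (S (S L L) (S L L)))) (S (T (S (S L L) L) (V (S L L) (S L L))) (T (S L L) (S (S L L) (S L L))))) (V (S (T (S L L) (S L L)) (T (S L L) (S L L))) (S (T (S L L) (S L L)) (T (S L L) (S L L)))))) (T (U (V (S (T (S (F 16 L) (F 16 L)) (S L L)) (T (S (F 2 L) (F 2 L)) (S (F 2 L) (F 2 L)))) (S (T L (S L L)) (T L (S L L)))) (V (S (T (F 16 L) L) (T L L)) (S (S L L) (S L L)))) (U (V (S (T (S L L) (S L L)) (T (S L (F 2 L)) (S (F 1 L) (F 1 L)))) (S (T (S L L) (V L L)) (T (S L (F 1 L)) (S (F 1 L) (F 1 L))))) (V (S (T L (S (F 1 L) (F 1 L))) (T L (F 1 L))) (S (T L (S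 (F 1 L) (F 1 L))) (T L (F 1 L)))))))
noncomputable def v14_6 : Tr := (S (T (U (F 10 (V (S (T (S L L) (U (K 3) (S (F 32 L) (F 32 L)))) (T (K 3) (S L (F 32 L)))) (U (K 3) (S (T (S (F 32 L) (K 3)) (S (F 32 L) (F 32 L))) (S L (F 32 L)))))) (S (F 11 (V (T (S L L) (S L L)) (T (S L L) (S L L)))) (V (F 10 (S L (F 32 L))) (F 3 (T (F 16 L) L))))) (U (V (S (T (S (S (F 2 L) (F 2 L)) (F 2 L)) (S (S (F 2 L) (F 2 L)) (F 2 L))) (T (F 10 (S L L)) (S (F 2 L) (F 3 L)))) (S (T (S (S (F 2 L) (F 2 L)) (S (F 2 L) (F 3 L))) (S (T (F 2 L) (F 2 L)) (S (F 2 L) (F 2 L)))) (T (S (F 2 L) (F 3 L)) (S (F 2 L) (F 3 L))))) (S (V (T (F 2 L) (F 3 (S L L))) (F 3 (T (S L L) (S L L)))) (V (S (F 2 L) (F 3 L)) (F 3 (T L (S L (F 16 L)))))))) (T (F 10 (S (V (U (S L (K 3)) (S (F 32 L) (F 32 L))) (U (K 3) (S (F 32 L) (F 32 L)))) (U (K 3) (V (F 32 L) (F 32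 L))))) (U (S (V (S (F 2 L) (F 2 L)) (T (F 2 L) (F 2 L))) (V (F 10 (S L (F 32 L))) (S (F 2 L) (F 3 L)))) (S (V (F 2 L) (F 3 (S L L))) (F 3 (V (F 16 L) L))))))
noncomputable def v14_7 : Tr := (U (V (S (T (F 10 (U (V (S (T L L) (S (F 2 L) (F 2 L))) (S (T (S L (F 32 L)) (S L L)) (T L L))) (S (V (S L L) (T L L)) (V L (S (F 32 L) (F 32 L)))))) (U (S (V (T (F 74 (S L L)) (F 2 L)) (T (S (F 2 L) (F 10 L)) (S (F 2 L) (F 2 L)))) (V (F 10 (S L (K 2))) (T (F 10 L) (F 2 L)))) (S (V (F 10 (T L L)) (T (F 2 L) (F 2 L))) (V (F 74 (S L L)) (S (F 2 L) (F 10 L)))))) (F 10 (T (S (V (T (F 2 L) (F 2 L)) (T L L)) (V (S (F 2 L) (F 34 L)) (S L (F 2 L)))) (S (V (U (K 2) (F 2 L)) (T (S L (F 2 L)) (S L (F 2 L)))) (V (S (F 2 L) (F 34 L)) (T (F 2 L) (F 2 L))))))) v14_6) (V (S (T (F 10 (V (S (U L (F 32 L)) (T (F 34 L) (F 32 L))) (S (U (S (F 32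 L) (F 32 L)) (F 32 L)) (T (F 32 L) (F 32 L))))) (S (V (F 10 (U (S L (F 32 L)) (S (F 32 L) (F 32 L)))) (F 3 (U (S L L) L))) (F 3 (V (T (F 16 L) L) (S (S L L) L))))) (F 11 (T (S (V L (S L L)) (V (F 2 L) L)) (S (V (S L (F 2 L)) (T L L)) (V (F 2 L) (S L (F 2 L))))))) (F 3 (S (T (S (V (U (S (F 16 L) (F 16 L)) (F 16 L)) (U (S (F 16 L) (F 16 L)) (F 16 L))) (V (T (F 16 L) (S (F 16 L) (F 16 L))) (U (S (F 16 L) (F 16 L)) (F 16 L)))) (S (V (U (T (F 16 L) L) L) (U (T L L) (S (F 16 L) (F 16 L)))) (V (T L (S (F 16 L) (F 16 L))) (U (S L (F 16 L)) (F 16 L))))) (T (S (V (S (F 16 L) (F 16 L)) (S (F 16 L) (F 16 L))) (V (F 16 L) (S (F 16 L) (F 16 L)))) (S (V (S L (F 16 L)) (T L L)) (V (S (F 16 L) (F 17 L)) (S (F 16 L) (F 1 L)))))))))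
noncomputable def v14_8 : Tr := (S (T (U (V (S (T (S (S (F 2 L) (F 2 L)) (F 2 L)) (V (F 2 L) (F 3 (S L L)))) (T (S (F 2 L) (F 3 L)) (F 130 (S L (F 32 L))))) (S (T (S (T (F 2 L) (F 2 L)) (S (F 2 L) (F 2 L))) (S (S (F 2 L) (F 2 L)) (S (F 2 L) (F 3 L)))) (T (S (F 2 L) (F 3 L)) (S (F 2 L) (F 131 L))))) (F 3 (S (V (T (S L L) (S L (F 1 L))) (T (S L L) (S L L))) (V (T L L) (T (S (F 1 L) (F 1 L)) L))))) (U (V (S (T (V (F 2 L) (F 2 L)) (F 130 (S L (F 32 L)))) (F 131 (T (S L L) (K 4)))) (S (T (V (F 2 L) (F 3 (S L (F 1 L)))) (F 131 (U (K 4) (S L (K 4))))) (F 131 (U (K 4) (T L (K 4)))))) (F 131 (S (V (T (S L L) (S L L)) (T (S L L) (S L L))) (V (S L L) (T L L)))))) (T (U (V (S (S (F 2 L) (F 130 L)) (F 131 (S L L))) (S (T (F 2 L) (F 131 (S L (K 4)))) (F 130 (S L (K 4))))) (F 3 (S (V (S (F 1 L) (F 1 L)) (S L (F 1 L))) (V (F 1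 L) (S (F 1 L) (F 17 L)))))) (F 131 (S (U (K 4) (V L (S L L))) (U (K 4) (T L L))))))
noncomputable def v14_9 : Tr := (U (V (S (T (U (S (V (T (F 66 (S L L)) (F 2 L)) (T (S (F 2 L) (F 2 L)) (S (F 2 L) (F 2 L)))) (V (S (F 2 L) (F 66 L)) (T (F 2 L) (F 2 L)))) (S (V (T (F 2 L) (F 2 L)) (T (F 2 L) (F 2 L))) (V (F 2 L) (S (F 2 L) (F 130 L))))) (U (S (V (T (F 2 L) (F 130 L)) (T (S (F 2 L) (F 130 L)) (F 130 (S L (F 32 L))))) (F 130 (V (S (F 1 L) (F 33 L)) (T L (F 1 L))))) (F 130 (S (V (S L (F 32 L)) (T L (F 32 L))) (V (F 1 L) (S (F 32 L) (F 32 L))))))) (T (S (V (F 66 (T L (F 1 L))) (U (F 2 L) (F 130 L))) (F 194 (V (S L (F 4 L)) (T L (F 16 L))))) (F 130 (S (V (S (F 1 L) (F 1 L)) (T L (F 32 L))) (F 33 (V (S L (F 2 L)) (T L L))))))) v14_8) (F 3 (V (S (T (S (V (U (S L L) L) (U (S L L) (S (F 1 L) (F 1 L)))) (V (T L L) (U (S (F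 1 L) (F 1 L)) (F 1 L)))) (S (V (T (S (F 1 L) (F 1 L)) (F 1 L)) (U (S (F 1 L) (F 1 L)) (F 1 L))) (V (S (F 1 L) (F 3 L)) (T (F 1 L) (F 1 L))))) (T (S (V (S (F 1 L) (F 3 L)) (S L (F 1 L))) (V (F 3 L) (F 1 L))) (V (F 3 (S (S L L) L)) (S (S (F 1 L) (F 3 L)) (F 3 L))))) (S (T (S (V (U (T L L) L) (U (T L L) (S L (F 1 L)))) (V (T (S L (F 1 L)) L) (U (S (F 1 L) (F 1 L)) (F 1 L)))) (S (V (U (S (F 1 L) (F 1 L)) (F 1 L)) (U (S (F 1 L) (F 1 L)) (F 1 L))) (V (T (F 1 L) (F 1 L)) (T (F 1 L) (F 1 L))))) (T (S (V (S L (F 1 L)) (T (F 1 L) (F 1 L))) (V (S (F 1 L) (F 17 L)) (S (F 1 L) (F 1 L)))) (S (V (S (F 1 L) (F 1 L)) (S (F 1 L) (F 1 L))) (V (F 1 L) (F 1 L))))))))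
noncomputable def v14_10 : Tr := (T (U (V (F 18 (S (T (V (S L (K 2)) (U (K 1) (S L (F 8 L)))) (S (V L (S L (F 8 L))) (T L (F 8 L)))) (T (U (K 1) L) (F 8 (V (F 6 (S (K 0) (K 0))) (S L L)))))) (S (T (F 18 (U (K 1) (S (T L L) (S L (F 8 L))))) (S (V (T (F 18 L) (F 3 L)) (T (S (F 16 L) (F 17 L)) L)) (F 17 (V (F 8 (S L L)) (T L L))))) (F 19 (T (U (K 1) (S L L)) (S (V L (S L L)) (S L L)))))) (V (F 18 (S (T (U (S L (F 8 L)) (S L (F 8 L))) (S (T L L) (F 8 (S L L)))) (T (S L (F 8 L)) (F 8 (S L L))))) (S (T (S (T (F 16 L) (F 16 L)) (S (F 16 L) (F 18 L))) (U (S (S (F 16 L) (F 17 L)) (F 17 L)) (F 17 (S L (F 8 L))))) (F 18 (T (S (S L (F 8 L)) (F 8 L)) (F 8 (U (S L L) L))))))) (U (V (F 3 (S (T (S (V (F 2 (S L L)) (S L (F 2 L))) (F 2 (T L L))) (S (V L L) (S L L))) (F 2 (T (V L (S L L)) (S (S L L) L))))) (S (T (V (F 3 (S (T L L)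 L)) (S (U (K 5) (F 1 L)) (S (F 1 L) (F 3 L)))) (U (K 5) (S (S (F 1 L) (F 3 L)) (F 3 L)))) (F 3 (T (V (F 2 (S L L)) (S L (F 2 L))) (F 14 (S (K 0) (K 0))))))) (V (F 3 (S (T (F 2 (S (T L L) L)) (U (F 2 (S L L)) L)) (F 2 (T (S L L) (S L L))))) (S (T (S (V (F 1 L) (F 1 L)) (S (F 1 L) (F 3 L))) (S (S (F 1 L) (F 1 L)) (F 3 (S L L)))) (F 3 (T (F 2 (U (S L L) L)) (V L (F 2 (S L L)))))))))
noncomputable def v14_11 : Tr := (S (T (U (V (F 3 (S (T (U (K 3) (S (F 16 L) (K 3))) (S (V L L) (S L L))) (T (K 3) (V L L)))) (S (T (F 9 (V L L)) (V (F 3 (S L (F 16 L))) (F 1 L))) (F 3 (U (K 3) (T (F 16 L) L))))) (F 3 (S (V (T (S (F 16 L) (F 16 L)) (S (F 16 L) (F 16 L))) (T (S (F 16 L) (F 16 L)) (S L (F 16 L)))) (V (T (F 16 L) L) (T (F 16 L) L))))) (U (V (S (T (S (U (F 1 L) (F 3 L)) (F 3 (T L L))) (V (F 3 (S (S L L) L)) (S (F 1 L) (F 3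 L)))) (F 3 (T (S (S L L) (S L L)) (S (S L L) (S L L))))) (S (T (S (S (F 1 L) (F 1 L)) (S (F 1 L) (F 3 L))) (S (S (F 1 L) (F 1 L)) (S (F 1 L) (F 1 L)))) (T (S (F 1 L) (F 3 L)) (S (F 1 L) (F 3 L))))) (F 3 (S (V (T (S L L) (S L L)) (T (S L L) (S L L))) (V (T (S L (F 16 L)) (S L L)) (T (S L (F 16 L)) L)))))) (F 3 (T (U (T (K 3) (T (K 3) (U (K 3) (S (S L (F 16 L)) L)))) (V (S (S (F 16 L) (F 16 L)) (S (F 16 L) (F 16 L))) (S (T (F 16 L) (F 16 L)) (S (F 16 L) (F 16 L))))) (U (V (S (T (S L L) (S L L)) (T L L)) (S (T (S L L) (S L (F 1 L))) (T L L))) (V (S (T L L) (S L (F 1 L))) (S (T L L) (S (F 1 L) (F 1 L))))))))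
noncomputable def v14_12 : Tr := (S (T (U (S (V (T (F 9 (S L L)) (S (F 1 L) (F 1 L))) (T (F 1 L) (F 1 L))) (V (T (F 9 (S L (F 32 L))) (F 3 (S L L))) (T (F 1 L) (F 1 L)))) (S (V (S (F 1 L) (F 1 L)) (F 9 (S L L))) (V (F 3 (T (F 16 L) L)) (F 9 (S L L))))) (U (V (S (T (S (F 1 L) (F 1 L)) (S (F 1 L) (F 1 L))) (T (S (F 1 L) (F 3 L)) (S (F 1 L) (F 3 L)))) (S (T (F 33 (S L L)) (S (F 1 L) (F 129 L))) (T (F 1 L) (F 129 (S L L))))) (V (S (T (F 1 L) (F 1 L)) (F 3 (T L L))) (S (T (F 1 L) (F 1 L)) (S (F 1 L) (F 3 L)))))) (T (U (S (V (F 3 (T (K 3) (S L (F 16 L)))) (S (F 1 L) (F 1 L))) (V (F 3 (T (K 3) L)) (S (F 1 L) (F 3 L)))) (F 3 (S (V (S L (F 16 L)) (S L (F 16 L))) (V (S (F 16 L) (F 16 L)) L)))) (U (S (V (F 3 (T (S L (F 1 L)) (S L (F 1 L)))) (S (F 1 L) (F 1 L))) (F 3 (T (V L (F 1 L)) (K 5)))) (S (V (F 3 (S L L)) (F 129 (S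 L (F 32 L)))) (F 131 (V (S L L) (S L L)))))))
noncomputable def v14_13 : Tr := (S (T (U (V (S (T (V (F 3 (S (S L L) L)) (S (F 1 L) (F 3 L))) (S (U (F 1 L) (F 3 L)) (F 3 (T L L)))) (F 3 (T (S (S L L) (S L (F 1 L))) (S L L)))) (S (T (S (S (F 1 L) (F 1 L)) (F 1 L)) (V (F 3 (S L (F 1 L))) (F 1 L))) (T (S (F 1 L) (F 3 L)) (F 3 (S L (K 5)))))) (F 3 (S (V (T (V L L) (S L (F 1 L))) (T (S L L) (S L (F 1 L)))) (V (T (S (F 1 L) (F 1 L)) L) (T L (F 1 L)))))) (F 129 (U (S (V (U (K 4) (T (S (F 32 L) (F 32 L)) (F 32 L))) (T (U (K 4) L) (S L (K 4)))) (K 4)) (S (V (T (S (F 32 L) (F 32 L)) (F 32 L)) (T (S (F 32 L) (F 32 L)) (F 32 L))) (V (S (F 32 L) (F 32 L)) (S (F 32 L) (F 32 L))))))) (F 3 (T (U (S (T (V (S L (F 1 L)) (S (F 1 L) (K 5))) (K 5)) (K 5)) (S (V (T (F 1 L) (F 1 L)) (S (F 1 L) (F 1 L))) (V (S (F 1 L) (F 1 L)) (S (F 1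 L) (F 1 L))))) (U (K 5) (S (V (F 1 L) (F 1 L)) (F 31 (S (K 0) (K 0))))))))
noncomputable def v14_14 : Tr := (U (V v14_13 (S (T (U (V (S (T (S (F 1 L) (F 1 L)) (S (F 1 L) (F 129 L))) (F 129 (T (S L (F 32 L)) (S L (K 4))))) (F 129 (S (T (S L L) (S L L)) (T (S L (F 32 L)) L)))) (S (V (T (F 1 L) (F 1 L)) (F 129 (T L L))) (F 129 (V (T (F 32 L) (F 32 L)) (S L (F 32 L)))))) (F 129 (U (S (V (T (S L L) (S L (F 32 L))) (T (S (F 2 L) (F 2 L)) L)) (T (V (K 4) L) (K 4))) (S (V (T L (F 32 L)) (S L L)) (V (S (F 32 L) (F 32 L)) (S (F 32 L) (F 32 L))))))) (F 129 (T (S (V (U (K 4) (S (F 32 L) (F 32 L))) (U (S L (K 4)) (S (F 32 L) (F 32 L)))) (U (K 4) (V (F 32 L) (F 32 L)))) (U (K 4) (S (V (F 32 L) (F 32 L)) (K 4))))))) (V (F 3 (S (T (S (V (U (T L L) (S (F 1 L) (F 1 L))) (U (T L (F 1 L)) L)) (V (U (S (F 1 L) (F 1 L)) (F 1 L)) (T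 L (S (F 1 L) (F 1 L))))) (S (V (U (S (F 1 L) (F 1 L)) (F 1 L)) (U (S (F 1 L) (F 1 L)) (F 1 L))) (V (T (F 1 L) (F 1 L)) (T (F 1 L) (F 1 L))))) (T (S (V (T (F 1 L) (F 1 L)) (T (F 1 L) (F 1 L))) (V (S (F 1 L) (F 1 L)) (S (F 1 L) (F 1 L)))) (S (V (S (F 1 L) (F 1 L)) (F 1 L)) (V (F 1 L) (F 1 L)))))) (S (T (S (V (F 3 (U (S L (F 1 L)) (S (F 1 L) (F 1 L)))) (F 129 (U (S L (F 32 L)) (S (F 32 L) (F 32 L))))) (F 3 (V (T L (F 1 L)) (T (S (F 1 L) (F 1 L)) (F 1 L))))) (F 131 (S (V (U (S L L) L) (T (S L L) L)) (V (T L L) (S L L))))) (F 131 (T (S (V (S L L) (S L L)) (V (S L L) L)) (S (V L L) (V L L)))))))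
noncomputable def v14_15 : Tr := (U (V (S (T (U (K 3) (V (S (F 16 L) (F 17 L)) (S (F 16 L) (F 17 L)))) (S (V (U (S L (F 1 L)) (F 1 L)) (U (T (F 1 L) (K 5)) (F 17 (S L L)))) (V (T (F 1 L) (F 1 L)) (F 17 (U (K 0) L))))) (F 17 (T (U (K 1) (V L (S L (F 8 L)))) (V (U (S L (K 0)) L) (U (K 0) (S L (F 8 L))))))) (S (T (V (S (U (S L (F 16 L)) (F 16 L)) (F 17 (U (K 1) L))) (S (U (S L (F 16 L)) (F 16 L)) (T L (S (F 1 L) (F 17 L))))) (V (S (U (K 5) (F 1 L)) (F 17 (U (K 0) L))) (U (K 5) (S (F 1 L) (F 1 L))))) (T (F 17 (V (U (K 1) (S L L)) (U (F 14 (S (K 0) (K 0))) (S L L)))) (U (K 5) (S (S (F 1 L) (K 5)) (K 5)))))) (V (S (T (V (S (F 16 L) (F 17 L)) (S (S (F 16 L) (F 17 L)) (F 16 L))) (V (F 17 (S (S L L) L)) (S (S (F 1 L) (F 17 L)) (F 1 L)))) (F 17 (T (V (S L (F 8 L)) (S L L)) (V (S L (F 8 L)) (S L L))))) (S (T (V (S (S (F 16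 L) (F 17 L)) (F 16 L)) (S L (F 17 (S L L)))) (V (S (S (F 1 L) (F 17 L)) (F 1 L)) (S (F 1 L) (F 1 L)))) (F 17 (T (V (S L L) (S L L)) (V (S L L) (S L L)))))))
noncomputable def v14_16 : Tr := (S (T (U (V v14_11 v14_12) (F 3 (V (S (T (V (S (U (S (F 16 L) (F 16 L)) (F 16 L)) (T (F 16 L) L)) (S (U (T (F 16 L) (F 16 L)) (F 16 L)) (T (S (F 16 L) (F 16 L)) L))) (V (S (U (T L L) (S L (F 16 L))) (U (S L L) L)) (S (U (T L L) (S L (F 16 L))) (U (S L L) L)))) (T (S (V (T (F 16 L) (F 16 L)) (T (F 16 L) L)) (V (S (F 16 L) (F 16 L)) (S (F 16 L) (F 16 L)))) (S (V (T L L) (T L L)) (U (T L L) L)))) (S (T (V (S (U (S (F 16 L) (F 16 L)) (F 16 L)) (U L (F 16 L))) (S (U L (F 16 L)) (T (F 16 L) L))) (S (V (U (S L L) L) (U (S L L) L)) (V (T (S L (F 16 L)) L) (T L L)))) (T (V (S (S L L) (S (F 16 L) (F 16 L))) (S (S L L) (S (F 16 L) (F 16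 L)))) (S (V (T L (F 1 L)) (S L (F 1 L))) (V (S (F 1 L) (F 1 L)) (S (F 1 L) (F 1 L))))))))) v14_14) (F 3 (T v14_15 (U (V (S (T (U (K 5) (V (S (F 1 L) (F 17 L)) (S (F 1 L) (K 5)))) (K 5)) (F 31 (T (S (K 0) (K 0)) (K 0)))) (S (T (U (K 5) (V (S (F 1 L) (K 5)) (K 5))) (K 5)) (K 5))) (V (S (T (V (S (F 1 L) (F 1 L)) (S (F 1 L) (F 1 L))) (V (S (F 1 L) (F 3 L)) (S (F 1 L) (F 1 L)))) (T (U (S (F 1 L) (F 17 L)) (F 1 L)) (V (F 1 L) (F 3 (S L L))))) (S (T (V (S (F 1 L) (F 1 L)) (S (F 1 L) (F 1 L))) (U (S (F 1 L) (K 5)) (F 1 L))) (T (V (F 17 (S L L)) (S (F 1 L) (F 17 L))) (S (F 1 L) (F 1 L)))))))))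
noncomputable def v14_17 : Tr := (T (U (V (S (T (S (V (S (F 16 L) (F 16 L)) (S (F 16 L) (F 16 L))) (V (F 16 L) (F 16 L))) (S (V (S (F 16 L) (F 16 L)) (S L (F 16 L))) (V (S (F 16 L) (F 18 L)) (S (F 16 L) (F 16 L))))) (T (S (T (F 16 L) (F 16 L)) (F 16 L)) (S (V (F 16 L) (F 16 L)) (S (F 16 L) (F 18 L))))) (S (T (S (U (S (F 16 L) (F 16 L)) (F 16 L)) (V (F 16 L) (F 16 L))) (S (V (S L (F 16 L)) (S L (F 16 L))) (V L L))) (T (S (T (F 16 L) (F 16 L)) (S (F 16 L) (F 16 L))) (S (T L L) (T (F 16 L) (F 1 L)))))) (V (S (T (S (T (F 16 L) (F 16 L)) (S (F 16 L) (F 16 L))) (S (V (F 16 L) (F 16 L)) (T (F 16 L) (F 16 L)))) (T (S (F 16 L) (F 16 L)) (V (F 16 L) (F 16 L)))) (S (T (S (S (F 16 L) (F 16 L)) (S (F 16 L) (F 16 L))) (S (S L L) (S L (F 16 L)))) (T (S (F 16 L) (F 16 L)) (V (F 16 L) (F 16 L)))))) (U (V (S (T (S (V (S L L) (S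 L (F 1 L))) (V L L)) (S (V (S (F 1 L) (F 1 L)) (S (F 1 L) (F 1 L))) (V (F 1 L) (F 1 L)))) (T (S (T L (F 1 L)) (F 1 L)) (S (S (F 1 L) (F 3 L)) (F 3 (S L L))))) (S (T (S (V (S L (F 1 L)) (S L (F 1 L))) (V L (S (F 1 L) (F 1 L)))) (S (V (S (F 1 L) (F 1 L)) (S (F 1 L) (F 1 L))) (V (F 1 L) (F 1 L)))) (T (S (T L (F 1 L)) (S (F 1 L) (F 1 L))) (S (S (F 1 L) (F 1 L)) (S (F 1 L) (F 1 L)))))) (V (S (T (S (T L L) (S (F 1 L) (F 1 L))) (S (T (F 1 L) (F 1 L)) (S (F 1 L) (F 1 L)))) (T (S (F 1 L) (F 17 L)) (S (F 1 L) (F 3 L)))) (S (T (S (T L L) (T (F 1 L) (F 1 L))) (S (S (F 1 L) (F 1 L)) (S (F 1 L) (F 1 L)))) (T (V (F 1 L) (F 1 L)) (S (F 1 L) (F 1 L)))))))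
noncomputable def v14_18 : Tr := (T (U (V (S (T (S (V (S (F 16 L) (F 16 L)) (S (F 16 L) (F 16 L))) (V (F 16 L) (F 16 L))) (S (V (S L (F 16 L)) (S L L)) (V L L))) (T (S (V (F 16 L) (F 16 L)) (S (F 16 L) (F 16 L))) (V (S (F 1 L) (F 17 L)) (S (F 1 L) (F 17 L))))) (S (T (V (S (S (F 16 L) (F 16 L)) (F 16 L)) (S (S (F 16 L) (F 16 L)) (S (F 16 L) (F 16 L)))) (S (V (S L L) (S L L)) (V L L))) (T (S (T (F 16 L) L) (T (F 16 L) (F 16 L))) (S (T L (F 1 L)) (S (F 1 L) (F 1 L)))))) (V (S (T (S (S (F 16 L) (F 16 L)) (S (F 16 L) (F 16 L))) (S (S L L) (S L (F 16 L)))) (T (S (F 16 L) (F 16 L)) (S L (F 1 L)))) (S (T (S (T (F 16 L) (F 16 L)) (S (F 16 L) (F 16 L))) (S (T L L) (S L (F 1 L)))) (T (V (F 16 L) (F 16 L)) (V (F 1 L) (F 1 L)))))) (U (V (S (T (S (V (S L (F 1 L)) (S (F 1 L) (F 1 L))) (V (F 1 L) (F 1 L))) (S (V (F 1 L) (F 1 L))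 (T (F 1 L) (F 1 L)))) (T (S (V (F 1 L) (F 1 L)) (S (F 1 L) (F 1 L))) (S (S (F 1 L) (F 1 L)) (F 1 L)))) (S (T (S (V (S (F 1 L) (F 1 L)) (T (F 1 L) (F 1 L))) (V (F 1 L) (F 1 L))) (S (V (F 1 L) (S (F 1 L) (F 1 L))) (T (F 1 L) (F 1 L)))) (T (S (T (F 1 L) (F 1 L)) (F 1 L)) (V (F 1 L) (S (F 1 L) (F 1 L)))))) (V (S (T (S (T L (F 1 L)) (S (F 1 L) (F 1 L))) (S (S (F 1 L) (F 1 L)) (F 1 L))) (T (S (F 1 L) (F 1 L)) (S (F 1 L) (F 1 L)))) (S (T (S (V (F 1 L) (F 1 L)) (S (F 1 L) (F 1 L))) (S (T (F 1 L) (F 1 L)) (F 1 L))) (T (S (F 1 L) (F 1 L)) (S (F 1 L) (F 1 L)))))))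
noncomputable def v14_19 : Tr := (V (S v14_17 (T (U (V (F 18 (S (T (S L (F 8 L)) (F 8 (U L L))) (F 8 (T (S L L) L)))) (S (T (S (F 16 L) (F 17 L)) (F 17 (V L (S L (F 8 L))))) (F 19 (T (S L L) (S L L))))) (S (V (F 18 (T (S L (F 8 L)) (F 8 (S L L)))) (F 17 (T (S L (F 8 L)) (S L (F 8 L))))) (F 19 (V (T L L) (T L L))))) (U (V (F 3 (S (T (F 2 (T L L)) (S L (F 2 L))) (F 2 (T L L)))) (S (T (S (F 1 L) (F 17 L)) (S (F 1 L) (F 3 L))) (F 19 (T (S L L) (S L L))))) (S (V (F 3 (T (F 2 (S L L)) L)) (T (F 17 (S L (F 8 L))) (F 3 (S L L)))) (F 3 (V (F 2 (T L L)) (T (F 2 (S L L)) L))))))) (S v14_18 (T (U (V (S (T (V (F 16 L) (F 16 L)) (S (S (F 1 L) (F 17 L)) (F 1 L))) (F 17 (T (S L L) (S L L)))) (S (T (S (S (F 16 L) (F 17 L)) (F 17 (S L L))) (V (F 1 L) (F 1 L))) (F 17 (T (S L L) (S L L))))) (F 17 (V (S (T (S L L) (S L L)) (T L (S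 L (F 8 L)))) (S (T (S L L) (S L L)) (T L (S L L)))))) (U (V (S (T (S (F 1 L) (F 1 L)) (S (F 1 L) (F 1 L))) (T (S (F 1 L) (F 17 L)) (S (F 1 L) (F 3 L)))) (S (T (S (F 1 L) (F 1 L)) (S (F 1 L) (F 1 L))) (T (S (F 1 L) (F 17 L)) (S (F 1 L) (F 1 L))))) (V (S (T (F 17 (S L L)) (S (F 1 L) (F 17 L))) (T (F 1 L) (F 1 L))) (S (T (F 17 (S L L)) (F 1 L)) (T (F 1 L) (F 1 L))))))))
noncomputable def treeV14 : Tr := (F 0xffffffffffffffffffffffffffffffffe7fffff7773ffeffff (T (U (V (F 10 v14_1) (F 9 v14_3)) (F 11 (V v14_4 v14_5))) (U (V (S (T v14_7 v14_9) (F 3 v14_10)) v14_16) (F 3 v14_19))))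

theorem pV14 : chkV par treeV14 192 64 384 128 128 128 349525 524288 Lc = true := by decide +kernel

noncomputable def v15_0 : Tr := (S (T (V (U (S (S (F 32 L) (F 32 L)) (S (F 32 L) (F 32 L))) (S (S (F 32 L) (F 32 L)) (F 33 (S L L)))) (U (S (S (F 32 L) (F 32 L)) (S (F 32 L) (F 32 L))) (S (F 33 (S L L)) (F 32 L)))) (V (U (S (T (F 32 L) (S (F 32 L) (F 32 L))) (T (F 33 (S L L)) (S (F 32 L) (S (F 32 L) (F 32 L))))) (S (T (F 32 L) (S (F 32 L) (F 32 L))) (T (F 32 L) (S (F 32 L) (F 33 L))))) (U (S (T (F 32 L) (S (F 32 L) (F 32 L))) (T (F 33 (S L L)) (V (F 32 L) (F 32 L)))) (S (T (F 32 L) (F 32 L)) (U (F 33 (S L L)) (F 32 L)))))) (T (V (U (S (S (F 32 L) (F 32 L)) (F 33 (T L L))) (F 33 (S (S L L) (S L L)))) (U (S (S (F 32 L) (F 33 L)) (F 33 (S L L))) (F 33 (S (S L L) (S L L))))) (V (U (S (T (F 33 (S L L)) (V (F 33 (S L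 L)) (F 1 L))) (T (F 33 (S L L)) (V (F 1 L) (F 1 L)))) (F 33 (S (T L (S L L)) (T L (S L L))))) (U (S (T (F 33 (S L L)) (V (F 33 (S L L)) (F 1 L))) (T (F 33 (S L L)) (S (F 1 L) (F 1 L)))) (S (F 33 (T L (S L L))) (T (F 33 L) (S (F 33 L) (F 1 L))))))))
noncomputable def v15_1 : Tr := (S (T (U (S (V (S (F 40 L) (F 33 L)) (F 41 (S L L))) (F 33 (V (S L L) (F 2 (S L L))))) (F 33 (V (S L (S (F 2 L) L)) (F 2 (S L L))))) (V (U (S (U (S (F 40 L) (F 32 L)) (F 32 L)) (T (F 32 L) (S (F 32 L) (F 1 L)))) (S (S (F 32 L) (F 32 L)) (F 33 (U (S L L) L)))) (U (S (F 40 (T (F 8 L) (S (F 8 L) L))) (F 33 (U (T (F 2 L) L) (S (F 2 L) L)))) (F 33 (S (F 2 (U L L)) (U L (F 2 L))))))) (T (F 33 (U (V (S (S L L) (S L L)) (S (F 2 (S L L)) (S L L))) (V (S L (S L L)) (S L L)))) (V (U (S (T (F 33 (S L L)) (S (F 1 L) (F 1 L))) (T (F 33 (S L L)) (S (F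 1 L) (F 1 L)))) (S (F 33 (T L (S L L))) (T (F 33 L) (S (F 1 L) (F 1 L))))) (U (S (T (F 33 (S (F 2 L) L)) (S (F 1 L) (F 1 L))) (T (F 33 (S L L)) (S (F 1 L) (F 1 L)))) (S (T (F 33 L) (S (F 33 L) (F 1 L))) (T (F 33 L) (S (F 1 L) (F 1 L))))))))
noncomputable def v15_2 : Tr := (V (U (S (T (S (U (V (F 34 (S L L)) (F 2 L)) (T (F 2 L) L)) (U (V L (F 32 L)) (T (F 2 L) L))) (S (U (V (S L L) (S L L)) (V L L)) (U (V (S L L) (S L L)) (T L L)))) (T (S (U (V L L) (T (F 32 L) L)) (U (V (F 32 L) (F 32 L)) (S (F 32 L) (F 32 L)))) (S (U (V L L) (T L L)) (U (V (F 128 L) (F 128 L)) (S (F 128 L) (F 128 L)))))) (S (T (U (S (S (F 2 L) (F 2 L)) (S (F 2 L) (F 2 L))) (F 34 (S (S L L) (S L L)))) (U (S (T L L) (S L L)) (S (S L L) L))) (T (S (U (S (F 32 L) (F 32 L)) (F 34 (S L L))) (U (F 32 L) (F 160 (S L (F 16 L))))) (S (U (S L (F 128 L))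 (S (F 128 L) (F 160 L))) (U (S (F 128 L) (F 160 L)) (F 160 (S L (F 1 L)))))))) (U (S (T (S (U (F 34 (V (S L L) (S L L))) (T (F 2 L) L)) (U (V L L) (V (F 2 L) (F 34 (S L L))))) (S (V (U (S L L) L) (U (S L L) (S (F 2 L) L))) (V (U (S L L) L) (U (S L L) L)))) (T (S (U (V (F 32 L) (F 32 L)) (T (F 32 L) L)) (U (T (F 32 L) L) (S (F 32 L) (F 32 L)))) (S (V (U L (F 128 L)) (U L (F 128 L))) (U (V (F 128 L) (F 128 L)) (T (F 128 L) (F 128 L)))))) (S (T (U (S (T (F 34 L) (F 2 L)) (T (F 34 L) (F 32 L))) (F 34 (V (S (F 32 L) (F 1 L)) (S (F 32 L) (F 1 L))))) (U (S (V L L) (T L L)) (V (S (F 2 L) (F 128 L)) (S (F 2 L) (F 128 L))))) (U (T (S (S (F 32 L) (F 32 L)) (F 160 (S L L))) (S (S L (F 128 L)) (S (F 128 L) (F 160 L)))) (S (T (S (F 34 L) (F 160 L)) (S (F 128 L) (F 160 L))) (F 160 (T L (S L (F 1 L)))))))))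
noncomputable def v15_3 : Tr := (T (V (F 34 (U (S (T (S (V L L) (V (F 1 L) (F 1 L))) (S (U (S L L) L) (U (T (F 1 L) (F 1 L)) (S (F 1 L) (F 1 L))))) (T (U (S (F 1 L) (F 1 L)) (S (F 1 L) (F 1 L))) (S (V (F 1 L) (F 1 L)) (V (F 1 L) (F 1 L))))) (S (T (S L (S (F 1 L) (F 1 L))) (U (V (F 1 L) (F 1 L)) (S (F 1 L) (F 1 L)))) (T (S (F 1 L) (F 1 L)) (S (S (F 1 L) (F 1 L)) (F 1 L)))))) (U (S (F 34 (T (S (S L L) (V (F 1 L) (F 1 L))) (U (S (S L L) (S (F 1 L) (F 1 L))) (S (S (F 1 L) (F 1 L)) (S (F 1 L) (F 1 L)))))) (F 160 (T (U (S (F 16 L) (F 16 L)) (S (F 16 L) (F 16 L))) (S (V (F 16 L) (F 16 L)) (T (F 16 L) L))))) (F 162 (S (T (U (S (F 16 L) L) L) (U (S L L) (S L L))) (T (S L L) (U (S L (F 1 L)) L)))))) (V (F 160 (U (S (T (S (U (V L L) (S L L)) (U (S L L) L)) (S (U (V L L) (S L L)) (V L L))) (T (U (S L L) (S (F 16 L) (F 17 L)))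 (S (V (F 1 L) (F 1 L)) (S (F 1 L) (F 1 L))))) (S (S (U (T (S L (F 16 L)) L) (T (F 16 L) (F 1 L))) (T (T L L) (T L (F 1 L)))) (T (S L L) (U (S (F 1 L) (F 17 L)) (F 1 L)))))) (U (S (T (F 160 (U (S (V L L) (S L L)) (S (S L L) L))) (S (U (S (F 128 L) (F 160 L)) (F 160 (S L L))) (F 160 (U (S L (F 1 L)) (S (F 1 L) (F 1 L)))))) (F 160 (T (S (V L L) (S L L)) (S (V (F 1 L) (F 1 L)) (S (F 1 L) (F 1 L)))))) (F 160 (S (T (U (V L L) (S L (F 16 L))) (U (S L (F 1 L)) (S (F 1 L) (F 1 L)))) (T (U L (F 1 L)) (U (S (F 1 L) (F 17 L)) (F 1 L))))))))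
noncomputable def v15_4 : Tr := (T (F 34 (U (V (S (T (S (F 32 L) (F 32 L)) (U (S (F 32 L) (F 32 L)) (F 32 L))) (T (F 33 (S L L)) (U L (F 1 L)))) (S (U (S (F 32 L) (F 32 L)) (F 33 (S L L))) (T (F 33 (S L L)) (U (S (F 1 L) (F 1 L)) (F 1 L))))) (V (S (S (F 32 L) (F 32 L)) (F 33 (U (S L L) L))) (S (S (F 32 L) (F 32 L)) (T (F 33 L) (F 1 L)))))) (V (U (S (T (F 34 (U (S L L) (S (F 32 L) (F 1 L)))) (U (S L L) L)) (U (T (F 34 (S L (F 1 L))) (F 160 (V L L))) (F 160 (T (S (F 16 L) (F 16 L)) (S (F 1 L) (F 1 L)))))) (S (S (F 34 (T (S (F 32 L) (F 32 L)) (S L L))) (T (F 34 L) (F 160 L))) (F 160 (U (T (F 16 L) (S (F 1 L) (F 17 L))) (F 17 (S L L)))))) (U (S (U (T (F 34 (S L L)) (S L L)) (T (F 34 (S (F 32 L) (F 1 L))) (S (F 2 L) (F 160 L)))) (U (T (F 34 (S L (S (F 1 L) (F 1 L)))) (F 160 (V L L))) (F 160 (T (S (F 16 L) (F 16 L))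 (S L (F 1 L)))))) (S (U (T (F 35 L) (F 160 (S (F 16 L) (F 1 L)))) (F 162 (S (F 16 L) (F 1 L)))) (F 160 (U (T (F 16 L) (S (F 1 L) (F 17 L))) (F 17 (S L L))))))))
noncomputable def v15_5 : Tr := (U (S (T (F 34 (V (U (S (T (S (S (F 32 L) (F 32 L)) (V (F 32 L) (F 32 L))) (S (U (S L L) (S (F 32 L) (F 32 L))) (U (S L L) (S (F 32 L) L)))) (T (S (S L L) (V L L)) (U (S (V L L) (S L L)) (S (S L L) (S L L))))) (S (T (V (F 32 L) (F 32 L)) (S (V (F 32 L) (F 32 L)) (V L L))) (T (S (S (F 32 L) (F 32 L)) L) (U (S L L) (S (F 32 L) (F 1 L)))))) (U (S (T (U (S (F 32 L) (F 32 L)) (S (F 32 L) (F 32 L))) (U (S (S L L) (V (F 32 L) (F 32 L))) (V L L))) (T (U (S L L) (S (F 32 L) (F 1 L))) (U (S (S L L) (S L L)) (V (S (F 1 L) (F 1 L)) (S (F 1 L) (F 1 L)))))) (S (T (V (F 32 L) (F 32 L)) (S (V (F 32 L) (F 32 L)) (V L L))) (T (U L (F 32 L))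 (S (V L L) (V L L))))))) v15_2) v15_3) (S v15_4 (F 160 (T (U (V (S (U (T (F 48 L) (F 16 L)) (F 48 (S L L))) (U (S (F 16 L) (F 16 L)) (F 16 L))) (S (U (S (F 16 L) (F 16 L)) (S (F 48 L) (F 16 L))) (T (F 16 L) (S (F 16 L) (F 17 L))))) (V (S (T (F 48 L) (F 16 L)) (S (F 16 L) (F 17 L))) (S (S (F 16 L) (F 16 L)) (S (F 16 L) (F 17 L))))) (V (U (S (T (U (S (F 16 L) (F 17 L)) (F 16 L)) (U (S (F 1 L) (F 17 L)) (F 1 L))) (T (S (F 16 L) (F 17 L)) (S (F 1 L) (F 17 L)))) (S (T (F 16 L) (F 1 L)) (F 17 (S L L)))) (U (S (U (T L (S (F 1 L) (F 17 L))) (T (F 16 L) (F 1 L))) (U (S (F 1 L) (F 17 L)) (F 1 L))) (F 17 (S (U (S L L) L) (T L L)))))))))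
noncomputable def v15_6 : Tr := (U (S (V (T (F 34 (U (S L (S L L)) (S L L))) (S (U (S L L) (F 32 L)) (U (S L L) L))) (T (F 34 (U (S (F 8 L) L) (S (F 40 L) (F 1 L)))) (S (U (F 8 L) (F 34 L)) (U (F 128 L) (F 160 (S L L)))))) (T (S (U (V (F 32 L) (S (F 34 L) (F 160 L))) (F 162 (V (S L L) L))) (F 160 (U (V (S L (F 16 L)) L) (V L L)))) (V (S (U (S (F 128 L) (F 128 L)) (F 128 L)) (U (F 128 L) (F 160 L))) (S (U (S (F 160 L) (F 192 L)) (F 160 L)) (F 192 (U (S L (F 1 L)) (S (F 1 L) (F 1 L)))))))) (S (U (T (F 34 (V (S (F 32 L) (F 1 L)) (S (F 33 L) (F 1 L)))) (S (T (F 34 L) (F 128 L)) (V (F 128 L) (F 160 L)))) (T (F 34 (S (F 32 L) (S (F 1 L) (F 1 L)))) (F 160 (V (S (F 16 L) L) (F 16 L))))) (F 160 (T (U (S (V (F 16 L) (F 16 L)) (S L L)) (V (S (F 16 L) (F 17 L)) (F 16 L))) (U (S (V L L) (V (S (F 1 L) (F 1 L)) (F 1 L))) (V (S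 (F 1 L) (F 1 L)) (S (F 1 L) (F 17 L))))))))
noncomputable def v15_7 : Tr := (T (F 34 (V (U (S (T (U (S (F 32 L) (F 32 L)) (S (F 40 L) (F 33 L))) (S (U (T (F 32 L) L) (S (F 32 L) (F 32 L))) (U (V L (F 32 L)) (S L L)))) (T (U (S L L) (S (F 1 L) (F 1 L))) (V (U (S L (F 1 L)) (S (F 1 L) (F 1 L))) (S (S L L) (S L L))))) (S (U (T (F 32 L) (S (F 32 L) L)) (V (F 33 (S L L)) (F 32 L))) (U (T (F 33 (S L L)) (S L (S (F 1 L) (F 1 L)))) (T (F 1 L) (S (F 1 L) (F 1 L)))))) (U (S (T (F 40 (U (S (F 8 L) L) L)) (S (U (S (F 40 L) (F 8 L)) (F 40 (S L L))) (U L (F 1 L)))) (T (U (S (F 1 L) (F 1 L)) (S (F 33 L) (F 1 L))) (U (V (S (F 1 L) (F 1 L)) (S (F 9 L) (F 1 L))) (V (S (F 1 L) (F 1 L)) (F 1 L))))) (S (U (T (F 41 (S L L)) (S (F 40 L) (F 1 L))) (F 33 (T (F 2 L) (S (F 2 L) L)))) (T (U (F 1 L) (F 33 L)) (U (S (F 1 L) (F 1 L)) (S (F 33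 L) (F 1 L)))))))) (V (U (S (T (U (V (T (F 34 (S L L)) (S (F 2 L) (F 32 L))) (S (F 34 (S L L)) (T (F 34 L) (F 32 L)))) (F 34 (V (S (S (F 32 L) L) (S L L)) (S L (S L L))))) (V (U (S (S L L) (S L L)) (S L L)) (U (S (S L L) (S L L)) (S L L)))) (V (T (S (T (F 34 (S L L)) L) (F 160 (U (S L L) L))) (S (U (S (F 128 L) (F 128 L)) (F 128 L)) (U (F 128 L) (F 160 L)))) (T (S (U (S (F 34 L) (F 160 L)) (F 160 L)) (F 160 (U (S L L) L))) (S (U (S (F 128 L) (F 128 L)) (F 128 L)) (U (F 128 L) (F 192 L)))))) (S (T (F 34 (U (V (S L L) (S L L)) (V L L))) (S (U (V L (F 32 L)) L) (U (V L (F 128 L)) (S L (F 128 L))))) (T (S (V (T (F 34 L) (F 32 L)) (F 162 (U (S L L) L))) (F 160 (U (T L L) L))) (U (S (V (F 128 L) (F 160 L)) (S (F 128 L) (F 160 L))) (F 160 (V (S L (F 1 L)) (S L (F 1 L)))))))) v15_6))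
noncomputable def v15_8 : Tr := (V (U (S (T (F 160 (U (S (V L L) (S L L)) (S (S L L) L))) (S (V (S (F 128 L) (F 160 L)) (T (F 160 L) (F 192 L))) (F 224 (U (T L L) (S L L))))) (F 160 (T (U (S L (F 1 L)) (S (F 1 L) (F 1 L))) (S (V (F 1 L) (F 1 L)) (S (F 1 L) (F 1 L)))))) (F 160 (S (T (U (V L L) (S L (F 1 L))) (U (S (T (F 1 L) (F 1 L)) (F 1 L)) (S (F 1 L) (F 1 L)))) (T (S L (F 1 L)) (U (S (F 1 L) (F 1 L)) (F 1 L)))))) (U (S (T (F 160 (U (S (V L L) (S L L)) (V (S (F 16 L) (F 1 L)) (S (F 1 L) (F 17 L))))) (U (S (T (F 160 (S L (F 1 L))) (F 192 L)) (F 224 (T L L))) (F 160 (S (T L (F 1 L)) (S (F 1 L) (F 1 L)))))) (F 160 (T (U (S L (F 1 L)) (S (F 1 L) (F 1 L))) (U (V (F 1 L) (F 1 L)) (S (F 1 L) (F 1 L)))))) (F 160 (S (U (T (S L (F 1 L)) (V (S (F 1 L) (F 1 L)) (S (F 1 L) (F 5 L)))) (V (S (F 1 L) (F 1 L)) (S (F 1 L) (F 1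 L)))) (T (U (S (F 1 L) (F 17 L)) (F 1 L)) (U (S (F 1 L) (F 1 L)) (F 1 L)))))))
noncomputable def v15_9 : Tr := (T (F 34 (U (V (S (T (F 32 L) (U (F 32 L) (F 33 L))) (T (F 33 (S L L)) (U (S (F 33 L) (F 1 L)) (F 1 L)))) (S (F 33 (U (S (F 2 L) L) (F 2 (S L L)))) (U (T (F 41 L) (F 1 L)) (F 33 (S L L))))) (V (S (F 33 (U L L)) (T (F 33 L) (F 1 L))) (F 33 (U (S (F 2 L) L) L))))) (V (U (S (U (T (F 34 (V L (F 32 L))) (S (S (F 34 L) (F 128 L)) (F 160 (S L L)))) (F 34 (V (S (F 32 L) (F 1 L)) (S (F 33 L) (F 1 L))))) (F 160 (T (U (V (S (F 16 L) (F 17 L)) (F 16 L)) (S (F 16 L) (F 16 L))) (U (S L (S (F 1 L) (F 1 L))) (S (F 1 L) (F 1 L)))))) (F 160 (S (U (T (F 48 (S L L)) (F 16 L)) (F 49 (S L L))) (U (T (F 16 L) (F 1 L)) (F 17 L))))) (F 160 (U (U (S (V (T (F 48 (S L L)) (S (F 16 L) (F 1 L))) (S (F 48 L) (F 17 L))) (T (S (F 16 L)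 (F 16 L)) (S (S (F 1 L) (F 1 L)) (F 1 L)))) (S (F 48 (V L (F 8 L))) (T (F 16 L) (F 1 L)))) (F 17 (U (S (F 1 L) (S L L)) (F 1 (S (F 4 L) L))))))))
noncomputable def v15_10 : Tr := (U (S v15_7 (T (F 160 (V (U (S (T (S (V (F 16 L) (F 16 L)) (V (F 16 L) (F 16 L))) (U (S (T (F 16 L) L) (S (F 16 L) (F 16 L))) (S (S (F 16 L) (F 16 L)) (F 16 L)))) (T (U (S (F 16 L) (F 16 L)) (S (F 16 L) (F 16 L))) (S (V (F 16 L) (F 16 L)) (S L (F 16 L))))) (S (T (S (S (F 16 L) (F 16 L)) (F 16 L)) (U (S (F 16 L) (F 16 L)) (S (F 16 L) (F 16 L)))) (T (S (F 16 L) (F 16 L)) (U (S (F 16 L) (F 17 L)) (F 16 L))))) (U (S (T (U (S (F 16 L) (F 16 L)) (S (F 16 L) (F 16 L))) (U (V (S (F 16 L) (F 16 L)) (S (F 16 L) (F 16 L))) (V (S (F 16 L) (F 17 L)) (F 16 L)))) (T (U (S (F 16 L) (F 16 L)) (F 16 L)) (U (S L (F 16 L)) (S (F 16 L) (F 17 L))))) (S (T (V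 (F 16 L) (F 16 L)) (U (S (F 16 L) (F 16 L)) (S (F 16 L) (F 17 L)))) (T (S (F 16 L) (F 16 L)) (U (S (F 16 L) (F 17 L)) (F 16 L))))))) v15_8)) (S v15_9 (F 160 (T (U (V (S (U (S (F 16 L) (F 16 L)) (S (F 16 L) (F 16 L))) (T (F 16 L) (S (F 16 L) (F 17 L)))) (S (U (S (F 16 L) (F 16 L)) (F 16 L)) (T (F 16 L) (S (F 16 L) (F 17 L))))) (V (S (S (F 16 L) (F 16 L)) (F 17 (S L L))) (S (S (F 16 L) (F 16 L)) (F 17 (S L L))))) (V (U (S (U (T L (S (F 1 L) (F 1 L))) (S (F 1 L) (F 1 L))) (U (S (F 1 L) (F 17 L)) (F 1 L))) (S (F 17 (U (S L L) L)) (S (F 1 L) (F 17 L)))) (U (S (U (V (S (F 1 L) (F 17 L)) (F 17 (S L L))) (T (F 17 (S L L)) (F 1 L))) (U (S (F 1 L) (F 1 L)) (F 1 L))) (S (F 17 (U (S L L) L)) (S (F 1 L) (F 17 L)))))))))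
noncomputable def v15_11 : Tr := (U (S (T (U (V (F 48 (S (T (F 4 L) L) (S L L))) (S (F 48 (T L L)) (T (F 48 L) (F 16 L)))) (F 48 (V (S (S L L) (S L (F 4 L))) (S (S L L) (S L L))))) (V (U (S (T (F 48 (S L L)) (S (F 16 L) (F 16 L))) (T (F 16 L) (S (F 16 L) (F 18 L)))) (S (F 48 (T L (S L L))) (T (F 48 L) (F 16 L)))) (U (S (T (F 48 (S L L)) (S (F 16 L) (F 16 L))) (T (F 16 L) (S (F 16 L) (F 16 L)))) (S (T (F 16 L) (F 16 L)) (T (F 16 L) (F 16 L)))))) (T (U (V (F 50 (S (T L L) (T L L))) (S (T (F 50 L) (F 16 L)) (F 18 (T (F 1 L) L)))) (V (F 50 (S (S L L) (S L L))) (S (F 48 (S L L)) (F 16 L)))) (V (U (F 18 (S (T L L) (T L (F 8 L)))) (S (S (F 16 L) (F 18 L)) (F 18 (S L (F 8 L))))) (U (S (T (F 16 L) (F 16 L)) (S (F 16 L) (F 16 L))) (S (S (F 16 L) (F 16 L)) (F 17 (S L L))))))) (S (U (T (F 48 (V (S L (F 4 L)) (S L L))) (V (F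 48 (S (S L L) (S L L))) (S (S (F 48 L) (F 16 L)) (S (F 16 L) (F 16 L))))) (T (F 48 (S (S L L) L)) (S (T (F 48 L) (F 16 L)) (S (F 16 L) (F 16 L))))) (U (T (F 48 (V (F 4 (S L L)) (S L L))) (V (F 18 (S (S L (F 8 L)) (F 8 L))) (S (F 16 L) (F 17 L)))) (T (F 50 (U (S L L) L)) (F 17 (V (F 8 (S L (F 4 L))) (S L (F 8 L))))))))
noncomputable def v15_12 : Tr := (U (S (T (V (U (S (F 48 (S L L)) (S (F 48 L) (F 16 L))) (F 48 (S (S L L) (S L L)))) (U (S (F 48 (S L L)) (S (F 48 L) (F 16 L))) (S (F 48 (S L L)) (F 16 L)))) (V (U (S (T (F 16 L) (S (F 16 L) (F 16 L))) (T (F 16 L) (S (F 16 L) (F 17 L)))) (S (T (F 16 L) (F 16 L)) (S (F 16 L) (F 16 L)))) (U (S (T (F 16 L) (S (F 16 L) (F 16 L))) (T (F 16 L) (S (F 16 L) (F 17 L)))) (S (T (F 16 L) (F 16 L)) (S (F 16 L) (F 16 L)))))) (T (V (U (S (S (F 16 L) (F 16 L)) (S (F 16 L) (F 16 L)))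 (S (F 48 (S L L)) (S (F 16 L) (F 16 L)))) (U (S (S (F 16 L) (F 16 L)) (S (F 16 L) (F 16 L))) (S (F 16 L) (F 16 L)))) (V (U (S (S (F 16 L) (F 16 L)) (S (F 16 L) (F 17 L))) (S (S (F 16 L) (F 17 L)) (F 17 (S L L)))) (U (S (T (F 16 L) (F 16 L)) (F 17 (T L L))) (S (S (F 16 L) (F 17 L)) (F 17 (S L L))))))) (S (U (T (F 48 (V (S L L) (S L L))) (S (V (S (F 48 L) (F 16 L)) (S (F 16 L) (F 16 L))) (V (F 16 L) (F 17 (S L L))))) (T (F 48 (V (S L L) (S (F 2 L) L))) (V (S (F 48 L) (F 17 L)) (S (F 16 L) (F 17 L))))) (U (T (V (S (F 48 L) (F 16 L)) (S (F 48 L) (F 17 L))) (S (V (F 16 L) (F 17 (S L L))) (F 17 (T L L)))) (T (S (F 48 (S L L)) (F 16 L)) (F 17 (S (S L L) (S L L)))))))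
noncomputable def v15_13 : Tr := (S (T (V (U (S (T (S (F 16 L) (F 16 L)) (S (S (F 16 L) (F 16 L)) (F 16 L))) (T (S (F 16 L) (F 18 L)) (F 17 (S L L)))) (S (T (S (F 16 L) (F 16 L)) (S (F 16 L) (F 17 L))) (T (F 16 L) (F 17 L)))) (U (S (T (S (F 16 L) (F 16 L)) (S (S (F 16 L) (F 16 L)) (F 16 L))) (T (S (F 16 L) (F 17 L)) (F 17 (S L L)))) (S (U (S (F 16 L) (F 17 L)) (F 17 (S L L))) (T (F 16 L) (F 17 L))))) (V (U (S (T (S L (F 1 L)) (V (F 1 L) (F 1 L))) (F 17 (T (S L (F 8 L)) (S L (F 8 L))))) (S (T (F 17 (S L L)) (S (F 1 L) (F 17 L))) (T (F 17 L) (F 1 L)))) (U (S (T (S (S (F 1 L) (F 1 L)) (F 1 L)) (S (F 1 L) (F 1 L))) (T (F 17 (S L L)) (S (F 1 L) (F 17 L)))) (S (T (S (F 1 L) (F 17 L)) (S (F 1 L) (F 17 L))) (T (F 1 L) (F 1 L)))))) (T (V (U (F 18 (S (T L (F 8 (S L L))) (F 8 (S L L)))) (F 17 (S (S L (F 8 L)) (F 8 (S L L)))))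 (F 17 (U (S (T L L) (S L (F 8 L))) (S (S L L) L)))) (V (F 17 (U (F 8 (S (T L L) (S L L))) (S (S L (F 8 L)) (F 8 (S L L))))) (U (S (T (F 17 (S L (F 8 L))) (F 1 L)) (F 19 (T L L))) (S (S (F 1 L) (F 17 L)) (F 17 (S L (F 8 L))))))))
noncomputable def v15_14 : Tr := (S (T (V (U (S (T (S (F 16 L) (F 16 L)) (S L (F 1 L))) (F 17 (T (S L L) (S L L)))) (S (T (S (F 16 L) (F 17 L)) (S (F 16 L) (F 17 L))) (T (F 16 L) (F 17 (S L L))))) (U (S (T (V (F 16 L) (F 16 L)) (S L (F 1 L))) (F 17 (T (S L L) (S L L)))) (S (T (S (F 16 L) (F 17 L)) (S (F 1 L) (F 17 L))) (F 17 (T (S L L) L))))) (V (U (S (T (S (S (F 1 L) (F 1 L)) (F 1 L)) (S (F 1 L) (F 1 L))) (T (S (F 1 L) (F 17 L)) (F 1 L))) (S (T (S (F 1 L) (F 17 L)) (S (F 1 L) (F 1 L))) (T (F 1 L) (F 1 L)))) (U (S (T (V (F 1 L) (F 1 L)) (S (F 1 L) (F 1 L))) (T (S (F 1 L) (F 17 L)) (F 1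 L))) (S (T (S (F 1 L) (F 17 L)) (S (F 1 L) (F 1 L))) (T (F 1 L) (F 1 L)))))) (T (V (F 17 (U (S (T L (S L L)) (S L L)) (S (S L L) (S L L)))) (U (S (T (F 17 (S L L)) (F 1 L)) (F 17 (T L L))) (F 17 (S (S L L) (S L L))))) (V (U (S (T (F 1 L) (F 1 L)) (S (F 1 L) (F 1 L))) (S (S (F 1 L) (F 1 L)) (F 17 (S L L)))) (U (S (T (F 1 L) (F 1 L)) (S (F 1 L) (F 1 L))) (S (S (F 1 L) (F 17 L)) (F 17 (S L L)))))))
noncomputable def v15_15 : Tr := (V (U v15_13 (S (T (U (S (V (S (F 16 L) (F 16 L)) (S (F 16 L) (F 17 L))) (F 17 (V (S L L) (S L L)))) (F 17 (V (S (S L L) L) (S L L)))) (U (S (V (T (F 17 L) (F 1 L)) (S (F 1 L) (F 1 L))) (F 17 (V (S L (F 8 L)) (S L L)))) (F 17 (S (V L (S L L)) (V L L))))) (F 17 (U (T (S (V (F 8 L) L) (F 8 (T L L))) (S (V (F 8 (S L L)) (S L (F 8 L))) (F 8 (T L L)))) (T (S L (F 8 L)) (S (S L (F 8 L)) (F 8 (S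 L L)))))))) (U v15_14 (S (T (U (S (V (S (F 16 L) (F 17 L)) (F 17 (T L L))) (F 17 (V (S L L) (S L L)))) (F 17 (S (V L L) (T L L)))) (U (S (V (S (F 1 L) (F 1 L)) (T (F 1 L) (F 1 L))) (V (F 17 (S L L)) (S (F 1 L) (F 17 L)))) (S (V (F 1 L) (F 1 L)) (S (F 1 L) (F 1 L))))) (T (F 17 (U (S (V L L) (V L L)) (S (S L L) (S L L)))) (U (S (V (F 1 L) (F 1 L)) (V (F 17 L) (F 1 L))) (F 17 (S (T L L) (S L L))))))))
noncomputable def treeV15 : Tr := (F 0xfffffffffffffffffffffffffffffffffffffff7773bfeefff (S (T (F 34 (V (U v15_0 (S (T (U (S (T (F 32 L) (F 32 L)) (T (F 33 L) (F 32 L))) (F 33 (S (S L L) (S L L)))) (U (V (S (S (F 32 L) (F 32 L)) (S (F 32 L) (F 32 L))) (S (S (F 32 L) (F 32 L)) (F 33 (S L L)))) (S (V (F 32 L) (F 33 L)) (F 33 (V L L))))) (F 33 (T (U (V (S L L) (S L L)) (V (S L (F 4 L)) (S L L))) (U (V (S (S L L) (S L L))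 (S (S L L) (S L L))) (V (S L L) (S L L))))))) (U v15_1 (S (F 33 (U (T (V (S (F 2 L) L) (F 2 (S L L))) (V (S (S L L) (S L L)) (S (F 2 (S L L)) (S (F 2 L) L)))) (T (F 2 (S L L)) (S (V L (F 2 L)) (V L (F 2 L)))))) (U (T (F 33 (V (S L L) (F 2 (S L L)))) (V (F 33 (S (S L L) (S L L))) (S (F 33 (S L L)) (S (F 33 L) (F 1 L))))) (F 33 (T (S L L) (V (S L L) (S L L))))))))) (V v15_5 v15_10)) (F 160 (T (V v15_11 v15_12) v15_15))))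

theorem pV15 : chkV par treeV15 128 128 384 128 128 128 524288 699051 Lc = true := by decide +kernel

noncomputable def v16_0 : Tr := (S (T (F 3 (U (V (U (K 1) (S (F 5 (S (K 0) (K 0))) (S L L))) (K 1)) (V (S (T L L) (T L (S L L))) (S (T L L) (T L (S L L)))))) (U (K 3) (V (S (F 3 (U (K 1) (T L (S (K 1) L)))) (T (F 3 (V (S L L) L)) (U (K 3) (S (F 3 L) (F 1 L))))) (F 23 (S (K 0) (K 0)))))) (T (U (V (S (F 3 (T (S L L) (U (K 1) (S L L)))) (T (S (F 3 L) (F 1 L)) (V (S (F 1 L) (F 1 L)) (S (K 3) (F 1 L))))) (T (S (K 3) (S (K 3) (F 1 L))) (K 3))) (V (S (F 3 (T L (S L L))) (T (F 3 (S L L)) (S (F 1 L) (F 1 L)))) (S (F 3 (T L (S L L))) (T (F 3 (S L L)) (S (F 3 L) (F 1 L)))))) (U (V (S (F 23 (T (S (K 0) (K 0)) (K 0))) (T (V (S L (S (F 1 L) (F 1 L))) (S (K 3) (F 1 L))) (U (K 3) (V (S L L) (K 3))))) (K 3)) (V (S (T (U (S (F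 3 L) (F 1 L)) (F 3 (S L L))) (V (U (S (F 1 L) (F 1 L)) (S (F 3 L) (F 1 L))) (U (K 3) (F 1 L)))) (T (V (S (F 1 L) (F 1 L)) (S (F 1 L) (F 1 L))) (U (V (S (F 1 L) (F 1 L)) L) (V (S (F 1 L) (F 1 L)) (F 1 L))))) (S (T (V (F 1 L) (K 3)) (K 3)) (T (V (S (F 1 L) (F 1 L)) (F 1 L)) (U (K 3) (S (F 1 L) (F 1 L)))))))))
noncomputable def v16_1 : Tr := (S (T (F 5 (U (V (S (S L L) (S L L)) (S (T L L) (S L L))) (V (S (S L L) (S L L)) (S (S L L) (S L L))))) (U (V (F 5 (S (T L (V L L)) (T (S L L) (U (S L L) (S L L))))) (S (F 5 (T L (S L L))) (T (F 5 L) (S (F 5 L) (F 4 L))))) (V (S (F 5 (U (S L L) L)) (T (F 5 L) (S (F 5 L) (F 4 L)))) (F 5 (S (T L L) (U (S L L) L)))))) (T (U (V (S (F 5 (U L L)) (T (F 5 L) (S (F 5 L) (F 4 L)))) (S (F 5 (T L L)) (T (F 5 L) (F 4 L)))) (V (S (F 5 (S L L)) (T (F 5 L) (F 4 L))) (S (F 5 (S L L)) (S (F 5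 L) (F 4 L))))) (U (V (S (T (S (F 4 L) (F 4 L)) (U (S (F 4 L) (F 4 L)) (S (F 4 L) (F 4 L)))) (T (V L (F 4 L)) (V (S (F 4 L) L) (S (F 4 L) (F 4 L))))) (S (T (F 5 (S L L)) (V (S (F 5 L) (F 4 L)) (F 4 L))) (T (S (F 4 L) (F 4 L)) (U (S (F 4 L) (F 4 L)) (F 4 L))))) (V (S (T (F 5 (S L L)) (U (F 4 L) (F 4 L))) (T (S (F 4 L) (F 4 L)) (U (S (F 4 L) (F 4 L)) L))) (S (T (F 5 L) (S (F 4 L) (F 4 L))) (T (S (F 5 L) (F 4 L)) (S (F 4 L) (F 4 L))))))))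
noncomputable def v16_2 : Tr := (U (F 19 (V v16_0 (F 3 (S (F 5 (T (U (K 0) (V (S (K 0) (K 0)) (K 0))) (K 0))) (T (U (K 1) (V (U (K 1) (S (S (K 1) L) (S L L))) (K 1))) (K 1)))))) (V (F 131 v16_1) (F 144 (S (T (U (V (F 17 (S (T L (F 1 L)) (F 1 (T L L)))) (S (T (F 1 L) (F 1 L)) (F 33 (T L L)))) (V (F 49 (T (S L L) (S L L))) (S (S (F 1 L) (F 1 L)) (F 33 (T L (F 1 L)))))) (F 33 (U (U (K 2) (V (F 1 (S L (S L L))) (T L (K 2)))) (V (F 1 (T (S L L) (S L L))) (T (S L (F 1 L)) (F 1 (S L L))))))) (T (U (V (F 48 (S (F 8 (T L L)) (T (F 8 L) L))) (F 33 (T (S L (F 1 L)) (F 1 (U (S (K 1) L) L))))) (F 49 (V (T (S L L) (S L L)) (T (S L L) (S L L))))) (F 48 (U (V (S (T (F 8 (S L L)) (S L L)) (T (S L L) (S L L))) (U (K 1) (S (F 8 L) (F 1 (S L L))))) (V (S (T (F 8 L) L) (T L (S L (F 1 L)))) (S (F 8 (T L L)) (F 1 (U (S L L) L)))))))))))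
noncomputable def v16_3 : Tr := (T (U (F 10 (V (S (K 4) (T (U (K 4) (S (K 4) (V (T (F 5 L) (F 4 L)) (K 4)))) (S (K 4) (U (K 4) (V (T L L) (K 4)))))) (K 4))) (V (S (F 10 (T (U (V (S (K 4) (S (F 4 L) (F 4 L))) (K 4)) (F 5 (V (S L (S L L)) (S L L)))) (S (U (K 4) (V (T (F 4 L) L) (K 4))) (V (U (T L L) (S L L)) (U (K 4) L))))) (T (F 34 (U (V (S (S (F 8 L) (F 8 L)) L) (S (K 4) (F 8 L))) (V (S (F 1 L) (F 1 L)) (F 9 (S L L))))) (S (V (U (F 10 (T L L)) (F 2 L)) (F 10 (U (K 4) L))) (V (U (S (F 2 L) (F 10 L)) (F 130 (S L (F 8 L)))) (F 10 (U (S L (F 32 L)) (F 1 L))))))) (F 138 (S (K 3) (U (K 3) (V (T (S (F 2 L) (F 2 L)) (S (K 3) (F 16 L))) (K 3))))))) (U (V (S (K 2) (T (U (K 2) (S (K 2) (V (S (F 2 L) (F 3 L)) (K 2)))) (F 11 (U (K 4) (S (K 4) (V (T L L) (K 4))))))) (K 2)) (V (S (T (F 10 (V (S (U (K 4) (T (S (F 1 L) (F 1 L))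 (S L L))) (U (S (K 4) (T L (F 32 L))) (T L L))) (U (K 4) (S (K 4) (S (K 4) (F 32 L)))))) (S (U (K 2) (V (T (F 8 L) (F 137 (S L L))) (K 2))) (V (U (F 9 (S (K 4) (S (K 4) L))) (S (F 9 L) (F 3 L))) (F 11 (U (K 4) (S (K 4) L)))))) (T (S (V (U (F 10 (T L L)) (F 2 L)) (F 11 (U (K 4) (S L (F 1 L))))) (V (T (S (F 2 L) (F 130 L)) (F 3 (S L (F 1 L)))) (F 10 (T L (S (F 32 L) (F 33 L)))))) (F 3 (U (S (V (T (S (F 16 L) (F 17 L)) (F 16 L)) (K 5)) (V (S (F 16 L) (F 16 L)) (F 17 (S L L)))) (V (S (S (F 16 L) (F 1 L)) (F 1 L)) (F 17 (S (S L L) L))))))) (F 139 (S (K 3) (U (K 3) (S (K 3) (V (T L L) (K 3)))))))))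
noncomputable def v16_4 : Tr := (V (S (F 1297 (U (S (K 3) (U (K 3) (V (T (F 36 (S L L)) (S (K 3) L)) (K 3)))) (T (V (S (F 36 (S L L)) (T (F 36 L) (F 4 L))) (F 36 (S (F 1 L) (T (F 16 L) (F 16 L))))) (V (S (S L L) (S L L)) (F 5 (U (K 3) (S (S (K 3) (F 2 L)) L))))))) (T (F 1344 (V (U (S (F 136 (T L (S L L))) (F 9 (T (S (F 1 L) (F 1 L)) (U L (F 1 L))))) (S (F 136 (S L (T (F 34 L) (F 32 L)))) (F 129 (V L (S (F 8 L) (F 8 L)))))) (F 137 (S (U (K 3) (T (F 2 L) L)) (U (T L L) (S L L)))))) (F 1808 (U (V (S (U (S (K 2) L) (T (F 64 L) (F 64 L))) (U L (S (F 64 L) (F 64 L)))) (F 67 (S (K 3) (T (S (K 3) L) (S L L))))) (V (S (T (S (F 64 L) (F 66 L)) (S (F 64 L) (F 65 L))) (T (F 64 L) (F 65 (S L (F 16 L))))) (S (F 66 (T L (S (F 16 L) (F 16 L)))) (T (F 66 L) (F 65 L)))))))) (F 1873 (U (K 1) (S (K 1) (V (T (S (S (F 8 L) (F 8 L))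 L) (S (S (K 1) (F 1 L)) (S (F 1 L) (F 1 L)))) (F 9 (U (K 2) (T L (K 2)))))))))
noncomputable def v16_5 : Tr := (V (S (U (T (F 84 (S (V L (F 1 L)) (V (S L L) (S (F 16 L) (F 16 L))))) (V (S (S (F 80 L) (F 16 L)) (T (F 20 L) (F 17 (S L L)))) (F 21 (S (T (F 2 L) L) (S L L))))) (T (F 84 (V (S (F 16 L) (S (F 16 L) L)) (S (F 17 L) (F 16 L)))) (V (S (S (F 84 L) (F 17 L)) (F 17 (S L L))) (F 21 (S (F 2 L) L))))) (T (F 5 (U (S (V (T (F 10 L) (F 8 L)) (F 10 (S L L))) (V (S (F 8 L) (F 8 L)) (F 8 L))) (S (V (T (F 10 L) (F 8 L)) (F 10 (S L L))) (V L (F 10 L))))) (U (V (S (F 17 (S L L)) (S (F 17 L) (F 7 L))) (F 17 (S (T (F 16 L) (F 32 L)) (F 48 (T L L))))) (V (S (F 17 (T (F 16 L) (F 32 L))) (F 7 (S L L))) (F 23 (S (S L L) (S L L))))))) (F 21 (S (U (V (S (F 3 (S L L)) (T (F 3 L) (S (F 18 L) (F 16 L)))) (F 19 (S L L))) (T (F 3 (S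 L L)) (F 18 (S (F 4 (V L (F 1 L))) L)))) (U (V (T (S (F 2 L) (F 2 L)) (S (F 16 L) (F 16 L))) (T (F 18 (S L L)) (F 16 L))) (V (T (F 18 (S L L)) (S (F 16 L) (F 16 L))) (F 18 (S L L)))))))
noncomputable def v16_6 : Tr := (U (V (S (T (F 34 (V (S (U (F 4 L) (F 4 L)) (S L L)) (U (S (F 4 L) (F 4 L)) (F 4 L)))) (U (S (F 10 (V (T (F 2 L) L) (S (F 2 L) (F 2 L)))) (V (F 2 L) (F 10 L))) (V (S (F 42 (S L L)) (F 2 L)) (F 42 (S L L))))) (T (F 42 (V (U (S L L) (S L L)) (U (S L L) (S L L)))) (V (U (S (F 2 L) (F 2 L)) (S (F 34 L) (F 3 L))) (S (F 10 (U L (F 2 L))) (S (F 2 L) (F 2 L)))))) (F 10 (S (T (U (S (F 2 L) (F 2 L)) (S (F 2 L) (F 2 L))) (U (V (S (F 2 L) (F 2 L)) (K 3)) (V (S (F 2 L) (F 18 L)) (F 2 L)))) (T (U (S (F 2 L) (F 2 L)) (S (F 2 L) (F 2 L))) (V (U (S (F 2 L) (F 16 L)) L) (S L (F 16 L))))))) (V (S (F 34 (T (V (S L L)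 (S (F 4 L) (F 4 L))) (V (U (S L L) (S (F 4 L) (F 4 L))) (U (S (F 4 L) (F 4 L)) (S (F 4 L) (F 4 L)))))) (T (F 34 (S (V L (F 4 L)) (V L (F 4 L)))) (U (S (F 2 L) (F 2 L)) (S (F 2 L) (F 3 L))))) (F 10 (S (T (U (S (F 2 L) (F 2 L)) (F 2 L)) (U (S (F 2 L) (F 2 L)) (S (F 2 L) (F 2 L)))) (T (U (S (F 2 L) (F 18 L)) (F 2 L)) (U (V (F 16 L) (F 18 L)) (T (F 2 L) (F 16 L))))))))
noncomputable def v16_7 : Tr := (U (V (S (T (U (V (S (F 10 (T (S L L) (S L L))) (S (F 2 L) (F 2 L))) (F 10 (S (S L L) (S L (F 16 L))))) (V (S (S (F 2 L) (F 2 L)) (F 2 L)) (F 10 (S (S L L) L)))) (U (S (V (T (F 10 (S L (F 16 L))) (F 9 (S L (F 16 L)))) (F 11 (T (S L L) L))) (F 3 (V (T L L) (S (F 8 L) (F 8 L))))) (V (S (S (F 1 L) (F 3 L)) (F 3 (S L L))) (F 11 (S (T L L) (S L L)))))) (T (S (V (U (F 2 L) (F 3 L)) (F 11 (U (S L L) L))) (V (T (F 2 L) (F 3 L))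 (F 3 (T L L)))) (F 3 (V (S (U (S L (F 8 L)) L) (T L L)) (S (U (S (F 8 L) (F 8 L)) (F 8 L)) (T (F 8 L) (F 8 L))))))) (F 11 (S (U (S (K 3) (V (T (S L L) L) (K 3))) (T (V (S L L) (F 2 (S L L))) (V (S L L) (S L L)))) (T (U (V (S L L) (S L L)) (S (S L L) L)) (S (U (T L L) (S L L)) (U (S L L) L)))))) (V (S (T (V (U (S (F 2 L) (F 2 L)) (S (F 2 L) (F 3 L))) (F 10 (U (S L (F 16 L)) (S (F 16 L) (F 16 L))))) (F 3 (V (U (S (S L L) L) (S L (F 8 L))) (U (S (S (F 8 L) (F 8 L)) (F 8 L)) (S (F 8 L) (F 8 L)))))) (F 3 (T (U (V (S L (F 8 L)) (S (F 8 L) (F 8 L))) (S (S L L) L)) (S (U (S L L) L) (V L L))))) (F 11 (S (U (T (V (S L L) L) (V (S L L) (F 4 (S L L)))) (T (S L L) (S (S L L) L))) (T (U (S (S L L) L) (S L L)) (U (S L L) (S L L)))))))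
noncomputable def v16_8 : Tr := (S (T (F 1365 (U (V (S (T (F 17 (U (V (S L L) L) (S L L))) (U (V (S (F 16 L) L) (K 2)) (S (S (F 16 L) (F 16 L)) (V (F 1 L) (F 17 L))))) (T (U (V (S (F 17 L) (F 1 L)) (F 1 L)) (V (S (F 17 L) (F 1 L)) (F 17 L))) (U (V (S (T (F 1 L) (F 1 L)) (T (F 1 L) (S (F 1 L) (F 1 L)))) (S (F 1 L) (S (F 1 L) (F 1 L)))) (V (S (S (F 1 L) (F 1 L)) (S (F 1 L) (F 1 L))) (S (F 1 L) (F 1 L)))))) (S (F 17 (U (K 1) (T L (S (K 1) L)))) (U (K 2) (T (F 17 (S L L)) (V (F 1 L) (F 17 L)))))) (V (S (U (T (F 17 (S L L)) (S (F 16 L) (T (F 17 L) (F 1 L)))) (T (F 17 L) (S (F 17 L) (F 1 L)))) (T (U (S (F 17 L) (F 1 L)) (S (F 17 L) (F 1 L))) (U (V (S (F 1 L) (S (F 1 L) (F 1 L))) (S (F 17 L) (F 1 L))) (V (S (F 1 L) (F 1 L)) (F 1 L))))) (S (F 17 (U (T L L) (S L L))) (T (V (F 1 L) (F 17 L)) (U (S (F 1 L) (F 1 L)) (F 1 L)))))))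 (U v16_4 (F 1281 v16_5))) (F 1793 (T v16_6 v16_7)))
noncomputable def v16_9 : Tr := (S (F 24 (U (F 5 (S (K 0) (K 0))) (U (V (T (T (F 4 (S L L)) L) (F 4 (U (T L (K 0)) (F 2 (S L L))))) (F 4 (T L (K 0)))) (V (T (S L L) (F 5 (U (S L L) L))) (F 5 (S L L)))))) (T (U (V (S (U (K 1) (T (F 8 L) (F 9 (S (K 2) L)))) (F 9 (T (U (S (K 2) L) (S L L)) (U (K 2) (S L L))))) (F 9 (U (K 2) (T (S (K 2) L) (K 2))))) (V (S (T (S (F 8 L) (F 8 L)) (F 9 (U L L))) (F 9 (U (T L (S L L)) (T L L)))) (F 9 (U (S (F 1 (S L L)) (S L L)) (S (F 1 L) L))))) (U (V (S (U (K 1) (S (K 1) (T (F 9 L) (F 1 L)))) (T (U (K 1) (S (F 1 L) (F 1 L))) (U (S (K 1) (F 1 L)) (F 5 (S L L))))) (F 5 (U (K 2) (S (K 2) (T (K 2) (S (K 2) L)))))) (V (S (U (S (F 9 (S L L)) (S (F 1 L) (F 1 L))) (S (F 9 L) (F 1 L))) (U (T (F 9 (S L L)) (F 5 (S L L))) (T (F 1 L) (F 1 L))))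 (F 5 (U (S (F 2 L) (S L L)) (S (F 3 L) (S (F 2 L) L))))))))
noncomputable def v16_10 : Tr := (T (F 80 (U (V (S (T (K 1) (U (K 1) (S (F 4 L) (F 4 L)))) (K 1)) (S (T (V (F 4 L) (F 4 L)) (U (K 3) (S (F 4 L) (F 4 L)))) (T (K 1) (U (K 1) (S (F 4 L) (F 4 L)))))) (V (S (T (S (F 5 L) (F 4 L)) (V (S (F 4 L) (F 4 L)) (F 4 L))) (T (S (F 4 L) (F 4 L)) (S L (S (F 4 L) L)))) (S (T (S (F 5 L) (F 4 L)) (S (F 4 L) (F 4 L))) (T (S (F 4 L) (F 4 L)) (S (F 4 L) (F 4 L))))))) (U (V (S (T (F 20 (V (U (K 2) (S (F 1 L) (F 1 L))) (S L L))) (V (S (F 20 (U (S L L) L)) (U (F 16 L) (F 80 L))) (F 84 (U (K 2) (S L L))))) (T (F 84 (U (K 1) (V (S L L) (S L L)))) (V (S (U (S (F 20 L) (F 80 L)) (F 80 L)) (F 80 (U (K 1) L))) (S (F 20 (T (F 1 L) L)) (F 80 (T (F 4 L) L)))))) (F 20 (S (T (U (K 3) (S (K 3) (F 1 L))) (K 3)) (T (V (U (K 2) (F 1 L)) (S (K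 3) (F 1 L))) (S (U (K 3) (S (F 1 L) (F 1 L))) (V (S L (F 1 L)) L)))))) (F 80 (V (S (T (V (S (F 4 L) L) (S (F 4 L) (F 4 L))) (V (U (S (F 4 L) (F 4 L)) L) (S (S (F 4 L) (F 4 L)) L))) (T (V (S L L) (S (F 4 L) (F 4 L))) (V (S (S L L) L) (S L L)))) (S (T (V (S (F 4 L) (F 4 L)) (F 4 L)) (V (S (F 4 L) (F 4 L)) (S (F 4 L) (F 4 L)))) (T (U (S (F 4 L) (F 4 L)) (F 4 L)) (V (S (F 4 L) (F 4 L)) (S (F 4 L) (F 20 L)))))))))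
noncomputable def v16_11 : Tr := (T (U (V (K 1) (S (T (K 1) (V (K 1) (S (F 4 L) (K 1)))) (K 1))) (V (S (T (S L L) (S (S L L) (S L L))) (U (K 1) (T L L))) (S (T (S (F 4 L) (F 4 L)) (S (F 4 L) (S (F 4 L) (F 4 L)))) (T (S (F 4 L) (F 4 L)) (V L (F 4 L)))))) (U (V (S (T (V (K 1) (U (K 1) (S (F 4 L) (K 1)))) (V (U (K 1) (S L (F 16 L))) (S (T L L) (S L L)))) (T (K 1) (U (K 1) (V (S (F 16 L) (F 16 L)) (F 20 (S L L)))))) (S (T (V (F 20 (U (K 1) (S L L))) (S (F 4 L) (F 4 L))) (S (V (S (F 4 L) (F 4 L)) (F 20 (S L L))) (V (S (F 16 L) (F 16 L)) (F 20 L)))) (T (U (K 1) (V (F 16 L) (F 20 L))) (V (U (F 20 (S L (K 2))) (F 16 L)) (F 20 (S L L)))))) (V (S (T (V (S L L) (S (F 4 L) (F 16 L))) (V (S L L) (S L (F 16 L)))) (T (U (S L (F 16 L)) L) (V (S (F 16 L) (F 16 L)) (S (F 16 L) (F 16 L))))) (S (T (V (S (F 4 L) (F 20 L)) (F 4 L))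 (F 20 (V (S L L) (S L L)))) (T (U (F 20 (S L L)) (F 16 L)) (S (S (F 16 L) (F 20 L)) (F 20 (S L L))))))))
noncomputable def v16_12 : Tr := (S (T (U (V (S (K 2) (T (S (K 2) L) (K 2))) (K 2)) (V (S (T (S (F 1 L) L) (S L L)) (T (S L L) (S L L))) (U (K 2) (S (F 1 (T L (K 1))) (F 8 (T L L)))))) (U (K 2) (V (S (U (K 2) (T L (F 8 (S (K 0) L)))) (T (S L L) (F 8 (U (S (K 0) L) (S L L))))) (F 8 (S (K 0) (T (S (K 0) L) (K 0))))))) (T (U (V (S (T (V (K 1) L) (V (F 8 (S L L)) L)) (F 8 (T (K 1) (U (K 1) (S L L))))) (F 8 (S (K 0) (U (K 0) (T L L))))) (V (S (T (S L (F 8 L)) (F 8 (S L L))) (F 8 (T (S L L) (S L L)))) (F 8 (S (T (S L L) (S L L)) (T (S L L) (S L L)))))) (F 8 (U (V (S (U (K 0) (V (T L L) (K 0))) (T (V (S L L) L) (V (S L L) (S L L)))) (S (K 0) (U (K 0) (T L (S (K 0) L))))) (V (S (T (S L L) (V (S L L) L)) (T (S L L) (S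 L L))) (S (T (S L L) (S L L)) (T (S L L) (S L L))))))))
noncomputable def v16_13 : Tr := (S (T (U (V (S (T (F 4 L) (S (F 4 L) (F 4 L))) (T L (S (F 4 L) (F 4 L)))) (S (T (F 4 L) (S (F 4 L) (F 4 L))) (T (F 4 L) (S (F 4 L) (F 4 L))))) (V (S (T (F 5 L) L) (T (F 4 L) L)) (S (T (F 5 L) (F 4 L)) (T (F 4 L) (F 4 L))))) (U (V (S (T (S L L) (U (S (F 4 L) (F 4 L)) (S (F 4 L) (F 4 L)))) (T (S L L) (V (S L (F 16 L)) (S (F 4 L) (F 16 L))))) (S (T (S (F 4 L) (F 4 L)) (U (S (F 4 L) (F 20 L)) (F 4 L))) (T (S (F 4 L) (F 4 L)) (V L (F 4 L))))) (V (S (T (S (F 4 L) (F 4 L)) (S L L)) (T (S (F 4 L) L) (S L L))) (S (T (S (F 4 L) (F 4 L)) (S (F 4 L) (F 4 L))) (T (S (F 4 L) (F 20 L)) (S (F 4 L) (F 20 L))))))) (T (U (V (S (T L (S L L)) (T L (S L (F 16 L)))) (S (T (F 4 L) (S (F 4 L) (F 4 L))) (T L (S (F 4 L) (F 20 L))))) (V (S (T L L) (T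 L L)) (S (T (F 4 L) (F 4 L)) (T (F 4 L) (F 16 L))))) (U (V (S (T (S L L) (V L L)) (T (S (F 16 L) (F 16 L)) (S (F 16 L) (F 16 L)))) (S (T (S (F 4 L) (F 4 L)) (V (F 16 L) (F 20 L))) (T (S (F 16 L) (F 20 L)) (F 20 (S L L))))) (V (S (T (S (F 16 L) (F 16 L)) (S (F 16 L) (F 16 L))) (T L (F 16 L))) (S (T L (F 16 L)) (T (F 16 L) (F 16 L)))))))
noncomputable def v16_14 : Tr := (U (V (S v16_10 (F 80 v16_11)) (F 84 v16_12)) (F 80 (V v16_13 (S (T (U (V (S (T (F 4 L) (F 4 L)) (T (F 4 L) (F 4 L))) (S (T (F 4 L) (F 20 (S L L))) (T (F 4 L) (F 20 (S L L))))) (V (S (T (F 5 L) (F 4 L)) (T (F 4 L) (F 4 L))) (S (T (F 5 L) (F 4 L)) (T (F 4 L) (F 20 L))))) (U (V (S (T (S (F 4 L) (F 20 L)) (S (F 4 L) (F 4 L))) (F 20 (T (S L L) (S L L)))) (F 20 (S (T (S L L) (S L L)) (T (S L L) (S L L))))) (V (S (T (F 4 L) (F 20 (S L L))) (T (F 4 L) (F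 20 (S L L)))) (F 20 (S (T L (S L L)) (T L L)))))) (T (U (V (S (T (F 4 L) (F 4 L)) (T (F 4 L) (F 20 L))) (F 20 (S (T L L) (T L L)))) (F 20 (V (S (T L L) (T L L)) (S (T L L) (T L L))))) (F 20 (U (V (S (T (S L L) (S L L)) (T L (S L L))) (S (T L (S L L)) (T L L))) (V (S (T L L) (T L L)) (S (T L L) (T L L))))))))))
noncomputable def v16_15 : Tr := (U (V (S (T (V (S (U (S (K 1) L) L) (U (S (F 4 L) (F 16 L)) L)) (U (K 1) (S (F 4 L) (F 4 L)))) (S (V (U (S (K 1) L) (S L L)) (K 1)) (V (U (S L L) L) (F 5 (U (K 4) (S L (F 1 L))))))) (T (V (S (T L (S (F 64 L) (F 64 L))) (U (S (F 16 L) (F 64 L)) (F 64 L))) (U (S (F 4 L) (F 1 L)) (S (F 4 L) (F 65 L)))) (S (V (U (S (F 1 L) (F 1 L)) (F 1 L)) (F 5 (U (S L L) L))) (V (U (S (F 1 L) (K 5)) (F 65 L)) (S (F 1 L) (F 1 L)))))) (F 5 (S (K 4) (T (V (S (T L L) (S L L)) (S (K 4) (S (K 4) (F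 1 L)))) (V (S (S (K 4) L) (S L L)) (S (K 4) L)))))) (V (S (T (S (U (V (F 16 L) (F 20 L)) (T (F 80 L) (F 64 L))) (V (S (F 64 L) (F 64 L)) (S (F 64 L) (F 64 L)))) (S (U (V L (F 4 L)) (T (F 64 L) (F 64 L))) (V (T (F 64 L) (F 64 L)) (T (F 68 L) (F 65 L))))) (T (U (V (F 80 (S L (F 16 L))) (F 65 (S (F 8 L) (F 2 L)))) (S (F 64 L) (F 65 L))) (F 65 (S (V (T L L) (S L L)) (V (S L L) L))))) (S (T (S (F 68 (V (T (F 2 L) L) (S (F 2 L) (F 2 L)))) (U (S (F 5 L) (F 68 L)) (F 68 L))) (F 5 (S (U (F 15 (S (K 0) (K 0))) (S (F 1 L) (F 1 L))) (U (S L L) (S (F 1 L) (F 1 L)))))) (F 68 (T (V (S L (S (F 16 L) (F 18 L))) (S (F 16 L) (F 16 L))) (S (V (S (F 16 L) (F 16 L)) (F 16 L)) (T (F 16 L) (F 16 L))))))))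
noncomputable def v16_16 : Tr := (U (V (S (T (S (V (U (S (K 1) (F 1 L)) (S (F 1 L) (F 1 L))) (F 5 (U (K 4) (S (K 4) L)))) (V (U (S (F 1 L) (F 1 L)) (S (F 5 L) (F 65 L))) (F 5 (U (K 4) L)))) (S (F 5 (V (U (S (K 4) L) (S L L)) (U (K 4) L))) (V (T (S (F 5 L) (F 65 L)) (F 1 L)) (F 5 (T L L))))) (T (S (V (T (F 65 (S L L)) (F 1 L)) (F 5 (T L L))) (F 65 (U (K 0) (T L L)))) (S (V (F 65 (U (K 0) L)) (F 5 (S L L))) (F 65 (U (K 0) (S L L)))))) (F 5 (S (K 4) (T (V (S (S L L) (S (F 1 L) (F 1 L))) (S (K 4) L)) (S (U (K 4) (S (F 1 L) (F 1 L))) (V (S (F 1 L) (F 1 L)) (S (F 1 L) (F 1 L)))))))) (V (S (T (S (U (V (F 1 L) (F 5 L)) (F 65 (T L L))) (F 65 (V (T L L) (S L L)))) (S (U (V (F 65 L) (F 5 L)) (F 65 (T L (F 8 L)))) (F 65 (V (S L L) (S (F 8 L) (F 8 L)))))) (F 65 (T (S (V (S L L) (S L (F 8 L))) (V L L)) (S (V L L) (T L L)))))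 (F 5 (S (T (S (U (S (K 4) L) (S (F 1 L) (F 1 L))) (V (S (F 1 L) (F 1 L)) (S (F 1 L) (F 1 L)))) (S (V (S (F 1 L) (F 1 L)) (S (F 1 L) (F 1 L))) (V (S (F 1 L) (F 1 L)) (F 1 L)))) (T (S (T (S (F 1 L) (F 1 L)) (F 1 L)) (T (F 1 L) (F 1 L))) (S (T (F 1 L) (F 1 L)) (S (F 1 L) (F 1 L))))))))
noncomputable def v16_17 : Tr := (T (U (V (S (T (V (S (F 65 (U (S L L) L)) (T (F 64 L) (F 65 L))) (F 65 (S (T L L) (S L L)))) (F 65 (U (K 0) (S (T L L) (S L (K 0)))))) (F 65 (T (U (K 0) (V (S (F 2 L) (F 2 L)) L)) (K 0)))) (F 5 (S (T (V (U (S (F 1 L) (K 1)) (F 5 (S L L))) (S L (F 1 L))) (V (U (K 1) (S (F 1 L) (F 1 L))) (S L (F 1 L)))) (T (U (K 1) (S (F 1 L) (K 1))) (K 1))))) (F 65 (V (S (T (V (S L (F 2 L)) (S L (F 2 L))) (S (T L L) (S L L))) (T (V (S (F 2 L) (F 2 L)) (S (F 2 L) (F 2 L))) (U (S L (F 2 L)) L))) (S (T (V (S (F 8 L) (F 10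 L)) (F 10 (S L L))) (V (S (F 8 L) (F 8 L)) (S (F 8 L) (F 8 L)))) (T (S L L) (S L L)))))) (F 65 (U (V (S (T (U (K 0) (V (K 0) (S (F 8 L) (K 0)))) (K 0)) (K 0)) (S (T (U (K 0) (S (S (F 8 L) (F 8 L)) (F 8 L))) (U (K 0) (S (F 8 L) (K 0)))) (K 0))) (V (S (T (S (T L L) (S L L)) (S (S L L) (S L L))) (T (S L L) (S L L))) (S (T (V (S (F 8 L) (F 8 L)) (S (F 8 L) (F 8 L))) (S (S (F 8 L) (F 8 L)) (S (F 8 L) (F 8 L)))) (T (V L (S (F 8 L) (F 8 L))) (V L (S (F 8 L) (F 8 L)))))))))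
noncomputable def v16_18 : Tr := (S (T (U (K 3) (V (S (F 2 (T (U (K 0) (S (K 0) L)) (K 0))) (T (F 2 (V (S L L) (S (K 0) L))) (V (S L L) (S (K 3) L)))) (K 3))) (U (K 3) (V (S (U (K 3) (S (K 3) (T L (F 4 L)))) (T (S (T L L) (S L L)) (V (S L (F 4 L)) (F 4 (S L L))))) (F 4 (S (K 0) (T (K 0) (V (S (K 0) L) (K 0)))))))) (T (U (V (S (U (K 3) (S (K 3) (T L L))) (T (F 2 (U (K 2) (S L L))) (U (K 0) (S L (K 0))))) (S (K 3) (U (K 3) (S (K 3) (T (F 2 L) L))))) (V (S (T (S (S L L) L) (S (S L L) L)) (T (S L L) (S L L))) (S (U (K 3) (T L L)) (T (S L L) (S L L))))) (U (V (S (T (U (K 3) (S (K 3) L)) (S (T L L) (S L L))) (U (K 0) (S (T L (F 4 L)) (K 0)))) (F 4 (S (K 0) (U (K 0) (T (S (K 0) L) (S L L)))))) (V (S (T (V L L) (S L L)) (T (S L L) (S L L))) (S (T (S (S L L) L) (F 4 (S (S L L) L))) (T (S L L) (F 4 (S L L))))))))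
noncomputable def v16_19 : Tr := (T (U (V (S (T (U (S (F 80 (S L L)) (F 64 L)) (F 80 (S L L))) (V (S (S (F 64 L) (F 65 L)) (F 64 L)) (S (F 64 L) (F 65 (S L (F 8 L)))))) (T (S (S (F 64 L) (F 64 L)) (F 65 (S L L))) (F 65 (S (T L L) (S L L))))) (F 68 (S (T (U (S (F 2 L) (F 2 L)) (F 18 (S L L))) (U (S (S (F 16 L) (F 16 L)) (F 16 L)) (S (F 16 L) (F 16 L)))) (T (V (S (F 16 L) (F 18 L)) (F 18 (S L L))) (V (S (F 16 L) (F 16 L)) (S (F 16 L) (F 18 L))))))) (V (S (T (F 80 (U (S L (F 16 L)) (S (F 4 L) (F 16 L)))) (F 65 (V (S L (F 2 L)) (S L (F 2 L))))) (T (F 80 (S L (S (F 16 L) (F 16 L)))) (F 65 (V L L)))) (S (F 68 (T (V (S (F 2 L) (F 18 L)) (F 18 (S L L))) (U (S (F 16 L) (F 18 L)) (F 18 (S L L))))) (F 65 (T (U (F 8 L) (F 10 L)) (V L (F 8 L))))))) (F 65 (U (V (S (T (S (V (S L L) L) (V L L)) (S (V L L) (T L L))) (T (S (T L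 L) (S L L)) (S (S L L) L))) (S (T (U (V (F 8 L) (F 8 L)) (S (F 8 L) (F 8 L))) (S (T (F 8 L) (F 8 L)) (T (F 8 L) (F 8 L)))) (T (V L (S (F 8 L) (F 8 L))) (S (S (F 8 L) (F 8 L)) (F 8 L))))) (V (S (T (U (S L (F 8 L)) (S (F 8 L) (F 8 L))) (S (T L L) L)) (T (S L L) (S L L))) (S (T (U (S (F 8 L) (F 8 L)) (S (F 8 L) (F 8 L))) (U (S (F 8 L) (F 8 L)) (F 8 L))) (T (S (F 8 L) (F 8 L)) (S (F 8 L) (F 8 L))))))))
noncomputable def v16_20 : Tr := (S (T (U (V (S (T (F 2 (U (S L L) (S L L))) (U (F 2 (S L L)) L)) (T (V L (F 2 L)) (V L L))) (S (F 2 (U (K 0) (S L L))) (T (F 2 (S L L)) (S L L)))) (V (S (T (F 2 (S L L)) (S L L)) (T (F 2 (S L L)) (S L L))) (F 2 (S (U (S L L) (S L L)) (T (S L L) (S L L)))))) (U (V (S (T (U (S L L) (S L L)) (U (F 4 (S L L)) L)) (T (S L L) (S L L))) (S (U (K 3) (T L (F 4 L))) (T (S L L) (F 4 (S L L)))))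 (V (S (T (S L L) (S L L)) (T (S L L) (S L (F 4 L)))) (S (T (S L L) (F 4 (S L L))) (T (S L (F 4 L)) (F 4 (S L L))))))) (T (U (V (S (T (F 2 (S L L)) (S L L)) (T (F 2 (S L L)) (S L L))) (S (T (F 2 (S L L)) (S L L)) (T L (S L L)))) (S (V (T L (F 2 (S L L))) (T L L)) (V (T L L) (T (F 2 L) L)))) (U (V (S (T (S L L) (F 4 (S L L))) (T (S L L) (F 4 (S L L)))) (S (T (S L L) (F 4 (S L L))) (T (F 4 (S L L)) L))) (V (S (T L L) (T L L)) (S (T (F 4 (S L L)) L) (T L (F 4 L)))))))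
noncomputable def v16_21 : Tr := (S (T (F 580 v16_2) (U (F 1792 (V (S (T (F 42 (U (K 3) (V (S (K 3) (U (K 3) (V (U (K 3) (T (S (F 3 L) (F 1 L)) (S (K 3) L))) (K 3)))) (K 3)))) (U (K 2) (V (S (K 2) (T (F 138 (U (K 3) (S (K 3) (V (T (S (K 3) L) (K 3)) (K 3))))) (U (K 2) (S (K 2) (V (T (K 2) (F 8 L)) (K 2)))))) (K 2)))) v16_3) (K 2))) (V v16_8 (F 1873 v16_9)))) (F 1856 (T v16_14 (U (V (S (T v16_15 v16_16) v16_17) (F 69 v16_18)) (V (S v16_19 (F 65 (T (U (V (S (T (S (S (F 2 L) (F 2 L)) L) (S L L)) (T (S (F 2 L) (F 2 L)) (S (F 2 L) (F 2 L)))) (S (T (S (F 8 L) (F 8 L)) (V L (F 8 L))) (T L (S (F 8 L) (F 8 L))))) (V (S (T (S (F 2 L) (F 2 L)) (S (F 2 L) (F 2 L))) (T (F 2 L) L)) (S (T L (S (F 8 L) (F 8 L))) (T (F 2 L) L)))) (U (V (S (T (S L L) (S L L)) (T (S L L) (S L L))) (S (T (S (F 8 L) (F 8 L)) (S (F 8 L) (F 8 L))) (T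 (S (F 8 L) (F 8 L)) (S (F 8 L) (F 8 L))))) (V (S (T (S L L) (S L (F 8 L))) (T L L)) (S (T (S (F 8 L) (F 8 L)) L) (T L L))))))) (F 69 v16_20))))))
noncomputable def v16_22 : Tr := (V (F 3 (U (S (F 5 (T (U (V (S L L) (S (S L L) L)) (V (S L L) (S L L))) (U (V (S (T L L) (U (S L L) L)) (S (S L L) (T L L))) (V (S (S L L) (T L L)) (S L (S L L)))))) (T (F 5 (U (V (S (S L L) (S L L)) (S L (S L L))) (V (S L (S L L)) (S L L)))) (V (U (S (T (F 5 (S L L)) (S (F 4 L) (F 4 L))) (T L (S L L))) (S (T (F 5 L) (S (F 5 L) (F 4 L))) (T (F 4 L) L))) (U (S (T (F 5 L) (F 4 L)) (T (F 4 L) (S (F 4 L) (F 4 L)))) (S (F 5 (T L L)) (T (F 5 L) (F 4 L))))))) (S (F 5 (U (T (U (S L L) L) (V (S L L) (S L L))) (T (S L L) (S L L)))) (U (T (F 5 (V (S L L) (S L L))) (S (F 5 (V (S L L) L)) (V (S (F 4 L) L) (F 4 L)))) (F 5 (T (S L L) (U (S L L) L)))))))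 (U (S (F 80 (T (U (V (T (F 16 L) (F 24 (S L L))) (S L (S (F 16 L) (F 16 L)))) (V (S (F 16 L) (F 24 L)) (S (F 16 L) (F 16 L)))) (F 24 (U (U (V (S L L) (S L (F 1 L))) (V (S L L) L)) (U (V L L) (S L L)))))) (F 17 (T (U (V (F 17 (U (S L L) (S L L))) (S (F 1 L) (F 1 L))) (F 17 (V (S L L) (S L L)))) (U (V (S (F 17 (T L L)) (T (F 17 L) (F 16 L))) (F 25 (U (S L L) (S L L)))) (V (S (F 17 (S L L)) (S (F 17 L) (F 16 L))) (F 25 (U (S L L) L))))))) (F 81 (U (T (S (V (F 8 (S L L)) (S L (F 8 L))) (F 8 (U (S L L) L))) (F 8 (S (U L (F 1 L)) (F 1 (U (T L L) L))))) (F 8 (T (S (S L L) (S L (F 1 L))) (S L (F 1 (S L L)))))))))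
noncomputable def v16_23 : Tr := (V (U (U (S (T (F 40 (V (S (F 1 L) (S (F 16 L) (F 16 L))) (S (F 17 L) (F 16 L)))) (V (S (F 40 L) (F 9 (S L L))) (F 9 (S (F 2 L) (F 16 L))))) (T (F 9 (V (S (S (F 2 L) (F 2 L)) L) (S (F 2 L) (F 2 L)))) (V (S (S (F 9 L) (F 3 L)) (F 3 (S L L))) (F 11 (S (S L L) L))))) (S (F 9 (V (T (S (F 3 L) (F 2 L)) (S (S (F 2 L) (F 2 L)) L)) (T (F 3 L) (S (F 3 L) (F 18 L))))) (T (F 9 (V (S (F 2 L) L) (F 18 (S L L)))) (F 3 (V (S (S (F 8 L) (F 8 L)) L) (S (F 8 L) (F 8 L))))))) (U (S (F 9 (V (T (F 3 (S L L)) (S (F 2 L) (F 16 L))) (F 19 (U L L)))) (T (F 33 (V L (F 4 L))) (F 11 (V (S L L) L)))) (F 9 (S (T (F 3 L) (F 18 (S (F 4 L) L))) (T (S (F 2 L) (F 2 L)) (S (F 16 L) (F 16 L))))))) (F 9 (U (S (F 19 (U (V (U (S (F 2 L) L) L) (F 2 L)) (S (F 2 L) L))) (U (V (T (F 2 L) (S (F 18 L) (F 16 L))) (F 18 (S (F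 4 L) L))) (F 18 (U (S (F 2 L) L) L)))) (F 18 (U (S (F 4 (T L (F 1 L))) (S (F 4 L) L)) (F 4 (S (F 1 L) L)))))))
noncomputable def v16_24 : Tr := (T (V (U (S (F 33 (T (U (S (F 4 L) (F 4 L)) (S (F 4 L) (F 4 L))) (U (V (S (F 4 L) (F 4 L)) (F 20 (S L L))) (V L (F 4 L))))) (T (F 33 (U (S (F 4 L) (F 4 L)) L)) (S (F 33 (V L L)) (S (F 1 L) (F 1 L))))) (F 33 (S (U (T (F 4 L) (S (F 4 L) (F 4 L))) (T (F 4 L) L)) (T (S L L) (U (S (F 16 L) (F 16 L)) (F 16 L)))))) (F 41 (U (S (U (T L (F 8 (S L L))) (S L L)) (T (S L L) (F 8 (U (S L L) (S L L))))) (S (U (T (F 1 L) (F 8 L)) (F 8 (S (F 4 L) L))) (F 8 (T (S L L) (U L L))))))) (V (U (S (U (F 3 (V (T (S L L) (S L (F 8 L))) (S (T (F 8 L) (F 8 L)) (S L L)))) (V (T (F 1 L) (F 11 (S L L))) (F 3 (S (S (F 8 L) (F 8 L)) L)))) (F 3 (T (U (S L L) (S L (F 8 L))) (U (S L (F 8 L)) (S (F 8 L) (F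 8 L)))))) (F 3 (S (U (S (T L L) (T (F 8 L) L)) (T (S (F 2 L) (F 2 L)) (S (F 8 L) (F 8 L)))) (T (U (S (F 8 L) (F 8 L)) L) (U L L))))) (F 11 (U (S (U (T (V L (F 2 L)) (S L L)) (T (F 2 (S L L)) (S L (F 4 L)))) (T (U (S L L) L) (U (S L L) L))) (S (U (S (F 2 (S L L)) L) (F 2 (S L L))) (U (T L L) (S L L)))))))
noncomputable def v16_25 : Tr := (U (S (T (F 41 (U (V (S (F 1 (U (T L (V (S L L) L)) (T L (S L L)))) (T (U L (F 1 L)) (U (V (S L L) L) (S L L)))) (U (S (F 1 (S L L)) (T (F 1 L) L)) (F 1 (S L (S L L))))) (V (U (S (F 1 (T L L)) (T (F 1 L) (S (F 1 L) L))) (S (F 1 (S L L)) (S (F 1 L) L))) (F 1 (U (S L L) (F 1 (S L L))))))) v16_23) v16_24) (S (F 33 (U (U (V (T (F 5 (S L (S L L))) (S (F 5 (T L (F 1 L))) (V (S (F 20 L) (F 16 L)) (F 20 L)))) (F 5 (T L (F 5 (S L L))))) (V (T (F 5 (S L L)) (F 20 (S (F 4 (S (F 1 L) L)) L)))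 (F 21 (T L (F 2 L))))) (F 5 (U (T L (F 5 (U (U L L) L))) (F 1 (T L (F 1 L))))))) (U (V (S (T (F 33 (T L (S (F 4 L) (F 16 L)))) (F 3 (U (T (F 2 L) L) (S (F 10 L) (F 2 L))))) (F 3 (T (U (S (F 2 L) (F 2 L)) (F 2 L)) (U (S L L) L)))) (F 11 (T (F 2 (U (S L L) (S (F 4 L) L))) (S (F 2 (U L (F 2 L))) (U L (F 2 L)))))) (F 35 (S (V (T L (S L L)) (F 4 (T (F 4 L) (F 2 L)))) (V (U (T (F 4 L) L) L) (F 4 (T L (S (F 2 L) L)))))))))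
noncomputable def v16_26 : Tr := (U (S (T (V (U (S (S (F 20 L) (F 16 L)) (S (F 16 L) (F 16 L))) (S (F 48 (S (F 2 L) L)) (S (F 48 L) (F 16 L)))) (F 20 (U (S (S L L) (T L L)) (S (F 1 (S L L)) (S L L))))) (V (U (S (T (F 16 L) (S (F 16 L) (F 16 L))) (T (F 16 L) (F 17 (S L L)))) (S (T (F 16 L) (F 16 L)) (S (F 16 L) (F 16 L)))) (U (F 20 (S (T L (S L L)) (T L (F 8 (S L L))))) (S (F 20 (T L L)) (F 17 (S L L)))))) (T (V (U (S (S (F 16 L) (F 16 L)) (S (F 16 L) (F 16 L))) (S (S (F 16 L) (F 16 L)) (F 17 (S L L)))) (U (S (S (F 16 L) (F 16 L)) (S (F 16 L) (F 16 L))) (S (F 20 (S L L)) (F 17 (S L L))))) (V (U (S (T (F 16 L) (F 17 L)) (F 17 (T L L))) (F 17 (S (S L L) (S L L)))) (F 17 (U (S (T L L) (S L L)) (S (S L L) (S L L))))))) (S (U (T (V (F 48 (S L L)) (F 20 (S (F 1 L) L))) (S (V (S (F 16 L) (F 16 L)) (F 20 (S L (F 8 L))))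 (V (F 16 L) (F 17 L)))) (T (F 48 (V L (F 2 (S (F 1 L) L)))) (F 17 (S (V L (F 4 L)) (S L L))))) (T (U (V (S (F 16 L) (F 17 L)) (S (F 20 L) (F 17 L))) (S (F 16 L) (F 17 (S L L)))) (F 17 (U (S (V L L) (T L L)) (V (S L L) (F 4 (S L L))))))))
noncomputable def v16_27 : Tr := (V v16_26 (F 20 (U (S (T (U (V (S (S L L) (S L L)) (T (S (F 1 L) (F 8 L)) (F 8 (S L L)))) (S (F 1 (V (S L L) (S L L))) (V (S L L) (F 8 (S L L))))) (U (V (S (T L (F 8 (S L L))) (F 8 (T L L))) (F 8 (S (T L L) (T L L)))) (F 8 (V (S (T L L) (S L L)) (S (S L L) (S L L)))))) (T (U (S (V (S L L) (F 8 (S L L))) (F 8 (V (T L L) (S L L)))) (F 8 (S (V (S L L) (S L L)) (V (S L L) L)))) (F 8 (U (S (V (T L L) (S L L)) (V (S L L) (S L L))) (S (V (S L L) (S L L)) (V (S L L) L)))))) (S (U (T (S (T (F 1 L) (F 8 L)) (F 8 (T L L))) (F 8 (V (S (S L L) L) (S (F 4 L)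 L)))) (T (F 1 (V L (F 1 L))) (F 8 (S L (S L L))))) (F 8 (U (T (S (T L L) (T L L)) (S (T L L) (T L L))) (T (S L L) (S L L))))))))
noncomputable def v16_28 : Tr := (S (T (V (U (S (T (S (F 16 L) (F 16 L)) (V (F 17 (S L L)) (F 1 L))) (F 17 (T (S L L) (S L L)))) (S (F 17 (T (S L L) (S L L))) (T (F 17 L) (F 1 L)))) (U (S (T (F 17 (V L (F 4 L))) (V (F 1 L) (F 5 L))) (F 5 (T (F 2 (S L L)) (S L L)))) (S (F 21 (U (S L L) (S L L))) (T (F 17 L) (F 5 L))))) (V (U (S (T (V (S (F 1 L) (F 17 L)) (F 1 L)) (S (F 1 L) (F 1 L))) (T (S (F 1 L) (F 1 L)) (S (F 1 L) (F 5 L)))) (S (T (S (F 1 L) (F 1 L)) (S (F 1 L) (F 5 L))) (T (F 1 L) (F 1 L)))) (U (S (T (V (F 1 L) (F 5 L)) (F 5 (S L L))) (F 5 (T (S L L) (S L L)))) (S (F 5 (T (S L L) (S L L))) (T (F 1 L) (F 5 L)))))) (T (V (U (S (T (F 17 L) (F 1 L)) (F 17 (T L L))) (F 17 (S (S L L) (S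 L L)))) (U (S (T (F 17 L) (F 1 L)) (F 17 (T (F 4 L) L))) (F 17 (S (S L L) (S L L))))) (V (U (S (T (F 1 L) (F 1 L)) (S (F 1 L) (F 1 L))) (S (S (F 1 L) (F 1 L)) (S (F 1 L) (F 17 L)))) (U (S (T (F 1 L) (F 1 L)) (F 5 (T L L))) (S (S (F 1 L) (F 1 L)) (S (F 1 L) (F 1 L)))))))
noncomputable def v16_29 : Tr := (U (S (T (V (U (S (F 2 (U (S L L) (S L L))) (T (F 2 (S L L)) L)) (F 2 (S (T L L) (T L L)))) (U (S (F 2 (U L L)) (T (F 2 L) L)) (F 2 (S (S L L) (S L L))))) (V (U (S (U (S L L) (F 4 (S L L))) (T (S L L) L)) (S (T L L) (T L L))) (U (F 4 (S (U (S L L) L) (T (S L L) (S L L)))) (S (F 4 (S L L)) (T L (F 4 L)))))) (T (V (U (S (T (F 2 L) L) (S L L)) (F 2 (S (S L L) (S L L)))) (U (S (T (F 2 L) L) (S L L)) (F 2 (S (S L L) (S L L))))) (V (U (S (T L L) (T L L)) (S (S L L) (S L L))) (U (S (T L (F 4 L)) (S L L)) (F 4 (S (S L L)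 (S L L))))))) (S (U (T (F 2 (S (V (S L L) L) (V (S L L) L))) (S (V L (F 4 L)) (F 4 (V (S L L) (S (F 2 L) L))))) (U (S (F 6 (T L L)) (T (F 2 L) (F 4 L))) (F 6 (S L (S L L))))) (U (T (S (F 2 (V (S L L) L)) (T (F 2 L) L)) (F 4 (S (V (S L L) (S L L)) (V (S L L) (S L L))))) (T (F 2 (S (S L L) (S L L))) (F 4 (S (S L L) (S L L)))))))
noncomputable def v16_30 : Tr := (S (T (F 581 v16_22) (F 1345 (V v16_25 (F 9 (U (S (F 3 (U (U (V (T (T L (F 1 L)) (F 5 (U L L))) (F 5 L)) (F 5 (U (S L (S L L)) L))) (F 5 (U (U L L) L)))) (U (U (S (V (T (F 18 (S L L)) (T (F 18 L) (F 20 L))) (F 19 (T L (F 2 L)))) (V (T (F 18 (S L L)) (S (F 16 L) (F 16 L))) (F 18 (T L (F 2 (S L L)))))) (S (F 18 (V (T L (F 2 (S L L))) (F 6 L))) (V (T (F 18 (S L L)) (F 20 (S L L))) (F 18 (T (F 4 L) (F 2 L)))))) (U (V (S (F 18 (T (F 4 L) (F 2 L))) (T (F 18 L) (F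 16 L))) (F 19 (U (T L (F 2 L)) (F 2 L)))) (F 18 (V (T (S (F 4 L) L) (S (F 6 L) L)) (F 4 (T L (F 1 L)))))))) (F 18 (U (S (F 6 (U L L)) (U (V (S (F 6 (S L L)) (S (F 2 L) L)) (F 6 L)) (T (F 4 L) (F 2 (S (F 1 L) L))))) (F 6 (U (S L L) L))))))))) (F 1857 (T v16_27 (V (U v16_28 (S (T (F 17 (U (S (V (T L L) (F 4 (T L L))) (V (S L L) (F 4 (S L L)))) (S (V L (F 4 L)) (S L L)))) (U (S (V (T (F 1 L) (F 1 L)) (F 5 (T L L))) (V (S (F 1 L) (F 1 L)) (F 5 (S L L)))) (S (V (F 1 L) (F 5 L)) (T (F 1 L) (F 1 L))))) (T (F 17 (U (S (V L L) (T L L)) (S (S L L) (S L L)))) (U (S (V (F 17 (S L L)) (F 5 (S L L))) (T (F 1 L) (F 1 L))) (S (S (F 1 L) (F 1 L)) (S (F 1 L) (F 17 L))))))) (F 5 v16_29)))))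
noncomputable def treeV16 : Tr := (F 0xfffffffffffffffffffffffffffffffff7fffff7773bfe67ff (U v16_21 v16_30))

theorem pV16 : chkV par treeV16 128 128 384 128 384 128 349525 699051 Lc = true := by decide +kernel


end Pool.Agent.Lib.H56.Gen.D3
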