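import Pool.Agent.Lib.H56.Gen.D3.Par
import Pool.Agent.Lib.H56.Gen.D3.Cos

/-!
# Certificate tree V, part 3
-/

set_option maxRecDepth 100000

namespace Pool.Agent.Lib.H56.Gen.D3

open Tr

noncomputable def v17_0 : Tr := (V (S (T (V (U (S (T L L) (T L L)) (S (S L L) (S L L))) (S (U (T L L) L) (U (T L L) (S L L)))) (V (U (T (S L L) (S L L)) (S (S L L) (S L L))) (U (T (S L L) (S L L)) (S (S L L) L)))) (T (V (T (U (S L L) (S (F 512 L) (F 512 L))) (U (S L L) (S (F 512 L) (F 512 L)))) (U (T (S L L) (S L L)) (S L L))) (V (U (S (T L L) (T L L)) (S (S L L) L)) (U (T (S L L) (S L (F 512 L))) (S L L))))) (S (T (V (S (U (S L L) (S (F 512 L) (F 512 L))) (U (T (F 512 L) (F 512 L)) (S (F 512 L) (F 512 L)))) (U (S (T (F 512 L) (F 512 L)) (T (F 512 L) (F 512 L))) (T (F 512 L) (F 512 L)))) (V (U (T (S (F 512 L) (F 512 L)) (S (F 512 L) (F 512 L)))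 (T (S (F 512 L) (F 512 L)) (S (F 512 L) (F 512 L)))) (U (T (S (F 512 L) (F 512 L)) (S (F 512 L) (F 512 L))) (T (F 512 L) (S (F 512 L) (F 512 L)))))) (T (V (U (S (T (F 512 L) (F 512 L)) (T (F 512 L) (F 512 L))) (S (S (F 512 L) (F 512 L)) (S (F 512 L) (F 512 L)))) (T (U (S (F 512 L) (F 512 L)) (S (F 512 L) (F 512 L))) (U (S (F 512 L) (F 512 L)) (S (F 512 L) (F 512 L))))) (V (U (T (S (F 512 L) (F 512 L)) (S (F 512 L) (F 512 L))) (S (S (F 512 L) (F 512 L)) (S (F 512 L) (F 512 L)))) (U (T (S (F 512 L) (F 512 L)) (S (F 512 L) (F 512 L))) (S (F 512 L) (F 512 L)))))))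
noncomputable def v17_1 : Tr := (V (S (T (V (U (T (S L L) (S L L)) (S (S L L) L)) (U (S (S L L) (S L L)) (S L L))) (V (U (T (S L (F 2 L)) (S (F 2 L) (F 2 L))) (S L L)) (U (T (S (F 512 L) (F 512 L)) L) (S (S (F 512 L) (F 512 L)) (F 512 L))))) (T (V (U (S (S L L) (S L L)) (S L L)) (U (T (S (F 512 L) (F 512 L)) (S (F 512 L) (F 512 L))) (T (S (F 512 L) (F 512 L)) (F 512 L)))) (V (T (S L L) (S L (F 2 L))) (U (S L (F 2 L)) (S (F 512 L) (F 514 L)))))) (S (T (V (U (S (T (F 512 L) (F 512 L)) (T (F 512 L) (F 512 L))) (T (S (F 512 L) (F 512 L)) (S (F 512 L) (F 514 L)))) (U (S (S (F 512 L) (F 512 L)) (S (F 512 L) (F 512 L))) (S (F 512 L) (F 512 L)))) (V (U (S (S (F 512 L) (F 512 L)) (S (F 512 L) (F 512 L))) (S (F 512 L) (F 512 L))) (U (S (F 512 L) (F 512 L)) (S (F 512 L) (F 514 L))))) (T (V (U (S (T (F 512 L) (F 512 L)) (S (F 512 L) (F 512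 L))) (T (F 512 L) (F 512 L))) (U (S (S (F 512 L) (F 512 L)) (F 512 L)) (S (F 512 L) (F 514 L)))) (V (S (T (F 512 L) (F 512 L)) (T (F 512 L) (F 514 L))) (T (S (F 512 L) (F 514 L)) (S (F 514 L) (F 514 L)))))))
noncomputable def v17_2 : Tr := (T (U v17_0 (V (T (S (V (U (S L L) L) (U (S (F 512 L) (S (F 512 L) (F 512 L))) (S (F 512 L) (F 512 L)))) (V (T (S (F 512 L) (F 512 L)) (S (F 512 L) (F 512 L))) (U (S (F 512 L) (F 512 L)) (S (F 512 L) (F 512 L))))) (S (V (T (S (F 512 L) (F 512 L)) (S (F 512 L) (F 512 L))) (U (S (F 512 L) (F 512 L)) (S (F 512 L) (F 512 L)))) (V (U (S L (F 512 L)) (S (F 512 L) (F 768 L))) (T (S (F 512 L) (F 512 L)) (S (F 512 L) (F 512 L)))))) (T (S (V (U (S (F 512 L) (F 512 L)) (S (F 512 L) (F 512 L))) (U (S (F 512 L) (F 512 L)) (S (F 512 L) (F 512 L)))) (V (U (S (F 512 L) (F 512 L)) (S (F 512 L) (F 512 L))) (U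 (S (F 512 L) (F 512 L)) (S (F 512 L) (F 512 L))))) (S (V (U (S (F 512 L) (F 512 L)) (S (F 512 L) (F 512 L))) (U (S (F 512 L) (F 512 L)) (S (F 512 L) (F 512 L)))) (V (U (S (F 512 L) (F 512 L)) (S (F 512 L) (F 768 L))) (U (S (F 512 L) (F 512 L)) (F 512 L))))))) (U v17_1 (V (T (S (V (U (S L L) (S (F 512 L) (F 768 L))) (U (S (F 512 L) (F 512 L)) (S (F 768 L) (F 768 L)))) (V (U L (F 512 L)) (U (S (F 512 L) (F 512 L)) (F 512 L)))) (S (V (U L (F 512 L)) (T (S (F 512 L) (F 768 L)) (F 512 L))) (S (V (F 512 L) (F 512 L)) (T (F 512 L) (F 514 L))))) (T (S (V (U (S (F 512 L) (F 512 L)) (S (F 768 L) (F 768 L))) (U (S (F 512 L) (F 512 L)) (F 512 L))) (V (T (S (F 512 L) (F 514 L)) (F 512 L)) (U (F 512 L) (F 512 L)))) (S (V (S (F 512 L) (F 512 L)) (S (F 512 L) (F 512 L))) (V (T (F 512 L) (F 514 L)) (S (F 514 L) (F 514 L))))))))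
noncomputable def v17_3 : Tr := (V (S (T (V (U (S (T L L) (T L L)) (S (S L L) L)) (S (U (S L L) L) (U (S L L) L))) (V (U (S (T L L) (S L L)) (S L L)) (U (T (S L (F 512 L)) (S (F 512 L) (F 512 L))) (V L (S (F 512 L) (F 512 L)))))) (T (V (U (S (S L L) (S L L)) (S L L)) (U (S (S L L) L) (T (S (F 512 L) (F 513 L)) (F 512 L)))) (V (S (T L L) (T L (F 1 L))) (U (S L (F 1 L)) (S (F 512 L) (F 513 L)))))) (S (T (V (U (S (T (F 512 L) (F 512 L)) (T (F 512 L) (F 512 L))) (T (S (F 512 L) (F 512 L)) (S (F 512 L) (F 513 L)))) (U (T (S (F 512 L) (F 512 L)) (S (F 512 L) (F 513 L))) (S (F 512 L) (F 512 L)))) (V (U (T (S (F 512 L) (F 512 L)) (S (F 512 L) (F 513 L))) (S (F 512 L) (F 512 L))) (U (T (S (F 512 L) (F 513 L)) (F 512 L)) (S (F 512 L) (F 512 L))))) (T (V (U (S (T (F 512 L) (F 512 L)) (F 512 L)) (S (F 512 L) (F 512 L))) (U (T (F 512 L) (F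 512 L)) (S (F 512 L) (F 513 L)))) (V (T (U (F 512 L) (F 513 L)) (S (F 512 L) (F 513 L))) (T (S (F 512 L) (F 513 L)) (S (F 513 L) (F 515 L)))))))
noncomputable def v17_4 : Tr := (U (V (T (S (V (U (S L L) (S (F 512 L) (F 1 L))) (U (S L (F 1 L)) (S (F 512 L) (F 513 L)))) (V (T (S (F 1 L) (F 3 L)) (S (F 3 L) (F 515 L))) (T (S (F 512 L) (F 513 L)) (F 515 (U (S L (F 1 L)) L))))) (S (V (S (T (F 2 L) (F 3 L)) (T (F 3 L) (F 515 L))) (T (U (F 514 L) (F 515 L)) (S (F 514 L) (F 515 L)))) (V (U (F 3 L) (F 515 L)) (F 515 (S (T L (F 1 L)) L))))) (T (S (V (U (T (F 512 L) (F 512 L)) (S (F 512 L) (F 513 L))) (T (S (F 512 L) (F 513 L)) (S (F 514 L) (F 514 L)))) (F 515 (V (U (T (S L L) L) (S L L)) (U (S L L) (S L L))))) (S (V (T (S (F 514 L) (F 515 L)) (F 515 (S L L))) (T (S (F 514 L) (F 515 L)) (F 515 (S L L)))) (F 515 (V (U (S L (F 1 L)) L) (S L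 L)))))) (V (S (T (V (S (F 512 L) (F 513 L)) (S (F 512 L) (F 513 L))) (F 515 (V (U (S L (F 1 L)) (F 1 L)) (S L L)))) (F 515 (T (V (U (S L (F 1 L)) (F 1 L)) (T L L)) (V (S (F 1 L) (F 1 L)) L)))) (T (S (V (S (F 512 L) (F 513 L)) (S (F 512 L) (F 514 L))) (F 515 (V (S L (F 1 L)) (S L (F 1 L))))) (F 515 (S (V (S L L) (S L (F 1 L))) (T L L))))))
noncomputable def v17_5 : Tr := (U (V (S (T (V (U (T (S (F 512 L) (F 512 L)) (S (F 512 L) (F 512 L))) (S (F 512 L) (F 512 L))) (U (S (F 512 L) (F 512 L)) (S (F 512 L) (F 512 L)))) (V (U (S (S (F 512 L) (F 512 L)) (S (F 512 L) (F 512 L))) (S (F 512 L) (F 512 L))) (T (S (F 512 L) (F 512 L)) (S (F 512 L) (F 512 L))))) (T (V (U (T (S (F 512 L) (F 512 L)) (S (F 512 L) (F 512 L))) (S (F 512 L) (F 512 L))) (U (S (F 512 L) (F 512 L)) (S (F 512 L) (F 512 L)))) (V (U (S (S (F 512 L) (F 512 L)) (F 512 L))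 (S (F 512 L) (F 512 L))) (U (S (F 512 L) (F 512 L)) (S (F 512 L) (F 512 L)))))) (U (K 3) (V (V (U (K 3) (U (K 3) (V (T (S (K 3) (F 513 L)) (S (F 514 L) (F 514 L))) (K 3)))) (K 3)) (K 3)))) (V (T (S (V (U (S (F 512 L) (F 512 L)) (F 512 L)) (T (S (F 512 L) (F 512 L)) (F 512 L))) (V (U (S (F 512 L) (F 512 L)) (F 512 L)) (S (F 512 L) (F 512 L)))) (S (V (U (S (F 512 L) (F 512 L)) (F 512 L)) (S (F 512 L) (F 512 L))) (V (S (F 512 L) (F 512 L)) (S (F 512 L) (F 512 L))))) (T (S (V (S (F 512 L) (F 512 L)) (S (F 512 L) (F 512 L))) (V (S (F 512 L) (F 512 L)) (S (F 512 L) (F 512 L)))) (S (V (S (F 512 L) (F 512 L)) (S (F 512 L) (F 512 L))) (V (S (F 512 L) (F 512 L)) (S (F 512 L) (F 512 L)))))))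
noncomputable def v17_6 : Tr := (T (U (V (S (T (V (U (T (S (F 512 L) (F 513 L)) (F 512 L)) (S (F 512 L) (F 512 L))) (U (S (F 512 L) (F 512 L)) (S (F 512 L) (F 513 L)))) (V (U (S (F 512 L) (F 512 L)) (S (F 512 L) (F 513 L))) (U (S (F 512 L) (F 513 L)) (F 512 L)))) (T (V (U (S (F 512 L) (F 513 L)) (F 512 L)) (U (S (F 513 L) (F 513 L)) (F 512 L))) (V (S (F 512 L) (S (F 513 L) (F 513 L))) (S (F 512 L) (F 513 L))))) (U (K 3) (V (V (S (T (F 512 L) (F 513 L)) (T (F 513 L) (F 515 L))) (K 3)) (K 3)))) (V (T (S (V (T (F 512 L) (F 512 L)) (S (F 512 L) (F 512 L))) (V (S (F 512 L) (F 513 L)) (S (F 513 L) (F 513 L)))) (S (V (S (F 512 L) (F 512 L)) (S (F 512 L) (F 513 L))) (V (S (F 513 L) (F 515 L)) (S (F 513 L) (F 515 L))))) (S (T (V (S (F 512 L) (F 512 L)) (S (F 512 L) (F 513 L))) (V (F 512 L) (F 512 L))) (T (V (F 512 L) (S (F 513 L) (F 515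 L))) (F 515 (V (S L L) (S L L))))))) (U (V (T (S (V (T (S (F 514 L) (F 514 L)) (S (F 514 L) (F 515 L))) (S (F 512 L) (F 514 L))) (F 515 (V (U (S L L) L) (S L L)))) (S (V (S (F 514 L) (F 515 L)) (F 515 (S L L))) (F 515 (V (S L L) L)))) (F 515 (V (T (U (K 5) (S L L)) (S (S L L) L)) (K 5)))) (V (T (S (V (S (F 514 L) (F 515 L)) (S (F 514 L) (F 515 L))) (F 515 (V (S L (F 1 L)) L))) (F 515 (S (V (S L (F 1 L)) L) (S L (F 1 L))))) (T (S (V (F 514 L) (F 514 L)) (F 515 (S L L))) (S (S (F 514 L) (F 515 L)) (F 515 L))))))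
noncomputable def v17_7 : Tr := (V (S v17_2 (T (U v17_3 (V (S (T (V (U (S L (F 512 L)) (S (F 768 L) (F 768 L))) (U (S (F 512 L) (F 512 L)) (S (F 768 L) (F 768 L)))) (V (U (S (F 512 L) (F 512 L)) (F 512 L)) (U (S (F 512 L) (F 512 L)) (F 512 L)))) (T (V (U L (F 512 L)) (T (S (F 512 L) (F 513 L)) (F 512 L))) (S (V (F 512 L) (F 512 L)) (T (F 512 L) (F 513 L))))) (T (S (V (U (S (F 512 L) (F 512 L)) (S (F 512 L) (F 768 L))) (U (S (F 512 L) (F 512 L)) (F 512 L))) (V (S (S (F 512 L) (F 512 L)) (F 512 L)) (S (F 512 L) (F 512 L)))) (S (V (T (S (F 512 L) (F 513 L)) (F 512 L)) (S (F 512 L) (F 512 L))) (V (S (F 512 L) (F 513 L)) (S (F 513 L) (F 513 L))))))) v17_4)) (S (T v17_5 (U (V (S (T (V (U (S (S (F 512 L) (F 512 L)) (F 512 L)) (S (F 512 L) (F 512 L))) (U (S (F 512 L) (F 512 L)) (S (F 512 L) (F 514 L)))) (V (U (S (F 512 L) (F 512 L)) (F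 512 L)) (U (S (F 514 L) (F 514 L)) (F 512 L)))) (T (V (U (S (F 512 L) (F 512 L)) (S (F 514 L) (F 514 L))) (U (S (F 512 L) (F 514 L)) (F 512 L))) (V (T (F 512 L) (S (F 514 L) (F 515 L))) (U (S (F 514 L) (F 515 L)) (F 514 L))))) (U (K 3) (V (V (T (S (F 512 L) (F 514 L)) (S (F 514 L) (F 515 L))) (K 3)) (K 3)))) (V (S (T (V (S (F 512 L) (F 512 L)) (S (F 512 L) (F 512 L))) (V (S (F 512 L) (F 514 L)) (S (F 514 L) (F 514 L)))) (T (V (S (F 512 L) (F 512 L)) (S (F 512 L) (F 514 L))) (V (S (F 514 L) (F 515 L)) (S (F 514 L) (F 515 L))))) (T (S (V (S (F 512 L) (F 512 L)) (S (F 512 L) (F 514 L))) (V (S (F 514 L) (F 514 L)) (F 512 L))) (S (V (S (F 514 L) (F 514 L)) (S (F 514 L) (F 514 L))) (V (F 514 L) (F 514 L))))))) v17_6))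
noncomputable def v17_8 : Tr := (T (U (V (S (T (V (U (F 512 L) (F 768 L)) (S (F 512 L) (F 512 L))) (V (U (F 512 L) (F 768 L)) (S (F 512 L) (F 512 L)))) (T (V (U (F 512 L) (F 768 L)) (S (F 512 L) (F 512 L))) (V (S (F 768 L) (F 768 L)) (S (F 768 L) (F 768 L))))) (S (T (V (S (F 512 L) (F 512 L)) (S (F 512 L) (F 512 L))) (V (S (F 512 L) (F 512 L)) (S (F 512 L) (F 512 L)))) (T (V (S (F 512 L) (F 512 L)) (S (F 512 L) (F 512 L))) (V (S (F 768 L) (F 768 L)) (S (F 768 L) (F 768 L)))))) (V (T (S (V (F 768 L) (F 768 L)) (S (F 768 L) (F 768 L))) (S (S (F 768 L) (F 768 L)) (S (F 768 L) (F 768 L)))) (S (T (V (F 768 L) (F 768 L)) (V (F 768 L) (F 768 L))) (T (V (F 768 L) (F 768 L)) (S (F 768 L) (F 768 L)))))) (U (V (S (T (V (S (F 768 L) (F 768 L)) (S (F 768 L) (F 768 L))) (V (S (F 768 L) (F 770 L)) (S (F 768 L) (F 770 L)))) (T (V (S (F 768 L)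 (F 768 L)) (S (F 768 L) (F 768 L))) (T (S (F 768 L) (F 770 L)) (F 770 (S L (F 64 L)))))) (S (T (V (S (F 768 L) (F 768 L)) (S (F 768 L) (F 768 L))) (S (F 512 L) (F 512 L))) (T (V (F 512 L) (F 512 L)) (S (F 514 L) (F 514 L))))) (V (S (T (S (F 768 L) (F 768 L)) (F 768 L)) (T (S (F 768 L) (F 770 L)) (F 770 (S L (F 64 L))))) (S (T (S (F 768 L) (F 768 L)) (F 768 L)) (T (S (F 768 L) (F 770 L)) (F 770 L))))))
noncomputable def v17_9 : Tr := (T (U (V (S (T (V (S (F 512 L) (F 512 L)) (S (F 512 L) (F 512 L))) (V (S (F 512 L) (F 512 L)) (S (F 512 L) (F 512 L)))) (T (V (S (F 512 L) (F 512 L)) (S (F 512 L) (F 512 L))) (V (S (F 512 L) (F 768 L)) (S (F 512 L) (F 514 L))))) (T (S (V (S (F 512 L) (F 512 L)) (S (F 512 L) (F 512 L))) (V (S (F 512 L) (F 512 L)) (S (F 512 L) (F 512 L)))) (S (V (S (F 512 L) (F 512 L)) (S (F 512 L) (F 512 L))) (V (F 512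 L) (F 512 L))))) (V (T (S (S (F 512 L) (F 512 L)) (S (F 512 L) (F 512 L))) (S (S (F 512 L) (F 512 L)) (S (F 512 L) (F 768 L)))) (S (T (S (F 512 L) (F 512 L)) (S (F 512 L) (F 512 L))) (T (S (F 512 L) (F 512 L)) (S (F 512 L) (F 512 L)))))) (U (V (T (S (V (F 512 L) (F 512 L)) (S (F 512 L) (F 512 L))) (S (V (F 514 L) (F 514 L)) (S (F 514 L) (F 514 L)))) (T (S (V (F 512 L) (F 512 L)) (S (F 512 L) (F 514 L))) (S (S (F 512 L) (F 514 L)) (S (F 514 L) (F 515 L))))) (V (T (S (F 512 L) (S (F 768 L) (F 770 L))) (F 770 (S (S L L) L))) (T (S (S (F 512 L) (F 514 L)) (S (F 514 L) (F 770 L))) (S (F 514 L) (F 515 L))))))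
noncomputable def v17_10 : Tr := (V (S v17_8 (T (U (V (T (S (V (S (F 768 L) (F 768 L)) (S (F 512 L) (F 768 L))) (V (S (F 768 L) (F 769 L)) (S (F 768 L) (F 769 L)))) (S (V (S (F 768 L) (F 768 L)) (S (F 768 L) (F 768 L))) (T (F 768 L) (F 769 (S L (F 64 L)))))) (T (S (V (S (F 768 L) (F 768 L)) (S (F 512 L) (F 768 L))) (S (F 512 L) (F 512 L))) (S (V (F 512 L) (F 512 L)) (S (F 512 L) (F 513 L))))) (V (T (S (S (F 768 L) (F 768 L)) (F 768 L)) (S (S (F 768 L) (F 769 L)) (F 769 (S L (F 64 L))))) (T (S (S (F 768 L) (F 768 L)) (F 768 L)) (S (S (F 768 L) (F 769 L)) (F 769 L))))) (V (U (T (S (V (F 768 L) (F 768 L)) (F 771 (V (S L L) L))) (F 770 (S (S L (F 64 L)) (S (F 64 L) (F 64 L))))) (F 770 (S (T L (F 64 L)) (T (F 64 L) (F 64 L))))) (U (T (S (S (F 512 L) (F 514 L)) (F 771 (V L L))) (F 770 (S (S L (F 64 L)) (F 64 L)))) (F 770 (T (S L (F 64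 L)) (S (F 64 L) (F 64 L)))))))) (S v17_9 (T (U (V (T (S (V (F 512 L) (F 512 L)) (S (F 512 L) (F 512 L))) (S (S (F 512 L) (F 512 L)) (S (F 513 L) (F 515 L)))) (S (T (V (F 512 L) (F 512 L)) (S (F 512 L) (F 512 L))) (T (S (F 512 L) (F 513 L)) (T (F 513 L) (F 515 L))))) (V (S (T (S (F 512 L) (F 768 L)) (S (F 768 L) (F 769 L))) (T (S (F 513 L) (F 769 L)) (F 771 (S L L)))) (S (T (S (F 512 L) (F 513 L)) (F 512 L)) (T (F 513 L) (F 515 L))))) (V (U (T (S (S (F 514 L) (F 515 L)) (F 515 (S L (F 1 L)))) (F 515 (S (S L (F 1 L)) (F 1 L)))) (F 770 (T (S (S L (F 64 L)) (F 64 L)) (S (F 64 L) (F 64 L))))) (U (T (S (S (F 514 L) (F 515 L)) (F 515 L)) (F 515 (S L (F 1 L)))) (F 515 (T (S L (F 1 L)) (S (F 1 L) (F 9 L)))))))))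
noncomputable def v17_11 : Tr := (U (V (S (T (V (U (S (S (F 2 L) (F 2 L)) (F 2 L)) (S (F 2 L) (F 514 L))) (U (S (F 2 L) (S (F 514 L) (F 514 L))) (S (F 514 L) (F 514 L)))) (V (T (F 2 L) (F 514 L)) (U (S (F 514 L) (F 515 L)) (F 514 L)))) (T (V (U (S (F 2 L) (F 3 L)) (S (F 514 L) (F 515 L))) (U (S (F 514 L) (F 514 L)) (F 514 L))) (V (U (F 3 L) (F 515 L)) (F 515 (U L (F 1 L)))))) (T (S (V (U (S (S (F 514 L) (F 514 L)) (F 514 L)) (S (F 514 L) (F 514 L))) (U (S (F 514 L) (F 514 L)) (S (F 514 L) (F 515 L)))) (V (U (S (F 514 L) (F 515 L)) (F 514 L)) (S (F 514 L) (F 514 L)))) (S (V (U (F 514 L) (F 515 L)) (S (F 514 L) (F 515 L))) (F 515 (V (S L L) (S L (F 8 L))))))) (V (S (T (V (U (S (F 514 L) (F 770 L)) (F 770 L)) (S (F 514 L) (F 514 L))) (U (F 514 L) (F 770 L))) (T (V (F 515 (U L (F 1 L))) (F 514 L)) (F 771 (V (S L (F 4 L)) L)))) (T (S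 (V (S (F 514 L) (F 514 L)) (S (F 514 L) (F 514 L))) (V (F 514 L) (F 514 L))) (S (S (F 514 L) (F 514 L)) (F 515 (S L (F 1 L)))))))
noncomputable def v17_12 : Tr := (S (T v17_11 (U (V (F 515 (T (S (V (S L (F 1 L)) (S L (F 8 L))) (U (S (F 8 L) (F 1 L)) (F 1 L))) (F 9 (U (K 3) (S L L))))) (T (S (T (S (F 514 L) (F 515 L)) (F 547 (S L L))) (F 515 (S L (F 8 L)))) (F 803 (U (K 1) (S L L))))) (F 515 (V (T (S (S (F 1 L) (F 1 L)) (F 1 L)) (F 9 (S L L))) (S (T (S (F 8 L) (F 8 L)) (F 9 L)) (F 9 (V L L))))))) (T (U (V (T (S (V (U (F 3 L) (F 515 L)) (F 515 (T (S L (F 1 L)) L))) (F 515 (V (S L (F 1 L)) (S L (F 1 L))))) (F 515 (S (V L L) (V (F 1 L) (F 1 L))))) (F 515 (T (S (V (U L L) (S L L)) (V L L)) (S (V L L) L)))) (F 515 (V (T (S (V (S (F 1 L) (F 1 L)) (S (F 1 L) (F 1 L))) (S (F 1 L) (F 1 L))) (S (S (F 1 L) (F 1 L)) (F 1 L))) (T (S (T L L)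 L) (S L (F 1 L)))))) (F 515 (V (U (T (S (S (F 1 L) (F 1 L)) (F 1 L)) (K 2)) (F 9 (T (S L L) L))) (U (T (S L (F 9 L)) (K 2)) (F 9 (S (S L L) L)))))))
noncomputable def v17_13 : Tr := (S (T (U (V (S (T (V (U (S (F 514 L) (F 515 L)) (F 514 L)) (S (F 514 L) (F 514 L))) (V (F 514 L) (F 514 L))) (T (V (S (F 514 L) (F 515 L)) (F 514 L)) (S (F 514 L) (F 515 L)))) (V (S (U (K 3) (S (F 514 L) (F 546 L))) (T (F 514 L) (F 547 L))) (K 3))) (V (T (S (V (S (F 514 L) (F 515 L)) (F 514 L)) (S (F 514 L) (F 514 L))) (S (F 514 L) (F 515 L))) (T (S (S (F 514 L) (F 514 L)) (F 514 L)) (F 546 (S (S L (F 64 L)) (F 64 L)))))) (F 546 (V (U (S (T (T L (S (F 64 L) (F 64 L))) (F 64 L)) (T (S (F 64 L) (F 64 L)) (F 65 L))) (T (S (S (F 64 L) (F 65 L)) (F 65 L)) (F 64 L))) (U (S (T (S (F 64 L) (F 72 L)) (F 72 L)) (S (F 64 L) (F 64 L))) (S (S (F 64 L) (F 64 L))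 (F 64 L)))))) (F 515 (T (U (V (T (S (V (S L L) L) (S L L)) (S (S L (F 8 L)) L)) (T (S (S L (F 8 L)) L) (S (F 8 L) (F 8 L)))) (V (T (S (S L (F 1 L)) L) (S (F 8 L) (F 9 L))) (T (S L (F 8 L)) (F 9 (S L L))))) (V (U (T (S (F 8 L) (F 9 L)) (K 2)) (T (F 8 L) (F 9 L))) (U (S (S (F 8 L) (F 24 L)) (F 8 L)) (F 9 (S L (F 4 L))))))))
noncomputable def v17_14 : Tr := (V (S (T (V (F 770 (U (S (T (V L L) L) (T (S L (F 64 L)) (F 64 L))) (S (T L (F 68 L)) (S (F 64 L) (F 64 L))))) (U (S (T (S (F 514 L) (F 770 L)) (F 770 L)) (F 770 (T (S L (F 64 L)) (F 64 L)))) (F 770 (S (T L (F 68 L)) (S (F 64 L) (F 64 L)))))) (F 803 (V (U (S (T L L) L) (S L L)) (U (S (S L L) L) (S L L))))) (F 771 (T (V (U (T (S L L) (S (F 4 L) (F 4 L))) (S L L)) (U (T (S L L) L) (S L (F 4 L)))) (V (U (S (F 4 L) (F 4 L)) (F 4 L)) (U (S (F 4 L) (F 4 L)) (F 4 L)))))) (S (T (V (S (U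 (V (F 514 L) (F 514 L)) (F 770 (S L L))) (F 515 (U (T L (F 8 L)) (S (F 1 L) (F 1 L))))) (U (S (T (F 514 L) (F 547 L)) (F 515 (T L (F 9 L)))) (S (F 546 (T L (F 65 L))) (F 771 (T L (F 4 L)))))) (F 547 (V (U (S (S (F 1 L) (F 1 L)) (F 1 L)) (S (F 1 L) (F 1 L))) (U (S L (F 1 L)) (S (F 1 L) (F 1 L)))))) (F 515 (T (V (U (T (S (F 1 L) (F 9 L)) (F 1 L)) (S (F 1 L) (F 9 L))) (U (T L (F 8 L)) (F 9 (S L L)))) (F 9 (V (U (S L L) L) (U L L)))))))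
noncomputable def v17_15 : Tr := (U (V (T (S (V (U (T (S (F 1 L) (F 513 L)) (F 1 L)) (S (F 1 L) (F 513 L))) (U (S (F 1 L) (S (F 513 L) (F 513 L))) (T (F 513 L) (F 513 L)))) (V (S (F 1 L) (F 513 L)) (U (S (F 513 L) (F 515 L)) (F 513 L)))) (S (V (U (S (F 1 L) (F 3 L)) (F 3 L)) (S (U (F 513 L) (F 515 L)) (T (F 513 L) (F 515 L)))) (V (U (F 3 L) (F 771 L)) (F 515 (U L (F 1 L)))))) (T (S (V (U (T (S (F 513 L) (F 515 L)) (F 513 L)) (S (F 513 L) (F 515 L))) (U (S (F 513 L) (F 515 L)) (F 513 L))) (V (T (S (F 513 L) (F 515 L)) (F 515 (S L L))) (S (F 513 L) (F 515 L)))) (S (V (T (S (F 513 L) (F 515 L)) (F 515 (S L L))) (T (F 513 L) (F 515 (S L L)))) (F 515 (V (S L L) (S L L)))))) (V (T (S (V (T (F 513 L) (F 769 (S L (F 64 L)))) (T (F 513 L) (F 513 L))) (U (S (F 513 L) (F 515 L)) (F 769 L))) (F 515 (S (V (U L (F 1 L)) (S L L)) (V (F 1 L) (F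 1 L))))) (T (S (V (S (F 513 L) (F 513 L)) (S (F 513 L) (F 515 L))) (S (F 513 L) (F 515 L))) (F 515 (S (V (S L (F 1 L)) (S L (F 1 L))) (S L (F 1 L)))))))
noncomputable def v17_16 : Tr := (S (T v17_15 (U (V (T (S (V (U (F 3 L) (F 515 L)) (F 515 (S (T L (F 1 L)) L))) (F 515 (V (S L (F 1 L)) L))) (F 515 (S (V (S L (F 1 L)) (S L (F 1 L))) (V (F 1 L) (F 1 L))))) (F 515 (T (S (V (T L L) (S L L)) (V L L)) (S (V (S (F 1 L) (F 1 L)) L) (S L (F 1 L)))))) (F 515 (V (T (S (V (S (F 1 L) (F 1 L)) (S (F 1 L) (F 1 L))) (S (F 1 L) (F 1 L))) (S (S (F 1 L) (F 1 L)) (F 1 L))) (T (S (T L L) L) (S L (F 1 L))))))) (F 515 (T (U (V (S (T (V (S L (F 64 L)) (S L (F 64 L))) (V (S (F 1 L) (F 65 L)) L)) (F 65 (U (K 4) (T L L)))) (T (S (V (S L (F 64 L)) L) (S L (F 64 L))) (S (T L L) L))) (V (S (T (T (F 1 L) (F 1 L)) (F 1 L)) (F 65 (T L L))) (T (S L (F 65 L))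 (S (F 1 L) (F 65 L))))) (V (T (U (S (T (F 1 L) (F 1 L)) (F 65 (S L (K 4)))) (F 65 (S L L))) (U (S (F 1 L) (K 1)) (F 1 L))) (U (T (S L (F 64 L)) (S (F 1 L) (F 65 L))) (T (S (F 1 L) (F 65 L)) (F 1 L)))))))
noncomputable def v17_17 : Tr := (S (T (U (V (T (S (V (U (S (F 513 L) (F 515 L)) (F 513 L)) (S (F 513 L) (F 515 L))) (F 515 (V (S L L) (S L (F 64 L))))) (F 515 (S (V (U L L) (S L L)) (V L L)))) (V (T (S (S (F 513 L) (F 515 L)) (F 515 L)) (F 515 (S (S L L) L))) (K 3))) (V (T (S (V (F 513 L) (F 513 L)) (F 515 (V L L))) (F 515 (S (V L L) L))) (T (S (T (F 513 L) (F 515 L)) (F 515 (S L (F 64 L)))) (F 515 (S (S L L) L))))) (F 515 (V (U (T (S (V (S L L) L) (S L L)) (S (S L L) L)) (T (S (S L (F 1 L)) (F 1 L)) (S L (F 1 L)))) (U (T (S (S L L) L) (S L (F 16 L))) (T (S L (F 1 L)) (S (F 1 L) (F 1 L))))))) (F 515 (T (V (T (U (S (T L L) L) (S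 L (F 65 L))) (U (V (S (F 64 L) (F 65 L)) L) L)) (U (T (S L (F 64 L)) (S L (F 80 L))) (T L L))) (V (U (T (S L (F 64 L)) (S (F 1 L) (F 65 L))) (S L (F 1 L))) (U (T (S (F 16 L) (F 80 L)) L) (S L (F 65 L)))))))
noncomputable def v17_18 : Tr := (V (S (T (V (F 769 (U (T (S (V L L) (S L (F 64 L))) (S (S L (F 64 L)) (F 64 L))) (S (T L (F 64 L)) (S (F 64 L) (F 64 L))))) (U (T (S (S (F 513 L) (F 769 L)) (F 771 (S L L))) (F 771 (S (V L L) L))) (F 769 (T (S L (F 64 L)) (S (F 64 L) (F 96 L)))))) (F 771 (V (U (S (T (S L L) L) (S L L)) (T L L)) (U (T (S L L) (S L (F 32 L))) (S L L))))) (F 771 (T (V (U (S (T (F 32 L) (F 32 L)) (F 32 L)) (S (F 32 L) (F 32 L))) (U (S (T (F 32 L) (F 32 L)) (S (F 32 L) (F 32 L))) (S (F 32 L) (F 32 L)))) (V (U (S (F 32 L) (F 32 L)) (F 32 L)) (T (S L (F 32 L)) L))))) (S (T (V (U (T (S (S (F 513 L) (F 515 L)) (F 515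 L)) (F 515 (S L (F 1 L)))) (F 769 (S (T L (F 64 L)) (S (F 64 L) (F 64 L))))) (F 515 (U (T (S (S L L) L) (S L (F 1 L))) (T (S L (F 65 L)) (S (F 1 L) (F 65 L)))))) (F 771 (V (U (T (S L (F 32 L)) (S L (F 32 L))) (S L L)) (U (T (S L L) L) (S L L))))) (F 515 (T (V (T (S (T (F 1 L) (F 1 L)) (F 65 L)) (S (F 1 L) (F 65 L))) (U (S L (F 65 L)) (F 65 (S L L)))) (V (U (S (F 1 L) (F 65 L)) (F 65 L)) (U (S (F 1 L) (F 73 L)) (F 65 L)))))))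
noncomputable def v17_19 : Tr := (U (V (S (T (V (U (T (S (V (F 1 L) (F 1 L)) (S (F 1 L) (F 1 L))) (S (S (F 1 L) (F 1 L)) (F 1 L))) (T (S (F 1 L) (F 65 L)) (F 9 (S L L)))) (U (T (S (S L (F 1 L)) L) (S (F 1 L) (F 9 L))) (S (T (F 1 L) (F 9 L)) (F 1 L)))) (F 9 (V (U (T (S L L) (K 3)) (S L (F 1 L))) (U (F 23 (S (K 0) (K 0))) (S L (F 1 L)))))) (T (V (T (U (S (F 1 L) (K 1)) (F 65 L)) (S (F 1 L) (F 65 L))) (U (T (S (F 1 L) (F 65 L)) (F 1 L)) (S (F 1 L) (F 73 L)))) (F 73 (V (U (F 11 (S (K 0) (K 0))) L) (U (K 2) L))))) (S (T (V (U (T (S L (F 1 L)) L) (S L (F 1 L))) (T (U (S (F 8 L) (F 24 L)) (F 8 L)) (U (F 8 L) (F 9 L)))) (V (F 9 (U (K 3) L)) (U (F 8 L) (F 9 L)))) (T (V (U (S L (F 9 L)) (F 1 L)) (F 9 (U (S L (F 4 L)) L))) (F 9 (U (K 3) (S L (F 1 L))))))) (V (S (T (V (U (S (F 1 L) (F 9 L)) (F 1 L)) (U (S (F 1 L) (F 9 L)) (F 1 L))) (F 9 (V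 (S L L) (S L L)))) (T (V (S (F 1 L) (F 65 L)) (S (F 1 L) (F 65 L))) (F 9 (V (S (F 1 L) (F 1 L)) L)))) (T (S (V (F 9 (U (S L L) L)) (T (S (F 1 L) (F 9 L)) (F 9 (S L (F 4 L))))) (F 9 (V (S L (F 1 L)) (S L (F 1 L))))) (F 9 (S (U (S L L) L) (T L (F 1 L)))))))
noncomputable def v17_20 : Tr := (S (T (V (U (S (T (V (S (F 512 L) (F 512 L)) (S (F 512 L) (F 512 L))) (V (S (F 512 L) (F 514 L)) (F 512 L))) (T (V (S (F 512 L) (F 512 L)) (F 512 L)) (V (F 512 L) (F 512 L)))) (S (T (S (F 512 L) (F 512 L)) (S (F 512 L) (F 512 L))) (T (S (F 512 L) (F 512 L)) (S (F 512 L) (F 514 L))))) (U (K 3) (S (T (S (F 512 L) (F 512 L)) (S (F 512 L) (F 528 L))) (T (S (F 512 L) (F 528 L)) (F 512 L))))) (V (U (T (S (S (F 512 L) (F 512 L)) (S (F 512 L) (F 514 L))) (S (S (F 514 L) (F 514 L)) (F 514 L))) (T (S (F 512 L) (F 514 L)) (S (F 514 L) (F 515 L)))) (U (F 530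 (T (K 4) (S (K 4) L))) (S (T (S (F 514 L) (F 514 L)) (F 546 L)) (S (F 514 L) (F 515 L)))))) (T (U (V (T (S (S (F 512 L) (F 512 L)) (S (F 513 L) (F 515 L))) (S (S (F 512 L) (F 514 L)) (F 515 (S L L)))) (F 531 (S (K 4) (T (K 4) (S (K 4) L))))) (V (T (S (F 512 L) (F 513 L)) (S (F 514 L) (F 515 L))) (T (S (F 512 L) (F 515 L)) (F 515 (V (S (F 1 L) (F 17 L)) L))))) (F 515 (V (U (T (S (S L L) L) (S L (F 1 L))) (T (S L (F 1 L)) L)) (U (U (K 5) (S L (F 16 L))) (S (S L (F 16 L)) (F 16 L)))))))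
noncomputable def v17_21 : Tr := (T (U (V (S (T (K 3) (U (K 3) (V (S (K 3) (T (K 3) (S (F 514 L) (F 515 L)))) (K 3)))) (F 515 (T (U (K 5) (V (S (K 5) (T (K 5) (V L (K 5)))) (K 5))) (U (K 5) (V (U (K 5) (V (T L (F 8 L)) (K 5))) (K 5)))))) (K 3)) (V v17_20 (S (F 530 (T (K 4) (U (K 4) (V (U (K 4) (T L (F 72 (S L (F 16 L))))) (K 4))))) (F 515 (T (U (K 5) (V (U (K 5) (V (S L (F 17 L)) (K 5))) (K 5))) (U (K 5) (V (T (F 16 L) (F 25 (S L L))) (K 5)))))))) (U (F 546 (V (S (T (V (U (K 4) (U (K 4) (S (S L L) (S (F 64 L) (F 72 L))))) (K 4)) (U (K 4) (V (S (F 64 L) (F 72 L)) (K 4)))) (T (U (K 4) (V (S (S (F 64 L) (F 64 L)) (F 64 L)) (K 4))) (V (U (F 73 (S (K 1) L)) (F 64 L)) (F 72 (S (K 1) L))))) (K 4))) (V (S (T (V (U (S (T (F 514 L) (F 547 L)) (F 547 (T L (F 1 L)))) (F 546 (S L (S (F 64 L) (F 65 L))))) (F 547 (U (U (K 4) (S L (F 8 L))) (S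 (S L (F 8 L)) (F 8 L))))) (F 803 (V (U (S L (F 4 L)) L) (U (S (F 4 L) (F 4 L)) (S (F 4 L) (F 4 L)))))) (F 547 (T (U (V (S L (F 1 L)) (S (F 8 L) (F 9 L))) (V (S (F 1 L) (F 9 L)) (F 9 (S L L)))) (V (S (F 1 L) (F 9 L)) (F 9 (S L L)))))) (F 563 (S (U (K 3) (T (V (S L (F 1 L)) (K 3)) (V (F 1 L) (F 1 L)))) (T (U (K 3) (V (F 1 L) (K 3))) (V (S (F 1 L) (F 1 L)) (S (F 1 L) (F 1 L)))))))))
noncomputable def v17_22 : Tr := (T (U (V (S (T (U (K 5) (V (U (K 5) (T (S L (F 16 L)) L)) (K 5))) (U (K 5) (V (T (S (F 16 L) (F 16 L)) L) (K 5)))) (T (V (U (K 5) (S L (F 64 L))) (K 5)) (V (U (F 24 (S (K 1) L)) L) (F 89 (U (K 0) (S (K 0) L)))))) (K 5)) (V (S (T (V (U (T (V (S (F 1 L) (F 65 L)) L) (S L (F 1 L))) (T (S L (F 65 L)) (S (F 1 L) (F 65 L)))) (U (U (K 5) (S L (F 16 L))) (T L (F 16 L)))) (U (V (S L (F 1 L)) (S (F 16 L) (F 24 L))) (V (S (F 1 L)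 (F 9 L)) (F 1 L)))) (T (V (U (S L (F 65 L)) (F 65 (S L (F 2 L)))) (F 80 (U (S L (F 16 L)) (S (F 16 L) (F 16 L))))) (V (T (F 1 L) (F 65 L)) (F 17 (T L (F 4 L)))))) (S (U (K 5) (V (T (S (F 16 L) (F 17 L)) (F 25 (S L (F 1 L)))) (K 5))) (F 17 (T (U (K 1) (V (F 1 L) (F 5 L))) (U (F 5 (S (K 2) L)) (S (F 4 L) (F 5 L)))))))) (U (F 24 (V (S (T (V (U (S (K 1) L) (S L (F 16 L))) (K 1)) (V (S L (F 16 L)) (S (F 16 L) (F 16 L)))) (T (U (V L (K 1)) (S L (F 16 L))) (U (K 2) (F 16 L)))) (S (K 1) (T (K 1) (S (K 1) (F 16 L)))))) (F 9 (V (T (S (V (U (S (F 4 L) (F 4 L)) L) (U (F 4 L) (F 4 L))) (V (S (F 4 L) (F 5 L)) (F 4 L))) (S (V L (F 4 L)) (S (F 4 L) (F 5 L)))) (T (S (U (S (K 1) (F 4 L)) (S (F 4 L) (F 5 L))) (T (F 4 L) (F 4 L))) (S (S (F 4 L) (F 4 L)) (S (F 4 L) (F 5 L))))))))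
noncomputable def v17_23 : Tr := (V (S (T (V (T (S (U (F 768 L) (F 768 L)) (U (F 768 L) (F 768 L))) (U (S (F 768 L) (F 768 L)) (S (F 768 L) (F 770 L)))) (U (T (S (S (F 768 L) (F 768 L)) (S (F 768 L) (F 768 L))) (S (S (F 768 L) (F 768 L)) (F 768 L))) (S (T (F 768 L) (F 768 L)) (T (F 768 L) (F 770 L))))) (V (T (U (S (F 768 L) (F 770 L)) (F 768 L)) (F 770 (U (S L (F 64 L)) L))) (U (T (S (F 768 L) (F 770 L)) (F 770 (S L (F 64 L)))) (F 770 (T (S L (F 64 L)) L))))) (T (S (V (U (T (F 768 L) (F 769 L)) (S (F 768 L) (F 769 L))) (U (T (F 768 L) (F 769 L)) (S (F 768 L) (F 769 L)))) (F 769 (V (U (T L (F 64 L)) (S L (F 64 L))) (T (V L L) (V (F 64 L) (F 64 L)))))) (F 771 (V (U (S (T L L) L) (S L L)) (U (T (S L L) L) (S L L)))))) (S (T (V (U (S (T (S (F 768 L) (F 768 L)) (S (F 768 L) (F 768 L))) (T (S (F 768 L) (F 768 L)) (F 768 L))) (T (S (F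 768 L) (F 768 L)) (S (F 768 L) (F 770 L)))) (U (S (T (S (F 768 L) (F 768 L)) (S (F 768 L) (F 768 L))) (T (S (F 768 L) (F 768 L)) (F 768 L))) (S (T (F 768 L) (F 768 L)) (T (F 768 L) (F 770 L))))) (V (U (T (S (F 768 L) (F 770 L)) (F 770 (S L (F 64 L)))) (F 770 (T (S L (F 64 L)) L))) (F 770 (U (S (T (S L L) L) (T L (F 64 L))) (T (S L (F 64 L)) L))))) (T (V (S (U (T (F 768 L) (F 769 L)) (S (F 768 L) (F 769 L))) (F 769 (U (T L (F 64 L)) (T (F 64 L) (F 64 L))))) (U (S (T (S (F 768 L) (F 769 L)) (F 769 L)) (F 769 (T L (F 64 L)))) (F 769 (T (S L (F 64 L)) (S (F 64 L) (F 64 L)))))) (F 771 (V (U (T (S L L) L) (S L L)) (U (S (T L (F 4 L)) L) (S L (F 4 L))))))))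
noncomputable def v17_24 : Tr := (V (S (T (V (U (T (S (F 768 L) (F 769 L)) (F 768 L)) (S (F 768 L) (F 768 L))) (U (S (S (F 768 L) (F 768 L)) (S (F 768 L) (F 768 L))) (S (F 768 L) (F 768 L)))) (V (S (T (F 768 L) (F 770 L)) (F 770 (T L (F 64 L)))) (F 770 (U (S L (F 64 L)) (S L (F 64 L)))))) (F 769 (T (V (U (S L (F 64 L)) (S L (F 64 L))) (U (S L (F 64 L)) (S L (F 64 L)))) (V (U (S (F 64 L) (F 96 L)) (F 64 L)) (U (S (F 64 L) (F 68 L)) (F 64 L)))))) (S (T (V (U (S (T (F 768 L) (F 770 L)) (S (F 768 L) (F 768 L))) (T (S (F 770 L) (F 769 L)) (F 768 L))) (U (S (T (F 768 L) (F 770 L)) (S (F 768 L) (F 768 L))) (S (S (F 768 L) (F 768 L)) (F 768 L)))) (F 770 (V (U (S L (F 64 L)) (S L (F 64 L))) (U (S (S L (F 64 L)) (F 64 L)) (S L (F 64 L)))))) (F 769 (T (V (U (T L (F 64 L)) (T (F 64 L) (F 64 L))) (U (T L (F 64 L)) (V (F 64 L) (S (F 64 L) (F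 96 L))))) (V (U (S (F 64 L) (F 68 L)) (F 64 L)) (U (S (F 64 L) (F 68 L)) (F 64 L)))))))
noncomputable def v17_25 : Tr := (T (U (V (S (T (V (U (T (S L (F 32 L)) L) (S L (F 32 L))) (U (T (S L (F 32 L)) L) (S L (F 32 L)))) (V (T (S L (F 32 L)) L) (U (S L (F 32 L)) L))) (T (V (T (F 32 L) (F 32 L)) (S L (F 32 L))) (V (S (F 32 L) (F 32 L)) (S (F 32 L) (F 32 L))))) (S (T (V (U (T (S L (F 32 L)) L) (S L (F 32 L))) (U (T (S L (F 32 L)) L) (S L (F 32 L)))) (V (U (S L (F 32 L)) L) (U (S L (F 4 L)) L))) (T (V (S L (F 32 L)) (S L (F 32 L))) (V (S (F 32 L) (F 36 L)) L)))) (V (T (S (V (T L L) (T L L)) (V (F 32 L) (F 32 L))) (S (V (S L (F 32 L)) (S L (F 32 L))) (T (F 32 L) (F 32 L)))) (S (T (V (U L (F 32 L)) (U L (F 32 L))) (V L (S L (F 32 L)))) (T (V (F 32 L) (S (F 32 L) (F 32 L))) (S L (F 32 L)))))) (U (V (S (T (V (S (F 4 L) (F 4 L)) (S (F 4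 L) (F 4 L))) (S (F 4 L) (F 4 L))) (T (S L (F 32 L)) (F 36 (S L L)))) (T (S (V (S (F 4 L) (F 4 L)) (S (F 4 L) (F 4 L))) (T L (F 36 L))) (S (S (F 4 L) (F 4 L)) (F 4 L)))) (V (S (T (S L (F 4 L)) (F 4 L)) (T (F 32 L) (F 36 L))) (T (S (T L (F 4 L)) (F 36 (S L L))) (S (F 4 L) (F 36 L))))))
noncomputable def v17_26 : Tr := (V (S (T (V (U (S (T (S (F 768 L) (F 768 L)) (F 512 L)) (T (F 512 L) (F 768 L))) (S (T (S (F 768 L) (F 768 L)) (F 768 L)) (T (F 768 L) (F 770 L)))) (U (S (T (S (F 768 L) (F 768 L)) (F 512 L)) (T (F 512 L) (F 514 L))) (T (S (S (F 768 L) (F 768 L)) (F 768 L)) (S (F 768 L) (F 769 L))))) (V (U (T (S (F 768 L) (F 770 L)) (F 770 (S L (F 64 L)))) (F 770 (T (S L (F 64 L)) (S (F 4 L) (F 68 L))))) (S (U (U (F 514 L) (F 770 L)) (F 770 (S L L))) (F 770 (U (T L (F 68 L)) (S (F 64 L) (F 64 L))))))) (T (V (U (T (S (F 768 L) (F 769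 L)) (F 771 (U (S L L) (S L (F 8 L))))) (F 769 (T (S L (F 64 L)) (S (F 64 L) (F 64 L))))) (U (T (S (F 768 L) (F 771 L)) (F 515 (U L (F 1 L)))) (F 769 (S (T L (F 64 L)) (S (F 64 L) (F 64 L)))))) (F 771 (V (U (T (S L (F 4 L)) L) (S L (F 4 L))) (U (S L (F 4 L)) (S L (F 4 L))))))) (S (T (V (U (S (V (S (F 512 L) (F 528 L)) (F 784 (T L L))) (F 784 (T (S L L) (S L (F 32 L))))) (T (S (F 768 L) (F 769 L)) (F 770 (S L (F 64 L))))) (F 784 (U (U (K 3) (T L (F 36 (S L (F 1 L))))) (T (S L (F 64 L)) (S (F 32 L) (F 96 L)))))) (F 786 (U (V (T (S (S L L) (S (F 32 L) (F 32 L))) (S (F 4 L) (F 36 L))) (U (K 3) (S (F 4 L) (F 36 L)))) (V (T (S L (F 32 L)) (F 36 (S L L))) (S (S (F 4 L) (F 36 L)) (F 36 L)))))) (F 769 (T (U (V (S (T (S (F 8 L) (F 72 L)) (F 72 (S L L))) (F 72 (T L L))) (F 72 (U (K 1) (S L (F 4 L))))) (V (S (T (F 64 L) (F 72 L)) (F 72 (S L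 L))) (F 72 (T (S L (F 1 L)) L)))) (F 72 (U (V (T L (F 4 L)) (S (F 4 L) (F 4 L))) (V (S (F 4 L) (F 4 L)) (F 4 L))))))))
noncomputable def v17_27 : Tr := (V (S (T (V (U (T (S (F 768 L) (F 769 L)) (F 770 (S L L))) (S (S (F 768 L) (F 768 L)) (F 768 L))) (U (S (T (F 768 L) (F 770 L)) (T (F 768 L) (F 771 L))) (S (S (F 768 L) (F 768 L)) (S (F 769 L) (F 770 L))))) (F 770 (V (U (S L (F 64 L)) (S (F 64 L) (F 64 L))) (S (U L (F 4 L)) (U (F 64 L) (F 68 L)))))) (F 771 (T (V (U (T (S L (F 32 L)) L) (T L L)) (U (T (S L (F 32 L)) L) (S L L))) (V (U L L) (U (S (F 4 L) (F 12 L)) (F 4 L)))))) (U (V (T (S (T (S (F 768 L) (F 769 L)) (F 770 (S L (F 72 L)))) (F 771 (T L (F 8 L)))) (F 802 (S (S L (F 32 L)) (F 32 L)))) (F 784 (S (T (S (S L (F 32 L)) (F 96 (T L (F 4 L)))) (F 100 (U (S L L) L))) (F 96 (T (S L (F 1 L)) (F 4 L)))))) (V (T (S (S (F 768 L) (F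 770 (S L (F 64 L)))) (F 771 (S L (F 8 L)))) (F 803 (S (S L L) L))) (F 786 (S (T (S (S L L) (S (F 32 L) (F 32 L))) (F 36 (S L L))) (T (F 32 L) (F 36 L)))))))
noncomputable def v17_28 : Tr := (T (U (V (S (T (V (U (T L L) (S L (F 32 L))) (U (T L (F 8 L)) (S L (F 32 L)))) (V (U L (F 4 L)) (S L (F 8 L)))) (T (V (S L (F 32 L)) (S L (F 40 L))) (V L (F 4 L)))) (T (S (U (V (S (F 8 L) (F 40 L)) (F 8 L)) (V (F 8 L) (F 40 L))) (F 40 (U (T L (F 2 L)) (S L (F 2 L))))) (F 12 (S (U (V L (F 1 L)) (S L (F 1 L))) (V L (F 1 L)))))) (V (T (S (V (U L (F 32 L)) (U L (F 32 L))) (U (S (F 32 L) (F 40 L)) (F 32 L))) (S (U (S L (F 4 L)) (S (F 4 L) (F 36 L))) (S (F 32 L) (F 36 L)))) (T (S (U (V (F 32 L) (F 44 L)) (S (F 8 L) (F 40 L))) (F 40 (U L (F 2 L)))) (F 12 (S (U (S L (F 1 L)) L) (S L (F 1 L))))))) (U (V (T (S (U (F 12 (S L L)) (F 4 L)) (S (F 4 L) (F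 12 L))) (F 12 (S (S L L) L))) (F 12 (T (S (V L L) L) (S (S L L) L)))) (V (T (S (S (F 4 L) (F 12 L)) (F 36 L)) (S (F 4 L) (F 44 L))) (F 12 (S (T (S L L) L) (F 1 (T L L)))))))
noncomputable def v17_29 : Tr := (V (S (T (U v17_23 v17_24) (F 770 (U (V (S (T (V (U (S (S (F 64 L) (F 64 L)) (F 64 L)) (F 68 (S L L))) (U (S L (F 64 L)) (S (F 64 L) (F 68 L)))) (F 68 (V (S L L) (S L L)))) (T (V (F 68 (U (S L L) L)) (U (F 64 L) (F 68 L))) (F 68 (V L L)))) (S (T (V (U (S (S (F 4 L) (F 68 L)) (F 68 L)) (F 68 (S L L))) (U (S (F 4 L) (F 68 L)) (F 68 (S L L)))) (F 68 (V (S L L) (S L L)))) (T (V (U (F 64 L) (F 68 L)) (F 68 (T (S L L) L))) (F 68 (V L L))))) (V (T (S (V (S (F 64 L) (F 64 L)) (F 68 (U (S L L) L))) (T (S (F 64 L) (F 64 L)) (F 64 L))) (F 68 (S (V L L) (S L L)))) (F 68 (S (T (V (U L L) (U (S L L) L)) (V L L)) (T (V (S L L) (S L L)) (S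 L L)))))))) (F 771 v17_25)) (S (T (U v17_26 v17_27) (F 802 (U (V (S (T (V (U (S (S L (F 32 L)) (F 32 L)) (S (F 32 L) (F 32 L))) (U (S (F 32 L) (F 36 L)) (S (F 32 L) (F 36 L)))) (U (S (F 32 L) (F 36 L)) (S (F 32 L) (F 36 L)))) (T (V (U (F 32 L) (F 32 L)) (U (F 32 L) (F 36 L))) (V (F 32 L) (F 36 L)))) (F 36 (T (S (U (V (S L L) (S L L)) (V (S L L) L)) (U (S L L) (S L L))) (S (U (S L L) L) (S L L))))) (V (S (T (V (U (F 32 L) (F 32 L)) (U (F 32 L) (F 32 L))) (V (F 32 L) (F 32 L))) (T (U (S (F 32 L) (F 36 L)) (F 32 L)) (S (F 32 L) (F 36 L)))) (S (T (V (S (F 32 L) (F 32 L)) (F 36 (U L L))) (F 36 (V L L))) (F 36 (T (U L L) (S L L)))))))) (F 771 v17_28)))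
noncomputable def v17_30 : Tr := (S (T (U (V (S (T (U (K 2) (V (S (F 1 L) (F 1 L)) (S (F 1 L) (F 1 L)))) (K 2)) (U (K 2) (T (V (S (F 1 L) (F 1 L)) (F 1 L)) (K 2)))) (S (T (V (U (S L (K 2)) (S (F 1 L) (F 1 L))) (U (S L (K 2)) (F 9 (S L L)))) (V (K 2) (S (F 1 L) (K 2)))) (U (K 2) (T (V (F 1 L) (F 9 L)) (K 2))))) (V (T (S (V (S (F 1 L) (F 1 L)) (S (F 1 L) (F 1 L))) (V (S (F 1 L) (F 1 L)) (F 1 L))) (S (V (F 1 L) (F 1 L)) (S (F 1 L) (F 1 L)))) (S (T (V (S (F 1 L) (F 1 L)) (S (F 1 L) (F 1 L))) (V (F 1 L) (F 1 L))) (T (V (F 1 L) (F 1 L)) (S (F 1 L) (F 9 L)))))) (U (K 2) (V (T (U (K 2) (S (F 1 L) (F 33 L))) (K 2)) (S (T (F 9 (S L L)) (F 1 L)) (T (F 1 L) (K 2)))))) (T (U (V (S (U (K 2) (T (S (F 1 L) (K 2)) (K 2))) (F 59 (S (K 0) (K 0)))) (K 2)) (V (S (T (V (F 1 L) (F 1 L)) (S (F 1 L) (F 33 L))) (T (S (F 1 L) (F 33 L)) (F 33 (S L L)))) (T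 (S (S (F 1 L) (F 1 L)) (F 1 L)) (S (F 1 L) (F 33 L))))) (F 33 (U (K 2) (U (K 2) (T (V L (F 2 L)) (K 2)))))))
noncomputable def v17_31 : Tr := (V (S (T (U (V (T (S (S (F 1 L) (F 1 L)) (S (F 1 L) (F 1 L))) (S (F 1 L) (F 1 L))) (S (T (V (F 1 L) (F 1 L)) (S (F 1 L) (F 9 L))) (T (S (F 1 L) (F 1 L)) (F 1 L)))) (V (T (S (F 1 L) (F 1 L)) (S (F 1 L) (F 33 L))) (S (T (S (F 1 L) (F 1 L)) (F 1 L)) (T (F 1 L) (F 9 L))))) (U (V (T (S (F 1 L) (F 1 L)) (S (F 1 L) (F 33 L))) (S (T (F 1 L) (F 9 L)) (S (F 1 L) (F 1 L)))) (V (T (S (F 1 L) (F 33 L)) (F 1 L)) (S (S (F 1 L) (F 1 L)) (S (F 1 L) (F 9 L)))))) (T (U (V (S (T (F 1 L) (F 33 L)) (F 33 (T L L))) (T (S (F 1 L) (F 33 L)) (F 9 (S L (F 1 L))))) (V (S (S (F 1 L) (F 33 L)) (F 33 (S L L))) (F 33 (T (S L (F 2 L)) (S L (F 2 L)))))) (F 33 (U (V (T (S L L) (S L (F 2 L))) (F 2 (T (S L L) (S L L)))) (V (T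 L L) (T L (F 2 L))))))) (S (T (U (V (S (T (S (F 1 L) (F 9 L)) (F 9 (S L L))) (F 9 (T (S L L) L))) (F 9 (S (T (S L L) L) (T L L)))) (V (S (T (F 1 L) (F 9 L)) (F 9 (T L L))) (F 9 (S (T L (F 8 L)) (T L L))))) (F 9 (U (V (S (T L L) (T L L)) (S (S (F 8 L) L) (S L L))) (V (S (S L L) (S L L)) (S L (S (F 8 L) L)))))) (F 9 (T (U (V (T (S L (F 1 L)) (S L (F 1 L))) (T (S L (F 1 L)) (S L (F 1 L)))) (V (T (S L (F 1 L)) (F 1 (S L L))) (T (S L (F 1 L)) (F 1 (S L L))))) (U (V (T (S L (F 1 L)) (F 1 (S L L))) (T (S L (F 1 L)) (S L (F 1 L)))) (V (T L (F 1 (S L L))) (F 1 (T (S L L) (S L L)))))))))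
noncomputable def v17_32 : Tr := (T (U (V (S (T (U v17_7 v17_10) (U (V v17_12 v17_13) v17_14)) (T (U (V v17_16 v17_17) v17_18) (F 515 v17_19))) (S v17_21 (F 515 v17_22))) v17_29) (F 547 (U (V v17_30 (S (T (U (V (S (T (V (U (F 9 (S L L)) (F 8 L)) (S (F 8 L) (F 9 L))) (F 9 (U (K 2) (S L L)))) (F 9 (T (V (S L L) (S L L)) (V (K 2) L)))) (F 9 (S (K 1) (T (K 1) (S L L))))) (V (S (F 9 (T (V (S L L) (S L L)) (S L L))) (T (V (F 1 L) (F 9 L)) (F 9 (S L L)))) (F 9 (S (T (V L L) (S (F 8 L) L)) (T (S L L) L))))) (F 9 (U (V (K 2) (S (F 8 (T (S L L) (S L (K 0)))) (T (S L (K 2)) (K 2)))) (V (S (T (S L L) L) (T L L)) (S (T L (F 8 L)) (T L L)))))) (F 9 (T (U (V (T (S (U (K 2) L) (K 2)) (K 2)) (T (V (S L (F 1 L)) (K 1)) (S (S L (K 2)) (K 2)))) (V (T (S (S L L) L) (S L (F 1 L))) (T (S L L) (S L L)))) (U (K 2) (V (T (S L (F 1 L)) (K 2)) (T (S L L)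 (S (S (F 8 L) L) (K 2))))))))) v17_31)))
noncomputable def v17_33 : Tr := (T (U (V (S (T (V (U (K 1) (T (F 1 L) (F 1 L))) (U (F 61 (T (K 0) (K 0))) (T (F 1 L) (F 1 L)))) (U (K 1) (V (S (F 1 L) (F 1 L)) (S (F 1 L) (F 9 L))))) (F 61 (T (K 0) (K 0)))) (S (T (V (U (T (S (F 1 L) (K 1)) L) (T (F 1 L) (F 1 L))) (U (T L (F 1 L)) (S (F 1 L) (F 17 L)))) (V (U (F 61 (T (K 0) (K 0))) (S (F 1 L) (F 9 L))) (T (S (F 1 L) (F 17 L)) (F 1 L)))) (U (K 1) (T (T (F 1 L) (F 1 L)) (S (F 1 L) (F 17 L)))))) (V (S (T (V (T (F 1 L) (F 1 L)) (T (F 1 L) (F 1 L))) (V (S (F 1 L) (F 1 L)) (S (F 1 L) (F 1 L)))) (T (V (F 1 L) (F 1 L)) (T (F 1 L) (F 1 L)))) (T (S (V (T (F 1 L) (F 1 L)) (T (F 1 L) (F 1 L))) (V (F 1 L) (F 1 L))) (S (V (S (F 1 L) (F 9 L)) (S (F 1 L) (F 9 L))) (T (F 1 L) (F 9 L)))))) (U (F 9 (V (S (T (U (K 3) (V L L)) (U (K 3) (S L L))) (F 7 (T (K 0)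 (K 0)))) (S (T (V (T (S L L) L) (T L (F 2 L))) (U (K 2) L)) (T (U (K 3) L) (F 2 (V L L)))))) (V (T (S (V (F 1 L) (F 1 L)) (S (F 1 L) (F 9 L))) (F 9 (S (S L L) (S L L)))) (T (S (T (F 1 L) (F 9 L)) (F 9 (S L (F 2 L)))) (F 9 (S (S L (F 2 L)) (F 2 L)))))))
noncomputable def v17_34 : Tr := (S (T (U (V (S (T (F 161 (V (U (F 17 (S (K 0) L)) L) (S (K 5) (F 16 L)))) (F 164 (V (U (F 32 L) (F 41 L)) (S (F 8 L) (F 41 L))))) (F 421 (T (V (T L L) (S L (F 4 L))) (F 4 (V (S L L) L))))) (F 429 (T (K 2) (S (K 2) (S (K 2) L))))) (F 417 (V (T (S (V (S L (F 8 L)) (T (F 8 L) (F 12 L))) (T (F 8 L) (F 8 L))) (S (V L (F 12 (S L L))) (F 12 (S L L)))) (T (S (V (S (F 8 L) (F 12 L)) (F 12 (S L L))) (F 12 (T L L))) (F 12 (S (V L L) L)))))) (F 429 (U (V (T (S (V (S L L) L) (S L L)) (U (K 1) (S L L))) (T (U (K 2) (S L L)) (U (K 1) (S L L)))) (V (T (U (S L L)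 L) (S L L)) (T (U (S L L) L) (S L L)))))) (F 429 (T (U (V (T (S (V (K 0) L) (K 0)) (U (K 0) (S L (K 0)))) (T (S (S L L) L) (S L L))) (V (T (S (S L L) L) (S L L)) (T (S L L) (S L L)))) (U (V (T (S L L) (U (K 1) (S L L))) (T (S L L) (T L (K 1)))) (V (T (S L L) (S L L)) (T (S L L) (S L L)))))))
noncomputable def v17_35 : Tr := (V (S (T (U (V (T (S (V L L) (S L L)) (S (S L L) L)) (T (S (V L L) (S L L)) (S (T L L) L))) (V (T (S (S L L) L) (S L (F 4 L))) (T (S (S L L) L) (S L (F 4 L))))) (U (V (T (S L (F 4 L)) (S (F 4 L) (F 4 L))) (T (S (S (F 4 L) (F 4 L)) (F 4 L)) (F 12 (S L L)))) (V (T (S (F 4 L) (F 4 L)) (S (F 4 L) (F 12 L))) (T (S (F 4 L) (F 12 L)) (F 4 L))))) (T (U (V (T (S L L) (S (F 4 L) (F 4 L))) (T (S L (F 8 L)) (S (F 4 L) (F 12 L)))) (V (T (S L (F 4 L)) (S (F 4 L) (F 4 L))) (T (S (F 4 L) (F 4 L)) (F 12 (S L L))))) (U (V (S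 (S (F 4 L) (F 4 L)) (S (F 4 L) (F 4 L))) (F 12 (T (S L L) (S L L)))) (V (S (F 4 L) (S (F 4 L) (F 4 L))) (T (F 4 L) (F 12 (S L L))))))) (S (T (U (V (T (S (T L L) (S (F 8 L) (F 12 L))) (S (S (F 8 L) (F 12 L)) (F 12 L))) (T (S (S (F 8 L) (F 12 L)) (F 12 L)) (F 12 (U L L)))) (V (T (U L L) (S (F 4 L) (F 12 L))) (F 12 (T (U (S L L) L) (S L L))))) (F 12 (U (V (T (S L L) (S L L)) (T (S L L) (S L L))) (V (T (S L L) L) (T (S L L) L))))) (F 12 (T (U (V (T (S L L) (S L L)) (T (S L L) L)) (V (T (S L L) (S L L)) (T L L))) (U (V (T (S L L) L) (T L L)) (V (T L L) (T L L)))))))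
noncomputable def v17_36 : Tr := (V (S (F 5 (T (U (V (T (U (K 2) (S L (F 2 L))) (K 2)) (K 2)) (V (T (S L L) (S L L)) (F 2 (T (S L L) (S L L))))) (U (K 2) (U (K 2) (V (T L (F 2 (S (K 1) L))) (F 2 (T L (K 1)))))))) (T (U (F 21 (V (F 3 (S (K 0) (K 0))) (T (S (S (K 1) L) (K 2)) (K 1)))) (V (T (S (F 5 L) (F 20 (S (F 8 L) L))) (S (F 4 L) (F 20 (S L L)))) (F 20 (T (S (F 8 L) L) (S (F 8 L) L))))) (F 20 (U (F 9 (V (S (K 1) (T (S (K 1) (K 0)) (K 1))) (K 1))) (V (T (S (S L L) (F 1 (S L L))) (F 1 (S (S L L) (S L L)))) (T (S L (S L L)) (U (K 1) (S (F 8 L) (F 1 L))))))))) (F 20 (S (F 8 (T (U (K 1) (V (T (S L L) (S L L)) (T (S L L) (S L L)))) (U (K 1) (T (V (K 1) (S L (K 1))) (K 1))))) (T (U (K 1) (V (T (F 8 (S L L)) (S (F 8 L) L)) (F 8 (T (S L L) (U (K 1) L))))) (U (K 1) (V (U (K 1) (T (F 8 (S L L)) (S (K 1) L))) (F 8 (T (U (K 1) (S (K 1) L))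 (K 1)))))))))
noncomputable def v17_37 : Tr := (V (S (T (F 5 (U (V (T (S L (F 2 L)) (F 2 (S L L))) (T L (F 2 L))) (V (S L L) (S L (F 2 L))))) (U (F 20 (V (T (F 8 (S L L)) (S (F 8 L) L)) (F 8 (T (S L L) (S L L))))) (F 5 (V (T L (F 2 (S L L))) (F 2 (T L (S L L))))))) (T (U (V (S (F 5 (S L L)) (F 20 (T (F 8 L) L))) (F 21 (T (S L L) (S L L)))) (F 5 (V (S L (S L L)) (F 2 (T (S L L) (S L L)))))) (F 20 (U (V (T (S L L) (S L (F 1 L))) (T (S (F 8 L) L) (S L L))) (V (T (S (F 8 L) (F 1 L)) (F 1 (S L L))) (T (S (F 8 L) L) (S L L))))))) (S (F 17 (T (F 4 (U (V (T L L) (T (S L L) L)) (V (S L L) (T L L)))) (U (F 4 (V (T L L) (T (S L L) (S L L)))) (V (F 4 (T L L)) (T (F 4 L) L))))) (T (F 17 (U (F 4 (V (T (S L L) (S L L)) (T (S L L) (S L L)))) (V (F 4 (T L (S L L))) (T (F 4 L) L)))) (U (V (F 20 (T (S (F 8 L) L) (S L L))) (T (F 20 (S (F 8 L) L))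 (S (F 17 L) (F 16 L)))) (V (F 20 (T (S (F 8 L) L) (S (F 8 L) L))) (F 17 (T (S (F 4 L) L) (S (F 4 L) L))))))))
noncomputable def v17_38 : Tr := (T (V (U (T (S (U (V (S (F 640 L) (F 641 L)) (S (F 640 L) (F 642 L))) (V (F 640 L) (F 640 L))) (F 643 (U (V (S L (F 32 L)) (S L (F 32 L))) (V L L)))) (F 642 (S (U (V (S (F 64 L) (F 68 L)) (S (F 64 L) (F 68 L))) (S L (F 64 L))) (U (S (F 64 L) (F 64 L)) (S (F 64 L) (F 68 L)))))) (S (T (U (V (F 641 L) (F 642 L)) (F 643 (V L L))) (F 643 (U (S L L) L))) (F 643 (T (U (T L L) L) (V L L))))) (U (S (T (V (U (S (F 640 L) (F 641 L)) (F 640 L)) (U (S (F 640 L) (F 641 L)) (F 642 (S L L)))) (F 643 (V (U (S L (F 4 L)) L) (U (S L (F 4 L)) L)))) (F 643 (T (U (V (S L (F 32 L)) (S L (F 32 L))) (V L L)) (U (S L L) L)))) (T (U (S (T (S (F 640 L) (F 641 L)) (F 642 (S L (F 64 L)))) (F 643 (V L (F 32 L)))) (F 643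 (S (V L L) L))) (F 643 (S (U (S L L) (T L (F 4 L))) (U L (F 4 L))))))) (F 643 (V (U (T (S (U (S (F 4 L) (F 4 L)) (S (F 4 L) (F 4 L))) (T L (F 4 L))) (S (S (F 4 L) (F 4 L)) (F 4 L))) (T (S (V (F 4 L) (F 4 L)) (S (F 4 L) (F 36 L))) (S (F 4 L) (F 36 L)))) (U (S (T (U (S (F 4 L) (F 4 L)) (F 4 L)) (S (F 4 L) (F 4 L))) (T (V (F 4 L) (F 4 L)) (F 4 L))) (S (T (V (F 4 L) (F 4 L)) (F 4 L)) (T (S (F 4 L) (F 4 L)) (F 4 L)))))))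
noncomputable def v17_39 : Tr := (U (S v17_38 (F 643 (T (V (U (T (S (U (S L (F 32 L)) (S (F 32 L) (F 32 L))) (S (F 32 L) (F 32 L))) (S (T L L) (F 32 L))) (T (S (V (F 32 L) (F 32 L)) (F 32 L)) (S (S (F 32 L) (F 36 L)) (F 36 L)))) (U (T (S (V L (S L (F 32 L))) (T (F 32 L) (F 32 L))) (S (T L L) (F 32 L))) (S (T (S L (F 32 L)) L) (T (F 32 L) (F 36 L))))) (V (U (S (T (S (F 4 L) (F 36 L)) (F 36 L)) (F 36 (T L L))) (F 36 (T (S L L) (S L L)))) (U (T (S (S (F 4 L) (F 36 L)) (F 36 L)) (F 36 (S L L))) (F 36 (T (S L L) L))))))) (F 643 (S (T (U (V (T (U (V (S L (F 36 L)) (S L (F 36 L))) (S L (F 32 L))) (S (V (F 4 L) (F 4 L)) L)) (T (U (V L L) (S L (F 36 L))) (U (S (F 4 L) (F 36 L)) (S (F 4 L) (F 36 L))))) (V (U (T (S (F 4 L) (F 36 L)) (F 4 L)) (F 36 (S L L))) (U (S (F 4 L) (F 36 (S L L))) (F 36 (S L L))))) (U (V (T (S (F 4 L) (F 36 L)) (S (F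 4 L) (F 36 L))) (U (S (F 4 L) (F 36 L)) (S (F 4 L) (F 36 L)))) (V (S (F 4 L) (F 36 L)) (S (F 4 L) (F 36 L))))) (T (U (V (S (T (F 32 L) (F 36 L)) (S (F 32 L) (F 36 L))) (T (V (F 32 L) (F 32 L)) (F 36 (S L L)))) (V (T (F 32 L) (F 36 L)) (T (F 32 L) (F 36 L)))) (F 36 (U (V (S L L) (T L L)) (V L L)))))))
noncomputable def v17_40 : Tr := (V (U (T (U (S (V (S (F 640 L) (F 642 L)) (T (F 640 L) (F 643 (S L (F 4 L))))) (F 643 (V (S L (F 32 L)) (S L (F 32 L))))) (F 642 (S (V (S L (F 64 L)) (S L (F 64 L))) (V (F 64 L) (F 64 L))))) (F 643 (S (U (V (S L (F 4 L)) (T L (F 4 L))) (V (S (F 4 L) (F 4 L)) (S (F 4 L) (F 4 L)))) (U (T L (F 4 L)) (S (F 4 L) (F 4 L)))))) (F 642 (U (T (V (S (S L (F 64 L)) (F 96 L)) (S (S (F 64 L) (F 68 L)) (F 96 L))) (F 68 (S (V L L) (S L (F 1 L))))) (S (T (S L (F 64 L)) (F 68 (S L L))) (T (F 64 L) (F 68 L)))))) (F 642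 (U (S (U (T (V (S L (F 64 L)) (S (F 8 L) (F 72 L))) (F 68 (V (S L (F 4 L)) (S (F 4 L) (F 4 L))))) (V (T (S (F 64 L) (F 64 L)) (F 68 L)) (F 72 (T (S L (F 4 L)) (F 4 L))))) (T (U (V (F 64 L) (F 72 L)) (F 72 (T L L))) (F 76 (U (V L (F 1 L)) (S L (F 1 L)))))) (U (T (S (V (F 64 L) (F 68 L)) (F 96 (S L (F 2 L)))) (F 68 (S (S L (F 4 L)) (F 4 L)))) (F 68 (S (T L L) (T (F 1 L) (F 5 L))))))))
noncomputable def v17_41 : Tr := (S (T v17_40 (F 675 (V (U (S (T (U (S L L) (S L (F 4 L))) (S L L)) (T (V L L) L)) (T (S (V L L) (S L L)) (S L L))) (U (S (T (U (S (F 4 L) (F 4 L)) (F 4 L)) (S (F 4 L) (F 4 L))) (T (V (F 4 L) (F 4 L)) (F 4 L))) (U (T (S (F 4 L) (F 20 L)) (F 4 L)) (S (F 4 L) (F 4 L))))))) (F 643 (T (V (U (T (S (U (S L (F 32 L)) (S (F 32 L) (F 36 L))) (T (F 32 L) (F 32 L))) (S (T L (F 4 L)) (F 36 (S L L)))) (T (S (V (F 32 L) (F 32 L)) (F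 32 L)) (S (S (F 4 L) (F 36 L)) (F 36 L)))) (U (T (F 40 (S (U (S L (F 2 L)) L) (S L (F 2 L)))) (F 36 (S (V L (F 2 L)) (F 2 (S L L))))) (F 36 (U (S (V L (F 2 L)) (F 2 (S L L))) (F 2 (T (S L L) L)))))) (U (V (S (T (S (F 4 L) (F 36 L)) (F 12 L)) (S (F 4 L) (F 36 L))) (F 12 (T (S L (F 1 L)) (F 1 (S L L))))) (V (S (S (F 4 L) (F 4 L)) (F 36 (S L (F 2 L)))) (F 44 (S (T L L) (S L L))))))))
noncomputable def v17_42 : Tr := (V (U (S (T (U (V (T (S L (F 16 L)) (S L (F 16 L))) (T (S L L) (S L (F 4 L)))) (V (S (S L L) L) (T (S L (F 16 L)) L))) (U (V (S L L) (S (S L (F 4 L)) L)) (V (S L (F 16 L)) (S L L)))) (T (U (V (S L (F 16 L)) (S (S L (F 16 L)) (F 16 L))) (V (S (F 16 L) (F 16 L)) (S (F 16 L) (F 16 L)))) (U (V (S (F 16 L) (F 16 L)) (S (F 16 L) (F 20 L))) (V (S (F 16 L) (F 20 L)) (F 20 (S L L)))))) (S (T (U (V (S L (F 16 L)) (S L L)) (V L L))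 (U (V L (S (F 4 L) (F 16 L))) (S L (F 16 L)))) (U (T (V (S (F 16 L) (F 16 L)) (F 16 L)) (T (F 16 L) (F 16 L))) (T (S (F 16 L) (F 16 L)) (F 20 (S L L)))))) (U (S (T (U (V (S (T L (F 4 L)) (S L L)) (S (S (F 4 L) (F 4 L)) (S (F 4 L) (F 4 L)))) (V (S (S L L) (S (F 4 L) (F 4 L))) (T (F 5 (S L L)) (F 4 L)))) (U (V (S (S (F 4 L) (F 4 L)) (S (F 4 L) (F 4 L))) (F 5 (T (S L L) (S L L)))) (S (V (F 4 L) (F 5 L)) (V (F 4 L) (F 4 L))))) (T (U (V (F 20 (T (S L L) (S L L))) (T (F 20 (S L L)) (F 4 L))) (V (S L (F 20 L)) (S (F 4 L) (F 20 L)))) (U (V (F 20 (T L L)) (T (F 4 L) (F 20 (S L L)))) (V (S (F 4 L) (F 20 L)) (F 20 (T L L)))))) (S (U (T (V (S L (F 4 L)) (S (F 5 L) (F 4 L))) (S (F 5 (T L L)) (S (F 4 L) (F 4 L)))) (T (T (S (F 5 L) (F 20 L)) (F 4 L)) (S (F 5 L) (F 4 L)))) (U (T (T (S (F 4 L) (F 20 L)) (F 20 (S L L))) (F 20 (U (S L L) L))) (F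 20 (T (T L L) (S L L)))))))
noncomputable def v17_43 : Tr := (V (U (S (T (V (U (T (S L L) (S (F 4 L) (F 4 L))) (T (S L (F 4 L)) L)) (U (S (T L (F 4 L)) (S L L)) (T (S (F 4 L) (F 4 L)) (S (F 4 L) (F 6 L))))) (U (V (S (S (F 4 L) (F 4 L)) (F 4 L)) (T (S (F 4 L) (F 6 L)) (F 4 L))) (V (S (F 4 L) (F 4 L)) (S (F 4 L) (F 4 L))))) (T (U (V (T L L) (T (S (F 4 L) (F 6 L)) (F 4 L))) (V (S (F 4 L) (F 4 L)) (S (F 4 L) (F 4 L)))) (U (V (S (F 4 L) (F 4 L)) (S (F 4 L) (F 6 L))) (V (S (F 4 L) (F 6 L)) (F 6 (S L L)))))) (S (U (T (V (S L (F 4 L)) (T L (F 4 L))) (V (S (F 4 L) (F 4 L)) (F 4 L))) (T (V (S (F 4 L) (F 4 L)) (S (F 4 L) (F 6 L))) (S (F 4 L) (F 4 L)))) (U (T (V (S (F 4 L) (F 4 L)) (S (F 4 L) (F 6 L))) (S (F 4 L) (F 4 L))) (T (S (F 4 L) (F 4 L)) (F 6 (S L L)))))) (U (S (T (U (V (T (S L (F 6 L)) (F 6 (S L L))) (F 6 (T (S L L) (S L L)))) (V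 (T L (F 4 L)) (F 6 (U (S L L) L)))) (F 6 (U (V (T L L) (T L L)) (T (V L L) (S L L))))) (F 6 (T (U (V (T (S L L) L) (S L L)) (T (V L L) (S L L))) (U (V (S L L) (S L L)) (V (S L L) (S L L)))))) (S (U (T (V (S (F 4 L) (F 6 L)) (F 6 (S L L))) (F 6 (V (S L L) L))) (T (V (F 4 L) (F 6 L)) (F 6 (S L L)))) (F 6 (T (U (T (S L L) L) (S L L)) (U (S L L) L))))))
noncomputable def v17_44 : Tr := (V (F 20 (U (S (T (U (V (S (F 16 L) (F 16 L)) (S (F 16 L) (F 18 L))) (V (S (F 16 L) (F 18 L)) (F 16 L))) (U (V (S (F 16 L) (F 16 L)) (F 18 (T L L))) (F 18 (V (S L L) (S L L))))) (T (U (V (S (F 16 L) (F 16 L)) (F 18 (T L (S L L)))) (F 18 (V (S L L) (S L L)))) (U (V (T (S (F 18 L) (F 3 L)) (F 3 (S L L))) (T (F 18 (S L L)) (S (F 18 L) (F 3 L)))) (T (V (F 2 L) (F 18 (S L L))) (V (F 3 (S (F 1 L) L)) (F 2 L)))))) (S (U (T (S (F 16 L) (F 16 L)) (V (F 16 L)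 (F 18 L))) (F 18 (T (S L L) (S L L)))) (U (T (V (F 16 L) (F 18 (S L L))) (T (S (F 18 L) (F 3 L)) (S (F 18 L) (F 3 L)))) (T (F 18 (S L L)) (S (F 18 L) (F 3 L))))))) (F 48 (U (S (T (F 20 (U (V (S L L) (S L L)) (T (S L L) L))) (U (V (F 20 (S L L)) (S (F 16 L) (F 16 L))) (F 20 (V (S L L) (S L L))))) (T (F 20 (U (V (T L L) (T L L)) (T (S L L) (V L L)))) (U (V (T (F 20 (S L L)) (S (F 20 L) (F 4 L))) (T (F 16 L) (S (F 20 L) (F 16 L)))) (T (F 20 (V L L)) (V (F 4 L) (F 16 L)))))) (U (T (F 20 (S (S L L) (V L L))) (S (F 20 (T L L)) (T (F 20 (S L L)) (S (F 20 L) (F 4 L))))) (F 20 (T (S L (S L L)) (S L (T L L))))))))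
noncomputable def v17_45 : Tr := (U (S (F 340 v17_32) (F 12609 (T (U (V (F 161 (S v17_33 (T (U (K 1) (V (T (S (S (F 1 L) (F 1 L)) (S (F 1 L) (K 1))) (F 9 (U (K 3) (S L (K 3))))) (T (S (S (F 1 L) (F 17 L)) (F 17 (S L L))) (F 9 (S (S L (F 2 L)) (F 2 (S L L))))))) (F 9 (U (F 7 (V (K 0) (T (K 0) (T (K 0) (K 0))))) (V (S (T (S L L) L) (U (K 3) (S L (F 2 L)))) (T (S L (F 2 L)) (F 2 (S L L))))))))) v17_34) (F 417 v17_35)) (F 265 (U v17_36 v17_37))))) (F 323 (S (T (V v17_39 (U v17_41 (F 643 (S (U (T (V (U (T (S (S L L) (F 32 L)) (S (F 4 L) (F 36 L))) (T (S (F 4 L) (F 36 L)) (F 4 L))) (F 36 (U (U (S L L) L) (T L (F 2 L))))) (V (U (S (F 4 L) (F 4 L)) (S (F 5 L) (F 36 L))) (F 12 (U (S L (F 1 L)) L)))) (T (F 36 (V (U (S L L) L) (S (F 8 L) L))) (V (S (F 4 L) (F 36 L)) (F 12 (T (F 1 L) (F 8 L)))))) (U (T (V (U (T (F 32 L) (F 36 L)) (F 36 (S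 L (F 2 L)))) (F 44 (U (T L L) (S L L)))) (F 36 (V (T L (F 2 L)) (F 2 (T L L))))) (F 36 (T (V (T L L) (F 2 (S L L))) (V L (F 2 (S L L)))))))))) (F 675 v17_42)) (F 7 (T (F 5 v17_43) v17_44)))))
noncomputable def v17_46 : Tr := (S (T (U (U (K 4) (V (T (S (V (S (F 2 L) (F 66 (T L (F 4 L)))) (K 4)) (F 66 (V (S L (F 4 L)) (F 5 (S L L))))) (F 74 (S (V (S L L) L) (S L L)))) (K 4))) (F 66 (V (U (S (V (T (S (S L L) L) (F 4 L)) (T (F 4 L) (F 4 L))) (T (V (F 4 L) (F 5 L)) (F 4 L))) (T (S (V (T L (F 4 L)) (F 4 L)) (V (F 4 L) (F 5 L))) (S (S (F 4 L) (F 4 L)) (F 4 L)))) (F 5 (U (V (T L L) (F 1 L)) (S (F 1 (U L (F 2 L))) L)))))) (F 74 (U (V (T (S (U (K 1) (S L L)) (U L L)) (S (V L L) (S L L))) (F 8 (U (K 1) (T (S (K 1) L) (S L L))))) (V (T (S (U L L) (S L L)) (S (S (F 8 L) L) L)) (F 8 (U (T (S L (F 4 L)) (S L (F 4 L))) (T L L))))))) (F 66 (T (U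 (V (T (S (U (K 1) (T (F 1 L) (F 5 L))) (F 5 (U L L))) (S (V (F 4 L) (F 4 L)) (S (F 4 L) (F 5 L)))) (F 5 (U (K 2) (S (T (K 2) L) (S L L))))) (V (S (T (F 5 (U (S L L) L)) (S (F 4 L) (F 5 L))) (F 5 (T (S L L) L))) (F 5 (U (T (S L L) L) (S L L))))) (U (V (S (T (S (F 4 L) (F 4 L)) (F 4 L)) (T (F 4 L) (F 5 L))) (S (T (S (F 4 L) (F 5 L)) (S (F 4 L) (F 5 L))) (T (F 5 (S L L)) (F 4 L)))) (V (T (S (F 4 L) (F 5 L)) (S (F 4 L) (F 5 L))) (S (T (F 4 L) (F 4 L)) (F 5 (T L L))))))))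
noncomputable def v17_47 : Tr := (V (S (T (F 10 (U (K 1) (V (U (K 1) (S (F 8 (T (K 1) L)) (S (F 8 L) L))) (K 1)))) (F 9 (U (F 8 (V (S (K 1) (T (K 1) (S L (K 0)))) (K 1))) (V (F 8 (S (T L L) (T (S L L) (S L L)))) (S (T (K 1) L) (F 8 (T (S L L) (S L L)))))))) (T (U (K 4) (V (F 10 (S (T (S L L) (S (F 8 L) L)) (T (S L (F 1 L)) (S L L)))) (U (K 4) (S (F 10 (S (K 1) L)) (S (F 8 L) (F 8 L)))))) (U (F 43 (V (S (T (S (K 0) (K 1)) (K 1)) (K 1)) (S (K 0) (T (K 0) (K 1))))) (V (S (F 9 (T (F 8 (S L L)) (S (F 8 L) L))) (T (F 8 L) (F 9 (S L L)))) (F 9 (S (T (S (F 8 L) L) (S L L)) (T (S L L) (S L (F 1 L))))))))) (F 9 (S (T (K 1) (U (K 1) (V (S (K 1) (T (K 1) (S L L))) (S (K 1) (T (K 1) (S (K 1) L)))))) (T (F 1 (U (K 2) (V (T (K 2) (S (K 2) (S (K 2) L))) (K 2)))) (U (K 1) (V (S (T (S (K 1) L) (S L L)) (T L L)) (S (T (K 1) (S L L)) (T L (F 1 (S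 L L))))))))))
noncomputable def v17_48 : Tr := (V (S (T (F 10 (U (V (S (T L (F 8 L)) (T L (F 8 L))) (F 8 (S (T (S L L) L) (T (S L L) (S L L))))) (V (S (F 8 (T L L)) (T L (F 8 L))) (F 8 (S (T L L) (T L L)))))) (F 9 (U (V (F 8 (S (S L L) (T L L))) (S (F 8 (T L L)) (T (F 8 L) L))) (V (F 8 (S (S L L) (S L L))) (S (F 8 (S L L)) (S L L)))))) (T (U (V (F 10 (T (S L (F 1 L)) (S L L))) (T (S (F 11 (S L L)) (F 8 L)) (F 9 (S L L)))) (V (F 10 (T (S L (F 1 L)) (S L (F 1 L)))) (T (S (F 10 L) (F 40 L)) (S (F 9 L) (F 40 L))))) (U (V (S (S (F 8 L) (F 8 L)) (T (F 10 L) (F 9 L))) (F 9 (S (T L L) (T L L)))) (V (S (S (F 10 L) (F 8 L)) (S (F 8 L) (F 8 L))) (F 9 (S (S L L) (S L L))))))) (S (T (F 9 (U (V (S (F 8 (U (K 1) (S L L))) (T L L)) (U (K 1) (S (S (K 1) L) L))) (T (V (S (F 8 L) L) (S L L)) (V (S (F 8 L) L) (S L L))))) (U (S (V (F 9 (T L L)) (T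 (F 1 L) (F 1 L))) (V (F 9 (T L L)) (T (F 9 L) (F 1 L)))) (V (F 9 (S (S L L) (S L L))) (S (S (F 1 L) (F 1 L)) (S (F 1 L) (F 1 L)))))) (F 9 (T (U (S (V (T L L) (T L L)) (V (T L (F 1 L)) (F 1 (T L L)))) (V (S (T L (F 1 L)) (F 1 (T L L))) (S (S L L) (F 1 (S L L))))) (U (S (V (T L L) (T L L)) (F 1 (V (T L L) (T L L)))) (V (S (S L L) (S L L)) (S (S L L) (S L L))))))))
noncomputable def v17_49 : Tr := (V (S (F 10 (T (U (K 2) (V (U (K 2) (T (S (K 2) L) (S L L))) (K 2))) (U (K 2) (V (T (S (S L L) L) (S (S L L) L)) (U (K 2) (T (S (K 2) L) (S L L))))))) (T (F 10 (U (V (T (K 2) (S (K 2) (S (K 2) L))) (K 2)) (V (T (S L L) (S L L)) (T (U (K 2) (S (K 2) L)) (S (S L L) (S L L)))))) (U (V (F 10 (T (U (K 2) (S L L)) (U (K 1) (S L L)))) (S (K 0) (T (K 0) (U (K 0) (S (F 10 L) (F 2 L)))))) (V (F 10 (T (S L L) (S L (S L L)))) (T (S (F 10 (S L L)) (S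 (F 10 L) (F 2 L))) (S (S (F 2 L) (F 2 L)) (T (F 2 L) (F 2 L)))))))) (S (T (K 0) (U (K 0) (V (T (K 0) (S (K 0) (S (K 0) (F 2 L)))) (K 0)))) (T (U (K 0) (V (S (K 0) (T (K 0) (S L L))) (T (K 0) (S (K 0) (S (K 0) L))))) (U (K 0) (V (T (S (S (K 0) (F 2 L)) (S L L)) (S (S (F 2 L) (F 2 L)) (T (F 2 L) (F 2 L)))) (T (U (K 0) (S (K 0) (F 2 L))) (S (F 18 (S L L)) (S (F 2 L) (F 2 L)))))))))
noncomputable def v17_50 : Tr := (V (S (T (F 10 (U (V (T (U (S L L) L) (S L L)) (T (S L L) (S L L))) (V (T (S L L) (S L L)) (T (S L L) (S L L))))) (U (V (F 10 (T (S L L) (S L L))) (T (F 10 (S L L)) (S (F 2 L) (F 10 L)))) (F 10 (V (T (S L L) (S L L)) (T (S L L) (S L L)))))) (T (F 10 (U (V (T (S L L) (S L L)) (T (S L L) (S L L))) (V (T (S L L) L) (T (S L L) (S L L))))) (U (V (F 10 (T (S L L) (S L L))) (T (S (F 10 L) (F 2 L)) (S (F 2 L) (F 2 L)))) (V (T (F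 10 L) (F 2 L)) (T (F 10 (S L L)) (S (F 10 L) (F 2 L))))))) (S (T (U (V (T (F 10 (U (K 2) (S L L))) (S (F 10 (S L L)) (F 2 L))) (U (K 0) (T L (F 18 (S (K 2) L))))) (V (F 10 (T (S L L) (S L L))) (U (T (F 2 L) (F 2 L)) (S (F 10 L) (F 2 L))))) (U (V (T (S (F 2 L) (F 2 L)) (S (F 2 L) (F 2 L))) (T (S (F 2 L) (F 2 L)) (F 18 (S L L)))) (V (T (S (F 2 L) (F 2 L)) (S (F 18 L) (F 2 L))) (F 18 (T (S L L) (S L L)))))) (T (U (V (T (S (F 8 L) L) (S (F 2 L) L)) (T (S L L) (S L L))) (V (T (S (F 10 L) (F 8 L)) (S (F 2 L) (F 2 L))) (T (S (F 2 L) (F 2 L)) (S (F 2 L) (F 2 L))))) (U (V (T (S (F 2 L) (S (F 2 L) (F 2 L))) (S (F 2 L) (F 2 L))) (T (S (F 2 L) L) (S (F 2 L) (F 2 L)))) (V (T (S (F 2 L) (F 2 L)) (S (F 2 L) (F 2 L))) (T (S (F 2 L) (F 2 L)) (F 18 (S L L))))))))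
noncomputable def v17_51 : Tr := (V (S (F 17 (T (U (F 9 (V (T (S (K 2) (T L (K 1))) (K 1)) (F 1 (T (K 0) (S (K 0) (S (K 0) (K 1))))))) (V (T (S (F 8 L) (F 9 L)) (S (F 1 L) (F 1 L))) (T (S (S (F 1 L) (F 1 L)) (S (F 1 L) (F 1 L))) (S L (S (F 1 L) (F 1 L)))))) (U (F 27 (V (K 0) (S (K 0) (K 0)))) (V (U (K 2) (T (F 9 (S L L)) (F 17 (S L (K 1))))) (T (S L (F 17 (S L L))) (F 17 (S (S L L) (S L L)))))))) (F 80 (T (U (V (K 1) (S (T (U (K 0) (F 16 L)) (K 1)) (T (U (K 1) (S (F 16 L) (K 1))) (K 1)))) (V (T (S (F 16 L) (S (F 20 L) (F 16 L))) (S (S (F 16 L) (F 16 L)) (S (F 16 L) L))) (T (S (S (F 16 L) (F 16 L)) (T (F 16 L) (F 16 L))) (S (S (F 16 L) (F 16 L)) (T (F 16 L) (F 16 L)))))) (U (K 1) (V (U (K 1) (T (S (F 16 L) (F 16 L)) (F 29 (S (K 0) (K 0))))) (T (S (S (F 16 L) (F 16 L)) (T (F 16 L) L)) (F 24 (U (K 1) (S L L))))))))) (F 81 (S (F 8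 (T (U (K 2) (V (T (U (K 2) (S L L)) (S (S L L) (S L L))) (T (S (K 2) L) (S L L)))) (U (V (T (S (K 2) (T L L)) (U (K 1) (S L L))) (T (S (K 2) (S (K 2) L)) (S (S (K 2) L) (S L L)))) (V (T (S L L) (S (S L L) L)) (T (S L L) (S (S L L) L)))))) (T (U (V (S (F 8 (T (K 2) (U (K 2) L))) (T (U (K 0) (S (F 8 L) L)) (F 8 (U (K 1) (S L L))))) (F 8 (S (T (K 2) (S (K 2) L)) (T (U (K 2) (S (K 2) L)) (T L L))))) (V (T (S (S L L) (T L L)) (S (F 8 (S L L)) (S L L))) (F 8 (T (S (S L L) (S L L)) (S L (S L L)))))) (F 8 (U (V (F 5 (S (T (S (K 0) (K 0)) (K 0)) (K 0))) (T (S (S L L) (S L L)) (S (S L L) (S L L)))) (V (T (S (S L L) (S L L)) (S L (S L L))) (T (S L L) (S L L)))))))))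
noncomputable def v17_52 : Tr := (V (S (T (U (V (F 20 (T (S L L) (S L L))) (T (S (F 16 L) (F 16 L)) (S (F 16 L) (F 16 L)))) (V (T (F 20 (S L L)) (F 16 L)) (T (F 20 (S L L)) (F 24 (S L L))))) (U (V (T (S (F 16 L) (F 16 L)) (S (F 16 L) (F 16 L))) (F 24 (T (S L L) (S L L)))) (V (T (F 20 (S L L)) (F 24 (S L L))) (F 24 (T (S L L) (S L L)))))) (T (U (V (T (S (F 20 L) (F 16 L)) (S (F 16 L) (F 16 L))) (T (S (F 16 L) (F 16 L)) (S (F 16 L) (F 16 L)))) (V (T (F 16 L) (S (F 20 L) (F 16 L))) (T (S (F 16 L) (F 16 L)) (S (F 16 L) (F 16 L))))) (U (V (T (S (F 16 L) L) (S (F 16 L) L)) (T (S (F 16 L) (S (F 16 L) (F 16 L))) (S (F 16 L) L))) (V (T (S (F 16 L) (F 16 L)) (S (F 16 L) (F 16 L))) (T (S (F 24 L) (F 16 L)) (S (F 24 L) (F 16 L))))))) (S (T (U (V (T (S (F 16 L) (F 24 L)) (F 24 (S L L))) (F 24 (T (S L L) (S L L)))) (F 24 (V (T (S L L) (S L L))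 (T (S L L) (S L L))))) (F 24 (U (V (T (S L L) (S L L)) (T (S L L) (S L L))) (V (T (S L L) (S L L)) (T (S L L) (S L L)))))) (T (U (V (T (S (F 16 L) (F 16 L)) (S (F 24 L) (F 16 L))) (F 24 (T (S L L) (S L L)))) (V (T (S (F 24 L) (F 16 L)) (F 24 (S L L))) (F 24 (T (S L L) (S L L))))) (F 24 (U (V (T (S L (S L L)) (S L L)) (T (S L L) (S L L))) (V (T (S L L) (S L L)) (T (S L L) (S L L))))))))
noncomputable def v17_53 : Tr := (U (S (T (U (V (U (T (S (U (F 8 L) (F 8 L)) (S (F 8 L) (F 9 L))) (S (F 8 L) (F 9 L))) (T (F 9 (U (S L L) L)) (S (F 8 L) (F 9 L)))) (F 9 (U (S (F 1 (T (F 2 L) L)) L) (F 1 (S (F 2 L) L))))) (U (V (T (F 9 (S L L)) (S (F 24 L) (F 9 L))) (F 25 (S (F 1 L) L))) (F 9 (V (S (S (F 1 L) L) L) (F 3 L))))) (U (V (T (U (S (F 24 L) (F 9 L)) (F 8 L)) (S (F 8 L) (F 8 L))) (F 24 (U (S L L) (S (F 4 L) L)))) (V (T (S (F 8 L) (F 8 L))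 (F 24 (S L L))) (F 25 (U (S L L) L))))) (T (F 9 (U (V (U (S (T L L) L) (T (S L L) L)) (U (S L L) (S L L))) (V (U (S L L) (S L L)) (U L L)))) (U (V (S (F 9 (T L L)) (S (F 8 L) (F 9 L))) (F 9 (U (S L L) (S L L)))) (F 9 (V (U (S L L) (S L L)) (U (S (F 1 L) L) L)))))) (U (T (F 9 (S (F 1 (U (V L (F 2 L)) (F 2 L))) (U (S L L) L))) (S (F 24 (U (V L (F 4 L)) (F 4 (S L L)))) (F 9 (U (S L L) (S (F 1 L) L))))) (F 9 (T (S (F 3 (U L L)) (S (F 1 L) L)) (S (F 1 (U L (F 2 L))) (S L L))))))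
noncomputable def v17_54 : Tr := (U (S (T (U (V (S (F 24 (T L L)) (S (F 8 L) (F 8 L))) (F 24 (T (S L L) (S L L)))) (F 24 (U (V (S L L) (S L (F 4 L))) (V (S L (F 4 L)) L)))) (U (S (F 24 (V (S L L) (S L L))) (V (F 24 (S L L)) (S (F 24 L) (F 16 L)))) (S (F 24 (V L (S L L))) (V (F 24 (S L L)) (F 16 L))))) (T (U (V (T (F 9 (S L L)) (S (F 24 L) (F 9 L))) (T (S (F 24 L) (F 9 L)) (S (F 24 L) (F 17 L)))) (T (F 9 (V (S L L) (S (F 1 L) L))) (V (F 9 (S L L)) (F 1 L)))) (U (V (S L L) (S (S (F 16 L) (F 16 L)) (S (F 16 L) (F 16 L)))) (V (S (F 8 L) (F 1 L)) (S (S (F 16 L) (F 17 L)) (F 17 (S L L))))))) (S (F 24 (U (T (U (S L L) (S L (F 4 L))) (S (S L L) (T L L))) (T (S L L) (S L L)))) (U (T (S (T (F 9 L) (F 24 L)) (F 9 (T L L))) (V (S (F 24 L) (F 9 L)) (F 17 (S L L)))) (T (F 9 (T L (F 1 (S L L)))) (S (F 24 L) (F 17 L))))))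
noncomputable def v17_55 : Tr := (T (F 24 (V v17_53 (U (U (U (S (F 25 (T (F 1 L) (U (S (F 1 L) L) (S (F 1 L) L)))) (T (F 25 (V (S L L) (S (F 1 L) L))) (V (F 9 (S (F 1 L) L)) (F 17 (S (F 1 L) L))))) (F 17 (S (F 3 (U (U L L) L)) (T (F 1 (S (F 2 L) L)) (T (F 1 (S L L)) (S (F 1 L) L)))))) (F 17 (U (S (F 3 (U L L)) (T (F 1 (S (F 2 L) L)) (T (F 1 (S L L)) L))) (S (F 3 L) (T (F 3 L) (S (F 1 L) L)))))) (F 25 (U (U (S (F 1 L) (T (F 1 L) (S L L))) (F 1 (U (U L L) (U L L)))) (F 1 (U (U L L) L))))))) (V (F 24 v17_54) (F 17 (U (S (T (U (S (T (F 20 (V L L)) (S (F 4 L) (F 4 L))) (U (T (F 5 L) (F 4 L)) (S (F 4 L) (F 4 L)))) (T (S (F 20 (S L L)) (F 4 L)) (S (F 4 L) (F 4 L)))) (U (V (S (S (F 4 L) (F 4 L)) (S (F 4 L) (F 4 L))) (S (S L L) (S (F 4 L) (F 4 L)))) (V (S (S (F 20 L) (F 4 L)) (S (F 4 L) (F 4 L))) (S L L)))) (T (U (T (F 5 (V (S L L) (S L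 L))) (S (S (F 4 L) (F 4 L)) (F 5 (S L L)))) (F 5 (U (S (S L L) (S L L)) (S L L)))) (U (S (V (S (F 4 L) (F 4 L)) L) (F 5 (V (S L L) (S L L)))) (S (V (F 4 L) (F 1 L)) (F 5 (V (S L L) L)))))) (S (U (T (F 5 (U (S (F 1 L) L) (F 1 (S L L)))) (V (S (F 4 L) (F 4 L)) (S L (F 1 L)))) (T (F 21 (S L L)) (S (F 4 L) (F 4 L)))) (F 5 (U (T (U (S L L) (S (F 1 L) L)) (U (S L L) (S L L))) (T (S L L) (S L L)))))))))
noncomputable def v17_56 : Tr := (V (U (S (T (F 10 (U (V (T (S L L) (S L L)) (T (S L L) (S L L))) (V (T L L) (S L L)))) (U (V (F 10 (T L L)) (T (F 10 (S L L)) (F 2 L))) (F 10 (V (S L L) (T L L))))) (T (F 10 (U (V (T L L) (T (S L L) (S L L))) (T (S L L) (S L L)))) (U (V (F 10 (T L L)) (T (F 2 L) (F 2 L))) (V (F 10 (S L L)) (S (F 2 L) (F 2 L)))))) (F 10 (S (U (T (U (S L L) (S L L)) (U (S L L) (S L L))) (T (S L L) (S L L))) (T (U (U (S L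 L) L) (S L L)) (U (T (S L L) (S L L)) (S L L)))))) (U (S (T (U (U (V (F 10 (S L L)) (S (F 10 L) (F 2 L))) (V (F 10 (S L L)) (S (F 10 L) (F 2 L)))) (U (T (F 10 (S (F 1 L) L)) (F 2 L)) (F 10 (T L L)))) (U (V (T (F 10 (S L L)) (F 18 (S L L))) (F 18 (T (S L L) (S L L)))) (T (S (F 2 L) (F 2 L)) (V (F 2 L) (F 18 L))))) (T (U (V (T L (S (F 10 L) (F 2 L))) (T (S (F 2 L) (F 2 L)) (S (F 2 L) (F 2 L)))) (T (V (F 2 L) L) (V (F 2 L) L))) (U (V (T (S (F 2 L) (F 2 L)) (S (F 2 L) (F 2 L))) (T (S (F 18 L) (F 2 L)) (F 18 (S L L)))) (V (T (F 2 L) (F 2 L)) (T (F 2 L) (F 2 L)))))) (S (U (T (F 10 (U (S (F 1 L) L) L)) (F 18 (T (S L L) (S L L)))) (T (F 10 (S (F 1 L) L)) (F 18 (S L L)))) (U (T (U (T (F 2 L) (F 2 L)) (S (F 10 L) (F 2 L))) (T (S (F 2 L) (F 2 L)) (S (F 18 L) (F 2 L)))) (T (T (F 2 L) (F 2 L)) (S (F 2 L) (F 2 L)))))))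
noncomputable def v17_57 : Tr := (V (U (S (T (U (V (T (F 2 L) (F 2 L)) (T (F 2 L) (F 2 L))) (V (F 10 (S L L)) (S (F 2 L) (F 2 L)))) (U (T (V (F 2 L) (F 2 L)) (V (F 2 L) (F 2 L))) (V (S (F 2 L) (F 2 L)) (S (F 2 L) (F 2 L))))) (T (U (V (T (F 2 L) (F 2 L)) (T (F 2 L) (F 2 L))) (V (S (F 2 L) (F 2 L)) (S (F 2 L) (F 2 L)))) (U (V (T (F 2 L) (S (F 2 L) (F 2 L))) (T (S (F 18 L) (F 2 L)) (F 18 (S L L)))) (V (T (F 2 L) (F 2 L)) (T (F 2 L) (F 2 L)))))) (S (T (U (T (F 2 L) (F 10 (S L L))) (F 10 (S L L))) (U (V (S (F 10 L) (F 2 L)) (F 18 (S L L))) (S (F 18 L) (F 2 L)))) (T (U (V (S (F 10 L) (F 2 L)) (S (F 2 L) (F 2 L))) (S (F 2 L) (F 2 L))) (U (V (S (F 2 L) (F 2 L)) (S (F 18 L) (F 2 L))) (T (F 2 L) (F 2 L)))))) (U (S (T (U (V (T (F 18 (S L L)) (F 2 L)) (F 18 (S (S L L) L))) (V (S (F 2 L) (F 2 L)) (F 18 (S L L)))) (F 18 (U (V (T (S L L) (S L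 L)) (T L (S L L))) (T (S L L) (S L L))))) (T (U (V (T (S (F 18 L) (F 2 L)) (F 18 (S L L))) (T (F 2 L) (F 18 (S L L)))) (V (S (F 2 L) (F 2 L)) (S (F 18 L) (F 2 L)))) (U (V (T (F 2 L) (F 18 (S L L))) (F 18 (S (S L L) (S L L)))) (V (T (F 2 L) (F 18 L)) (F 18 (S L L)))))) (F 18 (S (U (T (V (S L L) (S L L)) (U (S L L) (S L L))) (T (S L L) (S L L))) (T (U (T (S L L) (S L L)) (S L L)) (U (T (S L L) (S L L)) (S L L)))))))
noncomputable def treeV17 : Tr := (F 0xfffffffffffffffffffffffffffffffffff9fff7f39fce777b (V v17_45 (F 4611 (U (S (T (F 552 (U (F 74 (V (S (K 1) (T (K 1) (U (K 1) (V (U (K 1) (T (F 1 (S (K 2) L)) (S L (F 1 L)))) (K 1))))) (K 1))) (V v17_46 (F 72 (S (F 24 (U (K 1) (U (T (F 5 L) (V (T (F 4 L) L) (F 4 L))) (F 4 (T (F 2 L) (V (S L L) L)))))) (T (F 9 (U (K 2) (U (V (S (F 1 L) L) (F 1 L)) (V (S (F 1 L) L) (F 1 L))))) (U (U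 (K 1) (V (S (F 25 (T (K 1) L)) (F 1 L)) (F 17 (T (K 2) L)))) (V (T (F 9 (S L L)) (S (F 16 L) (F 1 L))) (F 17 (U (S L L) (S L L))))))))))) (F 537 (U v17_47 v17_48))) (F 49 (T (F 65 (U v17_49 v17_50)) (U v17_51 (F 80 v17_52))))) (F 529 (S v17_55 (F 72 (T v17_56 v17_57))))))))

theorem pV17 : chkV par treeV17 128 128 128 128 768 256 349525 699051 Lc = true := by decide +kernel

noncomputable def v18_0 : Tr := (V (S (T (U (V (T (S (F 2 L) (F 34 L)) (S (F 2 L) (F 34 L))) (F 10 (S (T L L) (T L L)))) (V (T (S (F 10 L) (F 34 L)) (F 2 L)) (F 10 (T (S L L) (S L (F 1 L)))))) (F 10 (U (U (K 2) (T (V (K 2) L) (K 2))) (U (S (T L (F 8 L)) (F 1 (T L (F 1 L)))) (S (T L (F 8 L)) (F 1 (S L L))))))) (F 34 (T (U (V (T (F 2 (S L L)) (V L (F 2 L))) (F 2 (T (S L L) (K 1)))) (V (T L L) (F 2 (T L L)))) (F 2 (U (K 1) (U (V (F 4 (S L L)) L) (T L (F 4 L))))))))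 (S (T (F 10 (U (V (S (F 8 (T L L)) (T L L)) (F 8 (S (T L L) (T L (S L L))))) (V (S (S (F 8 L) L) (F 8 (T L L))) (F 8 (S (S L L) (T L L)))))) (F 9 (U (V (F 8 (U (K 0) (S (S L L) (S L L)))) (S (T (F 8 (S L L)) (S L L)) (T (F 8 (S L L)) (S L L)))) (V (F 8 (S (T L (S L L)) (T L L))) (S (F 8 (T L (S L L))) (T L (S (F 8 L) (F 1 L)))))))) (T (U (V (F 10 (T (S L (F 1 L)) (S L (F 1 L)))) (T (S (F 10 L) (F 40 L)) (S (F 9 (S (F 8 L) L)) (F 40 L)))) (V (F 42 (T (S L L) (S L L))) (T (F 10 (S L (F 1 L))) (F 9 (S L (F 1 L)))))) (F 40 (U (F 8 (U (K 1) (V (K 1) (T (F 1 (S L L)) (S L (K 1)))))) (V (T (F 4 (S L L)) (F 8 (S L L))) (F 8 (U (T L L) (S L L)))))))))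
noncomputable def v18_1 : Tr := (S (T (F 9 (U (V (F 8 (U (K 0) (S (T L (K 0)) (K 0)))) (S (U (F 8 (T (S L (K 0)) (K 0))) (T L (S (S L L) L))) (U (K 2) (T L (S L (K 2)))))) (V (F 8 (U (S (S L L) (F 4 L)) (S (S L (F 4 L)) (F 4 L)))) (T (S (S L L) (S L L)) (S (U (S L L) (F 8 (S L L))) (F 1 (U (S L L) L))))))) (U (U (K 2) (V (K 2) (S (V (K 2) (T (F 9 (S (S L L) L)) (U (K 2) (S L (F 40 L))))) (F 59 (S (K 0) (K 0)))))) (V (F 59 (U (U (S (K 0) (K 0)) (S L L)) (U (S L L) L))) (S (U (V (F 9 (U (S L (F 3 L)) (F 1 L))) (T (F 9 (S L L)) (S (S L (F 8 L)) (S (F 8 L) (F 40 L))))) (T (F 9 (U (S L (F 1 L)) L)) (V (F 41 L) (S (S (F 8 L) (F 8 L)) (F 40 L))))) (F 40 (U (T (F 8 (U L L)) (F 1 (U (S L (F 1 L)) L))) (T (F 8 L) (F 1 (S L (F 1 L)))))))))) (F 40 (T (F 8 (U (F 5 (S (K 0) (K 0))) (V (F 4 (U (S L (F 2 L)) (F 2 (S L L)))) (U (S (S L L) L) (S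 L (F 4 L)))))) (F 1 (U (F 3 (S (K 0) (K 0))) (U (V (F 1 L) (S (T (F 1 L) L) (F 1 (S L L)))) (F 1 (V (F 2 (S L L)) (S (S L L) L)))))))))
noncomputable def v18_2 : Tr := (V (S (T (U (V (T (S (F 4 L) (F 4 L)) (S (F 4 L) (F 5 (S L L)))) (T (S (F 20 L) (F 4 L)) (S (F 20 L) (F 4 L)))) (V (T (S (F 20 L) (F 5 L)) (F 5 (S L L))) (T (F 20 (S L L)) (S (F 20 L) (F 4 L))))) (F 5 (U (V (S (U (K 2) (S L L)) (T (S L L) (S L L))) (U (K 2) (S (K 2) (S L L)))) (V (S (T L L) (T L L)) (U (S L (S L L)) (S L L)))))) (T (U (V (F 5 (S (T L L) (T L L))) (S (T (F 4 L) (F 4 L)) (T (F 4 L) (F 5 (S L L))))) (V (F 5 (S (T L L) (T L L))) (S (T (F 4 L) (F 5 L)) (F 5 (T L L))))) (U (F 5 (V (S (T L (S L L)) (T L (S L L))) (S (U (K 2) (S L L)) (T (S L L) (S L L))))) (S (F 5 (V (T L L) (T L L))) (V (F 5 (T L L)) (T (F 5 L) (F 1 L))))))) (S (T (U (V (F 20 (U (K 1)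 (T L L))) (T (S (F 16 L) (F 16 L)) (U (K 1) (F 16 L)))) (V (T (F 20 (S L L)) (S (F 20 L) (F 4 L))) (T (S (F 20 L) (F 16 L)) (S (F 24 L) (F 16 L))))) (U (F 24 (U (K 1) (V (K 1) (S L (F 5 (S (K 0) (K 0))))))) (U (V (S (F 20 L) (F 1 L)) (F 24 (T L L))) (V (F 16 L) (F 24 (S L L)))))) (T (U (V (T (S L L) (S L L)) (T (S L L) (S L L))) (V (T (S (F 4 L) (F 4 L)) (S (F 4 L) (F 1 L))) (T (S (F 16 L) L) (S (F 16 L) (F 1 L))))) (U (V (S (T L (S (K 1) (F 1 L))) (T (S (F 1 L) (F 1 L)) (S (F 1 L) (F 9 L)))) (U (K 1) (T L (F 9 L)))) (V (S (T (F 1 L) (F 1 L)) (T (F 1 L) (F 1 L))) (T (S (F 8 L) (F 1 L)) (F 9 (S L L))))))))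
noncomputable def v18_3 : Tr := (S (T (U (F 10 (U (K 2) (V (S (K 2) (S L L)) (K 2)))) (S (F 10 (U (V L (F 2 L)) (V L (F 2 L)))) (V (T (F 10 (S L L)) (F 2 L)) (T (F 8 L) (F 14 (S L L)))))) (U (F 6 (U (K 2) (S (V (S (K 2) L) (K 2)) (V (S L L) (S (K 2) L))))) (S (F 6 (U (V (S (F 2 L) L) (F 2 L)) (V L (F 2 L)))) (V (F 6 (U (S L L) (S L L))) (T (F 4 L) (F 4 L)))))) (T (U (V (S (T (F 10 (S L L)) (S (F 2 L) (F 2 L))) (T (F 10 (S L L)) (S (F 2 L) (F 2 L)))) (S (F 10 (U (K 2) (S (F 2 L) L))) (T (S (F 8 L) (F 8 L)) (S (F 4 L) (F 4 L))))) (S (V (F 10 (T (S L L) (S L L))) (T (F 8 L) L)) (V (T (F 2 L) (F 2 L)) (T (F 8 L) L)))) (U (V (F 6 (S (T (S L L) (S L L)) (T (S L L) (S L L)))) (S (T (S (F 4 L) (F 6 L)) (F 6 (S L L))) (F 6 (T (S L L) (S L L))))) (S (V (T (F 2 L) (F 6 (S L L))) (T (F 4 L) (F 4 L))) (V (T (F 2 L) (F 6 L)) (T (F 4 L) (F 4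 L)))))))
noncomputable def v18_4 : Tr := (U (F 66 (V (S (K 0) (T (U (K 0) (V (S (K 0) (U (K 0) (T (F 2 L) (F 2 L)))) (K 0))) (U (K 0) (V (F 6 (S (T (K 2) (S (K 2) L)) (T (S (S L L) L) (S L L)))) (S (K 0) (T (K 0) (S (K 0) (F 4 L)))))))) (K 0))) (V (F 66 v18_3) (F 72 (S (T (F 28 (U (K 1) (U (S (S L L) (S L L)) (S L (S L L))))) (U (F 30 (U (K 0) (S (K 0) (S (K 0) (K 0))))) (U (S (F 20 (V (F 1 L) L)) (T (F 12 L) (F 4 L))) (S (F 20 (T (F 1 L) L)) (T (F 12 L) (F 4 L)))))) (T (U (S (F 12 (U (K 2) (T L L))) (V (F 12 (T (S L L) (S L L))) (T (F 12 L) (F 8 L)))) (S (F 12 (U (S L L) (S L L))) (V (T (F 12 L) (F 8 L)) (F 12 (S L L))))) (U (S (U (K 0) (V (S (F 8 L) (F 8 L)) (S (F 4 L) (F 8 L)))) (V (T (S (F 8 L) (F 8 L)) (S (F 8 L) (F 8 L))) (T (S (F 8 L) (F 8 L)) (S (F 8 L) (F 8 L))))) (S (V (T (F 8 L) (S (F 8 L) (F 8 L))) (T (F 4 L) L)) (V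 (T (F 8 L) (S (F 8 L) (F 8 L))) (T (F 8 L) L)))))))))
noncomputable def v18_5 : Tr := (V (F 5 (U (S (T (U (V (T L (F 1 L)) (T (S (F 4 L) (F 5 L)) (S (F 20 L) (F 5 L)))) (T (S L (F 1 L)) (S L (F 5 L)))) (U (U (S (F 20 (T L (F 4 L))) (F 5 L)) (F 5 (T L (F 1 L)))) (F 5 (U (T L (F 1 L)) (F 1 L))))) (U (T (V (S (F 1 L) (F 1 L)) (F 5 (T L L))) (F 5 (U (T L (F 4 L)) (F 4 (S L L))))) (F 5 (T (U (S L L) L) (F 4 (U L (F 2 L))))))) (U (T (U (S (S (F 4 L) (F 5 L)) (F 5 L)) (S (F 20 (S L (F 4 L))) (F 7 L))) (F 21 (U (S L (F 2 L)) (F 2 L)))) (F 5 (T (U (S L (F 4 L)) (F 1 L)) (F 5 L)))))) (F 17 (U (S (T (U (V (S (F 24 (S L L)) (S (F 8 L) (F 8 L))) (F 24 (S (S L L) (T L L)))) (V (S (F 24 (S L L)) (F 8 L)) (F 24 (S L (S L L))))) (U (V (F 24 (U (S L (F 4 L)) (S L (F 4 L)))) (S (T (F 24 L) (F 16 L)) (T (F 24 L) (F 16 L)))) (F 24 (V (F 4 (U (S L L)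 (S L L))) (U (S L (F 4 L)) (S L (F 4 L))))))) (T (U (V (F 9 (T L L)) (T (F 9 (S L L)) (F 1 L))) (V (F 9 (S L L)) (T (F 1 L) (F 17 L)))) (F 17 (U (U (V (F 1 (S L L)) (S L L)) (F 1 (V L (S L L)))) (U (V (F 1 L) L) (F 1 (S L L))))))) (U (T (S (F 24 (U (S L L) (S L (F 4 L)))) (F 9 (T L (F 1 (S L L))))) (S (F 24 (V (S L (F 4 L)) (S L L))) (F 17 (V (F 1 L) L)))) (F 24 (T (S (S L L) (F 4 (S L L))) (F 4 (U (S L (F 1 L)) L))))))))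
noncomputable def v18_6 : Tr := (V (F 27 (U (U (U (S L (S L L)) (S L L)) (U L L)) (U L L))) (U (S (U (U (V (F 24 (T (S L (F 4 L)) (F 6 (S L L)))) (T (T (F 24 (S L (F 4 L))) (S (F 16 L) (F 17 L))) (S (T (S (F 16 L) (F 17 L)) (F 17 (U (U (S L (F 4 L)) L) L))) (F 19 (U L L))))) (V (F 25 (T (S L (F 2 L)) (F 2 L))) (T (T (F 16 L) (F 24 (S L (F 4 L)))) (S (T (S (F 16 L) (F 17 L)) (V (F 19 L) (S (F 17 L) (F 3 L)))) (F 19 (S L L)))))) (U (F 17 (V (F 1 (T L (F 1 L))) (T (T L L) (S (T L (S L (F 4 L))) (F 4 L))))) (F 24 (V (F 6 L) (T (S L (F 4 L)) (F 6 (U (S L L) L))))))) (F 17 (U (U (V (F 5 (S L L)) (T (S L (F 4 L)) (F 4 (S L L)))) (V (F 5 L) (T L (F 4 (S L L))))) (F 5 (U (S (U L L) L) (S L L)))))) (F 25 (U (S (U (T (T L L) (F 2 (S L L))) (T L (F 2 L))) (F 2 (U L L))) (F 2 (U (S L L) L))))))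
noncomputable def v18_7 : Tr := (V (U (S (T (U (V (T (S (F 20 L) (F 5 L)) (S (F 20 L) (F 5 L))) (F 20 (U (S L L) L))) (V (T (F 20 L) (F 5 L)) (F 20 (T L L)))) (F 5 (U (U (V (S L L) (S (F 1 L) L)) (V (S (F 1 L) L) (S (F 1 L) L))) (T (U (S (F 1 L) L) L) (U (S (F 1 L) L) L))))) (T (U (V (F 5 (S (T L L) (S L L))) (S (S (F 4 L) (F 4 L)) (F 5 (T L L)))) (V (F 5 (S (S L L) (S L L))) (T (F 4 L) (F 5 (S L L))))) (F 5 (U (S (V (S L L) (T L L)) (V (S L L) (T L L))) (S (V L (S L L)) (V L (S L L))))))) (U (S (T (F 20 (V (F 4 (S L L)) L)) (F 5 (U (S (F 1 L) L) (F 1 L)))) (F 5 (T (U (S L L) (S (F 1 L) L)) (S (S L L) (T L L))))) (F 5 (S (F 1 (T (S L L) (S (F 2 L) L))) (T (S L L) (S L L)))))) (U (S (T (U (T (V (F 20 L) (F 16 L)) (V (F 16 L) (F 24 (S L L)))) (T (F 20 (S L L)) (S (F 16 L) (F 16 L)))) (U (U (V (F 16 L) (F 24 (S L L))) (V (F 17 L)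 (F 24 L))) (F 24 (U (T L (F 4 L)) (S (F 1 L) (F 4 L)))))) (T (U (V (T (S (F 4 L) (F 4 L)) (S (F 1 L) (F 1 L))) (T L (S (F 16 L) (F 1 L)))) (T (V L (F 16 L)) (V (F 5 (S L L)) L))) (U (V (S (S (F 1 L) (F 1 L)) (S (F 1 L) (F 1 L))) (F 9 (T (S L L) (S L L)))) (U (V (F 5 (S L L)) (F 9 (S (F 1 L) L))) (T (F 1 L) (F 9 L)))))) (U (T (S (V (F 20 L) (F 16 L)) (V (S (F 4 L) (F 1 L)) (S (F 16 L) (F 1 L)))) (S (F 24 (T L (F 4 L))) (F 9 (U (S (F 1 L) L) L)))) (U (T (S (F 28 L) (F 17 L)) (F 25 (S (F 1 L) L))) (F 21 (T (S (F 1 L) L) (F 1 L)))))))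
noncomputable def v18_8 : Tr := (U (S (U (S (U (V (T (F 10 L) (F 6 L)) (F 14 (S (F 1 L) L))) (F 14 (V (T L L) (F 1 L)))) (T (V (F 10 (S L L)) (T (F 10 L) (F 12 L))) (F 6 (U (V (S (F 2 L) L) L) (T L L))))) (F 6 (U (S (F 2 (S (F 2 L) L)) (T (F 2 (S L L)) (S L L))) (S (F 2 (S (F 2 L) L)) (T (F 2 L) L))))) (T (V (U (S (T (F 10 L) (F 2 L)) (T (F 10 L) (F 2 L))) (F 10 (S (S L L) (S L L)))) (U (S (S (F 10 L) (F 8 L)) (S (F 8 L) (F 8 L))) (F 10 (S (S (F 2 L) L) (S L L))))) (V (U (S (T (F 2 L) (F 6 L)) (T (F 2 L) (F 6 L))) (F 6 (S (S L L) (S L L)))) (U (S (T (F 4 L) (F 4 L)) (S (F 4 L) (F 4 L))) (F 6 (S (S L L) (S L L))))))) (S (F 14 (U (U (S (F 1 L) (T L (S L L))) (S (F 1 L) L)) (F 1 (U L L)))) (U (T (F 10 (S (V L (F 2 L)) (U L (F 2 L)))) (F 6 (S (V L L) (V L (S L L))))) (F 6 (T (F 2 (S L (S L L))) (S L (S L L)))))))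
noncomputable def v18_9 : Tr := (U (S (T (F 904 (U (F 10 (V (K 2) (S (T (U (K 2) (V (T (S L (K 2)) (K 2)) (F 8 (S (T L (S L L)) (T (S L L) (K 0)))))) (F 8 (U (K 0) (V (K 0) (S (T (S L (K 0)) (K 0)) (K 0)))))) (K 2)))) v18_0)) (F 708 (U (K 2) (V (F 59 (U (K 0) (U (S (U (K 0) L) (U (S (K 0) (K 0)) L)) (S (U L L) (U L L))))) v18_1)))) (F 13 (T (F 6 (U (F 5 (V (S (K 2) (T (U (K 2) (V (S (U (K 2) (T L L)) (T (S L L) (S L L))) (S (K 2) (T (S (K 2) L) (K 2))))) (U (K 2) (V (S (K 2) (U (K 2) (S L L))) (K 2))))) (K 2))) v18_2)) v18_4))) (S (F 648 (T v18_5 (F 18 v18_6))) (F 13 (T (F 6 v18_7) (V (F 66 v18_8) (F 72 (U (S (F 12 (U (U (T (F 1 (S L L)) (S (F 1 (S L L)) (T (F 1 L) L))) (T (F 1 (S L L)) (S (F 1 L) (S (F 1 L) L)))) (F 1 (U (T L (S L (S L L))) (T (F 2 L) L))))) (T (F 12 (U (S (U (S L L) L) (V (T L L) (S L L))) (S (S L L) (U (S L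 L) L)))) (U (S (U (T (F 12 L) L) (T (F 12 L) (F 8 L))) (V (T (F 8 L) (F 8 L)) (T (F 8 L) L))) (S (T (F 12 (S L L)) (S (F 8 L) (F 8 L))) (T (S (F 8 L) (F 8 L)) (S L L)))))) (U (S (F 30 (U (S L L) L)) (T (F 12 (U (S (F 2 L) L) L)) (S (T (F 12 L) (F 4 L)) (T (F 8 L) L)))) (S (F 30 L) (T (F 12 L) (F 10 (U (S (F 3 L) L) (F 2 L)))))))))))))
noncomputable def v18_10 : Tr := (S (T (F 19 (U (V (S (U (K 2) (T (F 8 L) L)) (K 2)) (S (U (K 1) (T (K 1) (S (F 8 L) L))) (T (S (K 1) L) (U (K 2) (S L L))))) (V (S (F 8 (T L (S L L))) (T (F 8 (S L L)) (S L L))) (S (T (F 8 (S L L)) (S L L)) (T (S L L) (S L L)))))) (U (F 18 (V (K 2) (S (T (U (S L (K 2)) (S (F 16 L) (F 16 L))) (U (K 2) (V (K 2) (S (F 16 L) (F 16 L))))) (T (V (K 2) (S (F 16 L) (K 2))) (K 2))))) (F 3 (V (S (T (S (F 4 L) (F 4 L)) (U (K 3) (S (F 4 L) (F 4 L)))) (U (K 3) (T (F 4 L) (S (F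 4 L) (K 3))))) (S (T (U (S (F 4 L) (F 4 L)) (F 4 L)) (V (S (F 4 L) (F 4 L)) (S L (S (F 4 L) (F 4 L))))) (T (V (F 4 L) (S (F 4 L) (F 4 L))) (V (S (F 4 L) (F 4 L)) (U (S (F 4 L) (F 4 L)) (F 4 L))))))))) (F 19 (T (U (V (K 2) (S (T (S L (K 2)) (K 2)) (K 2))) (V (U (K 2) (S (S L L) (S L (K 2)))) (S (T (S L L) (S L L)) (T (S L (F 1 L)) (S L (F 1 L)))))) (U (K 2) (V (K 2) (S (T (V L (S L L)) (U (K 2) (S L L))) (F 1 (U (K 1) (T L (F 5 (S (K 0) (K 0))))))))))))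
noncomputable def v18_11 : Tr := (V (S (T (F 3 (U (K 1) (S (S L L) (S (F 4 L) (F 4 L))))) (V (S (U (F 18 (S L L)) (F 3 L)) (F 18 (U (S L L) L))) (S (U (S (F 2 L) (F 2 L)) (F 3 (S L L))) (U (S (F 2 L) (F 2 L)) (F 3 (S L L)))))) (T (S (V (F 18 L) (F 3 (S L L))) (F 18 (V L (S L L)))) (S (V (F 18 (U (K 2) L)) (U (S (F 2 L) (F 2 L)) (F 2 L))) (V (F 18 (T L (K 2))) (U (S (F 2 L) (K 3)) (F 2 L)))))) (S (T (F 3 (U (K 1) (U (K 1) (V L L)))) (U (T (K 5) (S (F 3 (U (K 1) (V L L))) (V (S (F 2 L) (F 2 L)) (U (K 5) (F 2 L))))) (S (F 3 (V (S L L) (S L L))) (V (S (F 3 L) (F 2 L)) (F 3 (S L (S L L))))))) (T (S (F 3 (U (K 1) (V L L))) (U (V (F 2 L) (K 5)) (F 3 (V L L)))) (U (V (S (T (F 2 L) (S (F 2 L) (F 2 L))) (T (F 2 L) L)) (S (T (F 3 (S (K 1) L)) (S L L)) (T (S (F 3 L) (F 2 L)) (S L L)))) (V (S (S (F 2 L) (F 2 L)) (S (F 2 L) (F 2 L))) (S (F 3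 (T L (S L L))) (T (F 3 L) L)))))))
noncomputable def v18_12 : Tr := (U (V (F 18 (S (T (V (S L (K 2)) (U (S (F 16 L) (K 2)) (S (F 16 L) (F 16 L)))) (U (K 2) (V (K 2) (S (S L L) (S L (K 2)))))) (T (V (K 2) (T L (K 2))) (K 2)))) (S (T (V (S (S (F 2 L) (F 2 L)) (F 18 (U L (F 16 L)))) (U (S (S (F 3 L) (F 2 L)) (S (F 3 L) (F 2 L))) (F 3 (S L L)))) (U (V (S (S L L) (S L (K 3))) (S (T L (S L L)) (T L (S L (F 16 L))))) (V (S (S (F 2 L) (F 2 L)) L) (S (S L L) (S L L))))) (T (V (F 18 (U (S L (K 2)) (S (F 16 L) (F 17 L)))) (S (T (F 18 L) L) (T (F 18 L) (F 16 L)))) (V (U (K 3) (S (S (F 18 L) (F 80 L)) (F 80 L))) (S (U (T (F 16 L) L) (S L (F 1 L))) (U (S (F 16 L) (F 16 L)) L)))))) (V (S (F 18 (T (U (S (F 16 L) (F 16 L)) (S (F 16 L) (F 16 L))) (U (V (S (F 16 L) (F 16 L)) (S L L)) (V (S (F 16 L) (F 17 L)) (S (F 16 L) (F 16 L)))))) (F 17 (T (V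 (F 17 (S L L)) (S (F 16 L) (F 17 L))) (S (V (S (F 16 L) (F 16 L)) (S L L)) (V (F 1 L) (S L (F 1 L))))))) (S (T (F 3 (V (S L L) (U (S L L) L))) (V (S (U (F 2 L) (F 3 L)) (U (F 1 L) (F 3 L))) (S (F 3 (U (S L L) L)) (U (S (F 1 L) (F 1 L)) (F 1 L))))) (T (V (F 19 (U (F 1 (S L L)) L)) (S (F 3 (S L L)) (F 1 L))) (S (V (T (F 17 L) (F 1 L)) (T (F 1 L) (S (F 1 L) (F 65 L)))) (V (F 81 (U L L)) (T (F 65 L) (F 1 L))))))))
noncomputable def v18_13 : Tr := (S (T (F 3 (U (V (S (K 1) (T (K 1) (U (K 1) (S (F 4 L) (F 4 L))))) (K 1)) (V (S (T (S (F 4 L) (F 4 L)) (S L L)) (T (S (F 4 L) (F 4 L)) (V (F 4 L) L))) (S (T (S L L) (V L (S L L))) (T (S L L) (S (S L L) (S L L))))))) (U v18_11 (V (F 3 (S (T (S (S L L) (S L L)) (V (S (S L L) (S L L)) (S (S L L) (V L L)))) (T (V (S (F 4 L) (F 4 L)) (S L L)) (S (V (S L L) (U L L)) (U (V (F 4 L) L) (S L L))))))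 (S (F 3 (T (S (V L L) (V L L)) (S (V (S L L) (V L L)) (V (U L L) (U (S L L) L))))) (T (F 3 (S (V L L) (V L L))) (V (S (F 3 (U (S L L) L)) (T (F 3 L) (S (F 3 L) (F 1 L)))) (F 3 (S (U (S L L) L) (U (S L L) L))))))))) (T (U (V (F 19 (S (T (V L (K 1)) (V (S L L) (S L L))) (T (V L L) (U (K 2) (S L (K 2)))))) (S (F 3 (U (K 1) (T (K 1) (S L (S (F 4 L) (F 4 L)))))) (F 18 (T (F 17 (U (K 2) (S (K 2) L))) (U (S (S (K 1) (F 16 L)) L) (S (F 16 L) (F 16 L))))))) (F 3 (V (S (T (S (F 4 L) (F 4 L)) (S (F 4 L) (F 4 L))) (T (S (F 4 L) (F 5 L)) (S (F 4 L) (F 4 L)))) (S (T (S (F 4 L) (F 4 L)) (U (S (F 4 L) (F 4 L)) L)) (T (S (F 4 L) (F 5 L)) (V (S (F 4 L) (F 5 L)) (S (F 4 L) (F 5 L)))))))) v18_12))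
noncomputable def v18_14 : Tr := (S (T (U (V (S (T (F 20 L) (F 4 L)) (T (F 20 L) (F 4 L))) (S (T (F 4 L) (F 4 L)) (T (F 4 L) (F 4 L)))) (S (V (F 20 (S L L)) (S (F 4 L) (F 4 L))) (V (S (F 4 L) (F 4 L)) (S (F 4 L) (F 4 L))))) (U (V (S (T (S (F 20 L) (F 4 L)) (S (F 4 L) (S (F 4 L) (F 4 L)))) (T (S (F 4 L) (F 4 L)) (V (F 4 L) (F 4 L)))) (S (T (S (F 4 L) (F 4 L)) (V (S (F 4 L) (F 4 L)) (S (F 4 L) (F 4 L)))) (T (S (F 4 L) (F 4 L)) (U (S (F 4 L) (F 4 L)) (S (F 4 L) (F 4 L)))))) (V (S (T (F 4 L) (S (F 4 L) (F 4 L))) (T (F 4 L) (S (F 4 L) (F 4 L)))) (S (T (S (F 4 L) (F 4 L)) (V (S (F 4 L) (F 4 L)) L)) (T (S (F 4 L) (F 4 L)) (U (S (F 4 L) (F 4 L)) (F 4 L))))))) (T (U (V (T (S (F 4 L) (F 4 L)) (S (F 4 L) (F 5 (S L L)))) (S (T (F 4 L) (F 4 L)) (T (F 5 L) (F 4 L)))) (V (T (S (F 4 L) (F 5 L)) (S (F 4 L) (F 5 L))) (S (T (F 4 L) (F 4 L)) (F 5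 (T L L))))) (U (V (S (T (S (F 4 L) (F 5 L)) (S (F 4 L) (F 4 L))) (F 5 (T (S L L) (S L L)))) (S (T (S (F 4 L) (F 4 L)) (U (S (F 4 L) (F 5 L)) (F 4 L))) (F 5 (T (S L L) (U (S L L) L))))) (V (S (T (F 4 L) (F 4 L)) (F 5 (T L L))) (S (T (F 4 L) (S (F 4 L) (F 4 L))) (F 5 (T L (S L L))))))))
noncomputable def v18_15 : Tr := (S (F 3 (T (U (V (S (T L (S (F 4 L) (F 4 L))) (T (F 4 L) (S (F 4 L) (F 4 L)))) (S (T L (S L L)) (T L (S L L)))) (S (V (T (F 4 L) L) (S L L)) (V (T (F 4 L) L) (T L L)))) (U (V (S (T (S L L) (V (S L L) (S L L))) (T (S L L) (U (S L L) (S L L)))) (S (T (S L L) (S (V L L) (V L L))) (T (S (S L L) (S L L)) (S (V L L) (V (S L L) (S L L)))))) (V (S (T (S L (F 4 L)) (V L (S L L))) (T (S (F 4 L) (F 4 L)) (U (S (F 4 L) (F 4 L)) L))) (S (T (S L L) (S L (S L L))) (T (S L L) (V (S L L) (S L L)))))))) (T (F 3 (U (V (S (T (F 4 L) (S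 (F 4 L) (F 4 L))) (T (F 4 L) (F 5 (S L L)))) (S (T L (S L L)) (T (F 4 L) (S (F 4 L) (F 4 L))))) (V (S (T (F 4 L) (F 4 L)) (F 5 (T L L))) (S (T L L) (T (F 5 L) L))))) (U (V (S (F 3 (T (V (F 4 L) L) (V (S (F 4 L) (F 4 L)) (S L L)))) (F 17 (T (V (F 17 L) (F 16 L)) (S (T (F 16 L) L) (T (F 17 L) (F 1 L)))))) (S (T (F 3 (U (S L L) (S (F 4 L) (F 4 L)))) (V (S (F 3 (S L L)) (F 1 L)) (S (F 1 L) (S (F 3 L) (F 1 L))))) (T (F 3 (U (S (F 4 L) (F 1 L)) L)) (S (V (F 1 L) (F 1 L)) (F 65 (U (S L (F 2 L)) L)))))) (V (F 3 (S (T (S (F 4 L) (F 4 L)) (U (S (F 4 L) (F 4 L)) L)) (T (S (F 4 L) (F 5 L)) (F 5 (U (S L L) L))))) (S (T (F 3 (S L L)) (S (T (F 3 L) (F 1 L)) (S (F 1 L) (F 1 L)))) (T (F 3 (S L (F 1 L))) (F 65 (U (S L (F 2 L)) (S (F 16 L) (F 16 L))))))))))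
noncomputable def v18_16 : Tr := (S (T (U (V (K 4) (S (T (S (S (F 320 L) (F 320 L)) (F 256 L)) (S (S (F 256 L) (F 256 L)) (S (F 256 L) (F 256 L)))) (V (K 4) (T (F 256 L) (S (F 256 L) (F 264 L)))))) (V (S (T (F 328 (S L L)) (S (F 256 L) (F 264 L))) (U (K 4) (T (F 328 L) (F 264 L)))) (S (T (S (F 320 L) (F 320 L)) (S (F 256 L) (F 256 L))) (T (S (F 320 L) (F 320 L)) (S (F 256 L) (F 256 L)))))) (U (V (K 4) (S (T (S (T (F 256 L) (F 256 L)) (S (F 256 L) (F 256 L))) (S (T (F 256 L) (F 256 L)) (T (F 256 L) (F 256 L)))) (U (K 4) (V (K 4) (T (F 256 L) (F 256 L)))))) (V (S (T (S (F 256 L) (S (F 264 L) (F 264 L))) (S (F 256 L) (F 256 L))) (U (K 4) (V (K 4) (S (F 256 L) (F 264 L))))) (S (T (S (S (F 256 L) (F 256 L)) (S (F 256 L) (F 256 L))) (S (S (F 256 L) (F 256 L)) (S (F 256 L) (F 256 L)))) (T (S (S (F 256 L) (F 256 L)) (S (F 256 L) (F 256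 L))) (S (S (F 256 L) (F 256 L)) (S (F 256 L) (F 264 L)))))))) (T (U (K 4) (V (F 1007 (S (K 0) (K 0))) (S (S (T (F 260 L) (F 256 L)) (T (F 268 L) (F 264 L))) (F 268 (U (K 4) (T (F 4 L) L)))))) (U (K 4) (S (V (K 4) (T (S (F 256 L) (F 264 L)) (S (F 256 L) (F 264 L)))) (F 269 (V (K 4) (U (K 4) (T (S L (F 1 L)) (S L (F 1 L))))))))))
noncomputable def v18_17 : Tr := (T (U (V (K 4) (S (T (F 456 (U (K 2) (S (V (K 2) (T (F 8 L) L)) (K 2)))) (U (K 4) (S (V (K 4) (U (K 4) (T (F 456 L) (F 320 L)))) (K 4)))) (K 4))) (V (F 460 (S (U (K 2) (V (K 2) (T (S (F 1 L) (F 1 L)) (S (S L L) (K 2))))) (K 2))) (S (T (F 452 (U (V (S (F 8 L) (K 2)) (S (S (F 8 L) (F 8 L)) (S (F 8 L) (F 8 L)))) (V (F 9 (S L L)) (S (F 1 L) (F 1 L))))) (S (V (F 448 (U (U (K 2) (S (F 8 L) (K 2))) (V (F 8 L) L))) (U (T (F 448 L) (S (F 320 L) (F 320 L))) (T (F 960 L) (F 320 L))))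 (T (F 324 (V (F 18 (U (K 2) L)) (U (S (F 16 L) (F 16 L)) (F 2 L)))) (V (F 328 (U (K 3) L)) (U (S (F 328 L) (F 324 L)) (F 320 L)))))) (F 324 (T (F 18 (U (S (V (K 2) (S L L)) (K 2)) (V (S (F 16 L) (K 2)) (S (S (F 16 L) (F 16 L)) (S (F 16 L) (F 16 L)))))) (V (U (K 3) (S (S (F 16 L) (K 3)) (K 3))) (U (F 18 (T (S (S L (K 2)) (K 2)) (K 2))) (S (S L (T (F 17 L) (F 16 L))) (T (F 17 L) (S (F 16 L) (F 17 L))))))))))) (U (F 1007 (V (K 0) (S (K 0) (K 0)))) (V (F 456 (S (T (U (K 2) (S (T (V (K 2) (S L (K 2))) (K 2)) (K 2))) (K 2)) (K 2))) v18_16)))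
noncomputable def v18_18 : Tr := (T (U (V (F 448 (S (T (F 16 L) (S L (F 16 L))) (K 2))) (S (F 448 (T (S (F 16 L) (F 16 L)) (V (S (F 16 L) (F 16 L)) (S (F 16 L) L)))) (T (F 452 (S L L)) (S (F 320 L) (F 320 L))))) (V (F 452 (S (T L (S L L)) (T L (S L L)))) (S (F 448 (T (F 17 (S L L)) (S L L))) (F 324 (T (F 3 (S L L)) (S L L)))))) (U (V (F 448 (S (V (K 2) (U (K 2) (T L (S L (K 2))))) (K 2))) (S (T (V (S (F 320 L) (F 320 L)) (S (F 320 L) (F 320 L))) (S (V (S (F 320 L) (F 320 L)) (T (F 320 L) (F 256 L))) (V (S (F 320 L) (F 320 L)) (T (F 320 L) (F 256 L))))) (T (V (S (F 320 L) (K 4)) (S (F 320 L) (F 320 L))) (S (V (S (F 320 L) (F 320 L)) (S (F 256 L) (F 320 L))) (V (K 4) (S (F 320 L) (F 320 L))))))) (V (S (T (S (F 448 L) (F 320 L)) (V (F 448 (S L L)) (S (F 320 L) (F 320 L)))) (T (S (F 320 L) (F 320 L)) (V (K 4) (S (F 320 L) (F 320 L)))))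 (S (T (S (F 320 L) (S (F 320 L) (F 320 L))) (S (T (F 320 L) (F 256 L)) (T (S (F 320 L) (F 320 L)) (F 256 L)))) (T (V (F 320 L) (F 324 (S L L))) (S (T (F 320 L) (F 256 L)) (V (F 320 L) (F 320 L))))))))
noncomputable def v18_19 : Tr := (V (S (T (S (V (S (F 320 L) (F 320 L)) (U (F 320 L) (F 448 L))) (V (S (F 320 L) (F 320 L)) (T (F 320 L) (F 320 L)))) (S (V (T (S (F 320 L) (F 320 L)) (F 256 L)) (T (S (F 320 L) (F 320 L)) (S (F 256 L) (F 256 L)))) (V (T (S (F 320 L) (F 320 L)) (F 256 L)) (U (S (F 256 L) (F 256 L)) (S (F 320 L) (F 320 L)))))) (T (S (V (S (F 320 L) (F 320 L)) (T (F 320 L) (F 320 L))) (V (S (F 320 L) (F 320 L)) (S (F 320 L) (F 320 L)))) (S (V (S (F 256 L) (F 256 L)) (U (S (F 320 L) (F 320 L)) (F 256 L))) (V (S (F 256 L) (F 256 L)) (U (F 256 L) (F 256 L)))))) (S (T (S (V (U (S (F 320 L) (F 320 L)) (F 320 L)) (U (F 64 L)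 (F 320 L))) (V (U (S (F 320 L) (F 320 L)) (F 320 L)) (U (S (F 320 L) (F 320 L)) (S (F 320 L) (F 320 L))))) (S (V (T (U (F 320 L) (F 320 L)) (S (F 256 L) (F 256 L))) (T (S (F 64 L) (F 64 L)) (S L L))) (V (U (S (F 256 L) (F 256 L)) (F 256 L)) (U (S L L) (S (F 256 L) (F 256 L)))))) (T (S (V (U (S (F 320 L) (F 320 L)) (F 320 L)) (U (S (F 320 L) (F 320 L)) (F 320 L))) (V (U (S (F 320 L) (F 324 L)) (F 320 L)) (U (S (F 320 L) (F 320 L)) (F 320 L)))) (S (V (U (S (F 256 L) (F 256 L)) (F 256 L)) (U (T (F 256 L) L) (S (F 256 L) (F 256 L)))) (V (U (S (F 256 L) (F 256 L)) (F 256 L)) (U (S (F 256 L) (F 256 L)) (S (F 256 L) (F 256 L))))))))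
noncomputable def v18_20 : Tr := (T (U (V (S (T (F 452 (V (S (F 1 L) L) (S L L))) (S (V (F 448 L) (F 320 L)) (S (F 320 L) (F 320 L)))) (T (F 324 (S (T (F 2 L) L) (S L L))) (S (V (F 324 L) (F 320 L)) (V (F 324 L) (F 320 L))))) (S (T (F 324 (S (U (S (K 5) (F 2 L)) (F 3 L)) (T (F 2 L) L))) (S (V (F 320 L) (F 320 L)) (V (F 320 L) (S (F 320 L) (F 320 L))))) (T (F 324 (S (V (F 2 L) L) (V (F 2 L) L))) (S (V (F 324 (S L L)) (S (F 320 L) (F 320 L))) (V (F 320 L) (S (F 320 L) (F 320 L))))))) (V (S (T (F 964 (S L L)) (S (F 448 L) (F 320 L))) (T (F 452 (S L L)) (S (F 320 L) (F 320 L)))) (S (F 832 (T (F 17 (S L (S L L))) (S L (S L L)))) (T (F 324 (S (F 1 L) L)) (S (F 320 L) (S (F 320 L) (F 320 L))))))) (U v18_19 (V (S (T (S (S (F 320 L) (F 320 L)) (V (F 320 L) (F 320 L))) (S (V (S (F 320 L) (F 320 L)) (S (F 320 L) (F 320 L))) (V (S (F 320 L)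 (F 320 L)) (S (F 320 L) (F 320 L))))) (T (S (V (F 320 L) (F 320 L)) (V (F 320 L) (F 320 L))) (S (V (F 256 L) (F 256 L)) (V (F 256 L) (F 256 L))))) (S (T (S (V (F 320 L) (F 832 (S L L))) (V (F 320 L) (F 320 L))) (S (T (V (F 320 L) (F 320 L)) (S (F 256 L) (F 256 L))) (V (S (F 320 L) (F 256 L)) (S (F 256 L) (F 256 L))))) (T (S (V (F 320 L) (F 320 L)) (V (F 320 L) (S (F 320 L) (F 320 L)))) (S (V (S (F 320 L) (F 256 L)) (S (F 256 L) (F 256 L))) (V (S (F 256 L) (F 320 L)) (S (F 256 L) (F 256 L)))))))))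
noncomputable def v18_21 : Tr := (U (V (S (T (S (V (S (F 320 L) (F 320 L)) (S (F 320 L) (F 320 L))) (V (F 320 L) (S (F 320 L) (F 324 L)))) (S (V (S (F 256 L) (F 256 L)) (T (F 256 L) (F 256 L))) (V (S (F 256 L) (F 260 L)) (S (F 256 L) (F 256 L))))) (T (F 324 (V (U (K 3) (S L (K 3))) (S (S L L) (S L L)))) (S (V (F 256 L) (S (F 256 L) (F 256 L))) (V (K 4) (F 256 L))))) (S (T (S (V (T (F 320 L) (F 256 L)) (T (S (F 320 L) (F 324 L)) (F 256 L))) (V (S (F 320 L) (F 320 L)) (T (F 320 L) (F 256 L)))) (S (V (U (S (F 256 L) (F 256 L)) (F 256 L)) (U (S (F 256 L) (F 256 L)) (S (F 320 L) (F 320 L)))) (V (U (F 256 L) (F 256 L)) (U (S (F 256 L) (F 256 L)) (F 256 L))))) (T (S (T (V (F 324 L) (F 320 L)) (S (F 256 L) (F 256 L))) (V (T (F 324 L) (F 260 L)) (S (F 260 L) (F 260 L)))) (S (V (S (F 256 L) (F 256 L)) (T (F 256 L) (S (F 256 L) (F 256 L))))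 (V (S (F 256 L) (F 256 L)) (T (F 256 L) (F 256 L))))))) (V (S (T (S (S (F 320 L) (F 320 L)) (S (F 320 L) (F 320 L))) (S (V (F 256 L) (F 256 L)) (V (F 320 L) (F 256 L)))) (T (S (T (F 324 L) (F 320 L)) (F 324 (S L L))) (S (S (F 256 L) (F 256 L)) (T (F 260 L) (F 256 L))))) (S (T (S (V (F 320 L) (F 320 L)) (T (F 320 L) (F 256 L))) (S (V (F 256 L) (S (F 256 L) (F 256 L))) (V (F 256 L) (S (F 256 L) (F 256 L))))) (T (S (V (F 324 (S L L)) (F 320 L)) (F 324 (V L (S L L)))) (S (V (F 256 L) (F 256 L)) (V (F 256 L) (F 256 L)))))))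
noncomputable def v18_22 : Tr := (V (S v18_18 (T (F 324 (U (V (K 3) (S (V (K 3) (T (F 2 L) (S L L))) (K 3))) (V (S (T (F 18 L) L) (K 3)) (S (T (S (F 2 L) (F 18 L)) (S L L)) (T L (S L (F 16 L))))))) (U (V (K 4) (S (S (U (K 4) (T (F 320 L) (S (F 320 L) (F 320 L)))) (K 4)) (K 4))) (V (F 324 (S (T (S L (K 3)) (K 3)) (K 3))) (S (T (S (S (F 320 L) (F 320 L)) (F 324 (S L L))) (S (S (F 256 L) (F 256 L)) (S (F 256 L) (F 256 L)))) (T (F 324 (S (S L L) L)) (S (F 256 L) (S (F 260 L) (F 260 L))))))))) (S v18_20 (T (U (V (S (T (F 324 (V L (S (F 2 L) (F 2 L)))) (S (T (F 324 (S L L)) (F 320 L)) (F 324 (V L L)))) (F 324 (T (S (S L L) L) (V (S L L) (S L L))))) (S (T (F 324 (S (V L L) (V L L))) (S (V (F 324 (S L L)) (T (F 324 L) (F 320 L))) (F 324 (V (S L L) (T L L))))) (F 324 (T (S (T L L) (S L L)) (S (V (S L L) (S L L)) (V L (S L L))))))) (V (F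 324 (S (T (S (F 2 L) (F 2 L)) (S (S L L) (S L L))) (T (S (F 2 L) (F 2 L)) (S (S L L) L)))) (S (T (F 324 (S L L)) (S (T (F 324 L) (F 320 L)) (F 324 (T L L)))) (F 324 (T (S L L) (S (S L L) (S L L))))))) v18_21)))
noncomputable def v18_23 : Tr := (S (T (S (F 448 (V (U (S (F 16 L) (F 16 L)) (F 17 (S L L))) (U (T (F 17 L) L) (F 17 (S L L))))) (F 324 (U (V (S (F 2 L) (F 2 L)) (T (F 3 L) L)) (F 3 (V (S L L) (S L L)))))) (U (S (V (T (F 448 (S L L)) (S (F 320 L) (F 320 L))) (T (F 448 (S L L)) (S (S (F 832 L) (F 320 L)) (S (F 320 L) (F 320 L))))) (V (T (F 320 L) (S (F 320 L) (F 320 L))) (T (S (F 320 L) (F 320 L)) (S (S (F 320 L) (F 320 L)) (S (F 320 L) (F 320 L)))))) (V (S (T (F 448 L) (F 832 (S L L))) (T (F 324 L) (S (F 832 L) (F 320 L)))) (S (F 832 (T L (S L L))) (T (F 836 (S L L)) (S (F 320 L) (F 320 L))))))) (T (F 324 (S (U (V (S (F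 2 L) (F 2 L)) (S L (S L L))) (V (F 3 (S L L)) (S (F 3 L) (F 1 L)))) (V (U (S (F 16 L) (F 16 L)) (F 16 L)) (U (S L L) (S (F 1 L) (F 1 L)))))) (U (V (S (T (F 324 (S L L)) (S (F 320 L) (F 320 L))) (F 324 (T (S (F 16 L) (F 16 L)) (S L L)))) (S (T (S (F 320 L) (F 324 L)) (F 324 (V (S L L) (S L L)))) (F 324 (T (S L L) (S (S L L) (S L L)))))) (V (F 324 (S (T L (S L L)) (T L (S L (F 16 L))))) (S (T (F 836 (S L L)) (S (F 320 L) (F 324 L))) (F 324 (T L (S L L))))))))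
noncomputable def v18_24 : Tr := (S (T (F 836 (U (S (V (T (F 1 L) (S (F 1 L) L)) (T (F 1 L) (S L L))) (V (T (S (F 1 L) (F 1 L)) (S L L)) (T L (S L (S L L))))) (S (V (S (F 1 L) (F 1 L)) (S (F 1 L) (F 1 L))) (V (T (F 1 L) L) (S L L))))) (U (V (S (T (S (F 832 L) (F 320 L)) (S (S (F 320 L) (F 320 L)) (S (F 320 L) (F 320 L)))) (T (S (F 320 L) (F 320 L)) (S (S (F 320 L) (F 320 L)) (F 256 L)))) (S (T (F 832 (S L (S L L))) (S (T (F 832 L) (F 768 L)) (T (F 832 (S L L)) (F 768 L)))) (T (F 832 (S (S L L) (S L L))) (S (T (F 768 L) (F 768 L)) (S (F 256 L) (F 256 L)))))) (S (F 832 (V (T L (S L L)) (T (S (F 1 L) (F 16 L)) (S L L)))) (V (F 832 (T (S (F 16 L) (F 16 L)) (S L (S L L)))) (T (F 836 (S L L)) (S (F 832 L) (F 768 L))))))) (T (F 324 (V (U (S (T (F 2 L) (S (F 1 L) (F 1 L))) (T L (S (F 1 L) (F 1 L)))) (S (S (F 1 L) (F 1 L)) (S (F 1 L) (F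 1 L)))) (S (U (T (F 3 (S L L)) (V L (S (F 1 L) (F 1 L)))) (S (F 1 L) (F 1 L))) (U (T (S (F 1 L) (F 1 L)) (S (F 1 L) (F 1 L))) (T (F 1 L) (S (F 1 L) (F 1 L))))))) (U (V (S (T (S (F 320 L) (F 320 L)) (S (F 256 L) (F 256 L))) (T (F 324 (S (S L L) L)) (S (F 256 L) (S (F 260 L) (F 260 L))))) (S (T (S (F 320 L) (F 320 L)) (S (S (F 256 L) (F 256 L)) (F 256 L))) (T (F 324 (S (S L L) (S L L))) (S (F 256 L) (F 256 L))))) (S (V (T (F 836 (S L L)) (S (F 768 L) (F 260 L))) (T (F 836 (S L L)) (S (F 768 L) (F 768 L)))) (V (T (F 836 (S L L)) (S (F 260 L) (F 324 L))) (T (F 836 (S L L)) (S (F 768 L) (F 772 L))))))))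
noncomputable def v18_25 : Tr := (U (V (S (S (U (K 4) (V (K 4) (T (F 320 L) (F 256 L)))) (K 4)) (K 4)) (S (T (S (V (S (F 256 L) (F 256 L)) (T (F 256 L) (S (F 256 L) (F 256 L)))) (V (S (F 256 L) (F 256 L)) (T (F 256 L) (S (F 256 L) (F 256 L))))) (S (V (T (F 256 L) (F 256 L)) (T (S (F 256 L) (F 256 L)) (S (F 256 L) (F 256 L)))) (V (T (F 256 L) (F 256 L)) (U (S (F 256 L) (F 256 L)) (S (F 256 L) (F 256 L)))))) (T (S (V (S (F 256 L) (K 4)) (T (F 256 L) (F 256 L))) (U (K 4) (S (F 256 L) (F 256 L)))) (S (V (T (F 256 L) (F 256 L)) (U (S (F 256 L) (F 256 L)) (F 256 L))) (U (K 4) (T (F 256 L) (F 256 L))))))) (V (S (T (S (V (F 320 L) (F 256 L)) (T (F 256 L) (F 256 L))) (S (V (F 256 L) (S (F 256 L) (F 256 L))) (V (F 256 L) (S (F 256 L) (F 256 L))))) (U (K 4) (V (K 4) (T (F 256 L) (S (F 320 L) (F 320 L)))))) (S (T (S (V (F 256 L) (S (F 320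 L) (F 320 L))) (V (F 256 L) (F 256 L))) (S (V (S (F 256 L) (F 256 L)) (S (F 256 L) (F 256 L))) (V (S (F 256 L) (F 256 L)) (S (F 256 L) (F 256 L))))) (T (S (V (F 256 L) (S (F 256 L) (F 320 L))) (V (F 256 L) (F 256 L))) (S (V (S (F 256 L) (F 256 L)) (S (F 256 L) (F 256 L))) (V (S (F 256 L) (F 256 L)) (S (F 256 L) (F 256 L))))))))
noncomputable def v18_26 : Tr := (U (V (F 1007 (S (K 0) (K 0))) (S (T (S (V (U (S (F 256 L) (K 4)) (F 256 L)) (U (S (F 256 L) (F 256 L)) (S (F 256 L) (F 256 L)))) (V (U (K 4) (F 256 L)) (U (S (F 256 L) (F 256 L)) (S (F 256 L) (F 256 L))))) (S (V (T (S (F 256 L) (F 256 L)) (S (F 256 L) (F 256 L))) (U (S (F 256 L) (F 256 L)) (S (F 256 L) (F 256 L)))) (V (U (K 4) (F 256 L)) (U (S (F 256 L) (F 256 L)) (S (F 256 L) (F 256 L)))))) (T (V (K 4) (S (U (S (F 256 L) (K 4)) (F 256 L)) (U (K 4) (F 256 L)))) (V (K 4)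 (S (U (S (F 256 L) (K 4)) (S (F 256 L) (F 256 L))) (T (F 256 L) (F 256 L))))))) (V (S (T (S (V (F 256 L) (S (F 256 L) (F 256 L))) (V (S (F 256 L) (K 4)) (S (F 256 L) (F 256 L)))) (S (V (S (F 256 L) (F 256 L)) (S (F 256 L) (F 256 L))) (V (S (F 256 L) (K 4)) (S (F 256 L) (F 256 L))))) (V (K 4) (U (K 4) (T (S (F 256 L) (F 256 L)) (S (F 256 L) (F 264 L)))))) (S (T (S (V (S (F 256 L) (F 256 L)) (S (F 256 L) (F 256 L))) (V (S (F 256 L) (F 256 L)) (S (F 256 L) (F 256 L)))) (S (V (S (F 256 L) (F 256 L)) (S (F 256 L) (F 256 L))) (V (S (F 256 L) (F 256 L)) (S (F 256 L) (F 256 L))))) (T (S (V (S (F 256 L) (F 256 L)) (S (F 256 L) (F 256 L))) (V (S (F 256 L) (F 256 L)) (S (F 256 L) (F 256 L)))) (S (V (S (F 256 L) (F 256 L)) (S (F 256 L) (F 256 L))) (V (S (F 256 L) (F 256 L)) (S (F 256 L) (F 256 L))))))))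
noncomputable def v18_27 : Tr := (S (T (S (V (U (S L L) (S (F 256 L) (F 256 L))) (U (T L (S (F 256 L) (F 256 L))) (S L L))) (V (U (T (S (F 256 L) (F 256 L)) (S (F 256 L) (F 256 L))) (S (F 256 L) (F 256 L))) (U (T L L) (S L L)))) (S (V (U (T L (S (F 256 L) (F 256 L))) (T (F 256 L) (F 256 L))) (T (U (S L L) L) (U (S L (F 256 L)) L))) (V (U (S (S L L) (T (F 256 L) (F 256 L))) (T (F 256 L) (F 256 L))) (U (T (S (F 256 L) (F 256 L)) (S (F 256 L) (F 256 L))) (S L L))))) (T (S (V (U (T (F 256 L) (F 256 L)) (S (F 256 L) (F 256 L))) (U (T L L) (T (F 256 L) (F 256 L)))) (V (U (T (F 256 L) (F 256 L)) (S (F 256 L) (F 256 L))) (U (T (S (F 256 L) (F 256 L)) (S (F 256 L) (F 256 L))) (S (F 256 L) (F 256 L))))) (S (V (T (U (S (F 256 L) (F 256 L)) (F 256 L)) (U (S (F 256 L) (F 256 L)) (F 256 L))) (U (T (S (F 256 L) (F 256 L)) L) (T (F 256 L) (S (F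 256 L) (F 256 L))))) (V (U (T (S (F 256 L) (F 256 L)) (S (F 256 L) (F 256 L))) (S (F 256 L) (F 256 L))) (U (S (S L L) (T (F 256 L) (F 256 L))) (T (F 256 L) (F 256 L)))))))
noncomputable def v18_28 : Tr := (V (S (T (S (V (S (F 256 L) (F 256 L)) (S (F 256 L) (F 256 L))) (V (S (F 256 L) (F 256 L)) (S (F 256 L) (F 256 L)))) (S (V (T (F 256 L) (F 256 L)) (T (F 256 L) (S (F 256 L) (F 256 L)))) (V (S (F 256 L) (F 256 L)) (T (F 256 L) (F 256 L))))) (T (S (V (S (F 256 L) (F 256 L)) (S (F 256 L) (F 256 L))) (V (S (F 256 L) (F 256 L)) (S (F 256 L) (F 256 L)))) (S (V (S (F 256 L) (F 256 L)) (T (F 256 L) (F 256 L))) (V (S (F 256 L) (F 256 L)) (S (F 256 L) (F 256 L)))))) (S (T (S (V (T (F 256 L) (F 256 L)) (T (F 256 L) (S (F 768 L) (F 768 L)))) (V (T (F 256 L) (F 256 L)) (T (F 256 L) (F 256 L)))) (S (V (U (S (F 256 L) (F 256 L)) (F 256 L)) (U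 L (F 256 L))) (V (U (S (F 256 L) (F 256 L)) (F 256 L)) (U (S (F 256 L) (F 256 L)) (F 256 L))))) (T (S (V (T (F 256 L) (F 256 L)) (T (F 256 L) (S (F 768 L) (F 768 L)))) (V (S (F 256 L) (F 256 L)) (T (F 256 L) (F 256 L)))) (S (V (T (F 256 L) (S (F 256 L) (F 256 L))) (U (S (F 256 L) (F 256 L)) (F 256 L))) (V (T (F 256 L) (F 256 L)) (U (S (F 256 L) (F 256 L)) (F 256 L)))))))
noncomputable def v18_29 : Tr := (U (V (S (T (S (V (U (S (F 256 L) (F 256 L)) (S (F 256 L) (F 320 L))) (U (T (F 256 L) (S (F 256 L) (F 256 L))) (S (F 256 L) (F 256 L)))) (V (U (S (F 256 L) (F 256 L)) (F 256 L)) (U (T (F 256 L) (F 256 L)) (S (F 256 L) (F 256 L))))) (S (V (U (T (F 256 L) (F 256 L)) (S (F 256 L) (F 256 L))) (U (T (S (F 256 L) (F 256 L)) (S (F 256 L) (F 256 L))) (S (F 256 L) (F 256 L)))) (V (U (S (F 256 L) (F 256 L)) (S (F 256 L) (F 256 L))) (U (T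 (S (F 256 L) (F 256 L)) (S (F 256 L) (F 256 L))) (S (F 256 L) (F 256 L)))))) (T (S (V (U (S (F 256 L) (F 256 L)) (F 256 L)) (U (S (F 256 L) (F 256 L)) (S (F 256 L) (F 256 L)))) (V (U (S (F 256 L) (F 256 L)) (F 256 L)) (U (S (F 256 L) (F 256 L)) (S (F 256 L) (F 256 L))))) (S (V (U (S (F 256 L) (F 256 L)) (S (F 256 L) (F 256 L))) (U (T (F 256 L) (F 256 L)) (S (F 256 L) (F 256 L)))) (V (U (S (F 256 L) (F 256 L)) (S (F 256 L) (F 256 L))) (U (T (F 256 L) (F 256 L)) (S (F 256 L) (F 256 L))))))) v18_27) v18_28)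
noncomputable def v18_30 : Tr := (S (T (S (V (U (T (F 256 L) (F 256 L)) (S (F 256 L) (F 256 L))) (U (T (S (F 256 L) (F 256 L)) (S (F 256 L) (F 256 L))) (S (F 256 L) (F 256 L)))) (V (U (T (F 256 L) (F 256 L)) (S (F 256 L) (F 256 L))) (U (T (S (F 256 L) (F 256 L)) (S (F 256 L) (F 256 L))) (S (F 256 L) (F 256 L))))) (S (V (U (T (F 256 L) (S (F 256 L) (F 256 L))) (S (F 256 L) (F 256 L))) (U (T (S (F 256 L) (F 256 L)) (S (F 256 L) (F 256 L))) (T (F 256 L) (F 256 L)))) (V (T (S (F 256 L) (F 256 L)) (S (F 256 L) (F 256 L))) (U (T (S (F 256 L) (F 256 L)) (S (F 256 L) (F 256 L))) (S (F 256 L) (F 256 L)))))) (T (S (V (T (S (F 256 L) (F 256 L)) (S (F 256 L) (F 256 L))) (U (T (S (F 256 L) (F 256 L)) (F 256 L)) (S (F 256 L) (F 256 L)))) (V (U (S (F 256 L) (F 256 L)) (S (F 256 L) (F 256 L))) (T (S (F 256 L) (F 256 L)) (S (F 256 L) (F 256 L)))))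 (S (V (T (S (F 256 L) (F 256 L)) (S (F 256 L) (F 256 L))) (U (T (F 256 L) (F 256 L)) (S (F 256 L) (F 256 L)))) (V (U (S (F 256 L) (F 256 L)) (S (F 256 L) (F 256 L))) (U (T (F 256 L) (F 256 L)) (S (F 256 L) (F 256 L)))))))
noncomputable def v18_31 : Tr := (S (T (S (V (U (T L (S (F 256 L) (F 256 L))) (T (F 256 L) (F 256 L))) (U (T (S L L) (S L L)) (S L L))) (V (T (U (S (F 256 L) (F 256 L)) (F 256 L)) (U L (F 256 L))) (U (T (S (F 256 L) L) (S (F 256 L) (F 256 L))) (S L L)))) (S (V (U (T L (S (F 256 L) (F 256 L))) (S L L)) (U (T (S L (F 256 L)) (S L (F 256 L))) (S L L))) (V (U (T L L) (T (F 256 L) (F 256 L))) (U (T (S (F 256 L) (F 256 L)) (S L (F 256 L))) (S L L))))) (T (S (V (U (T (S (F 256 L) (F 256 L)) (S (F 256 L) (F 256 L))) (T (F 256 L) (F 256 L))) (U (T L (S (F 256 L) (F 256 L))) (T (S (F 256 L) (F 256 L)) (S (F 256 L) (F 256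 L))))) (V (U (T (S (F 256 L) (F 256 L)) (S (F 256 L) (F 256 L))) (S (F 256 L) (F 256 L))) (T (U (S (F 256 L) (F 256 L)) (F 256 L)) (U (S (F 256 L) (F 256 L)) (F 256 L))))) (S (V (U (T (S (F 256 L) (F 256 L)) (S (F 256 L) (F 256 L))) (S (F 256 L) (F 256 L))) (U (T L (S (F 256 L) (F 256 L))) (T (F 256 L) (F 256 L)))) (V (U (T (S (F 256 L) (F 256 L)) (S (F 256 L) (F 256 L))) (S (F 256 L) (F 256 L))) (T (U (S (F 256 L) (F 256 L)) (F 256 L)) (U (S (F 256 L) (F 256 L)) (F 256 L)))))))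
noncomputable def v18_32 : Tr := (V (S (T (S (V (T (F 256 L) (F 256 L)) (U (S (F 256 L) (F 256 L)) (F 256 L))) (V (T (F 256 L) (F 256 L)) (T (F 256 L) (S (F 256 L) (F 256 L))))) (S (V (T (F 256 L) (F 256 L)) (U (S (F 256 L) (F 256 L)) (F 256 L))) (V (T (F 256 L) (F 256 L)) (T (F 256 L) (F 256 L))))) (T (S (V (S (F 256 L) (F 256 L)) (T (F 256 L) (F 256 L))) (V (S (F 256 L) (F 256 L)) (T (F 256 L) (F 256 L)))) (S (V (S (F 256 L) (F 256 L)) (T (F 256 L) (F 256 L))) (V (S (F 256 L) (F 256 L)) (S (F 256 L) (F 256 L)))))) (S (T (S (V (U (S (F 256 L) (F 256 L)) (F 256 L)) (U (S (F 256 L) (F 256 L)) (F 256 L))) (V (U (S (F 256 L) (F 256 L)) (F 256 L)) (U (S (F 256 L) (F 256 L)) (F 256 L)))) (S (V (U (S (F 256 L) (F 256 L)) (F 256 L)) (U L (F 256 L))) (V (U (S (F 256 L) (F 256 L)) (F 256 L)) (U (S (F 256 L) (F 256 L)) (F 256 L))))) (T (S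 (V (T (S (F 256 L) (F 256 L)) (S (F 256 L) (F 256 L))) (U (S (F 256 L) (F 256 L)) (F 256 L))) (V (T (S (F 256 L) (F 256 L)) (F 256 L)) (U (S (F 256 L) (F 256 L)) (F 256 L)))) (S (V (U (S (F 256 L) (F 256 L)) (F 256 L)) (U (S (F 256 L) (F 256 L)) (F 256 L))) (V (T (F 256 L) (S (F 256 L) (F 256 L))) (U (S (F 256 L) (F 256 L)) (F 256 L)))))))
noncomputable def v18_33 : Tr := (V (S (T (S (V (T (F 256 L) (F 256 L)) (U (S (F 256 L) (F 256 L)) (F 256 L))) (V (S (F 256 L) (F 256 L)) (T (F 256 L) (S (F 256 L) (F 256 L))))) (S (V (U (S (F 256 L) (F 256 L)) (F 256 L)) (U (S (F 256 L) (F 256 L)) (S (F 256 L) (F 256 L)))) (V (T (F 256 L) (F 256 L)) (U (S (F 256 L) (F 256 L)) (S (F 256 L) (F 256 L)))))) (T (S (V (S (F 256 L) (K 4)) (T (F 256 L) (F 256 L))) (U (K 4) (S (F 256 L) (F 260 L)))) (S (V (S (F 256 L) (K 4)) (T (F 256 L) (F 256 L)))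 (U (K 4) (S (F 256 L) (F 256 L)))))) (S (T (S (V (U (S (F 256 L) (F 256 L)) (S (F 256 L) (F 256 L))) (U (T (F 256 L) (S (F 256 L) (F 256 L))) (S (F 256 L) (F 256 L)))) (V (U (S (F 256 L) (F 256 L)) (S (F 256 L) (F 260 L))) (U (T (F 256 L) (F 256 L)) (S (F 256 L) (F 256 L))))) (S (V (U (T (F 256 L) (F 256 L)) (S (F 256 L) (F 256 L))) (U (T (S (F 256 L) (F 256 L)) (S (F 256 L) (F 256 L))) (S (F 256 L) (F 256 L)))) (V (U (S (F 256 L) (F 256 L)) (S (F 256 L) (F 256 L))) (U (T (S (F 256 L) (F 256 L)) (F 256 L)) (S (F 256 L) (F 256 L)))))) (T (S (V (U (S (F 256 L) (F 256 L)) (F 256 L)) (U (S (F 256 L) (F 256 L)) (S (F 256 L) (F 256 L)))) (V (T (F 256 L) (F 256 L)) (U (S (F 256 L) (F 256 L)) (F 256 L)))) (S (V (U (S (F 256 L) (F 256 L)) (F 256 L)) (U (T (F 256 L) (F 256 L)) (S (F 256 L) (F 256 L)))) (V (T (F 256 L) (F 256 L)) (U (S (F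 256 L) (F 256 L)) (F 256 L)))))))
noncomputable def v18_34 : Tr := (V (S (T (S (V (U (S (F 256 L) (F 256 L)) (F 256 L)) (U (S (F 256 L) (F 256 L)) (S (F 256 L) (F 256 L)))) (V (T (F 256 L) (F 256 L)) (U (S (F 256 L) (F 256 L)) (S (F 256 L) (F 256 L))))) (S (V (U (S (F 256 L) (F 256 L)) (F 256 L)) (U (S (F 256 L) (F 256 L)) (S (F 256 L) (F 256 L)))) (V (U (K 4) (F 256 L)) (U (S (F 256 L) (F 256 L)) (S (F 256 L) (F 256 L)))))) (T (S (V (S (F 256 L) (K 4)) (T (S (F 256 L) (F 256 L)) (F 256 L))) (U (K 4) (S (F 256 L) (F 256 L)))) (S (V (S (F 256 L) (K 4)) (T (F 256 L) (F 256 L))) (U (K 4) (S (F 256 L) (F 256 L)))))) (S (T (S (V (T (U (S (F 256 L) (F 256 L)) (F 256 L)) (U (F 256 L) (F 256 L))) (U (T (S (F 256 L) (F 256 L)) (S (F 256 L) (F 256 L))) (S (F 256 L) (F 256 L)))) (V (U (T (F 256 L) (F 256 L)) (S (F 256 L) (F 256 L))) (U (T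 (S (F 256 L) (F 256 L)) (S (F 256 L) (F 256 L))) (S (F 256 L) (F 256 L))))) (S (V (U (T (S (F 256 L) (F 256 L)) (F 256 L)) (S (F 256 L) (F 256 L))) (U (T (S (F 256 L) (F 256 L)) (S (F 256 L) (F 256 L))) (T (F 256 L) (F 256 L)))) (V (U (T (F 256 L) (F 256 L)) (S (F 256 L) (F 256 L))) (U (T (S (F 256 L) (F 256 L)) (S (F 256 L) (F 256 L))) (S (F 256 L) (F 256 L)))))) (T (S (V (U (S (F 256 L) (F 256 L)) (S (F 256 L) (F 256 L))) (U (S (F 256 L) (F 256 L)) (S (F 256 L) (F 256 L)))) (V (T (F 256 L) (F 256 L)) (U (S (F 256 L) (F 256 L)) (F 256 L)))) (S (V (U (S (F 256 L) (F 256 L)) (F 256 L)) (U (T (F 256 L) (F 256 L)) (S (F 256 L) (F 256 L)))) (V (T (F 256 L) (F 256 L)) (U (S (F 256 L) (F 256 L)) (F 256 L)))))))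
noncomputable def v18_35 : Tr := (T (U v18_33 (V (S (T (S (V (S (F 256 L) (F 256 L)) (S (F 256 L) (F 256 L))) (V (F 256 L) (S (F 256 L) (F 256 L)))) (S (V (S (F 256 L) (F 256 L)) (S (F 256 L) (F 256 L))) (V (S (F 256 L) (F 256 L)) (S (F 256 L) (F 256 L))))) (T (S (V (F 256 L) (F 256 L)) (V (F 260 L) (F 256 L))) (S (V (F 256 L) (S (F 256 L) (F 256 L))) (V (F 256 L) (F 256 L))))) (S (T (S (V (S (F 256 L) (F 256 L)) (T (F 256 L) (F 256 L))) (V (S (F 256 L) (F 256 L)) (S (F 256 L) (F 256 L)))) (S (V (T (F 256 L) (F 256 L)) (T (F 256 L) (F 256 L))) (V (S (F 256 L) (F 256 L)) (T (F 256 L) (F 256 L))))) (T (S (V (S (F 256 L) (F 256 L)) (S (F 256 L) (F 256 L))) (V (F 256 L) (S (F 256 L) (F 256 L)))) (S (V (S (F 256 L) (F 256 L)) (S (F 256 L) (F 256 L))) (V (S (F 256 L) (F 260 L)) (S (F 256 L) (F 256 L)))))))) (U v18_34 (V (S (T (S (V (S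 (F 256 L) (F 256 L)) (S (F 256 L) (F 256 L))) (V (S (F 256 L) (F 256 L)) (S (F 256 L) (F 256 L)))) (S (V (S (F 256 L) (F 256 L)) (S (F 256 L) (F 256 L))) (V (S (F 256 L) (F 256 L)) (S (F 256 L) (F 256 L))))) (T (S (V (F 256 L) (S (F 256 L) (F 256 L))) (V (F 256 L) (F 256 L))) (S (V (F 256 L) (S (F 256 L) (F 256 L))) (V (F 256 L) (F 256 L))))) (S (T (S (V (T (F 256 L) (F 256 L)) (T (S (F 256 L) (F 256 L)) (S (F 256 L) (F 256 L)))) (V (S (F 256 L) (F 256 L)) (T (F 256 L) (F 256 L)))) (S (V (T (F 256 L) (F 256 L)) (T (S (F 256 L) (F 256 L)) (F 256 L))) (V (S (F 256 L) (F 256 L)) (T (F 256 L) (F 256 L))))) (T (S (V (S (F 256 L) (F 256 L)) (S (F 256 L) (F 256 L))) (V (S (F 256 L) (F 256 L)) (S (F 256 L) (F 256 L)))) (S (V (S (F 256 L) (F 256 L)) (S (F 256 L) (F 256 L))) (V (S (F 256 L) (F 257 L)) (S (F 256 L) (F 256 L)))))))))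
noncomputable def v18_36 : Tr := (T (U (V (S (T (S (S (F 256 L) (F 256 L)) (S (F 256 L) (F 256 L))) (S (T (F 256 L) (F 256 L)) (S (F 256 L) (F 256 L)))) (T (V (S (F 320 L) (F 320 L)) (S (F 320 L) (F 320 L))) (S (S (F 256 L) (F 256 L)) (S (F 256 L) (F 256 L))))) (S (T (S (S (F 256 L) (F 256 L)) (S (F 256 L) (F 256 L))) (S (T (F 256 L) (F 256 L)) (T (F 256 L) (F 256 L)))) (T (S (S (F 256 L) (F 256 L)) (S (F 256 L) (F 256 L))) (S (T (F 256 L) (F 256 L)) (T (F 256 L) (F 256 L)))))) (S (V (T (S (F 320 L) (F 256 L)) (S (F 256 L) (S (F 256 L) (F 768 L)))) (T (S (F 320 L) (F 256 L)) (S (F 256 L) (F 256 L)))) (V (T (S (F 256 L) (F 256 L)) (S (F 256 L) (F 256 L))) (T (S (F 256 L) (F 256 L)) (S (F 256 L) (F 256 L)))))) (U (V (S (T (S (T (F 256 L) (F 256 L)) (T (F 256 L) (F 256 L))) (S (V (F 256 L) (F 256 L)) (T (F 256 L) (F 256 L)))) (T (S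 (T (F 256 L) (F 256 L)) (T (F 256 L) (F 256 L))) (S (V (F 256 L) (F 256 L)) (T (F 256 L) (F 256 L))))) (S (T (S (V (F 256 L) (F 256 L)) (V (F 256 L) (F 256 L))) (S (V (F 256 L) (F 256 L)) (V (F 256 L) (F 256 L)))) (T (S (V (F 256 L) (F 256 L)) (T (F 256 L) (F 256 L))) (S (V (F 256 L) (F 256 L)) (V (F 256 L) (F 256 L)))))) (V (S (T (S (S (F 256 L) (F 256 L)) (S (F 256 L) (F 256 L))) (S (S (F 256 L) (F 256 L)) (S (F 256 L) (F 256 L)))) (T (S (S (F 256 L) (F 256 L)) (S (F 256 L) (F 256 L))) (S (S (F 256 L) (F 256 L)) (S (F 256 L) (F 256 L))))) (S (T (S (S (F 256 L) (F 768 L)) (S (F 256 L) (F 256 L))) (S (S (F 256 L) (F 256 L)) (S (F 256 L) (F 256 L)))) (T (S (S (F 256 L) (F 256 L)) (S (F 256 L) (F 256 L))) (S (S (F 256 L) (F 256 L)) (S (F 256 L) (F 256 L))))))))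
noncomputable def v18_37 : Tr := (T (U (V (S (T (S (F 256 L) (F 256 L)) (S (S (F 256 L) (F 256 L)) (S (F 256 L) (F 256 L)))) (U (K 4) (T (F 260 L) (S (F 260 L) (F 268 L))))) (S (T (S (S (F 256 L) (F 256 L)) (S (F 256 L) (F 256 L))) (S (T (F 256 L) (F 256 L)) (S (F 256 L) (F 256 L)))) (T (S (S (F 256 L) (F 260 L)) (S (F 260 L) (F 260 L))) (V (F 256 L) (S (F 260 L) (F 260 L)))))) (S (V (T (S (F 320 L) (F 260 L)) (S (F 256 L) (F 256 L))) (T (S (F 256 L) (F 256 L)) (S (F 256 L) (F 256 L)))) (V (T (S (F 260 L) (F 324 L)) (S (F 260 L) (F 260 L))) (T (S (F 260 L) (F 260 L)) (S (F 256 L) (F 260 L)))))) (U (V (S (T (S (T (F 256 L) (F 256 L)) (S (F 256 L) (F 256 L))) (S (S (F 256 L) (F 256 L)) (S (F 256 L) (F 256 L)))) (V (K 4) (T (F 256 L) (S (F 257 L) (F 261 L))))) (S (T (S (T (F 256 L) (F 256 L)) (S (F 256 L) (F 256 L))) (S (V (F 256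 L) (F 256 L)) (S (F 256 L) (F 256 L)))) (T (S (S (F 256 L) (F 256 L)) (S (F 256 L) (F 257 L))) (S (S (F 256 L) (F 256 L)) (F 256 L))))) (V (S (T (S (S (F 256 L) (F 256 L)) (F 256 L)) (V (F 256 L) (F 256 L))) (T (S (F 256 L) (F 257 L)) (S (F 257 L) (F 261 L)))) (S (T (S (S (F 256 L) (F 768 L)) (S (F 768 L) (F 768 L))) (S (S (F 256 L) (F 256 L)) (F 256 L))) (T (S (F 256 L) (F 260 L)) (S (F 256 L) (F 257 L)))))))
noncomputable def v18_38 : Tr := (U (V (S (T (S (V (S (F 768 L) (F 768 L)) (F 256 L)) (V (F 256 L) (F 256 L))) (S (V (F 256 L) (S (F 768 L) (F 256 L))) (V (F 256 L) (S (F 768 L) (F 768 L))))) (T (S (V (F 256 L) (S (F 768 L) (F 768 L))) (V (F 256 L) (F 256 L))) (S (V (F 256 L) (F 256 L)) (V (F 256 L) (F 256 L))))) (S (T (S (V (F 256 L) (S (F 768 L) (F 768 L))) (V (S (F 256 L) (F 768 L)) (S (F 768 L) (F 768 L)))) (S (V (S (F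 768 L) (F 768 L)) (S (F 768 L) (F 768 L))) (V (F 256 L) (F 256 L)))) (T (S (V (F 256 L) (F 256 L)) (V (F 256 L) (S (F 768 L) (F 768 L)))) (S (V (F 256 L) (F 256 L)) (V (F 256 L) (F 256 L)))))) (V (S (T (S (S (F 768 L) (F 768 L)) (S (F 768 L) (F 768 L))) (V (S (F 768 L) (F 768 L)) (S (F 768 L) (F 768 L)))) (S (T (S (F 768 L) (F 256 L)) (S (F 768 L) (F 768 L))) (T (S (F 768 L) (F 256 L)) (S (F 256 L) (F 256 L))))) (S (T (S (S (F 768 L) (F 768 L)) (S (F 768 L) (F 768 L))) (S (S (F 768 L) (F 768 L)) (S (F 768 L) (F 768 L)))) (T (S (S (F 768 L) (F 768 L)) (S (F 768 L) (F 768 L))) (S (S (F 768 L) (F 768 L)) (S (F 768 L) (F 768 L)))))))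
noncomputable def v18_39 : Tr := (T (U (V (S (T (S (T (F 256 L) (F 256 L)) (S (F 256 L) (F 256 L))) (S (V (F 256 L) (F 256 L)) (T (F 256 L) (F 256 L)))) (T (S (S (F 256 L) (F 256 L)) (S (F 256 L) (F 256 L))) (S (S (F 256 L) (F 256 L)) (S (F 256 L) (F 256 L))))) (S (T (S (T (F 256 L) (F 256 L)) (S (F 256 L) (F 256 L))) (S (V (F 256 L) (F 256 L)) (T (F 256 L) (F 256 L)))) (T (S (S (F 256 L) (F 256 L)) (S (F 256 L) (F 256 L))) (S (T (F 256 L) (F 256 L)) (S (F 256 L) (F 256 L)))))) (V (S (T (S (F 256 L) (F 256 L)) (S (F 256 L) (F 256 L))) (T (S (F 260 L) (F 260 L)) (S (F 256 L) (F 256 L)))) (S (T (S (S (F 768 L) (F 768 L)) (S (F 768 L) (F 768 L))) (S (S (F 768 L) (F 768 L)) (S (F 768 L) (F 768 L)))) (T (S (F 768 L) (F 768 L)) (S (S (F 768 L) (F 768 L)) (F 768 L)))))) (U (V (S (T (S (V (F 256 L) (F 256 L)) (T (F 256 L) (F 256 L))) (S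 (V (F 256 L) (F 256 L)) (T (F 256 L) (F 256 L)))) (T (S (T (F 256 L) (F 256 L)) (S (F 256 L) (F 256 L))) (S (T (F 256 L) (F 256 L)) (S (F 256 L) (F 256 L))))) (S (T (S (V (F 256 L) (F 256 L)) (V (F 256 L) (F 256 L))) (S (V (F 256 L) (F 256 L)) (V (F 256 L) (F 256 L)))) (T (S (T (F 256 L) (F 256 L)) (S (F 256 L) (F 256 L))) (S (T (F 256 L) (F 256 L)) (S (F 256 L) (F 256 L)))))) (V (S (T (S (S (F 768 L) (F 768 L)) (F 256 L)) (S (S (F 768 L) (F 256 L)) (F 256 L))) (T (S (F 256 L) (F 256 L)) (S (F 256 L) (F 257 L)))) (S (T (S (S (F 768 L) (F 768 L)) (S (F 768 L) (F 768 L))) (S (S (F 768 L) (F 768 L)) (S (F 768 L) (F 768 L)))) (T (V (F 256 L) (S (F 768 L) (F 769 L))) (S (S (F 768 L) (F 768 L)) (F 768 L)))))))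
noncomputable def v18_40 : Tr := (U (V (S (T v18_25 v18_26) (T (U (V (K 4) (S (U (K 4) (S (V (K 4) (T (F 256 L) (F 256 L))) (K 4))) (K 4))) (V (K 4) (S (T (S (V (F 256 L) (F 256 L)) (T (F 256 L) (F 256 L))) (S (V (F 256 L) (S (F 256 L) (F 256 L))) (V (F 256 L) (F 256 L)))) (V (K 4) (T (S (F 256 L) (F 260 L)) (S (F 256 L) (F 256 L))))))) (U (V (K 4) (S (S (V (K 4) (U (K 4) (T (F 256 L) (F 256 L)))) (K 4)) (K 4))) (V (K 4) (S (T (S (V (S (F 256 L) (F 256 L)) (S (F 256 L) (F 256 L))) (V (F 256 L) (S (F 256 L) (F 256 L)))) (S (V (S (F 256 L) (F 256 L)) (S (F 256 L) (F 256 L))) (V (F 256 L) (S (F 256 L) (F 256 L))))) (V (K 4) (T (S (F 256 L) (F 260 L)) (S (F 256 L) (F 257 L))))))))) (S (T v18_29 (U (V v18_30 v18_31) v18_32)) v18_35)) (V (S v18_36 v18_37) (S (T (U (V (S (T (S (S (F 256 L) (F 256 L)) (S (F 256 L) (F 256 L))) (S (T (F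 256 L) (F 256 L)) (V (F 256 L) (F 256 L)))) (T (S (S (F 256 L) (F 256 L)) (T (F 256 L) (F 256 L))) (S (V (F 256 L) (F 256 L)) (V (F 256 L) (F 256 L))))) (S (T (S (V (S (F 768 L) (F 768 L)) (S (F 768 L) (F 768 L))) (U (S (F 768 L) (F 768 L)) (F 768 L))) (S (V (F 256 L) (S (F 768 L) (F 768 L))) (V (F 256 L) (S (F 768 L) (F 768 L))))) (T (S (T (S (F 768 L) (F 768 L)) (F 256 L)) (S (F 256 L) (F 256 L))) (S (V (F 256 L) (F 256 L)) (V (F 256 L) (F 256 L)))))) (V (S (T (S (F 768 L) (F 768 L)) (S (S (F 768 L) (F 768 L)) (S (F 768 L) (F 768 L)))) (T (V (F 256 L) (F 832 (S L L))) (S (S (F 768 L) (F 768 L)) (F 256 L)))) (S (T (S (F 768 L) (F 768 L)) (S (S (F 768 L) (F 768 L)) (S (F 768 L) (F 768 L)))) (T (S (S (F 768 L) (F 768 L)) (S (F 768 L) (F 768 L))) (S (S (F 768 L) (F 768 L)) (S (F 768 L) (F 768 L))))))) v18_38) v18_39)))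
noncomputable def v18_41 : Tr := (T (F 324 (U (V (S (V (K 3) (T L (S L (F 16 L)))) (K 3)) (S (T (S (S L L) (S L L)) (S (V L (S L L)) (V L L))) (T (S L L) (V (S L (F 16 L)) (S L L))))) (S (V (T (S (F 1 L) (F 16 L)) (S L L)) (T (S L L) (S (S L L) (S L L)))) (V (T L (S (F 16 L) (F 16 L))) (T (S (F 1 L) (F 1 L)) (S L L)))))) (U (V (F 324 (S (U (K 3) (V (K 3) (T L (S L (K 3))))) (K 3))) (S (T (S (V (F 324 (S L L)) (S (F 260 L) (F 260 L))) (V (F 324 (S L L)) (F 260 L))) (S (V (S (F 260 L) (F 260 L)) (T (F 260 L) (F 256 L))) (V (S (F 260 L) (F 260 L)) (T (F 260 L) (F 260 L))))) (T (V (F 324 (S L L)) (S (F 260 L) (F 324 L))) (S (V (F 260 L) (S (F 260 L) (F 260 L))) (T (F 260 L) (F 260 L)))))) (V (S (T (F 324 (S (S L L) (S L L))) (S (S (F 260 L) (F 260 L)) (S (F 260 L) (F 260 L)))) (T (F 324 (S L (F 16 L))) (S (F 260 L) (F 261 L)))) (S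 (T (F 324 (V (S L L) (S L L))) (S (V (F 260 L) (F 260 L)) (V (F 260 L) (F 260 L)))) (T (F 324 (S (S L L) (S L L))) (S (S (F 260 L) (F 260 L)) (F 260 L)))))))
noncomputable def v18_42 : Tr := (S (T (F 324 (U (S (V (T (F 1 L) (S (F 1 L) (F 1 L))) (T L (S (F 1 L) (F 1 L)))) (V (S L L) (T (F 1 L) L))) (S (V (T (F 1 L) (F 1 L)) (T (F 1 L) (F 1 L))) (V (S (F 1 L) (F 1 L)) (S (F 1 L) (F 1 L)))))) (U (S (V (T (F 324 (S L L)) (S (F 260 L) (F 260 L))) (T (F 324 (S L L)) (S (S (F 260 L) (F 260 L)) (F 260 L)))) (V (T (F 324 (S L (F 64 L))) (F 260 L)) (T (F 324 (S L L)) (S (F 260 L) (F 261 L))))) (S (V (T (F 836 (S L L)) (F 260 L)) (F 772 (T (S (F 2 L) (F 2 L)) (S L L)))) (V (T (F 836 L) (F 261 L)) (F 772 (T (S (F 2 L) (F 66 L)) (S (F 2 L) (F 64 L)))))))) (T (F 324 (S (V (U (S (F 16 L) (F 64 L)) (F 1 L)) (U (S L (F 64 L)) (S (F 1 L) (F 65 L))))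 (U (V (F 80 (S L (F 16 L))) (S (F 64 L) (F 65 L))) (F 65 (V (F 2 L) L))))) (F 261 (U (V (S (T (F 4 L) (F 4 L)) (S (F 4 L) (F 36 L))) (S (T (S (F 4 L) (F 5 L)) (S (F 4 L) (F 4 L))) (T (F 5 L) (F 4 L)))) (S (V (S (F 4 L) (F 5 L)) (T (F 5 (S L L)) (F 1 L))) (V (F 4 L) (F 5 (S L L))))))))
noncomputable def v18_43 : Tr := (U (V (F 324 (S (T (U (K 3) (S (V (K 3) (T (F 16 L) L)) (K 3))) (U (K 3) (V (K 3) (S (U (K 3) (T L (S (F 16 L) (K 3)))) (K 3))))) (K 3))) (S v18_41 (T (F 324 (U (V (K 3) (S (T (S (F 16 L) (F 16 L)) (S L (F 64 L))) (T (F 80 (S L (K 1))) (F 64 L)))) (V (S (S L (F 16 L)) (K 3)) (S (T L (S (F 64 L) (F 64 L))) (T (F 80 L) (F 64 L)))))) (U (F 324 (V (K 3) (S (U (K 3) (T L (S (F 64 L) (F 64 L)))) (K 3)))) (S (V (F 325 (U (K 3) (S L (K 3)))) (T (F 324 (S L (F 64 L))) (S (F 260 L) (F 325 L)))) (F 261 (V (K 4) (T (F 4 L) L))))))))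 (V (F 324 (S (T (U (V (S (S (F 16 L) (F 16 L)) (K 3)) (S (S L L) (S (F 16 L) (F 16 L)))) (V (S (F 16 L) (F 17 L)) (S (S (F 1 L) (F 1 L)) L))) (V (S (U (T (F 16 L) (F 119 (S (K 0) (K 0)))) (S L (S (F 16 L) (F 16 L)))) (U (K 3) (S (F 16 L) (F 80 L)))) (S (U (T (S (F 16 L) (F 16 L)) (S L L)) (T L (S L (F 1 L)))) (U (T (F 16 L) (S (F 16 L) (F 80 L))) (S L (F 64 L)))))) (T (U (V (K 3) (S (F 16 L) (F 81 L))) (F 81 (V (S L (F 8 L)) (T L (S L L))))) (F 80 (U (V (K 1) (S (T L L) (K 1))) (V (S (S (F 16 L) (F 16 L)) (F 16 L)) (S (S L (F 16 L)) (F 16 L)))))))) v18_42))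
noncomputable def v18_44 : Tr := (T (U (V (S (U (K 4) (S (T (S (F 260 L) (F 260 L)) (S (F 256 L) (K 4))) (K 4))) (K 4)) (S (T (S (V (S (F 256 L) (F 256 L)) (T (F 256 L) (F 256 L))) (V (S (F 260 L) (F 260 L)) (T (F 260 L) (F 256 L)))) (S (V (S (F 256 L) (F 256 L)) (T (F 256 L) (F 256 L))) (V (S (F 256 L) (F 260 L)) (S (F 256 L) (F 256 L))))) (T (V (S (F 260 L) (K 4)) (S (S (F 260 L) (F 260 L)) (F 260 L))) (S (V (F 260 L) (S (F 260 L) (F 260 L))) (F 261 (V (K 4) (S L L))))))) (V (S (T (S (V (F 260 L) (F 260 L)) (T (F 260 L) (F 260 L))) (S (S (F 256 L) (F 256 L)) (T (F 260 L) (F 260 L)))) (T (S (F 260 L) (F 261 L)) (S (S (F 260 L) (F 261 L)) (F 261 L)))) (S (T (S (V (F 256 L) (F 256 L)) (V (F 260 L) (S (F 260 L) (F 260 L)))) (S (V (F 256 L) (F 256 L)) (S (F 256 L) (F 256 L)))) (T (S (T (F 260 L) (F 260 L)) (S (F 260 L) (F 261 L)))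 (S (T (F 260 L) (F 260 L)) (F 261 (T L L))))))) (U (V (S (S (V (K 4) (T (S (F 256 L) (K 4)) (F 256 L))) (K 4)) (K 4)) (S (T (S (V (S (F 256 L) (F 256 L)) (T (F 256 L) (F 256 L))) (V (F 256 L) (S (F 256 L) (F 256 L)))) (S (V (S (F 256 L) (F 256 L)) (S (F 256 L) (F 256 L))) (V (S (F 257 L) (F 261 L)) (S (F 257 L) (F 257 L))))) (T (S (V (F 261 (S L L)) (S (F 257 L) (F 261 L))) (F 261 (V (K 4) (S L L)))) (S (V (F 257 L) (F 257 L)) (F 261 (V L L)))))) (V (S (T (S (T (F 256 L) (F 256 L)) (S (F 256 L) (F 257 L))) (S (T (F 256 L) (F 257 L)) (S (F 257 L) (F 257 L)))) (F 261 (T (S (T L L) L) (S (S L L) L)))) (S (T (S (V (F 256 L) (F 256 L)) (S (F 256 L) (F 256 L))) (S (V (F 256 L) (F 256 L)) (V (F 257 L) (F 257 L)))) (T (S (T (F 257 L) (F 257 L)) (F 261 (T L L))) (S (S (F 257 L) (F 261 L)) (F 261 (S L L))))))))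
noncomputable def v18_45 : Tr := (T (U (V (S (T (S (S (F 260 L) (F 260 L)) (S (F 260 L) (F 260 L))) (S (S (F 256 L) (F 260 L)) (S (F 260 L) (F 261 L)))) (T (S (F 260 L) (F 261 L)) (F 261 (V L (S (F 1 L) (F 1 L)))))) (S (T (S (F 256 L) (S (F 260 L) (F 260 L))) (S (S (F 256 L) (F 260 L)) (F 256 L))) (T (S (F 260 L) (F 260 L)) (S (F 260 L) (F 261 L))))) (V (S (T (S (F 260 L) (F 772 L)) (S (F 260 L) (F 261 L))) (F 261 (T (S L (F 1 L)) (S (F 1 L) (F 1 L))))) (S (T (F 772 (S (S L L) L)) (S (F 260 L) (F 261 L))) (F 261 (S (T L L) (T (F 1 L) (F 1 L))))))) (U (V (S (T (S (F 256 L) (S (F 257 L) (F 261 L))) (V (F 257 L) (F 261 (S L L)))) (F 261 (T (S L L) (S L (F 32 L))))) (S (T (V (F 256 L) (S (F 257 L) (F 261 L))) (S (F 256 L) (S (F 257 L) (F 261 L)))) (T (F 261 (S (S L L) L)) (S (F 257 L) (F 261 L))))) (V (S (T (S (F 257 L) (F 261 L))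 (S (F 769 L) (F 261 L))) (F 261 (T (S (F 1 L) (F 1 L)) L))) (S (T (S (F 257 L) (F 261 L)) (F 261 (V L (S (F 1 L) (F 1 L))))) (F 773 (T (S L L) (S L (F 32 L))))))))
noncomputable def v18_46 : Tr := (V (S (T (U (V (F 1007 (S (K 0) (K 0))) (S (T (S (F 260 L) (F 260 L)) (V (F 260 L) (F 260 L))) (F 261 (T (S L (F 36 L)) (S L (F 32 L)))))) (V (S (T (F 268 L) (F 261 (S L (F 32 L)))) (F 269 (T (F 4 L) L))) (S (T (S (F 772 L) (F 261 L)) (S (F 260 L) (F 261 L))) (F 261 (T L L))))) (S (V (F 269 (U (F 47 (S (K 0) (K 0))) (T (S L L) (S L (F 1 L))))) (U (T (S (F 256 L) (F 261 L)) (S (F 257 L) (F 261 L))) (T (S (F 260 L) (F 261 L)) (F 261 (S L (F 1 L)))))) (F 261 (V (U (K 4) (T (F 32 L) (F 33 L))) (U (T (S (F 32 L) (F 32 L)) (S (F 32 L) (F 96 L))) (T L (F 32 L))))))) (F 269 (T (S (V (U (K 4) (F 4 L)) (U (T L L) (S L (F 4 L)))) (U (K 4) (T (F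 5 (S L L)) (F 1 L)))) (S (V (U (K 4) (F 1 L)) (U (S L (F 32 L)) L)) (U (F 47 (S (K 0) (K 0))) (T (F 1 L) (F 33 L))))))) (S v18_45 (F 261 (T (U (S (V (T L L) (T (S L (F 1 L)) (S L (F 1 L)))) (V (S (F 32 L) (F 36 L)) (S L L))) (S (V (S L (F 1 L)) (S (S L (F 1 L)) L)) (V L (S (F 1 L) (F 1 L))))) (S (V (U (T L (F 32 L)) (S L (F 1 L))) (U (T (S (F 1 L) (F 1 L)) L) (T (F 1 L) (F 1 L)))) (U (V (S (F 64 L) (F 97 L)) (S (F 64 L) (F 65 L))) (V (F 65 L) (F 1 L))))))))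
noncomputable def v18_47 : Tr := (U (V (F 972 (S (T (U (V L (S L L)) (S L L)) (U (V (S L L) (S (S L L) (S L L))) (V (S L L) (S (S L L) (S L L))))) (T (U (S L L) (S L L)) (U (U (K 1) (V (K 1) (S L (F 8 L)))) (V L (S L L)))))) (S (F 832 (T (F 17 (V (U (S (F 4 L) (F 4 L)) (S (F 4 L) (F 4 L))) (U (S (F 4 L) L) (S (F 4 L) (F 4 L))))) (V (S (T (F 1 L) (U (F 1 L) (F 17 L))) (U (F 24 (T (F 16 L) (S L L))) (F 17 (S L (F 4 L))))) (S (U (V (F 1 L) (F 17 (S L L))) (S (F 17 L) (F 1 L))) (T (S (F 1 L) (F 16 L)) (U L (F 16 L))))))) (F 324 (T (F 19 (U (V (S L L) (S L L)) (V (S L (F 1 L)) (S L L)))) (V (F 17 (S (U (S L L) (S (F 16 L) (F 16 L))) (U (S L L) L))) (S (U (U (F 16 L) (F 1 L)) (S (F 1 L) (F 1 L))) (U (V (F 17 L) (F 1 L)) (F 17 (S L L))))))))) (F 832 (V (F 25 (S (T (U (S L L) (S L L)) (U (V (S L L) (S L L)) (V L (S L L)))) (U (T (S L (F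 1 L)) (V L (S L (F 1 L)))) (T L (S L L))))) (S (T (F 17 (S (V L L) (V L L))) (U (V (F 17 (S L L)) (S (F 1 L) (F 17 (S L L)))) (F 17 (V (S L (F 4 L)) (S L L))))) (T (F 17 (U (V (F 4 L) L) (S (F 4 L) (F 4 L)))) (V (F 24 (U (T (F 16 L) L) (S (F 16 L) (F 16 L)))) (U (S (F 16 L) (F 16 L)) (S (F 17 L) (F 24 L)))))))))
noncomputable def v18_48 : Tr := (S (T (U (V (S (T (F 832 (S (F 1 L) (F 8 L))) (F 256 L)) (T (F 840 (S L L)) (S (F 264 L) (F 776 L)))) (S (T (F 832 (S L L)) (S (F 768 L) (F 768 L))) (T (F 832 (S L L)) (S (F 768 L) (F 768 L))))) (S (V (T (F 832 L) (F 768 L)) (F 832 (T L (S L L)))) (V (T (F 832 L) (F 768 L)) (F 832 (T (S (F 16 L) (F 16 L)) (S L L)))))) (U (S (V (T (S (F 256 L) (F 264 L)) (S (F 256 L) (F 256 L))) (T (S (F 256 L) (F 256 L)) (S (F 256 L) (F 256 L)))) (V (T (S (F 264 L) (F 264 L)) (S (F 256 L) (F 264 L))) (T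 (S (F 256 L) (F 256 L)) (S (F 256 L) (F 256 L))))) (V (S (T (S (F 768 L) (F 768 L)) (S (F 768 L) (F 768 L))) (T (S (F 768 L) (F 776 L)) (S (F 768 L) (F 776 L)))) (S (T (S (F 768 L) (F 768 L)) (S (F 768 L) (F 768 L))) (T (S (F 768 L) (F 768 L)) (S (F 768 L) (F 768 L))))))) (T (V (U (S (T (F 332 (U L (F 1 L))) (F 776 (S L (F 16 L)))) (F 780 (T (F 2 L) L))) (F 780 (S (T (S (F 2 L) (F 2 L)) (S L (F 2 L))) (T (F 2 L) (F 2 L))))) (U (S (T (F 832 (S L (F 16 L))) (F 256 L)) (F 780 (T (T (F 2 L) L) (S L L)))) (S (T (F 836 (S L L)) (F 768 L)) (F 772 (T (F 2 L) L))))) (U (V (F 776 (S (T (S L (F 16 L)) (S L (F 64 L))) (F 80 (T (S L L) (S L L))))) (S (T (S (F 768 L) (F 260 L)) (F 256 L)) (F 772 (T (S L (F 80 L)) (S (F 64 L) (F 80 L)))))) (V (F 776 (S (T (S (F 16 L) (F 16 L)) (S (F 64 L) (F 64 L))) (F 80 (T L L)))) (S (T (F 768 L) (F 768 L))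 (F 773 (T (S L (F 16 L)) L)))))))
noncomputable def v18_49 : Tr := (S (T (S (V (F 832 (U (S L L) (S (F 1 L) (F 16 L)))) (U (T (F 832 L) (F 768 L)) (F 832 (S L L)))) (V (F 832 (U (T (F 16 L) L) (S (F 16 L) (F 16 L)))) (U (T (F 832 L) (F 768 L)) (F 832 (S L L))))) (V (U (S (T (S (F 832 L) (F 776 L)) (S (F 768 L) (F 768 L))) (T (F 768 L) (F 768 L))) (S (T (F 768 L) (F 768 L)) (S (F 768 L) (F 772 L)))) (S (U (T (S (F 832 L) (F 768 L)) (S (F 768 L) (F 768 L))) (T (F 768 L) (F 768 L))) (U (T (S (F 768 L) (F 772 L)) (S (F 768 L) (F 768 L))) (T (F 768 L) (F 768 L)))))) (T (F 772 (V (U (S (V (F 18 (S L L)) (F 2 L)) (F 18 (S L (F 1 L)))) (S (S (F 2 L) (F 18 L)) (F 18 (S L (F 1 L))))) (U (S (T (F 2 L) L) (S (F 2 L) (F 2 L))) (S (T (F 2 L) (F 2 L)) (F 2 L))))) (V (F 772 (U (S (S L (F 80 (T L L))) (F 80 (T L L))) (S (S L (F 64 L)) (F 80 L))))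 (U (S (T (F 768 L) (F 768 L)) (F 773 (T L L))) (S (T (F 772 L) (F 769 L)) (F 773 (S L (F 16 L))))))))
noncomputable def v18_50 : Tr := (U (V (S (T (F 776 (U (S (V (F 3 (T L (S L (K 3)))) (T (F 3 (S L L)) (S (F 2 L) L))) (V (K 3) (T (F 18 (S L L)) (S (F 2 L) (F 2 L))))) (S (V (F 3 (S L L)) (T (F 3 (S L L)) (S (F 2 L) (F 2 L)))) (V (F 18 (T (F 16 L) L)) (T (F 18 L) (S (F 2 L) (F 18 L))))))) (V (F 776 (S (U (U (K 3) (S L (K 3))) (T L (S L L))) (U (K 3) (S L (F 16 L))))) (U (S (T (V (F 776 L) (F 264 L)) (S (F 264 L) (F 776 (S L L)))) (F 776 (U (K 3) (T L L)))) (S (T (F 776 (S L L)) (V (F 776 L) (F 768 L))) (F 776 (T (S L (F 16 L)) (S L (F 64 L)))))))) (F 780 (U (U (K 3) (V (K 3) (S (T (S (F 2 L) (F 2 L)) (S L (K 3))) (K 3)))) (S (T (V (F 2 L) (T (F 2 L) (S (F 2 L) (F 34 L)))) (V (S (F 32 L) (F 32 L)) (T L (S (F 32 L) (F 32 L))))) (V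 (F 34 (T L L)) (T (S (F 2 L) (F 34 L)) (S (F 32 L) (F 34 L)))))))) v18_48) (V (U (S (T (F 832 (V (F 9 (S (T (F 4 L) L) (S (F 4 L) (F 4 L)))) (S (S (F 1 L) (F 8 L)) (F 24 (U (S L L) L))))) (F 776 (S (V (S L L) (T (S L (F 2 L)) (S L L))) (V (S (F 16 L) (F 80 L)) (T L L))))) (F 780 (S (T (V (F 34 L) (S (F 2 L) (F 2 L))) (V (S (F 32 L) (F 34 L)) (T (F 32 L) (F 32 L)))) (V (F 34 (T (F 8 L) L)) (T (F 34 L) (F 32 L)))))) (S (T (F 832 (V (F 25 (S (S L L) (S L L))) (S (F 1 L) (F 24 (S L L))))) (V (F 776 (S (S L (F 16 L)) (S (F 16 L) (F 80 L)))) (S (S (F 768 L) (F 768 L)) (F 776 (S L (F 16 L)))))) (F 780 (V (F 34 (S (T L L) L)) (T (S (F 2 L) (F 34 L)) (S (S (F 32 L) (F 32 L)) (F 48 L))))))) v18_49))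
noncomputable def v18_51 : Tr := (U (F 80 (V (S (U (K 1) (T (V (F 8 L) (S (F 8 L) (F 9 L))) (V (F 9 L) (S (F 8 L) (F 9 L))))) (F 9 (U (K 2) (T (S L (F 1 L)) (S L L))))) (S (T (U (V (U (K 1) (S (F 8 L) (F 9 L))) (S (T (S (F 8 L) (F 8 L)) L) (S (F 8 L) (F 8 L)))) (V (T (F 8 L) (S (F 8 L) (F 9 L))) (S (T (F 8 L) L) (F 8 L)))) (S (U (V (S L (F 1 L)) (T (S L (F 8 L)) L)) (V L (T L L))) (U (V (F 1 L) L) (S L (F 1 L))))) (T (U (V (K 1) (S (F 8 L) (F 9 L))) (V (F 9 L) (F 8 L))) (F 9 (U (V L (S L L)) (V L (S L L)))))))) (V (F 82 (S (U (T (S L (F 1 L)) (F 1 (V L (S L L)))) (T (S L (F 1 L)) (F 1 (V L L)))) (F 1 (U (T L L) (S L L))))) (S (T (F 66 (U (V (S (F 2 L) (F 3 L)) (S (S L (F 2 L)) (F 2 L))) (V (S (F 2 L) (F 3 L)) (T (F 2 L) (S (F 2 L) (F 3 L)))))) (F 80 (S (U (V (F 1 L) (S L (F 1 L))) (T L L)) (U (S L (F 1 L)) (F 1 L))))) (F 82 (T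 (U (S L (F 1 L)) L) (F 1 (U (S L L) (S L L))))))))
noncomputable def v18_52 : Tr := (V (S (F 832 (T (F 17 (S (V (U L L) (U L L)) (V (U L L) (U (S L L) L)))) (S (V (U (T (F 1 L) L) (S (F 1 L) (F 1 L))) (U (S L L) (S (F 1 L) (F 16 L)))) (V (U (T (F 16 L) (S (F 16 L) (F 16 L))) (S (F 16 L) (F 16 L))) (T (S L L) (U (S (F 16 L) (F 16 L)) L)))))) (F 324 (T (V (F 3 (U (S L L) (S L L))) (S (F 3 (U (S L L) L)) (U (F 1 L) (F 3 L)))) (S (V (U (T (F 1 L) (S (F 1 L) (F 1 L))) (S (F 1 L) (F 1 L))) (U (T (F 1 L) (S (F 1 L) (F 1 L))) (S (F 1 L) (F 1 L)))) (V (U (U L (S (F 1 L) (F 17 L))) (S (F 1 L) (F 1 L))) (U (T (F 1 L) (S (F 1 L) (F 1 L))) (T (F 1 L) (F 1 L)))))))) (S (F 832 (T (S (F 17 (V (U L L) (U L L))) (V (T (F 17 L) (S (F 17 L) (F 16 L))) (T (F 17 L) (S (F 17 L) (F 16 L))))) (S (V (U (S L L) L) (U (S L L) (S (F 1 L) (F 16 L)))) (V (U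 (T L (S (F 16 L) (F 16 L))) (S (F 16 L) L)) (U (T L (S (F 16 L) (F 16 L))) (S (F 16 L) (F 16 L))))))) (T (F 836 (S (V (U L (F 1 L)) (U (S (F 1 L) (F 1 L)) (F 1 L))) (V (U L L) (U (S L L) L)))) (S (V (F 832 (U (T (S (F 16 L) (F 16 L)) (S (F 16 L) (F 16 L))) (T (F 16 L) L))) (U (T (F 836 (S L L)) (F 768 L)) (F 832 (T (F 16 L) L)))) (F 772 (V (U (T (S (F 2 L) (F 2 L)) (S (F 2 L) (F 2 L))) (S (F 2 L) (F 2 L))) (U (T (S (F 2 L) (F 2 L)) (S (F 2 L) (F 2 L))) (T (F 2 L) L))))))))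
noncomputable def v18_53 : Tr := (T (U (S (V (T (F 832 (S L L)) (S (F 768 L) (F 768 L))) (T (F 832 (S L L)) (S (F 768 L) (F 768 L)))) (V (T (F 832 (S L L)) (S (F 768 L) (F 768 L))) (T (S (F 832 L) (F 768 L)) (S (F 768 L) (F 768 L))))) (V (S (F 832 (T (S (F 1 L) L) (S L L))) (T (F 832 (S L (F 16 L))) (S (F 768 L) (F 768 L)))) (S (S (S (F 768 L) (F 768 L)) (S (F 768 L) (F 768 L))) (T (F 768 L) (S (F 768 L) (F 768 L)))))) (U (S (V (T (S (S (F 768 L) (F 768 L)) (S (F 768 L) (F 768 L))) (V (F 256 L) (S (F 768 L) (F 768 L)))) (T (S (F 768 L) (S (F 768 L) (F 768 L))) (S (S (F 768 L) (F 768 L)) (S (F 768 L) (F 768 L))))) (V (T (S (S (F 768 L) (F 768 L)) (F 256 L)) (S (F 256 L) (F 256 L))) (T (S (F 768 L) (S (F 768 L) (F 768 L))) (S (S (F 768 L) (F 768 L)) (S (F 768 L) (F 768 L)))))) (S (V (T (S (F 768 L) (F 768 L)) (S (F 768 L) (F 768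 L))) (T (S (F 768 L) (F 768 L)) (S (F 768 L) (F 768 L)))) (V (T (S (F 768 L) (F 768 L)) (S (F 768 L) (F 768 L))) (T (S (F 768 L) (F 768 L)) (S (F 768 L) (F 768 L)))))))
noncomputable def v18_54 : Tr := (S (T (U (S (V (T (F 832 (S L L)) (S (F 768 L) (F 768 L))) (T (F 832 (S L L)) (S (F 768 L) (F 768 L)))) (V (T (F 832 (S L L)) (S (F 768 L) (F 768 L))) (T (F 832 (S L L)) (S (F 768 L) (F 768 L))))) (S (V (T (F 768 L) (F 768 L)) (T (F 832 L) (F 768 L))) (V (T (F 768 L) (S (F 832 L) (F 772 L))) (T (F 768 L) (F 768 L))))) (U (S (V (T (S (F 768 L) (F 768 L)) (S (F 768 L) (F 768 L))) (T (S (F 768 L) (F 768 L)) (S (F 768 L) (F 768 L)))) (V (T (S (F 768 L) (F 768 L)) (S (F 768 L) (F 768 L))) (T (S (F 768 L) (F 768 L)) (S (F 768 L) (F 768 L))))) (S (V (T (S (F 768 L) (F 768 L)) (S (F 768 L) (F 768 L))) (T (S (F 768 L) (F 768 L)) (S (F 768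 L) (F 768 L)))) (V (T (S (F 768 L) (F 768 L)) (S (F 768 L) (F 768 L))) (T (S (F 768 L) (F 768 L)) (S (F 768 L) (F 768 L))))))) (T (U (S (V (T (S (F 768 L) (F 768 L)) (S (F 768 L) (F 768 L))) (T (S (F 768 L) (F 772 L)) (S (F 768 L) (F 768 L)))) (V (T (F 772 (S L L)) (S (F 768 L) (F 772 L))) (T (F 772 (S L L)) (S (F 768 L) (F 768 L))))) (S (V (T (F 768 L) (F 772 (S L L))) (T (F 768 L) (F 768 L))) (V (T (F 836 (S L L)) (F 768 L)) (T (F 768 L) (F 768 L))))) (U (S (V (T (S (F 768 L) (F 768 L)) (S (F 768 L) (F 768 L))) (T (S (F 768 L) (F 768 L)) (S (F 768 L) (F 768 L)))) (V (T (S (F 768 L) (F 768 L)) (S (F 768 L) (F 769 L))) (T (S (F 768 L) (F 769 L)) (S (F 768 L) (F 769 L))))) (S (V (T (S (F 768 L) (F 772 L)) (S (F 768 L) (F 769 L))) (T (S (F 768 L) (F 772 L)) (S (F 768 L) (F 769 L)))) (V (T (F 768 L) (F 769 (S L (F 32 L)))) (T (F 768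 L) (F 768 L)))))))
noncomputable def v18_55 : Tr := (S (T (S (V (U (T (F 832 L) (F 768 L)) (F 832 (S L L))) (U (S (F 832 L) (F 768 L)) (F 832 (S L L)))) (V (U (T (F 832 L) (F 768 L)) (F 832 (S L L))) (U (S (F 768 L) (F 768 L)) (S (F 832 L) (F 772 L))))) (S (V (U (T (S (F 832 L) (F 768 L)) (S (F 768 L) (F 768 L))) (T (F 768 L) (F 768 L))) (U (T (F 768 L) (S (F 768 L) (F 768 L))) (T (F 768 L) (F 768 L)))) (V (U (T (S (F 768 L) (F 772 L)) (S (F 768 L) (F 769 L))) (T (F 768 L) (F 768 L))) (U (T (F 768 L) (S (F 768 L) (F 769 L))) (S (F 768 L) (F 768 L)))))) (T (V (U (S (S (F 768 L) (F 772 (S L L))) (F 772 (S L L))) (F 772 (S (T (F 2 L) L) (S (F 2 L) (F 2 L))))) (S (U (S (F 768 L) (F 768 L)) (F 772 (S L L))) (F 772 (U (S L L) (S L (F 64 L)))))) (S (V (U (T (F 768 L) (F 768 L)) (S (F 768 L) (F 769 L))) (U (T (F 768 L) (F 768 L)) (S (F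 768 L) (F 768 L)))) (F 769 (V (U (T (S (F 32 L) (F 48 L)) (F 32 L)) (T (F 32 L) (F 32 L))) (U (T L L) (S L (F 32 L))))))))
noncomputable def v18_56 : Tr := (U (V (S v18_53 (T (U (S (V (T (S (F 832 L) (F 772 L)) (S (F 768 L) (F 768 L))) (T (S (F 832 L) (F 772 L)) (S (F 768 L) (F 768 L)))) (V (T (F 772 (S L (F 2 L))) (S (F 260 L) (F 772 L))) (T (F 772 (S L L)) (S (F 768 L) (F 772 L))))) (S (V (T (F 768 L) (F 772 (S L L))) (T (F 768 L) (F 772 (S L L)))) (F 772 (V (T L (S L (F 64 L))) (T L (S L (F 64 L))))))) (U (S (V (T (S (F 256 L) (F 768 L)) (S (F 256 L) (F 768 L))) (T (S (F 768 L) (F 768 L)) (S (F 768 L) (F 768 L)))) (V (T (S (F 260 L) (F 772 L)) (F 769 (S L L))) (T (S (F 768 L) (F 769 L)) (S (F 768 L) (F 769 L))))) (S (V (T (S (F 768 L) (F 772 L)) (S (F 768 L) (F 769 L))) (T (S (F 768 L) (F 772 L)) (S (F 768 L) (F 769 L)))) (V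 (F 772 (T (S L (F 64 L)) (S (F 64 L) (F 64 L)))) (T (F 768 L) (F 769 (S L (F 32 L))))))))) v18_54) (V v18_55 (S (T (S (V (U (S (F 832 L) (F 768 L)) (F 832 (S L L))) (F 832 (U (S L L) (S L L)))) (V (U (S (F 768 L) (F 768 L)) (F 768 L)) (U (S (F 768 L) (F 768 L)) (F 768 L)))) (S (V (U (T (F 768 L) (F 768 L)) (S (F 768 L) (F 768 L))) (U (T (F 768 L) (F 768 L)) (S (F 768 L) (F 768 L)))) (V (U (T (F 768 L) (F 768 L)) (S (F 768 L) (F 768 L))) (U (T (F 768 L) (F 768 L)) (S (F 768 L) (F 768 L)))))) (T (S (V (U (S (F 768 L) (F 768 L)) (F 768 L)) (U (S (F 768 L) (F 768 L)) (F 768 L))) (F 772 (V (U (T L L) (S L (F 64 L))) (U (S L L) (S L (F 64 L)))))) (S (V (U (T (F 768 L) (F 768 L)) (S (F 768 L) (F 768 L))) (U (S (F 768 L) (F 768 L)) (S (F 768 L) (F 769 L)))) (V (U (S (F 768 L) (F 769 L)) (F 769 (S L (F 32 L)))) (U (S (F 768 L) (F 769 L))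 (F 769 (S L (F 32 L))))))))))
noncomputable def v18_57 : Tr := (V (S (T (V (F 18 (U (S L (F 1 L)) (S (F 16 L) (F 1 L)))) (U (S (F 2 L) (F 2 L)) (S (F 3 L) (F 66 L)))) (S (V (U (S (F 2 L) (F 2 L)) (F 2 L)) (U (T (F 2 L) (S (F 2 L) (F 66 L))) (S (F 2 L) (F 2 L)))) (V (F 18 (U (S L (F 1 L)) (S (F 1 L) (F 1 L)))) (U (S (F 2 L) (F 66 L)) (F 66 (S L L)))))) (F 66 (T (U (V (S (F 2 L) (F 18 L)) (S (F 2 L) (F 2 L))) (V (F 2 L) (S (F 2 L) (F 18 L)))) (V (U (S (F 2 L) (F 2 L)) (S (F 2 L) (F 2 L))) (S (U L (F 2 L)) (T (F 2 L) (F 2 L))))))) (S (T (S (V (U (S (F 2 L) (F 2 L)) (F 2 L)) (U (S (F 2 L) (F 2 L)) (F 2 L))) (V (U (F 2 L) (F 66 L)) (U (F 2 L) (F 66 L)))) (V (S (U (T (F 2 L) L) (S (F 2 L) (F 2 L))) (U (T (F 66 L) (F 2 L)) (F 66 (S L L)))) (S (U (T (F 2 L) L) (S (F 2 L) (F 2 L))) (U (T (F 2 L) (F 64 L)) (F 66 (S L L)))))) (T (F 66 (V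 (U (S L (F 2 L)) (S L (F 2 L))) (S (U L L) (T L L)))) (S (F 66 (V (U (S L L) L) (U (S L L) (S L L)))) (V (F 66 (T L L)) (T (F 66 L) (F 64 L)))))))
noncomputable def v18_58 : Tr := (V (S (T (V (S (U (F 261 (U L (S (F 1 L) (F 33 L)))) (F 772 (S L (F 64 L)))) (F 781 (U (S (S L L) L) (S L (F 2 L))))) (F 772 (S (U (T L (S L (F 64 L))) (S L (F 64 L))) (U (T (F 64 L) (F 64 L)) (S (F 64 L) (F 66 L)))))) (F 773 (S (V (U (T (S L (F 16 L)) L) (T L (F 16 L))) (U (T (S L L) (S L L)) (T (S L (F 16 L)) L))) (V (U (T (F 16 L) (F 48 L)) (F 16 L)) (U (T L (F 16 L)) (S L (F 32 L))))))) (F 773 (T (U (S (V (F 18 L) L) (F 18 (T L L))) (S (V (F 18 L) (F 16 L)) (F 18 (S L L)))) (U (S (V (F 48 L) L) (F 48 (T L L))) (S (T (F 16 L) (F 48 L)) (F 48 (S L (F 4 L)))))))) (S (T (F 772 (S (V (U (T (S L (F 64 L)) (S L (F 64 L))) (T L L)) (U (T (S L (F 64 L)) (S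 L (F 64 L))) (T L L))) (V (U (T (F 64 L) (F 64 L)) (S (F 64 L) (F 64 L))) (U (T (S (F 64 L) (F 66 L)) (S (F 64 L) (F 64 L))) (S (F 64 L) (F 64 L)))))) (F 769 (S (V (U (T (S L (F 32 L)) (S (F 32 L) (F 32 L))) (T (S (F 32 L) (F 32 L)) (F 32 L))) (T (U (S L (F 32 L)) (S (F 32 L) (F 32 L))) (U (S (F 32 L) (F 32 L)) (F 32 L)))) (V (U (T (S (F 32 L) (F 96 L)) (F 32 L)) (S (F 32 L) (F 96 L))) (U (T (S (F 32 L) (F 96 L)) (F 32 L)) (S (F 32 L) (F 96 L))))))) (F 773 (T (S (V (U (S L (F 2 L)) L) (U (S L L) L)) (V (T L L) (T L L))) (S (V (U (S (F 32 L) (F 32 L)) (F 32 L)) (U (S L (F 32 L)) L)) (V (T L (F 32 L)) (S L (F 32 L))))))))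
noncomputable def v18_59 : Tr := (T (F 772 (U v18_57 (V (S (T (U (V (F 66 L) (F 2 L)) (S (F 2 L) (F 66 L))) (S (U (V (F 2 L) (F 2 L)) (T (F 2 L) (F 2 L))) (F 66 (U (V (F 2 L) L) (T L L))))) (F 66 (T (U (V (F 18 L) (F 2 L)) (S (F 2 L) (F 18 L))) (V (U (F 2 L) (F 2 L)) (U L L))))) (S (T (V (S (S (F 2 L) (F 2 L)) (F 2 L)) (S (S (F 2 L) (F 2 L)) (F 2 L))) (S (V (U (F 2 L) (F 2 L)) (U (F 66 (S L L)) (F 2 L))) (F 66 (V (U L L) (U (S L L) L))))) (F 66 (T (U (S (S L L) L) (V L L)) (S (V (T L L) (T L L)) (V L (S L L))))))))) (U v18_58 (F 773 (V (S (T (U (V (S (S L (F 2 L)) (F 2 L)) (S (S L L) L)) (V (T (F 18 (S L L)) L) (S L (F 2 L)))) (U (V (S (S L (F 32 L)) (F 32 L)) (S (S L L) L)) (S (V L (S L (F 32 L))) (S L L)))) (T (V (F 18 (U (S L (F 1 L)) L)) (U (F 18 (S L (F 1 L))) (F 2 L))) (U (F 48 (V L (S L (F 4 L)))) (V (F 48 L) (F 32 L)))))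 (S (T (S (V (U (S L L) (S L (F 2 L))) (U (S L L) (S L (F 2 L)))) (V (U L L) (U L L))) (S (V (U (T L L) (S L (F 32 L))) (U (S L L) (S L (F 32 L)))) (V (U L (F 32 L)) (U L (F 32 L))))) (T (S (U (T L L) (S L (F 2 L))) (V L L)) (S (U (S L (F 32 L)) (S L (F 32 L))) (V (F 32 L) (F 32 L)))))))))
noncomputable def v18_60 : Tr := (V (S (T v18_47 v18_50) (F 772 (T (F 18 (U (V (S (U (F 27 (S (K 0) (K 0))) (T (F 17 (S L L)) (T (F 17 (S L L)) (F 1 L)))) (F 17 (U (K 1) (T L L)))) (S (T (U (V (F 16 L) (S (F 16 L) (F 17 L))) (V (F 17 L) (F 16 L))) (U (V (S L (F 1 L)) (S (S L L) (S (F 1 L) (F 1 L)))) (V (S (F 1 L) (F 17 L)) (S L (F 1 L))))) (T (S (V (F 17 L) (F 1 L)) (S (F 1 L) (F 1 L))) (U (V (K 2) (S (F 1 L) (F 17 L))) (S (F 1 L) (F 1 L)))))) (V (F 17 (S (U (T L (S L L)) (T L (S L L))) (U (S L L) (S L L)))) (S (T (U (S (F 16 L) (F 17 L)) (S (F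 16 L) (F 17 L))) (U (V (F 1 L) (S (F 1 L) (F 1 L))) (V (F 1 L) (S (F 1 L) (F 17 L))))) (T (V (F 17 L) (F 1 L)) (U (S (F 1 L) (F 17 L)) (F 1 L))))))) v18_51))) (S (T (U v18_52 (F 832 (V (S (T (F 17 (V (S L L) (S L (S L L)))) (V (S (U (F 1 L) (F 17 L)) (U (F 16 L) (F 17 L))) (S (T (F 1 L) L) (U (S (F 17 L) (F 16 L)) (F 16 L))))) (T (F 17 (U (V (S (F 4 L) (F 4 L)) (S L L)) (V L (S L L)))) (V (U (S (S (F 16 L) (F 16 L)) (S (F 16 L) (F 16 L))) (S (F 16 L) (F 16 L))) (U (S (S (F 16 L) (F 16 L)) (S (F 16 L) (F 16 L))) (S (F 16 L) (F 16 L)))))) (S (T (F 17 (S (V L L) (V (S L L) (S L L)))) (S (V (T (F 1 L) L) (S L L)) (V (T (F 16 L) (S (F 16 L) (F 16 L))) (T (F 16 L) (S (F 16 L) (F 16 L)))))) (T (V (S (F 17 (S L L)) (S (F 17 L) (F 16 L))) (S (F 16 L) (S (F 16 L) (F 16 L)))) (S (V (U (S (F 16 L) (F 16 L)) (F 16 L)) (U (S (F 16 L) (F 16 L))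 (F 16 L))) (V (U (S (F 16 L) (F 16 L)) (F 16 L)) (U (S (F 16 L) (F 16 L)) (F 16 L))))))))) v18_56) v18_59))
noncomputable def v18_61 : Tr := (S (T (F 228 (U (V (S (T (S (F 1 L) (K 2)) (K 2)) (K 2)) (S (T (S (S (F 1 L) (F 17 L)) (F 17 (S L L))) (U (S L (F 16 L)) (F 17 (S L L)))) (F 17 (T (V L L) (U (K 1) (S L L)))))) (F 17 (V (S (T (S L L) (S L L)) (T L (S L L))) (S (T (S L L) (V L (S L L))) (T (S L L) (S L L))))))) (U (F 164 (V (K 3) (S (T (S (V (S (F 2 L) (K 3)) (S L (F 32 L))) (U (K 3) (F 32 L))) (U (K 3) (V (K 3) (S (F 32 L) (F 33 L))))) (F 33 (U (K 1) (V (K 1) (T L (S L (K 1))))))))) (F 417 (V (S (T (F 9 (U (S L (K 1)) L)) (U (F 27 (S (K 0) (K 0))) (S (F 8 L) (F 9 L)))) (U (K 2) (T (F 9 L) (F 8 L)))) (S (T (V (F 9 (S L L)) (U (F 8 L) (F 9 L))) (V (U (S (F 8 L) (F 9 L)) (F 8 L)) (S (S L L) (S (F 8 L) (F 8 L))))) (T (U (F 9 (S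 L L)) (F 8 L)) (V (S (F 8 L) (F 8 L)) (S (F 8 L) (F 8 L))))))))) (F 421 (T (F 1 (U (V (K 1) (U (K 1) (S (T L L) (F 5 (S (K 0) (K 0)))))) (V (S (T (S L L) (S L L)) (U (K 1) (S L L))) (T (S L L) (S (S L L) (S L L)))))) (U (F 11 (V (K 0) (S (K 0) (K 0)))) (V (F 1 (U (K 1) (S (T L L) (T L L)))) (S (T (S L L) (S L L)) (T (S L L) (S L L))))))))
noncomputable def v18_62 : Tr := (S (T (F 9 (U (V (S (T L (S L L)) (T L L)) (S (T L (S L L)) (T L (S L L)))) (V (T (S L L) (S L L)) (S (T L L) (T L L))))) (U (V (S (T (F 9 (S L L)) (U (F 8 L) (F 9 L))) (T (F 9 (S L L)) (S (F 8 L) (F 9 L)))) (S (T (V (F 9 (S L L)) L) (V (S (F 8 L) (F 8 L)) (S L (F 8 L)))) (T (S (F 8 L) (F 9 L)) (S (F 8 L) (F 8 L))))) (V (S (T (F 9 L) (S (F 8 L) (F 9 L))) (T (F 9 L) (F 8 L))) (S (T (S (F 1 L) (F 9 L)) (S L (F 8 L))) (T (F 8 L) (S (F 8 L) (F 8 L))))))) (T (F 9 (U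 (V (S (T L L) (T L L)) (S (T L L) (T L L))) (V (T (S L L) (S L L)) (S (T L L) (T L L))))) (U (V (S (F 9 (T (S L L) (S L L))) (T (F 9 (S L L)) (S (F 9 L) (F 24 L)))) (S (T (F 8 L) (S (F 8 L) (F 8 L))) (T (F 8 L) (F 8 L)))) (V (T (F 9 (S L L)) (S (F 8 L) (F 8 L))) (S (T (F 8 L) (F 8 L)) (T (F 9 L) (F 24 L)))))))
noncomputable def v18_63 : Tr := (U (V (F 485 (S (T (U (K 1) (V (K 1) (U (K 1) (T (S L L) (S L (K 1)))))) (F 5 (U (K 0) (V (K 0) (S (K 0) (K 0)))))) (F 5 (T (U (K 0) (V (K 0) (S (S (K 0) (K 0)) (K 0)))) (K 0))))) v18_61) (V (F 325 (S (T (U (V (T (S (F 1 L) (F 1 L)) (F 3 (S L L))) (F 3 (T (S L L) (S L L)))) (F 3 (V (T (S L L) (S L L)) (T (S L L) (S L L))))) (F 3 (U (V (S (U (K 1) L) (U (K 1) (S L L))) (S (T (S L L) (S L L)) (T L (S L L)))) (V (S (T L L) (T L L)) (S (T L L) (T L L)))))) (T (U (V (T (S (F 1 L) L) (S (F 2 L)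 L)) (T (S (F 3 L) (F 2 L)) (S (F 3 L) (F 2 L)))) (V (T (S (F 1 L) (F 1 L)) (S (F 3 L) (F 2 L))) (F 3 (T (S L L) (S L L))))) (U (V (S (T (F 2 L) (F 2 L)) (T (F 2 L) (F 18 L))) (S (F 3 (T (S L L) (S L L))) (T (F 2 L) (F 2 L)))) (V (S (S (F 2 L) (F 2 L)) (F 18 (T L L))) (S (F 3 (T L L)) (S (F 2 L) (F 2 L)))))))) (F 417 v18_62)))
noncomputable def v18_64 : Tr := (T (F 176 (U (V (K 3) (S (T (U (K 3) (V (K 3) (S (S (F 16 L) (F 17 L)) (F 16 L)))) (U (K 3) (V (K 3) (S (S L (F 16 L)) (F 16 L))))) (F 55 (T (S (K 0) (K 0)) (S (K 0) (K 0)))))) (V (F 17 (S (U (K 1) (T (S L L) (V (K 1) L))) (U (K 1) (T L (F 1 (S L L)))))) (S (T (U (V (F 17 (S L L)) (S (F 16 L) (F 17 L))) (F 17 (S (T L L) (S L L)))) (U (S (V (F 16 L) L) (F 17 (T L L))) (V (F 17 (S L (F 1 L))) (S (F 1 L) (F 17 L))))) (F 17 (T (V (S L L) (S L L)) (S (V L (S L L)) (T L L))))))))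 (U (V (K 2) (S (T (V (K 2) (U (K 2) (S (S (F 160 L) (F 162 L)) (F 162 L)))) (F 163 (U (K 4) (V (K 4) (S (S L L) (F 1 L)))))) (F 163 (T (F 15 (S (K 0) (K 0))) (V (K 4) (S (S L (K 4)) (K 4))))))) (V (F 419 (S (U (K 3) (T (F 2 (V L (S L L))) (V (F 2 L) L))) (F 2 (U (K 0) (T (S L L) L))))) (S (T (V (F 162 (S (U (F 4 L) (F 5 L)) (S (F 1 L) (F 5 L)))) (S (U (F 160 L) (F 416 L)) (F 418 (T L L)))) (F 416 (S (V (T (F 16 L) (F 48 L)) (T L (F 32 L))) (F 48 (V (S L (F 4 L)) (S L L)))))) (F 418 (T (V (T (F 2 L) (F 18 L)) (T (F 18 (S L L)) (F 16 L))) (S (V (F 18 L) (F 16 L)) (S (F 16 L) (F 18 L)))))))))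
noncomputable def v18_65 : Tr := (S (F 5 (T (U (V (F 8 (U (K 1) (S (S L (F 4 L)) (F 4 (S L L))))) (S (T (V L L) (U (S L (K 1)) L)) (U (F 13 (S (K 0) (K 0))) (S L (F 1 L))))) (S (V (T (F 8 L) L) (U (S L L) (S L (F 1 L)))) (V (T (F 8 L) (F 1 L)) (T L (F 1 (S L L)))))) (F 1 (U (V (U (K 2) (S (S L L) (S L L))) (S (T (U (S L L) L) (U (S L L) L)) (T (S L L) (S L L)))) (V (S (U (S L L) L) (U (S L L) L)) (S (U (T L L) (S L L)) (T L L))))))) (T (F 36 (U (V (F 4 (S (F 1 (U (K 0) (S L L))) (U (K 2) (S L L)))) (S (F 8 (T (S L L) (S L L))) (T (S (F 8 L) (F 4 L)) (F 8 (S L L))))) (V (F 4 (U (S L L) (S (F 1 L) L))) (S (F 8 (U L L)) (T L L))))) (U (V (S (F 36 (U (K 0) (S (F 8 L) L))) (T (F 36 (S L L)) (S (F 33 L) (F 32 L)))) (F 33 (S (F 4 (T (S L L) (S L L))) (T (F 4 (S L L)) (S (F 4 L) L))))) (S (V (T (F 36 L) (F 33 L)) (F 37 (T L L))) (V (T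 (F 32 L) (F 32 L)) (T (F 36 L) (F 33 L)))))))
noncomputable def v18_66 : Tr := (T (U (V (F 18 (S (T (U (S L L) (S L (F 8 L))) (U (S L L) (S L (F 1 L)))) (T (S L L) (S L (F 1 L))))) (S (T (V (F 18 (U L L)) (U (F 2 L) (F 2 L))) (V (F 18 (U (S L (F 1 L)) L)) (U (F 18 (S L L)) (F 2 L)))) (F 18 (T (U (S L (F 1 L)) L) (V L (S L (F 1 L))))))) (V (F 18 (S (T (V L L) (U L L)) (T (S L (F 1 L)) L))) (S (T (U (F 18 (S L L)) (F 2 L)) (U (S (F 2 L) (F 18 L)) (F 18 (S L (F 1 L))))) (F 18 (T (S L L) (S L (F 1 L))))))) (U (V (S (T (F 18 (U (S L (F 1 L)) (S L (F 1 L)))) (F 48 (S (T L L) (F 4 (S L L))))) (F 50 (T (V L L) (S L L)))) (S (T (V (S (S (F 16 L) (F 18 L)) (F 18 L)) (U L (F 32 L))) (V (F 48 (U (F 4 (S L L)) L)) (U (F 32 L) (F 32 L)))) (F 48 (T (F 4 (U (S L L) (S L L))) (S L (F 4 L)))))) (V (F 48 (S (T (F 4 (U (S L L) L)) (S (S L (F 4 L))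 (F 4 L))) (F 4 (T (S L L) (S L L))))) (S (T (U (S (F 2 L) (F 50 L)) (F 34 (S L (F 1 L)))) (S (S (F 32 L) (F 32 L)) (F 48 (S L L)))) (F 50 (T (U L L) (S L L)))))))
noncomputable def v18_67 : Tr := (U (V (F 507 (S (T (K 0) (U (K 0) (V (K 0) (S (K 0) (K 0))))) (T (K 0) (U (K 0) (V (K 0) (S (K 0) (K 0))))))) (S v18_64 (F 434 (T (U (F 11 (V (K 0) (S (K 0) (K 0)))) (V (F 11 (U (K 0) (S (S (K 0) (K 0)) (S (K 0) (K 0))))) (S (T (S L L) (S L (F 8 L))) (F 8 (T (S L L) (S L L)))))) (F 8 (U (F 6 (V (K 0) (S (S (K 0) (K 0)) (S (K 0) (K 0))))) (V (S (U (K 0) (T L L)) (U (K 0) (T L L))) (S (T (V L L) (S L L)) (T (S L L) (S L L)))))))))) (V (F 274 v18_65) (F 416 (S v18_66 (F 18 (T (U (V (F 1 (S (T (S L L) (S L L)) (T (S L L) (S L L)))) (S (T (S L (F 1 L)) (F 1 (S L L))) (F 1 (T (S L L) L)))) (V (S (T L (F 1 L)) (F 1 (T L L))) (S (T L (F 1 L))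 (F 1 (S L L))))) (F 1 (U (V (S (T (S L L) (S L L)) (T L (S L L))) (S (T (S L L) (S L L)) (T L L))) (S (V (T L L) (T L L)) (V (T L L) (T L L)))))))))))
noncomputable def v18_68 : Tr := (U (S (T (F 9 (U (S (V (F 8 (S L L)) (S L L)) (V (S L L) (S L L))) (S (V (F 8 L) (S (F 8 L) L)) (V L (S L L))))) (V (F 9 (U (S (U (F 8 (S L L)) L) (T L (S L L))) (S (S L L) (S L L)))) (U (F 9 (S (T L (S L L)) (T L (S L L)))) (S (S (F 1 L) (F 1 L)) (F 9 (T L (S L L))))))) (F 9 (T (U (V (S (S L L) (F 1 (T L L))) (T (F 1 (S L L)) (S L (F 1 L)))) (V (S L (F 1 (S L L))) (S (S L (F 1 L)) (F 1 (S L L))))) (U (V (F 1 (U (T L L) (S L L))) (S (T L (S L (F 1 L))) (F 1 (T L (S L L))))) (F 1 (V (U (S L L) L) (U (T L L) (S L L)))))))) (S (U (T (F 9 (S (F 8 (T L L)) (T (F 8 L) L))) (S (V (F 9 L) (F 1 L)) (F 9 (V L (S L L))))) (F 9 (T (V (F 8 (S L (F 4 L))) L) (S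 (T (F 8 L) L) (S L L))))) (F 41 (U (T (V (S L L) (S L L)) (V (S L L) (U (S L L) L))) (T (S L L) (T L (S L L)))))))
noncomputable def v18_69 : Tr := (S (T (V (U (S (S (F 1 L) (F 1 L)) (S (F 1 L) (F 1 L))) (F 9 (S (S L L) (S L L)))) (U (S (S (F 1 L) (F 1 L)) (S (F 1 L) (F 1 L))) (S (S (F 1 L) (F 1 L)) (S (F 1 L) (F 1 L))))) (V (U (S (T (F 1 L) (S (F 1 L) (F 1 L))) (T (F 9 (S L L)) (S (F 1 L) (F 1 L)))) (S (T (F 1 L) (S (F 1 L) (F 1 L))) (T (F 1 L) (S (F 1 L) (F 1 L))))) (U (S (T (F 1 L) (S (F 1 L) (F 1 L))) (T (S (F 1 L) (F 1 L)) (S (F 1 L) (F 1 L)))) (S (T (F 1 L) (S (F 1 L) (F 1 L))) (T (F 1 L) (S (F 1 L) (F 1 L))))))) (T (V (F 9 (U (S (T (F 1 L) L) (F 1 (T L L))) (S (S L L) (F 1 (S L L))))) (U (S (S (F 1 L) (F 1 L)) (F 33 (T (F 2 L) L))) (F 33 (S (S L L) (S L (F 2 L)))))) (V (U (S (T (F 1 L) (S (F 1 L) (F 1 L))) (F 33 (T (F 2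 (S L L)) (V (F 2 L) L)))) (S (T (F 9 L) (F 1 L)) (F 41 (U (S L L) L)))) (U (S (T (F 33 (S L L)) (V (F 1 L) (F 1 L))) (T (F 33 (S L L)) (V (F 32 L) (F 32 L)))) (F 33 (S (T L (S L L)) (T L (S L L))))))))
noncomputable def v18_70 : Tr := (V (U (S (U (T (F 68 (V (F 9 (S (S L L) L)) (S (S (F 1 L) (F 1 L)) (S (F 8 L) (F 8 L))))) (S (V (F 72 L) L) (F 12 (V (S (F 2 L) (F 34 L)) (S L L))))) (T (F 196 (V (S (F 4 L) (F 20 L)) (S L (S (F 4 L) (F 4 L))))) (S (V (F 76 L) (F 64 L)) (F 5 (V (F 18 L) (S L (F 16 L))))))) (F 12 (V (F 34 (U (T (F 8 (S L L)) (S L (F 1 L))) (T (F 8 L) (F 1 L)))) (U (T (S (F 2 L) (F 34 L)) (S (F 32 L) (F 34 L))) (F 34 (T L (S L (F 1 L)))))))) (F 68 (U (S (V (T (F 9 L) (S (S (F 9 L) (F 40 L)) (F 40 L))) (T (S (F 1 L) (F 9 L)) (S L (F 32 L)))) (F 40 (S (V (F 8 L) (S L L)) (T (F 8 L) (F 1 L))))) (S (V (F 9 (S L (F 1 L)))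 (S (S (F 1 L) (F 1 L)) (F 40 (T (F 8 L) L)))) (F 40 (T (F 8 L) (F 1 (S L (F 1 L))))))))) (U (S (U (T (S (V (S (F 192 L) (F 68 L)) (F 64 L)) (F 68 (V L (S L L)))) (V (S (S L L) L) (S (S L L) (S L L)))) (T (S (F 192 (V L L)) (F 68 (V L L))) (S (V L L) (V (F 4 L) L)))) (U (T (F 68 (S (V L (S L L)) (V (F 40 (S L L)) (S (F 32 L) (F 32 L))))) (V (F 5 (S (S L L) (F 16 L))) (S (S (F 1 L) (F 5 L)) (F 5 L)))) (V (F 5 (S (T (F 2 L) L) (T (F 18 L) (F 48 L)))) (T (F 68 (S L (F 32 L))) (F 5 (S (S L L) (F 32 L))))))) (S (U (T (V (F 196 (S L L)) (S (F 192 L) (F 68 L))) (S (V (F 4 L) L) (V (F 5 L) (F 1 L)))) (T (F 196 (V (S L (F 16 L)) (S L L))) (S (S (F 64 L) (F 64 L)) (S (F 4 L) (F 5 L))))) (F 5 (U (V (T (F 2 L) (S (F 2 L) (F 48 L))) (T (S (F 2 L) (F 2 L)) (S L (F 32 L)))) (V (S (F 2 L) (F 34 L)) (T (F 2 L) (S (F 2 L) (F 34 L)))))))))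
noncomputable def v18_71 : Tr := (S (T (F 68 (V (F 9 (U (S (T (U L L) (U (S (S L L) L) (S L L))) (T (V L L) (U (S L (F 1 L)) (F 1 (S L L))))) (S (U (T L (S L L)) (S L L)) (T L (F 1 (U L L)))))) (U (S (T (U (F 9 (S L L)) (F 1 L)) (U (V (F 9 (S L L)) (S (F 1 L) (F 1 L))) (V (F 1 L) (S (F 1 L) (F 1 L))))) (T (F 9 (U (S L L) (S L (F 1 L)))) (U (S (T (F 9 L) L) (S (F 8 L) (F 8 L))) (V (F 9 L) (S (F 9 L) (F 33 L)))))) (S (T (S (F 1 L) (F 1 L)) (U (S (F 1 L) (F 1 L)) (S (F 1 L) (F 9 L)))) (U (T (F 9 L) (S (F 1 L) (F 9 L))) (F 9 (T L (S L (F 1 L))))))))) v18_70) (F 5 (T (F 18 (U (V (F 8 (U (S (T L L) L) (S (S L L) L))) (S (T (F 8 (U (S L L) L)) (U (V (F 8 L) (S L (F 8 L))) (S L (F 8 L)))) (T (T (F 8 L) L) (U L (F 8 L))))) (F 8 (V (U (S L (F 4 L)) (S L (F 4 L))) (U (S (T L (S L L)) (S L L)) (S (T L L) L)))))) (V (F 18 (U (S (U (T L (F 1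 (S L L))) (F 1 (T L L))) (F 1 (U (S L L) L))) (F 1 (S (U L (F 1 L)) (S L L))))) (U (S (U (T (F 18 (V L (S L (F 1 L)))) (S (S (F 16 L) (F 48 L)) (F 48 (S L (F 4 L))))) (T (F 18 (V L (S L (F 1 L)))) (F 48 (V (F 4 L) L)))) (F 18 (U (T L (F 1 L)) (F 1 (T L L))))) (S (U (F 18 (T (S L (F 1 L)) (F 1 (U (S L L) L)))) (F 34 (V (F 1 L) (S L (F 1 L))))) (F 50 (U (S L L) L))))))))
noncomputable def v18_72 : Tr := (V (F 68 (U (S (T (U (S (F 1 L) (F 1 L)) (S (F 1 L) (F 1 L))) (U (V (S (F 1 L) (F 1 L)) (S (F 1 L) (F 1 L))) (V (S (F 1 L) (F 1 L)) (S (F 1 L) (F 1 L))))) (T (U (S (F 1 L) (F 1 L)) (S (F 1 L) (F 1 L))) (U (V (S (F 1 L) (F 1 L)) (S L L)) (V L (S (F 1 L) (F 32 L)))))) (S (T (S (F 1 L) (F 1 L)) (U (V (F 1 L) (F 1 L)) (S (F 1 L) (F 1 L)))) (U (T (S (F 1 L) (F 33 L)) (V (F 1 L) L)) (T (F 1 L) (S (F 1 L) (F 32 L))))))) (U (S (T (F 196 (U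 (S L L) (S L L))) (S (T (F 196 (V L L)) (S (F 64 L) (F 64 L))) (F 68 (U (S L L) (S (F 1 L) L))))) (F 68 (T (S (T (F 1 L) L) (V (F 1 L) (F 1 L))) (U (S (V L L) (V L L)) (V (S (F 1 L) (F 32 L)) (S (F 1 L) (F 32 L))))))) (F 68 (S (T (S (F 1 L) (F 1 L)) (U (S (F 1 L) (S (F 1 L) (F 1 L))) (S (F 1 L) (F 1 L)))) (T (U (S (F 1 L) (F 1 L)) (F 1 L)) (U (S L L) (S (F 1 L) (F 32 L))))))))
noncomputable def v18_73 : Tr := (U (S (T (V (U (S (S (F 192 L) (F 64 L)) (F 68 (S L L))) (S (F 64 L) (F 68 (S L L)))) (U (S (F 64 L) (S (F 68 L) (F 64 L))) (S (F 192 L) (F 64 L)))) (V (U (S (S L L) (S L L)) (S L L)) (S (U (S L L) (S (F 64 L) (F 64 L))) (U (S L L) L)))) (T (U (V (F 68 (S (S L L) L)) (S (F 68 (S L L)) (S (F 68 L) (F 5 L)))) (F 68 (V (S L (F 32 L)) (S (S L (F 32 L)) L)))) (U (S (V (S (F 1 L) (F 4 L)) L) (F 5 (V (S L L) (S L L)))) (V (F 5 (S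 (S L L) L)) (S (F 1 L) (F 5 L)))))) (S (T (S (V (T (F 192 L) (F 64 L)) (S (F 64 L) (F 64 L))) (U (T (F 68 L) (F 64 L)) (F 68 (S L L)))) (U (V (S L (F 4 L)) (S L L)) (V L (S (F 64 L) (F 1 L))))) (T (U (S (F 68 (V L L)) (T (F 68 L) (F 5 L))) (F 68 (S (S L L) (S (F 32 L) (F 32 L))))) (F 5 (U (V (S L (F 32 L)) (S (S L L) L)) (V L (S L (F 32 L))))))))
noncomputable def v18_74 : Tr := (V (U (S (T (U (S (V (F 2 L) (S (F 2 L) (F 2 L))) (T (F 2 L) (F 2 L))) (S (T (F 2 L) L) (S (F 2 L) (F 2 L)))) (S (U (V L L) (S L L)) (U (S L (F 32 L)) (F 32 L)))) (T (U (S (F 2 L) (F 50 L)) (F 18 (S L (F 1 L)))) (F 48 (U (S L (F 4 L)) (S L (F 4 L)))))) (S (T (U (V (F 2 L) (S (F 2 L) (F 34 L))) (S (F 2 L) (F 34 L))) (U (S L (F 32 L)) (S (F 32 L) (F 34 L)))) (U (F 18 (T L (F 1 (S L L)))) (F 34 (S L (F 1 L)))))) (U (S (S (T (U (V L L) (S L L)) (U (V L L) (S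 L L))) (T (U (S L L) L) (V (S L (F 32 L)) (S L (F 32 L))))) (T (V (S L (F 2 L)) (S L (F 2 L))) (U (V (F 32 L) (F 32 L)) (S (F 32 L) (F 34 L))))) (S (T (U (V (S (F 2 L) (F 34 L)) (S (F 2 L) (F 34 L))) (S (F 2 L) (F 2 L))) (S (V L L) (V (F 32 L) (F 32 L)))) (T (U (S (F 2 L) (F 34 L)) (F 2 L)) (U (F 34 (S L L)) (F 32 L))))))
noncomputable def v18_75 : Tr := (S (T v18_72 (V v18_73 (U (S (T (S (U (V (F 64 L) (F 68 (S L L))) (T (F 64 L) L)) (U (V (S (F 68 L) (F 4 L)) L) (T (F 64 L) L))) (S (U (V (S L L) (S L L)) (V L L)) (U (V (S L L) (S L L)) (V L L)))) (T (S (V (F 68 (U (S L L) (S L (F 32 L)))) (T (F 4 L) L)) (U (V (F 4 L) (F 4 L)) (S (F 4 L) (F 4 L)))) (S (V (U L (F 1 L)) (U L (F 1 L))) (V (F 5 (U (S L L) L)) (U (F 1 L) (F 5 L)))))) (S (T (S (U (S (F 64 L) (F 64 L)) (F 64 L)) (U (T (F 68 L) L) (F 68 (S L L)))) (U (S (T L L) (T L L))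 (S (S L L) L))) (T (S (U (T (F 68 L) (F 4 L)) (F 68 (S L L))) (U (T (F 68 L) (F 5 L)) (F 69 (S L L)))) (U (S (T L (F 1 L)) (F 5 (V L L))) (S (S (F 1 L) (F 5 L)) (F 5 L)))))))) (T (F 68 (V (U (S (T (S (T (F 1 L) L) (V (F 33 L) (F 32 L))) (U (S (S L L) (S (F 32 L) (F 32 L))) (V (F 32 L) (F 32 L)))) (F 40 (T (U (S L (F 8 L)) L) (U (S L L) (S L L))))) (S (T (S (F 1 L) (F 32 L)) (U (S (F 32 L) (F 32 L)) (F 32 L))) (U (V (F 40 L) (F 32 L)) (S (F 32 L) (F 40 L))))) (U (S (T (U (S L L) (S (F 1 L) (F 32 L))) (S (U (S L L) L) (U (S (F 32 L) (F 32 L)) (S (F 32 L) (F 32 L))))) (T (U (S (F 32 L) (F 40 L)) (S (F 32 L) (F 40 L))) (U (V (F 32 L) (F 32 L)) (S (F 32 L) (F 32 L))))) (S (T (S L (S (F 32 L) (F 32 L))) (U (V (F 32 L) (F 32 L)) (S (F 32 L) (F 32 L)))) (T (S (F 32 L) (F 32 L)) (U (S (F 32 L) (F 40 L)) (F 32 L))))))) (F 5 v18_74)))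
noncomputable def v18_76 : Tr := (T (F 68 (U (S (V (T (S (F 1 L) (F 1 L)) (U (S (F 1 L) (F 1 L)) (F 1 L))) (T (S (F 1 L) (F 1 L)) (U (S (F 1 L) (F 1 L)) (F 1 L)))) (V (T (S (F 1 L) (F 33 L)) (U (F 1 L) (F 33 L))) (T (S (F 1 L) (F 33 L)) (U L (F 1 L))))) (V (S (S (F 1 L) (F 1 L)) (F 33 (U (S L L) L))) (S (S (F 1 L) (F 1 L)) (F 33 (U (S L L) L)))))) (V (U (S (U (T (F 68 (S (S (F 1 L) (F 1 L)) L)) (S L (F 4 L))) (T (F 196 (S L L)) (S (F 68 L) (F 5 (S L (F 2 L)))))) (U (T (F 68 (S L (F 32 L))) (F 5 (S L (F 32 L)))) (F 5 (S (T (F 2 L) (F 32 L)) (S (F 2 L) (F 34 L)))))) (F 68 (S (U (T (F 1 L) (S (F 32 L) (F 32 L))) (F 33 (S L L))) (U (S (F 32 L) (F 48 L)) (F 49 (S L L)))))) (U (S (U (T (F 68 (V (S (F 1 L) (F 1 L)) L)) (S L L)) (T (F 196 (S L L)) (S (F 4 L) (F 5 L)))) (U (T (F 68 (S L (S (F 32 L) (F 32 L)))) (F 5 (V L L))) (F 5 (T (S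 (F 2 L) (F 2 L)) (S (F 32 L) (F 32 L)))))) (S (F 68 (U (T (S (F 1 L) (F 33 L)) (S L (F 32 L))) (S (F 1 L) (F 33 L)))) (F 5 (U (T (F 2 L) (F 32 L)) (F 34 (S L L))))))))
noncomputable def v18_77 : Tr := (V (U v18_71 (F 68 (S (U (T (V (F 9 (U (S L (F 1 L)) (F 8 (S L (F 4 L))))) (S (U (S (F 1 L) (F 1 L)) (F 1 L)) (U (S (F 1 L) (F 33 L)) (F 33 L)))) (V (U (S (F 33 (V (F 2 L) (S L L))) (F 40 (T (F 8 L) (F 1 L)))) (F 41 (T L (F 1 (U L L))))) (U (S (T (V (F 1 L) (F 1 L)) (V (F 32 L) (S (F 1 L) (F 32 L)))) (S (T (F 32 L) (F 32 L)) (T (F 40 L) (F 48 L)))) (S (T (F 1 L) (S (F 1 L) (F 32 L))) (T (F 33 L) (F 48 L)))))) (V (F 43 (U (T (S L L) (F 1 (U (S L L) L))) (T L (F 1 L)))) (T (S (S (F 1 L) (F 1 L)) (F 33 (S L L))) (U (S (F 33 (S L L)) (F 48 (S (F 8 L) (F 1 L)))) (F 33 (T L (F 1 L))))))) (F 40 (U (U (V (F 8 (T L (F 4 (S L L)))) (T (F 8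 (S (S L L) (F 4 L))) (F 1 (S (T L L) L)))) (V (F 9 L) (T (F 8 (S L (F 4 L))) (F 1 (S L (F 1 L)))))) (U (V (F 13 L) (T (F 8 L) (F 1 L))) (F 9 (T L L)))))))) (U v18_75 (S v18_76 (F 5 (T (U (V (S (U (T (F 19 L) (F 2 L)) (F 3 (S L L))) (F 18 (U (S L (F 8 L)) (F 8 L)))) (S (T (F 3 (S L L)) (U (F 2 L) (F 2 L))) (T (F 2 L) (S (F 2 L) (F 34 L))))) (V (S (F 3 (T (F 2 L) L)) (S (F 3 L) (F 50 L))) (S (T (F 3 L) (F 2 L)) (F 2 L)))) (U (V (S (U (T (F 2 L) (F 34 (S L (F 1 L)))) (F 34 (S L L))) (F 34 (U (S L (F 1 L)) (F 1 L)))) (S (T (U (S (F 2 L) (F 34 L)) (F 2 L)) (U (S (F 32 L) (F 34 L)) (F 32 L))) (F 34 (U (T L L) (S L (F 1 L)))))) (F 34 (V (U (S L (F 1 L)) L) (S (U (S L L) L) (S L L))))))))))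
noncomputable def v18_78 : Tr := (U (S (T (F 9 (U (V (T (S L L) (S L L)) (S (T L L) (S L L))) (V (S L L) (T L (S L L))))) (V (U (S (F 9 (U (S L L) L)) (T (F 9 L) (F 8 L))) (F 9 (S (T L L) (S L L)))) (U (S (T (F 9 (S L L)) (S L (F 8 L))) (T (F 8 L) (S (F 8 L) (F 8 L)))) (S (T (F 9 L) L) (T (F 9 L) (F 8 L)))))) (T (F 9 (U (V (T (S L L) (S L L)) (S (S L L) (S L L))) (V (T L (S L L)) (S L (S L L))))) (U (V (T (F 9 (S L L)) (S (F 9 L) (F 24 L))) (S (T (F 9 L) (F 8 L)) (S (F 8 L) (F 8 L)))) (V (F 9 (S (S L L) (F 1 (T L L)))) (S (S (F 8 L) (F 8 L)) (F 8 L)))))) (S (U (T (F 9 (V (S L L) (S L L))) (V (F 9 (S (S L L) L)) (S (S (F 1 L) (F 1 L)) (F 9 (S L L))))) (F 9 (T (S L L) (U (S L L) L)))) (U (T (F 9 (U (S L L) (S L L))) (S (T (F 9 L) (F 8 L)) (T (F 9 L) (F 24 L)))) (F 9 (T (S L L) (F 1 (U (S L L) L)))))))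
noncomputable def v18_79 : Tr := (F 50 (U (S (F 5 (T (U (V (F 9 (U (S L L) (S L L))) (S (T L L) (F 1 (T L L)))) (F 8 (U (V (F 4 (S L L)) (S L (F 4 L))) (F 4 (V L (S L L)))))) (F 1 (U (V (S (T L L) (T L L)) (S (U (S L L) L) (S L L))) (S (V (S L L) (T L L)) (V (S L L) (S L L))))))) (T (F 36 (U (V (F 4 (U (S (F 1 L) L) (F 1 (S L L)))) (S (F 8 (S L L)) (S L L))) (S (F 8 (V (F 1 (S L L)) L)) (V (F 4 L) L)))) (U (S (F 36 (V (T (F 8 L) L) (F 8 (T L L)))) (V (T (F 36 L) (F 32 L)) (F 37 (T L L)))) (S (F 37 (U (T L L) (S L L))) (T (F 36 (S L L)) (S (F 36 L) (F 32 L))))))) (F 37 (U (S (U (T (F 4 (S L L)) (S L L)) (F 4 (T L (S L L)))) (T (F 4 (U (S L L) L)) (U (S L (S L L)) (S L L)))) (S (F 4 (U (S L L) L)) (T (F 4 (S L L)) (U (S (F 4 L) L) L)))))))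
noncomputable def v18_80 : Tr := (U (S (T (V (F 18 (U (S (T (S L L) (S L (F 1 L))) (T L (F 1 (S L L)))) (S (T L L) (F 1 (T L L))))) (U (S (T (S (F 2 L) (F 18 L)) (U (F 2 L) (F 18 L))) (F 18 (T (S L (F 1 L)) (F 1 (S L L))))) (S (U (S (F 2 L) (F 18 L)) (F 2 L)) (F 18 (T L (F 1 L)))))) (V (F 50 (U (S (U (T L L) (S L L)) (T L L)) (S (U (S L L) L) (S L L)))) (U (S (T (S (S (F 2 L) (F 2 L)) (F 34 L)) (S (F 32 L) (F 48 L))) (F 50 (T (S L L) (S L L)))) (S (T (F 34 (S L (F 1 L))) (F 32 L)) (F 50 (T L L)))))) (F 50 (T (U (V (S (S L L) (S L L)) (S (T L L) (S L L))) (V (S (S L L) (S L L)) (S (S L L) L))) (U (S (V (S L L) (T L L)) (V (T L L) (S L L))) (S (V (S L L) (S L L)) (V (S L L) (S L L))))))) (S (U (T (V (F 50 (U (S L (F 4 L)) L)) (S (S (F 2 L) (F 34 L)) (F 50 (S L L)))) (F 34 (S (V (F 1 (S L L)) (T L L)) (F 1 (V L (S L L)))))) (F 34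 (T (S (V (F 1 L) L) (F 1 (S L L))) (S (V (F 1 L) L) (F 1 (S L L)))))) (F 50 (U (T (V (S L L) (S L L)) (S (T L L) (T L L))) (T (S L L) (S L L))))))
noncomputable def v18_81 : Tr := (S (F 2135 (T (F 68 (V v18_68 (U v18_69 (S (T (U (S (V (F 1 L) (F 1 L)) (V (F 1 L) (F 1 L))) (S (S (F 1 L) (F 1 L)) (S (F 1 L) (F 9 L)))) (U (V (S (S (F 1 L) (F 1 L)) (S (F 1 L) (F 1 L))) (S (S (F 1 L) (F 1 L)) (S (F 1 L) (F 1 L)))) (V (S (F 1 L) (F 1 L)) (S (F 1 L) (F 1 L))))) (T (U (V (F 9 (S L (F 1 L))) (F 33 (S L L))) (F 41 (V (S L L) (S L L)))) (U (V (S (S (F 1 L) (F 33 L)) (F 41 (S L L))) (S (S (F 1 L) (F 33 L)) (F 33 (S L L)))) (F 33 (V (S L (F 2 L)) (S L L))))))))) v18_77)) (F 11267 (T (V (F 226 (U (S (T (U (V (T (F 1 L) (F 3 (S L L))) (F 3 (T (S L L) (S L L)))) (F 3 (V (T L L) (S L L)))) (F 3 (U (V (U (S L L) (S L (F 1 L))) (S (T L L) (S L L)))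 (V (S L L) (U (S L (F 1 L)) L))))) (T (U (V (T (S (F 3 L) (F 1 L)) (S (F 3 L) (F 2 L))) (F 3 (T (S L L) (S L L)))) (V (S (S (F 3 L) (F 1 L)) L) (T (F 1 L) (F 3 (S L L))))) (U (S (F 3 (U (T L L) (S L L))) (V (F 18 (T L L)) (S (F 2 L) (F 18 L)))) (S (F 3 (V L L)) (F 18 (V L L)))))) (U (S (F 3 (T (U (S L L) (S L L)) (U (S L L) L))) (T (V (S (F 3 L) (F 1 L)) (F 3 (S L L))) (F 19 (U (S L L) L)))) (F 3 (S (T (S L L) (S L (F 1 L))) (T (S L L) (F 1 (S L L)))))))) (F 368 v18_78)) (V v18_79 (F 336 v18_80)))))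
noncomputable def v18_82 : Tr := (F 0xfffffffffffffffffffffffffffffffff9fffff3339dfe77ff (V (F 547 v18_9) (U (S (F 2132 (T (F 324 (U (V v18_10 v18_13) (V (F 3 v18_14) v18_15))) (U (V (S v18_17 (F 268 (T (U (K 4) (V (K 4) (S (T (F 5 (U (K 2) (V (K 2) (T (F 16 L) L)))) (U (K 4) (S (V (K 4) (S (F 4 L) (K 4))) (K 4)))) (K 4)))) (U (K 4) (V (K 4) (S (T (U (K 4) (V (K 4) (S (T (F 4 L) (F 64 L)) (K 4)))) (U (K 4) (V (K 4) (S (T (F 64 L) (F 64 L)) (K 4))))) (K 4))))))) (S (T (U v18_22 (V v18_23 v18_24)) v18_40) (T v18_43 (U (V (F 1007 (S (T (U (K 0) (V (K 0) (S (S (K 0) (K 0)) (K 0)))) (U (K 0) (S (S (K 0) (K 0)) (K 0)))) (K 0))) (S v18_44 (F 261 (T (U (V (K 4) (S (U (K 4) (V (K 4) (T L L))) (K 4))) (V (S (T (S (F 32 L) (K 4)) (S (F 32 L) (K 4))) (K 4)) (S (T (S L L) (S (S L L) L)) (T L L)))) (U (V (K 4) (S (V (K 4) (T (S L (F 32 L)) (S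 (F 64 L) (F 96 L)))) (F 111 (S (K 0) (K 0))))) (V (S (U (K 4) (S L (F 32 L))) (K 4)) (S (T (S L L) (S L (F 64 L))) (T L (F 64 L))))))))) v18_46)))) v18_60))) (T (F 3122 v18_63) (F 11330 v18_67))) v18_81)))
noncomputable def treeV18 : Tr := v18_82

theorem pV18 : chkV par treeV18 128 128 384 128 768 256 349525 699051 Lc = true := by decide +kernel

noncomputable def v19_0 : Tr := (S (T (U (U (U (V (T (S (F 15 (U L (F 1 L))) (F 34 (T (F 4 L) (F 2 L)))) (F 42 (S (S L L) L))) (S (F 10 (V (T (F 4 (S L L)) L) (T L L))) (T (T (F 2 L) (F 10 L)) (F 10 L)))) (F 10 (V (F 1 (T (F 3 L) L)) (S (T (F 4 (S (F 1 L) L)) (F 8 L)) (S L (F 4 L)))))) (F 14 (V (F 5 L) (S (F 4 L) L)))) (F 63 L)) (F 10 (U (U (U (S (V (F 1 (T L L)) (T (S L (F 1 L)) L)) (F 1 (V (S L L) (T L L)))) (S (V (F 1 L) (S L (F 1 L))) (F 1 (T L L)))) (F 1 (T (S (F 1 L) L) L))) (F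 15 L)))) (T (U (U (U (V (F 34 (S (T (F 4 L) (F 2 L)) (F 6 (T L L)))) (F 10 (S (T (S L (F 4 L)) (F 1 L)) (S L (F 1 L))))) (F 10 (S (V (F 5 L) L) (F 5 (V L L))))) (F 46 (U (S L (F 1 L)) (F 3 L)))) (F 63 L)) (F 42 (U (U (U (S (V (S L L) (S L L)) (V (S L (F 1 L)) (F 1 (S L L)))) (S (S L (F 1 L)) (F 1 (S L L)))) (F 1 (S L (F 2 L)))) (F 7 L)))))
noncomputable def v19_1 : Tr := (S (T (F 3 (U (V (U (U (S (T (S (F 4 L) L) (S L L)) (T (S L (F 2 L)) (S L L))) (S (T (F 4 L) L) (S L L))) (T (F 2 L) L)) (U (U (S (F 4 (T L (S L L))) (T L (S L L))) (S (F 4 (S L L)) L)) (F 4 (T L (F 4 L))))) (F 15 L))) (U (V (U (U (S (F 3 (V (U (T L (F 1 (S L L))) (F 1 (S L L))) (U (T L (F 1 (S L L))) (F 1 (S L L))))) (S (T (T (F 3 L) (F 2 L)) (F 34 (V L L))) (F 34 (V (S L L) (S L L))))) (F 35 (S (F 4 (U (V (S L L) L) L)) (V L L)))) (F 39 (S L L))) (U (U (S (F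 3 (T (V (S L L) (F 4 L)) (F 1 (V (U (S (F 1 L) L) (F 1 L)) (F 1 (S (F 2 L) L)))))) (F 34 (V (S (T (F 8 L) L) (S L L)) (S (S (F 8 L) L) (S L L))))) (F 34 (S (F 12 (S (F 1 L) L)) (S (F 8 L) L)))) (F 39 (S (F 2 L) L)))) (F 63 L))) (T (U (U (U (V (F 3 (S (T L (S L (F 1 L))) (F 2 (T L (F 4 (S L L)))))) (S (T (F 3 L) (S (F 3 L) (F 34 L))) (T (F 3 L) (F 34 (S L (F 1 L)))))) (F 3 (V (S (S L (F 1 L)) (F 3 L)) (F 1 (S (S L L) (S L (F 4 L))))))) (F 35 (V (F 1 (S L L)) L))) (F 63 L)) (F 34 (U (V (U (S (U (T (S L L) (S (S L L) L)) (S L L)) (F 1 (U (T L (S L L)) (S L L)))) (F 9 (S L L))) (S (U (U (T (S L L) (S (S L L) L)) (S L L)) (F 4 L)) (U (U (T (S L (F 1 L)) (S L L)) (S L L)) L))) (F 15 L)))))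
noncomputable def v19_2 : Tr := (T (F 192 (U (V (F 40 (S (T (F 14 (U (U (U (U (U L L) L) L) L) (F 1 L))) (U (U (U (T (F 4 (V (F 2 (S (F 2 L) L)) (S (F 1 L) L))) (V (S (F 4 L) L) (F 4 (S L L)))) (F 4 (T (F 2 (S (F 2 L) L)) (S L L)))) (F 6 (S (F 1 L) L))) (F 15 L))) (T (F 2 (U (U (U (S (F 2 (V (T (F 2 L) L) (T L L))) (V (T (F 2 (S L L)) L) (F 2 (T L L)))) (F 2 (S L (T L L)))) (F 2 (S (F 2 L) L))) (F 7 L))) (U (U (U (S (V (F 2 (T L L)) (F 4 (T (F 2 L) L))) (F 2 (V (T L L) (T (F 2 L) L)))) (S (V (F 2 L) (F 4 L)) (F 2 (T L L)))) (F 2 (V (S (F 2 L) (F 4 L)) (F 2 (S L (F 1 L)))))) (F 15 L))))) v19_0) (F 63 L))) (F 5 (U (V v19_1 (S (F 10 (T (F 8 (U (U (U (V (S (T L L) (T L L)) (T (S L (F 4 L)) (F 4 L))) (V (S (F 1 L) (F 4 L)) (F 5 L))) (F 5 L)) (F 7 L))) (F 1 (U (U (U (S (F 3 L) (V (U (S (F 3 L) (S (F 2 L) L)) (F 2 (S (F 2 L) L))) (F 3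 L))) (F 3 L)) (F 3 L)) (F 7 L))))) (T (U (U (U (V (S (F 10 (T (F 8 L) (F 1 (S L L)))) (F 34 (T (F 2 (S (F 1 L) L)) L))) (F 42 (S (F 4 (T L L)) (T L L)))) (F 42 (V (S (F 4 (S L L)) (S (F 4 L) L)) (F 4 (T L (S (F 1 L) L)))))) (F 43 (V (S L L) L))) (F 63 L)) (U (V (S (U (U (S (F 34 (V L (F 2 L))) (F 40 (T (F 4 L) L))) (F 38 (V L (F 2 L)))) (F 47 L)) (U (U (T (F 34 L) (F 40 (S L (F 4 L)))) (F 42 (S L L))) (F 46 (S L L)))) (F 46 (U (U (S (U (S (F 2 L) L) (F 2 L)) (T (S L L) (S L L))) (S (F 2 L) (S L L))) (F 2 L)))) (F 63 L))))) (F 63 L))))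
noncomputable def v19_3 : Tr := (S (T (U (U (U (V (T (F 34 (V (S L L) (S (S (F 8 L) (F 4 L)) L))) (S (S (F 2 L) (F 34 L)) (F 34 L))) (S (T (F 39 (U L (F 2 L))) (F 10 (S (F 8 L) (F 1 L)))) (F 42 (T (S L L) L)))) (F 34 (V (T (F 4 (S (S (F 1 L) L) L)) (S (F 8 L) (F 2 L))) (F 2 (S (F 3 L) L))))) (F 38 (V (S (F 4 L) L) (F 6 L)))) (F 63 L)) (U (U (U (V (F 34 (T (S (S L L) (F 2 L)) (S L (F 2 L)))) (F 10 (T (S (F 8 L) (F 1 L)) (F 9 (S L L))))) (F 34 (T (V L (F 10 L)) (F 10 (V L L))))) (F 43 (U (S L (F 1 L)) (F 3 L)))) (F 63 L))) (F 34 (T (U (U (U (T (V (S (S L (F 2 L)) L) (F 2 (S L L))) (F 2 (V (S L L) (S L L)))) (F 2 (T (V (S L (F 2 L)) L) (S L L)))) (F 2 (S (S L L) L))) (F 15 L)) (F 2 (U (U (U (T (V (S L (F 4 L)) (S L L)) (V (F 4 (S L L)) (S (F 1 L) (F 4 L)))) (T (S L (F 4 L)) (F 4 (S (F 2 L) L)))) (F 4 (S L L))) (F 7 L))))))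
noncomputable def v19_4 : Tr := (S (T (U (V (F 11 (U (U (T (S L (F 1 L)) (S (S L (F 1 L)) (F 1 L))) (F 1 (T L L))) (F 3 L))) (U (U (S (T (F 9 (S (F 8 L) (F 1 L))) (S (F 1 L) (F 33 L))) (F 33 (T (F 2 L) (S L (F 2 L))))) (F 33 (T (F 10 (S L L)) (S (F 8 L) (F 2 L))))) (F 43 (T L L)))) (F 63 L)) (U (U (U (V (F 33 (S (U (V (F 11 L) (T (F 2 L) (F 9 L))) (F 11 L)) (F 11 (S L L)))) (S (F 33 (V (T (S L L) (F 1 (U (S L (F 1 L)) (F 1 L)))) (T (S L L) (F 1 (U (S L L) L))))) (F 48 (V (F 8 (S L (F 4 L))) (T (F 8 (S L L)) (S L (F 1 L))))))) (F 49 (V (F 5 L) (S (F 4 (V L (S L L))) (S (F 4 L) (F 1 L)))))) (F 59 (S L L))) (F 63 L))) (F 40 (T (F 8 (U (U (U (V (T (S L (F 4 L)) (F 4 (S L L))) (S (T L L) (F 4 (T L L)))) (V (F 4 L) (T L (F 4 L)))) (F 5 (S L L))) (F 7 L))) (F 1 (U (U (U (S (V (F 1 L) (T (F 1 (S L L)) (S L L))) (V (F 1 (S (F 2 L) L)) (T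 (F 1 L) L))) (F 1 (S (F 2 (S L L)) (S (F 2 L) L)))) (F 3 L)) (F 7 L))))))
noncomputable def v19_5 : Tr := (T (F 392 (U (V v19_3 (F 40 (S (F 8 (T (F 3 (U (U (U (U (U L L) L) L) L) (F 1 L))) (U (U (U (T (F 1 (V (S L L) (S (F 2 L) L))) (V (F 1 (S L L)) (S (F 1 (S L L)) L))) (F 1 (T L (S L L)))) (F 1 (S (F 2 L) L))) (F 7 L)))) (T (U (U (U (S (F 4 (V (T (F 2 L) L) (F 1 (T (F 2 L) L)))) (V (F 4 (T L L)) (T (F 4 L) L))) (F 4 (S (F 1 (S (F 2 L) L)) (T L L)))) (F 12 (T (F 1 L) L))) (F 15 L)) (U (U (U (T (V (F 4 (S (F 1 L) L)) (F 8 (S L L))) (F 8 (V (S (F 1 L) L) (S L L)))) (T (V (F 4 L) (F 8 L)) (F 8 (S L L)))) (F 8 (V (F 1 (S L L)) (S (F 1 L) L)))) (F 15 L)))))) (F 63 L))) (U (V (F 173 (S (F 3 (U (U (U (T (T (V L (S L L)) (V (F 1 L) L)) (F 1 L)) (F 1 L)) (F 1 L)) (F 3 L))) (F 8 (T (U (U (U (S (F 4 (T L (F 1 L))) (V (T (F 4 L) L) (F 4 (T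 L (F 1 L))))) (F 4 (V L (F 1 L)))) (F 6 L)) (F 7 L)) (F 2 (U (U (U (S (F 1 L) (V (S L (S L L)) (S (F 1 L) L))) (F 1 L)) (F 1 L)) (F 3 L))))))) (F 324 v19_4)) (F 511 L)))
noncomputable def treeV19 : Tr := (F 0xfffffffffffffffffffffffffffffffffffffff3731fde77ff (V (F 2194 v19_2) (F 292 v19_5)))

theorem pV19 : chkV par treeV19 128 128 256 256 512 512 699051 1398102 Lc = true := by decide +kernel


end Pool.Agent.Lib.H56.Gen.D3
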