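import Pool.Agent.Lib.H56.Gen.Split
import Pool.Agent.Lib.H56.Gen.D3.V0
import Pool.Agent.Lib.H56.Gen.D3.V1
import Pool.Agent.Lib.H56.Gen.D3.V2
import Pool.Agent.Lib.H56.Gen.D3.V3

/-!
# Certificate tree V
-/

set_option maxRecDepth 100000

namespace Pool.Agent.Lib.H56.Gen.D3

noncomputable def treeV : Tr := (Tr.U (Tr.U (Tr.U treeV0 (Tr.V (Tr.T treeV1 (Tr.V (Tr.U treeV2 (Tr.S (Tr.T treeV3 (Tr.V treeV4 treeV5)) treeV6)) treeV7)) treeV8)) (Tr.V (Tr.T treeV9 (Tr.V (Tr.U (Tr.S (Tr.T treeV10 (Tr.U (Tr.V treeV11 treeV12) treeV13)) treeV14) treeV15) treeV16)) (Tr.T treeV17 treeV18))) treeV19)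

theorem okV : chkV par treeV 128 128 256 256 512 512 0 1398102 Lc = true :=
  (chkV_U (c1 := 699051) (by decide +kernel)
  (chkV_U (c1 := 349525) (by decide +kernel)
  (chkV_U (c1 := 174762) (by decide +kernel)
  pV0
  (chkV_V (c1 := 256) (c2 := 768) (h := 256) (by decide +kernel) (by decide +kernel) (by decide +kernel)
  (chkV_T (c1 := 128) (c2 := 384) (h := 128) (by decide +kernel) (by decide +kernel) (by decide +kernel)
  pV1
  (chkV_V (c1 := 128) (c2 := 384) (h := 128) (by decide +kernel) (by decide +kernel) (by decide +kernel)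
  (chkV_U (c1 := 262143) (by decide +kernel)
  pV2
  (chkV_S (c1 := 64) (c2 := 192) (h := 64) (by decide +kernel) (by decide +kernel) (by decide +kernel)
  (chkV_T (c1 := 320) (c2 := 448) (h := 64) (by decide +kernel) (by decide +kernel) (by decide +kernel)
  pV3
  (chkV_V (c1 := 64) (c2 := 192) (h := 64) (by decide +kernel) (by decide +kernel) (by decide +kernel)
  pV4
  pV5))
  pV6))
  pV7))
  pV8))
  (chkV_V (c1 := 256) (c2 := 768) (h := 256) (by decide +kernel) (by decide +kernel) (by decide +kernel)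
  (chkV_T (c1 := 128) (c2 := 384) (h := 128) (by decide +kernel) (by decide +kernel) (by decide +kernel)
  pV9
  (chkV_V (c1 := 128) (c2 := 384) (h := 128) (by decide +kernel) (by decide +kernel) (by decide +kernel)
  (chkV_U (c1 := 524288) (by decide +kernel)
  (chkV_S (c1 := 64) (c2 := 192) (h := 64) (by decide +kernel) (by decide +kernel) (by decide +kernel)
  (chkV_T (c1 := 320) (c2 := 448) (h := 64) (by decide +kernel) (by decide +kernel) (by decide +kernel)
  pV10
  (chkV_U (c1 := 436906) (by decide +kernel)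
  (chkV_V (c1 := 64) (c2 := 192) (h := 64) (by decide +kernel) (by decide +kernel) (by decide +kernel)
  pV11
  pV12)
  pV13))
  pV14)
  pV15)
  pV16))
  (chkV_T (c1 := 128) (c2 := 384) (h := 128) (by decide +kernel) (by decide +kernel) (by decide +kernel)
  pV17
  pV18)))
  pV19)

end Pool.Agent.Lib.H56.Gen.D3
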