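import Pool.Agent.Lib.H56.Gen.D3.Par
import Pool.Agent.Lib.H56.Gen.D3.Cos

/-!
# Certificate tree W, part 0
-/

set_option maxRecDepth 100000

namespace Pool.Agent.Lib.H56.Gen.D3

open Tr

noncomputable def w0_0 : Tr := (U (V (K 4) (S (U L (V (K 4) (T (U (S (T L L) L) (S (T (S (S L L) L) L) L)) (K 6)))) (K 7))) (T (V (K 4) (S (U (V (K 4) (T (S (V (S L L) (S L (S L L))) (V (S L L) (T L L))) (V (S (S L L) L) (S (S L L) L)))) (T (S (V (S L L) (V (S L L) (S L L))) (V (S L L) (V (S (S L L) (S L L)) (S L (S L L))))) (S (V (S L L) (V (T (S L L) (S L L)) (T L (S L L)))) (V (U L (F 1280 (S L L))) (V (U L (S L L)) (U L (S L L))))))) (U (S (V L (V L L)) (K 7)) (V (T (S (F 256 (S L L)) L) (F 257 (S L (K 2)))) (T (S (V (T L L) (T L L)) (F 1 (V L (K 3)))) (F 1 (S (V L L) (K 3)))))))) (S (V (K 4) (U (V (S L L) (T (V (S L L) L) (K 6))) (V (T (S (F 256 (S L L)) L) L) (T (S (V (S (S L L) L) (S L L)) (F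 2 (V L L))) (F 2 (U (K 4) (F 1 (V L L)))))))) (F 3 (U L (U L (F 1 (S (T (S L L) L) L))))))))
noncomputable def w0_1 : Tr := (V (U (S (V (T (K 1) (S (V (S L L) L) (U (V L L) (V L L)))) (U L (S L L))) (V (T (V L (S L L)) (U (V L (S L L)) (V (S L L) (S L L)))) (T (S L L) (U (S L L) (S L (S L L)))))) (S (V (T (F 64 (V (S L (S L L)) (S L (S L L)))) (S (V (S L L) (S L L)) (V (S L (S L L)) (S (S L L) L)))) (T (F 64 (U L (F 1 (S L L)))) (S (S L L) (T (U L L) L)))) (V (S (T (V (S L L) (S L L)) (V (T L L) (S L L))) (T (V (U L (F 1024 (S L L))) (U L (F 1024 (S L L)))) (V (T (S L L) L) (S (S L L) (S L L))))) (T (U (S L (V L L)) (F 1024 (S (V L L) (V (S L L) (S L L))))) (S (V (S L L) (S L L)) (V (S (S L L) L) (T L L))))))) (S (K 3) (U (K 3) (V (V (T (F 1536 (S L L)) (S (K 3) L)) (K 3)) (K 3)))))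
noncomputable def w0_2 : Tr := (S (V (T (V (S (U (V (S L L) (S L L)) (V (S L L) (S L L))) (V (U (S L L) (S L L)) (U (S L L) (S L L)))) (U (S L (S L L)) (S (S L L) (T L L)))) (V (S (U (V (S L L) (S L L)) (V (S L L) (S L L))) (V (U (S L L) (S L L)) (U (S L L) (S L L)))) (U (S L (S L L)) (S (S L L) (S L L))))) (K 3)) (V (V (T (S (V (U (S L L) (S L L)) (U (S L L) (S L L))) (U (V (T L L) (T (S L L) L)) (V (S L L) (S L L)))) (S (V (U (S L L) (S L L)) (U (S L L) (S L L))) (U (V (S L L) (T L L)) (V (S L L) (S L L))))) (T (U (S (T L L) (V (T (S L L) L) (S L L))) (S (T (S L L) (S L L)) (V (S L L) (S L L)))) (U (S (T L L) (V (S L L) L)) (S (T L L) (V (S L L) (S L L)))))) (U (K 3) (S (K 3) (T L L)))))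
noncomputable def w0_3 : Tr := (T (V (S (V (T (F 4 (U (S (S L L) L) (F 1 (S (V L L) (T L L))))) (S (V (T (S L L) L) (T (S L L) (S L L))) (U (S L L) (F 1024 (T L L))))) (T (F 4 (S (V (S L L) (T L L)) (V (S L L) (S L L)))) (S (V (T (S L L) (S L L)) (T (S L L) (S L L))) (V (S (S L L) L) (S (S L L) L))))) (F 4 (V (T (S (T L L) L) (S (U L L) (F 1 (S L L)))) (T (S (V (S L (K 5)) (K 5)) (K 5)) (V (S (S L L) (S L L)) (S (S L L) (S L L))))))) (S (V (T (F 4 (V (S L (S L L)) L)) (S (T L L) (U L (F 1024 (S L L))))) (K 3)) (F 4 (V (T (S (V L L) (K 5)) (U (S L L) (F 1 (S (T L L) (V L L))))) (F 3 (T L (S L L))))))) (V (S (V (T (S (V (S L L) (S L L)) (T (U L (S L L)) (V L L))) (S (V (S L L) (S L L)) (U (S L L) (T (S L L) L)))) (T (S (V (S L L) (S L L)) (V (T (S L L) L) (T (S L L) L))) (S (V (S L L) (S L L)) (V (T (S L L) L) (T (S L L) L))))) (V (T (S (U L (F 1024 (T L L))) L) (F 1 (U L (F 1 (S L L)))))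 (T (S (V (U L (F 1024 (S L L))) (U L (F 1024 (S L L)))) (F 1 (V (S L L) (S L L)))) (F 1 (V (S (S L L) L) (S L L)))))) (S (V (T (S (S L L) (U (S L L) (F 1024 (S L L)))) (S (S L L) (U L (F 1024 (S L L))))) (K 3)) (T (V (U (S (S L L) L) (F 1024 (V (S (S L L) L) (S L L)))) (F 1536 (S L L))) (F 1 (V (V (S L L) (T L L)) L))))))
noncomputable def w0_4 : Tr := (U (U (U L (U L (S (T L (S (S L L) L)) L))) (U (S (V (T (S (K 1) (S (K 5) (K 5))) (S (V (T (S L L) (S (S L L) (T L L))) (K 3)) (V (T (S L (K 5)) (V L (S L L))) (T L L)))) (K 3)) (T (S L (K 5)) (V (T (K 5) L) L))) (S (V (T (T (K 1) (S (S L (S L L)) (S (S L L) (K 5)))) (S (V (T (S (S L L) (V L L)) (S (T L L) (V (S L L) L))) (T L (S (K 3) L))) (V (T (S (V L L) (S L L)) (S (V L (S L L)) (S L L))) (T (S L L) (S L L))))) (K 3)) (V (T (K 5) (S (T (V L (S L (K 5))) (V L (S L (K 7)))) (T (K 5) (K 7)))) (T L (S (S (K 3) L) L)))))) (S (T w0_1 w0_2)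 (U (T (V (V (S (T (F 4 (S L (K 5))) (S (V L (S L L)) (S L L))) (F 4 (T (K 5) (K 5)))) (S (T (K 5) (T (K 5) (U (K 5) (S L (S L (K 5)))))) (K 5))) (S (T L (T L L)) (F 4 (T (K 5) (S L L))))) (V (S (V (T (U (S L L) (S (T L L) L)) (U (S L L) (S (S L L) L))) (V (T (S (U L (S L L)) (S L L)) (S (V L L) (S L L))) (T (U L (S L L)) (U L (S L L))))) (V (T L L) (T (V L L) (K 7)))) (S (V (V (T (U L L) (S L L)) (K 3)) (K 3)) (V (T (S L (K 7)) (K 7)) L)))) w0_3)))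
noncomputable def w0_5 : Tr := (S (F 1520896 (T (F 4096 (U (T (K 1) (F 256 (S (F 16 (V (K 1) L)) (K 5)))) (S (F 64 (V (F 8 (S (K 1) (F 4 (U (K 7) (T (K 7) (T (K 7) (F 1 (V (S (K 1) (S L L)) (V L L))))))))) (F 256 (U L (F 320 (S L L)))))) (F 260 (T (F 17 (V (K 1) (K 4))) (U (S (F 16 (T (K 4) (K 4))) (K 5)) (F 1 (V (S (F 32 (V (V L (S L L)) (V (S L L) (S L L)))) (V (F 32 (S L L)) (K 4))) (S (F 32 (S L L)) (K 4)))))))))) (F 4104 w0_4))) (F 67585 (T (F 33933 (U (K 4) (V (U (T (K 4) (K 4)) (F 2304 (S (F 4 (T L (T (K 4) (K 4)))) (F 514 (T (K 3) (K 3)))))) (K 4)))) (F 1221 (U (F 256 (U L (T (K 6) (F 2048 (V L (K 6)))))) (S (F 2304 (U (T (F 256 (T (K 4) (F 1 (V (K 5) (V (K 5) L))))) (F 1024 (V (T L (S (K 6) (K 6))) (K 6)))) (T (F 257 (V (T (K 4) (F 1 (U (K 4) (S (V L (T (K 4) L)) (K 4))))) (V (T (K 4) (F 1 (S (V L L) L))) (S (T L L) (F 1 (S L L)))))) (F 1024 (V (S (V L (T (F 514 (V L L)) (K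 6))) (F 514 (S L L))) (T (F 2 (S (F 1 (V (V L L) (S L (K 5)))) (K 3))) (K 6))))))) (F 4101 (V (F 4 (T (K 3) L)) (F 8 (T (F 256 (U (K 4) (V (K 4) (S L (K 2))))) (K 5)))))))))))
noncomputable def w0_6 : Tr := (U (V (T (U L (V (S (U (S (T L L) L) (S (T (S (S L L) L) L) L)) (K 7)) (K 3))) (K 6)) (K 3)) (S (V (T (U (V (S (T (V (S L (S L L)) (S L L)) (V (S L L) (S L L))) (V (T (T L L) L) (T (S L L) L))) (K 3)) (S (T (V (V (S L L) (S L L)) (S L L)) (V (V (T L (S L L)) (T (S L L) (S L L))) (S L L))) (T (V (V (S L (S L L)) (S (S L L) (S L L))) (T L L)) (V (V (U L (S L L)) (U L (S L L))) (U L (F 1536 (S L L))))))) (U (T (V (V L L) L) (K 6)) (V (S (T (V (S L L) (S L L)) (F 2 (V (K 4) L))) (F 2 (T (V L L) (K 4)))) (S (T (F 512 (S L L)) L) (F 514 (T L (K 3))))))) (K 3)) (T (V (U (V (S (V L (S L L)) (K 7)) (S L L)) (V (S (T (V (T L L) (T (S L L) L)) (F 1 (V L L))) (F 1 (U (K 3) (F 1 (V L L))))) (S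 (T (F 512 (T L L)) L) L))) (K 3)) (F 3 (U L (U L (F 1 (T (S (S L L) L) L))))))))
noncomputable def w0_7 : Tr := (F 136 (V (K 4) (F 256 (S (T (U (S (V (S L (K 6)) (T (K 9) (U (S L L) (S L L)))) (U L (S (S L L) L))) (S (T (F 16 (V L (S (V L L) (V L L)))) (V (S L (K 6)) (S (V (T L L) (S L L)) (U (S L L) (T L L))))) (V (K 6) (T (U (S L L) (F 1 (S L L))) (S (T (S L L) L) (U L L)))))) (S (T (V (U (K 6) (S L (K 6))) (U (S (T (V L L) (S L L)) (T L L)) (S (V (S L L) (S L L)) (T (S L L) L)))) (U (V (K 6) (S (T (S L L) (S L L)) (T L L))) (V (S L (K 6)) (S (V (S L L) (S L L)) (T L L))))) (V (K 6) (T (U (V (K 6) (S (S L L) (S L (K 6)))) (S (T L L) (S L L))) (U (S (S L L) L) (S (S L L) (S L L))))))) (S (V (K 6) (V (K 6) (T (U (K 6) (F 4 (T (F 516 (S L L)) (S L L)))) (U (K 6) (T (S L (K 6)) (S L L)))))) (K 6))))))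
noncomputable def w0_8 : Tr := (T (F 0x500619e207ff5283bfe1f24ccfff (V (F 703688217789450 (U (F 34496184320 (T (F 17235058944 (S L L)) (K 7))) (F 2619135 (S (F 1083400 (T (F 2382 w0_6) (F 34826 (U (K 5) (V (K 5) (F 5120 (S (F 68 (S L L)) (K 5)))))))) (F 133129 (T (F 5 (U (F 4224 (S L L)) (F 4096 (T (F 80 (S (F 1041 (U L (F 1 (U L (S (T (T L L) L) L))))) (F 2051 (T (K 3) L)))) (F 8193 (S L L)))))) (K 10))))))) (F 70661878055072 (U (K 36) (F 4192767 (S (K 5) (F 1048591 (T (K 15) (F 8261 (V (K 4) (F 512 (U (K 10) (F 2 (S (K 1) L)))))))))))))) (F 0x7e1801e0407fff4399e0ffc8ccf7 (V (K 7) (F 378543854911496 (U (F 137481289728 (S (F 15255077384 (S L (K 18))) (K 5))) (F 42106559 (S (F 6079506 (U (V (K 9) (F 136 (U (T (K 1) (F 256 (U L L))) (T (F 256 (S (K 9) L)) (F 256 (S (V (K 6) (U (T L (S (T L (S (S L L) L)) (K 6))) (T (S L L) (S (T (S L L) (S (S L L) L)) (T L L))))) (K 6))))))) (T (S (F 80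 (U (V (K 4) (K 1)) (F 256 (V (F 5 (S L (K 4))) (F 16 (S (K 1) (F 4 (T (K 7) (F 1 (S (T (K 1) L) L)))))))))) (F 2060 (V (K 3) (F 288 (S (F 8 (U L L)) L))))) w0_7))) (F 40978 (T (F 65565 (U (K 3) (F 10240 (V (K 8) (F 80 (S (F 288 (T L (K 4))) (K 3))))))) (F 4225 (S (K 4) (K 4))))))))))))
noncomputable def treeW0 : Tr := (F 39514399631630897 (U L (F 0x3b22c109a4000520333031a27000000 (V (F 0xaaa528d16904800044529230884490010049 (T (F 0x203279e207f9313dffe1fb04ff (V (F 35323962785952 (U (K 34) (F 8912511 (S (K 5) (F 139 (T (K 15) (F 131155 (V (F 512 (U (K 10) (F 2 (S (K 1) L)))) (K 5))))))))) (F 1670744646146 (U (F 2182086656 (S (F 19209978112 (S L (K 18))) (K 9))) (F 1309951 (S (F 1151040 (T (F 4262 w0_0) (F 16384 (U (F 8320 (S L (K 5))) (F 8192 (S (F 80 (T (F 1029 (U L (F 1 (U L (T (S (S L L) L) L))))) (F 2081 (S (K 4) L)))) (F 8193 (T L L)))))))) (F 65 (T (F 65837 (U (K 7) (V (F 4608 (T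 (F 516 (S L (K 6))) (K 3))) (K 7)))) (K 10))))))))) (F 0x1e1c081e0407ff038f8e07f459b (V (F 453157397780 (U (F 1104075033600 (U L (F 68551573504 (S L L)))) (F 270528255 w0_5))) (F 19299186705207296 (U (F 17280624640 (S (K 6) (F 13158066193 (T L L)))) (F 68156607 (S (F 81986560 (T (F 35138 (U (K 5) (F 26624 (S (K 6) (F 130 (T L (K 4))))))) (K 13))) (F 84231185 (T (F 37518 (U (S L L) (V (F 2 (T (K 6) (F 8 (U (S L (K 4)) (F 512 (S (F 1 (S L L)) L)))))) (F 3072 (S (K 6) L))))) (F 131274 (U (F 256 (S L L)) (U (F 256 (S (F 6 (S (K 3) L)) L)) (S (F 14592 (T L (F 512 (S L L)))) (F 8453 (T (F 1 (S L L)) (F 512 (T L L)))))))))))))))))) (F 0x11402112290200aaa10242408442249242020 w0_8)))))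

theorem pW0 : chkW par treeW0 128 128 256 256 512 512 0 349525 Lc = true := by decide +kernel

noncomputable def w1_0 : Tr := (S (T (V (F 1 (U (K 6) L)) (F 5162 (U (F 8 (S L L)) (F 256 (S L (F 16 (S L L))))))) (F 11296 (V (F 512 (U (K 5) (F 256 (V L (F 128 (S L L)))))) (F 257 (U (V (F 1 (S L L)) (F 68 (S (S L L) (T L L)))) (F 1 (S (V L (F 34 (S L L))) (V (S L L) (F 32 (T L (S L L))))))))))) (F 9248 (T (F 1 (V (F 1 (U (K 3) (V L (F 4 (S L L))))) (F 2 (U (F 4 (T (S L L) (S L (F 129 (S L L))))) (F 256 (V (F 64 (T L (F 1 (S L L)))) (F 32 (T (F 32 (S L L)) (F 1 (S L (F 32 (S L L)))))))))))) (F 1027 (V (U (F 128 (U (K 1) (S L (V L L)))) (F 128 (V (S L (T L (U L L))) (T (F 64 (S L L)) (F 64 (S L (S L L))))))) (F 1 (U (S (V (S L L) (F 2 (T L (U L (F 32 (V L L)))))) (U (F 1 (T (F 32 (S L L)) (V L (F 32 (S L (T L L)))))) (F 3 (V (V L (S L L)) (T (V L (S L L)) (V (S L L) (S L L))))))) (T (F 2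 (V (F 32 (S L (S L L))) (S (F 2 (S L L)) (F 32 (V L (S L L)))))) (F 1 (S (F 32 (V (V L L) (V L L))) (F 32 (V (U (S L L) L) (U (V L (S L L)) (S L L))))))))))))))
noncomputable def w1_1 : Tr := (V (U (T (F 1 (S L (V L L))) (U (V (S L L) (S L L)) (V (S L (V L (S L L))) (S (V L L) (T (S L L) (S L L)))))) (T (F 1 (V (U (S L L) (S L (S L L))) (S (U L (S L L)) (U L (S L L))))) (V (S (F 1 (U (S L L) (T (S L L) (S L L)))) (U (T (F 1 (V L L)) (V L L)) (T (F 1 (S L L)) (S L L)))) (S (T (F 1 (V (S L L) (S L L))) (S (F 1 (S L L)) (T L L))) (V (T L (S L L)) (T (F 32 (S L L)) (S L L))))))) (U (U (T (F 1 (S L L)) (V (S (S L L) L) (S (F 32 (T L (S L L))) (F 32 (S L L))))) (T (F 1 (S (F 1 (V L (S L L))) (F 1 (V L (T L L))))) (V (S (T (F 1 (S L L)) (V L L)) (T (F 32 (S L L)) (V L L))) (S (F 32 (T (F 16 (S L L)) (S L L))) (F 32 (T (S L L) (S L L))))))) (T (F 1 (V (S (U L (T L (S L L))) (U (F 1 (T L L))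 (F 1 (T L L)))) (F 1 (S (T (V L (S L L)) (V L (S L L))) (T (V L L) (V L L)))))) (S (V (T (F 1 (U (S L L) (S L L))) (V (S L L) (U L L))) (T (F 33 (V L (S L L))) (U (F 32 (S L L)) (S L L)))) (F 32 (V (T (S L (S L L)) (V L (S L L))) (T (V (S L L) (S L L)) (V L (S L L)))))))))
noncomputable def w1_2 : Tr := (F 132 (S (V (F 1 (U (T (S (K 1) L) (V (S L L) (S L L))) (V (T L (S (S L L) (U L (V L (S L L))))) (S (U L (S L (V L L))) (T L (U (S L L) (T (S L L) (S L L)))))))) (U (S (F 1 (U (V L (S L L)) (T L (V (S L L) (V (S L L) (S L L)))))) (V (F 1 (U L (S L (S L L)))) (T (F 33 (S L L)) (T (F 33 (U L (S L L))) (F 1 (S (F 1 (S L L)) (F 1 (S L L)))))))) (S (F 1 (U (T (V L L) (V (T (S L L) (S L L)) (T (S L L) (S L L)))) (T (V (S L L) (F 1 (T L (S L L)))) (V (T (S L L) (S L L)) (T (S L L) (S L L)))))) (F 1 (T (V (U L (V L L)) (F 1 (U (T L (S L L)) (T (S L L) L)))) (V (T (U (S L L) (S L L)) (U (S L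 L) (S L L))) (T (F 1 (U (S L L) L)) (V (S L L) L)))))))) w1_1))
noncomputable def w1_3 : Tr := (S (F 2 (S (T (U (K 2) (V (K 2) (F 32 (S L L)))) (F 136 (U (V (K 3) (S L (T L (F 32 (S L L))))) (V (V L (S L L)) (T (F 2 (S L (S L L))) (S (F 2 (U (S L L) (V L (S L L)))) (U (F 32 (V L L)) (V L (F 2 (T (S L L) L)))))))))) (T (U (K 2) (F 128 (V (K 4) (T L (F 8 (S L L)))))) (F 137 (V (U (S (K 3) L) (S (V L (S L L)) (V L (S L (S L L))))) (U (U (S L L) (S (V L L) (V L (V L (F 2 (S L L)))))) (S (T (V L (F 2 (S L L))) (V (U L (S L (S L L))) (F 2 (U (S L L) (S L L))))) (T (V L (S L (F 16 (V L L)))) (V (U (S L L) (T (S L L) (S L L))) (V (U (S L L) (S L L)) (F 2 (U (S L L) (S L L))))))))))))) (F 256 (T (F 64 (V (F 1 (U (K 1) (S (S (K 1) L) (T L (S L (F 1 (S L L))))))) (S (U (S L L) (F 1 (T L (S L (F 1 (U L (T L L))))))) (F 65 (U (V L (S (S L L) (S L L))) (T (S L (U L (S L L))) (V (S L (T L L)) (S (U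 L (T L L)) (U (T L L) (T (S L L) L)))))))))) w1_2)))
noncomputable def w1_4 : Tr := (U (F 6144 (V (K 2) (F 1024 (T (K 7) (S (U (K 7) (F 69 (S (K 2) (F 65 (V (K 3) L))))) (F 514 (U L (F 132 (V (S (K 4) (S L L)) (U L (S (S L L) (S L L)))))))))))) (F 2051 (V (F 512 (S (F 1 (S (K 3) (F 3 (U (K 4) (T (K 4) (F 8 (T (K 1) (V (S (K 1) L) (V L (S L L)))))))))) (F 384 (T (F 64 (U (K 4) (V (K 4) (S (K 4) (S (K 4) L))))) (F 4 (V (S (U (K 4) (F 1 (T (K 1) (V (S L L) (S L L))))) (U (U (K 4) (F 1 (V (S (K 1) L) (S L L)))) (F 1 (V (T L (S (S L L) (U L (V L L)))) (T L (S (V L L) (U L (T L (S L L))))))))) (U (T (K 4) (S (F 1 (U (K 1) (V (K 1) L))) (V (U (S (K 4) L) (S L L)) (S L (S L L))))) (S (F 1 (S (V (S L L) L) (V (V (S L L) L) (U L (S L L))))) (S (F 1 (V (U L (S L (S L L))) (U L (V L (U L (S L L)))))) (T (F 1 (U L (V L (S L L)))) (V (F 1 (U (S L L) (T (S L L) (S L L)))) (U (V (S L L) (S L L)) (T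 (F 1 (S L L)) (V (S L L) L)))))))))))))) (F 1 w1_3))))
noncomputable def w1_5 : Tr := (U (S (V (T (U (K 1) (S L L)) (U (V L (S L L)) (V (S L (S L L)) (S (S L L) (T L L))))) (T (S L (V L L)) (S (U (S L L) (V (S L L) (S L L))) (U (V L L) (V (S L L) (S L L)))))) (V (T (U (V L L) (S L (V L L))) (U (V (S (S L L) L) (T L (U (S L L) (S L L)))) (S (V (T L L) (S L L)) (V (U (S L L) (S L L)) (S L L))))) (U (S (V L (S L L)) (T L (V (V (S L L) L) (V L (S L L))))) (V (T (S L (T L L)) (S (U (S L L) (S L L)) (T L L))) (T (S L (S L L)) (S (S L L) (T L L))))))) (S (V (T (S (S L L) (V L L)) (S (V (S L L) (S L L)) (V (S L L) (S L L)))) (U (T (S L (V L L)) (V (S (S L L) (S L L)) (S L L))) (T (S L L) (S (S L L) (S L L))))) (V (T (V (S L (S L L)) (S L (S L L))) (S (V (S L L) (U L L)) (V (U (S L L) L) (U (S L L) L)))) (T (S (U (T L L) L) (U (V L (S L L)) (S L L))) (S (U (V L (T L L)) (V L L)) (U (V (S L L)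 (U (S L L) L)) (V L L)))))))
noncomputable def w1_6 : Tr := (S (V (U (T (S L L) (F 1 (S (V L (S L L)) (V (S L L) (U L (S L L)))))) (T (V (F 1 (S L L)) (S L L)) (F 1 (S (V (S L L) (S L L)) (V (S L L) (S L L)))))) (U (S (F 16 (T (U (S L L) (V L L)) (V (S (T L L) L) (U (S L L) (S L L))))) (T (U (F 16 (S L (S L L))) (V (S L L) (F 16 (S L L)))) (V (F 1 (T (V L L) (S L L))) (F 16 (T (S L L) (F 16 (S L L))))))) (T (S (F 16 (V (S L L) (S L L))) (V (S L L) (F 16 (T L L)))) (V (S (S L L) (F 1 (S L L))) (F 16 (S (T L L) (S L L))))))) (V (F 1 (U (S (T (S L L) (V (S L (S L L)) (T (S L L) (S L L)))) (V (T L (T (S L L) (S L L))) (T (S L L) (T (S L L) (S L L))))) (T (V (S (S L L) (S L L)) (S (S L L) (S L L))) (S (V (S L L) (S L L)) (V (T L (S L L)) (T L L)))))) (U (F 1 (T (V (S (U L (S L L)) (U (S L L) (S L L))) (S (F 2 (T L (S L L))) (S L (F 16 (T L L))))) (V (S (T (S L L) (S L L)) (T (S L L) (S L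 L))) (S (T (F 2 (S L L)) (U (S L L) L)) (U (T (S L L) (S L L)) (T L L)))))) (T (S (V (F 1 (S L L)) (F 16 (T L L))) (F 1 (V (S L L) (T L (S L L))))) (F 1 (S (V (T L L) (T L L)) (V (T (S L L) (S L L)) (T (S L L) (S L L)))))))))
noncomputable def w1_7 : Tr := (T (S (V (T (F 8 (S L L)) (F 8 (U (S L L) L))) (F 2 (T (V (S L L) L) (F 8 (U (S L L) (S L L)))))) (V (U (T (S L L) (F 72 (V L L))) (F 64 (T L (F 4 (S L L))))) (T (U (V (S L L) L) (F 32 (S L L))) (F 8 (S (U (V L L) L) (F 3 (V L (S L L)))))))) (F 8 (S (V (T (U (S (S L L) (F 1 (S L L))) (V L L)) (S (U (F 1 (V L L)) (S L L)) (F 1 (U (V L L) (S L L))))) (T (S (F 16 (U (S L L) L)) (U (V L L) (S L L))) (U (V (S (S L L) L) (F 16 (S L L))) (S (S L L) (S L L))))) (F 1 (V (U (T (S (V L L) (V L L)) (V (S (S L L) (S L L)) (S (S L L) (S L L)))) (T (S L (V L L)) (S (S L L) (V (S L L) L)))) (T (U (V (S L L) (S L (S L L))) (S L (S L L))) (U (S (V L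 L) (V (S L L) (S L L))) (S (S L L) (S L L)))))))))
noncomputable def w1_8 : Tr := (U (V (U (V (T L (S (V L L) (T (S L L) (S L L)))) (S (U L (S (S L L) (S L L))) (T L (T (S L L) (S L L))))) (T (V (S L (S L L)) (U (S L L) (S L L))) (V (S (S L L) (T L L)) (S (T L (T L L)) (V (S L L) (U L L)))))) (T (U (V (U L (S L L)) (S L (V (T L L) L))) (V (S (S L L) (S L L)) (S (U L L) (U L L)))) (U (V (T (U (S L (S L L)) (S L L)) (U (S (S L L) (S L L)) (S L L))) (S (T (S L L) (S L L)) (V (U (S L L) (S L L)) (S L L)))) (S (V (T L (S L L)) (V (U L L) (S L L))) (V (T L (S L L)) (T (T L L) (T L L))))))) (V (T (S (U (V (S L L) L) (S L L)) (U (V (S L L) L) (S L L))) (S (U (V (U (S L L) L) (S L L)) (V L L)) (U (V (U L L) (S L L)) (V L L)))) (T (S (V (S L L) (T L L)) (V (V L L) (U L L))) (V (S (U (S L L) L) (U (S L L) L)) (S (U (S L L) L) (U (S L L) L))))))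
noncomputable def w1_9 : Tr := (V (F 32 (T (U (V (S L (V L L)) (S (S L L) (V L (S L L)))) (S (V (S L L) (S L L)) (V (T L L) (T L L)))) (V (S (U (T (S L L) (S L L)) (T L L)) (U (T (S L L) (S L L)) (T (S L L) (S L L)))) (S (U (T (S L L) (S L L)) (T L (S L L))) (U (T (S L L) (S L L)) (T (S L L) (S L L))))))) (T (F 32 (U (V (S (U L (S L L)) (T L (S L L))) (T (U (S L L) (S L L)) (U (S (T L L) (T L L)) (S L L)))) (V (S (U (S L L) L) (V L (U L L))) (S (T L L) (T L L))))) (U (S (F 32 (T (S (V (V L L) (U L L)) (V L (U L L))) (S (V (V L L) (U L L)) (V L (U L L))))) (V (F 32 (T (S L L) (S L L))) (U (T (F 32 (S L L)) (S L L)) (T L (T L L))))) (V (F 32 (S (T (T L L) (T L L)) (U (T L L) (T L L)))) (S (F 32 (T (S L L) (S L L))) (T (F 32 (S L L)) (S L L)))))))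
noncomputable def w1_10 : Tr := (T (F 1 (S (F 64 (U (V (U L (V L (S L L))) (U (S L L) (T L (F 8 (S L (S L (S L L))))))) (V (T (S L L) (F 8 (S (S L L) (U L L)))) (T (V L (S L L)) (F 8 (V (S L L) (S L (S L L)))))))) (U (V (T (F 64 (S L L)) (F 68 (U (S L L) (V (S L L) (S L L))))) (F 64 (T (U L (V L L)) (U (V L (T L L)) (F 8 (S (V (S L L) L) (V (U L L) (S L L)))))))) (T (V (U (V L (F 64 (S L L))) (T L L)) (F 64 (V (S L L) (S L L)))) (F 68 (V (U (V (S L L) (S L L)) (V (S L L) L)) (V (U (S L L) L) (U (S L L) (S L L))))))))) (F 34 (S (F 32 w1_8) (U w1_9 (V (F 32 (U (T (V (S L (S L L)) (S (T L L) (T L L))) (V (S (S L L) (S L L)) (S (U (S L L) L) (U (S L L) (S L L))))) (T (S (S L L) (T L L)) (S (V (S L L) L) (V L L))))) (T (F 32 (V (S (U (S L L) L) (U (S L L) L)) (S (U (S L L) L) (U (S L L) L)))) (V (F 32 (S (U (S L L) L) (U (S L L) L))) (S (F 32 (U (S L L) L)) (U (T L L) L)))))))))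
noncomputable def w1_11 : Tr := (V (U (T (V (S (S L L) (V L (S L L))) (S (U L (S L L)) (T (S L L) (S L L)))) (V (S (T (S L L) (S L L)) (T (S L L) (S L L))) (S (T (S L L) (S L L)) (T (S L L) (S L L))))) (T (V (S (S L L) (S L L)) (S (S L L) (V L (S L L)))) (V (S (T L (S L L)) (T (S L L) (S L L))) (S (T (S L L) (S L L)) (T (S L L) (S L L)))))) (T (U (V (S (T (S L L) (U (S L L) L)) (S (T L (S L L)) (F 1 (T L L)))) (S (S (F 1 (T L L)) (F 1 (T L L))) (T (F 1 (S L L)) (U L L)))) (V (S (T L (S L L)) (T L (S L L))) (S (F 1 (S L L)) (F 1 (T L L))))) (U (S (V (T (V L L) (S L L)) (T (U (S L L) L) (U (S L L) L))) (V (T (V L (S L L)) (V L L)) (S (T (S L L) L) (F 1 (T L L))))) (V (S (T (S L L) (S L L)) (T (S L L) (S L L))) (S (U (S L L) (S L L)) (T L (S L L)))))))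
noncomputable def w1_12 : Tr := (V (U (V (S (F 1 (T (T (S L L) (S L L)) (T (S L L) (S L L)))) (T (F 1 (T (S L L) (U L (S L L)))) (V (S L (U L (S L L))) (T L (S L L))))) (T (F 1 (S (T (S L L) (S L L)) (F 1 (T (S L L) (S L L))))) (S (T (F 1 (S L L)) (S L (S L L))) (T (S L L) (V (S L L) (S L L)))))) (T (F 1 (V (S (V (U L L) L) (U (T L L) (S L L))) (S (T L (S L L)) (F 1 (S L L))))) (V (S (F 1 (U (S L L) (S L L))) (T (F 1 (T L L)) (U (S L L) L))) (S (T (F 1 (S L L)) (S L L)) (T (F 1 (S L L)) (S L L)))))) (T (F 1 (S (F 1 (V (U (T (S L L) (S L L)) (S L L)) (U (T (S L L) (S L L)) (T L L)))) (F 1 (V (U (T (S L L) (S L L)) (S L L)) (U (T (S L L) (S L L)) (S L L)))))) (S (V (U (T (F 1 (S L L)) (S (S L L) L)) (S (F 1 (T L L)) (F 32 (T L L)))) (F 32 (U (T (F 16 (S L L)) (S L L)) (T L (S L L))))) (F 32 (V (U (T (S L L) (S L L)) (T (S L L) (S L L))) (U (T (V L L) (S L L)) (T (S L L) (S L L))))))))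
noncomputable def w1_13 : Tr := (S (T (F 1 (V (F 1 (T (U L (V L L)) (F 8 (U (V L (S L L)) (V (S L L) (S L (S L L))))))) (U (F 1 (T (F 32 (S L (U L (S L L)))) (F 8 (V (S (S L L) (U L L)) (F 1 (S (T L L) (V L (S L L)))))))) (T (S (F 2 (V L L)) (F 3 (V L L))) (F 9 (S (F 16 (V L (S L L))) (F 16 (V L (S L L))))))))) (F 145 w1_11)) (F 128 (T (F 64 (V (U (T (S L L) (V (S L (F 32 (S L L))) (S (F 32 (T L L)) (F 32 (T L L))))) (T (F 32 (V (U L L) (S L L))) (V (S (F 8 (U L L)) (F 32 (U (S L L) L))) (S L (F 32 (T L L)))))) (U (T (F 32 (V (S L (T L L)) (S (U L L) (T L (S L L))))) (V (S (T (F 32 (S L L)) (F 8 (S L L))) (F 32 (T (S L L) (F 2 (S L L))))) (F 32 (S (T (S L L) (F 2 (S L L))) (T (S L L) (F 2 (S L L))))))) (F 32 (T (V (S L (S L L)) (S (S L L) (S L L))) (S (F 2 (V (S L L) (S L L))) (V (T L L) (T (S L L) L)))))))) (F 4 w1_12))))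
noncomputable def w1_14 : Tr := (S (F 1 (V (U (V (T (S (S L L) (U L L)) (S (U L L) (U (S L L) L))) (T (S L (S L L)) (S (S L L) (S L L)))) (T (S (T L L) (V L (S L L))) (S (V L L) (V L (S L L))))) (T (U (V (S (S L L) (S L L)) (S L L)) (V (S L L) (S L L))) (U (V (S (S L L) (S L L)) (S (S L L) (S L L))) (S (V L L) (V L L)))))) (V (T (F 1 (S (U (V (S L L) (S L L)) (V L L)) (U (V (S L L) (F 1 (T L L))) (V L L)))) (S (F 1 (U (V (S L L) (U L (S L L))) (V L L))) (U (V (T L (S L L)) (U (S L L) (S L L))) (V (S L L) (S L L))))) (U (T (F 1 (S (F 1 (V L L)) (F 1 (V L L)))) (S (V (S L L) (F 32 (S L L))) (F 32 (V (S L L) (S L L))))) (T (F 33 (V (S L L) (S L L))) (V (S (S L L) (F 32 (S L L))) (F 32 (S L L)))))))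
noncomputable def w1_15 : Tr := (S (F 7 (V (F 1 (T (S (F 8 (U (V L L) (V (F 1 (S L L)) (U (S L L) (S L L))))) (F 64 (U (V (T (K 1) L) (V (S L L) L)) (V (F 4 (T L (V L L))) (T (S L L) (F 4 (S (T L L) (S L L)))))))) (F 72 w1_5))) (U (F 1 (T (S (U (V L (F 2 (T L (F 8 (S L (S L L)))))) (V (S L L) (F 2 (T L (F 8 (S (S L L) (V L L))))))) (V (F 64 (T L (F 4 (U L (S L (S L L)))))) (U (T (F 32 (S L L)) (F 8 (V (F 1 (S L L)) (F 18 (S (S L L) (F 8 (S L L))))))) (T (F 32 (V L (F 16 (S L L)))) (F 8 (V (F 1 (S L (S L L))) (F 18 (S L L)))))))) (F 8 w1_6))) (F 1 w1_7)))) (F 1025 (V (F 1 w1_10) (F 128 (U w1_13 (F 128 (T (F 64 (T (V (S (U (V (S L L) L) (S L L)) (F 32 (U (V L (S L L)) (S L L)))) (F 32 (S (U (V L (S L L)) (S L L)) (U (V (S L L) (S L L)) (V (S L L) L))))) (F 8 (V (S (U (V (S L L) (S L L)) (V L (S L L))) (S (U (V L L) (S L L)) (F 1 (U (T L (S L L)) (S L L))))) (S (S (F 1 (V L (S L L))) (F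 1 (U (V L L) L))) (F 1 (U (V (S L L) (S L L)) (V (S L L) (S L L))))))))) (F 4 w1_14))))))))
noncomputable def w1_16 : Tr := (V (F 5 (S (F 128 (V (K 5) (T (K 5) (F 1 (V (K 1) (S (K 1) L)))))) (F 1 (V (F 16 (T (F 32 (U (K 4) (S (K 4) (V (T L L) (T L L))))) (F 32 (U (U (K 4) (V L (S (K 4) L))) (S (V L L) (V (T (T L L) (U L (V L (S L L)))) (T (V L L) (U L (S L (S L L)))))))))) (F 1 (U (S (K 0) (T (F 4 (T (K 4) L)) (T (S L L) L))) (T (S (T (K 0) L) (F 4 (V (T L L) (T L (T L L))))) (V (S (T L L) (F 4 (T (V L L) (S L (V (S L L) L))))) (F 32 (S (S L L) (U (S L (F 4 (T L L))) (T (S L L) (S L L))))))))))))) (F 10 (U (S (F 65 (V (K 5) (T L L))) (F 193 (T (S L L) (S (V L L) L)))) (F 128 (S (F 1 (V (S (F 1 (T (K 4) L)) (F 1 (T L (V L L)))) (F 1 (T (S L (T L (S L L))) (S (S L (T L L)) (U L (V (S L L) (S (S L L) (S L L))))))))) (F 64 (V (F 32 (T (S (T L (S L L)) (U (S L L) (V (T L (S L L)) (T (S L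 L) (S L L))))) (U (S L (S L L)) (S (V (S L L) (T L (S L L))) (V (T (S L L) (S L L)) (S L L)))))) (U (F 32 (T (S L L) (S L L))) (F 32 (T (S (V (T L L) (T (S L L) L)) (T (S L L) L)) (S (V (S L L) L) L)))))))))))
noncomputable def w1_17 : Tr := (U (F 1 (S (F 1 (T (V L L) (V (S (K 5) L) (S L (T L L))))) (F 1 (T (F 8 (V (U (V (T L L) (S (K 0) L)) (V (T L (U L (S L L))) (T L (T L L)))) (S (V L (T L L)) (U (T (S L L) (T L L)) (T (V L (S L L)) (V (S L L) (S L L))))))) (V (F 8 (V (S (T L L) (U (T L L) (T (S L L) (S L L)))) (U (T L (S L L)) (S (S L L) (T (S L L) (S L L)))))) (S (U (T L L) (V (F 8 (T L L)) (T L (S L L)))) (F 8 (U (V (T L (T L L)) (T L (V L L))) (T (V (S L L) (S L L)) (V (S L L) (S L L))))))))))) (F 1 (S (F 1 (V (T (F 8 (T L L)) (U (T L L) (S L L))) (T (U (S L L) (S L L)) (S (T L L) (U (T L L) (S L L)))))) (F 1 (T (F 8 (V (S (T (S L L) (U L L)) (T (U (T L (S L L)) (S L L)) (U (V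 L (S L L)) (S L L)))) (U (S (T L L) (T (V L L) (V L L))) (S (T L L) (T (S L L) (S L L)))))) (V (F 8 (U (S (V (T L L) (S L L)) (V (T (S L L) (S L L)) (T L L))) (S (T L L) (T (S L L) (S L L))))) (S (V (F 8 (T L L)) (U (S L L) L)) (F 8 (T (U (V L L) (S L L)) (U (V L L) (S L L)))))))))))
noncomputable def w1_18 : Tr := (T (V (U (S (T L L) (T (F 4 (V L (S L L))) (V L (S L L)))) (S (T (V L L) (V L L)) (V (F 4 (T (S L L) (S L L))) (T (F 4 (S L L)) (S L L))))) (F 32 (U (S (V (T L L) (T (U L L) (T L L))) (V (T (U (S L L) L) (U (S L L) L)) (T (S L L) (S L L)))) (S (T (V (S L L) L) (V (S L L) L)) (T (V (S L L) (S L L)) (V (S L L) (U L L))))))) (V (U (S (T (T L L) (F 32 (T L L))) (V (T (F 4 (S L L)) (S L L)) (F 32 (T (S L L) (S L L))))) (S (V (T L L) (F 32 (T L (S L L)))) (V (T (F 4 (S L L)) (S L L)) (F 32 (T (S L L) (S L L)))))) (F 32 (U (S (U (T (V L (S L L)) (V L L)) (V (T L (S L L)) (S L L)))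 (V (T (U (S L L) L) (T L L)) (U (T L L) (T (S L L) (S L L))))) (S (T (V L L) (V L (S L L))) (T (V (S L L) (S L L)) (V (S L L) L)))))))
noncomputable def w1_19 : Tr := (S (U (F 64 (T (V (F 1 (U L (T L L))) (F 64 (S (F 32 (U L L)) (F 32 (U (T L L) (V (S L L) (S L L))))))) (F 65 (V (U L (T L (S L L))) (U (S L (T (S L L) (U L (S L L)))) (S (V L (S L L)) (V (T L L) (T L L)))))))) (F 192 (V (T (S L (T (S L L) (S L L))) (S (F 32 (S L L)) (V (U L L) (F 32 (S L L))))) (F 32 (T (S (V L L) (U (T L L) L)) (S (U (S L L) L) (U (V L (S L L)) (S L L)))))))) (F 192 (U w1_18 (T (V (S (U (V (S L L) (S L L)) (T L L)) (U (T (F 4 (S L L)) (V L L)) (V L (S L L)))) (S (F 32 (U (T (S L L) (S L L)) (S L L))) (U (F 32 (T (S L L) (S L L))) (V (S L L) L)))) (V (S (U (V (S L L) (F 32 (S L L))) (T L L)) (U (T (V L L) (V (S L L) L)) (T (S L L) (S L L)))) (F 32 (S (U (V (S L L) (S L L)) (S L L)) (U (V (T L L) (S L L))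 (S L L)))))))))
noncomputable def w1_20 : Tr := (V (T (F 4 (U (V (S L (T (V L L) (S (S L L) (S L L)))) (S L (T (V L L) (S (S L L) (S L L))))) (S (V (T L (S L L)) (T L (S L L))) (T (V (S L L) (S L L)) (V (S L L) (S L L)))))) (S (U (F 4 (V (T L (V L L)) (T L (V L (S L L))))) (T (F 4 (V (S L L) (S L L))) (V (F 4 (S L L)) (S L L)))) (F 4 (T (V (U (S (S L L) (S L L)) (S L L)) (U (S (S L L) (S L L)) (S L L))) (U (V (S (S L L) (S L L)) (S (S L L) (T L L))) (V (S L (S L L)) (S L L))))))) (T (U (S (V (S L L) (T L L)) (T (F 4 (V (U L (S L L)) (S L (S L L)))) (V (F 4 (S (S L L) (S L L))) (S (S L L) (F 4 (S L L)))))) (S (V (T L (S L L)) (T (S L L) (S L L))) (T (F 4 (V (S L L) (S L L))) (V (F 4 (S L L)) (S L L))))) (S (U (V (T (V L L) (F 32 (S L (S L L)))) (F 32 (T (S L L) (S L L)))) (V (T (S L L) (S L (S L L))) (F 32 (T (S L L) (S L L))))) (V (F 4 (U (T (S (S L L) (S L L)) (S (S L L) (S L L))) (T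 (S L L) (S L L)))) (U (F 32 (T (S (S L L) L) (S (S L L) (S L L)))) (T (S L (S L L)) (F 32 (S L L))))))))
noncomputable def w1_21 : Tr := (U (F 32 (V (T (S (V (T L (S L L)) (T (S L L) (S L L))) (V (T (S L L) (S L L)) (T (S L L) (S L L)))) (S (V (T (S L L) (S L L)) (T (S L L) (S L L))) (V (T (S L L) (S L L)) (S (T L L) (T L L))))) (T (S (V (U (T L (S L L)) (T (S L L) L)) (T (S L L) (S L L))) (U (T (V L L) (V L L)) (V (S L L) (S (S L L) L)))) (S (V (U (S (S L L) (S L L)) (T L L)) (S (T L L) (S L L))) (U (V L L) (V (S L L) L)))))) (V (T (S (F 32 (V (T L (S L L)) (S (T L L) (S L L)))) (T (F 32 (V (S L L) (S L L))) (F 32 (V (S L L) (S L L))))) (F 32 (S (V (T (S L L) (S L L)) (S (T L L) (S L L))) (V (T (S L L) (S L L)) (T (S L L) (S L L)))))) (F 32 (T (S (T (V L (S L L)) (V (S L L) (S L L))) (V (S (T L L) (S L L)) (T L L))) (S (V (S (T L L) (T L L)) (S (S L L) (T L L))) (S (V (T L L) L) (V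 L L)))))))
noncomputable def w1_22 : Tr := (V (S (F 1 (V (T (T L (V L L)) (S (V L L) (F 1 (U (V L L) (V (S L L) (T L (S L L))))))) (S (F 1 (U (S L L) (T L (F 1 (S L L))))) (F 1 (T (U L (V L (S L L))) (U (F 1 (V L L)) (V (T L L) (F 1 (T L (S L L)))))))))) (F 129 w1_20)) (S (F 131 (T (V (U (T L (U L (S L L))) (S (S L L) (T (V L L) (V (S L L) L)))) (U (S (T L (S L L)) (V (T L (S L L)) (T (S L L) (S L L)))) (S (V (S L L) (S L L)) (V (S L (T L L)) (T L (S L L)))))) (V (U (S (U L L) (V (T L L) (U (U L L) (T L L)))) (S (V (S L L) (S L (S L L))) (V (S (T L L) (S L L)) (S L (T L L))))) (S (U (V (S L (S L L)) (S (T L L) (T L L))) (V (S L L) (S L (S L L)))) (U (V (T (S L L) (S L L)) (S (T L L) (T L L))) (V (S (S L L) (T L L)) (S (S L L) (S L L)))))))) (F 129 w1_21)))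
noncomputable def w1_23 : Tr := (S (T (F 1 (V (U (S L (V L L)) (S L (S L L))) (S (U L L) (U (V L (S L L)) (T L L))))) (V (S (T (F 1 (S L L)) (S (F 1 (S L L)) L)) (F 1 (U (T (S L L) (S L L)) (V L L)))) (F 1 (S (F 1 (U (T L L) L)) (U (V (S L L) (F 1 (S L L))) (T L L)))))) (F 1 (T (V (F 8 (U (S (T (S L L) (V L L)) (T (V (S L L) L) (V (S L L) (S L L)))) (S (T (S L L) L) (T (V L L) (S L L))))) (S (U (V (S L L) (T L L)) (T L (S L L))) (V (F 8 (U (T L (S L L)) (S L L))) (U (T L (S L L)) (S L L))))) (V (S (T (F 8 (U (V L L) (S L L))) (V (F 8 (U L L)) (S (S L L) L))) (F 8 (U (V (T (S L L) (S L L)) (T (S L L) (S L L))) (T (S L L) (S L L))))) (S (U (V (T L (S L L)) (F 1 (S L L))) (V (S L L) (F 1 (S L L)))) (U (V (T (F 8 (S L L)) (S L L)) (T (S L L) L)) (V (S L L) (S L L))))))))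
noncomputable def w1_24 : Tr := (S (F 96 (V (T (S (V (S L L) (T L L)) (U (V L (S L L)) (S L L))) (S (V (S L L) (T L (T L L))) (V (U (T L L) L) (U (S L L) L)))) (T (S (U (V (S L L) (S L L)) (S L L)) (U (T (S L L) (S L L)) (S L L))) (S (U (V (S L L) (S L L)) (V L (S L L))) (U (V (T L L) (S L (S L L))) (V L L)))))) (F 64 (V (T (S (F 1 (U (T (T L L) (V L L)) (S L L))) (U (V (T (S L L) L) (F 1 (T L L))) (V (S L L) L))) (F 1 (S (U (V (S (S L L) L) (T L L)) (V L L)) (U (V (S L L) (S (S L L) L)) (V (S L L) L))))) (F 1 (T (S (U (V (S L L) (S L L)) (S L L)) (U (V (S L L) (S L L)) (S L L))) (S (V (U (S L L) L) (U (S L L) L)) (V (U (S L L) L) (U (S L L) L))))))))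
noncomputable def w1_25 : Tr := (S (T (F 1 (V (S L (U L (V L L))) (S L (U L (V L L))))) (S (F 1 (V (T (U L (S L L)) (V (S L L) (S L L))) (U (V L L) (T (S L L) (S L L))))) (V (T (F 1 (U (S L L) (S L L))) (U (F 1 (S L L)) (U L L))) (T (U (F 1 (S L L)) (F 1 (S L L))) (S (F 1 (S L L)) (U (S L L) L)))))) (T (F 1 (V (S (T (F 1 (V L L)) (V (S L L) (F 1 (S L L)))) (F 1 (T (V (F 4 (S L L)) (S L L)) (U (S L (S L L)) (S L L))))) (S (F 1 (U (V L L) (T L (S L L)))) (F 1 (T (U (S L L) (S L L)) (U (S L L) (S L L))))))) (S (V (T (F 1 (V (U (S L L) L) (F 1 (S L L)))) (V (F 1 (S L L)) (F 32 (U L L)))) (F 32 (T (U (F 16 (S L L)) (S L L)) (U (S L L) (S L L))))) (F 32 (V (T (F 16 (U (S L L) (S L L))) (T (F 16 (S L L)) (U (S L L) (S L L)))) (T (V (F 16 (S L L)) (U (S L L) L)) (U (V (S L L) L) (S L L))))))))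
noncomputable def w1_26 : Tr := (S (U (U (V (S L L) (S L L)) (V (T L (S (S L L) (V (T L (S L L)) (S L L)))) (T L (S (V (V L L) (S L L)) (T (S L L) (V L L)))))) (T (F 1 (V (S (S L L) (U L (T L (S L L)))) (U (S L L) (S (S L L) (F 1 (T L L)))))) (V (S (T (F 1 (V (S L L) L)) (S (F 1 (S L L)) (V L L))) (T (F 1 (S (T L L) L)) (S (V L L) (F 32 (T L L))))) (S (U (T (F 1 (V L L)) (V L L)) (T (F 1 (S L L)) (S L L))) (T (F 32 (T (F 16 (S L L)) (S L L))) (V (S L L) (F 32 (T L L)))))))) (U (V (T (F 32 (S L (F 16 (S L L)))) (F 32 (U (S L L) (S (T (S L L) (S L L)) (T (S L L) L))))) (F 32 (U L (T (S L L) (S (S L L) L))))) (T (F 32 (V (T (F 16 (S (V L L) (V (S L L) L))) (S (U (F 16 (S L L)) L) (V (F 16 (S L L)) (S L L)))) (S (F 16 (T (S L L) (S L L))) (T (U L L) (U (S L L) (S L L)))))) (F 32 (V (S (T (V (S L L) (S L L)) (V (S L L) (S L L))) (T (U (S L L) (S L L)) (V (S L L) (S L L)))) (S (T (V (S L L)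 (S L L)) (V (S L L) (S L L))) (T (U L (S L L)) (U L (S L L)))))))))
noncomputable def w1_27 : Tr := (T (V (F 128 (T (S (K 5) (F 64 (V L L))) (F 1 (S (V (S (K 1) L) (S L L)) (U (V L L) (V (T L (F 5 (V L L))) (F 1 (T L (F 8 (V L (S L L))))))))))) (F 64 (U (F 1 (S (K 1) (F 1 (V (S (K 4) L) L)))) (S (F 1 (T L (V L (T L L)))) (F 65 (T (V L L) (V (S L (T L (F 2 (V L L)))) (U (T L L) (S (S L L) (T L L)))))))))) (F 68 (V (U (S (T (F 1 (V L L)) (V (S (F 1 (S L L)) (F 1 (U L (V (S L L) L)))) (S (V L L) (U (S L L) (T L (T L (S L L))))))) (U (T (F 1 (V (S L L) L)) (V (S (S (F 1 (S L L)) (F 33 (T L L))) (F 32 (T (F 16 (V L L)) (T (F 16 (S L L)) (S L L))))) (S (S L L) (F 32 (T L L))))) (T (F 1 (V (S L (F 1 (V L L))) (S L (F 1 (V L L))))) (V (S (T (F 1 (S L L)) (S L L)) (F 32 (T (F 16 (V (S L L) L)) (T L (S L L))))) (S (T (F 33 (S L L)) (F 32 (V L L))) (F 32 (T (S L L) (S (S L L) (S L L))))))))) w1_25)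 w1_26)))
noncomputable def w1_28 : Tr := (T (F 1 (S (V (F 4 (U L (T L (V L L)))) (T (F 4 (S L L)) (F 32 (S L (F 4 (V L L)))))) (F 4 (V (T (S (U L (S L L)) (V (S L L) (S L L))) (S (U (V L L) (S L L)) (U (V L L) (S L L)))) (T (S (U L (S L L)) (U (S L L) (S L L))) (S (F 1 (U (S L L) L)) (U (F 1 (S L L)) (S L L)))))))) (S (F 1 (V (F 4 (T (S (F 1 (T L L)) (T (V (S L L) L) (F 9 (S L L)))) (F 9 (S (U L L) (U (S L L) L))))) (F 32 (T (S (V L (S L L)) (F 4 (U (S L L) (S L L)))) (F 8 (S (U (S L L) (S L L)) (V (F 2 (S L L)) (S L L)))))))) (F 16 (T (F 32 (V (S (V (T (S L L) L) (F 1 (S L L))) (T (U (S L L) L) (F 8 (S L L)))) (F 1 (S (T (S L L) (F 2 (S L L))) (T (S L L) (F 2 (S L L))))))) (F 34 (V (S (F 1 (U (S L L) (S L L))) (U (F 1 (S L L)) (S L L))) (F 1 (S (U (S L L) L) (U (S L L) L)))))))))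
noncomputable def w1_29 : Tr := (U (V (F 64 (S (F 1 (T (V L L) (F 32 (V (F 4 (T L (F 2 (V L (S L L))))) (U L (S (S L L) (F 4 (T L (F 2 (S L L)))))))))) (F 16 (T (F 32 (V (T (V L L) (U L (S L (V L L)))) (U L (T (S L L) (F 1 (V L L)))))) (T (F 32 (U (V (V (S L L) L) L) (V (S (T (S L L) L) (V (S L L) L)) (F 1 (S (T L L) (S L L)))))) (F 50 (U (S (S L L) L) (S (V (S L L) (S L L)) (V (S L L) L))))))))) (F 160 (S (F 1 (T L (V (T L L) L))) (U (S L L) (T (F 1 (V L L)) (S (F 1 (T L L)) L)))))) (V (F 64 w1_28) (F 160 (S (F 1 (T (V (U (T L L) (T L (S L (S L L)))) (U (V L L) (S (S L L) (T L L)))) (V (T (S (U L (S L L)) (T (V L L) (F 2 (S L L)))) (F 2 (S (V (S L L) (S L L)) (U (S L L) (S L L))))) (S (T (U L (S L L)) (F 2 (S L L))) (T (U L (S L L)) (F 2 (S L L))))))) (T (F 1 (U (V (T (F 4 (S L L)) (S (S L L) L)) (S (T L L) L)) (V (S (T L (S L L)) (F 4 (T L L))) (S (T L L) (T L L))))) (S (F 1 (V (T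 (V (F 4 (S L L)) (S L L)) (F 2 (U L (S L L)))) (T (U L L) L))) (F 1 (V (U (F 4 (S L L)) (T (F 4 (S L L)) L)) (T L L)))))))))
noncomputable def w1_30 : Tr := (V (T (S (F 16 (V (T (F 4 (U (S L L) L)) (U (F 4 (S L L)) (S L L))) (T (U (S L L) (S L L)) (U (V L L) (S L L))))) (F 16 (V (F 4 (T (U (S L L) (S L L)) (U (S L L) (S L L)))) (T (V (F 4 (S L L)) (U L L)) (U (S L L) (S L L)))))) (V (S (T (F 16 (V (F 4 (S L L)) (U L L))) (V (F 2 (S L L)) (U (S L L) (S L L)))) (F 2 (T (S (F 1 (T L L)) (F 1 (T L L))) (U (S L L) (S L L))))) (S (T (U (T L (S L L)) (V (S L L) L)) (U (V (S L L) L) (S L L))) (T (U (V (S L L) (S L L)) (S (S L L) (S L L))) (U (U L (S L L)) (S L L)))))) (T (S (V (T (F 16 (V (S L L) (S L L))) (V (F 16 (S L L)) (S L L))) (U (T L L) (T (S L L) (S L L)))) (V (T (F 16 (U L (S L L))) (U (S L L) (S L L))) (U L (T L L)))) (S (V (T (U (S L L) (S L L)) (U (S L L) (S L L))) (U (S L L) (T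 (S L L) (S L L)))) (V (U (T L L) (T (S L L) (S L L))) (T (S L L) (S L L))))))
noncomputable def w1_31 : Tr := (U (V (T (F 16 (T (F 24 (U (S (S L L) L) (S (V (S L L) L) (S (S L L) L)))) (S (F 24 (U L (S (T L L) L))) (S (F 24 (T L L)) (F 8 (S L L)))))) (U (F 16 (S L L)) (S (F 1 (V (F 2 (T (S L L) (S L L))) (S L L))) (F 16 (T (S L L) (S L L)))))) (T (F 1 (V (S (S L L) L) (K 3))) (F 1 (S (S L L) L)))) (T (V (V (F 18 (S (F 8 (T (U (S L L) (S L L)) (U (S L L) (S L L)))) (T (T (F 8 (S L L)) (F 8 (S L L))) (V (U L L) (F 8 (S L L)))))) (F 1 (T (F 18 (S (U (S L L) (S L L)) (U L L))) (S (S (F 16 (V L L)) (F 18 (S L L))) (F 2 (U L (S L L))))))) (F 1 (V (S (U (T L L) (T (F 16 (S L L)) (S L L))) (U L (T (S L L) L))) (S (T L L) (S L L))))) (V (V (F 16 (T (S (F 16 (V (F 1 (S L L)) (T L L))) (S (F 16 (V L L)) (T L (S L L)))) (S (F 16 (U (S L L) (S L L))) (U (S (S L L) L) (S L L))))) (S (F 1 (U (S (T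 (S L L) L) L) (T (S (S L L) L) (V L L)))) (F 16 (T (F 16 (U L (S L L))) (F 16 (U L (S L L))))))) (F 1 (S (V (U (S L L) (T L L)) (S L L)) (V (U L (S L L)) L))))))
noncomputable def w1_32 : Tr := (U (S (F 768 (T (K 7) (F 4 (U (S (K 1) L) (F 132 (V (U L (S (S (K 4) L) (S L (F 32 (S L L))))) (S (S L L) L))))))) (U (T L L) (F 1537 (T (V (F 2 (T L (F 32 (S L L)))) L) (F 68 (S (F 32 (V (S L L) (S L L))) (V (F 2 (T L L)) (K 3)))))))) (F 1536 (S (F 1 w1_27) (F 256 (T w1_29 (F 34 (S (F 1 (U (V (U (T (V (F 18 (U (S L L) (S (T L L) (T (S L L) L)))) (S L L)) (S (V (T (F 18 (S L L)) (T L (S L L))) (S L L)) (V (F 2 (T L L)) L))) (T (V (F 18 (S (T (S L L) (S L L)) (T (V L L) (T L L)))) (S (F 16 (T (V L L) (S (S L L) L))) (F 16 (T (V L L) (S L L))))) (S (V (T (F 16 (S (S L L) L)) (S (T L L) (F 2 (S L L)))) (T (T L (S L L)) (S L L))) (V (F 2 (T (F 1 (S L L)) (S (S L L) L))) (T (S L L) L))))) (T (U (S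 L L) (V (S (S L L) (S L L)) (S L L))) (V (S (T (S L L) L) (T L L)) (S L (K 3))))) w1_30)) w1_31)))))))
noncomputable def w1_33 : Tr := (T (U (S (F 64 (V (S (K 4) L) (F 32 (S L L)))) (F 1 (V (S L L) (K 1)))) (S (F 65 (V (U (S L (T L L)) (S (V L L) (V (S L L) (S L (T L L))))) (S (V (S L (S L L)) (U (S L L) (S (T L L) (T L L)))) (V (U L (S (S L L) (S L L))) (U L (T (S L L) L)))))) (F 1 (V (S (F 1 (U (S L L) (V (S (T L L) (T L L)) (T L L)))) (F 1 (V (S (T L L) L) L))) (S (F 1 (U L (S (T L L) L))) (T L (K 1))))))) (S (U (V (U L (S (F 65 (S L L)) (F 65 (S L L)))) (F 1 (S (F 1 (S L L)) (S L (K 1))))) (V (S (F 65 (U (V L (T L L)) (V (S L (S L L)) (S L (S L L))))) (F 65 (U (V (T L L) (S L L)) (V (S (T L L) (T L L)) (S (T (S L L) L) (T (S L L) L)))))) (S (F 65 (V (U (S L (S L L)) (S (T L L) (T L L))) (S (T (U (S L L) L) (F 8 (S L L))) (U (S L L) (T L L))))) (F 1 (V (T (F 1 (U L (S L L))) (F 16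 (T L (S L L)))) (S (F 1 (T L L)) L)))))) (F 1 (U (V (S (S L L) (K 1)) (K 1)) (V (S (V (T (F 1 (S (S L L) L)) (F 16 (S (S L L) L))) (T (U L L) L)) (S (T (S L L) L) L)) (S (U (K 1) (V (S L L) L)) (K 1)))))))
noncomputable def w1_34 : Tr := (V (T (S (V (S (F 32 (U L (S (F 16 (T L L)) L))) (F 33 (U (S L L) (V (S L L) L)))) (F 1 (T (F 1 (U (S L (S L L)) (S L L))) (S (F 1 (S L L)) (U (V L L) (S L L)))))) (F 1 (U (V (S (V (T L L) L) (S L L)) (S (S L L) L)) (V (S (T L (S L L)) (T L (S L L))) (S (T (F 1 (S L L)) (S L L)) (S L (S L L))))))) (S (S (V (U (T (S L L) (S L L)) (V (S L L) (T L (S L L)))) (F 1 (T (S (S L L) (S L L)) (V L L)))) (F 1 (V (U (T (S L L) (S L L)) (V (T L L) (S L L))) (U (V (S L L) L) (T (S L L) (S L L)))))) (F 1 (S (V (U (V (T L L) L) (T (S L L) (S L L))) (U (S L L) (V (S L L) (T L L)))) (V (T (S (S L L) L) (S L L)) (U L (V (S L L) L))))))) (S (F 1 (T (V (S (T (F 1 (S L L))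 (V L (S L L))) (T (F 1 (S L L)) (V L L))) (S (T (F 1 (S L L)) (V (S L L) (S L L))) (U (S L L) (T L L)))) (V (S (T (V (S L L) (S L L)) (V (S L L) L)) (U (T L L) (T (S L L) (S L L)))) (S (T (V (S L L) (S L L)) (V (S L L) L)) (U (S L L) (T (S L L) L)))))) (F 1 (T (V (T (U L (S L L)) (U L (S L L))) (S (T L L) L)) (V (S (T (S L L) (S L L)) (U L (S L L))) (S (T L (S L L)) (S L L)))))))
noncomputable def w1_35 : Tr := (V (S (T (V (U L (U L (S L L))) (F 1 (S L (F 1 (U L L))))) (F 1 (U (V (F 4 (V L (S L L))) (T L (F 4 (S L (S L L))))) (F 4 (V (S (S L L) (S L L)) (S (S L L) (S L L))))))) (F 64 (T (U (V (V L (S L L)) (T L (F 32 (V L L)))) (V (T (S L L) (S L L)) (S (F 32 (S L L)) (T L L)))) (U (F 32 (V (T (F 8 (S L L)) (F 8 (S (S L L) (S L L)))) (T (S (S L L) (T L L)) (F 8 (S (S L L) (S L L)))))) (V (F 2 (S (F 1 (S L L)) (T L L))) (F 32 (T (S L L) (F 8 (S L L))))))))) (F 1 (S (U (T (V L L) (V (S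 (T L L) (F 1 (T L L))) (S (F 1 (S L L)) (F 1 (T L L))))) (T (V (S L L) (F 1 (U (S L L) (S L L)))) (V (S (F 4 (S L L)) (F 1 (T L L))) (S (F 1 (U (S L L) L)) (F 1 (U (S L L) (S L L))))))) (F 1 (T (U (V (U L (V L (S L L))) (S (T L L) (T L L))) (V (S (S L L) (T L L)) (S (S L L) (T L L)))) (V (U (T (S (S L L) (S L L)) (F 8 (S (S L L) (S L L)))) (S (T L L) (T L L))) (U (S (T (S L L) (F 8 (S L L))) (T (S L L) (F 8 (S L L)))) (T (S L L) (F 8 (S L L))))))))))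
noncomputable def w1_36 : Tr := (U (V (T (U (V (U L (S L L)) (S L (T L L))) (S (V L (T L L)) (V (S L L) (T L (S L L))))) (U (V (T (U (S L L) (S L L)) (F 8 (U (S L L) (S L L)))) (S (T (S L L) L) (T (S L L) L))) (S (V (S L L) (U (S L L) (S L L))) (V (T L L) (U (S L L) L))))) (T (V (U (S (T L L) (T L L)) (S (S L L) (S L L))) (U (S (T L (S L L)) (T L (S L L))) (S (S L L) (S L L)))) (V (U (S (T (S L L) (F 8 (S L L))) (T (S L L) L)) (S (T L L) (T L L))) (U (S (T (S L L) (F 8 (S L L))) (T (S L L) L)) (S (T L L) (T L L)))))) (V (T (V (U (S L L) L) (U (S L L) (S L L))) (U (V (S L (S L L)) (S L (S L L))) (F 8 (V (S L L) (S L L))))) (U (T (V (S L (S L L)) (S L L)) (S (F 8 (V L L)) (V (T L L) (S L L)))) (T (V (S L L) (S L L)) (F 8 (V (S L L) (S L L)))))))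
noncomputable def w1_37 : Tr := (U (V (F 1 (T (U (V (S (T L L) (T L L)) (U (S (T L L) (T L L)) (T (S L L) (S L L)))) (V (U (S (S L L) L) (S L L)) (S (S L L) (S L L)))) (U (V (S (T (S L L) L) (T (S L L) (F 2 (S L L)))) (T (T (U (S L L) (S L L)) (F 2 (U L L))) (F 2 (U (S L L) (S L L))))) (S (V (U (T L L) L) (T L L)) (V (V (S L L) (T L L)) (T L L)))))) (U (T (F 1 (V (S (T L (S L L)) (T L L)) (S (T L (S L L)) (T L L)))) (V (S (F 1 (T (S L L) L)) (F 1 (T L L))) (S (F 1 (T (S L L) L)) (T L L)))) (T (F 1 (V (U (S L (S L L)) (S L L)) (S (S L L) (S L L)))) (V (S (F 1 (U (S L L) (S L L))) (F 1 (U (S L L) L))) (S (F 1 (S L L)) (T L L)))))) (V (F 1 (T (V (U (S L L) (S L L)) (U (S L L) (S L L))) (U (V (S (S L L) (T L L)) (S (S L L) (S L L))) (F 2 (V (S L L) (S L L)))))) (T (F 1 (U (V (S L L) (S L (S L L))) (V (S L L) (S L L)))) (U (S (F 1 (V (T L L) L)) (V L (F 16 (S L L)))) (F 16 (V (F 16 (S L L))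 (S L L)))))))
noncomputable def w1_38 : Tr := (V (T (U (F 1 (V (S (T (S L L) (S L L)) (T (S L L) (V L L))) (S (T (S L L) (S L L)) (T (S L L) (V (S L L) L))))) (F 1 (V (S (T L (S L L)) (T L (S L L))) (S (T L (S L L)) (T (S L L) (S L L)))))) (S (F 1 (V (U (T (S L L) (S L L)) (T (S L L) (S L L))) (U (T (V L L) (S L L)) (T (S L L) (S L L))))) (V (F 1 (U (T (U (S L L) L) (V (S L L) (S L L))) (T (S L L) (S L L)))) (U (T (F 1 (V (S L L) (S L L))) (S (F 1 (S L L)) (S L L))) (T (F 1 (S L L)) (S L L)))))) (U (T (F 1 (V (S (T (S L L) (S L L)) (T (F 1 (S L L)) (S (S L L) L))) (S (T (S L L) (U L (S L L))) (F 1 (T (S L L) (S L L)))))) (V (S (T (F 1 (V L L)) (S L (S L L))) (T (F 1 (V L L)) (S (T L L) (F 32 (S L L))))) (S (U (T L (S L L)) (T (F 1 (S L L)) (V L L))) (T (F 32 (V L L)) (S L L))))) (T (F 1 (V (S (T L (S L L)) (T L (S L L))) (S (U (S L L) (S L L)) (F 1 (V L (T L L)))))) (V (S (T (F 1 (S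 L L)) (S L L)) (T (F 1 (S L L)) (V L L))) (S (T (F 1 (T L L)) (U L L)) (F 32 (U (T L L) (T L L))))))))
noncomputable def w1_39 : Tr := (V (T (U (S (F 33 (V (T (S L L) (S L L)) (T (S L L) (S L L)))) (F 32 (V (F 16 (T (V (S L L) L) (U (S L L) L))) (T (F 16 (S L L)) (U (F 16 (S L L)) L))))) (F 33 (V (S (T L L) (T (S L L) (S L L))) (S (T L (S L L)) (T (S L L) (S L L)))))) (U (V (S (T (F 32 (S L L)) (F 32 (S L L))) (F 32 (T (U (F 16 (S L L)) L) (U (S L L) (S L L))))) (F 32 (S (T (F 16 (S L L)) (V (S L L) (S L L))) (T (S L (F 16 (S L L))) (U (S L L) (S L L)))))) (F 32 (S (V (T (F 16 (S L L)) (S L L)) (T L (S L L))) (V (T (F 16 (S L L)) (S L L)) (T (S L L) (S L L))))))) (F 32 (T (V (S (F 16 (U (T (S L L) (S L L)) (T L L))) (F 16 (U (T (S L L) (S L L)) (T (S L L) L)))) (S (F 16 (U (T (S L L) (S L L)) (T L L))) (U (T (F 16 (S L L)) (V (S L L) L)) (T L (S L L))))) (V (S (U (T (V (S L L) (S L L))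 (S (S L L) (S L L))) (T (S L L) (S L L))) (U (T (V (S L L) (S L L)) (V (S L L) (S L L))) (T (S L L) (S L L)))) (S (U (T (V L L) (V L L)) (T (S L L) (S L L))) (U (T (V (S L L) L) (V L L)) (T (S L L) (S L L))))))))
noncomputable def w1_40 : Tr := (S (T (F 1 (V (U (V (S (S L L) (S L L)) (S (S L L) (S L L))) (V (S L L) (S (S L L) L))) (S (U (V (U (S L L) L) (S L L)) (V L L)) (F 1 (U (V (T L L) (S L L)) (T L L)))))) (V (U (S (F 1 (V (T L L) (S L L))) (V (F 1 (T L L)) (T L (S L L)))) (V (F 1 (S L L)) (S (F 1 (T L L)) (S L L)))) (S (U (T (F 1 (V (S L L) L)) (V (U L L) (S L L))) (V (S L L) (S L L))) (U (V (T (F 33 (S L L)) (S L L)) (F 32 (T L L))) (F 32 (V L (S L L))))))) (F 32 (V (T (F 16 (U (V (S (S L L) (S L L)) (S (S L L) (S L L))) (V (S L L) (S L L)))) (U (V (T (F 16 (S L L)) (S L L)) (S (T L L) (T L L))) (V (S L (S L L)) (S L (S L L))))) (U (T (V (S (F 16 (S L L)) (F 16 (S L L))) (S (F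 16 (T L (S L L))) (T L (S L L)))) (V (S (T L L) (T L L)) (S (U (T L L) L) (U (S L L) (S L L))))) (T (S (F 16 (T L L)) (V L (T L L))) (S (V (T L L) (S L L)) (V (S L L) (S L L))))))))
noncomputable def w1_41 : Tr := (V (T (T (F 33 (U (V (U (S L L) (S L L)) (S (S L L) (S L L))) (S (V L (S L L)) (V L (S L L))))) (U (S (F 33 (V (U (S L L) L) (S L L))) (F 32 (V (F 16 (U (T L L) L)) (U (S L L) (S L L))))) (S (F 33 (V L (V L L))) (F 32 (V L (U L L)))))) (U (V (T (U (S (S L L) (F 32 (S L L))) (S (S L L) L)) (S (U (S L L) (S L L)) (F 32 (U (S L L) L)))) (S (F 32 (T (S L L) (S L L))) (F 32 (V (S (S L L) (T L L)) (T L L))))) (S (V (T (S L L) (S L L)) (F 32 (U (S L L) (T L L)))) (F 32 (V (T (S L L) (S L L)) (T (T L L) (T L L))))))) (F 32 (T (V (U (S (T (F 16 (S L L)) (S L L)) (T (F 16 (S L L)) (S L L))) (S (F 16 (S L L)) (T L (S L L)))) (S (U (T (F 16 (S L L)) (S L L)) (T L (S L L))) (U (T (S L L)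 (S L L)) (T (S L L) L)))) (S (V (U (T (S L L) (S L L)) (T (S L L) (S L L))) (U (T (S L L) (S L L)) (T (S L L) (S L L)))) (V (U (T (S L L) (S L L)) (T (S L L) (S L L))) (U (T (S L L) (S L L)) (T L (S L L))))))))
noncomputable def w1_42 : Tr := (V (T (U (V (S (T (F 16 (S L L)) (V L (U L L))) (T (F 16 (S L L)) (S L L))) (T (U (S L (T L L)) (S L L)) (U (S (U L L) (T L L)) (S L L)))) (V (S (T (F 16 (V L L)) (U L L)) (U (T L L) (T L L))) (S (T L (S L L)) (T (S L L) (S L L))))) (U (V (S (U (T (S L L) (S L L)) (V (S L L) (S L L))) (T (S L L) (V L L))) (T (U (S (S L L) (S L L)) (S L L)) (S (U (S L L) (S L L)) (U (S L L) L)))) (V (S (T (T L L) (T L L)) (U (T L L) (T L (S L L)))) (S (T (S L L) (S L L)) (T (S L L) (S L L)))))) (U (T (V (S (T (S L L) (S L L)) (T (S L L) (U L (S L L)))) (S (T (S L L) (S L L)) (T (S L L) (S L L)))) (S (V (T (S L L) (S L L)) (T (S L L) (S L L))) (V (U (T L (S L L))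 (S L (T L L))) (T (S L L) (S L L))))) (T (V (S (U (S L L) (S L L)) (U (T L L) (S L L))) (S (T L L) (T L L))) (V (S (U (S L L) (T L L)) (T (T L L) (T L L))) (S (T L L) (T L (S L L)))))))
noncomputable def w1_43 : Tr := (S (U w1_41 (V (T (V (F 1 (S (F 1 (U (S L L) L)) (F 1 (U (S L L) L)))) (F 32 (S (F 16 (U (S L L) L)) (U (S L L) L)))) (V (S (U (T L (S L L)) (S L L)) (F 32 (U (S L L) (S L L)))) (F 32 (S (U (S L L) L) (U (S L L) L))))) (F 32 (U (T (V (S (F 16 (T L L)) (U (S L L) L)) (S (S L L) (S L L))) (V (S (U L (S L L)) (U (S L L) L)) (S (S L L) (S L L)))) (T (S (F 16 (T L L)) (T L (S L L))) (S (V L L) (V L (S L L)))))))) (F 32 (U w1_42 (V (T (V (U (S (S L L) (S L L)) (S L L)) (S (U (S L L) L) (U (S L L) L))) (V (S (U (T L L) (S L L)) (U (T L L) (S L L))) (S (U (S L L) L) (U (S L L) L)))) (T (S (U (V (S L L) (U L L)) (V L L)) (U (V (S L L) (T L L)) (V L L))) (S (U (V (S L L) (U L L))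 (V L L)) (U (V (S L L) (U (S L L) L)) (V L L))))))))
noncomputable def w1_44 : Tr := (S (F 64 (T (F 1 (V (F 4 (U (T (S (S L L) (S L L)) (S (S L L) (V L L))) (T (S L L) (S L (S L L))))) (U (T (S (S L L) (F 4 (S L L))) (F 32 (S (S L L) (F 4 (S L L))))) (T (S (S L L) L) (S L (S L L)))))) (F 1 (V (U (F 4 (T (S (V L L) (T (S L L) L)) (F 9 (S (S L L) (S L L))))) (T (F 4 (S L L)) (F 2 (S (F 1 (S L L)) (F 8 (S L L)))))) (F 32 (U (T (S (T (S L L) L) (S (T L L) L)) (F 8 (S (V (S L L) L) (V L (S L L))))) (T (S (S L L) (S L L)) (F 8 (S L (S L L)))))))))) (F 64 (T (F 16 (U (V (T (F 32 (S (V L L) (V L L))) (S (F 32 (U (S L L) L)) (U (F 32 (S L L)) (F 32 (S L L))))) (F 32 (S (T (T L L) (V (S L L) L)) (T (V L L) (V (S L L) L))))) (F 32 (V (T (S (S L L) (S L L)) (S (S L L) (S L L))) (T (S L (S L L)) (S (S L L) (S L L))))))) (U (F 16 (V (S (F 32 (T (T (S L L) (F 8 (S L L))) (F 8 (U L L)))) (T (U (F 32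 (S L L)) L) (F 2 (T (F 1 (S L L)) L)))) (F 48 (T (S (V L L) (S L L)) (F 4 (S (S L L) (S L L))))))) (T (F 17 (S (V (F 2 (S L L)) L) (F 2 (V L L)))) (F 33 (V (F 2 (S (S L L) (S L L))) (F 16 (S (S L L) L)))))))))
noncomputable def w1_45 : Tr := (T (F 128 (S (F 3 (U (V (T (S (S L L) (S L L)) (S (S L L) (V L L))) (S (T (S L L) (S L L)) (T (S L L) (S L L)))) (V (S (T L L) (T L (S L L))) (S (T L L) (T L L))))) (F 1 (U (F 32 (V (S (T (S L L) (V L L)) (F 4 (T (S L L) (S L L)))) (S (T (S L L) (S L L)) (T (S L L) (S L L))))) (V (T (S L L) (F 32 (S (S L L) L))) (F 32 (S (T L L) (T L L)))))))) (F 160 (S (U (V (F 1 (T (S (T L L) (T (S L L) L)) (F 2 (S (S L L) (S L L))))) (S (F 1 (T (S L L) (F 2 (S L L)))) (T (F 1 (S L L)) (F 16 (V L L))))) (F 1 (V (T (S (S L L) (S L L)) (F 2 (S L (S L L)))) (T (S (S L L) (S L L)) (F 2 (S L L)))))) (U (V (F 1 (T (S (T (S L L) L) (T L L)) (F 2 (S (S L L) (S L L)))))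 (T (F 1 (S (S L L) (S L L))) (F 16 (S (V L L) (S L L))))) (S (F 1 (V (T (S L L) L) (T (S L L) L))) (F 17 (V (T L L) (S L L))))))))
noncomputable def w1_46 : Tr := (V (F 64 (T (F 1 (S (V (F 4 (U (T (S L L) (S L L)) (S L L))) (U (T (S L L) (S L L)) (T L (S L L)))) (F 4 (U (T (V (S L L) (S L L)) (V (S L L) (S L L))) (V (S L L) (S L L)))))) (S (U (F 1 (V (F 2 (S (T L L) (F 8 (S L L)))) (F 32 (S (F 8 (S L L)) (F 8 (S L L)))))) (F 33 (V (S L L) (F 16 (S L L))))) (F 32 (V (F 2 (T (F 1 (U (S L L) L)) (F 1 (U (S L L) L)))) (F 32 (U (T (F 8 (S L L)) (F 1 (S L L))) (S L L)))))))) (F 128 (S (F 3 (U (T (V (T (S L L) (S L L)) (S (S L L) (S L L))) (S (V (T L L) (S L L)) (F 2 (V (S L L) (S L L))))) (T (V (S L L) (S L L)) (F 2 (V (S L L) (S L L)))))) (T (F 1 (U (V (T (S L L) (F 32 (S L L))) (F 32 (S (S L L) (S L L)))) (V (S L L) (F 32 (S L L))))) (F 34 (S (F 16 (U (V (S L L) L) (S L L))) (F 16 (U (V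 (S L L) L) (S L L)))))))))
noncomputable def w1_47 : Tr := (S (V (U (T (F 32 (V (S (T L (S L L)) (T L (S L L))) (S (T L L) (T L L)))) (V (S (F 32 (T (S L L) L)) (F 32 (T (S L L) L))) (S (F 32 (T (S L L) L)) (T L L)))) (T (F 32 (V (S (T L L) (T L L)) (U (S (S L L) L) (S L L)))) (V (S (F 32 (T L L)) (F 32 (T L L))) (S (F 32 (U (S L L) L)) (T (F 32 (S L L)) (F 2 (S L L))))))) (T (F 32 (U (V (U (S (S L L) L) (T (S L L) (S L L))) (S (T L L) L)) (S (V (S L L) (T L L)) (V (S L L) (S L L))))) (U (V (T (U (S L L) (S L L)) (F 2 (U L (S L L)))) (S (T L L) L)) (S (T (F 32 (V L L)) (F 2 (V L (S L L)))) (V (T L L) (F 2 (T L L))))))) (V (T (U (V (F 32 (S (T (S L L) (S L L)) (T L L))) (U (F 32 (S L L)) (F 32 (S L L)))) (F 32 (V (S (T L L) (S L L)) (S (S L L) (S L L))))) (U (V (S (T (S L L) (F 2 (S L L))) (T (S L L) L)) (S (T L L) L)) (S (V (T L L) (T L L)) (F 2 (V (S L L) (S L L)))))) (T (U (V (S L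 L) L) (S (F 32 (V (T L L) L)) (V (F 32 (S L L)) L))) (U (V (S L L) L) (F 2 (S (V (T L L) L) (U L (S L L))))))))
noncomputable def w1_48 : Tr := (V (T (F 32 (U (V (F 1 (S (T (S (S L L) L) (V L (S L L))) (F 2 (T (S L L) (S L L))))) (T (F 1 (S (U (S L L) L) (U (S L L) L))) (S (U (F 1 (S L L)) (S L L)) (S (F 1 (S L L)) (F 1 (S L L)))))) (S (F 1 (V (T (S L L) (S L L)) (T (S L L) (S L L)))) (F 1 (V (T L (S L L)) (T (S L L) (S L L))))))) (F 32 (U (S (V (T (S (F 1 (S L L)) (F 1 (S L L))) (U (S L L) (S L L))) (T (U (V L L) (S L L)) (S (S L L) (T L L)))) (V (T (F 8 (S L L)) (U (V L L) (S L L))) (T (U (V L L) (S L L)) (U (S L L) (S L L))))) (S (V (T (F 1 (S L L)) (S L L)) (T (S L L) (S L L))) (T (V (U L L) (S L L)) (V (S L L) (S L L))))))) (F 32 (T (V (U (S (T (U (F 1 (S L L)) L) (S L (T L L))) (T (U L (S L L)) (U (S L L) (S L L)))) (T (F 1 (S (S L L) (S L L))) (S (S L L) (S L L)))) (U (S (T (F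 1 (S L L)) (V (S L L) L)) (T (S L (S L L)) (V L L))) (S (T L (S L L)) (T (S L L) (S L L))))) (S (V (U (T (V (S L L) (S L L)) (V (S L L) (S L L))) (T (S L L) (S L L))) (U (T (V L (S L L)) (V (S L L) L)) (T (S L L) (S L L)))) (V (U (T (U (S L L) (S L L)) (S (S L L) (S L L))) (T (S L L) (S L L))) (U (T (V (S L L) L) (V L L)) (T (S L L) (S L L))))))))
noncomputable def w1_49 : Tr := (V (T (U (V (F 18 (S (F 1 (T (S L L) (T L L))) (T (T L L) (S L (S L L))))) (F 32 (S (T (F 1 (U L L)) (S (F 1 (S L L)) L)) (F 8 (T (F 8 (S L L)) (S L L)))))) (S (T (F 48 (V L (S L L))) (F 32 (V L (V L L)))) (F 2 (V (F 2 (T (S L L) (S L L))) (T L (F 1 (S L L))))))) (U (S (T (F 32 (V (F 8 (V L (S L L))) (U (S L L) (S L L)))) (F 32 (V (F 8 (U (S L L) L)) (U (S L L) (S L L))))) (F 2 (T (V (T L (S L L)) (F 1 (V L L))) (V (U (S L L) (S L L)) (F 1 (S L L)))))) (V (F 2 (S (T (F 1 (S L L)) L) (T (S L L) (S L L)))) (T (F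 32 (S (S L L) (S L L))) (F 32 (S (S L L) (S L L))))))) (T (F 32 (U (V (T (S (S L L) (S L L)) (S (U (S L L) L) (U (S L L) L))) (S (T (U L L) (S L L)) (U (S L L) (T L L)))) (V (S (T L (S L L)) (T (S L L) (S L L))) (S (T (S L L) (S L L)) (T L L))))) (F 32 (U (S (V (T (U (S L L) L) (S (S L L) L)) (T (S L L) (S L L))) (V (T (S (S L L) L) (S L L)) (T (S L L) (S L L)))) (S (V (T (S L L) (S L L)) (T (S L L) (S L L))) (V (T (S L L) (S L L)) (T L (S L L))))))))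
noncomputable def w1_50 : Tr := (S (F 5 (V (T (S (F 16 (U (T (V L L) (V L L)) (T L L))) (F 16 (U (V (T L L) (S L L)) (T L L)))) (U (S (V (T L L) (T L L)) (V (T L L) (T L L))) (S (V (S L L) (S L L)) (V L L)))) (U (T (V (T (F 16 (S L L)) (S L L)) (S (T L L) (S L L))) (S (V (T L L) (T L L)) (V (T L L) (T L L)))) (T (V (S (S L L) L) (S (T L L) L)) (V (S (S L L) (S L L)) (S (T L L) (S L L))))))) (T (V (V (F 34 (U (S (F 24 (S L L)) (T L L)) (S L L))) (F 5 (U (T (F 16 (S L L)) (S L L)) (S L L)))) (F 4 (U (F 32 (S (V (T L L) (S L L)) (V (S L L) (S L L)))) (T (F 32 (S L L)) (F 32 (S L L)))))) (F 4 (V (U (V (F 2 (S (T L L) (T L L))) (S (F 32 (T L L)) (T L L))) (S (T L L) (V L (S L L)))) (S (F 32 (U (V (T L L) (S L L)) (V L L))) (U (F 32 (V (S L L) (S L L))) (T L L)))))))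
noncomputable def w1_51 : Tr := (V (U (T (V (S (T (S L L) (S L L)) (T (S L L) (S L L))) (S (T (S L L) (U L L)) (T (S L L) (S L L)))) (S (V (T (S L L) (S L L)) (U (T L L) (T (S L L) (S L L)))) (V (T (S L L) (S L L)) (T (S L L) (S L L))))) (T (V (S (T (S L L) (S L L)) (T (S L L) (S L L))) (S (T (V L L) L) (V (S L L) (T L L)))) (V (S (T (S L L) (S L L)) (T (S L L) (S L L))) (S (T (T L L) (T L L)) (U (S L L) (T L L)))))) (T (U (V (T (U L (S L L)) (U (S L L) (S L L))) (S (T L L) L)) (V (S (T L L) (S L L)) (S (U (S L L) (S L L)) (U (S L L) L)))) (U (V (T (U (S L L) (S L L)) (U (S (S L L) L) (S L L))) (S (T (S L L) (S L L)) (U L (T L L)))) (S (V (T L (S L L)) (U (S L L) (S L L))) (V (T L (S L L)) (T L L))))))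
noncomputable def w1_52 : Tr := (U (V (T (U (V (S (U L (S L L)) (S L L)) (S (S L L) L)) (V (S (T L L) (T L L)) (S (S L L) (S L L)))) (U (V (S (T (S L L) (S L L)) (T L L)) (S (T L L) (S L L))) (S (V (T L (S L L)) (T L L)) (V (T L L) (T L L))))) (T (U (V (S L L) (T L L)) (S (V (U (S L L) L) (S L L)) (V (T L L) (S L L)))) (U (V (S (V L (S L L)) L) (T L (T L (S L L)))) (S (V (T L L) (S L L)) (T (V (S L L) L) (V (S L L) L)))))) (T (V (U (V (S (S L L) (S L L)) (S (T L L) (S L L))) (S (T L L) (V L L))) (S (V (T L L) (S L L)) (V (T L L) (S L L)))) (V (U (V (S (S L L) (S L L)) (S (T L (S L L)) (T L L))) (S (T (S L L) (S L L)) (T L L))) (S (V (T L (S L L)) (T L (S L L))) (V (T L L) (T L L))))))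
noncomputable def w1_53 : Tr := (T (V (U (V w1_44 w1_45) w1_46) (F 32 (U (F 1 w1_47) (F 1 (V (T (F 32 (S (U (S (V (S L L) L) (V L L)) (V (S L L) (S L L))) (U (V (S L L) (S (S L L) L)) (V (S L L) L)))) (S (S (F 32 (U (V (T (S L L) L) (S L L)) (F 8 (S L L)))) (F 2 (U (V L L) (T L L)))) (F 2 (U (V (S (S L L) L) (S (S L L) L)) (V (S L L) (S L L)))))) (S (T (F 32 (V (U (S L L) (S L L)) (U (S L L) L))) (V (U (S (S L L) L) (F 2 (S L L))) (F 2 (U (S L L) (S L L))))) (T (V (F 32 (S (S L L) L)) (S L L)) (F 2 (V (S (S L L) L) (S (S L L) L)))))))))) (F 2 (V (U (F 4 (S w1_48 w1_49)) w1_50) (F 5 (S (U w1_51 (V (T (S (U (V (U (S L L) L) (S L L)) (V L L)) (U (V (U L L) (S L L)) (V L L))) (S (U (V (U (S L L) L) (S L L)) (V (S L L) L)) (U (V (V L (S L L)) (S L L)) (V L L)))) (T (V (S (U (S L L) L) (T L (S L L))) (S (U (S L L) L) (T L L))) (V (S (U (S L L) L) (U (S L L) L)) (S (U (S L L) L) (T (S L L)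 (S L L))))))) w1_52)))))
noncomputable def w1_54 : Tr := (U (F 12817 (V (F 10 w1_32) (F 64 (T (F 3200 (U (S (F 1 (V L L)) (F 259 (S (K 4) (K 4)))) (F 3 w1_33))) (F 896 (U (S (F 1 (V (F 128 (S (S L L) (K 1))) (K 5))) (K 3)) (F 67 (S (U (S (V (V (U L (T (S L L) (S (U L (T (S L L) (S L L))) (F 1 (S L L))))) (U (S L L) (T L (S (T L L) (F 1 (T L L)))))) (T (F 1 (U L (V (S L L) (T L L)))) (V (S (T L (S L L)) (T L L)) (F 1 (S (T L L) L))))) (F 1 (V (V (U (S L L) (T L (T L (S L (K 1))))) (T L (S L (K 1)))) (T (K 1) (K 1))))) w1_34) (F 1 (V (S (T (U (T (K 1) (K 1)) (V (S (T (S L L) L) (S L L)) (T L (T L L)))) (U (K 1) (V (S (T L L) (S L L)) (S (U L (S L L)) L)))) (U (K 1) (T (S (S L L) L) (U (K 1) (S (S L L) L))))) (U (K 1) (T (S (S (T L L) (K 1)) (K 1)) (S (S (V (V L (S L L)) L) (K 1)) (K 1)))))))))))))) (F 258577 (S (T (V (F 2 (U (F 128 w1_35) (F 128 (V (S (T (U (V (S L L) (F 1 (S L L))) (V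 L (F 1 (S L L)))) (F 17 (U (V (S L L) (S L L)) (V (S L L) (S L L))))) (F 64 (T (U (V (T L (S L L)) (T L L)) (V (S L L) (S L L))) (F 2 (V (U (T (S L L) (F 1 (S L L))) (S L L)) (F 1 (U (S L (S L L)) (S L L)))))))) (F 1 (T (S (F 1 (U (S (S L L) (V L L)) (V L L))) (F 1 (U (V (S L L) (S (S L L) L)) (V (S L L) (S L L))))) (S (F 4 (S (U (T L (S L L)) (S L L)) (F 16 (U (V L L) (S L L))))) (F 1 (U (V (T L (F 8 (S L L))) (U (S (S L L) L) (F 8 (S L L)))) (F 8 (V (S L L) (S L L)))))))))))) (F 5 (S (F 65 w1_36) (F 1 w1_37)))) (F 68 (V (U (F 64 (S w1_38 w1_39)) (F 64 w1_40)) (F 64 w1_43)))) (F 256 w1_53))))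
noncomputable def w1_55 : Tr := (F 2098208 (S (F 7077888 (T (F 3115 (U (F 8456 (V (K 6) (F 1026 (S (K 4) (U (K 4) (T (K 4) (F 3 (U (K 5) (V (K 5) (F 64 (S (S (K 1) L) (F 1 (T L L))))))))))))) (F 8192 w1_0))) (F 137224 (U (F 6273 w1_4) (F 102534 w1_15))))) (F 4195080 (T (F 8483 (U (F 8203 (U (S (K 9) (F 8 (V (K 2) (F 258 (T (F 256 (V (K 0) L)) (F 262 (U L L))))))) (F 1 (T (F 768 (V (F 1 (T (K 2) (S (K 2) (F 3 (U (K 5) (S (K 5) (F 8 (V (T (K 0) L) (V L L))))))))) (U (F 128 (S (K 1) (F 129 (T (V (K 5) L) (T L L))))) (F 128 (S (V (K 1) (F 64 (T (S (K 5) L) (F 65 (S L (S L L)))))) (F 129 (T (V (T (S (K 5) L) (T L L)) (F 1 (U (T (S L L) (S L L)) (S (S L L) (T (T L L) (V L (S L L))))))) (V (S (T L L) (T (V L L) (F 1 (V L L)))) (F 1 (U (T L (S L L)) (S (T (S L L) (S L L)) (V (T (S L L) (S L L)) (T L L))))))))))))) (F 1 w1_16))))) (F 40963 (T (F 5 (V (F 3 w1_17) (F 516 w1_19))) (F 2051 (U (F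 1 w1_22) (F 1 (V (F 1 w1_23) (F 128 w1_24))))))))) (F 1703936 w1_54)))))
noncomputable def w1_56 : Tr := (V (F 64 (T (U (F 128 (S (F 8 (T L (F 1 (V L L)))) (T (F 72 (S L L)) (F 72 (V L (S L L)))))) (F 9 (S (F 1 (S L L)) (V L L)))) (F 136 (U (S (V (F 32 (T (S L L) (S (S L L) (S L L)))) (T (S L L) (F 32 (S (S L L) (S L L))))) (F 32 (V (T (S L L) (S (S L L) (V L L))) (T (S L (S L L)) (S (S L L) (V L L)))))) (F 32 (S (V (S L L) (S L L)) (V (T L (S L L)) (T L (S L L))))))))) (F 1 (T (U (F 4 (S (F 8 (V (U (S L L) L) (T L (S L L)))) (V (F 64 (T L (F 4 (S L L)))) (T (F 32 (S L L)) (F 8 (S L L)))))) (S (F 20 (V L L)) (F 4 (T L (F 8 (S L L)))))) (F 20 (U (S (V (U (T (S L L) (F 32 (S L L))) (T L L)) (T (V (S L L) L) (U (S L L) L))) (F 32 (V (T (U (S L L) L) (U (S (S L L) L) (S L L))) (T (S L (S L L)) (U (S L L) L))))) (S (V (S L L) (T L (S L L))) (F 32 (V (T L L) (T L (S L L))))))))))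
noncomputable def w1_57 : Tr := (V (T (F 1 (U (S (F 64 (V (T L (F 8 (S L L))) (T L (F 8 (S L L))))) (V (T (S L L) (F 68 (S L L))) (F 64 (T (S L L) (F 8 (V (S L L) (S L L))))))) (V (S (F 4 (S L L)) (T L L)) (F 64 (S (S L L) (T L L)))))) (F 34 (S (F 32 (U (V (T (U (S L L) L) (S (V L L) (V L L))) (T (U (S L L) (S L L)) (S (V L L) (V L L)))) (V (T L (S L L)) (T L (S L L))))) (F 32 (U (V (T (U (S L L) (S L L)) (U (V (S L L) (S L L)) (S L L))) (T (U (V (S L L) (S L L)) (S L L)) (V (S L L) (S L L)))) (V (T L (S L L)) (T (S L L) (S L L)))))))) (F 2 (T (F 64 (U (S (V (T (S L L) (F 8 (V L L))) (F 32 (U (T L (F 2 (S L L))) (S L L)))) (V (T (F 32 (S L L)) (F 8 (U (S L L) L))) (F 32 (T (U (S L L) L) (F 2 (U (S L L) L)))))) (S (V (S L L) (F 32 (S L L))) (V (T L L) (F 32 (T L L)))))) (F 4 (S (F 1 (U (V (T (U (V L L) (S L L)) (S (U (S L L) L) (V L L))) (U (T (S L L) (S L (S L L))) (T L (S L L)))) (V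 (T L (S L L)) (T L L)))) (U (V (T (F 1 (V (S L L) (S L L))) (S (F 1 (V L L)) (U (V L L) L))) (T (F 33 (U (T L (S L L)) L)) (U (S (S L L) (F 32 (S L L))) (S L L)))) (V (T (F 1 (S L L)) (S L L)) (S L (F 32 (S L L))))))))))
noncomputable def w1_58 : Tr := (T (F 33 (U (T (F 2 (S (V L (F 128 (U (F 512 (S L (S L L))) L))) (F 1024 (V (F 10 (S L (F 192 (T L (S L L))))) (F 4 (U (F 1 (T (F 2 (S L L)) (F 3 (S L (F 32 (S L L)))))) (T L (F 384 (S L L))))))))) (F 7 (S (V (F 64 (U (V L (F 128 (S L L))) (S L L))) (F 1 (U (V (F 4 (S L (S L L))) (F 66 (S L (S L L)))) (S L L)))) (V (F 320 (U (V (S L (T L L)) (S L (T L L))) (S L (T L L)))) (F 1 (U (F 4 (S (F 32 (T L (F 1 (V L L)))) (F 96 (V (T L L) (T L (S L L)))))) (F 3 (S (S L L) (F 32 (V L L)))))))))) (F 2 (T (S (S L L) (F 1408 (V L (F 128 (S L L))))) (F 1536 (S (V L (F 256 (S L L))) (F 1 (V (F 64 (V L (S L L))) (F 128 (U (S L L) L)))))))))) (F 14368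 (U (S (F 512 w1_56) (F 5 w1_57)) (S (F 784 (V (F 16 (T (F 1 (S L (S L L))) (F 1 (U (S (S L L) (T L L)) (S L L))))) (T (U (S L L) L) (U (F 16 (S (S L L) (F 1 (S L L)))) (S L L))))) (F 1 (V (F 129 (T (U (S L (T L L)) (F 4 (S L L))) (F 4 (U (S (F 1 (V L L)) (V L L)) (F 1 (S L L)))))) (F 2 (U (F 2 (T (F 1 (S (F 4 (S L L)) (F 1 (S L L)))) (F 16 (S (F 32 (T L L)) (F 32 (V L L)))))) (F 136 (T (S L L) (S L L)))))))))))
noncomputable def w1_59 : Tr := (V (S (U (V (S (F 1 (T L (T L L))) (F 1 (T (S L L) (U (S L L) L)))) (F 1 (T (S L (S L L)) (S (S L L) (V L L))))) (F 1 (T (V L (S L L)) (S (S L L) (V L L))))) (F 1 (U (V (T (F 8 (S (U (S L L) L) (U (T L (S L L)) (S L L)))) (U (S (T L L) (F 8 (T (S L L) L))) (S (S L L) (F 8 (S L L))))) (T (S (U (S L L) L) (U (T L L) (S L L))) (S (U (T L L) L) (U (T L L) (S L L))))) (T (S (V L (S L L)) (V (S L L) (T L L))) (S (V (S L L) (S L L)) (V (S L L) (S L L)))))))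 (F 1 (S (F 1 (U (V (T (S L (S L L)) (S (S L L) (V L L))) (S (T (S L L) (S L L)) (T (S L L) (V L L)))) (V (T (S L L) (S L L)) (S (S L L) (S L L))))) (U (V (T (S (V (S L L) L) (U (S L L) L)) (F 1 (S (V (S L L) L) (V (S L L) L)))) (F 1 (S (T (S L L) (V L L)) (T (S L L) (S L L))))) (V (T (S L L) (F 1 (S L L))) (F 1 (S (S L L) (S L L))))))))
noncomputable def w1_60 : Tr := (U (T (F 3075 (S (V (F 1 (U (F 16 (T (S L (V L L)) (S (S L L) (V (S L L) (T L L))))) (F 16 (T (S L L) (V L L))))) (F 8 (U (F 64 (V (T (S L L) (S L (S L L))) (F 32 (T (S L L) (S L (S L L)))))) (T (F 64 (V L L)) (F 64 (V (S L L) L)))))) (F 9 (V (U (T (V (F 8 (S (S L L) (T (S L L) (S L L)))) (S (U (S L L) L) (U (F 8 (S L L)) L))) (V (F 8 (S (T L L) (U (T L L) (S L L)))) (U (S (T L L) (F 8 (T L L))) (S L (S L L))))) (T (F 8 (V (S L L) (S L L))) (V (S L L) (S L L)))) (U (T (V (S (T L L) (T L (S L L))) (S (F 1 (S L L)) (T (S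 L L) L))) (V (S (T L L) (U (S L L) L)) (F 1 (S (S L L) (S L L))))) (V (T (S L (S L L)) (S L L)) (T (S L L) (F 1 (S L L))))))))) (F 2627 w1_59)) (F 3139 (T (V (F 1 (S (T L (S L L)) (U (T (F 8 (S L L)) (S L L)) (S L L)))) (S (U (S L L) L) (U (F 1 (T (S L L) (S L L))) (S L L)))) (S (V (F 1 (U (T L (S L L)) L)) (U (F 1 (V (S L L) (F 1 (S L L)))) L)) (V (F 1 (U (T (S L L) (S L L)) (S L L))) (U (F 1 (V (S L L) (F 1 (S L L)))) (S L L)))))))
noncomputable def w1_61 : Tr := (T (F 128 (U (V (T (S (U (S L L) L) (F 64 (U (S L L) (S L L)))) (F 16 (S (U (T L L) (S L L)) (F 1 (U (V L L) L))))) (F 1 (S (T (F 1 (V L L)) (F 4 (S (F 16 (S L L)) (F 16 (S L L))))) (F 1 (T (U (S L L) L) (F 8 (U (S L L) L))))))) (V (S (T L (F 16 (S L L))) (F 64 (T (S L L) (F 2 (S L L))))) (F 1 (S (F 1 (T L L)) (F 1 (T L L))))))) (F 68 (U (S (V (T (F 1 (U (S L (T L L)) (S L L))) (U (S (F 1 (S L L)) (F 1 (V L L))) (S L L)))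 (T (F 1 (S (V L L) (F 1 (V L L)))) (S (V (F 1 (S L L)) (S L L)) (F 32 (U (T L L) L))))) (F 32 (T (V (F 16 (U (V L (S L L)) L)) (V (F 16 (T L L)) (S L L))) (V (U (S (T L L) (S L L)) (S L L)) (U (V (S L L) (S L L)) (S L L)))))) (S (V (F 1 (T L (S L L))) (T (F 1 (S L L)) (S L L))) (F 32 (V (T L (S L L)) (T (S L L) (S L L))))))))
noncomputable def w1_62 : Tr := (T (F 64 (U (V (F 32 (S (T (V (S L L) (S L L)) (F 8 (U (S L L) L))) (T (U (S L L) L) (F 8 (U (S L L) L))))) (S (F 32 (T (U (S L L) L) (F 8 (U (S L L) L)))) (T (F 32 (U (S L L) L)) (F 2 (U (S L L) L))))) (S (F 32 (V (T L L) (T L L))) (F 32 (V (T L L) (T L L)))))) (F 16 (S (U (V (T (F 1 (U (S (F 1 (S L L)) L) (F 1 (S L L)))) (S (F 1 (V (S L L) L)) (F 1 (V (S L L) L)))) (F 1 (T (S (F 1 (S L L)) (V L L)) (U (V (S L L) (S L L)) (S L L))))) (F 1 (V (T (F 1 (S L L)) (S L L)) (T (S L L) (S L L))))) (F 1 (U (V (T (V (S (S L L) L) (S L L))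 (S (V (S L L) (S L L)) (V (S L L) (S L L)))) (T (U (V (S L L) L) (S L L)) (S (V L L) (V L L)))) (V (T (S L L) (S L L)) (T (S L L) (S L L))))))))
noncomputable def w1_63 : Tr := (V (U (T (V (S (F 1 (U (S L (F 32 (S L L))) (F 32 (S L L)))) (V (F 34 (S L L)) (F 5 (S L L)))) (F 5 (S (U (V (S L L) (S L L)) (S L L)) (U (S (S L L) L) (S L L))))) (F 4 (V (S (F 32 (U (S (S L L) (S L L)) (S L L))) (U (S (S L L) (S L L)) (S L L))) (F 32 (S (U (S (S L L) (T L L)) (S L L)) (U (S (T L L) (S L L)) (S L L))))))) (S (F 1 (T (V (F 32 (S L L)) (F 16 (S L L))) (F 16 (V (S L L) (S L L))))) (T (V (S L L) L) (F 4 (V (S L L) (F 32 (S L L))))))) (F 4 (U (S (F 32 (V (T (U (V (S L L) (S L L)) (S L L)) (S (V (S L L) L) (V L L))) (T (V (S L L) (S L L)) (S (V L L) (V L L))))) (V (T (F 32 (U (S L L) (S L L))) (F 32 (S (V L L) (T L L)))) (F 32 (T (U (S L L) (S L L)) (S (T L L) (T L L)))))) (F 32 (S (V (T (S L L) (S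 L L)) (T (S L L) (S L L))) (V (T L (S L L)) (T L (S L L))))))))
noncomputable def w1_64 : Tr := (U (F 2 (S (F 1 (V w1_61 (F 64 w1_62))) (F 256 (T (V (U (T (F 192 (V (S (U (V (S L L) (S L L)) (S L L)) (F 8 (U (T L (S L L)) L))) (S (U (T (S L L) L) (S L L)) (U (V (S L L) L) (S L L))))) (F 2 (V (F 2 (S (F 32 (U (V (S L L) (S L L)) (S L L))) (F 32 (U (V L L) (S L L))))) (F 5 (S (F 16 (U (T L L) L)) (F 16 (U (S L L) L))))))) (T (F 192 (V (U (S L L) (S L L)) (S L L))) (F 130 (S (F 1 (V (T L L) L)) (F 1 (V (S L L) L)))))) (F 160 (U (S (V (T (F 1 (U (S L L) L)) (F 16 (V (F 16 (S L L)) (S L L)))) (T (F 1 (V (S L L) L)) (F 16 (U (S L L) L)))) (V (T (F 1 (V (S L L) (S L L))) (F 16 (U (S L L) L))) (T (S L L) (F 16 (V (S L L) L))))) (S (V (T L (F 16 (S L L))) (T L L)) (V (T L L) (T L L)))))) (F 2 w1_63))))) (S (F 512 (V (F 128 (T (F 129 (U (T (S L L) (F 16 (S L L))) (F 16 (S L L)))) (F 4 (U (S (V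 L L) (F 64 (T (F 32 (S L L)) (F 16 (S L L))))) (F 66 (S L L)))))) (F 256 (T (F 128 (U (F 65 (V (S L L) (S L L))) (F 17 (S L L)))) (F 68 (U (F 32 (S (V L L) (V (S L L) L))) (F 32 (S L L)))))))) (F 1 (T (V (F 256 (U (T (F 192 (S L L)) (F 130 (S L L))) (F 194 (S L L)))) (F 1 (U (F 65 (S (T L L) (T L L))) (F 5 (S L L))))) (F 320 (V (U (S (F 64 (V (S L L) L)) (V (S L L) L)) (S L L)) (F 80 (U (S (V L L) (T L L)) (S L L)))))))))
noncomputable def treeW1 : Tr := (F 0xffffffffffffffffffffffffffffffffe679fce667399e6673 (U w1_55 (F 16977151 (S (F 16384 w1_58) (F 11 (T w1_60 (F 2112 w1_64)))))))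

theorem pW1 : chkW par treeW1 128 128 128 128 128 128 349525 699051 Lc = true := by decide +kernel

noncomputable def w2_0 : Tr := (V (F 256 (U (T (S (T (S L L) (S L L)) (F 256 (T (S L L) (S L L)))) (S (U L (T (S L L) L)) (F 256 (U L (F 1 (S L L)))))) (T (S (S (V L L) (F 256 (V L L))) (F 256 (V (U (S L L) (T L (S L L))) (T (S L L) (S L L))))) (F 256 (S (V (T (S L L) (F 1 (S L L))) (T (S L L) (F 1 (S L L)))) (F 1 (V (U (S L L) (T (S L L) (S L L))) (T (S L L) (S L L))))))))) (T (S (V (T (U (S L L) (S L L)) (U (S L L) (F 256 (S L L)))) (U (T (S L L) (S L L)) (S L (F 1 (S L L))))) (U (V (T L L) (T L L)) (F 1 (V (F 2 (T (S L L) (S L L))) (T (S L L) (S L L)))))) (U (S (V (S (T L L) (F 1 (T L L))) (U (S L L) (F 1 (S L L)))) (F 1 (V (F 2 (S L (K 6))) (S L (K 2))))) (F 1 (S (V (F 2 (T (S L L) (F 1 (S L L)))) (T (S L L) (F 256 (S L L)))) (F 256 (V (F 64 (T (S L L) (S L L))) (V (F 64 (S L L))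 (T L L)))))))))
noncomputable def w2_1 : Tr := (V (F 256 (U (S (T (S (S L L) (U L (S L L))) (U L (F 128 (S L L)))) (T (U (S L L) (F 128 (S (S L L) (F 1 (S L L))))) (F 384 (U L (S L L))))) (S (T (S (V L L) (V (S L L) (S L L))) (F 128 (V (S (S L L) (T L L)) (S (S L L) (F 1 (T L L)))))) (F 128 (T (S (V (S L L) (S L L)) (F 1 (V (S L L) (S L L)))) (F 1 (V (S (T L L) (T L (S L L))) (S (T L L) (T L L))))))))) (S (T (V (S (U (S L L) (S L L)) (U (S L L) (F 256 (S L L)))) (U (S (S L L) (S L L)) (T L (F 2 (S L L))))) (U (V (S L L) (S L L)) (F 2 (V (F 2 (S (S L L) (T L L))) (S (T L L) (T L L)))))) (U (T (V (U (S L L) (F 2 (S L L))) (U (S L L) (F 2 (S L L)))) (F 2 (V (F 258 (S L L)) (S L L)))) (F 2 (T (V (F 2 (S (S L L) (F 1 (S L L)))) (S (S L L) (F 256 (S L L)))) (F 256 (V (F 64 (S (T L L) (T L L))) (S (T L L) (V L L)))))))))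
noncomputable def w2_2 : Tr := (S (F 1 (V (F 256 (V (K 4) (U (T (K 4) (F 128 (S (K 3) L))) (S (T L (F 128 (S L L))) (F 128 (T (S L L) (F 1 (S L (S L L))))))))) w2_1)) (F 1 (U (F 1 (V (F 2 (S (F 1 (S L L)) L)) (V (F 2 (U L (F 1 (T (S (T (S L L) (S L L)) (S L (K 1))) L)))) (T (V (V (F 2 (S L (K 6))) L) (F 256 (S L L))) (F 256 (S L L)))))) (F 3 (V (F 2 (T (V (K 2) (S (S L (T L L)) (T L L))) (V L (U (T L L) (S (S L (T L (S L L))) (T L L)))))) (V (F 2 (T (S (V (S (T L L) (T L (S L L))) (S (T L L) (T L L))) (V (U (S L (K 5)) (T L L)) (T (S L L) L))) (V (S (U (T (S L L) L) (S (T L L) (T L L))) (U L (T L L))) (S (U (S L L) (S (T L L) (T L L))) (T L L))))) (V (F 2 (T (S (S (T L L) (T L L)) (T (S L L) L)) (S (U L (S (S L L) (T L L))) L))) (T (S (T (S L L) (S L L)) (F 2 (T (S L L) (S L L)))) (F 2 (S (U L (S L L)) L))))))))))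
noncomputable def w2_3 : Tr := (T (S (V (F 2 (V (T (S L L) (F 2 (S L L))) (T (S L L) (F 2 (S L L))))) (U (V (F 2 (T (S L L) (F 2 (S L L)))) (T L L)) (F 2 (T (S L L) (F 2 (S L (S L L))))))) (F 256 (V (F 128 (V (U (S (S L L) (F 128 (S L L))) (F 128 (S L L))) (S (T L L) (F 128 (U (S L L) L))))) (U (V (F 128 (S (T L L) (F 128 (U (S L L) L)))) (S (S L L) (F 129 (S L L)))) (F 128 (S (T L (F 128 (S L L))) (F 128 (V L (F 64 (T L L)))))))))) (F 258 (S (V (V (S (U (S L L) (S L L)) (F 1 (U (S L L) (S L L)))) (S (T (S L L) (F 1 (S L L))) (F 1 (U (S L L) (S L L))))) (U (V (U (S (S L L) (T L L)) (S L (S L L))) (S (S L L) (S L L))) (V (S (S L L) (F 1 (S L L))) (F 128 (U (S L (S L L)) (S L L)))))) (F 1 (V (V (U (S (T L L) (T L (S L L))) (S (S L L) (T L L))) (S (U (T L L) (S L L)) (U (T L (S L L)) (T L L)))) (U (V (U (S (T L L) (V (S L L) L)) (S (S L L) (S L L))) (S (T L L) (T L L))) (S (T (V L L) (F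 1 (V L (S L L)))) (F 1 (T (V L (S L L)) (V L (U L L)))))))))))
noncomputable def w2_4 : Tr := (T (V (F 2 (S (T (S L L) (U L (S L L))) (T (U L (S L L)) (V L (U (S L L) (S L (S L L))))))) (S (T (V (F 2 (S (T L L) (T L L))) (U (V (F 2 (S L L)) L) (F 2 (S L L)))) (V (F 2 (V (S (S L L) (S L L)) (S L (S L L)))) (U (V (F 2 (S L (S L L))) (S L L)) (F 2 (S L (S L L)))))) (T (V (F 2 (S (V (S L L) L) (V (S L L) (S L L)))) (U (V (F 2 (T L (S L L))) (S L L)) (F 2 (T L (S L L))))) (V (F 2 (V (U (S L L) (S L L)) (S (S L L) (T L L)))) (U (V (F 2 (U (S L L) (S L L))) (S L L)) (F 2 (S (S L L) (T L (S L L))))))))) (V (F 2 (S (T (V L (U (S L L) (T (S L L) (F 2 (S L L))))) (F 2 (U (S (S L L) (F 128 (S L L))) (V L (V (F 128 (S L L)) (S L L)))))) (F 3 (T (V (S L L) (U (S L (S L L)) (V (S L L) (S L L)))) (U (V L (S (U L (S L L)) (V L (T L (S L L))))) (V (S L L) (V (S (S L L) (T L L)) (S (S L L) (T L L)))))))))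 w2_3))
noncomputable def w2_5 : Tr := (S (T (V (F 2 (V (S (T L L) (F 1 (T L L))) (S (T L L) (F 1 (T L L))))) (U (V (F 2 (U (S L L) (S L L))) (S L L)) (F 2 (S (T L L) (F 1 (T L L)))))) (F 512 (V (F 128 (V (U (T (S L L) (F 128 (S L L))) (T L L)) (T (U (S L L) L) (F 128 (U (S L L) L))))) (U (V (F 128 (U (T L (F 128 (S L L))) (S L L))) (T (S L L) (F 129 (S L L)))) (F 128 (T (S L (S L L)) (F 128 (S (S L L) (V L L))))))))) (F 514 (T (V (V (U (T (S L L) (S L L)) (S L (S L L))) (U (T (S L L) (S L L)) (S (S L L) (T L L)))) (U (V (U (T (S L L) (S L L)) (T L L)) (T (S L L) (S L L))) (V (S (S L L) (T L L)) (F 128 (U (T L (S L L)) (S L L)))))) (F 1 (V (V (U (T (S L (S L L)) (S L (T L L))) (T (S L L) (S L (S L L)))) (U (T (S L L) (S L (S L L))) (T (S L L) (S L L)))) (U (V (U (T (S L L) (S L (S L L))) (T (S L L) (S L L))) (T (S L L) (S L L))) (T (S (S L L) (F 1 (V L (S L L)))) (F 1 (S (V L (S L L))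 (V L (U L L)))))))))))
noncomputable def w2_6 : Tr := (S (T (U (V L (S (U L L) (V L (T L (S L L))))) (V (S L L) (V (S (S L L) (T L L)) (S (S L L) (T L L))))) (U (V (S L L) (S (V (U L L) (T (S L L) (S L L))) (U (T L (V L (S L L))) (V (T L (S L L)) (T L L))))) (V (V (F 2 (S L L)) (S (U L L) (U L (F 64 (S L L))))) (V (S (T L (S L L)) (T (S L L) (F 64 (S L L)))) (S (T L (S L L)) (T (S L L) (F 64 (S L L)))))))) (U (T (V (F 1 (S L L)) (U (S (T L (S L L)) (F 1 (T L (S L L)))) (V (T (S L L) (F 1 (S L L))) (T (S L L) (S L (S L L)))))) (V (F 3 (U L (S L L))) (V (F 1 (U (T L (S L L)) (S (T L L) (F 1 (T L L))))) (S (T (U (S L L) (S L L)) (V L (S L L))) (F 1 (U (T L L) (F 1 (T L L)))))))) (T (V (V L (U (S L L) (F 1 (S L L)))) (V (T (F 1 (S L (S L L))) (S (S L L) L)) (S (T L (S L L)) (F 1 (T (S L L) (F 1 (S L L))))))) (F 64 (V (F 32 (V (F 1 (S L L)) (S (T L (S L L)) (T (S L L) (F 1 (S L L)))))) (V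 (S (T (S L L) (S L L)) (F 32 (T (S L L) (S L L)))) (S (T (S L L) (V L L)) (U (F 32 (T L L)) (F 32 (S L L))))))))))
noncomputable def w2_7 : Tr := (T (V (V (U (S (T (S L L) (S L L)) (T (V L L) (U L (S L L)))) (S (T L (S L L)) (F 64 (T L L)))) (U (S (T L (S L L)) (T (S L L) (V L L))) (S (T L L) (F 64 (T L (S L L)))))) (U (V (U (V (T (S L L) (S L L)) (S L L)) (T (S L L) (F 64 (S L L)))) (F 64 (T (S L (S L L)) (S L (S L L))))) (F 64 (T (S (V L (V L L)) (V L (U L L))) (V (S L (S L L)) (U (S L L) (S L (S L L)))))))) (V (U (V (S (T (U L L) (U (S L L) L)) (U (T L L) (F 64 (T L (S L L))))) (S (T (S L L) (F 64 (S L L))) (F 64 (U (S L L) (T L (S L L)))))) (F 64 (V (S (T (S L L) (S L L)) (T (F 32 (S L L)) (F 32 (S L L)))) (S (T (S L L) (S L L)) (T (S L L) (S L L)))))) (F 64 (U (V (U (V (T L (S L L)) (S L L)) (S (T L L) (T L L))) (U (T (S L L) (S L L)) (T (S L L) (S L L)))) (V (S (T (S L L) (S L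 L)) (T (S L L) (V L L))) (U (T (S L L) (S L L)) (S (V (S L L) L) (V (T L L) L))))))))
noncomputable def w2_8 : Tr := (V w2_6 (S (T (V (V (U (S (T L L) (T L (S L L))) (S (S L L) (T L L))) (U (S (T L L) (T L L)) (S (S L L) (T L L)))) (U (V (U (S (T L L) (T L L)) (S L (S L L))) (S (T L L) (T L L))) (S (T (V L L) (F 64 (V L (S L L)))) (F 64 (T (V L (S L L)) (V L (V L L))))))) (V (V (U (S (T (S L L) (S L L)) (T (S L L) (V L L))) (T (S L (S L L)) (F 64 (S L (S L L))))) (U (S (T L (S L L)) (T (S L L) (S L L))) (S (T L L) (F 64 (T L (S L L)))))) (U (V (U (S (T L (S L L)) (V (S L L) L)) (S (T L L) (F 64 (T L L)))) (F 64 (S (T L (S L L)) (T L (S L L))))) (F 64 (S (T (V L (V L L)) (V (S L L) (U L L))) (V (T L (S L L)) (V (U L (S L L)) (S L L)))))))) w2_7))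
noncomputable def w2_9 : Tr := (U (F 256 (T (S (V (F 5 (U (K 4) (U (K 4) (V (K 4) (V (K 4) (V (K 4) (S (S (K 4) L) (T L L)))))))) (S (T (V (F 5 (U (S L L) (S (S L L) (S L L)))) (V (F 1 (T (S L L) (S L L))) (U (S L L) (F 1 (S L L))))) (F 1 (V (F 256 (U (S L (S L L)) (S (S L L) (T L L)))) (V (T (S L L) (S L L)) (T (S L L) (S L L)))))) (V (F 5 (T (U (T L L) (T (S L L) (S L L))) (U (S (S L L) (T L L)) (T (S L L) (S L (F 1 (S L L))))))) (T (F 1 (V (S (T L L) (T L L)) (S (T L L) (T L L)))) (F 1 (V (S (U (S L L) L) (U (S L L) L)) (S (U L L) (T L (V L L))))))))) (F 1 (V (F 256 (V (K 4) (U (T (K 4) (F 256 (S (K 3) L))) (S (T L (S L L)) (F 256 (T (T L L) (F 1 (T L L)))))))) w2_0))) w2_2)) (F 2304 (S w2_4 (T (V (F 2 (T (S (V L (U (S L L) (T L (F 1 (S L L))))) (F 1 (U (S (S L L) (F 64 (T L L))) (V L (V (T L L) (S L (F 64 (S L L)))))))) (F 1 (S (V (S L L) (U (T L (F 128 (S L L))) (T (V L L) (F 128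 (V L L))))) (F 128 (U (V L (S (T L (S L L)) (F 1 (V L (T L (S L L)))))) (V (F 1 (S L L)) (V (T L (F 1 (S L L))) (S (T L L) (F 1 (T L L))))))))))) w2_5) (F 770 w2_8)))))
noncomputable def w2_10 : Tr := (V (S (T (V (S L L) (S (T L L) (F 2 (T L L)))) (F 3 (V (U (S L L) (F 1 (S L L))) (U (V (S L L) (S L L)) (F 1 (S L L)))))) (F 3 (V (T (U L (F 1 (S L L))) (U (S (S L L) (F 1 (T L L))) (F 1 (V L (S L L))))) (T (U (V (S L L) (S L L)) (F 1 (S L L))) (U (S (V L L) (F 1 (V L L))) (F 1 (V (S L L) (S L L)))))))) (V (S (T (U (V (S L L) (S L L)) (F 256 (S L L))) (F 2 (U (S (V L L) (F 128 (V L L))) (F 1 (S (S L L) (F 1 (S L L))))))) (F 2 (T (U (V (F 128 (S L L)) (S L L)) (F 129 (V L L))) (F 128 (V (S (F 64 (U L L)) (F 64 (U (S L L) L))) (F 64 (S (U L L) (U (S L L) L)))))))) (S (U (T (V (S L L) (F 256 (S L L))) (F 258 (V (S L L) (U (S L L) (S L L))))) (F 256 (T (S L L) (F 64 (V (S L L) (S L L))))))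 (F 258 (U (T (V (S L L) (S (S L L) (F 64 (S L L)))) (F 64 (V (S (S L L) (S L L)) (U (S L L) (S L (S L L)))))) (T (V (S L L) (S L L)) (F 64 (V (S L L) (S L L)))))))))
noncomputable def w2_11 : Tr := (T (F 4 (T (V (F 1 (S (U L L) (F 64 (U (S L L) (F 64 (S L L)))))) (S (T (S L L) (F 1 (V L L))) (F 1 (U (V (S L L) (S L L)) (F 1 (V L (S L L))))))) (F 1 (V (S (U (S L L) (F 1 (S L L))) (F 192 (U (T L (F 32 (S L L))) (F 32 (V L L))))) (S (U (V (S L L) (S L L)) (F 1 (S L L))) (F 128 (U (S (T L L) (F 65 (V L L))) (F 64 (V (S L L) (S L L)))))))))) (F 772 (V (S (T (U (S L (F 64 (S L L))) (F 64 (V L L))) (F 64 (U (V (F 16 (U L (S L L))) (S (S L L) (S L L))) (V (F 16 (S L L)) (S L L))))) (F 65 (T (U (V (F 16 (S L L)) (T L (S L L))) (V L (S L L))) (U (V (F 16 (S (S L L) (S L L))) (S (T L L) (T L (S L L)))) (V (F 16 (S L L)) (S L (S L L))))))) (S (T (U (V (S L L) (S L L)) (F 64 (V (S L L) (S L L))))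 (F 64 (U (V (S (S L L) (T L L)) (S (S L L) (T L L))) (V (S L (S L L)) (S L (S L L)))))) (F 64 (T (U (V (T (F 32 (S L L)) (F 32 (S L L))) (S (S L L) (F 32 (T L L)))) (V (S L L) (S L L))) (V (F 32 (U (S (T L L) (T L L)) (S (S L L) (S L L)))) (U (S (T L (S L L)) (F 32 (T L (S L L)))) (S (S L L) (F 32 (S L L)))))))))))
noncomputable def w2_12 : Tr := (V (S (T (V (U (S L L) (F 1 (S L L))) (F 1 (U (S L (S L L)) (S L L)))) (F 1 (V (U (S (S L L) (T L L)) (S L (S L L))) (U (S (S L L) (T L L)) (S (S L L) (S L L)))))) (F 1 (T (V (U (T (S L L) (S L L)) (S (S L L) (S L L))) (U (S (T L L) (T L L)) (S (S L L) (T L L)))) (V (S (U (T L (S L L)) (T L L)) (F 1 (U (T L L) (S L L)))) (U (S (T L (S L L)) (T (S L L) (S L L))) (S (T L L) (T L L))))))) (F 1 (U (S (T (V (S L (S L L)) (U (S L L) (S L (S L L)))) (V (S (T L L) (T L L)) (U (S (S L L) (S L L)) (S (S L L) (T L L))))) (T (V (S (T L L) (T L L)) (U (T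 (S L L) (S L L)) (S (S L L) (T L L)))) (V (S (T L (S L L)) (T (S L L) (S L L))) (U (S (T L L) (T L L)) (T (S L L) (S L (S L L))))))) (S (T (V (S L L) (S L L)) (V (S (S L L) (T L L)) (T (S L L) (S L L)))) (T (V (S (S L L) (T L L)) (S (S L L) (T L L))) (V (S (T L L) (T L L)) (T (S L L) (S L L))))))))
noncomputable def w2_13 : Tr := (S (F 4 (T (V (S (T (V L (S L L)) (V L (S L (S L L)))) (T (V L (T L (S L L))) (V (S L L) (S (T L L) (F 1 (T L L)))))) (V (S (T (S L L) (S (S L L) (T L L))) (T (V (S L L) (S L L)) (U (S L (S L L)) (F 256 (S L L))))) (S (U (T (S L L) (V L (F 256 (S L L)))) (F 256 (T L (S L L)))) (U (T (V L (F 256 (S L L))) (V (S L L) (F 256 (S L L)))) (F 256 (T L (S L L))))))) w2_10)) (V w2_11 (F 4 (T (V (T (S (U (V (S L L) (S L L)) (F 256 (S L L))) (F 1 (U (V (T L (S L L)) (T L L)) (F 1 (V (S L L) (S L L)))))) (F 1 (S (U (V (S L L) (S L L)) (F 1 (V L L))) (F 128 (V (U (T L (F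 64 (S L L))) (F 64 (S L L))) (F 64 (U (T L (S L L)) (S L L)))))))) (T (U (S (V (S L L) (F 256 (S L L))) (F 257 (V (T L L) (U (S L L) (S L L))))) (F 256 (S (S L L) (F 128 (V (S L L) (S L L)))))) (F 257 (U (S (V (S L L) (S (S L L) (F 64 (S L L)))) (F 64 (V (T L (S L L)) (U (S L L) (T L (S L L)))))) (S (V (S L L) (S L L)) (F 64 (V (T L L) (T L L)))))))) (F 3 w2_12)))))
noncomputable def w2_14 : Tr := (V (V (S (F 2 (T (U (S L L) L) (U (V (S L L) (S L L)) (S L L)))) (F 64 (T (F 16 (U (V L L) (S L L))) (U (V (F 1 (S L L)) (F 16 (S L L))) (V L L))))) (F 2 (S (T (U (V L L) (S L L)) (U (V (S L L) (S L L)) (S L L))) (T (V (F 1 (U L L)) (U (S L L) L)) (V (F 1 (U (S L L) L)) (U (S L L) (S L L))))))) (F 2 (S (T (V (U (V L (S L L)) (V L (S L L))) (U (S (S L L) (T L L)) (S L L))) (V (U (V (S L L) (S L L)) (V L (S L L))) (U (S (T L (S L L)) (V (T L L) L)) (V (S L L) (S L L))))) (T (V (U (V (S L L) (S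 L L)) (V L (S L L))) (U (T (S L (S L L)) (V (S L L) (S L L))) (V (S L L) (S L L)))) (V (U (V (S L L) (S L (S L L))) (V (S L L) (U (S L L) L))) (U (V (U (S (S L L) (S L L)) (S L L)) (S (S L L) (S L L))) (V (S L L) (S L L))))))))
noncomputable def w2_15 : Tr := (S (F 66 (T (V (S (T (S L L) (V L L)) (V (T L L) (T L (S L L)))) (S (T (V (S L L) L) (V (U L L) (S L L))) (T (V (U L L) (S L L)) (V (U L L) (S L (S L L)))))) (V (S (V (F 2 (T L (F 64 (S L L)))) (T (S L L) (F 3 (V L (S L L))))) (F 3 (V (T (S L L) (U (S L L) L)) (T (S L L) (U (S L L) (S L L)))))) (S (T (V (U (S L L) (S L L)) (S L L)) (F 2 (V (U (S L L) (S L L)) (S (U (S L L) L) (F 64 (U (S L L) L)))))) (F 2 (T (V (F 64 (U (S L L) (S L L))) (U (S L L) L)) (F 64 (V (U (V (S L L) (S L L)) (V L (S L L))) (U (V (S L (S L L)) (S L L)) (V L L)))))))))) (F 64 (T (F 128 (V (V (F 128 (T (S L (F 2 (S L L))) (S (S L L) (F 3 (V L L))))) (T (S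 (S L L) (F 128 (V L (S L L)))) (F 128 (S (S L L) (F 1 (U (S L L) (S L L))))))) (T (S (V (U (S L L) (S L L)) (T L L)) (F 128 (V (U (V L L) (T L L)) (U (S L (S L L)) (S L L))))) (F 128 (S (V (U (S L L) (S L L)) (S (S L L) (F 1 (T L L)))) (F 1 (V (U (V (S L L) (S L L)) (V L (S L L))) (U (S (T L L) (T L L)) (V L L))))))))) (F 3 w2_14))))
noncomputable def w2_16 : Tr := (S (F 32 (V (F 513 (U (F 4 (T (F 258 (S L L)) L)) (F 5 (T (F 2 (S (U L (T (S L L) L)) (U (S L L) (T (S L (S L L)) L)))) (F 16 (S L (S L L))))))) (F 2052 (T (F 4 (V (F 128 (U (F 128 (T (S (S L L) (S L L)) (K 4))) (S (T (V (F 128 (S (S L L) (S L L))) (S (S L L) L)) (F 136 (V L L))) (F 128 (T (V (S (S L L) (S L L)) (S L L)) (F 8 (S L L))))))) (S (T (U (S (K 5) (K 5)) (F 1 (V (F 2 (S L L)) (S L L)))) (K 5)) (F 1 (U (K 3) (F 2 (T (V (S L L) (S L L)) (K 4)))))))) (K 4))))) (F 4096 (U (V L (F 66 (V (F 4 (S L L)) (F 1 (S (K 4) (K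 4)))))) (F 512 (V (T (F 517 (U L (V (F 2 (T L (T L L))) (F 32 (U (S (T (S L L) L) L) (T (S (S (T L (S L L)) (V L (T L L))) (S L (K 1))) (F 1 (V (S (S L L) L) L)))))))) (F 67 (U L (S (F 32 (S L L)) (F 3 (V (F 32 (S L (K 3))) L)))))) (F 529 (T (F 64 (V (V (U L (S (T (S (S L L) L) L) L)) (T (S (S L L) L) L)) (V (V L L) (S L L)))) (F 136 (S (K 2) L)))))))))
noncomputable def w2_17 : Tr := (T (F 64 (S (T (V (S L L) (S (T (S L L) (F 8 (V L L))) (V (S L L) (T (S L L) (S L L))))) (F 8 (V (F 16 (S L L)) (U (S (S L L) (S L L)) (V (S (T L L) (T L L)) (S (T L L) (T L L))))))) (T (V (S L L) (S (V (U L (S L L)) (T (S L L) (U (S L L) L))) (V (U L (T L (S L L))) (T (S L L) (U (S L L) L))))) (F 8 (U (S (T (S L (T L L)) L) (F 1 (U L (V L (V (S L L) L))))) (F 1 (V (F 2 (S L L)) (V (S (V L L) (T L (S L L))) (S (S L L) (T L L)))))))))) (F 8 (S (F 64 (V (F 8 (U L (S L (T (F 2 (S L L)) L)))) (F 16 (T (V (U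 L (S L L)) (S L L)) (S L L))))) (F 64 (U (V (F 8 (S L L)) (F 16 (S L L))) (V (F 8 (S (U (S L L) (S (S L L) (F 2 (T (S L L) (S L L))))) (F 2 (U (S L L) (T (V L (T L L)) (F 8 (S L (S L L)))))))) (F 16 (T (V (S (S L L) (V L L)) (S L L)) (S L L)))))))))
noncomputable def w2_18 : Tr := (V (F 4 (S (U (S (T (F 8 (S L (S L L))) (V (T (S L L) L) L)) (T (F 8 (V L (T L (S L L)))) (V (T L (S L L)) L))) (T (S (F 8 (V L (S L L))) (F 8 (V (S L L) (S L L)))) (V (S (T L L) (T (S L L) (S L L))) (S (F 8 (S L L)) (F 8 (S L L)))))) (T (F 8 (V (S (U (S L L) (T L L)) (F 1 (U (T L L) (S L L)))) (S (U (T L L) (S L L)) (S (U (T L L) L) (F 1 (T L L)))))) (V (F 16 (S (T (F 1 (S L L)) (U (S L L) L)) (S (F 1 (T L L)) (F 1 (T L L))))) (F 8 (S (U (S L L) (T L L)) (F 1 (U (S L L) (S L L))))))))) (S (F 2 (T (V (S (T (S L L) (V L L)) (U (T (S L L) L) (T L L))) (S (U L (T L L)) (U L (T L L)))) (V (U L (S L L)) (S L L))))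 (F 2 (V (U (T (S (T (S L L) (S L L)) (V (F 8 (S L L)) (S L L))) (S L L)) (T (S (T L (S L L)) (T (S L L) (S L L))) (S (S L L) (V L L)))) (T (U (S L L) (S (T L L) (T L L))) (S L L))))))
noncomputable def w2_19 : Tr := (V (T (V (S (U (T (S L L) (V (S L L) L)) (T (S L L) (F 64 (S L L)))) (U (T (S L L) (U L L)) (F 64 (T L (S L L))))) (U (S (U (S L L) (T L L)) (T (V L L) (F 64 (S L L)))) (F 64 (S (T L (S L L)) (T (S L L) (S L L)))))) (F 8 (U (V (S (U L L) (F 1 (S L L))) (F 1 (S L L))) (F 1 (V (S (T (S L L) (S L L)) (T (S L L) (S L L))) (S (T (S L L) (S L L)) (U (S L L) (T L L)))))))) (U (V (U (T (S (V L L) (F 64 (S L L))) L) (F 64 (T (S (T L L) (T L L)) L))) (F 64 (T (S (V L L) (V L L)) (F 4 (S L L))))) (F 64 (T (S (T (V L (U L L)) (F 4 (V L (U L L)))) (V (T (S L L) (S L L)) (V (U L (S L L)) (T L L)))) (F 4 (S (V (U L (T L L)) (U L (V (S L L) L))) (V (T (S L L) L) (U L (V (S L L) L)))))))))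
noncomputable def w2_20 : Tr := (F 128 (S (V (T (V (U (S (T L (F 8 (S L L))) (T (S L L) (S L L))) (S (T L L) (T L (S L L)))) (U (S (T L (F 8 (S L L))) (T (S L L) (S L L))) (T (S L L) (F 72 (S L L))))) (F 8 (U (V (S (V (S L L) L) (V L L)) (U (S L L) (F 1 (S L L)))) (F 1 (V (S (T L (S L L)) (T (S L L) (S L L))) (S (T (S L L) (S L L)) (T (S L L) (S L L)))))))) (U (V (T (U (V (S L L) (S L L)) (T (S L L) (F 72 (S L L)))) (F 72 (U L (S L L)))) (T (T (S L L) (F 72 (S L L))) (F 72 (S L L)))) (F 64 (T (T (S (V L (S L L)) (V L (V L L))) (F 4 (S (V L (S L L)) (V L (V L L))))) (F 4 (S (V (T (S L L) (S L L)) (U (S L L) (T L (S L L)))) (V (T (S L L) (S L L)) (U L (T L (S L L)))))))))) w2_19))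
noncomputable def w2_21 : Tr := (V (U (F 1 w2_17) (F 1 (T (F 64 (S (T (V (S L (S L L)) (V (S (T L L) (T L (S L L))) (S (T L L) (T L (S L L))))) (F 72 (V (S (U L (S L L)) (T L (F 8 (S L L)))) (V (S (T L (S L L)) (T L (S L L))) (S (T L (S L L)) (T L (S L L))))))) (T (V (S (T L L) (F 64 (U L (S L L)))) (V (S (T L (F 64 (S L L))) (T (S L L) (F 64 (S L L)))) (S (T (S L L) (F 64 (S L L))) (T (S L L) (F 64 (S L L)))))) (F 72 (V (S (U L (T (S L L) (F 8 (V L L)))) (F 8 (U (U L (S L L)) (V (S L L) (S L L))))) (V (S (T (S L L) (S L L)) (T (S L L) (U (S L L) L))) (S (T (S L L) (S L L)) (T (S L L) (V L L))))))))) (F 9 w2_18)))) (F 4 (T w2_20 (F 137 (S (V (U (V (S L L) L) (V (T (S (V L L) (S L L)) L) (S (V L L) (S L L)))) (U (S (K 3) (K 3)) (T (V (S L L) (U L (S L L))) (S L (K 3))))) (V (U (S L L) (V (T (U (S L L) (S L L)) L) (S L L))) (U (K 3) (T (V (S L L) (S (S L L) L)) (K 3)))))))))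
noncomputable def w2_22 : Tr := (U (S (F 4 (V (F 2 (T (S L L) (F 1 (S (S L L) (F 1 (S L L)))))) (T (S (V (S L (S L L)) (T (S L L) (S L L))) (V (S (T L L) L) (T (S L L) (F 64 (S L L))))) (F 64 (S (F 4 (V (V (F 2 (S L L)) (S L L)) L)) (V (F 32 (T (S L L) (F 4 (S L L)))) (F 4 (S L L)))))))) (F 1 (V (F 3 (T L (V L (F 2 (T L L))))) (F 32 (T (V (F 32 (V L (T L L))) (T L L)) (F 32 (V (T (V L L) L) (T (S L L) L)))))))) (S (F 4 (V (F 2 (T (S L L) (F 1 (S (F 4 (S L L)) (F 1 (V L (T (S L L) L))))))) (T (S (V (T (S L L) (F 64 (S L L))) (T (S L L) L)) (F 64 (V (T (S L L) (S L L)) (T L (S L L))))) (F 64 (V (S (F 4 (T (S L L) (S L L))) (F 32 (T (S L L) (F 4 (S L L))))) (S (F 4 (T L (S L L))) (F 4 (S (T L L) (F 1 (S L L)))))))))) (F 1 (V (F 3 (T (F 2 (S (S L L) (S (S L L) (T L L)))) (V (S (F 2 (S L L)) (T (S L L) (F 8 (S L L)))) (F 2 (S (T (S L L) (F 2 (S L L))) (T (S L L) L)))))) (F 32 (T (V (F 32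 (S (T (S L L) (S L L)) (V L (S L L)))) (S (T L (F 32 (S L L))) (F 32 (T L (S L L))))) (F 32 (V (T (S (S L L) (T L L)) (F 4 (S (S L L) L))) (T (S L (S L L)) (F 4 (S (S L L) L)))))))))))
noncomputable def w2_23 : Tr := (U (S (S (F 41 (U L L)) (F 1 (S (F 5 (U L (T (V L (S L L)) (S L L)))) (T (F 5 (V L (T L L))) (V (T L (S L L)) L))))) (F 1 (T (V (S (F 1 (S L L)) L) (F 4 (T L (S L L)))) (V (S (T (S L L) (S L L)) (S L (K 1))) (T (F 4 (T L L)) (S L L)))))) (S (S (F 41 (U (U (U L (S L (T L L))) (T (V L (S L L)) (S L (V L L)))) (T (V L (S L L)) (V (S L L) L)))) (F 1 (T (F 5 (V (T L (S L L)) (T (S L L) (S L L)))) (V (S L (T L L)) (F 4 (T (F 8 (S L L)) L)))))) (F 1 (T (V (S (F 1 (V (S L L) (F 4 (S L L)))) (V L (S L L))) (F 4 (S (F 8 (T (S L L) (S L L))) (S L (S L L))))) (V (S (T (S L (S L L)) (S L L)) (T (S L L) (S L L))) (S (F 4 (T (S L L) (S L L))) (V (T L L) (F 4 (S L L)))))))))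
noncomputable def w2_24 : Tr := (S (F 2 (V (T (V (F 3 (S L (S L L))) (S (U L (T L L)) (F 1 (T (S L L) (F 16 (S L L)))))) (F 2 (S (F 4 (V (F 1 (U L (S L L))) (T (S L L) (F 1 (S L L))))) (F 16 (V (U (T L L) (T L L)) (T (V (S L L) L) (F 2 (S L L)))))))) (T (V (S (T (S L L) (U (S L L) L)) (T (U L L) (V L (S L L)))) (S (T (S L L) (V L L)) (T (V L L) (U (S L L) L)))) (V (S (F 8 (U (T (S L L) (S L L)) (T L (S L L)))) (F 1 (U (V (S L L) L) (F 4 (S L L))))) (F 8 (S (T (S L L) (U (S L L) L)) (U (S (T L L) L) (T L (S L L))))))))) (V (F 96 (T (V (S (F 8 (U L (S L L))) (T (F 8 (S L L)) (V (S L L) L))) (F 8 (S (T (S L L) (S L L)) (T (S L L) (V L L))))) (V (S (T (F 8 (V L (S L L))) (F 2 (V (S L L) L))) (T (V (S L L) L) (F 2 (V L (S L L))))) (F 8 (S (T (U (S L L) L) (F 4 (S L L))) (T (U (S L L) L) (F 4 (S L L)))))))) (F 2 (T (V (F 1 (S (T (S L L) (U (S L L) L)) (T (V (S L L) L) (U (S L L) L)))) (S (T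 (U (S L L) L) (U L (S L L))) (F 1 (T (V L L) (V L L))))) (F 1 (V (S (T (U (S L L) (S L L)) (F 4 (V L (S L L)))) (V (F 16 (T (S L L) L)) (T (S L L) (F 4 (S L L))))) (S (F 4 (T (S L L) (V L L))) (F 4 (U (T L L) (S L L))))))))))
noncomputable def w2_25 : Tr := (V (F 160 (S (T (F 33 (V (S (F 2 (U (T L (S L L)) (S L L))) (T (F 2 (V L L)) (V (S L L) (F 2 (S L L))))) (F 2 (S (U (T L L) (S L L)) (U (T L L) (S L L)))))) (S (F 33 (V (U (F 2 (T L L)) (T L (S L L))) (F 2 (T (V L L) (S L L))))) (F 1 (V (U (V (F 1 (S L L)) (F 4 (S L L))) (F 1 (T (S L L) L))) (F 4 (T (F 8 (V L L)) (U (S L L) L))))))) (F 1 (T (S (F 1 (V (U (T (S L L) (S L L)) (T (S L L) (S L L))) (F 4 (U (S L L) (S L L))))) (V (F 1 (U (V (S L L) (S L L)) (T L L))) (T (F 5 (S L L)) (S L (V L L))))) (V (S (T (V L (S L L)) (U (S L L) (S L L))) (T (U (S L L) (S L L)) (U (S L L) L))) (S (T (F 4 (S L (S L L))) (U L (S L L))) (T (V (S L L)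 L) (U (S L L) (S L L))))))))) (F 68 (S (S (F 32 (U (T (V (V L (T L L)) (S L (S L L))) (S L L)) (T (V (T (S L L) L) (T (S L L) (S L L))) (V (F 16 (T L L)) L)))) (F 1 (T (F 1 (V (V (F 1 (T L L)) (T (S L L) (S L L))) (U (T L L) (T L L)))) (V (F 16 (U (T L L) (T L L))) (U L (S L L)))))) (F 1 (T (V (S (F 1 (T (V L (S L L)) (F 1 (S L L)))) (F 16 (T (F 8 (S L L)) (U (S L L) L)))) (S (F 1 (T (U L L) (U L L))) (T (F 1 (V L L)) (S (F 1 (S L L)) (T L L))))) (V (F 16 (S (U (T (S L L) L) (T L L)) (T (U (S L L) L) (S L L)))) (U (S L (S L L)) (S (T (S L L) L) (T L L)))))))))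
noncomputable def w2_26 : Tr := (V (T (U (V (S (T (V L L) (F 64 (V L L))) (T (V (S L L) L) (F 64 (U (S L L) (S L L))))) (S (U (S L L) (F 64 (T L (S L L)))) (F 64 (U (S L L) (T L (S L L)))))) (F 64 (V (S (T (S L L) (V L L)) (T (S L L) (V (S L L) L))) (S (T (S L L) (V L L)) (T (S L L) (V L L)))))) (F 72 (U (V (U L (S L (S L L))) (S L L)) (V (S (T (S L L) (V L L)) (T (V L L) (U (S L L) L))) (S (U (S L L) (T L L)) (U (S L L) (T L L))))))) (F 64 (U (V (U (T (V (S L L) L) L) (T (S (T L L) (T L L)) L)) (T (S (V L L) (V L L)) L)) (T (S (V (T (S L L) (V L L)) (V (U (S L L) (S L L)) (T L L))) (V (T (S L L) (V L L)) (U (T L L) (T (S L L) (F 4 (S L L)))))) (F 4 (V (S (V (S L L) L) (V (S L L) L)) (U (S L L) (V (S (S L L) L) (S L L)))))))))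
noncomputable def w2_27 : Tr := (U (V (U (T (V (S (T (S L L) (S L L)) L) (V L L)) (F 4 (S L L))) (V (T (S (T (S L L) (S L L)) (F 32 (T L L))) (F 4 (S (V L L) (F 1 (T L L))))) (T (S (T (S L L) (S L L)) (V (S L L) (S L L))) (F 4 (S L L))))) (V (U (V L L) (T (S (T (S L L) L) (T (S L L) (S L L))) L)) (T (U L (T (S (S L L) (S L L)) L)) L))) (V (T (V (S (T (V L L) (V (S L L) (S L L))) (U (T (S L L) L) (F 32 (T L L)))) (S (T (V L L) (V (S L L) (S L L))) (T (V L L) (F 32 (V L L))))) (F 4 (V (S (T (U (S L L) L) (U L (S L L))) (F 1 (T (S L L) (S L L)))) (S (U (T L L) (T L L)) (U (V L L) (F 1 (S L L))))))) (T (V (S (T (V L L) (V L L)) (T (V L L) (V (S L L) L))) (U (T (S L (S L L)) (F 4 (S L L))) (T (V (S L L) (S L L)) (F 4 (V (S L L) L))))) (F 4 (V (U (S L L) (S (T L L) (T L L))) (U L (V (S L (S L L)) (S L L))))))))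
noncomputable def w2_28 : Tr := (U (F 2 w2_16) (F 8194 (S (F 22 w2_21) (F 2050 (V (U (T (F 258 w2_22) (F 528 (V (F 160 w2_23) (F 68 (S (S (F 32 (V (U L (V L (S L L))) (S L L))) (F 1 (T (F 1 (V (U L (V (F 1 (S L L)) (S L L))) L)) (U L L)))) (F 1 (U (V (F 16 (T (S L L) L)) L) (T (V (F 16 (S (F 8 (T L L)) (T L (S L L)))) (S L (T L L))) (V (F 16 (S L (T L L))) (S L L)))))))))) (T (F 770 w2_24) (F 528 w2_25))) (F 66 (T (F 2 (S w2_26 (F 64 w2_27))) (F 17 (S (V (U (T (F 32 (V (S L L) L)) (K 3)) (T (F 32 (V (U (S L L) (S (S L L) (T L L))) (S L L))) (S L (S L L)))) (U (K 3) (T (F 32 (V L (S L L))) L))) (U (V (T (V (F 1 (S L L)) L) L) (S (K 3) (K 3))) (V (T (V (F 1 (S (F 1 (U L (S L L))) (T (F 1 (S L L)) (U L L)))) (S (F 32 (S L L)) (F 1 (T L L)))) (F 1 (U L (S L (S L L))))) (T (S (F 32 (S L L)) (S L L)) L))))))))))))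
noncomputable def w2_29 : Tr := (S (F 65 (V (T (U (V (F 2 (S L L)) (S L L)) (V (F 2 (S L L)) (S L L))) (F 8 (V (F 8 (U (S L L) (S L L))) (U (S (S L L) (T L L)) (S L (S L L)))))) (T (V (U (S L (S L L)) (S L L)) (U (S (S L L) (S L L)) (S L L))) (F 8 (V (U (S (S L L) (T L L)) (S L (S L L))) (U (S (T L L) (T L L)) (S (S L L) (S L L)))))))) (F 65 (V (T (V (F 2 (U (S L (S L L)) (S L L))) (U (S (S L L) (T L L)) (S L (S L L)))) (F 8 (V (F 8 (U (S (T L L) (S L L)) (S L (S L L)))) (U (S (T L (S L L)) (T (S L L) (S L L))) (S (S L L) (S L L)))))) (T (V (U (S (S L L) (T L L)) (S L (S L L))) (U (S (S L L) (T L L)) (S (S L L) (S L L)))) (F 8 (U (V (S (T L L) (T L (S L L))) (S (T L (S L L)) (T L (S L L)))) (V (S (S L L) (S L L)) (S (S L L) (S L L)))))))))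
noncomputable def w2_30 : Tr := (S (F 2 (V (T (V (F 4 (S (F 8 (U (S L L) L)) (F 8 (U (U (S L L) L) (S L L))))) (F 2 (U (S (T (S L L) L) (T (S L L) L)) (S (S L L) (S L L))))) (U (F 4 (S (V (U (T L L) (S L L)) (F 8 (T L L))) (V (T (S L L) (S L L)) (F 8 (U (S L L) L))))) (S (V (F 4 (S L L)) (F 2 (S L L))) (F 4 (V (U (S L L) L) (F 8 (S L L))))))) (F 2 (T (U (V (S (T (S L L) (S L L)) (T (S L L) (S L L))) (S (T (S L L) (S L L)) (T (S L L) (S L L)))) (S (V (S L L) (T L L)) (V (S L L) (T L L)))) (U (V (S (T (S L L) L) (T (S L L) (S L L))) (S (U L (S L L)) (U L (S L L)))) (V (S (S L L) (S L L)) (S (S L L) (S L L)))))))) (F 2 (V (U (T (F 6 (S (V (U (S L L) (S L L)) (U (S L L) L)) (V (F 8 (T L L)) (S (T L L) (F 8 (S L L)))))) (F 4 (V (F 16 (S (T L (S L L)) (T L (S L L)))) (F 8 (S (U (S L L) (S L L)) (F 1 (T L L))))))) (T (S (F 2 (V (F 8 (S L L)) (T L L))) (F 2 (V (F 8 (S L L)) (T L L)))) (F 4 (S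 (V (U L L) (F 8 (S L L))) (V (F 16 (S L L)) (F 8 (S L L))))))) (F 2 (T (U (V (S (T (S L L) (S L L)) (U (T L (S L L)) (S L L))) (S (T (S L L) (S L L)) (T (S L L) (S L L)))) (V (S (T L L) (T L L)) (S (T L L) (T L L)))) (U (V (S (U (T L L) (S L L)) (V (F 8 (S L L)) (U (S L L) L))) (U (S L (S L L)) (S (S L L) (S L L)))) (V (S (T L L) (T (S L L) L)) (S (S L L) (S L L)))))))))
noncomputable def w2_31 : Tr := (T (F 64 (U w2_29 (F 1 (V (S (T (F 2 (U (V L L) (S L L))) (F 16 (S (F 16 (V L (S L L))) (F 16 (U (S L L) L))))) (T (F 2 (U (V (S L L) (S L L)) (S L L))) (F 16 (U (F 16 (V (F 2 (S L L)) (S L L))) (F 16 (S L L)))))) (F 2 (S (T (U (V (S L L) (S L L)) (S L L)) (F 4 (U (V (S L L) (S L L)) (S L L)))) (T (U (V (S L L) (S L L)) (T L L)) (F 4 (U (V (S L L) (S L L)) (V L (S L L))))))))))) (F 272 (U w2_30 (S (F 2 (V (T (U (V (F 4 (S L L)) (F 2 (S L L))) (S (S L L) L)) (U (V (F 4 (S L L)) (S L (S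 L L))) (V (F 4 (S L L)) (S L L)))) (T (F 2 (U (S (V L (S L L)) (V L L)) (S (S L L) (S L L)))) (S (F 2 (U (V L L) (S L L))) (F 2 (U (V L L) (S L L))))))) (V (T (F 34 (U (V (F 2 (S L L)) (S L (S L L))) (V L (S L L)))) (V (F 80 (U (S L (S L L)) (S L L))) (F 34 (U (F 2 (S L L)) (S L L))))) (F 2 (T (F 2 (U (V (S (S L L) L) (S L L)) (V (S L L) (S L L)))) (U (F 2 (V (S L (S L L)) (S L L))) (S (F 2 (S L L)) (F 2 (S L L)))))))))))
noncomputable def w2_32 : Tr := (S (T (U (V (S (T L (S L L)) (T (S L L) (V L L))) (S (T L (S L L)) (T (S L L) (S L L)))) (V (S (S L L) (S (S L L) L)) (S (T L L) (T L L)))) (F 8 (U (V (S (T (S L L) (S L L)) (U (T L L) (F 16 (S L L)))) (S (T (S L L) (S L L)) (S (T L L) (F 16 (S L L))))) (V (S (T L L) (F 16 (S L L))) (S (T L L) (T L (S L L))))))) (T (U (T (F 1 (V (S (S L L) (S L L)) (S L (S L L)))) (F 1 (V (S (S L L) (S L L)) (S (S L L) (S L L))))) (F 1 (V (S (T L L) (T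 L L)) (S (S L L) (T L L))))) (U (V (F 1 (S (T (F 4 (S L L)) (F 4 (S L L))) (U (S L L) (F 4 (S L L))))) (F 8 (S (U (T L L) (F 16 (S L L))) (F 16 (T (S L L) (S L L)))))) (F 9 (V (S (S L L) (S L L)) (S (S L L) (S L L)))))))
noncomputable def w2_33 : Tr := (U (V (S (F 64 (T (F 32 (U (V (F 16 (S (T L L) (F 1 (T L L)))) (S (V L (S L L)) (U (T L L) (F 32 (S L L))))) (V (F 48 (S L L)) (S (S L L) (F 32 (S L L)))))) (F 8 (U (F 2 (S (V (F 3 (S L L)) (T (S L L) (F 2 (S L L)))) (F 3 (V (U (S L L) L) (S L L))))) (V (F 16 (S (F 8 (S L L)) (F 1 (S L L)))) (F 2 (S (T L L) (T L L)))))))) (F 64 (T (V (F 3 (U (S (F 2 (T L L)) (T (S L L) (S L L))) (S (S L L) (T L L)))) (F 32 (U (F 32 (S (T (S L L) L) (T L (F 1 (S L L))))) (F 32 (S (T L L) (T L L)))))) (F 1 (U (F 32 (V (S (T (T L L) (F 2 (S L L))) (T (V L (S L L)) (F 2 (S L L)))) (F 8 (S (T (S L L) L) (T (S L L) L))))) (S (F 8 (V (F 1 (S L L)) (F 8 (S L L))))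 (F 32 (V (T (S L L) L) (S L L))))))))) (F 66 w2_32)) (F 64 (V (S (T (F 32 (U (V L (S L L)) (S (S L L) L))) (F 8 (V (F 48 (U (S L L) L)) (F 2 (U (S L L) (S L L)))))) (F 1 (T (V (F 32 (U (S L L) (S L L))) (F 2 (U (S L L) (S L L)))) (F 8 (U (V (F 1 (S L L)) (S L (S L L))) (V (F 1 (S L L)) (S L L))))))) (F 32 (S (T (U (V (S L L) (S L (S L L))) (V (S L L) (S L L))) (F 4 (U (V (S L L) (S L (S L L))) (V (S L L) (S L L))))) (T (F 32 (U (V (S L L) (S L L)) (V (S L L) (S L L)))) (F 36 (U (V (S L L) (S L L)) (V L L)))))))))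
noncomputable def w2_34 : Tr := (S (F 32 (U (F 1 (T (F 33 (S (F 4 (V (U (S L L) L) (T (S L L) (S L L)))) (V (V (T L L) (F 4 (S L L))) (F 4 (T L (S L L)))))) (V (F 1 (S (S (F 9 (S L L)) (F 1 (T L L))) (T (F 1 (S L L)) (V L L)))) (F 36 (S (F 8 (T (S L L) L)) (F 8 (T (S L L) L))))))) (F 64 (S (F 16 (T (V (F 1 (T L L)) (F 8 (T L L))) (F 1 (V (S L L) (F 2 (S L L)))))) (F 48 (T (V (T L L) (F 4 (S L L))) (V (T L L) (S L L)))))))) (F 160 (U (T (F 1 (V (F 1 (S (U (T L L) (S L L)) (T (S L L) (S L L)))) (S (F 5 (U (S L L) L)) (V (F 1 (S L L)) (F 4 (S L L)))))) (S (V (T (F 33 (S L L)) (U L L)) (F 1 (V (T (S L L) L) (F 4 (S L L))))) (F 1 (V (T (V L L) (S L L)) (T (V L L) (S L L)))))) (F 1 (T (F 1 (V (S (T L L) (T L L)) (S (T L L) (T L L)))) (V (S (T L L) (T (S L L) L)) (S (T L L) (T (S L L) L))))))))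
noncomputable def w2_35 : Tr := (S (F 68 (U (T (F 32 (V (S (U (T (S L L) L) (T L L)) (F 16 (T (S L L) (S L L)))) (S (T (S L L) (V L L)) (U (T (S L L) L) L)))) (V (F 1 (S (F 1 (V L (S L L))) (T (F 1 (S L L)) L))) (S (F 32 (U (T L L) (S L L))) (F 1 (T (F 1 (S L L)) L))))) (F 32 (T (S (V (T (S L L) L) (T (S L L) L)) (F 16 (V (T L L) (S L L)))) (V (S (U L L) (F 16 (S L L))) (T (S L L) (F 16 (S L L)))))))) (F 64 (U (F 17 (T (S (F 1 (V (V (F 1 (S L L)) (S L L)) (T (S L L) (S L L)))) (V (T (F 1 (S L L)) (F 16 (S L L))) (T (F 1 (S L L)) (V L L)))) (V (F 16 (S (T (S L L) (S L L)) (T (S L L) (S L L)))) (S (T (S L L) (S L L)) (T (S L L) (S L L)))))) (F 1 (T (F 4 (V (S (F 16 (T L L)) (S L L)) (S (F 16 (S L L)) (T L (S L L))))) (V (S (F 4 (T L L)) (F 32 (T L L))) (F 4 (S (T L L) (T L L)))))))))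
noncomputable def w2_36 : Tr := (T (F 64 (S (T (V (U (S (S L L) (S L L)) (S L L)) (U (T (S L L) (F 4 (S L L))) (S L (S L L)))) (F 4 (V (S (U (T L L) (S L L)) (U (T L (S L L)) (S L L))) (U (S (T L (S L L)) (T L (S L L))) (S (S L L) (S L L)))))) (T (V (U (S (T L L) (T L (S L L))) (S (S L L) (S L L))) (U (S (T L (S L L)) (T L (S L L))) (S (S L L) (T L L)))) (F 4 (V (U (S (T L (S L L)) (T L (S L L))) (S (S L L) (S L L))) (U (S (T L (S L L)) (T (S L L) (S L L))) (S (T L L) (T L L)))))))) (F 72 (S (T (V (U (S (T (S L L) (S L L)) (T (S L L) (S L L))) (S (T L L) (T L L))) (U (S (T (S L L) (S L L)) (T (S L L) (S L L))) (S (T L L) (T L L)))) (U (V (S (S L L) (S L L)) (S L L)) (V (S (S L L) (S L L)) (S (S L L) (S L L))))) (U (V (T (S (T (S L L) (S L L)) (T (S L L) (S L L))) (S (S L L) (S L L))) (T (S (T (S L L) (S L L)) (T (S L L) L)) (S L L))) (T (V (S (T L L) (T L L)) (S (T L L) (T L L))) (V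 (S (S L L) (S L L)) (S (S L L) (S L L))))))))
noncomputable def w2_37 : Tr := (T (U (S (T (V (S (S L L) (T L L)) (U (T L (F 4 (S L L))) (T (S L L) (F 4 (S L L))))) (F 4 (V (S (T L (S L L)) (T L (S L L))) (U (S (S L L) (S L L)) (S (T L L) (T L L)))))) (T (V (S (T L L) (T L L)) (U (T (S L L) (F 4 (S L L))) (S (T L L) (T L L)))) (F 4 (V (S (T L (S L L)) (T (S L L) (S L L))) (U (S (S L L) (T L L)) (S (T L L) (T L L))))))) (S (T (V (S (S L L) (S L L)) (T L (F 4 (S L L)))) (F 4 (V (S (S L L) (T L L)) (S (S L L) (T L L))))) (T (V (S (S L L) (T L L)) (T (S L L) (F 4 (S L L)))) (F 4 (V (S (T L L) (T L L)) (S (T L L) (T L L))))))) (F 4 (U (S (V (T (S (T (S L L) (S L L)) (T (S L L) (S L L))) (S L L)) (T (U (S (S L L) L) (S (T L L) (T L L))) (S (S L L) L))) (V (T (S (T (S L L) L) (T (S L L) L)) L) (T (U (S L L) (S (T L L) (T L L))) (S L L)))) (S (T (V (S (T L L) (T L L)) (S (T L L) (S L L))) (V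 (S (S L L) (S L L)) (S (S L L) L))) (T (V (S (S L L) (S L L)) (S (S L L) (S L L))) (V (S L L) (S L L)))))))
noncomputable def w2_38 : Tr := (S (T (V (U (S (T L (S L L)) (T (S L L) (S L L))) (S (T L L) (V L (S L L)))) (U (S (T (S L L) (S L L)) (T (S L L) (S L L))) (S (T L L) (T L (S L L))))) (F 4 (V (U (S (T (S L L) (S L L)) (T (S L L) (S L L))) (S (T L L) (T L L))) (U (S (T (S L L) (S L L)) (T (S L L) (S L L))) (S (T L L) (T L L)))))) (T (V (U (S (T (S L L) (V L L)) (F 32 (T (S L L) (S L L)))) (S (T L (S L L)) (F 32 (T L L)))) (U (S (T (S L L) (V L L)) (T (S L L) (F 32 (S L L)))) (S (T L (S L L)) (T (S L L) L)))) (F 4 (V (U (S (T (S L L) (F 1 (S L L))) (U (F 1 (S L L)) L)) (S (T L L) (F 1 (S L L)))) (U (S (T (S L L) (S L L)) (F 1 (T L L))) (S (T L L) (F 1 (S L L))))))))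
noncomputable def w2_39 : Tr := (U (S (T (V (S (T (S L L) (S L L)) (T (S L L) (S L L))) (U (T (S L L) (F 4 (S L L))) (T (S L L) (F 4 (S L L))))) (F 4 (V (S (T (S L L) (S L L)) (T (S L L) (S L L))) (U (S (T L L) (T L L)) (S (T L L) (T L L)))))) (V (T (S (T (S L L) (S L L)) (T (V L L) (S L L))) (F 4 (S (T (S L L) (S L L)) (V L (S L L))))) (T (U (T (S L (S L L)) (F 4 (S L L))) (T (V L (S L L)) (F 4 (S L L)))) (F 4 (U (S (S L L) (S L L)) (V (S L L) (S L L))))))) (S (T (V (S (T L L) (T L L)) (T (S L L) (F 4 (S L L)))) (F 4 (V (S (T L L) (T L L)) (S (T L L) (T L L))))) (T (V (S (T L L) (T (S L L) L)) (T (S (S L L) (S L L)) (F 4 (S L L)))) (F 4 (V (S (T L L) (T L L)) (S (T L L) (T L L)))))))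
noncomputable def w2_40 : Tr := (V (T (F 64 w2_38) (F 8 (S (U (T (F 1 (V (S (T (S L L) (S L L)) (T (S L L) (S L L))) (S (T (S L L) L) (T (S L L) L)))) (V (T (F 1 (S L (S L L))) (F 1 (S L L))) (F 1 (S L L)))) (F 1 (T (V (S (T L L) (T L L)) (S (T L L) (S L L))) (V (S (S L L) L) (S L L))))) (T (U (V (S (F 1 (U (T L L) L)) (F 32 (T (F 16 (S L L)) (S L L)))) (T (F 1 (V (F 1 (S L L)) (S L L))) (F 32 (S L L)))) (V (F 32 (S (F 16 (S L L)) (T L L))) (S (F 1 (T L L)) (F 32 (T L L))))) (U (V (F 32 (S (U L (S L L)) (T (S L L) L))) (U (S L L) (F 32 (S L L)))) (F 32 (V (S (S L L) (S L L)) (S (S L L) (S L L))))))))) (T (F 64 w2_39) (F 8 (U (T (S (F 1 (V (S (V L L) (V L L)) (U L (T (S L L) L)))) (V (S (F 1 (U L L)) (F 32 (T L L))) (U (S L L) (T (F 1 (S L L)) L)))) (S (F 1 (S L L)) (S (S L L) (F 32 (S L L))))) (S (F 1 (V (T (S (S L L) (S L L)) (S L L)) (T (S (S L L) (S L L)) (U L L)))) (T (V (S (F 1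 (S L L)) (F 32 (S L L))) (U (T L (S L L)) (F 1 (S L L)))) (V (S (S L L) L) (U (S L L) (S L L)))))))))
noncomputable def w2_41 : Tr := (T (S (T (V (U (V (S L L) (S L L)) (V L (S L L))) (S (F 4 (U (S L L) L)) (T (U L L) (F 4 (U (S L L) L))))) (F 4 (V (U (V (S L L) (S L L)) (V (S L L) (S L L))) (U (S (V (T L L) L) (V (T L L) (S L L))) (V (S L L) (S L L)))))) (T (V (U (V (S L L) (S L L)) (V (S L L) (T L L))) (U (S (V (T L L) (S L L)) (T (S L L) (F 4 (S L L)))) (V (S L L) (S L L)))) (F 4 (V (U (V (S L L) (S (S L L) (S L L))) (V (S L L) (S L (S L L)))) (U (V (U (S (S L L) (S L L)) (S L L)) (S (S L L) (S L L))) (V (S L L) (S L L))))))) (F 4 (S (V (U (T (V (S L L) (S (S L L) (S L L))) (V (S L L) (S L L))) (T (V (S L L) (S L L)) (V (S L L) (S L L)))) (T (U (V (U (S (S L L) L) (S L L)) (S (S L L) (S L L))) (V (S L L) (S L L))) (U (V (U (S L L) L) (S L L)) (V L L)))) (V (U (T (V (S (S L L) (S L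 L)) (S L (S L L))) (V (S L L) (S L L))) (T (V (S L L) (S L L)) (V L (S L L)))) (T (U (V (U (S L L) (S L L)) (S L L)) (V (S L L) (S L L))) (U (S (V (S L L) L) (T L L)) (V L L)))))))
noncomputable def w2_42 : Tr := (S (T (V (U (V (S (S L L) (S L L)) (S (S L L) (S L L))) (V (S L L) (U (S L L) L))) (U (T (V (U (S L L) L) (S L L)) (F 8 (V (S L L) (S L L)))) (V (S L L) (S L L)))) (F 8 (V (U (V (S (S L L) (S L L)) (S (S L L) (S L L))) (V (S L L) (U (S L L) L))) (U (V (U (S (S L L) (S L L)) (S L L)) (S (S L L) (S L L))) (V (S L L) (S L L)))))) (V (U (T (V (S (S L L) L) (S (S L L) (T L L))) (F 8 (V (T L L) (S (S L L) L)))) (T (V (S L L) (U (S L L) L)) (F 8 (V (F 16 (S L L)) (S (S L L) L))))) (T (U (V (U (T (S L L) (F 8 (S L L))) (S L L)) (T (S L L) (F 8 (S L L)))) (V (S L L) (S L L))) (F 8 (U (V (U (V L (S L L)) (S L L)) (S (S L L) (S L L))) (V (S L L) (S L L)))))))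
noncomputable def w2_43 : Tr := (V (F 1 (S (F 2 w2_31) (F 1 (T (F 256 w2_33) (F 16 (U (V w2_34 w2_35) (S (F 1 (V (F 1 (T (F 32 (V (F 1 (U (S L L) (S L L))) (F 8 (U (S L L) (S L L))))) (F 16 (S (F 1 (U (V L L) (S L L))) (F 1 (U (V L L) (S L L))))))) (F 32 (U (F 16 (T (S (V (S L L) (S L L)) (F 1 (V L L))) (V (F 1 (S L L)) (S L L)))) (F 16 (T (S (T L L) (F 1 (S L L))) (V L (S L L)))))))) (F 192 (V (F 1 (T (F 1 (U (V (S L L) (S L L)) (V (S L L) L))) (U (S (V (S L L) (S L L)) (V (S L L) (S L L))) (S (S L L) (S L L))))) (T (F 40 (U (V (S L L) (S L L)) (V L L))) (U (V (S (F 8 (S L L)) (F 1 (S L L))) (F 8 (S L L))) (V (S L L) (F 8 (S L L)))))))))))))) (F 128 (U (S (F 642 (V w2_36 (F 64 w2_37))) (F 641 w2_40)) (F 513 (S (F 130 w2_41) (F 2 (T (F 1 w2_42) (F 8 (S (F 32 (V (U (T (V (S (S L L) (S L L)) (S L L)) (V (S L L) (S L L))) (T (V (S L L) (S L L)) (V L (S L L)))) (T (U (V (U (S L L) (S L L))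 (S L L)) (V (S L L) (S L L))) (U (V (S L L) L) (S L L))))) (V (U (T (F 32 (V (F 16 (S L L)) (S L L))) (F 1 (V (S L L) (S L L)))) (F 1 (T (F 1 (V L (S L L))) (V L (S L L))))) (T (F 32 (U (V (U (S L L) L) (S L L)) (V L L))) (U (V (S (S L L) L) (S L L)) (V L L)))))))))))))
noncomputable def w2_44 : Tr := (U (T (F 4 (S (V (S L L) (T (S (S L L) (F 1 (V L L))) (F 1 (U (S L L) (V L (S L L)))))) (F 1 (V (F 32 (S L L)) (U (T L L) (V (S (T L L) (F 1 (T L L))) (T (S L L) L))))))) (F 128 (U (F 16 (V L (S (T L L) (T L L)))) (S (F 16 (V L (V (T (S L L) (S L L)) (T (S L L) (S L L))))) (F 80 (V L (V (S L L) L))))))) (T (F 4 (S (V (T L L) (V (T (S L L) (F 1 (S L L))) (T (S L L) (F 1 (S L (S L L)))))) (F 65 (V (V (F 16 (S L L)) (T (S L L) (S L L))) (V (T (S L L) (S L (S L L))) (T (S L (S L L)) (S L (S L L)))))))) (F 128 (S (F 16 (V (V L (T (S L L) (F 1 (S L L)))) (V (S (T L (S L L)) (F 1 (T L (S L L))))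 (S (T L (S L L)) (F 1 (T L (S L L))))))) (F 64 (V (T (F 2 (U L (S L (F 1 (S L L))))) (F 32 (V (S L L) (F 8 (S L L))))) (F 2 (V (T (S (S L L) (S L L)) (U L (S L L))) (T (U L (S L L)) (S (S L L) L))))))))))
noncomputable def w2_45 : Tr := (T (V (F 64 (S (V (U (T (S L L) (F 1 (S L (S L L)))) (T (S L L) (F 1 (S L (S L L))))) (U (T (S L (F 1 (S L L))) (F 1 (S L (S L L)))) (S (T L L) (F 65 (T L L))))) (F 1 (U (V (T (V L L) (S L L)) (T (S L L) L)) (F 1 (V (T (S L (S L L)) (U (S L L) (S L L))) (T (S L (S L L)) (U L (S L L))))))))) (U (V (S (U (T (F 64 (S L L)) (F 192 (S L L))) (T (F 64 (S L L)) (F 192 (S L L)))) (F 193 (U L (S L L)))) (S (S (F 128 (T L L)) (F 193 (T L L))) (F 193 (T L L)))) (F 1 (S (S (T (T (F 2 (S L L)) (F 3 (S L L))) (F 1 (V L (S L L)))) (F 3 (T (V L (V L L)) (V L (V L L))))) (F 3 (V (T (S L (S L L)) (S (S L L) L)) (U (T (S L L) L) (T (S L (S L L)) (S L (S L L)))))))))) (F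 128 (V (F 1 (U (V (S (T (S (S L L) (S L L)) (V L L)) (T L L)) (S (T (V L L) (V L L)) L)) (S (V (T (S L L) (F 1 (S L (S L L)))) (F 1 (T (S L (S L L)) (S L (S L L))))) (F 1 (V (T (S (S L L) L) (V L L)) (T (V (S L L) L) (V L L))))))) (U (V (U (S (T (S L L) L) (K 5)) (F 64 (S (S (T L L) L) L))) (F 64 (S (T (S L L) (T L L)) L))) (F 64 (S (S (T (V L (U L L)) (V (S L L) (U L (S L L)))) (F 32 (T (V L (U L L)) (V (S L L) (U L (S L L)))))) (F 32 (V (T (V L L) (T L L)) (U (T L L) (V (T (S L L) L) (S L L)))))))))))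
noncomputable def w2_46 : Tr := (U (F 128 (T (V (F 1 (S (F 4 (S L L)) L)) (F 16 (S (U (T L (S L L)) (V (T (S L L) L) (T (S L L) L))) (F 1 (V L L))))) (F 64 (V (F 32 (T L (S L L))) (F 2 (S (V (T (S L L) L) (T L L)) (K 4))))))) (F 1 (V (F 1 (T (S (F 2 (U (F 1 (T L (S L L))) (V (F 1 (S L L)) (S (S L L) (F 1 (S L L)))))) (F 32 (V (U L (T (S L L) (S L L))) (F 8 (U (S L L) (T (S L L) L)))))) (F 32 (S (V (U (S L (S L L)) (T (S L L) (S L L))) (F 8 (S (T L (S L L)) (T (S L L) (S L L))))) (V (U L (T (S L L) L)) (T (S L L) L)))))) (F 32 (T (F 32 (S (V (T (S L (S L L)) (S (S L L) (S L L))) (T (S (S L L) (S L L)) (S (S L L) (S L L)))) (V (U (S L L) (T (S L L) L)) (T (V L L) L)))) (F 32 (S (V (S (T (S L L) (V L L)) (U (T L L) (T L L))) (U (T (S L L) (S L L)) (S (T L L) (T L L)))) (V (T L L) (T L L)))))))))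
noncomputable def w2_47 : Tr := (V (T (F 1 (U (S (V (S (T (S L L) L) L) (T (T L L) L)) (K 1)) (F 1 (V (S (T (S (S L L) (S L L)) (S (S L L) (S L L))) (T (T L L) L)) (S (S (T L (S L L)) (T (S L L) (S L L))) (T (S L L) L)))))) (F 64 (U (S (V (F 32 (T L L)) (T (S L L) L)) (K 0)) (F 32 (V (S (S (T (S L L) (S L L)) (U L (T L L))) (T L L)) (S (S (T (S L L) (S L L)) (U L (T L L))) (T L L))))))) (F 64 (U (V (T (S (U (T L L) (T L L)) (K 0)) (S (U (S L (K 0)) (T L L)) (K 0))) (T (S (S (T (S L L) (S L L)) L) L) (U L (S (T L L) L)))) (T (S (S (T (V (S L L) (U L (S L L))) (V (S L L) (U L (S L L)))) (F 32 (T (V (S L L) (U L L)) (V (S L L) (U L (S L L)))))) (F 32 (V (T (S L L) L) (U L (V (T L L) L))))) (S (S (V (T (F 32 (S L L)) (F 32 (S L L))) (U (T (S L L) (S L L)) (V (T L L) (S L L)))) (F 32 (V (T (S L L) (S L L)) (U (T L L) (V (S L L) L))))) (F 32 (V (T L L) (U L (V (S L L) L)))))))))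
noncomputable def w2_48 : Tr := (T (F 6 (V (F 2 (S w2_44 (F 128 (U (T (F 64 (V (F 32 (T L L)) (F 2 (V (T L L) L)))) (F 64 (V L (S L (K 0))))) (F 64 (V (F 32 (T (U (T (U L (S (F 8 (S L L)) (T L L))) (V L (S L L))) (S (V (T L (S L L)) (F 8 (T (S L L) (S L L)))) (T (V (S L L) L) (U L (S L L))))) (S (U (T L L) (V (T (S L L) L) (T L L))) (T (S L L) L)))) (T (F 2 (S (V (T (U L (S L L)) (U L (S L L))) (T (V (S L L) L) (S L L))) (V (T L L) L))) (S (F 2 (V (T L L) (T L L))) L)))))))) (F 64 (S w2_45 (F 193 (V (T (U (V L L) (V (T (V L L) L) (T (T L L) L))) (U (K 4) (V (S L (K 4)) L))) (U (K 4) (S (T (V (T L L) (U L (T L L))) (V L (T L L))) (K 4))))))))) (F 1026 (V (S (F 128 w2_46) (F 257 (V (F 64 (U (T L (K 4)) (T (F 32 (S (V (T L L) L) L)) (V (F 32 (S L (K 0))) L)))) (S (F 1 (U (K 5) (T (F 16 (T L L)) L))) (K 1))))) (F 32 (S (F 2 w2_47) (F 129 (U (K 4) (S (V (F 32 (T (T L (K 0)) (K 0))) (T (F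 32 (T L L)) (S L (K 4)))) (K 4)))))))))
noncomputable def w2_49 : Tr := (T (F 5 (V (S (U (V L (S L L)) (F 1 (V L (S L L)))) (F 1 (V (F 16 (U (T L L) (S L L))) (U (T (S L L) (S L L)) (T L L))))) (S (U (V (T L L) (T (S L L) (F 1 (S L L)))) (F 1 (V (S L L) (S L L)))) (F 1 (U (V (T (S L L) (S L L)) (T (S L L) (S L L))) (V (T L (S L L)) (T (S L L) (S L L)))))))) (F 129 (V (S (F 16 (V (F 16 (U (S L L) (S L L))) (U (T (S L L) (S L L)) (S L L)))) (V (F 1 (U (T (F 2 (S L L)) (S L L)) (T L (S L L)))) (F 16 (U (T (S L L) (S L L)) (T (S L L) (S L L)))))) (F 16 (S (U (V (T (S L L) (S L L)) (T (S L L) (S L L))) (V (T L (S L L)) (T L (S L L)))) (U (V (T (S L L) (S L L)) (T (S L L) (S L (S L L)))) (V (T (S L L) (S L L)) (T (S L L) (S L L)))))))))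
noncomputable def w2_50 : Tr := (V (T (S (V (F 1 (U (T (F 2 (S L L)) (S L L)) (T L (S L L)))) (F 16 (U (T (S L L) (S L L)) (T (S L L) (S L L))))) (U (F 1 (V (T (U (S L L) L) (U (S L L) L)) (T (F 2 (S L L)) (S L L)))) (V (F 1 (T (S L L) (S L L))) (T (F 16 (S L L)) (F 1 (S L L)))))) (U (S (F 1 (V (T (S L L) (S L L)) (T (F 2 (S L L)) (S L L)))) (F 1 (V (T (T L L) (S L L)) (T (S L L) L)))) (S (V (F 1 (T (S L L) (S L L))) (T (F 16 (S L L)) (S L L))) (F 1 (V (T L (S L L)) (T L L)))))) (T (F 16 (U (S (V (T (S L (S L L)) (S L L)) (T (S (S L L) (S L L)) (S (S L L) L))) (V (T (S L L) (S L L)) (T (S L L) L))) (S (V (T (S L L) (S L L)) (T (S L L) (S L L))) (V (T (S L L) (S L L)) (T (S L L) (S L L)))))) (S (F 16 (U (V (T (S L L) (S L L)) (T (S L L) (S L L))) (V (T (S L L) (S L L)) (T (S L L) (S L L))))) (U (V (S L L) L) (V (T L (S L L)) (F 16 (T L L)))))))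
noncomputable def w2_51 : Tr := (V (T (S (V (F 1 (U (T (F 2 (S L L)) (S L L)) (T L (S L L)))) (F 16 (U (T (S L L) (S L L)) (T (S L L) (S L L))))) (V (F 1 (U (T (S L L) (S L L)) (T (S L L) (S L L)))) (U (T (F 16 (S L L)) (F 1 (S L L))) (T (F 16 (S L L)) (S L L))))) (S (V (F 1 (U (S (T L L) (T L L)) (S (S L L) (S L L)))) (F 16 (U (S (T L L) (F 16 (T L L))) (S (S L L) (S L L))))) (U (F 1 (V (S (T L L) (T L L)) (T (S L L) (S (S L L) L)))) (V (F 1 (S (S L L) (S L L))) (S (T L L) (F 1 (S L L))))))) (T (F 16 (S (U (V (T (S L L) (S L (S L L))) (T (S L L) (S L (S L L)))) (V (S (S L L) (S L L)) (T (S L L) (S L L)))) (U (V (T (S (S L L) L) (S L L)) (S (T L L) (T L L))) (V (T (S L L) (S L L)) (T (S L L) (S L L)))))) (S (F 16 (U (V (S (T L (S L L)) (T L (S L L))) (S (T (S L L) (S L L)) (T (S L L) (S L L)))) (V (S (T L L) (T L L)) (S (S L L) (T L L))))) (U (F 16 (V (S (T L L) (T L L)) (S (T (S L L)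 L) (T L L)))) (V (S (F 16 (S L L)) (S L L)) (F 16 (S (S L L) (S L L))))))))
noncomputable def w2_52 : Tr := (F 1 (S (F 1 (V (T (F 2 (S (U (S L L) L) (U (V L (S L L)) (S L L)))) (S (F 2 (U (V L (S L L)) (S L L))) (V (F 32 (U (S L L) L)) (F 2 (U (S L L) L))))) (F 2 (T (S (U (V L L) (S L L)) (U (V (S L L) (S L L)) (T L L))) (S (U (V (S L L) (S L L)) (S L L)) (U (V (S L L) (S L L)) (V L (S L L)))))))) (F 1 (V (T (S (V (F 32 (U (S L L) L)) (F 2 (U (S L L) L))) (U (V (F 32 (S L L)) (T L L)) (V L (S L L)))) (S (U (V (F 32 (S L L)) (T L L)) (V L (S L L))) (U (F 32 (V (S L L) (S L L))) (T L L)))) (T (F 2 (S (U (V (S L L) (T L L)) (V L (S L L))) (U (V (S L L) (S L L)) (V L L)))) (S (F 2 (U (V (S L L) (S L L)) (V L L))) (V (U (S L L) L) (F 2 (T (S L L) L)))))))))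
noncomputable def w2_53 : Tr := (S (F 64 (V (T (S (U (V (F 32 (S L L)) (F 2 (S L L))) (V L L)) (V (F 32 (U (S L L) L)) (U (T L (S L L)) (S L L)))) (S (U (V (F 32 (S L L)) (S L (S L L))) (V L (S L L))) (U (V (F 32 (S L L)) (S (S L L) L)) (V (F 32 (S L L)) (S L L))))) (S (F 2 (T (U (V (S L L) (S L L)) (V L L)) (U (V (S L L) (S L L)) (V (S L L) (S L L))))) (T (F 2 (U (V (S L L) (S L L)) (V L (S L L)))) (V (U (S L L) (S L L)) (F 2 (U (S L L) L))))))) (V (F 64 (T (S (U (V (F 32 (S L L)) (S L L)) (V L (S L L))) (F 32 (U (V (S L L) (S L L)) (S L L)))) (F 32 (S (U (V (S L L) (S L L)) (T L L)) (U (V L L) (S L L)))))) (S (F 64 (T (V (U (S L L) L) (F 2 (U (S L L) L))) (U (V (S L L) (S L L)) (S L L)))) (T (F 64 (U (V (S L L) L) (S L L))) (U (S L L) (S L L))))))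
noncomputable def w2_54 : Tr := (V (T (F 32 (S (U (V (T (S L L) (F 1 (S L L))) (T (S L L) (F 1 (S L L)))) (F 1 (V (S L L) (T L L)))) (F 1 (V (U (T (S L L) (S L (S L L))) (T (S L L) (S L L))) (U (T (S L (S L L)) (S L (S L L))) (T (S L L) (S L L))))))) (F 96 (S (V (U (T (S L L) (S L L)) (T (S L L) (S L L))) (U (T (S L L) (S L L)) (S (S L L) (S L L)))) (V (U (T (S L (S L L)) (S L (S L L))) (T (S L L) (S L L))) (U (T (S L (S L L)) (S L L)) (T (S L L) (S L L))))))) (U (T (S (F 64 (V (F 1 (T L (S L L))) (T (F 1 (U L L)) (U (S L L) (S L L))))) (F 96 (V (T (S L L) (S L L)) (U (T (S L L) (S L L)) (T (S L L) (S L L)))))) (F 64 (S (V (T (F 1 (S L L)) (F 1 (S L L))) (U (S (T L L) (F 1 (S L L))) (S (T L L) (F 1 (T L L))))) (F 1 (V (T (S L (S L L)) (S L L)) (U (T (S L L) (S L L)) (T (S L L) (S L L)))))))) (F 64 (T (S (V (F 1 (T L L)) (T L L)) (F 1 (V (T (S L L) (S L L)) (T (S L L) (S L L))))) (S (V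 (T (F 1 (S L L)) (F 1 (S L L))) (S (S L L) (F 1 (T L L)))) (F 1 (V (T (S L L) (S L L)) (T (S L L) (S L L)))))))))
noncomputable def w2_55 : Tr := (V (T (S (V (U (T (S (S L L) (S L L)) (S (S L L) L)) (T (S L L) (S L L))) (U (T (S (S L L) L) (S (S L L) L)) (T (S L L) (S L L)))) (U (V (T L L) (T L L)) (V (T (S L L) (S L L)) (T (S L L) L)))) (S (U (V (T (S (S L L) L) (S L L)) (T (S L L) L)) (V (T (S L L) (S L L)) (T (S L L) (S L L)))) (U (T L L) (V (S L L) (S L L))))) (U (T (V (S (T (S (S L L) L) (S L L)) (T L L)) (S (U (T (S L L) L) (T (S L L) (S L L))) (U L (T L L)))) (V (T (V L L) (T L L)) (S (U (T L L) (T (S L L) (S L L))) L))) (T (S (V (T (S L L) (S L L)) (T (S L L) (S L L))) (V (T (S L L) L) (T (S L L) L))) (S (V (T (S L L) (S L L)) (T (S L L) (S L L))) (V (S L L) (T L L))))))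
noncomputable def w2_56 : Tr := (S (F 1 (U (T (S (V (T (F 1 (S L L)) (F 1 (S L L))) (U (S (T L L) (F 1 (T L L))) (S (T L L) (F 1 (T L L))))) (F 1 (V (T (S (S L L) L) (S (S L L) L)) (U (T (S L L) (S L L)) (T (S L L) (S L L)))))) (S (V (F 1 (S (T L (S L L)) (T (S L L) (S L L)))) (U (S (T L (S L L)) (F 1 (T L L))) (S (V L (S L L)) (F 1 (T L L))))) (F 1 (V (S (T L (S L L)) (T L L)) (U (S (T L L) (S L L)) (V (S L L) (T L L))))))) (S (T (V (T (F 1 (S L L)) (F 1 (S L L))) (S (T L L) (F 1 (T L L)))) (V (F 1 (S (T L L) (T L L))) (S (T L (S L L)) (F 1 (T L L))))) (F 1 (T (V (T (S L L) (S L L)) (T (S L L) (S L L))) (V (S (T L L) (S L L)) (T (S L L) (S L L)))))))) (F 64 (U (T (F 32 (S (V (T L L) (U L (T (S L L) L))) L)) (S (V L (T (F 32 (T L L)) L)) L)) (T (F 32 (V (S (T (S L L) L) L) (S (T (S L L) (S L L)) (T L L)))) (S (F 32 (V (S L L) (T L (U L L)))) (V L (U L L)))))))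
noncomputable def w2_57 : Tr := (T (F 10 (S (F 128 w2_54) (F 131 w2_55))) (F 513 (V (S (F 160 (T (F 32 (S (V (U (T (S L L) (S L L)) (S (S L L) (T L L))) (U (T (S L L) (S L (S L L))) (S (S L L) (T L L)))) (V (U (T (S (S L L) L) (S L L)) (T (S L L) (S L L))) (U (T (S L L) (S L L)) (T (S L L) (S L L)))))) (F 32 (S (V (U (S (T L (S L L)) (T (S L L) (S L L))) (S (S L L) (T L L))) (U (S (T L (S L L)) (T (S L L) (S L L))) (S (T L L) (T L L)))) (V (U (S (T L L) (T L L)) (S (S L L) (S L L))) (U (S (T L L) (T L L)) (S (S L L) (S L L)))))))) (F 1 (T (F 5 (U (S (V (T L L) (T L L)) L) (S (V (T (S L L) L) (T (S L L) L)) (V L L)))) (S (F 5 (U (V L L) (V (S L L) (S L L)))) (F 4 (V L L)))))) (F 32 w2_56))))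
noncomputable def w2_58 : Tr := (S (F 64 (T (F 1 (S (V (U (V (S L L) (S L L)) (V L (S L L))) (U (T (S L L) (S L (S L L))) (V L L))) (V (U (V (T L L) (T L L)) (V (S L L) (T L L))) (U (T (V (S L L) L) (V (S L L) L)) (V (S L L) (S L L)))))) (V (F 1 (U (S (V (S L L) (S L L)) (V (T L L) (T L L))) (S (V L (S L L)) (V (S L L) (S L L))))) (S (T (F 1 (U (S L (S L L)) (S L L))) (U (V (F 1 (S L L)) (S L L)) (F 1 (S L L)))) (F 1 (U (T (V (S L L) (S L L)) (V (S L L) (S L L))) (V (S L L) (S L L)))))))) (F 96 (T (V (U (S (V (T L L) (T (S L L) L)) (V (S L L) (S L L))) (S (V (S L L) (T L L)) (V L (S L L)))) (S (U (T (V (S L L) (S L L)) (V (S L L) L)) (V (S L L) (S L L))) (U (V (U (S L L) L) (S L L)) (V L L)))) (V (U (S (V (S L L) (S L L)) (V L (S L L))) (S (V (S L L) (S L L)) (V L L))) (S (U (V (U (S L L) L) (T L L)) (V (S L L) (S L L))) (U (T (S L L) (S L L)) (T L L)))))))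
noncomputable def w2_59 : Tr := (S (F 5 (V (F 1 (U (S (T (V (S L L) (S L L)) (V (S L L) (S L (S L L)))) (T (V (S L L) (T L L)) (V (S L L) (S L L)))) (S (T (V (S L L) (T L L)) (V (S L L) (S (S L L) L))) (T (V (S L L) (S L L)) (V L (S L L)))))) (S (T (U (V (F 1 (U (T L (S L L)) (S L L))) (S (S L L) (F 1 (S L L)))) (V (F 1 (S L L)) (S L L))) (U (V (F 1 (U (T (S L L) (S L L)) (S L L))) (S (T L L) (F 1 (S L L)))) (V (F 1 (S L L)) (S L L)))) (F 1 (T (U (T (V (S L L) (S L L)) (V (S L L) L)) (V (S L L) (S L L))) (U (V (U (S L L) (S L L)) (T (S L L) L)) (V (S L L) (S L L)))))))) (F 128 (T (F 80 (V (U (S (V (S L L) (S L L)) (T L L)) (S (V L (S L L)) (S L L))) (S (U (V (U (S L L) L) (S L L)) (V L L)) (U (T (S L L) L) (S L L))))) (S (F 80 (V (U (V L L) (V L L)) (U (V (U (S L L) L) (S L L)) (V L L)))) (V (U (S L L) (S L L)) (F 16 (U (V (S L L) L) (S L L))))))))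
noncomputable def w2_60 : Tr := (U (F 1024 (U (F 1 (T (S (F 41 (V (F 130 (U (S L L) (T (S (S L L) L) (F 64 (S L L))))) (V (F 128 (U (T (F 64 (T (S L (K 5)) (K 5))) (K 1)) (T (S (V (U L (F 64 (T L L))) (T (S L L) L)) (F 192 (V L (K 4)))) (F 128 (S (V (F 1 (S L L)) (S L (K 5))) (K 5)))))) (U (K 6) (S (T (V (F 128 (T L L)) (V L L)) (F 129 (V (S L (K 1)) (S L (K 1))))) (K 6)))))) (F 3085 (V (T L L) (K 5)))) (F 2049 (S (F 256 (V (F 256 (U L (F 64 (V L (F 4 (T (S L (K 4)) (K 4))))))) (F 8 (V (K 5) (U (K 5) (F 64 (T (V (K 1) L) L))))))) (K 6))))) (F 4097 w2_48))) (F 8197 (V (U (T (F 518 (S w2_49 (F 129 w2_50))) (F 1027 (S (F 129 w2_51) (F 128 (V (S (F 65 (T (U (V (T (S L L) (S L L)) (T (S L L) (S L L))) (V (T L (S L L)) (T (S L L) (S L L)))) (U (V (T (S L L) L) (T L L)) (V (S L L) (S L L))))) (F 65 (U (T (V (S L L) L) L) (T (V (S L (S L L)) (S L L)) (V (S L L) L))))) (T (F 64 (U (S (V (T (F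 2 (S L L)) (S L L)) (F 2 (T L L))) (T L L)) (S (V (T (F 2 (S L L)) (S L L)) (F 2 (T L L))) (V (S L L) (S L L))))) (S (F 64 (U (V (T L L) L) (V (S (S L L) L) (S L L)))) (U L (V L L))))))))) (F 1030 (T w2_52 (F 128 w2_53)))) (F 4 (U w2_57 (F 1 (T (F 320 w2_58) (F 1 w2_59))))))))
noncomputable def w2_61 : Tr := (V (F 64 (U (S (U (T L (K 4)) (T (F 32 (V L (S L L))) (S (F 32 (V (S L L) L)) (K 4)))) (K 4)) (T (F 32 (S (V (S (T (V L L) (V L (S L L))) (U (T L L) (T L L))) (S (F 2 (T (S L L) (S L L))) (U (S L L) (T L L)))) (V (T L L) (T L L)))) (S (V (F 32 (S (T (U (S L L) (S L L)) (F 8 (V L L))) (U L (T L L)))) (S (F 32 (T (F 2 (V L L)) (F 8 (S L L)))) (F 32 (T (V L L) L)))) (V (T (S L L) L) (T L L)))))) (S (F 4 (T (F 32 (U (U (K 0) (V (T L L) L)) (V (U (V L (T L L)) (S (T L L) (T L L))) (U (T (S L L) (S L L)) (S (T L L) (T L L)))))) (U (S (F 32 (V L L)) (K 4)) (V (S (F 32 (T (V L (S L L)) (F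 20 (S L L)))) (F 1 (T L L))) (F 4 (S (F 1 (T (S L L) (S L L))) (T L (S L L)))))))) (U (K 1) (T (V (F 1 (S L L)) (F 4 (S L (K 4)))) (V (F 64 (S L (K 4))) (F 20 (S L L)))))))
noncomputable def w2_62 : Tr := (V (F 32 (S (T (F 1 (U (S (U (K 1) (V (S L L) (S L (K 1)))) (K 1)) (V (S (T (F 1 (V L L)) (U (S L L) (S L L))) (U (S L L) (T L L))) (S (U (T (S L L) (S L L)) (T L (S L L))) (U L (T L L)))))) (F 1 (U (U (K 1) (V (S (S L L) (K 1)) (T L (S L L)))) (V (S (T (U (S L L) (S L L)) (V L L)) (U (S L L) (T L L))) (S (T (U (S L L) (S L L)) (U (S L L) L)) (U (T L L) (T L L))))))) (F 1 (U (K 1) (T (V (S (T L L) L) (T L (S L L))) (V (S (T L (S L L)) (S L L)) (S (T L (S L L)) (S L L)))))))) (F 64 (U (T (S (F 8 (U (K 1) (V (F 16 (S L (K 2))) (T L L)))) (K 4)) (F 1 (S (U L (V (S L L) L)) (V (K 1) (S L (K 1)))))) (S (T (V (F 1 (S (F 4 (U (T L L) (S L L))) (T L (S L L)))) (F 8 (S (T (S L (S L L)) (V L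 (S L L))) (U L (T L L))))) (V (F 1 (S (T (F 4 (S L L)) (U L L)) (U (T L L) (T L (S L L))))) (F 8 (S (T (V L L) (F 16 (S L L))) (F 16 (U (S L L) (S L L))))))) (T (V (F 1 (T L (S L L))) (T L (F 1 (S L L)))) (F 1 (V (S (T L (S L L)) (S L L)) (S (T L (S L L)) (T L L)))))))))
noncomputable def w2_63 : Tr := (U (V (F 64 (S (T (F 32 (V (T L L) (T L L))) (F 4 (V (S L (K 1)) L))) (K 4))) (U (V (S L (K 1)) L) (T (V (F 64 (T L L)) (S (F 1 (V L L)) L)) (F 72 (S L L))))) (V (T (S (F 1 (V (F 1 (S (T (V L L) (V L L)) (U L (T L L)))) (U (F 1 (T (S L L) (S L L))) (F 1 (S (T L L) (T L L)))))) (F 64 (V (S L L) (T L L)))) (F 72 (S (V (S (F 16 (U (S L L) (S L L))) (T L (S L L))) (S (F 16 (T (S L L) (S L L))) (U L (S L L)))) (V (T L L) (T L L))))) (T (S (F 1 (V (F 1 (S (T (S L L) (F 4 (S L L))) (T (S L L) L))) (U (T (S (S L L) L) (F 9 (S L L))) (V (F 1 (T (S L L) (F 4 (S L L)))) (S (S L L) L))))) (F 64 (T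 (F 32 (V L (U L (T L L)))) (F 4 (V L (V (S L L) L)))))) (F 72 (S (U (V (S L (S L L)) (S L L)) (V (S (F 16 (S L L)) (S L L)) (V (S L (S L L)) (S L L)))) (U (V L L) (V (T L L) (V (S L L) (S L L)))))))))
noncomputable def w2_64 : Tr := (S (F 32 (T w2_63 (F 8 (U (F 1 (T (V (S L L) (S L L)) (S (V L (K 2)) (S L L)))) (V (F 1 (T (S (V (S (T (V (S L L) L) (V L L)) (U (T L L) (S L L))) (U (S L L) (S (S L L) (S L L)))) (V (S (T L L) L) (U (S L L) (T L (S L L))))) (S (V (U (S L (S L L)) (S (S L L) (T L L))) (S L (S L L))) (U (V (S (S L L) L) (S L L)) (V (S (T L L) (T L L)) (S (S L L) (T L L))))))) (S (T (U (F 1 (S L L)) (F 1 (V (S L L) (S L L)))) (F 1 (S L L))) (F 1 (T (U (S L L) (V (S (S L L) (S L L)) (S L L))) (V (S L (U L L)) L))))))))) (F 1 (T (U (K 1) (V (T (K 1) (F 16 (S (F 8 (S L (K 1))) (K 4)))) (F 4 (S (T (T L L) (F 4 (T L (S L L)))) (F 4 (T (K 1) L)))))) (F 16 (U (S (T (F 8 (S L L)) (S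 L (T L L))) (V (K 4) (F 8 (T (K 1) L)))) (V (S (T (V (S L (K 4)) (F 8 (S L L))) (V (F 1 (S L L)) (F 8 (S (T L (S L L)) (S L L))))) (T (S L (K 4)) (S (V L L) (F 1 (S L L))))) (F 8 (S (T (U (S L L) (V (S L L) (S (S L L) L))) (U (S (S L L) (S L L)) (V (S (T L L) (S L L)) (T (S L L) L)))) (T (U (S L L) (S L L)) (U (S (T L L) (S L L)) (S (V (S L L) (T L L)) (T L (V L L)))))))))))))
noncomputable def w2_65 : Tr := (V (F 128 (S (F 64 (T (U (F 32 (V (S (T (S L L) (S L L)) (T (S L L) (S L L))) (S (F 8 (T L L)) (V (S L L) (F 8 (S L L)))))) (V (F 32 (S (T L L) (S L L))) (S (T L L) (F 32 (T L L))))) (F 32 (U (V (S (T (S L L) (F 2 (S L L))) (T (S L L) L)) (S (T (S L L) (F 2 (S L L))) (T (S L L) L))) (V (S (T (S L L) L) (T L L)) (S (T (S L L) L) (S L L))))))) (F 1 (T (F 1 (V (U (S (T L (S L L)) (T L L)) (S (S L L) (S L L))) (U (S (T (S L L) L) (T L L)) (S (S L L) L)))) (V (U (S (T L (F 16 (S L L)))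 (T L L)) (T (F 1 (S L L)) (F 16 (S L L)))) (U (S (T L L) (S L L)) (F 16 (S (S L L) L)))))))) (S (T (F 5 (U (F 1 (V (S (T (S L L) (S L L)) (T (S L L) (S L L))) (S (T (S L L) (S L L)) (T (S L L) (S L L))))) (F 1 (V (S (T L L) (S L L)) (S (T L L) (T L L)))))) (F 128 (S (F 80 (U (V (V (F 16 (S L L)) (F 4 (S L L))) (F 4 (U (S L L) L))) (F 4 (V (S L L) (S L L))))) (F 4 (V (F 1 (U (F 8 (T L L)) (S L L))) (F 4 (U (T L (S L L)) (S L L)))))))) (F 128 (T (F 64 (V (U (S (F 2 (T L L)) (T L L)) (S (T L L) (S L L))) (F 2 (U (S (T L L) (S L L)) (S (S L L) L))))) (F 4 (U (V (S (F 32 (T L L)) (F 32 (S L L))) (F 4 (S (T L L) (S L L)))) (V (S (T L L) L) (S (F 4 (S L L)) (S L L)))))))))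
noncomputable def w2_66 : Tr := (V (F 1 (S (T (U (V (S (T (F 1 (S L L)) (S L L)) (T (S L L) (S L L))) (S (T (F 1 (S L L)) (S L L)) (T (S L L) (S L L)))) (V (S (T L L) (T L L)) (S (T L L) (T L L)))) (U (S (V (T (S L L) (S L L)) (T (S L L) (S L L))) (V (T (S L L) (S L L)) (T (S L L) (S L L)))) (V (S (T L L) (T L L)) (S (T L L) (T L L))))) (T (V (S (U (T (S L L) (S L L)) (S L L)) (U (T L (S L L)) (S L L))) (U (S (T L (S L L)) (T L L)) (S (S L L) (S L L)))) (S (U (V (T (S L L) (S L L)) (T (S L L) (S L L))) (V (T L L) (T L L))) (V (U (T (S L L) (S L L)) (T L L)) (U (T (S L L) (S L L)) (T L L))))))) (S (T (V (U (F 1 (S (F 4 (T (S L L) (S L L))) (V (S L L) (F 4 (S L L))))) (S (T L L) (F 1 (S L L)))) (F 8 (U (S (T (S L L) (S L L)) (T (S L L) (S L L))) (S (T L L) (T L L))))) (V (F 1 (U (S (T (S L L) (S L L)) (T (S L L) (S L L))) (S (T L L) (T L L)))) (U (F 8 (S (T (S L L) (S L L)) (T (S L L)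 L))) (S (F 8 (T L L)) (T L L))))) (T (V (F 1 (U (S (T (S L L) (S L L)) (T L L)) (S (S L L) (S L L)))) (U (S (F 8 (T L (S L L))) (T (S L L) (F 1 (S L L)))) (S (T L (S L L)) (T L L)))) (F 1 (U (S (V (T (S L L) (S L L)) (T (S L L) (S L L))) (V (T (S L L) (S L L)) (T (S L L) (S L L)))) (S (V (T L L) (S L L)) (V (T L L) (T L L))))))))
noncomputable def w2_67 : Tr := (T (V (S (F 64 (T (V (F 32 (U (S L L) (S L L))) (U (S (S L L) (S L L)) (S L L))) (F 40 (U (V (S L L) (S L L)) (V L L))))) (T (F 65 (U (V (S L L) (S L L)) (V (S L L) L))) (F 5 (U (V (S L L) (S L L)) (V (S L L) L))))) (S (F 64 (T (F 2 (U (V (S L L) (S L L)) (V (S L L) (S L L)))) (F 8 (V (U (S L L) (S L L)) (F 8 (U (S L L) L)))))) (T (F 64 (V (U (S L L) (S L L)) (F 2 (U (S L L) L)))) (F 4 (U (V (S L L) (S L L)) (V (S L L) (S L L))))))) (F 4 (S (V (F 32 (T (U (V (S (S L L) (S L L)) (S (S L L) L)) (V (S L L) (S L L))) (U (S (V (S L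 L) (S L L)) (V (S L L) (S L L))) (V (S L L) (S L L))))) (T (U (V (S (S L L) (S L L)) (F 4 (S (S L L) L))) (V (S L L) (F 4 (S L L)))) (U (V (F 32 (S L L)) (S L (S L L))) (V (F 32 (S L L)) (S L L))))) (V (F 32 (U (T (S (V (S L L) L) (V L L)) (S (V (S L L) (S L L)) (V (S L L) (S L L)))) (T (V (S L L) (S L L)) (S (T L L) (V (S L L) L))))) (T (V (F 32 (U (S L L) (S L L))) (U (S (S L L) L) (S L L))) (S (V (F 32 (U (S L L) L)) (T (S L L) L)) (F 32 (U (V (S L L) L) (S L L)))))))))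
noncomputable def w2_68 : Tr := (V (F 1 (S (T (U (V (S (T L L) L) (S (S L L) L)) (S (V (S L L) (S L L)) (V (S L L) (S L L)))) (S (V (U (T (S L L) (S L L)) (T L L)) (U (T (S L L) (S L L)) (T L L))) (V (U (T L L) (S L L)) (U (T L L) (S L L))))) (U (T (V L L) (V (S (S L L) (S L L)) (S (S L L) L))) (T (V (S (T L L) (S L L)) (S L L)) (V (S (U (S L L) (S L L)) (T L L)) (S (S L L) (S L L))))))) (S (T (U (F 1 (V (S (S L L) L) (S (T L L) L))) (S (V (F 1 (S L L)) (S L L)) (F 1 (V (S L L) (S L L))))) (F 1 (U (V (S (T (S L L) (S L L)) (T L (S L L))) (S (T (S L L) (S L L)) (T L (S L L)))) (S (V (T L L) (T L L)) (V (T L L) (T L L)))))) (F 1 (T (U (V L L) (S (V L L) (V L L))) (U (S (V (S L L) (S L L)) (V L L)) (S (V (S L L) (S L L)) (V (S L L) (S L L))))))))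
noncomputable def w2_69 : Tr := (T (V (F 64 (T (S (U (V (F 32 (S L L)) (S L L)) (V L (S L L))) (U (S (T L L) L) (S L L))) (F 2 (S (U (V (S L L) (S L L)) (V L (S L L))) (S (U (T L L) L) (U L L)))))) (S (T (U (V (S L L) (S L L)) (V L L)) (F 16 (V (F 1 (S L L)) (U (S L L) L)))) (U (T (V L L) (F 16 (V L (S L L)))) (T (S L L) (F 16 (S L L)))))) (F 16 (S (V (F 1 (U (T (V (S (S L L) (S L L)) (S L L)) (V (S (U L L) (T L L)) (S (S L L) (S L L)))) (T (S (T L L) (S L L)) (S (T L L) (T L L))))) (T (S (V (F 1 (S L L)) (T L L)) (F 1 (U (T L L) L))) (F 1 (S (U (V (S L L) L) (S L L)) (U (V (S L L) (S L L)) (S L L)))))) (F 1 (T (V (S (U (T L L) (S L L)) (U (S L L) L)) (U (S (S L L) (S L L)) (S L (S L L)))) (V (S (U (V L (S L L)) (S L L)) (U (T (S L L) (S L L)) (S L L))) (U (S (V (S L L) (S L L)) (V L L)) (S (S L L) (V L L)))))))))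
noncomputable def w2_70 : Tr := (V (F 1 (S (T (F 1 (V (U (S (T (S L L) (S L L)) (T (S L L) (S L L))) (S (T L L) (T L L))) (U (S (T (S L L) (S L L)) (T (S L L) (S L L))) (S (T L L) (T L L))))) (F 8 (V (U (S (F 16 (T L L)) (T L (S L L))) (S (F 16 (S L L)) (S L L))) (U (S (F 16 (V L L)) (T L (S L L))) (S (F 16 (S L L)) (S L L)))))) (T (V (U (S (F 1 (T L L)) (F 1 (S L L))) (F 1 (S (S L L) L))) (U (T (F 1 (S L L)) (F 8 (S L L))) (T (F 1 (S L L)) (F 8 (S L L))))) (F 8 (V (U (S (T L L) (S L L)) (S (S L L) (S L L))) (U (S (T L L) (T L L)) (S (S L L) (S L L)))))))) (V (F 1 (T (S (F 1 (U (T (S (S L L) (S L L)) (F 4 (S L L))) (T (S L L) (F 4 (S L L))))) (U (T (F 1 (S L L)) (F 8 (S L L))) (T (F 1 (S L L)) (F 8 (S L L))))) (F 8 (S (U (S (F 16 (T L L)) (T L (S L L))) (S (F 16 (S L L)) (T L L))) (U (S (T L L) (T L L)) (S (S L L) (S L L))))))) (U (T (S (F 64 (U (T (S L L) (F 36 (S L L))) (T (S (S L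 L) L) (F 36 (S L L))))) (F 1 (T (F 1 (S (U L L) L)) (F 8 (S L L))))) (F 9 (S (S (F 1 (U (S L L) (S L L))) (T L L)) (S (T L L) (T L L))))) (T (S (F 64 (T (F 32 (S L L)) (F 36 (S L L)))) (F 1 (S (F 1 (U L L)) (F 8 (U (S L L) L))))) (F 9 (S (S (F 1 (S L L)) (U (S L L) L)) (U (S (S L L) (S L L)) (S L L))))))))
noncomputable def w2_71 : Tr := (V (S (F 8 (T (V (U (S (T (S L L) (S L L)) (T (S L L) (S L L))) (S (T L L) (S L L))) (U (S (T (S L L) L) (T L L)) (S (S L L) (S L L)))) (U (V (S (T L L) (T L L)) (S (T L L) (T L L))) (V (S (S L L) (S L L)) (S (S L L) (S L L)))))) (T (F 8 (U (V (S (T L L) (T L L)) (S (T L L) (T L L))) (V (S (S L L) (S L L)) (S (S L L) (S L L))))) (U (F 8 (V (S (T (S L L) L) (T (S L L) (S L L))) (S (T L L) (T L L)))) (S (F 8 (V (S L L) (S L L))) (F 8 (V (S L L) (S L L))))))) (F 8 (U (S (T (V (S (T L L) (T L L)) (T (S L L) (S L L))) (V (S L (S L L)) L)) (T (V (S (T L L)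 (T L L)) (T (U (S L L) L) (U (S L L) L))) (S (T (U L (S L L)) (V L L)) (T (V L (S L L)) (V L (S L L)))))) (T (S (V (T (S L L) (S L L)) (U (S L L) (S L L))) (V (S (S L L) (S L L)) (U (S L (S L L)) (S L L)))) (S (V (T L L) (U (S L L) L)) (V (S (S L L) (S L L)) (U (S L L) (S L L))))))))
noncomputable def w2_72 : Tr := (V (S (T (U (V (S (F 8 (T L L)) (T L L)) (F 8 (S (T L L) (T L L)))) (V (S (S L L) (S L L)) (F 8 (S (S L L) (S L L))))) (V (S (U (T (S L L) (F 1 (S L L))) (T L L)) (F 1 (U (T L (S L L)) (S L L)))) (F 8 (U (S (T L L) (T L (S L L))) (S (S L L) (S L L)))))) (T (U (S (V L L) (S L L)) (S (V (S L L) (F 8 (S L L))) (V L (S L L)))) (U (S (V (F 1 (T L (S L L))) (T L (F 1 (S L L)))) (F 1 (V (S L L) (T L (S L L))))) (S (V (F 1 (S L L)) (T L L)) (F 1 (V (S L L) (S L L))))))) (F 8 (S (T (U (S (T (V L (S L L)) (V L (S L L))) (T (V L (S L L)) (V L (S L L)))) (V (S (S L L) (S L L)) (S (T L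 L) (T L L)))) (U (S (T (V L (S L L)) (V L (S L L))) (T (V L (S L L)) (V (S L L) (S L L)))) (V (S (S L L) (T L L)) (S (T L L) (T L L))))) (U (T (S (T (U L L) (V L (S L L))) (T L (U L (S L L)))) (S (T (V L (S L L)) (V (S L L) (S L L))) (T (V L (S L L)) (V (S L L) (S L L))))) (T (V (S (S L L) (S L L)) (S (T L L) (T L L))) (S (V (S L L) (T L L)) (V (T L L) (T L (S L L)))))))))
noncomputable def w2_73 : Tr := (T (F 4 (T (F 1 (S (F 1 (V (U (V (S (S L L) L) (S (S L L) L)) (V (S L L) (T (S L L) L))) (U (V (U (T (S L L) L) (S L L)) (T (S L L) L)) (V (S L L) (S L L))))) (V (F 1 (U (V (S L L) (S L L)) (V L (S L L)))) (U (T (F 1 (V (S L L) L)) (F 8 (V (S L L) L))) (F 1 (V L L)))))) (F 9 (V (U (S (V (S L L) (S L L)) (V (S L L) (S L L))) (S (F 1 (V L (S L L))) (V L (S L L)))) (S (U (V (U (S L L) L) (S L L)) (F 1 (V L L))) (U (V (U (S L L) L) (S L L)) (V L L))))))) (F 144 (S (F 8 (V (U (T (V (S L L)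 (S L L)) (V (S L L) (S L L))) (T (V (S L L) (S L L)) (V L (S L L)))) (T (U (V (U (S L L) L) (S L L)) (V L L)) (U (V (S L L) L) (S L L))))) (T (F 8 (V (U (V (S L L) (S L L)) (V (S L L) (S L L))) (U (V (U (S L L) L) (S L L)) (V L L)))) (V (U (S (F 8 (V L L)) (V (S L L) L)) (S (F 8 (S L L)) (S L L))) (F 8 (U (S (T L L) (T L L)) (S L L))))))))
noncomputable def w2_74 : Tr := (T (S (V (T (F 16 (U (V (S L L) (S L L)) (V L (S L L)))) (F 4 (U (V (S L L) (F 4 (S L L))) (V L (F 4 (S L L)))))) (F 16 (T (U (V (V L (F 8 (S L L))) (F 8 (S L L))) (F 8 (V L L))) (F 8 (U (V (S (S L L) L) (S L L)) (V L L)))))) (V (T (V (S L L) (F 20 (U L L))) (F 4 (U (S (S L L) (S L L)) (S L L)))) (F 20 (T (U (S L L) (S L L)) (U (S (S L L) (S L L)) (S L L)))))) (F 4 (S (T (V (U (V (S L L) (F 4 (S L L))) (V (S L L) (F 4 (S L L)))) (F 4 (U (S (T L L) (T L L)) (V L L)))) (V (U (S (V (S L L) L) (V L (S L L))) (S (T L L) (T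 L L))) (F 4 (U (S (T L L) (T L L)) (S L (S L L)))))) (V (T (U (S (V L L) (V L L)) (V (S L L) (S L L))) (V (F 32 (U (S L L) (S L L))) (U (S (S L L) (S L L)) (S L L)))) (T (F 4 (U (S (T L L) (T L L)) (S L L))) (U (F 4 (V (S L L) (S L (S L L)))) (S (F 4 (S L L)) (S L L))))))))
noncomputable def w2_75 : Tr := (V (S (F 2 (U (T w2_65 (F 144 w2_66)) (F 128 w2_67))) (F 3 (U (T (V (F 64 (S (T (U (V (T L L) (S L L)) (V (S L L) (S L L))) (U (V (T L L) (F 2 (S L L))) (F 2 (V (S L L) (S L L))))) (U (T (S L L) (F 2 (S L L))) (T (V (U L L) L) (F 2 (V (U L L) (S L L))))))) (S (T (U (V L (S L L)) (V (T L L) (S (S L L) L))) (F 16 (U (V (F 1 (S L L)) (S L L)) (V (F 1 (S L L)) (S (S L L) L))))) (T (V (F 64 (S L L)) (S L L)) (F 80 (U L (V L L)))))) (F 16 w2_68)) w2_69))) (U (S (F 2 (T (F 4 w2_70) (F 144 w2_71))) (F 3 (T (V (T (S (F 4 (U (V L (S L L)) (V (S L L) (S (S L L) L)))) (U L (V L L))) (F 16 (S (U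 (F 8 (V (S L L) (T L L))) (V (S L L) (F 8 (S L L)))) (U (S L L) (S (V L L) (T L L)))))) (F 4 (U (T (S (V (T L L) (F 4 (T L (S L L)))) (F 4 (S L L))) (F 4 (S (V (T L (S L L)) (U (S L L) (S L L))) (S (T L L) L)))) (S (T (V (T (S L L) L) (F 4 (U (S L L) (S L L)))) (F 4 (V (S L L) (U (S L L) (S L L))))) (F 4 (T (V L (U L L)) (V (S L L) (U (S L L) (S L L))))))))) (F 16 w2_72)))) (F 2 (S w2_73 (F 128 w2_74)))))
noncomputable def treeW2 : Tr := (F 0xfffffffffffffffdffffffffffffffffe739fce77739ce6773 (S (F 263066 (T (F 140034 (U (F 1056 w2_9) (F 13 (U (F 8 w2_13) (F 1024 w2_15))))) (F 262146 (U (F 784 w2_28) (F 33557 w2_43))))) (F 16842754 (T (F 6934848 w2_60) (F 5455936 (U (F 98856 (U (S (F 1026 (V (F 512 (S (K 5) (K 5))) (F 16 (T (F 256 (V (K 2) (F 1 (S L (K 5))))) (F 137 (V L L)))))) (F 515 (V (K 3) (S (F 18 (V (K 4) (T (K 4) L))) (K 3))))) (F 3584 (V (F 256 (S (T (F 1 w2_61) (F 8 w2_62))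 (F 1 (U (K 1) (T (V (F 64 (T (V (S L (K 4)) (K 4)) (K 4))) (K 1)) (F 80 (V (S (T (K 3) (V (K 3) (S L (K 3)))) (K 3)) (S (T (V (K 3) L) (V (S L (K 3)) (S (S L L) L))) (V (K 3) (T (K 3) (S L (K 3)))))))))))) (F 128 w2_64))))) (F 98863 w2_75)))))))

theorem pW2 : chkW par treeW2 128 128 128 128 384 128 349525 524288 Lc = true := by decide +kernel

noncomputable def w3_0 : Tr := (T (V (F 1 (U (F 2 (V (T (S L L) (F 1 (S L L))) (T (U (S L L) (S L L)) (F 1 (U (S L L) (S L L)))))) (T (F 2 (S L L)) (F 128 (V L L))))) (F 128 (U (T (V (S L (F 128 (S L L))) (S L (F 128 (S L L)))) (F 192 (V (S L (S L L)) (S L (V L L))))) (F 128 (T (V L L) (F 1 (V (S L L) (S L L)))))))) (F 3 (V (U (V (S (F 2 (T L (S L L))) (F 64 (T (F 16 (S L L)) (V L L)))) (F 2 (S (U (T L L) (T L L)) (T (U (S L L) L) (V L (S L L)))))) (V (S (S L L) (F 64 (S L L))) (F 2 (S (S L L) (T L L))))) (F 2 (U (V (S (T (S L L) (S L (S L L)))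 (T (U (S L L) L) (U (S L (S L L)) L))) (S (T (S L L) (U (S L L) L)) (T (U (S L L) L) (U (V L L) (S L L))))) (V (S (S L L) (T L L)) (S (T L L) (T L (S L L)))))))))
noncomputable def w3_1 : Tr := (T (F 2 (V (U (S (F 18 (V (T L (S L L)) (T (U L L) (S L L)))) (F 2 (V (T (S L L) (F 4 (S L L))) (T (U (S L L) L) (F 4 (V (S L L) (S L L))))))) (F 2 (S (F 4 (V L (S L L))) (V (S L L) (T L (F 4 (S L L))))))) (U (F 2 (V (S (F 4 (T (S L L) (U (S L L) L))) (T (U (S L L) L) (F 4 (U (S L L) L)))) (S (F 4 (T (V L L) (U (S L L) L))) (T (U (V L L) (S L L)) (F 4 (U (V L L) (S L L))))))) (F 2 (V (S (F 4 (S L L)) (F 4 (T L L))) (F 4 (S (T L L) (T L L)))))))) (F 8 (V (U (S (F 32 (V (T (S L L) (U (S L L) L)) (F 16 (T (U (S L L) L) (V (S L L) (S L L)))))) (V (V (F 4 (T (F 16 (S L L)) (F 32 (S L L)))) (F 34 (U (S L L) L))) (F 34 (T (U (S L L) L) (V (S L L) (S L L)))))) (V (S (F 32 (S L L)) (T L L)) (F 32 (S (F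 16 (T (S L L) L)) (F 16 (T (S L L) L)))))) (F 32 (U (V (S (F 16 (T (U (S L L) L) (U (S L L) L))) (F 16 (T (U (S L L) L) (U (S L L) L)))) (F 16 (S (T (U (S L L) (S L L)) (V (S L L) L)) (T (U (S L L) L) (V L L))))) (F 16 (V (S (T L L) (T L L)) (S (T L L) (T L L)))))))))
noncomputable def w3_2 : Tr := (V (U (T (F 258 (V (S (T (F 2 (S L L)) (F 72 (V L L))) (F 64 (T (U (S L L) L) (F 4 (U (S L L) L))))) (F 2 (S (T (U (S L L) L) (F 8 (U (S L L) L))) (F 1 (T (U (S L L) L) (F 4 (V L (S L L))))))))) (F 16 (S (F 1 (V (F 1 (U (T (F 32 (S L L)) (F 16 (S L L))) (F 32 (T L L)))) (F 34 (T (V L (S L L)) (S L L))))) (F 192 (V (T (F 32 (U (S L L) L)) (F 1 (U (S L L) L))) (T (F 32 (U (S L L) L)) (U (S L L) L))))))) (T (F 258 (V (S (T L L) (F 64 (T L (F 4 (S L L))))) (F 2 (U (S (T L L) (F 1 (S L L))) (S L L))))) (F 16 (V (F 128 (S (F 65 (V L L)) (F 1 (U (T L L) L)))) (F 64 (S (F 80 (T (S L L) L)) (F 1 (T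 (F 1 (S L L)) (S L L))))))))) (F 66 (T (F 1 (U (V (S (T (U (T L L) (S L L)) (F 8 (U (S L L) L))) (T (U (S (S L L) L) (S L L)) (F 8 (U (S L L) L)))) (S (T (V (S L L) (S L L)) (F 8 (V (S L L) (S L L)))) (T (U (V (S L L) (S L L)) (S L L)) (F 8 (U (V L L) (S L L)))))) (V (S (T L L) (T (S L L) L)) (S (T L L) (T (S L L) L))))) (F 8 (U (V (S (F 32 (T (U (S L L) L) (U (S L L) L))) (F 1 (T (F 1 (U (S L L) L)) (U (S L L) L)))) (S (F 32 (T (U (S L L) L) (S L L))) (T (F 32 (V (S L L) L)) (V L L)))) (V (S (F 32 (T L L)) (F 1 (S L L))) (S (F 32 (T L L)) (T L L))))))))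
noncomputable def w3_3 : Tr := (T (F 25672 (U (F 1 (S (F 128 (T (V (U (V (S L L) (T (S L L) (S L L))) (S L (S L L))) (U (S (T L (S L L)) (V (T L L) (T L L))) (S (S L L) (T L L)))) (V (U (V (F 64 (S (S L L) (F 1 (T L L)))) (S (F 64 (U (S L L) L)) (F 192 (U (S L L) (S L L))))) (F 64 (S (S L L) (F 1 (V L L))))) (U (S (V (T L (F 64 (S L L))) (T L (F 64 (S L L)))) (F 192 (V (T L (S L L)) (T L (V L L))))) (F 64 (S (V L L) (F 1 (V (S L L) (S L L))))))))) w3_0)) (T (F 5 (S (V (S L L) (S L L)) (F 1 (V (S L L) (U (T L L) L))))) (F 257 (V (S (S L (F 1 (S L L))) (F 1 (U (S L (F 64 (S L L))) L))) (F 64 (S (U (S L L) L) (F 64 (U (V (S L L) (S L L)) (S L L)))))))))) (F 20547 (U (F 4 (S (F 256 w3_1) w3_2)) (S (F 37 (V (T (F 2 (U (S L (S L L)) L)) (U (V (S L L) (F 34 (S L L))) (S L L))) (F 34 (T (U (V (S L L) (S L L)) L) (U (V (S L L) (S L L)) L))))) (F 4 (V (T (F 258 (U (S (F 8 (S L L)) (F 64 (S L L)))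 L)) (F 16 (U (S (F 65 (S L L)) (F 192 (S L L))) L))) (F 2 (T (F 1 (U (F 32 (V (S L L) (F 4 (S L L)))) (F 40 (S L L)))) (F 16 (U (F 16 (V (S L L) (S L L))) (F 64 (S L L))))))))))))
noncomputable def w3_4 : Tr := (S (V (F 64 (U (V (T (S (S L L) (T L L)) (S (S L L) (U (S L L) L))) (F 16 (S (U (T L L) (T L L)) (T (V L L) (V L (S L L)))))) (T (F 16 (V L (S L L))) (V (S L L) (U L L))))) (F 2 (U (V (F 1 (T (S (S L L) (U (S L L) L)) (S (T L (S L L)) (U (S L L) L)))) (T (F 1 (S (V L L) (U (S L L) L))) (F 1 (S (V L L) (U (T L L) L))))) (F 1 (V (T (S L L) (S L L)) (T (S L L) (S L L))))))) (F 64 (V (U (T (V (S (T L (S L L)) (V L (S L L))) (S (U (F 16 (S L L)) L) (U (S L L) L))) (V (S (U (S L L) L) (V L L)) (S (U (F 16 (S L L)) L) (V (S L L) L)))) (V (T (S L L) (S L L)) (T (F 16 (S L L)) (S L L)))) (U (F 16 (V (T (S (U (S L L) L) (T (S L L) L)) (S (U (S L L) L) (S L L))) (T (S (U (T L L) L) (V L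 L)) (S (U (S L L) L) (T L L))))) (V (T (F 16 (S L L)) (S L L)) (F 16 (T (S L L) (S L L))))))))
noncomputable def w3_5 : Tr := (S (F 1 (V (F 1 (U (V (S (T (U (S L L) L) (U (S L L) L)) (T (U (S L L) L) (U (S L L) L))) (S (F 2 (T (V L L) (V (S L L) (S L L)))) (T (F 2 (V L (S L L))) (V (S L L) L)))) (V (S (T L L) (T L L)) (U (S (F 2 (S L L)) (S L L)) (S L L))))) (F 32 (U (V (F 32 (T (S (U (S L L) L) (U (S L L) L)) (S (U (S L L) L) (U (S L L) L)))) (T (F 32 (S (U (S L L) L) (U (S L L) (S L L)))) (F 32 (S (U (V L L) (S L L)) (U (T L L) L))))) (F 32 (V (S (T L L) (T L L)) (S (T L L) (T L L)))))))) (F 128 (V (U (V (F 64 (S (T (U (S L L) L) (V L L)) (T (S L L) (F 32 (S L L))))) (S (F 64 (T (U (S L L) L) (U (S L L) L))) (F 64 (T (V L L) L)))) (F 64 (V (S (T L L) (S L L)) (U (T (S L L) L) (S L L))))) (U (V (S (F 80 (T (U (S L L) L) (S L L))) (T (F 80 (S L L)) (S L L))) (F 16 (S (F 1 (T (V L (S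 L L)) (V L L))) (T (F 1 (S L L)) (S L L))))) (V (S (F 64 (S L L)) (S L L)) (F 16 (S (F 1 (T L L)) (S L L))))))))
noncomputable def w3_6 : Tr := (T (V (U (V (T (F 1 (S (U (S L L) (S L L)) (U (T L L) L))) (F 16 (S (F 32 (U (S L L) L)) (F 1 (U (S L L) L))))) (S (F 1 (T (U (S L L) L) (F 4 (V (S L L) L)))) (T (F 1 (U (S L L) L)) (F 16 (U (S L L) L))))) (V (S (F 1 (T L L)) (T L L)) (U (S (F 1 (S L L)) (S L L)) (S L L)))) (F 4 (U (V (S (F 32 (T (U (S L L) L) (F 4 (U (S L L) L)))) (T (F 32 (U (S L L) L)) (F 4 (U (S L L) L)))) (T (F 32 (S (U (V L L) (S L L)) (V (S L L) L))) (F 4 (S (F 1 (V L L)) (V L L))))) (V (S (F 32 (T L L)) (T L L)) (S (F 36 (T L L)) (F 4 (T L L))))))) (F 16 (V (U (V (F 1 (S (U (T (S L (S L L)) (S L (S L L))) (T L L)) (T (U (T L L) L) (U (S (S L L) L) (S L L))))) (S (T (U (S L L) L) (U (S L L) L)) (T (U (S L L) L) (S (T L L) (F 1 (S L L)))))) (S (V (F 1 (T L L)) (U (S L L)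 L)) (V (F 1 (T L L)) (U (T L L) L)))) (U (V (S (F 8 (T (U (S L L) L) (U (S L L) L))) (T (U (S L L) L) (U (S L L) L))) (F 8 (T (S (V (S L L) L) (V L L)) (S (S L L) (S L L))))) (V (S (F 8 (S L L)) (T L L)) (F 8 (T (S L L) (S L L))))))))
noncomputable def w3_7 : Tr := (T (F 1 (V (U (S (V (F 1 (T (S L L) (F 16 (S L L)))) (U (T (S L L) (F 4 (S L L))) (T L L))) (V (F 1 (T (S L L) (F 16 (S L L)))) (T (T L L) (F 4 (T L L))))) (V (F 1 (S (S L L) (S L L))) (S (T L L) (S L L)))) (U (V (S (T (S (F 16 (S L L)) L) (F 4 (S (S L L) L))) (T (S L L) (F 4 (U L L)))) (F 20 (S (T (V L L) (V L L)) (T (S L L) (S L L))))) (V (S (T L L) (F 4 (S L L))) (F 20 (S (S L L) (S L L))))))) (F 33 (V (U (S (T (V (F 1 (U (S L L) L)) (U (S L L) L)) (F 1 (V (S (T L L) (T L L)) (U (S L (S L L)) (S L L))))) (F 1 (V (T (S (S L L) L) (S (S L L) (S L L))) (T (U (S L L) L) (U (T L (S L L)) L))))) (S (V (F 1 (T L (S L L))) (T L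 (S L L))) (V (F 1 (T L L)) (T L (S L L))))) (U (S (V (T (U (S L L) L) (U (S L L) L)) (F 8 (T (V L L) (V (S L L) L)))) (T (V (U (S L L) L) (F 8 (S L L))) (V (U (S L L) (S L L)) (S (F 8 (S L L)) (T L L))))) (S (V (T L (S L L)) (F 8 (T L L))) (V (T L (S L L)) (T L L)))))))
noncomputable def w3_8 : Tr := (T (F 516 (U (F 5 (T (F 529 w3_4) (F 17 w3_5))) (F 3201 (T (F 128 (V (S (U (F 1 (T L (S L L))) L) (U (F 1 (T (S L L) (S L L))) L)) (F 5 (S (U (V (S L L) (S L L)) L) (U (V (S L L) (S L L)) L))))) (F 64 (V (S (F 1 (U (S (S L L) (S L L)) L)) (F 1 (U (S (S L L) L) L))) (S (F 1 (U (V (S L L) (F 16 (S L L))) (F 16 (S L L)))) (U (S (F 5 (S L L)) L) L)))))))) (F 2049 (U (F 136 (S (F 515 w3_6) (F 3 w3_7))) (F 3201 (S (T (F 32 (V (U (S (F 1 (S L L)) (T L L)) L) (F 16 (U (V (S L L) (F 8 (S L L))) L)))) (F 4 (V (F 4 (U (S (T L L) (T L L)) (S L L))) (U (F 4 (V (S L L) (F 8 (S L L)))) L)))) (V (F 32 (T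 (U (S (S L L) (S L L)) L) (F 16 (U (S (T L L) (F 1 (S L L))) (S L L))))) (F 4 (T (F 4 (U (S (S L L) L) L)) (U (F 4 (S (T L L) (S L L))) (S L L))))))))))
noncomputable def treeW3 : Tr := (F 0xffffffffffffffffffffffffffffffffffffffe3e33fce677b (S (F 4 w3_3) (F 32772 w3_8)))

theorem pW3 : chkW par treeW3 128 128 128 128 384 128 524288 699051 Lc = true := by decide +kernel


end Pool.Agent.Lib.H56.Gen.D3
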