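import Pool.Agent.Lib.H56.Gen.D3.Par
import Pool.Agent.Lib.H56.Gen.D3.Cos

/-!
# Certificate tree W, part 1
-/

set_option maxRecDepth 100000

namespace Pool.Agent.Lib.H56.Gen.D3

open Tr

noncomputable def w4_0 : Tr := (V (S (U (F 64 (T (K 7) (T (K 7) (V (S L L) (S L L))))) (F 64 (S (T (F 69 (S (K 1) L)) (V (S L L) (F 65 (S L L)))) (F 64 (V (T L (S (S L L) (S L L))) (T L (V (S L L) L))))))) (U (T (F 68 (V (K 6) (S (K 6) L))) (F 64 (S (V (S L L) (S L L)) (V (V L L) (S L L))))) (F 68 (S (V (T (F 2 (S L L)) (T (S L L) (S L L))) (T (S L L) (T (S L L) (S L L)))) (V (F 2 (T (S L L) (T (S L L) L))) (T (S L L) (T (S L L) L))))))) (S (U (F 64 (T (K 7) (F 1 (S (F 4 (S L L)) (V L L))))) (F 580 (S (T (F 2 (V L L)) (V (T L (T L L)) (U L (S L L)))) (T (V (U L (S L L)) (S L L)) (V (U L (T (S L L) L)) (T (S L L) (S L L))))))) (U (S (F 64 (V (T (K 7) (S L L)) (F 65 (T L (S L L))))) (F 64 (T (F 64 (V L L)) (V (S L L)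 (F 64 (S L L)))))) (F 68 (T (F 1 (V (S (S L L) (S L L)) (S (T L (T L L)) (U L (V L (S L L)))))) (V (S (F 1 (T (S L L) L)) (T (S L L) (S L L))) (F 1 (S (T (T L L) L) (U (S L L) (T L L))))))))))
noncomputable def w4_1 : Tr := (U (F 4 (S (V (S (F 8 (T L (F 64 (T L L)))) (F 10 (U L (T L (T (S L L) L))))) (T (F 8 (S L L)) (S (T L (S L L)) (U L (F 8 (S L L)))))) (F 2 (T (F 32 (U L (S (V L L) (T L L)))) (S (V (F 32 (T (S L L) L)) (T L L)) (F 32 (U L (T L L)))))))) (F 4 (S (F 8 (T (F 64 (V (S (U L (V (S L L) L)) (T (U L L) (T L L))) (S (S L (T L L)) (T (S L L) (S L L))))) (V (F 64 (S (U (S L L) (T L L)) (T (T L L) L))) (S (T (S L L) (S L L)) (F 64 (T (S L L) L)))))) (F 10 (T (S (T (V (S L L) (U L (S L L))) (V (S L L) (U L (S L L)))) (V (T (S (S L L) (S L L)) (V L L)) (T (U L (S L L)) (U L (S L L))))) (S (T (V (S L L) (U L (S L L))) (V (S L L) (U L L))) (V (T (S L L) (S L L)) (T (U L L) (T L L)))))))))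
noncomputable def w4_2 : Tr := (S (U (F 4 (V (T (F 8 (S L L)) (S (T L (S L L)) (T L (S L L)))) (T (F 8 (S L L)) (S (U L (F 8 (S L L))) (T L (S L L)))))) (F 68 (T (V (S (T (F 1 (S L L)) (S L L)) (T (F 2 (S L L)) (S L L))) (F 1 (S (T (S L L) (S L L)) (T (S L L) (S L L))))) (S (V (T (S L L) L) (F 1 (T (S L L) L))) (V (T (S L L) (S L L)) (T (S L L) (S L L))))))) (U (F 4 (T (F 8 (U (K 4) (V (S L L) (S L (K 4))))) (S (V (T L L) (S L L)) (U (K 4) (V (S L L) L))))) (F 4 (T (F 8 (V (F 64 (S (T (S L L) (S L L)) (T (S L L) (S L L)))) (S (T (F 128 (S L L)) (S L L)) (T (F 64 (S L L)) (S L L))))) (S (F 8 (V (T (S L L) (S L L)) (T (S L L) (S L L)))) (V (F 10 (T (S L L) (S L L))) (S (F 8 (T L L)) (F 8 (T L L)))))))))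
noncomputable def w4_3 : Tr := (S (F 9 (T (V (S (V (T (U L (S L L)) (T L L)) (T (S L L) (S L L))) (T (V (U L (S L L)) (S L L)) (V (U L (S L L)) (S L L)))) (S (T (S L L) L) (U (S L L) (T (S L L) L)))) (V (S (V (T (T L L) L) (T (S L L) L)) (T (V (U L L) (S L L)) (V (S L L) L))) (S L (T L L))))) (V (T (F 9 (V (S (T (S L L) (S L L)) (T L (S L L))) (T (S (T L L) (U (K 4) (S L L))) (S (T L L) (U L (S L L)))))) (V (S (F 9 (T (S L L) L)) (T (F 9 (S L L)) (S L L))) (F 1 (S (F 32 (T (T L L) L)) (U (S L L) (T (F 32 (S L L)) (S L L))))))) (F 1 (T (F 32 (V (S (T (V L L) (S L L)) (T (S L L) (S L L))) (U (S L L) (S (T L L) (T L L))))) (S (F 32 (T (U L (S L L)) (S L L))) (V (T (F 32 (S L L)) (S L L)) (U L (T L L))))))))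
noncomputable def w4_4 : Tr := (T (F 580 (U (S (S L (V L L)) (T (K 2) (K 2))) (S (V (V (T (U (K 5) L) (U (S L L) (S (S L L) (V L (S L L))))) (T (S L L) (S (U L (S L (S L L))) (U L (T (S L L) (S L L)))))) (U (S L (T L (T L L))) (S (T (U L (F 1 (S L L))) (T (U L (S L L)) (S L L))) (T (V (S L L) (U L (F 1 (T (S L L) L)))) (V (T (S L L) (S L L)) (T L L)))))) (V (V (T L (S (T L (S L L)) (T L L))) (T (U L L) (U (S L (K 2)) (S (T L L) (T L L))))) (U (S (S (V (S L L) L) (K 2)) (K 2)) (T (V (S (S L L) L) (S (T L L) (K 2))) (V (S (T L L) (S L L)) (S (T L L) (S L L))))))))) (U (F 4 (S (T (F 9 (U L (V (S (V L L) (V L L)) L))) (F 1 (V (U (S L (T L L)) (F 32 (S (T (S L L) L) (V (S L L) (S L L))))) (S L L)))) (T (F 8 (S (F 128 (T (K 2) (V (K 2) L))) (K 4))) (V (V (U (K 4) (S L L)) (F 1 (S (U L (F 32 (S L L))) (S L L)))) (F 1 (U L (S L L))))))) (F 4 w4_3)))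
noncomputable def w4_5 : Tr := (S (T (F 1160 (V (V (K 1) (F 128 (U (K 5) (S (K 5) (T (K 5) (U (K 5) (T (K 5) (V (S (K 5) L) (S L L))))))))) (F 128 (U (S L L) (S (F 2 (S L (S L L))) (U (S L (T L (T L (S L L)))) (V (T (F 2 (S (K 1) L)) (S (V L L) (V L (S L L)))) (S L (T L L))))))))) (F 1024 (V w4_0 (F 512 (U (S (F 68 (S L L)) (F 64 (U (F 32 (S L L)) (F 32 (T (S L L) (S L (S L L))))))) (F 68 (S (S (T L (S L L)) (T (U L (T L L)) (U L (S L L)))) (T (V (S (U (S L L) (V (S L L) (S L L))) (V (U (S L L) (T L L)) (U (S L L) (T (S L L) L)))) (S L (S L L))) (V (S (V (T (S L L) L) L) (V (T (S L L) L) (T L L))) (S L L)))))))))) (F 1024 (V (T (F 68 (V (F 2 (U (S (K 1) (S (S (K 1) L) L)) (S (T (K 1) (V (S (U (K 1) L) (T L L)) (S L (S L L)))) (V (S (T (K 1) (V L L)) (T L (U L (T L (S L L))))) (T (S (K 1) L) (U (S L L) (S (V (S L L) L) (T L (S L L))))))))) (S (U (S (K 6) L) (S (F 1 (V (F 64 (S L L)) (V L L))) (F 1 (V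 (F 64 (S L L)) (V L (S L L)))))) (U (S L L) (F 2 (V (T L (S (V L L) (V (S L L) (S L L)))) (F 64 (T L (S (S L L) (S L L)))))))))) (V w4_1 w4_2)) w4_4)))
noncomputable def w4_6 : Tr := (V (U (V (T (F 67 (S (F 32 (S L L)) (S L (T L L)))) (S (F 65 (T (F 64 (S L L)) (S L L))) (F 66 (T (F 64 (S L L)) L)))) (F 1 (S (F 4 (T (F 2 (U (S L L) (F 32 (T L L)))) (U (S (T L L) L) (T (S L L) L)))) (F 4 (T (F 1 (U L (S (F 32 (S L L)) (S L L)))) (S (U L (S L L)) (S L L))))))) (F 1 (S (F 4 (T (F 3 (V (U (T (S L L) L) (V (S L L) (S L L))) (T (S L L) (S L L)))) (T (F 1 (V (U L (S L L)) (S L L))) (S (F 1 (S L L)) (F 1 (S L L)))))) (F 132 (T (V (U (T L L) (T (F 1 (S L L)) (S L L))) (T (F 1 (U L L)) (U L L))) (V (U (S L L) (S L L)) (T L L))))))) (F 65 (T (S (F 32 (U (V (U L (S L L)) (U (S L L) (T L (S L L)))) (V (F 1 (T (S L L) (S L L))) (S (F 1 (T L L)) (F 1 (T L L)))))) (V (U (T (F 32 (S L L)) (S (S L L) L)) (F 64 (T (F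 1 (S L L)) (S L L)))) (U (T (S L L) (S (S L L) L)) (T (F 96 (S L L)) (S L L))))) (S (V (U (T (S L L) (S L L)) (T (S L L) L)) (U (T (S L L) (S L L)) (T (S L L) L))) (V (U (T (S L L) L) (T (S L L) L)) (U (T (S L L) (S L L)) (S (S L L) L)))))))
noncomputable def w4_7 : Tr := (V (U (T (F 64 (V (S (U (S L L) (F 1 (S (S L L) (T L L)))) (U (S L (T L L)) (T (F 1 (S L L)) L))) (F 1 (S (T (S L L) (S L L)) (T (S L L) (S L L)))))) (V (F 64 (S (S (S L L) (U L (S L L))) (U (T (S L L) L) (S L L)))) (S (T (F 128 (S L L)) L) (T (F 64 (S L L)) (S L L))))) (F 64 (S (F 1 (T (V (T (T L L) (T L L)) (U (T (S L L) L) (T (S L L) (S L L)))) (V (T L L) (V L (U L L))))) (T (F 1 (T (V (S L L) (U L (S L L))) (V (S L L) (U L L)))) (T (F 1 (V L (S L L))) (S (S L L) (S L L))))))) (F 128 (T (S (U (V (U (S (T L L) (S L L)) (F 1 (T (S L L) L))) (T (U (S L L) (S L L)) (S L L))) (F 1 (V (T (S L L) (S L L)) (T (S L L) (S L L))))) (U (T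 (V (F 1 (U L (S L L))) (S (S L L) L)) (V (U L (F 1 (S L L))) (S L L))) (F 1 (V (T (U L L) (T L L)) (T (S L L) (S L L)))))) (S (U (V (U (S (S L L) L) (T L L)) (T (S L L) L)) (V (T L L) (S L L))) (U (T (V (U L (S L L)) (S L L)) (V (S L L) L)) (V (F 1 (T L L)) (S L L)))))))
noncomputable def w4_8 : Tr := (T (F 128 (V (F 1 (U (T (K 1) (V (S (F 32 (U L (S L L))) (U L (S L L))) (S L (V L L)))) (S (F 32 (V (T L (T (U L (S L L)) (U (S L L) L))) (U (S (S L L) (S L L)) (T (S L L) (V (S L L) (S L L)))))) (T (F 32 (V (S L L) (V (U L L) L))) (T (F 32 (V (S L L) (U L (S L L)))) (V (S L L) (V (U L L) (S L L)))))))) (S (T (F 3 (U (S (K 1) L) (V (S L L) (S L L)))) (U (V (F 3 (U L L)) (S L (F 1 (S L L)))) (F 1 (V (F 32 (T (S L L) (S L L))) (T (F 32 (V L L)) (S L L)))))) (F 1 (T (F 32 (U (V (S (K 3) L) L) (V (U L (S L L)) (U L (V L (S L L)))))) (U (V (U L (S (S L L) L)) (U L (V L (S L L)))) (V (T (F 32 (U (S L L) (S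 L L))) (U (S L L) (S L L))) (T (S L (S L L)) (V L L))))))))) w4_7)
noncomputable def w4_9 : Tr := (U (V (T (F 96 (S (V L (S L L)) (V L (S L L)))) (S (V (T L (U L (F 64 (S L L)))) (T (F 96 (S L L)) (S L (T L L)))) (V (U (S L L) (F 64 (T (S L L) (S L L)))) (T (S (F 64 (S L L)) (F 64 (S L L))) (S (S L L) (S L L)))))) (T (F 96 (U (S L (V L (S L L))) (S (V (S L L) (F 2 (T (S L L) L))) (V (T (S L L) (S L L)) (T (S L L) (S L L)))))) (S (T (F 96 (U L (V L L))) (U L (T L L))) (V (T (U (S L L) (F 64 (S L L))) (U (S L L) (S L L))) (U L (T L L)))))) (F 64 (V (T (F 1 (S (V (U L (T L (S L L))) (U (S L L) (T (S L L) (S L L)))) (V (U (S L L) (T (S L L) (S L L))) (T (U (S L L) (S L L)) (S L L))))) (S (V (T (F 1 (S L L)) (S L L)) (T (F 1 (S L L)) (S L L))) (V (T (S L (S L L)) (S L L)) (T (S L (S L L)) (S L L))))) (T (F 1 (S (V (T (U (S L L) (S L L)) (U (S L L) L)) (U (T L (S L L)) (V (S L L) L))) (V (T (V (S L L) (S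 L L)) (V L L)) (T (U (S L L) (S L L)) (U L L))))) (S (V (T (F 1 (S L L)) (S L L)) (T (F 1 (S L L)) (S L L))) (V (T (V (S L L) L) (S L L)) (T (S (S L L) L) (S L L))))))))
noncomputable def w4_10 : Tr := (S (T (V (S (F 32 (U (U (S L (T L L)) (V (T (S L L) L) (S L (S L L)))) (V (T (F 1 (S L L)) (S L L)) (T (F 1 (S L L)) (S L L))))) (V (U (T (S (F 32 (S L L)) (S L L)) (V L L)) (T (F 64 (S L L)) (S L L))) (U (T (S L (S L L)) (S L L)) (T (F 64 (S L L)) (S L L))))) (U (S L (S L L)) (S (F 32 (U L L)) (U (S L L) (F 64 (S L (S L L))))))) (V (U (S (V (T (S L L) L) (S L L)) (V (T (S L L) L) (S L L))) (S (V (T (S L L) L) (S (S L L) L)) (V (S L L) (S L L)))) (U L (S L L)))) (T (V (S (V (U (T (S (S L L) (S L L)) (S L L)) (T (F 64 (S L L)) (S L L))) (U (T (S (S L L) (S L L)) (S L L)) (T (S L L) (S L L)))) (V (U (T (S L L) (S L L)) (T (F 64 (S L L)) (S L L))) (U (T (S L L) (S L L)) (T (S L L) (S L L))))) (U (S (U L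 (S L L)) (T (U L (S L L)) (S L L))) (S (V (T (S L L) L) (U L L)) (V (T (S L L) L) (T (S L L) L))))) (V (S (V (U (T (S L L) L) (S L L)) (U (S (S L L) L) (S L L))) (V (U (T (S L L) L) (S L L)) (U (T L L) (S L L)))) (U (S L (S L L)) (S (T L L) (V (S L L) L))))))
noncomputable def w4_11 : Tr := (V (F 1 (S (T (F 69 (V (F 32 (U (U (K 3) (T (K 3) (T (K 3) (V (S (K 3) L) (S L L))))) (S (T (S L L) (V (U L (V L (S L L))) (S L (S L L)))) (V (U (S L L) (T L (V (S L L) (S L L)))) (T L (U (S L L) (T L (S L L)))))))) (V (F 32 (S (U L (T L (U L (S L L)))) (U (S L L) (T L (T (S L L) (S L L)))))) (U (T (K 1) (S L (S L L))) (F 32 (S (T L (U (S L L) (T L (S L L)))) (T (S L L) (T (S L (S L L)) (S L L))))))))) w4_6) (F 64 w4_8))) (F 520 (T (S (F 2 (U (U (S (F 1 (U L L)) (F 1 (V (V L (S L L)) L))) (F 64 (V (F 32 (S (V (S L L) (S L L)) (T (S L L) (V L (S L L))))) (S (S L L) (F 32 (V (T L (S L (S L L))) (F 8 (S L L))))))))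 (F 64 (V (F 32 (S (V (T (S L L) (U (S L L) (T (S L L) (S L L)))) (T (S L (S L L)) (T (S L (S L L)) (S L L)))) (T (V (S L (S L L)) (U L (T L (S L L)))) (V (T (V L (S L L)) (S L L)) (T (S L L) (S L L)))))) (T (S (V (F 32 (U (S L L) (T L L))) (F 2 (U (V L L) (T L L)))) (F 32 (V (U (T L (S L L)) (T (S L L) L)) (F 8 (U (S L L) (S L L)))))) (F 32 (S (V (T (S L L) (S L L)) (F 8 (S L L))) (V (T (S L L) (S L L)) (T (F 8 (S L L)) L))))))))) (F 128 w4_9)) (F 128 w4_10))))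
noncomputable def w4_12 : Tr := (S (T (F 1 (S (F 32 (U (V L (S L L)) (V (V (S L L) (S L L)) (U L (T L (S L L)))))) (U (V (S L L) (U L L)) (V (F 32 (T (S L L) (V (S L L) L))) (T (F 32 (V L L)) (S L L)))))) (U (S (F 1 (V (T L (S L L)) (U L (S L (T L L))))) (V (T (F 1 (V L L)) (V (S L L) L)) (F 1 (U (V (S L L) L) (T (T L L) (S L L)))))) (F 1 (S (V (T (F 32 (S L L)) (S L L)) (T (T (F 32 (T L L)) (U L L)) (U (S L L) (S L L)))) (V (T (V (S L L) (S L L)) (S L L)) (T (S (S L L) (S L L)) (S L L))))))) (T (F 1 (U (V (S (V (S L L) L) (U (S L L) (T (S L L) (S L L)))) (S (S L (U L (S L L))) (U (S L L) (T (S L L) (S L L))))) (S (V (T (F 32 (V L L)) (S L (S L L))) (T (F 32 (S L L)) (V (S L L) (S L L)))) (V (T (F 32 (V L L)) (S (S L L) (S L L))) (T (S (F 32 (S L L)) (T L L)) (V (S L L) (S L L))))))) (S (V (U (T (F 1 (U L (S L L))) (U (S L L) L)) (F 1 (T (S L L) (S L L)))) (F 1 (U (T (U L (S L L)) (S L L)) (T (S (S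 L L) (S L L)) (S L L))))) (V (U (T (V (S L L) (F 1 (S L L))) (S (S L L) (S L L))) (F 1 (T (S (S L L) (S L L)) (S L L)))) (U (T (F 1 (V (S L L) (S L L))) (V (S L L) L)) (F 1 (T (V (S L L) (S L L)) (S L L))))))))
noncomputable def w4_13 : Tr := (S (S (T (V (F 32 (U L (V (S L L) (S L L)))) (T (F 32 (S L L)) (S L L))) (V (U (T (S L L) (S L L)) (T (S (S L L) L) (S L L))) (T (V (T L L) (S L L)) (S L L)))) (V (T (U (S L (T L L)) (T (F 32 (S L L)) (V (S L L) L))) (U (T (S L L) L) (V (T L L) (S L L)))) (T (T (F 32 (U L L)) (U (T L L) (S L L))) (T (U (S L L) (S L L)) (U (S L L) L))))) (T (S (V (T (V L (U L (S L L))) (U (T L L) (S L L))) (U (T (S L L) (S L L)) (V (S L L) (T (S L L) (S L L))))) (V (T (V (S L L) (T L L)) (V (S L L) (T L L))) (V (U (S L L) (T (S L L) (S L L))) (T (S L L) (S L L))))) (S (V (T (T (U L L) (T L L)) (U (S L L) L)) (U (T (S L L) (S L L)) (T (S L L) (S L L)))) (V (T (V (S L L) L) (V L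 L)) (V (U (S L L) (T L L)) (T (S L L) L))))))
noncomputable def w4_14 : Tr := (V (F 2 (T (S (U (T (V (S (T L L) L) (F 64 (U L (S L L)))) (V (S L L) (U L L))) (F 64 (V (T (S L L) L) (T (T L L) (T L L))))) (T (U (V (S L L) (U (S L L) L)) (F 64 (V (S L L) (S L L)))) (U (V (S L L) (U (S L L) L)) (V (S L L) L)))) (S (T (U (V (S L L) (U L L)) (V L L)) (U (V L (S L L)) (V L L))) (T (U (V (S L L) (U (S L L) L)) (V L L)) (U (V L (S L L)) (V L L)))))) (U (T (F 1 (V (F 64 (S (T (S L L) (S L L)) (T (S L L) (S L L)))) (S (U (S (T L L) (S L L)) (T L L)) (S (V L (T L L)) (F 64 (T L L)))))) (V (S (T L L) (F 2 (T (S L L) L))) (F 1 (S (U (T L L) (S L L)) (S (U L L) (S L L)))))) (F 1 (T (F 64 (S (V (V (S L L) (U L (S L L))) (T (S L L) (S L L))) (V (V (U L (S L L)) (S L L)) (T (T L L) L)))) (S (T (F 64 (V (S L L) L)) (V (F 64 (S L L)) L)) (F 64 (V (V (T L L) L) (T L L))))))))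
noncomputable def w4_15 : Tr := (V (F 160 (T (S (V (U (T (S L L) (S L L)) (T (F 1 (S L L)) (S L L))) (U (T (S L L) (S L L)) (F 1 (T (S L L) (S L L))))) (V (U (T (S L (S L L)) (S L L)) (T (F 1 (S L L)) (S L L))) (U (T (S (S L L) (S L L)) (S L L)) (F 1 (T (S L L) (S L L)))))) (S (V (T (U (S L L) L) (U L L)) (U (T (S L L) L) (T (S L L) L))) (V (U (T (S L L) (S L L)) (T (S L L) L)) (T (U (S L L) (S L L)) (U (S L L) L)))))) (U (T (F 160 (V (S (S (F 1 (T L L)) (V (U L L) L)) (U (T (V (S L L) L) (S L L)) (F 1 (T (S L L) L)))) (F 1 (S (T (S L L) (S L L)) (T (S L L) (S L L)))))) (S (F 32 (V (F 2 (S (S L L) (U L (S L L)))) (F 1 (T (S L L) L)))) (F 160 (V (U (S L (T L L)) (T L L)) (T (F 1 (S L L)) (S L L)))))) (F 128 (S (F 5 (T (V (T (T L L) (T L L)) (U (T L L) (T (S L L) L))) (V (T L L) (U (S L L) (S L L))))) (F 4 (T (F 64 (T (V (S L L) (U L (S L L))) (V (S L L) (U L (S L L))))) (T (F 64 (V (S L L) (U L L)))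 (F 64 (V L (S L L))))))))))
noncomputable def w4_16 : Tr := (T (F 64 (S (U (V (U (V L (S L L)) (T (F 1 (S L L)) (S L L))) (T (F 1 (U (S L L) (S L L))) (U (S L L) (S L L)))) (V (T (F 1 (U (S L L) L)) (U (S L L) (S L L))) (T (F 1 (U (S L L) (S L L))) (U (S L L) (S L L))))) (U (V (U (T (S L L) (S L L)) (T (S L L) (S L L))) (T (U (S (S L L) L) (S L L)) (U (S L L) (S L L)))) (V (T (V (S L L) (S L L)) (S (S L L) (S L L))) (T (U (S L L) (S L L)) (U (S L L) (S L L))))))) (U (S (V (T (U (S L L) (F 64 (S L L))) (S (S L L) (S L L))) (U (U L (S L L)) (T (F 64 (S L L)) (S L L)))) (V (T (U (S L L) (F 64 (S L L))) (S L (S L L))) (T (U (S L L) L) (U (S L L) (S L L))))) (F 64 (S (V (T (S L L) (S L L)) (T (S L L) (S L L))) (V (T (S L L) (S L L)) (T (S L L) (S L L)))))))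
noncomputable def w4_17 : Tr := (T (F 64 (S (U (V (U (S (S L L) L) (T (T L L) (T L L))) (T (U (S L L) (S L L)) (V (S L L) (S L L)))) (V (T (V (T L L) (S L L)) (S (S L L) (S L L))) (T (V (S L L) (S L L)) (V (S L L) (S L L))))) (U (V (U (T L L) (V (S L L) (S (S L L) L))) (U (T L L) (T (S L L) (S L L)))) (V (T (U (V L L) (S L L)) (U (T L L) (S L L))) (T (V (S L L) (S L L)) (V (S L L) (S L L))))))) (S (U (V (F 64 (U (S (T L L) (S L L)) (T (S L L) (S L L)))) (T (F 64 (V L (S L L))) (V L (S L L)))) (F 64 (V (T (V L L) (S L L)) (T (S L L) (S L L))))) (F 64 (U (T (V (U (S L L) (S (S L L) L)) (S L (T L L))) (V (S (U L L) L) (S L L))) (V (T (U (T L L) (S L L)) (U (S L L) (S L L))) (T (V (S L L) L) (S L L)))))))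
noncomputable def w4_18 : Tr := (T (F 64 (S (U (V (T (U (S L L) (S L L)) (V (S L L) (S L L))) (T (S (F 32 (S L L)) (F 32 (S L L))) (V (S L L) L))) (V (T (V (S L L) (S L L)) (S (S L L) (S L L))) (T (U (S L L) (S L L)) (U (S L L) L)))) (U (V (U (T L L) (T (S L L) (S L L))) (U (F 32 (S L L)) (T (F 32 (S L L)) (S L L)))) (V (S (T L (S L L)) (F 32 (T L L))) (F 32 (T (S L L) (S L L))))))) (S (U (V (T (V (F 64 (S L L)) (S L L)) (V (S L L) (S L L))) (T (U (S L L) (F 64 (S L L))) (U (S L L) (S L L)))) (F 64 (V (T (S L L) (S L L)) (T (S L L) (S L L))))) (U (V (T (F 64 (S (S L L) L)) (U (S L L) (F 64 (S L L)))) (T (U (S L L) L) (S (T L L) (T L L)))) (F 64 (V (T (S L L) (S L L)) (T (F 32 (S L L)) (F 32 (S L L))))))))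
noncomputable def w4_19 : Tr := (V (T (F 4 (S (U (T (V (U (S L L) L) (S L L)) (V (U (S L L) L) (S L L))) (V (F 64 (T (S L L) (S L L))) (T (F 64 (S L L)) (S L L)))) (U (T (V (F 64 (U L (S L L))) (S L (T L L))) (V (U (S L L) (F 64 (S L L))) (S L L))) (F 64 (V (T (T L L) (T L L)) (T (S L L) (S L L))))))) (S (F 4 (U (T (V (U (S L L) L) (S L L)) (V (U L L) L)) (V (S L L) (T L L)))) (T (F 4 (U (V (U L L) (S L L)) (V L (S L L)))) (U (V (S (F 4 (S L L)) L) (S L L)) (V L (S L L)))))) (T (F 4 (S (V (U (T (S L L) (S L L)) (T (F 64 (S L L)) (S L L))) (U (T (S L (S L L)) (S L L)) (T (S L L) (S L L)))) (V (U (T (S (S L L) (S L L)) (S L L)) (T (F 64 (S L L)) (S L L))) (U (T (T (S L L) L) (S L L)) (T (S L L) (S L L)))))) (S (F 4 (V (U (T (S L L) L) (T L L)) (U (T (S L L) L) (S L L)))) (V (T (F 4 (U (S L L) (S L L))) (U (S L L) (S L L))) (T (F 4 (U (S L L) (S L L))) (U (S L L) (S L L)))))))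
noncomputable def w4_20 : Tr := (T (F 4 (S (V (T (F 64 (U (V (S (V L L) (U L (V L (S L L)))) (S (U L (V L (S L L))) (U (S L L) (T (S L L) (S L L))))) (V (S (T (F 1 (U L (S L L))) (S L (S L L))) (T (S L (S L L)) (V (S L L) (S L L)))) (S (T (F 1 (V L (S L L))) (S L (S L L))) (T (S (F 1 (S L L)) (T L L)) (V (S L L) (S L L))))))) (S (V (U (T (F 64 (U L (S L L))) (V L (S L L))) (F 64 (T (V (S L L) L) (S L L)))) (U (T (S (F 64 (S L L)) (F 64 (S L L))) (S (S L L) (S L L))) (F 64 (T (V L L) (S L L))))) (V (T (F 64 (U (S (S L L) (T L L)) (V (S L L) L))) (F 64 (U (S L L) (S L L)))) (U (T (F 64 (S (S L L) L)) (U (S L L) L)) (F 64 (T (S L L) (S L L))))))) w4_16) (V w4_17 w4_18))) (S (F 4 (V (T (S (V (U (T (S L L) (S L L)) (T (F 64 (S L L)) (S L L))) (U (T (S L L) (S L L)) (T (S L L) (S L L)))) (V (U (T (S L L) (S L L)) (F 64 (T (S L L) L))) (U (T (S L L) (S L L)) (T (F 64 (S L L)) (S L L))))) (S (V (U (T L L)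 (S L L)) (U (T L L) (S L L))) (V (U (T (S L L) L) (S L L)) (U (T L L) (S L L))))) (T (U (S (V (T (S L L) (S L L)) (T L L)) (V (T (S L L) (S L L)) (T (S L L) (S L L)))) (S (V (T (S L L) L) (T (S L L) L)) (V (T (S L L) L) (T (S L L) L)))) (U (S (T (S L L) L) (V (T L L) (S L L))) (S (V (S L L) (S L L)) (V (S L L) (S L L))))))) w4_19))
noncomputable def w4_21 : Tr := (V (T (U (V (U (S L (S L L)) (S (S L L) (T L L))) (S (S L L) (U (S L L) (V (S L L) L)))) (S (V (T L L) (V (U L L) (S L L))) (V (T L (S L L)) (T L (T L L))))) (U (S (V (U (S (S L L) (T L L)) (T L L)) (T (S L L) (S L L))) (T (S (V (U L L) L) (V (U L L) (V L L))) (S (V (U L L) L) (U (V L L) (V L L))))) (S (V (T (S L L) (S L L)) (U (T L (S L L)) (S L L))) (V (T (S L L) (S L L)) (T (T L L) (T L L)))))) (T (S (U (V (S L (S L L)) (T (S L L) (S L L))) (V (T L (S L L)) (T L (S L L)))) (V (U (T (S L L) (S L L)) (T L (S L L))) (U (T (S L L) (S L L))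 (T (S L L) (S L L))))) (S (V (U (T (S L L) (S L L)) (T (S L L) (S L L))) (U (T (S L L) (S L L)) (T (S L L) L))) (V (U (T (S L L) (S L L)) (T (S L L) (S L L))) (U (T (S L L) (S L L)) (T (S L L) L))))))
noncomputable def w4_22 : Tr := (T (F 32 (V (U (S (T (U (V L L) (V (S L L) L)) (S (V (V L L) (U L L)) (V L (U L L)))) (V (T (S L L) (S L L)) (U (S (T L L) (S L L)) (T L L)))) (S (V (T L (T L L)) (T (S L L) (S L L))) (V (U (S L L) (S L L)) (T (S L L) (S L L))))) (U (S (V (T (S L L) (S L L)) (T (S L L) (S L L))) (V (U (T (S L L) (S L L)) (S L (T L L))) (T (S L L) (S L L)))) (V (S (U (S L L) (S L L)) (T (T L L) (T L L))) (S (T (S L L) (S L L)) (T (S L L) (S L L))))))) (V (T (F 32 (U (S (S (V (V L L) (U L L)) (V L (U L L))) (V (S L L) (U (S L L) L))) (S (V (T L L) (S L L)) (V (U L L) (S L L))))) (U (S (F 32 (S (V (T L L) (U L L)) (V L (U L L)))) (V (F 32 (S L L)) (U (S L L) L))) (S (F 32 (V L (S L L))) (V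 (F 32 (S L L)) (S L L))))) (U (S (F 32 (V (T (S L L) (S L L)) (T (S L L) (S L L)))) (V (S (T L L) (V (T L L) (S L L))) (T (F 32 (S L L)) (S L L)))) (V (S (F 32 (U (T (S L L) L) (S L L))) (T (F 32 (T L L)) (S L L))) (S (F 32 (T (S L L) L)) (T L (S L L)))))))
noncomputable def w4_23 : Tr := (S (F 32 (U w4_21 (V (T (S (V (U (S L L) L) (U (S L L) L)) (V (U (S L L) L) (U (S L L) L))) (S (V (U (S L L) L) (U (S L L) L)) (V (U (S L L) L) (U (S L L) L)))) (U (T (V (S (U L L) (U (S L L) L)) (S (S L L) (S L L))) (V (S (U (S L L) (S L L)) (U (S L L) L)) (S (S L L) (S L L)))) (T (S (V L L) (V L (S L L))) (S (V L L) (V L (S L L)))))))) (U w4_22 (V (T (F 32 (S (V (U (S L L) L) (U (S L L) L)) (V (U (S L L) L) (U (S L L) L)))) (S (F 32 (V (U (S L L) L) (U (S L L) L))) (V (F 32 (U (S L L) L)) (U (S L L) L)))) (T (F 32 (S (U (V (S L L) (U L (S L L))) (V L L)) (U (V (S L L) (U (S L L) L)) (V L L)))) (S (F 32 (U (V (S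 L L) (U L (S L L))) (V L L))) (U (T (F 32 (V L (S L L))) (V L (S L L))) (V (S L L) L)))))))
noncomputable def w4_24 : Tr := (V (T (F 32 (S (V (U (T (S L L) (S L L)) (T (S L L) (S L L))) (U (T (S L L) (S L L)) (T L L))) (V (U (T (S L L) (S L L)) (T (S L L) (S L L))) (U (T (S L L) (S L L)) (T (S L L) L))))) (S (V (U (T (F 32 (S L L)) (S L L)) (F 32 (T L L))) (U (T (F 32 (S L L)) (S L L)) (T L L))) (V (U (T (S L L) (S L L)) (T (S L L) L)) (U (T (S L L) (S L L)) (T (S L L) L))))) (T (F 32 (S (U (V (T (S L L) (S L L)) (T (S L L) (S L L))) (V (T L L) (T L L))) (U (V (T (S L L) (S L L)) (T (S L L) (S L L))) (V (T (S L L) L) (S L L))))) (S (U (V (T (F 32 (S L L)) (S L L)) (T L L)) (V (T L L) (S L L))) (U (V (T (S L L) (S L L)) (T (S L L) L)) (V (S L L) (S L L))))))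
noncomputable def w4_25 : Tr := (U (S (F 1 (V (F 1 (T (S (V (U (T (S L L) (S L L)) (T L (S L L))) (U (T (S L L) (S L L)) (T L L))) (V (U (T (S L L) (S L L)) (T L (S L L))) (U (T (S L L) (S L L)) (T L L)))) (S (V (U (T (S L L) (S L L)) (T L L)) (U (T (S L L) (S L L)) (S L L))) (V (U (T (S L L) (S L L)) (T L L)) (U (T (S L L) (S L L)) (S L L)))))) (T (S (V (F 1 (U (V (S L L) (F 2 (S L L))) (S L L))) (F 16 (U (T (V L L) L) (S L L)))) (F 1 (U (V (T (S L L) (S L L)) (F 2 (T L L))) (V (T L L) (S L L))))) (F 1 (U (S (V (T (S L L) (S L L)) (F 2 (S L L))) (V (T (S L L) L) (T (S L L) L))) (S (V (S L L) L) (V (S L L) (S L L)))))))) (F 64 w4_24)) (S (F 1 (V (F 1 (T (S (U (V (S L L) (S L L)) (S L L)) (U (V (S L L) (S L L)) (T L L))) (S (U (V (S L L) (S L L)) (S L L)) (V (U (S L L) L) (U L L))))) (T (U (S (V L L) (F 1 (V (S L L) L))) (S (T L L) (T L L))) (U (F 1 (S (V L L) (V L L))) (S (S L L) L))))) (F 64 (V (S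 (F 32 (T (U (V (S L L) (S L L)) (T L L)) (U (V (S L L) L) (S L L)))) (U (T (F 32 (V (S L L) (S L L))) (V (S L L) (S L L))) (T (F 32 (V (S L L) L)) (V (S L L) L)))) (T (F 32 (U (S (V (S L L) L) (V (S L L) L)) (S (S L L) (S L L)))) (S (F 32 (U (V L L) L)) (U (V (S L L) L) (S L L))))))))
noncomputable def w4_26 : Tr := (U (V (F 64 (T (U (S (F 1 (V (U (T (S L L) (S L L)) (S L L)) (T (S L L) (S L L)))) (T (F 1 (S (V (U L L) L) (U (S L L) (S L L)))) (S (F 1 (V (S L L) L)) (T (F 1 (S L L)) (S L L))))) (S (F 1 (V (T (S L L) L) (U (S L L) (S L L)))) (V (F 1 (S L L)) (T L L)))) (U (S (V (U (S L L) (S L L)) (S L L)) (T (S (V L L) (S L L)) (S L L))) (S (V (S L L) (U (S L L) L)) (V (S L L) (T L L)))))) (T (F 64 (S (F 1 (V (U (T (S L L) (S L L)) (S (S L L) L)) (U (T (S L L) L) (S L L)))) (V (T (F 1 (U (S L L) L)) (U (S L L) L)) (U (T (F 1 (S L L)) (S L L)) (S L L))))) (S (F 64 (V (U (S L L) (S L L)) (U (S L L) L)))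 (F 64 (V (U (S L L) (S L L)) (U (S L L) L)))))) (F 64 (T (V (S (F 1 (V (U (S L L) L) (U (S L L) L))) (V (F 1 (U (S L L) L)) (S (F 1 (S L L)) (F 1 (S L L))))) (U (S (F 1 (V (U L L) L)) (V (T (F 1 (S L L)) (S L L)) (S L L))) (S (F 1 (T L L)) (T L L)))) (V (S (V (S L L) (S L L)) (V (S L L) (S L L))) (U (V (S (S L L) (S L L)) (S L L)) (S (T L L) L))))))
noncomputable def w4_27 : Tr := (U (T (V (U (S (T (S (F 32 (V (S L L) (S L L))) (V L (T L L))) (S (U (S L L) (S L L)) (V L (S L L)))) (V (T (S L L) L) (U (T (S L L) L) (S L L)))) (S (V (T L L) (T (S L L) L)) (T (V (U L L) L) (V (S L L) L)))) (U (S (V (T (S L L) (S L L)) (T (S L L) L)) (V (S (S L L) (U L (S L L))) (T (S L L) L))) (V (S (V (U (S L L) L) (S L L)) (T L L)) (S (S L L) (S L L))))) (V (U (S (T (S (S L L) (S L L)) (S L L)) (V (S L L) (U (S L L) L))) (S (V L (S L L)) (T (S L L) L))) (U (S (V (S L L) (S L L)) (V (U L (S L L)) (S L L))) (V (S (S L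 L) L) (S L L))))) (V (T (S (V (T L L) (U (S L L) L)) (V (U (S L L) L) (U (S L L) L))) (S (V (S L L) (S L L)) (V (S L L) (S L L)))) (T (S (U (V (S L L) (U L L)) (V L L)) (U (V (S L L) (U L L)) (V L L))) (S (U (S L L) L) (U (S L L) L)))))
noncomputable def w4_28 : Tr := (S (V (T (F 64 (S (F 1 (V (U (T (S L L) L) (S L L)) (U (S L L) (S L L)))) (V (U (T L L) (S L L)) (U (T L L) (S L L))))) (S (U (T (F 64 (S L L)) (F 64 (S L L))) (F 64 (V L L))) (U (V (S L L) (S L L)) (F 64 (V L L))))) (T (F 64 (S (F 1 (U (V (S L L) (S L L)) (V L L))) (U (V (S L L) (S L L)) (V (S L L) L)))) (U (S (T L L) (T L L)) (F 64 (S (S L L) (S L L)))))) (V (T (F 64 (S (V (U (T (S L L) L) (S L L)) (U (S L L) (S L L))) (V (U (T L L) (S L L)) (U (S L L) (S L L))))) (S (U (V (S L L) (S L L)) (F 64 (S L L))) (V (F 64 (U L L)) (T L L)))) (T (F 64 (S (U (V (S L L) (S L L)) (V L L)) (U (V (S L L) (S L L)) (V L L)))) (S (U (T L L) (F 64 (S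 L L))) (U (T L L) (F 64 (S L L)))))))
noncomputable def w4_29 : Tr := (V (U (S (T (F 1 (V (T (S L L) (S L L)) (V (S L L) (S (T L L) L)))) (V (T (F 1 (S L L)) (S L L)) (S (V (S L L) (T L L)) (T L L)))) (T (F 1 (V (T (S L L) (S L L)) (T (S L L) (S L L)))) (V (T (S L L) (S L L)) (T (S L L) (S L L))))) (T (V (F 1 (S (T (S L L) L) (T (S L L) (S L L)))) (S (F 1 (T (T L L) (T L L))) (F 1 (U (S L L) (T L L))))) (V (S (T L L) (T (S L L) L)) (S (T (T L L) (T L L)) (U (T (S L L) L) (T L L)))))) (T (U (S (F 1 (V (U (S (S L L) (T L L)) (T L L)) (T (S L L) (S L L)))) (T (F 1 (S (V (U L L) L) (U (V L L) (V L L)))) (S (V (F 1 (U L L)) (S L L)) (U (V L L) (V L L))))) (S (F 1 (V (T (S L L) (S L L)) (V (U L L) (S L L)))) (V (T (F 1 (S L L)) (S L L)) (T (F 1 (T L L)) (T L L))))) (U (S (V (U (T (S L L) (S L L)) (T (S L L) L)) (T (S L L) (S L L))) (T (S (V (U L L) L) (V (U L L) (V L L))) (S (V (U L L) L) (V (U L L) (V L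 L))))) (S (V (T (S L L) (S L L)) (U (T (S L L) L) (T L L))) (V (T (S L L) (S L L)) (T (T L L) (T L L)))))))
noncomputable def w4_30 : Tr := (V (T (V (S (U (T (F 1 (S L L)) (S L L)) (T (F 1 (S L L)) (S L L))) (U (T (F 1 (S L L)) (V (S L L) L)) (T L (S L L)))) (S (U (T (F 1 (S L L)) (V L L)) (T (F 1 (S L L)) (S L L))) (U (T (V L (S L L)) (V (S L L) (S L L))) (T (S L L) (S L L))))) (S (V (U (T (S L L) (S L L)) (T (S L L) L)) (U (T (S L L) (S L L)) (T (S L L) L))) (V (U (T (S L L) (S L L)) (T (S L L) L)) (U (T (S L L) (S L L)) (T (S L L) (S L L)))))) (T (U (V (S (V (T L L) (S (U L (S L L)) (S L L))) (T (V (S L L) (S L L)) (V (S L L) L))) (T (U (S (S L (T L L)) (S (T L L) L)) (S (S L L) (S L L))) (S (U (S L L) (S L L)) (U (S L L) (S L L))))) (V (S (T (F 1 (T L L)) (T L L)) (U (T L L) (V L (S L L)))) (S (T (S L L) (S L L)) (T (S L L) (S L L))))) (U (S (T (S (V (V L L) (U L L)) (V L (U L L))) (S (V (V L L)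 (T L L)) (V L (U L L)))) (V (T (S L L) (S L L)) (U (T (S L L) (S L L)) (T (S L L) L)))) (S (V (T (T L L) L) (T (S L L) L)) (T (V (U (S L L) L) (S L L)) (V (U L L) (S L L)))))))
noncomputable def w4_31 : Tr := (S (U w4_29 (V (T (F 1 (S (U (V (U (S L L) L) (S L L)) (V L L)) (U (V (U (S L L) (S L L)) (S L L)) (V L L)))) (S (U (T (F 1 (V (S L L) L)) (V (S L L) L)) (V L (S L L))) (U (V (U L (S L L)) (S L L)) (V L L)))) (T (S (F 1 (V (U (S L L) L) (U (S L L) L))) (V (U (T L L) L) (U (T L L) (S L L)))) (S (V (U (S L L) (S L L)) (U (S L L) L)) (V (U (S L L) L) (U (S L L) L)))))) (U w4_30 (T (V (U (V (S (F 1 (S L L)) (T L L)) (S (U (T L L) (S L L)) (V (S L L) (T L L)))) (S (V (F 1 (S L L)) (S L L)) (V (S L L) (T L L)))) (V (S (U (T L L) (S L L)) (U (T L L) (S L L))) (S (U (T L L) (S L L)) (U (T L L) (S L L))))) (V (U (V (S (S L L) (S L L)) (S (U (S L L) L) (S (T L L) L))) (S (T (S L L) L) (V L L))) (S (V (U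 (S L L) L) (U (S L L) L)) (V (U (S L L) (S L L)) (U (S L L) (S L L))))))))
noncomputable def w4_32 : Tr := (V (T (V (S (U (T (F 1 (S L L)) (V L L)) (S (F 1 (S L L)) (F 1 (S L L)))) (U (T (S L L) (S L L)) (T (F 1 (S L L)) (S L L)))) (S (U (T (F 1 (S L L)) (S L L)) (T (F 1 (S L L)) (S L L))) (U (T (S L (S L L)) (S L L)) (T (S L L) (S L L))))) (S (V (U (T (S L L) (S L L)) (T (S L L) L)) (U (T (S L L) (S L L)) (T L L))) (V (U (T (S L L) (S L L)) (T (S L L) L)) (U (T (S L L) (S L L)) (T (S L L) L))))) (T (S (U (V (T (F 1 (S L L)) (V L L)) (T (F 1 (S L L)) (S L L))) (V (T (F 1 (S L L)) (S L L)) (T L (S L L)))) (U (V (T (U (S L L) L) (S L L)) (T (U (S L L) L) (S L L))) (V (T (S L L) (S L L)) (T (S L L) L)))) (S (V (U (T (S L L) L) (S L L)) (U (T (S L L) L) (S L L))) (U (V (T (S L L) L) (T (S L L) L)) (V (S L L) (S L L))))))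
noncomputable def w4_33 : Tr := (V (U (S (T (V (T (V (S L L) (S L L)) (S L L)) (T (V (S L L) L) (S L L))) (V (T (S L L) (S L L)) (T (S L L) (S L L)))) (T (V (U (T (S L L) (S L L)) (V (T L L) (S L L))) (T (V (S L L) (S L L)) (V L L))) (V (S (T L L) (V (U L L) (S L L))) (T (S L L) (S L L))))) (T (V (S (U (T L L) (T (S L L) L)) (T (U L L) (T L L))) (S (T (S L L) (S L L)) (T (S L L) (S L L)))) (V (S (U (T (S L L) L) (T L L)) (T (T L L) (T L L))) (S (T (S L L) L) (T (S L L) L))))) (T (S (U (V (T (V L L) (S L L)) (S (T L L) (F 32 (T L L)))) (V (T (S L L) (S L L)) (T L (S L L)))) (V (U (T (S L L) (S L L)) (T (S L L) (S L L))) (F 32 (U (T (S L L) (S L L)) (T L L))))) (S (V (U (T (S L L) (S L L)) (T L L)) (U (T (S L L) L) (S L L))) (V (U (T (S L L) (S L L)) (T L L)) (T (F 32 (U (S L L) L)) (F 32 (U L L)))))))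
noncomputable def w4_34 : Tr := (S (V (U (T (V (S (F 1 (U L (S L L))) (U (T L L) (S L L))) (S (S L L) (S L L))) (V (S (U L (S L L)) (U (S L L) L)) (S (S L L) (S L L)))) (T (S (F 1 (V L L)) (T (F 1 (S L L)) (S L L))) (S (V L L) (T (S L L) L)))) (T (U (S (V (S L L) (S L L)) (V (S L L) (S L L))) (S (T L L) (V L L))) (S (U (V (S L L) L) (S L L)) (U (V (S L L) L) (S L L))))) (T (V (S (U (V (T L L) (S L (T L L))) (V (S L L) (T L L))) (U (V (T L L) (U (T L L) L)) (V (S L L) (S L L)))) (U (S (V (S L L) (S L L)) (V (S L L) (F 32 (S L L)))) (S (V L L) (V (S L L) L)))) (V (S (U (V (S L L) (U L L)) (V L L)) (U (T (V L (S L L)) (V L (S L L))) (V L L))) (U (S (V (S L L) (S L L)) (V (S L L) L)) (S (T L L) (V (S L L) L))))))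
noncomputable def w4_35 : Tr := (U (T (V (U (S (V (T (S L L) L) (S (U L L) (S L L))) (V (T L L) (T (S L L) L))) (V (S (S L L) (S L L)) (S (T L L) (U (S L L) L)))) (U (S (V (U (T (S L L) L) (S L L)) (T (S L L) L)) (T (S (V (T L L) L) (V (S L L) (S L L))) (S (V L L) (V L L)))) (S (V (S L L) (U (S L L) L)) (V (S L L) (T L L))))) (V (U (S (V (S L L) (U L (S L L))) (V (S L L) (S L L))) (V (S L L) (S L (S L L)))) (U (S (V (U (S L L) L) (S L L)) (T (S (S L L) (S L L)) (S L L))) (S (T (S L L) L) (V L L))))) (V (T (S (U (V (T L L) (S L L)) (S L L)) (U (V (S L L) (S L L)) (S L L))) (S (U (S L L) L) (U (S L L) L))) (T (S (V (U (S L L) L) (T L L)) (V (T (S L L) L) (T L L))) (S (V (S L L) L) (V (S L L) (S L L))))))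
noncomputable def w4_36 : Tr := (T (F 5 (U (V (S (V (U (T L L) (S L L)) (U (T (S L L) L) (S L L))) (V (U (T L L) (S L L)) (U (T (S L L) L) (T L L)))) (U (S (T (S (V (S L L) (S L L)) (V L (T L L))) (S (V L L) (V L L))) (V (T (S L L) L) (U (T (S L L) (S L L)) (S L L)))) (S (V (T L L) (S L L)) (T (V (S L L) L) (V (S L L) L))))) (V (U (V (S L (S L L)) (S (T L L) (T L L))) (S (S L L) (T L L))) (S (V (T (S L L) L) (T (S L L) L)) (V (T (S L L) L) (T (S L L) L)))))) (F 5 (U (V (S (V (U (S L L) L) (T (S L L) (S L L))) (V (U (S L L) (S L L)) (T (S L L) (S L L)))) (U (S (T (S (S L L) (S L L)) (S L L)) (V (T L L) (U (S L L) (S L L)))) (S (V (T L L) (S L L)) (T (S L (S L L)) (S L L))))) (V (U (V (S L L) (S (S L L) (S L L))) (S (S L L) (T L L))) (S (V (S L L) (S L L)) (V (S L L) (S L L)))))))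
noncomputable def w4_37 : Tr := (U (V (F 1 (U (T (F 32 (S (V (T (S L L) L) (T (S L L) L)) (V (S (S L L) (U L (S L L))) (T (S L L) L)))) (S (F 32 (V (S L L) (S L L))) (V (F 32 (S L (T L L))) (S L L)))) (F 32 (T (V (S (U (S L L) L) (T L L)) (S (S L L) (T L L))) (V (S (T L L) (T L L)) (S L (S L L))))))) (T (F 5 (S (V (U (T L L) (S L L)) (U (S L L) (S L L))) (V (U (T (S L L) L) (S L L)) (U (T L L) (S L L))))) (S (F 4 (V (F 64 (U (S L L) L)) (T (F 64 (S L L)) L))) (F 1 (U (V (T L L) (S L L)) (F 32 (V L L))))))) (F 5 (T (V (S (U (V L (S L L)) (S L L)) (U (T (S L L) (S L L)) (T L L))) (U (S (V L L) (V (S L L) L)) (S (S L L) (V (S L L) L)))) (V (S (U (S L L) L) (U (T (S L L) L) (S L L))) (S (V L L) (V (U L L) L))))))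
noncomputable def w4_38 : Tr := (S (F 9 (T (F 264 (V (F 64 w4_23) w4_25)) (F 1 (V (S (F 32 w4_26) (F 33 w4_27)) (F 32 (U w4_28 (F 64 (S (V (T (S (F 1 (U (V L L) (S L L))) (U (V (S L L) L) (S L L))) (S (V (S L L) L) (V L L))) (T (S (F 1 (V (S L L) L)) (U (S L L) L)) (U (S L L) (S L L)))) (V (U (T (S (V L L) (V L L)) (S (S L L) (S L L))) (T (S (S L L) (V L L)) (S L (S L L)))) (T (S (V (S L L) (S L L)) (U (S L L) L)) (S (S L L) (S L L)))))))))))) (F 1152 (T (F 416 (V w4_31 (U (S w4_32 w4_33) w4_34))) (S (F 288 (V (F 1 w4_35) (U (V (T (F 1 (S (V (U (T L L) (S L L)) (U (S L L) (S L L))) (V (U (T L L) (S L L)) (U (S L L) (S L L))))) (S (V (F 1 (U (S L L) L)) (T L L)) (F 1 (V (U (S L L) L) (U L L))))) (T (F 1 (S (U (V (S L L) (S L L)) (V (S L L) L)) (V (U (S L L) (S L L)) (U (S L L) L)))) (S (U (V L L) (F 1 (S L L))) (U (V (S L L) (S L L)) (F 1 (S L L)))))) (F 1 (V (U (T (V (S (S L L) (S L L)) (S L L)) (V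 (S L (S L L)) (S L L))) (T (S (T L L) (S L L)) (S L L))) (T (S (U (S L L) L) (U (T L L) L)) (S (S L L) (T L L)))))))) (V (F 128 w4_36) (F 256 w4_37))))))
noncomputable def w4_39 : Tr := (S (V (T (U (S (V (S L L) (U L L)) (V (T L (S L L)) (T (S L L) (S L L)))) (F 8 (S (V (T (S L L) L) (T L L)) (V (T L L) (S (S L L) L))))) (S (V (T (S L L) (S L L)) (U (S L L) (S L L))) (V (T (S L L) (S L L)) (T (S L L) (S L L))))) (T (U (S (F 1 (U L (F 64 (T L L)))) (V (T (S L L) (S L L)) (F 1 (U L L)))) (F 9 (S (V (T (T L L) L) (T (S L L) L)) (T (V (S L L) L) (S L L))))) (U (S (T L L) (V (S L L) L)) (S (F 1 (V (T L L) (S L L))) (T (F 1 (S L L)) (S L L)))))) (V (T (S (V (U (T (S L L) L) (T L L)) (U (T (S L L) L) (T L L))) (V (U (T (S L L) L) (T L L)) (U (T (S L L) L) (T L L)))) (S (V (U (S L L) (S L L)) (T (S L L) (S L L))) (V (T (S L L) (S L L)) (T (S L L) (S L L))))) (T (U (S (V (T (S L L) L) (F 1 (T (S L L) L))) (V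 (T (S L L) L) (T (S L L) L))) (V (S (T L L) (T L L)) (F 1 (S (T L L) (T (F 68 (S L L)) (S L L)))))) (U (S (V (S L L) (S L L)) (V (S L L) (S L L))) (S (V (S L L) (F 1 (T L L))) (V (S L L) (T L L)))))))
noncomputable def w4_40 : Tr := (S (S (T (F 8 (V (U (V (S (S L L) L) (F 256 (U (S L L) (S L L)))) (F 256 (V (F 1 (U (S L L) L)) (S L L)))) (F 256 (V (U (S L L) (S L L)) (T (F 32 (S L L)) (S L L)))))) (V (U (V (S L L) (F 1 (T L L))) (F 1 (T (S L L) L))) (F 1 (V (U (S L L) L) (U (S L L) L))))) (V (U (T (F 8 (V (S L L) (S (F 256 (T L L)) L))) (V (S L L) (U L L))) (T (F 8 (V (F 128 (T (F 1 (S L L)) L)) (F 256 (T L L)))) (V (S L L) L))) (F 1 (T (F 64 (V (U (S L L) (S L L)) (T (F 32 (S L L)) (S L L)))) (V (T L L) (T L L)))))) (V (U (T (V (S (S (S L L) (F 2 (T L L))) (F 2 (T (F 68 (S L L)) (S L L)))) (S (T L L) (T L L))) (S (V (T L L) (S L L)) (V (F 2 (S L L)) (S L L)))) (T (S (V (F 2 (T L L)) (F 1 (T L (S L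 L)))) (F 2 (T (F 68 (S L L)) (S L L)))) (S (V L (F 1 (S L L))) (F 2 (T L L))))) (T (S (F 1 (T (F 68 (U (S L L) (S L L))) (U (S L L) (S L L)))) (T (F 137 (U (S L L) (S L L))) (U (S L (T L L)) (F 1 (S L L))))) (S (F 1 (T (U (S L L) L) (S L L))) (U (T (S L L) (S L L)) (F 1 (T L L)))))))
noncomputable def w4_41 : Tr := (U (S (T (F 1024 (V (S (V (T (S L L) L) (T (S L L) L)) (V (T L L) (T L L))) (U (S (S L L) (T L L)) (S (F 1 (T L L)) (T (S L L) L))))) (V (S (V (T L L) (F 1024 (S L L))) (F 1024 (V (S L L) (S L L)))) (F 1024 (U (S (S L L) (T L L)) (S (F 1 (S L L)) (T L L)))))) (F 1024 (V (T (S (V (T (S L L) L) (T (S L L) L)) (V (T (S L L) (S L L)) (T (S L L) L))) (S (V (T L L) (T L L)) (V (T L (S L L)) (T L (S L L))))) (T (U (S (V (S L L) (S L L)) (V (S L L) (S L L))) (S (V L L) (V L (T L L)))) (U (S (V L (S L L)) (V (S L L) (S L L))) (S (T L L) (V L (S L L)))))))) (F 1024 (S (S (T (V (U (V L (S L L)) (S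 L L)) (F 1 (T (S L L) (S L L)))) (V (U (V L (S L L)) L) (F 1 (V (S L L) (S L L))))) (V (U (T (V L (S L L)) (V L (S L L))) (T (V (S L L) L) (T L L))) (F 1 (T (V (S L L) (S L L)) (T (S L L) (S L L)))))) (T (V (U (S (V (S L L) L) (V (F 2 (S L L)) L)) (S (V L (S L L)) (S L L))) (S (T (F 1 (S L L)) (S L L)) (U (T L L) (F 1 (S L L))))) (V (U (S (V (S L L) L) (V (S L L) L)) (S (T L L) (S L L))) (S (U (S L L) (F 1 (S L L))) (U (T L L) (F 1 (S L L)))))))))
noncomputable def w4_42 : Tr := (S (V (T (U (S (V (T (S L L) (S L L)) (T (S L L) L)) (V (F 2 (T (S L L) (S L L))) (T (S L L) (S L L)))) (F 128 (V (F 128 (S (V (T L L) L) (T L L))) (S (S L L) (S (S L L) L))))) (U (S (V (S L L) (S L L)) (V (F 2 (T (S L L) L)) (T L L))) (V (F 2 (S (U L (S L L)) (T L L))) (S (S L L) (S L L))))) (T (S (U (V (T (S L L) L) (T (S L L) L)) (F 128 (V (S L L) (S L L)))) (U (V (T (S L L) (S L L)) (T (S L L) (S L L))) (F 128 (V (T L L)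 (S L L))))) (S (V (T (S L L) (S L L)) (T (S L L) (S L L))) (V (U (S L L) (S L L)) (U (S L L) (S L L)))))) (V (T (U (S (U (F 128 (T (S L L) L)) (F 130 (V (S L L) (S L L)))) (F 130 (U L (T L (S L L))))) (F 130 (S (T (V (S L L) (U L L)) (V L (S L L))) (V (T (S L L) (S L L)) (T (T L L) (T L L)))))) (U (S (V (F 2 (T L L)) (T (S L L) (S L L))) (F 2 (U (F 4 (S L L)) (F 4 (T L L))))) (F 130 (S (T (S (S L L) (S L L)) (S L L)) (V (T (S L L) L) (T L L)))))) (T (S (U (V (T L (S L L)) (T L (S L L))) (F 128 (V (T (S L L) L) (T (S L L) L)))) (U (F 128 (V (S L L) (S L L))) (F 128 (V (F 128 (T (S L L) L)) (T (S L L) (S L L)))))) (S (U (V (T (S L L) (S L L)) (T L L)) (F 128 (V (S L L) (S L L)))) (U (V (T (F 128 (S L L)) (S L L)) (T (S L L) (S L L))) (F 128 (V (T L L) (T L L))))))))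
noncomputable def w4_43 : Tr := (S (V (T (F 128 (S (T (F 128 (U (S L L) (F 4 (S L L)))) (U (S L L) (F 128 (S L L)))) (F 128 (T (U (V L (S L L)) (V L L)) (U (S L L) (S L L)))))) (S (U (T (S L L) (S L L)) (F 2 (V L L))) (F 2 (T (F 4 (U (S L L) (S L L))) (U (S L L) (S L L)))))) (U (T (F 128 (S (V (S L L) (F 256 (U (S L L) L))) (V (S L L) (F 256 (U L (S L L)))))) (S (V (S L L) (F 1 (T L L))) (V (S L L) (U L (F 1 (S L L)))))) (T (F 128 (S (F 256 (T (S L L) (S L L))) (F 256 (V (F 1 (U L L)) (T L L))))) (S (F 1 (T (S L L) L)) (V (F 2 (T L L)) (F 1 (T L L))))))) (F 128 (V (F 128 (T (S (V (U (T L L) (S L L)) (T (U L L) (S L L))) (V (U (T (S L L) L) (T L L)) (T (U (S L L) (S L L)) (U L L)))) (S (V (T (S L L) (S L L)) (T (S L L) (S L L))) (V (U (T L L) (S L L)) (T (U L L) (S L L)))))) (U (T (V (F 128 (S (S L (T L L)) (U (T (S L L) L) (T L L)))) (S (T (S L L) L) (T (F 128 (S L L)) (S L L)))) (S (V (S L (F 128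 (T L L))) (S L L)) (V (F 128 (U (S L L) (S L L))) (S L L)))) (T (F 128 (S (V (T L L) (F 1 (U (S L L) L))) (T (V L (F 1 (S L L))) (V L (F 1 (S L L)))))) (S (V (F 128 (T L L)) (F 256 (T L L))) (F 128 (T (S L L) (S L L)))))))))
noncomputable def w4_44 : Tr := (S (V (T (U (S (V (S L L) (S L L)) (V (F 2 (S L L)) (S L L))) (S (V (U L L) (S L L)) (V (F 2 (T L L)) (S L L)))) (U (S (V (S L L) (S L L)) (V (T L L) (T L L))) (S (V (U L L) (S L L)) (V (F 2 (T L L)) (S L L))))) (T (S (V (T (S L L) (S L L)) (U (S L L) (S L L))) (V (U (S L L) (S L L)) (U (S L L) (S L L)))) (S (V (T (S L L) (S L L)) (T (S L L) (S L L))) (V (T (S L L) (V L L)) (T (S L L) (V L L)))))) (V (T (U (S (V (F 2 (S L L)) (T L L)) (F 2 (U (T L L) (F 5 (T L L))))) (F 2 (S (T (S L L) (S L L)) (F 5 (V (S L L) (T L L)))))) (U (U (S (T (S L L) L) L) (F 512 (S (V L (S L L)) (F 128 (T (S L L) L))))) (F 514 (S (T (S L (S L L)) (S (S L L) (S L L))) (V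 (T L (S L L)) (T L (T L L))))))) (T (S (V (U (T L L) (T L L)) (U (T L L) (T L L))) (U (V (T (S L L) (S L L)) (T (S L L) (S L L))) (F 512 (V (T L L) (T L L))))) (U (V (S (T (S L L) (S L L)) (T (S L L) L)) (S (T (S L L) (S L L)) (T L L))) (F 512 (S (V (T L L) (S L L)) (V (T (S L L) L) (T (S L L) (S L L)))))))))
noncomputable def w4_45 : Tr := (S (V (T (S (U (T (S L L) (S L L)) (F 2 (S L L))) (F 2 (T (U (S L L) L) (U (S L L) L)))) (S (U (T (S L L) (S L L)) (F 2 (S L L))) (F 2 (T (U (S L L) (S L L)) (U (S L L) (S L L)))))) (U (T (S (V L (F 1 (S L L))) (V (S L L) (S L L))) (S (V L (F 1 (S L L))) (V (S L L) (U L L)))) (T (S (F 1 (S L L)) (V (F 2 (S L L)) L)) (S (S L L) (V (F 2 (T L L)) L))))) (S (V (F 2 (T (V (U (S L L) (S L L)) (T (S L L) (S L L))) (F 1 (V (U (S L L) (S L L)) (T (S L L) (S L L)))))) (U (T (V (S L (F 2 (S L L))) (S L L)) (F 512 (V (S L (F 128 (T L L))) (S L L)))) (T (V (F 2 (T L L)) (F 1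 (T L L))) (F 512 (V (F 128 (T L L)) (F 256 (T L L))))))) (F 512 (T (V (F 130 (V (U (S L L) (S L L)) (U (S L L) (S L L)))) (U (V (F 128 (U (S L L) L)) (S L L)) (F 128 (T (F 64 (S L L)) (F 64 (S L L)))))) (V (F 128 (V (T (F 64 (S L L)) (F 64 (U L L))) (U (T L (S L L)) (S L L)))) (U (V (F 128 (U (T L L) (S L L))) (T L (S L L))) (F 128 (T (S L L) (V L (F 1 (S L L)))))))))))
noncomputable def w4_46 : Tr := (T (U (S (V (T (U (S L L) (F 4 (S L (S L L)))) (U L (S L L))) (K 5)) (T (U (V (S (S L L) (T (S L L) L)) (K 5)) (V (S (T L L) (T (F 68 (S L L)) (S L L))) L)) (V (U (S L (S L L)) (S L (T L L))) (S (K 5) L)))) (S (T (F 4 (V (U (S (S L L) (T L L)) (S (V (S L L) L) (V (S L L) L))) (S L L))) (V (U (S L (S L L)) (S (S L L) (S L L))) (S L L))) (T (V (S (V (T (F 68 (S L L)) (S L L)) (F 64 (U (S L L) L))) (V (U (S L L) L) (F 64 (T (F 32 (S L L)) L)))) (F 64 (U (S L L) (S L L)))) (V (S (U (T L L) (S L L)) (V (T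 L L) (T L L))) (U L (S L L)))))) (S (U (V (V (T (U L (S L L)) (S L L)) (K 5)) (K 5)) (T (V (S (T L L) (U L (S L L))) L) (V (S (S L L) (T L L)) L))) (U (V (T (U (S L L) (S L (S L L))) (U (S L L) (T L (S L L)))) (K 5)) (T (V (S (U (S L L) (S L L)) (V (S L L) (S L L))) (T L L)) (V (S (U (S L L) (S L L)) (V (S L L) (S L L))) (T L L))))))
noncomputable def w4_47 : Tr := (S (T (U (V (S (F 1 (T (S L L) (S L L))) (V (T (F 128 (S L L)) (S L L)) (F 1 (T L L)))) (F 1 (S (K 3) L))) (F 129 (V (S (V (T L L) (S L L)) (T (V (S L L) L) (S L L))) (T (S L L) L)))) (U (V (S (T L L) (V (T L L) (F 1 (S L L)))) (F 1 (S (K 3) L))) (F 1 (V (S (V (T L L) (S L L)) (T (F 4 (S L L)) (S L L))) (S L L))))) (T (U (V (S (V (T L (S L L)) (F 1 (S (F 4 (T L L)) L))) (F 128 (V (S L L) (S L L)))) (F 1 (U L (F 4 (T L (S L L)))))) (F 128 (V (V (S (T L L) (T (S L L) (S L L))) (F 256 (S (T L L) (U (S L L) (T (S L L) L))))) (F 256 (S (T (S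 L L) L) (V (T (S L L) L) (T L L))))))) (U (V (S (V (T (S L L) L) (F 1 (T (S L L) L))) (V (U (F 128 (S L L)) (F 128 (S L L))) (U (F 128 (S L L)) (F 129 (S L L))))) (F 1 (S (S L L) (U L (F 4 (S L L)))))) (F 128 (V (V (S (S L L) (T L L)) (F 256 (S (T L L) (V (S L L) (T L L))))) (F 256 (S (T L L) (T (F 128 (S L L)) (F 128 (S L L))))))))))
noncomputable def w4_48 : Tr := (S (F 1 (T (F 4 (V (S (V (T (S L L) (S L L)) (U (S L L) (S L L))) (V (T (S L L) (S L L)) (U (S L L) (S L L)))) (U (S (S L L) (T (S L L) L)) (S (V L L) (V (S L L) L))))) (V (S (V (T (S L L) L) (T (S L L) L)) (V (T L L) (T L L))) (U (S L (T L L)) (S (S L L) (T L L)))))) (F 128 (V (T (F 256 (S (U (T (V (S L L) L) (S L (S L L))) (V (S L L) (S L L))) (T (U (V (U L L) (S L L)) (V L L)) (U (V (S L L) L) (V L L))))) (S (F 256 (T (U (S L L) (S L L)) (U (S L L) (S L L)))) (F 256 (T (U (S (S L L) L) (S L L)) (U (S L L) (F 128 (S L L))))))) (F 256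 (T (S (V (U (T L L) (S L L)) (U (S L L) (S L L))) (V (U (T (S L L) L) (S L L)) (T (F 128 (U L L)) (F 128 (S L L))))) (S (U (V (S L L) L) (V L L)) (V (T (F 128 (S L L)) (F 128 (S L L))) (F 128 (U (S L L) L)))))))))
noncomputable def w4_49 : Tr := (S (T (V (U (S (T L L) (V (S L L) (F 1 (S L L)))) (S (F 1 (T L L)) (F 1 (T (S L L) (S L L))))) (F 1 (U L (S L L)))) (U (V (S (T L L) (V (S L L) (F 1 (S L L)))) L) (V (S (F 1 (T L (S L L))) (F 1 (T (S L L) (S L L)))) (F 1 (S L L))))) (T (V (U (S (V (T L L) (F 1 (T L L))) (V (T (S L L) (S L L)) (T (S L L) (S L L)))) (V (S (S L L) (F 512 (S L L))) (F 1 (S (T L L) (F 1 (V L (T L L))))))) (F 1 (U (S (S L L) (T (S L L) L)) (S (T L L) (F 1 (T (F 64 (S L L)) (S L L))))))) (U (V (V (S (T L (S L L)) (T L L)) (S (F 1 (U L (F 1 (S L L)))) (S L L))) (F 1 (U L (F 1 (S L L))))) (F 512 (V (V (S (S L L) (T (S L L) (S L L))) (F 256 (S (T L L) (U (S L L) (T L L))))) (F 256 (S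 (T L L) (T (V L L) (V L L)))))))))
noncomputable def w4_50 : Tr := (T (U w4_47 w4_48) (U w4_49 (S (F 1 (T (V (S (V (S L L) (S L L)) (V (T L L) (T L L))) (U (T L L) (S L (T L L)))) (V (S (V (S L L) (T L L)) (V (T L (S L L)) (T L L))) (U (T L (S L L)) (S L (T L L)))))) (V (T (S (F 1 (T (U (S L L) (S L L)) (U (S L L) (S L L)))) (F 513 (T (F 2 (U (S L L) (S L L))) (U (S L L) (S L L))))) (F 512 (S (F 256 (U (T (S L L) (S L (S L L))) (V (S L L) (S L L)))) (F 256 (T (U (V (S L L) L) (V L L)) (U (V (S L L) L) (V L L))))))) (F 1 (T (S (U (T (S L L) (F 1 (S L L))) (V (S L L) L)) (F 1 (T (F 64 (V (S L L) (S L L))) (V (S L L) (S L L))))) (F 1 (S (U (V (S L L) (S L L)) (V (S L L) L)) (V (U (T L L) (T L L)) (U (T L L) (S L L)))))))))))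
noncomputable def w4_51 : Tr := (S (F 1 (V (U (V (T (F 320 (U (S (V (U L L) L) (T (S L L) L)) (S (S (S L L) L) (S L L)))) (T (F 256 (S (U (S L L) L) (S L L))) (S (U (S L L) L) L))) (T (F 64 (S (U (V (S L L) L) (F 1 (S L L))) (U (V (S L L) L) (F 1 (S L L))))) (S (V (S L L) (S L L)) (V (S L L) (S L L))))) (F 256 (T (F 2 (V (S (V L L) (T L L)) (U (V (S L L) (S L L)) (S L L)))) (S (V (S L L) (U L L)) (V (S L L) (U L L)))))) (U (T (F 64 (V (S (V (T L L) (F 32 (S L L))) (V (S L L) (F 32 (S L L)))) (F 32 (U (S L L) (F 64 (S L L)))))) (V (S (T L L) (V L L)) (U L (S L L)))) (F 256 (V (T (F 2 (S (S L L) L)) (S L L)) (T (F 34 (S L L)) (S L L))))))) (V (U (T (F 1 (V (F 256 (T (F 34 (U (S L (S L L)) (S L L))) (U (S L (S L L)) (S L L)))) (U (S (V L (S L L)) (V (F 256 (S L L)) (S L L))) (F 256 (S (F 2 (V L L)) (F 32 (T L L))))))) (S (F 1 (V (F 256 (T (S L L) L)) (V (U L L) L))) (U (V (F 2 (V L L)) (F 1 (V L L)))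 (F 3 (V L L))))) (F 3 (V (T (S (F 64 (S L L)) (F 4 (S L L))) (S L (S L L))) (T (S (F 64 (S L L)) (F 4 (S L L))) (S L L))))) (F 1 (U (V (T (S (U (S L L) L) (F 4 (U (T L L) (F 1 (S L L))))) (S (V L L) (V L L))) (T (F 4 (S (F 4 (V L L)) (V (S L L) L))) (S (S L L) (T L L)))) (F 256 (V (S (T L L) (T (F 32 (U L L)) (V L L))) (T (F 32 (S L L)) (S L L))))))))
noncomputable def w4_52 : Tr := (S (F 1 (V (U (T (V (U (S (S L L) L) (F 256 (S L L))) (S (S L L) (S L L))) (V (U (T L L) (F 256 (S L L))) (S (S L L) (S L L)))) (F 256 (T (S (V L (S L L)) (V L (S L L))) (S (T L L) (T L L))))) (U (T (V (S (S L L) (S L L)) (S L L)) (V (S L (S L L)) (S L L))) (F 256 (T (V (S L L) L) (V L L)))))) (V (U (T (V (F 2 (U (S L (T L L)) (F 256 (S L L)))) (F 1 (U (S L (T L L)) (F 256 (S L L))))) (V (F 2 (U (S L (S L L)) (F 256 (S L L)))) (F 1 (U (S L (S L L)) (F 256 (S L L)))))) (F 3 (T (V (S L L) (S L L)) (V (S L L) (S L L))))) (F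 1 (U (T (V (S (S L L) (S L L)) (S L (S L L))) (V (S (S L L) (S L L)) (S L (S L L)))) (F 256 (V (S (T L L) (T (S L L) (S L L))) (T L L)))))))
noncomputable def w4_53 : Tr := (V (T (F 130 (U (V (U (S (V L (F 128 (S L L))) (V (S L L) L)) (F 128 (S (T L L) (V L (S L L))))) (F 128 (T (U (S (F 2 (S L L)) (S L L)) (S L L)) (U (S (S L L) L) (S L L))))) (F 128 (V (S (S L L) (T L L)) (S (T L L) (V L L)))))) (U (V (F 2 (U (S (V L (F 256 (S L L))) (T L L)) (F 256 (S L (T L L))))) (F 1 (T (F 256 (S (U (S L L) L) (F 32 (S L L)))) (U (S (S L L) L) (F 256 (S L L)))))) (F 3 (V (S (S L L) (F 4 (S L L))) (S (S L L) (F 4 (S L L))))))) (F 1 (U (T (F 4 (V (S (U (T L L) (F 1 (S L L))) (V (F 1 (S L L)) (T L L))) (S (U (S L L) L) (U (T L L) (F 1 (S L L)))))) (V (S (U (S L L) L) (U (S L L) (F 256 (S L L)))) (S (T L L) (V (S L L) L)))) (F 256 (V (T (F 32 (U (V (S L L) L) (S L L))) (U (S L (F 32 (S L L))) (S L L))) (T (F 32 (S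 L (S L L))) (S L L)))))))
noncomputable def w4_54 : Tr := (V (F 128 (U (V (T (S (V (T (F 4 (S L L)) L) (F 1 (T (S L L) L))) (V (U (S L L) L) (F 1 (T (S L L) L)))) (S (U (V L L) (F 1 (S L L))) (U (T (S L L) L) (F 1 (S L L))))) (F 1 (T (U (S (T (S L L) (S L L)) (V (S L L) (U (S L L) L))) (S (V L L) (V (T L L) L))) (T (U (S L (V L L)) (S L L)) (S (S L L) (F 1 (U (V L L) L))))))) (F 1 (T (V (U (V (S L L) (S L (S L L))) (S L L)) (S (V L L) (V (S L L) (S L L)))) (V (U (S (S L L) (T L L)) (S L L)) (S (S L L) (V L L))))))) (F 256 (U (V (U (T (S (V L (S L L)) (F 1 (V (U L (S L L)) (S L L)))) (S (V L L) (F 1 (V (S L L) L)))) (F 1 (T (V (S (S L L) L) (S L L)) (V (S L L) (S L L))))) (T (S (U (V (S L L) L) (F 1 (S L L))) (U (V (S L L) (S L L)) (F 1 (S L L)))) (S (U (T L L) L) (F 128 (U (T L L) (F 64 (S L L))))))) (F 1 (T (V (S (T (S L L) L) (U (T L L) (S L L))) (S (T L L) (U (S L L) L))) (V (S (S L L) (F 1 (T L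 L))) (S (S L L) (F 1 (U L L)))))))))
noncomputable def w4_55 : Tr := (V (F 2 (U (V (T (S (U (V L L) (F 256 (S L L))) (F 5 (U (V L L) (F 1 (S L L))))) (F 1 (S (U (V L L) (F 1 (S L L))) (V (F 64 (T L L)) (F 1 (T L (S L L))))))) (F 256 (T (S (U (T L L) (S L L)) (F 160 (U (V L (S L L)) (S L L)))) (F 128 (T (U (S L (V L L)) (S L L)) (U (S L (V L (S L L))) (S L (S L L)))))))) (F 256 (T (S (V (U (S L L) L) (S L L)) (F 160 (V (U (S L L) L) (T L L)))) (F 128 (V (U (S (S L L) (F 2 (S L L))) (S L L)) (S (T L L) (V (S L L) L)))))))) (F 1 (U (V (U (T (S (T L L) (F 261 (V (S L L) L))) (F 1 (S (V L L) (F 1 (V (U L L) (S L L)))))) (F 256 (T (S (T L L) (F 160 (T L L))) (F 128 (V (S L L) (S L L)))))) (T (S (V (S L L) (F 1 (S L L))) (F 5 (U (T L L) (F 1 (S L L))))) (F 1 (S (U (T L L) (F 1 (S L L))) (U (V (S L L) (S L L)) (F 1 (T L L))))))) (F 256 (T (S (V (S L L) L) (F 160 (V (S L L) (U L L)))) (F 128 (V (S (S L L) (U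 (S L L) L)) (S (S L L) (U (S L L) (S L L))))))))))
noncomputable def w4_56 : Tr := (T (F 1033 (U (F 17 (U w4_5 (S (F 8 w4_11) (F 1152 (V (T (F 160 (V w4_12 (F 1 (U (S (V (S (T L (U (S L L) (T (S L L) (S L L)))) (T (S L L) (T (S L (S L L)) (S L L)))) (U (S (V L (S L L)) (T L (T L (S L L)))) (T (S L (S (S L L) L)) (S (T (T L L) (S L L)) (S (T (S L L) L) (T L L)))))) (V (T (U (S L (V L L)) (S (V (S L L) L) (T (T L L) (T L L)))) (S (U (T (S L L) (S L L)) (S (T L L) (T L L))) (U (V (T L L) (S L L)) (T (S L L) (S L L))))) (T (S (U (S L L) (T L (S L L))) (U (S L L) (T (S L L) (S L L)))) (S (T (V (S L L) L) (S L L)) (T (V (S L L) (S L L)) (S L L)))))) w4_13)))) (S (F 32 w4_14) w4_15)) (F 256 w4_20)))))) (F 17 w4_38))) (F 52232 (U (V (S (T (F 1024 (U w4_39 w4_40)) w4_41) (F 1024 (T (U w4_42 w4_43) (U w4_44 w4_45)))) (S (F 1536 w4_46) (F 1024 w4_50))) (F 1024 (S (T w4_51 w4_52) (T (S w4_53 (F 128 w4_54)) (S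 (V (U (T (S (U (V (F 2 (V L L)) (F 1 (V L L))) (F 3 (V L L))) (F 2 (V (U (S L L) (F 256 (T L L))) (F 256 (T (S L L) (S L L)))))) (V (F 2 (U (S (V L L) (T L L)) (F 256 (S L (T L L))))) (F 1 (U (S (V L L) (F 256 (S L L))) (F 256 (S L (S L L))))))) (F 3 (T (V (S L (S L L)) (S L (S L L))) (V (S L (S L L)) (S L (S L L)))))) (F 1 (U (T (V (S (T L L) (U (S L L) L)) (S (T L L) (V (S L L) L))) (V (S (V L L) (U (T L L) (F 256 (S L L)))) (S (T L L) (T (S L L) (F 1 (S L L)))))) (F 256 (V (U (T (S L L) (S L (S L L))) (T L L)) (T (S L L) (S L L))))))) w4_55)))))))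
noncomputable def treeW4 : Tr := (F 0xfffffffffffffff7ffffffffffffffffe7fbfff77739dee7f7 w4_56)

theorem pW4 : chkW par treeW4 64 64 384 128 128 128 349525 524288 Lc = true := by decide +kernel

noncomputable def w5_0 : Tr := (S (U (T (F 8 (V (F 64 (S (T L L) L)) (K 4))) (V (F 10 (S (S L L) L)) (T (K 4) (K 4)))) (V (F 2 (T (F 32 (S (V (U (S L L) (T (S L L) (S L L))) (T (S L L) (S L L))) (U (T L L) (V (T L L) (T L L))))) (S (U (V L (S L L)) (F 32 (V (T (S L L) L) (T (S L L) L)))) (F 1 (U (F 4 (S L L)) (F 4 (V (S L L) (S L L)))))))) (T (F 10 (V (S (U (S L L) (V (S L L) L)) (T L L)) (S (T L L) (S L L)))) (V (F 2 (S (F 32 (U (S L L) (V (S L L) (S L L)))) (F 1 (T L (T L L))))) (S (F 2 (S (F 32 (S L L)) (F 32 (S L L)))) (F 258 (S L L))))))) (F 2 (U (V (F 32 (T (K 2) L)) (K 4)) (F 1 (T (F 4 (V (U (S L L) (S (T L L) (S L L))) (U (K 3) (S (V L (S (K 3) (K 3))) (T (K 3) (K 3)))))) (V (F 4 (U (S L L) (S (T L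 L) (S L L)))) (S (V (T L (S L L)) (U (K 3) (S L L))) (U (K 3) (F 4 (V (S L L) L))))))))))
noncomputable def w5_1 : Tr := (V (T (F 10 (U (S (V L (S L (K 4))) (V L (K 4))) (V (S (U (T (S L L) (V (S L L) (S L L))) (V (T (T (F 64 (S L L)) (S (S L L) (V (S L L) L))) (S (T (S L L) (S L L)) (T (S L L) (S L L)))) (T (S L L) (S (T (S L L) (S L L)) (T L L))))) (T (U L (S (V (T (F 64 (S L L)) L) L) (F 65 (T L L)))) (F 1 (U (S L L) (S (V (S L L) (S L L)) (S L L)))))) (S (V (T (U L L) (U (S L (K 4)) (S (T L (S L L)) (S L L)))) (T L (U (K 4) (S L L)))) (T (F 1 (T (K 2) (K 2))) (F 1 (T (K 2) (K 2)))))))) w5_0) (T (F 8 (S (U (K 4) (F 128 (U (K 2) (V (T (F 1 (T (K 4) (K 4))) (V (F 1 (S L (K 4))) (K 2))) (S (K 2) (K 2)))))) (K 4))) (V (U (K 4) (S (T (F 8 (U (K 4) (S (F 128 (V (S L L) (S L L))) (F 129 (V L (K 2)))))) (S (V (T (F 8 (S L L)) (S L L)) (F 1 (T L (F 1 (S L L))))) (F 256 (V (T L (S L L)) (F 128 (T L L))))))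 (F 256 (T (K 3) (U (K 3) (S (V (F 64 (S L L)) (F 128 (S L L))) (F 64 (V (S L (K 3)) L)))))))) (S (F 1 (U (T (K 4) (T (K 4) (S L (F 1 (S L (K 3)))))) (T (F 32 (V (U (K 2) (S (S L L) (F 64 (S L (K 3))))) (S (T L (S L L)) (F 64 (S L L))))) (S (F 1 (V (T L (T L L)) (T L (S L L)))) (T (F 32 (U L (F 64 (V L L)))) (F 1 (V (U L (S L L)) (S L L)))))))) (U (K 4) (F 1 (T (F 33 (V (K 2) (S L (K 2)))) (F 1 (V (S (S L L) (S L L)) (S (T L (T L L)) (U L (U L (S L L)))))))))))))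
noncomputable def w5_2 : Tr := (T (F 64 (S (V (U (T (U L (V L L)) (U (S L L) (S L L))) (T (U (S L L) (S L L)) (S (S L L) (S L L)))) (U (T (U L (S L L)) (V (S L L) (S L L))) (T (V (S L L) (S L L)) (V (S L L) (S L L))))) (V (U (T (U (V (S L L) L) (V (S L L) (S L L))) (U (V (S L L) L) (S L L))) (T (U (V (S L L) L) (S L L)) (S (T L L) (T L L)))) (U (T (U (V (S L L) L) (V (S L L) L)) (V (S L L) (S L L))) (T (V (S L L) (S L L)) (V (S L L) (S L L))))))) (S (V (U (T (U (S L L) (F 64 (S L L))) (S (T L L) (T L L))) (F 64 (T (S L (S L L)) (S L L)))) (U (T (F 64 (S (S L L) (S L L))) (U (S L L) (F 64 (S L L)))) (F 64 (T (V (S L L) (S L L)) (S L L))))) (U (V (T (U (T L (S L L)) (F 64 (S L L))) (U (S L (S L L)) (F 64 (S L L)))) (T (F 64 (U (S L L) (S L L))) (U (S L L) (F 64 (S L L))))) (F 64 (V (T (S (S L L) (S L L)) (S L (S L L))) (T (S (S L L) (T L L)) (S (S L L) L)))))))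
noncomputable def w5_3 : Tr := (T (F 64 (S (U (U (V (T L (S L L)) (T L L)) (V (T (S L L) (S L L)) (V (S L (T L L)) (T L L)))) (V (T (V (S L L) (S L L)) (V (S L L) (S L L))) (T (U (V L L) (S L L)) (U (T L L) (S L L))))) (U (T (U (V L L) (V (V L L) (T L L))) (V (U L (S L L)) (U L (T L L)))) (V (T (S (V L L) (F 32 (S L L))) (S (T L L) (F 32 (S L L)))) (T (V (S L L) L) (S (S L L) (F 32 (S L L)))))))) (S (F 64 (U (V (T (S (T L L) (S L L)) (S (T L L) (S L L))) (U (T L L) (V (T (S L L) (S L L)) (S L L)))) (V (T (V (S L L) (S L L)) (S L (S L L))) (T (U (T L L) (S L L)) (U (T L L) (S L L)))))) (F 64 (U (V (T (S (T L L) L) (S (S L L) L)) (U (S L L) (T (T L L) (V L L)))) (V (T (S (T L L) L) (S (S L L) L)) (T (S (S L L) (F 32 (S L L))) (S (S L L) L)))))))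
noncomputable def w5_4 : Tr := (T (F 64 (U (S (V (T (S (T (F 32 (S L L)) L) (F 32 (U (S L L) L))) (F 32 (U (S L L) (S L L)))) (T (F 32 (U L (S L L))) (F 32 (U L (S L L))))) (F 32 (T (V (U (S (S L L) L) (S (S L L) (S L L))) (U L (S L L))) (U (V (S L L) L) (V (S L (S L L)) (S L L)))))) (S (V (T (F 32 (U (S L L) (S L L))) (F 32 (U (S L L) (S L L)))) (F 32 (T (V (S L L) (S L L)) (V (S L L) (S L L))))) (F 32 (V (T (U (V L L) (S L L)) (U (S L L) (S L L))) (T (V (S L L) (S L L)) (V (S L L) (S L L)))))))) (F 1 (U (S (V (T (F 1 (U (S L L) (S L L))) (U (S L L) (F 1 (S L L)))) (T (F 1 (U L (S L L))) (U L (F 1 (S L L))))) (U (T (F 1 (V L L)) (V L L)) (F 1 (V (T (S L L) (S L L)) (T (S L L) (S L L)))))) (F 1 (S (V (T (S L (S L L)) (S L L)) (T (S (S L L) (S L L)) (S L (S L L)))) (V (T (S (S L L) (S L L)) (S L (S L L))) (T (S (S L L) (S L L)) (S (S L L) (S L L)))))))))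
noncomputable def w5_5 : Tr := (U (V (T (S (T (V (S L L) L) (V (S L L) L)) (T L L)) (S (T (V (S L L) (S L L)) (U L (S L L))) (T (F 32 (S L L)) (F 32 (S L L))))) (T (U (S (T L L) (K 1)) (S (T (S L L) (S L L)) (F 32 (T L L)))) (S (U (V L (S L L)) (T (S L L) (S L L))) (F 32 (U L (V L (S L L))))))) (T (S (T (V (U (S L L) (V L (S L L))) (S L (F 32 (S L L)))) (V (U (S L L) (V L (S L L))) (V (T L L) L))) (F 32 (V (V (U (S L L) (T L L)) (T (S L L) L)) (T (U (S L L) (S L L)) (U (S L L) (S L L)))))) (S (T (V (V (S L L) (U L (S L L))) (S (S L L) L)) (V (V (S L L) (U L L)) (S L L))) (V (T (F 32 (V (U L L) L)) (F 32 (V (U L L) L))) (F 32 (T (U (S L L) (S L L)) (U (S L L) L)))))))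
noncomputable def w5_6 : Tr := (V (U (V (T (U (K 1) (S (S L L) L)) (S (U L (S L (S L L))) (U (K 1) (T L L)))) (T (S (S L L) (K 1)) (U (K 1) (S (S L L) (S L (K 1)))))) (T (S (V (T (U L (S L L)) (U (T L L) (S L L))) (U (T L L) (T (V L L) (S L L)))) (V (T (V L L) (V (S L L) L)) (U (S L L) (V (T L L) (S L L))))) (S (V (T (U (T L L) (S L L)) (T (U L L) (U L L))) (U (T (S L L) (S L L)) (T (S L L) (S L L)))) (V (T (U L (S L L)) (V (S L L) (T L L))) (U (T L (S L L)) (T (S L (S L L)) (S L L))))))) (T (U (K 1) (V (S (T (V L L) (S (S L L) L)) (T (T L L) (T L (T L L)))) (S (T (S L L) (S (S L L) L)) (T L (S L L))))) (S (U (U (K 1) (V (T L L) (S L L))) (V (T (S L (S L L)) (S L L)) (T (S L (S L L)) (S L (S L L))))) (U (V (K 1) (S L (K 1))) (V (T (U L (S L L)) (U L (S L L))) (T (V L L) (U L (S L L))))))))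
noncomputable def w5_7 : Tr := (V (F 2 (S (V w5_2 w5_3) (V w5_4 (T (F 65 (U (V (S (U (S L L) (T (S L L) (S L L))) (T (S L L) L)) (S (T L L) (S L L))) (S (V (T (V (S L L) (S L L)) (V (S L L) (S L L))) (T (V (S L L) (S L L)) (V (S L L) (S L L)))) (V (T (V (S L L) (S L L)) (S (S L L) (T L L))) (T (U L (S L L)) (U L (S L L))))))) (F 1 (S (U (V (T (F 1 (S L L)) (S L L)) (F 1 (T L (S L L)))) (F 1 (V (T (V (S L L) (S L L)) (S L (S L L))) (T (S (S L L) (S L L)) (V (S L L) (S L L)))))) (F 1 (U (V (T (S L L) (S L L)) (T L L)) (V (T (S (S L L) (S L L)) (S (S L L) (S L L))) (T (S (S L L) (S L L)) (S (S L L) (S L L)))))))))))) (F 1 (S (V (F 64 w5_5) (T (F 64 (U (V (S (U (S L (K 1)) (F 32 (T L L))) (T L (S L L))) (S (T L (S L L)) (F 32 (S L L)))) (S (F 32 (V (T (S L L) (S L L)) (T (S L L) (S L L)))) (F 32 (V (T (S L (S L L)) (V L (S L L))) (T (V L L) (S L L))))))) (U (V (S (T (F 65 (S L L)) (F 1 (U L L))) (F 65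 (T L (S L L)))) (F 1 (S (U (S L L) (F 1 (T L L))) (T L (S L L))))) (F 64 (S (V (T (F 32 (S L L)) (F 32 (S L L))) (F 32 (T (S L L) (S L L)))) (F 32 (V (T (S L L) (S L L)) (T (S L L) (S L L))))))))) (F 65 w5_6))))
noncomputable def w5_8 : Tr := (T (F 32 (S (U (V (T (S (T L L) (S L L)) (S (T L L) (S L L))) (F 1 (U (T L (S L L)) (T (S L L) (S L L))))) (F 1 (V (T (S L L) (S L L)) (T (T (T L L) (T L L)) (T L L))))) (U (T (V (U (S L L) (F 1 (S L L))) (F 1 (U (S L L) (F 1 (S L L))))) (S (F 64 (V L (F 32 (V L L)))) (F 64 (V (S L L) (F 32 (U L L)))))) (F 1 (V (T (S (S L L) L) (F 1 (S L L))) (T (F 1 (S L L)) (F 1 (S L L)))))))) (S (T (F 32 (U (V (S L L) (U (S L L) (F 1 (S L L)))) (F 1 (V (S L L) (T L L))))) (S (F 32 (U (V L L) (F 1 (U L L)))) (F 33 (U (V L (S L L)) (F 1 (S L L)))))) (F 1 (T (F 4 (U (V (S L L) (U (S L L) L)) (F 32 (V (S L L) (S L L))))) (S (F 4 (U (V L (T L L)) (F 32 (T L L)))) (F 4 (U (V L (V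 L L)) (F 32 (V L L)))))))))
noncomputable def w5_9 : Tr := (V (T (F 4 (U (S (V (T (S (S L L) (T L L)) (U (S L L) (S L L))) (T (U (S L L) (S L L)) (U (S L L) (S L L)))) (U (T (V L L) (V L L)) (V (T (F 32 (S L L)) (S L L)) (T (F 32 (S L L)) (S L L))))) (F 32 (S (V (T (S L L) (S L L)) (T (S L L) (S L L))) (V (T (S L (S L L)) (S L L)) (T (S L (S L L)) (S L (S L L)))))))) (U (T (F 4 (S (V (S L (S L L)) (S (S L L) (S L L))) (V (U L (S L L)) (U (S L L) (S L L))))) (S (V (F 4 (S L L)) (U (F 4 (S L L)) (F 4 (S L L)))) (V (F 4 (S (S L L) L)) (S (F 4 (S L L)) (F 4 (S L L)))))) (F 4 (S (V (T (S L L) (S L L)) (T (S L L) (S L L))) (T (F 32 (V (S L L) (S L L))) (F 32 (V (S L L) (S L L)))))))) (T (U (F 4 (S (V (T (U L (F 32 (S L L))) (U L (S L L))) (T (F 32 (S L L)) (U L (F 32 (S L L))))) (V (T (S L L) (U L (F 32 (S L L)))) (T (F 32 (S L L)) (S L L))))) (F 5 (S (V (T (S L (S L L)) (S L L)) (T (S L (S L L)) (S L L)))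 (V (T (S L (S L L)) (S L (S L L))) (T (S (S L L) (S L L)) (S L (S L L))))))) (S (V (F 4 (U (T (S (S L L) (S L L)) (S L L)) (T (F 32 (S L L)) (S L L)))) (U (T (F 4 (U L L)) (S L L)) (F 5 (T (S L L) (S L L))))) (F 4 (U (V (T (U L (S L L)) (S (S L L) (S L L))) (T (U L (F 32 (S L L))) (U L L))) (F 32 (V (T (S L L) (S L L)) (T (S L L) (S L L)))))))))
noncomputable def w5_10 : Tr := (V (U (T (F 9 (V (F 64 (S (T (V L (S L L)) (S L L)) (F 32 (T (S L L) (S L L))))) (S (U (V (F 64 (S L L)) (T L (S L L))) (F 64 (T (S L L) L))) (F 65 (U (S L L) (S (T L L) (S L L))))))) (S (F 1 (V (T (F 160 (S L L)) (S L L)) (T (F 32 (U (S L L) (S L L))) (F 1 (U (S L L) L))))) (F 257 (V (F 64 (T (F 2 (S L L)) (S L L))) (S (V L (T L L)) (F 64 (T L L))))))) (F 3 (T (F 32 (S (T (V (V L (S L L)) (S L L)) (S (V (V L L) L) (F 32 (V (S L L) L)))) (F 32 (V (U (T (S L L) L) (T (S L L) (S L L))) (T (U L L) (T L L)))))) (S (T (F 32 (V (U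 L (S L L)) (S L L))) (V (U (S L L) L) L)) (F 1 (V (U (T L L) (T (F 2 (S L L)) (S L L))) (T (F 2 (T L L)) (T L L)))))))) (F 1 (T (F 32 (S (V (T (F 64 (U (U L L) (F 32 (S L L)))) (F 64 (U (S L L) (F 32 (S L L))))) (F 64 (U (T (S L (S L L)) (S L L)) (T (F 32 (S L L)) (S L L))))) (F 64 (U (V (T (S (S L L) L) (S L L)) (T (V L (S L L)) (S L (S L L)))) (F 32 (V (T (S L L) (S L L)) (T (S L L) (S L L)))))))) (S (F 1 (V (T (F 4 (U (S L L) (S L L))) (U (S L L) (S L L))) (U (T (F 4 (S L L)) (S L L)) (T (F 4 (S L L)) L)))) (F 1 (V (U (T (F 4 (S L L)) (S L L)) (F 1 (T (F 16 (S L L)) (S L L)))) (T (F 4 (U (S L L) (S L L))) (U (S L L) (S L L)))))))))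
noncomputable def w5_11 : Tr := (V (F 64 (U (T (F 5 (V (S (U (S L L) (V (S L L) (S L L))) (U (S L (K 3)) (T L L))) (S (T (S L L) (S L L)) (T L (S L L))))) (V (S (F 1 (U (T L (S L L)) (T (F 16 (S L L)) (S L L)))) (F 1 (U (S L (S L L)) (T (F 16 (S L L)) (S L L))))) (F 1 (S (T (F 16 (S L L)) (S L L)) (T (F 16 (S L L)) (S L L)))))) (F 1 (T (F 16 (S (V (T (U (S L L) (S L L)) (T (T L L) L)) (V (T L L) (U (S L L) (T L L)))) (T (V (S (S L L) (S L L)) (V (U L (S L L)) (S L L))) (V (S L L) (V (U L L) L))))) (S (V (T (F 16 (T L L)) (T L L)) (V (T L L) (U (S L L) (T L L)))) (T (F 16 (V (S L L) (U (S L L) (S L L)))) (V (S L L) (V (U L L) L)))))))) (F 128 (T (F 4 (U (S (V (F 32 (U (S L L) (T L (S L L)))) (T (S L L) (U L (F 32 (S L L))))) (F 32 (V (U L (V L (S L L))) (T L (S L L))))) (F 32 (S (V (T (S L L) (S L L)) (T (S L L) (S L L))) (V (T (S L (U (S L L) L)) (U (S L L) (S L L))) (T (S L (S L L)) (S L L)))))))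 (S (U (T (S (F 4 (V (U L L) L)) (F 4 (V (F 32 (V L L)) L))) (V (U (S L L) (F 1 (S L L))) (S L (S L L)))) (F 1 (V (T (F 16 (S L L)) (S L L)) (T (F 16 (S L L)) (S L L))))) (U (V (F 1 (U (S L L) (T (F 16 (S L L)) (S L L)))) (T (S (F 4 (S L L)) (F 1 (T L L))) (S (S L L) L))) (F 1 (V (T (F 16 (U L (S L L))) (U (S L L) (S L L))) (T (S L L) (S L L)))))))))
noncomputable def w5_12 : Tr := (V (T (F 32 (U (U (S (T (V (S L L) L) (S L L)) (T L L)) (S (V (T (V L (S L L)) (V L (S L L))) (T (S L L) L)) (V (F 8 (T (S L L) (S L L))) (T L L)))) (S (V (T (U (V L (S L L)) (S L L)) (U (S L L) (S L L))) (T (U (S L L) (S L L)) (S (T L L) (T L L)))) (V (T (U (F 8 (S L L)) (T L L)) (S (V L L) (F 8 (U L L)))) (T (U (S L L) (S L L)) (U (S L L) (S L L))))))) (F 32 (U (U (S (T L L) L) (S (V (T (S L L) (S L L)) (T L L)) (T (V L L) (V L L)))) (S (V (T (S (T L L) (T L L)) (S (S L L) (S L L))) (T (S (T L L) (T L L)) (S (S L L) (S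 L L)))) (V (T (S (T L L) L) (V L (S L L))) (T (U (S L L) (S L L)) (S (S L L) (S L L)))))))) (F 32 (T (U (S (V (S L L) (S L L)) (V (S L L) (K 1))) (S (V (T (U (S L L) (S L L)) (U (S L L) (S L L))) (T (V (S L L) L) (S (S L L) L))) (V (T (S (S L L) L) (S (S L L) L)) (T (S L L) (S L L))))) (S (U (V (T L L) (S L L)) (V (T (U (S L L) (S L L)) (S (S L L) (S L L))) (T (U L (S L L)) (U L (S L L))))) (U (V (S L L) (S L (K 1))) (V (T (U L (S L L)) (U L (S L L))) (T (S L L) (S (S L L) L))))))))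
noncomputable def w5_13 : Tr := (V (T (U (U (S L L) (S (V (F 2 (T L L)) (F 32 (S L L))) (F 2 (V L L)))) (S (V (F 2 (T (F 1 (U (S L L) (S L L))) (F 1 (U (S L L) (S L L))))) (F 32 (T (U L (S L L)) (U L (S L L))))) (F 2 (T (V (U (S L L) (S L L)) (F 1 (U L L))) (V (U (S L L) (S L L)) (F 1 (S L L))))))) (U (S (F 32 (T (S L L) (S L L))) (F 2 (S L L))) (S (V (F 2 (T (F 1 (S L L)) (F 1 (S L L)))) (F 32 (T (U L (S L L)) (U L (S L L))))) (V (F 2 (T (U L (S L L)) (U L (S L L)))) (T (F 32 (V L (S L L))) (F 32 (V L (S L L)))))))) (T (F 32 (U (T (K 1) (K 1)) (S (V (T (S L L) (S L L)) (T L L)) (V (T L L) (S L L))))) (F 32 (U (S (T (K 1) (K 1)) (K 1)) (S (V (T (S L L) (S (S L L) L)) (T (S L L) (S L L))) (V (T (S L L) (S L L)) (T L L)))))))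
noncomputable def w5_14 : Tr := (V (U (T (U (S (T L L) L) (F 32 (S (V (T (S L L) L) (T L (S L L))) (T (V L L) (V L L))))) (U (S (T (S L L) (S L L)) (T L L)) (S (T (F 32 (V L (S L L))) (V L (S L L))) (F 32 (T (V L (S L L)) (V L (S L L))))))) (F 32 (T (S (V (T (S (S L L) (S L L)) (S L (S L L))) (T (S (S L L) (S L L)) (S L (S L L)))) (V (T (V L (S L L)) (V L (S L L))) (T (S (S L L) (S L L)) (S (S L L) (S L L))))) (S (V (T (S L L) (S L L)) (T (S L (S L L)) (S L L))) (V (T (V L (S L L)) (U L L)) (T (S (S L L) (S L L)) (S (S L L) (S L L)))))))) (T (S (U (V (U (S L L) (F 32 (T L L))) (T L (S L L))) (F 32 (V (T (S (S L L) (S L L)) (S (S L L) (S L L))) (T (S (S L L) (S L L)) (S (S L L) (S L L)))))) (F 32 (U (V (T L (S L L)) (S L L)) (V (T (S (S L L) (S L L)) (S (S L L) (S L L))) (T (U L (S L L)) (S (S L L) (S L L))))))) (U (S (V (T (U L (F 32 (S L L))) (U (S L L) (S L L))) (U (S L L) (F 32 (T (S L L) (S L L)))))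 (V (U (S L L) (F 32 (T (S L L) (S L L)))) (T (F 32 (S L L)) (S L L)))) (F 32 (S (V (T (S (S L L) L) (S L L)) (T (S L (S L L)) (S L L))) (V (T (S (S L L) (S L L)) (S L (S L L))) (T (S (S L L) (S L L)) (S L L))))))))
noncomputable def w5_15 : Tr := (V (F 16 (T (U (S (F 1 (T (S L L) (S L L))) (F 16 (T L L))) (V (F 16 (S (F 16 (T (S L L) (S L L))) (T (U L (S L L)) (S L (S L L))))) (F 1 (S (T (U (S L L) (S L L)) (S (S L L) (S L L))) (T (U L (S L L)) (S (S L L) L)))))) (U (S (F 1 (U L (V L (T (S L L) (S L L))))) (F 16 (T L (F 16 (S L L))))) (V (F 16 (S (F 16 (T (S L L) (S L L))) (T (S L (S L L)) (T (F 16 (S L L)) (F 16 (S L L)))))) (F 1 (S (T (S (S L L) (S L L)) (S (S L L) (S L L))) (T (S (S L L) (F 2 (S L L))) (S (S L L) L)))))))) (F 64 (T (F 2 (S (U (U (K 3) (V (S L L) L)) (V (T (U L (S L L)) (U (S L L) (S L L))) (T (S (S L L) L) (U L (S L L))))) (U (V (S L L) (S L (K 3))) (V (T (S (S L L) L) (U L (S L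 L))) (T (S L L) (U L (S L L))))))) (U (F 2 (S (V (T (S L L) (S L L)) (U L (S (S L L) L))) (V (U L (T L (S L L))) (T L (S L L))))) (S (T (F 2 (V (S (S L L) (S L L)) (S (S L L) (S L L)))) (F 2 (V (S (S L L) (S L L)) (S (S L L) (S L L))))) (F 2 (V (T (S (S L L) (T L L)) (S (S L L) (T L L))) (T (U (S L L) (S L L)) (S (S L L) (S L L))))))))))
noncomputable def w5_16 : Tr := (F 64 (U (V (T (F 2 (U (K 3) (S (S L L) (S L L)))) (S (T (F 2 (S L L)) (U L (S L L))) (T (F 2 (S L L)) (U L (S L L))))) (T (F 2 (S (U (S L (K 3)) (T L L)) (V L (S L L)))) (S (U (S (S L L) L) (T (S L L) (T L L))) (U (S L L) (S (T L (S L L)) (T L L)))))) (T (F 2 (S (T (V (U (S L L) (S L (S L L))) (S (S L L) (S L L))) (V (V (S L L) (U L L)) (S L (S L L)))) (V (U (S (S L L) L) (T (S L (S L L)) (S L L))) (T (U L (S L L)) (U (S L L) (S L L)))))) (S (T (V (F 2 (V L (U L L))) (S L L)) (V (V (S L L) (U L L)) (S L (S L L)))) (V (U (T (F 2 (S L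 L)) (S L L)) (T (F 2 (S L L)) (V (S L L) L))) (T (S L (F 2 (U (S L L) L))) (U (V L L) (S L L))))))))
noncomputable def w5_17 : Tr := (V (T (U (K 2) (F 2 (S (V (T (S L L) (U L (S L L))) (T (S L L) (U L (S L L)))) (V (T (S L L) (S (S L L) L)) (T (S L L) (S L L)))))) (S (F 2 (U (V (T L (S L L)) (T L (S L L))) (V (T (S (S L L) (S L L)) (S (S L L) (S L L))) (T (S (S L L) (S L L)) (S L (S L L)))))) (U (V (F 2 (S (S L L) L)) (U L (F 2 (S L L)))) (F 2 (V (T (U (S L L) (S L L)) (S (S L L) (S L L))) (T (S (S L L) (S L L)) (S (S L L) (S L L)))))))) (U (V (T (K 2) (S (U (S L L) (S (S L L) (V L L))) (U (S L L) (T L (U L (S L L)))))) (T (F 2 (S (S L L) L)) (S (T (F 2 (S L L)) (U L (S L L))) (T L (V (S L L) (S L L)))))) (S (T (F 2 (V (T (U L (S L L)) (U L (S L L))) (U (S L L) (T (S (S L L) L) (V L (S L L)))))) (V (T (F 2 (U (T L L) (S L L))) (T (F 2 (U L L)) (U (S L L) (S L L)))) (U (T (F 2 (S L L)) (S L L)) (T (F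 2 (S L L)) (V L (S L L)))))) (T (F 2 (V (T (S L L) (V L L)) (U (S L L) (V (U L (S L L)) (S L L))))) (T (F 2 (V (S (S L L) (S L L)) (V (U L (S L L)) (S L L)))) (V (S (F 2 (S L L)) (F 2 (S L L))) (U (S L L) (V (S L L) L))))))))
noncomputable def w5_18 : Tr := (T (F 64 (S (F 2 (V (T (U (K 3) (V (S (T (S L L) (S L L)) (T L L)) (S (T L (T L L)) (S L L)))) (S (U (T (K 3) (K 3)) (V (T (S L L) (U L (S L L))) (T (T L L) (U L (S L L))))) (U (K 3) (V (T (S L L) (S L L)) (T (S L L) (S L L)))))) (U (K 3) (T (U (K 3) (S (V (T L (S L L)) (S L L)) (V (S L L) L))) (S (V (U (S L L) (V (S L L) (T L (S L L)))) (T (S L L) (V L L))) (V (U (S L (K 3)) (V (S L L) (S L L))) (T L (T L (T L L))))))))) (F 2 (U (K 3) (V (T (U (K 3) (S (V L L) (T (K 3) L))) (S (V (T L (S L L)) (T L (S L L))) (U (K 3) (V (S L L) L)))) (T (K 3) (U (K 3) (S (V (S L L) (V L (S L L))) (V L (S L L)))))))))) (S (V (T (F 80 (S (U (U (K 1) (V (S L L) (S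 L (S L L)))) (V (T (S (S L L) (S L L)) (S (S L L) (S L L))) (T (U L (S L L)) (U (S L L) (S L L))))) (U (T (K 1) (S (V L L) (K 1))) (V (T (S (S L L) (S L L)) (S (S L L) (S L L))) (T (V (S L L) L) (S (S L L) (S L L))))))) (S (F 64 (U (V (T (F 2 (S L L)) (S L L)) (U (S L L) (T (F 2 (S L L)) (S L (S L L))))) (V (T (F 2 (S L L)) (S L L)) (T (F 2 (U (S L L) (S L L))) (T (F 2 (T L L)) (U L L)))))) (F 64 (U (V (F 2 (U L (S (S L L) L))) (U (S L L) (T L (T L L)))) (V (F 2 (T (S (S L L) (S L L)) (S L L))) (T (F 2 (S L (S L L))) (S (S L L) (S L L)))))))) w5_16) (F 64 w5_17)))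
noncomputable def w5_19 : Tr := (F 1540 (S (T (F 160 w5_7) (F 128 (V (F 2 (S (V (F 32 (T (S (V (U (T (S (S L L) (S L L)) (S (S L L) (S L L))) (T (F 1 (S L L)) (S L L))) (T (U (S (S L L) (S L L)) (F 1 (S L L))) (U (S L (S L L)) (S L L)))) (V (U (T (S (T L L) (F 64 (S L L))) (S (S L L) (F 64 (S L L)))) (T (F 1 (S L L)) (S L L))) (T (U (S (T L L) (F 64 (S L L))) (F 1 (S L L))) (U (S (S L L) (F 64 (S L L))) (F 1 (S L L)))))) (S (V (U (T (S L (S L L)) (S L L)) (T (S L L) (S L L))) (T (U (V L L) (S L L)) (U (S L L) (S L L)))) (F 64 (V (U (T (S L L) (S L L)) (T (S L L) (S L L))) (T (U (S L L) (S L L)) (U (S L L) (S L L)))))))) w5_8) (F 1 w5_9))) (S w5_10 (F 256 w5_11))))) (F 257 (V (T (F 9 (S w5_12 w5_13)) (S (F 10 w5_14) (F 1 w5_15))) (F 2 w5_18)))))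
noncomputable def w5_20 : Tr := (V (T (S (V (U (T (V L (S L L)) (V L (S L L))) (T (S L L) (S L L))) (U (T (V (S L L) (S L L)) (V (S L L) (S L L))) (T (S L L) (S L L)))) (V (U (T (U (S L L) (S L L)) (V (S L L) (S L L))) (T (S L L) (S L L))) (U (T (V (S L L) (S L L)) (S (S L L) (S L L))) (T (S L L) (S L L))))) (S (V (U (T (S L L) (S L L)) (T (S L L) L)) (U (T (S L L) (S L L)) (T (S L L) (S L L)))) (V (U (T (S L L) (S L L)) (T (S L L) (S L L))) (U (T (S L L) (S L L)) (T (S L L) (S L L)))))) (U (T (V (S (T (V (S L L) (S L L)) (V (S L L) (S L L))) (T (S (S L L) L) (S (S L L) L))) (S (U (T (S L L) (S L L)) (T (S L L) (S L L))) (T (S L L) (S L L)))) (S (V (T (S L L) (S L L)) (S (V (S L L) (U L L)) (T L L))) (V (T (S (S L L) L) (S L L)) (T (S L L) (F 1 (S L L)))))) (T (V (S (T (S L L) (S L L)) (T (S L L) (S L L))) (T (S (U L L) (F 1 (U L L))) (S (T L L) (F 1 (U L L))))) (V (S (T (S L L) (S L L)) (T (S L L)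 (S L L))) (S (T (T L L) (T L L)) (T (F 1 (U (S L L) L)) (F 1 (U L L))))))))
noncomputable def w5_21 : Tr := (V (T (F 1 (S (U (V (T (V (S L L) L) (S L L)) (T (V (S L L) L) (S L L))) (V (T (S L L) (S L L)) (T (S L L) (S L L)))) (U (V (T (V (S L L) (S L L)) (S L L)) (T (S (S L L) (S L L)) (S L (S L L)))) (V (T (S L L) (S L L)) (T (S L L) (S L L)))))) (F 1 (S (V (U (T (S L L) (S L L)) (T L L)) (U (T (S L L) (S L L)) (T (S L L) L))) (V (U (T (S L L) (S L L)) (T (S L L) L)) (U (T (S L L) (S L L)) (T (S L L) (S L L))))))) (F 1 (T (S (V (U (T (V (S L L) L) (S L L)) (T (S L L) (S L L))) (U (T (S L L) (S L L)) (T (S L L) (S L L)))) (V (U (T (V (S L L) (S L L)) (S L (S L L))) (T (S L L) (S L L))) (U (T (S L (S L L)) (V L (S L L))) (T (S L L) (S L L))))) (S (V (U (T (S L L) (S L L)) (T (S L L) (S L L))) (T (U (S L L) (S L L)) (U (S L L) (S L L)))) (V (U (T (S L (S L L)) (S L L)) (T (S L L) (S L L))) (U (T (S L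 (S L L)) (S L L)) (T (S L L) (S L L))))))))
noncomputable def w5_22 : Tr := (S (T (V (U (S (V (T L L) (T L L)) (V (T L L) (T (S L L) L))) (S (V L (T L L)) (V (S L L) (S L L)))) (S (U (V (U (T L L) (S L L)) (T L (S L L))) (V (S L L) (S L L))) (U (V (S (U L L) (F 1 (S L L))) (F 1 (T L L))) (V (S L L) L)))) (V (U (S (V (S L L) (T L L)) (V (S L L) (T L L))) (S (V L (T L L)) (V L (S L L)))) (S (U (T (V (S L L) L) (V (S L L) L)) (V (S L L) (S L L))) (U (T (F 1 (V (S L L) L)) (F 1 (V (S L L) L))) (F 1 (V L L)))))) (F 1 (V (T (S (U (V (S L L) (T L L)) (V L L)) (U (V (T L L) (T L L)) (T L (S L L)))) (S (V (U (S L L) L) (U (S L L) L)) (U (V (S L L) (T L L)) (T L L)))) (U (T (V (S (T L L) (T L L)) (S (U (T L L) (S L L)) (T (S L L) (S L L)))) (V (S (S L L) (T L L)) (S (U (T L L) L) (S (T L L) (S L L))))) (T (S (V (T L L) (S L L)) (V (S L L) (T L L))) (S (T (S L L) (S L L)) (V (S L L) (T L L))))))))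
noncomputable def w5_23 : Tr := (V (T (U (S (V (U (S (T L L) (T L (S L L))) (T (S L L) (S L L))) (T (F 1 (S L L)) (S L L))) (F 1 (T (S (V (U L L) L) (V (U L L) (U L L))) (S (V (U L L) L) (V (U L L) (V L L)))))) (S (V (T (S L L) (S L L)) (V (T (F 1 (S L L)) (F 1 (S L L))) (F 1 (S L L)))) (F 1 (V (T (S L L) (S L L)) (T (T L L) (T L L)))))) (U (S (V (U (T (S L L) (S L L)) (T L L)) (T (S L L) (S L L))) (F 1 (T (S (V (U L L) L) (V (U L L) (V L L))) (S (V (T L L) L) (V (U L L) (T L L)))))) (S (T (V (S L L) (S L (F 1 (S L L)))) (V (S L L) (S L L))) (F 1 (V (T (S L L) L) (T (T L L) (T L L))))))) (T (S (F 1 (V (U (T (S L L) (S L L)) (T (S L L) L)) (U (T (S L L) (S L L)) (T L L)))) (F 1 (V (U (T (S L L) (S L L)) (T (S L L) (S L L))) (U (T (S L L) (S L L)) (T (S L L) (S L L)))))) (S (F 1 (V (U (T (S L L) (S L L)) (T L L)) (U (T (S L L) (S L L)) (T L L)))) (F 1 (V (U (T (S L L) (S L L)) (T L L)) (U (T (S L L)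 (S L L)) (T L L)))))))
noncomputable def w5_24 : Tr := (T (V (U (S (T (S (V (V L L) (U L L)) (V L (U L L))) (S (V (V L L) (U L L)) (V L (U L L)))) (V (T (V L L) (S L L)) (U (T (S L L) (S L L)) (T (S L L) (S L L))))) (S (V (T (T L L) (T L L)) (T (S L L) (S L L))) (V (U (T L L) (T (S L L) (S L L))) (T (S L L) (S L L))))) (U (S (V (T (S L L) (S L L)) (T (S L L) (S L L))) (V (S (T L L) (V (T L L) (S L L))) (T (S L L) (S L L)))) (V (S (U (T L L) (T L L)) (T (T L L) (T L L))) (S (T (S L L) (S L L)) (T (S L L) (S L L)))))) (V (T (U (S (S (V (V L L) (U L L)) (V L (U L L))) (V (S (S L L) L) (U (S L L) (S L L)))) (S (V (T L L) (S L L)) (V (U L (S L L)) (S L L)))) (U (S (S (V (V L L) (U L L)) (V L (U L L))) (V (S L L) (U (S L L) L))) (S (V (T L L) (S L L)) (V (U (S L L) L) (S L L))))) (U (S (V (T (S L L) (S L L)) (T (S L L) (S L L))) (V (S (T L L) (V (T L L) (S L L))) (T (S L L) (S L L)))) (V (S (U (T (S L L)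 L) (T L L)) (T (T L L) (T L L))) (S (T (S L L) (S L L)) (T (S L L) (S L L)))))))
noncomputable def w5_25 : Tr := (S (U w5_23 (T (V (S (V (U (T (S L L) L) (S L L)) (U (S L L) L)) (F 1 (V (U (T L L) L) (U (T L L) L)))) (F 1 (U (V (S (U L (S L L)) (U (S L L) L)) (S (S L L) (S L L))) (S (T L L) (T (S L L) (S L L)))))) (V (S (V (U (T L L) (S L L)) (T (F 1 (S L L)) (F 1 (S L L)))) (F 1 (V (U (S L L) L) (U (S L L) L)))) (F 1 (U (V (S (U L L) (U (S L L) L)) (S (S L L) (S L L))) (S (T L L) (T (S L L) L))))))) (F 1 (U w5_24 (V (T (S (V (U (T L L) (S L L)) (U (T L L) (S L L))) (V (U (T L L) (S L L)) (U (T L L) (S L L)))) (S (V (U (T L L) (S L L)) (U (S L L) (S L L))) (V (U (T L L) (S L L)) (U (T L L) (S L L))))) (T (S (U (V (S L L) (U (S L L) (S L L))) (V L L)) (U (T (V L (S L L)) (V L (S L L))) (V L L))) (S (U (T (V L (S L L)) (V L (S L L))) (V L L)) (U (T (V L (S L L)) (V L (S L L))) (V (S L L) L))))))))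
noncomputable def w5_26 : Tr := (U (V (F 32 (T (S (V (U (T (S L L) L) (T L L)) (U (T (S L L) (S L L)) (T L L))) (T (V (U (S L L) L) (U (S L L) L)) (F 32 (V (U L L) (U (S L L) L))))) (S (V (U (T L L) (S L L)) (T (U L L) (S L L))) (F 32 (V (U (T L L) (S L L)) (U (T L L) (S L L))))))) (T (F 32 (U (S (V (T (S L L) (S L L)) (S (V L (T L L)) (T L L))) (V (T (S L L) (F 32 (S L L))) (F 32 (T (S L L) (S L L))))) (S (V (T (S L L) L) (T (T L L) L)) (F 32 (V (T L L) (U (T L L) (S L L))))))) (V (F 32 (S (T (U (S L L) L) (S L L)) (F 32 (U (T L L) (S L L))))) (U (S (F 32 (S (T L L) L)) (F 33 (T (S L L) L))) (S (F 32 (T L L)) (F 33 (U (S L L) L))))))) (T (F 32 (V (S (U (V (S L L) (S L L)) (V L (S L L))) (F 32 (U (V (S L L) (S L L)) (S L L)))) (S (U (T (V (S L L) L) (S L L)) (V L L)) (F 32 (U (T (V (S L L) L) (S L L)) (V L L)))))) (F 32 (V (S (U (V L L) (V L L)) (F 32 (U (T L L) (S L L)))) (S (U (V (S L L) (S L L))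 (S L L)) (F 32 (U (V (S L L) L) (S L L))))))))
noncomputable def w5_27 : Tr := (V (T (F 32 (U (S (V (U (T (S L L) (S L L)) (T L L)) (T (S L L) (S L L))) (F 32 (T (S (V (T L L) L) (V (U L L) (S L L))) (S (V (T L L) L) (T (S L L) (S L L)))))) (S (T (V (S L L) (S L L)) (V L (F 32 (S L L)))) (F 32 (V (T L L) (T L L)))))) (T (F 32 (U (S (V (S L L) L) (F 32 (S (T L L) (V L L)))) (S (V L (F 32 (S L L))) (F 32 (V L L))))) (U (S (V (S L L) L) (F 1 (S (T L L) (T L (S L L))))) (F 1 (S (S L L) (V L L)))))) (T (F 32 (S (F 32 (V (U (T (S L L) L) (S L L)) (U (T L L) (S L L)))) (F 32 (V (U (T (S L L) (S L L)) (T L L)) (U (T (S L L) (S L L)) (T L L)))))) (F 1 (S (V (T (F 2 (S L L)) (S L L)) (U (S L L) (S L L))) (V (T (F 2 (U L L)) (U L L)) (T (F 2 (S L L)) (V L L)))))))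
noncomputable def w5_28 : Tr := (U (V (F 2 (T (S (V (U (T (S L L) (S L L)) (T L L)) (U (T (S L L) (S L L)) (T L L))) (V (U (T (S L L) (S L L)) (T L L)) (U (T (S L L) (S L L)) (T L L)))) (S (V (U (T L L) (S L L)) (U (T (S L L) L) (S L L))) (V (U (T (S L L) L) (S L L)) (U (T (S L L) (S L L)) (T L L)))))) (T (F 2 (S (V (U (T (S L L) (S L L)) (T (S L L) L)) (U (T (S L L) (S L L)) (T (S L L) L))) (V (U (T (S L L) (S L L)) (T (S L L) (S L L))) (T (U (S L L) (S L L)) (U (S L L) (S L L)))))) (S (F 2 (V (U (T (S L L) L) (T L L)) (U (T (S L L) L) (T L L)))) (F 2 (V (U (T (S L L) (S L L)) (T L L)) (U (T (S L L) (S L L)) (T (S L L) L))))))) (F 2 (V (T (S (V (T L L) (T (S L L) L)) (U (V (S L L) (S L L)) (T L L))) (S (U (V L (S L L)) (S L L)) (U (V (S L L) (S L L)) (S L L)))) (U (T (V (S (S L L) (S L L)) (S (U (S L L) L) (S (T L L) L))) (V (S (S L L) (S L L)) (S (T (S L L) L) (U L (S L L))))) (T (S (T (S L L) (S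 L L)) (V L L)) (S (T L L) (T L L)))))))
noncomputable def w5_29 : Tr := (T (F 2 (V (U (S (T (S (V (V L L) (U L L)) (V L (U L L))) (S (V (S L L) (S L L)) (V L (T L L)))) (V (T (S L L) (S L L)) (U (T (S L L) (S L L)) (T L L)))) (S (V (T (T L L) L) (T (S L L) L)) (T (V (U (S L L) L) (S L L)) (V (U (S L L) L) (S L L))))) (U (S (V (T (S L L) (S L L)) (T (S L L) (S L L))) (V (S (T L L) (V (T L L) (S L L))) (T (S L L) (S L L)))) (V (S (U (T L L) (S L L)) (T (T L L) (T L L))) (S (T L L) (T (S L L) (S L L))))))) (V (T (F 2 (U (S (S (T (S L L) (S L L)) (V L (T L L))) (V (S L L) (U (S L L) L))) (S (V L L) (V (S L L) L)))) (U (S (S (T (F 2 (S L L)) (S L L)) (V L (T L L))) (V (S L L) (U (S L L) L))) (S (V L L) (V (S L L) (S L L))))) (U (S (V (T (F 2 (S L L)) (S L L)) (T L (S L L))) (V (S (T L L) (V (T L L) (S L L))) (T (F 2 (S L L)) (S L L)))) (V (T (F 2 (S (S L L) L)) (S (S L L) (T L L))) (S (T L L) (T L L))))))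
noncomputable def w5_30 : Tr := (S (V w5_26 (U w5_27 (T (F 32 (V (S (V (U (S L L) L) (T L L)) (F 32 (V (T (S L L) (S L L)) (T (S L L) L)))) (F 32 (U (V (S (T L L) (T (S L L) L)) (S L (S L L))) (S (T L L) (T L L)))))) (V (S (F 32 (V (S L L) (F 32 (S L L)))) (F 1 (V (F 2 (S L L)) (T L L)))) (F 1 (U (V (S (S L L) (T L L)) (S L (S L L))) (S L (T L L)))))))) (F 1 (V w5_28 (U w5_29 (V (T (F 2 (S (V (U (S L L) L) (U (S L L) L)) (V (U (T L L) L) (U (S L L) L)))) (S (V (F 2 (T (S L L) L)) (T (F 2 (S L L)) (S L L))) (V (F 2 (U (S L L) L)) (T (F 2 (S L L)) (S L L))))) (T (F 2 (S (U (V (S L L) (U (S L L) L)) (V L L)) (U (T (V L (S L L)) (V L (S L L))) (V L L)))) (S (T (F 2 (U (S L L) L)) (U (S L L) L)) (U (T (F 2 (S L (S L L))) (V L (S L L))) (V (S L L) L)))))))))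
noncomputable def w5_31 : Tr := (T (F 32 (V (S (U (V (T (U (S L L) (S L L)) (U (S L L) L)) (T (V (S L L) (S L L)) (U (S L L) L))) (V (T (S L L) (S L L)) (T (S L L) (S L L)))) (U (V (T (S (S L L) L) (V L (S L L))) (T (U (S L L) L) (U (S L L) L))) (T (V (S L L) (S L L)) (V (S L L) (S L L))))) (V (S (U (T (U (S L L) L) (S (S L L) (S L L))) (T (S L L) (S L L))) (U (T (S (S L L) (S L L)) (S (S L L) (S L L))) (T (S L L) (S L L)))) (S (U (T (V (S L L) L) (S (S L L) L)) (T (S L L) (S L L))) (U (T (V (S L L) (S L L)) (S (S L L) (S L L))) (T (S L L) (S L L))))))) (F 32 (V (S (U (V (T (S L L) (S L L)) (T (S (S L L) L) (S L L))) (T (V (S L L) (S L L)) (V L (S L L)))) (U (T (V (S (S L L) L) (S L L)) (V (S L L) (S L (S L L)))) (V (T (S L L) L) (T (S L L) (S L L))))) (S (V (U (T (S (S L L) L) (S L (S L L))) (T (S L L) (S L L))) (U (T (S (S L L) (S L L)) (V (S L L) (S L L))) (T (S L L) (S L L)))) (V (U (T (S (S L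 L) (S L L)) (S L (S L L))) (T (S L L) (S L L))) (U (T (S (S L L) (S L L)) (S L L)) (T (S L L) (S L L))))))))
noncomputable def w5_32 : Tr := (T (V (S (T (F 32 (U (V (F 8 (U L L)) (U (S L L) L)) (V L (S L L)))) (F 32 (U (V (F 8 (S L L)) (S (S L L) (S L L))) (V (S L L) (S L L))))) (V (F 2 (U (T (U (S L L) L) (S L L)) (T (S L L) (S L L)))) (T (F 32 (U (U L L) (S L L))) (F 32 (U (S L L) (S L L)))))) (F 32 (S (V (U (T (V (S L L) (S L L)) (V (S L L) (S L L))) (T (S L L) (S L L))) (U (T (S L L) (S L L)) (T (S L L) (S L L)))) (U (V (T (S L L) (S L L)) (T (S L L) (S L L))) (V (T (S L L) (S L L)) (T (S L L) (S L L))))))) (V (S (T (F 32 (U (V (F 8 (S L L)) (S L L)) (V (S L L) (S L L)))) (F 32 (U (V (F 8 (S L L)) (S L L)) (V L (S L L))))) (V (F 2 (U (T (S L L) (S L L)) (T L L))) (T (F 32 (U (S L L) L)) (F 32 (U (S L L) L))))) (F 32 (S (V (U (T (S L L) (S (S L L) (S L L))) (T (S L L) (S L L))) (U (T (S (S L L)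 (S L L)) (S L (S L L))) (T (S L L) (S L L)))) (V (U (T (S L L) (S L L)) (T (S L L) (S L L))) (T (U (S L L) (S L L)) (U (S L L) (S L L))))))))
noncomputable def w5_33 : Tr := (S (V (T (U (F 32 (S (V (T L L) (T L L)) (V (T L L) (T L L)))) (T (F 32 (S L L)) (F 32 (S L L)))) (F 32 (S (U (V (S L L) (T L L)) (T L L)) (U (V (S L L) (T L L)) (T L L))))) (F 32 (T (U (S (V (T L L) (T L L)) (V (T L L) (T L L))) (S (V (S L L) (T L L)) (V (S L L) (S L L)))) (U (S (V (T L L) (T L L)) (V (T L L) (T L L))) (S (V (S L L) (T L L)) (V (S L L) (S L L))))))) (V (T (U (S (T (F 32 (V L L)) (F 32 (S L L))) (V (F 2 (T L L)) (T L L))) (S (V (S L L) L) (T L L))) (U (S (T (F 32 (S L L)) (F 32 (S L L))) (V (F 2 (S L L)) (T L L))) (S (T L L) (V L (S L L))))) (T (F 32 (S (U (V (T L L) (T L L)) (V L L)) (U (V (S L L) (S L L)) (T L L)))) (F 32 (S (U (V (T L L) (T L L)) (V L (S L L))) (U (V (S L L) (T L L)) (V L L)))))))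
noncomputable def w5_34 : Tr := (T (V (U (S (V (T (V L L) (V (S L L) (S L L))) (V (T L (S L L)) (S (T L L) (S L L)))) (V (T (S L L) (S L L)) (T (S L L) (S L L)))) (V (S (T (S L L) (S L L)) (T (S L L) (S L L))) (S (T (T L L) (T L L)) (U (T L L) (T L L))))) (T (U (S (V (U (S L L) L) (S L L)) (U (V (S L L) L) (V L (S L L)))) (S (V (S L L) (U L L)) (V (S L L) (T L L)))) (U (S (V (U (S L L) (S L L)) (S L L)) (S (V (U L L) L) (U (V L L) (V L L)))) (S (V (S L L) (U L L)) (V (S L L) (T L L)))))) (V (U (S (V (T (S (S L L) L) (S (S L L) L)) (S (V (S L L) (T L L)) (T (S L L) L))) (V (T (S L (S L L)) (S L (S L L))) (T (S L L) (S L L)))) (V (S (T (S L L) (S L L)) (T (S L L) (S L L))) (S (T (T L L) (T L L)) (U (T L L) (T (S L L) (S L L)))))) (U (S (V (U (T (S L L) (S L L)) (T (S L L) (S L L))) (T (S L L) (S L L))) (T (S (V (U L L) L) (V (U L L) (V L L))) (S (V (U L L) (S L L)) (V (U L L) (U L L))))) (S (T (V (S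 L L) (U L L)) (V (S L L) (U L L))) (V (T (S L L) (S L L)) (T (T L L) (T L L)))))))
noncomputable def w5_35 : Tr := (V (T (S (V (U (T (S L L) (S L L)) (T (S L L) (S L L))) (U (T (S L L) (S L L)) (T (S L L) (S L L)))) (U (V (T (S L L) (S L L)) (T L (S L L))) (V (T L (S L L)) (T L (S L L))))) (S (V (U (T (S L L) (S L L)) (T (S L L) (S L L))) (T (U (S L L) (S L L)) (U (S L L) (S L L)))) (V (U (T (S L L) (S L L)) (T (S L L) (S L L))) (U (T (S L L) (S L L)) (T (S L L) (S L L)))))) (T (U (V (S (U (S L L) (T (S L L) (S L L))) (T L L)) (T (U (S L (K 1)) (S L L)) (S (U L L) (U L L)))) (S (V (T L (T L L)) (T L (S L L))) (T (V (S L L) L) (V (V L L) L)))) (U (S (T (S (V (V L L) (U L L)) (V L (U L L))) (S (V (U L L) (U L L)) (V L (U L L)))) (V (T (S L L) (S L L)) (U (S (T L L) L) (T L L)))) (S (V (T (T L L) (T L L)) (T (S L L) (S L L))) (V (U (T L L) (T L L)) (T (S L L) (S L L)))))))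
noncomputable def w5_36 : Tr := (S (U w5_34 (V (T (S (U (T (V (S L L) L) (V (S L L) L)) (V (S L L) (S L L))) (U (V (S (T L L) (S L L)) (T L L)) (V (T L L) (S L L)))) (S (U (T (V (S L L) L) (V (S L L) L)) (V (S L L) (S L L))) (U (T (V (S L L) L) (V (S L L) L)) (V (T L L) (S L L))))) (T (S (V (U (T L L) (S L L)) (U (S L L) L)) (V (U (S L L) (S L L)) (U (S L L) L))) (S (V (U (T L L) (S L L)) (U (S L L) (S L L))) (V (U (T L L) (S L L)) (U (T L L) (S L L))))))) (U w5_35 (T (V (U (V (S (S L L) (S L L)) (S (U (S L L) L) (T (S L L) (S L L)))) (S (V (S L L) L) (V L L))) (S (V (U (S L L) L) (U (S L L) L)) (V (U (S L L) L) (T L (S L L))))) (V (U (V (S (T L L) (S L L)) (S (U (T L L) (S L L)) (S (T L L) L))) (S (T (S L L) (S L L)) (V L L))) (S (V (U (T L L) (S L L)) (U (T L L) (S L L))) (V (U (S L L) L) (U (S L L) L)))))))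
noncomputable def w5_37 : Tr := (T (F 32 (V (S (V (U (T (S L L) (S L L)) (T L L)) (U (T (S L L) (S L L)) (T (S L L) (S L L)))) (U (V (T (S L L) (S L L)) (T (S L L) (S L L))) (T (V L (S L L)) (V L (S L L))))) (S (V (T (U (S L L) (S L L)) (U (S L L) (S L L))) (U (T (S L (S L L)) (S L L)) (T (S L L) (S L L)))) (V (U (T (S L (S L L)) (S L L)) (T (S L L) (S L L))) (U (T (S L L) (S L L)) (T (S L L) (S L L))))))) (F 32 (V (S (U (V (T (S L L) (S L L)) (T (S L L) (S L L))) (V (T L L) (T L L))) (U (V (T (S L L) (S L L)) (T (S L L) (S L L))) (V (T L L) (T L L)))) (S (V (U (T (S L L) (S L L)) (T (S L L) L)) (U (T (S L L) (S L L)) (T (S L L) L))) (V (U (T (S L L) (S L L)) (T (S L L) (S L L))) (U (T (S L L) (S L L)) (T (S L L) (S L L))))))))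
noncomputable def w5_38 : Tr := (V (T (S (T (F 32 (U (V (S L L) (S L L)) (V L (S L L)))) (F 32 (U (V (S L L) (S L L)) (V L (S L L))))) (V (F 2 (U (T (S L L) (S L L)) (T L L))) (T (F 32 (U (S L L) (S L L))) (F 32 (U (S L L) (S L L)))))) (S (F 32 (U (V (T (S L L) (S L L)) (T (S L L) (S L L))) (T (V L (S L L)) (V L L)))) (V (F 2 (U (T (S L L) (S L L)) (T L L))) (F 32 (U (T (S L L) (S L L)) (T (S L L) (S L L))))))) (F 32 (T (S (U (V (T (S (S L L) L) (S L L)) (T (S L L) (S L L))) (V (T (S L L) (S L L)) (T (S L L) (S L L)))) (U (V (T (S L L) (S L L)) (T (S L L) (S (S L L) L))) (V (T (S L L) (S L L)) (T (S L L) (S L L))))) (S (V (U (T (S L L) (S L L)) (T (S L L) (S L L))) (U (T (S L L) (S L L)) (T (S L L) (S L L)))) (U (V (T (S L L) (S L L)) (T (S L L) (S L L))) (V (T (S L L) (S L L)) (T (S L L) (S L L))))))))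
noncomputable def w5_39 : Tr := (S (V (T (F 32 (S (U (V (S L L) (S L L)) (T L L)) (U (T (S L L) (S L L)) (T L L)))) (F 32 (S (U (V (S L L) (S L L)) (S L L)) (U (V (S L L) (S L L)) (S L L))))) (F 32 (U (T (S (V (T L L) (T L L)) (V (T L L) (T L L))) (S (V (S L L) (S L L)) (V (S L L) (S L L)))) (T (S (V L (T L L)) (V (S L L) (S L L))) (S (V L (S L L)) (V L L)))))) (T (V (S (T (F 32 (U (S L L) L)) (F 32 (U (S L L) L))) (U (V (F 2 (S L L)) (T L L)) (T L L))) (F 32 (S (U (V (T L L) (T L L)) (T (S L L) L)) (U (V (S L L) (T L L)) (V L L))))) (V (S (T (F 32 (U (S L L) L)) (F 32 (U (S L L) L))) (U (V (F 2 (S L L)) (S L L)) (V (S L L) (S L L)))) (F 32 (S (U (V (S L L) (S L L)) (V L L)) (U (V (S L L) (S L L)) (T L L)))))))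
noncomputable def w5_40 : Tr := (T (F 16 (V (U (S (V (T (S L L) (S L L)) (S (U (T L L) (T L L)) (T L L))) (V (T (S L L) (S L L)) (T (S L L) (S L L)))) (V (S (T (S L L) (S L L)) (T (S L L) (S L L))) (S (T (T L L) (T L L)) (V (S L L) (U (S L L) (S L L)))))) (U (S (V (U (S (T L L) (T L L)) (T L L)) (T (S L L) (S L L))) (T (S (V (U L L) L) (V (U L L) (U L L))) (S (V (U L L) L) (V (U L L) (V L L))))) (S (T (V (S L L) (U (S L L) L)) (V (S L L) (U (S L L) L))) (V (T (S L L) (S L L)) (T (T L L) (T L L))))))) (V (U (S (V (F 16 (T (S L L) (S L L))) (T (F 16 (U L (S L L))) (S (V L L) L))) (V (F 16 (T (S L L) (S L L))) (T (F 16 (S L L)) (S L L)))) (V (S (F 16 (T (S L L) L)) (F 16 (T (S L L) (S L L)))) (S (T (F 16 (T L L)) (T L L)) (U (S (F 16 (S L L)) L) (F 16 (T L L)))))) (U (S (V (U (T (F 16 (S L L)) (S L L)) (T L (S L L))) (T (F 16 (S L L)) (S L L))) (T (F 16 (S (V (U L L) L) (V (U L L) (V L L)))) (S (V (U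 (T L L) L) (S L L)) (V (U L L) (U L L))))) (S (T (F 16 (V (S L L) (U L L))) (V (S L L) (U (S L L) L))) (V (T (F 16 (S L L)) (S L L)) (T (F 16 (T L L)) (T L L)))))))
noncomputable def w5_41 : Tr := (V (T (F 16 (S (V (U (T (S L L) (S L L)) (T (S L L) (S L L))) (U (T (S L L) (S L L)) (T (S L L) (S L L)))) (V (U (T (S L L) (S L L)) (T (S L L) (S L L))) (U (T (S L L) (S L L)) (T (S L L) (S L L)))))) (S (F 16 (V (U (T (S L L) (S L L)) (T (S L L) (S L L))) (U (T (S L L) (S L L)) (T (S L L) (S L L))))) (F 16 (V (U (T (S L L) (S L L)) (T (S L L) (S L L))) (U (T (S L L) (S L L)) (T (S L L) (S L L))))))) (T (F 16 (U (S (T (S (V (U L L) (U L L)) (V L (U L L))) (S (V (U L L) (U L L)) (V L (U L L)))) (V (T (S L L) (S L (S L L))) (U (T (S L L) (S L L)) (T (S L L) (S L L))))) (S (V (T (T L L) (T L L)) (T (S L L) (S L L))) (V (U (T L L) (T (S L L) (S L L))) (T (S L L) (S L L)))))) (U (T (F 16 (S (S (V (V L L) (U L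 L)) (V L (U L L))) (V (S L L) (U (S L L) (S L L))))) (S (S (V (U L L) (U L L)) (V (S L L) (U (T L L) L))) (V (F 16 (S L L)) (U (S (T L L) L) (T L L))))) (S (V (T (F 16 (T L L)) (T L (S L L))) (T (F 16 (S L L)) (S L L))) (V (F 16 (U (T L L) (T (S L L) L))) (T (F 16 (S L L)) (S L L)))))))
noncomputable def w5_42 : Tr := (S (U w5_40 (V (T (F 16 (S (U (T (V (S L L) L) (V (S L L) L)) (V (S L L) (S L L))) (U (T (V (S L L) L) (V (S L L) L)) (V (S L L) (S L L))))) (S (U (T (F 16 (V (S L L) L)) (S L L)) (F 16 (V L L))) (F 16 (U (T (V (S L L) L) (S (S L L) (S L L))) (V L L))))) (T (F 16 (S (V (U (T L L) (S L L)) (U (S L L) (S L L))) (V (U (T L L) (S L L)) (U (T L L) (S L L))))) (S (V (T (F 16 (S L L)) (S L L)) (U (T L L) (S L L))) (V (T (F 16 (S L L)) (V L L)) (U (T L L) (S L L))))))) (U w5_41 (T (F 16 (V (U (V (S (T L L) (T L L)) (S (U (T L L) (S L L)) (S (T L L) L))) (S (V (T L L) (S L L)) (V L (S L L))))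 (S (V (U (T L L) (S L L)) (U (T L L) (S L L))) (V (U (T L L) (S L L)) (U (T L L) (S L L)))))) (V (F 16 (U (V (S (S L L) (S L L)) (S (U (S L L) L) (S (T L L) L))) (S (V (S L L) L) (V L (S L L))))) (S (V (U (T L (S L L)) L) (U (T L (S L L)) (S L L))) (V (F 16 (U (T L L) (S L L))) (U (T L (S L L)) (S L L))))))))
noncomputable def treeW5 : Tr := (F 0xffffffffffffffffffffffffffffffffe7fffee7773bdeefff (U (U (F 1540 (S (F 128 w5_1) (T (F 32 (V (F 2 (U (F 1 (T (K 3) (K 3))) (F 1 (S (F 2 (T (V (U L L) (K 3)) (V (S L L) (K 3)))) (V (T L L) (K 3)))))) (K 4))) (F 1 (V (F 2 (U (T (K 3) (K 3)) (S (F 64 (T (F 4 (V (S L L) (K 3))) (V (F 4 (S L L)) (V (F 4 (S (S L L) (K 3))) (K 3))))) (F 16 (T (T (K 3) (K 3)) (V L (K 3))))))) (F 4 (T (K 3) (T (K 3) (V (K 3) (U (K 3) (U (K 3) (S (F 128 (S (V L L) (F 1 (S L L)))) (F 192 (V (K 2) L)))))))))))))) w5_19) (F 1540 (S (F 256 (T (F 11 (V (U (S w5_20 w5_21) w5_22) w5_25)) (F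 3 w5_30))) (F 769 (T (F 4 (V (U (S w5_31 w5_32) w5_33) (F 32 w5_36))) (V (U (S (F 4 w5_37) (F 4 w5_38)) (F 4 w5_39)) (F 1 w5_42))))))))

theorem pW5 : chkW par treeW5 192 64 320 64 128 128 349525 524288 Lc = true := by decide +kernel

noncomputable def w6_0 : Tr := (S (T (V (F 128 (S (T (V (S L L) (S L L)) (F 128 (V L (S L L)))) (F 128 (U (T L L) (T (V L (S L L)) (S L L)))))) (V (F 128 (S (U (S L L) (T (S L L) L)) (F 128 (T (T L L) (T L L))))) (S (T (S L L) (F 1 (S L L))) (F 129 (T (S L L) (S L L)))))) (F 1 (V (F 2 (S (V (T L L) (T (S L L) L)) (T (U L (S L L)) (U L (S L L))))) (V (F 2 (S (U (S L L) (T L L)) (T (T L L) (T L L)))) (S (T (S L L) (S L L)) (F 2 (T (S L L) (S L L)))))))) (F 129 (T (V (U (S (S L L) L) (S (T (S L L) (S L L)) (T L (S L L)))) (S (V (T (S L L) (S L L)) (U (S L L) (V (S L L) (S L L)))) (V (T (S L L) (S L (S L L))) (T (T L L) (U L (S L L)))))) (V (S (T (U L (S L L)) (S (S L L)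 L)) (U (S L L) (T L L))) (S (T (V (S L L) (U L (S L L))) (V (S L L) (U L (S L L)))) (V (T (S L (S L L)) (S L (S L L))) (T (U (S L L) (S L L)) (U L (S L L)))))))))
noncomputable def w6_1 : Tr := (S (U (T (F 512 (V (F 130 (U L (T (S L L) L))) (V (S (T L L) (F 130 (S L (S L L)))) (S (T (S L L) L) (F 2 (S L L)))))) (F 512 (V (F 130 (T L L)) (V (F 128 (S (S L L) (F 64 (S L L)))) (S (S L L) L))))) (F 512 (V (F 130 (T (S (T (V L L) (V L (S L L))) (T (U L (S L L)) (U L (S L L)))) (U (S (T (S L L) L) (S L L)) (S (V (S L L) (T L L)) (V (S L L) (T (S L L) L)))))) (T (F 2 (V (F 2 (S (U (S L L) (T L L)) (T (T L L) (T L L)))) (S (T (S L L) (S L L)) (F 2 (T (S L L) (S L L)))))) (V (F 130 (T (S (U L L) (T L L)) (S (U L (S L L)) L))) (S (T (F 2 (S L L)) (F 2 (S L L))) (F 128 (T L L)))))))) (F 514 (U (F 2 (T (U L (V L (S (V L L) (S L L)))) (U L (T (S L L) L)))) (F 2 (T (V (U (T (S L L) L) (T (S (S L L) L) (S (S L L)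 L))) (S (V (T (S L L) (S L L)) (U L (V (T L L) L))) (V (U L (V (S L L) L)) (T (T L L) L)))) (V (U L (T (S L L) L)) (V (S (S L L) (S L L)) (T (U L (S L L)) (F 64 (T L L))))))))))
noncomputable def w6_2 : Tr := (V (S (U (F 128 (T (S (V (S L L) (S L L)) (V (S L L) (F 1 (S L L)))) (V (S (U L (F 1 (S L L))) (F 1 (T L L))) (S (T (S L L) (F 1 (S L L))) (F 1 (T L L)))))) (F 128 (T (S (V (T (S L L) (F 1 (S L L))) (F 257 (T (S L L) L))) (F 1 (V (T (S L L) (S L L)) (T (F 1 (S L L)) (S L L))))) (F 1 (S (V (T (S L L) L) (F 1 (T L L))) (V (T (S L L) (S L L)) (T (S L L) (S L L)))))))) (F 128 (U (F 1 (V (S (T L L) L) (S (T L L) L))) (F 1 (V (F 2 (T (S (T (S L L) (S L L)) (T (S L L) (S L L))) (S (T (S L L) (S L L)) (U (S L L) (T (S L L) L))))) (T (S (S (F 1 (T L L)) (T L L)) (F 2 (U (S L L) (F 64 (S L L))))) (S (T (S L L) (S L L)) (F 2 (T (S L L) L))))))))) (U (F 128 (S (T (F 256 (U (F 128 (S L (S L L))) (S (T L L)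 (F 128 (V L L))))) (F 256 (U (F 128 (S (S L L) L)) (F 128 (S (T L L) (V (S L L) (S L L))))))) (F 1 (V (S (F 1 (T L L)) L) (F 1 (S (U L (T (S L L) (S L L))) L)))))) (F 128 (S (F 256 (T (F 128 (S (V (T (T L L) L) (T (S L L) L)) (T (V (U L (S L L)) (S L L)) (V (U L (S L L)) (S L L))))) (F 128 (S (V (T L L) (T L L)) (T (V (U L L) (S L L)) (V (U L L) (S L L))))))) (F 257 (T (V (S (T (S L L) (S L L)) (U (S L L) (T L (S L L)))) (S (T (U L (S L L)) (T L L)) (U (S L L) (T (S L L) (S L L))))) (V (S (T (S L L) (S L L)) (T (S L L) L)) (T (S (T L L) (U L (S L L))) (U (S L L) (S L (S L L)))))))))))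
noncomputable def w6_3 : Tr := (V (S (T (U (F 512 (V (S (V L L) L) (S (U L L) (S L L)))) (F 640 (S (V (T L (S L L)) (F 128 (T L L))) (V (T (S L L) (S L L)) (T (S L L) (S L L)))))) (U (F 512 (S (V (S L L) (S L L)) (K 6))) (F 512 (V (S (T (F 2 (S L L)) (S L L)) (F 2 (V L (S L L)))) (S (F 256 (T L (S L L))) (F 258 (S L L))))))) (F 512 (U (F 2 (T (S (V L L) (K 2)) (K 2))) (F 2 (T (V (F 2 (S (T (S L L) L) (S L L))) (S (V (S L L) L) (F 2 (S L L)))) (V (F 2 (S (S L L) L)) (S (S L L) (K 2)))))))) (U (T (F 512 (S (U (S L L) (F 258 (V (S (S L L) L) (S L L)))) (F 2 (S (F 1 (T (K 5) (K 5))) (K 2))))) (F 512 (S (F 256 (U (S L (K 1)) (T (F 64 (S L L)) (S L (K 1))))) (K 6)))) (F 512 (S (F 256 (T (F 64 (S (V (T L L) (T L L)) (T (V (U L L) (S L L)) (V (U L (S L L)) (S L L))))) (V (T (F 64 (S (T L L) (U L L))) (U (S L L) (S L L))) (S (T (F 64 (S L L)) (S L L)) (F 64 (T (S L L) L)))))) (F 258 (T (V (S (T L L) (S L L))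 (T (U L (S L L)) (U L (S L L)))) (S (V (S L L) (T L L)) (K 1))))))))
noncomputable def w6_4 : Tr := (T (F 32 (U (F 2 (T (T (K 3) (K 3)) L)) (S (F 2 (U (T (V L (T (K 3) (S (V L L) (K 3)))) (V L (U (S L L) (V (T (S L L) L) (S L L))))) (T (V (S (S L L) L) (S (V (T L (S L L)) (S L L)) (V (S (S L L) L) (S L L)))) (V (S (T L L) (T L L)) (V (S (T (S L L) (S L L)) (T (S (S L L) (S L L)) (S L (S L L)))) (S (T (S L L) L) (V (S L L) L))))))) (F 2 (U (T L L) (S (T (V L (T (K 3) (V L (S L L)))) (U (T (V L (V L L)) L) (F 64 (T (V L (V (S L L) L)) (T (S (S L L) L) L))))) (F 64 (U (T L L) (V (F 16 (T L L)) (V (T L (V (T L L) L)) (S L L))))))))))) (F 160 (U (T L L) (T (S (V (T (U L L) L) (V (U L (S (S L L) (S L L))) (S (S L L) L))) (F 64 (T (U L L) L))) (F 64 (S (U L (V L (V L L))) L))))))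
noncomputable def w6_5 : Tr := (S (F 4736 (V (T (U (F 128 (S (T (V (F 128 (U (S L L) (S (S L L) L))) (V (F 128 (S (S L L) (U (K 3) (F 128 (S L L))))) (U (K 4) (S (S L L) L)))) (V (F 128 (U (S L L) (F 128 (S (S L L) (S L L))))) (V (F 128 (S (T (S L L) (S L L)) (F 128 (U L (S L (S L L)))))) (S (U (S L L) (F 1 (S L L))) (F 1 (V L L)))))) (F 129 (U (T (K 3) L) (V (T L L) (T (T (K 3) (K 3)) (S (V L L) (S L L)))))))) (F 128 w6_0)) w6_1) (T w6_2 w6_3))) (F 4101 (V (F 2 w6_4) (F 20 (T (V (F 64 (U (T (K 3) (S (S L L) L)) (S (V (U (S (T L L) L) (T (S (V (S L L) L) (S L L)) (S (V (U L L) L) (S L L)))) (S (U (S L L) (F 1 (T (S L L) L))) (V (T L L) L))) (V (U L (S (S L L) L)) (U L (F 1 (T L L))))))) (S (U (V L L) (F 128 (V (F 1 (S (T (V L L) (S L L)) (T L L))) (S (T (U L (V L (S L L))) (S L L)) (F 1 (T L L)))))) (F 64 (U L (F 1 (V (S L L) (S L L))))))) (V (F 64 (U (S (K 1) (K 1)) (S (T (V (T (U L L) L) (S L (K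 1))) (K 1)) (F 64 (S (K 4) (K 4)))))) (S (T (V (U (K 5) (F 192 (S L (K 0)))) (K 5)) (K 5)) (K 5))))))))
noncomputable def w6_6 : Tr := (V (T (S (T (V (S (F 32 (S L L)) (F 33 (S L L))) (U (S L L) (S L L))) (F 1 (V (U L L) (U L L)))) (F 1 (V (T (F 4 (U (S L L) L)) (U (S L L) (S L L))) (U (T (S L L) (S L L)) (T (S L L) (S L L)))))) (F 1 (S (V (U (T L L) (S L L)) (U (T L L) (S L L))) (V (U (T (S L L) (S L L)) (T L L)) (U (T (S L L) (S L L)) (T L L)))))) (T (S (T (U (S (V L L) (F 1 (V L (S L L)))) (V (S L L) L)) (F 1 (U (V L (U L L)) (V L L)))) (F 1 (T (U (V (S L L) (U (S L L) L)) (V (S L L) L)) (U (V (S L L) (U (S L L) L)) (V (S L L) L))))) (F 1 (S (T (U (V L (S L L)) (V L L)) (U (V L (S L L)) (V L L))) (U (T (V (S L L) (U (S L L) L)) (V (S L L) (U (S L L) L))) (V (T L L) (F 1 (S L L))))))))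
noncomputable def w6_7 : Tr := (V (T (S (V (U (T (U L L) (U L L)) (T (F 4 (S L L)) (S L L))) (U (T (S L L) (S L L)) (T (S L L) (S L L)))) (U (T (V (F 4 (S L L)) (U (S L L) (F 4 (S L L)))) (V (T L L) (S (S L L) (T L L)))) (T (F 4 (V (S L L) (S L L))) (V (S L L) (S L L))))) (U (S (V (T (S L L) (S L L)) (T (S L L) (S L L))) (T (V (U L L) (S L (S L L))) (V (T L L) (S L (S L L))))) (S (V (T (S L L) (S L L)) (T (S L L) (S L L))) (V (T (S L L) (S L L)) (T (S L L) (S L L)))))) (T (S (V (U (T (S L (S L L)) (S L L)) (T (S L L) (S L L))) (U (T (S L L) (S L L)) (F 1 (T (S L L) (S L L))))) (V (U (T (S (S L L) (S L L)) (S L (S L L))) (T (F 1 (S L L)) (F 1 (S L L)))) (U (T (S (S L L) (S L L)) (S L (S L L))) (F 1 (T (S L L) (S L L)))))) (S (V (U (T (S L L) (S L L)) (T (S L L) (S L L))) (U (T (S L L) (S L L)) (F 1 (T (S L L) (S L L))))) (V (U (T (S L (S L L)) (S L (S L L))) (S (F 1 (T L L)) (F 1 (T L L)))) (U (T (V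 L L) (S L (S L L))) (F 1 (T (S L L) (S L L))))))))
noncomputable def w6_8 : Tr := (V (U (T (V (S (F 1 (T (F 1 (S L L)) L)) (F 258 (T (F 64 (S L L)) (S L L)))) (F 1 (S (F 1 (U (T L L) (T L L))) (F 1 (S (U L (T L L)) (T L L)))))) (F 256 (V (S (T L (S L L)) (F 64 (S L (F 1 (S L L))))) (F 128 (S (U (S L L) (S L L)) (S (U L (S L L)) (S L L))))))) (F 1 (T (S (F 1 (T (F 1 (S (S L L) (S L L))) (S (S L L) L))) (F 129 (V (U (S L L) (T L L)) (T L L)))) (F 1 (S (T (S (S L L) L) (S L L)) (F 1 (V (V (T L L) (S L L)) (T L L)))))))) (F 1 (T (F 1 (S (V (U (T (S L L) L) (T L L)) (U (T L L) (S L L))) (V (T (U (S L L) (S L L)) (U (S L L) L)) (U (T (S L L) (S L L)) (T (S L L) L))))) (F 1 (S (V (U (T L L) (S L L)) (U (T L L) (S L L))) (V (T (U L L) (U L L)) (U (T L L) (T L L))))))))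
noncomputable def w6_9 : Tr := (V (F 64 (U (T (V (S (S (F 1 (T L L)) (F 1 (V (T L L) L))) (U (S (F 1 (S L L)) (F 1 (T L L))) (F 1 (T (S L L) L)))) (F 1 (S (T (S L L) (S L L)) (T (S L L) (S L L))))) (V (S (S (F 1 (S L L)) (F 1 (U L (T L L)))) (U (S (F 1 (S L L)) (F 1 (T L L))) (F 1 (T L (S L L))))) (F 1 (S (T (S L L) (S L L)) (T (S L L) (S L L)))))) (F 1 (T (S (V (T (T L L) (T L L)) (U (T L L) (T (S L L) L))) (T (V (S L L) (U (S L L) (S L L))) (V (S L L) (U L (S L L))))) (S (V (T (T L L) (T L L)) (U (S L L) (T L L))) (T (V (S L L) (U L (S L L))) (V (S L L) (U L (S L L))))))))) (F 128 (T (S (U (T (V (U (S L L) L) (S L L)) (V (U (S L L) L) (S L L))) (V (F 1 (T (S L L) (S L L))) (T (F 1 (S L L)) (S L L)))) (U (V (F 1 (S (V (S L L) (T L L)) (T L L))) (T (S L (T L L)) (S L (T L L)))) (F 1 (V (T (T L L) (T L L)) (T (S L L) (S L L)))))) (S (U (T (V (U (S L L) L) (S L L)) (V (U (S L L) L) (S L L))) (V (F 1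 (T L L)) (T (S L L) (S L L)))) (U (V (F 1 (U (T L L) (T (S L L) (S L L)))) (T (S L L) (S L (T L L)))) (F 1 (V (T (T L L) (T L L)) (T (S L L) (S L L)))))))))
noncomputable def w6_10 : Tr := (T (S (U (V (T (S (V L L) (V L L)) (S (S L L) (U L L))) (T (S (S L L) (T L L)) (U (S L L) (F 64 (S L L))))) (F 64 (V (T (F 2 (S L L)) (S L L)) (T (S L (S L L)) (S L L))))) (U (V (U (T (F 16 (S L L)) (S (S L L) L)) (F 64 (T (S L L) (S L L)))) (U (S (S L L) (F 64 (T L L))) (F 64 (T (S L L) (S L L))))) (F 64 (V (T (F 2 (S L L)) (S (S L L) (T L L))) (T (S (S L L) L) (S (S L L) (S L L))))))) (S (U (V (T (S (S L L) (T L L)) (S (S L L) (S L L))) (T (S (S L L) (S L L)) (U (S L L) (F 64 (S L L))))) (F 64 (V (T (S L L) (S L L)) (T (S L L) (S L L))))) (U (V (T (S (U L L) (F 64 (V L L))) (S (V L L) (F 64 (U L L)))) (T (S (S L L) (F 64 (T L L))) (S (F 64 (S L L)) (F 64 (S L L))))) (F 64 (V (T (S (S L L) (S L L)) (S (S L L) (S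 L L))) (T (S L (S L L)) (S (S L L) (S L L))))))))
noncomputable def w6_11 : Tr := (T (F 64 (V (F 2 (U (S (T L L) L) (S (T (T L L) (T (S L L) L)) (F 2 (T (S L L) (S L L)))))) (S (V (F 2 (T (U L (S L L)) (S (S L L) (T L L)))) (T (U L (S L L)) (S (V L L) (V L L)))) (V (F 2 (T (U L (S L L)) (U (S L (S L L)) (S L (S L L))))) (T (F 2 (U L (S L L))) (S (F 2 (S L L)) (F 2 (V L L)))))))) (F 64 (U (T (V (S (S L L) L) (V (S (S L (S L L)) (S (S L L) (F 2 (S L L)))) (S (V (S L L) L) (V (S L L) L)))) (V (S (S L L) (F 16 (S L L))) (S (V (S (S L L) (S L L)) L) (F 32 (V (S L (S L L)) L))))) (V (S (T (T L (S L L)) (V L (S (S L L) (T L L)))) (F 16 (T (F 8 (T L L)) (F 1 (S (S L L) L))))) (S (V (T (S L (S L L)) (S L (S L L))) (T (S L L) (V L L))) (V (T (S (S L L) (F 2 (S L L))) (F 32 (S L (S L L)))) (T (S (S L L) (T L L)) (F 32 (S L (S L L))))))))))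
noncomputable def w6_12 : Tr := (T (V (F 16 (T (F 1 (V (F 2 (S (S L L) (S L L))) (S (S (S L L) (S L L)) (S (T L L) (F 2 (S L L)))))) (F 1 (V (F 2 (S (S L L) (U L (S L L)))) (S (S (S L L) (S L L)) (S (T L L) (F 2 (S L L)))))))) (F 64 (S (V (T (U (F 2 (S L L)) (F 2 (S L L))) (U (S L L) (F 2 (S L L)))) (T (F 2 (S (S L L) (S L L))) (U (S L L) (S L L)))) (V (F 2 (T (U (S L L) (S L L)) (U (S L L) (S L L)))) (T (U (F 2 (S L L)) (F 2 (S L L))) (U (S L L) (S L L))))))) (F 64 (V (V (F 16 (T (F 8 (S (V L L) (U L (S L L)))) (S (U (S L L) (S L L)) (F 9 (U L L))))) (S (T (S (V L L) (F 2 (S L L))) (U (S L (S L L)) (S L (S L L)))) (T (F 2 (S (V L L) (F 2 (T L L)))) (F 32 (S (V L L) (F 9 (S L L))))))) (S (V (T (S (T L L) (U (S L L) L)) (S (T L L) (U (S L L) L))) (T (S (S L L) (T L L)) (S (T L L) (V L L)))) (T (V (S (U (S L L) L) (F 2 (T L L))) (U (S (S L L) (S L L)) (S L (S L L)))) (F 32 (V (U (S L (S L L)) (S L L))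 (S (S L L) (U L L)))))))))
noncomputable def w6_13 : Tr := (V (T (S (F 64 (V (T (S L (S L L)) (S L L)) (U (T (S L L) (S L L)) (S (T L L) (T (S L L) L))))) (F 64 (T (V (U (S L L) (S L L)) (U (S L L) (T L L))) (V (S (S L L) (S L L)) (U (S L (S L L)) (T L L)))))) (S (T (F 64 (V (S L L) (S L (U L L)))) (F 64 (V (S L (S L L)) (U L (V (S L L) L))))) (F 64 (V (T (S (S L L) (S L L)) (U L (S L L))) (U (S L (T L L)) (T (T L L) (T L L))))))) (F 64 (V (T (S (T (S L (S L L)) (S L L)) (T (S (S L L) (S L L)) (V (S L L) (S L L)))) (S (T (S L (S L L)) (S L (S L L))) (U (S L L) (T (S L L) (S L L))))) (T (S (U (V (S L L) (T L L)) (T (S L L) (S L L))) (U (T (S L L) (S L L)) (T (V L (S L L)) (S (S L L) L)))) (U (S (V L (S L L)) (S L L)) (S (T (S L L) (T L L)) (V (S L L) (T (S L L) L))))))))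
noncomputable def w6_14 : Tr := (S (T (S (V (T (S L (S L L)) (S L L)) (T (U (S L L) (S L L)) (U (S L L) (S L L)))) (V (T (S (S L L) (S L L)) (S (S L L) (S L L))) (T (S (S L L) (S L L)) (S (S L L) (S L L))))) (S (V (T (S L L) (V L L)) (T (U (S L L) (S L L)) (U (S L L) (S L L)))) (V (T (S (S L L) (S L L)) (V (S L L) (S L L))) (T (S (S L L) (S L L)) (V (S L L) (T L L)))))) (T (S (V (T (S (S L L) (S L L)) (S (S L L) (S L L))) (T (S (S L L) (T L L)) (S (S L L) (T L L)))) (V (T (F 2 (S (S L L) (S L L))) (S (V L L) (V (S L L) L))) (T (S (V L L) (V L L)) (S (T L L) (V L L))))) (V (S (T (S (S L L) (T L L)) (S (T L L) (F 32 (S L L)))) (T (S (V L L) (V (S L L) L)) (F 32 (V (S L L) (S L L))))) (S (T (V (S L L) (S L L)) (S (F 32 (S L L)) (F 32 (S L L)))) (T (S (V L L) (F 32 (S L L))) (F 32 (U L (S L L))))))))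
noncomputable def w6_15 : Tr := (S (T (S (T (V (V L (U L L)) (S L L)) (V (V L (U L L)) (S L L))) (V (V (U (S L L) (T (S L L) L)) (T (S L L) (S L L))) (T (U (T L L) (S L L)) (U (T L L) (S L L))))) (S (T (V (V L (U L L)) (S L L)) (V (V L (U L L)) (V L L))) (V (V (U (S L L) (T (S L L) (S L L))) (T (S L L) (S L L))) (T (T (U L L) (U L L)) (T (U L L) (F 32 (T L L))))))) (T (S (V (T (U (T L L) (S L L)) (U (V L L) (S L L))) (U (T (S L L) (S L L)) (V (S L L) (T (S L L) (S L L))))) (V (T (V (S L L) (T L L)) (V (S L L) (U L L))) (U (T (S L L) (S L L)) (V (T (S L L) (S L L)) (T L L))))) (S (V (T (U (V L L) (S L L)) (F 32 (U L (S L L)))) (U (T (S L L) L) (T (V L L) (F 32 (S L L))))) (F 32 (V (T (U (S L L) (S L L)) (V L L)) (U (S L L) (V (T L L) (S L L))))))))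
noncomputable def w6_16 : Tr := (V (S (F 2 (V (T (U (S (T (U (F 16 (S L L)) (V L (S L L))) (V (F 16 (S L L)) (S (T L L) (V L L)))) (F 16 (U (T (S L L) (S L L)) (F 1 (T (T (S L L) L) (S L L)))))) (F 64 (S (T (F 2 (V (S L L) (S L L))) (V (S L (S L L)) (S L L))) (V (F 2 (T (U L L) (S L L))) (T (U (F 2 (S L L)) (F 2 (S L L))) (U (S L L) L)))))) (U (T (S (U (S L L) (V L (S L L))) (U (S L L) (F 64 (V L (S L L))))) (U (S (S L L) (S L L)) (S (V L (S L L)) (F 64 (V L (S L L)))))) (F 64 (S (V (T (U (S L L) L) (S L L)) (T (S L L) (S L L))) (T (V (U L (S L L)) (S (S L L) (T L L))) (V (U (S L L) (S L L)) (S (S L L) (V L L)))))))) w6_10)) (F 1 (U w6_11 w6_12))) (F 2 (U (S w6_13 (F 64 (V (T (V (S (T (U L (S L L)) (S (T L L) (V L L))) (U (T L (V (S L L) L)) (T (S (S L L) L) (S (S L L) (S L L))))) (S (T (U (S L L) (S L L)) (S (T L L) (U L L))) (U (S L L) (T (V (S L L) L) (S L L))))) (V (S (U (S L L) (T (S L L) (S L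 L))) (U (S L L) (T (V (S L L) (S L L)) L))) (S (U L (T (S L L) L)) (V (S L L) L)))) (V (U (S (T (V L L) L) (T (S L L) L)) (T (S (V (S L (T L L)) (T L L)) (T (V L (S L L)) (V L (S L L)))) (T (S (V (S L L) L) L) L))) (T (S (T (S (S L L) (S L L)) (V (S L L) L)) (U L (T (S L L) L))) (S (V L L) L)))))) (F 64 (V w6_14 w6_15)))))
noncomputable def w6_17 : Tr := (V (F 64 (T (S (V (U (T L L) (S L L)) (U (T L L) (S L L))) (V (U (T (S L L) (S L L)) (T L L)) (U (T (S L L) (S L L)) (T L (S L L))))) (S (V (U (T (S L L) (S L L)) (T L L)) (U (T (S L L) (S L L)) (T L (S L L)))) (V (U (T (S L L) (S L L)) (T (S L L) (S L L))) (U (T (S L L) (S L (S L L))) (T (S L L) (S L L))))))) (T (F 64 (S (U (T (V L (S L L)) (V L (U L L))) (V (S L L) (F 64 (T L L)))) (U (T (V (S L L) (U (S L L) L)) (V (S L L) (U (S L L) L))) (V (T L (S L L)) (F 64 (T L L)))))) (F 64 (S (T (U (V (S L L) (U L L)) (V L L)) (U (V (S L L) (U L (S L L)))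 (V (S L L) L))) (U (T (V (S L L) (U (S L L) L)) (V (S L (S L L)) (U (S L L) (S L L)))) (V (T (S L L) (S L L)) (F 64 (T (S L L) (S L L)))))))))
noncomputable def w6_18 : Tr := (V (T (S (V (U (T (S L L) (S L L)) (T (S L L) (S L L))) (U (T (S L L) (S L L)) (T (S L L) (S L L)))) (U (V (T (S L L) (U L (S L L))) (T (S L (S L L)) (S (S L L) (S L L)))) (V (T (S L L) (S L L)) (T (S L L) (S L L))))) (U (U (T (S (V L (S L L)) (V L (S L L))) (F 1 (V (S L L) (S L L)))) (T (S (V (S L L) (S L L)) (V (S L L) (S L L))) (F 1 (V (S (S L L) (S L L)) (S (S L L) (S L L)))))) (S (V (T (S L L) (F 1 (S L L))) (T (S L L) (F 1 (S L L)))) (F 64 (V (T (S L L) (F 32 (S L L))) (T (S L L) (F 32 (S L L)))))))) (T (S (V (U (T (S L L) (S L L)) (T (S L L) (S L L))) (U (T (S L L) (S L (S L L))) (F 64 (T (S L L) (S L L))))) (V (U (T (S L (S L L)) (S (S L L) (T L L))) (F 64 (T (S L L) (S L L)))) (U (T (S L (S L L)) (U (S L L) (S L L)))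 (F 64 (T (S L L) (V L L)))))) (U (V (S (T (S (S L L) (S L L)) (F 1 (V (S L L) L))) (T (U (S L L) (F 1 (S L L))) (F 1 (S L L)))) (S (T (S (T L L) (S L L)) (F 1 (S L L))) (F 1 (U (S L L) (F 1 (T L L)))))) (S (V (T (S L L) (F 65 (S L L))) (F 64 (T (S L L) (F 32 (S L L))))) (F 65 (V (T (S L L) (V L L)) (T (S L L) (S L L))))))))
noncomputable def w6_19 : Tr := (T (F 4 (S (V (U (T (S (S L (S L L)) (U (S L L) L)) (S (T (S L L) L) L)) (S (T (V L (S L L)) (V (S L L) (S L L))) (F 64 (T (V L (S L L)) (F 32 (V L (S L L))))))) (V (S (T (S (S L L) (V L L)) (U (S L L) (F 64 (S L L)))) (T (U (U L L) (F 64 (S L L))) (F 65 (S L L)))) (S (U (V (S L L) L) (F 64 (T (S L L) (S L L)))) (F 64 (T (S (T L L) L) L))))) (F 65 (U (V (T (S L L) L) (V (S L L) (S L L))) (V (U (T (S (S L L) (F 16 (S L L))) (T (S L L) L)) (T (V L (S (S L L) (F 16 (S L L)))) (S (V L (S L L)) (F 16 (T L L))))) (V (S (T (S L L) L) (T (V (S L L) L) L))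 (S (S L L) L))))))) (F 128 (S (F 16 (V (U (T (S L L) L) (F 1 (T (U (S (S L L) L) (S (V L L) (V L L))) (V (T L L) (S L L))))) (S (V (U L (F 1 (S L L))) (S L L)) (F 1 (V (S L L) L))))) (F 64 (V (U L (U L (T (F 2 (T (S (S L L) L) L)) (S L L)))) (F 2 (V (S L L) (S L L))))))))
noncomputable def w6_20 : Tr := (V (S (S (V (T (V (S L L) (S L L)) (S L L)) (T (S L L) (S L L))) (V (T (U (S L L) (S L L)) (F 32 (U (S L L) (S L L)))) (T (S (S L L) (S L L)) (F 32 (S (S L L) (S L L)))))) (F 32 (V (F 1 (S (T (U L L) (U (S L L) (S L L))) (T (U (S L L) (S L L)) (U (S L L) (S L L))))) (S (T (U (S L L) (S L L)) (U (T L L) (S L L))) (T (S (V L L) (F 1 (T L L))) (U (F 1 (S L L)) (S (S L L) L))))))) (S (S (V (T (S L (S L L)) (S (S L L) L)) (T (S L (S L L)) (S (S L L) L))) (V (T (S (S L L) (S L L)) (F 32 (S (S L L) (S L L)))) (T (S (S L L) (F 32 (S L L))) (F 32 (V (S L L) (S L L)))))) (F 32 (V (S (T (S (S L L) (T L L)) (U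 (S L L) (S L L))) (T (U (S L (S L L)) (S L L)) (U (S L (S L L)) (S L L)))) (S (T (S (S L L) (S L L)) (U L (S L L))) (T (U (S L L) (S L L)) (U L (S L L))))))))
noncomputable def w6_21 : Tr := (U w6_19 (F 1 (T (F 32 w6_20) (F 1 (V (S (F 2 (S (V (T (S L L) (S L (S L L))) (T (S L L) (V (S L L) (S L L)))) (V (T (V L (S L L)) (S (S L L) L)) (T (S (S L L) (S L L)) (U (S L L) (S L L)))))) (U (T (F 2 (V (F 1 (S (S L L) (S L L))) (S (S L L) (F 1 (S L L))))) (V (F 32 (S (F 8 (S L L)) (S L L))) (F 2 (S L L)))) (V (F 32 (S (F 8 (T (S L L) L)) (T (F 8 (S L L)) (S L L)))) (F 2 (S (T (S L L) (S L L)) (T (S L L) L)))))) (F 2 (S (V (S (T (S L (S L L)) (U (S L L) (S L L))) (T (U (S L L) (S L L)) (U L (S L L)))) (S (T (S L (S L L)) (U L (S L L))) (T (U L (S L L)) (S L L)))) (V (S (T (U L (S L L)) (S L L)) (U L (T (S L L) L))) (S (T (V L L) L) (S L L))))))))))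
noncomputable def w6_22 : Tr := (V (U (T (F 128 (V (S (T L L) (F 64 (T (S L L) (S L L)))) (F 128 (S (U (S L L) (S L L)) (U (T L L) (S (S L L) L)))))) (V (S (F 1 (T L (S L L))) (F 130 (T (F 64 (S L L)) (F 64 (S L L))))) (F 1 (S (U (T L (S L L)) (T L L)) (F 2 (U (T L L) (F 1 (T L L)))))))) (F 1 (T (F 2 (S (T (S L L) (S L (F 1 (S L L)))) (F 1 (V (V (T L (S L L)) (S L L)) (T L L))))) (S (T (F 2 (V (F 1 (S L L)) L)) (S (F 128 (S L L)) (F 130 (T L L)))) (F 130 (V (U (T L L) (T L L)) (T L L))))))) (F 1 (T (F 2 (S (V (U (T L L) (S L L)) (U (T L L) (S L L))) (V (U (T (S L L) (S L L)) (T L (S L L))) (U (T (S L L) (S L L)) (T L (S L L)))))) (S (V (T (F 2 (U L L)) (U (S L L) (S L L))) (T (F 2 (U L L)) (F 1 (U (S L L) L)))) (F 2 (V (T (U (S L L) (S L L)) (F 64 (U (S L L) L))) (T (U (S L L) (S L L)) (F 64 (U (S L L) (S L L))))))))))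
noncomputable def w6_23 : Tr := (V (F 64 (U (V (T (S (S (F 1 (T L L)) (F 1 (U (S L L) (T L L)))) (U (S (F 1 (S L L)) (F 1 (T L L))) (F 1 (T (S L L) (S L L))))) (S (F 1 (U (S L L) (T (S L L) (F 1 (S L L))))) (F 65 (U (S L L) (T L L))))) (F 1 (T (S (T (S L L) (S L L)) (T (S L L) (S L L))) (S (T (S L L) (F 1 (S L L))) (F 1 (T L L)))))) (F 1 (T (S (V (T (T L L) (T L L)) (U (T L L) (T L (S L L)))) (T (V (S L L) (U L (S L L))) (V (V L L) (V (S L L) L)))) (S (V (T (T L L) (F 1 (T L L))) (V (T L L) (F 1 (U (S L L) (S L L))))) (F 1 (T (V (S L L) (U L (S L L))) (V (V (S L L) L) (V (U L L) L))))))))) (F 128 (T (S (U (T (V (U (S L L) L) (S L L)) (V (U (S L L) L) (S L L))) (V (F 1 (T (S L L) (S L L))) (T (S L L) (F 1 (S L L))))) (U (V (F 1 (U (S L L) (S (T L L) (T L L)))) (T (S L L) (F 64 (S L L)))) (F 1 (V (T (T L L) (F 1 (T L L))) (T (S L L) (F 1 (S L L))))))) (F 64 (U (S (V (U (T (S L L) L) (F 32 (T L L))) (T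 (S L L) (S L L))) (V (F 32 (V L (U L (S L L)))) (T (S L L) L))) (F 32 (S (V (T (S L L) (S L L)) (T (S L L) (S L L))) (V (T (T L L) (T (T L L) (T L L))) (T (S L L) (S L (S L L)))))))))))
noncomputable def w6_24 : Tr := (S (T (S (F 64 (U (T (V (U L (S L L)) (U L (V (S L L) L))) (F 32 (V L (U L L)))) (V (T (S (S L L) (S L L)) (F 32 (V L L))) (T (U (S L L) (S L L)) (F 32 (U (S L L) L)))))) (F 64 (U (V (T (S L L) L) (F 32 (U L L))) (V (T (S (S L L) (F 32 (S L L))) (F 32 (U L (S L L)))) (F 32 (T (V (S L L) (T L L)) (V (S L L) (T L L)))))))) (F 65 (U (S (V (S L L) (U (K 0) (S L L))) (T (S L L) (K 0))) (V (S (T (U (S L L) (S L L)) (V L L)) (T (V L L) (S L L))) (S (T (U L (S L L)) (T (U L L) L)) (T (S L L) L)))))) (F 65 (T (U (V (S (S L L) L) (S L L)) (V (S (T (S (S L L) (S L L)) (V (S L L) L)) (T (U L (S L L)) (S L L))) (S (T (V (S L L) L) (S L L)) (V (S L L) L)))) (U (S (K 0) (K 0)) (V (S (T L L) L) (S (S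 L L) L))))))
noncomputable def w6_25 : Tr := (T (F 528 (S (F 128 (V (F 2 (S w6_6 (F 1 w6_7))) (S w6_8 (F 256 w6_9)))) (F 257 w6_16))) (F 2052 (V (S (F 320 (S w6_17 (F 64 w6_18))) (F 258 w6_21)) (F 64 (S (S w6_22 (F 128 w6_23)) (F 130 (V w6_24 (F 64 (U (S (V (T (S (T (S L L) L) (F 32 (S L L))) (F 32 (S (S L L) (K 4)))) (F 32 (T (U (S (S L L) (K 4)) (T (S L L) (S L L))) (U (K 4) (S L (K 4)))))) (F 32 (T (U (K 4) (V L L)) (K 4)))) (T (S (S (V (U (T (S L L) (F 32 (S L L))) (T (S L L) (F 32 (S L L)))) (F 32 (T (S L L) (S L L)))) (F 32 (V (U (T L L) (T (S L L) (S L L))) (T (U L (S L L)) (U L (S L L)))))) (F 32 (S (V (T (U L (S L L)) L) (U L (V L (S L L)))) (V (S L L) (U L (S L L)))))) (F 32 (S (S (V (U (T L L) (T (S L L) (S L L))) (T (V L L) (V L L))) (V (U L (V (S L L) L)) (T (T L L) L))) (S (V (T L L) (V L (S L L))) (T L (K 4)))))))))))))))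
noncomputable def w6_26 : Tr := (V (F 128 (U (V (T (S (U (V (T L L) (F 1 (S L L))) (F 129 (V L L))) (F 129 (V (T (F 16 (S L L)) (S L L)) (U (S L L) (S L L))))) (F 128 (S (V (T (S L L) L) (F 64 (T L L))) (F 64 (V (U (S L L) L) (U (S L L) L)))))) (F 1 (U (T (S (V (S L L) (F 1 (U L (S L L)))) (F 1 (V (S L L) (S L L)))) (F 1 (S (V (S L L) (T L L)) (V (S L L) (S L L))))) (F 1 (T (V (S L (S L L)) (S (T L L) (U (S L L) L))) (V (S L L) (S L (T L L)))))))) (F 129 (T (V (S (V (S L L) (U L L)) (V (S L L) (S L L))) (S (U (T L L) (S L L)) (U (T (S L L) L) (S L L)))) (V (S (U (S L L) (S L L)) (V (S L L) (S L L))) (S (U (S L L) L) (U (T L L) (S L L)))))))) (F 256 (T (F 129 (U (V (U (S (V (U (S L L) L) (S L L)) (T (S (S L L) (T L L)) (S (S L L) (S L L)))) (S (V L (T L L)) (V (S L L) (T L L)))) (S (V (T (S L L) L) (T L L)) (V (U (S L L) (S L L)) (U (S L L) L)))) (V (S (V (S L L) (S L L)) (V (S L L) (S L L))) (U (V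 (S L (S L L)) (S L L)) (S L (S L L)))))) (F 128 (U (V (F 64 (U (S (V (T L L) (S L L)) (T (S L (S L L)) (S L (S L L)))) (S (T (S L L) L) (V (S L L) (S L L))))) (S (V (F 64 (T L L)) (T L L)) (F 64 (V (U (S L L) (S L L)) (U (S L L) L))))) (F 64 (V (S (V L L) (V (S L L) (S L L))) (U (V (S L (S L L)) (S L L)) (S L L)))))))))
noncomputable def w6_27 : Tr := (U (V (T (S (V (U (T L L) (S L L)) (U (T L L) (S L L))) (V (T (F 2 (U L L)) (S L L)) (U (T L (S L L)) (T L L)))) (S (V (U (S L L) (S L L)) (U (S L L) (S L L))) (U (V (T L L) (T L L)) (V (S L L) (S L L))))) (T (S (V (U (T (S L L) L) (S L L)) (U (T (S L L) L) (S L L))) (V (U (T (S L L) (S L L)) (T L L)) (U (T (S L L) (S L L)) (T L L)))) (S (V (U (T L L) (S L L)) (U (T L L) (S L L))) (V (U (T L L) (S L L)) (U (T (S L L) (S L L)) (S L L)))))) (V (T (S (U (T L L) (S L L)) (V (F 2 (S L L)) (T L L))) (S (U (T L L) (S L L)) (U (V L L) (S L L)))) (U (T (V (S L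 (S L L)) (S (T L L) (U L L))) (V (S L (S L L)) (S (S L L) (T L L)))) (T (S (S L L) (T L L)) (S (S L L) (T L L))))))
noncomputable def w6_28 : Tr := (T (V (U (S (T (S (T (S L L) L) (V L (T L L))) (S (V L L) (V L (S L L)))) (V (T (S L L) (S L L)) (U (T (S L L) (S L L)) (S L L)))) (S (V (T L L) (S L L)) (T (V (S L L) L) (V (S L L) L)))) (U (S (V (T L L) (T L L)) (V (S (T L L) (V (T L L) L)) (T (S L L) (S L L)))) (V (S (U (S L L) L) (T L L)) (S (S L L) (T L L))))) (V (U (S (T (S (T L L) (V L (S L L))) (S (T L L) (V L (S L L)))) (V (T (S L L) (S L L)) (U (T (S L L) (S L L)) (S L L)))) (S (V (T L L) (S L L)) (T (V (S L L) L) (V (S L L) L)))) (U (S (V (T L L) (S L L)) (V (V (U (S L L) (S L L)) (S L L)) (T L L))) (V (S (U (S L L) L) (T L L)) (S (S L L) (T L L))))))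
noncomputable def w6_29 : Tr := (S (V (T (S (V (T L (S L L)) (F 1 (T L L))) (F 1 (V (U (S L L) L) (U (S L L) L)))) (S (V (U (S L L) L) (F 1 (U (S L L) L))) (F 1 (V (U (T L L) (S L L)) (U (T L L) (S L L)))))) (F 1 (U (T (S (V (S L L) (T L L)) (V (S L L) (S L L))) (S (V (S L L) (U L (S L L))) (V (T L (S L L)) (T L (S L L))))) (T (V (S L (S L L)) (S L (T L (S L L)))) (V (S (S L L) (S L L)) (S (T L L) (U (S L L) L))))))) (F 1 (V (T (S (V (U (S L L) (S L L)) (U (T L L) (S L L))) (V (U (T L (S L L)) (S L L)) (U (T L (S L L)) (S L L)))) (S (V (U (T L L) (S L L)) (U (T L L) (T L L))) (F 1 (V (U (T L (S L L)) (S L L)) (U (T L (S L L)) (T L L)))))) (T (S (V (U (T L L) (S L L)) (U (T L (S L L)) (S L L))) (V (U (T (S L L) (S L L)) (T L L)) (U (T (S L L) (S L L)) (T L L)))) (S (V (U (T (S L L) (F 1 (S L L))) (T L L)) (T (U (S L L) L) (F 1 (U (S L L) L)))) (F 1 (V (U (T (S L L) (S L L)) (T L L)) (U (T (S L L) (S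 L L)) (T L (S L L))))))))))
noncomputable def w6_30 : Tr := (U (V (F 1 (T (F 2 (T (U (S (V L L) (S L (S L L))) (S L (S L L))) (U (S (V L L) (S (S L L) (S L L))) (S L (S L L))))) (T (F 2 (U (S (V (S L L) L) (S (S L L) (V L L))) (S (S L L) (V L L)))) (F 2 (U (S (V (S L L) L) (F 32 (S (S L L) (T L L)))) (S (S L L) (F 32 (V L L)))))))) (T (F 64 (S (V (F 64 (T L L)) (T L (S L L))) (F 64 (V (U (S L L) (S L L)) (U (S L L) L))))) (S (F 1 (U (V (S L L) (S L L)) (F 2 (T L L)))) (F 65 (V (T (S L L) (F 1 (S L L))) (F 1 (U (T L L) (S L L)))))))) (F 65 (T (V (S (V L L) (V (S L L) (S L L))) (U (V (S L (S L L)) (S L L)) (S L (S L L)))) (V (S (V (S L L) (S L L)) (V (T L L) (T L L))) (U (V (S (S L L) (S L L)) (S L L)) (S L (F 1 (S L L))))))))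
noncomputable def w6_31 : Tr := (T (V (U (S (T (S (T L L) (V L (S L L))) (S (V (S L L) (S L L)) (V L (T L L)))) (V (T (S L L) (S L L)) (U (T (S L L) (S L L)) (T L L)))) (S (V (T L L) (S L L)) (V (U (S (S L L) L) (T L L)) (T L (S L L))))) (U (S (V (T L L) (T L L)) (V (S (T L L) (V (T L L) (S L L))) (T (S L L) (F 1 (S L L))))) (V (S (U (S L L) L) (T L L)) (S (S L L) (T L L))))) (V (T (U (S (S (T (S L L) L) (F 1 (V L (T L L)))) (F 1 (V (S L L) (U (S L L) L)))) (S (V L L) (F 1 (V (U L L) L)))) (F 1 (U (S (S (U (S L L) (S L L)) (V L (T L L))) (V (S L L) (U (S L L) L))) (S (V L L) (V (U L L) (S L L)))))) (F 1 (U (S (V (T L (S L L)) (T L (S L L))) (V (S (T L L) (V (T L L) (S L L))) (T (S L L) (S L L)))) (V (T (S (S L L) L) (S (S L L) L)) (S (T L L) (T L (S L L))))))))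
noncomputable def w6_32 : Tr := (V (F 130 (U w6_29 (F 1 (S (T (V (S (U (S L L) (S L L)) (U (S L L) L)) (S (U (S L L) L) (U (T L L) (S L L)))) (V (U (S (S L L) (V L L)) (S (S L L) (S L L))) (S (U (T L L) (S L L)) (T (U (S L L) L) (F 1 (U (S L L) L)))))) (V (T (S (U (T L L) (S L L)) (U (V L (S L L)) (S L L))) (S (U (V L (S L L)) (S L L)) (F 1 (U (V L (S L L)) (S L L))))) (U (T (V (S L (S L L)) (S (T L L) (U (S L L) (S L L)))) (S (V (S L L) (T (S L L) (F 1 (S L L)))) (F 1 (V (S L L) (S (T L L) L))))) (T (S (S L L) (T L L)) (S (T L L) (F 1 (V L L)))))))))) (F 256 (S w6_30 (F 65 (U w6_31 (V (T (S (V (T L L) (T L L)) (V (U (S L L) L) (T (S L L) L))) (F 1 (S (V (T L L) (T L L)) (V (U (S L L) L) (U (S L L) L))))) (T (S (U (T (S L L) (S L L)) (T L L)) (U (T (S L (S L L)) (F 1 (S L L))) (V L L))) (F 1 (S (U (T (S L L) (S L L)) (T L L)) (U (T (S L (S L L)) (S L (S L L))) (V L L)))))))))))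
noncomputable def w6_33 : Tr := (V (T (S (V (F 2 (U (T (S L L) L) (S L L))) (T (F 2 (U (S L L) L)) (U (S L L) L))) (F 2 (U (V (T (S L L) (S L L)) (T (S L L) (S L L))) (V (T L L) (T L L))))) (S (U (V (T (S L L) (S L L)) (T (S L L) (S L L))) (V (T L L) (T L L))) (U (V (T (F 2 (S L L)) (S L (S L L))) (T (S L L) (S L L))) (V (T L (S L L)) (T (S L L) L))))) (T (S (V (T (F 2 (U (S L L) L)) (U (S L L) L)) (U (T (S L L) (S L L)) (T (S L L) L))) (U (V (T (F 2 (S L L)) (S L L)) (T (S L L) (S L L))) (V (T L (S L L)) (T (S L L) (S L L))))) (S (V (U (T (S L L) (S L L)) (T L L)) (U (T (S L L) (S L L)) (T L (S L L)))) (V (U (T (S L L) (V L L)) (T (S L L) (S L L))) (U (T (S L L) (S L L)) (T (S L L) (S L L)))))))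
noncomputable def w6_34 : Tr := (V (T (U (S (F 64 (V (F 2 (T (S L L) (S L L))) (T (F 2 (S L L)) (U L L)))) (F 16 (V (F 16 (T (F 16 (S L L)) (F 16 (S L L)))) (F 1 (T (V L (S L L)) (V L (S L L))))))) (F 16 (S (F 1 (V (T L L) (T L (S L L)))) (V (F 16 (T L L)) (F 1 (T (S L L) (S L L))))))) (F 64 (U (S (V (T (U (F 2 (S L L)) L) (U (F 16 (S L L)) (S L L))) (T (S L (T L L)) (U (S L L) (S L L)))) (V (F 18 (T (S L L) (F 1 (S L L)))) (T (U (F 2 (S L L)) (F 2 (S L L))) (F 32 (V L (S L L)))))) (S (V (T L (S L L)) (T (S L L) (S L L))) (T (F 2 (V L (S L L))) (F 32 (V L (S L L)))))))) (F 64 (T (S (V (F 2 (U (T (S L L) (S L L)) (T (S L L) L))) (U (T (F 2 (S L L)) (S (S L L) (S L L))) (T (F 2 (S L L)) (S L L)))) (U (V (T (F 2 (S L (S L L))) (U (F 2 (S L L)) L)) (T (F 2 (S L L)) (S L (F 2 (S L L))))) (F 2 (V (T (S L L) (S L L)) (T (S L L) (S L L)))))) (S (U (V (T (S (S L L) (S L L)) (S (S L L) (S L L))) (T (S L (S L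 L)) (S (S L L) L))) (V (T (S L L) (S L L)) (T (S L L) (S L L)))) (U (V (T (T (F 2 (S L L)) (S L L)) (F 32 (U (S L L) L))) (T (S (S L L) (V L L)) (F 32 (V (S L L) (S L L))))) (V (T (S L L) (F 32 (S L L))) (T (S L L) (F 32 (S L L)))))))))
noncomputable def w6_35 : Tr := (S (F 64 (V (T (S (V (F 2 (T L L)) (T L (S L L))) (F 2 (U (V (S L L) (S L L)) (S L L)))) (S (U (V (S L L) (S L L)) (S L L)) (U (V (S L L) (S L L)) (T L L)))) (U (T (S (V (S L L) (S L L)) (V (S L L) (S L L))) (S (V (S L L) (S L L)) (V (S L L) (S L L)))) (T (S (V L (S L L)) (V L L)) (S (V L (S L L)) (V L L)))))) (V (T (F 16 (S (F 1 (U (V (S L L) (S L L)) (S L L))) (U (V (F 16 (S L L)) (F 1 (S L L))) (V (S L L) L)))) (S (F 64 (U (T (F 2 (S L L)) (V L L)) (V L (S L L)))) (T (F 80 (U (V L L) L)) (F 65 (U (S L L) L))))) (F 64 (T (S (V (F 2 (U (S L L) L)) (U (T L L) L)) (F 2 (U (V (S L L) (S L L)) (T L L)))) (S (U (V (T L L) (T L L)) (V L (S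 L L))) (U (T (V (S L L) (S L L)) (F 32 (V L L))) (T (S L L) (F 32 (S L L)))))))))
noncomputable def w6_36 : Tr := (T (V (U (S (V (T (S L L) (S L L)) (S (V L (T L L)) (T L L))) (V (T (S L L) (S L L)) (T (S L L) (S L L)))) (V (S (T (S L L) (S L L)) (T (S L L) (S L L))) (S (T (T L L) (T L L)) (U (S (T L L) (S L L)) (T L L))))) (U (S (V (U (T (S L L) (S L L)) (T L L)) (T (S L L) (S L L))) (T (S (V (U L L) L) (V (U L L) (U L L))) (S (V (U L L) L) (V (U L L) (V L L))))) (S (V (T (S L L) (S L L)) (U (T L L) (S L L))) (V (T (S L L) (S L L)) (T (T L L) (T L L)))))) (V (U (S (V (T (S L L) (S L L)) (S (V L (T L L)) (T L L))) (V (T (V L L) (S L (S L L))) (T (V (S L L) L) (S L (S L L))))) (V (S (T (S L L) (S L L)) (T (S L L) (S L L))) (S (T (T L L) (T L L)) (U (T (S L L) (S L L)) (T L L))))) (U (S (V (U (T (S L L) (S L L)) (T L L)) (T (S L L) (S L L))) (T (S (V (U L L) L) (V (U L L) (U L L))) (S (V (U L L) L) (F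 1 (V (U L L) (V L L)))))) (S (T (V (S L L) (U L L)) (V (S L L) (U (S L L) L))) (V (T (S L L) (S L L)) (T (T L L) L))))))
noncomputable def w6_37 : Tr := (V (T (S (V (U (T (S (S L L) L) (S L (S L L))) (T (S L L) (S L L))) (U (T (S (S L L) (S L L)) (S (S L L) (S L L))) (T (S L L) (S L L)))) (V (U (T (F 16 (S L L)) (V (S L L) (S L L))) (T (F 16 (S L L)) (S L L))) (U (T (S (S L L) (S L L)) (S (S L L) (T L L))) (T (S L L) (S L L))))) (S (V (U (T (S (S L L) (S L L)) (S (S L L) L)) (T (S L L) (S L L))) (T (U (S (S L L) (S L L)) (S L L)) (F 1 (U (S L L) (S L L))))) (V (U (T (S (T L L) L) (F 1 (U (S L L) L))) (T (S L L) (F 1 (S L L)))) (U (T (V (S L L) L) (F 1 (V (S L L) L))) (F 1 (T (S L L) (S L L))))))) (T (U (S (T (S (V (U L L) (U L L)) (V (S L L) (U (T L L) L))) (S (V (U L L) (U L L)) (V (S L L) (U (T L L) L)))) (V (T (V (S L L) (S L L)) (V (S L L) (S L L))) (U (T (S (T L L) L) (S (T L L) L)) (T (T L L)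 (S L L))))) (S (V (T (T L L) (T L L)) (T (S L L) (S L L))) (V (U (T (S L L) (S L L)) (V (S L L) (S L L))) (T (S L L) (S L L))))) (T (U (S (S (V (U L L) (U L L)) (V (S L L) (F 1 (U L L)))) (F 1 (V (S L L) (U (S L L) L)))) (S (V (T L L) (S L L)) (F 1 (V (U L (S L L)) (S L L))))) (F 1 (U (V (S (S (V L L) L) (S L L)) (U (S (S L L) (S L L)) (S L L))) (V (S (T L L) (U L (S L L))) (S (S L L) (S L L))))))))
noncomputable def w6_38 : Tr := (S (U w6_36 (V (T (S (U (V (U (S L L) L) (S L L)) (V L L)) (U (V (S (T L L) L) (S L L)) (V L (S L L)))) (S (U (V (U (S L L) L) (S L L)) (V L L)) (U (V (S (T L L) L) (T L L)) (V (T L L) (S L L))))) (T (S (V (U (S L L) L) (U (S L L) L)) (V (U (T L L) (S L L)) (U (S L L) (S L L)))) (S (V (U (S L L) L) (U (S L L) L)) (V (U (T L L) (S L L)) (U (T L L) (S L L))))))) (U w6_37 (T (V (U (V (S (T L L) (T L (S L L))) (S (U (T L L) (S L L)) (U (S L L) (S L L)))) (S (V (T L L) (S L L))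 (V (S L L) (T L L)))) (S (V (U (T L L) (S L L)) (U (T L L) (S L L))) (V (U (T (S L L) (S L L)) (S L L)) (U (T (S L L) (S L L)) (S L L))))) (V (U (V (S (T L L) (T (S L L) L)) (S (T (U L L) (F 1 (S L L))) (F 1 (V (S L L) (T L L))))) (S (T (S L L) (F 1 (S L L))) (F 1 (V (S L L) (T L L))))) (S (V (U (T (S L L) L) (S L L)) (F 1 (U (S L L) L))) (F 1 (V (U (T L L) (S L L)) (U (T L L) (S L L)))))))))
noncomputable def w6_39 : Tr := (V (T (S (U (V (T (S L L) (S L L)) (T (S L L) (S L L))) (V (T L L) (T L (S L L)))) (U (V (T (S L (S L L)) (F 32 (S L L))) (T (S L L) (F 32 (S L L)))) (T (V (S L L) (S L L)) (F 32 (V L L))))) (F 32 (S (U (V (T (S L L) (S L L)) (T (S L L) (S L L))) (V (T L L) (T L (S L L)))) (U (V (T (S L L) (S L L)) (T (S L L) (S L L))) (V (T L (S L L)) (T (S L L) (S L L))))))) (T (S (V (U (T (S L L) (S L L)) (T L L)) (T (U (S L L) (S L L)) (F 32 (U (S L L) L)))) (V (U (T (S L L) (F 32 (S L L)))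 (T (S L L) (F 32 (S L L)))) (U (T (S L L) (F 32 (S L L))) (T (S L L) (F 32 (S L L)))))) (F 32 (S (V (U (T (S L L) (S L L)) (T (S L L) (S L L))) (U (T (S L L) (S L L)) (T (S L L) (S L L)))) (V (U (T (V L L) (S L (S L L))) (T (S L L) (S L L))) (U (T (S L L) (S L L)) (T (S L L) (S L L))))))))
noncomputable def w6_40 : Tr := (V (T (F 2 (U (S (V (T (U L L) (S L L)) (T (V L (S L L)) (S L (S L L)))) (V (F 1 (T (S L L) (S L (S L L)))) (T (U (S L L) (S L L)) (S (S L L) (F 1 (S L L)))))) (S (V (T (S L L) (S L L)) (T (S L L) (S L L))) (V (F 1 (T (S L L) L)) (T (S L L) (S L L)))))) (S (F 2 (U (V (F 1 (T (S L L) (S L L))) (T (S L (S L L)) (S L L))) (V (T (S L L) (S L L)) (T (S L L) (S L L))))) (U (T (F 2 (V (F 1 (U L L)) (S (S L L) L))) (V (F 32 (U (S L L) L)) (F 2 (S L L)))) (V (F 32 (T L (S L L))) (F 2 (T (S L L) (S L L))))))) (F 2 (T (S (U (V (T (S L L) (S L (S L L))) (T (S L L) (V L (S L L)))) (V (T (S L L)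 (S L L)) (T (S L L) (S L L)))) (U (V (T (U (S L L) (S L L)) (U (S L L) L)) (T (S (S L L) (S L L)) (S (S L L) (S L L)))) (V (T (S L L) (S L L)) (T (S L L) (S L L))))) (U (S (V (T (V (S L L) (S L L)) (S L (S L L))) (T (S (S L L) L) (S L L))) (V (T (U (S L L) L) (S L L)) (T (V (S L L) L) (S L L)))) (S (V (T (S L L) (S L L)) (T (S L L) (S L L))) (V (T (S L L) (S L L)) (T (S L L) L)))))))
noncomputable def w6_41 : Tr := (S (F 32 (V (T (S (U (T (S L L) (F 32 (S L L))) (S L L)) (U (T (S L L) (F 32 (S L L))) (F 32 (S L L)))) (F 32 (S (U (V (S L L) (S L L)) (S L L)) (U (V (S L L) (S L L)) (T L L))))) (U (T (S (V (S L L) (T L L)) (V (S L L) (F 32 (S L L)))) (F 32 (S (V (S L L) (S L L)) (V (S L L) (S L L))))) (T (S (V L (S L L)) (F 32 (V L L))) (F 32 (S (V L (S L L)) (V L L))))))) (F 1 (V (T (U (F 2 (S (V (S L L) (S L L)) (V (F 1 (S L L)) (T L L)))) (S (F 2 (S L L)) (T L (S L L)))) (U (S (F 2 (V (S L L) (S L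 L))) (V (F 32 (T L L)) (F 2 (S L L)))) (S (V (S L L) L) (T L L)))) (F 2 (T (S (U (V (S L L) (S L L)) (V L L)) (U (V (T L L) (T L L)) (V L L))) (S (U (V (S L L) (S L L)) (V L L)) (U (V (S L L) (S L L)) (V L L))))))))
noncomputable def w6_42 : Tr := (T (V (U (S (V (T (S L L) (F 32 (S L L))) (S (V (S L L) (T L L)) (T L L))) (F 32 (V (T (S L L) (S L L)) (T (S L L) (S L L))))) (V (S (T (S L L) (F 32 (S L L))) (F 32 (T (S L L) (S L L)))) (S (T (T L L) (F 32 (T L L))) (F 32 (U (T (S L L) (S L L)) (T L L)))))) (T (U (S (V (U (S L L) (S L L)) (F 32 (S L L))) (F 32 (S (V (U L L) L) (V (U L L) (V L L))))) (S (V (S L L) (F 32 (U L L))) (F 32 (V (S L L) (T L L))))) (F 32 (U (V (S (U (S L L) L) (U (S L L) L)) (S (S L L) (U (S L L) (S L L)))) (S (V (S L L) (U L L)) (V (S L L) (T L L))))))) (F 32 (V (U (S (V (T (S L L) (S L L)) (U (T (S L L) (S L L)) (T (S L L) (S L L)))) (V (T (S L L) (S L L)) (T (S L L) (S L L))))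 (V (S (T (S L L) (S L L)) (T (S L L) (S L L))) (S (T (T L L) (T L L)) (U (T L L) (T L L))))) (U (T (V (S (U (S L L) L) (U (S L L) L)) (S (S L L) (U (S L L) (S L L)))) (S (V (U (S L L) L) (S L L)) (S (V (U L L) L) (V (U L L) (V L L))))) (S (V (T (S L L) (S L L)) (U (T (S L L) (S L L)) (T L L))) (V (T (S L L) (S L L)) (T (T L L) (T L L))))))))
noncomputable def w6_43 : Tr := (V (T (S (V (U (T (S L L) (S L L)) (T (S L L) (S L L))) (U (T (S L L) (V (S L L) L)) (T (S L L) (S L L)))) (V (U (T (V (S L L) (S L L)) (S (S L L) (S L L))) (T (S L L) (S L L))) (U (T (S L L) (S L L)) (T (S L L) (S L L))))) (U (V (S (T (S L (S L L)) (S L L)) (T (S L L) (S L L))) (S (T (S L L) (S L L)) (T (S L L) L))) (S (V (T (S L L) (S L L)) (T (S L L) (S L L))) (V (T (S L L) L) (T (S L L) L))))) (T (U (V (S (U (T (S L L) (S L L)) (T (S L L) (S L L))) (T (S L L) (S L L))) (T (U (S (S L L) (S L L)) (S L L)) (U (S (S L L) L) (S L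 L)))) (V (S (T (T L L) (T L L)) (U (T L L) (T L L))) (S (T (S L L) (S L L)) (T (S L L) (S L L))))) (U (V (S (U (T L L) (T (S L L) (S L L))) (V L L)) (T (U (T (S L L) L) (S L L)) (U L (S L L)))) (S (V (T (T L L) L) (T (S L L) L)) (V (U (S L L) (T L L)) (T L L))))))
noncomputable def w6_44 : Tr := (S (U w6_42 (V (T (S (U (T (V (S L L) L) (F 32 (V (S L L) L))) (V (S L L) (S L L))) (F 32 (U (V (S (T L L) L) (T L L)) (V L L)))) (F 32 (S (U (V (U (S L L) L) (S L L)) (V L L)) (U (T (V (S L L) L) (V (S L L) L)) (V (S L L) (S L L)))))) (F 32 (T (S (V (U (S L L) L) (U (S L L) L)) (V (U (S L L) L) (U (S L L) L))) (S (V (U (S L L) (S L L)) (U (T L L) L)) (V (U (T L L) L) (U (T L L) L))))))) (F 32 (U w6_43 (T (V (U (V (S (T L L) (T L L)) (S (U (T L L) (S L L)) (S (T L L) (S L L)))) (S (V (S L L) (S L L)) (V (S L L) (T L L)))) (S (V (U (T L L) (S L L)) (U (T L L) L)) (V (U (T L L) (S L L)) (U (S L L) L)))) (V (U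 (V (S (S L L) (S L L)) (S (U (S L L) L) (U (S L L) (S L L)))) (S (V (T L L) L) (V L L))) (S (V (U (T L L) (S L L)) (U (S L L) L)) (V (U (S L L) L) (T (S L L) L))))))))
noncomputable def treeW6 : Tr := (F 0xfffffffffffffffffffffffffffffffee7ffdee6773bfeefff (U (F 24 (U w6_5 (F 4096 w6_25))) (F 25 (S (F 640 (T (F 128 (S w6_26 (F 385 (V w6_27 (U w6_28 (V (T (S (V (T L L) (T L L)) (V (U (S L L) L) (U (S L L) L))) (S (V (T L L) (T L L)) (V (T (S L L) (S L L)) (U (S L L) L)))) (T (S (U (V (S L L) (S L L)) (S L L)) (U (V (S L L) (T (S L L) L)) (T L L))) (S (U (T (S L L) (S L L)) (S L L)) (U (T (S L L) (S L L)) (T L L)))))))))) (F 512 w6_32))) (F 3077 (T (V (U (F 4 (S (F 64 w6_33) w6_34)) (F 4 w6_35)) (F 5 w6_38)) (F 1 (V (U (S (F 32 w6_39) (F 1 w6_40)) w6_41) (F 32 w6_44)))))))))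

theorem pW6 : chkW par treeW6 192 64 448 64 128 128 349525 524288 Lc = true := by decide +kernel


end Pool.Agent.Lib.H56.Gen.D3
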