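import Pool.Agent.Lib.H56.Gen.D3.Par
import Pool.Agent.Lib.H56.Gen.D3.Cos

/-!
# Certificate tree W, part 2
-/

set_option maxRecDepth 100000

namespace Pool.Agent.Lib.H56.Gen.D3

open Tr

noncomputable def w7_0 : Tr := (V (T (S (F 1 (U (F 1 (V (T (S (V L L) (V L L)) (S (V L L) (V L L))) (T (S (T L (S L L)) (V L L)) (S (U (S L L) L) (V L L))))) (F 1 (V (T (S L L) (S L L)) (T (S L L) (S L L)))))) (F 64 (U (V (F 32 (T (S (V L L) (V L L)) (S (V L L) (V L L)))) (T (F 32 (S (V L L) (V L L))) (S (F 32 (V L L)) (V L L)))) (F 32 (V (T (S L L) (S L L)) (T (S L L) (S L L))))))) (F 64 (S (U (V (T (F 32 (S (V L L) (V L L))) (S (S L L) (S L L))) (T (F 32 (S (S L L) (S L L))) (S (S L L) L))) (V (T (F 32 (S L L)) L) (T (F 32 (S L L)) L))) (U (V (T (S (T L L) (V L L)) (S (S L L) L)) (T (S (V L L) (S L L)) (S L L))) (V (T (S L L) L) (T (S L L) L)))))) (T (U (S (F 1 (V (U (F 1 (T (S L (S L L)) (S L (S L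 L)))) (F 1 (T (S L L) (S L L)))) (T (U (S L L) L) (F 1 (S L L))))) (V (F 64 (T (F 32 (U (S (T L L) (S L L)) (S L L))) (U (S (F 32 (S L L)) (S L L)) (S L L)))) (T (F 1 (U (F 1 (S L L)) L)) (F 64 (S L (S L L)))))) (S (F 1 (V (F 1 (T L L)) (T (S L L) L))) (F 64 (T (F 32 (V (S L L) (S L L))) (V L (S L L)))))) (U (S (V (F 64 (U (T (F 32 (S L L)) (S L L)) (T L L))) (T (F 1 (S L L)) (F 64 (S L L)))) (F 64 (T (V (U (V L (S L L)) (S L L)) (U (S L L) L)) (V (T (T L L) L) (S L L))))) (F 64 (S (T (F 32 (S L L)) (S L L)) (V (S L L) (S L L)))))))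
noncomputable def w7_1 : Tr := (V (S (U (V (T (F 32 (S (V L L) (V L L))) (S (V L (S L L)) (V L L))) (T (S (F 32 (V L L)) (V L (S L L))) (S (V (S L L) L) (V L L)))) (V (T (F 32 (S L L)) (S L L)) (T (F 32 (S L L)) (S L L)))) (U (V (T (U (S (S L L) (T L L)) (S L L)) (S (V L L) (T (S L L) L))) (T (V (U (S L L) L) (U (S L L) L)) (S (V (S L L) L) (V (S L L) (S L L))))) (V (T (S L L) (S L L)) (T (S L L) (S L L))))) (S (U (T (V (S (F 32 (U (S L L) L)) (V (S L L) L)) (U (S L (T L L)) (S L L))) (V (S (T (S L L) L) (V L L)) (U (S L (S L L)) L))) (V (T (S L L) (S L L)) (T (S L L) L))) (U (V (T (V (U (S L L) L) (S L (S L L))) (S (V L L) (V L L))) (T (U (S (V L L) L) (S L L)) (U (S (S L L) (S L L)) (S L L)))) (V (T (S L L) (S L L)) (T (S L L) L)))))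
noncomputable def w7_2 : Tr := (U (F 264 (S (F 320 w7_0) (F 320 (T (F 64 w7_1) (F 64 (V (S (U (V (T (S (S L L) (S L L)) (S L L)) (T (S (S L L) (T L L)) (S L (S L L)))) (V (T (S L L) L) (T (S L L) L))) (U (V (T (S (S L L) (S L L)) (S L (S L L))) (T (S (T L L) (V L L)) (S (S L L) (S L L)))) (V (T (S L L) L) (T (S L L) L)))) (S (U (T (V (S (S L L) (S L L)) (U (S L L) L)) (V (S L L) (U (S L L) L))) (V (S L L) (S L L))) (U (V (T (S (S L L) (T L L)) (S L (S L L))) (T (U (T L L) L) (T (T L L) L))) (V (T (S L L) L) (T L L)))))))))) (F 13 (S (V (F 5 (T (F 1 (U (S (V L L) (V L L)) (S L L))) (U (S (V L L) (V L L)) (S L L)))) (T (F 128 (U (F 16 (S (F 1 (S L L)) (F 1 (S L L)))) (F 80 (S L L)))) (F 1 (U (F 32 (S (S L L) (S L L))) (F 32 (S L L)))))) (F 1 (T (V (F 32 (U (S (V (S L L) (S L L)) (V L (S L L))) (S L L))) (U (F 32 (S (T L L) (V (S L L) L))) (F 32 (S L L)))) (F 32 (V (U (S (S L L) (V L L))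 (S L L)) (U (S (S L L) (T L L)) (S L L)))))))))
noncomputable def w7_3 : Tr := (S (F 1 (T (V (S (U (V (T (F 2 (S L L)) (S L L)) (T (F 2 (S L L)) L)) (T (F 2 (S L L)) (S L L))) (U (T (F 34 (V (S L L) (S L L))) (V (S L L) L)) (T (F 34 (S L L)) (S L L)))) (U (S (V (T (F 34 (S L L)) (S L L)) (S L L)) (T (F 34 (V L (S L L))) (V L L))) (S (T L L) (T L L)))) (V (S (U (T (S L L) (S L L)) (S L L)) (U (T (V L L) (S L L)) (S L L))) (U (S (V (T L L) L) (T (T L L) (T L L))) (S (S L L) (S L L)))))) (F 1 (T (V (S (U (T (F 32 (V (S L L) (S L L))) (V (S L L) (S L L))) (F 32 (V (S L L) (S L L)))) (F 32 (U (V (T (S L L) (S L L)) (T (S L L) (S L L))) (V (S L L) (S L L))))) (S (U (T (F 32 (V (S L L) (U L L))) (S (F 32 (S L L)) (F 32 (T L L)))) (F 32 (V (S L L) L))) (F 32 (U (V (T (S L L) (S L L)) (T (T L L) (S L L))) (V (S L L) (S L L)))))) (V (S (U (V (T L (S L L)) (T L (S L L))) (V (S L L) (S L L))) (F 128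 (U (T (F 2 (V (S L L) (S L L))) (V (S L L) (S L L))) (V (S L L) (S L L))))) (S (U (T (V L (S L L)) (V L (S L L))) (T L L)) (F 128 (U (V (T (F 2 (S L L)) (S L L)) (T L (T L L))) (V (S L L) (S L L)))))))))
noncomputable def w7_4 : Tr := (V (S (U (F 1 (V (T (U (T (V (S L L) L) (S L L)) (S L L)) (U (S (S L L) (F 1 (T L L))) (S L L))) (T (S (U (V L L) (S L L)) (F 1 (V L (S L L)))) (S (V (S L L) (S L L)) (F 1 (V L L)))))) (F 1 (V (T (S L L) (S L L)) (T (S L L) (S L L))))) (F 64 (U (T (F 32 (V (U (S (T L L) (S L L)) (S L L)) (S (V (S L L) (S L L)) (U (S L L) L)))) (F 32 (V (U (S (T L L) (S L L)) (S L L)) (S (V L (S L L)) (U (S L L) L))))) (F 32 (V (T (S L L) (S L L)) (T (S L L) (S L L))))))) (F 1 (S (V (U (T (S (V (S L L) L) (F 1 (V (S L L) L))) (S (T (F 1 (S L L)) L) (F 1 (V L L)))) (T (F 1 (S L L)) (F 1 (S L L)))) (F 1 (U (T (U (S (S L L) (S L L)) (S L L)) (S (T L L) (V L L))) (T (S L L) (S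 L L))))) (F 1 (U (V (T (S (V (S L L) (S L L)) (V (S L L) (S L L))) (S (V (S L L) (S L L)) (V (S L L) (S L L)))) (T (S (V L L) (V (S L L) L)) (S (V L L) (V (S L L) L)))) (V (T (S L L) (S L L)) (T (S L L) (S L L))))))))
noncomputable def w7_5 : Tr := (V (S (F 160 (U (V (T (U (S (S L L) (F 32 (S L L))) (S L L)) (F 32 (U (T L L) L))) (T (S (V L L) (F 32 (V L L))) (F 32 (S (S L L) (S L L))))) (T (V (S L L) (F 32 (S L L))) (F 32 (V L L))))) (F 33 (U (F 1 (T (V (U (S (S L L) L) (S L L)) (S (V L L) (T (S L L) (S L L)))) (V (U (S (S L L) L) (S L L)) (S (S L L) (T L L))))) (T (F 1 (V (S L L) (S L L))) (F 1 (V L (S L L))))))) (F 128 (S (U (V (F 2 (T (S (F 1 (T L L)) (F 1 (T L L))) (F 1 (S (S L L) (S L L))))) (F 64 (T (F 16 (S (S L L) (T L L))) (F 16 (S L (S L L)))))) (F 66 (V (T (S L L) L) (T L L)))) (F 64 (U (V (T (F 16 (S (V L L) (V L L))) (S (F 16 (T L L)) (F 16 (V L L)))) (T (F 16 (S (V L L)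 (V L L))) (S (T L L) (V (S L L) L)))) (F 16 (V (T (S L L) (S L L)) (T (S L L) (S L L)))))))))
noncomputable def w7_6 : Tr := (V (U (T (S (F 32 (V (U (S (S L L) (S L L)) (S L L)) (U (S (S L L) (V L L)) (S L L)))) (V (U (S (S L L) (S L L)) (S L L)) (U (S (F 32 (T L L)) (S L L)) (F 32 (S L L))))) (S (V (U (S (F 32 (S L L)) (S L L)) (F 32 (S L L))) (F 32 (U (S (S L L) (V L L)) (S L L)))) (V (U (S (S L L) (S L L)) (S L L)) (U (F 32 (S (T L L) (S L L))) (V L L))))) (S (T (F 32 (V (S L L) (S L L))) (F 32 (V (S L L) (S L L)))) (T (V (S L L) (F 32 (S L L))) (V (S L L) (F 32 (S L L)))))) (S (F 32 (U (V (T (S (V (S L L) (S L L)) (V (S L L) (S L L))) (S (V (S L L) (S L L)) (U (S L L) L))) (T (S (V L L) (V (S L L) L)) (S (V (S L L) (S L L)) (V (S L L) (S L L))))) (V (T (S L L) (S L L)) (T (S L L) (S L L))))) (U (F 32 (V (T (S (V L L) (T L L)) (S (V (S L L) (S L L)) (T (S L L) (S L L)))) (T (S (V L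 L) (V L L)) (S (V (S L L) (S L L)) (V L (S L L)))))) (T (F 32 (V (S L L) (S L L))) (F 32 (V (S L L) (S L L)))))))
noncomputable def w7_7 : Tr := (V (F 4 (U (S (T (V (S (F 32 (T L L)) (U L L)) (F 32 (U (S (S L L) (T L L)) (S L L)))) (F 32 (V (S (S L L) (S L L)) (U (S (S L L) (T L L)) (S L L))))) (V (T (U (S (S L L) (S L L)) (S L L)) (U (S (S L L) (S L L)) (S L L))) (T (F 32 (U (S (T L L) (S L L)) (S L L))) (F 32 (U (S (S L L) (S L L)) (S L L)))))) (S (T (F 32 (V (S L L) (S L L))) (V (S L L) (F 32 (S L L)))) (T (V (S L L) (S L L)) (V (S L L) (S L L)))))) (F 1 (S (U (V (T (F 16 (S (V (S L L) (S L L)) (V (S L L) (S L L)))) (F 16 (S (V L L) (V L L)))) (T (F 16 (S (V (S L L) L) (V (S L L) (S L L)))) (S (V (S L L) (S L L)) (V L (S L L))))) (V (F 16 (T (S L L) (S L L))) (T (F 16 (S L L)) (S L L)))) (U (V (F 16 (T (S (V (S L L) (S L L)) (U (S L L) L)) (S (V L L) (U (S L L) L)))) (T (F 16 (S (V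 (S L L) (S L L)) (V (S L L) (S L L)))) (S (V (F 16 (S L L)) (S L L)) (F 16 (V (S L L) (S L L)))))) (F 16 (V (T (S L L) (S L L)) (T (S L L) (S L L))))))))
noncomputable def w7_8 : Tr := (T (F 2 (V (S (U (V (T (U (S L L) L) (T (T L L) L)) (T (S L (S L L)) (S L (S L L)))) (V (S L L) (T L L))) (U (T (V (U (S (S L L) L) (S L L)) (S (S L L) (T L L))) (V (U (S L L) L) (S (S L L) (S L L)))) (V (T L L) (T (S L L) L)))) (S (U (V (T (S (S L L) (S L L)) (S L (S L L))) (T (S L (S L L)) (S L L))) (V (T L L) (S L L))) (U (V (T (S (S L L) (V L L)) (S (S L L) (T L L))) (T (S (S L L) (V L L)) (S (S L L) (T L L)))) (V (T (S L L) (S L L)) (T (S L L) (S L L))))))) (V (S (F 2 (U (V (T (T (T L L) (T L L)) (U (T L L) L)) (T (S L (S L L)) (S (S L L) (S L L)))) (V (S L L) (T L L)))) (U (F 2 (T (V (U (S L L) (S L L)) (S (S L L) (T L L))) (F 1 (V (U (S L L) L) (S (S L L) (T L L)))))) (F 2 (V (T L L) (T (S L L) (F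 1 (S L L))))))) (F 2 (S (U (V (T (S L (S L L)) (S (S L L) (S L L))) (T (S L L) (S L (F 1 (S L L))))) (V (T L L) (T L L))) (U (V (T (S (T L L) (V L L)) (F 1 (S (T L L) (V L L)))) (T (S (T L L) (T L L)) (F 1 (S (T L L) (V L L))))) (V (T (S L L) (F 1 (S L L))) (T (S L L) (F 1 (S L L)))))))))
noncomputable def w7_9 : Tr := (V (U (S (F 64 (V (T (S (F 2 (S L L)) (F 2 (S L L))) (S (S L L) (T L L))) (T (U (S (S L L) (T L L)) (S L L)) (U (S (S L L) (V L L)) (S L L))))) (V (T (F 16 (S (F 1 (S L L)) (V L L))) (S (F 64 (T L L)) (F 16 (V (S L L) L)))) (F 64 (U (T (S (T L L) L) (S (V L L) (F 32 (S L L)))) (T (S L L) (S L L)))))) (S (T (V (F 16 (S L L)) (F 64 (S L L))) (F 64 (V (S L L) (S L L)))) (T (F 16 (V (S L L) (F 1 (S L L)))) (V (S L L) (F 64 (S L L)))))) (F 64 (S (U (V (T (S (V L L) (V (S L L) (S L L))) (S (V L L) (V (S L L) (S L L)))) (T (S (V L L) (V (S L L) (S L L))) (S (V L L) (U (T L L) L))))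 (V (T (S L L) (S L L)) (T (S L L) (S L L)))) (U (V (T (S (V (S L L) (S L L)) (U (S L L) L)) (S (U (T L L) L) (F 32 (U (S L L) L)))) (T (S (U (T L L) L) (U (V L L) (S L L))) (F 32 (S (V L L) (V (S L L) (S L L)))))) (V (T (S L L) (S L L)) (T (S L L) (F 32 (S L L))))))))
noncomputable def w7_10 : Tr := (V (T (F 5 (U (S (V (S (S L L) (F 1 (S L L))) (U (S (S L L) (F 1 (T L L))) (S L L))) (F 1 (V (U (S L L) (S L L)) (U (S (T L L) (S L L)) (S L L))))) (S (V (S L L) (F 1 (S L L))) (F 1 (V (S L L) (S L L)))))) (F 129 (U (S (V (U (F 16 (S L L)) (F 16 (S L L))) (F 16 (U (S (S L L) (T L L)) (S L L)))) (V (S (F 16 (S L L)) (T L (S L L))) (U (F 16 (S (T L L) (S L L))) (F 16 (S L L))))) (S (F 16 (V (S L L) (S L L))) (V (S L L) (F 16 (S L L))))))) (F 1 (U (F 32 (S (V (T (S (V (S L L) L) (F 32 (V L (S L L)))) (F 32 (S (V L L) (V (S L L) (S L L))))) (F 32 (T (S (V L L) (V L (S L L))) (S (V L L) (V (S L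 L) L))))) (F 32 (V (T (S (V (S L L) (S L L)) (U (S L L) L)) (S (V L L) (T (S L L) L))) (T (S (V (S L L) (S L L)) (V (S L L) L)) (S (V L L) (V L L))))))) (F 33 (S (V (T (S L L) (S L L)) (T (S L L) (S L L))) (V (T (S L L) (S L L)) (T (S L L) (S L L))))))))
noncomputable def w7_11 : Tr := (T (F 145 (U (F 532 (S (T (F 32 w7_4) w7_5) (F 1 (T (F 4 w7_6) w7_7)))) (F 4 (S (F 130 (T (F 1 (V (U (F 32 (S (V (S L L) (F 32 (S L L))) (F 32 (V L (S L L))))) (F 33 (S L L))) (F 33 (U (S (V L L) (V (S L L) (S L L))) (S L L))))) (F 133 (V (U (S (T L L) (T L L)) (S L L)) (U (S (T L L) (V (S L L) L)) (S L L)))))) (F 3 (T (F 4 (V (U (F 16 (S (T L L) (T L (S L L)))) (F 16 (S L L))) (F 80 (U (S (V (S L L) (S L L)) (V (S L L) (S L L))) (S L L))))) (F 12 (V (U (S (T L L) (T (S L L) L)) (S L L)) (U (S (F 32 (V (S L L) (S L L))) (V (S L L) (F 32 (S L L)))) (F 32 (S L L))))))))))) (F 533 (U (F 32 (S (F 257 w7_8) (F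 1 (T (F 4 w7_9) w7_10)))) (F 544 (S (F 32 (T (V (U (F 1 (S (S L L) (S L L))) (F 1 (S L L))) (F 1 (U (S (S L L) (V L L)) (S L L)))) (V (U (F 1 (S (S L L) (T L L))) (F 1 (S L L))) (F 1 (U (S (S L L) (V L L)) (S L L)))))) (T (F 32 (V (S (F 1 (U (T L L) L)) (U (T L L) L)) (U (F 1 (S (V L L) (V (S L L) (S L L)))) (F 1 (S L L))))) (F 1 (V (U (S (F 5 (T L L)) (F 4 (V L L))) (F 4 (S L L))) (F 5 (U (S (V (S L L) L) (V (S L L) L)) (S L L)))))))))))
noncomputable def treeW7 : Tr := (F 0xffffffffffffffffffffffffffffffffffffffe2233bfe47ff (S (F 16424 (T (F 2192 w7_2) (F 512 (U (F 1061 w7_3) (F 5157 (S (T (V (U (S (S L L) L) (S L L)) (S (F 64 (S L L)) (F 4 (S L L)))) (V (S L L) (S L L))) (T (F 4 (V (U (S (S L L) (S L L)) (S L L)) (U (S L (S L L)) L))) (V (S (S L L) (F 5 (T L L))) (S (S L L) (F 5 (T L L))))))))))) (F 16420 w7_11)))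

theorem pW7 : chkW par treeW7 128 128 384 128 128 128 524288 699051 Lc = true := by decide +kernel

noncomputable def w8_0 : Tr := (U (S (V (F 2 (T (F 1 (U (S L (S L L)) (V (S (T L L) (T (F 1 (S L L)) (S L L))) (F 8 (S L L))))) (V (U (S L L) (S (S L L) (T L L))) (F 8 (S L L))))) (F 16 (T L (K 3)))) (F 2 (V (T (F 1 (S (F 1 (U (T (V (S L L) L) L) (V (T (S L L) L) (T L L)))) (F 1 (V (U (S L L) (T (S L L) L)) (U L (T (S L L) (S L L))))))) (U (S (S L L) (F 64 (T (S L L) (S L L)))) (T (F 1 (S L (F 1 (V L L)))) (V (S (S L L) (S L L)) L)))) (F 72 (T (F 16 (S L L)) L))))) (F 128 (S (V (F 32 (T (V (S (T (F 32 (S L L)) (V (S L L) L)) (T (F 1 (U (S L L) L)) (S L (S L L)))) (F 8 (S (F 16 (T (F 8 (S L L)) L)) (F 16 (U (S L L) (S L L)))))) (S (V (U (S L L) (S L L)) L) (U (T (S L L) L) (V (S L L) (S L L)))))) (F 4 (T (F 1 (U L (S L L))) L))) (T (V (F 32 (V (S (T (F 1 (U (S L L) L)) (U L (S L L))) (T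 (F 1 (V L (S L L))) (U L L))) (F 1 (S (T (S L (S L L)) (S L L)) (T (V (S L L) L) (S L L)))))) (F 68 (S (U L (S L L)) (F 1 (V (T (S L L) L) L))))) (F 32 (V (S (V (T (S (S L L) L) L) (U L (S L L))) (F 1 (V (T (S L L) (S L L)) (T (S L L) (S L L))))) (F 1 (T (S L L) L))))))))
noncomputable def w8_1 : Tr := (T (F 258 (U (F 272 (V (U (S (K 4) L) (S (F 8 (S L (T L (K 4)))) (F 256 (S (F 2 (U L (T (T L L) L))) (F 2 (V (T (S L L) (S L L)) L)))))) (K 4))) (F 272 (S (V (V (F 64 (U (F 16 (S (F 2 (U L (F 32 (S L L)))) (F 64 (T (F 48 (S L (S L L))) (S L L))))) (F 128 (S (F 5 (T (S (U L (S L L)) (U L (U L (S L (S L L))))) (S L L))) (F 64 (T (F 40 (U (S L (S L L)) (S (V (S L L) L) (V (S L L) L)))) (U L (T (F 8 (S L L)) L)))))))) (F 8 (S (F 192 (U (K 1) (S L L))) (U (S (K 4) (K 4)) (F 128 (T (F 33 (S L L)) L)))))) (F 9 (S (K 4) (K 4)))) (V (F 256 w8_0) (F 136 (U (K 3) (F 64 (V (S L (F 32 (T L L))) (K 2))))))))))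 (F 258 (S (U (K 5) (F 256 (V (S (F 168 (U (K 3) (S L L))) (F 672 (T (U L (S L L)) (S L L)))) (K 4)))) (V (F 5 (U (V (U (F 64 (T (F 32 (S (K 4) L)) (K 2))) (F 64 (S (F 32 (T L (K 4))) (T (F 32 (S L L)) (T L L))))) (K 5)) (F 64 (S (F 32 (T (V (U (U L (S L L)) (S (S L L) (U L (T L L)))) L) (U L (S L L)))) (T (F 32 (U (V (S (T (S L L) L) (V (U (S L L) (F 64 (T L L))) (F 64 (S L L)))) L) (V (S (V (T (S L L) (S L L)) (T L L)) (F 64 (V (T (S L L) L) (U L L)))) (S L L)))) (U (S L (F 1 (T L L))) (V (S (F 32 (T L L)) (F 1 (V (T L L) (T L L)))) L))))))) (K 5)))))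
noncomputable def w8_2 : Tr := (S (F 5 (U (V (F 4 (T (V (S (U (S L L) (S L L)) (T (S L L) (F 16 (S L L)))) (S (U L L) (U (S L L) (S L L)))) (S (U L (S L L)) (V (F 16 (S L L)) L)))) (T (V (S L L) L) L)) (V (F 4 (T (S (V (U L L) (S L L)) (V (S L L) (T L L))) (S (V L L) (V L L)))) (T (S (F 2 (V (S L L) L)) (F 2 (V (S L L) L))) (S L (S L L)))))) (V (F 32 (T (F 64 (U (F 32 (V (S (F 8 (U (S L L) L)) (T (F 8 (S L L)) (S L L))) (F 8 (S (T L L) (S L L))))) (S (F 2 (V (F 1 (S L L)) (T L L))) (F 32 (V (V L L) (F 8 (S L L))))))) (F 1 (U (V (S (F 4 (S L L)) (V (S L L) L)) (F 4 (U L (S L L)))) (V (S (S L L) (S L L)) (F 4 (S L L))))))) (F 4 (U (T (F 66 (V (S (V L L) L) L)) (S L L)) (T (F 64 (S (F 16 (V (S L L) L)) (F 16 (V (S L L) L)))) (V (F 5 (S L L)) L))))))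
noncomputable def w8_3 : Tr := (T (F 256 (U w8_2 (S (F 5 (V (F 4 (T (U (S (T L L) (T L L)) (S L L)) (U (S (S L L) (S L L)) (S L L)))) (T (U (V (S L L) (F 2 (S L L))) (V (S L L) L)) (U (S (S L L) L) (S L L))))) (V (F 160 (T (F 32 (U (S (F 2 (S L L)) (V L L)) (S L L))) (U (V (S L L) (F 8 (S L L))) (S L L)))) (F 4 (T (F 66 (U (V (S L L) (S L L)) (S L L))) (S (F 64 (V L L)) (F 3 (T L L))))))))) (U (S (V (F 4 (T (F 9 (U (S L L) (S L (F 1 (S L L))))) (F 129 (S L L)))) (F 288 (U L L))) (F 5 (V (T (F 1 (U (S L (T L L)) (V (S L L) (F 8 (S L L))))) (U (S L L) (F 1 (S L L)))) (F 9 (T L L))))) (F 256 (S (V (F 32 (T (S (F 80 (T L L)) (V L L)) (S L L))) (F 4 (T (V L L) L))) (V (F 160 (T (U (S L L) (S L L)) (S L L))) (F 4 (T (V (F 4 (S L L)) (S L L)) L)))))))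
noncomputable def w8_4 : Tr := (S (V (F 160 (T (U (S (V (T (F 32 (V L L)) (V L L)) (F 8 (T L (S L L)))) (V (S (F 1 (T L L)) (F 1 (T L L))) (T L (S L L)))) (V (S (T L L) (S L L)) (S (F 9 (S L L)) (F 1 (S L L))))) (U (S (V (T (S L L) L) (F 8 (S L L))) (V (T (S L L) L) (F 1 (S L L)))) (S (V (S L L) (S L L)) (V (S L L) L))))) (F 4 (U (F 1 (T (F 32 (V (F 1 (S (S L L) (S L L))) (S L (T L L)))) (S L (F 16 (S L L))))) (T (V (F 5 (S L L)) (F 2 (S (S L L) (F 32 (S L L))))) (F 3 (V (F 16 (S L L)) (S L L))))))) (F 128 (V (F 2 (T (U (S (F 32 (V (T (S L L) (S L L)) (T (S L L) (S L L)))) (F 32 (V (T (S L L) (S L L)) (T (S L L) (S L L))))) (F 32 (S (V (S L L) (S L L)) (V (T L L) (T L L))))) (S (V (T (F 32 (U L L)) (F 32 (V L L))) (F 32 (U (T L L) (S L L)))) (F 32 (U (V (T L L) (T L L)) (V (S L L) (S L L))))))) (T (U (F 1 (V (F 32 (S (F 4 (T L L)) (T L L))) (F 4 (S (T L L) (F 1 (S L L)))))) (F 1 (V (F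 32 (S L (S L L))) (F 4 (S (S L L) (S L L)))))) (F 2 (U (S (F 36 (T L L)) (F 32 (V (T L L) L))) (F 32 (V (S L (S L L)) (F 4 (S L L))))))))))
noncomputable def w8_5 : Tr := (T (F 640 (U w8_4 (F 128 (S (V (F 2 (T (U (S (V (S L L) L) (V (S L L) L)) (S (S L L) (F 32 (S L L)))) (U (V (S L L) (S L L)) (S L (S L L))))) (T (F 17 (U (V (S L L) (S L L)) (S L L))) (F 1 (U (F 4 (S L L)) (S L L))))) (V (F 2 (T (F 32 (U (S (V L L) (V (S L L) L)) (S (S L L) (S L L)))) (S (F 32 (U (T L L) L)) (F 32 (U (V L L) (S L L)))))) (F 1 (T (V (F 32 (U (S L L) (S L L))) (F 4 (U (S L L) L))) (F 32 (U (V (S L L) L) (S L L)))))))))) (F 4 (U (F 256 (S (F 32 (T (F 1 (V (U (S (V (S L L) L) (V (S L L) (S L L))) (S (T L L) (V L L))) (F 8 (U L (S L L))))) (V (U (S L (T L L)) (F 1 (S L (S L L)))) (F 1 (S L L))))) (T (F 160 (V (S (V (U (S L L) L) (F 32 (U L L))) (F 32 (U (V (S L L) (S L L)) (V L L)))) (F 32 (U (T (S L L) L)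 (V (S L L) L))))) (V (S (F 32 (U (T (F 1 (S L L)) L) (F 1 (S L L)))) (F 129 (U (V L L) (F 2 (S L L))))) (F 33 (U (S L L) (F 1 (S L L)))))))) (F 261 (S (V (T (U (S L (S L L)) (S L L)) (S L (S L L))) (T (S L L) (S L L))) (V (T (S (V (S L L) L) (F 1 (V (S L L) L))) (S (S L L) (F 1 (S L L)))) (T (F 1 (U (S L L) L)) (F 1 (S L L)))))))))
noncomputable def w8_6 : Tr := (S (F 20 (V w8_3 (F 288 (U (T (V (S (F 33 (T (U (S L L) (V (S L L) L)) L)) (F 32 (T (F 32 (U L (V (S L L) L))) L))) (F 32 (U (S (F 32 (S L L)) L) (S (F 32 (V L L)) (V L L))))) (U (K 2) (V L L))) (T (S (F 1 (V (U (F 2 (T (V (S L L) L) (S L L))) (T (F 2 (V L L)) (S L L))) (F 2 (T (U (S (S L L) L) (S L L)) (S L L))))) (T (F 33 (V (U (V L L) (S L L)) (U (S L L) L))) (V (U (F 32 (S L L)) L) (F 32 (S L L))))) (T (V (U (S L L) (S L L)) (S L L)) (S L L))))))) (V (F 16 w8_5) (F 37 (U (F 32 (T (V (S (F 32 (U (T (S L L) L) (T (V (S L (S L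 L)) (S L L)) L))) (F 32 (T (U (F 1 (S L (U L L))) (F 1 (V (S L L) (S L L)))) (F 1 (U L (S L (S L L))))))) (F 32 (U (S L (S L L)) (T (S (V L L) (F 1 (V L L))) (S L L))))) (V (T (S L (F 64 (S L L))) (F 64 (S L L))) (T (F 32 (S L L)) L)))) (T (F 34 (S (T (V (U (V (S L L) L) (V L L)) (U (S L L) L)) (V (F 32 (U L L)) (S L L))) (F 32 (T (V (U (V (S L L) L) (S L L)) (U (S L L) L)) (V (U (S L L) L) (S L L)))))) (F 32 (S (F 32 (V (F 1 (T L L)) L)) (F 96 (V (T (S L L) L) (T L L))))))))))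
noncomputable def w8_7 : Tr := (T (F 4 (V (F 133 (U (S (T (F 64 (V (U (S L L) (F 128 (S L L))) L)) (U L (F 1 (S L L)))) (F 64 (T (V (S (V (S L L) L) (F 1 (U (T L L) L))) (F 1 (U L L))) (V (S (T L L) (F 1 (U (S L L) L))) (F 1 (T L L)))))) (F 1 (S (T (F 4 (V (S L L) L)) (F 4 (V (S L L) L))) (F 4 (T (V (S (S L L) (F 64 (S L L))) (F 64 (S L L))) (V (S L L) (F 64 (S L L))))))))) (F 80 (U (F 512 (T L L)) (F 1 (T (F 32 (U L (F 128 (S L L)))) (F 1 (S L L)))))))) (F 4096 (V (F 578 (U (T (S (U L (S L L)) (F 256 (V (S (T L L) (F 2 (U (S L L) L))) (T L L)))) (S (U L (S L L)) (F 256 (V (U (S (S L L) (T L L)) (F 128 (S L (S L L)))) (U L (F 128 (S L L))))))) (F 1 (S (T (V (S L L) L) (V (S L L) L)) (F 1 (T (V (S L L) (S L L)) (V (S L (T L L)) (S L L)))))))) (F 32 (U (F 512 (T L L)) (F 1 (S (F 256 (S L L)) (F 259 (T L (F 64 (S L L)))))))))))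
noncomputable def w8_8 : Tr := (S (F 1 (V (T (S (V (T (V L L) (S L L)) (T (U (S L L) L) (S L L))) (V (T (U L L) (S L L)) (T (S L L) (U (S L L) L)))) (S (V (T (S L L) (S L L)) (T (S L L) (S L L))) (V (T (V L L) (S L L)) (T (S L L) (S L L))))) (T (V (S (T (S L L) (S L L)) (T (U (S L L) L) (V L L))) (F 4 (S (U L (S L L)) (T (S L L) (S L L))))) (S (V (T (S L L) (S L L)) L) (V (T (S L L) (S L L)) (T L L)))))) (F 1 (V (T (V (S (T (V L L) (U L (S L L))) (T L (S L L))) (S (T (V L L) (U L (S L L))) (T (S L L) (S L L)))) (S (V (T (U (S L L) (S L L)) (S L (S L L))) (T (V L L) (S L L))) (V (T (S (S L L) L) (U (S L L) (S L L))) (T (U L (S L L)) (S (S L L) (S L L)))))) (T (V (S (T (U L (S L L)) (U L L)) (T (S L L) (S (S L L) L))) (S (T (U L L) (S L L)) (T (U L L) (U L (S L L))))) (S (V (T (V L L) (S L L)) (T (S L L) (S L L))) (V (T (U L (S L L)) (V (S L L) L)) (T (S (S L L) L) (S L L))))))))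
noncomputable def w8_9 : Tr := (V (F 2 (U (S (T (F 65 (V (V (S (T L (S L L)) (T L L)) (S (U L (T L (S L L))) (T L L))) (U L (V (S (S L L) (S L L)) L)))) (V (S (F 64 (V (T (U L L) (U L (S L L))) (U L (T (F 32 (S L L)) (S L L))))) (F 64 (V (U (S L L) (F 32 (T L L))) (U (S L L) (T L L))))) (F 64 (U L (S L (T L L)))))) (F 64 (V (T (F 32 (V (K 1) (S (S L L) (K 1)))) (S (V (T L (S L L)) (T L (S L L))) (V (F 32 (S L L)) (U L (F 32 (S L L)))))) (T (F 32 (U (S L (K 1)) (V (S L L) (S L L)))) (U (T L (S L L)) (F 32 (S (V (T L L) L) (V (S L L) (T L L))))))))) (F 1 w8_8))) (F 1 (T (F 9 (U (V (S L L) (K 2)) (S (V (T (S L L) L) L) (V (U (S (S L L) (T L L)) (V (F 1 (S (S L L) (S L L))) (T (S L L) L))) (U L L))))) (S (F 8 (U (K 2) (F 32 (T L L)))) (U (F 8 (T L L)) (F 1 (V (S (F 8 (S L L)) (F 9 (T (T L L) L))) (F 8 (S (K 2) L)))))))))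
noncomputable def w8_10 : Tr := (S (V (U (S (V (T (S L (S L L)) (S L L)) (T (S L L) L)) (V (T (U L (S L L)) (U (S L L) L)) (T (U L (S L L)) (S L L)))) (S (V (T (F 32 (S L L)) (S L L)) (T (F 32 (S L L)) (S L L))) (V (T (F 32 (S L L)) (S L L)) (T (F 32 (S L L)) (S L L))))) (U (T (S L L) L) (S (T L L) (T (F 32 (V (S L L) L)) (U L L))))) (V (U (V (S (T (U L L) (U L (S L L))) (U (S L L) (F 32 (S (S L L) L)))) (S (T (U L (S L L)) (U L (S L L))) (U (S L L) (T L (S L L))))) (F 32 (S (V (T (S L L) (S L L)) (T (S L L) (S L L))) (V (T (S L L) (S L L)) (T (V L L) (S L L)))))) (U (U (S (S L L) (T L (S L L))) (T (S (S L L) (F 32 (V (S L L) L))) (S L (V (S L L) L)))) (F 32 (S (V (T (S L L) L) (T (S L L) L)) (V (T (S L L) (S L L)) (T (S L L) (S L L))))))))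
noncomputable def w8_11 : Tr := (F 128 (S (U (V (T (F 16 (S (U L (S L L)) (V (S L L) (S L L)))) (S (U L L) (V (S L L) (S L L)))) (T L L)) (V (S (V (T L L) (T L L)) (V (T (F 16 (S L L)) (S L L)) (T L L))) (S L (T L L)))) (V (S (V (U (T (S L (S L L)) (V (S L L) L)) (T (F 64 (S L L)) (S L L))) (U (T (S L (S L L)) (S L L)) (T (S L L) (S L L)))) (V (U (T (U (S L L) (S L L)) (S (S L L) (S L L))) (F 64 (T (S L (S L L)) (S L L)))) (U (T (S (S L L) (T L L)) (S (S L L) (S L L))) (F 64 (T (S L L) (S L L)))))) (U (T (S (S L L) (V (U (S L L) (S L L)) L)) (S L (U L (T L L)))) (S (V (T (S L L) (S L L)) (U L L)) (T (F 64 (V (S L L) (S L L))) (F 64 (V (S L L) (S L L)))))))))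
noncomputable def w8_12 : Tr := (S (V (T (U (K 1) (V (S (T L L) (S L L)) (S (T L (S L L)) (S L L)))) (S (U (V (S L (K 1)) (S L L)) (V (T (S L L) (U L (S L L))) (T (S L L) (U L (S L L))))) (V (U (K 1) (T L (S L L))) (U L (T (S L L) (S (S L L) (S L L))))))) (T (U (V (K 1) (S L (K 1))) (S (V (T L (S L L)) (T L (U L (S L L)))) (V (S L L) (T L (S L L))))) (U (S (V (S L L) (T L (S L L))) (V (S L L) (S L L))) (S (V (T (U L (S L L)) (S L (S L L))) (T (U (S L L) (S L L)) (S L (S L L)))) (V (T (S L L) (U L (S L L))) (T (U L (S L L)) (S (S L L) (S L L)))))))) (V (U (K 1) (T (V (K 1) (S L (K 1))) (S (V (S (S L L) L) (T L (S L L))) (V (T L L) (S L L))))) (T (U (K 1) (S (V (S L L) (S L L)) (V L (S L L)))) (U (S (V L (S L L)) (V (K 1) L)) (S (V (T (S L L) (U L (S L L))) (T (S (S L L) L) (U (S L L) (S L L)))) (V (T L (S L L)) (U (S L L) (T L (S L L)))))))))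
noncomputable def w8_13 : Tr := (S (T (V (V (F 1 (S (T (S L L) (U L L)) (T (S L L) (U L (S L L))))) (F 8 (S (T (S L L) (F 16 (S L L))) (F 16 (T (S L L) (S L L)))))) (F 8 (U (T (S L L) L) (V (S (T L L) (T (S L L) (S L L))) (S L L))))) (V (F 1 (V (S (T (U (S L L) L) (V (S L L) L)) (T (S (S L L) (S L L)) (U (S L L) (S L L)))) (F 4 (S (T L L) (T (U L L) (U L L)))))) (F 8 (V (T (S L L) L) (S L L))))) (T (V (F 1 (S (V (T L (U L L)) (T L (U L (S L L)))) (V (S (S L L) L) (U (S L L) (T L (S L L)))))) (F 8 (U (T (S (V L L) (V L (S L L))) (V (F 16 (S L (S L L))) (T L L))) (S (V (T (S L L) L) (T L L)) (V (F 16 (T L L)) (T (S L L) (S L L))))))) (V (F 1 (S (T (V (U (S L L) (S L L)) (U (F 4 (S L L)) (S L L))) (V (U (S L L) (S L L)) (V (U L L) (F 4 (S L L))))) (T (V (U L (S L L)) (U (V (S L L) L) (S L L))) (V (U (S L L) (S L L)) (U (V L L) (S L L)))))) (F 8 (T (S (V (F 16 (U L L)) (S L L)) (F 16 (V (U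 (S L L) (S L L)) (U L (S L L))))) (F 16 (U (S L (V (S L L) L)) (S (T L L) (V (S L L) L)))))))))
noncomputable def w8_14 : Tr := (T (F 16 (S (U (V (F 1 (S (S L L) L)) (T L (U L (F 1 (S L L))))) (F 1 (V (T (S (S L L) (S L L)) (S L L)) (T (S (S L L) (S L L)) (S L L))))) (F 1 (U (V (S L L) (T L (S L L))) (V (T (U L (S L L)) (S (S L L) (S L L))) (T (S (S L L) (S L L)) (S (S L L) (S L L)))))))) (S (V (U (T (F 64 (U L (S L L))) (V (F 64 (S L L)) (S L L))) (F 64 (T (V (S L L) (S L L)) (S L L)))) (U (T (U (S L L) (F 64 (S L L))) (U (S L L) (F 64 (S L L)))) (F 64 (T (T (F 2 (S L L)) (S L L)) (S L L))))) (F 64 (V (U (T (S (S L L) (T L L)) (S (S L L) (T L L))) (T (S (S L L) (S L L)) (S (S L L) (S L L)))) (U (T (U L (S L L)) (V (S L L) (S L L))) (T (S (S L L) (S L L)) (V (S L L) L)))))))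
noncomputable def w8_15 : Tr := (T (F 16 (U (S (U (V (S L L) (T L L)) (F 1 (V (T L (S L L)) (T (S L L) L)))) (F 1 (V (U L (T L (S L L))) (T (S (S L L) (S L L)) (U (S L L) (S L L)))))) (F 1 (S (V (T (S L L) (S L L)) (T (S L L) (S L L))) (V (T (S (S L L) (S L L)) (V (S L L) L)) (T (S (S L L) (S L L)) (V L L))))))) (U (S (V (T (U (S L L) (F 64 (S L L))) (S (S L L) (S L L))) (U (T L L) (T (F 64 (S L L)) (S L L)))) (V (T (S (V L L) (F 64 (T L L))) (S (T L L) (F 64 (S L L)))) (U (T (S (S L L) L) (S (S L L) L)) (F 64 (T (S L L) (S L L)))))) (F 64 (S (V (T (S L L) (S L L)) (T (S L L) (S L L))) (V (T (S (S L L) (S L L)) (S L (S L L))) (T (U (S L L) (S L L)) (S L (S L L))))))))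
noncomputable def w8_16 : Tr := (T (S (F 2 (U (V (T L (S L L)) (U (S L L) (T (S L L) (S L L)))) (V (T (V (S L L) (S L L)) (V (S L L) (S L L))) (T (V (S L L) (S L L)) (U (S L L) (S L L)))))) (F 2 (U (V (V L (S L L)) (U (S L L) (T L (S L L)))) (V (T (U (S L L) (S L L)) (S (S L L) (S L L))) (T (V (S L L) (S L L)) (V (S L L) (S L L))))))) (S (U (V (T (V (S L L) (U L L)) (U (S L L) (S L L))) (T (U (S L L) (V L L)) (U (S L L) (S L L)))) (V (T (S (S L L) (V L L)) (V (S L L) (S L L))) (T (S (T L L) (T L L)) (U (S L L) (S L L))))) (U (V (U (V L (S L L)) (T (V L (S L L)) (S L L))) (T (U (V L L) (V (S L L) (S L L))) (F 32 (V L (S L L))))) (V (T (S (T L L) (V L L)) (V (S L L) (S L L))) (T (U (V L L) (S L L)) (U (S L L) L))))))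
noncomputable def w8_17 : Tr := (V (T (F 2 (S (U (V (U (K 3) L) (S L L)) (V (T (V L (S L L)) (V (T L L) (S L L))) (T (U L (S L L)) (S (S L L) (S L L))))) (U (V (U (K 3) (S L L)) (S L L)) (V (T (U L (S L L)) (U (S L L) (S L L))) (T (S (S L L) (S L L)) (V (S L L) (S L L))))))) (U (S (V (U (S (S L L) L) (T (V (S L L) L) (T (S L L) (S L L)))) (T (U L (S L L)) (V (S L L) (S L L)))) (U (V L (S L L)) (V (V (S L L) (S (T L L) L)) (T (S L L) (S L L))))) (S (V (T (V (T L L) (S L L)) (S (S L L) (S L L))) (T (V (S L L) (S L L)) (V (S L L) (S L L)))) (V (T (F 2 (U (T L L) (S L L))) (U (V L L) (S L L))) (T (S (T L L) (V L L)) (V (S L L) (S L L))))))) w8_16)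
noncomputable def w8_18 : Tr := (T (F 16 (S (F 66 (V (T (S (U L (V L L)) (V (U (S L L) L) (F 4 (U L L)))) (U (S L (V L L)) (S (T L L) (V L L)))) (F 4 (T L L)))) (F 64 (V (S (F 16 (V (T (U (S L L) (S L L)) (U (S L L) (S L L))) (T (V (U L L) (F 4 (S L L))) (V (S L L) L)))) (V (F 16 (T (U (S L L) (S L L)) (U (S L L) (S L L)))) (T (F 16 (U (S (S L L) L) (S L L))) (S (F 16 (T L L)) (F 1 (V L L)))))) (F 4 (T (F 2 (V (S (U L L) (F 1 (V L L))) (F 1 (T L L)))) (F 16 (S L (V (T L (S L L)) (T L L)))))))))) (F 1 (S (F 8 (V (T (U (S L (V (S L L) L)) (S (T L L) (V (S L L) L))) (U (S L (V (S L L) L)) (S L (V L L)))) (F 4 (S L L)))) (V (F 8 (V (S (T (U (S L L) (S L L)) (U L (S L L))) (T (V (U L L) (F 1 (S L L))) (F 1 (U (S L L) (S L L))))) (F 1 (S (T (V (S L L) L) (V (S L L) L)) (T (U (S L L) (S L L)) (U (S L L) (S L L))))))) (F 80 (T (F 2 (U (T L L) (S L (V L L)))) (F 2 (S L (V (S L L) L)))))))))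
noncomputable def w8_19 : Tr := (T (F 21 (V (F 1 w8_12) (U (S (T (V (F 1 (T L (S L L))) L) (V (F 1 (U L (S (T L L) (T (S L L) (T (S L L) (S L L)))))) (F 8 (S (K 2) L)))) (T (U (S L L) (V (F 1 (S (S L L) (S L L))) (F 8 (S L (T L L))))) (F 1 (U (V (S (T L L) (V L (S L L))) L) (V (S (V (S L L) (F 4 (T L (S L L)))) (V (S L L) (T L (V (S L L) L)))) (F 4 (T (T L L) (T L L)))))))) w8_13))) (V (F 272 (S (V w8_14 w8_15) (F 64 w8_17))) (U (F 256 (T (F 8 (S (F 4 (V (U (S L (F 32 (T L L))) (F 32 (V (T (T (S L L) L) (T L L)) L))) L)) (F 1 (V (U (T (F 16 (S (V L L) (V L (V (S L L) L)))) (S (T L (T L L)) (V (S L L) (F 1 (T L L))))) (T (F 16 (V (S (V (S L L) L) (S (S L L) (S L L))) (S L (V (S L L) L)))) (S (F 16 (V (S L L) L)) (V (S L L) (V (S L L) L))))) (F 4 (T (F 2 (U L L)) (F 16 (T L L)))))))) (F 8 (S (V (T (U L (S L (F 1 (S L L)))) (U L (S L L))) (K 5)) (F 1 (V (U (V (T (S (V L (S L L)) (V (S L L)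 L)) (F 1 (V (S L L) L))) (F 1 (T (T L L) L))) (T (V (S (V L L) (V (S L L) L)) (F 1 (S L (V L L)))) (F 1 (V (S (S L L) (S L L)) (S L (S L L)))))) (F 5 (T (T L L) L)))))))) (F 1 w8_18))))
noncomputable def w8_20 : Tr := (S (F 5 (U (F 8 (T (F 20 (S (F 1 (V (F 64 (U L (V (T (K 3) (S L (S L (K 3)))) (S L L)))) (K 4))) (F 1 (U (T L L) (V (F 64 (V (K 3) (T (K 3) L))) L))))) (F 16 (V (F 2 (U (S (F 128 (T L L)) (F 128 (T (S L L) (S L L)))) (S (T (F 132 (U L (S L (S L L)))) (V (U (F 128 (S L L)) (T (F 132 (S L L)) (F 128 (S L L)))) (K 5))) (F 128 (T (F 16 (V (S (V (S L L) L) (V L (S L L))) (S L L))) (V (S (U (S L L) (V (S L L) (T L L))) (V (S (S L L) L) (U L (T L (S L L))))) (S L (T L L)))))))) (K 3))))) (F 8 (T (F 20 w8_9) (F 16 (V (F 2 (T (F 132 w8_10) w8_11)) (T (F 65 (S (F 8 (T L L)) (U (F 8 (S (K 2) L)) (F 1 (V (F 1 (T (S L L) L)) L))))) (V (F 2 (S L (F 128 (U (S (K 1) L) (U L (F 64 (S L L)))))))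 (K 3))))))))) (F 517 (U (T (F 33 (U (F 4 (V (K 4) L)) (F 4 (V (F 1 (V (K 2) (S (T (K 2) (S L (K 2))) (K 2)))) (V (F 1 (U (S L L) (S L (F 1 (T (K 3) L))))) (F 8 (S (K 3) L))))))) (F 35 (V (U (V (V (K 3) (S L (K 3))) L) (V (S (T (F 4 (S (V (K 3) L) (K 3))) (S (V (T L (T L L)) (T L (S L L))) (U (S L L) (V (F 1 (S L L)) (S L L))))) (T (K 3) (V L (S L L)))) (U (S (T L (S L L)) (V L L)) (S (T (F 4 (S L (V L L))) (S (T (S L L) (T L L)) (V (T L (V L L)) (T (T L L) (T L L))))) (S (T (F 5 (S L L)) (V L (U L (F 1 (V L L))))) (F 1 (V L L))))))) (U L (U L (V (T (S L (U L (F 1 (S L (V (S L L) (T L L)))))) (V (T (S L (U L L)) (S L L)) L)) (F 16 (T (S (K 1) L) L)))))))) (F 1 w8_19))))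
noncomputable def w8_21 : Tr := (V (T (S (V (U (T (S L L) (S L L)) (T (S L L) L)) (U (T (S L L) (S L L)) (T L L))) (V (U (T (S L L) (S L L)) (T (S L L) (S L L))) (U (T (S L L) (S L L)) (T (S L L) (S L L))))) (S (V (U (T (S L L) (S L L)) (T (S L L) (S L L))) (U (T (S L L) (S L L)) (T L L))) (V (U (T (S L L) (S L L)) (T (S L L) (S L L))) (U (T (S L L) (S L L)) (T (S L L) (S L L)))))) (T (U (S (V (T (S L L) (S L L)) (T (S L L) (S L L))) (V (T (S L L) (S L L)) (T (S L L) (S L L)))) (S (V (T L L) (T L L)) (V (T L (S L L)) (T L L)))) (S (U (V (T (S L L) (S L L)) (T (S L L) L)) (V (T L L) (S L L))) (V (U (T (S L L) (S L L)) (T L L)) (U (T (S L L) (S L L)) (T L L))))))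
noncomputable def w8_22 : Tr := (U (F 32 (S (F 1 (V (T (S (U (V (T (S L L) (S L L)) (T (S L L) (S L L))) (V (T L L) (T L L))) (U (V (T (S L L) (S L L)) (T (S L L) (S L L))) (V (T L L) (T L L)))) (S (V (U (T (S L L) (S L L)) (T L L)) (U (T (S L L) L) (S L L))) (V (U (T (S L L) (S L L)) (T L L)) (U (T (S L L) (S L L)) (T L L))))) (T (U (S (V (T (S L L) (S L L)) (F 4 (T L L))) (V (T (S L L) (S L L)) (T L (S L L)))) (S (V (T L L) (F 4 (S L L))) (V (T L L) (S L L)))) (U (S (V (T L L) (F 4 (S L L))) (V (T (S L L) L) (T L L))) (S (V (S L L) (S L L)) (V (S L L) (S L L))))))) (F 1 w8_21))) (F 64 (S (V (F 1 (T (U (S (V (S L L) L) (V (S L L) (S L L))) (S (S L L) (T L L))) (S (U (V (S L L) L) (S L L)) (U (V (S L L) (S L L)) (T L L))))) (T (U (S (T L L) (F 1 (V (S L L) L))) (S (S L L) (F 1 (S L L)))) (F 1 (U (S (T L L) (T L L)) (S L (S L L)))))) (F 1 (V (U (T (S (V (S L L) (S L L)) (V (S L L) (S L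 L))) (S (V (S L L) (S L L)) (V (S L L) (S L L)))) (T (S (T L L) (V (S L L) L)) (S (T L L) (V (S L L) L)))) (T (S (U (V (S L L) L) (S L L)) (U (V (S L L) (S L L)) (T L L))) (S (U (V (S L L) L) (S L L)) (U (V (S L L) (S L L)) (S L L)))))))))
noncomputable def w8_23 : Tr := (U (V (T (F 16 (S (V (U (T (S L L) (S L L)) (T L L)) (U (T (S L L) L) (S L L))) (V (U (T (S L L) (S L L)) (T (S L L) L)) (U (T (S L L) (S L L)) (T L L))))) (S (V (T (F 16 (U L L)) (U L L)) (U (T L L) (S L L))) (V (U (T (S L L) (S L L)) (T L L)) (U (T (S L L) (S L L)) (T L L))))) (T (F 16 (S (U (V (T L L) (T L L)) (V (S L L) (S L L))) (U (V (T (S L L) L) (T (S L L) L)) (V (T L L) (S L L))))) (S (U (T (F 16 (S L L)) (V L L)) (T L (S L L))) (U (V (T (S L L) L) (T L L)) (V (S L L) (S L L)))))) (V (T (F 16 (U (S (V (S L L) L) (V (S L L) (S L L))) (S (S L L) (V (S L L) L)))) (U (S (V (S L L) L) (V (S L L) (S L L))) (S (S L L)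 (V (S L L) L)))) (T (F 16 (S (U (T L L) (S L L)) (U (V (S L L) L) (S L L)))) (S (U (T L L) L) (U (T L L) (S L L))))))
noncomputable def w8_24 : Tr := (V (T (S (V (U (T (S L L) (S L L)) (T (S L L) (S L L))) (U (T (S L L) (S L L)) (T (S L L) (S L L)))) (V (U (T (S L L) (S L L)) (T L (S L L))) (U (T (S L L) (S L L)) (T (S L L) (S L L))))) (S (V (U (T (S L L) (S L L)) (T (S L L) (S L L))) (U (T (S L L) (S L L)) (T (S L L) (S L L)))) (V (U (T (S L L) (S L L)) (T (S L L) (S L L))) (U (T (S L L) (S L (S L L))) (T (S L L) (S L L)))))) (T (S (U (V (T (S L L) (S L L)) (T (S L L) (S L L))) (V (T L (S L L)) (T L L))) (V (U (T (S L L) (S L L)) (T L (S L L))) (U (T (S L L) (S L L)) (T L L)))) (S (U (V (T (S L L) (S L L)) (T (S L L) (S L L))) (V (T (S L L) (S L L)) (T L L))) (V (U (T (S L L) (S L L)) (T (S L L) (S L L))) (U (T (S L L) (S L L)) (T (S L L) (S L L)))))))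
noncomputable def w8_25 : Tr := (V (U (S (T (V (T L (S L L)) (T L (S L L))) (V (T (S L L) (S L L)) (T (S L L) (S L L)))) (T (V (V (S L L) L) (V L (S L L))) (V (U (S (S L L) L) (T (S L L) (S L L))) (T (S L L) (V L L))))) (T (V (S (U (S L L) (T L L)) (T L L)) (S (T L (S L L)) (T L (S L L)))) (V (S (U (T L L) (T L L)) (T (T L L) (T L L))) (S (T (S L L) (S L L)) (T (S L L) (S L L)))))) (T (U (S (V (T (S L L) (S L L)) (T (S L L) (S L L))) (V (T L (S L L)) (T (S L L) (S L L)))) (S (V (T L (S L L)) (T L (S L L))) (V (T L (S L L)) (T L (S L L))))) (V (S (U (T (S L L) (S L L)) (T (S L L) (S L L))) (U (T (S L L) (S (S L L) L)) (T (S L L) (S L L)))) (S (U (T (S L L) (V L L)) (T (S L L) (S L L))) (U (T (V L L) (S (S L L) (S L L))) (T (S L L) (S L L)))))))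
noncomputable def w8_26 : Tr := (V (T (F 2 (S (V (U (T (S L L) (S L L)) (T (S L L) (S L L))) (U (T (S L L) (S L L)) (T (S L L) (S L L)))) (V (U (T (S L L) (S L L)) (T (S L L) (S L L))) (U (T (S L L) (S L L)) (T (S L L) (S L L)))))) (S (V (U (T (S L L) (S L L)) (T (S L L) (S L L))) (U (T (S L L) (S L L)) (T (S L L) L))) (V (U (T (S (S L L) (S L L)) (S L L)) (T (S L L) (S L L))) (U (T (V (S L L) L) (S L L)) (T (S L L) (S L L)))))) (T (F 2 (S (U (V (T (S L L) (S L L)) (T (S L L) (S L L))) (V (T L L) (T L L))) (V (U (T (S L L) (S L L)) (T (S L L) L)) (U (T (S L L) (S L L)) (T L L))))) (S (V (U (T (S L L) (S L L)) (T L L)) (U (T (S L L) (S L L)) (T L L))) (U (V (T (S L L) (S L L)) (T (S L L) (S L L))) (V (T (S L L) L) (T (S L L) L))))))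
noncomputable def w8_27 : Tr := (V (U (T (F 2 (S (V (T (S L (S L L)) (S L L)) (T (S L L) (S L L))) (V (S (T L L) (V (U L (S L L)) (S L L))) (T (V (S L L) (S L L)) (S L L))))) (S (V (T (S L L) (S (S L L) (S L L))) (T (S (S L L) (S L L)) (S (S L L) (S L L)))) (V (V (S (T L L) (T L (T L L))) (T L (S L L))) (T (T (F 2 (S L L)) (S L L)) (V (S L L) (S L L)))))) (T (F 2 (V (S (U (T L L) (T (S L L) (S L L))) (T (T L L) (T L L))) (S (T (S L L) (S L L)) (T (S L L) (S L L))))) (V (S (U (T L (S L L)) (T L (S L L))) (T (F 2 (T L L)) (U (S L L) L))) (S (T (S L L) (S L L)) (T (S L L) (S L L)))))) (T (F 2 (S (V (U (T (S L L) (S L L)) (T (S L L) (S L L))) (U (T (V L L) (S L L)) (T (S L L) (S L L)))) (V (U (T (S (S L L) (S L L)) (S L (S L L))) (T (S L L) (S L L))) (U (T (S (S L L) (S L L)) (V L L)) (T (S L L) (S L L)))))) (S (V (U (T (S (S L L) (S L L)) (V (S L L) L)) (T (S L L) (S L L))) (U (T (U (S L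 L) L) (V L L)) (T (S L L) (S L L)))) (U (V (T (V (S L L) (S L L)) (V (S L L) (S L L))) (T (U (S L L) (S L L)) (F 32 (S L L)))) (V (T (S L L) (S L L)) (T (S L L) L))))))
noncomputable def w8_28 : Tr := (S (V (U (T (V (S (S L (T L L)) (U (S L L) L)) (S (S L L) (S L L))) (V (S (S (S L L) (T L L)) (U (T L L) (S L L))) (S (S L L) (T L L)))) (T (S (V L L) (V L (S L L))) (S (V (S L L) L) (V (S L L) (S L L))))) (T (S (U (V (S L L) (S L L)) (T L L)) (U (V (S L L) (S L L)) (T L L))) (S (U (V (S L L) (S L L)) (T L L)) (U (V (S L L) (S L L)) (V L L))))) (T (V (S (U (V (S L L) (U (S L L) (S L L))) (V L L)) (U (T (S L L) (V L (S L L))) (V L L))) (U (S (V (S L L) (S L L)) (V (S L L) (S L L))) (S (V L L) (V (S L L) L)))) (V (S (U (V (T L L) (S (S L L) (T L L))) (V (S L L) (S L L))) (U (T (V L (S L L)) (V L (S L L))) (V (S L L) (S L L)))) (U (S (V (T L L) (T L L)) (V (T L L) (T L L))) (S (V L L) (V (T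 L L) L))))))
noncomputable def w8_29 : Tr := (S (V (U (T (F 2 (V (S (S L (T L L)) (U (T L L) (S L L))) (S (S L L) (S L L)))) (V (S (S L (T L L)) (U (T L L) (S L L))) (S (S L L) (T L L)))) (T (F 2 (S (V L L) (V (S L L) (S L L)))) (S (V L L) (T (F 2 (S L L)) (S L L))))) (T (F 2 (S (U (V (S L L) (S L L)) (T L L)) (U (V (S L L) (S L L)) (T L L)))) (S (U (V (S L L) (S L L)) (T L L)) (U (V (S L L) (S L L)) (V L L))))) (T (F 2 (V (S (U (V (T L L) (S L (T L L))) (V (S L L) (S L L))) (U (V (T L L) (U (T L L) (S L L))) (V (S L L) (S L L)))) (U (S (V (S L L) (S L L)) (V (T L L) (S L L))) (S (V L L) (V (T L L) L))))) (V (S (U (V (T L (S L L)) (U (S L L) (S L L))) (V (S L L) (T L L))) (U (T (F 2 (V L (S L L))) (V (S L L) (U (S L L) L))) (V (S L L) (S L L)))) (U (S (V (T L L) (T L L)) (V (T (S L L) L) (T L L))) (S (V (S L L) L) (V (T (S L L) L) (S L L)))))))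
noncomputable def w8_30 : Tr := (U (U (F 1 (S (F 4 (T (V (V (S (T L L) (T L L)) (T (S L L) L)) (S L L)) (V (T (V (F 1 (S L L)) L) L) L))) (T (V (S (F 4 (V (T (S L L) L) (T L L))) (V (F 32 (T L (S L L))) (F 4 (T L L)))) (F 4 (T (S L (V L L)) (S L L)))) (V (S (F 4 (T (V L L) (F 1 (S L L)))) (F 32 (V (T (S L L) (S L L)) (F 4 (T L L))))) (F 4 (T L L)))))) (F 1 (V (S (F 4 (T (V (S (S L L) (S L L)) (T L L)) (S (T L L) (V L L)))) (T (S (F 4 (V (S L L) (S L L))) (V (F 32 (T L L)) (F 4 (S L L)))) (V (F 32 (S (S L L) (T L L))) (F 4 (S L L))))) (F 4 (T (S (V (S L L) (S L L)) (V (S L (S L L)) (T (S L L) (S L L)))) (S (S L L) (T (S L L) (S L L)))))))) (F 1 (S (T (F 4 (V (U (V (S L L) (S L L)) (S L L)) (U (T (S L L) L) (S L L)))) (V (U (F 4 (S L (S L L))) (S L L)) (F 4 (T (S L L) L)))) (V (T (U (V (S (S L L) L) (F 4 (S L L))) (V (S L L) (F 4 (S L L)))) (V (F 32 (U (S L L) (S L L))) (F 4 (U (S L L) L))))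 (F 4 (T (U (T (S L L) (S L L)) (S L L)) (U (V (S L L) L) (S L L))))))))
noncomputable def w8_31 : Tr := (V (F 32 (T (U (V (S (T (S L L) (S L L)) (T (S L L) (V L L))) (S (T (S L L) (S L L)) (T (S L L) (S L (S L L))))) (S (V (T L (S L L)) (T L L)) (V (T L (S L L)) (T L (S L L))))) (U (S (V (T (V L L) (V L L)) (T (V L L) (V (S L L) L))) (V (T (V L (S L L)) (V (S L L) (S L L))) (T (U (S L L) (S L L)) (U (S L L) L)))) (S (V (T (S L L) (S L L)) (T L L)) (V (T (S L L) (S L L)) (T (S L L) (S L L))))))) (T (U (F 4 (V (S (T (S L L) (F 1 (S L L))) (F 1 (T (S L L) (U L L)))) (S (T (S L L) (S L L)) (T (S L L) (T (S L L) L))))) (S (F 4 (T (V L (S L L)) (V L (S L L)))) (F 4 (V (F 1 (T L L)) (T (S L L) (S L L)))))) (U (F 4 (V (F 1 (S (T (S L L) (S L L)) (T (U L L) (V L L)))) (S (T (S L L) (F 1 (S L L))) (F 1 (T (S L L) (F 8 (S L L))))))) (S (F 4 (T (V L (S L L)) (F 1 (V L L)))) (F 32 (T (F 4 (V L L))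 (V (S L L) L)))))))
noncomputable def w8_32 : Tr := (U (S (V (T (S (V (F 32 (U (T (S L L) (S L L)) (T L L))) (F 4 (T (U (S L L) L) (F 1 (U L L))))) (F 32 (U (V (T (S L L) (S L L)) (F 4 (T L L))) (V (T L L) (T L L))))) (F 32 (U (S (V (T (S L L) (S L L)) (F 4 (T L L))) (V (T (S L L) (S L L)) (T L (S L L)))) (S (V (T L L) (F 4 (S L L))) (V (T L L) (T L L)))))) (F 4 (T (U (S (T (V L (S L L)) (V L L)) (T (V (S L L) (S L L)) (V (S L L) (S L L)))) (V (S (S L L) (T L L)) (S (T L L) (T L L)))) (U (V (S (T L L) (F 1 (T (S L L) (S L L)))) (S L (T (S L L) (S L L)))) (S (T (S L L) (S L L)) (V (F 1 (S L L)) (T L L))))))) w8_31) (S (V (T (U (V (F 32 (S (S L L) (S L L))) (S L (S L L))) (V (F 32 (S L L)) (S L L))) (F 32 (U (S (T (S L L) L) (V (S L L) (S L L))) (S (S L L) (S L L))))) (F 4 (T (U (V (S L L) (T L (S L L))) (S L (S L L))) (U (S (T L L) (V L L)) (S L L))))) (V (F 32 (T (U (S (V (S L L) (S L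 L)) (V (S L L) (S L L))) (S (T L L) (T L L))) (U (S (V (S L L) (S L L)) (V (T L L) (S L L))) (S (T L L) (T L L))))) (T (U (S (F 4 (V (S L L) (S L L))) (V (F 32 (S L L)) (F 4 (S L L)))) (S (F 4 (S L L)) (T L L))) (U (V (F 32 (S L (T L L))) (F 4 (S (S L L) (S L L)))) (S (S L L) (F 32 (T L L))))))))
noncomputable def w8_33 : Tr := (T (F 8 (V (S (F 2 (U (V (T (S L L) (S L L)) (T (S L L) (U (S L L) L))) (V (T (S L L) L) (T L L)))) (F 2 (U (V (T (U (S L L) L) (V L (S L L))) (T (U (S L L) L) (U (S L L) L))) (V (T (S L L) (S L L)) (T (S L L) (S L L)))))) (U (S (F 10 (V (T (S L L) L) (F 1 (T L L)))) (F 8 (T (F 8 (V (S L L) (F 8 (S L L)))) (F 9 (V L L))))) (F 2 (V (S (F 4 (T L L)) (T (S L L) (S L L))) (F 5 (S (S L L) (S L L)))))))) (V (F 8 (U (S (T (V (U (S L L) L) (V (S L L) L)) (F 32 (V (S L L) (S L L)))) (V (T (S (S L L) L) (U L L)) (T (U (F 32 (S L L)) L) (F 32 (S L L))))) (V (S (T (S L L) L)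 (T (S L L) L)) (F 32 (S (T L L) (T (S L L) L)))))) (V (F 8 (U (F 32 (S (F 2 (T L L)) (F 2 (T (S L L) (S L L))))) (S (F 8 (T L L)) (F 32 (T (S L L) L))))) (F 5 (U (T (F 8 (S L (S L L))) (F 8 (S L L))) (T (F 8 (S L L)) (S L L)))))))
noncomputable def w8_34 : Tr := (U (S (T (F 10 (V (F 1 (U (S (V (T (S L L) L) (F 4 (T L L))) (V (T (S L L) (S L L)) (T (S L L) (S L L)))) (S (V (T L L) (S L L)) (V (T L L) (T L L))))) (F 8 (U (T (U L (V L L)) (F 16 (U L (S L L)))) (S (V L (S L L)) (F 16 (V (S L L) (S L L)))))))) (F 128 (V (F 8 (U (S (V (T (S L L) (S L L)) (F 8 (T L L))) (V (T (S L L) (S L L)) (T (U (S L L) L) (S L L)))) (S (V (T L L) (T L L)) (V (T (S L L) L) (T L L))))) (F 4 (U (T (F 8 (S L (F 1 (T L L)))) L) (T (F 8 (V (S L L) L)) (F 8 (V (S L L) L)))))))) (F 128 w8_33)) (V (F 136 (S (T (F 16 (U (S (T L L) (V (S L L) L)) (S (S L L) (S L L)))) (U (S (V L L) (V (S L L) (S L L))) (S (S L L) (T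 L L)))) (T (F 16 (U (S (V (S L L) (S L L)) (V (S L L) (S L L))) (S (S L L) (T L L)))) (S (U (V (S L L) (F 1 (S L L))) (T L L)) (F 1 (U (V (S L L) (S L L)) (T L L))))))) (T (F 2 (S (F 24 (U (V (F 16 (S L L)) (S L L)) (S L L))) (U (F 1 (T (F 4 (S L (F 1 (S L L)))) (F 36 (S L (S L L))))) (F 1 (T (F 4 (S L L)) (F 36 (S L L))))))) (S (U (F 144 (T (F 4 (S L L)) (F 1 (S L L)))) (F 128 (S L L))) (F 192 (V (F 4 (U (S (S L L) (S L L)) (S L L))) (F 2 (U (S L (S L L)) (S L L)))))))))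
noncomputable def w8_35 : Tr := (V (F 1040 (S (T (F 320 w8_22) (F 258 (S (F 64 (U (V (T (F 16 (S (U (V (T L L) (S L L)) (V (S L L) L)) (V (U (T (S L L) L) (S L L)) (U (T L L) (S L L))))) (S (U (V (S L L) (S L L)) (T L L)) (V (U (T L L) (S L L)) (U (S L L) (S L L))))) (T (F 16 (U (S (V (S L L) (S L L)) (V (T L L) (S L L))) (S (V L L) (V (S L L) L)))) (U (T (F 16 (S L (S L L))) (S L (S L L))) (S (S L L) (T L L))))) (V (T (F 16 (S (U (T L L) (S L L)) (U (V L L) (S L L)))) (S (V (S L L) L) (U (T L L) (S L L)))) (T (F 16 (U (S (S L L) (S L L)) (S L L))) (U (S L (S L L)) (S L L)))))) (F 64 w8_23)))) (F 259 (U (T (F 2 (S w8_24 w8_25)) (S w8_26 w8_27)) (T (F 2 w8_28) w8_29))))) (T (F 533 (S w8_30 (F 1 w8_32))) (F 512 (S (F 512 (U (F 256 (T (F 80 (S (F 4 (V (U L (S L (F 1 (S L L)))) L)) (V (F 32 (U (S (F 4 (T L L)) (V (T L L) (F 4 (S L L)))) (V (S L (S L L)) (F 4 (S L L))))) (F 4 (U L (T (S L L)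 L)))))) (F 16 (S (F 8 (U L (T L L))) (F 64 (U (V (V (S (S L L) (T L L)) (F 4 (S L L))) L) (V (V (S L (S L L)) (F 4 (S L L))) L))))))) (F 256 (V (F 16 (S (T (F 2 (S (F 8 (S L L)) (F 1 (T L L)))) (F 64 (U (S L L) L))) (F 64 (T (F 16 (U (V (S L L) L) (S L L))) (U (S (S L L) (T L L)) (S L L)))))) (F 8 (T (F 10 (S (U (S L L) L) (U (T L L) L))) (S (F 10 (S L L)) (U (S L L) L)))))))) (F 513 w8_34)))))
noncomputable def w8_36 : Tr := (S (F 1 (U (F 4 (U (S L L) (F 128 (T (S L (S L L)) (S L (S L L)))))) (F 5 (T (S (V (S (S L L) (T (S L L) L)) (K 5)) (V (U (S (T (S L L) (S L L)) (V (T L L) (T L L))) (S (V (T L L) (T L L)) (V (T (S L L) L) (T (S L L) L)))) (T L (S L L)))) (S (S L (T L L)) (V (V (S (T (S L L) (S L L)) (T (S L L) L)) (U L (T (S L L) (S L L)))) (T L L))))))) (F 641 (U (S (U L (T (S L L) (T (K 5) (K 5)))) (K 5)) (V (S (T (V (U (S L L) (S (T (S L L) L) (F 64 (V L L)))) (U (S (S L L) L)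 (S (T (S L L) L) (S L L)))) (V (U L (S L L)) (S (T L L) L))) (T (V L (U L L)) (K 5))) (T (U (S (S L L) (K 5)) (S (V (S (T (S L L) L) (V L L)) (S L L)) (V (S L (K 5)) L))) (S (T (S L L) L) (K 5)))))))
noncomputable def w8_37 : Tr := (T (S (U (V (S (T (S L L) L) (V (T (S L L) L) (T L L))) L) (V (S (V (S L L) (S L L)) (V (T L L) (T L L))) (T L L))) (V (S (V (U (T (S L L) (S L L)) (T (S L L) (S L L))) (U (T (S L L) (S L L)) (T (S L L) (S L L)))) (V (U (T (V (S L L) L) (S L L)) (F 1 (T (S L L) (S L L)))) (U (T (S L L) (S L L)) (T (S L L) (S L L))))) (U (T (U L (T (S L L) L)) (U L (T L L))) (T (S (U L L) (V (S L L) (S L L))) (S (T L L) (V (S L L) (S L L))))))) (S (U (V (T (S L (V L L)) (S L (V L L))) L) (V (S (V (S L L) (S L L)) (V (T L L) (T L L))) (T L L))) (V (S (V (U (T (S L L) (S L L)) (T (S L L) (S L L))) (U (T (S L L) (S L L)) (T (S L L) (S L L)))) (V (U (T (S L L) (S L (S L L))) (F 1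 (T (S L L) (S L L)))) (U (T (S L L) (S (S L L) (S L L))) (T (S L L) (S L L))))) (U (T (U L (T L L)) (U (S L L) (T L (S L L)))) (T (S (T L L) (V (S L L) (S L L))) (S (V L L) (F 64 (V (S L L) (S L L)))))))))
noncomputable def w8_38 : Tr := (S (T (S (V (U (T (S (S L L) L) (S (S L L) L)) (F 1 (T (S L L) (S L L)))) (U (T (S (S L L) (S L L)) (S (S L L) (S L L))) (F 1 (T (S L L) (S L L))))) (F 1 (V (U (T (S (S L L) (T L L)) (S L (T L L))) (T (S L (S L L)) (V (S L L) L))) (U (T (S (S L L) (S L L)) (U L (S L L))) (T (S L (S L L)) (V L L)))))) (U (V (S (T (S (S L L) L) (U L (F 1 (S L L)))) (F 1 (T (S (S L L) L) L))) (S (T (S (S L L) (T L L)) (U L (F 64 (S L L)))) (F 1 (U L (T (S L L) L))))) (F 1 (S (V (T (S L L) (S L L)) (T (S L L) (F 1 (S L L)))) (V (T (S L (S L L)) (F 1 (S L L))) (T (F 1 (S L L)) (F 1 (V L L)))))))) (F 1 (T (U (S (V (U (V L (S L L)) (T (T L L) (T L L))) (U (S L L) (T (S L L) (S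 L L)))) (V (U L (V (S L L) (V L L))) (U L (V L L)))) (V (S (T (V (T L L) (S L L)) (V (T L L) (S L L))) (T (U (V L L) (S L L)) (F 1 (U (T L L) (S L L))))) (S (T (V (S L L) (S L L)) (S (S L L) L)) (T (S (T L L) (F 1 (S L L))) (F 1 (U L (S L L))))))) (F 1 (U (S (V (U L L) (S L L)) (T (V (S L L) L) (K 0))) (V (S (T (V L L) (S L L)) (T (U L (S L L)) L)) (S (T (V L (S L L)) (V L L)) (T (V L L) L))))))))
noncomputable def w8_39 : Tr := (S (U (T (S (V (T (S (S L L) (S L L)) (U (S L L) (S L L))) (U (T L L) (T (S L L) (S L L)))) (V (U (T (S L L) (S L L)) (F 1 (T (S L L) (S L L)))) (T (U (S L L) (F 1 (S L L))) (F 64 (U L L))))) (V (T (S (V (S L L) (F 64 (S L L))) (U L (F 1 (S L L)))) (F 64 (S (U L (S L L)) (S L L)))) (F 64 (U (T L L) (S (T L (S L L)) (F 32 (T L L))))))) (F 1 (T (S (V (T (S L L) (S L L)) (T (S L L) (S L L))) (V (T (V L L) (S L L)) (T (U (S L L) (S L L)) (U (S L L) L)))) (S (V (T (S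 L L) (U L L)) (T (S L L) (F 1 (S L L)))) (F 1 (V (T (S L L) (S L L)) (T (S L L) (S L L)))))))) (F 1 (T (U (V (S (U (S L L) (T (S L L) (S L L))) (V (S L L) L)) (F 1 (S (U L (T (S L L) L)) (V L L)))) (S (V (T (V (S L L) (S L L)) (F 1 (S L L))) (T (U (S L L) L) (U (F 1 (S L L)) L))) (F 1 (V (T (V L L) (V L L)) (T (V L L) (U L L)))))) (U (F 1 (V (T (S L L) L) (T (S L L) L))) (F 1 (V (S (T (U L L) (U L (S L L))) (T (V L L) L)) (S (T (V L (S L L)) (U L (S L L))) (T (V L L) L))))))))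
noncomputable def w8_40 : Tr := (U (T (V (F 8 (U (T (S L L) L) (S (T (S L L) (F 64 (S L L))) (F 65 (V (S (T (S L L) L) (T L L)) (T (S L L) L)))))) (F 5 (T L L))) (F 1 (V (F 16 (U (S L L) (T (V (S (S L L) L) L) (S L (F 32 (S L L)))))) L))) (F 128 (T (S (V (F 8 (T (V (S (S L L) (U L L)) (F 1 (T L L))) (U (F 1 (T L L)) (S L (F 1 (V L L)))))) (F 80 (T L L))) (F 64 (V (F 4 (S (V (T (V L (S L L)) (V (S L L) L)) (T (U (S L L) L) (U (S L L) L))) (V (T (V L (S L L)) (U L (S L L))) (T (U (S L L) (S L L)) (U (S L L) (S L L)))))) (F 2 (T (U L (T L L)) (V (F 8 (S L (S L L))) (T L L))))))) (F 64 (V (F 4 (S (T (S (T L L) (V (S L L) (S L L))) (S (T L L) (V (T L L) (S L L)))) (V (T (S (U (S L L) L) (V L L)) (S (U L (S L L)) (S L L))) (S (T (V (S L L) L) (V (S L L) L)) (T (U L (S L L)) (V L L)))))) (S (F 2 (T L L)) (F 2 (U (T L L) (T (V (F 8 (S L L)) L) (V (F 8 (S L L)) L))))))))))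
noncomputable def w8_41 : Tr := (T (F 64 (S (U (V (T (S L (V (S L L) L)) (S L (V (S L L) L))) (S L L)) (V (S (V (S L L) (S L L)) (V (T L L) (T L L))) (T L L))) (V (S (V (T (U (S L L) (S L L)) (F 1 (U (S L L) (S L L)))) (U (T (V L L) (U L L)) (T (S L L) (F 1 (S L L))))) (U (V (T (S (S L L) L) (U L (F 1 (S L L)))) (T (U (S L L) (F 1 (S L L))) (F 1 (U L (S L L))))) (V (F 64 (T (S L L) (F 32 (S L L)))) (F 1 (T (S L L) (F 1 (S L L))))))) (U (U (F 1 (T L L)) (T (U L (F 1 (T L L))) (F 1 (T L (S L L))))) (F 1 (T (S (T L L) (V (S L L) (S L L))) (S (V L L) (V (S L L) (S L L))))))))) (U (S (V (T (F 64 (S (S L L) (F 1 (V (S L L) L)))) (S (U L L) (F 192 (V (S L L) (S L L))))) (F 128 (S L L))) (F 64 (V (V (S (T (U L L) (F 1 (U L (S L L)))) (F 1 (T (S L L) (S L L)))) (F 1 (T (S (V L L) (V L L)) (S (S L (S L L)) (V L L))))) (F 1 (U (T L L) (T (S L (V (S L L) L)) (S L (V (S L L) L)))))))) (S (V (S (T (F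 64 (S L L)) (F 128 (V L L))) (F 192 (V (T L (S L L)) (T L (S L L))))) (T L (F 128 (S L L)))) (F 192 (V (S (V (T (S L L) (S L L)) (T (S L L) (S L L))) (F 32 (V (T (S L L) (V L L)) (T (S L L) (V L L))))) (S (T (U L (F 32 (S L L))) (V (S L L) (S L L))) (F 32 (V (T (S L L) (T L L)) (T (S L L) (S L L))))))))))
noncomputable def w8_42 : Tr := (V (S (T (U (V (S (T (S L L) L) (F 1 (S L L))) (S (U L (F 1 (T L L))) (F 1 (S L L)))) (F 1 (V (S (T (S L L) (S L L)) (T (S L L) (V L L))) (S (T (S L L) (V L L)) (T (S L L) (V L L)))))) (V (F 1 (U (T (S L (K 4)) L) (S (T (V (S L L) L) (V L (S L L))) (T (S L L) L)))) (U (T (S L L) L) (F 1 (S (T (U L (S L L)) (U L (S L L))) (T (T L L) L)))))) (F 1 (T (U (K 4) (V (S (T (S L L) L) (T L L)) (S (T (S L L) L) (S L L)))) (U (K 4) (V (T L L) (T L L)))))) (S (T (U (V (T (S (V L L) L) (S (T L L) L)) (U (S L L) (S (T (S L L) (S L L)) (F 1 (S L L))))) (F 1 (V (S (T (S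 L L) (T L L)) (T (U L (S L L)) (U L (S L L)))) (S (T (S L L) (S L L)) (T (U (S L L) L) (U L (S L L))))))) (U (U (V (S L (K 1)) L) (F 1 (V (T L L) (T (S L L) (S L L))))) (F 1 (V (S (T (S L (S L L)) (U L (S L L))) (T (V L L) (T L L))) (S (T (V L L) (V (S L L) (S L L))) (T (U L (S L L)) (V L (S L L)))))))) (F 1 (T (U (V L (S L (K 4))) (V (S (T (T L L) L) (S L L)) (S (T (V L L) (S L L)) (T L L)))) (U (T (K 4) (K 4)) (V (T (S L L) L) (T (S L L) L)))))))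
noncomputable def w8_43 : Tr := (T (F 130 (S (S L (F 128 (V (F 4 (U L (T L L))) (K 0)))) (F 128 (U (V (F 4 (U L (T (S L L) (S L L)))) L) (F 64 (V (F 8 (S (T (S (T L L) (V (U (S L L) L) L)) (U (U L (T L L)) (S (T L L) (V L L)))) (V (T (U L (S (S L L) L)) (V L (T L L))) (T (S (U L (S L L)) (S L L)) (U L (S (S L L) L)))))) (S (F 16 (T L L)) (F 16 (U (T L L) (T (V (F 2 (S L L)) L) (V (F 2 (S L L)) (S L L)))))))))))) (F 1 (S (F 4 (S L (F 1 (U (T L L) (S L (F 1 (T L (T L L)))))))) (F 260 (U (U L (F 64 (V (F 8 (T L (S L L))) L))) (F 64 (V (F 8 (U (T (S (U L (T (T L L) (T L L))) (V L L)) (S (S L (V (S L L) L)) (V L L))) (S (T (S (T L L) (V (S L L) L)) (V (S L (S L L)) (F 2 (S L L)))) (V (T (S L L) L) (T (S (S L L) L) (T L (S L L))))))) (U (F 16 (T L (V (F 2 (S L L)) L))) (S (F 16 (T L L)) (F 16 (T (S (T L L) (V L (S L L))) (V (F 2 (S L L)) (S L (S L L))))))))))))))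
noncomputable def w8_44 : Tr := (V (F 16 (S (V (T (S (U (V (S L L) L) (F 64 (S L L))) (F 64 (V (U (S L L) L) (T L L)))) (S (U (V L L) (F 64 (S L L))) (F 64 (V (T L L) (T L L))))) (T (U (S (S L L) (F 64 (T L L))) (F 64 (S L (S L L)))) (U (S L (F 64 (T L L))) (F 64 (V (S L L) L))))) (F 64 (V (T (S (V (U (S L L) (S L L)) (U (S L L) (S L L))) (V (U (T L L) (S L L)) (U (T L L) (S L L)))) (S (V (U (S L L) (S L L)) (U (S L L) (S L L))) (V (U (T L (S L L)) (S L L)) (U (T L L) (S L L))))) (T (S (U (V (S L L) (S L L)) (T L L)) (U (V (T L L) (T L L)) (V (S L L) (S L L)))) (U (S (V (S L L) (S L L)) (T (V L L) (F 32 (V L L)))) (S (T L L) (T (S L L) (F 32 (S L L)))))))))) (T (S (F 1 (T L L)) (F 1 (V (F 8 (U (T (T L L) (T L L)) (V (T L L) (F 8 (S L L))))) (F 4 (T L L))))) (S (F 1 (T L L)) (F 1 (V (F 8 (U (T (T L L) (S L L)) (V (S L L) (F 40 (S L L))))) (F 4 (T L L)))))))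
noncomputable def w8_45 : Tr := (V (U (T (V (S (T (S L (S L L)) (V (S L L) (S L L))) (U (T (S L L) (F 1 (S L L))) (T (V L L) (F 1 (S L L))))) (S (T (V (S L L) L) (S L L)) (T (V (S L L) L) (F 1 (S L L))))) (F 1 (V (S (T (S L L) (S L L)) (U (T (S L L) (S L L)) (T (S L L) (S L L)))) (S (T (S L L) (S L L)) (T (S L L) (S L L)))))) (T (V (S (U (T L L) (V (S L L) L)) (T (U (S L L) L) (F 1 (T L L)))) (S (T (S L L) (S L L)) (T (S L L) (F 1 (S L L))))) (F 1 (V (T (S (U L L) (T L L)) (S (U L L) (T L L))) (S (T (S L L) L) (T (S L L) (S L L))))))) (T (V (S (U (T (S L L) (F 1 (S L L))) (T (S L L) L)) (F 1 (U (T (S L L) (S L L)) (T (S L L) (S L L))))) (F 1 (U (S (T (S L L) (S L L)) (T (S L L) (S L L))) (S (T L L) (T L L))))) (F 1 (V (S (U (T (S L L) (S L L)) (T L L)) (U (T (S L L) (S L L)) (T L (S L L)))) (U (S (T (S L L) (S L L)) (T (S L L) (S L L))) (S (T L L) (T L L)))))))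
noncomputable def w8_46 : Tr := (S (V (T (S (V (U (T (S L L) (S L L)) (T L L)) (U (T (S L L) (S L L)) (T L L))) (V (U (T (S L L) (S L L)) (T (S L L) (S L L))) (U (T (S L L) (S L L)) (T L (S L L))))) (S (V (U (T (S L L) (S L L)) (T L (S L L))) (U (T (S L L) L) (T L L))) (V (T (U (S L L) (S L L)) (F 1 (U (S L L) L))) (F 1 (U (T (S L L) (S L L)) (T L L)))))) (T (S (U (V (T (S L L) (S L L)) (T (S L L) L)) (V (T L L) (S L L))) (U (V (T (S L L) (S L L)) (T (S L L) (F 1 (S L L)))) (V (T L L) (T L L)))) (S (V (T (U (S L L) L) (F 1 (U (S L L) L))) (F 1 (U (T L L) (S L L)))) (F 1 (U (V (T (S L L) (S L L)) (T (S L L) (S L L))) (V (T L L) (T L L))))))) w8_45)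
noncomputable def w8_47 : Tr := (T (V (F 8 (S (S (U (T (V L L) (F 1 (V L L))) (V (T L L) (F 1 (S L L)))) (F 1 (U (V (T (S L L) (S L L)) (T L L)) (V (S L L) (S L L))))) (U (V (S (T (S L L) (F 1 (S L L))) (F 1 (T (S L L) (S L L)))) (F 1 (S (T (S L L) (S L L)) (T (S L L) (S L L))))) (F 1 (S (V (T L L) (T L L)) (V (T L (S L L)) (T L L))))))) (S (F 16 (U (F 1 (T (T L L) (T L L))) (V (F 4 (S L L)) (F 1 (S L L))))) (F 64 (V (F 4 (U (S (F 8 (T L L)) (T (F 8 (S L L)) L)) (S (F 8 (S L L)) (T L L)))) (F 2 (U (T (S L (S L L)) (S L (S L L))) (T (S L L) (S L L)))))))) (V (F 8 (S (U (F 1 (S (V (T L L) (F 8 (S L L))) (V (T (S L L) (S L L)) (T L (S L L))))) (F 1 (S (V (S L L) (S L L)) (V (T L L) (T L L))))) (F 1 (U (V (S (T (S L L) (S L L)) (T (S L L) (S L L))) (T (S (S L L) (S L L)) (S (S L L) (S L L)))) (S (V (T L L) (T L L)) (V (T (S L L) L) (T L L))))))) (F 64 (S (F 2 (U (T (T L L) (T L L)) (T (V L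 L) (V L L)))) (V (T (F 4 (S (F 8 (U L L)) (U L L))) (F 4 (S (F 8 (U L L)) (U L L)))) (F 2 (U (T (S L (S L L)) (S L (S L L))) (T (S L L) (S L L)))))))))
noncomputable def w8_48 : Tr := (S (T (F 64 (V (S (U (V L L) (F 64 (S L L))) (F 64 (V (U (S L L) L) (T (S L L) L)))) (U (S (S L L) (F 64 (T L L))) (F 64 (T (S L L) (F 32 (S L L))))))) (V (S (T (F 64 (V (S L L) L)) (F 129 (V (S L L) L))) (F 193 (U (V (S L L) (S L L)) (V L L)))) (F 128 (U (S (S L L) (F 65 (T L (S L L)))) (F 65 (S L (T L L))))))) (F 65 (V (T (S (V (T (U L L) (F 1 (V L L))) (T (S L L) (F 1 (S L L)))) (V (U (T (S L L) (F 1 (S L L))) (F 1 (S L L))) (F 1 (U (T L (S L L)) (T L L))))) (F 1 (S (V (U (T L (S L L)) (S L L)) (U (T L L) (S L L))) (V (U (T (S L L) (S L L)) (T L (S L L))) (U (T (S L L) (S L L)) (T L L)))))) (F 1 (T (U (S (V (S L L) (S L L)) (V (T L L) (T L L))) (S (T L L) (V (S L L) (S L L)))) (U (S (V (T L L) (T L L))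 (V (T (S L L) (S L L)) (T L L))) (S (V (S L L) (S L L)) (V (T L L) (T L L)))))))))
noncomputable def w8_49 : Tr := (V (T (S (V (U (T (S L L) (S L L)) (T L L)) (U (T (S L L) (S L L)) (T L L))) (V (U (T (S L L) (S L L)) (T (S L L) L)) (U (T (S L L) (S L L)) (T L (S L L))))) (S (V (U (T (S L L) (S L L)) (T (S L L) (S L L))) (U (T (S L L) (S L L)) (T (S L L) (S L L)))) (V (U (T (S L L) (V L L)) (T (S L L) (S L L))) (T (U (S L L) (S L L)) (U (S L L) (S L L)))))) (T (U (V (S (T (S L L) (S L L)) (T (S L L) (S L L))) (S (T L (S L L)) (T (S L L) (S L L)))) (V (S (T L L) (T L (S L L))) (S (T L L) (T L L)))) (U (S (V (T (S L L) (S L L)) (T (S L L) (S L L))) (V (T (S L L) (V L L)) (T (S L L) (S L L)))) (S (V (T L L) (T L L)) (V (T (S L L) (S L L)) (T L (S L L)))))))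
noncomputable def w8_50 : Tr := (V (U (T (V (S (T (S L L) (S L L)) (U (T L L) (T (S L L) (S L L)))) (S (T (S L L) (S L L)) (T (S L L) (S L L)))) (V (S (T (S L L) (S L L)) (V (S L L) L)) (S (T (S L L) (S L L)) (T L L)))) (T (V (T (S (U L L) (T L L)) (S (U L L) L)) (S (T L (S L L)) (T (S L L) L))) (V (T (S (U L L) L) (S (U L L) L)) (S (T (S L L) (S L L)) (T L L))))) (T (V (S (U (T (S L L) (S L L)) (T (S L L) (S L L))) (U (T (S L L) (S L L)) (T (S L L) L))) (S (U (T (S L L) (S L L)) (T L (S L L))) (U (T (S L L) (S L L)) (T L L)))) (U (V (S (T (S L L) (S L L)) (T L L)) (S (T (S L L) (S L L)) (T (S L L) L))) (S (V (T (S L L) (S L L)) (T (S L L) (S L L))) (V (T L L) (T L L))))))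
noncomputable def w8_51 : Tr := (T (V (F 8 (S (U (T (S (V L L) (V (S L L) (S L L))) (S (V L L) (V (S L L) (S L L)))) (V (S (T L L) (T L L)) (T (S L L) (S L L)))) (U (V (S (T (S L L) (S L L)) (T (S L L) (S L L))) (S (T (S L L) (S L L)) (T (S L L) (S L L)))) (S (V (T L L) (T L L)) (V (T L L) (T L L)))))) (S (F 16 (U (T (T L L) (T L (T L L))) (T (V L L) (V L (S L L))))) (V (T (F 8 (S (F 2 (U L L)) (U L L))) (F 8 (S (F 2 (U L L)) (U L L)))) (F 16 (U (T (S L (S L L)) (S (S L L) (S L L))) (T (S L L) (S L L))))))) (V (F 8 (S (U (T (S (V (S L L) L) (V (S L L) (S L L))) (S (V (S L L) L) (V (S L L) (S L L)))) (S (T (V L L) (V L L)) (T (V L L) (V L L)))) (U (S (V (T (S L L) (S L L)) (T (S L L) (S L L))) (V (T (S L L) (S L L)) (T (S L L) (S L L)))) (S (V (T L (S L L)) (T L (S L L))) (V (T L L) (T L L)))))) (S (F 16 (U (T (U L (T L L)) (S L (V L (S L L)))) (T (V (F 2 (S L L)) (S L L)) (V (F 2 (S L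 L)) (S L L))))) (U (F 16 (T (V (F 2 (S L L)) (S (S L L) (S L L))) (S (V (F 2 (S L L)) (U L L)) (V (F 2 (S L L)) (U L L))))) (S (F 16 (T (V L L) (V L L))) (T (F 16 (V L L)) (F 16 (V L L))))))))
noncomputable def w8_52 : Tr := (S (V (U (T (V (S (U L L) (U (S L L) L)) (S (S L L) (S L L))) (V (S (U L L) (U (S L L) L)) (S (S L L) (F 32 (S L L))))) (T (S (T L L) (T (S L L) (S L L))) (S (T L L) (T (S L L) L)))) (T (S (U (V (S L L) L) (S L L)) (U (V (S L L) (S L L)) (T L L))) (F 32 (U (S (V L L) (V (S L L) (S L L))) (S (S L L) (T L L)))))) (T (V (S (U (V (T L L) (S L (T L L))) (V (S L L) L)) (U (T (V (S L L) (U L L)) (F 32 (V L (S L L)))) (V (S L L) L))) (U (S (V (S L L) (F 32 (S L L))) (F 32 (V (S L L) (S L L)))) (V (S L (F 32 (S L L))) (F 32 (S L L))))) (F 32 (V (S (U (T (V L (S L L)) (V L (S L L))) (V L L)) (U (T (V L (S L L)) (V L (S L L))) (V L L))) (U (S (V (S L L) (S L L)) (V (S L L) (S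 L L))) (S (T L L) (V (S L L) L)))))))
noncomputable def w8_53 : Tr := (S (F 256 (V (F 17 (S (V (T (S (T L L) (V L L)) (S (S L L) (T L L))) (T (U (S L L) (S L L)) (S L (T L L)))) (V (U (T (S (T L L) (V L L)) (S (T L L) (V L L))) (T (S (S L L) (V L L)) (S L (V L L)))) (T (S (V (S L L) L) (U (T L L) L)) (S (V (S L L) L) (U (T L L) (S L L))))))) (V (F 17 (S (T (T L L) (S L L)) (T (U (S L (S L L)) (S L L)) (U (S L (F 32 (S L L))) (F 32 (S L L)))))) (F 8 (T (S (S L L) (U (F 64 (S L L)) L)) (F 32 (S L (F 1 (T L L))))))))) (F 384 (V (F 8 w8_52) (T (S (V (F 8 (U (V (S L L) (F 32 (S L L))) (S L (F 32 (S L L))))) (F 1 (U (F 16 (V (F 2 (S L L)) (S L L))) (S L L)))) (F 1 (V (F 8 (U (S (V (S L L) (S L L)) (V (S L L) (S L L))) (S (S L L) (T L L)))) (U (V (F 8 (S L (S L L))) (F 16 (T L L))) (V (S L L) (F 16 (S L L))))))) (F 1 (S (V (F 8 (U (S (T L L) (T L (S L L))) (S L (S L L)))) (U (F 16 (S (S L L)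 (T L L))) (S L L))) (V (F 8 (U (S (V (S L L) (S L L)) (V (S L L) (S L L))) (S (T L L) (T L L)))) (U (V (T (F 8 (S L L)) (F 8 (S L L))) (F 16 (T L L))) (V (S L L) (F 16 (S L L)))))))))))
noncomputable def w8_54 : Tr := (T (S (V (U (V (S (U L L) (U (S L L) L)) (S (S L L) (S L L))) (S (T L L) (T (S L L) (S L L)))) (S (U (V (S L L) (S L L)) (S L L)) (U (V (S L L) (S L L)) (T L L)))) (V (S (U (T (V L (S L L)) (V L (S L L))) (V L L)) (U (T (V L (S L L)) (V L (S L L))) (V L L))) (U (S (V (T L L) (S L L)) (V (S L L) (S L L))) (S (T L L) (V (S L L) L))))) (S (V (U (V (S (S L (T L L)) (U (T L L) L)) (S (S L L) (T L L))) (S (V L L) (V L (S L L)))) (U (S (V (S L L) (S L L)) (V (T L L) (S L L))) (S (T L L) (T L L)))) (V (S (U (T (V L (S L L)) (V L (S L L))) (V L L)) (U (T (S (S L L) L) (V L L)) (T L L))) (U (V (S (T L L) (S L L)) (S (S L L) (S L L))) (S (T L L) (V (S L L) L))))))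
noncomputable def w8_55 : Tr := (S (T (F 32 (V (F 8 (S (S L L) (U (T (S L L) (S L L)) (S L L)))) (F 16 (S L (U (S L L) L))))) (S (F 32 (V (F 8 (T L (S L L))) (F 16 (S L L)))) (F 32 (V (F 8 (U (S (S L L) (T L L)) (S L L))) (F 16 (U (T L L) (S L L))))))) (F 32 (S (V (T (F 8 (U (T (S L (S L L)) (S L (S L L))) (S (S L L) (S L L)))) (F 8 (U (S (T L (S L L)) (T (S L L) (S L L))) (S (S L L) (T L L))))) (T (U (F 16 (T (S L L) (S L L))) (S L (F 16 (S L L)))) (F 16 (U (T (S L L) (V L L)) (T L (S L L)))))) (V (T (F 8 (U (S (T (S L L) (S L L)) (V (S L L) (S L L))) (S (T L L) (T L L)))) (F 8 (U (S (T (S L L) (S L L)) (V (S L L) (S L L))) (S (T L L) (T L L))))) (T (U (V (T (F 8 (S L L)) (S L L)) (F 16 (T L L))) (V (S L L) (F 16 (S L L)))) (U (V (T (F 8 (S L L)) (F 8 (S L L))) (F 16 (T (S L L) (S L L)))) (T (S L L) (S L L))))))))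
noncomputable def w8_56 : Tr := (U (T (F 1284 (S (F 1 w8_44) (F 257 (V (F 8 w8_46) w8_47)))) (F 3072 (S (V (F 144 w8_48) (F 1 (T (F 260 (V (F 4 (S (T L L) (F 1 (U (T (T L L) (T L L)) (V (T L L) (F 2 (S L L))))))) (F 66 (T L L)))) (S (F 261 (T L (S L L))) (F 261 (V (F 4 (U (T (U L (S L L)) (U L (T L L))) (V (S L (S L L)) (F 8 (S L L))))) (F 2 (U L (T L L))))))))) (F 643 (V (F 8 (S w8_49 w8_50)) w8_51))))) (F 257 (T (F 256 w8_53) (F 3 (V (F 18 (S (S (T (V (S (T L L) (V (S L L) (S L L))) (S (S L L) (T L L))) (F 1 (V (S (T L L) (U (T L L) L)) (U (T L L) (S L L))))) (V (T (U (S (T L L) (F 1 (V (S L L) L))) (S (S L L) (F 1 (V L L)))) (F 1 (U (S (V L L) (V (S L L) (S L L))) (S (S L L) (V (S L L) L))))) (F 1 (T (U (S (S L L) (T L L)) (V (S L L) L)) (U (S (T L L) (V (S L L) L)) (S L (S L L))))))) (F 1 w8_54))) (F 128 w8_55))))))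
noncomputable def w8_57 : Tr := (S (F 526123072 (T (F 131112 (U (F 1057 w8_1) (F 16609 w8_6))) (F 397314 (U (F 1024 (V (F 10788 (S (U (K 3) (S (K 3) (T (T L L) (S (K 3) L)))) (T (U (U (K 3) (S (K 3) (F 4 (T (S (K 5) L) L)))) (S (T (F 4 (T L L)) (S L L)) (F 4 (T (V (U (S L L) (S (S L L) (F 128 (T L L)))) (S L L)) (V (U (S L L) (T (S L L) L)) L))))) (U (U (K 3) (S (K 3) (T L L))) (S (T (S L L) (S L L)) (T (V (U (S L L) (F 1 (T L L))) L) (F 1 (U (T L L) (T (S L L) (S L L)))))))))) (K 7))) (S (T (F 5376 (V (F 640 (U (F 1 (S (T L L) (T (F 64 (S L L)) L))) (F 512 (T (F 34 (V (F 1 (S L L)) (F 16 (S L L)))) (F 256 (S L (S L L))))))) (F 81 (U L L)))) (V (F 5397 (S (U L (F 1 (S L L))) (U (T L L) (F 1 (T (S L L) (S L L)))))) (F 16512 (U (K 6) (F 256 (S L L)))))) (F 1040 w8_7)))))) (F 305152259 (T (F 65843 (U (F 17 w8_20) (F 20528 w8_35))) (F 1146897 (U (F 6146 (U (T (F 17 (V (F 32 w8_36) (F 1024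 (S (K 6) (F 640 (T (S L (F 1 (T L L))) (F 1 (S L L)))))))) (F 1 (V (F 288 (S (F 1 (U (F 1 (T (S L L) (S L L))) (F 1 (T (F 64 (V (S (U L (T L L)) (U (T (S L L) L) (V (S (T L L) L) (T L L)))) (S (K 1) L))) (V (S (U L (T L L)) (F 192 (U (S L (K 4)) (V (S L L) (S L L))))) (F 128 (S (K 1) L))))))) (F 641 (S (F 1 (U (T (K 1) (K 1)) (V (T (V (K 1) (S L (K 1))) (K 1)) (T (S L L) L)))) (K 5))))) (F 2050 (S (K 7) (F 772 (U L (T L L)))))))) (F 1 (T (F 2308 (S (F 256 (V (F 8 w8_37) (V (F 8 (T (S L (U L (T L L))) (S (K 5) (U L (T L L))))) (K 1)))) (F 256 (V (F 8 (V w8_38 w8_39)) w8_40)))) (F 1 (V (F 72 (S (F 256 w8_41) (F 259 w8_42))) (F 1 w8_43))))))) (F 55296 w8_56))))))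
noncomputable def w8_58 : Tr := (S (F 6 (T (F 64 (V (U (S (F 1 (V (T (F 32 (S (S L L) L)) (F 4 (S L L))) (F 32 (T (S L L) (S L L))))) (V (F 160 (T (F 32 (S L (S L L))) (S L L))) (F 4 (T (F 66 (S L L)) (S L L))))) (S (F 1 (V (T L L) (F 32 (T L L)))) (V (F 160 (S L L)) (F 4 (S L L))))) (F 4 (U (S (F 66 (V (T (S L L) L) (T (S L L) L))) (F 2 (V (T (F 1 (S L L)) L) (T L L)))) (S (F 66 (V L L)) (F 66 (V L L))))))) (V (F 64 (U (S (V (F 32 (T (F 64 (S L L)) L)) (F 4 (S L L))) (F 128 (V (F 2 (T (S L L) L)) (F 16 (S L L))))) (S (V L L) (F 128 (V L L))))) (F 32 (U (F 4 (T (S (F 64 (S L L)) L) (S L L))) (S L L)))))) (F 6 (V (F 65 (U (T (S (V (F 32 (T (S (F 32 (S L L)) (F 1 (S L L))) (S L L))) (T (F 64 (U L L)) (F 64 (S L L)))) (V (F 32 (T (F 1 (U (S L L) L)) (S L L))) (F 64 (T (V L (S L L)) (F 1 (S L L)))))) (F 32 (S (T (V (S L L) L) (V L L)) (V (U (T (S L L) L) (T L L)) (F 1 (T L L)))))) (T (V (F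 32 (S (U (S L L) L) (F 1 (T (S L L) L)))) (S (F 64 (T L L)) (F 64 (T L L)))) (V (F 32 (S (S L L) (T L L))) (S L L))))) (T (F 98 (U (V (T (S (S L L) (F 32 (S L L))) (F 32 (S L (S L L)))) (T (S (S L L) L) (S L L))) (T (V (S L L) L) (S L L)))) (U (F 96 (T (F 32 (S L (F 1 (S L L)))) (F 96 (S L L)))) (T (F 35 (S L L)) L))))))
noncomputable def w8_59 : Tr := (T (F 768 (U (F 256 w8_58) (F 1792 (S (F 4 (V (T (F 128 (U (V (S L L) L) L)) (U (S L L) L)) (F 32 (T (F 1 (T (F 2 (S L L)) (F 2 (S L L)))) (S L L))))) (T (V (F 260 (U (S (S L L) (F 1 (S L L))) L)) (F 128 (U (F 16 (S L L)) L))) (F 260 (V (F 2 (S (S L L) (F 32 (S L L)))) (F 1 (S L L))))))))) (U (S (F 8 (T (F 16 (V (F 2066 (U (F 2 (T (F 34 (S L L)) (S L L))) (S L L))) (F 160 (U (F 256 (S L L)) L)))) (F 16 (V (U (F 2578 (S L (S L L))) (F 2578 (S L L))) (F 32 (S L L)))))) (F 8712 (T (F 8 (U (F 2 (V (F 34 (S (T (S L L) L) (V (T (S L L) (F 64 (S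 L L))) (F 64 (S L L))))) (S (F 16 (S L L)) (F 1 (T L L))))) (F 2 (V (F 34 (S (T L L) (T L L))) (S L L))))) (F 2 (V (F 2 (U (F 32 (S (T L (S L L)) (F 128 (V (T (F 2 (S L L)) (T L L)) (S L L))))) (F 32 (S (S L L) (F 128 (T L L)))))) (U (S L (F 512 (S L L))) (F 512 (S L L)))))))) (F 520 (T (F 1024 (S (F 72 (V (F 5 (S L L)) L)) (F 1088 (V (F 2 (S L (F 128 (S L L)))) (F 1 (S L L)))))) (F 1 (S (F 530 (T L L)) (F 512 (U (V (F 288 (S L L)) L) (F 1 (S L L))))))))))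
noncomputable def w8_60 : Tr := (T (F 266 (V (U (V (F 1 (S (U (T (S L (S L L)) (S L (S L L))) (T (S L L) L)) (T (U (S (T L L) (S L L)) (S L L)) (U (S (T L L) (S L L)) (S L L))))) (S (T (U (S L L) L) (F 1 (S L (S L L)))) (F 1 (T (U (S L L) L) (U (S L L) L))))) (S (V (F 1 (T L L)) (U (S L L) L)) (T (V (F 1 (S L L)) (S L L)) (V (F 1 (S L L)) (S L L))))) (U (V (S (T (U L L) (S L (S L L))) (T (U (S L L) L) (U (S L L) L))) (F 8 (T (S (S L L) (S L L)) (S L (S L L))))) (S (V (S L L) L) (V (T L L) (F 8 (S L L))))))) (F 256 (V (F 16 (U (F 64 (T (F 16 (S (V (U (S L (S L L)) L) (S L L)) (V (U (S (S L L) (S L L)) (S L L)) (S L (S L L))))) (S (F 16 (V (U (S L L) L) (S L L))) (V (U (T L (S L L)) (S L L)) (S L (S L L)))))) (S (F 2 (T (V L L) (F 1 (S L L)))) (F 64 (V (T (F 16 (S L L)) (S L L)) (T (F 16 (S L L)) L)))))) (U (T (F 80 (S (V (S L L) L) (V (S L (S L L)) L))) (S (F 80 (V L L)) (F 1 (V (F 8 (S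 L L)) L)))) (S (F 64 (V L L)) (V (F 17 (S L L)) (F 72 (S L L))))))))
noncomputable def w8_61 : Tr := (V (F 4 (U (F 1 (S (T (V (S (T L (S L L)) (V L L)) (U (S L (S L L)) (S L L))) (V (S (U (S L L) L) (V (S L L) (S L L))) (U (S L (T L L)) (S L L)))) (V (T (S (V L L) (V L L)) (S (V (S L L) (S L L)) (V (S L L) (S L L)))) (T (U (S (S L L) (S L L)) (S L L)) (U (S (T L L) (S L L)) (S L L)))))) (S (V (F 1 (T (S L L) (S L L))) (T (S L L) (F 1 (S L L)))) (F 1 (V (T (S L L) (S L L)) (T (S L L) (S L L))))))) (U (S (F 4 (T (V (U (V L L) (S L L)) (F 8 (T L L))) (V (U (S L L) L) (S L L)))) (T (F 4 (V (U (V (F 1 (S L L)) (S L L)) L) (U (S L L) L))) (F 4 (V (U (F 1 (S L (S L L))) (F 1 (S L L))) (U (S L L) (S L L)))))) (S (F 4 (V (T (S L L) (F 1 (S L L))) (T L L))) (V (F 68 (U (T L L) L)) (T L L)))))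
noncomputable def w8_62 : Tr := (V (F 16 (S (U (F 64 (T (F 16 (V (S (U (S L L) L) (V L L)) (U (S L (S L L)) (S L L)))) (V (S (T L (S L L)) (V (S L L) (S L L))) (U (S L (T L L)) (S L L))))) (F 64 (V (T (F 16 (S L L)) (S L L)) (T L L)))) (F 64 (U (V (T (F 16 (S (V (S L L) (S L L)) (V (S L L) (S L L)))) (S (U (T L L) L) (U (V L L) L))) (T (F 16 (U (S (T L L) (S L L)) (S L L))) (U (S (V L L) (T L L)) (S L L)))) (V (T (F 16 (S L L)) (S L L)) (T (F 16 (S L L)) (S L L))))))) (U (S (T (F 64 (V (F 4 (U (F 1 (S L L)) L)) (V L (F 8 (S L L))))) (F 1 (V (F 8 (U (S L L) L)) (V (F 8 (S L L)) L)))) (F 1 (T (F 2 (V (F 8 (U (S L L) (S L L))) (V (F 8 (S L L)) (F 5 (S L L))))) (V (F 8 (U (S L L) (S L L))) (F 64 (U (S L L) (S L L))))))) (V (F 17 (S (T (F 2 (S L L)) (S L L)) (U (T L L) (S L L)))) (T (F 65 (S L (S L L))) (F 1 (S L (F 64 (S L L))))))))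
noncomputable def w8_63 : Tr := (T (F 2 (V (F 8 (U (S (V (U (T (S L L) (S L L)) (S L L)) (T (S L L) L)) (T (V (U (S L L) L) (S L L)) (V (U (S L L) L) (S L (S L L))))) (S (T (S L L) (S L L)) (V (T L L) (T L L))))) (U (V (F 8 (S (T L L) (T (S L L) (F 32 (S L L))))) (F 4 (T (S L L) (F 32 (S L L))))) (S (S L L) (T (S L L) L))))) (V (F 2 (U (F 8 (T (S (V (U (S L L) L) L) (V (U (T (S L L) L) (S L L)) (F 32 (S L L)))) (F 32 (S (V (U (S L L) L) (S L L)) (V (U (T (S L L) (S L L)) (S L L)) (S L (S L L))))))) (S (F 8 (T (S L L) (F 32 (S L L)))) (F 1 (T (F 8 (V L L)) (F 8 (V L L))))))) (F 128 (U (S (F 32 (T (S L L) (V L L))) (F 32 (T (V (T L L) L) (V (V L (S L L)) L)))) (S (T L L) (T (F 32 (S L L)) (S L L)))))))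
noncomputable def w8_64 : Tr := (V (F 32 (U (F 8 (S (T (V (S (T L L) (V L L)) (U (V (S L L) L) (S L L))) (V (S (T (S L L) (S L L)) (V L L)) (U (S (S L L) (T L L)) (S L L)))) (V (T (S (V L L) (V L L)) (U (S (S L L) (S L L)) (S L L))) (T (U (T (S L L) (S L L)) (S L L)) (U (S (T L L) (S L L)) (S L L)))))) (S (T (F 8 (V (S L L) L)) (F 8 (V (S L L) (S L L)))) (T (F 8 (V (S L L) (S L L))) (F 8 (V (S L L) (S L L))))))) (U (S (F 32 (T (V (U (F 8 (S L L)) L) (T L (S L L))) (V (U (T L L) L) (S L (S L L))))) (F 32 (T (V (U (F 8 (S L L)) (S L L)) (U (S L L) L)) (V (U (T L (S L L)) L) (U (T L L) L))))) (S (F 32 (V (T L (F 8 (S L L))) (T L L))) (F 32 (V (T (F 8 (S L L)) (F 8 (S L L))) (T L L))))))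
noncomputable def w8_65 : Tr := (S (F 3 w8_63) (F 3 (T (F 2 (V (F 8 (U (S (T (V (S (T L L) (V L L)) (U (S L (S L L)) (S L L))) (V (S (T L L) (F 32 (V L L))) (F 32 (U (S L (S L L)) L)))) (V (T (S (V (S L L) L) (V (S L L) L)) (F 32 (S (V L L) (V (S L L) L)))) (T (U (S (T L L) L) (F 32 (S L L))) (F 32 (U (T (S L L) (S L L)) (S L L)))))) (S (V (T (S L L) (S L L)) (T L L)) (V (T (S L L) (F 32 (S L L))) (F 32 (T (S L L) (S L L))))))) (U (V (S (F 8 (T (S (S L L) (F 32 (S L L))) (F 32 (V (S L L) L)))) (F 1 (T (F 8 (U (S L L) L)) (F 8 (U (S L L) L))))) (F 1 (S (T (V L L) (U (S L L) L)) (T (U (S L L) (S L L)) (U (T L L) L))))) (S (F 1 (V (U (S L L) L) (T L L))) (F 1 (V (U (T L L) (S L L)) (T L L))))))) (F 128 w8_64))))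
noncomputable def w8_66 : Tr := (T (F 768 (U (F 1280 (S w8_60 (F 256 (T (F 64 w8_61) w8_62)))) (S (F 1409 (T (V (F 4 (U (S (S L L) (F 1 (T L L))) (S L L))) (U (V (F 4 (S L L)) (F 8 (S L L))) L)) (V (F 64 (U (F 8 (S (S L L) (S L L))) (F 8 (S L L)))) (U (T (F 4 (S L L)) (S L L)) L)))) (F 1281 (T (F 2 (V (F 17 (U (S (T L (S L L)) (V (S L L) L)) (S L L))) (U (T (F 16 (S L L)) (S L L)) (S L L)))) (F 128 (V (U (F 8 (S (F 2 (T L L)) (V (F 2 (S L L)) L))) (F 40 (S L L))) (U (S (F 32 (S L L)) (T L L)) (F 32 (S L L)))))))))) (F 769 (U w8_65 (F 3 (S (T (U (F 2 (V (F 8 (S L (S L L))) (T L L))) (F 2 (V L L))) (V (F 16 (U (F 32 (S (S L L) (F 32 (S L L)))) (F 32 (S L L)))) (F 128 (U (S L (F 32 (S L L))) L)))) (T (V (F 2 (U (S (F 8 (T L L)) (V (F 8 (S L L)) L)) (F 8 (S L L)))) (F 128 (U (F 32 (S (S L L) (T L L))) (F 32 (S L L))))) (F 128 (V (F 36 (U (S (T L L) (T L L)) (S L L))) (U (S (T L L) (F 32 (T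 L L))) (S L L))))))))))
noncomputable def treeW8 : Tr := (F 0xfffffffffffffff7fffffffffffffffc27b98e623339ce6773 (U (F 8590251010 w8_57) (F 60532228095 (S (F 36864 w8_59) (F 5121 w8_66)))))

theorem pW8 : chkW par treeW8 128 128 384 128 384 128 349525 699051 Lc = true := by decide +kernel

noncomputable def w9_0 : Tr := (V (S (T (V (U (S (S L L) (S L L)) (T L (F 2 (S L L)))) (S (U (S L L) (S L L)) (U (S L L) (F 512 (S L L))))) (U (V (S L L) (S L L)) (F 2 (V (S (T L L) (T L L)) (F 1 (S (S L L) (T L L))))))) (U (T (V (U (S L L) (F 2 (S L L))) (T (S L L) (F 2 (S L L)))) (F 2 (V (S L L) (F 1 (S L L))))) (F 2 (T (V (S (S L L) (F 256 (T L L))) (F 1 (S (S L L) (F 1 (S L L))))) (F 256 (V (V (S L L) (F 128 (S L L))) (F 128 (S (S L L) (S L L))))))))) (F 512 (U (S (T (S (S L L) (T L L)) (F 128 (S (S L L) (S L L)))) (T (U L (S (S L L) L)) (F 128 (U L (F 1 (S L L)))))) (S (T (T (V L L) (F 128 (V L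 L))) (F 128 (V (S (T L L) (T L L)) (U (S L L) (S L (S L L)))))) (F 128 (T (V (S (S L L) (F 1 (S L L))) (S (S L L) (F 1 (S L L)))) (F 1 (V (S (S L L) (S L L)) (U (S L L) (S (S L L) (S L L)))))))))))
noncomputable def w9_1 : Tr := (V (T (S (V (U (T (S L L) (S L L)) (S L (F 1 (S L L)))) (T (U (S L L) (S L L)) (U (S L L) (F 512 (S L L))))) (U (V (T L L) (T L L)) (F 1 (V (T (S L L) (S L L)) (F 1 (T (S L L) (S L L))))))) (U (S (V (U (S L L) (F 1 (S L L))) (U (T L L) (F 1 (S L L)))) (F 1 (V (S L L) (F 257 (S L L))))) (F 1 (S (V (T (S L L) (F 256 (S L L))) (F 1 (T (S L L) (F 1 (S L L))))) (F 256 (V (T (S L L) (V L L)) (F 128 (T (S L L) (S L L))))))))) (F 512 (U (T (S (T (S L L) (U L (S L L))) (U L (F 256 (T L L)))) (S (U (T L L) (F 256 (T (S L L) (F 1 (S L L))))) (F 384 (U L (T L L))))) (T (S (T (V L L) (V (S L L) (S L L))) (F 256 (V (T (S L L) (F 1 (S L L))) (T (S L L) (S L L))))) (F 256 (S (T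 (V (S L L) (S L L)) (F 1 (V (S L L) (S L L)))) (F 1 (V (T (S L L) (S L L)) (T (S L L) (S L (S L L)))))))))))
noncomputable def w9_2 : Tr := (T (F 1 (V w9_1 (F 512 (V (U (S (K 5) (F 256 (T (K 2) L))) (T (S L (F 256 (S L L))) (F 256 (S (S L L) (F 1 (T L (S L L))))))) (K 5))))) (F 1 (U (F 2 (V (V (S (V (F 256 (T L L)) (V L (F 1 (S L L)))) (F 256 (T L L))) (F 1 (U L (F 1 (S (T (S (S L L) (S L L)) (S L (K 2))) L))))) (F 1 (T (F 1 (S L L)) L)))) (F 3 (V (V (V (S (T (S (T L L) (T L L)) (F 1 (S (S L L) (S L L)))) (F 1 (T (U L (T L L)) L))) (F 1 (S (T (T (S L L) (S L L)) (S (S L L) L)) (T (U L (T (S L L) (S L L))) L)))) (F 1 (S (T (V (T (S L L) (S L L)) (T (S L L) (S L (S L L)))) (V (S (S L L) L) (U (S L L) (S L L)))) (V (T (U (T L L) (T (S L L) (S L L))) (S L L)) (T (U (S (S L L) L) (T (S L L) (S L L))) (U L (S L L))))))) (F 1 (S (V (T (T L (S L L)) (S L L)) (K 1)) (V (U (S L L) (T (T L (S L (S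 L L))) (S L L))) L))))))))
noncomputable def w9_3 : Tr := (S (T (V (U (V (S L L) (F 1 (S (T L L) (F 1 (T L L))))) (F 1 (S (T L L) (F 1 (T L (S L L)))))) (F 1 (V (S (T L L) (F 1 (T L L))) (S (T L L) (F 1 (T L L)))))) (F 512 (V (U (V (T (S L L) (F 257 (S L L))) (F 256 (T (S L L) (F 128 (U (S L L) L))))) (F 256 (T (S L (F 128 (S L L))) (F 128 (V (F 64 (S L L)) L))))) (F 256 (V (T (S L L) (F 128 (U (S L L) L))) (U (T (S L L) (F 128 (S L L))) (F 128 (S L L)))))))) (F 513 (T (V (U (V (T (S L L) (S L L)) (U (T (S L L) (S L L)) (T L (S L L)))) (V (F 128 (U (T L (S L L)) (S L L))) (T (S L L) (F 1 (S L L))))) (V (T (S (S L L) (F 1 (T L L))) (F 1 (U (S L L) (S L L)))) (T (U (S L L) (S L L)) (F 1 (U (S L L) (S L L)))))) (F 1 (V (U (V (T (S L L) (S L L)) (U (T (S L L) (V L (S L L))) (T (S L L) (S L L)))) (T (S (V L L) (F 1 (V (T L L) L))) (F 1 (S (V (S L L) L) (V (U L L) L))))) (V (T (U (S L L) (S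 L L)) (U (S L (S L L)) (S L L))) (U (T (S L L) (S L (S L L))) (T (S L L) (S L L)))))))))
noncomputable def w9_4 : Tr := (S (V (T (S (V (U (V L (F 1 (S L L))) (F 1 (S L L))) (F 1 (T (S L L) (S L L)))) (V (U (V (S L L) (F 1 (T L (S L L)))) (F 1 (T L (S L L)))) (F 1 (V (T L (S L L)) (T (S L L) (S L L)))))) (S (V (U (V (S L L) (F 1 (S L (S L L)))) (F 1 (S L (S L L)))) (F 1 (T (V L (S L L)) (V (S L L) (S L L))))) (V (U (V (S L L) (F 1 (U (S L L) (S L L)))) (F 1 (T (S L L) (S L (S L L))))) (F 1 (V (T (S L L) (S L L)) (U (S L L) (S L L))))))) (F 1 (T (S (S L L) (U L (S L L))) (S (U L (S L L)) (V (U (S L L) (T L (S L L))) L))))) (V w9_3 (F 1 (T (S (V (U (S L L) (S (S L L) (F 1 (T L L)))) L) (F 1 (U (T (S L L) (F 128 (S L L))) (V (V (T L L) (F 128 (T L L))) L)))) (F 3 (S (V (U (T L (S L L)) (V (S L L) (S L L))) (S L L)) (U (V (T (U L (S L L)) (V (S L (S L L)) L)) L) (V (V (T (S L L) (S L L)) (T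 (S L L) (S L L))) (S L L)))))))))
noncomputable def w9_5 : Tr := (T (S (V (U (V (T L L) (F 1 (U (S L L) (S L L)))) (F 1 (T (S L L) (F 2 (S L L))))) (F 1 (V (T (S L L) (F 2 (S L L))) (T (S L L) (F 2 (S L L)))))) (F 256 (V (U (V (S (S L L) (F 257 (S L L))) (F 256 (U (S L (F 128 (S L L))) (S L L)))) (F 256 (S (T L (S L L)) (F 128 (T (S L L) (V L L)))))) (F 256 (V (S (U (S L L) L) (F 128 (U (S L L) L))) (U (S (S L L) (F 128 (S L L))) (S L L))))))) (F 257 (S (V (U (V (S (S L L) (S L L)) (U (S (S L L) (T L L)) (S L L))) (V (F 128 (U (S L (S L L)) (S L L))) (T (S L L) (S L L)))) (V (U (S (S L L) (T L L)) (T (S L L) (S L L))) (U (S (S L L) (T L L)) (T L (S L L))))) (F 1 (V (U (V (S (T L L) (T L L)) (U (S (T L L) (T L (S L L))) (S (S L L) (S L L)))) (S (T (S L L) (F 1 (V (S L L) L))) (F 1 (T (V (S L L) L) (V (U L L) L))))) (V (U (S (T L L) (T L (S L L))) (S (T L L) (T L L))) (U (S (T L (S L L))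 (T L (S L L))) (S (T L L) (T L (S L L))))))))))
noncomputable def w9_6 : Tr := (S (V (U (V (F 64 (S (T L (S L L)) (T L (S L L)))) (U (V (S L L) (S (S L L) (S L L))) (S (T L L) (F 64 (T L L))))) (F 64 (S (T (V (V L L) L) (V (U L L) L)) (V (U (T L L) (T L (S L L))) (T L (S L L)))))) (V (U (T (S L (S L L)) (S (S L L) (V L L))) (T (S L L) (F 64 (S L (S L L))))) (U (T (S (S L L) (S L L)) (S (V L L) (U L (S L L)))) (T (S L (S L L)) (F 64 (S L L)))))) (V (F 64 (U (V (U (S (T L L) (T L L)) (S (T L L) (T L L))) (U (V (S L L) (S L (S L L))) (T (S L L) (S L L)))) (V (U (S (T L L) (T L L)) (T (V L (S L L)) (V L (S L L)))) (T (S (S L L) (S L L)) (S (S L L) (V L L)))))) (U (V (T (S (S L L) (F 64 (T L L))) (F 64 (U (S L L) (S L (S L L))))) (T (S (U L L) (U (S L L) L)) (U (S L L) (F 64 (S L (S L L)))))) (F 64 (V (T (S (S L L) (S L L)) (S (T L L) (T L L))) (T (S (S L L) (S L L)) (S (F 4 (S L L)) (F 4 (S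 L L)))))))))
noncomputable def w9_7 : Tr := (T (S (U (V (T (U L L) (V (S L (S L L)) L)) L) (V (V (T (S L L) (S L L)) (T (S L L) (S L L))) (S L L))) (U (V (T (V (S (S L L) (S L L)) (U L L)) (U (S L (V (S L L) L)) (V (S L L) (S L (S L L))))) (S L L)) (V (V (T (S L (S L L)) (S (S L L) (F 64 (S L L)))) (T (S L (S L L)) (S (S L L) (F 64 (S L L))))) (V (T (U L L) (U L (F 64 (S L L)))) (F 4 (S L L)))))) (U (S (V (U (T (S L (S L L)) (F 8 (S L (S L L)))) (V (S (T L L) (T L (S L L))) (S (S L L) (F 8 (T L L))))) (F 8 (S L L))) (V (V (T (S (U (S L L) (S L L)) (V (S L L) L)) (F 8 (U (S L L) (F 1 (S L L))))) (F 8 (U (S L (S L L)) (T (S L L) (F 1 (S L L)))))) (F 12 (U L (S L L))))) (S (V (V (T (S L (S L L)) (F 8 (S (S L L) (F 1 (S L L))))) (S (F 8 (T L (S L L))) (T (S L L) L))) (V (U (S L L) (F 8 (S L L))) L)) (F 64 (V (V (T (S (S L L) (V L L)) (U (F 4 (S L L)) (F 4 (S L L)))) (T (S (S L L) (T L L))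 (F 4 (S (S L L) (T L L))))) (F 4 (V (T (S L (S L L)) (S (S L L) (F 4 (S L L)))) (F 4 (T L L)))))))))
noncomputable def w9_8 : Tr := (V (T (S (V (U (V (T (S L L) (S L L)) (U (T (S L L) (S L L)) (T L (S L L)))) (T (S (V L L) (F 64 (V (S L L) L))) (F 64 (S (V (S L L) L) (V (V L L) L))))) (V (U (T (S L L) (S L L)) (T (S L L) (S L L))) (U (T (S L L) (S L (S L L))) (T (S L L) (S L L))))) (V (U (V (F 64 (T (S L (S L L)) (S L (S L L)))) (U (T (S L (S L L)) (V L (S L L))) (T (S L L) (F 64 (S L L))))) (F 64 (T (S (V (V L L) L) (V (U L L) (S L L))) (V (V (S L L) (U L (S L L))) (S L (S L L)))))) (V (U (T (S L (S L L)) (S (S L L) (T L L))) (T (S L L) (F 64 (S L (S L L))))) (U (T (S (S L L) (S L L)) (S (S L L) (V L L))) (S (T L (S L L)) (F 64 (T L (S L L)))))))) w9_6) w9_7)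
noncomputable def w9_9 : Tr := (U (F 256 (S (T (V (T (S (V (V (U (S L L) (F 1 (S L L))) (F 1 (S (S L L) (S L L)))) (F 3 (U (S L L) (T (S L L) (S L L))))) (F 1 (V (V (S (T L L) (T L L)) (S (T L L) (T L L))) (F 512 (U (T L (S L L)) (T (S L L) (S L L))))))) (V (S (F 1 (V (T (S L L) (S L L)) (T (S L L) (S L L)))) (F 1 (V (T (U L L) (S L (V L L))) (T (U (S L L) L) (U (S L L) L))))) (F 3 (S (U (S L L) (S (S L L) (T L L))) (U (T (S L L) (S L L)) (S (T L L) (T L (F 2 (S L L))))))))) (F 3 (U (K 3) (U (K 3) (V (V (V (T (S (K 3) L) (S L L)) (K 3)) (K 3)) (K 3)))))) (F 1 (V w9_0 (F 512 (V (U (S (K 5) (F 128 (S (K 2) L))) (T (S L (S L L)) (F 128 (S (S L L) (F 1 (S L L)))))) (K 5)))))) w9_2)) (F 2304 (T w9_4 (S (V w9_5 (F 1 (S (T (V (U (S L L) (S L (F 2 (S L L)))) L) (F 2 (U (T (S L L) (F 8 (S L L))) (V (V (T L (F 8 (S L L))) (S L L)) L)))) (F 2 (T (V (U (S L (F 128 (S L L))) (S (V L L) (F 128 (V L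 L)))) (S L L)) (F 128 (U (V (T (S L (S L L)) (F 8 (V (S L (S L L)) L))) L) (V (V (T (S L L) (F 8 (S L L))) (S L (F 8 (S L L)))) (F 8 (S L L)))))))))) (F 769 w9_8)))))
noncomputable def w9_10 : Tr := (V (V (T (U (S (V (F 256 (S L L)) (S L L)) (F 257 (V (U (S L L) (S L L)) (T L L)))) (F 256 (S (S L L) (F 128 (V (S L L) (S L L)))))) (F 257 (U (S (V (T (S L L) (F 64 (S L L))) (S L L)) (F 64 (V (U (T L L) (T L (S L L))) (T (S L L) (S L L))))) (S (V (S L L) (S L L)) (F 64 (V (T L L) (T L L))))))) (T (S (U (V (S L L) (S L L)) (F 256 (S L L))) (F 1 (U (T (V L L) (F 128 (V L L))) (F 1 (T (S L L) (F 1 (S L L))))))) (F 1 (S (U (V (S L L) (F 128 (S L L))) (F 129 (V L L))) (F 128 (V (F 64 (T (U L L) (U (S L L) L))) (T (F 64 (U L L)) (F 64 (U (S L L) L))))))))) (T (S (V (T (S L L) (F 1 (S L L))) (T L L)) (F 3 (V (U (V (S L L) (S L L)) (F 1 (T L L))) (U (T L L) (F 1 (S L L)))))) (F 3 (V (S (U (V (S L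 L) (S L L)) (F 1 (S L L))) (U (T (V L L) (F 1 (V L L))) (F 1 (V (S L L) (S L L))))) (S (U L (F 1 (S L L))) (U (T (S L L) (F 1 (S L L))) (F 1 (V (S L L) L))))))))
noncomputable def w9_11 : Tr := (V (F 1 (U (T (S (V (U (S L L) (T L (S L L))) (T L (S L L))) (V (U (T (S L L) (S L L)) (T (S L L) (S L L))) (T (S L L) (S L L)))) (S (V (U (S (S L L) (S L L)) (T (S L L) (S L L))) (T (S L L) (S L L))) (V (U (T (S L L) (S L L)) (S (T L L) (T L (S L L)))) (T (S L (S L L)) (S (S L L) (S L L)))))) (T (S (V (S L L) (S L L)) (V (S (S L L) (T L L)) (T (S L L) (S L L)))) (S (V (T (S L L) (S L L)) (T (S L L) (S L L))) (V (S (T L L) (T L L)) (T (S L L) (S L L))))))) (T (S (V (F 1 (U (T L (S L L)) (S L L))) (U (T L L) (F 1 (S L L)))) (F 1 (V (U (T (S L L) (S L L)) (T (S L L) (S L L))) (U (T (S L L) (S L L)) (T L (S L L)))))) (F 1 (S (V (U (T (S L L) (S L L)) (T (S L L) (S L L))) (U (S (T L L) (T L L)) (T (S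 L L) (S L L)))) (V (U (T (S L (S L L)) (S (S L L) (S L L))) (T (S L L) (S L L))) (T (U (S L (S L L)) (S L L)) (F 8 (U (S L L) (S L L)))))))))
noncomputable def w9_12 : Tr := (S (F 4 (S (V (T (S (T L L) (F 2 (V L L))) (F 2 (U (V (S L L) (S L L)) (F 1 (V (S L L) L))))) (F 2 (T (U L L) (F 8 (U (S L L) (F 64 (S L L))))))) (F 2 (V (T (U (V (S L L) (S L L)) (F 1 (S L L))) (F 128 (U (T (S L L) (F 72 (V L L))) (F 64 (V (S L L) (S L L)))))) (T (U (S L L) (F 1 (S L L))) (F 136 (U (S L (F 32 (S L L))) (F 32 (V L L))))))))) (F 772 (V (T (S (U (V (S L L) (S L L)) (F 64 (V (S L L) (S L L)))) (F 64 (U (V (T (S L L) (S L L)) (T (S L L) (S L L))) (V (T L (S L L)) (T L (S L L)))))) (F 64 (S (U (V (T (S L L) (F 4 (S L L))) (S (F 4 (S L L)) (F 4 (S L L)))) (V (T L L) (S L L))) (V (U (T (S L (S L L)) (F 4 (S L (S L L)))) (T (S L L) (F 4 (S L L)))) (F 4 (U (T (S L L) (S L L)) (T (S L L) (S L L)))))))) (T (S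 (U (T L (F 64 (S L L))) (F 64 (V L L))) (F 64 (U (V (T (S L L) (S L L)) (F 8 (U L (S L L)))) (V (T L L) (F 8 (S L L)))))) (F 72 (S (U (V (S L (S L L)) (F 4 (S L L))) (V (S L L) L)) (U (V (T (S L L) (S L (S L L))) (F 4 (T (S L L) (S L L)))) (V (T L (S L L)) (F 4 (S L L))))))))))
noncomputable def w9_13 : Tr := (T (F 4 (S (V (V (S (U (T (S L L) (V (F 256 (S L L)) L)) (F 256 (T L L))) (U (T (V (F 256 (S L L)) L) (V (F 256 (S L L)) (S L L))) (F 256 (T (S L L) (S L L))))) (T (S (T L L) (T (S L L) (S L L))) (S (V (S L L) (S L L)) (U (T L (S L L)) (F 256 (S L L)))))) (T (S (V (S L L) L) (V (T L (S L L)) L)) (S (V (S L (S L L)) L) (V (T (S L L) (F 2 (S L L))) (S L L))))) w9_10)) (V (F 4 (S (V (S (U (T (V (F 256 (S L L)) (S L L)) (F 258 (V (U (S L L) (S L L)) (S L L)))) (F 256 (T (T L L) (F 64 (V (S L L) (S L L)))))) (F 258 (U (T (V (T (S L L) (F 64 (S L L))) (S L L)) (F 64 (V (U (S L L) (S L (S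 L L))) (S L (S L L))))) (T (V (S L L) (S L L)) (F 64 (V (S L L) (S L L))))))) (S (T (U (V (S L L) (S L L)) (F 256 (S L L))) (F 2 (U (V (S L L) (S L (S L L))) (F 1 (V (S L L) (S L L)))))) (F 2 (T (U (V (S L L) (S L L)) (F 1 (V L L))) (F 128 (V (F 64 (U (S L (S L L)) (S L L))) (U (S L (F 64 (S L L))) (F 64 (S L L))))))))) (F 3 w9_11))) w9_12))
noncomputable def w9_14 : Tr := (V (F 2 (T (S (V (U (T (S L L) (S L L)) (T L L)) (U (V (S L L) L) (V (S L L) L))) (V (U (T (S L (S L L)) (V L (S L L))) (V (S L L) (S L L))) (U (V (S L L) (S L L)) (V (S L L) L)))) (S (V (U (S (T L (S L L)) (V (S L L) (T L L))) (V (S L L) (S L L))) (U (V (S L L) (S L L)) (V (S L L) L))) (V (U (V (T (S L L) (S L L)) (U (T (S L L) (S L L)) (S L L))) (V (S L L) (S L L))) (U (V (T L (S L L)) (T L L)) (V (U (S L L) L) (S L L))))))) (V (F 2 (T (S (U (V L L) (S L L)) (U (V (S L L) (S L L)) (T L L))) (S (V (U (S L L) L) (F 8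 (U L L))) (V (U (T L L) (S L L)) (F 8 (U (S L L) L)))))) (T (F 2 (S (U (S L L) L) (U (V (S L L) (S L L)) (S L L)))) (F 8 (S (F 16 (U (V L L) (S L L))) (U (V (F 16 (S L L)) (F 4 (S L L))) (V L L)))))))
noncomputable def w9_15 : Tr := (T (F 18 (S (V (T (S (V L (S L L)) (V (S L L) (U L L))) (S (V (S L L) (U L L)) (V (T L (S L L)) (U L L)))) (T (S (S L L) (V L L)) (V (S L (S L L)) (S L L)))) (V (T (S (V (T L L) (U (S L L) (S L L))) (F 1 (V (T (U (S L L) L) (F 64 (U (S L L) L))) (U (T L L) (T L L))))) (F 1 (S (V (U (S L L) L) (F 64 (U (S L L) (S L L)))) (F 64 (V (U (V (S L L) (T L (S L L))) (V L L)) (U (V (S L L) (S L L)) (V (S L L) L))))))) (T (V (S (S L L) (F 3 (V (S L L) L))) (F 1 (S L (F 64 (T L L))))) (F 3 (V (S (T L L) (U (T L L) (S L L))) (S (S L L) (U (S L L) L)))))))) (F 16 (S (F 128 (V (S (T (V (S L L) (U (S L L) (S L L))) (F 64 (V (U (T L (S L L)) (S L L)) (U (V L L) (S L L)))))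 (F 64 (T (V (T (S L L) (F 1 (S L L))) (U (S L L) (S L L))) (F 1 (V (U (T (S L L) (S L L)) (V L L)) (U (V (S L L) (S L L)) (V (S L L) L))))))) (V (S (T (S L L) (F 64 (V (S L L) L))) (F 64 (T (S L L) (F 1 (U (T L L) (S L L)))))) (F 64 (S (T L (F 16 (S L L))) (T (S L L) (F 17 (V L L)))))))) (F 3 w9_14))))
noncomputable def w9_16 : Tr := (S (V (U (V (T (T (F 128 (S L L)) (F 137 (S L L))) (F 137 (S L L))) (T (U (S (F 8 (T L L)) (F 136 (S L L))) (S (F 8 (S L L)) (F 136 (S L L)))) (F 137 (U L (S L L))))) (F 1 (T (T (S (S (F 16 (S L L)) (F 17 (S L L))) (F 1 (V (T L L) L))) (F 17 (S (V (V L L) L) (V (V L L) L)))) (F 17 (V (U (S (S L L) L) (S (T L (S L L)) (T L (S L L)))) (S (T L (S L L)) (T (S L L) L))))))) (F 8 (T (V (U (S (T L (F 1 (S L L))) (F 1 (T L (S L L)))) (T (S L L) (F 65 (S L L)))) (U (S (T L L) (F 1 (T L (S L L)))) (S (T L L) (F 1 (T L (S L L)))))) (F 1 (U (V (S (S L L) L) (S (V L L)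 (S L L))) (F 1 (V (S (T L (S L L)) (U L (S L L))) (S (T L (S L L)) (U (S L L) (S L L)))))))))) (F 128 (V (U (V (F 64 (T (S (T L L) (S L L)) L)) (U (T (S (S L L) L) (K 4)) (F 64 (T (T (S L L) L) L)))) (F 64 (T (T (S (V (U L L) L) (V (U L (S L L)) (S L L))) (F 4 (S (V (U L L) L) (V (U L (S L L)) (S L L))))) (F 4 (V (U (S L L) (V (S L L) (S (S L L) L))) (S (V L L) (S L L))))))) (F 8 (U (V (T (S (V L L) (V L L)) L) (T (S (T (S L L) (S L L)) (V L L)) (S L L))) (T (V (F 1 (S (T L (S L L)) (T L (S L L)))) (S (T L L) (F 1 (T L (S L L))))) (F 1 (V (S (V L (S L L)) (V L L)) (S (T (S L L) L) (V L L))))))))))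
noncomputable def w9_17 : Tr := (U (S (F 4 (T (V (S (T (S L L) (F 1 (V L L))) (F 1 (U (S L L) (V (S L L) L)))) (S L L)) (F 1 (V (U (S L L) (V (S (S L L) L) (T (S L L) (F 1 (S L L))))) (F 8 (S L L)))))) (F 128 (U (F 16 (V (T (S L L) (S L L)) L)) (T (F 16 (V (V (S (T L L) (T L L)) (S (S L L) (T L L))) L)) (F 80 (V (V L (S L L)) L)))))) (S (F 4 (T (V (V (S (T L L) (F 1 (T L (S L L)))) (S (T L L) (F 1 (T L L)))) (S L L)) (F 65 (V (V (S (T L (S L L)) (T L (S L L))) (S (T L L) (T L (S L L)))) (V (S (T L L) (T L L)) (F 4 (S L L))))))) (F 128 (T (F 16 (V (V (T (S L (S L L)) (F 1 (S L (S L L)))) (T (S L (S L L)) (F 1 (S L (S L L))))) (V (S (T L L) (F 1 (T L L))) L))) (F 64 (V (F 2 (V (S (U L (T L L)) (T (S L L) L)) (S (T (S L L) (S L L)) (U L (T L L))))) (S (F 2 (U L (T L (F 4 (S L L))))) (F 8 (V (F 8 (T L L)) (T L L))))))))))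
noncomputable def w9_18 : Tr := (V (F 64 (U (V (S (T (T (S (S L L) (S L L)) L) L) (U L (T (S L L) L))) (S (T (U (S L L) (S L L)) (K 1)) (T (U (S L L) (S L L)) (K 1)))) (S (T (T (S (V (U L (S L L)) (S L L)) (V (U L (S L L)) (S L L))) (F 4 (S (V (U L L) (S L L)) (V (U L (S L L)) (S L L))))) (F 4 (V (U L (V L (S L L))) (S (S L L) L)))) (T (T (V (U (S (S L L) (S L L)) (V (S L L) (S L L))) (S (F 4 (S L L)) (F 4 (S L L)))) (F 4 (V (U (S L L) (V L (S L L))) (S (S L L) (S L L))))) (F 4 (V (U L (V L (S L L))) (S L L))))))) (S (F 8 (U (T (V (S (S L L) L) (T (S (S L L) L) L)) (K 2)) (F 1 (V (T (T (S L (S L L)) (S (S L L) (S L L))) (S (S L L) L)) (T (S (T (S L L) (S L L)) (T (S L L) (S L L))) (S (S L L) L)))))) (F 64 (U (T (V (S (S L L) L) (F 4 (S L L))) (K 1)) (F 4 (V (T (T (S (S L L) (S L L)) (U L (S L L))) (S L L)) (T (T (S (S L L) (S L L)) (U L (S L L))) (S L L))))))))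
noncomputable def w9_19 : Tr := (U (F 16 (S (V (F 16 (T (U (S L (S L L)) (V (S (S L L) L) (S (T L L) L))) (F 1 (V L L)))) (F 4 (T (F 4 (S L L)) L))) (F 64 (V (F 2 (T (V (S L L) (S (S L L) L)) (K 3))) (F 8 (S L (S L L))))))) (F 1 (V (F 32 (S (F 4 (T (V (S (T (S L L) (S L L)) (T (S L L) (S L L))) (S (T L (S L L)) (T (S L L) (S L L)))) (V (S (V L L) L) (U (S L L) (S (S L L) L))))) (F 4 (T (V (U (S (S L L) (S L L)) (T (S L L) (S L L))) (T (S (S L L) (V L L)) (U (S L L) (S L L)))) (V (S L L) (S L L)))))) (F 8 (S (T (F 2 (U (F 4 (S L (S L L))) (V (T (S L L) (F 4 (S L L))) (F 4 (S L L))))) (F 8 (V (F 8 (U (S L L) (S (S L L) L))) (U L (S (S L L) (S L L)))))) (F 8 (T (V (F 8 (T (S L (S L L)) (S (S L L) (S L L)))) (U (T L (S L L)) (S (S L L) (T L L)))) (V (S (S L L) L) (U L (S (S L L) L))))))))))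
noncomputable def w9_20 : Tr := (S (F 5 (V (F 64 (T w9_16 (F 137 (V (U (K 3) (T (S (V (U L (S L L)) (S L L)) (V (S L L) L)) (K 3))) (S (U (V L L) (V (S (S L L) L) (S (V L L) L))) (U (K 3) (V L (S L L)))))))) (F 16 (T w9_17 (F 128 (U (S (F 64 (V (F 2 (V L (S L L))) (F 8 (S L L)))) (F 64 (V (S L (K 2)) L))) (F 64 (V (S (F 2 (T (V (S (V L (S L L)) (S L L)) (S (U L (S L L)) (U L (S L L)))) (V L (S L L)))) (T (F 2 (V (S L L) (S L L))) L)) (F 8 (S (U (S (U L (T (F 8 (S L L)) (S L L))) (V (S L L) L)) (T (V (F 8 (S (S L L) (S L L))) (S L (S L L))) (S (V L (S L L)) (U L (S L L))))) (T (U (S L L) (V (S L L) (S (S L L) L))) (S (S L L) L)))))))))))) (F 1025 (V (F 32 (T (F 2 w9_18) (F 17 (U (K 3) (T (V (S (F 32 (S L L)) (S L L)) (F 32 (S (S L (K 1)) (K 1)))) (K 3)))))) (T (F 128 w9_19) (F 264 (V (T (F 1 (U (K 3) (S (F 16 (S L L)) L))) (K 3)) (F 16 (U (S L (K 2)) (S (F 32 (T (V L (S L L)) L)) (V L (F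 32 (S L L))))))))))))
noncomputable def w9_21 : Tr := (V (U (S (T (F 64 (V (S (F 8 (U L L)) (U (S L L) (S L L))) (F 8 (S L (S L L))))) (F 68 (V (U (S (S L L) (S L L)) (S (T L L) (T L L))) (S (T L L) (T L L))))) (F 64 (T (V (U (T (S L L) (F 8 (S L L))) (T (S L L) (F 8 (S L L)))) (S (F 8 (T L L)) (F 8 (T L L)))) (F 8 (V (U (S (S L L) (S L L)) (S (T L L) (T L L))) (S (T L (S L L)) (T L L))))))) (F 64 (S (T (V (S L L) (F 8 (S L L))) (F 8 (V (S (S L L) (S L L)) (S (S L L) (T L L))))) (T (V (T (S L L) (F 8 (S L L))) (S (F 8 (S L L)) (F 8 (S L L)))) (F 8 (V (S (T L L) (T L L)) (S (T L L) (T L L)))))))) (S (F 4 (T (U (V (S (S L L) (F 1 (S L L))) (S (S L L) (F 1 (S L L)))) (F 1 (V (S L L) (S L L)))) (F 1 (V (U (S (T L (S L L)) (T L (S L L))) (S (S L L) (S L L))) (U (S (T L L) (T L (S L L))) (S (S L L) (S L L))))))) (F 68 (T (V (U (S (T L L) (T L L)) (T (S L L) (S L L))) (U (S (S L L) (T L L)) (S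 (S L L) (S L L)))) (V (U (S (T L (S L L)) (T L L)) (S (T L L) (S L L))) (U (S (T L (S L L)) (T L (S L L))) (S (T L L) (S L L))))))))
noncomputable def w9_22 : Tr := (V (U (S (V (T (U (S (S L L) L) (S (T L L) (T L L))) (U L (S L L))) (T (S (T (S L L) L) (T L L)) (S L L))) (V (T (U (S L L) (S (T L L) (S L L))) L) (S (V L L) (S L L)))) (S (T (V (S (S L L) (S L L)) (S (T L L) (T L L))) (V (S (S L L) L) (S (S L L) L))) (T (V (S (S L L) (S L L)) (S (S L L) (S L L))) (V (S L L) (S L L))))) (S (T (V (U (S (T (S L L) L) (T (S L L) L)) (S (T L L) (S L L))) (U (S (T (S L L) (S L L)) (T (S L L) L)) (S (S L L) (S L L)))) (U (V (S L L) (S L L)) (V (S (S L L) L) (S (S L L) (S L L))))) (T (U (V (S (T L L) L) (S (T (S L L) L) (S L L))) (V (S (S L L) (S L L)) (S (S L L) (S L L)))) (U (S L L) (V (S L L) (S L L))))))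
noncomputable def w9_23 : Tr := (T (F 1 (U (S (T (V (U (T (S L L) (F 8 (S L L))) (T (S L L) (F 8 (S L L)))) (S (F 8 (T L L)) (F 8 (T L L)))) (F 8 (V (U (S (S L L) (S L L)) (S (T L L) (T L L))) (S (T (S L L) L) (T (S L L) L))))) (T (V (U (T (S L (S L L)) (F 8 (S L L))) (T (V (S L L) L) (F 8 (S L L)))) (F 8 (T (S L (S L L)) (S (S L L) (S L L))))) (F 8 (V (U (T (S L L) (S L L)) (V (S L L) (S L L))) (T (S L (S L L)) (S L L)))))) (T (S (V (T (S L L) (F 8 (S L L))) (S (F 8 (S L L)) (F 8 (T L L)))) (V (T (S L (S L L)) (F 8 (S L L))) (F 8 (T (S L L) (S L L))))) (F 8 (S (V (S (T L L) (T L L)) (S (T L L) (T L L))) (V (S (T L L) (T L L)) (T (S L L) (S L L)))))))) (F 8 (U (S (F 32 (T (V (U L (S (S L L) L)) (S L L)) L)) (T (V (S (F 32 (S L L)) L) L) L)) (S (F 32 (V (T (S (S L L) (S L L)) (S L L)) (T (S (S L L) L) L))) (T (F 32 (V (S L (U L L)) (S L L))) (V (U L L) L))))))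
noncomputable def w9_24 : Tr := (S (F 10 (T (F 128 w9_21) (F 145 w9_22))) (F 513 (V (F 32 w9_23) (T (F 160 (S (F 4 (T (V (U (S (T L L) (T L (S L L))) (T (S L L) (S L L))) (U (S (T L L) (T L L)) (T (S L L) (S L L)))) (V (U (S (T L L) (T L L)) (S (T L L) (T L L))) (U (S (T (S L L) L) (T L L)) (S (T L L) (S L L)))))) (F 4 (T (V (U (T (S L (S L L)) (S (S L L) (S L L))) (T (S L L) (S L L))) (U (T (S L (S L L)) (S (S L L) (S L L))) (T (S L L) (S L L)))) (V (U (T (S L L) (S L L)) (T (S L L) (S L L))) (U (T (S L L) (S L L)) (T (S L L) (S L L)))))))) (F 8 (S (F 5 (U (T (V (S L L) (S L L)) L) (T (V (S (S L L) L) (S (S L L) L)) (V L L)))) (T (F 5 (U (V L L) (V (S L L) (S L L)))) (F 4 (V L L)))))))))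
noncomputable def w9_25 : Tr := (T (F 64 (S (F 8 (T (V (U (S (S L L) (T L (S L L))) (V L L)) (U (V (S L L) (S L L)) (V (S L L) L))) (V (U (S (V L (T L L)) (V L (T L L))) (V (S L L) (S L L))) (U (V (S L L) (S L L)) (V (S L L) (S L L)))))) (V (T (S (F 8 (U (T L (S L L)) (S L L))) (U (V (S L L) (F 8 (T L L))) (F 8 (S L L)))) (F 8 (U (S (V (S L L) (T L L)) (V (S L L) (T L L))) (V (S L L) (S L L))))) (F 8 (U (T (V (S L L) (S L L)) (V (S L L) (S L L))) (T (V (S L L) L) (V (S L L) (S L L)))))))) (F 68 (S (V (T (U (S (V (S L L) (T L L)) (V L (T L L))) (V (S L L) (S L L))) (U (V (S L L) (U (S L L) L)) (V L L))) (U (T (V (S (S L L) L) (S L L)) (V (S L L) (S L L))) (T (V (S L L) (S L L)) (V (S L L) L)))) (V (T (U (V (S L L) (U (S L L) L)) (V (S L L) (S L L))) (U (S (T L L) (S L L)) (S L L))) (U (T (V (S L L) (S L L)) (V (S L L) L)) (T (V (S L L) (S L L)) (V L L)))))))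
noncomputable def w9_26 : Tr := (T (F 5 (V (T (S (U (V (T (S L L) (F 8 (S L L))) (F 8 (U (S L (S L L)) (S L L)))) (V (S L L) (F 8 (S L L)))) (U (V (T (S L L) (F 8 (S L L))) (F 8 (U (S (S L L) (S L L)) (S L L)))) (V (S L L) (F 8 (S L L))))) (F 8 (S (U (S (V (S L L) (T L L)) (V L (T L L))) (V (S L L) (S L L))) (U (V (S (S L L) L) (U (S L L) (S L L))) (V (S L L) (S L L)))))) (F 8 (U (T (S (V (S L L) (S L L)) (V (T L (S L L)) (T L L))) (S (V (S L L) (T L L)) (V (S L L) (S L L)))) (T (S (V (S L L) (S L L)) (V (T (S L L) L) (S L L))) (S (V (S L L) (S L L)) (V (S L L) L))))))) (F 16 (S (F 80 (V (T (U (V (S L L) (U (S L L) L)) (V L L)) (U (S (S L L) L) (S L L))) (U (T (V (S L L) (S L L)) (S L L)) (T (V (S L L) L) (S L L))))) (T (F 80 (V (U (V (S L L) (U (S L L) L)) (V L L)) (U (V L L) (V L L)))) (V (F 16 (U (V L (S L L)) (S L L))) (U (T L L) (S L L)))))))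
noncomputable def w9_27 : Tr := (S (F 5 (V (T (U (V (S (S L L) (F 1 (S L L))) (S L L)) (F 1 (V (S L L) (S L L)))) (F 1 (U (V (S (T L L) (T L L)) (S (S L L) (T L L))) (V (S (S L L) (S L L)) (S L (S L L)))))) (T (U (V (S L L) L) (F 1 (V (S L L) L))) (F 1 (V (U (S (S L L) (S L L)) (S L L)) (F 4 (U (S L L) (S L L)))))))) (F 129 (V (F 16 (T (U (V (S (S L L) (T L L)) (S (S L L) (T L L))) (V (S L (S L L)) (S L (S L L)))) (U (V (S (T L L) (T L (S L L))) (S (T L L) (T L L))) (V (S (S L L) (S L L)) (S (S L L) (S L L)))))) (T (F 16 (V (U (S (S L L) (S L L)) (S L L)) (F 4 (U (S L L) (S L L))))) (V (F 16 (U (S (T L L) (T L L)) (S (S L L) (S L L)))) (F 4 (U (S (F 2 (S L L)) (T L L)) (S L (S L L)))))))))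
noncomputable def w9_28 : Tr := (V (S (F 16 (U (T (V (S (T (S L L) (S L L)) (T (S L L) L)) (S (T L (S L L)) (T L L))) (V (S (T L L) L) (S (T L L) (S L L)))) (T (V (S (S L L) (S L L)) (S (S L L) (S L L))) (V (S (S L L) (S L L)) (S (S L L) (S L L)))))) (T (F 16 (U (V (S (T L L) (T L L)) (S (T L L) (T L L))) (V (S (S L L) (S L L)) (S (S L L) (S L L))))) (U (V L (S L L)) (V (F 16 (S L L)) (S L (S L L)))))) (S (T (V (F 16 (U (S (T L L) (T L L)) (S (S L L) (S L L)))) (F 4 (U (S (F 2 (S L L)) (T L L)) (S L (S L L))))) (U (F 4 (V (S (F 2 (S L L)) (T L L)) (S (U (S L L) L) (U (S L L) L)))) (V (S (F 16 (S L L)) (F 4 (S L L))) (F 4 (S (S L L) (S L L)))))) (U (T (F 4 (V (S (F 2 (S L L)) (T L L)) (S (T L L) (T L L)))) (F 4 (V (S (S L L) L) (S (S L L) (S L L))))) (T (V (S (F 16 (S L L)) (T L L)) (F 4 (S (S L L) (S L L)))) (F 4 (V (S L L) (S L (S L L))))))))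
noncomputable def w9_29 : Tr := (V (S (F 16 (T (U (V (S (T L L) (T L (S L L))) (S (T L L) (T L (S L L)))) (V (S (S L L) (T L L)) (T (S L L) (S L L)))) (U (V (T (S L L) (S L L)) (S (T (S L L) L) (T L L))) (V (S (T L L) (S L L)) (S (S L L) (S L L)))))) (T (F 16 (U (V (T (S (S L L) (S L L)) (S (S L L) (S L L))) (T (S L (S L L)) (S L (S L L)))) (V (T (S L L) (S L L)) (T (S L L) (S L L))))) (U (F 16 (V (T (S (S L L) L) (S L L)) (T (S L L) (S L L)))) (V (F 16 (T (S L L) (S L L))) (T (F 16 (S L L)) (S L L)))))) (S (T (V (F 16 (U (S (T L L) (T L L)) (S (S L L) (S L L)))) (F 4 (U (S (F 2 (S L L)) (T L L)) (S L (S L L))))) (V (U (S (F 16 (T L L)) (F 4 (T L L))) (S (F 16 (S L L)) (T L L))) (F 4 (U (S (T L L) (T L L)) (S (S L L) (S L L)))))) (T (V (F 16 (U (T (S L L) (F 4 (S L L))) (T (S L L) (S L L)))) (F 4 (U (T (S L L) (S L L)) (T (S L L) (S L L))))) (U (F 4 (V (S (T L L) (T (S L L) L)) (T (S L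 L) (S L L)))) (V (T (S L L) (F 4 (S L L))) (F 4 (T (S L L) (S L L))))))))
noncomputable def w9_30 : Tr := (F 1 (T (F 1 (V (F 2 (S (T (U (V L L) (S L L)) (U (V (S L L) (S L L)) (S L L))) (T (U (V (S L L) (S L L)) (S L L)) (U (V (S L L) (S L L)) (V (S L L) L))))) (S (F 2 (T (U (S L L) L) (U (V (S L L) L) (S L L)))) (T (F 2 (U (V (S L L) L) (S L L))) (V (F 2 (U (S L L) L)) (F 8 (U (S L L) L))))))) (F 1 (V (S (F 2 (T (U (V (S L L) (S L L)) (V (S L L) L)) (U (V (S L L) (S L L)) (V L L)))) (T (F 2 (U (V (S L L) (S L L)) (V L L))) (V (F 2 (S (S L L) L)) (U (S L L) L)))) (S (T (V (F 2 (U (S L L) L)) (F 8 (U (S L L) L))) (U (V (S L L) (F 8 (S L L))) (V (S L L) L))) (T (U (V (S L L) (F 8 (S L L))) (V (S L L) L)) (U (F 8 (V (S L L) (S L L))) (S L L))))))))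
noncomputable def w9_31 : Tr := (T (F 64 (V (T (F 2 (S (U (V (S L L) (S L L)) (V L L)) (U (V (S L L) (T L L)) (V (S L L) (S L L))))) (S (F 2 (U (V (S L L) (S L L)) (V (S L L) L))) (V (F 2 (U (S L L) L)) (U (T L L) (S L L))))) (S (T (U (V (F 2 (S L L)) (F 8 (S L L))) (V L L)) (V (U (S L (S L L)) (S L L)) (F 8 (U (S L L) L)))) (T (U (V (T L (S L L)) (F 8 (S L L))) (V (S L L) L)) (U (V (T (S L L) L) (F 8 (S L L))) (V (S L L) (F 8 (S L L)))))))) (V (T (F 64 (S (V (F 2 (U (S L L) L)) (U (S L L) L)) (U (V (S L L) (S L L)) (S L L)))) (S (F 64 (U (V L (S L L)) (S L L))) (U (T L L) (S L L)))) (F 64 (S (T (U (V (S L L) (F 8 (S L L))) (V (S L L) L)) (F 8 (U (V (S L L) (S L L)) (S L L)))) (F 8 (T (U (V (S L L) (S L L)) (S L L)) (U (V L L) (S L L))))))))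
noncomputable def w9_32 : Tr := (U (F 640 (U (F 2 (S (T (F 41 (V (V (U (K 5) (T (S (V (V L L) (F 256 (S L L))) (F 257 (V (S L L) (S L L)))) (K 5))) (F 256 (U (S (F 8 (S (S L L) (K 4))) (K 2)) (S (T (V (S (S L L) L) (U L (F 8 (S L L)))) (F 136 (V (K 3) L))) (F 128 (T (V (S L L) (F 8 (S L L))) (K 4))))))) (F 272 (U (S L L) (S (T (S L L) L) (F 64 (S L L))))))) (F 2187 (V (K 3) (S L L)))) (F 2049 (T (F 512 (V (F 8 (V (U (K 4) (F 64 (S (V L (K 2)) L))) (K 4))) (F 32 (U L (F 64 (V (F 4 (S (S L L) (K 3))) L)))))) (K 4))))) (F 4098 w9_20))) (F 8323 (V (F 16 (U w9_24 (F 1 (S (F 320 w9_25) (F 1 w9_26))))) (U (S (F 560 (T w9_27 (F 129 w9_28))) (F 1057 (T (F 17 w9_29) (F 16 (V (S (F 64 (U (T (V (F 2 (S L L)) (S (F 2 (S L L)) (S L L))) (S L L)) (T (V (F 2 (S L L)) (S (F 2 (S L L)) (S L L))) (V (S L L) (S L L))))) (T (F 64 (U (V L (S L L)) (V (S L L) (T (S L L) L)))) (U L (V L L)))) (T (F 68 (S (U (V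 (S (T L L) (S L L)) (S (T L L) (T L L))) (V (S (S L L) (S L L)) (S L (S L L)))) (U (V (S L L) (S (S L L) L)) (V (S L L) (S L L))))) (F 68 (U (S (V L (S L L)) L) (S (V (S L L) (T L (S L L))) (V L (T L L))))))))))) (F 1072 (S w9_30 (F 128 w9_31)))))))
noncomputable def w9_33 : Tr := (T (F 32 (V (F 2064 (S (F 4 (V (T (S (U (T (K 6) (K 6)) (F 1 (V (T L L) (F 1 (T L L))))) (K 6)) (F 1 (U (K 2) (F 1 (S (V (S L L) (T L L)) (K 5)))))) (F 256 (U (F 128 (S (T (T L L) (S L L)) (K 5))) (T (S (V (T (S L L) L) (F 128 (T (S L L) (S L L)))) (F 192 (V L L))) (F 128 (S (V (T L L) (T (S L L) (T L L))) (F 1 (T L L))))))))) (K 3))) (F 1025 (U (F 4 (S (F 264 (S L L)) L)) (F 5 (S (F 8 (T (U L (S (S L L) L)) (U (S L L) (S (T L (S L L)) L)))) (F 1 (T L (T L L))))))))) (F 4096 (U (V (F 72 (V (F 1 (S L (K 5))) (F 2 (S L (K 5))))) L) (F 1024 (V (F 145 (S (F 64 (V (V (S L (K 1)) (V L L)) (V (S (T (T L L) L) L) (U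 L (T (S (T (S L L) L) L) L))))) (F 129 (T (K 1) L)))) (S (F 133 (U L (V (F 32 (U (T (S (T L L) L) L) (S (T (T (S L (S L L)) (V (S L L) L)) (S L L)) (F 1 (V L (T (T L L) L)))))) (F 4 (S L (S L L)))))) (F 1027 (U L (T (F 32 (T L L)) (F 12 (V L (F 16 (T L (K 1))))))))))))))
noncomputable def w9_34 : Tr := (V (U (V (F 64 (S (T (V L L) (V L L)) (F 32 (S L L)))) (U (S (T (V L L) (F 64 (S L L))) L) (F 64 (S (T (S L L) (S L L)) L)))) (F 64 (S (T (S (V (U L L) L) (F 32 (V (U L L) L))) (V (V (S L L) (U L (S L L))) (S (S L L) (S L L)))) (F 32 (T (V (U L (V L (S L L))) (U L (S L L))) (V (U L (V L (S L L))) (S (S L L) L))))))) (S (V (U (T (U (S L L) (S L L)) (S (V L L) (F 64 (S L L)))) (F 64 (T (S L (S L L)) (S (S L L) (S L L))))) (T (U (S (S L L) (V L (S L L))) (S (S L L) (F 64 (S L L)))) (U (S (T L L) (U L L)) (F 64 (S L (S L L)))))) (F 1 (U (V (F 1 (T L L)) (T (U L L) (F 1 (S L L)))) (F 1 (V (T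 (S (S L L) (S L L)) (U (S L L) (S L L))) (T (S (S L L) (T L L)) (S (S L L) (T L L)))))))))
noncomputable def w9_35 : Tr := (F 128 (T (V (U (V (S (S (T L L) (F 65 (T L L))) (F 65 (T L L))) (S (U (V (S L L) (T L L)) (S (T L L) (F 65 (S L L)))) (F 65 (U L (S L L))))) (F 64 (S (S (T (V (S L L) L) (V (V L L) L)) (F 32 (T (V (T L L) L) (V (V L L) L)))) (F 32 (T (V (U (S L L) (S L (S L L))) (S (S L L) (S L L))) (V (U L (S L (S L L))) (S (S L L) (S L L)))))))) (S (V (U (T (S L (F 1 (S L L))) (S (S L L) (S L L))) (S (T L L) (F 65 (T L L)))) (U (T (S L (F 1 (S L L))) (S (S L L) (T L L))) (T (S L L) (S L (S L L))))) (F 1 (U (V (U (S L L) (F 1 (T L L))) (T (V L (S L L)) (V L L))) (F 1 (V (T (S (S L L) (S L L)) (S (S L L) (S L L))) (T (S L (S L L)) (S (S L L) (S L L))))))))) w9_34))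
noncomputable def w9_36 : Tr := (S (F 16 (T (S (V (T (S (T L L) (F 1 (V L L))) (V (S (S L L) (S L L)) (T L L))) (S L L)) (F 1 (V (U (T (S L L) (T L L)) (V (T (S L L) (S L L)) (T (S L L) (S L L)))) (F 16 (T L L))))) (S (V (T (V (S (S L L) (U (S L L) L)) (U L (S L L))) (V (S (T L L) (U (S L L) L)) (U L (S L (S L L))))) (T L L)) (F 1 (U (T (S (T L (S L L)) L) (F 1 (U L (V (V L (S L L)) L)))) (F 1 (V (V (T (S L L) (S L L)) (T (V L L) (S L (S L L)))) (F 2 (T L L))))))))) (F 128 (T (F 64 (V (F 8 (S (V (T L L) (U L (T L L))) (T L L))) (F 16 (U L (T L (S (F 2 (S L L)) L)))))) (F 64 (U (V (F 8 (T L L)) (F 16 (S L L))) (V (F 8 (S (V (S L L) (T (T L L) (V L L))) (T L L))) (F 16 (T (U (S L L) (T (S L L) (F 2 (S (S L L) (T L L))))) (F 2 (U (T L L) (S (V (S L L) L) (F 4 (T L (T L L))))))))))))))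
noncomputable def w9_37 : Tr := (V (T (F 4 (S (V (T (U L (S L L)) (U L (S L L))) (T (S (T L L) (V L L)) (U (S (S L L) L) (S L L)))) (V (T L L) (U L (T L L))))) (F 4 (V (S (U (T L L) (T (S L L) (S L L))) (T L L)) (U (S (T (S (S L L) (T L L)) (V (S L L) (F 8 (S L L)))) (T L L)) (S (T (S L (S L L)) (S (S L L) (S L L))) (T (T L L) (V L L))))))) (F 2 (T (U (T (S (F 8 (T L (T L L))) (V L (S (S L L) L))) (S (F 8 (V (S L (S L L)) L)) (V L (S L (T L L))))) (S (T (F 8 (V (S L L) L)) (F 8 (V (S L L) (S L L)))) (V (T (F 8 (S L L)) (F 8 (S L L))) (T (S L L) (S (S L L) (S L L)))))) (S (F 8 (V (T (U (S L L) (S L L)) (T (U (S L L) L) (F 2 (S L L)))) (T (U (T L L) (S L L)) (F 2 (U (S L L) (S L L)))))) (V (F 8 (T (U (S L L) (S L L)) (F 2 (U (S L L) (S L L))))) (F 4 (T (S (F 2 (S L L)) (U (S L L) L)) (T (F 2 (S L L)) (F 2 (S L L))))))))))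
noncomputable def w9_38 : Tr := (V (F 16 (S w9_35 (F 193 (T (V (U (T (K 4) (K 4)) (S (V (U L (T L L)) (T L L)) (T L (K 4)))) (U (V L (S L (K 4))) (V (T (V L L) (S L L)) (S (T (V L L) (T L L)) L)))) (V (U (K 4) (S (V (T (S L L) L) (T L L)) (K 4))) (U (T L L) (V (T L L) (S (U (T L L) (T L L)) L)))))))) (U (F 1 w9_36) (F 1 (S (F 16 (T (S (V (V (T (S L L) (S L (S L L))) (T (S L L) (S L (S L L)))) (T L (S L L))) (F 65 (V (V (T (S L (S L L)) (S L (S L L))) (T (S L (S L L)) (S L (S L L)))) (T (U L (S L L)) (S L (F 8 (T L L))))))) (S (V (V (T (S (S L L) (F 64 (S L L))) (S (S L L) (F 64 (S L L)))) (T (S L (F 64 (S L L))) (S (S L L) (F 64 (T L L))))) (T (S L L) (F 64 (U L (T L L))))) (F 65 (V (V (T (S (S L L) (S L L)) (S (S L L) (V L L))) (T (S (S L L) (T L L)) (S (T L L) (U (S L L) L)))) (T (U L (S (S L L) (F 8 (V L L)))) (F 8 (U (U L (T L L)) (V (S L L) (S L L)))))))))) (F 129 w9_37)))))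
noncomputable def w9_39 : Tr := (V (F 64 (U (V (S (T (V L L) (V L L)) L) (U (S (V L (T L L)) L) (S (T (S L L) (S L L)) L))) (S (T (V (V (S L L) (U (S L L) (S L L))) (S (S L L) (V L L))) (V (U (S L L) (S (S L L) (F 32 (S L L)))) (S (S L L) (V L L)))) (F 32 (V (U (S L L) (V (S L L) (T (S L L) L))) (T (V L (S L L)) (V L (S L L)))))))) (S (U (V (T (U (T L L) (F 64 (S L (S L L)))) (F 64 (U (S L L) (S L (S L L))))) (T (S (V L L) (F 64 (V L L))) (S (V L (S L L)) (F 64 (U (S L L) (S L L)))))) (F 64 (V (T (S (S L L) (V L L)) (S (T L L) (V L L))) (T (S (S L L) (V L L)) (S (T L L) (V L (S L L))))))) (F 65 (U (V (T L L) (U L (T L (S L L)))) (V (T (U (S L L) (S L L)) (U (S L L) (S L L))) (T (S (T L L) (V L L)) (S (V L L) (U (S L L) L))))))))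
noncomputable def w9_40 : Tr := (U (V (V (S (U L (S (T (S L L) (S L L)) L)) L) (U (V L L) (S (T (S (S L L) L) (S (S L L) (S L L))) L))) (U (S (V (V L L) (T (S (S L L) (S L L)) L)) (F 32 (S L L))) (V (S (T (S (S L L) (S L L)) (V (S L L) (S L L))) (F 32 (T L L))) (S (T (S (S L L) (T L L)) (F 4 (S L L))) (F 32 (T (V L L) (F 4 (S L L)))))))) (V (S (V (U (S (T L (S L L)) (F 32 (T L L))) (S (V (S L L) (T L L)) (F 32 (V L (T L L))))) (T (S (V L L) (V L L)) (S (V L L) (V L (S L L))))) (F 32 (V (U L (V (S L L) (T L (S L L)))) (U (T L L) (T (S L L) (S L L)))))) (S (V (T (S (V L L) (V (S L L) (S L L))) (S (V L L) (F 4 (V L L)))) (T (S (V L L) (V (S L L) (S L L))) (U (S (S L L) L) (F 4 (S L L))))) (F 32 (V (T (U (S L L) (S L L)) (U (V L L) (F 4 (S L L)))) (T (S (U (S L L) L) (U L (S L L))) (F 4 (S (T L L) (T L L)))))))))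
noncomputable def w9_41 : Tr := (U (T (F 4 (V (S (T (V (S (S L L) (S L L)) (T L (S L L))) (V (S (S L L) (F 64 (S L L))) (T (S L L) L))) (F 64 (T (F 32 (V L (V (S L L) (F 2 (S L L))))) (V (F 32 (T L L)) (F 4 (S (S L L) (F 1 (S L L)))))))) (F 4 (S (S L L) (F 1 (T (S L L) (F 4 (S L L)))))))) (F 1 (V (F 32 (S (V (S L L) (F 4 (V (S L L) L))) (F 4 (V (S (S L L) L) (S (V L L) L))))) (F 12 (S L (V (F 2 (S L L)) L)))))) (T (F 4 (V (S (T (V (S (S L L) L) (S (S L L) (F 64 (S L L)))) (F 64 (V (S L (S L L)) (S (S L L) (S L L))))) (F 64 (V (T (F 32 (S L (S L L))) (F 32 (T (S L L) (F 4 (S L L))))) (T (F 32 (S (S L L) (T L L))) (F 4 (S (S L L) (F 1 (S L L)))))))) (F 4 (S (T L L) (F 1 (T (F 1 (S L L)) (F 4 (V (S (S L L) L) L)))))))) (F 1 (V (F 32 (S (V (T (S L (F 4 (S L L))) (F 4 (S L (S L L)))) (F 4 (T (S (S L L) (S L L)) (V (S L L) L)))) (F 4 (V (S (T L (S L L)) (F 1 (T (S L L) L))) (S (T (T L L) (S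 L L)) (F 1 (T (S L L) L))))))) (F 12 (S (F 2 (T (S L L) (T (S L L) (S L L)))) (V (F 2 (T (S (S L L) (F 1 (S L L))) (S (S L L) L))) (T (F 2 (S L L)) (S (S L L) (F 16 (S L L)))))))))))
noncomputable def w9_42 : Tr := (U (T (T (F 42 (U L L)) (F 2 (T (F 5 (U L (S (V (S L L) L) (T L L)))) (S (F 5 (V (S L L) L)) (V L (S L (S L L))))))) (F 2 (S (V (F 4 (S L (S L L))) (T (F 1 (T L L)) L)) (V (S (F 4 (S L L)) (S L L)) (T (S (S L L) (S L L)) (S L L)))))) (T (T (F 42 (U (U (U L (T L (S L L))) (S (V (S L L) L) (T L (V L L)))) (S (V (S L L) L) (V L (S L L))))) (F 2 (S (F 5 (V (S (S L L) (S L L)) (S L (S L L)))) (V (F 4 (S (F 8 (S L L)) L)) (T L (S L L)))))) (F 2 (S (V (F 4 (T (F 8 (S (S L L) (S L L))) (S L (S L L)))) (T (F 1 (V (F 4 (S L L)) (S L L))) (V (S L L) L))) (V (T (F 4 (S (S L L) (S L L))) (V (F 4 (S L L)) (S L L))) (T (S (T L (S L L)) (T L L)) (S (S L L) (S L L))))))))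
noncomputable def w9_43 : Tr := (T (F 2 (V (S (V (T (S (S L L) (V L L)) (S (V L L) (U (S L L) L))) (T (S (S L L) (U (S L L) L)) (S (U L L) (V (S L L) L)))) (V (F 1 (T (S (T L L) (U (S L L) L)) (U (T (S L L) L) (S L (S L L))))) (T (F 1 (U (S (S L L) (S L L)) (S L (S L L)))) (F 8 (U (V L (S L L)) (F 16 (S L L))))))) (S (V (T (U L (S L L)) (F 8 (S (S L L) (F 4 (S L L))))) (F 12 (T L (S L L)))) (F 4 (T (F 16 (V (S (S L L) (F 2 (S L L))) (F 2 (U L (S L L))))) (F 4 (V (S (V L (S L L)) (F 1 (T L L))) (U (S L L) (S L L))))))))) (V (F 2 (S (V (T (S (U (S L L) L) (U L (S L L))) (F 8 (S (V L L) (V L L)))) (F 8 (T (S (T L L) (U (S L L) L)) (S (V L (S L L)) (U (S L L) L))))) (F 8 (V (T (F 16 (S (T L L) (V L L))) (F 16 (U (S L L) (S L L)))) (T (S (U (S L L) (S L L)) (F 16 (V (S L L) L))) (V (S (S L L) (F 16 (S L L))) (F 4 (S (S L L) L)))))))) (F 24 (S (V (F 8 (T (S (S L L) (T L L)) (S (S L L) (V L L))))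 (T (F 8 (U L (S L L))) (S (F 8 (S L L)) (V L (S L L))))) (V (F 8 (T (S (U (S L L) L) (F 8 (T L L))) (S (U (S L L) L) (F 8 (T L L))))) (T (S (F 8 (V (S L L) L)) (F 1 (V L (S L L)))) (S (V L (S L L)) (F 1 (V (S L L) L)))))))))
noncomputable def w9_44 : Tr := (V (F 36 (T (T (F 32 (U (S (V (T L (S L L)) (V (S L L) L)) (T L L)) (S (V (S (S L L) (S L L)) (S (S L L) L)) (V L (F 4 (S L L)))))) (F 4 (S (F 1 (V (U (S L L) (S L L)) (V (S (S L L) (S L L)) (F 2 (S L L))))) (V (U L (S L L)) (F 8 (U (S L L) (S L L))))))) (F 4 (S (V (T (F 1 (S (U L L) (U L L))) (S (F 1 (V L L)) (T (F 1 (S L L)) (S L L)))) (T (F 1 (S (V (S L L) L) (F 2 (T L L)))) (F 8 (S (F 8 (T L L)) (U (S L L) L))))) (V (U (T L (T L L)) (T (S (S L L) L) (S L L))) (F 8 (T (U (S (S L L) L) (S L L)) (S (U (S L L) L) (T L L))))))))) (F 80 (T (S (F 34 (V (F 2 (T (U (S L L) (S L L)) (U (S L L) (S L L)))) (T (F 2 (U (S L (S L L)) (S L L)))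 (S (F 2 (V L L)) (V (F 2 (S L L)) (S L L)))))) (T (F 34 (V (F 2 (S (V L L) (T L L))) (U (F 2 (S L L)) (S L (S L L))))) (F 2 (V (F 4 (S (F 8 (V L L)) (U (S L L) L))) (U (V (F 4 (S L L)) (F 1 (S L L))) (F 1 (S (S L L) L))))))) (F 2 (S (T (F 1 (V (F 4 (U (S L L) (S L L))) (U (S (S L L) (S L L)) (S (S L L) (S L L))))) (V (S (F 5 (T L L)) (T L (V L L))) (F 1 (U (V (S L L) (S L L)) (S L L))))) (V (T (S (F 4 (T L (S L L))) (U L (S L L))) (S (V L (T L L)) (U (S L L) (S L L)))) (T (S (V (T L L) L) (U (S L L) (S L L))) (S (U (S L L) (S L L)) (U (S L L) L)))))))))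
noncomputable def w9_45 : Tr := (U (F 1 w9_33) (F 8193 (T (F 21 w9_38) (F 2049 (V (F 72 (S (F 2 (T w9_39 (F 64 w9_40))) (F 129 (T (V (U (K 4) (S (F 32 (V (T L L) L)) L)) (U (S (F 32 (V L (T L L))) (K 4)) (S (F 32 (V (T L L) (U (T L L) (T (S L L) (S L L))))) (T L (S L L))))) (U (V (T (K 4) (K 4)) (S (V L (F 4 (S L L))) L)) (V (S (T (F 32 (T L L)) (T L L)) L) (S (V (T (F 32 (T L L)) (F 4 (S L L))) (F 4 (T (F 1 (U L (S L L))) (S (F 1 (T L L)) (U L L))))) (F 4 (U L (T L (S L L))))))))))) (U (S (F 264 w9_41) (F 513 (V (F 36 (T (T (F 32 (V (S L L) (U L (V (T L L) L)))) (F 4 (S (F 1 (V L (U L (V (S L L) (F 2 (S L L)))))) (U L L)))) (F 4 (U (V L (F 8 (S (S L L) L))) (S (V (T L (S L L)) (F 8 (T (F 8 (S L L)) (S L (S L L))))) (V (S L L) (F 8 (T L (S L L))))))))) (F 80 w9_42)))) (S (F 776 w9_43) (F 513 w9_44))))))))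
noncomputable def w9_46 : Tr := (S (U (T (S (V (U (S L (F 32 (S L L))) (S (S L L) (F 32 (S L L)))) (T (S L L) (S L L))) (F 32 (V (U (T (S L L) (S L L)) (T (S L L) (S L L))) (T (S L (S L L)) (S L (S L L)))))) (S (V (U (S (T L L) (F 32 (T L L))) (T (S L L) (S L L))) (T (S L L) (S L L))) (F 32 (V (U (T (S L L) (S L L)) (T (S L L) (S L L))) (T (S L (S L L)) (S (S L L) (S L L))))))) (T (S (V (S L (F 32 (S L L))) (T (S L L) (S L L))) (F 32 (V (T (S L L) (S L L)) (T (S L L) (S L L))))) (S (V (S (T L L) (F 32 (T L L))) (T (S L L) (S L L))) (F 32 (V (T (S L L) (S L L)) (T (S L L) (S L L))))))) (F 32 (U (T (V (S (U (T (S L L) L) (T (S L L) (S L L))) (T (T L L) L)) (S (T (S (S L L) (S L L)) (S (S L L) (S L L))) (T L L))) (V (S (U (T L L) (T (S L L) (S L L))) (T L L)) (S (T (S (S L L) L) (S (S L L) L)) L))) (T (S (V (T (S L L) (S L L)) (T (S L L) (S L L))) (V (T (S L L) L) (T (S L L) (S L L)))) (S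 (V (T (S L L) (S L L)) (T (S L L) (S L L))) (V (T L L) (T L L)))))))
noncomputable def w9_47 : Tr := (S (F 64 (T (S (V (U (S (T L L) (F 32 (T L L))) (T L (S L L))) (U (T (S L L) (S L L)) (T L L))) (F 32 (V (U (T (S L (S L L)) (S L (S L L))) (T (S L L) (S L L))) (T (U (S L L) (S L L)) (U (S L (S L L)) (S L L)))))) (S (V (U (T (S L (S L L)) (S L (S L L))) (T (S L L) (S L L))) (U (T (S L L) (S L (S L L))) (T (S L L) (S L L)))) (F 32 (V (U (T (S L (S L L)) (S (S L L) (S L L))) (T (S L L) (S L L))) (U (T (S L (S L L)) (S L (S L L))) (T (S L L) (S L L)))))))) (F 65 (T (S (V (U (T (S (S L L) (S L L)) (S (S L L) (S L L))) (T (S L L) (S L L))) (U (T (S (S L L) (S L L)) (S (S L L) (S L L))) (T (S L L) (S L L)))) (U (V (T L L) (T (T L L) (S L L))) (V (T (S L L) (S L L)) (T (S L L) (S L L))))) (U (V (S (T (S (S L L) (S L L)) (S (S L L) L)) (T L L)) (S (T (S (S L L) (S L L)) (S (S L L) (S L L))) (T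 (S L L) (S L L)))) (S (V (T (S L L) (S L L)) (T (S L L) (S L L))) (V (T (S L L) (S L L)) (T (S L L) (S L L))))))))
noncomputable def w9_48 : Tr := (U (T (S (V (U (S (T L L) (F 32 (T L L))) (S (T L L) (F 32 (T L L)))) (T (S (S L L) (S L L)) (S (S L L) (S L L)))) (F 32 (V (U (T (S L L) (S L L)) (T (S L L) (S L L))) (T (S (S L L) (S L L)) (S (S L L) (S L L)))))) (V (S (U (S (T L (S L L)) (F 32 (T L L))) (S (V (S L L) L) (F 32 (T L L)))) (F 32 (U (T (S L L) (S L L)) (V (T L L) (S L L))))) (S (T (S (S L L) (T L L)) (S (V L L) (T L L))) (F 32 (T (S (S L L) (S L L)) (V (S L L) L)))))) (T (S (V (S (T L L) (F 32 (T L L))) (T (S L L) (S L L))) (F 32 (V (T (S L L) (S L L)) (T (S L L) (S L L))))) (S (V (S (T (S L L) (S L L)) (F 32 (T L L))) (T (S L L) (S (S L L) L))) (F 32 (V (T (S L L) (S L L)) (T (S L L) (S L L)))))))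
noncomputable def w9_49 : Tr := (T (S (V (U (T (S (S L L) (S L L)) (S (S L L) (S L L))) (T (S L L) (S L (S L L)))) (U (T (S L (S L L)) (S (S L L) (T L L))) (T (S L L) (V (S L L) L)))) (F 32 (V (U (T (S (S L L) (S L L)) (S (S L L) (S L L))) (T (S L L) (S L L))) (U (T (S (S L L) (S L L)) (S (S L L) (S L L))) (T (S L L) (S L L)))))) (S (V (U (T (S (S L L) (V L L)) (S (T L L) (F 4 (S L L)))) (T (S L (S L L)) (S (S L L) L))) (U (T (S (T L L) (V L L)) (F 4 (S (S L L) (S L L)))) (T (S L (S L L)) (F 4 (S L L))))) (F 32 (V (U (T (S (S L L) (S L L)) (F 4 (S L L))) (T (S L L) (F 4 (S L L)))) (U (T (S (T L L) (F 4 (S L L))) (U (F 4 (S L L)) L)) (T (S L L) (F 4 (S L L))))))))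
noncomputable def w9_50 : Tr := (V (S (F 64 w9_48) (F 1 (U (S (T (F 1 (V (U L (S (T L L) L)) (T (V L L) (V L L)))) (V (U (S L L) (S (F 1 (S L L)) L)) (T (F 1 (U L L)) (F 8 (S L L))))) (T (F 1 (T L L)) (T (T L L) (F 8 (S L L))))) (T (F 1 (V (S (T (S L L) (S L L)) (U L L)) (S (T (S L L) (S L L)) (T L L)))) (S (V (U (S L (S L L)) (F 1 (S L L))) (T (F 1 (S L L)) (F 8 (S L L)))) (V (U (S L L) (S L L)) (T (S L L) L))))))) (S (F 64 w9_49) (F 1 (T (U (S (F 1 (V (T (S (S L L) L) (S (S L L) L)) (T (S (S L L) (S L L)) (S (T L L) (S L L))))) (V (F 1 (T L L)) (S (F 1 (T L (S L L))) (F 1 (T L L))))) (F 1 (S (V (T (S L L) (S L L)) (T (S L L) (S L L))) (V (T L L) (T (S L L) L))))) (S (U (V (S (F 1 (V (S L L) (F 4 (S L L)))) (F 8 (T L L))) (T (F 1 (U (S L L) L)) (F 8 (S (F 16 (S L L)) (S L L))))) (V (T (F 1 (S L L)) (F 8 (S L L))) (F 8 (T (F 16 (S L L)) (S L L))))) (U (V (U (T L L) (F 8 (S L L))) (F 8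 (T (U L (S L L)) (S (S L L) L)))) (F 8 (V (T (S L L) (S L L)) (T (S L L) (S L L))))))))))
noncomputable def w9_51 : Tr := (S (T (S (V (T (F 32 (U (S L L) L)) (S (U L L) (F 32 (U (S L L) L)))) (U (V (S L L) (S L L)) (V (S L L) L))) (F 32 (V (U (T (V L (S L L)) (V (S L L) (S L L))) (V (S L L) (S L L))) (U (V (T L L) (T L L)) (V (T L L) (S L L)))))) (S (V (U (T (V (S L L) (S L L)) (S (T L L) (F 32 (S L L)))) (V (S L L) (S L L))) (U (V (S L L) (T L L)) (V (S L L) (S L L)))) (F 32 (V (U (V (T (S L L) (S L L)) (U (T (S L L) (S L L)) (S L L))) (V (S L L) (S L L))) (U (V (T (S L L) (S L L)) (T L L)) (V (T L (S L L)) (S L L))))))) (F 32 (T (V (S (U (V (T (S L L) (S L L)) (U (T (S L L) L) (S L L))) (V (S L L) (S L L))) (U (V (S L L) (U (S L L) L)) (V L L))) (U (S (V (T (S L L) (S L L)) (T L L)) (V (T L L) (T L L))) (S (V (T L L) (S L L)) (V (S L L) (S L L))))) (V (S (U (V (T L L) (U (T L L) (S L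 L))) (V (S L L) (S L L))) (U (T (V L (S L L)) (S L L)) (V L L))) (U (S (V (T L (S L L)) (T (S L L) (S L L))) (V (S L L) (T L L))) (S (V (T L L) (S L L)) (V (S L L) L)))))))
noncomputable def w9_52 : Tr := (T (S (V (U (S (V (S L L) (U (S L L) L)) (F 1 (V (S L L) (T L L)))) (V (S L L) (S L L))) (U (V (T (S L L) (S L L)) (T (S L L) (S L L))) (V (U (S L L) L) (S L L)))) (F 1 (V (U (V (T (S L L) (S L L)) (U (T (S L L) (S L L)) (S L L))) (V (S L L) (S L L))) (U (V (T (S L L) (S L L)) (T (S L L) (S L L))) (V (U (S L L) L) (S L L)))))) (V (S (U (V (S (T L L) (F 1 (S L L))) (U (S (T L L) (F 1 (S L L))) (S L L))) (V (S L L) (S L L))) (F 1 (U (V (T (S L L) (S L L)) (U (V (S L L) L) (S L L))) (V (S L L) (S L L))))) (U (S (V (T (S L L) (S L L)) (T (S L L) L)) (F 1 (V (T (S L L) L) (S L L)))) (S (V (U (S L L) L) (S L L)) (F 1 (V (T (S L L) L) (F 4 (S L L))))))))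
noncomputable def w9_53 : Tr := (T (F 17 (V (S (V (U (T (S L L) (S L L)) (S L L)) (U (T L (S L L)) (S L L))) (F 1 (V (U (T (S L L) (S L L)) (T (S L L) (S L L))) (U (T (S L L) (S L L)) (T L (S L L)))))) (S (U (V (T L L) (F 4 (S L L))) (V (S L L) (F 4 (S L L)))) (F 1 (V (U (T (S L L) (S L L)) (T L (S L L))) (F 8 (U (T L L) (S L L)))))))) (F 17 (V (S (V (U (T (S L L) (S L L)) (T (S L L) (S L L))) (U (T (S L L) (S L L)) (T L (S L L)))) (F 1 (U (V (T (S L (S L L)) (S L (S L L))) (T (S L L) (S L (S L L)))) (V (T (S L L) (S L L)) (T (S L L) (S L L)))))) (S (V (U (T (S L L) (S L L)) (T L (S L L))) (F 4 (U (T L (S L L)) (S L L)))) (F 1 (V (U (T (S L (S L L)) (S (S L L) (T L L))) (T (S L L) (S L L))) (F 8 (U (T (S L L) (S L L)) (T L (S L L))))))))))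
noncomputable def w9_54 : Tr := (T (F 2 (V (F 4 (S (U (V (T (S (S L L) (S L L)) (S (S L L) (S L L))) (T (S (S L L) (S L L)) (S (S L L) (S L L)))) (T (V (S L L) (S L L)) (V (S L L) (S L L)))) (U (V (T (U L (S L L)) (U L (S L L))) (T (S (S L L) L) (S (S L L) (S L L)))) (V (T (S L L) (S L L)) (T (S L L) (S L L)))))) (S (V (F 4 (U (T (S (S L L) L) (S (S L L) L)) (T (S L L) (S L L)))) (F 2 (T (F 8 (U (S L L) L)) (F 8 (U (U (S L L) L) (S L L)))))) (U (F 2 (T (V (F 8 (S L L)) (U (S L L) (S L L))) (V (F 8 (U (S L L) L)) (S (T L L) (T L L))))) (T (V (F 4 (S L L)) (F 2 (S L L))) (F 2 (V (F 8 (S L L)) (U (S L L) L)))))))) (F 2 (V (F 4 (S (U (V (T (S (S L L) (S L L)) (S (T L L) (S L L))) (T (S (S L L) (T L L)) (U (S L (S L L)) (S L L)))) (V (T (S L L) (S L L)) (T (S L L) (S L L)))) (U (V (U (T L (S L L)) (T (S L L) (S L L))) (T (U (S L L) (S L L)) (V (U (S L L) L) (F 8 (S L L))))) (V (T (S L L) (S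 L L)) (T (S L L) (S (S L L) L)))))) (U (S (F 6 (T (V (U (S L L) L) (U (S L L) (S L L))) (V (T (S L L) (F 4 (S L L))) (F 4 (S L L))))) (F 2 (V (F 8 (T (U (S L L) (S L L)) (F 2 (S L L)))) (F 4 (T (S L (S L L)) (S L (S L L))))))) (S (T (F 4 (V (S L L) (F 8 (S L L)))) (F 4 (V (S L L) (F 8 (S L L))))) (F 2 (T (V (F 8 (S L L)) (U L L)) (V (F 8 (S L L)) (F 4 (S L L))))))))))
noncomputable def w9_55 : Tr := (S (F 64 (U w9_53 (F 1 (V (F 8 (T (S (U (V (S L L) (S L L)) (S L L)) (F 32 (U (V (T L L) (S L L)) (T L L)))) (S (U (V (T L L) (S L L)) (S L L)) (F 32 (U (V (T L L) (T L L)) (V (S L L) L)))))) (T (S (F 8 (U (V L L) (S L L))) (F 1 (T (F 8 (V (S L L) L)) (F 8 (U (S L L) L))))) (S (F 8 (U (V (S L L) (S L L)) (S L L))) (F 1 (U (F 8 (V (T L L) (F 2 (S L L)))) (F 8 (T L L)))))))))) (F 257 (U w9_54 (T (F 2 (V (S (F 4 (U (T (V (S L L) L) (V L L)) (T (S L L) (S L L)))) (T (F 4 (U (V L L) (S L L))) (F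 4 (U (V L L) (S L L))))) (S (U (V (F 4 (T L L)) (F 2 (T L L))) (T (S L L) L)) (U (V (T L (S L L)) (F 2 (T L L))) (V (S L L) (F 2 (S L L))))))) (V (F 2 (S (F 4 (U (V (T L L) (T (S L L) L)) (V (S L L) (S L L)))) (U (F 4 (V (T L L) (T L (S L L)))) (T (F 4 (S L L)) (F 4 (S L L)))))) (S (F 18 (U (V (T L (S L L)) (F 2 (S L L))) (V (S L L) L))) (V (F 18 (U (F 2 (S L L)) (S L L))) (F 40 (U (T L (S L L)) (S L L))))))))))
noncomputable def w9_56 : Tr := (T (S (U (V (T (S L (S L L)) (S (S L L) (T L L))) (T (S L (S L L)) (S (S L L) (V L L)))) (V (T (S L L) (S L L)) (T (S L L) (S L (S L L))))) (F 1 (U (V (T (S (S L L) (T L L)) (T (S L L) (F 4 (S L L)))) (T (S (S L L) (T L L)) (U (S L L) (F 4 (S L L))))) (V (T (S L L) (S L (S L L))) (T (S L L) (F 4 (S L L))))))) (S (U (S (F 8 (V (T L (S L L)) (T (S L L) (S L L)))) (F 8 (V (T (S L L) (S L L)) (T (S L L) (S L L))))) (F 8 (V (T (S L L) (S L L)) (T (S L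 L) (S L L))))) (U (V (F 1 (T (U (S L L) (F 4 (S L L))) (F 4 (S (S L L) (S L L))))) (F 8 (T (S (F 16 (S L L)) (F 16 (T L L))) (U (S L L) (F 16 (S L L)))))) (F 9 (V (T (S L L) (S L L)) (T (S L L) (S L L)))))))
noncomputable def w9_57 : Tr := (U (V (F 18 w9_56) (T (F 16 (S (F 32 (U (V (T (V (S L L) L) (U (S L L) (F 4 (S L L)))) (F 8 (T (S L L) (F 4 (S L L))))) (V (T (S L L) (F 4 (S L L))) (F 12 (T L L))))) (F 1 (U (F 2 (T (V (S (S L L) (F 2 (S L L))) (F 6 (S L L))) (F 6 (V (S L L) (U (S L L) L))))) (V (F 2 (T (S L L) (S L L))) (F 16 (T (F 8 (S L L)) (F 2 (S L L))))))))) (F 16 (S (V (F 32 (U (F 4 (T (S (S L L) L) (S L (F 4 (S L L))))) (F 4 (T (S L L) (S L L))))) (F 12 (U (T (F 2 (S L L)) (S (S L L) (T L L))) (T (S L L) (S L L))))) (F 8 (U (F 8 (V (F 8 (T (S (S L L) L) (S (S L L) L))) (T (S (S L L) (F 1 (T L L))) (S (V (S L L) L) (F 1 (T L L)))))) (T (F 32 (V (F 8 (S L L)) (F 2 (S L L)))) (F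 8 (V (S L L) (S (S L L) L)))))))))) (F 16 (V (F 32 (T (S (U (V (T L (S L L)) (T L L)) (V (S L L) (S L L))) (F 32 (U (V (T L (S L L)) (T L L)) (V (S L L) (S L L))))) (S (F 4 (U (V (T L L) (T L L)) (V (S L L) (S L L)))) (F 36 (U (V (S L L) (T L L)) (V L L)))))) (T (S (F 32 (U (V (T L L) L) (T (S L L) L))) (F 1 (V (F 2 (U (T L L) (S L L))) (F 24 (U (T L L) L))))) (F 8 (S (V (F 2 (U (T L L) (S L L))) (F 8 (U (T L L) (S L L)))) (F 32 (U (V (T L (S L L)) (F 2 (T L L))) (V (S L L) (F 2 (S L L)))))))))))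
noncomputable def w9_58 : Tr := (T (F 36 (U (S (F 32 (V (T (S (T L L) (V L L)) (U (S (S L L) L) L)) (T (U (S (S L L) L) (S L L)) (F 4 (S (S L L) (T L L)))))) (V (T (F 32 (U (S L L) (S L L))) (F 4 (S (F 1 (S L L)) L))) (F 4 (T (F 1 (V (S L L) L)) (S (F 1 (S L L)) L))))) (F 32 (S (T (V (S (S L L) L) (S (S L L) L)) (F 4 (V (S L L) (S L L)))) (V (S (T L L) (F 4 (S L L))) (T (U L L) (F 4 (S L L)))))))) (F 32 (U (F 20 (S (T (F 1 (V (S (S L L) (S L L)) (V (S L L) (F 2 (S L L))))) (V (S (F 1 (S L L)) (V L L)) (S (F 1 (S L L)) (F 8 (S L L))))) (V (T (S (S L L) (S L L)) (S (T L L) (S L L))) (F 8 (T (S (S L L) (S L L)) (S (S L L) (S L L))))))) (F 4 (S (F 4 (V (T (F 16 (S L L)) (S L (S L L))) (T (F 16 (S L L)) (T L L)))) (V (F 4 (T (S L L) (S L L))) (T (F 4 (S L L)) (F 16 (S L L)))))))))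
noncomputable def w9_59 : Tr := (T (F 64 (U (F 4 (S (F 17 (T (F 4 (V (S (S L L) (S L L)) (U (S L L) L))) (V (F 4 (S L (S L L))) (V (F 4 (S L L)) (S L L))))) (V (F 20 (T (F 8 (S (S L L) L)) (F 8 (S (S L L) L)))) (F 1 (T (T (F 10 (S L L)) (F 2 (S L L))) (S (F 2 (T L L)) (V L L))))))) (F 64 (T (F 16 (S (V (F 8 (S L L)) (F 2 (S L L))) (F 2 (V (F 2 (S L L)) (S L L))))) (F 24 (S (V (F 4 (S L L)) (S L L)) (V (S L L) (S L L)))))))) (F 80 (U (S (F 2 (V (T (F 5 (U (S L L) L)) (V (F 4 (S L L)) (F 1 (S L L)))) (F 1 (T (U (S L L) (S L L)) (S (T L L) (S L L)))))) (T (V (F 2 (V (F 4 (S L L)) (S (S L L) L))) (S (F 34 (S L L)) (U L L))) (F 2 (V (S (V L L) (T L L)) (S (V L L) (T L L)))))) (F 2 (S (F 1 (V (T (S L L) (S L L)) (T (S L L) (S L L)))) (V (T (S L L) (S (S L L) L)) (T (S L L) (S (S L L) L))))))))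
noncomputable def w9_60 : Tr := (V (F 128 (U (T (F 546 (V (F 64 w9_46) w9_47)) (F 545 w9_50)) (F 513 (T (F 136 w9_51) (F 8 (S (F 1 w9_52) (F 64 (T (F 32 (V (S (U (V (T L L) (U (S L L) (S L L))) (V (S L L) (S L L))) (U (V L (T L L)) (S L L))) (U (S (V (T L L) (T (S L L) (S L L))) (V (S L L) (S L L))) (S (V (T L L) (S L L)) (V (S L L) L))))) (V (S (F 32 (U (V (S L L) (U (S L L) L)) (V L L))) (U (V (S L L) (T (S L L) L)) (V L L))) (U (S (F 32 (V (T L L) (F 4 (S L L)))) (F 4 (V (S L L) (S L L)))) (F 4 (S (F 1 (V (S L L) L)) (V (S L L) L))))))))))))) (F 1 (T (F 2 w9_55) (F 1 (S (F 256 w9_57) (F 1 (U (V w9_58 w9_59) (T (F 1 (V (F 32 (U (F 8 (S (T (V (S L L) (S L L)) (F 4 (V L L))) (V (T L L) (F 4 (T L L))))) (F 8 (S (T (S L L) (F 4 (S L L))) (V (S L L) L))))) (F 8 (S (F 8 (V (F 8 (U (T L L) (S L L))) (F 2 (U (T L L) (S L L))))) (F 16 (T (F 2 (U (V L L) (S L L))) (F 2 (U (V L L) (S L L)))))))))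 (F 48 (V (S (F 40 (U (V (T L L) (T L L)) (V L L))) (U (V (F 8 (T L L)) (T (F 8 (S L L)) (F 2 (S L L)))) (V (F 8 (S L L)) (S L L)))) (F 2 (S (F 1 (U (V (T L L) (T L L)) (V L (S L L)))) (U (T (V (S L L) (S L L)) (V (S L L) (S L L))) (T (S L L) (S L L)))))))))))))))
noncomputable def w9_61 : Tr := (U (V (U (V L (S L L)) (S (V (T (F 1 (V L L)) L) (F 8 (S L L))) (F 72 (T L L)))) (F 8 (T (S (F 32 (V (S L L) (S L L))) (F 1 (V L (S L L)))) (K 3)))) (V (S (T (F 1 (V (U (S (T (S L L) L) (F 9 (S L L))) (V (S (S L L) L) (F 8 (S (S L L) (F 16 (S L L)))))) (F 8 (T (S (T L L) (F 16 (S L L))) (S (S L L) L))))) (F 8 (S (F 32 (V (U L (S L L)) L)) (F 1 (V (V L (S L L)) L))))) (F 72 (T (U (V (S L L) (S (F 16 (S L L)) L)) (V (V (S L L) (T L (S L L))) (T (F 16 (S L L)) (S L L)))) (U (V L L) (V (V (S L L) (S L L)) (S L L)))))) (S (T (F 1 (V (U (F 8 (S (S L L) (S L L))) (F 8 (T (S L L) (S L L)))) (F 8 (T (S (V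 L L) (V L L)) (U L (S L L)))))) (F 8 (V (S L L) (S L L)))) (F 72 (T (V (T (F 16 (S (S L L) (S L L))) (U L (S L L))) (T (F 16 (U (S L L) (S L L))) (S L (T L L)))) (V (S L L) (S L L)))))))
noncomputable def w9_62 : Tr := (T (F 32 (S w9_61 (F 64 (U (F 4 (S (V (T L L) (T L L)) (T (V (K 1) L) (S L L)))) (V (T (S (U (F 4 (T L L)) (F 4 (V (S L L) (T L L)))) (F 4 (S L L))) (F 4 (S (U (S L L) (V (T L L) (T (S L L) (S L L)))) (V L (T L (U L L)))))) (F 4 (S (T (V (U (T L L) (T (S L L) (S L L))) (T (S (V L (S L L)) (V L L)) (U (S L L) (S L L)))) (V (U (S L L) (S L (T L L))) (T (S L L) L))) (T (V (T L (S L L)) (U (T L (S L L)) (T (S L L) (S L L)))) (U (V (S L L) (T (S L L) L)) (V (T (S L L) (S L L)) (T (S L L) (S L L)))))))))))) (F 8 (S (U (K 3) (V (F 4 (T (S (S L L) (F 1 (S L (T L L)))) (F 1 (S (K 2) L)))) (S (K 3) (F 64 (T (F 8 (S (K 2) L)) (K 2)))))) (F 64 (U (T (S (F 8 (S L L)) (T L (S L L))) (V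 (F 8 (S (K 2) L)) (K 2))) (V (F 8 (T (S (U (S L L) (V (T (S L L) L) (S L L))) (U (T (S L L) (S L L)) (V (S (S L L) L) (T (S L L) (S L L))))) (S (U (S L L) (T L L)) (U (T (S L L) (S L L)) (T (V (S L L) (T L L)) (S L (V L L))))))) (T (S (V (F 8 (S L L)) (S L L)) (V (F 8 (T (S L (T L L)) (S L L))) (F 2 (T L L)))) (S (S (K 2) L) (T (V L L) (F 2 (S L L)))))))))))
noncomputable def w9_63 : Tr := (V (T (F 4 (S (F 32 (U (U (K 1) (V L (S L L))) (V (U (S (S L L) (S L L)) (T (S L L) (S L L))) (U (V (S L L) L) (T (S L L) (S L L)))))) (U (T (F 32 (V L L)) (K 3)) (V (F 1 (T (F 1 (S (S L L) (T L L))) (S L (S L L)))) (T (F 32 (S (V (S L L) L) (F 20 (S L L)))) (F 4 (S L L))))))) (U (K 3) (S (V (F 4 (S L L)) (F 1 (S L L))) (V (F 68 (S L L)) (F 16 (S L L)))))) (F 16 (U (T (U (S L (K 2)) (S (F 32 (V (S L L) L)) (T (F 32 (V L (S L L))) (K 2)))) (K 2)) (S (F 32 (T (V (T (F 2 (S (S L L) (T L L))) (U (S L L)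 (S L L))) (T (S (V L L) (V (S L L) L)) (U (S L L) (S L L)))) (V (S L L) (S L L)))) (T (V (T (F 32 (S (F 2 (V L L)) (F 16 (T L L)))) (F 32 (S (V L L) L))) (F 32 (T (S (U (S L L) (S L L)) (F 16 (V L L))) (U L (S L L))))) (V (S L L) (S (S L L) L)))))))
noncomputable def w9_64 : Tr := (V (F 16 (U (S (T (F 8 (U (K 2) (V (S L L) (F 8 (S L L))))) (K 2)) (F 2 (T (U L (V L (T L L))) (V (S (K 3) L) (K 3))))) (T (S (V (F 8 (T (S (T L (S L L)) (V (S L L) L)) (U L (S L L)))) (F 2 (T (F 4 (U (S L L) (S L L))) (S L (T L L))))) (V (F 8 (T (S (V L L) (F 8 (S L L))) (F 8 (U (S L L) (S L L))))) (F 2 (T (S (F 4 (T L L)) (U L L)) (U (S L L) (S L (S L L))))))) (S (V (S L (F 2 (T L L))) (F 2 (S L (S L L)))) (F 2 (V (T (S L (T L L)) (S L L)) (T (S L (T L L)) (S L L)))))))) (F 32 (T (S (F 2 (U (T (U (K 3) (V (S L L) (S L L))) (K 3)) (V (T (U (S (S L L) (S L L)) (S L (S L L))) (U L (S L L))) (T (S (F 1 (V L L))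 (U (S L L) (S L L))) (U (S L L) (S L L)))))) (F 2 (U (U (K 3) (V (S L (S L L)) (T (S L L) (K 3)))) (V (T (S (U (S L L) (S L L)) (U (S L L) L)) (U (S L L) (S L L))) (T (S (U (S L L) (S L L)) (V L L)) (U (S L L) (S L L))))))) (F 2 (U (K 3) (S (V (S L (S L L)) (T (S L L) L)) (V (T (S L (S L L)) (S L L)) (T (S L (S L L)) (S L L)))))))))
noncomputable def w9_65 : Tr := (V (V (U (S (T (F 64 (U (S (T L L) (F 36 (S L L))) (S (T (S L L) L) (F 36 (T L L))))) (F 8 (S (F 1 (T (U L L) L)) (F 32 (T L L))))) (F 9 (T (T (F 1 (U (S L L) (S L L))) (S L L)) (T (S L L) (S L L))))) (S (T (F 64 (S (F 4 (T L L)) (F 36 (S L L)))) (F 8 (T (F 1 (U L L)) (F 32 (U (S L L) L))))) (F 9 (T (T (F 1 (T L L)) (U (S L L) L)) (U (T (S L L) (S L L)) (S L L)))))) (F 8 (S (T (F 1 (U (S (T (S L L) (S L L)) (F 1 (T L L))) (S (T L L) (F 1 (T L L))))) (U (S (F 1 (T L L)) (F 32 (T L L))) (S (F 1 (T L L)) (F 32 (S L L))))) (F 32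 (T (U (T (F 16 (S L L)) (S L (S L L))) (T (F 16 (S L L)) (S L L))) (U (T (S L L) (S L L)) (T (S L L) (S L L)))))))) (F 8 (T (S (F 1 (V (U (T (S (S L L) (S L L)) (S (S L L) (S L L))) (T (S L L) (S L L))) (U (T (S (S L L) (S L L)) (S (S L L) (S L L))) (T (S L L) (S L L))))) (F 32 (V (U (T (F 16 (V L L)) (S L (S L L))) (T (F 16 (S L L)) (S L L))) (U (T (F 16 (S L L)) (S L (S L L))) (T (F 16 (S L L)) (S L L)))))) (S (V (U (S (F 1 (T L L)) (F 32 (T L L))) (S (F 1 (T L L)) (F 32 (S L L)))) (U (T (F 1 (S L L)) (F 1 (S L L))) (F 1 (T (S L L) L)))) (F 32 (V (U (T (S L L) (S L L)) (T (S L L) (S L L))) (U (T (S L L) (S L L)) (T (S L L) (S L L)))))))))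
noncomputable def w9_66 : Tr := (V (F 8 (U (T (S (V (S (T L L) (S L L)) (T (S L L) (S L L))) (V L (T L (S L L)))) (S (V (S (U (S L L) L) (U (S L L) L)) (T (S L L) (S L L))) (T (S (U L (S L L)) (V L L)) (S (V (S L L) L) (V (S L L) L))))) (S (T (V (U (T L L) (S L L)) (S (T L L) (S L L))) (V (U (T L (S L L)) (S L L)) (T (S L L) (S L L)))) (T (V (U (S L L) L) (S L L)) (V (U (S L L) (S L L)) (T (S L L) (S L L))))))) (T (F 8 (S (V (U (T (S (S L L) L) (S L L)) (T (S L L) (S L L))) (U (T (S (S L L) (S L L)) (S (S L L) (S L L))) (T (S L L) (S L L)))) (U (V (T (S L L) (S L L)) (T (S L L) (S L L))) (V (T (S L L) (S L L)) (T (S L L) (S L L)))))) (S (F 8 (U (V (T (S L L) (S L L)) (T (S L L) (S L L))) (V (T (S L L) (S L L)) (T (S L L) (S L L))))) (U (F 8 (V (T (S L L) (S L L)) (T (S (S L L) L) (S (S L L) (S L L))))) (T (F 8 (V (S L L) (S L L))) (F 8 (V (S L L) (S L L))))))))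
noncomputable def w9_67 : Tr := (V (F 8 (T (S (U (T (S (V (S L L) L) (V (S L L) L)) (S (V (S L L) L) (V (S L L) L))) (V (T (S L L) (S L L)) (T (S L L) (S L L)))) (U (T (S (V (S L L) L) (V (S L L) L)) (S (V (S L L) L) (V (S L L) (S L L)))) (V (T (S L L) (S L L)) (T (S L L) (S L L))))) (U (S (T (S (U L L) (V (S L L) L)) (S L (U L (S L L)))) (T (S (V (S L L) L) (V (S L L) (S L L))) (S (V (S L L) L) (V (S L L) (S L L))))) (S (V (T (S L L) (S L L)) (T (S L L) (S L L))) (T (V (S L L) (S L L)) (V (S L (S L L)) (S L L))))))) (T (S (U (V (F 8 (T (S L L) (S L L))) (T (F 8 (S L L)) (S L L))) (V (F 8 (T (S L L) (S L L))) (T (S L L) (S L L)))) (V (F 8 (U (T (S L L) (S L (S L L))) (T (S L L) (S L L)))) (T (U (S (S L L) (F 2 (S L L))) (S L L)) (F 2 (U (S L (S L L)) (S L L)))))) (S (U (T (V L L) (S L L)) (T (V (F 8 (S L L)) (S L L)) (V (S L L) L))) (U (T (V (S L (F 2 (S L L))) (F 2 (S L (S L L)))) (F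 2 (V (S L (S L L)) (S L L)))) (T (V (S L L) (F 2 (S L L))) (F 2 (V (S L L) (S L L))))))))
noncomputable def w9_68 : Tr := (S (F 4 (S (F 8 (T (F 1 (V (U (V (S (S L L) L) (U (S (S L L) L) (S L L))) (V (S L L) (S L L))) (U (V (T (S L L) L) (T (S L L) L)) (V (S (S L L) L) (S L L))))) (V (U (S (F 1 (V L (T L L))) (F 32 (V L (T L L)))) (F 1 (V L L))) (F 1 (U (V (S L L) (S L L)) (V (S L L) L)))))) (F 9 (V (T (U (V (S L L) (U (T L L) L)) (F 1 (V L L))) (U (V (S L L) (U (S L L) L)) (V L L))) (U (T (V (T L L) (T L L)) (V (S L L) (S L L))) (T (F 1 (V (S L L) L)) (V (S L L) L))))))) (F 144 (T (F 8 (V (S (U (V (S L L) (U (S L L) L)) (V L L)) (U (V L (T L L)) (S L L))) (U (S (V (S L L) (T L L)) (V (S L L) (S L L))) (S (V (S L L) (S L L)) (V (S L L) L))))) (S (F 8 (V (U (V (S L L) (U (S L L) L)) (V L L)) (U (V (S L L) (S L L)) (V (S L L) (S L L))))) (V (F 8 (U (T (S L L) (S L L)) (T L L))) (U (T (F 8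 (V L L)) (V L (S L L))) (T (F 8 (S L L)) (S L L))))))))
noncomputable def w9_69 : Tr := (S (T (V (F 16 (S (U (V (F 32 (S L L)) (V (F 32 (S L L)) L)) (F 32 (V L L))) (F 32 (U (V (S L L) (T (S L L) L)) (V L L))))) (S (F 16 (U (V (S L L) (S L L)) (V (S L L) L))) (F 1 (U (V (F 4 (S L L)) (S L L)) (V (F 4 (S L L)) L))))) (V (F 17 (S (U (T L L) (S L L)) (U (T (S L L) (S L L)) (S L L)))) (S (V (F 17 (U L L)) (S L L)) (F 1 (U (T (S L L) (S L L)) (S L L)))))) (F 1 (T (S (V (F 4 (U (T (S L L) (S L L)) (V L L))) (U (V (F 4 (S L L)) (T L L)) (V (F 4 (S L L)) (S L L)))) (V (F 4 (U (T (S L L) (S L L)) (T L (S L L)))) (U (T (V L (S L L)) (V (S L L) L)) (T (S L L) (S L L))))) (V (S (F 4 (U (T (S L L) (S L L)) (T L L))) (U (F 4 (V (T L (S L L)) (T L L))) (T (F 4 (S L L)) (S L L)))) (S (U (T (V L L) (V L L)) (V (S L L) (S L L))) (V (U (T (S L L) (S L L)) (S L L)) (F 16 (U (T L L) (S L L)))))))))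
noncomputable def w9_70 : Tr := (V (T (S (F 5 (U (F 8 (V (T (S (S L L) (S L L)) (S (S L L) (S L L))) (T (S (S L L) (T L L)) (S (S L L) (S L L))))) (F 8 (V (T (S L L) (S L L)) (T (S L L) (S L L)))))) (F 16 (T (F 80 (U (V (F 16 (U (S L L) L)) (V (F 16 (S L L)) (F 4 (S L L)))) (F 16 (V (S L L) (S L L))))) (F 1 (V (F 4 (U (S L (S L L)) (S L L))) (F 1 (U (F 8 (S L L)) (S L L)))))))) (F 16 (S (F 64 (V (F 2 (U (T (S L L) (S L L)) (T (S L L) L))) (U (T (F 2 (S L L)) (S L L)) (T (S L L) (S L L))))) (F 1 (U (V (F 4 (T (S L L) (S L L))) (T (F 16 (S L L)) (F 16 (S L L)))) (V (T (F 4 (S L L)) (S L L)) (T (S L L) L))))))) (F 16 (T (F 64 (S (U (F 8 (V (T (F 8 (S L L)) (V (F 8 (S L L)) (S L L))) (T (S (S L L) (S L L)) (S (S L L) (S L L))))) (V (T (S L L) (F 8 (S L L))) (F 8 (T (S L L) (S L L))))) (F 8 (U (V (T (S (T L L) (F 1 (S L L))) (S (S L L) L)) (T (S (T L L) (F 1 (S L L))) (S (S L L) L))) (V (T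 (S (S L L) L) (S L L)) (T (S (S L L) L) (S L L))))))) (F 4 (S (F 1 (V (U (T (S (S L L) L) (S L L)) (T (S L L) L)) (U (T (S L (S L L)) (S L L)) (T (S L L) (S L L))))) (V (U (T (S L L) (S L L)) (F 32 (T (S L L) L))) (U (T (S L (F 32 (S L L))) (S L L)) (S (F 1 (T L L)) (F 32 (T L L))))))))))
noncomputable def w9_71 : Tr := (V (T (S (V (F 8 (U (T (S (T L L) (T L L)) (S (S L L) (S L L))) (T (S L L) (S L L)))) (U (F 2 (T (F 4 (S (S L L) (S L L))) (V (F 4 (S L L)) (S L L)))) (T (S L L) (F 2 (S L L))))) (V (U (F 8 (T (S (S L L) (S L L)) (S (S L L) L))) (T (F 8 (S L L)) (S L L))) (F 2 (U (T (S (T L L) (S L L)) (S (S L L) (S L L))) (T (S L L) (S L L)))))) (S (V (U (T (F 8 (S L (S L L))) (S (S L L) (F 2 (S L L)))) (T (S L (S L L)) (S L L))) (F 2 (U (T (S (S L L) (S L L)) (S L L)) (T (S L L) (S L L))))) (F 2 (U (T (V (S (S L L) (S L L)) (S (S L L) (S L L))) (V (S (S L L) (S L L)) (S (S L L) (S L L))))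 (T (V (S L L) (S L L)) (V (S L L) (S L L))))))) (F 2 (T (S (U (V (T (S (F 1 (S L L)) (T L L)) (S (S L L) (S L L))) (T (S (F 1 (S L L)) (T L L)) (S (S L L) (S L L)))) (V (T (S L L) (S L L)) (T (S L L) (S L L)))) (U (T (V (S (T L L) (S L L)) (S (T L L) (T L L))) (V (S (S L L) (S L L)) (S (S L L) (S L L)))) (V (T (S L L) (S L L)) (T (S L L) (S L L))))) (S (V (U (T (S L (S L L)) (S L L)) (T (S L L) (S L L))) (T (U (S (S L L) (S L L)) (S L L)) (U (S L (S L L)) (S L L)))) (T (U (V (S (S L L) (S L L)) (S (S L L) (S L L))) (V (S L L) (S L L))) (V (U (S (S L L) (S L L)) (S L L)) (U (S (S L L) (S L L)) (S L L))))))))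
noncomputable def w9_72 : Tr := (S (V (T (F 64 (S (F 2 (U (V (T L L) (T L L)) (V (S L L) (S L L)))) (F 32 (V (F 8 (U (S L L) L)) (U (T L L) (S L L)))))) (S (F 64 (V (F 2 (U (S L L) L)) (U (T L L) (S L L)))) (F 1 (U (V (T L L) (T L L)) (V (S L L) (S L L)))))) (T (F 64 (S (V (U (T (S L L) (S L L)) (S L L)) (F 8 (U (T L L) (S L L)))) (F 40 (U (V (S L L) (T L L)) (V L L))))) (S (F 68 (U (V (S L L) (S L L)) (V L (S L L)))) (F 5 (U (V (T L L) (T L L)) (V L (S L L))))))) (F 1 (T (V (S (U (V (F 4 (T (S L L) L)) (T (S L L) (S L L))) (V (F 4 (S L L)) (S L L))) (U (V (T L (S L L)) (F 16 (T L L))) (V (S L L) (F 16 (S L L))))) (F 16 (S (U (V (T (S L L) L) (T (S L L) (S L L))) (V (S L L) (S L L))) (U (T (V (S L L) (S L L)) (V (S L L) (S L L))) (V (S L L) (S L L)))))) (V (S (V (U (T (S L L) L) (S L L)) (F 16 (U (T L L) (S L L)))) (T (V (S (S L L) L) (F 16 (U (S L L) L))) (F 16 (U (V L (S L L)) (S L L)))))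 (F 16 (U (S (T (V L (S L L)) (V L L)) (T (V (S L L) (S L L)) (V (S L L) (S L L)))) (S (V (S L L) (T L L)) (T (S L L) (V L (S L L))))))))))
noncomputable def w9_73 : Tr := (V (T (S (U (F 2 (V (T (S L L) L) (T (S L L) L))) (T (V (S L L) (F 2 (S L L))) (F 2 (V (S L L) (S L L))))) (F 2 (U (V (T (S (S L L) (S L L)) (S L (S L L))) (T (S (S L L) (S L L)) (S L (S L L)))) (T (V (S L L) (S L L)) (V (S L L) (S L L)))))) (F 2 (S (U (V L L) (T (V L L) (V L L))) (U (T (V (S L L) (S L L)) (V L L)) (T (V (S L L) (S L L)) (V (S L L) (S L L))))))) (F 2 (T (S (U (V (T (S L L) L) (T (S L L) L)) (T (V (S L L) (S L L)) (V (S L L) (S L L)))) (T (V (U (S (S L L) (S L L)) (S L L)) (U (S (S L L) (S L L)) (S L L))) (V (U (S L L) (S L L)) (U (S L L) (S L L))))) (U (S (V L L) (V (T (S L L) L) (T (S L L) (S L L)))) (S (V (T L L) (T (S L L) (S L L))) (V (T (S L L) (S L L)) (T (U (S L L) (S L L)) (S L L))))))))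
noncomputable def w9_74 : Tr := (S (V (T (S (U (V (S L L) (S L L)) (V L L)) (F 64 (V (U (S L L) L) (F 2 (T L L))))) (U (S (V L L) (F 64 (V (S L L) L))) (S (S L L) (F 64 (S L L))))) (F 16 (S (T (U (V (S L L) (F 32 (T L L))) (V (S L L) L)) (U (T (S L L) L) (S L L))) (F 1 (T (U (V (S L L) (T L L)) (V (S L L) L)) (T (U (S L L) L) (U L L))))))) (F 64 (T (V (S (T (V (S L L) (F 2 (S L L))) (F 2 (U (S L L) L))) (F 2 (T (U (V L (S L L)) (S L L)) (U (V (S L L) (S L L)) (S L L))))) (F 2 (U (S (V (T L L) (T (S L L) (S L L))) (V (T (S L L) (S L L)) (T (U L L) (S L L)))) (S (T (S L L) (S L L)) (T (S L L) (S L L)))))) (F 2 (S (V (U (T (S L L) (S L L)) (T L (S L L))) (T (U (S L L) (S L L)) (U (S L L) L))) (V (U (T (V (S L L) (S L L)) (V L L)) (T (S L L) (V L L))) (T (U (V (S L L) L) (S L L)) (U (S (S L L) (S L L)) (S L L)))))))))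
noncomputable def w9_75 : Tr := (V (U (T (F 8 (S (F 4 w9_65) (F 144 w9_66))) (F 24 (S (V (F 4 (U (S (T (V (F 1 (S L (S L L))) (S L L)) (F 1 (S L L))) (F 1 (T (V (U (T L L) (S L L)) (S L (T L L))) (T (S L L) L)))) (T (S (V (F 1 (U (S L L) (S L L))) (S (S L L) L)) (F 1 (V (U (S L L) (S L L)) (T L L)))) (F 1 (S (V (U L L) L) (V (U (S L L) (S L L)) (S L L))))))) (S (T (F 4 (U (V (S L L) L) (V (T (S L L) L) (S L L)))) (U L (V L L))) (F 64 (T (U (F 8 (V (S L L) (S L L))) (V (F 8 (T L L)) (T L L))) (U (S L L) (T (V L L) (S L L))))))) (F 64 w9_67)))) (F 8 (T w9_68 (F 16 w9_69)))) (T (F 8 (U (S w9_70 (F 144 w9_71)) (F 16 w9_72))) (F 24 (U (S (V (T (S (U (V (S L L) L) (V (T (S L L) L) (S L L))) (F 64 (U (V (S L L) (F 2 (S L L))) (V (T (S L L) L) (F 2 (S L L)))))) (S (V (S L L) (F 16 (S L L))) (F 80 (U L (V L L))))) (F 16 (T (S (U (V (S L L) (S L L)) (V (T L L) (T L L))) (U (V (F 1 (S L L)) (S L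 L)) (F 1 (V (T L L) (T L L))))) (U (S (S L L) (F 1 (S L L))) (S (V L (U L L)) (F 1 (V (S L L) (U L L)))))))) (F 64 w9_73)) w9_74))))
noncomputable def treeW9 : Tr := (F 0xfffffffffffffffdfffffffffffffffff399fef333b9ce673b (S (F 18910874 (T (F 16512 (U (F 288 w9_9) (F 11 (U (F 32 w9_13) (F 1024 w9_15))))) (F 32768 w9_32))) (F 18909716 (T (F 395392 (U (F 8 w9_45) (F 16395 w9_60))) (F 295040 (U (F 49192 (U (T (F 2056 (V (F 16 (S (F 256 (V (F 1 (S L L)) (K 3))) (F 137 (V L L)))) (F 64 (S (K 3) (K 3))))) (F 536 (V (T (F 17 (V (S (K 3) L) (K 3))) (K 5)) (K 5)))) (F 3584 (V (F 32 w9_62) (F 16 (T (S (F 8 w9_63) (F 1 w9_64)) (F 8 (U (K 3) (S (V (K 3) (F 16 (S (V (K 2) (S L (K 2))) (K 2)))) (F 80 (V (T (S (V L (K 1)) (V (T (S L L) L) (T L (K 1)))) (V (S (K 1) (S (K 1) L)) (K 1))) (T (S (K 1) (V (T L (K 1)) (K 1))) (K 1))))))))))))) (F 49199 w9_75)))))))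

theorem pW9 : chkW par treeW9 128 128 128 128 640 128 349525 524288 Lc = true := by decide +kernel

noncomputable def w10_0 : Tr := (S (V (F 128 (U (S (V (T L (F 64 (S L L))) (T L (F 64 (S L L)))) (F 192 (V (T L (V L L)) (T L (S L L))))) (F 64 (S (V L L) (F 1 (V (S L L) (S L L))))))) (F 2 (U (F 2 (V (S (U (S L L) (S L L)) (F 1 (U (T L L) (S L L)))) (S (S L L) (F 1 (T L L))))) (S (F 2 (T L L)) (F 128 (V L L)))))) (F 3 (V (F 2 (U (V (T (S (S L L) (U (T L L) L)) (S (U (S L L) L) (U (V L L) (S L L)))) (T (S (S L L) (T L (S L L))) (S (U (S L L) L) (U (T L (S L L)) L)))) (V (T (S L L) (S L (S L L))) (T (S L L) (S L L))))) (U (V (F 2 (T (U (S L L) (S L L)) (S (U (S L L) L) (V (S L L) L)))) (T (F 2 (S L (S L L))) (F 8 (S (F 16 (S L L)) (V L L))))) (V (F 2 (T (S L L) (S L L))) (T (S L L) (F 8 (S L L))))))))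
noncomputable def w10_1 : Tr := (T (V (F 2 (U (V (S (F 8 (T (V L L) (U (S L L) L))) (F 8 (T (V L L) (U (S L L) L)))) (F 8 (S (T (S L L) (U (S L L) L)) (T (S L (S L L)) (U (S L L) L))))) (F 8 (V (S (T L L) (T L L)) (S (S L L) (T L L)))))) (F 8 (U (V (F 16 (T (U (S L L) (S L L)) (S (V L L) (V (S L L) L)))) (S (T (S L L) (S L L)) (T (S L L) (U (S L L) L)))) (S (F 16 (V (S L L) L)) (V (U L L) (S L L)))))) (F 8 (V (U (F 16 (V (S (T (U (S L L) L) (V L L)) (T (U (S L L) L) (S L L))) (S (T (U (S L L) L) (S (S L L) L)) (T (U (S L L) L) (S L L))))) (V (F 16 (S (T L L) (S L L))) (S (F 16 (T L L)) (T L L)))) (U (S (V (T (U (F 16 (S L L)) L) (U (S L L) L)) (T (S L (S L L)) (V (S L L) L))) (V (T (U (F 16 (S L L)) L) (V L (S L L))) (T (U (S L L) L) (V L L)))) (V (S (F 16 (T L L)) (T L L)) (S (S L L) (S L L)))))))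
noncomputable def w10_2 : Tr := (T (F 1 (V (F 32 (U (V (S (F 4 (T (U (S L L) L) (U (S L L) (S L L)))) (F 4 (T (U (V L L) (S L L)) (U (S L L) L)))) (F 4 (S (T (U (S L L) L) (U (S L L) L)) (T (U (S L L) L) (U (S L L) L))))) (F 4 (V (T (S L L) (S L L)) (T (S L L) (S L L)))))) (F 8 (U (V (T (F 2 (S (V L L) (V (S L L) (S L L)))) (S (F 2 (V (S L L) L)) (V L (S L L)))) (T (S (U (S L L) L) (U (S L L) L)) (S (U (S L L) L) (U (S L L) L)))) (V (U (T (F 2 (S L L)) (S L L)) (S L L)) (T (S L L) (S L L))))))) (F 16 (V (U (V (F 16 (T (F 1 (S (V (S L L) L) (V L L))) (S (F 1 (S L L)) (S L L)))) (T (F 80 (S (U (S L L) L) (S L L))) (S (F 80 (S L L)) (S L L)))) (V (F 16 (T (F 1 (S L L)) (S L L))) (T (F 64 (S L L)) (S L L)))) (U (V (T (F 64 (S (U (S L L) L) (U (S L L) L))) (F 64 (S (V L L) L))) (F 64 (T (S (U (S L L) L) (V L L)) (S (S L L) (F 8 (S L L)))))) (F 64 (V (U (S (S L L) L) (S L L)) (T (S L L) (S L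 L))))))))
noncomputable def w10_3 : Tr := (T (F 12360 (U (F 8 (T (F 128 (S (V (U (T (S L (S L L)) (V (S L L) (S L L))) (T (S L L) (S L L))) (U (V (S (S L L) (T L L)) (S L L)) (T L (S L L)))) (V (U (T (V (S L (F 128 (S L L))) (S L (F 128 (S L L)))) (F 192 (V (S L (V L L)) (S L (S L L))))) (F 128 (T (V L L) (F 1 (V (S L L) (S L L)))))) (U (V (T (F 128 (U (S L L) L)) (F 192 (U (S L L) (S L L)))) (F 128 (T (S L L) (F 1 (S L L))))) (F 128 (T (S L L) (F 1 (V L L)))))))) w10_0)) (S (F 10 (T (V (S L L) (S L L)) (F 2 (V (U (S L L) L) (T L L))))) (F 520 (V (F 64 (T (U (T L L) L) (F 64 (U (V (S L L) (S L L)) (S L L))))) (T (T L (F 1 (S L L))) (F 1 (U (T L (F 8 (S L L))) L)))))))) (F 66 (U (F 34 (S (F 517 w10_1) (F 5 w10_2))) (F 2626 (S (F 128 (V (F 10 (T (U (V (S L L) (S L L)) L) (U (V (S L L) (S L L)) L))) (T (U (F 8 (S L (S L L))) L) (U (F 8 (S (S L L) (S L L))) L)))) (F 8 (V (T (F 1 (U (V (F 16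 (S L L)) (S L L)) (F 16 (S L L)))) (U (T (F 5 (S L L)) L) L)) (T (F 1 (U (T (S L L) (S L L)) L)) (F 1 (U (T (S L L) L) L))))))))))
noncomputable def w10_4 : Tr := (S (F 2 (V (U (F 8 (V (T (F 32 (S (V L L) (U (T L L) L))) (S (U (V L L) (S L L)) (F 32 (U (V L L) (S L L))))) (T (F 32 (S (T L L) (U (S L L) L))) (S (U (S L L) L) (F 32 (U (T L L) L)))))) (F 8 (V (F 32 (T (S L L) (S L L))) (T (F 32 (S L L)) (F 32 (S L L)))))) (U (T (F 9 (V (S (U L L) (T L L)) (S L (S L L)))) (F 8 (V (S (U (S L L) L) (F 32 (V (S L L) (S L L)))) (S (S L L) (F 32 (T L L)))))) (F 8 (T (F 32 (V (S L L) L)) (V (S L (F 32 (S L L))) (S L L))))))) (F 128 (V (F 32 (U (V (F 8 (T (S (U (T L L) (S L L)) (V L (S L L))) (S (U (T L L) L) (V L L)))) (T (F 8 (S (U (T L L) L) (U (S L L) L))) (F 8 (S (U (T L L) L) (U (S L L) L))))) (F 8 (V (T (S L L) (S L L)) (T (S L L) (S L L)))))) (U (T (F 32 (V (F 8 (S (U (S L L) L) (V (S L L)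 (S L L)))) (S (T L L) (U (S L L) L)))) (V (F 36 (S (U (S L L) L) (V (S L L) (S L L)))) (V (F 36 (U (S L L) L)) (F 2 (S (F 16 (S L L)) (F 8 (S L L))))))) (V (F 32 (T (F 8 (S (S L L) L)) (F 8 (S (S L L) L)))) (T (F 32 (S L L)) (S L L)))))))
noncomputable def w10_5 : Tr := (V (F 72 (S (F 1 (U (V (T (S (V (S L L) (S L L)) (F 1 (V (S L L) (S L L)))) (S (U (V (S L L) (S L L)) (S L L)) (F 1 (U (V L L) (S L L))))) (T (S (U (S L L) (S L L)) (F 1 (U (T L L) L))) (S (U (T (S L L) L) (S L L)) (F 1 (U (T L L) L))))) (V (T (S L L) (S (S L L) L)) (T (S L L) (S (S L L) L))))) (F 64 (U (V (T (F 32 (S (U (T L L) L) (T L L))) (S (F 32 (V L (S L L))) (V L L))) (T (F 32 (S (U (T L L) L) (U (S L L) L))) (F 4 (S (F 1 (U (S L L) L)) (U (S L L) L))))) (V (T (F 32 (S L L)) (S L L)) (T (F 32 (S L L)) (F 4 (S L L)))))))) (U (S (F 264 (V (F 2 (T (S (U (S L L) L) (F 1 (U (S L L) L))) (F 8 (S (U (S L L) L) (F 16 (V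 (S L L) L)))))) (T (S (F 2 (T L L)) (F 72 (V L L))) (F 8 (S (U (T L L) L) (F 1 (U (T L L) L))))))) (F 1 (T (F 1 (V (F 36 (S (V (S L L) L) (T L L))) (F 8 (U (S (F 8 (S L L)) (F 16 (S L L))) (F 8 (S L L)))))) (F 48 (V (S (F 32 (U (S L L) L)) (U (T L L) L)) (S (F 32 (U (T L L) L)) (F 2 (U (S L L) L)))))))) (S (F 264 (V (F 2 (U (T (S L L) (F 8 (S L L))) (S L L))) (T (S L L) (F 8 (S L (F 1 (S L L))))))) (F 1 (V (F 32 (T (F 80 (S (S L L) L)) (F 4 (S (F 1 (S L L)) (S L L))))) (F 16 (T (F 68 (V L L)) (F 4 (U (S L L) L)))))))))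
noncomputable def w10_6 : Tr := (S (V (F 4 (U (V (S (F 32 (T (U (V L L) (S L L)) (V L (S L L)))) (F 1 (T (F 1 (V L L)) (V L L)))) (T (F 32 (S (U (S L L) L) (F 16 (U (S L L) L)))) (S (F 32 (U (S L L) L)) (F 1 (U (S L L) L))))) (V (T (F 33 (S L L)) (F 1 (S L L))) (T (F 32 (S L L)) (S L L))))) (U (V (T (F 1 (S (U (T L L) L) (F 1 (V L (S L L))))) (S (F 1 (U (S L L) L)) (F 64 (U (S L L) L)))) (S (F 1 (T (U (T L L) (S L L)) (U (S L L) L))) (F 64 (T (F 32 (U (T L L) L)) (F 2 (U (S L L) L)))))) (V (U (T (F 1 (S L L)) (S L L)) (S L L)) (T (F 1 (S L L)) (S L L))))) (F 64 (V (U (V (F 8 (S (T (V L (S L L)) (V L L)) (T (S L L) (S L L)))) (T (F 8 (S (U (S L L) L) (U (S L L) L))) (S (U (S L L) L) (U (T L L) L)))) (V (F 8 (S (T L L) (S L L))) (T (F 8 (S L L)) (S L L)))) (U (V (T (S (U (T L L) L) (U (T L L) L)) (S (U (T L L) L) (T (S L L) (F 2 (S L L))))) (F 2 (T (U (S (T L (S L L)) (T L (S L L))) (S L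 L)) (S (U (S L L) L) (U (T (S L L) L) (S L L)))))) (T (V (U (S L L) L) (F 2 (S L L))) (V (U (S L L) L) (F 2 (S L L))))))))
noncomputable def w10_7 : Tr := (S (F 2 (V (U (V (F 17 (T (S (V L L) (V L L)) (S (S L L) (S L L)))) (T (S (T (F 16 (S L L)) L) (F 1 (T (S L L) L))) (S (S L L) (F 1 (U L L))))) (V (F 17 (T (S L L) (S L L))) (T (S L L) (F 1 (S L L))))) (U (T (V (U (S (S L L) (F 1 (S L L))) (S L L)) (F 4 (S (T L L) (F 32 (T L L))))) (V (S (S L L) (F 1 (S L L))) (F 4 (S (S L L) (F 32 (S L L)))))) (V (T (S L L) (S L L)) (F 4 (T (S L L) (S L L))))))) (F 130 (V (U (T (V (F 8 (S (V L L) (V L (S L L)))) (S (U (T L L) L) (U (T L L) L))) (S (V (F 8 (S L L)) (U (S L L) L)) (V (T (F 8 (S L L)) (S L L)) (U (T L L) (S L L))))) (T (V (F 8 (S L L)) (S L (S L L))) (V (S L L) (S L (S L L))))) (U (T (S (V (U (T L L) L) (F 2 (U (T L L) L))) (F 2 (V (U (T L (S L L)) (S L L)) (T (S L L) (S L L))))) (F 2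 (V (S (U (S L L) L) (U (S L (S L L)) L)) (S (T (S L L) L) (T (S L L) (S L L)))))) (T (V (S L (S L L)) (F 2 (S L (S L L)))) (V (S L (S L L)) (F 2 (S L L))))))))
noncomputable def w10_8 : Tr := (T (F 2053 (U (F 8 (T (F 256 w10_4) w10_5)) (T (F 521 (V (F 36 (S (U (V (S L L) (S L L)) L) (U (V (S L L) (S L L)) L))) (S (F 4 (U (T L (S L L)) L)) (U (V (F 36 (S L L)) (T L L)) (S L L))))) (F 8 (V (F 8 (S (F 1 (U (F 32 (V (F 32 (S L L)) (S L L))) (F 33 (S L L)))) (F 128 (U (F 16 (V (S L L) (S L L))) (F 64 (S L L)))))) (S (F 264 (U (T (F 64 (S L L)) (F 8 (S L L))) L)) (F 1 (U (T (F 33 (S L L)) (F 48 (S L L))) L)))))))) (F 1 (U (F 1040 (T (F 280 w10_6) (F 24 w10_7))) (F 1218 (T (S (F 16 (V (F 64 (U (V (F 8 (S L L)) (S L L)) L)) (U (T (F 1 (S L L)) (S L L)) L))) (F 1 (V (U (F 8 (V (F 8 (S L L)) (S L L))) L) (F 8 (U (T (S L L) (S L L)) (S L L)))))) (V (F 1 (S (F 8 (U (T (S L L) L) L)) (U (F 8 (T (S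 L L) (S L L))) (S L L)))) (F 16 (S (U (T (S L L) (S L L)) L) (F 64 (U (T (S L L) (F 2 (S L L))) (S L L)))))))))))
noncomputable def treeW10 : Tr := (F 0xffffffffffffffffffffffffffffffffffffffe3f31fce677b (S (F 33 w10_3) (F 32897 w10_8)))

theorem pW10 : chkW par treeW10 128 128 128 128 640 128 524288 699051 Lc = true := by decide +kernel


end Pool.Agent.Lib.H56.Gen.D3
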