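import Pool.Agent.Lib.H56.Gen.D3.Par
import Pool.Agent.Lib.H56.Gen.D3.Cos

/-!
# Certificate tree W, part 3
-/

set_option maxRecDepth 100000

namespace Pool.Agent.Lib.H56.Gen.D3

open Tr

noncomputable def w11_0 : Tr := (T (S (V (F 10772 (U (F 16 (S L L)) (F 256 (T L (F 8 (S L L)))))) (F 1 (U (K 6) L))) (F 13824 (V (F 33 (U (V (F 36 (T (S L L) (S L L))) (F 1 (S L L))) (F 1 (T (V (F 36 (S L L)) L) (V (F 32 (S L (T L L))) (S L L)))))) (F 512 (U (K 6) (F 256 (V (F 16 (S L L)) L))))))) (F 9728 (S (F 2 (V (F 16 (U (F 8 (S (T L L) (T L (F 129 (T L L))))) (F 256 (V (F 16 (S (F 32 (S L L)) (F 1 (T L (F 8 (S L L)))))) (F 8 (S L (F 1 (T L L)))))))) (F 1 (U (K 2) (V (F 8 (S L L)) L))))) (F 1027 (V (F 8 (U (T (V (F 4 (S L (U L (F 8 (V L L))))) (S L L)) (U (F 8 (S (F 8 (S L L)) (V (F 8 (T L (S L L))) L))) (F 12 (V (S (V (S L L) L) (V (T L L) (S L L))) (V (S L L) L))))) (S (F 4 (V (T (F 2 (S L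 L)) (F 8 (V (S L L) L))) (F 8 (T L (S L L))))) (F 8 (T (F 8 (V (V L L) (V L L))) (F 8 (V (U (V (S L L) L) (S L L)) (U (S L L) L)))))))) (U (F 16 (U (K 1) (T L (V L L)))) (F 16 (V (S (F 8 (S L L)) (F 8 (T L (T L L)))) (T L (S L (U L L)))))))))))
noncomputable def w11_1 : Tr := (V (F 68 (U (T (F 68 (V (S L L) (K 4))) (F 196 (S (S L L) (T (V L L) L)))) (F 128 (T (F 1 (V (F 4 (S (T L (S L (T L L))) (T (T L (S L L)) (U L (V (T (S L L) (S L L)) (S L L)))))) (T (F 4 (S (K 3) L)) (F 4 (S L (V L L)))))) (F 16 (V (U (F 32 (S (T L L) (S L L))) (F 32 (S (T (V (S (S L L) L) (S L L)) (S (S L L) L)) (T (V L (S L L)) L)))) (F 32 (S (T (S L (S L L)) (U (S L L) (V (S (S L L) (S L L)) (S L (S L L))))) (U (T L (S L L)) (T (V (S L (S L L)) (S L L)) (V (S L L) (S (T L L) (T L L))))))))))))) (F 3 (T (F 128 (V (S (K 5) (F 8 (V (S (K 1) L) (K 1)))) (K 5))) (F 4 (V (F 1 (U (T (K 1) (S (F 32 (S (K 3) L)) (S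 (S L L) L))) (S (T (S (K 1) L) (F 32 (V (S L (S L L)) (S L L)))) (V (F 4 (T (S L L) (U (T L (F 1 (S L L))) (S (T L L) (T L L))))) (T (S L L) (F 32 (S (V L L) (T L (V L (S L L)))))))))) (F 2 (S (F 32 (U (K 3) (T (K 3) (V (S L L) (S L L))))) (F 32 (U (U (K 3) (V (S L L) L)) (T (V L L) (V (S (V L L) (U L (T L (S L L)))) (S (S L L) (U L (V (S L L) L))))))))))))))
noncomputable def w11_2 : Tr := (S (V (F 4 (U (T (V (S (U L L) (S L L)) (S L L)) (V (S (T L L) (T L L)) (S (U (S L L) L) (U (S L L) L)))) (T (S (V L (S L L)) (V L (S L L))) (S (V (T L L) (S L L)) (V (U L L) (S L L)))))) (U (T (S L L) (S (F 32 (V (S L L) L)) (V (T L L) L))) (T (S (V L L) (V L L)) (V (S (F 32 (S L L)) (S L L)) (F 32 (S (S L L) (S L L))))))) (V (F 4 (U (T (U (S (V (S L L) L) (V L L)) (V (S L L) (S L (S L L)))) (V (U (S L L) (S (S L L) (S L L))) (S (U (S L L) L) (S L L)))) (T (S (V L L) (V (S L L) L)) (S (V (S L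 L) (S L L)) (V L (S L L)))))) (U (T (S (S L L) (F 4 (S L L))) (V (F 4 (S (T L L) (T L L))) (S (F 32 (S L L)) (T L L)))) (T (V (F 4 (S L (S L L))) (S L L)) (V (F 4 (S (S L L) (S L L))) (S (F 32 (S L L)) (T L L)))))))
noncomputable def w11_3 : Tr := (T (U (F 16 (S (V (F 8 (T (F 32 (U L L)) (F 32 (U (S L L) (V (S L L) (S L L)))))) (F 1 (U L (S L L)))) (F 9 (V (U (T L (S (S L L) (U L (S L L)))) (T (V (S L L) L) (V (S L L) (S L L)))) (U L (S L (T L L))))))) (F 144 (V (F 4 (S (T (V L L) (U (S L L) L)) (T (U (S L L) L) (U (V (S L L) L) (S L L))))) (S (T L (S (S L L) (S L L))) (T (F 4 (S L L)) (V (F 4 (S L L)) (U L L))))))) (F 144 (U w11_2 (S (V (T (F 4 (U (S (S L L) (S L L)) (S L L))) (U (F 4 (S (T L L) (S L L))) (V L (S L L)))) (T (U (V (S L L) (S L L)) (S L L)) (U (S (F 32 (S L L)) (V L L)) (V (S L L) L)))) (V (F 4 (T (U (V (S L L) (S L L)) (S L L)) (U (V (S L L) (S L L)) (S L L)))) (T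 (U (V (F 4 (S L L)) (S L L)) (S L L)) (U (S (V L L) (V L (S L L))) (S (S L L) (S L L)))))))))
noncomputable def w11_4 : Tr := (U (F 1 (T (F 4 (S (V L L) (V (T L (S L L)) (S L L)))) (F 4 (S (F 1 (V (T (V (S L L) L) (U (S (S L L) (S L L)) (S (V (S L L) L) (V (S L L) (S L L))))) (U (V (S L L) (S L L)) (V (S L (S L L)) (S L (U L (S L L))))))) (V (T (U (S L L) (V (S L (S L L)) (F 1 (S L L)))) (F 1 (U (V (S L (V L L)) (S L (S L L))) (S (V (S L L) (S L L)) (V (S L L) (S L L)))))) (F 1 (V (U (S L (S L L)) (T (S L L) (S (S L L) (S L L)))) (T (S L L) (U (S L L) (S (S L L) (S L L))))))))))) (F 1 (T (F 4 (V (S (U (S L L) (S L L)) (T (S L L) (U (S L L) (S L L)))) (S (F 1 (S L L)) (U (S L L) (T L L))))) (F 4 (S (F 1 (V (U (T (S L L) (S (V L L) (V L L))) (T (S L L) (S (S L L) (S L L)))) (T (S (S L L) (U L L)) (S (U (S L (S L L)) (S L L)) (U (V (S L L) L) (S L L)))))) (V (T (V (U (S L L) L) (F 1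 (S L L))) (F 1 (S (U (V L L) (S L L)) (U (V L L) (S L L))))) (F 1 (U (T (V (S L L) (S L L)) (V (S L L) (S (S L L) (S L L)))) (T (S L L) (S (S L L) (T L L)))))))))))
noncomputable def w11_5 : Tr := (U (F 4 (V (S (T (V (S (S L L) (S L L)) (U (S L (T L L)) (S (S L L) L))) (U (S (V L L) (V L L)) (V (T (S L L) L) (S L L)))) (T (V (T (S L L) (S L L)) (U (T (S L L) (S L L)) (S L L))) (U (V L L) (V L (S L L))))) (S (T (V (S (S L L) (S L L)) (S L (S L L))) (V (S (T L L) (T L L)) (S (T L L) (T L L)))) (T (V (S (T L L) (T L L)) (S (T L L) (T L L))) (V (T (S L L) (S L L)) (S (T L L) (T L L))))))) (V (F 4 (S (T (S (V (S L L) L) (V (T L L) (S L L))) (V (S L L) (T (S L L) (S L L)))) (T (V (T (S L L) (S L L)) (T (S L L) (S L L))) (T (V L (S L L)) (V L L))))) (S (T (F 4 (V (T (S L L) (S L L)) (S L (S L L)))) (S (F 4 (V (S L L) (S L L))) (F 4 (V (S L L) (S L L))))) (F 4 (T (V (T (S L L) (S L L)) (S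 (S L L) (S L L))) (V (S (S L L) (S L L)) (S (S L L) (S L L))))))))
noncomputable def w11_6 : Tr := (V (S (U (T (V (S L L) (S L L)) (S (F 32 (V (T L (S L L)) (U L (S L L)))) (V (T (S L L) (F 32 (S L L))) (F 32 (T (S L L) (S L L)))))) (T (V (S (S L L) (S L L)) (S L (S L L))) (S (F 32 (V (S L L) (S L L))) (V (T L L) (F 32 (T L L)))))) (T (U (V (F 4 (S (T L L) (T L L))) (S (V L L) (F 4 (T L (S L L))))) (V (F 4 (S (S L L) (S L L))) (S (T L L) (T L (S L L))))) (V (U (F 4 (S (T (S L L) L) (T (S L L) (S L L)))) (S (T L (S L L)) (F 4 (T L L)))) (F 32 (U (S (T (S L L) (S L L)) (T (S L L) (S L L))) (S (T L L) (T L L))))))) (S (F 32 (U (V (T L (S (V L L) (T (S L L) (S L L)))) (T L (S (V L L) (T (S L L) (S L L))))) (T (V (S L (S L L)) (S L (S L L))) (S (V (S L L) (S L L)) (V (T L L) (T L L)))))) (T (U (F 32 (V (S L (V (S L L) L)) (S L (V L L)))) (S (F 32 (V (S L L) (S L L))) (V (T L L) (F 32 (S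 L L))))) (F 32 (S (V (U (T (S L L) (S L L)) (T L L)) (U (T (S L L) (S L L)) (T L L))) (U (V (T (S L L) (S L L)) (T (S L L) (S L L))) (V (T L L) (T L (S L L)))))))))
noncomputable def w11_7 : Tr := (V (T (F 49 (S (V (U (T (S L (T L L)) (V (S (S L L) (T L L)) (S L (S L L)))) (T (V (S L L) (S L L)) (V (S L (S L L)) (T L (S L L))))) (U (S L (U L (T L L))) (T (S L L) (S (V L L) (V L (S L L)))))) (V (T (U (V (T (S L L) (S L L)) (T L (S L L))) (V (T L (S L L)) (T L L))) (U (V (T (S L L) (S L L)) (S (T L L) (T L L))) (V (T (S L L) (S L L)) (T (S L L) (S L L))))) (U (T (U L L) (V (U (U L L) (S L L)) (S L L))) (T (V (T L (S L L)) (S L L)) (V (T L (S L L)) (T (S L L) (S L L)))))))) (F 33 w11_5)) (T (F 1 (V (T (F 4 (U (S (K 4) L) (S L (F 8 (T L L))))) (F 4 (S (U L (V (S L L) L)) (U (F 8 (V L L)) (V (F 8 (S L (S L L))) (S L L)))))) (S (S L (V L L)) (T (V L L) (F 4 (U (V L L) (V (S L (S L L)) (T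 L L)))))))) (F 33 w11_6)))
noncomputable def w11_8 : Tr := (T (F 68 (V (S (T (U (V (S L L) (S L L)) (S L L)) (U (S (S L L) (T L L)) (S L L))) (T (U (V (S L L) (T L L)) (V (S L L) L)) (U (V (T L (S L L)) (S L L)) (V L L)))) (S (T (V (S L L) (S L L)) (U (V (S L L) L) (S L L))) (T (V (S L (S L L)) (S L L)) (V (U (S L L) L) (U (S L L) L)))))) (F 64 (V (F 8 (S (T (U (V (S L L) (S L L)) (S L L)) (U (V (S L L) (S L L)) (S L L))) (T (V (U (S L L) L) (U (S L L) L)) (V (U (S L L) L) (U (S L L) L))))) (S (T (F 8 (U (S (S L L) (V L L)) (S L L))) (U (V (F 8 (S L L)) (S (S L L) L)) (V L (S L L)))) (F 8 (T (U (V (S L L) (T (S L L) L)) (V L L)) (U (V (T (S L L) L) (S L L)) (V L (S L L)))))))))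
noncomputable def w11_9 : Tr := (T (S (F 4 (V (T (U L L) (U (V (S L L) L) (S L L))) (U (T L (V L L)) (T L (S L L))))) (V (F 4 (T (F 8 (U (S L L) L)) (U (V (F 8 (S L L)) (S L L)) (S L L)))) (T (S (F 4 (S L L)) (T (F 4 (S L L)) L)) (F 4 (U (S (S L L) (T L L)) (V L L)))))) (F 4 (S (V (T (U (V (S L L) (S L L)) (S L (S L L))) (V (U (S L (S L L)) (S L L)) (F 1 (U (S L (S L L)) (S L L))))) (F 1 (U (T (S (S L L) (V L L)) (S (V L (S L L)) (V (S L L) (S L L)))) (T (S (S L L) L) (S (V L L) (T L L)))))) (V (T (U (V (F 8 (S L L)) (S L (S L L))) (V (F 8 (S L L)) (S L L))) (U (V (S (S L L) L) (S (F 1 (S L L)) (T L L))) (V (S L L) (S L L)))) (T (S (F 1 (U (V L L) (S L L))) (V (T (S L L) L) (F 1 (U L L)))) (F 1 (U (V (S (S L L) (S L L)) (S (S L L) (S L L))) (S (T L L) (T L L)))))))))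
noncomputable def w11_10 : Tr := (V (U (U (S (F 1 (T L L)) (V (T (F 16 (S L (S L L))) (F 16 (S L L))) (T (S L L) L))) (S (F 1 (T (F 2 (V (T L L) L)) (F 2 (V (S L L) L)))) (V (T (F 16 (S (F 16 (S L L)) (S L L))) (F 16 (S (S L L) (S L L)))) (T (S (F 1 (T L L)) (V L L)) (S (F 16 (S L L)) (V L L)))))) (S (F 1 (V (F 2 (T (S (V (S L L) L) (V (S L L) L)) (S (V L L) (V L L)))) (T (U L (S L (S L L))) (U (F 2 (S L L)) (F 2 (S L L)))))) (T (V (S (F 17 (V (S L L) L)) (U (F 16 (S L L)) (T L L))) (S (F 1 (U (S L L) (S L L))) (V (U L L) (S L L)))) (F 16 (V (S (V (S L L) (S L L)) (V (S L L) L)) (S (T L (S L L)) (V (S L L) L))))))) (U (S (F 1 (T L (V L L))) (U (V (T L L) (T L L)) (V (T (V L L) (S (T L L) (T L L))) (T L (V (T L L) L))))) (S (F 1 (V (T (U L (T L L)) (U L (S L L))) (U (S L L) (T L (T L L))))) (V (T (S (F 1 (V (S L L) (S L L))) (T (F 1 (S L L)) (S L L))) (V (S (F 16 (S L L)) (S L L))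 (S L (S L L)))) (T (F 1 (U (T L L) (S (S L L) (S L L)))) (U (S (F 1 (V L L)) (V L L)) (S (F 1 (S L L)) (S L L))))))))
noncomputable def w11_11 : Tr := (F 129 (T (V (U (T (F 1 (U (V (T L L) L) (S L (V (V (T L L) (S L L)) (S L L))))) (V (S (F 17 (T L L)) (S (F 17 (U L (S L L))) (F 1 (T (F 2 (S L L)) (F 2 (S L L)))))) (F 1 (U L (T L (S L L)))))) (T (F 1 (U (S (V L L) (V (S (T L L) (T L L)) (S (T L L) (T L L)))) (S (V (F 2 (S L (S L L))) (S L L)) (V (S (T L L) (S L L)) (S (S L L) (S L L)))))) (F 1 (S (V (F 2 (U (S L (S L L)) (S (S L L) L))) (U L (V L L))) (V (S (F 2 (U (S L L) L)) (V L (T L L))) (S (U (T L L) (S L L)) (U (S L L) (S L L)))))))) (F 1 (U (S (T (K 0) L) (V (T L L) (T L L))) (V (T (U L (T L (V L L))) (S L (U (T L L) (S (S L L) (S L L))))) (S L (T (T L L) (U L (V (S L L) L)))))))) w11_10))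
noncomputable def w11_12 : Tr := (T (F 2 (T (S (U (K 1) (V (F 32 (S (K 5) L)) (K 1))) (F 129 (U (V (T L (S L (F 8 (T L L)))) (K 5)) (V (S (F 2 (T L (T L L))) (T (F 2 (U (S L L) (V (S L L) L))) (U (F 8 (V L L)) (V (F 2 (S (S L L) L)) L)))) (V (T L L) L))))) (S (U (K 1) (F 128 (V (S L (F 64 (T L L))) (K 5)))) (F 137 (V (U (U (T L L) (T (V L L) (V (V (F 2 (T L L)) L) L))) (T (S (V (F 2 (T L L)) L) (V (F 2 (U (T L L) (S L L))) (U L (T L (S L L))))) (S (V (T L (F 8 (V L L))) L) (V (V (F 2 (U (S L L) (S L L))) (U (S L L) (S L L))) (U (T L L) (S (S L L) (S L L))))))) (U (T (K 4) L) (T (V (S L L) L) (V (T L (T L L)) L)))))))) (F 32 (S (F 64 (V (T (U (T L L) (F 1 (S L (T L (F 4 (U L (S L L))))))) (F 17 (U (V (T (S (K 1) L) (S L L)) L) (S (T L (U L (S L L))) (V (T (U L (S L L)) (U (S L L) (S (S L L) L))) (T L (S L L))))))) (F 1 (U (K 1) (T (T (K 1) L) (S L (T L (F 4 (S L L))))))))) w11_11)))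
noncomputable def w11_13 : Tr := (U (F 6144 (V (F 512 (S (K 8) (T (U (K 8) (F 517 (T (K 0) (F 68 (V L (K 4)))))) (F 66 (U L (F 129 (V (U L (T (T L L) (T L L))) (T (K 5) (T L L))))))))) (K 1))) (F 4099 (V (F 1 w11_12) (F 512 (T (F 1 (T (K 2) (F 17 (U (K 4) (S (K 4) (F 32 (S (K 0) (V (V (T L L) L) (T (K 0) L))))))))) (F 272 (S (F 64 (U (K 4) (V (T (K 4) (T (K 4) L)) (K 4)))) (F 1 (V (U (S (K 5) (T (F 1 (U (K 0) (V L (K 0)))) (V (T L (T L L)) (U (S (K 5) L) (T L L))))) (T (F 1 (T (V L (T L L)) (V (U L (T L L)) (V L (T L L))))) (T (F 1 (V (U L (V (U L (S L L)) L)) (U L (T L (S L L))))) (S (F 1 (U L (V (T L L) L))) (V (U (V (S L L) (S L L)) (S (F 1 (T L L)) (V L (S L L)))) (F 1 (U (S L L) (S (S L L) (S L L))))))))) (T (U (K 5) (F 1 (S (K 0) (V (T L L) (T L L))))) (U (U (K 5) (F 1 (V (S (K 0) L) (S (K 0) L)))) (F 1 (V (S L (T (V L L) (U L (S L (S L L))))) (S L (T (T L L) (U L (V L L)))))))))))))))))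
noncomputable def w11_14 : Tr := (T (V (U (T (F 16 (S (U (S L L) (V L L)) (V (U (S L L) (S L L)) (T (S L L) L)))) (S (U (F 16 (T L (S L L))) (V (F 16 (S L L)) (S L L))) (V (F 16 (S (T L L) (F 4 (S L L)))) (F 4 (S (V L L) (T L L)))))) (S (T (F 16 (V (S L L) (S L L))) (V (F 16 (S L L)) (S L L))) (V (F 16 (T (S L L) (S L L))) (T (S L L) (F 4 (S L L)))))) (U (S (T L L) (F 4 (T (V (T L L) L) (V (U L (S L L)) (T L L))))) (S (V (T L L) (F 4 (T L L))) (F 4 (T (V (S L L) (S L L)) (V (S L L) (S L L))))))) (V (U (F 4 (S (V (T (F 2 (S L (S L L))) (T L (F 8 (S L L)))) (T (U L (S L L)) (U (S L L) (S L L)))) (V (T (S (F 2 (S L L)) (U (S L L) L)) (U (S (S L L) (S L L)) (S L L))) (T (S (S L L) (T L L)) (S (T L L) (T L L)))))) (S (T (V (F 16 (S L L)) (F 4 (S L L))) (F 4 (V (S L (S L L)) (S L L)))) (F 4 (T (V (S L L) (S L L)) (V (S (S L L) (S L L)) (S (S L L) (S L L))))))) (F 4 (U (T (S (T L L) (V (S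 (S L L) (T L L)) (T L (S L L)))) (V (S (T L L) (S (T L L) (T L L))) (S L (S (S L L) (T L L))))) (S (V (T (S L L) (S L L)) (T (S L L) (S L L))) (T (V (T L L) (S L L)) (V (S L L) (S L (S L L)))))))))
noncomputable def w11_15 : Tr := (S (T (V (F 2 (S (V L (S L L)) (F 1 (U (T L L) (S L L))))) (S (F 64 (S L L)) (F 64 (U (T L L) L)))) (V (S (U (V L (S L L)) (F 16 (S L L))) (F 64 (T (U (V L L) L) (F 6 (V (S L L) L))))) (U (S (S L L) (F 72 (V L L))) (F 8 (S L (F 1 (T L L))))))) (F 64 (T (V (S (T (F 16 (U (S L L) L)) (U (V L L) (S L L))) (U (V (F 16 (T L L)) (T (S L L) L)) (T (S L L) (S L L)))) (S (U (T (S L L) (F 4 (S L L))) (V L L)) (T (U (F 4 (V L L)) (S L L)) (F 4 (U (V L L) (S L L)))))) (F 4 (V (S (U (V (T L (S L L)) (T L L)) (T L (S L L))) (U (T (V L L) (V (S L L) (S L L))) (T (S L L) (S L L)))) (U (S (T (V L L) (V L L)) (V (T (S L L) (S L L)) (T (S L L) (S L L)))) (S (T L (V L L)) (T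 (S L L) (V L (S L L))))))))))
noncomputable def w11_16 : Tr := (U (T (V (S (T L (V L L)) (T (U (T L L) (V (S L L) (S L L))) (U (V L L) (V (S L L) (S L L))))) (S (U (K 0) (T L L)) (U (V (T L L) L) (V (T (S L L) (S L L)) (T L (S L L)))))) (V (U (T (V (T L L) L) (S L (V (V (S L L) L) (V L (T L L))))) (V (S (T L (S L L)) (T (S L L) (S L L))) (S (T L (S L L)) (T (U (S L L) (S L L)) (S L L))))) (S (U (V L L) (T L (V L L))) (U (V (S L (U (T L L) (T L L))) (T (T L L) L)) (T (V (S L L) (S L L)) (V (S L L) (U (S L L) (S L L)))))))) (T (V (U (S (T L (V L L)) (V (T L L) (T (S L L) (S L L)))) (S (T L L) (T (S L L) (S L L)))) (S (T (S L L) (V L L)) (T (V (S L L) (S L L)) (V (S L L) (S L L))))) (V (S (T (U (S L L) L) (U (V (S L L) L) (S L L))) (T (U (V (S L L) L) (V L L)) (U (V (U (S L L) L) (S L L)) (V L L)))) (S (V (T L (S L L)) (T L (S L L))) (T (V (U L L) (T L L)) (V (U (S L L) L) (U (S L L)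 L)))))))
noncomputable def w11_17 : Tr := (V (S (U (V (T (T (F 2 (S L L)) (F 2 (S L L))) (S (F 2 (T L L)) (U L L))) (T (S (T L L) (U (S L L) L)) (T (S L (S L L)) (F 2 (S L L))))) (V (T (F 2 (S L L)) (F 2 (S L L))) (T (S L (S L L)) (S L (S L L))))) (U (T (V (S (U (S L L) L) (U (S L L) L)) (S (V L L) (T L L))) (V (T (S (S L L) L) (F 2 (S L L))) (S (V (S L L) L) (V L L)))) (V (T (U (S L L) (S L L)) (S L (S L L))) (T (S (S L L) (S L L)) (S (S L L) (S L L)))))) (U (S (V (T (U L (S L L)) (S (S L L) (T L L))) (T (S L L) (V (S L L) L))) (V (T (S (T L L) (T L L)) (S (T L L) (T L L))) (T (S (T L L) (T L L)) (S (T L L) (T L L))))) (S (V (T (S L L) (V (S L L) L)) (T (S L L) (S L L))) (V (T (S (S L L) (S L L)) (S (S L L) (S L L))) (T (S L (S L L)) (S (S L L) (S L L)))))))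
noncomputable def w11_18 : Tr := (V (S (F 1 (T (F 2 (V (U (S (S L L) (S L L)) (S L L)) (U (S (S L L) (S L L)) (S L L)))) (F 2 (V (U (S (S L L) (S L L)) (S L L)) (U (S (S L L) (S L L)) (S L L)))))) (T (V (F 16 (U (S (F 16 (S L L)) (T L L)) (S L (S L L)))) (U (S (F 1 (T L L)) (T (S L L) L)) (T (F 1 (S L L)) (F 16 (S L L))))) (F 16 (V (U (S (V L L) (T L L)) (S (S L L) (S L L))) (U (S (T L L) (T L L)) (S (S L L) (S L L))))))) (U (V (S (F 1 (T (S (T L L) (T L L)) (F 2 (S (S L L) (S L L))))) (T (S (F 1 (T L L)) (T L (S L L))) (S (T L L) (V (S L L) (S L L))))) (T (F 1 (S (S (S L L) (T L L)) (S (T L L) (T L L)))) (S (F 1 (S (S L L) (U L (S L L)))) (V (S L (S L L)) (T L (U L (S L L))))))) (S (F 1 (V (T (S L (S L L)) (F 2 (S L L))) (T (V L (U L L)) (U (S L L) (S L L))))) (V (T (S (F 1 (S L L)) (T L L)) (S (F 1 (S L L)) (T L L))) (T (F 1 (U (S L L) (S L L))) (S (F 1 (S L L)) (U (S L L) L)))))))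
noncomputable def w11_19 : Tr := (T (S (F 1 (V (U (F 8 (S (F 8 (T L (U L (S L L)))) (F 32 (V (F 2 (T (S L L) (V (S L L) L))) (T (T L L) (U L L)))))) (S (T (F 4 (V L L)) (F 12 (V L L))) (F 9 (T (F 8 (V (S L L) L)) (F 8 (V (S L L) L)))))) (F 8 (S (U L (V L L)) (F 32 (U (V (T L L) L) (V (T L (S L L)) (T L L)))))))) (F 145 w11_17)) (F 16 (S (F 64 (V (U (S (F 8 (V (T (U L L) (S L (S L L))) (T L (S L L)))) (V (F 8 (T (S (S L L) (F 1 (S L L))) (S (S L L) (F 1 (S L L))))) (T (S (F 8 (S L L)) (F 32 (T L L))) (F 8 (S (S L L) (F 1 (S L L))))))) (F 8 (S (V (T (S L L) (S L L)) (T L (S L L))) (T (F 1 (V (S L L) (S L L))) (V (S (S L L) L) (S L L)))))) (U (S (T L L) (V (T (F 8 (S L L)) (F 8 (S L L))) (T L (F 8 (S L L))))) (S (F 8 (V (T L L) (U L L))) (V (T L (F 8 (S L L))) (T (F 32 (U L L)) (F 8 (U (S L L) L)))))))) (F 1 w11_18))))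
noncomputable def w11_20 : Tr := (T (F 1 (V (S (U (V (T L L) (T (S L L) (S L L))) (V (S L L) (T L L))) (U (V (T (S L L) (S L L)) (T (S L L) (S L L))) (T (V L L) (V L L)))) (U (V (S (T L (S L L)) (T (S L L) (S L L))) (S (T (S L L) (U L L)) (T (U L L) (U (S L L) L)))) (S (T (S L L) (V (S L L) L)) (T (V L L) (V (S L L) L)))))) (V (U (S (F 1 (T (F 2 (V L L)) (F 2 (V L L)))) (T (V (F 16 (S L L)) (T L L)) (F 16 (V (S L L) (S L L))))) (S (F 17 (V (S L L) (T L L))) (V (F 16 (T L L)) (T (S L L) (F 16 (S L L)))))) (S (F 1 (T (U (V (T L L) (S L L)) (V L L)) (U (V (F 2 (S L L)) (S L L)) (V L L)))) (T (F 1 (U (V (U L (S L L)) (S L L)) (V L L))) (U (V (U (S L L) (S L L)) (S L (S L L))) (V (S L L) (S L L)))))))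
noncomputable def w11_21 : Tr := (U (V (S (U (V (T L (V L (S L L))) (U L (T L L))) (V (T (U L L) (U L L)) (T (S L L) (S L L)))) (U (V (T (S (S L L) (T L L)) (V (S L L) (U (S L L) (S L L)))) (S (U (T L (S L L)) (T L L)) (U (T (T L L) (S L L)) (T L L)))) (T (V (V (S L L) (U L L)) (S L (S L L))) (V (S (S L L) (S L L)) (S L (S L L)))))) (U (V (T (U L (T (T L L) (S L L))) (S L (S (S L L) (T L L)))) (S L (T (V L L) (S (S L L) (S L L))))) (S (V (U (T L L) (T L L)) (T L (S L L))) (V (T (S L (S L L)) (V (U L L) (S L L))) (T (S L L) (S L L)))))) (V (S (T (V (S L L) (S L L)) (V (U L L) (V L L))) (V (T (U (S L L) L) (U (S L L) L)) (T (U (S L L) L) (U (S L L) L)))) (S (T (U (V L (S L L)) (S L L)) (U (V L (S L L)) (S L L))) (T (U (V (S L L) (U (S L L) L)) (V L L)) (U (V (S L L) (U L L)) (V L L))))))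
noncomputable def w11_22 : Tr := (V (S (F 32 (U (V (S (U (T L L) (T L L)) (U (T (S L L) (S L L)) (T L L))) (T (U L (S L L)) (S L (S L L)))) (V (T (S L L) (S L L)) (T (U (S L L) L) (V (U L L) L))))) (U (T (F 32 (S (T (V (U L L) (V L L)) (V (U L L) L)) (T (V (U L L) (V L L)) (V (U L L) L)))) (V (U (S (F 32 (T L L)) (T L L)) (S L (S L L))) (F 32 (S (T L L) (T L L))))) (V (T (F 32 (S (S L L) (S L L))) (S (F 32 (S L L)) (T L L))) (F 32 (T (S (S L L) (S L L)) (U (S L L) (S L L))))))) (F 32 (S (U (V (T (S L L) (V (S L L) L)) (T L (V L L))) (T (V (S L L) (S L L)) (V (S L L) (S L L)))) (V (T (U (S (S L L) (T L L)) (S L (S L L))) (U (S (T L L) (T L L)) (S (S L L) (S L L)))) (T (U (S (S L L) (S L L)) (S L L)) (U (S (S L L) (T L L)) (S (S L L) (S L L))))))))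
noncomputable def w11_23 : Tr := (S (F 1 (T (F 8 (U (V (U (S (K 4) L) (S L (F 32 (T L (T L (S L L)))))) (U L (V (S L L) L))) (V (S (V (S L L) L) (F 32 (V (T L (S L L)) (T L L)))) (S (S L L) (F 32 (T (S L L) (U L L))))))) (U (V (F 8 (S (U L (V L L)) (U (V (S L L) L) (F 32 (T (V L (S L L)) (V (S L L) (U L L))))))) (S (F 8 (T L L)) (F 9 (U (T L L) (V (T L L) (T L L)))))) (S (V (F 8 (V (T L L) (T L L))) (U (V (F 8 (S L L)) L) (S L L))) (F 9 (V (V (U (T L L) (S L L)) (U (S L L) L)) (U (V (T L L) (S L L)) (V L (S L L))))))))) (F 144 (T (F 32 w11_21) (U w11_22 (V (S (F 32 (V (T (U (S L L) L) (U (S L L) L)) (T (U (S L L) L) (U (S L L) L)))) (V (T (F 32 (U (S L L) L)) (U (S L L) L)) (F 32 (T (U (S L L) L) (U (S L L) L))))) (F 32 (U (S (V (T (S L L) (S L L)) (T L (S L L))) (V (T (U (S L L) L) (U (S L L) (S L L))) (T (S L L) (S L L)))) (S (T (S L L) (S L L)) (T (V L (S L L)) (V L L))))))))))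
noncomputable def w11_24 : Tr := (T (F 35 (V (U (F 1 (S (T (U (V (F 2 (S L (F 1 (T L (S L L))))) L) (V (F 2 (S L (F 1 (T (S L L) (V L L))))) (T L L))) (V (U (S (F 16 (T L L)) (F 64 (V (F 18 (T (S L L) (F 4 (S L L)))) (F 4 (T L L))))) (S (F 16 (V (F 16 (S L L)) L)) (F 64 (V (F 18 (T L L)) (F 4 (T L (S L L))))))) (F 8 (S L (F 1 (U L (T L (T L L)))))))) (F 64 w11_14))) (F 1 w11_15)) (F 1 (S (T (F 64 (U (V L L) (V (U (T L L) (S L L)) (F 4 (T L L))))) (F 8 (U (V (V L (T L L)) (S (K 1) L)) (V (S (S L L) (F 1 (T (S L L) (S L L)))) (F 1 (S L (V L L))))))) (F 72 w11_16))))) (F 1025 (V (F 16 (U w11_19 (F 16 (S (F 64 (S (V (F 8 (T (U (V (S L L) L) (S L L)) (U (V (T L L) (S L L)) (V L (S L L))))) (T (U (V L (S L L)) (S L L)) (F 8 (U (V (T L L) L) (T L L))))) (F 32 (V (T (T (F 2 (V (S L L) L)) (F 2 (U (V L L) L))) (F 2 (U (V (T L L) (T L L)) (V (S L L) (S L L))))) (T (U (V (S L L) (T L L)) (V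 (S L L) L)) (T (U (V L L) (S L L)) (F 2 (U (S L (S L L)) (S L L))))))))) (F 1 w11_20))))) (F 8 w11_23))))
noncomputable def w11_25 : Tr := (S (U (T (F 64 (V (F 8 (S L L)) (T (K 4) L))) (F 4 (V (K 3) (T L L)))) (T (F 68 (V (T (V (U (T L L) (T (S L L) (S L L))) (T L (S L L))) (V (U L (S (S L L) L)) (U L (T (S L L) (S L L))))) (U (T L (S L L)) (T (V L L) (V (T L (S L L)) (S L L)))))) (F 4 (V (T (F 1 (U L (T (S L L) L))) (S L (K 3))) (T (F 1 (U (T L L) (V (S L L) (T (S L L) (S L L))))) (F 1 (V L (T (S L L) L)))))))) (T (U (V (F 4 (T (F 1 (S L L)) (S L L))) (U L (T (F 68 (S L L)) (F 68 (S L L))))) (V (T (F 68 (V (T (S (U (S L L) L) (F 16 (T L L))) (U (S L L) (S L L))) (U (T L (S L L)) (T (S L L) (S L L))))) (F 4 (V (T (F 1 (S L L)) L) (S (F 1 (U L (S L L))) (F 32 (S L (T L L))))))) (T (F 68 (U (V (S L L) L) (V (T L (S L L)) (T L (S L L))))) (F 68 (U (V (S L L) (S L L)) (V (T (S (S L L)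 L) (S (S L L) L)) (T (S L L) (S L L)))))))) (F 4 (U (V (K 3) (T (S L L) (K 3))) (V (T (U (K 3) (V L (T L L))) (K 3)) (T (V (S (U L L) L) (S (F 1 (T (T L L) L)) (F 32 (T (S L L) L)))) (T (S (S L L) L) L)))))))
noncomputable def w11_26 : Tr := (V (T (F 2 (S (V (T (S (F 1 (T L L)) (V (S L L) (S L L))) (U (S L L) (S L L))) (T (S (F 1 (T L L)) (V (S L L) L)) (S (F 1 (S L L)) (V L L)))) (V (T (S (V (S L L) (S L L)) (V L (S L L))) (U (S L L) (S (S L L) L))) (T (S (V (S L L) (S L L)) (V L (S L L))) (U (S L L) (S (S L L) (S L L))))))) (F 2 (S (V (T (S L L) L) (S (U L (S L L)) (U L (T L L)))) (V (T (S L (S L L)) (S L L)) (T (S (S L L) (S L L)) (U L (S L L))))))) (S (T (V (F 2 (S (F 1 (U (T L (S L L)) (T L L))) (T (F 1 (S L L)) (U (V L L) (S L L))))) (T (F 32 (U L (T (F 8 (S L L)) L))) (F 34 (U (S L L) (V L (S L L)))))) (F 2 (U (V (S L (S L L)) (T (V L (S L L)) (S L L))) (V (T (S (F 1 (S L L))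 (T L L)) (T L (S L L))) (T (S L (S L L)) (S L (S L L))))))) (T (T (V (F 2 (S (T (S L L) (S L L)) (V L L))) (U (S (T L L) (T L L)) (V (S L (S L L)) (S L L)))) (F 2 (V (U (V L (S L L)) (S (S L L) (S L L))) (U (S (S L L) (S L L)) (V (S L L) (S L L)))))) (F 2 (T (V (U (S L L) (V (S L L) (S L L))) (U (V L (S L L)) (S (S L L) (S L L)))) (V (U L (V L (S L L))) (S (S (S L L) L) (S L L))))))))
noncomputable def w11_27 : Tr := (T (U (U (V (T L L) (T L L)) (V (S L (T (V (S L L) (V L L)) (S (S L L) (V L L)))) (S L (T (T L L) (V (S L L) (S L (S L L))))))) (S (F 1 (V (U (T L L) (T (T L L) (F 2 (S L L)))) (T (T L L) (U L (S L (S L L)))))) (V (T (U (S (F 1 (V L L)) (V L L)) (S (F 1 (S L L)) (T L L))) (S (F 16 (S (F 16 (S L L)) (T L L))) (V (F 16 (S L L)) (S L L)))) (T (S (F 1 (V L (S L L))) (T (F 1 (S L L)) (V L L))) (S (F 1 (T (S L L) L)) (T (V L L) (F 16 (S L L)))))))) (U (V (F 16 (U L (S (T L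 L) (T (S L L) L)))) (S (F 16 (T L (F 16 (T L L)))) (F 16 (U (T L L) (T (S (T L L) (S L L)) (S (S L L) L)))))) (S (F 16 (V (T (F 16 (S (T L L) (T L L))) (S (U L L) (U (S L L) (S L L)))) (S (F 16 (T (V L L) (V L (S L L)))) (T (U (F 16 (S L L)) L) (V (T L L) (F 16 (S L L))))))) (F 16 (V (T (S (V (S L L) (S L L)) (V (S L L) (S L L))) (S (U L (S L L)) (U L (S L L)))) (T (S (V (S L L) (S L L)) (V (S L L) (S L L))) (S (U (T L L) (S L L)) (V (S L L) (S L L)))))))))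
noncomputable def w11_28 : Tr := (T (S (F 1 (V (T L (U L (V L L))) (T L (U L (V L L))))) (T (F 1 (V (U (V L L) (S (S L L) (S L L))) (S (U L (S L L)) (V (S L L) (S L L))))) (V (S (U (F 1 (S L L)) (F 1 (S L L))) (T (F 1 (S L L)) (U (S L L) L))) (S (F 1 (U (S L L) (S L L))) (U (F 1 (S L L)) (U L L)))))) (S (F 1 (V (T (F 2 (U (V L L) (S L (S L L)))) (F 2 (S (U (S L L) (S L L)) (U (S L L) (S L L))))) (T (S (F 2 (V L L)) (V (F 2 (S L L)) (T L L))) (F 2 (S (V (S L L) (F 1 (S L L))) (U (T L (S L L)) (S L L))))))) (T (V (F 16 (S (U (F 16 (S L L)) (S L L)) (U (T L L) (S L L)))) (S (F 1 (V (F 2 (S L L)) (U (S L L) L))) (V (F 16 (U L L)) (F 1 (T L L))))) (F 16 (V (S (V (U (S L L) L) (F 16 (S L L))) (U (V L (S L L)) (T L L))) (S (F 16 (U (T L L) (S L L))) (S (F 16 (T L L)) (U (S L L) (S L L)))))))))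
noncomputable def w11_29 : Tr := (S (V (F 8 (U (F 1 (T (K 1) (F 4 (V L (S (K 3) L))))) (T (F 1 (S L (V (S L L) L))) (F 17 (S (V L L) (V (U (S L L) (T (S L L) (S L L))) (T L (S L (F 1 (V L L)))))))))) (F 128 (S (T (K 5) (F 16 (V L L))) (F 8 (T (V (S L L) (S (K 1) L)) (U (V L L) (V (F 4 (S L (F 16 (V (S L L) L)))) (S L (F 5 (V L L)))))))))) (F 9 (V w11_27 (U (T (S (F 1 (V L L)) (V (T (V L L) (U (S L L) (S L (S L (T L L))))) (T (F 1 (S L L)) (F 1 (U L (V L (S L L))))))) (U (S (F 1 (V L (T L L))) (V (T (S L L) (F 16 (S L L))) (T (T (F 1 (S L L)) (F 17 (S L L))) (F 16 (S (F 16 (V L L)) (S (F 16 (S L L)) (T L L))))))) (S (F 1 (V (T L (F 2 (V L L))) (T L (F 2 (V L L))))) (V (T (S (F 17 (S L L)) (F 16 (V L L))) (F 16 (S (T L L) (T (S L L) (S L L))))) (T (S (F 1 (T L L)) (T L L)) (F 16 (S (F 16 (V L (S L L))) (S L (T L L))))))))) w11_28))))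
noncomputable def w11_30 : Tr := (S (F 1 (T (V (S (F 32 (S L L)) (F 4 (T L (F 1 (V L L))))) (F 32 (U L (S L (V L L))))) (F 32 (V (S (T (U L (S L L)) (U (S L L) (S L L))) (T (F 4 (U (S L L) L)) (U (F 4 (S L L)) (S L L)))) (S (T (U L (S L L)) (V (S L L) (S L L))) (T (U (V L L) (S L L)) (U (V L L) (S L L)))))))) (T (F 1 (V (F 4 (S (T (V (S L L) L) (F 1 (U (S L L) (S L L)))) (F 16 (T (U (S L L) (S L L)) (V (T L L) (F 8 (S L L))))))) (F 32 (S (T (F 4 (S L L)) (S (V L (S L L)) (F 20 (S L L)))) (F 20 (T (U L L) (U (S L L) L))))))) (F 2 (S (F 32 (V (F 4 (T (S (T L L) (F 1 (S L L))) (S (T L L) (F 1 (S L L))))) (T (V (F 4 (S L L)) (S (S L L) L)) (S (U (S L L) L) (F 16 (T L L)))))) (F 33 (V (F 4 (T (U (S L L) L) (U (S L L) L))) (T (F 4 (U (S L L) (S L L))) (U (F 4 (S L L)) (S L L)))))))))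
noncomputable def w11_31 : Tr := (U (V (F 68 (T (F 1 (S L (V L (S L L)))) (U (S L L) (S (F 1 (V L L)) (T (F 1 (S L L)) L))))) (F 128 (T (F 1 (S (V L L) (F 4 (V (U L (T (S L L) (F 1 (S L (F 1 (S L L)))))) (F 1 (S L (F 1 (V (S L L) L)))))))) (F 2 (S (F 32 (V (U L (S (S L L) (F 4 (V L L)))) (S (V L L) (U L (T L (V L L)))))) (S (F 32 (U (V L (V L (S L L))) (V (F 4 (T (S L L) (S L L))) (T (S (S L L) L) (V L (S L L)))))) (F 37 (U (T (T L L) L) (T (V (S L L) (S L L)) (V L (S L L))))))))))) (V (F 68 (T (F 1 (S (V (U (V L L) (T (S L L) (S L L))) (U (S L L) (S L (T L (S L L))))) (V (T (S (U L (S L L)) (F 1 (T L L))) (S (U L (S L L)) (F 1 (S L L)))) (S (T (U L (S L L)) (S (V L L) (F 1 (T L L)))) (F 1 (T (V (S L L) (S L L)) (U (S L L) (S L L)))))))) (S (F 1 (U (V (T (S L L) L) (S (F 16 (T L L)) (T (S L L) L))) (V (T (S L L) (S L L)) (T (S L (S L L)) (F 16 (S L L)))))) (T (F 1 (V (S (U L L) L)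 (S (V (S L L) (F 16 (S L L))) (F 1 (U L (S L L)))))) (F 1 (V (S L L) (U (F 16 (S L L)) (S (F 16 (S L L)) L)))))))) (F 128 w11_30)))
noncomputable def w11_32 : Tr := (V (S (T (V (U (S L L) (S (S L L) (S L L))) (S (F 16 (V (S L L) (S L L))) (V (T L L) (F 16 (S L L))))) (V (U L (S L L)) (S (F 16 (U L (S L L))) (U (S L L) (T L L))))) (T (V (U (S L L) (S (S L L) (S L L))) (S (U (T L L) (S L L)) (U (S L L) (S L L)))) (V (S (S L L) (S L L)) (U (S L L) (S (S L L) (S L L)))))) (S (T (F 16 (V (S (U (T L L) (S L L)) (U (V L L) (S L L))) (S (F 1 (U (S L L) L)) (U (F 1 (S L L)) (T L L))))) (F 16 (V (S (V (U L L) (F 1 (S L L))) (U (T L L) (S L L))) (F 1 (S (U (S L L) (S L L)) (U (S L L) (S L L))))))) (V (T (S (U (S L (T L L)) (V L (S L L))) (U (V L (S L L)) (T L L))) (S (U (V (S L L) (S L L)) (T (S L L) (S L L))) (U (U L (S L L)) (T L L)))) (T (S (F 16 (V (U L L) (F 1 (S L L)))) (V (U (S L L) (S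 L L)) (F 8 (S L L)))) (F 8 (S (T (F 1 (S L L)) (F 1 (S L L))) (U (T L L) (S L L))))))))
noncomputable def w11_33 : Tr := (U (V (S (F 2 (V (K 1) (T (S L L) L))) (F 2 (T (T L L) L))) (S (F 4 (S (F 24 (U (T (S L L) L) (T (V L (S L L)) (S (S L L) L)))) (T (F 24 (U L (T (S L L) L))) (T (F 24 (S L L)) (F 16 (S L L)))))) (U (F 4 (T L L)) (T (F 2 (V (S L L) (F 8 (S (S L L) (S L L))))) (F 4 (S (T L L) (S L L))))))) (S (V (F 2 (V (T (S L L) (S L L)) (T (U (S L L) (S (F 16 (S L L)) (S L L))) (U L (S (S L L) L))))) (V (F 2 (S (F 24 (T (U (S L L) (S L L)) (U L L))) (T (T (F 16 (V L L)) (F 24 (S L L))) (F 8 (U L (S L L)))))) (F 5 (T (F 8 (S (U (S L L) (S L L)) (U (S L L) (S L L)))) (S (S (F 8 (S L L)) (F 8 (S L L))) (V (F 8 (S L L)) (U L L))))))) (V (F 2 (T (V (S L L) (U (S L L) (S L L))) (V L (U L (S L L))))) (V (T (F 2 (U (T (S (S L L) L) L) (S (T (S L L) L) (V L L)))) (F 4 (S (F 8 (U L (S L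 L))) (F 8 (U L (S L L)))))) (F 4 (S (T (F 8 (V (S L L) (F 1 (S L L)))) (T (F 8 (V L L)) (S L (S L L)))) (T (F 8 (U (S L L) (S L L))) (U (T (S L L) L) (S L L)))))))))
noncomputable def w11_34 : Tr := (U (T (F 1152 (S (K 7) (F 32 (U (S (K 1) L) (F 129 (V (T (T L L) L) (U L (T (T (K 5) L) (T L (F 16 (S L L))))))))))) (U (S L L) (F 1540 (S (V L (F 1 (S L (F 4 (S L L))))) (F 160 (T (F 16 (V (S L (K 3)) (T L L))) (V (K 1) (F 8 (S L L))))))))) (F 1536 (T (F 2 w11_29) (F 64 (S w11_31 (F 5 (T (F 2 (U (V (S (U (T L L) (V (S L L) (T (S L L) (S L L)))) (V (S L L) (T (S (S L L) L) (S L L)))) (U (S (V (T L L) (F 24 (U (T L L) (T (S L L) (S (S L L) L))))) (T (V (S L L) (S (F 24 (S L L)) (S L (S L L)))) (V L (F 8 (S L L))))) (S (V (T (F 16 (S (V L L) (T (S L L) L))) (F 16 (S (V L L) (S L L)))) (F 24 (T (S (S L L) (S L L)) (S (V L L) (S L L))))) (T (V (S (S L (S L L)) (S L L)) (S (F 16 (T (S L L)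 L)) (T (S L L) (F 8 (S L L))))) (V (S (S L L) L) (F 8 (S (F 1 (S L L)) (T (S L L) L)))))))) w11_32)) w11_33)))))))
noncomputable def w11_35 : Tr := (U (V (S (V (U (T (S L (S L L)) (S L (S L L))) (T (S L L) (S L L))) (U (T (S L L) (S L L)) (T (S L L) (S L L)))) (V (U (T (S (S L L) (F 16 (S L L))) (S (S L L) L)) (T (S L L) (S L L))) (U (T (S (S L L) (F 16 (S L L))) (S (S L L) L)) (T (S L L) (S L L))))) (S (U (V (T L (S L L)) (U L (S L L))) (T (V (S L L) L) (V (S L (S L L)) (S L L)))) (U (V (T (S (S L L) L) (S (S L L) L)) (S (U (S L L) (S L L)) (F 16 (U (T L L) (T L L))))) (T (V (U (S L L) (S L L)) (S L L)) (V (U (S L L) L) (S L L)))))) (V (U (S (V (T L L) (T L (S L L))) (T (F 16 (V L L)) (V (S L L) (S L L)))) (S (V (S L L) (S L L)) (F 16 (V (S L L) (S L L))))) (S (V (U (T L L) (S L L)) (U (S L L) L)) (U (V (T L (S L L)) (T L (S L L))) (F 16 (V (S L L) (S L L)))))))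
noncomputable def w11_36 : Tr := (U (V (U (S (F 1 (V (T (S L (S L L)) (S L L)) (T (S L (S L L)) (S L L)))) (V (T (F 1 (S (S L L) L)) (S L L)) (T (F 1 (S (S L L) L)) (F 1 (S L L))))) (S (F 1 (V (T (S L L) (S L L)) (U (T L (S L L)) (S L L)))) (V (T (F 1 (S L L)) (S L L)) (T (F 1 (U (S L L) (S L L))) (F 1 (U (S L L) L)))))) (F 1 (S (U (V (U (T (S L L) (S L L)) (S (S L L) (S L L))) (T (S L L) (S L L))) (V (T (S L L) (S L L)) (U (T (S L L) L) (S L L)))) (U (V (S (S (U (T L L) (S L L)) (F 1 (U L L))) (F 1 (U (T L L) (T L L)))) (T (S (S L L) L) (S (S L L) (F 1 (S L L))))) (T (V (S L L) (U (S L L) L)) (V (S L L) (V (S L L) (S L L)))))))) (V (S (F 1 (U (V (T L (S L L)) (T L L)) (V (S L L) (S L L)))) (U (T (F 1 (V L (S L L))) (V (F 32 (S L L)) L)) (F 32 (V (S L L) (F 16 (S L L)))))) (F 1 (S (V (U (T L L) (S L L)) (U (T L L) (S L L))) (U (V (T (S L L) (S L L)) (T (S L L) (S L L))) (F 1 (V (S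 L L) (S L L))))))))
noncomputable def w11_37 : Tr := (V (F 8 (T (U (S (V L L) (V (T (F 4 (S L L)) (F 4 (S L L))) (T (S L L) (F 4 (S L L))))) (S (V (F 4 (U (T L L) (S L L))) (T L L)) (V (T (F 4 (U (S L L) L)) (F 4 (U (S L L) (S L L)))) (T (F 1 (S L L)) (F 4 (S L L)))))) (F 4 (S (U (V (T (S L L) (S L L)) (U L (V (S L L) L))) (V (T (S L L) (S L L)) (T (S L L) (S L L)))) (V (U (T (S (S L L) (F 16 (S L L))) (S (S L L) (F 16 (S L L)))) (S (T L L) (F 16 (T L L)))) (U (S (T (S L L) (S L L)) (F 16 (T (S L L) (S L L)))) (T (S L L) (S L L)))))))) (T (S (V (F 8 (T L (F 4 (U L L)))) (U L (U L (S L L)))) (F 8 (U (V (S L (F 1 (T L (S L L)))) (F 1 (V (S L L) L))) (F 1 (V (T (S L L) (S L L)) (T (S L L) (S L L))))))) (F 16 (S (U (V (S L (F 4 (V L L))) (V (S L L) L)) (V (T (F 4 (S L L)) (S L L)) (S (S L L) (T L L)))) (U (F 4 (V (S (T (S L L) (S L L)) (F 16 (T (S L L) (S L L)))) (S (F 16 (T L L)) (F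 16 (T (S L L) (S L L)))))) (V (F 4 (S (T L L) (F 16 (T L L)))) (F 1 (T (F 8 (S L L)) (S L L)))))))))
noncomputable def w11_38 : Tr := (V (F 16 (S (V (T (U (S (F 16 (S L L)) (T L L)) (S L (S L L))) (U (S (S L L) (S L L)) (S (S L L) L))) (U (T (S (F 16 (S L L)) (T L L)) (S (F 16 (S L L)) (T L L))) (T (F 16 (S L L)) (S L (S L L))))) (T (V (U (S (T L L) (T L L)) (S (S L L) (S L L))) (U (S (T L L) (T L L)) (S (S L L) (S L L)))) (V (U (S (T L L) (T L L)) (S L (S L L))) (U (S (T L L) (T L L)) (S (S L L) (S L L))))))) (S (S (F 17 (U (V (T (S L L) (S L L)) (U (T L L) (T L L))) (T (V (T L L) L) (V (T L L) L)))) (U (T (F 17 (V (S L L) (U (S L L) L))) (F 16 (V (U (S L L) (S L L)) (F 16 (U (S L L) L))))) (T (F 17 (V (V L L) L)) (F 16 (V (U L L) L))))) (U (V (T (F 16 (S (T L L) (T L L))) (F 16 (V (S L L) (T (S L L) (S L L))))) (S (U (T (T L L) (F 16 (T L L))) (T (S L L) L)) (T (U (T L L) (S L L))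 (F 16 (U (T L L) L))))) (T (V (F 16 (U (S L L) (S L L))) (S (T L L) (T L L))) (F 16 (V (S (S L L) (S L L)) (S (S L L) (S L L))))))))
noncomputable def w11_39 : Tr := (V (U (S (V (T (S (S L L) (S L L)) (S (S L L) (S L L))) (T (S (S L L) (T L L)) (S (S L L) (U L (S L L))))) (T (V (S (S L L) (S L L)) (S (T L L) (T L L))) (V (S (S L L) (S L L)) (U (S L (S L L)) (T L (S L L)))))) (S (V (T (S L L) (S L L)) (T (U (S L L) (S L L)) (U (S L L) (S L L)))) (V (T (S L L) (S L (S L L))) (T (U (S L L) (S L L)) (S (S L L) (S L L)))))) (S (U (V (S (U (T L (S L L)) (T L L)) (U (T (U L L) (S L L)) (T L L))) (T (S (F 16 (S L L)) (V (U L L) L)) (S (F 16 (S L L)) (T L L)))) (V (T (S L (S L L)) (S (S L L) (S L L))) (T (S (F 16 (V L L)) (U L L)) (U (S L L) (S L L))))) (U (V (S (U (T (T L L) (S L L)) (T L L)) (T (U (T L L) (S L L)) (U (T L L) L))) (T (U (S (S L L) (S L L)) (V (S L L) (S L L))) (S (T L L)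 (V L L)))) (V (T (S (S L L) (S L L)) (S (S L L) (S L L))) (T (S (S L L) (S L L)) (U (S L L) (S L (S L L))))))))
noncomputable def w11_40 : Tr := (T (U w11_38 (V (F 16 (U (S (V (T (S L L) (S L L)) (T (F 16 (S L L)) (U (S L L) L))) (V (T (S L L) (S L L)) (T (U L (S L L)) (U (S L L) L)))) (S (T (F 16 (S L L)) (S L (S L L))) (T (V L L) (V (S L L) L))))) (S (V (F 16 (T (F 16 (U (S L L) L)) (U (S L L) L))) (F 1 (T (F 2 (U (S L L) L)) (F 2 (U (S L L) L))))) (V (F 16 (T (U (S L L) L) (U (S L L) L))) (T (U (S L (S L L)) (S L L)) (F 16 (U (S L L) (S L L)))))))) (F 16 (U w11_39 (V (S (T (U (V (U L L) (S L L)) (V L L)) (U (V (S L L) (S L L)) (V L L))) (T (U (V (U L L) (S L L)) (V L L)) (U (V (U (S L L) L) (S L L)) (V L L)))) (S (V (T (U (S L L) L) (U (S L L) L)) (U (T (S L L) (S L L)) (T L L))) (V (T (U (S L L) L) (U (S L L) L)) (T (U (S L L) (S L L)) (U (S L L) (S L L)))))))))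
noncomputable def w11_41 : Tr := (V (U (S (F 1 (V (T (S (S L L) (U L (S L L))) (F 2 (S (S L L) (S L L)))) (T (S (S L L) (T L L)) (S (F 2 (S L L)) (T (S L L) L))))) (V (T (U (S L (S L L)) (S (F 1 (S L L)) (V L L))) (S (F 16 (V L L)) (T L L))) (T (S (F 1 (V L L)) (T L (S L L))) (S (F 1 (V L L)) (T (S L L) (F 16 (S L L))))))) (S (F 1 (V (T (U (S L L) (S L L)) (F 2 (V (S L L) L))) (T (S L (S L L)) (S L (S L L))))) (V (T (S (F 1 (S L L)) (U L L)) (F 16 (U (S L L) (S L L)))) (T (S (F 1 (S L L)) (T L L)) (S (F 1 (S L L)) (V L L)))))) (S (U (F 1 (V (T (S (S L L) (T L L)) (S (T L L) (V L (S L L)))) (T (S (S L L) (S L L)) (S (S L L) (V L L))))) (F 1 (V (T (S L (S L L)) (S (S L L) (S L L))) (T (S L (S L L)) (S L (S L L)))))) (T (F 1 (V (U (S (V L L) (T L L)) (S (S L L) (S L L))) (U (S (T L L) (T L L)) (S (S L L) (S L L))))) (V (U (S (F 1 (V (S L L) (S L L))) (T (F 1 (S L L)) (S L L))) (S (F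 1 (S L L)) (T L L))) (F 1 (U (S (U (S L L) L) (V (S L L) (S L L))) (S (S L L) (S L L))))))))
noncomputable def w11_42 : Tr := (V (F 16 (S (V (T (F 16 (U (S (S L L) (S L L)) (S L L))) (U (S (F 16 (S L L)) (V L (S L L))) (S L (S L L)))) (T (F 16 (U (S (S L L) (S L L)) (S L L))) (F 16 (U (S (S L L) (T L L)) (S (S L L) L))))) (V (T (U (S (V L L) (V L L)) (S (S L L) (S L L))) (U (S (V L (S L L)) (V L L)) (S (S L L) (S L L)))) (T (U (S (V (S L L) (S L L)) (T (S L L) (S L L))) (S (S L L) (S L L))) (U (S (V (S L L) (S L L)) (V (S L L) (S L L))) (S (S L L) (S L L))))))) (S (U (T (F 17 (V (S (S L L) (S L L)) (S (S L L) (S L L)))) (F 16 (V (S (F 16 (T L L)) (U (F 16 (S L L)) L)) (F 16 (S (V L (S L L)) (U (S L L) L)))))) (F 17 (V (T (S L (S L L)) (S (S L L) (S L L))) (T (S L L) (S (S L L) (S L L)))))) (U (V (F 16 (T (S (F 16 (T L L)) (V (S L L) (S L L))) (S (T L (F 16 (S L L))) (U (S L L) (S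 L L))))) (T (S (F 16 (T L L)) (F 16 (T L L))) (F 16 (S (U (F 16 (S L L)) L) (U (S L L) (S L L)))))) (F 16 (T (V (S L (S L L)) (S (F 16 (S L L)) (S L L))) (V (S (S L L) (S L L)) (S (F 16 (S L L)) (S L L))))))))
noncomputable def w11_43 : Tr := (T (S (F 1 (V (T (U (V (S L L) (U (S L L) L)) (V L L)) (F 2 (U (V (S L L) (S L L)) (S L L)))) (U (V (T (S L L) (S L L)) (T (S L L) (S L L))) (V (T (S L L) L) (S L L))))) (V (T (U (S (F 1 (V L (S L L))) (V (S L L) (U L L))) (V (S L L) (S L L))) (U (V (F 16 (S L L)) (S (F 17 (S L L)) (T L L))) (F 16 (V (S L L) L)))) (U (T (F 1 (V (S L L) (S L L))) (V (S L (S L L)) (F 1 (S L L)))) (V (T (F 1 (S L L)) (S L L)) (F 1 (T L L)))))) (F 16 (V (U (S (V (T (F 16 (S L (S L L))) (S L (S L L))) (T (F 16 (S L L)) (F 16 (S L L)))) (V (T (U (S L L) L) (U (S L L) (S L L))) (T (S L L) (S L L)))) (S (T (F 16 (S L L)) (V (S L L) L)) (T (V (S L L) (S L L)) (V (S L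 L) (S L L))))) (S (F 16 (U (V (T (S L L) (S L L)) (T (S L L) (S L L))) (V (S L L) (S L L)))) (U (V (T (S L L) (S L L)) (S (F 16 (T L L)) (T L L))) (V (T L (S L L)) (T L (S L L))))))))
noncomputable def w11_44 : Tr := (T (V (S (F 32 (U (V (T (S L L) L) (U (T (S L L) L) (S (S L L) (S L L)))) (T (V (S L L) (S L L)) (V (S L L) (S L L))))) (U (V (T (S L L) L) (S (U (S L L) (S L L)) (F 1 (U L (T L L))))) (T (S (F 32 (V L L)) (F 1 (V (S L L) L))) (V (F 1 (S L L)) (S L L))))) (U (S (F 32 (V (T (S L L) (S L L)) (T (S L (S L L)) (S L (S L L))))) (V (T (F 32 (S (S L L) L)) (S L L)) (T (F 32 (S (S L L) L)) (F 32 (S (S L L) L))))) (S (F 32 (V (U (T (S L L) L) (S L L)) (T (S L L) (S L L)))) (V (T (F 32 (U (S L L) L)) (S (F 32 (S L L)) (F 1 (S L L)))) (T (F 32 (S L L)) (F 32 (S L L))))))) (V (S (U (V L (S L L)) (T (F 32 (V L (S L L))) (V L (F 32 (S L L))))) (U (V L (S L L)) (F 1 (T (V L (S L L))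 (U L (S L L)))))) (S (U (V (U (F 32 (S L L)) (F 32 (S L L))) (F 32 (T (S (S L L) (S L L)) (S L L)))) (F 32 (V (T (S L L) (S L L)) (T (S L L) (S L L))))) (U (V (T (S L L) L) (T (S (S L L) (F 1 (S L L))) (S (S L L) L))) (T (V (S L L) (S L L)) (F 1 (V (S L L) (S L L))))))))
noncomputable def w11_45 : Tr := (S (F 64 (T (F 17 (U (V (T (S (S L L) (S L L)) (S (S L L) (S L L))) (S (T (S L L) (S L L)) (T (S L L) (V L L)))) (V (T (S L L) (S L L)) (T (S L L) (S L (S L L)))))) (F 1 (U (F 4 (V (T (S (S L L) (S L L)) (S (S L L) (S L L))) (T (S (T L L) (V L L)) (F 1 (S (S L L) (S L L)))))) (V (F 4 (T (S L L) (S L L))) (S (T L L) (F 4 (T (S L L) L)))))))) (F 68 (T (U (V (T (F 1 (S (S L L) (F 1 (S L L)))) (S (F 1 (T L L)) (F 32 (V L L)))) (F 1 (S (T (S L L) (S (S L L) L)) (F 1 (T (T L L) (T L L)))))) (F 1 (V (S (T (S L L) (S L L)) (F 1 (T L L))) (S (T (S L L) (S L L)) (F 1 (T L (S L L))))))) (U (V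 (S (F 1 (T (S L L) (S L L))) (F 32 (T (V L L) (T L L)))) (F 1 (S (T (S (S L L) L) (S L L)) (F 1 (T (S L L) (S L L)))))) (T (F 1 (V (S (S L L) L) (S (S L L) L))) (F 33 (V (S L L) (S L L))))))))
noncomputable def w11_46 : Tr := (T (F 128 (S (F 1 (V (U (S (T (S L L) (F 32 (S L L))) (F 4 (T (S L L) (F 1 (S L L))))) (S (T (S L L) L) (T L (S L L)))) (F 32 (U (S (T (S L L) (S L L)) (T (S L L) (V L L))) (S (T L L) (T L (S L L))))))) (F 1 (V (F 4 (U (S (T (S (S L L) L) (S (S L L) L)) (F 16 (T (V L (S L L)) (V (S L L) L)))) (S (T (S L L) (S L L)) (F 16 (T L (S L L)))))) (U (F 32 (S (T (V L L) (S (T L L) L)) (F 20 (T (S L L) (S L L))))) (S (F 32 (T L L)) (F 1 (T (F 8 (S L L)) (F 1 (S L L)))))))))) (F 128 (S (F 2 (U (V (F 32 (T (S (S L L) (V L (S L L))) (S (V L L) (V L (S L L))))) (S (F 32 (T (V L L) (V L L))) (T (F 32 (U (S L L) L)) (U (F 32 (S L L)) (F 32 (S L L)))))) (F 32 (V (S (T L (S L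 L)) (T (S L L) (S L L))) (S (T (S L L) (S L L)) (T (S L L) (S L L))))))) (U (F 2 (V (F 36 (S (T (V L L) (S L L)) (F 8 (T (S L L) (S L L))))) (T (F 32 (S (S (T L L) (F 16 (S L L))) (F 16 (U L L)))) (S (U (F 32 (S L L)) L) (F 1 (S (F 1 (S L L)) L)))))) (S (F 3 (T (V L (F 1 (S L L))) (F 1 (V L L)))) (F 65 (V (F 2 (T (S L L) L)) (F 16 (T (S L L) (S L L))))))))))
noncomputable def w11_47 : Tr := (V (F 64 (T (F 17 (U (S (V (T (S L L) (S L L)) (S (S L L) (S L L))) (T (V (S L L) (S L L)) (F 1 (V (S L L) (S L L))))) (S (V (T L L) (S L L)) (F 1 (V (T L L) (S L L)))))) (S (F 1 (U (V (F 4 (T (S L L) (S L L))) (S (T L L) (F 4 (T L L)))) (V (F 4 (S L L)) (S L L)))) (F 80 (T (F 16 (U (V L (S L L)) (S L L))) (F 16 (U (V L (S L L)) (S L L)))))))) (F 128 (S (F 1 (T (V (U (S (T L L) (T L L)) (S L (S L L))) (F 32 (U (S (S L L) (S L L)) (S L L)))) (F 32 (U (S (V (S L L) (S L L)) (V (T L L) (T L L))) (V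 (S L L) (S L L)))))) (T (U (F 1 (V (F 4 (T (F 16 (S L L)) (F 16 (S L L)))) (F 1 (T (S L L) (F 1 (S L L)))))) (F 65 (V (F 2 (S L L)) (T L L)))) (F 64 (V (F 32 (U (S (F 1 (S L L)) (F 8 (S L L))) (S L L))) (F 16 (S (F 1 (U (S L L) L)) (F 1 (U (S L L) L))))))))))
noncomputable def w11_48 : Tr := (V (S (U (V (T (S L L) L) (S (U L (T L L)) (U (S L L) (T L L)))) (V (T (U (S L L) (S L L)) (U (S L L) L)) (T (S L L) (S L L)))) (U (V (T (S (S L L) (S L L)) (U L (S L L))) (S (U (T L L) (T L L)) (U (T (S L L) L) (T L L)))) (T (V (U (S L L) (S L L)) (S L (S L L))) (V (S L L) (S L (S L L)))))) (U (S (V (T (S (S L L) (U L L)) (S (S L L) (S L L))) (T (S (S L L) (T L L)) (S (S L L) (S L L)))) (T (V (U (S L L) (S (S L L) (S L L))) (S (T L L) (T L L))) (V (S (S L L) (S L L)) (S (T L L) (T L L))))) (S (V (T (S (V L L) L) (V (S L L) (S L L))) (T (S (S L L) (S L L)) (S (S L L) (S L L)))) (V (T (S (S L L)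 (S L L)) (U (S L L) (S L L))) (T (S (S L L) (S L L)) (S (S L L) (S L L)))))))
noncomputable def w11_49 : Tr := (U (V (S (U (V (S L L) (S L L)) (T (V (S L L) (U (S L L) L)) (V (S L L) (S L L)))) (U (V (S L (S L (S L L))) (T (V (S L L) L) L)) (T (V (S L L) (S L L)) (S (V L (S L L)) (V L (S L L)))))) (S (U (V (T (S L L) L) (T (U L (S L L)) (S L L))) (V (T (S L L) (S L L)) (T (S L L) (S L L)))) (U (V (T (S L L) (S L L)) (T (S (S L L) (S L L)) (S L L))) (T (V (S L L) (S L (S L L))) (V (S L L) (S L L)))))) (S (V (T (V (S L L) (S L L)) (V (S L L) (S L L))) (U (V (T (S L L) (S L L)) (T (S L L) (S L L))) (T (S L L) (V L L)))) (V (T (V (S L (S L L)) (S L (S L L))) (V (S L L) (S L L))) (U (V (T (S L (S L L)) (S L L)) (T (S L L) (S L L))) (T (S (S L L) (S L L)) (S L L))))))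
noncomputable def w11_50 : Tr := (V (F 16 (S (V (U (T (S (F 1 (S L L)) (V L (S L L))) (S (T L (S L L)) (V L L))) (T (S L (S L L)) (S (S L L) (S L L)))) (U (T (S (U (F 1 (S L L)) L) (T L (S L L))) (S (U L (S L L)) (U (S L L) (S L L)))) (S (F 1 (T (S L L) (S L L))) (T (S L L) (S L L))))) (T (V (U (S (V (S L L) L) (V L (S L L))) (S (S L L) (S L L))) (U (S (V (S L L) (S L L)) (V (S L L) (S L L))) (S (S L L) (S L L)))) (V (U (S (V L (S L L)) (V L L)) (S (S L L) (S L L))) (U (S (U (S L L) (S L L)) (T (S L L) (S L L))) (S (S L L) (S L L))))))) (S (F 16 (U (V (S (F 1 (T (U (S L L) L) (U (S L L) L))) (T (U (F 1 (S L L)) (S L L)) (T (F 1 (S L L)) (F 1 (S L L))))) (F 1 (T (S (T (S L L) L) (V (S L L) L)) (F 8 (S (S L L) (S L L)))))) (T (F 1 (V (S (S L L) (S L L)) (S (S L L) (S L L)))) (F 1 (V (S (S L L) (S L L)) (S L (S L L))))))) (F 16 (U (T (V (S (U (V L L) (S L L)) (T (S L L) (S L L))) (S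 (T (F 1 (S L L)) (F 1 (S L L))) (U (T L L) (S L L)))) (V (S (U (V L L) (S L L)) (U (S L L) (S L L))) (S (F 2 (T L L)) (U (V L L) (S L L))))) (T (V (S (S L L) (S L L)) (S (F 1 (S L L)) (T L L))) (S (V (T L L) (U L L)) (V (S L L) (S L L))))))))
noncomputable def w11_51 : Tr := (V (S (F 16 (U (V (T (S (U L L) (T L L)) (U (S L L) (S L L))) (S (T (T L L) (T L L)) (T (U (S L L) L) (U (S L L) L)))) (V (T (S (S L L) (S L L)) (S L L)) (T (S L (S L L)) (S (S L L) (S L L)))))) (F 16 (U (T (V (S (T L L) (T L L)) (S (U (S L L) L) (T (S L L) L))) (V (S (S L L) (S L L)) (S (T (S L L) L) (T L L)))) (T (V (S (S L L) (S L L)) (S (S L L) (S L L))) (V (S L (S L L)) (S (S L L) (S L L))))))) (S (U (V (F 16 (T (S (F 1 (U L L)) (T (F 1 (S L L)) L)) (F 2 (S (F 8 (S L L)) (S L L))))) (F 40 (T (F 1 (S (S L L) (S L L))) (S (S L L) (T L (S L L)))))) (T (S (F 48 (V (S L L) L)) (F 16 (V (V L L) L))) (F 8 (V (S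 L (F 2 (S L L))) (F 1 (S (S L L) (S L L))))))) (U (T (S (F 16 (V (U (S L L) (S L L)) (F 2 (V (S L L) L)))) (F 16 (V (U (S L L) (S L L)) (F 2 (U (S L L) L))))) (F 8 (S (V (F 2 (V L L)) (S L (T L L))) (V (F 2 (T L L)) (U (S L L) (S L L)))))) (V (S (F 16 (T (S L L) (S L L))) (F 16 (T (S L L) (S L L)))) (F 8 (T (S (F 2 (S L L)) L) (S (S L L) (S L L))))))))
noncomputable def w11_52 : Tr := (T (F 34 (V (U (S (V (T (S L L) (S L L)) (S (F 16 (T L L)) (T L L))) (T (V (S L L) (S L L)) (V (S L L) (S L L)))) (S (V (T (S L L) L) (T (S L L) L)) (V (T (S L L) (S L L)) (T (S L L) (S L L))))) (S (T (F 16 (U (S (V L L) (V L L)) (S L L))) (F 16 (U (V (S L L) (S L L)) (S L L)))) (U (T (V (S L L) (S L L)) (V (S L L) (S L L))) (T (V (S L L) (S L L)) (V L L)))))) (S (V (F 32 (U (F 16 (T (V (S L L) (S L L)) (V (S L L) (S L L)))) (S (F 16 (T L L)) (F 16 (T L L))))) (V (F 34 (U (S (F 16 (T L L)) (T L L)) (S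 L L))) (F 5 (U (T (F 18 (S L L)) (S L L)) (S L L))))) (F 32 (V (T (F 16 (U (V (S L L) (S L L)) (V L L))) (U (F 16 (V (S L L) (S L L))) (S L L))) (U (V (T (F 16 (S L L)) (S L L)) (F 8 (T (S L L) (S L L)))) (T (S L L) (V (S L L) L)))))))
noncomputable def w11_53 : Tr := (S (V (F 4 (U (F 2 w11_44) (F 2 (V (T (S (F 32 (V (U (S L L) L) (U (S L L) (S L L)))) (V (F 1 (U (T L L) (S L L))) (U (T (S L L) L) (F 1 (S L L))))) (S (V (T L L) (F 32 (T (S L L) L))) (F 1 (V (T (S L L) L) (T (S L L) L))))) (S (F 32 (T (U (T (V L (S L L)) (V L L)) (V (S L L) (S L L))) (U (V (T (S L L) L) (T L L)) (V L (S L L))))) (T (T (F 32 (U (V (S L L) (S (S L L) L)) (F 16 (S L L)))) (F 1 (U (V L L) (S L L)))) (F 1 (U (V (T (S L L) L) (T (S L L) L)) (V (S L L) (T L L)))))))))) (U (V w11_45 w11_46) w11_47)) (F 1 (V (F 34 (T (U w11_48 (V (S (V (T (U (S L L) L) (S L L)) (T (U (S L L) L) (S L (S L L)))) (V (T (U (S L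 L) L) (S (S L L) (S L L))) (T (U (S L L) L) (U (S L L) L)))) (S (T (U (V (S L L) (U (S L L) L)) (V L L)) (U (V (S L L) (U L L)) (V L L))) (T (U (V (S L L) (U (S L L) L)) (V L (S L L))) (U (V (S L L) (V (S L L) L)) (V L L)))))) w11_49)) (U (F 32 (T w11_50 w11_51)) w11_52))))
noncomputable def w11_54 : Tr := (U (F 9745 (V (F 512 (S (F 1600 (U (T (F 1 (V L L)) (F 67 (S (K 2) (K 2)))) (F 3 w11_25))) (F 2368 (U (T (F 2 (V (K 3) (F 128 (T (T L L) (K 3))))) (K 5)) (F 259 (T (U (T (V (S (F 2 (U L (V (S L L) (T L L)))) (V (F 2 (T (S L L) L)) (T (S L (S L L)) (S L L)))) (V (U (T L L) (S L (T (S L L) (F 2 (S L L))))) (U L (S (T L L) (T (U L (S (S L L) (S L L))) (F 2 (S L L))))))) (F 2 (V (S (K 3) (K 3)) (V (S L (S L (K 3))) (U (S L (K 3)) (S L (S L (S L L)))))))) w11_26) (F 2 (V (U (K 3) (S (T (T (S L L) (K 3)) (K 3)) (T (T (V L (V (S L L) L)) (K 3)) (K 3)))) (T (S (U (S (K 3) (K 3)) (V (S L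 (S L L)) (T (S (S L L) L) (S L L)))) (U (K 3) (V (T (U L (S L L)) L) (T (S L L) (S L L))))) (U (K 3) (S (T (S L L) L) (U (K 3) (T (S L L) L))))))))))))) (F 10 w11_34))) (F 255505 (T (S (V (F 34 (T (F 68 w11_35) (F 4 w11_36))) (F 1 (U (F 128 w11_37) (F 128 (V (F 8 (S (T (F 4 (U (T (S L L) (V L L)) (V L L))) (F 4 (U (V (T (S L L) L) (T L L)) (V (S L L) (S L L))))) (T (F 1 (T (U (S L (T L L)) (S L L)) (F 8 (U (V L L) (S L L))))) (F 4 (U (V (U (T (S L L) L) (F 16 (S L L))) (S L (F 16 (S L L)))) (F 16 (V (S L L) (T L L)))))))) (T (S (U (V (F 8 (S L L)) (S L L)) (V (F 8 (S L L)) L)) (F 72 (U (V (T L L) (S L L)) (V (T L L) (S L L))))) (F 16 (S (U (V (S L L) (S L (S L L))) (V (S L L) (S L L))) (F 1 (V (F 8 (U (T L (S L L)) (S L L))) (U (S (S L L) (F 8 (S L L))) (S L L)))))))))))) (F 288 (V (F 32 w11_40) (U (F 32 (T w11_41 w11_42)) (F 32 w11_43))))) (F 64 w11_53))))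
noncomputable def w11_55 : Tr := (F 2424976 (S (F 3440640 (T (F 1075 (U (F 8209 (V (F 1040 (T (K 3) (U (K 3) (S (K 3) (F 3 (U (K 6) (V (F 32 (T (S (K 1) L) (F 4 (S L L)))) (K 6)))))))) (K 7))) (F 8192 w11_0))) (F 557058 (U (F 4294 (U (T (K 9) (F 4 (V (F 264 (S (F 256 (V L (K 1))) (F 290 (U L L)))) (K 2)))) (F 1 (S (F 768 (V (U (F 32 (T (K 2) (F 129 (S (V L (K 4)) (S L L))))) (F 32 (T (V (F 8 (S (S L L) (F 65 (T L (S L L))))) (K 2)) (F 129 (S (V (F 8 (U (S (S L L) (S L L)) (T (S L L) (S (S L L) (V (S L L) L))))) (S (S L L) (S L L))) (V (F 8 (U (S L (S L L)) (T (S (S L L) (S L L)) (V (S L L) (S (S L L) (S L L)))))) (T (S L L) (S (V L L) (F 8 (V L L)))))))))) (F 1 (S (K 2) (T (K 2) (F 9 (U (K 4) (T (K 4) (F 1 (V (V L L) (S (K 1) L))))))))))) (F 1 w11_1))))) (F 69766 (S (F 3 (V (F 520 w11_3) (F 17 w11_4))) (F 2053 (U (F 8 w11_7) (F 8 (V (F 32 w11_8) (F 1 w11_9))))))))))) (F 4194321 (T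 (F 8641 (U (F 4228 w11_13) (F 53251 w11_24))) (F 802816 w11_54)))))
noncomputable def w11_56 : Tr := (V (F 4 (T (F 8 (U (V (T (S (S L L) (T L L)) (S (S L L) (V L L))) (S (T L (S L L)) (T (S L L) (V L L)))) (V (T (S L L) (S L L)) (S (S L L) (T L L))))) (U (V (F 8 (T (S (S L L) (V L L)) (S (S L L) (S L L)))) (S (T (V L (S L L)) (U (S L L) L)) (F 8 (T (V L (S L L)) (V L (S L L)))))) (V (F 8 (T (S L L) (S L L))) (S (T L L) (F 8 (T L L))))))) (T (U (V (F 4 (S (T L (S L L)) (T (S L L) (V L L)))) (T (F 4 (S L (S L L))) (F 4 (S (T L L) (U (S L L) L))))) (F 4 (S (V (S L L) L) (T (S L L) (V L L))))) (F 4 (U (V (S (T (U (S L L) L) (U (S L L) (S L L))) (T (U (S L L) L) (U (S L L) (S L L)))) (S (F 1 (T (U (S L L) L) (U (S L (S L L)) (S L L)))) (U (T (S L L) (F 1 (S (S L L) L))) (T (S L L) (F 1 (S L L)))))) (S (T (V (S L L) L) (V (S L L) (S L L))) (T (V (S L L) (S L L)) (V (S L L) (S L L))))))))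
noncomputable def w11_57 : Tr := (U (S (F 2115 (T (V (F 1 (U (F 16 (V (F 4 (S (T L L) (T L (S L L)))) (S (T L L) (T L (S L L))))) (S (F 16 (V L L)) (F 16 (V L (S L L)))))) (F 8 (U (F 64 (S (T L (V L L)) (T (S L L) (V (S L L) (S L L))))) (F 64 (S (S L L) (V L L)))))) (F 9 (V (U (S (V (T (F 8 (S L L)) (S (S L L) L)) (T (S L L) (S L (S L L)))) (V (F 8 (T (S L L) (S L L))) (T (S L L) (U (S L L) L)))) (V (S (S L L) (F 8 (S L L))) (S (T L (S L L)) (T L L)))) (U (S (V (T (U (S L L) L) (U (F 1 (S L L)) L)) (F 1 (T (S L L) (S (S L L) (S L L))))) (V (U (T (S L L) (F 1 (S L L))) (T L (S L L))) (F 1 (T (S L L) (U (S L L) (S L L)))))) (S (F 1 (V (S L L) (S L L))) (V (T L L) (T L L)))))))) (F 3203 w11_56)) (F 3139 (S (V (T (U (S L L) L) (U (F 4 (S (S L L) (S L L))) (S L L))) (F 4 (T (S L (S L L)) (U (S (F 1 (S L L)) (S L L)) (S L L))))) (T (V (U (F 4 (V (F 8 (S L L)) (S L L))) L) (F 4 (U (S L (S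 L L)) L))) (V (U (F 4 (V (F 8 (S L L)) (S L L))) (S L L)) (F 4 (U (S (T L L) (T L L)) (S L L))))))))
noncomputable def w11_58 : Tr := (V (F 8 (S (U (F 4 (T (F 64 (V (S L (S L L)) (U (S L L) L))) (V (S (F 16 (S L L)) (F 64 (T L L))) (F 8 (S L (F 1 (S L L))))))) (T (F 5 (V L L)) (F 4 (S L (F 64 (S L L)))))) (F 5 (U (T (V (S (V L (S L L)) (U (T L L) L)) (U (S (S L L) (F 8 (T L L))) (S L L))) (F 8 (V (S (T L (S L L)) (U (S L L) L)) (S (U (S L L) L) (U (T (S L L) L) (S L L)))))) (T (V (S L (S L L)) (S L L)) (F 8 (V (S L (S L L)) (S L L)))))))) (F 64 (S (U (F 16 (T (F 64 (S L (F 4 (V L L)))) (S (F 72 (S L L)) (F 72 (V (S L L) L))))) (F 9 (T (F 8 (S L L)) (V L L)))) (F 17 (U (T (V (S (T L L) (F 8 (T (S L L) (S L L)))) (F 8 (S (T L L) (T (S L L) (S L L))))) (F 8 (V (S (T L (S L L)) (T (T L L) (V L L))) (S (T L L) (T (S L L) (V L L)))))) (F 8 (T (V (S L L) (S L L)) (V (S L (S L L)) (S L (S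 L L))))))))))
noncomputable def w11_59 : Tr := (V (F 16 (S (F 64 (U (T (V (F 8 (U (S L (F 1 (S L L))) (S L L))) (S (S L L) (F 32 (V L L)))) (V (F 8 (S (U (S L L) L) (F 1 (U (S L L) L)))) (S (F 8 (T L L)) (F 32 (U (T L L) L))))) (T (V (F 8 (S L L)) (S L L)) (V (F 8 (S L L)) (S L L))))) (F 1 (T (F 1 (U (V (U (S (T L L) (T L (S L L))) (S L (S L L))) (S (U (V L L) (S L L)) (T (U (S L L) L) (V L L)))) (V (S L L) (S L (S L L))))) (U (V (S (F 17 (U (S L (S L L)) L)) (U (T (S L L) (F 16 (S L L))) (S L L))) (S (F 1 (V (T L L) (T L L))) (T (F 1 (V L L)) (U (V L L) L)))) (V (S L (S L L)) (S (F 1 (S L L)) (T L L)))))))) (S (F 1 (U (T (F 8 (V (S L (F 32 (T L L))) (S L (F 32 (S L L))))) (V (F 8 (S (T L L) (F 32 (V (S L L) (S L L))))) (S (S L L) (F 9 (T L L))))) (V (F 8 (T (S L L) (S L L))) (T (F 1 (S L L)) (S L L))))) (F 144 (T (F 32 (U (V (S (U (T L L) (S L L)) (T (V L L) (V L L))) (S (U (T L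 L) L) (T (V L L) (V L L)))) (V (S L (S L L)) (S L (S L L))))) (F 32 (U (V (S (U (V (S L L) (S L L)) (S L L)) (V (T L L) (T L L))) (S (U (T L L) (S L L)) (U (V (S L L) (S L L)) (S L L)))) (V (S (S L L) (S L L)) (S L (S L L)))))))))
noncomputable def w11_60 : Tr := (S (F 4 (U (V (T (F 1 (S (U (T L L) L) (F 1 (U (S L L) L)))) (S (F 1 (U (S L L) L)) (F 32 (U (T L L) L)))) (F 1 (T (S (V (S L L) (S L L)) (F 1 (U (T L L) L))) (S (U (S L L) L) (F 1 (U (T L L) L)))))) (T (F 1 (V (S L L) (S L L))) (F 1 (V (S L L) (S L L)))))) (F 1 (T (U (V (F 16 (S (T (F 16 (S L L)) (V L L)) (U (V (S L L) (S L L)) (S L L)))) (S (F 16 (U (T (F 16 (S L L)) L) (F 16 (S L L)))) (T (F 16 (V L (S L L))) (F 16 (V L (S L L)))))) (F 16 (V (S (S L L) (S L L)) (S (F 16 (S L L)) (S L L))))) (F 16 (U (V (S (U (V L (S L L)) (S L L)) (T (V L L) (V L L))) (S (V (T L L) (T (S L L) L)) (T (V (S L L) (S L L)) (V (S L L) (S L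 L))))) (V (S (S L L) (S L L)) (S (S L L) (S L L))))))))
noncomputable def w11_61 : Tr := (S (F 1 (U (V (F 8 (T (S (F 8 (V L L)) (F 32 (T (F 2 (S L L)) (F 2 (S L L))))) (F 8 (S (U (S L L) L) (F 1 (U (T L L) L)))))) (S (T (U (S L L) L) (F 4 (U (S L L) (S L L)))) (F 1 (T (U (S L L) (S L L)) (F 16 (U (V L L) L)))))) (V (F 8 (T (F 8 (S L L)) (F 8 (S L L)))) (T (S L (F 1 (S L L))) (F 4 (S (S L L) (F 32 (S L L)))))))) (F 144 (U (T (V (S (F 32 (T (V L L) (F 8 (V L L)))) (T (V (S L L) (F 32 (S L L))) (F 2 (U (S L L) L)))) (S (F 32 (U (T L (S L L)) (S L L))) (U (T (F 32 (S L L)) (F 32 (V L L))) (T L L)))) (F 2 (S (V (V (T L L) (F 1 (S L L))) (F 1 (U (V (S L L) L) L))) (V (U (V (S L L) (S L L)) (S L L)) (U (T (S L L) (S L L)) (S L L)))))) (T (V (S (F 32 (S L L)) (T L L)) (F 32 (S L (S L L)))) (F 2 (V (S (S L L) (S L L)) (S L (S L L))))))))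
noncomputable def w11_62 : Tr := (V (F 2 (U (T (F 2 (V (S (V (S L L) (T L L)) (T (V L L) (V L L))) (S (U (V (S L L) (S L L)) (S L L)) (T (V L (S L L)) (V L L))))) (V (F 2 (S (U (T L L) (S L L)) (T (S L L) (S L L)))) (S (F 2 (U (T L L) (S L L))) (F 2 (T (V L L) (S L L)))))) (F 2 (T (V (S (S L L) (S L L)) (S (S L L) (S L L))) (V (S L (S L L)) (S L (S L L))))))) (U (S (V (F 34 (T (U (V (S L L) (S L L)) (S L L)) (U (T (S L L) L) (S L L)))) (T (F 32 (U (T L (F 1 (S L L))) (F 1 (S L L)))) (V (F 34 (S L L)) (F 80 (S L L))))) (F 2 (V (F 2 (T (U (T (S L L) (S L L)) (S L L)) (U (T (S L L) (S L L)) (S L L)))) (T (F 2 (U (T (S L L) (S L L)) (S L L))) (U (T (S L L) (S L L)) (S L L)))))) (T (F 32 (S (V (F 16 (S L L)) (F 1 (S L L))) (F 16 (V (S L L) (S L L))))) (S (V L (T L L)) (F 2 (V (F 2 (S L L)) (S L L)))))))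
noncomputable def w11_63 : Tr := (U (F 320 (T (F 128 (V (F 16 w11_60) w11_61)) (F 4 (S (V (F 34 (U (T (V (S (F 32 (V L (S L L))) (F 1 (U (T L L) L))) (S (F 32 (U (S L L) L)) (F 1 (V (S L L) (F 1 (S L L)))))) (V (S (T L L) (F 1 (V L (S L L)))) (S (F 32 (V (S L L) (S L L))) (F 1 (U (S L L) L))))) (T (V (S L L) (S L (F 1 (S L L)))) (V (S L L) (S L L))))) (U (S (F 3 (V (T (U (S (S L L) L) (S L L)) (U (V L (S L L)) (S L L))) (T (U (V (S L L) (S L L)) (S L L)) (F 32 (U (S L (S L L)) L))))) (F 128 (V (F 34 (T (F 1 (U (S L L) L)) (F 1 (U (T L L) L)))) (F 64 (T (F 1 (U (V (S L L) (S L L)) (S L L))) (F 1 (U (V L L) (S L L)))))))) (S (F 3 (V (T L L) (U (T L L) (S L L)))) (F 130 (T (F 32 (V L (S L L))) (F 32 (V L (S L L)))))))) (F 128 w11_62))))) (F 64 (T (F 256 (V (F 32 (S (F 128 (U (F 24 (V (S L L) (S L L))) (F 72 (S L L)))) (F 9 (U (F 16 (T (V L L) (V L (S L L)))) (F 16 (S L L)))))) (F 64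 (S (F 132 (U (S (T L L) (F 32 (T L L))) (F 32 (S L L)))) (F 1 (U (T (V L L) (F 32 (S (F 32 (S L L)) (F 2 (S L L))))) (F 48 (S L L)))))))) (F 8 (S (V (F 2 (U (F 12 (T (S L L) (S L L))) (F 5 (S L L)))) (F 64 (U (S (F 192 (T L L)) (F 65 (T L L))) (F 193 (S L L))))) (F 320 (V (F 34 (U (T (V L L) (S L L)) (S L L))) (U (T (F 32 (V L (S L L))) (V L (S L L))) (S L L)))))))))
noncomputable def w11_64 : Tr := (S (T (F 24584 (U (S (F 1024 (T (V (F 32 (U (F 8 (T L (S L L))) L)) L) (F 2 (V (F 32 (U (F 32 (S (F 8 (T L L)) (F 136 (T L (F 4 (S L L)))))) (S L (F 17 (S L L))))) (F 80 (T L (F 9 (S L (S L L))))))))) (F 3584 (T (V (F 32 (U (V (F 18 (T L (S L L))) (F 32 (T L (S L L)))) (T L L))) (F 4 (U (V (F 8 (S L L)) L) (S L L)))) (V (F 32 (U (F 32 (T (F 4 (S L (F 8 (V L L)))) (F 12 (V (S L (S L L)) (S L L))))) (F 24 (T (S L L) (F 4 (V L L)))))) (F 20 (U (V (T L (S L L)) (T L (S L L))) (T L (S L L))))))))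 (F 1024 (S (T (T L L) (F 98 (V (F 8 (S L L)) L))) (F 3 (T (V (F 8 (T L L)) L) (F 16 (V (F 8 (U (S L L) L)) (F 4 (V (S L L) L)))))))))) (F 262 w11_57)) (F 15 (T (U (F 2 (T (F 512 w11_58) (F 20 w11_59))) (F 2 (T (F 545 (V (S (U (T L L) L) (U (F 32 (T (S L L) (F 4 (S L L)))) (S L L))) (F 32 (S (F 4 (T L (S L L))) (F 4 (U (T (S L L) (S L L)) (S L L))))))) (F 16 (V (F 16 (U (F 4 (S (F 1 (T (F 1 (S L L)) (F 4 (S L L)))) (F 64 (T (F 32 (S L L)) (F 32 (V L L)))))) (F 129 (S (S L L) (S L L))))) (F 65 (S (U (T L (S L L)) (F 1 (S L L))) (F 1 (U (T (F 8 (V L L)) (V L L)) (F 8 (S L L))))))))))) w11_63)))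
noncomputable def treeW11 : Tr := (F 0xfffffffffffffffffffffffffffffffff999fe733398ce7339 (U w11_55 (F 268897535 w11_64)))

theorem pW11 : chkW par treeW11 128 128 128 128 896 128 349525 699051 Lc = true := by decide +kernel

noncomputable def w12_0 : Tr := (V (F 264 (U (T (V (F 4 (V (U (S L (K 3)) (S L L)) (F 32 (S L L)))) (F 1 (S (F 16 (U L (V L L))) (S L L)))) (V (K 3) L)) (T (S (F 5 (V (T (U (S (S L L) L) (S L L)) (S L L)) (U (T (V L L) L) (T (V L L) L)))) (F 1 (T (F 16 (V (U (S L L) L) (U (S L L) L))) (V L (S L L))))) (V (S L L) (U L (S L L)))))) (T (F 392 (U (S (V (U (V L (S L L)) (T (V (F 2 (S L L)) (S L L)) L)) (F 8 (U (T (V (U L (S L L)) (S (T L L) (S L L))) (U L L)) (T (V (S L L) (U (S L L) (S L L))) (U (S (S L L) L) (S L L)))))) (V (T (V L (V L L)) L) (F 8 (U (S (U L L) L) (T (S (V L L) (V L L)) L))))) (V (S (T (U (V L (S L L)) (S L L)) (U (V L L) L)) (T (U (V L L) (S L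 L)) (V L L))) (F 8 (S (T (U (S (S L L) (S L L)) (S L L)) (U (S (S L L) L) (S L L))) (T (U (V L L) (S L L)) (V L (T L L)))))))) (F 392 (U (V L (F 8 (S (U L (S L L)) L))) (T (S (V (S L L) (F 8 (U (S L L) L))) (V L (F 8 (S L L)))) (F 8 (S (U L L) L)))))))
noncomputable def w12_1 : Tr := (T (U (F 353 (S (F 8229 (U (K 4) (F 128 (V (K 5) (T (F 68 (U (F 64 (S (F 1 (V (K 3) L)) (K 3))) (F 192 (V (S L (K 2)) (F 8 (T (S (S (S L L) L) L) (S L (K 2)))))))) (S (F 134 (S L (K 3))) (K 5))))))) (K 9))) (F 340065 (S (F 1092 w12_0) (F 193 (V (F 128 (U (F 64 (T (V (F 16 (U (S (K 2) (K 2)) (T (S L L) L))) (S (S L L) (S L L))) (K 3))) (T (F 64 (T (V (F 16 (S (S L L) (S L L))) (S (F 64 (V L L)) (U L L))) (V (F 16 (S L L)) (U L L)))) (F 64 (T (V L (S L L)) L))))) (F 2 (T (U (F 2 (V (T (S L L) (S L L)) (F 4 (S (F 1 (U L (T (S L L) L))) (U L (T L L)))))) (F 2 (V (T (S (F 64 (U (S L L) L)) (U (S L L) L)) (S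 L L)) (F 4 (T (S (F 1 (V L (S L L))) (T L L)) (S (F 1 (S L L)) (S L L))))))) (F 32 (U (U (K 2) (S L L)) (T (V L (S L L)) (S L L))))))))))) (F 65633 (U (K 8) (F 1 (S (T (U (F 34 (V (K 7) (F 520 (S L L)))) (F 9248 (V L (F 640 (S (F 320 (T L L)) (F 64 (S L L))))))) (V (F 8192 (U (K 6) L)) (F 266 (U (F 136 (S L L)) (F 129 (S L L)))))) (F 8194 (T (F 392 (V (U (K 3) (S L L)) (F 68 (U (S (K 4) (K 4)) (S L L))))) (F 256 (V (U (K 4) (F 1 (S L L))) (F 68 (U L (F 64 (S L L)))))))))))))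
noncomputable def w12_2 : Tr := (T (V (S (U (T (F 8 (U L (S L L))) (F 8 (S L L))) (V (F 8 (T (S L L) (S L L))) (T L (S L L)))) (U (V (F 8 (T (S (S L L) (S L L)) (S (S L L) (S L L)))) (T (F 8 (S L (F 8 (S L L)))) (F 2 (U (S L L) (S L L))))) (T (S (F 8 (V L L)) (V (F 8 (S L L)) L)) (V (F 8 (S L (S L L))) (F 2 (S L L)))))) (S (U (S L L) (T (S L (F 2 (S L L))) (F 2 (S L L)))) (F 2 (U (T (V (U L L) L) (V (S L L) L)) (T (V (S L L) (S L L)) (V (S L L) (S L L))))))) (V (U (S (V (F 8 (S L L)) L) (T (V (F 8 (S (S L L) (F 8 (S L L)))) (F 2 (U L (S L L)))) (F 2 (V (F 4 (S L L)) (T L L))))) (S (T (S L (T L L)) (V (F 8 (S L L)) L)) (T (V (F 8 (S L L)) (F 2 (S L L))) (F 2 (S (V L L) (V (S L L) L)))))) (F 2 (S (T (T L L) L) (U (T (T L L) L) (T (V (S L L) (S L L)) (V (S L L) L)))))))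
noncomputable def w12_3 : Tr := (U (F 2 (S (V (F 64 (T (F 8 (U (S L L) (S (S L L) (V (U L (S L L)) L)))) (U (S (K 2) L) (S L (S L L))))) (T (S (S L L) (F 64 (V (S L L) L))) (F 64 (S L L)))) (F 64 w12_2))) (F 2 (S (F 64 (T (V (S (F 8 (U (S L L) L)) (T (F 8 (S L L)) (U L L))) (S (U L L) (U (T L L) (S L L)))) (V (S (S L L) (U (T L L) (S L L))) (U (V (S L L) L) (T L L))))) (F 64 (T (V (S (U (V (F 8 (S L L)) (S L L)) (T (S L L) (S L L))) (U (V (F 8 (S (S L L) (S L L))) (T (S L L) (F 2 (S L L)))) (V (F 8 (S L L)) (S L L)))) (S (V (U (S L L) L) (F 2 (T L L))) (F 2 (T (U (V L L) (S L L)) (U (V L L) (S L L)))))) (V (S (U (V (T L L) (S L L)) (T L L)) (U (V (T (F 8 (S L L)) (S L L)) (F 2 (T L L))) (T (S L L) (F 2 (S L L))))) (F 2 (S (U (T L L) (T L L)) (U (T (V L L) (V L L)) (T (S L L) (S L L)))))))))))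
noncomputable def w12_4 : Tr := (S (F 64 (T (U (F 16 (V (S L (F 1 (S L L))) (U (S (K 2) (K 2)) (S L (F 1 (S L L)))))) (S (V (U (S L L) L) (F 16 (V L (S L L)))) (F 80 (V (U (T L L) L) (T (S L L) (S L L)))))) (F 16 (U (U (K 2) (V (S (K 2) L) (S L L))) (V (S L (F 1 (S L L))) (S (S L L) (F 1 (T L L)))))))) (F 69 (T (U (V (S (U (S (K 3) L) (V (S L L) L)) (T (U (V L L) (V (S L L) (S L L))) (U (S L L) (V (S L L) L)))) (S (U (K 3) (T (S L L) L)) (U (V (T L (K 3)) L) (T (S (S L L) (T L L)) (V (S L L) L))))) (S (V (U (V (S L L) (T L L)) (S L L)) (T (V L L) (V L L))) (V (U (V (T L L) (T (S L L) (S L L))) (T (S L L) (S L L))) (T (V (S L L) (S L L)) (V (S L L) (S L L)))))) (U (V (U (T (S (K 3) L) L) (S (T L L) (V (T L L) (T (S L L) L)))) (U (K 3) (S (S L L) (T (S L L) L)))) (V (S (T (S L L) (S L L)) (T (U (S L L) L) (U (S L L) L))) (S (T (S L L) (S L L)) (T (V (S L L) L) (V L L))))))))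
noncomputable def w12_5 : Tr := (U (F 256 (S (F 64 (T (F 2 (V (S L L) L)) (V (S L L) L))) (F 64 (T (V (U (S (F 2 (S L L)) (F 32 (T (F 16 (V (F 16 (T L (S L L))) (S L L))) (F 1 (T (F 2 (T L L)) L))))) (F 2 (S (T (S L L) L) (F 2 (V (F 16 (T (S L L) (S L L))) (T (S L L) (S L L))))))) (F 34 (S (T L L) (U (T L L) (T (V (S L L) L) (T L L)))))) (F 32 (V (U (S L (F 1 (T (U L (T L L)) (T (S L L) L)))) (S (T L L) (V (F 1 (T (S L L) (S L L))) (T (S L L) (F 1 (S L L)))))) (U (T L L) (S L (V (F 1 (S L L)) (T L L)))))))))) (F 256 (S (F 64 (V (T (F 2 (S (S L L) (U (S L L) L))) (S L (T L L))) (T (F 2 (U (S L L) (S L L))) L))) (F 64 (T (F 2 (V (S (U (V (S L L) L) (S L L)) (U (F 2 (T (S L L) (F 16 (S L L)))) (F 2 (V L (S L L))))) (F 2 (U (S (T L L) (V (S L L) (T L L))) (S L (S L (S L L))))))) (S (V (U (F 32 (S L (F 1 (S L L)))) (F 32 (S L L))) (F 32 (T L L))) (F 32 (V (F 1 (U (T (S L L) (S L L)) (V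 (S L L) (S L L)))) (T (U (S L L) L) (F 1 (U L L)))))))))))
noncomputable def w12_6 : Tr := (U (F 9728 (S (K 4) (F 1032 (V (F 516 (U (K 2) (T (F 160 (T (S (U (K 3) (V (F 4 (V L (K 2))) (K 3))) (V (U (F 4 (T L L)) (T (F 4 (U L (V (T L L) L))) (F 4 (U L (T L L))))) (F 16 (U (K 1) (T L L))))) (V (U (S (K 3) (F 16 (S (K 1) L))) (S (S (K 3) L) (T (V (F 4 (S L L)) L) (F 16 (T L L))))) (F 16 (S (K 1) (K 1)))))) (V (U (K 2) (F 128 (S (K 4) (F 32 (T (T L L) (F 1 (T L L))))))) (K 2))))) (K 6))))) (F 1795 (T (F 128 (V (F 2 w12_3) (F 128 w12_4))) (V (F 1 w12_5) (F 10 (S (F 4 (U (V (K 2) (T (S L L) L)) (V (F 1 (T (F 2 (S L L)) L)) (T (F 1 (S L L)) (F 1 (U L L)))))) (F 128 (U (T (F 16 (S (F 2 (V L (T L L))) (F 2 (V (U L (T L L)) (U (K 1) (T L L)))))) (U (K 1) (V (F 32 (T L L)) (T L L)))) (T (F 16 (V (F 2 (S (T L L) (T (V L L) (S L L)))) (S (F 2 (T L L)) (F 2 (T (S L L) (S L L)))))) (S (V (F 32 (S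 L L)) (F 16 (U L L))) (V (F 32 (V (T L L) (S L L))) (U (T L L) (S L L)))))))))))))
noncomputable def w12_7 : Tr := (V (U (F 2 (T (F 2 (V (U (F 1 (S L (T (T L L) (T L L)))) (S (T L L) (F 1 (V (T (S L L) (S L L)) (T L L))))) (U (T L L) (T (S L L) L)))) (S (U (F 64 (T L L)) (F 64 (T L (S L L)))) (F 66 (U (V (T (T L L) (T L L)) (T L L)) (V (T (V (S L L) L) (V (S L L) (S L L))) (T L (T L L)))))))) (F 2 (T (F 2 (S (V (F 1 (U (T L L) L)) (S L L)) (F 1 (V (U (T (S L L) (V L L)) (T (S L L) L)) (U (T L L) (S L L)))))) (F 64 (V (F 16 (S (U (T L L) L) (U (S (T L L) (T (S L L) L)) (T L L)))) (S (S L L) (S (F 16 (T L L)) (F 16 (T (S L L) (S L L)))))))))) (F 2 (U (T (U (K 5) (V (T (S L L) L) (S (K 5) L))) (V (S L (F 64 (T L (S L L)))) (S (K 5) (F 64 (T L L))))) (T (V (S (S L L) (S (S L L) (F 64 (U (S L L) L)))) (S (T L L) (U (S L L) (S L L)))) (V (S (F 64 (V L L)) (F 64 (U (T L (S L L)) (S L L))))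 (S (S L L) (F 64 (U (T L (F 4 (S L L))) (T L L)))))))))
noncomputable def w12_8 : Tr := (U (T (S (U (V L (K 0)) (V (F 16 (T L L)) L)) (U (V (F 16 (T (U L (T L L)) (U (T L L) (V (S L L) L)))) (T L L)) (V (F 16 (S (V (T L L) (S L L)) (T (V L L) (V L L)))) (T (V (F 16 (S L L)) L) (V (S L L) L))))) (V (U (S (V L L) (V (F 16 (T (S L (S L L)) (S (S L L) (S L L)))) (S (S L (F 16 (T L L))) (F 16 (U (T L L) (T L L)))))) (S (T (U L L) (U L (S L L))) (T (F 16 (V (U (S L L) L) (S L L))) (V (F 16 (S (S L L) (S L L))) (S L (S L L)))))) (S (T L (F 4 (S L L))) (T (U (T L L) (V (S L L) (F 4 (S L L)))) (F 4 (U (V L L) (S (T L L) (V L L)))))))) (T (S (V (F 16 (U (T L L) (S L L))) (U (S L L) L)) (V (F 16 (U (T (S L L) (S L L)) (T L L))) (U (T (S L L) (V (S L L) L)) (T L (S L L))))) (S (V (U (T (S L L) (S L L)) (T L (S L L))) (T (U L L) (F 4 (U (S L L) L)))) (V (U (T (S L (F 16 (S L L))) (V (F 16 (S L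 L)) (S L L))) (V (F 16 (S L L)) (S L L))) (T (U (V (S L L) L) (S L L)) (F 4 (U (S L (S L L)) (S L L))))))))
noncomputable def w12_9 : Tr := (S (F 257 (V (F 17 (U (U (K 5) (T L (V L L))) (T (S L (U (T L L) (T L L))) (S L (V (U L L) (U L L)))))) (S (F 8 (U (K 5) (T L L))) (F 16 (T (U (K 5) (V L L)) (F 72 (U (S (K 0) (K 0)) (V L (S L L))))))))) (F 785 (V w12_8 (T (U (V (S L (T (T L L) (F 4 (V L L)))) (F 4 (U (K 4) (S L (V L (T L L)))))) (S (V (U (S L L) L) (F 4 (T L L))) (V (T (V (S L L) L) (F 4 (U (S L L) (S L L)))) (F 4 (T (U (S L L) L) (S L (U L L))))))) (F 4 (U (S (U (K 4) (V (T L L) L)) (V (T (V (T L L) (S L L)) (U (S L L) (S L (V L L)))) (U (T (K 4) (V L L)) (T (V (S L L) L) (V L L))))) (S (V (T (U L L) (S L L)) (S (S L L) (T L L))) (V (U (V (T L (S L L)) (T (S L L) (S L L))) (T (S L L) (S L L))) (T (S (S L L) (U L L)) (S (T L L) (V L L)))))))))))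
noncomputable def w12_10 : Tr := (U (T (F 34 (S (F 128 (V (U (F 32 (V (F 16 (T (S (S L L) L) (S L L))) (S (T (S L L) L) (T L L)))) (F 32 (V (S L L) (S L L)))) (F 32 (U (V (S (T (S L L) L) (T (S L L) L)) (S (T (V L L) (F 4 (S L L))) (F 4 (T (S L L) L)))) (V (U (S L L) L) (S (S L L) L)))))) (F 2 (V (U (V (T (F 4 (S L L)) L) (T (S L L) (S L L))) (T (S L L) (S L L))) (U (V (T (S L L) (S L L)) (F 16 (T (S L L) (S L L)))) (V (S L L) (F 16 (S L L)))))))) (S (F 2 (V (F 16 (U (T (F 64 (S L L)) L) (F 64 (S L L)))) (F 258 (U (F 8 (T (V (S L L) (F 4 (S L L))) (F 4 (S L L)))) (V L (F 16 (S L L))))))) (F 288 (V (U (F 64 (T (S L L) L)) (F 64 (S L L))) (U (F 4 (T (F 2 (S L L)) (S L L))) (T L L)))))) (S (F 258 (T (F 128 (V (F 8 (V (F 16 (S L L)) (S L L))) (U (F 8 (S L L)) L))) (V L (F 128 (U L L))))) (F 288 (T (F 64 (V (V (S L L) L) (T (S L L) L))) (V L (F 4 (S L L)))))))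
noncomputable def w12_11 : Tr := (S (V (F 130 (U (V (T (S L (S L L)) (S L (S L L))) (T (U (S L L) L) (S L L))) (T (V (S L L) L) (S L L)))) (U (T (F 2 (V (S L L) (F 4 (S L (F 32 (S L L)))))) (F 32 (V (F 33 (S L L)) (S L L)))) (F 2 (T (V L (F 4 (S L L))) (F 1 (V L L)))))) (F 128 (V (F 32 (U (S (T (V (V L (S L L)) (U (S L L) L)) (V (T L L) (U (S L L) L))) (V (T (U (S L L) L) (U (S L L) L)) (T (U (V L (F 16 (S L L))) L) (U (F 16 (S L L)) L)))) (T (S (V L L) (V (S L L) L)) (S (T L L) (V (S L L) L))))) (U (F 34 (T (V (S (T L L) (U (T L L) L)) (S (T L L) (T (S L L) (S L L)))) (V (S (S L L) (T (S L L) L)) (S (S L L) (T L L))))) (T (F 32 (V (S L L) (F 16 (S L L)))) (F 2 (V (F 2 (S L L)) (S L L))))))))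
noncomputable def w12_12 : Tr := (U (F 8 (T (F 144 w12_11) (F 1 (S (F 32 (V (U (F 64 (T (F 2 (S (S L L) (V (S L L) L))) (S L (F 32 (T L L))))) (F 32 (T (F 2 (S L L)) (S L L)))) (F 32 (T (U (F 32 (V (S L L) (S L L))) (S L L)) (U (F 32 (V L L)) L))))) (F 32 (V (F 64 (T (F 2 (U (S (V (V L L) (S L L)) (F 2 (V (U (S L L) L) (T L L)))) (F 2 (S (S L L) (V L L))))) (F 32 (U (V (S (S L L) (F 1 (U (S L L) L))) (S L (S L L))) (S (S L L) (T L L)))))) (U (F 2 (T (F 4 (V (F 16 (S L (S L L))) (S L (F 16 (S L L))))) (V (S L (F 2 (S L L))) (S L (S L L))))) (F 2 (T (F 4 (S L (V L L))) (V (S L L) L)))))))))) (F 8 (T (F 128 (S (F 274 (V (U (T L L) L) (T (S L L) L))) (F 258 (V (U (F 8 (T (S L L) (S L L))) (S L L)) (F 10 (U (T (S L L) (S L L)) (S L L))))))) (F 1 (S (F 36 (V (F 32 (T L L)) (F 2 (T L L)))) (F 128 (V (U (F 4 (T L (S L L))) L) (F 36 (U (T (S L L) L) L)))))))))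
noncomputable def w12_13 : Tr := (T (F 264 (S (F 4 (V (U (T (V L L) (V L L)) (T L L)) (T (S L (T L L)) (S L (U L L))))) (F 4 (V (U (T (F 2 (V (F 1 (S L (T L L))) (S L (F 1 (S L L))))) (F 64 (V (F 16 (S L (T L L))) (S L (S L L))))) (T (F 64 (S L (F 16 (S L L)))) (F 64 (V (F 16 (S L L)) (S L L))))) (T (U (S (T L L) (V (S L L) (T L L))) (V (S L L) (S L L))) (S (U (T L L) L) (F 64 (U (V (U (S L L) L) (S L L)) (S L L))))))))) (S (F 64 (V (F 1 (U (F 136 (T (S L (T L L)) (S L (V (S L L) L)))) (F 136 (T L (S L L))))) (F 2 (T (F 8 (U (V L L) (S L L))) (F 128 (U (S L (F 4 (V L L))) (F 12 (S L L)))))))) (F 832 (V (F 8 (U (T (S (V (S L L) (S L L)) (V (F 2 (T L L)) (T L (S L L)))) (V (S (T L (S L L)) (U (S L L) L)) (S (U (S L L) L) (U (T L (S L L)) (S L L))))) (T (S (S L L) (V L L)) (S (T L L) (V (S L L) L))))) (U (F 8 (T (V (S (S L L) (U (T L L) L)) (F 8 (S L (T L L)))) (S (V (T L L) (F 8 (S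 L L))) (V (U (F 8 (T L L)) (F 8 (S L L))) (F 8 (T (S L L) (S L L))))))) (F 8 (T (S (S L L) (V L L)) (F 8 (S (S L L) (V L (S L L)))))))))))
noncomputable def w12_14 : Tr := (U (F 2415929350 (S (F 3955 w12_1) (F 136315584 (T (F 7291904 w12_6) (F 2490384 (U (F 49208 (U (K 4) (F 10240 (V (F 2064 (S (K 3) (F 5 (T (V (F 132 (U (K 0) (F 32 (T (T L L) (T L L))))) (K 6)) (F 128 (U (V (T L L) (K 0)) (F 64 (T (V (F 2 (T (T L L) L)) (K 5)) (S (T (K 5) L) (V (T (F 2 (T L L)) (V (F 2 (T L L)) L)) (T L L))))))))))) (K 7))))) (F 393277 (T (F 2060 (S (V (F 8 (U (F 2 (T (F 2 (V L (K 1))) (S (K 5) L))) (T (S L (F 64 (U L (F 32 (S L L))))) (V (F 65 (S L L)) L)))) (F 128 (U (K 1) (F 16 (T (V L (S L L)) (V L L)))))) (F 8 w12_7))) (F 6 w12_9))))))))) (F 17178820999 (S (F 64 (T (F 3120 w12_10) (S (U (T (F 2082 (V (F 68 (S L L)) (U (F 256 (S (F 640 (S L L)) L)) (F 5 (S L L))))) (V L (F 2080 (S (F 1024 (T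 L L)) L)))) (F 32 (T (F 2060 (V L L)) (F 2560 (S L L))))) (F 66 (T (F 392 (U (V (T L L) (F 64 (U (F 32 (S L L)) L))) (T L L))) (F 768 (U (V (F 65 (T L L)) (F 4 (U (S L L) L))) (F 5 (T L L))))))))) (F 1280 (T (F 18 w12_12) (F 19 (U w12_13 (F 256 (T (F 32 (S (F 32 (V (S L L) (S L L))) (V (F 128 (U (F 2 (T L (S L L))) (S L L))) (F 32 (U (T L L) L))))) (S (F 36 (V (F 64 (T L L)) (T L L))) (F 33 (V (U (F 32 (T (S L L) (S L L))) (S L L)) (F 32 (T (V (S L L) L) (F 4 (S L (S L L)))))))))))))))))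
noncomputable def w12_15 : Tr := (V (F 256 (V (K 4) (U (F 4 (S L (K 4))) (F 4 (S (S (F 64 (S L L)) L) (F 4 (S L (K 3)))))))) (S (U (F 64 (T (K 7) (V (F 2 (S L L)) (T (K 7) (V (F 2 (S L L)) (S L L)))))) (F 64 (V (F 2 (S (T (F 68 (V L L)) (V (U L (F 64 (S L L))) (U L (S L L)))) (F 4 (T (F 2 (V L L)) (U L (T (S L L) L)))))) (T (F 66 (U (K 1) (T (K 1) (V (F 32 (S L L)) (S (K 1) L))))) (V (F 2 (S (U L (V (S L L) L)) (F 4 (T L L)))) (S (S (S L L) L) (F 66 (S L L)))))))) (U (F 64 (V (F 2 (T L L)) (T (F 66 (V (S (K 1) L) (K 1))) (S (F 2 (V L L)) (F 2 (U L (F 4 (S L L)))))))) (F 324 (V (T (U L (S (S L L) L)) (S (U L (S L L)) (S L L))) (T (V (S (S L L) (S L (S L L))) (S (U L (S L L)) (T L (T L L)))) (S (T (V (S L L) (U L (S L L))) (V L (U L L))) (V (T (S L L) L) (T (T L L) L)))))))))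
noncomputable def w12_16 : Tr := (T (F 64 (U (F 64 (S (V (F 16 (S L L)) (F 2 (U (S L L) (F 32 (S (V (S L L) L) (T L (S L L))))))) (V L (F 2 (T L (S (S (S L L) L) L)))))) (F 192 (S (V (U (F 8 (T (S (V L L) L) (S L L))) (T (F 8 (S (V (S L L) (F 16 (S L L))) (V L (S L L)))) (S (F 9 (T L L)) L))) (F 1 (S (T (V (S L (S L L)) L) (V (T (S L L) (S L L)) (T (S L L) (S L L)))) (T (V (S (S L L) L) (S L L)) (V (T (S L L) (S L L)) (T (S L L) (S L L))))))) (V (F 8 (T (S (U L (S L L)) L) L)) (T (V (F 8 (S (F 16 (T L L)) (T (S L L) L))) (F 1 (S (U L (S L L)) (U L (T L L))))) (F 1 (S (V (T L L) (T (S L L) (S L L))) (U (S L L) (T (V L L) L)))))))))) (F 4 (S (T (F 4 (U (F 2 (V L (U (S L L) (S (V L (T (S L L) L)) (T L L))))) (F 2 (V (T L L) (S (V (T (F 32 (S L L)) (S L L)) (T (F 32 (S L L)) (S L L))) (V (T L L) (T (F 32 (S L L)) L))))))) (U (S (T L L) L) (V L (S (F 64 (V (T L L) (T L L))) (F 68 (T L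 L)))))) (F 4 (T (V L (U (S L L) (F 2 (S (U L (F 32 (S L L))) (S L L))))) (U L (S L L)))))))
noncomputable def w12_17 : Tr := (V (T (F 68 (U (S (V (U L (T (S L L) (S L L))) (U L (S L L))) (V (U (S L L) (T (S L L) L)) (U (S L L) (T (S L L) L)))) (S (V (T (F 1 (S L L)) (S L L)) (F 1 (T (S L L) (S L L)))) (V (T (F 1 (S L L)) (S L L)) (T (F 1 (S L L)) (S L L)))))) (S (V (F 64 (U (T (F 16 (S L L)) (S L L)) (T (F 16 (S L L)) L))) (T (F 68 (U (S L L) (S L L))) (U (S L L) (S L L)))) (F 4 (V (U (T L L) (S L L)) (U (T (S L L) L) (T (S L L) L)))))) (T (F 4 (S (F 2 (U (V (U L (F 32 (S L L))) (F 32 (U L (S L L)))) (F 32 (V (T (S L L) (S L L)) (T (U (S L L) (S L L)) (U L L)))))) (F 2 (U (V (U L (T L L)) (U (S L L) (F 32 (T L L)))) (F 32 (V (T (S L L) (S L L)) (T (S L L) (S L L)))))))) (S (T (F 68 (U (V (S L L) (U L L)) (F 1 (V L L)))) (U (V (S L L) (S L (F 4 (S L L)))) (V (S L L) L))) (F 4 (U (T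 (V (S L L) (U (S L L) L)) (V L (U L L))) (V (T (S L L) L) (T (F 1 (S L L)) L)))))))
noncomputable def w12_18 : Tr := (V (T (U (S (F 32 (V (U L (T L L)) (T (U L (S L L)) (S L L)))) (U (T (S L L) L) (V (S L L) (T L L)))) (S (F 32 (V (T (S L L) L) (T (F 1 (S L L)) (S L L)))) (V (F 32 (T (S L L) L)) (T (F 32 (S L L)) (S L L))))) (U (S (V (S L L) (T (S L L) L)) (T (S L L) L)) (S (V (S L L) (S L L)) (V (S L L) (S L L))))) (T (S (V (U (T (F 32 (S L L)) (S L L)) (T (F 96 (S L L)) (S L L))) (U (T (F 32 (S L L)) (S L L)) (F 64 (T (F 1 (S L L)) (S L L))))) (V (U (T (S L L) (S L L)) (T (F 64 (S L L)) (S L L))) (U (T (U L (S L L)) (S L L)) (T (F 64 (S L L)) (S L L))))) (S (V (U (T (S L L) L) (S (S L L) L)) (U (T (S L L) L) (S (S L L) L))) (V (U (T (S L L) L) (S L L)) (U (T (S L L) L) (S L L))))))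
noncomputable def w12_19 : Tr := (S (F 2 (T (F 4 (V (F 2 (U (T (K 1) (V (S L (S L L)) (S L (S L L)))) (F 32 (S (V (T L (U (S L L) (T L L))) (T L (U L (S L L)))) (V (T L (T (S L L) (S L L))) (T L (U (S L L) (T (S L L) (S L L))))))))) (F 1 (U (F 32 (T (K 3) (U (K 3) (T (K 3) (V (S L L) (S (K 3) L)))))) (F 32 (S (V (T L (V (S L L) (S L L))) (T L (U L (S L L)))) (V (T L (U (S L L) (T L (S L L)))) (T L (U L (V (S L L) L)))))))))) w12_17)) (F 66 (T (F 32 (V (U (T (F 1 (S (S (K 1) L) (S L L))) (V (U (S L L) (S (S L L) (T L (S L L)))) (S (S L L) (U L (V L L))))) (F 1 (V (T (S (S L L) (U L (T L L))) (S (T (S L L) (S L L)) (T (S L L) (S L L)))) (T (S (S L L) (V L L)) (S (T (S L L) (S L L)) (T (S L L) (S L L))))))) (U (T (K 4) (V (S (S L L) (U L L)) (S L (S L L)))) (F 1 (V (S (T L (T (S L L) (S L L))) (T (S L L) (T (S L L) (S L L)))) (S (T L (T (S L L) (S L L))) (T (S L L) (T (S L L) (S L L)))))))))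 w12_18)))
noncomputable def w12_20 : Tr := (S (V (T (F 96 (U L (V (S L L) (S L L)))) (U (S L L) (S (F 32 (V (T L L) (T L (S L L)))) (F 32 (T (F 1 (S L L)) L))))) (T (F 64 (V (F 1 (S L L)) (S L L))) (V (S (U (S L L) (F 32 (T L (S L L)))) (U (V (S L L) (S L L)) (T (F 64 (S L L)) (S L L)))) (S (U (S L L) (F 64 (V L L))) (U (V L L) (T (F 64 (S L L)) (S L L))))))) (V (T (F 96 (U L (V L (S (V L L) (T L L))))) (V (F 4 (S L L)) (U (S L L) (T (F 64 (S L L)) (S L L))))) (T (F 64 (V (F 1 (S (V L L) (U L (T L (S L L))))) (S (S L (F 1 (S L L))) (T L (S (F 1 (S L L)) (F 1 (S L L))))))) (S (V (T (U L (F 64 (S L L))) (U (S L L) (S L L))) (T (U (S L L) (F 64 (S L L))) (S (S L L) (S L L)))) (V (U (T (S L L) L) (T (F 64 (S L L)) (S L L))) (T (U (T L L) (F 64 (S L L))) (S (S L L) (S L L))))))))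
noncomputable def w12_21 : Tr := (V (S (T (F 1 (V (S (U (S L L) (T L L)) (T (U L L) (S L L))) (S (U L (T L L)) (T (U L L) (V L L))))) (V (S (F 1 (T (S L L) L)) (U L (F 1 (S L L)))) (S (T (F 1 (S L L)) (S L L)) (T (F 1 (S L L)) (S L L))))) (T (F 1 (V (F 4 (S (T (S L L) (S L L)) (T (S L L) L))) (S (T (V (S L L) (S L L)) (V L L)) (T (V L (S L L)) (S L L))))) (T (V (F 1 (S L L)) (S (S L L) (S L L))) (U (S L L) (S (S L L) L))))) (S (T (F 1 (V (S (U L (T L L)) (T (V L L) (V L L))) (S (V (S L L) (S L L)) (T (V L L) (S L L))))) (S (V (F 1 (T (S L L) (S L L))) (T (F 1 (S L L)) (S L L))) (V (T (F 1 (S L L)) (S L L)) (T (F 1 (S L L)) (S L L))))) (T (S (F 1 (V (T (U L (S L L)) (S L L)) (T (U L L) (S L L)))) (V (T (F 1 (U (S L L) (S L L))) (S L L)) (T (U (F 1 (S L L)) (F 1 (S L L))) (U (S L L) (S L L))))) (S (V (T (F 1 (S L L)) (S L L)) (T (S (S L L) L) (S L L))) (V (T (U (S L L) (S L L)) (S L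 L)) (T (U (S L L) L) (S L L)))))))
noncomputable def w12_22 : Tr := (S (T (V (U (S (T (U L (U L L)) (S L L)) (U L (S L L))) (S (V (U L (S L L)) (T (S L L) L)) (V (T L L) (T (S L L) L)))) (S (V (U (T (S (S L L) L) (S L L)) (T (S L L) (S L L))) (U (T (S (S L L) L) (S L L)) (T (F 64 (S L L)) (S L L)))) (V (U (T (S L L) (S L L)) (T (S L L) (S L L))) (U (T (S L L) (S L L)) (T (S L L) (S L L)))))) (V (U (S (S L L) L) (S (V L (S L L)) (T L L))) (S (V (U (T L L) (S L L)) (T (U (S L L) L) (S L L))) (V (U (T L L) (S L L)) (U (T (S L L) L) (S L L)))))) (T (V (U (T (S L L) L) (T (S (T L L) L) (S L L))) (U (S (V (T (S L L) (S L L)) (T (S L L) (S L L))) (T (V (S L L) (S L (S L L))) (U L (V L L)))) (S (V (T (S L L) (S L L)) (T (S L L) (S L L))) (V (T (S L L) (S L L)) (T (S L L) (S L L)))))) (U (V (S L L) (S (V (T L L) (T (S L L) L)) (T (U L (S L L)) (S L L)))) (V (S (S L L) L) (S (V (T L L) (T L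 L)) (V (T L L) (T (S L L) L)))))))
noncomputable def w12_23 : Tr := (U (T (F 264 (V (F 4 (S L (K 5))) (F 160 (U (S (S (K 5) L) L) (S (V (S L L) (T (K 5) (V (S L L) (S L (S L L))))) (V L (U (T (K 5) (S L L)) (T (S (K 5) (S L L)) (S (V L (S L L)) (V L (T (S L L) (S L L)))))))))))) (V (K 6) (F 18 (U (F 4 (S (F 4 (V L (U (S L L) (T (S L L) (S (S L L) (S L L)))))) (F 4 (T L (T L L))))) (F 68 (S (T (V (S L L) (V (U (S L L) (S (T L L) (S L L))) (S (T L (S L L)) (T (S L L) (S L L))))) (V (S L L) (S (V (T L L) (T (S L L) L)) (T (U L (S L L)) (S L L))))) (T (V L (S (T (U L (S L L)) (U L L)) (T (S L L) (S L L)))) (V (K 3) (S (T (S L L) L) (T L L)))))))))) (F 256 (T (F 64 (V (T (F 71 (U (S L L) (V (S L L) (S (U (S (S L L) L) (V (S L L) (F 16 (S (S L L) (S L L))))) (S (T L L) L))))) (F 2 (S (F 64 (V L (F 2 (U L (F 32 (S (T L L) L)))))) (F 68 (U (K 3) (F 1 (S L L))))))) (F 10 (U w12_20 (F 64 w12_21)))))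 (F 64 (V (V (K 5) (F 10 (S (T (U L (S L L)) (S L L)) (F 4 (U (K 3) (S L L)))))) (F 10 w12_22))))))
noncomputable def w12_24 : Tr := (S (V (T (U (F 4 (V (S (U (S L L) L) (S (S L L) L)) (S (F 1 (S L L)) (T L L)))) (V (F 4 (S (S L L) (S L L))) (S (F 32 (S L L)) (F 4 (S L L))))) (V (F 4 (U (S (F 1 (S L L)) (S L L)) (S L L))) (F 32 (U (S (T (S L L) L) (F 4 (S L L))) (S (S L L) (S L L)))))) (F 32 (T (S (V (U (T (S L L) (S L L)) (S L L)) (U (T (S L L) (S L L)) (S L L))) (U (V (T (S L L) (S L L)) (T (S L L) (S L L))) (V (S L L) (S L L)))) (S (U (V (T (S L L) (S L L)) (T (S L L) (S L L))) (V (S L L) (T L L))) (U (V (T L L) (T (S L L) L)) (V (S L L) (S L L))))))) (V (F 4 (U (T (V (S (S L L) L) (S (T L L) (S L L))) (U L (S (S L L) L))) (T (V (S L (S L L)) (S (S L L) (S L L))) (V (S L L) (S L L))))) (T (S (F 32 (U (V (T L (S L L)) (T (S L L) (S L L))) (V (S L L) (S L L)))) (V (F 4 (U (T L L)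 (S L L))) (F 32 (U (T (S L L) (S L L)) (S L L))))) (F 32 (U (S (V (T L L) (T (S L L) L)) (V (F 4 (S L L)) (T L L))) (S (V (S L L) (S L L)) (V L (S L L))))))))
noncomputable def w12_25 : Tr := (V (T (S (U (V (U L (S L L)) (V (S L L) L)) (V (T L L) (V L (S L L)))) (U (V (T (S L L) (S L L)) (T (S L L) (S L L))) (V (T L L) (T L L)))) (S (V (U (T (S L L) (S L L)) (T (S L L) L)) (U (T (S L L) (S L L)) (T (S L L) (S L L)))) (V (U (T (S L L) (S L L)) (T L L)) (U (T (S L L) (S L L)) (T (S L L) L))))) (U (S (V (T (S L L) (T (S L L) (S L L))) (T (S (S L L) L) (S (V L (T L L)) (T L L)))) (T (V (T L (S L L)) (T L (S L L))) (V (T (S L L) (S L L)) (T (S L L) (S L L))))) (T (V (S (T L L) (T L (S L L))) (S (T L L) (U (S L L) (S L L)))) (V (S (T (S L L) (S L L)) (T (S L L) (S L L))) (S (T (T L L) (T L L)) (U (T L (S L L)) (S L L)))))))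
noncomputable def w12_26 : Tr := (S (F 1 w12_25) (F 1 (V (T (S (V (U (T (S L L) (S L L)) (T L L)) (U (T (S L L) (S L L)) (T L L))) (V (U (T (S L L) (S L L)) (T L L)) (U (T (S L L) (S L L)) (T L L)))) (S (V (U (T (S L L) (S L L)) (S L L)) (U (T (S L L) (S L L)) (T L L))) (V (U (T (S L L) L) (S L L)) (U (T (S L L) (S L L)) (S L L))))) (T (S (V (U (T (S L L) (S L L)) (T L (S L L))) (U (T (S L L) (S L L)) (T L (S L L)))) (V (U (T (S L L) (S L L)) (T L (S L L))) (U (T (S L L) (S L L)) (T L L)))) (S (V (U (T (S L L) (S L L)) (T (S L L) L)) (U (T (S L L) (S L L)) (T L L))) (V (U (T (S L L) (S L L)) (T L L)) (U (T (S L L) (S L L)) (T L L))))))))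
noncomputable def w12_27 : Tr := (S (V (T (F 196 (S (V (U (T (S L L) L) (S L L)) (U (T (S L L) (S L L)) (T L L))) (V (U (T L L) (S L L)) (U (T (S L L) L) (S L L))))) (S (F 128 (U (V (F 1 (S L L)) (S L L)) (F 17 (V L L)))) (F 4 (V (T L (S L L)) (F 1 (U (S L L) L)))))) (F 128 (U (T (F 17 (S (V (T (S L L) (S L L)) (S (U (S L L) (S L L)) (S L L))) (V (T (S L L) L) (T (S L L) L)))) (S (V (S L L) (F 16 (S (T L L) L))) (F 16 (V (S L L) (S L L))))) (F 16 (T (F 32 (V (S (T (S L L) L) (S L L)) (S (T L L) (V L (T L L))))) (V (S (S L L) L) (S (T L L) (U L L)))))))) (F 4 (V (T (F 1 (S (F 32 (V (U (S L L) (S L L)) (U (S L L) (S L L)))) (V (F 32 (U (S L L) L)) (T (F 32 (V L L)) (S L L))))) (S (U (V (S L L) (S L L)) (F 1 (V L L))) (U (V L (S L L)) (F 1 (S L L))))) (T (F 1 (S (V (U (T (F 32 (S L L)) L) (S L L)) (T (F 32 (U (S L L) L)) (U L L))) (V (U (T (S L L) L) (S L L)) (U (T (S L L) L) (S L L)))))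 (S (F 1 (V (U (S L L) L) (U (S L L) L))) (V (T (F 1 (S L L)) L) (F 1 (U (S L L) L))))))))
noncomputable def w12_28 : Tr := (S (V (T (U (F 1 (S (V (T (S L L) (S L L)) (T (S L L) (S L L))) (V (T (S L L) (S L L)) (T (S L L) (S L L))))) (F 1 (S (V (T L L) (T L L)) (V (T L L) (T L L))))) (S (F 1 (U (V (T (S L L) L) (T (S L L) L)) (V (S L L) (S L L)))) (F 1 (U (V (T L L) (T L L)) (V (S L L) (S L L)))))) (T (F 1 (S (V (U (T (S L L) (S L L)) (T L L)) (U (T (S L L) (S L L)) (T (S L L) (S L L)))) (V (U (T (S L L) (S L L)) (T L L)) (U (T (S L L) (S L L)) (T L L))))) (S (V (F 1 (U (T (S L L) L) (T L L))) (U (T (F 1 (S L L)) (S L L)) (T L L))) (V (U (T (F 1 (S L L)) (S L L)) (T L L)) (U (T (F 1 (S L L)) (S L L)) (T L L)))))) (V (T (U (S (F 1 (V (T L (S L L)) (T (S L L) (S L L)))) (F 1 (V (F 4 (T L L)) (T (S L L) (S L L))))) (F 1 (V (S (T L L) (F 4 (S L L))) (S (T L L) (T L L))))) (U (S (V (F 1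 (T L L)) (T L L)) (V (F 8 (T L L)) (T L L))) (S (V (F 1 (S L L)) (T L L)) (T (F 1 (S L L)) (S L L))))) (T (V (F 1 (U (S (T (S L L) (S L L)) (T (S L L) (S L L))) (S (T L L) (T L L)))) (S (F 1 (U (T (S L L) (S L L)) (T L L))) (U (T (F 1 (S L L)) (S L L)) (T L (S L L))))) (S (V (U (T L (S L L)) (T L L)) (U (T (S L L) (S L L)) (T L L))) (U (V (T (S L L) (S L L)) (T (S L L) (S L L))) (V (T L L) (T L L)))))))
noncomputable def w12_29 : Tr := (S (V (T (F 64 (S (U (V (S L L) (S L L)) (V L (S L L))) (U (V (S L L) (S L L)) (V L L)))) (U (S (T L L) (T L L)) (F 64 (S (S L L) (S L L))))) (T (F 64 (S (V (U (T L L) (S L L)) (U (T (S L L) L) (S L L))) (V (U (S L L) (S L L)) (U (T L L) (S L L))))) (S (V (T (F 64 (S L L)) L) (F 64 (U (S L L) L))) (U (V (S L L) (S L L)) (F 64 (T L L)))))) (T (F 64 (V (U (S (V (S L L) (S L L)) (V (S L L) (S L L))) (S (V L L) (V L L))) (S (V (U (S L L) (S L L)) (U (T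 L L) (S L L))) (U (V (T L L) (T L L)) (V (S L L) (S L L)))))) (V (U (S (T L L) (F 64 (S L L))) (F 64 (S (S L L) (S L L)))) (S (U (V (S L L) (S L L)) (F 64 (T L L))) (F 64 (V (T (S L L) L) (T (S L L) L)))))))
noncomputable def w12_30 : Tr := (T (F 1 (V (V (F 4 (U (F 2 (S (F 32 (T (S (U L (S L L)) L) L)) (T (S L L) L))) (T (F 3 (S (V (S L L) (S L L)) (T (V L L) L))) (F 1 (S (F 32 (S (S L L) L)) L))))) (S (F 128 (T (F 1 (V (F 4 (U (S (T L L) (T L L)) (S (S L L) L))) (S (F 32 (U (T L L) (S L L))) (F 4 (U (T L L) (S L L)))))) (U (F 3 (S (V L (T L L)) (F 4 (U L (S L L))))) (F 1 (V (F 4 (S L L)) (F 32 (S L L))))))) (F 4 (T (F 3 (U (V (S (S L L) L) (S (T L L) (T L L))) (V (S L L) (T (S L L) (S L L))))) (F 1 (U (S (F 32 (T L L)) L) (F 32 (V (S L L) (F 1 (S L L)))))))))) (F 160 w12_28))) (V (S (F 2 (T (F 128 (V (F 16 (S L L)) (F 2 (U (S (F 32 (S L L)) L) (V L (S L L)))))) (F 32 (U (S L L) (F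 1 (S L L)))))) (F 1 (T (F 4 (V (S L L) (F 5 (U L (S L L))))) (S L (F 4 (S L L)))))) (F 10 w12_29)))
noncomputable def w12_31 : Tr := (S (F 1 (V (U (T (V (S (S L L) (S L L)) (S (S L L) (S L L))) (S (V (S L L) (S L L)) (V (S L L) (S L L)))) (T (S (V L (S L L)) (T L L)) (S (V L (S L L)) (T L L)))) (T (S (U (V (U (S L L) L) (S L L)) (V L L)) (U (V (U L L) (S L L)) (V L L))) (S (U (V (U (S L L) L) (S L L)) (V L L)) (U (V (U (S L L) (S L L)) (S L L)) (V L L)))))) (F 1 (V (T (S (U (V (S L L) (S L L)) (S L L)) (U (V (S L L) (S L L)) (S L L))) (S (U (V (S L L) (S L L)) (T L L)) (U (V L (S L L)) (S L L)))) (U (T (V (S (S L L) (S L L)) (S (U (S L L) L) (U L L))) (V (S (S L L) (S L L)) (S (U (S L L) L) (U L L)))) (T (S (V (S L L) L) (T L L)) (S (T (S L L) L) (T L L)))))))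
noncomputable def w12_32 : Tr := (V (T (F 64 (V (S (T (U (V (F 8 (S L L)) (S L L)) (V L (S L L))) (V (F 8 (U (S L L) L)) (F 1 (U (S L L) L)))) (T (F 8 (U (V (S L L) (S L L)) (S L L))) (U (F 8 (S (S L L) L)) (S L L)))) (S (F 1 (T (S (U (V L L) (S L L)) (U (V L L) (S L L))) (U (S (V L (S L L)) (V L L)) (S (S L L) (S L L))))) (T (V (U (S (S L L) L) (S L L)) (F 1 (U (S L L) (S L L)))) (F 1 (U (S (T L L) (T L L)) (S L L))))))) (S (F 32 (V (F 1 (T (U (S (S L L) L) (S L L)) (S L L))) (T (F 1 (S (U (T L L) L) (V (S L L) (S L L)))) (F 1 (S (T L L) (S L L)))))) (V (T (F 64 (S (F 1 (S L L)) L)) (F 32 (S L L))) (F 32 (T (F 1 (U (S (S L L) L) (S L L))) (S (S L L) (S L L))))))) (F 32 (T w12_31 (S (T (F 1 (V (U (S (V L (S L L)) (V L L)) (S (V L (S L L)) (S L L))) (S (U (V (T (S L L) L) (S L L)) (V L L)) (U (V (U L L) (S L L)) (S L L))))) (V (S (F 1 (V L (U L L))) (V L (S L L))) (S (U (T (F 1 (S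 L L)) L) (S L L)) (U (V (S L L) L) (S L L))))) (V (T (S (F 1 (U (T L L) (S L L))) (V L (S L L))) (S (V L L) (T L L))) (U (T (V (S L L) (S (T L L) (U L L))) (V (S L L) (S (S L L) L))) (T (S (S L L) (T L L)) (S L L))))))))
noncomputable def w12_33 : Tr := (T (F 128 (S (F 2 (V (T (F 32 (U (S (V L (S L L)) (V L (S L L))) (S (S L L) (S L L)))) (F 32 (U (S (V L L) (T L L)) (S (S L L) L)))) (U (T (F 32 (S (V (S L L) (S L L)) (V (S L L) (S L L)))) (S (V (F 32 (S L L)) (S L L)) (V (S L L) (S L L)))) (T (F 32 (S (V L (S L L)) (T L L))) (S (F 32 (V L (S L L))) (T L L)))))) (V (T (F 1 (U (F 32 (V (S L L) (S (S L L) (S L L)))) (S (F 32 (S L L)) (T L L)))) (F 2 (U (S (T L L) (T L L)) (T (F 32 (S L L)) (S L L))))) (F 2 (T (S (F 32 (U (V (S L L) (S L L)) (T L L))) (F 32 (U (V (S L L) (S L L)) (S L L)))) (S (U (V (S L L) (S L L)) (T L L)) (U (V (S L L) (S L L)) (T L L)))))))) (F 160 (S (V (T (U (S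 (T L L) (S L L)) (S L L)) (S (S L L) (S L L))) (U (T (S (V L L) (V L L)) (S (S L L) (S L L))) (T (S (V L L) (S L L)) (S (S L L) L)))) (V (T (U (S (S L L) (S L L)) (S L L)) (U (S L L) (S L L))) (T (S (U (T L L) (S L L)) (U (T L L) (S L L))) (S (V L L) (T (S L L) L)))))))
noncomputable def w12_34 : Tr := (U (S (F 128 (V (T (F 135 w12_24) (F 2 (S (F 64 (V (F 2 (T (F 68 (U (S (V L (S L L)) L) (V (F 4 (S L L)) (S L L)))) (U (S L L) (F 68 (S L L))))) (T (F 35 (S (U (V (S L L) (S L L)) (V L (S L L))) (U (V (S L L) (S L L)) (V L L)))) (S (F 2 (U (T (F 68 (S L L)) (F 64 (S L L))) (F 68 (S L L)))) (F 34 (U (T L L) (F 32 (S L L)))))))) (F 4 (T (F 3 (V (F 4 (U L (S L L))) (F 32 (U (S (V (S L L) (S L L)) (V L (S L L))) (S (V L L) (S L L)))))) (F 4 (V (S L L) (U (S (T L L) (S L L)) (F 64 (S (S L L) L)))))))))) (F 10 (T (F 132 w12_26) w12_27)))) (F 132 w12_30)) (F 1028 (S (F 5 w12_32) (F 4 (V (T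 (S (F 192 (V (F 8 (T (U (V L (S L L)) (S L L)) (U (S L L) L))) (T (V (F 8 (U (S L L) L)) (S (F 1 (T L L)) (V L (F 1 (S L L))))) (U (V (F 8 (S L L)) (F 1 (S L L))) (S L L))))) (F 64 (V (F 16 (T (F 32 (U (S (S L L) L) (S L L))) (F 32 (U (S L L) L)))) (F 1 (T (F 4 (U (V (S L L) (S L L)) (V L L))) (V (F 4 (S L L)) (F 32 (S L L)))))))) (V (F 4 (T (S (F 3 (S L L)) (S L L)) (S L L))) (F 32 (S (F 1 (T (U (S L L) (S L L)) (S L L))) (T (U (F 1 (S L L)) L) (F 1 (S L L))))))) w12_33)))))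
noncomputable def w12_35 : Tr := (S (T (U (V (F 256 (U L (F 4 (S L L)))) (S (V (V L L) (S L L)) (V (F 256 (T L (S L L))) (T (S L L) (S L L))))) (F 64 (V (F 2 (S (V (S L L) (S L L)) (T L L))) (V (F 2 (S (V (U L L) (S L L)) (T L L))) (S (T (S L L) L) (T L L)))))) (V (F 256 (U (S (S L L) L) (S (T L L) (S L L)))) (U (S (V (S L L) (S L L)) (V (S L L) (S L L))) (S (V (U L (F 256 (S L L))) (S L L)) (V (F 256 (T L L)) (S L L)))))) (T (U (V (F 256 (S L (K 4))) (S (V (F 256 (T L L)) (T (S L L) L)) (F 256 (T (U L L) (S L L))))) (F 256 (V (S L L) (S (T (F 4 (S (S L L) L)) (S (S L L) L)) (T (F 68 (S L L)) (V L L)))))) (V (F 256 (U L (S L L))) (U (S (V L (S L L)) (T L L)) (S (T (F 256 (S L L)) (S L L)) (F 256 (T (S L L) L)))))))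
noncomputable def w12_36 : Tr := (V (F 256 (S (T (F 4 (V L (U (S L L) (S (T L L) L)))) (U L (S L L))) (T (F 4 (S L L)) (S L L)))) (S (V (F 256 (T (F 4 (S (V (U (S L L) (S L L)) (U (S L L) (S L L))) (V (U (S L L) L) (U (S L L) (S L L))))) (S (V (T L L) (T L L)) (U (T L L) (S L L))))) (T (F 64 (S (F 2 (U (T (V L (S L L)) (S L L)) (V (S L L) (T L L)))) (F 2 (U (T (V L (S L L)) (S L L)) (V (S L L) (S L L)))))) (S (U (V (F 256 (S L L)) (U L L)) (F 256 (V L L))) (F 256 (T (U (S L L) L) (S L L)))))) (F 256 (T (V (U (S (F 4 (T (S L L) L)) (S L L)) (S (F 4 (V L L)) (F 4 (T L L)))) (S (V (U (S L L) (F 4 (S L L))) (T (F 4 (S L L)) (S L L))) (T (F 68 (V (S L L) (S L L))) (V (S L L) (S L L))))) (V (U (S (S L L) L) (S (S L L) (S L L))) (S (V (T L L) (S L L)) (V (T L L) (T L L))))))))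
noncomputable def w12_37 : Tr := (S (U (V (K 6) (T (F 1 (V (F 256 (U (S L L) (S (S L L) L))) (U (S (V (S L L) (S L L)) (V (S L L) (S L L))) (S (V (S L L) L) (V L L))))) (U (V (F 5 (S L L)) (S (V (F 1 (S L L)) (S L L)) (F 1 (V (S L L) L)))) (F 1 (V (F 256 (S L L)) (S (V (S L L) L) (T L L))))))) (F 1 (V (F 256 (T (S L L) (S L L))) (T (V (F 256 (S (V (S L L) (S L L)) (U (S L L) (S L L)))) (S (U (S L L) (F 256 (S L L))) (T (F 256 (S L L)) (S L L)))) (V (F 256 (S (V (S L L) (S L L)) (U (S L L) L))) (S (U (S L L) L) (U (S L L) L))))))) (F 1 (U (V (K 4) (T (V (F 256 (U L (S L L))) (U (S (T L L) (S L L)) (S (T (S L L) (S L L)) (F 256 (T L L))))) (U (V L (S (T L L) (S L L))) (V (F 256 (S L L)) (S (T (S L L) (S L L)) (F 256 (T L L))))))) (F 256 (V (T L L) (T (V (S (U L (S L L)) (T L L)) (S (V (S L L) (S L L)) (V (S L L) (S L L)))) (V (S (T L L) (T L L)) (S (V (S L L) (S L L)) (V (S L L) (S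 L L))))))))))
noncomputable def w12_38 : Tr := (U (V (K 5) (F 2 (S (T (U (V (K 4) (S (U L L) (T L L))) (F 4 (V L (S (T (F 4 (S L L)) (S L L)) (T L L))))) (U (S (S L L) (S L L)) (V L (S (T L L) (T L L))))) (V (K 4) (T (U (F 4 (T L (S L L))) (F 4 (S (T L L) (S L L)))) (U (S L (K 4)) (F 4 (S (S L L) L)))))))) (V (S (F 2 (T L L)) (K 5)) (F 2 (S (T (F 4 (V (U (S L L) (T (F 4 (S L L)) L)) (S (V (T (F 4 (S L L)) (S L L)) (T (F 4 (S L L)) (S L L))) (T (F 4 (V (S L L) (S L L))) (V (S L L) (S L L)))))) (V (U (S L L) (S L L)) (S (V (T L L) (T (S L L) L)) (U (T (F 4 (S L L)) (S L L)) (T L (S L L)))))) (F 4 (T (U (V L (S (T (F 4 (S L L)) (S L L)) (T L L))) (V (S L L) (S (T (F 4 (S L L)) (S L L)) (T (F 4 (S L L)) (S L L))))) (V (S (S L L) L) (U (S (T L L) (T L L)) (S (V L (S L L)) (V (S L L) (S L L)))))))))))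
noncomputable def w12_39 : Tr := (T (V (S (T (F 4 (V (U L L) (S (U (V L L) L) (V L (S L L))))) (V L (S (T L L) (S L L)))) (T (F 4 (V L (U (S L L) (F 128 (S L L))))) (S (S L L) L))) (S (V (T (F 4 (S (U (V L L) (F 128 (S L L))) (U (V L L) (F 128 (S L L))))) (S (V L (S L L)) (V L L))) (U (T (F 4 (S (F 128 (V L (U L L))) (V L L))) (S (V L L) (S L L))) (F 1 (T (F 64 (V (S L L) (S L (S L L)))) (S L (S L L)))))) (V (T (S (F 4 (U (T L L) L)) (F 4 (U (S L L) L))) (S (V L L) (T L L))) (T (S (U (T (F 68 (S L L)) (S L L)) (F 5 (S L L))) (U (T L L) (F 65 (S L L)))) (S (V (S L L) L) (V (S L L) (S L L))))))) (V (S (T (V L (S (S L L) L)) (S (T L L) L)) (T (S L L) (S L L))) (S (V (T (S (S L L) (S L L)) (S (S L L) (S L L))) (U (T (S (S L L) L) (S (S L L) L)) (F 1 (T (S L L) (S L L))))) (T (V (S (S L L) (S L L)) (S (S L L) (T L L))) (V (S (S L L) (S L L)) (S (S L L) (T L L)))))))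
noncomputable def w12_40 : Tr := (U (V (S (F 256 (T (F 68 (S L L)) (S L L))) (F 4 (T (F 8 (S L L)) (S L L)))) (F 256 (S (T (F 64 (V (S (F 32 (V L (S L L))) (F 32 (V L (S L L)))) (S (U (T L L) (F 128 (S L L))) (U (T L L) (F 128 (S L L)))))) (V (S (T L L) (F 64 (T L L))) (S (U (S L L) L) (U (S L L) L)))) (F 64 (T (V (U (S (F 32 (S L L)) L) (F 128 (S L L))) (S (U (T (F 32 (S L L)) (S L L)) (F 128 (S L L))) (U (T (F 32 (S L L)) (S L L)) (F 128 (T L L))))) (V (U (S L L) (F 128 (S L L))) (S (U (T L L) L) (U (V L (S L L)) (F 128 (S L L)))))))))) (F 512 (V (T (F 64 (S (F 160 (V L (S L L))) (F 32 (V L (F 1 (S L L)))))) (F 64 (S (F 128 (S L L)) (V L (F 128 (S L L)))))) (F 1 (S (V (T (F 4 (S L L)) (S L L)) (S (T (F 4 (U L L)) (U L L)) (F 4 (T (S L L) L)))) (F 4 (T (V (F 2 (S L L)) (S (T L L) (T L L))) (V (S L L) (S (S L L) (S L L))))))))))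
noncomputable def w12_41 : Tr := (S (F 1288 (U w12_39 (F 1 (T (V (S (T (F 64 (V (S L L) (S (S L L) L))) (V L (S L L))) (T (F 64 (V L (S L L))) (V L (S L L)))) (S (T (F 64 (V (S (U L L) (S L L)) (S (U (S L L) L) (S L L)))) (V (S (U L L) L) (S (S L L) L))) (V (T (F 64 (S (S L L) L)) (S L L)) (U (T (S (F 64 (S L L)) (F 4 (S L L))) (S L L)) (T (F 64 (S L L)) L))))) (V (S (T (V L L) (S L L)) (T (S L L) (S L L))) (S (T (S (V (S L L) L) (V L L)) (S (T L L) (T L L))) (V (T (S L L) (S L L)) (T (U (S L L) L) (U (S L L) L))))))))) (F 8 (T (F 8 w12_40) (U (F 8 (V (S (F 256 (T (S L L) (S L L))) (F 5 (T L L))) (F 256 (S (T (V (S (S L L) (T L L)) (S (V L L) (U (S L L) L))) (V (S (T L L) (T L L)) (S (V L L) (U (T L L) L)))) (T (V (F 64 (U (S L L) (F 128 (S L L)))) (S (U (S L L) L) (F 320 (U (T L L) L)))) (F 256 (V (F 2 (U (S L L) (F 1 (S L L)))) (S (U (T L L) (F 128 (S L L))) (F 2 (U (V L L) (F 1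 (S L L)))))))))))) (F 1 (V (S (F 640 (V (F 16 (S L L)) (T L L))) (F 5 (V (F 64 (T L L)) (F 5 (T L (S L L)))))) (F 640 (S (V (T (S L L) (S L L)) (S (T (T L L) (V L L)) (T L (S L L)))) (T (F 32 (V (S L L) (S L (F 1 (S L L))))) (F 128 (V (F 2 (S L L)) (S (S L L) (F 2 (S L L))))))))))))))
noncomputable def w12_42 : Tr := (T (F 149536 (U (F 9216 (S (F 512 (U (T (F 266 (V (F 64 (S (S L L) L)) (F 32 (V (S (K 5) (F 2 (U (K 1) (S L L)))) (K 5))))) (F 16 w12_15)) (F 8 (V (F 256 w12_16) (F 64 w12_19))))) (F 1024 w12_23))) (F 9218 w12_34))) (F 16905 (U (F 1056 (S (F 256 (T (F 1 (U (V (F 256 (S (U (K 4) (T L L)) (K 4))) w12_35) w12_36)) w12_37)) (F 2560 (T w12_38 (V (S (F 2 (U (K 4) (T L L))) (K 5)) (F 2 (U (S (T (U (S (S L L) L) (V L (S (S L L) (S L L)))) (U (S (S L L) L) (V L (S (S L L) (S L L))))) (V (K 4) (T (U (S L (K 4)) (S (S L L) L)) (U (S L L) (F 1 (S (S L L) (S L L))))))) (S (T (V (U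 L (S L L)) (S (V (T L L) (T L L)) (U (T L L) (T L L)))) (V (U (S L L) (S L L)) (S (V (T L L) (T L L)) (U (T (S L L) (S L L)) (V L L))))) (T (V (F 4 (S L L)) (S (U (T L L) (V L (S L L))) (F 5 (U (S L L) (V L (S L L)))))) (F 1 (U (V L (S (T L L) (F 64 (S L L)))) (V (S L L) (S (V L (S L L)) (F 64 (V (S L L) (S L L)))))))))))))))) (F 5 w12_41))))
noncomputable def w12_43 : Tr := (U (V (F 4 (S (F 7 (S (T L L) L)) (T L L))) (F 160 (S (U (V (S L (F 8 (S L L))) (S (T L (S L L)) (T (S L L) (V (S L L) L)))) (V (T (F 1 (S (S L L) (F 4 (S L L)))) (S (F 1 (S L L)) (S L L))) (S (T (F 1 (S L L)) (S L L)) (T (S L L) (S L (S L L)))))) (S (U (V L (T (V L (S L L)) (S L L))) (T (V L (V (F 8 (S L L)) (S L L))) (F 32 (V L (S L L))))) (F 40 (T (U L (U L (S L L))) (U L L))))))) (S (F 128 (V (F 17 (T (U (F 16 (S L L)) (V (S L L) (F 16 (S L L)))) (F 16 (S (U L L) L)))) (F 2 (S (V (T (F 32 (V (S L L) (S L L)))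 (S (F 32 (S L L)) (F 32 (S L L)))) (T (U (F 32 (S L L)) (S L L)) (U (S L L) (S L L)))) (V (T (F 32 (V (F 4 (S L L)) (S L L))) (V L (U L L))) (T (S (U L L) (F 32 (T L L))) (U (S L L) (S L L)))))))) (V (F 4 (T (F 3 (S (U L (S L L)) L)) (F 68 (S L L)))) (F 160 (V (F 8 (S (T (F 16 (S (S L L) L)) (F 1 (V L L))) (F 1 (T (F 1 (V L L)) (U L L))))) (T (S (T (F 1 (S (S L L) L)) (F 32 (S L L))) (F 32 (S (V L L) (F 2 (T L L))))) (F 32 (S (U (S L L) (S L L)) (U (V L L) (S L L))))))))))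
noncomputable def w12_44 : Tr := (U (T (S (V (S (K 1) (K 1)) (F 8 (U (S L L) (S (F 1 (T (S L L) L)) (T (S L L) L))))) (V (K 1) (F 8 (U L (T (S L L) L))))) (F 8 (S (V (K 3) (U L (S (F 1 (S L L)) (S L L)))) (V (K 3) (T L (S L L)))))) (T (V (S (T (F 16 (V L (F 2 (S L L)))) (V L L)) (T (S L L) (S L L))) (F 8 (S (U (S (F 1 (T (V L (S L L)) (S L L))) (T (V L (F 1 (S L L))) (S L L))) (T (S (F 1 (V (S L L) (S L L))) (V (S L L) (F 1 (S L L)))) (V (S L L) (F 1 (S L (S L L)))))) (T (S (V (U L L) (U (T L L) (S L L))) (V (S L L) (U (S L L) (S L L)))) (S (V L (U L (S L L))) (U L (T (S L L) L))))))) (F 8 (S (T (V L (S (F 1 (U L (T L L))) (U L (V L L)))) (V L (S (F 1 (U L (S L L))) (U L (S L L))))) (V (T L L) (S (T (U L (V L L)) (T L L)) (T (U L (S L L)) (U L L))))))))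
noncomputable def w12_45 : Tr := (S (V (F 64 (U (K 2) (F 128 (V (K 4) (T (F 2 (S L (S L (K 2)))) (S L (K 4))))))) (T (F 1 w12_43) (F 8 (S (F 64 (U (V (F 16 (S L L)) (T (U (S (V L (T L (S L L))) (U L L)) (F 1 (S (V (S L L) (S L L)) (V L (S L L))))) (S (U (S L L) (V L (S L L))) (U L (F 1 (S L L)))))) (F 1 (V (U (F 4 (S L L)) (S (T (S L L) L) L)) (S (V (T (U (S L L) L) (S L L)) (T (U (S L L) L) (S L L))) (V (T (V (F 4 (S L L)) (S L L)) (V L L)) (T (U (S L L) (S L L)) (S L (S L L))))))))) (F 1 (U (V L (F 2 (T (F 32 (U (S L L) (S (S L L) L))) (U (S L L) (F 32 (S L L)))))) (F 1 (V (F 2 (T L L)) (F 32 (T (V (F 8 (U L (S L L))) (S (S L (S L L)) (V L (S L L)))) (S (V (S L L) (S L L)) (V L (U (S L L) L))))))))))))) (F 321 (V (S (S (K 1) (K 1)) (K 1)) w12_44)))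
noncomputable def w12_46 : Tr := (U (F 4 (V (K 6) (F 16 (V (K 3) (F 128 (U (F 4 (S (T L (K 3)) (K 3))) (S (F 4 (T (U L (T (S L L) L)) (S (S L L) L))) (F 132 (T L L))))))))) (F 132 (V (F 64 (S (K 2) (K 2))) (F 8 (S (F 64 (T (U (V (S L (K 3)) (T (S (U L (S (S L L) L)) (U L (S L L))) (S (U L (S L L)) (S L L)))) (V (T (F 1 (S L L)) L) (S (T (F 1 (V (S L L) (S L L))) (V (S L L) (S L L))) (T (F 1 (V (S L L) (S L L))) (V (S L L) (S L L)))))) (U (V L (S (T (S L L) L) (F 64 (T L L)))) (V (S L L) (S (V (T (S L L) L) (T (S L L) (S L L))) (F 64 (T (U L (F 32 (S L L))) (V L L)))))))) (F 1 (T (V (F 32 (U (K 1) (F 32 (S L L)))) (F 2 (U (T (S (S L L) L) (S L L)) (F 32 (T (S (V L (S L L)) (U L (S L L))) (S (T (S L L) L) (T L L))))))) (V (F 32 (S L L)) (F 2 (U (T (S L L) (S L L)) (T (S (U L L) (F 32 (S L L))) (S (S L L) L))))))))))))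
noncomputable def w12_47 : Tr := (S (T (V (F 2 (U (S L L) (S (V (S L L) (S L L)) (F 1 (V (S L L) (S L L)))))) (S (F 2 (U (T (U L (F 32 (S L L))) (F 32 (S L L))) (F 32 (V (S L L) (T (S L L) (S L L)))))) (F 66 (U (T (S L L) L) (V (S L L) (T (S L L) L)))))) (V (S (F 2 (S L L)) (F 66 (S L L))) (S (U (S L L) (V (F 2 (S L L)) (F 1 (T (S L L) L)))) (F 64 (U (S L L) (T (F 16 (S L L)) (S L L))))))) (F 64 (T (V (F 16 (U (S (S L L) (T (V L L) L)) (S (V (U L (S L L)) (S L L)) (V (T (S L L) (S L L)) (T (S L L) L))))) (S (F 16 (U (T (S L L) L) (T (V (S L L) (S L L)) (V L (S L L))))) (F 16 (U (T (V L (S L L)) (S L L)) (T (V (S L L) (S L L)) (V (S L L) (S L L))))))) (V (S (F 16 (V L (S L L))) (F 16 (T (V L L) (S L L)))) (S (U (S L L) (T (S L L) (S L L))) (U (T (S L L) L) (T (S L (F 16 (S L L))) (S L (S L L)))))))))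
noncomputable def w12_48 : Tr := (S (T (F 2 (S (V (U (T (S L L) L) (S L L)) (F 32 (U (V (S L L) (S L L)) (V L L)))) (F 1 (V (T (U (S L L) L) (S L L)) (U (V (S L L) (S L L)) (V (S L L) L)))))) (V (U (S (F 2 (S L L)) (F 66 (T L L))) (S L (F 64 (S L L)))) (S (T (F 3 (S L L)) (T L (F 1 (S L L)))) (F 64 (U (T (S L L) (S L L)) (S L L)))))) (F 64 (T (S (V (F 16 (T (U (S L L) L) (S L (S L L)))) (U (F 16 (T (V L L) (S L L))) (T (F 16 (S L L)) (S L L)))) (F 16 (V (T (U (S (S L L) (S L L)) (S L L)) (U (S L L) (S L L))) (U (T (V L (S L L)) (S L L)) (T (V L L) (S L L)))))) (V (S (F 16 (U (V (S L L) L) (S L L))) (F 16 (U (T (V L L) (S L L)) (T L L)))) (S (U (T (S L L) (S L L)) (V L L)) (U (T (V L L) (S L L)) (T (S L L) (S L L))))))))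
noncomputable def w12_49 : Tr := (V (T (U (V (F 68 (T (S L (S L L)) (F 1 (S L L)))) (F 32 (T (F 9 (S (S L L) (S L L))) (S (S L L) L)))) (F 64 (V (F 8 (T (S L L) (F 16 (S L L)))) (F 1 (S (T L L) (F 4 (T L L))))))) (F 32 (U (V (F 8 (T (S L L) L)) (S (T (S L L) L) (F 8 (T (S L L) L)))) (V (F 8 (S (S L L) (S L L))) (S (T L L) (T L L)))))) (F 32 (T (U (S (V (F 1 (T (S L L) (S L L))) (T (F 1 (S L L)) (U (S L L) L))) (V (T (U (F 1 (S L L)) L) (U (S L L) L)) (T (S L (T L L)) (U (S L L) L)))) (S (V (F 1 (T L L)) (T L (S L L))) (V (T (F 1 (S L L)) (S L L)) (T (S L L) (S L L))))) (S (U (V (T (S L L) (S L L)) (T (S L L) (S L L))) (V (T L L) (T L L))) (U (V (T (S L L) (S L L)) (T (S L L) (S L L))) (V (T L L) (T (S L L) L)))))))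
noncomputable def w12_50 : Tr := (U (S (F 1 w12_49) (T (V (F 32 (U (V (F 32 (T (S L (F 32 (S L L))) (F 32 (S L L)))) (F 80 (T (F 1 (S L L)) (F 16 (S L L))))) (F 1 (V (F 2 (T (S L L) (S L L))) (F 5 (T (S L L) (S L L))))))) (F 5 (U (S (T (F 1 (V (F 8 (S L L)) (U (S L L) L))) (F 1 (V (U L L) (S L L)))) (F 1 (V (F 8 (T (S L L) (S L L))) (T (V L (S L L)) (U (S L L) L))))) (F 1 (S (V (T L L) (T (S L L) (S L L))) (V (F 8 (T L L)) (T (S L L) (S L L)))))))) (F 132 (V (F 2 (U (S (F 1 (U L (T L L))) (T (V L L) L)) (S (F 1 (V L (S L L))) (T (V L L) (S L L))))) (F 32 (U (V (S (T (S L L) (S L L)) (F 8 (T L L))) (S (T (S L L) (S L L)) (T (S L L) (S L L)))) (S (T (V L L) (V L L)) (V (F 8 (S L L)) (T L L))))))))) (S (V (T (F 2 (U (F 64 (V (F 8 (S L L)) (F 1 (S (S L L) (S L L))))) (F 64 (V (F 8 (S L L)) (F 1 (S L L)))))) (F 4 (U (F 64 (V (F 8 (S L L)) (T (S L L) L))) (F 64 (T (S L L) L))))) (F 5 (T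 (U (S (V (F 32 (S L L)) (T L L)) (T (F 32 (V L L)) (V L L))) (V (S L L) (S L (S L L)))) (U (S (V (S L L) (S L L)) (T (S L L) (S L L))) (S (T L L) (T L L)))))) (F 128 (T (V (F 2 (S (F 3 (U (T L L) L)) (U (T (F 1 (S L L)) (S L L)) (T L L)))) (F 16 (U (F 1 (S (V (S L L) (S L L)) (V (F 2 (S L L)) (S L L)))) (F 1 (S (T L L) (T L L)))))) (F 16 (V (F 16 (U (T (S L L) (S L L)) (S L L))) (T (F 1 (U (S (S L L) (S L L)) (S L L))) (F 1 (U (S (S L L) (S L L)) (S L L))))))))))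
noncomputable def w12_51 : Tr := (T (U (V (F 32 (U (T (V (F 16 (S (S L L) L)) (S (F 24 (S L L)) (F 16 (U L L)))) (V (S L L) (F 8 (S (S L L) (S L L))))) (T (S (F 16 (V L (S L L))) (F 16 (V L L))) (V (S L L) (F 8 (S (S L L) L)))))) (F 4 (U (F 2 (T (V (S (F 1 (S L L)) (T L (S L L))) (F 1 (S (U (S L L) L) (U L L)))) (S (F 1 (V (S L L) (S L L))) (V (S L L) (F 1 (U L L)))))) (S (T (F 32 (V L (S L L))) (F 32 (V L (S L L)))) (F 2 (T (V (S L L) L) (V L L))))))) (V (F 32 (U (T (V (F 16 (S L L)) (S L L)) (V (S L L) (F 8 (S L L)))) (T (S L L) (S L L)))) (F 4 (U (S (V (F 2 (T L L)) (F 32 (T L L))) (F 2 (T (T L L) (S L L)))) (S (T L L) (F 2 (T L L))))))) (U (F 4 (V (F 2 (U (V (S L L) (T (S (S L L) L) (S L L))) (T (S (V L L) (U L L)) (S (S L L) (S L L))))) (S (T (F 32 (U (V L (S L L)) (V L L))) (F 32 (U (V L (S L L)) (V L L)))) (F 2 (U (T (V (U L L) (F 1 (S L L))) (V (S L L) L)) (T (V L L) (V L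 L))))))) (V (F 32 (T (U (V L L) (S L L)) (F 8 (U (S L L) L)))) (F 4 (U (S (T (F 32 (S L L)) (F 32 (S L L))) (T (F 2 (S L L)) (S L L))) (V (F 2 (S L L)) (S L L)))))))
noncomputable def w12_52 : Tr := (T (U (V (U (T (S (F 16 (V L (T L L))) (F 16 (V L (S L L)))) (V (S L L) (F 8 (U (S L L) (S L L))))) (T (S (F 16 (V L L)) (F 16 (V L L))) (V (S L L) (F 8 (S L L))))) (F 8 (U (V (S (T (T (S L L) L) (S L L)) (T (U (S L L) L) (U L L))) (T (S (U (S L L) (S L L)) (S L (S L L))) (S (U (S L L) L) (U (S L L) L)))) (T (S (V (S L L) (S L L)) (V (S L L) (U L L))) (S (V (S L L) L) (V (S L L) (S L L))))))) (V (U (T (S (F 16 (S L L)) (F 16 (S L L))) (V (S L L) (S L L))) (T (S L L) (S L L))) (F 8 (U (T (S (S L L) (S L L)) (S (S L L) (S L L))) (T (S L L) (S L L)))))) (U (T (U (V (V L (F 8 (T (S L L) L))) (F 8 (S (V (U L L) (S L L)) (V (U L L) (S L L))))) (V (V (S L L) (F 8 (S L L))) (F 8 (V (S L L) (S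 L L))))) (F 8 (U (V (S (T L L) L) (S (V (S L L) (S L L)) (V (S L L) (S L L)))) (V (S (V L L) (V L L)) (S (V L L) (V L L)))))) (V (T (U (V (S L L) L) (S L L)) (F 8 (U (S L L) (S L L)))) (F 8 (S (U (T (S L L) (S L L)) (S L L)) (U (T (S L L) (S L L)) (S L L)))))))
noncomputable def w12_53 : Tr := (S (F 64 (T (V (U (V (F 8 (S L L)) (S (T L L) (T L L))) (V (F 8 (S L L)) (S (S L L) (S L L)))) (S (V (U (T L L) (S L L)) (U (T L L) (S L L))) (T (U (V L (S L L)) (V L L)) (F 32 (U (V L L) (S L L)))))) (V (U (S (S L L) L) (S (S L L) (F 32 (S L L)))) (S (U (V (S L L) (S L L)) (V L (S L L))) (F 32 (U (V (S L L) (S L L)) (V L L))))))) (F 1 (T (V (F 16 (U (T (S L L) L) (T (S L L) (S L L)))) (F 1 (U (S (T (V L L) (V L L)) (V (F 2 (T L L)) (T (S L L) L))) (S (V (S L L) (S L L)) (T (V L L) (S L L)))))) (V (F 16 (U (S L L) (S (F 16 (S L L)) (T L L)))) (F 1 (S (U (T (V L L) (S L L)) (V (S L L) (S L L)))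 (U (T (V L L) (V L L)) (T (S L L) (S L L)))))))))
noncomputable def w12_54 : Tr := (T (F 48 (S (V (F 16 (U (T (S L L) L) (T (V L (S L L)) (S L (S L L))))) (S (T (F 1 (V (F 2 (S L L)) (U (S L L) L))) (F 1 (U (V L (S L L)) (S L L)))) (F 16 (U (T (V (S L L) L) (V L L)) (T (V L L) (S L L)))))) (F 16 (V (U (T (U L (S L L)) (S L L)) (T (S (S L L) (S L L)) (S (S L L) (S L L)))) (U (T (V (S L (S L L)) (S (S L L) (S L L))) (V (S L L) (S (S L L) (S L L)))) (S (T (V L L) (V L L)) (T (V L L) (V L L)))))))) (F 48 (S (V (F 16 (U (S L L) (T (V L (S L L)) (S L L)))) (U (S (F 1 (V (F 2 (S L L)) (T (S L L) L))) (F 16 (V (T L L) (F 16 (T L L))))) (S (T (F 1 (S L L)) (F 1 (S L L))) (T (F 16 (S L L)) (V L L))))) (F 16 (V (U (V (S L L) (S L L)) (T (V L (S L L)) (V L (S L L)))) (U (T (V (S L L) (S (S L L) (S L L))) (S (V L (S L L)) (V L (S L L)))) (S (T (S L L) (S L L)) (T (V L L) (V L L)))))))))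
noncomputable def w12_55 : Tr := (V (F 136 (U (T (F 16 (V (S (S L L) (T (S L L) L)) (S (U (S L L) (V L L)) (U (S L L) (V (S L L) (F 4 (S L L))))))) (V (U (K 1) (F 16 (S L (S L L)))) (F 24 (S (T L L) (U (S (K 3) L) (T L L)))))) (F 16 (T (S (V (U (S L L) (S L L)) (V (U L L) (F 4 (S L L)))) (V (T (U (S L L) L) (S L L)) (U (T (S L L) (S L L)) (T L L)))) (S (V (U L L) (F 4 (T (S L L) (S L L)))) (V (U (S L L) (S L L)) (F 4 (T (S L L) (S L L))))))))) (F 16 (U w12_54 (F 48 (S (T (V (F 16 (T (U (S L L) L) (U (S L L) L))) (U (S (T L L) (V (F 16 (S L L)) (S L L))) (V (F 16 (S L L)) (S L L)))) (V (F 16 (U (S (S L L) (T L L)) (S L L))) (U (S (T L L) (V L (S L L))) (S (S L L) (S L L))))) (F 16 (T (V (T (U (S L L) (S L L)) (U (S L L) (S L L))) (U (S (T (S L L) L) (T (S L L) (S L L))) (S (S L L) (S L L)))) (V (T (V (S L L) (T L L)) (U (S L L) (S L L))) (U (S (T L (S L L)) (T (S L L) (S L L))) (S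 (T L L) (T L L)))))))))))
noncomputable def w12_56 : Tr := (T (F 1024 (V (F 136 (U (F 32 w12_47) (F 32 w12_48))) (F 4 (S (F 64 w12_50) (F 65 (S w12_51 (F 32 w12_52))))))) (S (F 1088 (V (F 64 (U (F 32 (T (S (V L (F 4 (U L (S L L)))) (F 64 (V L (U L (S L L))))) (V (S L L) (F 4 (S (S L L) (F 1 (T L L))))))) (F 32 (T (V (S (U L L) (F 64 (U L L))) (S (U (S L L) (S L L)) (F 64 (T (S L L) (F 8 (S L L)))))) (V (F 64 (S L (S L L))) (F 4 (S (S (S L L) L) (F 1 (S L L))))))))) (F 12 (U w12_53 (S (T (V (S (F 64 (V L (S L L))) (F 65 (T (S L L) L))) (F 64 (S (U (V L L) (S L L)) (F 32 (U (T L L) L))))) (F 64 (V (S (T L L) (F 32 (T L L))) (S (U (S L L) L) (F 32 (V (S L L) (S L L))))))) (F 1 (T (V (U (F 16 (S (S L L) (T L L))) (T L L)) (F 1 (U (S (T L L) (T L L)) (S (S L L) (S L L))))) (V (S (T L L) (F 16 (U (S L L) L))) (F 1 (S (U (S L L) L) (U (T L L) L))))))))))) (F 1025 w12_55)))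
noncomputable def w12_57 : Tr := (S (V (K 3) (F 64 (S (F 2 (T (U (V (K 3) (T (F 32 (S L L)) (F 1 (S L L)))) (V L (T (F 32 (S (V L L) (F 64 (S L L)))) (F 1 (S (S L L) (S L L)))))) (F 1 (V (S L L) (U (S (S L L) (S L L)) (S (T (S L L) L) (T (S L L) L))))))) (F 256 (T (V (F 18 (S L L)) (F 64 (U (T (F 4 (S L L)) (S L L)) (S (F 4 (T (S L L) L)) (T (F 4 (S L L)) (S L L)))))) (U (F 64 (T (S L L) (S L L))) (V L (F 64 (T (S (S L L) (S L L)) (S (S L L) (S L L))))))))))) (F 1 (V (K 6) (T (F 24 (S (V (F 2 (S (K 4) (K 4))) (U (F 2 (T L L)) (F 64 (T (S L L) (F 1 (S L L)))))) (F 66 (V (S (K 3) (K 3)) (U (S L (K 3)) (T (S L L) (S L (S L L)))))))) (S (F 8 (V (F 18 (S (K 4) (K 4))) (F 64 (U (F 32 (S L L)) (F 1 (V (F 18 (S L L)) (S (T (S L L) (S L L)) (F 18 (T L L))))))))) (F 145 (V (S (K 1) (K 1)) (F 8 (U (T L L) (T (S L (S L L)) (S (S L L) L)))))))))))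
noncomputable def w12_58 : Tr := (S (F 2 (V (F 128 (S (K 1) (K 1))) (S (F 10 (T (V (S L L) (U (S (S L L) (S L L)) (S (T (S L L) (S L L)) (T L (S L L))))) (V (S (S L L) L) (U (S (T L L) (T L L)) (S (T (S L L) (V L L)) (T (S L L) (V L (S L L)))))))) (F 2 (T (F 32 (U (T (S L L) (S L L)) (V L (S (T (S L L) (S L L)) (T (S L L) (S L L)))))) (F 32 (U (V (K 4) (T (S L L) (F 64 (S L L)))) (V L (S (T (U L L) (F 64 (U L L))) (F 1 (T (S L L) (F 1 (U L L))))))))))))) (F 2 (V (F 129 (S (K 1) (K 1))) (U (F 128 (T (S (V (K 1) (F 80 (S (S L L) L))) (F 129 (V (K 5) (S L (F 8 (T L L)))))) (F 1 (V (F 1 (S (K 0) (K 0))) (F 2 (U L (F 32 (S (F 2 (S L L)) (T L L))))))))) (F 1 (T (S (V (F 2 (S L L)) (F 160 (U (F 16 (T L L)) (T (S L L) (S L L))))) (F 3 (V (F 8 (T L L)) (V (F 8 (T L (S L L))) (F 5 (T (S L L) (S (S L L) L))))))) (F 1 (S (V (F 64 (S L L)) (F 1 (T (F 16 (U L (S L L))) (F 1 (S (F 2 (S L L)) (U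 L (T L L))))))) (F 64 (V (T L (S L L)) (T (F 32 (U (S L L) (V L (S L (S L L))))) (F 32 (U (S L (S L L)) (S (T L (S L L)) (V L (S L L))))))))))))))))
noncomputable def w12_59 : Tr := (U (F 8 (S (F 128 (T (V (F 132 (U (S L L) (F 32 (S L (S L L))))) (S (U (T (F 5 (S L L)) (F 128 (S L L))) (F 129 (T L L))) (F 129 (V (F 16 (T L L)) (T (F 16 (S L L)) (S L L)))))) (F 128 (V (U (S L L) (F 64 (T (S L L) L))) (S (U (V L (S L L)) (F 64 (S L L))) (F 64 (U (V L (S L L)) (T L L)))))))) (F 257 (T (V (F 32 (U (F 8 (S L L)) (F 8 (S L (S L L))))) (F 1 (S (F 16 (U (V (S L L) (S L L)) (T L L))) (F 16 (U (V (S L L) (T L L)) (V L (S L L))))))) (V (F 32 (T (F 8 (T L L)) (F 32 (U L L)))) (F 1 (S (U (V (S L L) (S L L)) (T L L)) (U (V (S L L) (T L L)) (V (S L L) (S L L)))))))))) (F 521 (S (F 64 (T (V (F 2 (S L (S L L))) (S (T L L) (T L (S L L)))) (V (S L (S L L)) (S (S L L) (T L L))))) (T (F 16 (V (S (F 1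 (S L L)) (F 16 (T L L))) (F 1 (S (V L (S L L)) (U (S L L) L))))) (V (S (F 64 (S L L)) (F 18 (T L L))) (F 64 (S (U (S L L) L) (U (T L L) L))))))))
noncomputable def w12_60 : Tr := (U (S (F 160 (T (V (U (S L L) (F 1 (S L (S L L)))) (S (U (V L (S L L)) (F 1 (S L L))) (F 1 (U (V L (S L L)) (T L L))))) (V (U (S L L) (F 1 (S (S L L) (S L L)))) (S (U (V (S L L) (S L L)) (F 1 (S L L))) (F 1 (U (V (S L L) (S L L)) (V L (S L L)))))))) (F 256 (T (F 5 (V (F 2 (U (S L L) (T L (S L L)))) (S (U (V (S L L) (S L L)) (V L L)) (U (V (T L L) (T L L)) (V (S L L) (S L L)))))) (F 1 (V (F 2 (U (S L L) (S (F 2 (S L L)) (F 32 (T L L))))) (F 32 (S (U (T (V L L) (F 32 (V L L))) (T (S L L) (F 32 (S L L)))) (F 32 (U (V (F 1 (S L L)) (T L L)) (V (S L L) (S L L))))))))))) (F 256 (S (F 5 (T (V (S L (S L L)) (S (S L L) (T L L))) (V (S (S L L) (T L L)) (S (V L L) (U (S L L) L))))) (V (T (S (F 5 (T L L)) (F 64 (U (F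 16 (S L L)) L))) (F 1 (S (U (F 32 (S L L)) L) (F 3 (U (S L L) L))))) (F 5 (T (S (U (S L L) L) (U (T L L) L)) (S (U (T L L) L) (F 1 (U (T L L) L)))))))))
noncomputable def w12_61 : Tr := (T (S (F 32 (V (F 36 (U (S L L) (T (S L L) (S L L)))) (U (S (F 1 (V (F 18 (S L L)) (T L (S L L)))) (F 36 (V (T L L) (F 16 (T L L))))) (F 4 (S (F 32 (V L (S L L))) (V (F 2 (S L L)) (F 32 (S L L)))))))) (F 18 (V (U (T L (S L L)) (F 4 (V (S L (T L L)) (S (S L L) (S L L))))) (F 4 (U (T (V (S L L) (S (S L L) (S L L))) (V (S L L) (S L (S L L)))) (S (V (T L L) (T L L)) (V (T L L) (T L L)))))))) (S (V (F 2 (U (F 12 (S L L)) (T (F 12 (S L L)) (U L (F 12 (S L L)))))) (F 32 (T (F 5 (U (V (F 2 (S L L)) (S L L)) (V L (S L L)))) (F 1 (U (S (V L (S L L)) (F 2 (U (S L L) L))) (V (F 18 (S L L)) (S L L))))))) (F 2 (V (F 8 (U (T (S L L) (S L L)) (T (V (S L L) (F 8 (S L L))) (S (S L L) (F 1 (V L L)))))) (U (F 12 (T (V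 (S L (S L L)) (S L (V L L))) (S (V (S L L) (F 16 (S L L))) (F 1 (V L (S L L)))))) (S (F 4 (V (F 8 (T L L)) (T L L))) (F 8 (T (F 8 (V L (S L L))) (F 1 (V L L))))))))))
noncomputable def w12_62 : Tr := (V (F 128 (T (F 16 (V (U (F 8 (U (K 1) (T L (S L L)))) (S (F 8 (S L L)) (T (U L L) (F 8 (S L L))))) (F 8 (U (T (F 8 (S (S L L) (T L L))) (S (V L L) (T L L))) (S (F 8 (S L (S L L))) (S (F 8 (T L L)) (V L (F 8 (S L L))))))))) (F 8 (U (F 8 (V (S L (U (K 1) (S L L))) (S (U L (T L L)) (U (S L L) (T (S L L) (S L L)))))) (F 8 (S (V (T L L) (T (F 8 (S L L)) (S L L))) (V (T (S L L) (F 1 (S L L))) (T (S (S L L) (S L L)) (F 1 (S L (S L L))))))))))) (F 16 (U w12_61 (S (F 32 (V (F 36 (T (U (S (S L L) (T L L)) (S L L)) (U (S L (S L L)) (T L L)))) (T (F 4 (S (F 32 (U (S L L) L)) (V (F 2 (S L L)) (F 32 (T L L))))) (S (F 1 (U (T L L) (S L L))) (F 4 (V (F 2 (T L L)) (F 32 (T L L)))))))) (F 18 (T (F 4 (V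 (T (U (S L L) (S L L)) (U (S L L) (S L L))) (U (S (T L L) (T (S L L) (S L L))) (S (S L L) (T L L))))) (V (U (V (S L (T L L)) (S L (S L L))) (S (F 4 (T L L)) (T L L))) (F 4 (U (S (V (S L L) (S L L)) (T (S L L) (F 1 (S L L)))) (S (S L L) (S L L)))))))))))
noncomputable def w12_63 : Tr := (U (T (F 8 (S (V (S L L) (T L L)) (F 1 (V (U (K 4) (T L (S L L))) (U (T L L) (V (T L (S L L)) (T L (S L L)))))))) (F 64 (V (F 4 (S (V (T L L) L) (U (S (K 4) (V L (T L L))) (T (S L (T L L)) (V (S L L) (V (S L L) L)))))) (S (U (S L L) (T L (S L L))) (F 4 (U (T (S L L) (V L L)) (T (S L (V L L)) (S (T L L) (V L L))))))))) (S (T (V (F 72 (U (S L L) L)) (U (F 8 (S L (F 1 (T L L)))) (F 8 (S L L)))) (F 64 (V (F 4 (S (U L L) (T L (U L L)))) (U (S (S L L) (F 4 (T L L))) (T (F 4 (S L L)) (S L L)))))) (F 72 (T (V (T (V L (S L L)) (S (S L L) (T L L))) (S (U (V L L) (S L L)) (T (U L L) (U (S L L) L)))) (V (T (S (S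 L L) (V L L)) (V (S L L) (U (S L L) L))) (U (V (S (S L L) (T L L)) (S (S L L) (S L L))) (S (T L L) (T L L))))))))
noncomputable def w12_64 : Tr := (S (U (V (F 64 (S (F 32 (T L L)) (V (S L L) (F 32 (T L L))))) (F 1 (S (F 16 (V (F 16 (T L L)) (T (S L L) (S L L)))) (F 1 (T (F 2 (V (S L L) (S L L))) (V (U L L) (F 2 (S L L)))))))) (V (F 64 (T (S (F 32 (S L L)) (V L L)) (S (F 32 (S L L)) (V L L)))) (F 1 (S (F 16 (V (F 16 (S L L)) (T L L))) (F 1 (V (T L L) (F 2 (S L L)))))))) (F 64 (U (V (T (F 4 (V L (S L (S L L)))) (V (F 4 (S L L)) (S (T L L) (F 4 (S L L))))) (S (F 32 (V (T (S L L) (S L L)) (T (F 2 (S L L)) (S L (S L L))))) (V (T (F 4 (U (S L L) L)) (F 32 (U (S L L) L))) (F 32 (T (U (S L L) L) (S (S L L) L)))))) (V (S (T (F 4 (V L L)) (V L (S L L))) (F 4 (T (V L L) (V L L)))) (S (F 32 (T (V (S L L) L) (V (S L L) (S L L)))) (V (T (F 4 (S L L)) (S L L)) (F 32 (T (S L L) (S L L)))))))))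
noncomputable def w12_65 : Tr := (U (T (S (V (F 2 (U (T L (S L L)) (V (F 8 (T L L)) (F 4 (S L (F 8 (S L L))))))) (F 160 (U (S (V (F 16 (T L L)) (T (S L L) (S L L))) (F 16 (T (V L (S L L)) (F 1 (V L L))))) (S (V (F 16 (S L L)) (T L L)) (F 16 (T (V L L) (F 1 (S L L)))))))) (F 3 (V (F 8 (U (T (S L (S L L)) (S L (T L L))) (T (V (S L L) (S L L)) (S (V L L) (V L L))))) (U (V (F 8 (T (S L (V L L)) (S L (U L L)))) (F 4 (S (F 16 (T (S L L) (S L L))) (F 4 (T (F 1 (S L L)) L))))) (S (V (T L (F 1 (S L L))) (F 5 (T L L))) (T (F 8 (V (S L L) L)) (V (F 8 (S L L)) (F 1 (S L L))))))))) (F 1 w12_64)) (S (T (V (F 2 (T (F 12 (S L (S L L))) (F 64 (U (S L L) (S L L))))) (F 128 (U (F 2 (V (F 2 (S L L)) (S (S L L) (S L L)))) (F 2 (S (S L L) (F 1 (S L L))))))) (F 1 (V (F 64 (U (S (T L L) (T (S L L) (S L L))) (S L (S L L)))) (F 1 (U (S (F 16 (T L L)) (V (F 1 (S L L)) (F 16 (S L L)))) (S (S L L) (T L L)))))))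 (F 3 (T (V (U (F 8 (S (T L L) (V (S L L) (S L L)))) (S (T L L) (F 8 (T (S L L) L)))) (S (F 4 (V (F 4 (T L L)) (F 16 (T L L)))) (F 8 (U (V (S L L) (F 4 (S L L))) (T L L))))) (V (U (S (V (F 8 (S L L)) (S L L)) (F 8 (T (S L L) (S L L)))) (T (F 8 (S L L)) (V (S L L) L))) (U (S (F 1 (T (S L L) (S L L))) (V (T L L) (F 1 (T L L)))) (S (T L L) (T L (S L L)))))))))
noncomputable def w12_66 : Tr := (U (F 540 (U (F 8 (V (K 7) (S (F 17 (V (K 4) (F 256 (T (U (F 64 (S (K 3) (K 3))) (F 64 (S (V (K 3) (T (T (S L L) L) (F 1 (S L L)))) (F 1 (S (K 4) (K 4)))))) (U (F 320 (S (K 2) (K 2))) (F 256 (T (F 2 (S (S L L) (S (K 4) (K 4)))) (F 2 (S (S L L) L))))))))) (F 2817 (V (K 1) (U (K 1) (T (F 16 (S (K 5) (K 5))) (T (S (K 1) (K 1)) L)))))))) (F 4100 (T (F 256 w12_57) (F 1024 w12_58))))) (F 24605 (S (F 32 (T (V (F 641 (U (T (V L (F 16 (S L (F 4 (S L L))))) (V (S L L) (S L (S L L)))) (T (F 24 (V (S L L) (S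 (S L L) (U L L)))) (S (F 16 (U L L)) (F 8 (V L (F 4 (U (S L L) L)))))))) w12_59) (F 512 (V (F 258 (U (T (S (S L L) (V L (S L L))) (S (V L L) (V L (U L (S L L))))) (T (S (V L (S L L)) (V (U L L) (T L (S L L)))) (S (V L (F 1 (S L (S L L)))) (F 64 (V (U (S L L) L) (S (S L L) (T L L)))))))) w12_60)))) (F 1025 (T w12_62 (F 16 (V (F 2 w12_63) w12_65)))))))
noncomputable def w12_67 : Tr := (T (F 1 (V (U (S (V (T (V L (S L L)) (S L L)) (U (T (S L L) (F 32 (S L L))) (F 32 (T L L)))) (V (T (F 4 (S L L)) (S L L)) (T (U (S L L) L) (U (F 32 (S L L)) L)))) (V (S (S L L) (S L L)) (S (F 32 (U (S L L) L)) (T (S L L) L)))) (U (F 32 (S (V (T (U (S L (S L L)) (S L L)) (U (S (S L L) (S L L)) (S L L))) (T (S (V L L) (V L L)) (S (V L L) (V L L)))) (T (V (U (S (S L L) L) (S L L)) (S (V L L) (T L (S L L)))) (V (U (S (S L L) L) (S L L)) (S (V L L) (T L L)))))) (S (F 32 (V (T L (S L L)) (T (S L L) (S L L))))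 (V (T (S L L) L) (F 32 (T (S L L) (S L L)))))))) (V (U (S (F 1 (V (T (S L L) L) (F 32 (U (T (S L L) L) (T L L))))) (V (T (F 1 (S L L)) L) (F 2 (T (F 32 (S L L)) L)))) (S (F 3 (V L (S L L))) (V L (T L L)))) (F 2 (S (U (V (T (F 32 (U (S L (S L L)) (S L L))) (U (S L L) L)) (T (F 32 (S (V L L) (S L L))) (S L (S L L)))) (V (S L L) (T (F 32 (S L L)) L))) (U (T (V (U (S L L) L) (S (S L L) (S L L))) (V (U (S L L) L) (S L L))) (V (S L L) (T (S L L) L)))))))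
noncomputable def w12_68 : Tr := (T (V (V (F 34 (U (T (F 32 (S (S L L) (S L L))) (F 32 (S L L))) (S (F 32 (S L L)) L))) (F 1 (U (S (F 64 (T (U (S L L) L) (V L L))) (F 64 (T (U L L) (S L L)))) (T (F 64 (S L L)) (F 64 (S L L)))))) (F 1 (U (V (S (F 96 (T (U (S L L) L) (S (S L L) L))) (T (F 64 (U (S L L) L)) (F 32 (T L (S L L))))) (F 32 (S (T (F 1 (U (S (S L L) (S L L)) (S L L))) (U (S L (S L L)) (S L L))) (U (T (S (F 1 (S L L)) L) (S (S L L) L)) (T L (S L L)))))) (S (T (F 64 (V (S L L) (F 1 (S L L)))) (V (F 64 (S L L)) (F 32 (S L L)))) (T (F 64 (V (S L L) L)) (V (S L L) L)))))) (V (U (V (F 32 (T (S L L) (S L L))) (F 5 (S (T (S L L) L) (T L L)))) (T (F 1 (S L L)) (S L L))) (F 4 (U (F 64 (S (T (V (U (S L L) L) (U (T L L) L)) (V (U L L) (T (S L L) L))) (V (T (S L L) (S L L)) (U (T (S L L) (S L L)) (T L L))))) (F 64 (S (V (T L L) (S L L)) (T (V L L) (S L L))))))))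
noncomputable def w12_69 : Tr := (S (F 1028 (T (U (F 576 (V (S (V (S L L) (T (F 2 (S L L)) (S L L))) (T (F 34 (S L L)) L)) (S (V (T (F 2 (T L L)) L) (T (F 2 (S L L)) (S L L))) (T (F 34 (V (S L L) (S L L))) (V (S L L) L))))) (F 576 (V (T (F 2 (S L L)) (S L L)) (S (V (S L L) (S L L)) (T (F 34 (S L L)) L))))) (F 64 (S (F 1 (V (U (V L (S L L)) L) (U (T (S L L) (S L L)) (S L L)))) (V (U (F 1 (T L L)) (F 1 (S L L))) (F 1 (U (T (S L L) (S L L)) (S L L)))))))) (F 1028 (T (V (F 4 (U (F 8 (S (F 128 (T L L)) (T (F 32 (S L L)) (S L L)))) (S (F 1 (S L L)) (S L L)))) (F 64 (U (F 1 (S (T (F 4 (V (F 2 (S L L)) (T L L))) (F 4 (V (S L L) L))) (F 4 (V (T L L) (U (T (S L L) (S L L)) (T L L)))))) (F 65 (S (T L L) (T (F 32 (S L L)) (S L L))))))) (F 64 (V (U (S (T L L) (F 320 (T L (S L L)))) (S L L)) (F 1 (U (S (T (V (S L L) L) (V (S L L) L)) (F 1 (V (F 32 (T L L)) (T (F 32 (S L L)) (F 32 (S L L)))))) (S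 (T L L) (F 5 (T L L))))))))))
noncomputable def w12_70 : Tr := (T (V (F 32 (T (F 32 (U (V (S (S L L) (F 32 (S L L))) (S (F 1 (S L L)) (F 32 (U (S L L) L)))) (V (S L L) (S L L)))) (U (S (V L (S L L)) (F 1 (V L (T L L)))) (V L (S L L))))) (U (S (F 1 (T (V (F 64 (U (S L L) L)) (F 32 (U (V (S L L) (S L L)) (S L L)))) (F 32 (V (S (S L L) L) (S (T L L) (F 32 (S L L))))))) (F 128 (T (V (F 2 (T L (S L L))) (F 80 (U (S L L) L))) (V (S L (F 2 (S L L))) (F 80 (U (S L L) L)))))) (S (F 1 (V (T (F 64 (S L L)) L) (F 32 (U (T L L) (S L L))))) (F 128 (V (T (S L L) L) (F 80 (T (S L L) (S L L)))))))) (V (F 32 (S (U (T (V L (S L L)) (F 1 (V L L))) (F 1 (T L L))) (F 1 (U (T (V L (S L L)) (V L L)) (T L L))))) (F 4 (U (S (F 64 (V (T (S L L) L) (T (S (U L L) L) (F 32 (U (S L L) L))))) (F 1 (T (V (S L L) (U (S L L) L)) (V (S L L) (S L (S L L)))))) (S (F 64 (T (V L L) (F 32 (T L L)))) (F 1 (V (T L L) (T L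 L))))))))
noncomputable def w12_71 : Tr := (T (V (F 32 (T (U (V (S (F 16 (T L L)) (F 16 (T (S L L) (S L L)))) (S (F 16 (U (S L L) L)) (U (T L (S L L)) L))) (S (F 16 (V L L)) (F 16 (V L L)))) (U (S (V (T L L) (U (S L L) L)) (V (T L L) (U (T L L) L))) (S (V L L) (V L L))))) (U (S (T (V (F 32 (U (V L (S L L)) (S L L))) (F 4 (U (V L (S L L)) (S L L)))) (V (F 32 (T (S L L) L)) (F 4 (U (S L (S L L)) (S L L))))) (F 32 (T (V (U (T (S L L) L) (S L L)) (U (F 8 (S L L)) (S L L))) (V (U (S L L) (S L L)) (F 8 (U (S L L) L)))))) (T (S (V (F 32 (S L L)) L) (F 32 (V (S L L) L))) (S (V L L) (F 32 (V (S L L) L)))))) (V (F 32 (S (U (T (V L (S L L)) (V (S L L) L)) (T (S L L) (S L L))) (U (T (V (U (S L L) L) (T L L)) (V (S L L) (F 8 (S L L)))) (T (T L L) (S L L))))) (F 4 (S (U (T (V (F 2 (S L L)) (U (S L L) (S L L))) (V (F 2 (S L L)) (U (S L L) L))) (T (V L L) (V L L))) (T (U (F 2 (V (T (S L L) L) (U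 (S L L) L))) (V L (S L L))) (U (V (F 2 (S L (S L L))) (S (S L L) (F 2 (S L L)))) (V L L)))))))
noncomputable def w12_72 : Tr := (T (V (F 136 (U (T (S (F 8 (V L L)) (V (S L L) (F 8 (T L L)))) (F 8 (S (V L (S L L)) (V (F 32 (S L L)) (S (S L L) (F 32 (S L L))))))) (T (S (F 16 (S L L)) (V L L)) (S (S L L) (V L L))))) (F 16 (S (F 32 (U (T (F 4 (V (F 2 (S L L)) (U (S L L) L))) (V (F 36 (S L L)) (S (F 1 (S L L)) (F 4 (S L L))))) (V (F 36 (S L L)) (T L (S L L))))) (F 16 (T (F 4 (U (V (F 2 (S L (S L L))) (U (F 2 (S L L)) (S L L))) (V L (S L L)))) (U (V (F 32 (S (F 8 (S L L)) (F 1 (T L L)))) (F 4 (U (F 2 (T L L)) (S L L)))) (V L (F 4 (S L L))))))))) (F 16 (V (F 2 (T (F 8 (S (U (V (F 1 (S L L)) (S L L)) (F 1 (S L L))) (F 1 (U (V (T L (S L L)) (S (S L L) (T L L))) (V L L))))) (F 64 (U (S (V (S L L) (U (S L L) L)) (V (F 4 (T (S L L) (S L L))) (U (F 4 (T L (S L L))) (F 4 (S L L))))) (S (V L L)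 (F 4 (V (S L L) (S L L)))))))) (U (S (T (V (F 2 (S (F 4 (S L L)) (F 72 (T L L)))) (F 32 (S (F 1 (S L L)) (F 64 (T L L))))) (F 1 (V (F 64 (S (S L L) (S L L))) (F 1 (S (F 16 (S L L)) (T L L)))))) (F 1 (T (F 64 (V (F 4 (U (S L L) (S L L))) (S (F 8 (S L L)) (F 4 (T L L))))) (F 64 (V (U (S (S L L) (F 4 (S L L))) (S L L)) (U (S L (S L L)) (S L L))))))) (S (V (F 3 (T L L)) (T (F 32 (S L L)) L)) (F 1 (T (V L (S L L)) (V (F 64 (S L L)) (S L L)))))))))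
noncomputable def w12_73 : Tr := (U (F 512 (S (F 1 (T (V (S (F 12 (U (F 18 (T L L)) (S L L))) (F 136 (U (F 8 (T (F 4 (S L L)) (T L L))) (F 16 (T L L))))) (F 20 (U (S (V (T (F 16 (S L L)) L) (F 64 (T (S L L) (U L L)))) (T (F 16 (V (S L L) (F 1 (S L L)))) (V (S L L) (F 64 (S L L))))) (S (F 64 (T L (S L L))) (V (F 16 (S L L)) (T (F 16 (S L L)) (S L L))))))) (F 16 (V (S (U (F 2 (V (S L L) (F 4 (T L L)))) (S L L)) (F 2 (U (T (V L (S L L)) (F 64 (V L (S L L)))) (T L L)))) (U (S (F 128 (V (T L (S L L)) (F 2 (T (S L L) (U (S L L) L))))) (T (F 32 (V (S L L) (F 1 (S L L)))) (F 129 (V (S L L) (U (F 2 (S L L)) L))))) (S (F 32 (V (S L L) (F 1 (T L L)))) (F 32 (V (T L L) (F 1 (T L L)))))))))) (F 1 w12_72))) (F 1536 (S (F 16 (T (F 4 (V (F 16 (S L L)) (U (S L (S L L)) (S L L)))) (V (U (S L L) L) (F 4 (U (S L (S L L)) (S L L)))))) (T (V (F 34 (U (S (F 8 (S L L)) (T L L)) (S L L))) (F 16 (U (S (F 12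 (T L L)) (F 8 (T L L))) (F 12 (S L L))))) (F 1 (V (F 128 (U (F 4 (S (F 8 (S L L)) (F 8 (T L L)))) (F 12 (S L L)))) (F 16 (U (S (T L L) (V L (S L L))) (S L L)))))))))
noncomputable def w12_74 : Tr := (S (F 16640 (T (F 18 (U (F 260 (S (F 320 w12_67) (F 64 w12_68))) (F 12 (S (F 256 (V (T (F 1 (U (F 4 (S (S L L) (S L L))) L)) (U (F 32 (S L L)) L)) (F 34 (T (F 32 (U (S (V L L) (T L L)) (S L L))) (U (S (F 32 (S L L)) (S L L)) (S L L)))))) (T (F 256 (V (F 1 (U (F 4 (V L (S L L))) L)) (F 32 (U (S (F 96 (S L L)) (T L L)) (S L L))))) (F 4 (V (U (S L L) L) (F 1 (U (F 32 (S (S L L) (S L L))) (F 32 (S L L))))))))))) (U (F 8 w12_69) (F 1290 (S (F 1 (T (V (S L L) (U (S (S L L) L) L)) (V (S L L) (S L L)))) (T (F 64 (V (S (F 128 (S L L)) (F 32 (S L L))) (F 128 (U (S L L) L)))) (S (F 1 (V L (S L L))) (F 320 (V L (S L L)))))))))) (F 16640 (T (F 18 (U (F 256 (S (F 192 w12_70) (F 193 w12_71))) (F 12 (T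 (F 4 (S (V (U (F 32 (T (F 32 (S L L)) L)) (F 128 (S L L))) (U (S (F 1 (T L L)) (F 128 (T L L))) (F 128 (S L L)))) (F 128 (V (F 2 (U (T (S L L) (S L L)) (S L L))) (U (S (T L L) (T (S L L) L)) (S L L)))))) (F 5 (S (V (U (S L L) L) (U (S (F 1 (S L L)) (S L L)) (F 4 (S L L)))) (V (F 32 (U (T (S L L) (S L L)) (S L L))) (U (S (T L L) (T (S L L) L)) (F 4 (S L L)))))))))) (F 24 w12_73))))
noncomputable def w12_75 : Tr := (U (F 33555086 (S (F 8390566 w12_42) (F 41943121 (T (F 1802256 (U (F 6 (T (F 780 (U (V (K 5) (S (F 8 (U L (S (F 64 (U L (V L (T (T L (U L (F 1 (S L L)))) (S (T (S L L) L) (T L L)))))) (V (K 3) (F 64 (T (S (S (T L (S L L)) L) L) (F 64 (U L L)))))))) (F 64 (V (K 2) (F 16 (U (K 4) (F 64 (S (T L L) L)))))))) w12_45)) (F 4 (S (F 8 w12_46) (F 528 (V (K 3) (F 96 (U (F 160 (S (K 1) (K 1))) (F 128 (S (T (U (F 2 (V (K 4) (S (F 2 (S L L)) L))) (F 64 (V (F 16 (S L L)) (T (F 16 (S (F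 16 (S L L)) (S L L))) (S (F 1 (S L L)) (F 16 (S L L))))))) (V (F 66 (S L (K 3))) (U (F 2 (S (F 2 (S L L)) (S L L))) (F 64 (S (F 1 (T (S L L) L)) (F 16 (T L L))))))) (F 66 (T (U (V (K 3) (S L L)) (V (U (K 3) (S L (K 3))) (T (S (S L L) (S L L)) (S (S L L) (S L L))))) (V (S (K 3) (K 3)) (U (S L (K 3)) (T (S L L) (S L L)))))))))))))))) (F 6150 w12_56))) (F 1196036 w12_66))))) (F 4293919495 w12_74))
noncomputable def treeW12 : Tr := (F 0xfffffffffffffffbffffffffffffffff2199ce733319ce6333 (V (F 21474836481 w12_14) (F 34361835672 w12_75)))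

theorem pW12 : chkW par treeW12 128 128 384 128 768 256 349525 699051 Lc = true := by decide +kernel

noncomputable def w13_0 : Tr := (T (F 7767969832 (U (F 557088 (U (F 640 (S (F 17 (T (F 4098 (U (V (S (S L L) (F 1792 (T L L))) (F 129 (S (F 128 (T L L)) (F 3 (V L (F 2 (S L L))))))) (V L L))) (F 4231 (V (U (S (F 1 (T (S L L) (F 4 (S L L)))) (F 160 (T (S L L) (F 32 (V L L))))) (F 1 (S L L))) (F 1 (U (S (T (F 34 (S L L)) (S L L)) (F 2 (V (S L L) (F 2 (S L L))))) (S L L))))))) (F 31760 (T (F 384 (V (U (T (S L (F 64 (S L L))) (F 64 (S (S L L) (S L L)))) (S L L)) (F 1 (U (T (S (F 16 (S L L)) (S L L)) (S (S L L) (S L L))) (S L L))))) (F 4 (V (F 128 (U (S (F 64 (T (F 1 (S L L)) (F 2 (V L L)))) (T (F 64 (S L L)) (V L L))) (S L L))) (F 1 (U (F 32 (S (V (S L L) (S L L)) (T (S L L) (S L L)))) (F 32 (S L L)))))))))) (F 4738 (T (F 6147 (S L L)) (F 6208 (S (F 896 (S L L)) (F 515 (S L L))))))))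 L)) (F 7524593759 (U (F 1065216 (V (F 5280 (U (F 512 (S (F 5636 (T (F 290 (U (S (T (F 32 (V L L)) (S L L)) (T (V L L) (S L L))) (S L L))) (F 256 (U (S (T L L) (F 4 (T (S L L) (F 64 (S L L))))) (S L L))))) (F 21 (T (F 540 (U (S (F 32 (T (V L L) (V L L))) (T (V L L) (V L L))) (S L L))) (F 520 (U (F 32 (S (F 1 (U (T (S L L) (S L L)) (S L L))) (T (V L L) (F 64 (V L L))))) (F 32 (S L L)))))))) (F 11020 (S (F 128 (S L L)) (F 1 (S L L)))))) (F 16400 (U (F 512 (S (F 17408 (T (F 406 (U (S (T (F 128 (S L L)) L) (T (S L L) L)) (S L L))) (F 256 (U (S L (F 17 (S L L))) L)))) (F 16433 (T (F 1038 (U (S (T (F 16 (S L L)) (S L L)) (T (V L L) (F 1 (V L L)))) (S L L))) (F 1544 (U (S (T (F 64 (S L L)) (F 1 (S L L))) (T (F 64 (S L L)) (F 1 (V L L)))) (S L L))))))) (F 3601 (S (S L L) (F 3 (S L L)))))))) L)))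
noncomputable def w13_1 : Tr := (T (F 15552577857 (U (F 66080 (U (F 32802 (T (F 18 (S (F 4098 (U (V (F 40 (T (F 128 (S L L)) (F 3 (V (F 2 (S L L)) L)))) (T (S L L) (F 1552 (S L L)))) (V L L))) (F 4111 (V (F 8 (U (T (S (F 36 (S L L)) (S L L)) (F 4 (V (F 2 (S L L)) (S L L)))) (S L L))) (U (T (F 8 (S (S L L) (F 2 (T L L)))) (F 80 (S (S L L) (F 4 (V L L))))) (F 8 (S L L))))))) (F 29072 (S (F 384 (V (F 8 (U (S (T (F 16 (S L L)) (S L L)) (T (S L L) (S L L))) (S L L))) (U (S (T L (F 16 (S L L))) (F 16 (T (S L L) (S L L)))) (S L L)))) (F 1 (V (F 2 (U (F 4 (T (V (S L L) (S L L)) (S (S L L) (T L L)))) (F 4 (S L L)))) (F 64 (U (T (F 32 (S (F 1 (T L L)) (F 16 (V L L)))) (S (F 32 (T L L)) (V L L))) (S L L))))))))) (F 36902 (S (F 6147 (T L L)) (F 7168 (T (F 784 (S L L)) (F 268 (S L L)))))))) L)) (F 12884930686 (U (F 4194704 (V (F 33796 (S (F 1 (U (T (F 6194 (U (F 16 (T (F 136 (S L L)) (S L L)))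 (F 16 (S L L)))) (U (F 256 (T L (F 1024 (S L L)))) L)) (F 368 (S L L)))) (F 19456 (U (F 4096 (T (F 2060 (U (F 4 (T (F 16 (S (F 32 (S L L)) (F 32 (S L L)))) (S L (F 80 (S L L))))) (F 20 (S L L)))) (F 2568 (U (F 2 (T (S L (F 32 (S L L))) (F 128 (S L (F 2 (T L L)))))) (F 2 (S L L)))))) (F 4393 (T L L)))))) (F 262144 (S (F 76172 (U (F 2 (T (F 132 (U (S (F 128 (T (F 1 (S L L)) (F 2 (S L L)))) (T (F 128 (S L L)) (F 128 (S L L)))) (S L L))) (F 8 (U (S (F 256 (T L L)) (F 4 (T L L))) (S L L))))) (F 10 (S L L)))) (F 79876 (U (F 98 (T (F 524 (U (T (S (S L L) (V L L)) (S (S L L) (T L L))) (S L L))) (F 528 (U (S (T (F 32 (S L L)) (S L L)) (T (F 16 (V L L)) (F 1 (V L L)))) (S L L))))) (F 99 (T L L)))))))) L)))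
noncomputable def treeW13 : Tr := (F 0xffffffffffffffffffffffffffffffffffff738000198c2221 (V (F 34896679178 w13_0) (F 68786716693 w13_1)))

theorem pW13 : chkW par treeW13 128 128 256 256 512 512 699051 1398102 Lc = true := by decide +kernel


end Pool.Agent.Lib.H56.Gen.D3
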