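import Pool.Agent.Lib.H56.Gen.Split
import Pool.Agent.Lib.H56.Gen.D3.W0
import Pool.Agent.Lib.H56.Gen.D3.W1
import Pool.Agent.Lib.H56.Gen.D3.W2
import Pool.Agent.Lib.H56.Gen.D3.W3

/-!
# Certificate tree W
-/

set_option maxRecDepth 100000

namespace Pool.Agent.Lib.H56.Gen.D3

noncomputable def treeW : Tr := (Tr.U (Tr.U treeW0 (Tr.V (Tr.T (Tr.V treeW1 (Tr.U treeW2 treeW3)) (Tr.V (Tr.U (Tr.S treeW4 (Tr.T treeW5 treeW6)) treeW7) treeW8)) (Tr.T (Tr.V (Tr.U treeW9 treeW10) treeW11) treeW12))) treeW13)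

theorem okW : chkW par treeW 128 128 256 256 512 512 0 1398102 Lc = true :=
  (chkW_U (c1 := 699051) (by decide +kernel)
  (chkW_U (c1 := 349525) (by decide +kernel)
  pW0
  (chkW_V (c1 := 256) (c2 := 768) (h := 256) (by decide +kernel) (by decide +kernel) (by decide +kernel)
  (chkW_T (c1 := 128) (c2 := 384) (h := 128) (by decide +kernel) (by decide +kernel) (by decide +kernel)
  (chkW_V (c1 := 128) (c2 := 384) (h := 128) (by decide +kernel) (by decide +kernel) (by decide +kernel)
  pW1
  (chkW_U (c1 := 524288) (by decide +kernel)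
  pW2
  pW3))
  (chkW_V (c1 := 128) (c2 := 384) (h := 128) (by decide +kernel) (by decide +kernel) (by decide +kernel)
  (chkW_U (c1 := 524288) (by decide +kernel)
  (chkW_S (c1 := 64) (c2 := 192) (h := 64) (by decide +kernel) (by decide +kernel) (by decide +kernel)
  pW4
  (chkW_T (c1 := 320) (c2 := 448) (h := 64) (by decide +kernel) (by decide +kernel) (by decide +kernel)
  pW5
  pW6))
  pW7)
  pW8))
  (chkW_T (c1 := 128) (c2 := 384) (h := 128) (by decide +kernel) (by decide +kernel) (by decide +kernel)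
  (chkW_V (c1 := 640) (c2 := 896) (h := 128) (by decide +kernel) (by decide +kernel) (by decide +kernel)
  (chkW_U (c1 := 524288) (by decide +kernel)
  pW9
  pW10)
  pW11)
  pW12)))
  pW13)

end Pool.Agent.Lib.H56.Gen.D3
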