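import Pool.Agent.Lib.H56.Gen.D3.Cert
import Pool.Agent.Lib.H56.Gen.Final

/-!
# The eigenvalue bound
-/

set_option maxRecDepth 100000

namespace Pool.Agent.Lib.H56.Gen.D3

theorem gapW4 : GapAt qW dW4.K (25 / 24) := by
  have h : GapAt qW dW4.K ((25 : ℕ) / (24 : ℕ)) :=
    gapAt_LD (bn := 25) (bd := 24) cert okpd (by decide +kernel) (by decide +kernel)
      (by decide +kernel) (by norm_num) (by decide +kernel) dW4 (ka := 1) (kb := 48) (by norm_num)
      (by norm_num) k0_W4 (dP := 192) (Pu := 138565) (Pv := 10000)
      (by decide +kernel) (by decide +kernel) (by norm_num) (by norm_num) (by decide +kernel)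
      (by decide +kernel) (by decide +kernel)
  simpa only [Nat.cast_ofNat] using h

theorem gapW3 : GapAt qW dW3.K (25 / 24) := by
  have h : GapAt qW dW3.K ((25 : ℕ) / (24 : ℕ)) :=
    gapAt_LD (bn := 25) (bd := 24) cert okpd (by decide +kernel) (by decide +kernel)
      (by decide +kernel) (by norm_num) (by decide +kernel) dW3 (ka := 1) (kb := 27) (by norm_num)
      (by norm_num) k0_W3 (dP := 108) (Pu := 103924) (Pv := 10000)
      (by decide +kernel) (by decide +kernel) (by norm_num) (by norm_num) (by decide +kernel)
      (by decide +kernel) (by decide +kernel)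
  simpa only [Nat.cast_ofNat] using h

theorem gapW12 : GapAt qW dW12.K (25 / 24) := by
  have h : GapAt qW dW12.K ((25 : ℕ) / (24 : ℕ)) :=
    gapAt_LD (bn := 25) (bd := 24) cert okpd (by decide +kernel) (by decide +kernel)
      (by decide +kernel) (by norm_num) (by decide +kernel) dW12 (ka := 1) (kb := 36) (by norm_num)
      (by norm_num) k0_W12 (dP := 48) (Pu := 69283) (Pv := 10000)
      (by decide +kernel) (by decide +kernel) (by norm_num) (by norm_num) (by decide +kernel)
      (by decide +kernel) (by decide +kernel)
  simpa only [Nat.cast_ofNat] using h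


end Pool.Agent.Lib.H56.Gen.D3
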